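import Pool.Agent.Lib.H11Q.D0

/-!
# H11Q (MP_a00a7b_an): auxiliary definitions shared by the modules

The paper proof is `PROOF.md` in this directory.  The conformal map of an ellipse onto the disc is
normalized here by `Z = 2 κ ζ` (see `WW`), so the coordinates `s`, `s'` of `PROOF.md` become
`σ = 2 √κ s = ξ + κ conj ξ` and `σ' = ξ - κ conj ξ`, and the model maps are
`β(ξ) = WW κ ((ξ + κ conj ξ)^2 - 2 κ)`, `β'(ξ) = WW κ ((ξ - κ conj ξ)^2 + 2 κ)`.
-/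

set_option autoImplicit false

namespace Pool.Agent.Lib.H11Q

open Complex Set MeasureTheory
open scoped ComplexConjugate Topology

/-! ## The hyperboloid (PROOF.md 1.2) -/

/-- Minkowski space `ℝ × ℂ`. -/
abbrev Mk : Type := ℝ × ℂ

/-- The Minkowski form. -/
noncomputable def mink (x y : Mk) : ℝ := x.1 * y.1 - (x.2 * conj y.2).re

/-- The point of the hyperboloid of a point of the disc. -/
noncomputable def Om (z : ℂ) : Mk :=
  ((1 + ‖z‖ ^ 2) / (1 - ‖z‖ ^ 2), 2 * z / ((1 - ‖z‖ ^ 2 : ℝ) : ℂ))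

/-- The linear action of SU(1,1) on Minkowski space: `Om (g z) = g Om z`. -/
noncomputable def SU.lin (g : SU) (x : Mk) : Mk :=
  ((normSq g.a + normSq g.b) * x.1 + 2 * (g.a * conj g.b * x.2).re,
    2 * g.a * g.b * (x.1 : ℂ) + g.a ^ 2 * x.2 + g.b ^ 2 * conj x.2)

/-! ## The group (PROOF.md 2, 4) -/

/-- The free group on `A`, `B`. -/
abbrev W : Type := FreeGroup (Fin 2)

def wA : W := FreeGroup.of 0
def wB : W := FreeGroup.of 1

/-- The representation `A ↦ gA`, `B ↦ gB`. -/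
noncomputable def rho : W →* SU := FreeGroup.lift ![gA, gB]

/-- The action on the disc. -/
noncomputable def ac : W →* (Disc ≃ₜ Disc) := SU.act.comp rho

/-- The permutation `(0→6, 1→4, 2→2, 3→1, 4→3, 5→0, 6→5)`. -/
def tau : Equiv.Perm (Fin 7) where
  toFun := ![6, 4, 2, 1, 3, 0, 5]
  invFun := ![5, 3, 2, 4, 1, 6, 0]
  left_inv := by decide
  right_inv := by decide

/-- The homomorphism `A ↦ (i ↦ i + 1)`, `B ↦ tau`. -/
def pi7 : W →* Equiv.Perm (Fin 7) := FreeGroup.lift ![finRotate 7, tau]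

/-- The subgroup of index 7. -/
def Gam0 : Subgroup W := (MulAction.stabilizer (Equiv.Perm (Fin 7)) (0 : Fin 7)).comap pi7

/-- The hyperbolic distance `c = d(0, v)`, `cosh c = CC`. -/
noncomputable def cc : ℝ := 2 * Real.arsinh (Real.sqrt ((CC - 1) / 2))

/-! ## Lines (PROOF.md 4.4 - 4.8) -/

/-- Translation by `s` along the real diameter. -/
noncomputable def TT (s : ℝ) : SU where
  a := (Real.cosh (s / 2) : ℂ)
  b := (Real.sinh (s / 2) : ℂ)
  h := by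
    rw [normSq_ofReal, normSq_ofReal]
    nlinarith [Real.cosh_sq (s / 2)]

/-- The half-turn `z ↦ -z`. -/
noncomputable def iot : SU := ⟨I, 0, by simp⟩

/-- `sinh` of the signed distance to the real diameter. -/
noncomputable def sg (z : ℂ) : ℝ := 2 * z.im / (1 - ‖z‖ ^ 2)

/-- The signed distance of `z` to the line `g (real diameter)`. -/
noncomputable def bs (g : SU) (z : ℂ) : ℝ := Real.arsinh (sg (g⁻¹.app z))

/-- `tanh` of the distance `d0` from `0` to the line through `m_0` and `m_1`. -/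
noncomputable def td : ℝ :=
  Real.cos (Real.pi / 7) * Real.sqrt (1 - 4 * Real.sin (Real.pi / 7) ^ 2)

noncomputable def d0 : ℝ := Real.arsinh (td / Real.sqrt (1 - td ^ 2))

/-- `gl0 (real diameter)` is the line `l_0` through `m_0` and `m_1`; its point nearest to `0` has
argument `2π/7` and distance `d0`; `0` is on its negative side: `bs gl0 0 = -d0`. -/
noncomputable def gl0 : SU := rot o0 (2 * Real.pi / 7) * TT d0 * rot o0 (-(Real.pi / 2))

/-- An enumeration of the lines `γ l_0`, `γ ∈ Gam0` (PROOF.md 4.6 - 4.8, 5.3, 5.4). -/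
structure LineSys where
  om : ℝ
  om_pos : 0 < om
  om_le : om ≤ 1
  g : ℕ → SU
  /-- each line is a translate of `l_0` -/
  rep : ∀ n, ∃ γ ∈ Gam0, SU.act (g n) = ac γ * SU.act gl0 ∨
    SU.act (g n) = ac γ * SU.act gl0 * SU.act iot
  /-- `Gam0` permutes the lines -/
  perm : ∀ γ ∈ Gam0, ∀ n, ∃ m, ∃ s : ℝ,
    ac γ * SU.act (g n) = SU.act (g m) * SU.act (TT s) ∨
    ac γ * SU.act (g n) = SU.act (g m) * SU.act iot * SU.act (TT s)
  /-- separation -/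
  sep : ∀ i j, i < j → (∀ z : Disc, bs (g j) z ≤ bs (g i) z - 4 * om) ∨
    (∀ z : Disc, bs (g j) z ≤ -bs (g i) z - 4 * om)
  /-- `0` is on the negative side -/
  neg : ∀ n, bs (g n) 0 ≤ -(4 * om)
  /-- local finiteness -/
  fin : ∀ M : ℝ, {n | M ≤ bs (g n) 0}.Finite
  /-- centres and vertices are far from the lines -/
  cen : ∀ (w : W) (n : ℕ), 4 * om ≤ |bs (g n) (ac w o0)| ∧ 4 * om ≤ |bs (g n) (ac w v0)|

/-! ## The infinitesimal twist (PROOF.md 5.3, 5.9) -/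

/-- A smooth step function: `0` for `x ≤ -w`, `1` for `x ≥ w`, `theta w (-x) = 1 - theta w x`. -/
noncomputable def theta (w x : ℝ) : ℝ := Real.smoothTransition ((x / w + 1) / 2)

/-- Infinitesimal Beltrami coefficient of the twist along the real diameter
(`(i/2) Th'(η) conj(ζ') / ζ'`, `ζ' = 2/(1-z^2)`, `Th(η) = theta (tan η)`, `tan η = sg z`). -/
noncomputable def muS (w : ℝ) (z : ℂ) : ℂ :=
  I / 2 * (deriv (theta w) (sg z) * (1 + sg z ^ 2) : ℝ) * ((1 - z ^ 2) / conj (1 - z ^ 2))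

/-- The same for the line `g (real diameter)` (pull back by `g⁻¹`). -/
noncomputable def muL (w : ℝ) (g : SU) (z : ℂ) : ℂ :=
  muS w (g⁻¹.app z) * ((g⁻¹.den z) ^ 2 / conj ((g⁻¹.den z) ^ 2))

/-- The Beltrami differential `μ` of PROOF.md 5.9 (for each `z` at most one term is not zero). -/
noncomputable def mu (L : LineSys) (z : ℂ) : ℂ := ∑' n, muL (Real.sinh L.om) (L.g n) z

/-- The real linear map `v ↦ α (v + m conj v)`. -/
noncomputable def bel (α m : ℂ) : ℂ →L[ℝ] ℂ :=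
  (ContinuousLinearMap.mul ℝ ℂ α).comp
    (ContinuousLinearMap.id ℝ ℂ + (ContinuousLinearMap.mul ℝ ℂ m).comp conjCLE.toContinuousLinearMap)

@[simp] theorem bel_apply (α m v : ℂ) : bel α m v = α * (v + m * conj v) := by
  simp [bel]
  ring

/-! ## The conformal map of the ellipse onto the disc (PROOF.md 6) -/

/-- `PP n κ Z = 2 κ^n T_n(Z / (2κ))`. -/
noncomputable def PP : ℕ → ℝ → ℂ → ℂ
  | 0, _, _ => 2
  | 1, _, Z => Z
  | (n + 2), κ, Z => Z * PP (n + 1) κ Z - (κ : ℂ) ^ 2 * PP n κ Z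

noncomputable def NN (κ : ℝ) (Z : ℂ) : ℂ :=
  ∑' n : ℕ, (κ : ℂ) ^ (2 * n * (2 * n + 1)) * PP (2 * n + 1) κ Z

noncomputable def DD (κ : ℝ) (Z : ℂ) : ℂ :=
  1 + ∑' n : ℕ, (κ : ℂ) ^ ((2 * n + 2) * (2 * n + 1)) * PP (2 * n + 2) κ Z

/-- `WW κ` maps the ellipse `|Z - 2κ| + |Z + 2κ| < 2 + 2κ²` conformally onto the disc. -/
noncomputable def WW (κ : ℝ) (Z : ℂ) : ℂ := NN κ Z / DD κ Z

/-- The boundary values are taken by `ξ ↦ WW κ (ZZ κ ξ)`, `|ξ| = 1`; `ZZ κ ξ = (ξ + κ conj ξ)² - 2κ`. -/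
noncomputable def ZZ (κ : ℝ) (ξ : ℂ) : ℂ := (ξ + κ * conj ξ) ^ 2 - 2 * κ

noncomputable def ZZ' (κ : ℝ) (ξ : ℂ) : ℂ := (ξ - κ * conj ξ) ^ 2 + 2 * κ

/-- The two maps `β`, `β'` of PROOF.md 6.7. -/
noncomputable def beta (κ : ℝ) (ξ : ℂ) : ℂ := WW κ (ZZ κ ξ)
noncomputable def beta' (κ : ℝ) (ξ : ℂ) : ℂ := WW κ (ZZ' κ ξ)

/-- `a_κ = WW κ (2κ)`. -/
noncomputable def aa (κ : ℝ) : ℝ := (WW κ (2 * κ)).re

/-- `a_0 = tanh (c/4)`. -/
noncomputable def a0 : ℝ := vv / (1 + Real.sqrt (1 - vv ^ 2))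

/-- The parameter `κ_0`, `aa k0 = a0`, `0.07697 < k0 < 0.07698`. -/
noncomputable def k0 : ℝ := sInf {κ : ℝ | 0 ≤ κ ∧ κ ≤ 1 / 10 ∧ a0 ≤ aa κ}

/-- `K_κ = ((1+κ)/(1-κ))²`. -/
noncomputable def KK (κ : ℝ) : ℝ := ((1 + κ) / (1 - κ)) ^ 2

/-- The inverse of `WW κ` on `|Z| ≤ 6/5`. -/
noncomputable def Zi (κ : ℝ) (w : ℂ) : ℂ :=
  Function.invFunOn (WW κ) (Metric.closedBall (0 : ℂ) (6 / 5)) w

/-! ## The quadratic differential and the pairing (PROOF.md 9) -/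

/-- `Z'(w)² / (4 (Z(w) + 2κ)) = (dσ/dw)²`, `σ² = Z + 2κ` (`4κ` times the `Q_c` of PROOF.md). -/
noncomputable def Qc (κ : ℝ) (w : ℂ) : ℂ :=
  1 / (4 * (deriv (WW κ) (Zi κ w)) ^ 2 * (Zi κ w + 2 * κ))

/-- `Q_*(z) = Q_c(g z) g'(z)²`, `g(z) = (z - a_0) / (1 - a_0 z)` (simple pole at `0`). -/
noncomputable def Qst (z : ℂ) : ℂ :=
  Qc k0 ((z - a0) / (1 - a0 * z)) * ((1 - (a0 : ℂ) ^ 2) / (1 - a0 * z) ^ 2) ^ 2

/-- `Re ∫_D μ Q_*(φ) φ'²`. -/
noncomputable def bb (L : LineSys) (φ : SU) : ℝ :=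
  (∫ z in Metric.ball (0 : ℂ) 1, mu L z * (Qst (φ.app z) / (φ.den z) ^ 4)).re

/-- The half-turn which exchanges `0` and `v`: `z ↦ (v - z) / (1 - v z)`. -/
noncomputable def chi : SU where
  a := -(I / (Real.sqrt (1 - vv ^ 2) : ℂ))
  b := I * vv / (Real.sqrt (1 - vv ^ 2) : ℂ)
  h := by
    have h1 := vv_lt_one
    have h2 := vv_pos
    have h3 : 0 < 1 - vv ^ 2 := by nlinarith
    rw [normSq_neg, map_div₀, map_div₀, map_mul, normSq_I, normSq_ofReal, normSq_ofReal,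
      Real.mul_self_sqrt h3.le]
    field_simp

/-- The weights of PROOF.md 9.2. -/
noncomputable def lam (s : ℕ) : ℝ :=
  if s = 2 then Real.cos (Real.pi / 7) / (1 + Real.cos (Real.pi / 7))
  else if s = 5 ∨ s = 6 then 1 / (2 * (1 + Real.cos (Real.pi / 7))) else 0

end Pool.Agent.Lib.H11Q
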