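import Mathlib
import Pool.Agent.Lib.H11Q.D1

/-!
# H11Q module A (arithmetic, tiling, lines): definitions

The other two real embeddings (unitary) `rU k`; the reduction modulo 7 `rho7`; coordinates `co w` of a word in the quaternion algebra over the
ring `R0 = Z[2 cos (pi/7)]`; congruence subgroups `GN N`; the vertices, centres, the segment `[m_0, m_1]`, the half-turns `e0`, `e1`.
-/

set_option autoImplicit false

namespace Pool.Agent.Lib.H11Q

/-- The radius `|m_0|`, `cosh d(0, m_0) = 1 / (2 sin (pi/7))`, `r_1 = tanh (d(0,m_0)/2)`. -/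
noncomputable def r1 : ℝ :=
  Real.sqrt ((1 - 2 * Real.sin (Real.pi / 7)) / (1 + 2 * Real.sin (Real.pi / 7)))

end Pool.Agent.Lib.H11Q

namespace Pool.Agent.Lib.H11Q.A

open Complex Set
open scoped ComplexConjugate Topology Polynomial

/-! ## Words -/

@[simp] theorem rho_wA : rho wA = gA := by simp [rho, wA]
@[simp] theorem rho_wB : rho wB = gB := by simp [rho, wB]

theorem ac_apply (w : W) (z : Disc) : ac w z = SU.act (rho w) z := rfl

theorem ac_coe (w : W) (z : Disc) : ((ac w z : Disc) : ℂ) = (rho w).app z := rfl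

/-! ## The compact form -/

/-- The group SU(2): matrices `((a, b), (-conj b, conj a))` of determinant one. -/
@[ext]
structure SU2 where
  a : ℂ
  b : ℂ
  h : normSq a + normSq b = 1

namespace SU2

instance : Mul SU2 :=
  ⟨fun g k => ⟨g.a * k.a - g.b * conj k.b, g.a * k.b + g.b * conj k.a, by
    have h1 := g.h
    have h2 := k.h
    have e : normSq (g.a * k.a - g.b * conj k.b) + normSq (g.a * k.b + g.b * conj k.a) =
        (normSq g.a + normSq g.b) * (normSq k.a + normSq k.b) := by
      simp only [normSq_apply, add_re, sub_re, sub_im, mul_re, conj_re, conj_im, add_im, mul_im]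
      ring
    rw [e, h1, h2, one_mul]⟩⟩

instance : One SU2 := ⟨⟨1, 0, by simp⟩⟩

instance : Inv SU2 := ⟨fun g => ⟨conj g.a, -g.b, by
    have h1 := g.h
    rw [normSq_conj, normSq_neg]
    exact h1⟩⟩

@[simp] theorem mul_a (g k : SU2) : (g * k).a = g.a * k.a - g.b * conj k.b := rfl
@[simp] theorem mul_b (g k : SU2) : (g * k).b = g.a * k.b + g.b * conj k.a := rfl
@[simp] theorem one_a : (1 : SU2).a = 1 := rfl
@[simp] theorem one_b : (1 : SU2).b = 0 := rfl
@[simp] theorem inv_a (g : SU2) : (g⁻¹).a = conj g.a := rfl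
@[simp] theorem inv_b (g : SU2) : (g⁻¹).b = -g.b := rfl

instance : Group SU2 where
  mul_assoc g k l := by
    ext <;> simp <;> ring
  one_mul g := by ext <;> simp
  mul_one g := by ext <;> simp
  inv_mul_cancel g := by
    have h1 := g.h
    have h2 : conj g.a * g.a + g.b * conj g.b = 1 := by
      rw [← Complex.normSq_eq_conj_mul_self, Complex.mul_conj]
      exact_mod_cast h1
    ext
    · show conj g.a * g.a - -g.b * conj g.b = 1
      linear_combination h2
    · show conj g.a * g.b + -g.b * conj g.a = 0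
      ring

end SU2

/-- The matrix of an element of SU(1,1). -/
noncomputable def SU.mat : SU →* Matrix (Fin 2) (Fin 2) ℂ where
  toFun g := !![g.a, g.b; conj g.b, conj g.a]
  map_one' := by
    ext i j
    fin_cases i <;> fin_cases j <;> simp
  map_mul' g k := by
    ext i j
    fin_cases i <;> fin_cases j <;> simp [Matrix.mul_apply, Fin.sum_univ_two] <;> ring

/-- The matrix of an element of SU(2). -/
noncomputable def SU2.mat : SU2 →* Matrix (Fin 2) (Fin 2) ℂ where
  toFun g := !![g.a, g.b; -conj g.b, conj g.a]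
  map_one' := by
    ext i j
    fin_cases i <;> fin_cases j <;> simp
  map_mul' g k := by
    ext i j
    fin_cases i <;> fin_cases j <;> simp [Matrix.mul_apply, Fin.sum_univ_two] <;> ring

/-- The angles `pi/7`, `3 pi/7`, `5 pi/7`. -/
noncomputable def ang (k : Fin 3) : ℝ := (2 * (k : ℕ) + 1) * Real.pi / 7

/-- The conjugates of `2 cos (pi/7)`. -/
noncomputable def lam (k : Fin 3) : ℝ := 2 * Real.cos (ang k)

/-- The number `p_k = 1/2 + (i/2) cot (ang k)`. -/
noncomputable def pk (k : Fin 3) : ℂ := ⟨1 / 2, Real.cos (ang k) / (2 * Real.sin (ang k))⟩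

theorem sin_ang_pos (k : Fin 3) : 0 < Real.sin (ang k) := by
  have hp := Real.pi_pos
  have hk : ((k : ℕ) : ℝ) ≤ 2 := by exact_mod_cast Nat.le_of_lt_succ k.2
  have hk0 : (0 : ℝ) ≤ ((k : ℕ) : ℝ) := Nat.cast_nonneg _
  apply Real.sin_pos_of_pos_of_lt_pi
  · unfold ang
    positivity
  · unfold ang
    rw [div_lt_iff₀ (by norm_num)]
    nlinarith

theorem half_lt_sin_ang (k : Fin 2) : 1 / 2 < Real.sin (ang k.succ) := by
  have hp := Real.pi_pos
  rw [← Real.sin_pi_div_six]
  fin_cases k
  · apply Real.sin_lt_sin_of_lt_of_le_pi_div_two (by linarith)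
    · simp [ang]; linarith
    · simp [ang]; linarith
  · have e : Real.sin (ang (Fin.succ 1)) = Real.sin (2 * Real.pi / 7) := by
      rw [← Real.sin_pi_sub]
      congr 1
      simp [ang]
      ring
    show Real.sin (Real.pi / 6) < Real.sin (ang (Fin.succ 1))
    rw [e]
    apply Real.sin_lt_sin_of_lt_of_le_pi_div_two (by linarith)
    · linarith
    · linarith

theorem normSq_pk (k : Fin 3) : normSq (pk k) = 1 / (4 * Real.sin (ang k) ^ 2) := by
  have h := (sin_ang_pos k).ne'
  have h1 := Real.sin_sq_add_cos_sq (ang k)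
  unfold pk
  rw [normSq_apply]
  field_simp
  linear_combination 4 * h1

/-- The image of the first generator in the compact form. -/
noncomputable def uA (k : Fin 2) : SU2 where
  a := ⟨Real.cos (ang k.succ), Real.sin (ang k.succ)⟩
  b := 0
  h := by
    rw [normSq_apply, map_zero]
    have h1 := Real.sin_sq_add_cos_sq (ang k.succ)
    simp only
    linear_combination h1

/-- The image of the second generator in the compact form. -/
noncomputable def uB (k : Fin 2) : SU2 where
  a := pk k.succ
  b := ⟨0, -Real.sqrt (1 - normSq (pk k.succ))⟩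
  h := by
    have h0 : 0 ≤ 1 - normSq (pk k.succ) := by
      rw [normSq_pk]
      have h1 := half_lt_sin_ang k
      have h2 : 0 < 4 * Real.sin (ang k.succ) ^ 2 := by positivity
      rw [sub_nonneg, div_le_one h2]
      nlinarith
    have h3 : normSq ⟨0, -Real.sqrt (1 - normSq (pk k.succ))⟩ = 1 - normSq (pk k.succ) := by
      rw [normSq_apply]
      simp only [mul_zero, zero_add, neg_mul_neg]
      exact Real.mul_self_sqrt h0
    rw [h3]
    ring

/-- The two unitary conjugates of the triangle group. -/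
noncomputable def rU (k : Fin 2) : W →* SU2 := FreeGroup.lift ![uA k, uB k]

@[simp] theorem rU_wA (k : Fin 2) : rU k wA = uA k := by simp [rU, wA]
@[simp] theorem rU_wB (k : Fin 2) : rU k wB = uB k := by simp [rU, wB]

/-! ## Reduction modulo 7 -/

/-- The image of the first generator modulo 7. -/
def sA : Matrix.SpecialLinearGroup (Fin 2) (ZMod 7) := ⟨!![-1, -1; 0, -1], by decide⟩

/-- The image of the second generator modulo 7. -/
def sB : Matrix.SpecialLinearGroup (Fin 2) (ZMod 7) := ⟨!![4, 6; 6, 4], by decide⟩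

/-- The reduction modulo 7. -/
def rho7 : W →* Matrix.SpecialLinearGroup (Fin 2) (ZMod 7) := FreeGroup.lift ![sA, sB]

@[simp] theorem rho7_wA : rho7 wA = sA := by simp [rho7, wA]
@[simp] theorem rho7_wB : rho7 wB = sB := by simp [rho7, wB]

@[simp] theorem pi7_wA : pi7 wA = finRotate 7 := by simp [pi7, wA]
@[simp] theorem pi7_wB : pi7 wB = tau := by simp [pi7, wB]

theorem mem_Gam0 (w : W) : w ∈ Gam0 ↔ pi7 w 0 = 0 := Iff.rfl

/-! ## The quaternion algebra -/

/-- Left multiplication by the first generator in coordinates. -/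
def qA {R : Type*} [CommRing R] (x : R) (q : Fin 4 → R) : Fin 4 → R :=
  ![-q 1, q 0 + x * q 1, -q 3, q 2 + x * q 3]

/-- Left multiplication by the second generator in coordinates. -/
def qB {R : Type*} [CommRing R] (x : R) (q : Fin 4 → R) : Fin 4 → R :=
  ![-(x * q 1) - q 2 - x * q 3, q 1 + q 3, q 0 + x * q 1 + q 2, -q 1]

/-- Left multiplication by the first generator as a permutation. -/
def pA {R : Type*} [CommRing R] (x : R) : Equiv.Perm (Fin 4 → R) where
  toFun := qA x
  invFun q := fun i => x * q i - qA x q i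
  left_inv q := by
    ext i
    fin_cases i <;> simp [qA]
  right_inv q := by
    ext i
    fin_cases i <;> simp [qA]

/-- Left multiplication by the second generator as a permutation. -/
def pB {R : Type*} [CommRing R] (x : R) : Equiv.Perm (Fin 4 → R) where
  toFun := qB x
  invFun q := fun i => q i - qB x q i
  left_inv q := by
    ext i
    fin_cases i <;> simp [qB] <;> ring
  right_inv q := by
    ext i
    fin_cases i <;> simp [qB] <;> ring

/-- The left regular representation of words in coordinates. -/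
def Th {R : Type*} [CommRing R] (x : R) : W →* Equiv.Perm (Fin 4 → R) := FreeGroup.lift ![pA x, pB x]

@[simp] theorem Th_wA {R : Type*} [CommRing R] (x : R) : Th x wA = pA x := by simp [Th, wA]
@[simp] theorem Th_wB {R : Type*} [CommRing R] (x : R) : Th x wB = pB x := by simp [Th, wB]

/-- The coordinates of the unit. -/
def e4 {R : Type*} [CommRing R] : Fin 4 → R := ![1, 0, 0, 0]

/-- The element `q0 + q1 A + q2 B + q3 AB` of an algebra. -/
def ev {F E : Type*} [CommRing F] [Ring E] [Algebra F E] (A B : E) (q : Fin 4 → F) : E :=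
  q 0 • (1 : E) + q 1 • A + q 2 • B + q 3 • (A * B)

/-- The reduced trace. -/
def trq {R : Type*} [CommRing R] (x : R) (q : Fin 4 → R) : R := 2 * q 0 + x * q 1 + q 2

/-- The reduced norm. -/
def del {R : Type*} [CommRing R] (x : R) (q : Fin 4 → R) : R :=
  q 0 ^ 2 + q 1 ^ 2 + q 2 ^ 2 + q 3 ^ 2 + x * q 0 * q 1 + q 0 * q 2 + x * q 1 * q 2 + q 1 * q 3 + x * q 2 * q 3

/-- The minimal polynomial of `2 cos (pi/7)`. -/
noncomputable def m7 : ℤ[X] := Polynomial.X ^ 3 - Polynomial.X ^ 2 - 2 * Polynomial.X + 1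

/-- The ring `Z[2 cos (pi/7)]`. -/
abbrev R0 : Type := AdjoinRoot m7

/-- The generator of `R0`. -/
noncomputable def x0 : R0 := AdjoinRoot.root m7

/-- Coordinates of a word. -/
noncomputable def co (w : W) : Fin 4 → R0 := Th x0 w e4

/-- The congruence subgroup. -/
noncomputable def GN (N : ℕ) : Subgroup W :=
  (Th (Ideal.Quotient.mk (Ideal.span {(N : R0)}) x0)).ker

theorem cos_ang_ne (k : Fin 3) : lam k ≠ -2 := by
  intro h
  have h1 : Real.cos (ang k) = -1 := by
    unfold lam at h
    linarith
  have h2 := Real.sin_sq_add_cos_sq (ang k)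
  rw [h1] at h2
  have h3 := sin_ang_pos k
  nlinarith

/-- `lam k` is a root of `m7`. -/
theorem lam_root (k : Fin 3) : lam k ^ 3 - lam k ^ 2 - 2 * lam k + 1 = 0 := by
  have h3 : Real.cos (3 * ang k) = 4 * Real.cos (ang k) ^ 3 - 3 * Real.cos (ang k) := Real.cos_three_mul _
  have h4 : Real.cos (4 * ang k) = 2 * (2 * Real.cos (ang k) ^ 2 - 1) ^ 2 - 1 := by
    rw [show 4 * ang k = 2 * (2 * ang k) by ring, Real.cos_two_mul, Real.cos_two_mul]
  have h7 : Real.cos (4 * ang k) = -Real.cos (3 * ang k) := by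
    have e : 4 * ang k = (k : ℕ) * (2 * Real.pi) + (Real.pi - 3 * ang k) := by
      unfold ang
      field_simp
      ring
    rw [e, add_comm, Real.cos_add_nat_mul_two_pi, Real.cos_pi_sub]
  have h5 : (lam k + 2) * (lam k ^ 3 - lam k ^ 2 - 2 * lam k + 1) = 0 := by
    unfold lam
    rw [h3, h4] at h7
    linear_combination 2 * h7
  rcases mul_eq_zero.mp h5 with h | h
  · exact absurd (by linarith : lam k = -2) (cos_ang_ne k)
  · exact h

/-- The real embeddings of `R0`. -/
noncomputable def evl (k : Fin 3) : R0 →+* ℝ :=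
  AdjoinRoot.lift (Int.castRingHom ℝ) (lam k) (by
    have h := lam_root k
    simpa [m7] using h)

@[simp] theorem evl_x0 (k : Fin 3) : evl k x0 = lam k := by simp [evl, x0]

/-- The reduction modulo 7 of `R0`. -/
noncomputable def evs : R0 →+* ZMod 7 :=
  AdjoinRoot.lift (Int.castRingHom (ZMod 7)) (-2) (by
    have h : (-2 : ZMod 7) ^ 3 - (-2) ^ 2 - 2 * (-2) + 1 = 0 := by decide
    simpa [m7] using h)

@[simp] theorem evs_x0 : evs x0 = -2 := by simp [evs, x0]

/-- The sign function on the projective line over the field with 7 elements which belongs to `a` (the set of infinity and `a + {1, 2, 4}`). -/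
def Fq (a : Fin 7) (v : Fin 2 → ZMod 7) : Bool :=
  if v 1 = 0 then true else decide (v 0 * (v 1)⁻¹ - ((a : ℕ) : ZMod 7) = 1 ∨ v 0 * (v 1)⁻¹ - ((a : ℕ) : ZMod 7) = 2 ∨
    v 0 * (v 1)⁻¹ - ((a : ℕ) : ZMod 7) = 4)

/-! ## Tiling -/

/-- The vertices `v_j = A^j v_0`. -/
noncomputable def vj (j : ℕ) : Disc := ac (wA ^ j) v0

/-- The vector of the centre `0`. -/
noncomputable def O : Mk := (1, 0)

/-- The vectors of the vertices. -/
noncomputable def V (j : ℕ) : Mk := Om (vj j)

/-- The half-turns about `m_0` and `m_1`. -/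
def e0 : W := wA * wB
def e1 : W := wA * (wA * wB) * wA⁻¹

/-- The neighbour centres. -/
noncomputable def q0 : Disc := ac e0 o0
noncomputable def q1 : Disc := ac e1 o0

/-- `cosh d(0, m_0)`. -/
noncomputable def c72 : ℝ := 1 / (2 * Real.sin (Real.pi / 7))

/-- `cosh d(v_0, m_0)`. -/
noncomputable def c32 : ℝ := 2 * Real.cos (Real.pi / 7) / Real.sqrt 3

/-- The vectors of the midpoints `m_0` (of `v_0 v_1`) and `m_1` (of `v_1 v_2`). -/
noncomputable def M0 : Mk := (1 / (2 * c32)) • (V 0 + V 1)
noncomputable def M1 : Mk := (1 / (2 * c32)) • (V 1 + V 2)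

/-- The Gram form in the coordinates of the triangle `0, v_0, m_0`. -/
noncomputable def Bf (x7 x3 x2 y7 y3 y2 : ℝ) : ℝ :=
  x7 * y7 + x3 * y3 + x2 * y2 + CC * (x7 * y3 + x3 * y7) + c72 * (x7 * y2 + x2 * y7) + c32 * (x3 * y2 + x2 * y3)

/-! ## Lines -/

/-- Half the length of `m_0 m_1`: `sinh u0 = sqrt (cos^2 (pi/7) - 3/4)`. -/
noncomputable def u0 : ℝ := Real.arsinh (Real.sqrt (Real.cos (Real.pi / 7) ^ 2 - 3 / 4))

/-- The normal vector of the line `g (real diameter)`: `sg (g^{-1} z) = - mink (Om z) (nu g)`. -/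
noncomputable def nu (g : SU) : Mk := g.lin (0, I)

/-- The segment `[m_0, m_1]`. -/
def Seg : Set Disc := {z | ∃ x y : ℝ, 0 ≤ x ∧ 0 ≤ y ∧ Om z = x • M0 + y • M1}

/-- The base line. -/
def L0 : Set Disc := {z | mink (Om z) (nu gl0) = 0}

end Pool.Agent.Lib.H11Q.A
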