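import Mathlib
import Pool.Agent.Lib.H11Q.AD

/-! # H11Q (MP_a00a7b_an) module A, chunk A01: the Minkowski form and the linear action of SU(1,1) -/

set_option autoImplicit false

namespace Pool.Agent.Lib.H11Q.A

open Complex Set
open scoped ComplexConjugate Topology

/-- PROOF. Unfold `mink`, real and imaginary parts. -/
theorem mink_comm (x y : Mk) : mink x y = mink y x := by
  simp only [mink, mul_re, conj_re, conj_im]
  ring


theorem mink_add_left (x y z : Mk) : mink (x + y) z = mink x z + mink y z := by
  simp only [mink, Prod.fst_add, Prod.snd_add, mul_re, conj_re, conj_im, add_re, add_im]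
  ring


theorem mink_add_right (x y z : Mk) : mink x (y + z) = mink x y + mink x z := by
  simp only [mink, Prod.fst_add, Prod.snd_add, mul_re, conj_re, conj_im, add_re, add_im]
  ring


theorem mink_smul_left (c : ℝ) (x y : Mk) : mink (c • x) y = c * mink x y := by
  simp only [mink, Prod.smul_fst, Prod.smul_snd, smul_eq_mul, real_smul, mul_re, mul_im, conj_re, conj_im, ofReal_re, ofReal_im]
  ring


theorem mink_smul_right (c : ℝ) (x y : Mk) : mink x (c • y) = c * mink x y := by
  simp only [mink, Prod.smul_fst, Prod.smul_snd, smul_eq_mul, real_smul, mul_re, mul_im, conj_re, conj_im, ofReal_re, ofReal_im]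
  ring


theorem mink_neg_left (x y : Mk) : mink (-x) y = -mink x y := by
  simp only [mink, Prod.fst_neg, Prod.snd_neg, mul_re, conj_re, conj_im, neg_re, neg_im]
  ring


theorem mink_neg_right (x y : Mk) : mink x (-y) = -mink x y := by
  simp only [mink, Prod.fst_neg, Prod.snd_neg, mul_re, conj_re, conj_im, neg_re, neg_im]
  ring


theorem lin_add (g : SU) (x y : Mk) : g.lin (x + y) = g.lin x + g.lin y := by
  refine Prod.ext ?_ ?_
  · simp only [SU.lin, Prod.fst_add, Prod.snd_add, mul_re, mul_im, conj_re, conj_im, add_re, add_im]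
    ring
  · simp only [SU.lin, Prod.fst_add, Prod.snd_add, map_add, ofReal_add]
    ring


theorem lin_smul (g : SU) (c : ℝ) (x : Mk) : g.lin (c • x) = c • g.lin x := by
  refine Prod.ext ?_ ?_
  · simp only [SU.lin, Prod.smul_fst, Prod.smul_snd, smul_eq_mul, real_smul, mul_re, mul_im, conj_re, conj_im, ofReal_re, ofReal_im]
    ring
  · simp only [SU.lin, Prod.smul_fst, Prod.smul_snd, smul_eq_mul, real_smul, map_mul, ofReal_mul, conj_ofReal]
    ring


theorem lin_one (x : Mk) : (1 : SU).lin x = x := by
  refine Prod.ext ?_ ?_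
  · simp [SU.lin]
  · simp [SU.lin]


/-- PROOF. `g` acts on the Hermitian matrices `H = ((x.1, x.2), (conj x.2, x.1))` by `g H g^*`; in coordinates: compare real and imaginary parts
(or `Prod.ext`, `Complex.ext`, `simp`, `ring`). -/
theorem lin_mul (g k : SU) (x : Mk) : (g * k).lin x = g.lin (k.lin x) := by
  refine Prod.ext ?_ ?_
  · simp only [SU.lin, SU.mul_a, SU.mul_b, normSq_apply, pow_two, mul_re, mul_im, conj_re, conj_im, add_re, add_im, ofReal_re, ofReal_im, re_ofNat, im_ofNat]
    ring
  · apply Complex.ext
    · simp only [SU.lin, SU.mul_a, SU.mul_b, normSq_apply, pow_two, mul_re, mul_im, conj_re, conj_im, add_re, add_im, ofReal_re, ofReal_im, re_ofNat, im_ofNat]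
      ring
    · simp only [SU.lin, SU.mul_a, SU.mul_b, normSq_apply, pow_two, mul_re, mul_im, conj_re, conj_im, add_re, add_im, ofReal_re, ofReal_im, re_ofNat, im_ofNat]
      ring


/-- PROOF. The form is the polarization of the determinant of `H`. In coordinates: `mink (g x) (g y) = (|a|^2 - |b|^2)^2 mink x y`, then `g.h`. -/
theorem mink_lin (g : SU) (x y : Mk) : mink (g.lin x) (g.lin y) = mink x y := by
  have e : mink (g.lin x) (g.lin y) = (normSq g.a - normSq g.b) ^ 2 * mink x y := by
    simp only [mink, SU.lin, normSq_apply, pow_two, mul_re, mul_im, conj_re, conj_im, add_re, add_im, ofReal_re, ofReal_im, re_ofNat, im_ofNat]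
    ring
  rw [e, g.h, one_pow, one_mul]


end Pool.Agent.Lib.H11Q.A
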