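import Mathlib
import Pool.Agent.Lib.H11Q.AD
import Pool.Agent.Lib.H11Q.A01

/-! # H11Q (MP_a00a7b_an) module A, chunk A02: the hyperboloid, invariance -/

set_option autoImplicit false

namespace Pool.Agent.Lib.H11Q.A

open Complex Set
open scoped ComplexConjugate Topology

theorem a02_pos {z : ℂ} (hz : ‖z‖ < 1) : 0 < 1 - ‖z‖ ^ 2 := by
  have := norm_nonneg z
  nlinarith

theorem Om_zero : Om 0 = (1, 0) := by
  simp [Om]


/-- PROOF. `(1+|z|^2)(1+|w|^2) - 4 Re(z conj w) = (1-|z|^2)(1-|w|^2) + 2 |z-w|^2`. -/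
theorem mink_Om {z w : ℂ} (hz : ‖z‖ < 1) (hw : ‖w‖ < 1) : mink (Om z) (Om w) = 1 + 2 * sh z w := by
  have h1 := a02_pos hz
  have h2 := a02_pos hw
  unfold mink Om sh
  have h : 2 * z / ((1 - ‖z‖ ^ 2 : ℝ) : ℂ) * conj (2 * w / ((1 - ‖w‖ ^ 2 : ℝ) : ℂ)) =
      ((4 / ((1 - ‖z‖ ^ 2) * (1 - ‖w‖ ^ 2)) : ℝ) : ℂ) * (z * conj w) := by
    rw [map_div₀, map_mul, conj_ofReal, map_ofNat, ofReal_div, ofReal_mul, ofReal_ofNat, div_mul_div_comm, div_mul_eq_mul_div]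
    congr 1
    ring
  have h3 : ‖z - w‖ ^ 2 = ‖z‖ ^ 2 + ‖w‖ ^ 2 - 2 * (z * conj w).re := by
    rw [← normSq_eq_norm_sq, ← normSq_eq_norm_sq, ← normSq_eq_norm_sq, normSq_sub]
  show (1 + ‖z‖ ^ 2) / (1 - ‖z‖ ^ 2) * ((1 + ‖w‖ ^ 2) / (1 - ‖w‖ ^ 2)) -
    (2 * z / ((1 - ‖z‖ ^ 2 : ℝ) : ℂ) * conj (2 * w / ((1 - ‖w‖ ^ 2 : ℝ) : ℂ))).re = _
  rw [h, re_ofReal_mul, h3]
  field_simp
  ring


theorem mink_Om_self {z : ℂ} (hz : ‖z‖ < 1) : mink (Om z) (Om z) = 1 := by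
  rw [mink_Om hz hz]
  unfold sh
  simp


theorem one_le_mink_Om {z w : ℂ} (hz : ‖z‖ < 1) (hw : ‖w‖ < 1) : 1 ≤ mink (Om z) (Om w) := by
  have h1 := a02_pos hz
  have h2 := a02_pos hw
  rw [mink_Om hz hw]
  have h3 : 0 ≤ sh z w := by
    unfold sh
    positivity
  linarith


theorem mink_Om_eq_one {z w : ℂ} (hz : ‖z‖ < 1) (hw : ‖w‖ < 1) (h : mink (Om z) (Om w) = 1) : z = w := by
  have h1 := a02_pos hz
  have h2 := a02_pos hw
  rw [mink_Om hz hw] at h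
  have h3 : sh z w = 0 := by linarith
  unfold sh at h3
  rcases div_eq_zero_iff.mp h3 with h4 | h4
  · exact sub_eq_zero.mp (norm_eq_zero.mp (pow_eq_zero_iff (two_ne_zero)|>.mp h4))
  · exact absurd h4 (mul_pos h1 h2).ne'


theorem Om_inj {z w : ℂ} (hz : ‖z‖ < 1) (hw : ‖w‖ < 1) (h : Om z = Om w) : z = w := by
  refine mink_Om_eq_one hz hw ?_
  rw [← h]
  exact mink_Om_self hz


/-- PROOF. `1 - |g z|^2 = (1 - |z|^2)/|den|^2` (`SU.normSq_app` in D0); so the first component is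
`(|den|^2 + |a z + b|^2)/(1-|z|^2)`, the second `2 (a z + b) conj(den)/(1-|z|^2)`; expand. -/
theorem Om_app (g : SU) {z : ℂ} (hz : ‖z‖ < 1) : Om (g.app z) = g.lin (Om z) := by
  have h1 := a02_pos hz
  have hd : g.den z ≠ 0 := g.den_ne hz.le
  have hd' : ‖g.den z‖ ≠ 0 := norm_ne_zero_iff.mpr hd
  have e : g.app z = (g.a * z + g.b) / g.den z := rfl
  have hn := g.normSq_app hz.le
  have hconj : g.den z * conj (g.den z) = ((‖g.den z‖ ^ 2 : ℝ) : ℂ) := by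
    rw [mul_conj, normSq_eq_norm_sq]
  have hzz : z * conj z = ((‖z‖ ^ 2 : ℝ) : ℂ) := by
    rw [mul_conj, normSq_eq_norm_sq]
  refine Prod.ext ?_ ?_
  · show (1 + ‖g.app z‖ ^ 2) / (1 - ‖g.app z‖ ^ 2) = (normSq g.a + normSq g.b) * ((1 + ‖z‖ ^ 2) / (1 - ‖z‖ ^ 2)) +
      2 * (g.a * conj g.b * (2 * z / ((1 - ‖z‖ ^ 2 : ℝ) : ℂ))).re
    have h2 : g.a * conj g.b * (2 * z / ((1 - ‖z‖ ^ 2 : ℝ) : ℂ)) = ((2 / (1 - ‖z‖ ^ 2) : ℝ) : ℂ) * (g.a * conj g.b * z) := by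
      push_cast
      ring
    have h3 : ‖g.den z‖ ^ 2 + ‖g.a * z + g.b‖ ^ 2 = (normSq g.a + normSq g.b) * (1 + ‖z‖ ^ 2) + 4 * (g.a * conj g.b * z).re := by
      unfold SU.den
      rw [← normSq_eq_norm_sq, ← normSq_eq_norm_sq, ← normSq_eq_norm_sq]
      simp only [normSq_apply, mul_re, mul_im, add_re, add_im, conj_re, conj_im]
      ring
    have h4 : 1 + ‖g.app z‖ ^ 2 = (‖g.den z‖ ^ 2 + ‖g.a * z + g.b‖ ^ 2) / ‖g.den z‖ ^ 2 := by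
      rw [e, norm_div]
      field_simp
    rw [hn, h4, h3, h2, re_ofReal_mul]
    field_simp
    ring
  · show 2 * g.app z / ((1 - ‖g.app z‖ ^ 2 : ℝ) : ℂ) = 2 * g.a * g.b * (((1 + ‖z‖ ^ 2) / (1 - ‖z‖ ^ 2) : ℝ) : ℂ) +
      g.a ^ 2 * (2 * z / ((1 - ‖z‖ ^ 2 : ℝ) : ℂ)) + g.b ^ 2 * conj (2 * z / ((1 - ‖z‖ ^ 2 : ℝ) : ℂ))
    have h1c : ((1 - ‖z‖ ^ 2 : ℝ) : ℂ) ≠ 0 := by exact_mod_cast h1.ne'
    have h5 : 2 * g.app z / ((1 - ‖g.app z‖ ^ 2 : ℝ) : ℂ) = 2 * ((g.a * z + g.b) * conj (g.den z)) / ((1 - ‖z‖ ^ 2 : ℝ) : ℂ) := by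
      rw [hn, e, ofReal_div, ← hconj]
      have hcd : conj (g.den z) ≠ 0 := by
        rw [Ne, map_eq_zero]
        exact hd
      field_simp
    have h6 : conj (g.den z) = g.b * conj z + g.a := by
      unfold SU.den
      rw [map_add, map_mul, conj_conj, conj_conj]
    rw [h5, h6, map_div₀, map_mul, conj_ofReal, map_ofNat, ofReal_div]
    rw [ofReal_add, ofReal_one, ← hzz]
    field_simp
    ring


theorem Om_ac (w : W) (z : Disc) : Om (ac w z) = (rho w).lin (Om z) := by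
  rw [ac_coe]
  exact Om_app _ z.2


theorem sh_app (g : SU) {z w : ℂ} (hz : ‖z‖ < 1) (hw : ‖w‖ < 1) : sh (g.app z) (g.app w) = sh z w := by
  have h1 := mink_Om (g.app_norm_lt hz) (g.app_norm_lt hw)
  rw [Om_app g hz, Om_app g hw, mink_lin, mink_Om hz hw] at h1
  linarith


theorem sh_comm (z w : ℂ) : sh z w = sh w z := by
  unfold sh
  rw [norm_sub_rev, mul_comm (1 - ‖z‖ ^ 2)]


theorem sh_nonneg {z w : ℂ} (hz : ‖z‖ < 1) (hw : ‖w‖ < 1) : 0 ≤ sh z w := by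
  have h1 := a02_pos hz
  have h2 := a02_pos hw
  unfold sh
  positivity


theorem a02_sg (z : ℂ) : sg z = -mink (Om z) (0, I) := by
  unfold sg mink Om
  have h : 2 * z / ((1 - ‖z‖ ^ 2 : ℝ) : ℂ) * conj I = ((1 / (1 - ‖z‖ ^ 2) : ℝ) : ℂ) * (2 * z * conj I) := by
    push_cast
    ring
  simp only [mul_zero, zero_sub, neg_neg]
  rw [h, re_ofReal_mul]
  simp only [mul_re, mul_im, conj_re, conj_im, I_re, I_im, re_ofNat, im_ofNat]
  ring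

/-- PROOF. `sg z = Im (Om z).2 = - mink (Om z) (0, I)`; invariance `mink_lin`, `Om_app`, `g (g^{-1} z) = z`. -/
theorem sg_eq (g : SU) {z : ℂ} (hz : ‖z‖ < 1) : sg (g⁻¹.app z) = -mink (Om z) (nu g) := by
  rw [a02_sg, Om_app _ hz, ← mink_lin g, ← lin_mul, mul_inv_cancel, lin_one]
  rfl


theorem nu_mul (g k : SU) : nu (g * k) = g.lin (nu k) := by
  unfold nu
  rw [lin_mul]


theorem mink_nu_self (g : SU) : mink (nu g) (nu g) = -1 := by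
  unfold nu
  rw [mink_lin]
  simp [mink]


end Pool.Agent.Lib.H11Q.A
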