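import Mathlib
import Pool.Agent.Lib.H11Q.AD
import Pool.Agent.Lib.H11Q.A01
import Pool.Agent.Lib.H11Q.A02

/-! # H11Q (MP_a00a7b_an) module A, chunk A03: Gram determinant, hyperbolic distance: triangle inequality, signed distance is 1-Lipschitz -/

set_option autoImplicit false

namespace Pool.Agent.Lib.H11Q.A

open Complex Set
open scoped ComplexConjugate Topology

/-- PROOF. The left side is the Gram determinant; it is the square of the determinant of the coordinates: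
with `x = (x0, x1 + i x2)` etc. it equals `(x0 (y1 z2 - y2 z1) - x1 (y0 z2 - y2 z0) + x2 (y0 z1 - y1 z0))^2` (expand, `ring`), since the form has
determinant `(+1)(-1)(-1) = 1`. -/
theorem gram_nonneg (x y z : Mk) :
    0 ≤ mink x x * (mink y y * mink z z - mink y z ^ 2) - mink x y * (mink x y * mink z z - mink y z * mink x z) +
      mink x z * (mink x y * mink y z - mink y y * mink x z) := by
  obtain ⟨x0, x1, x2⟩ := x
  obtain ⟨y0, y1, y2⟩ := y
  obtain ⟨z0, z1, z2⟩ := z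
  have e : mink (x0, ⟨x1, x2⟩) (x0, ⟨x1, x2⟩) * (mink (y0, ⟨y1, y2⟩) (y0, ⟨y1, y2⟩) * mink (z0, ⟨z1, z2⟩) (z0, ⟨z1, z2⟩)
      - mink (y0, ⟨y1, y2⟩) (z0, ⟨z1, z2⟩) ^ 2)
      - mink (x0, ⟨x1, x2⟩) (y0, ⟨y1, y2⟩) * (mink (x0, ⟨x1, x2⟩) (y0, ⟨y1, y2⟩) * mink (z0, ⟨z1, z2⟩) (z0, ⟨z1, z2⟩)
        - mink (y0, ⟨y1, y2⟩) (z0, ⟨z1, z2⟩) * mink (x0, ⟨x1, x2⟩) (z0, ⟨z1, z2⟩))
      + mink (x0, ⟨x1, x2⟩) (z0, ⟨z1, z2⟩) * (mink (x0, ⟨x1, x2⟩) (y0, ⟨y1, y2⟩) * mink (y0, ⟨y1, y2⟩) (z0, ⟨z1, z2⟩)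
        - mink (y0, ⟨y1, y2⟩) (y0, ⟨y1, y2⟩) * mink (x0, ⟨x1, x2⟩) (z0, ⟨z1, z2⟩))
      = (x0 * (y1 * z2 - y2 * z1) - x1 * (y0 * z2 - y2 * z0) + x2 * (y0 * z1 - y1 * z0)) ^ 2 := by
    simp only [mink, mul_re, conj_re, conj_im]
    ring
  rw [e]
  exact sq_nonneg _

theorem hd_nonneg (z w : ℂ) : 0 ≤ hd z w := by
  unfold hd
  have h1 : 0 ≤ Real.arsinh (Real.sqrt (sh z w)) := Real.arsinh_nonneg_iff.2 (Real.sqrt_nonneg _)
  linarith

theorem hd_comm (z w : ℂ) : hd z w = hd w z := by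
  unfold hd
  rw [sh_comm]

/-- PROOF. `cosh (2 t) = 1 + 2 sinh^2 t`. -/
theorem cosh_hd {z w : ℂ} (hz : ‖z‖ < 1) (hw : ‖w‖ < 1) : Real.cosh (hd z w) = 1 + 2 * sh z w := by
  unfold hd
  rw [Real.cosh_two_mul, Real.cosh_sq, Real.sinh_arsinh, Real.sq_sqrt (sh_nonneg hz hw)]
  ring

theorem cosh_hd' {z w : ℂ} (hz : ‖z‖ < 1) (hw : ‖w‖ < 1) : Real.cosh (hd z w) = mink (Om z) (Om w) := by
  rw [cosh_hd hz hw, mink_Om hz hw]

/-- PROOF. `cosh` is strictly increasing on `[0, oo)`. -/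
theorem lt_hd_iff {R : ℝ} (hR : 0 ≤ R) {z w : ℂ} (hz : ‖z‖ < 1) (hw : ‖w‖ < 1) : R < hd z w ↔ Real.cosh R < 1 + 2 * sh z w := by
  rw [← cosh_hd hz hw, Real.cosh_lt_cosh, abs_of_nonneg hR, abs_of_nonneg (hd_nonneg z w)]

theorem hd_app (g : SU) {z w : ℂ} (hz : ‖z‖ < 1) (hw : ‖w‖ < 1) : hd (g.app z) (g.app w) = hd z w := by
  unfold hd
  rw [sh_app g hz hw]

/-- PROOF. Gram determinant of the three points of the hyperboloid, `p = cosh d(x,y)`, `q = cosh d(x,z)`, `r = cosh d(y,z)`: `1 + 2pqr - p^2 - q^2 - r^2 >= 0`, i.e.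
`(q - p r)^2 <= (p^2-1)(r^2-1)`, so `q <= p r + sinh sinh = cosh (d(x,y) + d(y,z))`; `cosh` is increasing on `[0, oo)`. -/
theorem hd_triangle {x y z : ℂ} (hx : ‖x‖ < 1) (hy : ‖y‖ < 1) (hz : ‖z‖ < 1) : hd x z ≤ hd x y + hd y z := by
  have hp := cosh_hd' hx hy
  have hq := cosh_hd' hx hz
  have hr := cosh_hd' hy hz
  have hG := gram_nonneg (Om x) (Om y) (Om z)
  rw [mink_Om_self hx, mink_Om_self hy, mink_Om_self hz, ← hp, ← hq, ← hr] at hG
  set p := hd x y with hpdef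
  set q := hd x z with hqdef
  set r := hd y z with hrdef
  have hp0 : 0 ≤ p := hd_nonneg _ _
  have hq0 : 0 ≤ q := hd_nonneg _ _
  have hr0 : 0 ≤ r := hd_nonneg _ _
  have h1 : Real.cosh q ≤ Real.cosh (p + r) := by
    rw [Real.cosh_add]
    have hsp : 0 ≤ Real.sinh p := Real.sinh_nonneg_iff.2 hp0
    have hsr : 0 ≤ Real.sinh r := Real.sinh_nonneg_iff.2 hr0
    have h2 : (Real.cosh q - Real.cosh p * Real.cosh r) ^ 2 ≤ (Real.sinh p * Real.sinh r) ^ 2 := by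
      have e1 := Real.cosh_sq p
      have e2 := Real.cosh_sq r
      have e3 : (Real.sinh p * Real.sinh r) ^ 2 = (Real.cosh p ^ 2 - 1) * (Real.cosh r ^ 2 - 1) := by
        rw [e1, e2]; ring
      rw [e3]
      nlinarith [hG]
    have h3 := abs_le_of_sq_le_sq h2 (mul_nonneg hsp hsr)
    linarith [(abs_le.1 h3).2]
  rw [Real.cosh_le_cosh, abs_of_nonneg hq0, abs_of_nonneg (add_nonneg hp0 hr0)] at h1
  exact h1

/-- PROOF. Let `a = sinh (bs g z) = -mink (Om z) (nu g)`, `b` the same for `w` (`sg_eq`), `k = cosh hd = mink (Om z) (Om w) >= 1`. The Gram determinant of `Om z, Om w, nu g` gives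
`k^2 + 2 k a b - 1 - a^2 - b^2 >= 0`, i.e. `(k + a b)^2 >= (1+a^2)(1+b^2) = (cosh s cosh t)^2`, `s = bs g z`, `t = bs g w`. If `k + ab <= -cosh s cosh t` then `k <= -cosh(s+t) < 0`, impossible;
so `k >= cosh s cosh t - sinh s sinh t = cosh (s - t)`, so `|s - t| <= hd z w`. -/
theorem bs_lip (g : SU) {z w : ℂ} (hz : ‖z‖ < 1) (hw : ‖w‖ < 1) : |bs g z - bs g w| ≤ hd z w := by
  have hk := cosh_hd' hz hw
  have ha := sg_eq g hz
  have hb := sg_eq g hw
  have hG := gram_nonneg (Om z) (Om w) (nu g)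
  rw [mink_Om_self hz, mink_Om_self hw, mink_nu_self, ← hk] at hG
  have hsa : Real.sinh (bs g z) = -mink (Om z) (nu g) := by
    unfold bs
    rw [Real.sinh_arsinh, ha]
  have hsb : Real.sinh (bs g w) = -mink (Om w) (nu g) := by
    unfold bs
    rw [Real.sinh_arsinh, hb]
  have ha' : mink (Om z) (nu g) = -Real.sinh (bs g z) := by rw [hsa]; ring
  have hb' : mink (Om w) (nu g) = -Real.sinh (bs g w) := by rw [hsb]; ring
  rw [ha', hb'] at hG
  set s := bs g z with hs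
  set t := bs g w with ht
  set d := hd z w with hd'
  have hd0 : 0 ≤ d := hd_nonneg _ _
  have h1 : (Real.cosh s * Real.cosh t) ^ 2 ≤ (Real.cosh d + Real.sinh s * Real.sinh t) ^ 2 := by
    have e1 := Real.cosh_sq s
    have e2 := Real.cosh_sq t
    have e3 : (Real.cosh s * Real.cosh t) ^ 2 = (1 + Real.sinh s ^ 2) * (1 + Real.sinh t ^ 2) := by
      rw [mul_pow, e1, e2]; ring
    rw [e3]
    nlinarith [hG]
  have hcs : 0 < Real.cosh s := Real.cosh_pos s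
  have hct : 0 < Real.cosh t := Real.cosh_pos t
  have h2 : Real.cosh (s - t) ≤ Real.cosh d := by
    rw [Real.cosh_sub]
    rcases le_or_gt 0 (Real.cosh d + Real.sinh s * Real.sinh t) with h | h
    · have := abs_le_of_sq_le_sq h1 h
      linarith [(abs_le.1 this).2]
    · have h3 : (Real.cosh s * Real.cosh t) ^ 2 ≤ (-(Real.cosh d + Real.sinh s * Real.sinh t)) ^ 2 := by
        rw [neg_sq]; exact h1
      have h4 := (abs_le.1 (abs_le_of_sq_le_sq h3 (by linarith))).2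
      have h5 := Real.cosh_add s t
      have h6 := Real.cosh_pos (s + t)
      have h7 := Real.cosh_pos d
      linarith
  rw [Real.cosh_le_cosh, abs_of_nonneg hd0] at h2
  exact h2

end Pool.Agent.Lib.H11Q.A
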