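import Mathlib
import Pool.Agent.Lib.H11Q.AD
import Pool.Agent.Lib.H11Q.A01
import Pool.Agent.Lib.H11Q.A02

/-! # H11Q (MP_a00a7b_an) module A, chunk A04: trace formula (1.4) -/

set_option autoImplicit false

namespace Pool.Agent.Lib.H11Q.A

open Complex Set
open scoped ComplexConjugate Topology

theorem a04_rot_a (z : Disc) (t : ℝ) : (rot z t).a =
    Real.cos (t / 2) + I * Real.sin (t / 2) * ((1 + ‖(z : ℂ)‖ ^ 2) / (1 - ‖(z : ℂ)‖ ^ 2) : ℝ) := rfl

theorem a04_rot_b (z : Disc) (t : ℝ) : (rot z t).b =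
    -2 * I * Real.sin (t / 2) * (z : ℂ) / ((1 - ‖(z : ℂ)‖ ^ 2 : ℝ) : ℂ) := rfl

theorem a04_gA_a : gA.a = ⟨Real.cos (Real.pi / 7), Real.sin (Real.pi / 7)⟩ := by
  have e : 2 * Real.pi / 7 / 2 = Real.pi / 7 := by ring
  have h : gA.a = (Real.cos (Real.pi / 7) : ℂ) + I * Real.sin (Real.pi / 7) * (((1 + ‖(0 : ℂ)‖ ^ 2) / (1 - ‖(0 : ℂ)‖ ^ 2) : ℝ) : ℂ) := by
    unfold gA
    rw [a04_rot_a, e]
    rfl
  rw [h]
  have h1 : ((1 + ‖(0 : ℂ)‖ ^ 2) / (1 - ‖(0 : ℂ)‖ ^ 2) : ℝ) = 1 := by simp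
  rw [h1]
  apply Complex.ext
  · simp only [add_re, ofReal_re, mul_re, I_re, I_im, ofReal_im, mul_im]
    ring
  · simp only [add_im, ofReal_re, mul_re, I_re, I_im, ofReal_im, mul_im]
    ring

theorem a04_gA_b : gA.b = 0 := by
  simp [gA, rot, o0]

theorem a04_gB_a : gB.a = ⟨1 / 2, Real.sqrt 3 / 2 * ((1 + vv ^ 2) / (1 - vv ^ 2))⟩ := by
  have e : 2 * Real.pi / 3 / 2 = Real.pi / 3 := by ring
  have e2 : ‖((v0 : Disc) : ℂ)‖ ^ 2 = vv ^ 2 := by
    show ‖(vv : ℂ)‖ ^ 2 = vv ^ 2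
    rw [Complex.norm_real, Real.norm_eq_abs, sq_abs]
  have h : gB.a = (Real.cos (Real.pi / 3) : ℂ) + I * Real.sin (Real.pi / 3) * ((1 + vv ^ 2) / (1 - vv ^ 2) : ℝ) := by
    unfold gB
    rw [a04_rot_a, e, e2]
  rw [h, Real.cos_pi_div_three, Real.sin_pi_div_three]
  apply Complex.ext
  · simp only [add_re, ofReal_re, mul_re, I_re, I_im, ofReal_im, mul_im]
    ring
  · simp only [add_im, ofReal_re, mul_re, I_re, I_im, ofReal_im, mul_im]
    ring

theorem a04_gB_b : gB.b = ⟨0, -(Real.sqrt 3 / 2 * (2 * vv / (1 - vv ^ 2)))⟩ := by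
  have e : 2 * Real.pi / 3 / 2 = Real.pi / 3 := by ring
  have e2 : ‖((v0 : Disc) : ℂ)‖ ^ 2 = vv ^ 2 := by
    show ‖(vv : ℂ)‖ ^ 2 = vv ^ 2
    rw [Complex.norm_real, Real.norm_eq_abs, sq_abs]
  have h : gB.b = -2 * I * Real.sin (Real.pi / 3) * (vv : ℂ) / ((1 - vv ^ 2 : ℝ) : ℂ) := by
    unfold gB
    rw [a04_rot_b, e, e2]
    rfl
  rw [h, Real.sin_pi_div_three]
  have h2 : (-2 * I * ((Real.sqrt 3 / 2 : ℝ) : ℂ) * (vv : ℂ) / ((1 - vv ^ 2 : ℝ) : ℂ))
      = ((-(Real.sqrt 3 / 2 * (2 * vv / (1 - vv ^ 2))) : ℝ) : ℂ) * I := by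
    push_cast
    ring
  rw [h2]
  apply Complex.ext
  · simp only [mul_re, I_re, I_im, ofReal_im]
    ring
  · simp only [mul_im, I_re, I_im, ofReal_re, ofReal_im]
    ring

theorem a04_OmV : Om (vv : ℂ) = ((1 + vv ^ 2) / (1 - vv ^ 2), ⟨2 * vv / (1 - vv ^ 2), 0⟩) := by
  have e2 : ‖(vv : ℂ)‖ ^ 2 = vv ^ 2 := by
    rw [Complex.norm_real, Real.norm_eq_abs, sq_abs]
  unfold Om
  rw [e2]
  ext1
  · rfl
  · have h : (2 * (vv : ℂ) / ((1 - vv ^ 2 : ℝ) : ℂ)) = ((2 * vv / (1 - vv ^ 2) : ℝ) : ℂ) := by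
      push_cast
      ring
    show 2 * (vv : ℂ) / ((1 - vv ^ 2 : ℝ) : ℂ) = _
    rw [h]
    rfl

/-- PROOF (1.3, 1.4 of PROOF.md, or by direct computation). With `g = (a, b)`, `gA = (cos al + i sin al, 0)`, `al = pi/7`, `gB = (1/2 + i (sqrt 3/2) CC, -i (sqrt 3 / 2) S)`,
`S = 2 vv/(1 - vv^2)`: `g gA g^{-1} = (cos al + i sin al (|a|^2+|b|^2), -2 i sin al a b)`, and for `h = (cos al + i sin al X, -i sin al Y)`, `k = (cos be + i sin be X', -i sin be Y')`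
(X, X' real) `Re (h k).a = cos al cos be - sin al sin be (X X' - Re(Y conj Y'))`; `(X, Y) = Om (g 0) = (|a|^2+|b|^2, 2ab)`, `(X', Y') = Om vv = ((1+vv^2)/(1-vv^2), 2 vv/(1-vv^2))`. -/
theorem tr_conj (g : SU) : 2 * ((g * gA * g⁻¹ * gB).a).re =
    Real.cos (Real.pi / 7) - Real.sqrt 3 * Real.sin (Real.pi / 7) * mink (Om (g.app 0)) (Om vv) := by
  have hO : Om (g.app 0) = (normSq g.a + normSq g.b, 2 * g.a * g.b) := by
    rw [Om_app g (by simp), Om_zero]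
    unfold SU.lin
    ext1
    · simp
    · simp
  rw [hO, a04_OmV]
  have h := g.h
  rw [normSq_apply, normSq_apply] at h
  unfold mink
  simp only [SU.mul_a, SU.mul_b, SU.inv_a, SU.inv_b, a04_gA_a, a04_gA_b, a04_gB_a, a04_gB_b]
  generalize (1 + vv ^ 2) / (1 - vv ^ 2) = X
  generalize 2 * vv / (1 - vv ^ 2) = Y
  generalize Real.cos (Real.pi / 7) = c
  generalize Real.sin (Real.pi / 7) = s
  generalize Real.sqrt 3 = t
  rw [normSq_apply, normSq_apply]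
  simp only [mul_re, mul_im, add_re, add_im, conj_re, conj_im, neg_re, neg_im, map_zero, mul_zero,
    add_zero, zero_add, re_ofNat, im_ofNat, zero_mul, sub_zero, map_neg]
  linear_combination c * h

/-- PROOF. `sqrt 3 sin(pi/7) CC = cos (pi/7)` by definition. -/
theorem sqrt3_CC : Real.sqrt 3 * Real.sin (Real.pi / 7) * CC = Real.cos (Real.pi / 7) := by
  unfold CC
  have h1 := pi7_pos
  have h3 : 0 < Real.sqrt 3 := Real.sqrt_pos.mpr (by norm_num)
  field_simp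

/-- PROOF. From `Real.cos_pi_div..` bounds: `sin (pi/7) >= ...`. E.g. `sin 2x >= ...`; simplest: `lam_root 0` (AD) gives `0.9 < cos (pi/7) < 0.901`. Numerically the left side is 0.14946. -/
theorem num_tau : Real.cos (Real.pi / 7) - Real.sqrt 3 * Real.sin (Real.pi / 7) < 15 / 100 := by
  have h1 := pi7_pos
  have hl := lam_root 0
  have hang : ang 0 = Real.pi / 7 := by
    unfold ang
    simp
  have hlam : lam 0 = 2 * Real.cos (Real.pi / 7) := by
    unfold lam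
    rw [hang]
  rw [hlam] at hl
  have hc6 : Real.cos (Real.pi / 6) < Real.cos (Real.pi / 7) :=
    Real.cos_lt_cos_of_nonneg_of_le_pi (by positivity) (by linarith [Real.pi_pos])
      (by linarith [Real.pi_pos])
  rw [Real.cos_pi_div_six] at hc6
  have hs2 := Real.sin_sq_add_cos_sq (Real.pi / 7)
  have h3 : Real.sqrt 3 ^ 2 = 3 := Real.sq_sqrt (by norm_num)
  have h30 : 0 ≤ Real.sqrt 3 := Real.sqrt_nonneg 3
  have h3l : 1732 / 1000 < Real.sqrt 3 := by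
    rw [Real.lt_sqrt (by norm_num)]
    norm_num
  have hc1 := Real.cos_le_one (Real.pi / 7)
  set c := Real.cos (Real.pi / 7) with hc
  set s := Real.sin (Real.pi / 7) with hs
  have hcl : 865 / 1000 < c := by linarith
  have hcu : c < 90105 / 100000 := by
    by_contra hcon
    have h5 := not_lt.1 hcon
    have h6 : 0 ≤ (c - 90105 / 100000) * c := mul_nonneg (by linarith) (by linarith)
    have h7 : 0 ≤ (c - 90105 / 100000) * c * c := mul_nonneg h6 (by linarith)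
    nlinarith
  have hsl : 4337 / 10000 < s := by
    by_contra hcon
    have h5 := not_lt.1 hcon
    have h6 : s ^ 2 ≤ (4337 / 10000) ^ 2 := pow_le_pow_left₀ h1.le h5 2
    have h7 : c ^ 2 ≤ (90105 / 100000) ^ 2 := pow_le_pow_left₀ (by linarith) hcu.le 2
    norm_num at h6 h7
    linarith
  have h8 : 1732 / 1000 * (4337 / 10000) < Real.sqrt 3 * s :=
    mul_lt_mul'' h3l hsl (by norm_num) (by norm_num)
  norm_num at h8
  linarith

end Pool.Agent.Lib.H11Q.A
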