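import Mathlib
import Pool.Agent.Lib.H11Q.AD

/-! # H11Q (MP_a00a7b_an) module A, chunk A06: the ring R0: coordinates, the real embeddings are injective -/

set_option autoImplicit false

namespace Pool.Agent.Lib.H11Q.A

open Complex Set
open scoped ComplexConjugate Topology

theorem A06_x0 : x0 ^ 3 = x0 ^ 2 + 2 * x0 - 1 := by
  have h : AdjoinRoot.mk m7 m7 = 0 := AdjoinRoot.mk_self
  conv_lhs at h => arg 2; unfold m7
  simp only [map_add, map_sub, map_mul, map_pow, map_one, AdjoinRoot.mk_X, map_ofNat] at h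
  unfold x0
  linear_combination h

/-- PROOF. The set of such `r` contains the integers, is closed under addition and under multiplication by `x0`, since `x0^3 = x0^2 + 2 x0 - 1`; every element of `AdjoinRoot m7` is
`aeval` of a polynomial (`AdjoinRoot.mk_surjective`, `Polynomial.induction_on`). -/
theorem R0_rep (r : R0) : ∃ a b c : ℤ, r = a + b * x0 + c * x0 ^ 2 := by
  obtain ⟨p, rfl⟩ := AdjoinRoot.mk_surjective r
  induction p using Polynomial.induction_on with
  | C a =>
    refine ⟨a, 0, 0, ?_⟩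
    rw [AdjoinRoot.mk_C]
    simp
  | add p q hp hq =>
    obtain ⟨a, b, c, h1⟩ := hp
    obtain ⟨a', b', c', h2⟩ := hq
    refine ⟨a + a', b + b', c + c', ?_⟩
    rw [map_add, h1, h2]
    push_cast
    ring
  | monomial n a h =>
    obtain ⟨a', b', c', h1⟩ := h
    refine ⟨-c', a' + 2 * c', b' + c', ?_⟩
    have h2 : (Polynomial.C a * Polynomial.X ^ (n + 1) : Polynomial ℤ) = Polynomial.C a * Polynomial.X ^ n * Polynomial.X := by
      ring
    have h3 : AdjoinRoot.mk m7 Polynomial.X = x0 := AdjoinRoot.mk_X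
    rw [h2, map_mul, h1, h3]
    push_cast
    linear_combination (c' : R0) * A06_x0

/-- The norm form. -/
def A06_F (a b c : ℤ) : ℤ :=
  a ^ 3 + a ^ 2 * b + 5 * a ^ 2 * c - 2 * a * b ^ 2 + a * b * c + 6 * a * c ^ 2 - b ^ 3 - b ^ 2 * c + 2 * b * c ^ 2 + c ^ 3

theorem A06_mod (a b c : ZMod 2)
    (h : a ^ 3 + a ^ 2 * b + 5 * a ^ 2 * c - 2 * a * b ^ 2 + a * b * c + 6 * a * c ^ 2 - b ^ 3 - b ^ 2 * c + 2 * b * c ^ 2 + c ^ 3 = 0) :
    a = 0 ∧ b = 0 ∧ c = 0 := by
  revert a b c
  decide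

theorem A06_zero (n : ℕ) : ∀ a b c : ℤ, a.natAbs + b.natAbs + c.natAbs ≤ n → A06_F a b c = 0 → a = 0 ∧ b = 0 ∧ c = 0 := by
  induction n with
  | zero =>
    intro a b c h _
    omega
  | succ n ih =>
    intro a b c h hF
    have h1 := congrArg (fun z : ℤ => (z : ZMod 2)) hF
    unfold A06_F at h1
    push_cast at h1
    obtain ⟨ha, hb, hc⟩ := A06_mod _ _ _ h1
    rw [ZMod.intCast_zmod_eq_zero_iff_dvd] at ha hb hc
    obtain ⟨a', rfl⟩ := ha
    obtain ⟨b', rfl⟩ := hb
    obtain ⟨c', rfl⟩ := hc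
    push_cast at *
    by_cases h0 : a' = 0 ∧ b' = 0 ∧ c' = 0
    · obtain ⟨h1, h2, h3⟩ := h0
      rw [h1, h2, h3]
      simp
    · have hF' : A06_F a' b' c' = 0 := by
        have h3 : A06_F (2 * a') (2 * b') (2 * c') = 8 * A06_F a' b' c' := by
          unfold A06_F
          ring
        rw [h3] at hF
        omega
      obtain ⟨h1, h2, h3⟩ := ih a' b' c' (by omega) hF'
      exact absurd ⟨h1, h2, h3⟩ h0

/-- PROOF. `l = lam k` is a root of `m7` (`lam_root`), which is irreducible over the rationals (degree 3 without rational root: a rational root would be an integer dividing 1, and m7(1) = -1, m7(-1) = 1).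
Elementary: if `c = b = 0` then `a = 0`. If `c = 0, b /= 0` then `l = -a/b` is rational and a root of `m7`: contradiction (rational root theorem, or descent).
If `c /= 0`: divide `c^2 m7(X)` by `a + bX + cX^2`: the remainder is linear with integer coefficients and vanishes at `l`; if it is not zero, `l` is rational; if it is zero,
`m7` has a linear factor over the rationals. -/
theorem lin_indep (k : Fin 3) (a b c : ℤ) (h : (a : ℝ) + b * lam k + c * lam k ^ 2 = 0) : a = 0 ∧ b = 0 ∧ c = 0 := by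
  have hl := lam_root k
  generalize lam k = l at h hl
  have hF : ((A06_F a b c : ℤ) : ℝ) = 0 := by
    unfold A06_F
    push_cast
    linear_combination ((a : ℝ) ^ 2 + a * b * (1 - l) + a * c * ((1 - l) ^ 2 - 2 * (l ^ 2 - l - 2)) + b ^ 2 * (l ^ 2 - l - 2) +
      b * c * (l ^ 2 - l - 2) * (1 - l) + c ^ 2 * (l ^ 2 - l - 2) ^ 2) * h +
      (-(c : ℝ) ^ 3 * l ^ 3 + c ^ 3 * l ^ 2 + 2 * c ^ 3 * l + 3 * a * b * c + 2 * a * c ^ 2 - b ^ 3 - b ^ 2 * c + 2 * b * c ^ 2 + c ^ 3) * hl
  exact A06_zero _ a b c le_rfl (by exact_mod_cast hF)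

/-- PROOF. `R0_rep` and `lin_indep`, `evl_x0`. -/
theorem evl_eq_zero (k : Fin 3) (r : R0) (h : evl k r = 0) : r = 0 := by
  obtain ⟨a, b, c, rfl⟩ := R0_rep r
  simp only [map_add, map_mul, map_pow, map_intCast, evl_x0] at h
  obtain ⟨h1, h2, h3⟩ := lin_indep k a b c h
  rw [h1, h2, h3]
  simp

theorem evl_inj (k : Fin 3) : Function.Injective (evl k) :=
  (injective_iff_map_eq_zero _).2 fun r hr => evl_eq_zero k r hr

end Pool.Agent.Lib.H11Q.A
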