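import Mathlib
import Pool.Agent.Lib.H11Q.AD
import Pool.Agent.Lib.H11Q.A06

/-! # H11Q (MP_a00a7b_an) module A, chunk A07: the ring R0: norms -/

set_option autoImplicit false

namespace Pool.Agent.Lib.H11Q.A

open Complex Set
open scoped ComplexConjugate Topology

theorem A07_lt : lam 1 < lam 0 ∧ lam 2 < lam 1 := by
  have hp := Real.pi_pos
  constructor
  · unfold lam
    have h : Real.cos (ang 1) < Real.cos (ang 0) := by
      apply Real.cos_lt_cos_of_nonneg_of_le_pi
      · simp only [ang, Fin.val_zero]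
        positivity
      · simp only [ang, Fin.val_one]
        push_cast
        linarith
      · simp only [ang, Fin.val_zero, Fin.val_one]
        push_cast
        linarith
    linarith
  · unfold lam
    have h : Real.cos (ang 2) < Real.cos (ang 1) := by
      apply Real.cos_lt_cos_of_nonneg_of_le_pi
      · simp only [ang, Fin.val_one]
        positivity
      · simp only [ang, Fin.val_two]
        push_cast
        linarith
      · simp only [ang, Fin.val_two, Fin.val_one]
        push_cast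
        linarith
    linarith

/-- PROOF. The three numbers `lam k` are distinct roots of `m7` (cos is injective on `[0, pi]`), so `X^3 - X^2 - 2X + 1 = (X - lam 0)(X - lam 1)(X - lam 2)` (subtract two of the equations `lam_root` and divide
by `lam i - lam j`). -/
theorem lam_sym : lam 0 + lam 1 + lam 2 = 1 ∧ lam 0 * lam 1 + lam 0 * lam 2 + lam 1 * lam 2 = -2 ∧ lam 0 * lam 1 * lam 2 = -1 := by
  obtain ⟨h1, h2⟩ := A07_lt
  have e0 := lam_root 0
  have e1 := lam_root 1
  have e2 := lam_root 2
  generalize lam 0 = x at *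
  generalize lam 1 = y at *
  generalize lam 2 = z at *
  have hxy : x - y ≠ 0 := by intro h; linarith
  have hxz : x - z ≠ 0 := by intro h; linarith
  have hyz : y - z ≠ 0 := by intro h; linarith
  have a1 : x ^ 2 + x * y + y ^ 2 - x - y - 2 = 0 := by
    apply mul_left_cancel₀ hxy
    linear_combination e0 - e1
  have a2 : x ^ 2 + x * z + z ^ 2 - x - z - 2 = 0 := by
    apply mul_left_cancel₀ hxz
    linear_combination e0 - e2
  have a3 : x + y + z - 1 = 0 := by
    apply mul_left_cancel₀ hyz
    linear_combination a1 - a2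
  have a4 : x * y = z ^ 2 - z - 2 := by
    linear_combination (-1) * a1 + (x + y - z) * a3
  refine ⟨by linear_combination a3, ?_, ?_⟩
  · linear_combination a4 + z * a3
  · linear_combination z * a4 + e2

/-- PROOF. `r = a + b x0 + c x0^2` (`R0_rep`); the product of the three conjugates is a symmetric polynomial in the `lam k` with integer coefficients, an explicit polynomial in `a, b, c` and
`e1 = 1, e2 = -2, e3 = -1`: `a^3 + a^2 b e1 + a^2 c (e1^2 - 2 e2) + a b^2 e2 + a b c (e1 e2 - 3 e3) + a c^2 (e2^2 - 2 e1 e3) + b^3 e3 + b^2 c e1 e3 + b c^2 e2 e3 + c^3 e3^2`. -/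
theorem norm_int (r : R0) : ∃ n : ℤ, evl 0 r * evl 1 r * evl 2 r = n := by
  obtain ⟨a, b, c, rfl⟩ := R0_rep r
  obtain ⟨s1, s2, s3⟩ := lam_sym
  have e0 := lam_root 0
  simp only [map_add, map_mul, map_pow, map_intCast, evl_x0]
  generalize lam 0 = x at *
  generalize lam 1 = y at *
  generalize lam 2 = z at *
  have hs : y + z = 1 - x := by linear_combination s1
  have hp : y * z = x ^ 2 - x - 2 := by linear_combination s2 - x * hs
  refine ⟨a ^ 3 + a ^ 2 * b + 5 * a ^ 2 * c - 2 * a * b ^ 2 + a * b * c + 6 * a * c ^ 2 - b ^ 3 - b ^ 2 * c + 2 * b * c ^ 2 + c ^ 3, ?_⟩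
  have e : ((a : ℝ) + b * y + c * y ^ 2) * (a + b * z + c * z ^ 2) = (a : ℝ) ^ 2 + a * b * (y + z) + a * c * ((y + z) ^ 2 - 2 * (y * z)) +
      b ^ 2 * (y * z) + b * c * (y * z) * (y + z) + c ^ 2 * (y * z) ^ 2 := by ring
  rw [mul_assoc, e, hs, hp]
  push_cast
  linear_combination (-(-(c : ℝ) ^ 3 * x ^ 3 + c ^ 3 * x ^ 2 + 2 * c ^ 3 * x + 3 * a * b * c + 2 * a * c ^ 2 - b ^ 3 - b ^ 2 * c + 2 * b * c ^ 2 + c ^ 3)) * e0

/-- PROOF. `evl_eq_zero` and `norm_int`: a nonzero integer has absolute value at least 1. -/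
theorem one_le_norm {r : R0} (h : r ≠ 0) : 1 ≤ |evl 0 r| * |evl 1 r| * |evl 2 r| := by
  obtain ⟨n, hn⟩ := norm_int r
  have h0 : ∀ k, evl k r ≠ 0 := fun k hk => h (evl_eq_zero k r hk)
  rw [← abs_mul, ← abs_mul, hn]
  have hn0 : n ≠ 0 := by
    rintro rfl
    have h1 := mul_ne_zero (mul_ne_zero (h0 0) (h0 1)) (h0 2)
    rw [hn] at h1
    exact h1 Int.cast_zero
  have h2 := Int.one_le_abs hn0
  exact_mod_cast h2

end Pool.Agent.Lib.H11Q.A
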