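import Mathlib
import Pool.Agent.Lib.H11Q.AD

/-! # H11Q (MP_a00a7b_an) module A, chunk A08: coordinates of a word: naturality, matrices (2.3) -/

set_option autoImplicit false

namespace Pool.Agent.Lib.H11Q.A

open Complex Set
open scoped ComplexConjugate Topology

/-- Induction on words. -/
theorem A08_ind (C : W → Prop) (h1 : C 1) (hA : C wA) (hB : C wB) (hinv : ∀ w, C w → C w⁻¹) (hmul : ∀ v w, C v → C w → C (v * w))
    (w : W) : C w := by
  induction w using FreeGroup.induction_on with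
  | C1 => exact h1
  | of i =>
    fin_cases i
    · exact hA
    · exact hB
  | inv_of i h => exact hinv _ h
  | mul v w hv hw => exact hmul _ _ hv hw

/-- PROOF. Induction on words (`FreeGroup.induction_on`); for the generators and their inverses `fin_cases i; simp [pA, qA]`. -/
theorem Th_map {R S : Type*} [CommRing R] [CommRing S] (f : R →+* S) (x : R) (w : W) (q : Fin 4 → R) :
    Th (f x) w (fun i => f (q i)) = fun i => f (Th x w q i) := by
  revert q
  refine A08_ind (fun w => ∀ q : Fin 4 → R, Th (f x) w (fun i => f (q i)) = fun i => f (Th x w q i)) ?_ ?_ ?_ ?_ ?_ w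
  · intro q
    rw [map_one, map_one]
    rfl
  · intro q
    rw [Th_wA, Th_wA]
    funext i
    show qA (f x) (fun i => f (q i)) i = f (qA x q i)
    fin_cases i <;> simp [qA]
  · intro q
    rw [Th_wB, Th_wB]
    funext i
    show qB (f x) (fun i => f (q i)) i = f (qB x q i)
    fin_cases i <;> simp [qB]
  · intro w h q
    have h2 := h ((Th x w⁻¹) q)
    have h3 : Th x w (Th x w⁻¹ q) = q := by
      rw [map_inv]
      exact (Th x w).apply_symm_apply q
    rw [h3] at h2
    rw [← h2, map_inv]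
    exact (Th (f x) w).symm_apply_apply _
  · intro v w hv hw q
    rw [map_mul, map_mul, Equiv.Perm.mul_apply, hw, hv]
    rfl

/-- PROOF. `A (q0 + q1 A + q2 B + q3 AB) = q0 A + q1 (x A - 1) + q2 AB + q3 (x A - 1) B`; `B (..)` with `B A = x B + A - x - A B` and
`B A B = x (B - 1) + A B - x B - A (B - 1) = A - x`. -/
theorem ev_qA {F E : Type*} [CommRing F] [Ring E] [Algebra F E] (x : F) (A B : E) (hA : A * A = x • A - 1) (q : Fin 4 → F) :
    ev A B (qA x q) = A * ev A B q := by
  have h2 : A * (A * B) = x • (A * B) - B := by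
    rw [← mul_assoc, hA, sub_mul, one_mul, smul_mul_assoc]
  unfold ev
  rw [mul_add, mul_add, mul_add, mul_smul_comm, mul_smul_comm, mul_smul_comm, mul_smul_comm, mul_one, hA, h2]
  show (-q 1) • (1 : E) + (q 0 + x * q 1) • A + (-q 3) • B + (q 2 + x * q 3) • (A * B) = _
  module

theorem ev_qB {F E : Type*} [CommRing F] [Ring E] [Algebra F E] (x : F) (A B : E) (hA : A * A = x • A - 1) (hB : B * B = B - 1)
    (hBA : B * A = x • B + A - x • (1 : E) - A * B) (q : Fin 4 → F) :
    ev A B (qB x q) = B * ev A B q := by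
  have h2 : B * (A * B) = A - x • (1 : E) := by
    rw [← mul_assoc, hBA, sub_mul, sub_mul, add_mul, smul_mul_assoc, smul_mul_assoc, one_mul, mul_assoc A B B, hB, mul_sub, mul_one]
    module
  unfold ev
  rw [mul_add, mul_add, mul_add, mul_smul_comm, mul_smul_comm, mul_smul_comm, mul_smul_comm, mul_one, hB, h2, hBA]
  show (-(x * q 1) - q 2 - x * q 3) • (1 : E) + (q 1 + q 3) • A + (q 0 + x * q 1 + q 2) • B + (-q 1) • (A * B) = _
  module

/-- PROOF. Induction on words. For an inverse letter: `phi (w_A)^{-1}` is the inverse of `A` in `E`, so it is enough that `A * ev (Th (w_A^{-1} w) q) = ev (Th w q)`, which is `ev_qA` for `Th (w_A^{-1} w) q`. -/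
theorem ev_Th {F E : Type*} [CommRing F] [Ring E] [Algebra F E] (x : F) (φ : W →* E)
    (hA : φ wA * φ wA = x • φ wA - 1) (hB : φ wB * φ wB = φ wB - 1)
    (hBA : φ wB * φ wA = x • φ wB + φ wA - x • (1 : E) - φ wA * φ wB) (w : W) (q : Fin 4 → F) :
    ev (φ wA) (φ wB) (Th x w q) = φ w * ev (φ wA) (φ wB) q := by
  revert q
  refine A08_ind (fun w => ∀ q : Fin 4 → F, ev (φ wA) (φ wB) (Th x w q) = φ w * ev (φ wA) (φ wB) q) ?_ ?_ ?_ ?_ ?_ w
  · intro q
    rw [map_one, map_one, one_mul]
    rfl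
  · intro q
    rw [Th_wA]
    exact ev_qA x _ _ hA q
  · intro q
    rw [Th_wB]
    exact ev_qB x _ _ hA hB hBA q
  · intro w h q
    have h2 := h ((Th x w⁻¹) q)
    have h3 : Th x w (Th x w⁻¹ q) = q := by
      rw [map_inv]
      exact (Th x w).apply_symm_apply q
    rw [h3] at h2
    rw [h2, ← mul_assoc, ← map_mul, inv_mul_cancel, map_one, one_mul]
  · intro v w hv hw q
    rw [map_mul, map_mul, Equiv.Perm.mul_apply, hv, hw, mul_assoc]

/-- PROOF. `q = e4`, `ev e4 = 1`. -/
theorem ev_Th_one {F E : Type*} [CommRing F] [Ring E] [Algebra F E] (x : F) (φ : W →* E)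
    (hA : φ wA * φ wA = x • φ wA - 1) (hB : φ wB * φ wB = φ wB - 1)
    (hBA : φ wB * φ wA = x • φ wB + φ wA - x • (1 : E) - φ wA * φ wB) (w : W) :
    φ w = ev (φ wA) (φ wB) (Th x w e4) := by
  rw [ev_Th x φ hA hB hBA w e4]
  have h : ev (φ wA) (φ wB) (e4 : Fin 4 → F) = 1 := by
    show (1 : F) • (1 : E) + (0 : F) • φ wA + (0 : F) • φ wB + (0 : F) • (φ wA * φ wB) = 1
    simp
  rw [h, mul_one]

end Pool.Agent.Lib.H11Q.A
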