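import Mathlib
import Pool.Agent.Lib.H11Q.AD
import Pool.Agent.Lib.H11Q.A08

/-! # H11Q (MP_a00a7b_an) module A, chunk A09: the three matrix models (2.3) -/

set_option autoImplicit false

namespace Pool.Agent.Lib.H11Q.A

open Complex Set
open scoped ComplexConjugate Topology

theorem A09_normSq (z : ℂ) : z * conj z = ((normSq z : ℝ) : ℂ) := mul_conj z

/-- Cayley-Hamilton in SU(1,1). -/
theorem A09_sq (g : SU) : SU.mat g * SU.mat g = ((2 * g.a.re : ℝ) : ℂ) • SU.mat g - 1 := by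
  have h : g.a * conj g.a - g.b * conj g.b = 1 := by
    rw [mul_conj, mul_conj, ← ofReal_sub, g.h, ofReal_one]
  have h2 : ((2 * g.a.re : ℝ) : ℂ) = g.a + conj g.a := by
    rw [add_conj]
  rw [h2]
  show !![g.a, g.b; conj g.b, conj g.a] * !![g.a, g.b; conj g.b, conj g.a] =
    (g.a + conj g.a) • !![g.a, g.b; conj g.b, conj g.a] - 1
  ext i j
  fin_cases i <;> fin_cases j <;> simp [Matrix.mul_apply, Fin.sum_univ_two]
  · linear_combination -h
  · ring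
  · ring
  · linear_combination -h

/-- The polarized identity in SU(1,1). -/
theorem A09_pol (g k : SU) : SU.mat k * SU.mat g = ((2 * g.a.re : ℝ) : ℂ) • SU.mat k + ((2 * k.a.re : ℝ) : ℂ) • SU.mat g +
    (((2 * (g * k).a.re : ℝ) : ℂ) - ((2 * g.a.re : ℝ) : ℂ) * ((2 * k.a.re : ℝ) : ℂ)) • 1 - SU.mat g * SU.mat k := by
  have h2 : ((2 * g.a.re : ℝ) : ℂ) = g.a + conj g.a := by
    rw [add_conj]
  have h3 : ((2 * k.a.re : ℝ) : ℂ) = k.a + conj k.a := by
    rw [add_conj]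
  have h4 : ((2 * (g * k).a.re : ℝ) : ℂ) = (g * k).a + conj (g * k).a := by
    rw [add_conj]
  rw [h2, h3, h4, SU.mul_a, map_add, map_mul, map_mul, conj_conj]
  show !![k.a, k.b; conj k.b, conj k.a] * !![g.a, g.b; conj g.b, conj g.a] =
    (g.a + conj g.a) • !![k.a, k.b; conj k.b, conj k.a] + (k.a + conj k.a) • !![g.a, g.b; conj g.b, conj g.a] + _ • 1 -
    !![g.a, g.b; conj g.b, conj g.a] * !![k.a, k.b; conj k.b, conj k.a]
  ext i j
  fin_cases i <;> fin_cases j <;> simp [Matrix.mul_apply, Fin.sum_univ_two] <;> ring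

theorem A09_sq2 (g : SU2) : SU2.mat g * SU2.mat g = ((2 * g.a.re : ℝ) : ℂ) • SU2.mat g - 1 := by
  have h : g.a * conj g.a + g.b * conj g.b = 1 := by
    rw [mul_conj, mul_conj, ← ofReal_add, g.h, ofReal_one]
  have h2 : ((2 * g.a.re : ℝ) : ℂ) = g.a + conj g.a := by
    rw [add_conj]
  rw [h2]
  show !![g.a, g.b; -conj g.b, conj g.a] * !![g.a, g.b; -conj g.b, conj g.a] =
    (g.a + conj g.a) • !![g.a, g.b; -conj g.b, conj g.a] - 1
  ext i j
  fin_cases i <;> fin_cases j <;> simp [Matrix.mul_apply, Fin.sum_univ_two]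
  · linear_combination -h
  · ring
  · ring
  · linear_combination -h

theorem A09_pol2 (g k : SU2) : SU2.mat k * SU2.mat g = ((2 * g.a.re : ℝ) : ℂ) • SU2.mat k + ((2 * k.a.re : ℝ) : ℂ) • SU2.mat g +
    (((2 * (g * k).a.re : ℝ) : ℂ) - ((2 * g.a.re : ℝ) : ℂ) * ((2 * k.a.re : ℝ) : ℂ)) • 1 - SU2.mat g * SU2.mat k := by
  have h2 : ((2 * g.a.re : ℝ) : ℂ) = g.a + conj g.a := by
    rw [add_conj]
  have h3 : ((2 * k.a.re : ℝ) : ℂ) = k.a + conj k.a := by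
    rw [add_conj]
  have h4 : ((2 * (g * k).a.re : ℝ) : ℂ) = (g * k).a + conj (g * k).a := by
    rw [add_conj]
  rw [h2, h3, h4, SU2.mul_a, map_sub, map_mul, map_mul, conj_conj]
  show !![k.a, k.b; -conj k.b, conj k.a] * !![g.a, g.b; -conj g.b, conj g.a] =
    (g.a + conj g.a) • !![k.a, k.b; -conj k.b, conj k.a] + (k.a + conj k.a) • !![g.a, g.b; -conj g.b, conj g.a] + _ • 1 -
    !![g.a, g.b; -conj g.b, conj g.a] * !![k.a, k.b; -conj k.b, conj k.a]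
  ext i j
  fin_cases i <;> fin_cases j <;> simp [Matrix.mul_apply, Fin.sum_univ_two] <;> ring

theorem A09_lam (k : Fin 3) : lam k = 2 * Real.cos (ang k) := rfl

theorem A09_ang0 : ang 0 = Real.pi / 7 := by
  unfold ang
  simp

theorem A09_gA : gA.a = ⟨Real.cos (Real.pi / 7), Real.sin (Real.pi / 7)⟩ ∧ gA.b = 0 := by
  have e : 2 * Real.pi / 7 / 2 = Real.pi / 7 := by ring
  constructor
  · show (Real.cos (2 * Real.pi / 7 / 2) : ℂ) + I * Real.sin (2 * Real.pi / 7 / 2) * ((1 + ‖(o0 : ℂ)‖ ^ 2) / (1 - ‖(o0 : ℂ)‖ ^ 2) : ℝ) = _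
    have h0 : (o0 : ℂ) = 0 := rfl
    have h1 : ((1 + (0 : ℝ) ^ 2) / (1 - 0 ^ 2)) = 1 := by norm_num
    rw [e, h0, norm_zero, h1, ofReal_one, mul_one]
    apply Complex.ext
    · rw [add_re, ofReal_re, mul_re, I_re, I_im, ofReal_re, ofReal_im]
      ring
    · rw [add_im, ofReal_im, mul_im, I_re, I_im, ofReal_re, ofReal_im]
      ring
  · show -2 * I * Real.sin (2 * Real.pi / 7 / 2) * (o0 : ℂ) / ((1 - ‖(o0 : ℂ)‖ ^ 2 : ℝ) : ℂ) = 0
    have h0 : (o0 : ℂ) = 0 := rfl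
    rw [h0, mul_zero, zero_div]

theorem A09_gB : gB.a = ⟨1 / 2, Real.cos (Real.pi / 7) / (2 * Real.sin (Real.pi / 7))⟩ := by
  have e : 2 * Real.pi / 3 / 2 = Real.pi / 3 := by ring
  show (Real.cos (2 * Real.pi / 3 / 2) : ℂ) + I * Real.sin (2 * Real.pi / 3 / 2) * ((1 + ‖(v0 : ℂ)‖ ^ 2) / (1 - ‖(v0 : ℂ)‖ ^ 2) : ℝ) = _
  have h0 : ‖(v0 : ℂ)‖ = vv := by
    show ‖((vv : ℝ) : ℂ)‖ = vv
    rw [Complex.norm_real, Real.norm_eq_abs, abs_of_pos vv_pos]
  have h1 := one_lt_CC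
  have h2 : (1 + vv ^ 2) / (1 - vv ^ 2) = CC := by
    rw [vv_sq]
    have h3 : CC + 1 ≠ 0 := by linarith
    have h4 : 1 - (CC - 1) / (CC + 1) ≠ 0 := by
      have : 1 - (CC - 1) / (CC + 1) = 2 / (CC + 1) := by
        field_simp
        ring
      rw [this]
      positivity
    rw [div_eq_iff h4]
    field_simp
    ring
  have h5 := pi7_pos
  have h6 : Real.sqrt 3 ≠ 0 := by
    have : 0 < Real.sqrt 3 := Real.sqrt_pos.mpr (by norm_num)
    exact this.ne'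
  rw [e, h0, h2, Real.cos_pi_div_three, Real.sin_pi_div_three]
  apply Complex.ext
  · simp
  · have h7 : Real.sqrt 3 / 2 * CC = Real.cos (Real.pi / 7) / (2 * Real.sin (Real.pi / 7)) := by
      unfold CC
      field_simp
    rw [← h7]
    simp

theorem A09_re (c s : ℝ) (hs : s ≠ 0) : ((⟨c, s⟩ : ℂ) * ⟨1 / 2, c / (2 * s)⟩).re = 0 := by
  rw [mul_re]
  field_simp
  ring

theorem A09_e4 {R S : Type*} [CommRing R] [CommRing S] (f : R →+* S) : (fun i => f ((e4 : Fin 4 → R) i)) = e4 := by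
  funext i
  fin_cases i <;> simp [e4]

/-- PROOF. `ev_Th_one` for `phi = SU.mat.comp rho`, `x = lam 0` (as a complex number), `E` = 2x2 matrices; then `Th_map` for the ring homomorphism `R0 -> R -> C`.
The relations: `A = diag(e^{ia}, e^{-ia})`, `a = pi/7`, `gA.a = cos a + i sin a`; `B = gB`, `gB.a = 1/2 + i (sqrt 3/2) (1+vv^2)/(1-vv^2)`, trace 1, determinant 1, so `B^2 = B - 1`;
`A^2 = 2 cos a A - 1`; the polarized Cayley-Hamilton identity `A B + B A = tr(A) B + tr(B) A + (tr(AB) - tr A tr B)` with `tr (AB) = 0`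
(`2 Re(e^{ia}(1/2 + (i/2) cot a)) = 0`; `(sqrt 3/2)(1+vv^2)/(1-vv^2) = (sqrt 3/2) CC = cot(a)/2`). Check entry by entry. -/
theorem mat_rho (w : W) : SU.mat (rho w) = ev (SU.mat gA) (SU.mat gB) (fun i => ((evl 0 (co w i) : ℝ) : ℂ)) := by
  have hA : ((2 * gA.a.re : ℝ) : ℂ) = ((lam 0 : ℝ) : ℂ) := by
    rw [A09_gA.1, A09_lam, A09_ang0]
  have hB : ((2 * gB.a.re : ℝ) : ℂ) = 1 := by
    rw [A09_gB]
    norm_num
  have hAB : ((2 * (gA * gB).a.re : ℝ) : ℂ) = 0 := by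
    rw [SU.mul_a, A09_gA.1, A09_gA.2, A09_gB, zero_mul, add_zero, A09_re _ _ pi7_pos.ne', mul_zero, ofReal_zero]
  have h := ev_Th_one (F := ℂ) ((lam 0 : ℝ) : ℂ) (SU.mat.comp rho) (by
    rw [MonoidHom.comp_apply, rho_wA, A09_sq, hA]) (by
    rw [MonoidHom.comp_apply, rho_wB, A09_sq, hB, one_smul]) (by
    rw [MonoidHom.comp_apply, MonoidHom.comp_apply, rho_wA, rho_wB, A09_pol gA gB, hA, hB, hAB]
    module) w
  rw [MonoidHom.comp_apply, MonoidHom.comp_apply, MonoidHom.comp_apply, rho_wA, rho_wB] at h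
  rw [h]
  have h2 := Th_map ((Complex.ofRealHom).comp (evl 0)) x0 w e4
  rw [A09_e4, RingHom.comp_apply, evl_x0] at h2
  congr 1

/-- PROOF. The same with `uA k`, `uB k`, `x = lam k.succ`. -/
theorem mat_rU (k : Fin 2) (w : W) :
    SU2.mat (rU k w) = ev (SU2.mat (uA k)) (SU2.mat (uB k)) (fun i => ((evl k.succ (co w i) : ℝ) : ℂ)) := by
  have hA : ((2 * (uA k).a.re : ℝ) : ℂ) = ((lam k.succ : ℝ) : ℂ) := rfl
  have hB : ((2 * (uB k).a.re : ℝ) : ℂ) = 1 := by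
    show ((2 * (1 / 2 : ℝ) : ℝ) : ℂ) = 1
    norm_num
  have hAB : ((2 * (uA k * uB k).a.re : ℝ) : ℂ) = 0 := by
    have h1 : (uA k * uB k).a = (⟨Real.cos (ang k.succ), Real.sin (ang k.succ)⟩ : ℂ) * ⟨1 / 2, Real.cos (ang k.succ) / (2 * Real.sin (ang k.succ))⟩ := by
      rw [SU2.mul_a]
      show _ - (0 : ℂ) * _ = _
      rw [zero_mul, sub_zero]
      rfl
    rw [h1, A09_re _ _ (sin_ang_pos k.succ).ne', mul_zero, ofReal_zero]
  have h := ev_Th_one (F := ℂ) ((lam k.succ : ℝ) : ℂ) (SU2.mat.comp (rU k)) (by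
    rw [MonoidHom.comp_apply, rU_wA, A09_sq2, hA]) (by
    rw [MonoidHom.comp_apply, rU_wB, A09_sq2, hB, one_smul]) (by
    rw [MonoidHom.comp_apply, MonoidHom.comp_apply, rU_wA, rU_wB, A09_pol2 (uA k) (uB k), hA, hB, hAB]
    module) w
  rw [MonoidHom.comp_apply, MonoidHom.comp_apply, MonoidHom.comp_apply, rU_wA, rU_wB] at h
  rw [h]
  have h2 := Th_map ((Complex.ofRealHom).comp (evl k.succ)) x0 w e4
  rw [A09_e4, RingHom.comp_apply, evl_x0] at h2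
  congr 1

/-- PROOF. The same with `sA`, `sB`, `x = -2` in the field with 7 elements (relations by `decide`). -/
theorem mat_rho7 (w : W) : ((rho7 w : Matrix.SpecialLinearGroup (Fin 2) (ZMod 7)) : Matrix (Fin 2) (Fin 2) (ZMod 7)) =
    ev (sA : Matrix (Fin 2) (Fin 2) (ZMod 7)) (sB : Matrix (Fin 2) (Fin 2) (ZMod 7)) (fun i => evs (co w i)) := by
  let φ : W →* Matrix (Fin 2) (Fin 2) (ZMod 7) :=
    { toFun := fun w => ((rho7 w : Matrix.SpecialLinearGroup (Fin 2) (ZMod 7)) : Matrix (Fin 2) (Fin 2) (ZMod 7))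
      map_one' := by rw [map_one]; rfl
      map_mul' := fun v w => by rw [map_mul, Matrix.SpecialLinearGroup.coe_mul] }
  have hφA : φ wA = (sA : Matrix (Fin 2) (Fin 2) (ZMod 7)) := by
    show ((rho7 wA : Matrix.SpecialLinearGroup (Fin 2) (ZMod 7)) : Matrix (Fin 2) (Fin 2) (ZMod 7)) = _
    rw [rho7_wA]
  have hφB : φ wB = (sB : Matrix (Fin 2) (Fin 2) (ZMod 7)) := by
    show ((rho7 wB : Matrix.SpecialLinearGroup (Fin 2) (ZMod 7)) : Matrix (Fin 2) (Fin 2) (ZMod 7)) = _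
    rw [rho7_wB]
  have h := ev_Th_one (F := ZMod 7) (-2) φ (by rw [hφA]; decide) (by rw [hφB]; decide) (by rw [hφA, hφB]; decide) w
  rw [hφA, hφB] at h
  have h3 : ((rho7 w : Matrix.SpecialLinearGroup (Fin 2) (ZMod 7)) : Matrix (Fin 2) (Fin 2) (ZMod 7)) = φ w := rfl
  rw [h3, h]
  have h2 := Th_map evs x0 w e4
  rw [A09_e4, evs_x0] at h2
  rw [h2]
  rfl

end Pool.Agent.Lib.H11Q.A
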