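import Mathlib
import Pool.Agent.Lib.H11Q.AD
import Pool.Agent.Lib.H11Q.A06
import Pool.Agent.Lib.H11Q.A09

/-! # H11Q (MP_a00a7b_an) module A, chunk A10: traces, determinants, linear independence (2.4, 2.5) -/

set_option autoImplicit false

namespace Pool.Agent.Lib.H11Q.A

open Complex Set
open scoped ComplexConjugate Topology

theorem A10_ev00 (A B : Matrix (Fin 2) (Fin 2) ℂ) (hA : A 0 1 = 0) (q : Fin 4 → ℂ) :
    ev A B q 0 0 = q 0 + q 1 * A 0 0 + q 2 * B 0 0 + q 3 * (A 0 0 * B 0 0) := by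
  unfold ev
  simp only [Matrix.add_apply, Matrix.smul_apply, Matrix.mul_apply, Fin.sum_univ_two, Matrix.one_apply, smul_eq_mul, hA, if_true]
  ring

theorem A10_ev01 (A B : Matrix (Fin 2) (Fin 2) ℂ) (hA : A 0 1 = 0) (q : Fin 4 → ℂ) :
    ev A B q 0 1 = (q 2 + q 3 * A 0 0) * B 0 1 := by
  unfold ev
  have h : ((0 : Fin 2) = 1) = False := by simp
  simp only [Matrix.add_apply, Matrix.smul_apply, Matrix.mul_apply, Fin.sum_univ_two, Matrix.one_apply, smul_eq_mul, hA, h, if_false]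
  ring

theorem A10_prod (c s : ℝ) (hs : s ≠ 0) (h : c ^ 2 + s ^ 2 = 1) : (⟨c, s⟩ : ℂ) * ⟨1 / 2, c / (2 * s)⟩ = ⟨0, 1 / (2 * s)⟩ := by
  apply Complex.ext
  · exact A09_re c s hs
  · simp only [mul_im]
    field_simp
    linear_combination h

theorem A10_re (c s : ℝ) (hs : s ≠ 0) (h : c ^ 2 + s ^ 2 = 1) (q : Fin 4 → ℝ) :
    ((q 0 : ℂ) + q 1 * ⟨c, s⟩ + q 2 * ⟨1 / 2, c / (2 * s)⟩ + q 3 * (⟨c, s⟩ * ⟨1 / 2, c / (2 * s)⟩)).re =
      q 0 + q 1 * c + q 2 / 2 := by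
  rw [A10_prod c s hs h]
  simp only [add_re, re_ofReal_mul, ofReal_re]
  ring

theorem A10_im (c s : ℝ) (hs : s ≠ 0) (h : c ^ 2 + s ^ 2 = 1) (q : Fin 4 → ℝ) :
    ((q 0 : ℂ) + q 1 * ⟨c, s⟩ + q 2 * ⟨1 / 2, c / (2 * s)⟩ + q 3 * (⟨c, s⟩ * ⟨1 / 2, c / (2 * s)⟩)).im =
      q 1 * s + (q 2 * c + q 3) / (2 * s) := by
  rw [A10_prod c s hs h]
  simp only [add_im, im_ofReal_mul, ofReal_im]
  field_simp
  ring

theorem A10_gBb : normSq gB.b = 1 / (4 * Real.sin (Real.pi / 7) ^ 2) - 1 := by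
  have h1 := gB.h
  have hs : Real.sin (Real.pi / 7) ≠ 0 := pi7_pos.ne'
  have h2 := Real.sin_sq_add_cos_sq (Real.pi / 7)
  rw [A09_gB] at h1
  have h3 : normSq (⟨1 / 2, Real.cos (Real.pi / 7) / (2 * Real.sin (Real.pi / 7))⟩ : ℂ) = 1 / (4 * Real.sin (Real.pi / 7) ^ 2) := by
    rw [normSq_apply]
    field_simp
    linear_combination 4 * h2
  rw [h3] at h1
  linarith

theorem A10_gBb_ne : gB.b ≠ 0 := by
  intro h
  have h1 := A10_gBb
  rw [h, map_zero] at h1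
  have hp := Real.pi_pos
  have h2 : Real.sin (Real.pi / 7) < 1 / 2 := by
    rw [← Real.sin_pi_div_six]
    exact Real.sin_lt_sin_of_lt_of_le_pi_div_two (by linarith) (by linarith) (by linarith)
  have h3 := pi7_pos
  have h4 : 1 < 1 / (4 * Real.sin (Real.pi / 7) ^ 2) := by
    rw [lt_div_iff₀ (by positivity)]
    nlinarith
  linarith

theorem A10_uBb_ne (k : Fin 2) : (uB k).b ≠ 0 := by
  intro h
  have h1 := congrArg Complex.im h
  have h0 : (uB k).b = ⟨0, -Real.sqrt (1 - normSq (pk k.succ))⟩ := rfl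
  rw [h0] at h1
  simp only [zero_im] at h1
  have h2 : Real.sqrt (1 - normSq (pk k.succ)) = 0 := by linarith
  rw [Real.sqrt_eq_zero', normSq_pk] at h2
  have h3 := half_lt_sin_ang k
  have h4 : 1 / (4 * Real.sin (ang k.succ) ^ 2) < 1 := by
    rw [div_lt_one (by positivity)]
    nlinarith
  linarith

theorem A10_zero (z : ℂ) (hz : z.im ≠ 0) (x y : ℝ) (h : (x : ℂ) + y * z = 0) : x = 0 ∧ y = 0 := by
  have h1 := congrArg Complex.im h
  have h2 := congrArg Complex.re h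
  simp only [add_im, add_re, im_ofReal_mul, re_ofReal_mul, ofReal_im, ofReal_re, zero_im, zero_re, zero_add] at h1 h2
  have h3 : y = 0 := (mul_eq_zero.1 h1).resolve_right hz
  rw [h3, zero_mul, add_zero] at h2
  exact ⟨h2, h3⟩

theorem A10_indep (A B : Matrix (Fin 2) (Fin 2) ℂ) (hA : A 0 1 = 0) (hA' : (A 0 0).im ≠ 0) (hB : B 0 1 ≠ 0) (c : Fin 4 → ℝ)
    (h : ev A B (fun i => (c i : ℂ)) = 0) : c = 0 := by
  have h1 := A10_ev01 A B hA (fun i => (c i : ℂ))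
  rw [h, Matrix.zero_apply] at h1
  have h2 : (c 2 : ℂ) + c 3 * A 0 0 = 0 := (mul_eq_zero.1 h1.symm).resolve_right hB
  obtain ⟨h3, h4⟩ := A10_zero _ hA' _ _ h2
  have h5 := A10_ev00 A B hA (fun i => (c i : ℂ))
  rw [h, Matrix.zero_apply] at h5
  simp only [h3, h4, ofReal_zero, zero_mul, add_zero] at h5
  obtain ⟨h6, h7⟩ := A10_zero _ hA' _ _ h5.symm
  funext i
  fin_cases i
  · exact h6
  · exact h7
  · exact h3
  · exact h4

theorem A10_add (A B : Matrix (Fin 2) (Fin 2) ℂ) (c d : Fin 4 → ℝ) :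
    ev A B (fun i => ((c i - d i : ℝ) : ℂ)) = ev A B (fun i => (c i : ℂ)) - ev A B (fun i => (d i : ℂ)) := by
  unfold ev
  simp only [ofReal_sub, sub_smul]
  abel

theorem A10_e4 (A B : Matrix (Fin 2) (Fin 2) ℂ) (s : ℝ) : ev A B (fun i => ((s * (e4 : Fin 4 → ℝ) i : ℝ) : ℂ)) = (s : ℂ) • (1 : Matrix (Fin 2) (Fin 2) ℂ) := by
  unfold ev e4
  simp

theorem A10_gAim : (SU.mat gA 0 0).im ≠ 0 := by
  have h : SU.mat gA 0 0 = gA.a := rfl
  rw [h, A09_gA.1]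
  exact pi7_pos.ne'

theorem A10_sign (w : W) (s : ℝ) (hb : (rho w).b = 0) (ha : (rho w).a = (s : ℂ)) (i : Fin 4) :
    evl 0 (co w i) = s * (e4 : Fin 4 → ℝ) i := by
  have h1 : SU.mat (rho w) = (s : ℂ) • (1 : Matrix (Fin 2) (Fin 2) ℂ) := by
    ext a b
    have h0 : SU.mat (rho w) = !![(rho w).a, (rho w).b; conj (rho w).b, conj (rho w).a] := rfl
    rw [h0, ha, hb]
    fin_cases a <;> fin_cases b <;> simp
  have h2 := mat_rho w
  rw [h1] at h2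
  have h3 : ev (SU.mat gA) (SU.mat gB) (fun i => ((evl 0 (co w i) - s * (e4 : Fin 4 → ℝ) i : ℝ) : ℂ)) = 0 := by
    rw [A10_add _ _ (fun i => evl 0 (co w i)) (fun i => s * (e4 : Fin 4 → ℝ) i), ← h2, A10_e4, sub_self]
  have h4 := A10_indep _ _ A09_gA.2 A10_gAim A10_gBb_ne _ h3
  have h5 := congrFun h4 i
  have h6 : evl 0 (co w i) - s * (e4 : Fin 4 → ℝ) i = 0 := h5
  linarith

/-- PROOF. The trace of `ev A B q` is `2 q0 + q1 tr A + q2 tr B + q3 tr AB`, `tr A = lam 0`, `tr B = 1`, `tr AB = 0`; the trace of `SU.mat g` is `2 Re g.a`. -/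
theorem tr_rho (w : W) : 2 * (rho w).a.re = evl 0 (trq x0 (co w)) := by
  have h0 : (rho w).a = SU.mat (rho w) 0 0 := rfl
  have hs := pi7_pos.ne'
  have h2 : Real.cos (Real.pi / 7) ^ 2 + Real.sin (Real.pi / 7) ^ 2 = 1 := Real.cos_sq_add_sin_sq _
  rw [h0, mat_rho, A10_ev00 _ _ A09_gA.2]
  have h3 : SU.mat gA 0 0 = ⟨Real.cos (Real.pi / 7), Real.sin (Real.pi / 7)⟩ := A09_gA.1
  have h4 : SU.mat gB 0 0 = ⟨1 / 2, Real.cos (Real.pi / 7) / (2 * Real.sin (Real.pi / 7))⟩ := A09_gB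
  rw [h3, h4, A10_re _ _ hs h2 (fun i => evl 0 (co w i))]
  unfold trq
  rw [map_add, map_add, map_mul, map_mul, map_ofNat, evl_x0, A09_lam, A09_ang0]
  ring

theorem tr_rU (k : Fin 2) (w : W) : 2 * (rU k w).a.re = evl k.succ (trq x0 (co w)) := by
  have h0 : (rU k w).a = SU2.mat (rU k w) 0 0 := rfl
  have hs := (sin_ang_pos k.succ).ne'
  have h2 : Real.cos (ang k.succ) ^ 2 + Real.sin (ang k.succ) ^ 2 = 1 := Real.cos_sq_add_sin_sq _
  have hA : SU2.mat (uA k) 0 1 = 0 := rfl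
  rw [h0, mat_rU, A10_ev00 _ _ hA]
  have h3 : SU2.mat (uA k) 0 0 = ⟨Real.cos (ang k.succ), Real.sin (ang k.succ)⟩ := rfl
  have h4 : SU2.mat (uB k) 0 0 = ⟨1 / 2, Real.cos (ang k.succ) / (2 * Real.sin (ang k.succ))⟩ := rfl
  rw [h3, h4, A10_re _ _ hs h2 (fun i => evl k.succ (co w i))]
  unfold trq
  rw [map_add, map_add, map_mul, map_mul, map_ofNat, evl_x0, A09_lam]
  ring

/-- PROOF. `|Re a|^2 <= |a|^2 <= 1`. -/
theorem abs_tr_rU (k : Fin 2) (w : W) : |evl k.succ (trq x0 (co w))| ≤ 2 := by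
  rw [← tr_rU]
  have h1 := (rU k w).h
  rw [normSq_apply, normSq_apply] at h1
  rw [abs_le]
  constructor <;> nlinarith [mul_self_nonneg (rU k w).a.im, mul_self_nonneg (rU k w).b.re, mul_self_nonneg (rU k w).b.im,
    mul_self_nonneg ((rU k w).a.re - 1), mul_self_nonneg ((rU k w).a.re + 1)]

/-- PROOF. `det (ev A B q) = del x q` (expand, with `x = lam 0`), and `det (SU.mat g) = 1`; `evl_inj`. -/
theorem del_co (w : W) : del x0 (co w) = 1 := by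
  apply evl_inj 0
  rw [map_one]
  have hs := pi7_pos.ne'
  have h2 : Real.cos (Real.pi / 7) ^ 2 + Real.sin (Real.pi / 7) ^ 2 = 1 := Real.cos_sq_add_sin_sq _
  have h1 := (rho w).h
  have ha : (rho w).a = SU.mat (rho w) 0 0 := rfl
  have hb : (rho w).b = SU.mat (rho w) 0 1 := rfl
  have h3 : SU.mat gA 0 0 = ⟨Real.cos (Real.pi / 7), Real.sin (Real.pi / 7)⟩ := A09_gA.1
  have h4 : SU.mat gB 0 0 = ⟨1 / 2, Real.cos (Real.pi / 7) / (2 * Real.sin (Real.pi / 7))⟩ := A09_gB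
  have h5 : SU.mat gB 0 1 = gB.b := rfl
  rw [ha, hb, mat_rho, A10_ev00 _ _ A09_gA.2, A10_ev01 _ _ A09_gA.2, h3, h4, h5, map_mul, A10_gBb] at h1
  rw [normSq_apply, A10_re _ _ hs h2 (fun i => evl 0 (co w i)), A10_im _ _ hs h2 (fun i => evl 0 (co w i)), normSq_apply] at h1
  simp only [add_im, add_re, im_ofReal_mul, re_ofReal_mul, ofReal_im, ofReal_re, zero_add] at h1
  unfold del
  simp only [map_add, map_mul, map_pow, evl_x0, A09_lam, A09_ang0]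
  rw [← h1]
  obtain ⟨T, hT⟩ : ∃ T : ℝ, T = 1 / (2 * Real.sin (Real.pi / 7)) := ⟨_, rfl⟩
  have hT1 : 2 * Real.sin (Real.pi / 7) * T = 1 := by
    rw [hT]
    field_simp
  have hT2 : 1 / (4 * Real.sin (Real.pi / 7) ^ 2) = T ^ 2 := by
    rw [hT, div_pow, mul_pow]
    norm_num
  have hT3 : ∀ y : ℝ, y / (2 * Real.sin (Real.pi / 7)) = y * T := fun y => by
    rw [hT]
    ring
  rw [hT2, hT3]
  generalize evl 0 (co w 0) = q0
  generalize evl 0 (co w 1) = q1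
  generalize evl 0 (co w 2) = q2
  generalize evl 0 (co w 3) = q3
  linear_combination -(q1 ^ 2 - q3 ^ 2 * (T ^ 2 - 1) + q2 ^ 2 * T ^ 2) * h2 -
    (q1 * (q2 * Real.cos (Real.pi / 7) + q3) - q2 ^ 2 / 4 * (2 * Real.sin (Real.pi / 7) * T + 1)) * hT1

/-- PROOF (2.5). Entry (0,1): `c2 b + c3 e^{ia} b = 0` with `b = gB.b /= 0`, so `c2 + c3 e^{ia} = 0`, imaginary part: `c3 sin a = 0`, so `c3 = 0`, `c2 = 0`. Entry (0,0): `c0 + c1 e^{ia} = 0`,
so `c1 = 0`, `c0 = 0`. -/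
theorem indep_rho (c : Fin 4 → ℝ) (h : ev (SU.mat gA) (SU.mat gB) (fun i => (c i : ℂ)) = 0) : c = 0 := by
  exact A10_indep _ _ A09_gA.2 A10_gAim A10_gBb_ne c h

theorem indep_rU (k : Fin 2) (c : Fin 4 → ℝ) (h : ev (SU2.mat (uA k)) (SU2.mat (uB k)) (fun i => (c i : ℂ)) = 0) : c = 0 := by
  exact A10_indep (SU2.mat (uA k)) (SU2.mat (uB k)) rfl (sin_ang_pos k.succ).ne' (A10_uBb_ne k) c h

/-- PROOF. `mat_rho`: `ev (evl 0 (co w) - s e4) = 0` with `s = 1` or `-1`; `indep_rho`, `evl_inj`. -/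
theorem co_of_rho (w : W) (hb : (rho w).b = 0) (ha : (rho w).a = 1 ∨ (rho w).a = -1) :
    co w = e4 ∨ co w = fun i => -(e4 i) := by
  rcases ha with ha | ha
  · left
    funext i
    apply evl_inj 0
    rw [A10_sign w 1 hb (by rw [ha, ofReal_one]) i, one_mul]
    fin_cases i <;> simp [e4]
  · right
    funext i
    apply evl_inj 0
    rw [A10_sign w (-1) hb (by rw [ha, ofReal_neg, ofReal_one]) i]
    fin_cases i <;> simp [e4]

/-- PROOF. `mat_rho` (and its injectivity: `SU.mat g = 1` gives `g = 1`). -/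
theorem rho_of_co (w : W) (h : co w = e4) : rho w = 1 := by
  have h1 := mat_rho w
  rw [h] at h1
  have h2 : (fun i => ((evl 0 ((e4 : Fin 4 → R0) i) : ℝ) : ℂ)) = fun i => (((1 : ℝ) * (e4 : Fin 4 → ℝ) i : ℝ) : ℂ) := by
    funext i
    rw [one_mul]
    fin_cases i <;> simp [e4]
  rw [h2, A10_e4, ofReal_one, one_smul] at h1
  have ha : (rho w).a = SU.mat (rho w) 0 0 := rfl
  have hb : (rho w).b = SU.mat (rho w) 0 1 := rfl
  rw [h1] at ha hb
  apply SU.ext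
  · rw [ha]
    rfl
  · rw [hb]
    rfl

end Pool.Agent.Lib.H11Q.A
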