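import Mathlib
import Pool.Agent.Lib.H11Q.AD
import Pool.Agent.Lib.H11Q.A01
import Pool.Agent.Lib.H11Q.A02
import Pool.Agent.Lib.H11Q.A04
import Pool.Agent.Lib.H11Q.A07
import Pool.Agent.Lib.H11Q.A10

/-! # H11Q (MP_a00a7b_an) module A, chunk A11: the key inequality (2.6) -/

set_option autoImplicit false

namespace Pool.Agent.Lib.H11Q.A

open Complex Set
open scoped ComplexConjugate Topology

/-- PROOF (2.6). Let `u = w wA w^{-1} wB`, `t = trq x0 (co u)` in `R0`. `evl 0 t = tr (rho u) = cos a - sqrt 3 sin a m` (`tr_rho`, `tr_conj`), `a = pi/7`,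
`m = mink (Om (rho w 0)) (Om vv) >= 1`. If `m < CC` then `evl 0 t > 0` (`sqrt3_CC`) and `evl 0 t <= cos a - sqrt 3 sin a < 0.15` (`num_tau`); `|evl 1 t|, |evl 2 t| <= 2` (`abs_tr_rU`); so
the product is `< 1` and `t /= 0`: contradiction to `one_le_norm`. (`((ac w o0 : Disc) : C) = (rho w).app 0`.) -/
theorem key (w : W) : CC ≤ mink (Om (ac w o0)) (Om vv) := by
  by_contra hcon
  push Not at hcon
  have hm1 : 1 ≤ mink (Om (ac w o0)) (Om vv) := one_le_mink_Om (ac w o0).2 v0.2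
  have hco : ((ac w o0 : Disc) : ℂ) = (rho w).app 0 := ac_coe w o0
  have h1 := tr_conj (rho w)
  rw [← hco] at h1
  have h2 : rho (w * wA * w⁻¹ * wB) = rho w * gA * (rho w)⁻¹ * gB := by
    rw [map_mul, map_mul, map_mul, map_inv, rho_wA, rho_wB]
  rw [← h2, tr_rho] at h1
  have h3 := abs_tr_rU 0 (w * wA * w⁻¹ * wB)
  have h4 := abs_tr_rU 1 (w * wA * w⁻¹ * wB)
  have e3 : (0 : Fin 2).succ = (1 : Fin 3) := rfl
  have e4 : (1 : Fin 2).succ = (2 : Fin 3) := rfl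
  rw [e3] at h3
  rw [e4] at h4
  have hc := sqrt3_CC
  have hn := num_tau
  have hs := pi7_pos
  have h3' : 0 < Real.sqrt 3 := Real.sqrt_pos.mpr (by norm_num)
  have hp : 0 < Real.sqrt 3 * Real.sin (Real.pi / 7) := mul_pos h3' hs
  have h5 : 0 < evl 0 (trq x0 (co (w * wA * w⁻¹ * wB))) := by
    rw [h1, ← hc]
    have := mul_lt_mul_of_pos_left hcon hp
    linarith
  have h6 : evl 0 (trq x0 (co (w * wA * w⁻¹ * wB))) < 15 / 100 := by
    rw [h1]
    have := mul_le_mul_of_nonneg_left hm1 hp.le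
    linarith
  have h7 : trq x0 (co (w * wA * w⁻¹ * wB)) ≠ 0 := by
    intro h0
    rw [h0, map_zero] at h5
    exact lt_irrefl _ h5
  have h8 := one_le_norm h7
  rw [abs_of_pos h5] at h8
  generalize evl 0 (trq x0 (co (w * wA * w⁻¹ * wB))) = a at h5 h6 h8
  have a1 := abs_nonneg (evl 1 (trq x0 (co (w * wA * w⁻¹ * wB))))
  have a2 := abs_nonneg (evl 2 (trq x0 (co (w * wA * w⁻¹ * wB))))
  generalize |evl 1 (trq x0 (co (w * wA * w⁻¹ * wB)))| = b at h3 h8 a1
  generalize |evl 2 (trq x0 (co (w * wA * w⁻¹ * wB)))| = c at h4 h8 a2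
  have h9 : a * b * c ≤ 15 / 100 * 2 * 2 := by gcongr
  linarith


/-- PROOF. `key` for `w'^{-1} w`, invariance; `vv = (v0 : C)`. -/
theorem key' (w w' : W) : CC ≤ mink (Om (ac w' v0)) (Om (ac w o0)) := by
  have h1 := key (w'⁻¹ * w)
  have h2 : ac w o0 = ac w' (ac (w'⁻¹ * w) o0) := by
    rw [← Homeomorph.mul_apply, ← map_mul, mul_inv_cancel_left]
  have h3 : ((v0 : Disc) : ℂ) = vv := rfl
  rw [h2, Om_ac, Om_ac, mink_lin, mink_comm, h3]
  exact h1


end Pool.Agent.Lib.H11Q.A
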