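import Mathlib
import Pool.Agent.Lib.H11Q.AD

/-! # H11Q (MP_a00a7b_an) module A, chunk A17: numbers -/

set_option autoImplicit false

namespace Pool.Agent.Lib.H11Q.A

open Complex Set
open scoped ComplexConjugate Topology

/-- PROOF. `lam_root 0` (AD), `lam 0 = 2 cos (pi/7)`, `lam 0 > 1.7` (e.g. `cos (pi/7) > cos (pi/6) = sqrt 3/2`); `f(x) = x^3 - x^2 - 2x + 1` is increasing for `x > 1.6`,
`f(1.80192) < 0 < f(1.80194)`. -/
theorem cos7_bd : 90096 / 100000 < Real.cos (Real.pi / 7) ∧ Real.cos (Real.pi / 7) < 90097 / 100000 := by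
  have h1 := pi7_pos
  have hl := lam_root 0
  have hang : ang 0 = Real.pi / 7 := by
    unfold ang
    simp
  have hlam : lam 0 = 2 * Real.cos (Real.pi / 7) := by
    unfold lam
    rw [hang]
  rw [hlam] at hl
  have hc6 : Real.cos (Real.pi / 6) < Real.cos (Real.pi / 7) :=
    Real.cos_lt_cos_of_nonneg_of_le_pi (by positivity) (by linarith [Real.pi_pos])
      (by linarith [Real.pi_pos])
  rw [Real.cos_pi_div_six] at hc6
  have h3l : 1732 / 1000 < Real.sqrt 3 := by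
    rw [Real.lt_sqrt (by norm_num)]
    norm_num
  have hc1 := Real.cos_le_one (Real.pi / 7)
  set c := Real.cos (Real.pi / 7) with hc
  have hcl : 866 / 1000 < c := by linarith
  constructor
  · by_contra hcon
    have h5 : 0 ≤ 90096 / 100000 - c := by linarith
    have h6 : 0 ≤ (90096 / 100000 - c) * (c - 866 / 1000) := mul_nonneg h5 (by linarith)
    have h7 : 0 ≤ (90096 / 100000 - c) * (c - 866 / 1000) * c := mul_nonneg h6 (by linarith)
    nlinarith
  · by_contra hcon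
    have h5 : 0 ≤ c - 90097 / 100000 := by linarith
    have h6 : 0 ≤ (c - 90097 / 100000) * c := mul_nonneg h5 (by linarith)
    have h7 : 0 ≤ (c - 90097 / 100000) * c * c := mul_nonneg h6 (by linarith)
    nlinarith

/-- PROOF. `sin^2 = 1 - cos^2`. -/
theorem sin7_bd : 43388 / 100000 < Real.sin (Real.pi / 7) ∧ Real.sin (Real.pi / 7) < 43391 / 100000 := by
  have h1 := pi7_pos
  obtain ⟨hl, hu⟩ := cos7_bd
  have hs2 := Real.sin_sq_add_cos_sq (Real.pi / 7)
  constructor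
  · by_contra hcon
    have h6 : Real.sin (Real.pi / 7) ^ 2 ≤ (43388 / 100000) ^ 2 := pow_le_pow_left₀ h1.le (not_lt.1 hcon) 2
    have h7 : Real.cos (Real.pi / 7) ^ 2 ≤ (90097 / 100000) ^ 2 := pow_le_pow_left₀ (by linarith) hu.le 2
    norm_num at h6 h7
    linarith
  · by_contra hcon
    have h6 : (43391 / 100000) ^ 2 ≤ Real.sin (Real.pi / 7) ^ 2 := pow_le_pow_left₀ (by norm_num) (not_lt.1 hcon) 2
    have h7 : (90096 / 100000) ^ 2 ≤ Real.cos (Real.pi / 7) ^ 2 := pow_le_pow_left₀ (by norm_num) hl.le 2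
    norm_num at h6 h7
    linarith

theorem CC_bd : 11987 / 10000 < CC ∧ CC < 11989 / 10000 := by
  have h1 := pi7_pos
  obtain ⟨hl, hu⟩ := cos7_bd
  obtain ⟨kl, ku⟩ := sin7_bd
  have h3l : 173205 / 100000 < Real.sqrt 3 := by
    rw [Real.lt_sqrt (by norm_num)]
    norm_num
  have h3u : Real.sqrt 3 < 17321 / 10000 := by
    rw [Real.sqrt_lt' (by norm_num)]
    norm_num
  have h3 : 0 < Real.sqrt 3 * Real.sin (Real.pi / 7) := by positivity
  unfold CC
  constructor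
  · rw [lt_div_iff₀ h3]
    have : Real.sqrt 3 * Real.sin (Real.pi / 7) < 17321 / 10000 * (43391 / 100000) :=
      mul_lt_mul'' h3u ku (by positivity) h1.le
    linarith
  · rw [div_lt_iff₀ h3]
    have : 173205 / 100000 * (43388 / 100000) < Real.sqrt 3 * Real.sin (Real.pi / 7) :=
      mul_lt_mul'' h3l kl (by norm_num) (by norm_num)
    linarith

theorem c72_bd : 11523 / 10000 < c72 ∧ c72 < 11524 / 10000 := by
  have h1 := pi7_pos
  obtain ⟨kl, ku⟩ := sin7_bd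
  unfold c72
  constructor
  · rw [lt_div_iff₀ (by positivity)]
    linarith
  · rw [div_lt_iff₀ (by positivity)]
    linarith

theorem c32_bd : 10403 / 10000 < c32 ∧ c32 < 10404 / 10000 := by
  obtain ⟨hl, hu⟩ := cos7_bd
  have h3l : 173205 / 100000 < Real.sqrt 3 := by
    rw [Real.lt_sqrt (by norm_num)]
    norm_num
  have h3u : Real.sqrt 3 < 173206 / 100000 := by
    rw [Real.sqrt_lt' (by norm_num)]
    norm_num
  have h3 : 0 < Real.sqrt 3 := by linarith
  unfold c32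
  constructor
  · rw [lt_div_iff₀ h3]
    linarith
  · rw [div_lt_iff₀ h3]
    linarith

/-- PROOF. `CC^2 = cos^2/(3 sin^2)`, `c32^2 = 4 cos^2 / 3`, `c72^2 = 1/(4 sin^2)`: so `CC = c32 c72`. -/
theorem CC_eq : CC = c32 * c72 := by
  have h1 := pi7_pos
  have h3 : 0 < Real.sqrt 3 := Real.sqrt_pos.mpr (by norm_num)
  unfold CC c32 c72
  field_simp

/-- PROOF. `CC^2 - (CC^2 - 1) cos (2 pi/7) = 2 c32^2 - 1`: with `cos (2 pi/7) = 1 - 2 sin^2`, `s = sin (pi/7)`, `c = cos (pi/7)`: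
left = `1 + (CC^2 - 1) 2 s^2 = 1 + 2 c^2/3 - 2 s^2 = (8/3) c^2 - 1`. -/
theorem gram_V01 : CC ^ 2 - (CC ^ 2 - 1) * Real.cos (2 * Real.pi / 7) = 2 * c32 ^ 2 - 1 := by
  have h1 := pi7_pos
  have h3 : 0 < Real.sqrt 3 := Real.sqrt_pos.mpr (by norm_num)
  have h30 : Real.sqrt 3 ^ 2 = 3 := Real.sq_sqrt (by norm_num)
  have hs2 := Real.sin_sq_add_cos_sq (Real.pi / 7)
  have hcos : Real.cos (2 * Real.pi / 7) = 1 - 2 * Real.sin (Real.pi / 7) ^ 2 := by
    rw [show 2 * Real.pi / 7 = 2 * (Real.pi / 7) by ring, Real.cos_two_mul]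
    linarith
  have hCC : CC ^ 2 * Real.sin (Real.pi / 7) ^ 2 = Real.cos (Real.pi / 7) ^ 2 / 3 := by
    unfold CC
    rw [div_pow, mul_pow, h30]
    field_simp
  have h32 : c32 ^ 2 = 4 * Real.cos (Real.pi / 7) ^ 2 / 3 := by
    unfold c32
    rw [div_pow, h30]
    ring
  rw [hcos, h32]
  linear_combination 2 * hCC - 2 * hs2

/-- PROOF. Numbers: `0.1647, 0.1235, 0.656` (the three numbers are `2 c32^2 - 2`, `1/2 - 2 sin^2 (pi/7)`, `2 c72^2 - 2`). -/
theorem h_bd : 2 * c32 ^ 2 - 2 < 1647 / 10000 ∧ 1 / 2 - 2 * Real.sin (Real.pi / 7) ^ 2 < 1236 / 10000 ∧ 2 * c72 ^ 2 - 2 < 6562 / 10000 := by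
  obtain ⟨kl, ku⟩ := sin7_bd
  obtain ⟨ml, mu⟩ := c72_bd
  refine ⟨?_, ?_, ?_⟩
  · have h30 : Real.sqrt 3 ^ 2 = 3 := Real.sq_sqrt (by norm_num)
    have h32 : c32 ^ 2 = 4 * Real.cos (Real.pi / 7) ^ 2 / 3 := by
      unfold c32
      rw [div_pow, h30]
      ring
    obtain ⟨ql, qu⟩ := cos7_bd
    have h1 : Real.cos (Real.pi / 7) ^ 2 < (90097 / 100000) ^ 2 := pow_lt_pow_left₀ qu (by linarith) (by norm_num)
    norm_num at h1
    rw [h32]
    linarith
  · have h1 : (43388 / 100000) ^ 2 < Real.sin (Real.pi / 7) ^ 2 := pow_lt_pow_left₀ kl (by norm_num) (by norm_num)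
    norm_num at h1
    linarith
  · have h1 : c72 ^ 2 < (11524 / 10000) ^ 2 := pow_lt_pow_left₀ mu (by linarith) (by norm_num)
    norm_num at h1
    linarith

end Pool.Agent.Lib.H11Q.A
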