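import Mathlib
import Pool.Agent.Lib.H11Q.AD
import Pool.Agent.Lib.H11Q.A01
import Pool.Agent.Lib.H11Q.A02
import Pool.Agent.Lib.H11Q.A17

/-! # H11Q (MP_a00a7b_an) module A, chunk A18: positions of centres, vertices, midpoints; the half-turns -/

set_option autoImplicit false

namespace Pool.Agent.Lib.H11Q.A

open Complex Set
open scoped ComplexConjugate Topology

theorem Om_o0 : Om (o0 : ℂ) = O := Om_zero

theorem a18_one_lt : 0 < 1 - vv ^ 2 := by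
  have h1 := vv_lt_one
  have h2 := vv_pos
  nlinarith

theorem a18_X : (1 + vv ^ 2) / (1 - vv ^ 2) = CC := by
  have h1 := vv_sq
  have h2 := one_lt_CC
  rw [h1]
  have h3 : CC + 1 ≠ 0 := by linarith
  field_simp
  ring

theorem a18_S_pos : 0 < CC ^ 2 - 1 := by
  have h2 := one_lt_CC
  nlinarith

theorem a18_Y : 2 * vv / (1 - vv ^ 2) = Real.sqrt (CC ^ 2 - 1) := by
  have h1 := a18_X
  have h2 := a18_one_lt
  have h3 := vv_pos
  rw [eq_comm, Real.sqrt_eq_iff_mul_self_eq a18_S_pos.le (by positivity), ← h1]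
  field_simp
  ring

theorem a18_Om_v0 : Om (v0 : ℂ) = (CC, (Real.sqrt (CC ^ 2 - 1) : ℂ)) := by
  have hn : ‖(v0 : ℂ)‖ = vv := by
    show ‖(vv : ℂ)‖ = vv
    rw [Complex.norm_real, Real.norm_eq_abs, abs_of_pos vv_pos]
  unfold Om
  rw [hn, a18_X]
  ext1
  · rfl
  · show 2 * (vv : ℂ) / ((1 - vv ^ 2 : ℝ) : ℂ) = _
    rw [← a18_Y]
    push_cast
    rfl

theorem a18_sqrt3 : Real.sqrt 3 * Real.sin (Real.pi / 7) * CC = Real.cos (Real.pi / 7) := by
  unfold CC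
  have h1 := pi7_pos
  have h2 : Real.sqrt 3 ≠ 0 := (Real.sqrt_pos.2 (by norm_num)).ne'
  field_simp

theorem a18_gA_a : gA.a = exp (((Real.pi / 7 : ℝ) : ℂ) * I) := by
  rw [exp_mul_I]
  unfold gA rot o0
  simp
  rw [show (2 * (Real.pi : ℂ) / 7 / 2) = (Real.pi : ℂ) / 7 by ring]
  ring

theorem a18_gA_b : gA.b = 0 := by
  unfold gA rot o0
  simp

theorem a18_gB_a : gB.a = ⟨1 / 2, Real.sqrt 3 / 2 * CC⟩ := by
  have hn : ‖(v0 : ℂ)‖ = vv := by
    show ‖(vv : ℂ)‖ = vv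
    rw [Complex.norm_real, Real.norm_eq_abs, abs_of_pos vv_pos]
  have h3 : (2 * Real.pi / 3 / 2) = Real.pi / 3 := by ring
  unfold gB rot
  simp only
  rw [hn, a18_X, h3, Real.cos_pi_div_three, Real.sin_pi_div_three]
  apply Complex.ext
  · simp
  · simp

theorem a18_gB_b : gB.b = ⟨0, -(Real.sqrt 3 / 2 * Real.sqrt (CC ^ 2 - 1))⟩ := by
  have hn : ‖(v0 : ℂ)‖ = vv := by
    show ‖(vv : ℂ)‖ = vv
    rw [Complex.norm_real, Real.norm_eq_abs, abs_of_pos vv_pos]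
  have h3 : (2 * Real.pi / 3 / 2) = Real.pi / 3 := by ring
  have hY := a18_Y
  have h1 := a18_one_lt
  unfold gB rot
  simp only
  rw [hn, h3, Real.sin_pi_div_three, ← hY]
  show -2 * I * ((Real.sqrt 3 / 2 : ℝ) : ℂ) * (vv : ℂ) / ((1 - vv ^ 2 : ℝ) : ℂ) = _
  have e : -2 * I * ((Real.sqrt 3 / 2 : ℝ) : ℂ) * (vv : ℂ) / ((1 - vv ^ 2 : ℝ) : ℂ) =
      ((-(Real.sqrt 3 / 2 * (2 * vv / (1 - vv ^ 2))) : ℝ) : ℂ) * I := by
    push_cast
    ring
  have e' : ∀ t : ℝ, ((-t : ℝ) : ℂ) * I = ⟨0, -t⟩ := by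
    intro t
    apply Complex.ext <;> simp
  rw [e, e']

theorem ac_wA_o0 : ac wA o0 = o0 := by
  apply Subtype.ext
  show (rho wA).app 0 = 0
  rw [rho_wA]
  unfold SU.app
  rw [a18_gA_b]
  simp

theorem a18_linB : gB.lin (Om (v0 : ℂ)) = Om (v0 : ℂ) := by
  rw [a18_Om_v0]
  unfold SU.lin
  rw [a18_gB_a, a18_gB_b]
  have h0 := a18_S_pos
  have hs : Real.sqrt (CC ^ 2 - 1) ^ 2 = CC ^ 2 - 1 := Real.sq_sqrt h0.le
  have h3 : Real.sqrt 3 ^ 2 = 3 := Real.sq_sqrt (by norm_num)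
  set S := Real.sqrt (CC ^ 2 - 1) with hS
  set q := Real.sqrt 3 with hq
  ext1
  · simp [normSq_apply]
    linear_combination (CC / 4 * (CC ^ 2 - S ^ 2)) * h3 + (-(3 * CC / 4)) * hs
  · apply Complex.ext
    · simp [pow_two]
      linear_combination (S / 4 * (CC ^ 2 - S ^ 2)) * h3 + (-(3 * S / 4)) * hs
    · simp [pow_two]
      ring

theorem a18_Om_B : Om (ac wB v0 : ℂ) = Om (v0 : ℂ) := by
  rw [Om_ac, rho_wB, a18_linB]

/-- PROOF. `gB` is the rotation about `v0` (definition `rot`). -/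
theorem ac_wB_v0 : ac wB v0 = v0 := Subtype.ext (Om_inj (ac wB v0).2 v0.2 a18_Om_B)

theorem a18_linA (x : Mk) : (rho wA).lin x = (x.1, exp (((2 * Real.pi / 7 : ℝ) : ℂ) * I) * x.2) := by
  rw [rho_wA]
  unfold SU.lin
  rw [a18_gA_b, a18_gA_a]
  have h1 : normSq (exp (((Real.pi / 7 : ℝ) : ℂ) * I)) = 1 := by
    rw [normSq_eq_norm_sq, norm_exp_ofReal_mul_I]
    norm_num
  have h2 : exp (((Real.pi / 7 : ℝ) : ℂ) * I) ^ 2 = exp (((2 * Real.pi / 7 : ℝ) : ℂ) * I) := by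
    rw [← Complex.exp_nat_mul]
    congr 1
    push_cast
    ring
  rw [h1, h2]
  ext1
  · simp
  · simp

theorem lin_wA_V (j : ℕ) : (rho wA).lin (V j) = V (j + 1) := by
  unfold V vj
  rw [← Om_ac, pow_succ', map_mul]
  rfl

/-- PROOF. `ac wA` is multiplication by `exp (2 pi i/7)`; `Om vv = (CC, sqrt (CC^2 - 1))` because `vv^2 = (CC-1)/(CC+1)`. -/
theorem V_eq (j : ℕ) : V j = (CC, (Real.sqrt (CC ^ 2 - 1) : ℂ) * exp (((2 * Real.pi * j / 7 : ℝ) : ℂ) * I)) := by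
  induction j with
  | zero =>
    have h : V 0 = Om (v0 : ℂ) := by
      unfold V vj
      rw [pow_zero, map_one]
      rfl
    rw [h, a18_Om_v0]
    simp
  | succ n ih =>
    rw [← lin_wA_V, ih, a18_linA]
    ext1
    · rfl
    · simp only
      rw [mul_left_comm, ← Complex.exp_add]
      congr 2
      push_cast
      ring

theorem lin_wA_O : (rho wA).lin O = O := by
  rw [← Om_o0, ← Om_ac, ac_wA_o0]

theorem a18_c72 : Real.sqrt 3 / 2 * Real.sqrt (CC ^ 2 - 1) = Real.sqrt (c72 ^ 2 - 1) := by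
  have h0 := a18_S_pos
  have h1 := pi7_pos
  have h2 := Real.sin_sq_add_cos_sq (Real.pi / 7)
  have h3 : (0 : ℝ) ≤ 3 := by norm_num
  have e1 : 3 / 4 * (CC ^ 2 - 1) = c72 ^ 2 - 1 := by
    have e2 : 3 * Real.sin (Real.pi / 7) ^ 2 * CC ^ 2 = Real.cos (Real.pi / 7) ^ 2 := by
      have := congrArg (fun t => t ^ 2) a18_sqrt3
      simp only [mul_pow, Real.sq_sqrt h3] at this
      exact this
    have e3 : CC ^ 2 = Real.cos (Real.pi / 7) ^ 2 / (3 * Real.sin (Real.pi / 7) ^ 2) := by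
      rw [eq_div_iff (by positivity)]
      linarith
    rw [e3]
    unfold c72
    have h1' := h1.ne'
    field_simp
    nlinarith
  have e4 : Real.sqrt 3 / 2 * Real.sqrt (CC ^ 2 - 1) = Real.sqrt (3 / 4 * (CC ^ 2 - 1)) := by
    rw [Real.sqrt_mul (by norm_num), Real.sqrt_div h3]
    have : Real.sqrt 4 = 2 := by
      rw [show (4 : ℝ) = 2 ^ 2 by norm_num, Real.sqrt_sq (by norm_num)]
    rw [this]
  rw [e4, e1]

theorem a18_one_add : (1 : ℂ) + exp (((2 * Real.pi / 7 : ℝ) : ℂ) * I) = 2 * (Real.cos (Real.pi / 7) : ℂ) * exp (((Real.pi / 7 : ℝ) : ℂ) * I) := by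
  have h1 : (2 : ℂ) * (Real.cos (Real.pi / 7) : ℂ) = exp (((Real.pi / 7 : ℝ) : ℂ) * I) + exp (-(((Real.pi / 7 : ℝ) : ℂ) * I)) := by
    have := Complex.two_cos (((Real.pi / 7 : ℝ) : ℂ))
    rw [← Complex.ofReal_cos] at this
    rw [this]
    congr 2
    ring
  rw [h1, add_mul, ← Complex.exp_add, ← Complex.exp_add, neg_add_cancel, Complex.exp_zero, add_comm]
  congr 2
  push_cast
  ring

/-- PROOF. `V_eq`, `gram_V01` (A17) is used for the normalization `mink M0 M0 = 1`; here only: `1 + e^{ia} = 2 cos(a/2) e^{ia/2}`, `a = 2 pi/7`: the first component is `CC/c32 = c72` (`CC_eq`), the second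
`sqrt (CC^2-1) cos(pi/7)/c32 e^{i pi/7}` and `(CC^2-1) cos^2(pi/7)/c32^2 = (3/4)(CC^2 - 1) = c72^2 - 1` (all in terms of `sin (pi/7)`). -/
theorem M0_eq : M0 = (c72, (Real.sqrt (c72 ^ 2 - 1) : ℂ) * exp (((Real.pi / 7 : ℝ) : ℂ) * I)) := by
  have h32 := c32_bd
  have hp : c32 ≠ 0 := by linarith [h32.1]
  have hq : Real.sqrt 3 ≠ 0 := (Real.sqrt_pos.2 (by norm_num)).ne'
  have hc : Real.cos (Real.pi / 7) ≠ 0 := by
    have := cos7_bd.1
    linarith
  unfold M0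
  rw [V_eq, V_eq]
  ext1
  · show 1 / (2 * c32) * (CC + CC) = c72
    rw [CC_eq]
    field_simp
    ring
  · show ((1 / (2 * c32) : ℝ)) • ((Real.sqrt (CC ^ 2 - 1) : ℂ) * exp (((2 * Real.pi * (0 : ℕ) / 7 : ℝ) : ℂ) * I) +
      (Real.sqrt (CC ^ 2 - 1) : ℂ) * exp (((2 * Real.pi * (1 : ℕ) / 7 : ℝ) : ℂ) * I)) = _
    have e0 : exp (((2 * Real.pi * (0 : ℕ) / 7 : ℝ) : ℂ) * I) = 1 := by simp
    have e1 : (2 * Real.pi * (1 : ℕ) / 7 : ℝ) = 2 * Real.pi / 7 := by simp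
    rw [e0, e1, ← mul_add, a18_one_add, ← a18_c72, Complex.real_smul]
    have e2 : ((1 / (2 * c32) : ℝ) : ℂ) * ((Real.sqrt (CC ^ 2 - 1) : ℂ) * (2 * (Real.cos (Real.pi / 7) : ℂ) * exp (((Real.pi / 7 : ℝ) : ℂ) * I))) =
        ((1 / (2 * c32) * Real.sqrt (CC ^ 2 - 1) * (2 * Real.cos (Real.pi / 7)) : ℝ) : ℂ) * exp (((Real.pi / 7 : ℝ) : ℂ) * I) := by
      push_cast
      ring
    rw [e2]
    congr 2
    unfold c32
    field_simp

theorem lin_wA_M0 : (rho wA).lin M0 = M1 := by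
  unfold M0 M1
  rw [lin_smul, lin_add, lin_wA_V, lin_wA_V]

theorem M1_eq : M1 = (c72, (Real.sqrt (c72 ^ 2 - 1) : ℂ) * exp (((3 * Real.pi / 7 : ℝ) : ℂ) * I)) := by
  rw [← lin_wA_M0, a18_linA, M0_eq]
  ext1
  · rfl
  · simp only
    rw [mul_left_comm, ← Complex.exp_add]
    congr 2
    push_cast
    ring

theorem a18_half (g : SU) (h : g.a.re = 0) (x : Mk) : g.lin x = (2 * mink x (g.a.im, I * g.b)) • ((g.a.im, I * g.b) : Mk) - x := by
  have h1 := g.h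
  rw [normSq_apply, normSq_apply, h] at h1
  unfold SU.lin mink
  ext1
  · simp [normSq_apply, h]
    linear_combination (-x.1) * h1
  · apply Complex.ext
    · simp [pow_two, h]
      linear_combination (-x.2.re) * h1
    · simp [pow_two, h]
      linear_combination (-x.2.im) * h1

theorem a18_gAB_a : (gA * gB).a = ⟨0, c72⟩ := by
  have h1 := pi7_pos
  have h3 := Real.sin_sq_add_cos_sq (Real.pi / 7)
  have h2 := a18_sqrt3
  rw [SU.mul_a, a18_gA_b, zero_mul, add_zero, a18_gA_a, a18_gB_a, exp_mul_I]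
  have hCC : Real.sqrt 3 * CC = Real.cos (Real.pi / 7) / Real.sin (Real.pi / 7) := by
    rw [eq_div_iff h1.ne']
    linarith
  apply Complex.ext
  · simp only [mul_re, add_re, add_im, I_re, I_im, mul_im, ← Complex.ofReal_cos, ← Complex.ofReal_sin, ofReal_re, ofReal_im]
    linear_combination (-1 / 2) * h2
  · simp only [mul_re, add_re, add_im, I_re, I_im, mul_im, ← Complex.ofReal_cos, ← Complex.ofReal_sin, ofReal_re, ofReal_im]
    unfold c72
    have e : Real.sqrt 3 / 2 * CC = Real.cos (Real.pi / 7) / Real.sin (Real.pi / 7) / 2 := by rw [← hCC]; ring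
    rw [e]
    have h1' := h1.ne'
    field_simp
    linarith

theorem a18_gAB_b : I * (gA * gB).b = (Real.sqrt (c72 ^ 2 - 1) : ℂ) * exp (((Real.pi / 7 : ℝ) : ℂ) * I) := by
  rw [SU.mul_b, a18_gA_b, zero_mul, add_zero, a18_gA_a, a18_gB_b, ← a18_c72]
  have e : (⟨0, -(Real.sqrt 3 / 2 * Real.sqrt (CC ^ 2 - 1))⟩ : ℂ) = -(((Real.sqrt 3 / 2 * Real.sqrt (CC ^ 2 - 1) : ℝ) : ℂ) * I) := by
    apply Complex.ext <;> simp
  rw [e]
  linear_combination (-(((Real.sqrt 3 / 2 * Real.sqrt (CC ^ 2 - 1) : ℝ) : ℂ)) * exp (((Real.pi / 7 : ℝ) : ℂ) * I)) * I_sq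

/-- PROOF. A general fact: if `g.a.re = 0` then `g.lin x = 2 mink x m m - x` with `m = (g.a.im, I * g.b)` (expand). For `g = gA gB`: `g.a = e^{ia}(1/2 + (i/2) cot a) = i/(2 sin a)`, `a = pi/7`, and
`I * g.b = sqrt (c72^2 - 1) e^{ia}`, so `m = M0` (`M0_eq`). -/
theorem lin_e0 (x : Mk) : (rho e0).lin x = (2 * mink x M0) • M0 - x := by
  have h : rho e0 = gA * gB := by
    unfold e0
    rw [map_mul, rho_wA, rho_wB]
  have hre : (gA * gB).a.re = 0 := by rw [a18_gAB_a]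
  have him : (gA * gB).a.im = c72 := by rw [a18_gAB_a]
  rw [h, a18_half _ hre, a18_gAB_b, him, M0_eq]

/-- PROOF. Conjugate by `wA`: `(rho wA).lin M0 = M1`. -/
theorem lin_e1 (x : Mk) : (rho e1).lin x = (2 * mink x M1) • M1 - x := by
  have h : e1 = wA * e0 * wA⁻¹ := rfl
  have h2 : mink ((rho wA⁻¹).lin x) M0 = mink x M1 := by
    rw [← lin_wA_M0, ← mink_lin (rho wA) ((rho wA⁻¹).lin x), ← lin_mul, ← map_mul, mul_inv_cancel, map_one, lin_one]
  have h3 : (rho wA).lin ((rho wA⁻¹).lin x) = x := by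
    rw [← lin_mul, ← map_mul, mul_inv_cancel, map_one, lin_one]
  have h4 : ∀ y z : Mk, (rho wA).lin (y - z) = (rho wA).lin y - (rho wA).lin z := by
    intro y z
    have e : y - z = y + (-1 : ℝ) • z := by simp [sub_eq_add_neg]
    rw [e, lin_add, lin_smul]
    simp [sub_eq_add_neg]
  rw [h, map_mul, map_mul, lin_mul, lin_mul, lin_e0, h2, h4, lin_smul, lin_wA_M0, h3]

theorem a18_M0_M0 : mink M0 M0 = 1 := by
  rw [M0_eq]
  unfold mink
  have h0 := a18_S_pos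
  have hc := c72_bd.1
  have h1 : 0 ≤ c72 ^ 2 - 1 := by nlinarith
  have e : (((Real.sqrt (c72 ^ 2 - 1) : ℂ) * exp (((Real.pi / 7 : ℝ) : ℂ) * I)) * conj ((Real.sqrt (c72 ^ 2 - 1) : ℂ) * exp (((Real.pi / 7 : ℝ) : ℂ) * I))).re =
      c72 ^ 2 - 1 := by
    rw [Complex.mul_conj, ofReal_re, map_mul, normSq_ofReal, normSq_eq_norm_sq, norm_exp_ofReal_mul_I, Real.mul_self_sqrt h1]
    ring
  simp only
  rw [e]
  ring

theorem a18_M1_M1 : mink M1 M1 = 1 := by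
  rw [← lin_wA_M0, mink_lin, a18_M0_M0]

theorem a18_invol {M : Mk} (hM : mink M M = 1) (x : Mk) : (2 * mink ((2 * mink x M) • M - x) M) • M - ((2 * mink x M) • M - x) = x := by
  have e : mink ((2 * mink x M) • M - x) M = mink x M := by
    rw [sub_eq_add_neg, mink_add_left, mink_smul_left, mink_neg_left, hM]
    ring
  rw [e]
  abel

theorem a18_trivial {w : W} (h : ∀ x : Mk, (rho w).lin x = x) : ac w = 1 := by
  apply Homeomorph.ext
  intro z
  apply Subtype.ext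
  show ((ac w z : Disc) : ℂ) = (z : ℂ)
  refine Om_inj (ac w z).2 z.2 ?_
  rw [Om_ac, h]

/-- PROOF. From `lin_e0` and `mink M0 M0 = 1` (`M0_eq`), or `ac e0 = ac wA * ac wB` and `ac wB v0 = v0`, trace 0. -/
theorem e0_sq : ac (e0 * e0) = 1 := by
  refine a18_trivial fun x => ?_
  rw [map_mul, lin_mul, lin_e0, lin_e0]
  exact a18_invol a18_M0_M0 x

theorem e1_sq : ac (e1 * e1) = 1 := by
  refine a18_trivial fun x => ?_
  rw [map_mul, lin_mul, lin_e1, lin_e1]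
  exact a18_invol a18_M1_M1 x

theorem e0_v0 : ac e0 v0 = vj 1 := by
  unfold e0 vj
  rw [map_mul, Homeomorph.mul_apply, ac_wB_v0, pow_one]

theorem e0_v1 : ac e0 (vj 1) = v0 := by
  rw [← e0_v0, ← Homeomorph.mul_apply, ← map_mul, e0_sq]
  rfl

end Pool.Agent.Lib.H11Q.A
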