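import Mathlib
import Pool.Agent.Lib.H11Q.AD
import Pool.Agent.Lib.H11Q.A17

/-! # H11Q (MP_a00a7b_an) module A, chunk A23: the covering inequality, real numbers (3.6) -/

set_option autoImplicit false

namespace Pool.Agent.Lib.H11Q.A

open Complex Set
open scoped ComplexConjugate Topology

/-- PROOF. `ring`. -/
theorem Bf_id (x7 x3 x2 y7 y3 y2 : ℝ) : Bf x7 x3 x2 y7 y3 y2 = CC * (x7 + x3 + x2) * (y7 + y3 + y2) -
    (CC - 1) * (x7 * y7 + x3 * y3 + x2 * y2) - (CC - c72) * (x7 * y2 + x2 * y7) - (CC - c32) * (x3 * y2 + x2 * y3) := by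
  unfold Bf
  ring

/-- PROOF. All coefficients of the form are at least 1 (`CC_bd`, ..), so `1 = Bf x x >= (x7+x3+x2)^2`. -/
theorem s_le_one {x7 x3 x2 : ℝ} (h7 : 0 ≤ x7) (h3 : 0 ≤ x3) (h2 : 0 ≤ x2) (h : Bf x7 x3 x2 x7 x3 x2 = 1) : x7 + x3 + x2 ≤ 1 := by
  have hC := CC_bd
  have h72 := c72_bd
  have h32 := c32_bd
  have hu : 0 ≤ (CC - 1) * (x7 * x3) := mul_nonneg (by linarith [hC.1]) (mul_nonneg h7 h3)
  have hv : 0 ≤ (c72 - 1) * (x7 * x2) := mul_nonneg (by linarith [h72.1]) (mul_nonneg h7 h2)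
  have hw : 0 ≤ (c32 - 1) * (x3 * x2) := mul_nonneg (by linarith [h32.1]) (mul_nonneg h3 h2)
  have e1 : (x7 + x3 + x2) ^ 2 + 2 * ((CC - 1) * (x7 * x3) + (c72 - 1) * (x7 * x2) + (c32 - 1) * (x3 * x2)) = 1 := by
    unfold Bf at h
    linear_combination h
  have e2 : (x7 + x3 + x2) ^ 2 ≤ 1 := by linarith
  exact (sq_le_one_iff₀ (by positivity)).1 e2

/-- PROOF. `Bf_id`, `s_le_one`, `CC - 1 > 638/10000`, `CC > c72, c32` (A17). -/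
theorem Bf_le {x7 x3 x2 y7 y3 y2 : ℝ} (h7 : 0 ≤ x7) (h3 : 0 ≤ x3) (h2 : 0 ≤ x2) (k7 : 0 ≤ y7) (k3 : 0 ≤ y3) (k2 : 0 ≤ y2)
    (h : Bf x7 x3 x2 x7 x3 x2 = 1) (k : Bf y7 y3 y2 y7 y3 y2 = 1) :
    Bf x7 x3 x2 y7 y3 y2 + 638 / 10000 * (x7 * y7 + x3 * y3 + x2 * y2) ≤ CC := by
  have hsx := s_le_one h7 h3 h2 h
  have hsy := s_le_one k7 k3 k2 k
  have hC := CC_bd
  have h72 := c72_bd
  have h32 := c32_bd
  have hS0 : 0 ≤ (CC - 1 - 638 / 10000) * (x7 * y7 + x3 * y3 + x2 * y2) := mul_nonneg (by linarith [hC.1]) (by positivity)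
  have hP0 : 0 ≤ (CC - c72) * (x7 * y2 + x2 * y7) := mul_nonneg (by linarith [hC.1, h72.2]) (by positivity)
  have hR0 : 0 ≤ (CC - c32) * (x3 * y2 + x2 * y3) := mul_nonneg (by linarith [hC.1, h32.2]) (by positivity)
  have hCpos : 0 < CC := by linarith [hC.1]
  have n4 : CC * (x7 + x3 + x2) * (y7 + y3 + y2) ≤ CC * (x7 + x3 + x2) :=
    mul_le_of_le_one_right (mul_nonneg hCpos.le (by positivity)) hsy
  have m1 : CC * (x7 + x3 + x2) ≤ CC := mul_le_of_le_one_right hCpos.le hsx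
  rw [Bf_id]
  linarith

/-- PROOF. Weighted mean with weights 0.387, 0.516, 0.097 (sum 1): `0.387 * 0.1647 < 0.0638`, `0.516 * 0.1236 < 0.0638`, `0.097 * 0.6562 < 0.0638` (`h_bd`). -/
theorem min3 (B p3 p2 p7 : ℝ) (h3 : 0 ≤ p3) (h2 : 0 ≤ p2) (h7 : 0 ≤ p7) :
    B + (2 * c32 ^ 2 - 2) * p3 ≤ B + 638 / 10000 * (p7 + p3 + p2) ∨
    B + (1 / 2 - 2 * Real.sin (Real.pi / 7) ^ 2) * p2 ≤ B + 638 / 10000 * (p7 + p3 + p2) ∨
    B + (2 * c72 ^ 2 - 2) * p7 ≤ B + 638 / 10000 * (p7 + p3 + p2) := by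
  obtain ⟨a1, a2, a3⟩ := h_bd
  by_contra hcon
  push Not at hcon
  obtain ⟨c1, c2, c3⟩ := hcon
  have b1 : (2 * c32 ^ 2 - 2) * p3 ≤ 1647 / 10000 * p3 := mul_le_mul_of_nonneg_right a1.le h3
  have b2 : (1 / 2 - 2 * Real.sin (Real.pi / 7) ^ 2) * p2 ≤ 1236 / 10000 * p2 := mul_le_mul_of_nonneg_right a2.le h2
  have b3 : (2 * c72 ^ 2 - 2) * p7 ≤ 6562 / 10000 * p7 := mul_le_mul_of_nonneg_right a3.le h7
  linarith

end Pool.Agent.Lib.H11Q.A
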