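import Mathlib
import Pool.Agent.Lib.H11Q.AD
import Pool.Agent.Lib.H11Q.A17
import Pool.Agent.Lib.H11Q.A23

/-! # H11Q (MP_a00a7b_an) module A, chunk A24: near-equality, real numbers (3.7) -/

set_option autoImplicit false

namespace Pool.Agent.Lib.H11Q.A

open Complex Set
open scoped ComplexConjugate Topology

theorem a24_prod {x7 x3 x2 e : ℝ} (h7 : 0 ≤ x7) (h3 : 0 ≤ x3) (h2 : 0 ≤ x2) (h : Bf x7 x3 x2 x7 x3 x2 = 1)
    (he : 0 < e) (hs : 1 - e < x7 + x3 + x2) (hs0 : e ≤ 1 / 10000) :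
    x7 * x3 ≤ 25 * e ∧ x7 * x2 ≤ 25 * e ∧ x3 * x2 ≤ 25 * e := by
  have hC := CC_bd
  have h72 := c72_bd
  have h32 := c32_bd
  have hu : 0 ≤ x7 * x3 := mul_nonneg h7 h3
  have hv : 0 ≤ x7 * x2 := mul_nonneg h7 h2
  have hw : 0 ≤ x3 * x2 := mul_nonneg h3 h2
  have e1 : (x7 + x3 + x2) ^ 2 + 2 * ((CC - 1) * (x7 * x3) + (c72 - 1) * (x7 * x2) + (c32 - 1) * (x3 * x2)) = 1 := by
    unfold Bf at h
    linear_combination h
  have e2 : 1 - 2 * e ≤ (x7 + x3 + x2) ^ 2 := by nlinarith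
  have k1 : 1987 / 10000 * (x7 * x3) ≤ (CC - 1) * (x7 * x3) := mul_le_mul_of_nonneg_right (by linarith [hC.1]) hu
  have k2 : 1523 / 10000 * (x7 * x2) ≤ (c72 - 1) * (x7 * x2) := mul_le_mul_of_nonneg_right (by linarith [h72.1]) hv
  have k3 : 403 / 10000 * (x3 * x2) ≤ (c32 - 1) * (x3 * x2) := mul_le_mul_of_nonneg_right (by linarith [h32.1]) hw
  refine ⟨?_, ?_, ?_⟩ <;> linarith

theorem a24_small {x y e : ℝ} (hx : 1 / 4 ≤ x) (hy : 0 ≤ y) (h : x * y ≤ 25 * e) : y ≤ 100 * e := by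
  nlinarith

theorem a24_pure {x7 x3 x2 e : ℝ} (h7 : 0 ≤ x7) (h3 : 0 ≤ x3) (h2 : 0 ≤ x2) (h : Bf x7 x3 x2 x7 x3 x2 = 1)
    (he : 0 < e) (hs : 1 - e < x7 + x3 + x2) (hs0 : e ≤ 1 / 10000) :
    (x3 ≤ 100 * e ∧ x2 ≤ 100 * e) ∨ (x7 ≤ 100 * e ∧ x2 ≤ 100 * e) ∨ (x7 ≤ 100 * e ∧ x3 ≤ 100 * e) := by
  obtain ⟨p1, p2, p3⟩ := a24_prod h7 h3 h2 h he hs hs0
  by_cases c7 : 1 / 4 ≤ x7
  · left
    exact ⟨a24_small c7 h3 p1, a24_small c7 h2 p2⟩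
  by_cases c3 : 1 / 4 ≤ x3
  · right; left
    exact ⟨a24_small c3 h7 (by linarith [mul_comm x3 x7]), a24_small c3 h2 p3⟩
  · right; right
    have c2 : 1 / 4 ≤ x2 := by linarith [not_le.1 c7, not_le.1 c3]
    exact ⟨a24_small c2 h7 (by linarith [mul_comm x2 x7]), a24_small c2 h3 (by linarith [mul_comm x2 x3])⟩

theorem a24_terms {x7 x3 x2 y7 y3 y2 e : ℝ} (hx7 : 0 ≤ x7) (hx3 : 0 ≤ x3) (hx2 : 0 ≤ x2) (hy7 : 0 ≤ y7)
    (hy3 : 0 ≤ y3) (hy2 : 0 ≤ y2) (hsx : x7 + x3 + x2 ≤ 1) (hsy : y7 + y3 + y2 ≤ 1) (he0 : 0 < e)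
    (hgt : CC - e < Bf x7 x3 x2 y7 y3 y2 + 638 / 10000 * (x7 * y7 + x3 * y3 + x2 * y2)) :
    1 - e < x7 + x3 + x2 ∧ 1 - e < y7 + y3 + y2 ∧ x7 * y7 + x3 * y3 + x2 * y2 ≤ 8 * e ∧
      x7 * y2 + x2 * y7 ≤ 22 * e ∧ x3 * y2 + x2 * y3 ≤ 7 * e := by
  have hC := CC_bd
  have h72 := c72_bd
  have h32 := c32_bd
  rw [Bf_id] at hgt
  have hS0 : 0 ≤ x7 * y7 + x3 * y3 + x2 * y2 := by positivity
  have hP0 : 0 ≤ x7 * y2 + x2 * y7 := by positivity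
  have hR0 : 0 ≤ x3 * y2 + x2 * y3 := by positivity
  have hsx0 : 0 ≤ x7 + x3 + x2 := by positivity
  have hsy0 : 0 ≤ y7 + y3 + y2 := by positivity
  generalize x7 * y7 + x3 * y3 + x2 * y2 = S at *
  generalize x7 * y2 + x2 * y7 = P at *
  generalize x3 * y2 + x2 * y3 = R at *
  generalize x7 + x3 + x2 = sx at *
  generalize y7 + y3 + y2 = sy at *
  have n1 : 1349 / 10000 * S ≤ (CC - 1 - 638 / 10000) * S :=
    mul_le_mul_of_nonneg_right (by linarith [hC.1]) hS0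
  have n2 : 463 / 10000 * P ≤ (CC - c72) * P :=
    mul_le_mul_of_nonneg_right (by linarith [hC.1, h72.2]) hP0
  have n3 : 1583 / 10000 * R ≤ (CC - c32) * R :=
    mul_le_mul_of_nonneg_right (by linarith [hC.1, h32.2]) hR0
  have hCpos : 0 < CC := by linarith [hC.1]
  have n4 : CC * sx * sy ≤ CC * sx := mul_le_of_le_one_right (mul_nonneg hCpos.le hsx0) hsy
  have n5 : CC * sx * sy ≤ CC * sy := by
    have h2 := mul_le_of_le_one_right (mul_nonneg hCpos.le hsy0) hsx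
    linarith [mul_right_comm CC sx sy]
  have m1 : CC * sx ≤ CC := mul_le_of_le_one_right hCpos.le hsx
  have h3 : e ≤ CC * e := le_mul_of_one_le_left he0.le (by linarith [hC.1])
  refine ⟨?_, ?_, ?_, ?_, ?_⟩
  · by_contra hc
    have h2 : CC * sx ≤ CC * (1 - e) := mul_le_mul_of_nonneg_left (not_lt.1 hc) hCpos.le
    linarith
  · by_contra hc
    have h2 : CC * sy ≤ CC * (1 - e) := mul_le_mul_of_nonneg_left (not_lt.1 hc) hCpos.le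
    linarith
  · linarith
  · linarith
  · linarith

theorem a24_lin {x y z e c d : ℝ} (hy : 0 ≤ y) (hz : 0 ≤ z) (he : 0 ≤ e) (hs : x + y + z ≤ 1)
    (hy' : y ≤ 100 * e) (hz' : z ≤ 100 * e) (hc : c ≤ 12 / 10) (hd : d ≤ 12 / 10) : x + c * y + d * z ≤ 1 + 40 * e := by
  have h1 : c * y ≤ 12 / 10 * y := mul_le_mul_of_nonneg_right hc hy
  have h2 : d * z ≤ 12 / 10 * z := mul_le_mul_of_nonneg_right hd hz
  linarith

theorem a24_big {u v : ℝ} (hu : 97 / 100 ≤ u) (hv : 97 / 100 ≤ v) : 9 / 10 ≤ u * v := by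
  nlinarith

theorem a24_97 {x y z e : ℝ} (he2 : e ≤ 1 / 10000) (hs : 1 - e < x + y + z)
    (hy' : y ≤ 100 * e) (hz' : z ≤ 100 * e) : 97 / 100 ≤ x := by
  linarith

/-- PROOF (3.7). Let `e` be small. If `Bf x y + 0.0638 S > CC - e` (`S = x7 y7 + x3 y3 + x2 y2`) then by `Bf_id`: `s_x, s_y >= 1 - e` (`s = sum of the coordinates <= 1`), `(CC - 1.0638) S <= e` so `S <= 8 e`,
`x7 y2 + x2 y7 <= e/(CC - c72) <= 22 e`, `x3 y2 + x2 y3 <= e/(CC - c32) <= 7 e`. From `1 = Bf x x = s_x^2 + 2 (CC-1) x7 x3 + 2 (c72 - 1) x7 x2 + 2 (c32 - 1) x3 x2`: `x_i x_j <= 25 e` for `i /= j`, the same for `y`. One of the `x_i`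
is `>= 1/4`, the other two are `<= 100 e`, so `x_i >= 1 - 201 e` and the linear form of the vertex `i` is `<= 1 + 250 e`. The same for `y` with a vertex `j`. `x_i y_j >= 1/2`, so `i = j` is impossible by `S <= 8 e`, `{i,j} = {7,2}` by
`22 e`, `{3,2}` by `7 e`. So `{i, j} = {7, 3}`. Take `e = min (d/1000) (1/10000)`. -/
theorem near_pure {δ : ℝ} (hδ : 0 < δ) : ∃ ε : ℝ, 0 < ε ∧ ∀ x7 x3 x2 y7 y3 y2 : ℝ, 0 ≤ x7 → 0 ≤ x3 → 0 ≤ x2 → 0 ≤ y7 → 0 ≤ y3 → 0 ≤ y2 →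
    Bf x7 x3 x2 x7 x3 x2 = 1 → Bf y7 y3 y2 y7 y3 y2 = 1 →
    Bf x7 x3 x2 y7 y3 y2 + 638 / 10000 * (x7 * y7 + x3 * y3 + x2 * y2) ≤ CC - ε ∨
    (x7 + CC * x3 + c72 * x2 < 1 + 2 * δ ∧ CC * y7 + y3 + c32 * y2 < 1 + 2 * δ) ∨
    (CC * x7 + x3 + c32 * x2 < 1 + 2 * δ ∧ y7 + CC * y3 + c72 * y2 < 1 + 2 * δ) := by
  refine ⟨min (δ / 1000) (1 / 10000), by positivity, ?_⟩
  intro x7 x3 x2 y7 y3 y2 hx7 hx3 hx2 hy7 hy3 hy2 hx hy
  set e : ℝ := min (δ / 1000) (1 / 10000) with he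
  have he0 : 0 < e := by positivity
  have he1 : e ≤ δ / 1000 := min_le_left _ _
  have he2 : e ≤ 1 / 10000 := min_le_right _ _
  by_cases hcase : Bf x7 x3 x2 y7 y3 y2 + 638 / 10000 * (x7 * y7 + x3 * y3 + x2 * y2) ≤ CC - e
  · exact Or.inl hcase
  right
  have hgt := not_le.1 hcase
  have hsx := s_le_one hx7 hx3 hx2 hx
  have hsy := s_le_one hy7 hy3 hy2 hy
  obtain ⟨t1, t2, hS, hP, hR⟩ := a24_terms hx7 hx3 hx2 hy7 hy3 hy2 hsx hsy he0 hgt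
  clear hgt hcase
  have hCu : CC ≤ 12 / 10 := by linarith [CC_bd.2]
  have h72u : c72 ≤ 12 / 10 := by linarith [c72_bd.2]
  have h32u : c32 ≤ 12 / 10 := by linarith [c32_bd.2]
  have q77 : 0 ≤ x7 * y7 := mul_nonneg hx7 hy7
  have q33 : 0 ≤ x3 * y3 := mul_nonneg hx3 hy3
  have q22 : 0 ≤ x2 * y2 := mul_nonneg hx2 hy2
  have q72 : 0 ≤ x7 * y2 := mul_nonneg hx7 hy2
  have q27 : 0 ≤ x2 * y7 := mul_nonneg hx2 hy7
  have q32 : 0 ≤ x3 * y2 := mul_nonneg hx3 hy2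
  have q23 : 0 ≤ x2 * y3 := mul_nonneg hx2 hy3
  have cx := a24_pure hx7 hx3 hx2 hx he0 t1 he2
  have cy := a24_pure hy7 hy3 hy2 hy he0 t2 he2
  have r7 : ∀ {x7 x3 x2 : ℝ}, 0 ≤ x3 → 0 ≤ x2 → x7 + x3 + x2 ≤ 1 → x3 ≤ 100 * e → x2 ≤ 100 * e →
      x7 + CC * x3 + c72 * x2 < 1 + 2 * δ := by
    intro x7 x3 x2 k3 k2 ks k3' k2'
    have := a24_lin k3 k2 he0.le ks k3' k2' hCu h72u
    linarith
  have r3 : ∀ {x7 x3 x2 : ℝ}, 0 ≤ x7 → 0 ≤ x2 → x7 + x3 + x2 ≤ 1 → x7 ≤ 100 * e → x2 ≤ 100 * e →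
      CC * x7 + x3 + c32 * x2 < 1 + 2 * δ := by
    intro x7 x3 x2 k7 k2 ks k7' k2'
    have := a24_lin (x := x3) k7 k2 he0.le (by linarith) k7' k2' hCu h32u
    linarith
  rcases cx with ⟨a1, a2⟩ | ⟨a1, a2⟩ | ⟨a1, a2⟩
  · have hx' := a24_97 he2 t1 a1 a2
    rcases cy with ⟨b1, b2⟩ | ⟨b1, b2⟩ | ⟨b1, b2⟩
    · exfalso
      have := a24_big hx' (a24_97 he2 t2 b1 b2)
      linarith only [this, hS, q33, q22, he2]
    · left
      exact ⟨r7 hx3 hx2 hsx a1 a2, r3 hy7 hy2 hsy b1 b2⟩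
    · exfalso
      have := a24_big hx' (a24_97 he2 (by linarith only [t2] : 1 - e < y2 + y7 + y3) b1 b2)
      linarith only [this, hP, q27, he2]
  · have hx' := a24_97 he2 (by linarith only [t1] : 1 - e < x3 + x7 + x2) a1 a2
    rcases cy with ⟨b1, b2⟩ | ⟨b1, b2⟩ | ⟨b1, b2⟩
    · right
      exact ⟨r3 hx7 hx2 hsx a1 a2, r7 hy3 hy2 hsy b1 b2⟩
    · exfalso
      have := a24_big hx' (a24_97 he2 (by linarith only [t2] : 1 - e < y3 + y7 + y2) b1 b2)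
      linarith only [this, hS, q77, q22, he2]
    · exfalso
      have := a24_big hx' (a24_97 he2 (by linarith only [t2] : 1 - e < y2 + y7 + y3) b1 b2)
      linarith only [this, hR, q23, he2]
  · have hx' := a24_97 he2 (by linarith only [t1] : 1 - e < x2 + x7 + x3) a1 a2
    rcases cy with ⟨b1, b2⟩ | ⟨b1, b2⟩ | ⟨b1, b2⟩
    · exfalso
      have := a24_big hx' (a24_97 he2 t2 b1 b2)
      linarith only [this, hP, q72, he2]
    · exfalso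
      have := a24_big hx' (a24_97 he2 (by linarith only [t2] : 1 - e < y3 + y7 + y2) b1 b2)
      linarith only [this, hR, q32, he2]
    · exfalso
      have := a24_big hx' (a24_97 he2 (by linarith only [t2] : 1 - e < y2 + y7 + y3) b1 b2)
      linarith only [this, hS, q77, q33, he2]

end Pool.Agent.Lib.H11Q.A
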