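import Mathlib
import Pool.Agent.Lib.H11Q.AD
import Pool.Agent.Lib.H11Q.A01
import Pool.Agent.Lib.H11Q.A02
import Pool.Agent.Lib.H11Q.A17
import Pool.Agent.Lib.H11Q.A18

/-! # H11Q (MP_a00a7b_an) module A, chunk A19: Gram numbers -/

set_option autoImplicit false

namespace Pool.Agent.Lib.H11Q.A

open Complex Set
open scoped ComplexConjugate Topology

theorem a19_mink_exp (p q S T a b : ℝ) :
    mink (p, (S : ℂ) * exp ((a : ℂ) * I)) (q, (T : ℂ) * exp ((b : ℂ) * I)) = p * q - S * T * Real.cos (a - b) := by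
  unfold mink
  simp only
  rw [exp_ofReal_mul_I, exp_ofReal_mul_I, Real.cos_sub]
  simp only [mul_re, mul_im, add_re, add_im, conj_re, conj_im, ofReal_re, ofReal_im, I_re, I_im]
  ring

theorem a19_sqCC : Real.sqrt (CC ^ 2 - 1) * Real.sqrt (CC ^ 2 - 1) = CC ^ 2 - 1 := by
  have := one_lt_CC
  exact Real.mul_self_sqrt (by nlinarith)

theorem a19_sq72 : Real.sqrt (c72 ^ 2 - 1) * Real.sqrt (c72 ^ 2 - 1) = c72 ^ 2 - 1 := by
  have := c72_bd.1
  exact Real.mul_self_sqrt (by nlinarith)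

theorem a19_c72_sin : c72 ^ 2 * Real.sin (Real.pi / 7) ^ 2 = 1 / 4 := by
  have := pi7_pos
  unfold c72
  field_simp
  norm_num

theorem a19_cos2 : Real.cos (2 * Real.pi / 7) = 1 - 2 * Real.sin (Real.pi / 7) ^ 2 := by
  have hs2 := Real.sin_sq_add_cos_sq (Real.pi / 7)
  rw [show 2 * Real.pi / 7 = 2 * (Real.pi / 7) by ring, Real.cos_two_mul]
  linarith

theorem mink_O_O : mink O O = 1 := by
  unfold mink O
  simp
theorem mink_O_V (j : ℕ) : mink O (V j) = CC := by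
  rw [V_eq]
  unfold mink O
  simp
theorem mink_V_V (j : ℕ) : mink (V j) (V j) = 1 := by
  rw [V_eq, a19_mink_exp, sub_self, Real.cos_zero, mul_one, a19_sqCC]
  ring
/-- PROOF. `V_eq`, `gram_V01`. -/
theorem mink_V_V' (j : ℕ) : mink (V j) (V (j + 1)) = 2 * c32 ^ 2 - 1 := by
  rw [V_eq, V_eq, a19_mink_exp, a19_sqCC]
  have e : 2 * Real.pi * (j : ℝ) / 7 - 2 * Real.pi * ((j + 1 : ℕ) : ℝ) / 7 = -(2 * Real.pi / 7) := by
    push_cast
    ring
  rw [e, Real.cos_neg, ← gram_V01]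
  ring
theorem mink_O_M0 : mink O M0 = c72 := by
  rw [M0_eq]
  unfold mink O
  simp
theorem mink_O_M1 : mink O M1 = c72 := by
  rw [M1_eq]
  unfold mink O
  simp
theorem mink_M0_M0 : mink M0 M0 = 1 := by
  rw [M0_eq, a19_mink_exp, sub_self, Real.cos_zero, mul_one, a19_sq72]
  ring
theorem mink_M1_M1 : mink M1 M1 = 1 := by
  rw [M1_eq, a19_mink_exp, sub_self, Real.cos_zero, mul_one, a19_sq72]
  ring
theorem mink_V0_M0 : mink (V 0) M0 = c32 := by
  have h := c32_bd.1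
  have h1 := mink_V_V' 0
  unfold M0
  rw [mink_smul_right, mink_add_right, mink_V_V, h1]
  field_simp
  ring
theorem mink_V1_M0 : mink (V 1) M0 = c32 := by
  have h := c32_bd.1
  have h1 := mink_V_V' 0
  unfold M0
  rw [mink_smul_right, mink_add_right, mink_V_V, mink_comm (V 1) (V 0), h1]
  field_simp
  ring
/-- PROOF. `M0_eq`, `M1_eq`: `c72^2 - (c72^2 - 1) cos (2 pi/7) = 1 + (c72^2-1) 2 sin^2 (pi/7)`. -/
theorem mink_M0_M1 : mink M0 M1 = 3 / 2 - 2 * Real.sin (Real.pi / 7) ^ 2 := by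
  rw [M0_eq, M1_eq, a19_mink_exp, a19_sq72]
  have e : Real.pi / 7 - 3 * Real.pi / 7 = -(2 * Real.pi / 7) := by ring
  rw [e, Real.cos_neg, a19_cos2]
  linear_combination 2 * a19_c72_sin
/-- PROOF. `(rho wA).lin M0 = M1` and invariance. -/
theorem mink_M0_Mm : mink M0 ((rho wA⁻¹).lin M0) = 3 / 2 - 2 * Real.sin (Real.pi / 7) ^ 2 := by
  have h : mink M0 ((rho wA⁻¹).lin M0) = mink ((rho wA).lin M0) M0 := by
    rw [← mink_lin (rho wA) M0 ((rho wA⁻¹).lin M0), ← lin_mul, ← map_mul, mul_inv_cancel, map_one, lin_one]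
  rw [h, lin_wA_M0, mink_comm, mink_M0_M1]
/-- PROOF. `lin_e0`. -/
theorem Om_q0 : Om (q0 : ℂ) = (2 * c72) • M0 - O := by
  unfold q0
  rw [Om_ac, Om_o0, lin_e0, mink_O_M0]
theorem Om_q1 : Om (q1 : ℂ) = (2 * c72) • M1 - O := by
  unfold q1
  rw [Om_ac, Om_o0, lin_e1, mink_O_M1]
theorem mink_q0_O : mink (Om (q0 : ℂ)) O = 2 * c72 ^ 2 - 1 := by
  rw [Om_q0, sub_eq_add_neg, mink_add_left, mink_smul_left, mink_neg_left, mink_O_O, mink_comm M0 O, mink_O_M0]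
  ring
theorem mink_q0_V0 : mink (Om (q0 : ℂ)) (V 0) = CC := by
  rw [Om_q0, sub_eq_add_neg, mink_add_left, mink_smul_left, mink_neg_left, mink_O_V, mink_comm M0, mink_V0_M0, CC_eq]
  ring
theorem mink_q0_V1 : mink (Om (q0 : ℂ)) (V 1) = CC := by
  rw [Om_q0, sub_eq_add_neg, mink_add_left, mink_smul_left, mink_neg_left, mink_O_V, mink_comm M0, mink_V1_M0, CC_eq]
  ring
theorem mink_q0_M0 : mink (Om (q0 : ℂ)) M0 = c72 := by
  rw [Om_q0, sub_eq_add_neg, mink_add_left, mink_smul_left, mink_neg_left, mink_M0_M0, mink_O_M0]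
  ring

end Pool.Agent.Lib.H11Q.A
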