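import Mathlib
import Pool.Agent.Lib.H11Q.AD
import Pool.Agent.Lib.H11Q.A01
import Pool.Agent.Lib.H11Q.A02
import Pool.Agent.Lib.H11Q.A03

/-! # H11Q (MP_a00a7b_an) module A, chunk A05: displacement (2.9), elements acting trivially -/

set_option autoImplicit false

namespace Pool.Agent.Lib.H11Q.A

open Complex Set
open scoped ComplexConjugate Topology

theorem A05_one_sub (z : Disc) : 0 < 1 - ‖(z : ℂ)‖ ^ 2 := by
  have h := z.2
  have h0 := norm_nonneg (z : ℂ)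
  nlinarith

/-- PROOF (2.9). `1 + sh z (g z) = (1 + mink (Om z) (g Om z))/2`. Conjugate `z` to `0`: choose `k` in SU with `k 0 = z` (`k.a = 1/sqrt(1-|z|^2)`, `k.b = z k.a`); `k^{-1} g k` has the same trace;
for `z = 0` it is `|a|^2 >= (Re a)^2`. Or directly. -/
theorem disp (g : SU) (z : Disc) : g.a.re ^ 2 ≤ 1 + sh z (g.app z) := by
  have hr := A05_one_sub z
  have hd : g.den z ≠ 0 := g.den_ne z.2.le
  have hD : 0 < ‖g.den z‖ ^ 2 := pow_pos (norm_pos_iff.mpr hd) 2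
  have h1 := g.normSq_app z.2.le
  have h2 : (z : ℂ) - g.app z = (conj g.b * (z : ℂ) ^ 2 + (conj g.a - g.a) * z - g.b) / g.den z := by
    have e : g.app z = (g.a * z + g.b) / g.den z := rfl
    rw [e, eq_div_iff hd, sub_mul, div_mul_cancel₀ _ hd]
    unfold SU.den
    ring
  have h3 : sh z (g.app z) = ‖conj g.b * (z : ℂ) ^ 2 + (conj g.a - g.a) * z - g.b‖ ^ 2 / (1 - ‖(z : ℂ)‖ ^ 2) ^ 2 := by
    unfold sh
    rw [h1, h2, norm_div, div_pow]
    field_simp
  have h4 : ‖conj g.b * (z : ℂ) ^ 2 + (conj g.a - g.a) * z - g.b‖ ^ 2 =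
      (normSq g.b - g.a.im ^ 2) * (1 - ‖(z : ℂ)‖ ^ 2) ^ 2 +
        (2 * (g.b * conj (z : ℂ)).im + g.a.im * (1 + ‖(z : ℂ)‖ ^ 2)) ^ 2 := by
    rw [← normSq_eq_norm_sq, ← normSq_eq_norm_sq]
    simp only [normSq_apply, add_re, mul_re, conj_re, conj_im, add_im, mul_im, sub_re, sub_im, pow_two]
    ring
  have h5 := g.h
  rw [normSq_apply] at h5
  rw [h3, h4]
  have h6 : normSq g.b - g.a.im ^ 2 ≤ ((normSq g.b - g.a.im ^ 2) * (1 - ‖(z : ℂ)‖ ^ 2) ^ 2 +
        (2 * (g.b * conj (z : ℂ)).im + g.a.im * (1 + ‖(z : ℂ)‖ ^ 2)) ^ 2) / (1 - ‖(z : ℂ)‖ ^ 2) ^ 2 := by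
    rw [le_div_iff₀ (by positivity)]
    nlinarith [sq_nonneg (2 * (g.b * conj (z : ℂ)).im + g.a.im * (1 + ‖(z : ℂ)‖ ^ 2))]
  nlinarith

/-- PROOF. `a z + b = z (conj b z + conj a)` for all `z` in the disc: `z = 0` gives `b = 0`; then `a = conj a`, `|a| = 1`. -/
theorem act_eq_one (g : SU) (h : SU.act g = 1) : g.b = 0 ∧ (g.a = 1 ∨ g.a = -1) := by
  have h1 : ∀ z : Disc, g.app z = z := by
    intro z
    have := congrArg (fun e : Disc ≃ₜ Disc => ((e z : Disc) : ℂ)) h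
    exact this
  have hca : conj g.a ≠ 0 := by
    have := g.den_ne (z := 0) (by simp)
    unfold SU.den at this
    rwa [mul_zero, zero_add] at this
  have hb : g.b = 0 := by
    have h2 := h1 ⟨0, by simp⟩
    unfold SU.app at h2
    simp only [mul_zero, zero_add] at h2
    rw [div_eq_zero_iff] at h2
    exact h2.resolve_right hca
  refine ⟨hb, ?_⟩
  have h3 := h1 ⟨((1 / 2 : ℝ) : ℂ), by
    rw [Complex.norm_real, Real.norm_eq_abs]
    norm_num⟩
  unfold SU.app at h3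
  simp only [hb, map_zero, zero_mul, add_zero, zero_add] at h3
  rw [div_eq_iff hca, mul_comm] at h3
  have h4 : g.a = conj g.a := by
    apply mul_left_cancel₀ (a := ((1 / 2 : ℝ) : ℂ)) _ h3
    simp
  have h5 : g.a.im = 0 := by
    have := congrArg Complex.im h4
    rw [conj_im] at this
    linarith
  have h6 := g.h
  rw [hb, map_zero, sub_zero, normSq_apply, h5, mul_zero, add_zero] at h6
  have h7 : (g.a.re - 1) * (g.a.re + 1) = 0 := by linear_combination h6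
  rcases mul_eq_zero.1 h7 with h8 | h8
  · left
    apply Complex.ext
    · rw [one_re]
      linarith
    · rw [one_im, h5]
  · right
    apply Complex.ext
    · rw [neg_re, one_re]
      linarith
    · rw [neg_im, one_im, h5, neg_zero]

theorem act_eq_one' (g : SU) (hb : g.b = 0) (ha : g.a = 1 ∨ g.a = -1) : SU.act g = 1 := by
  apply Homeomorph.ext
  intro z
  apply Subtype.ext
  show g.app z = z
  unfold SU.app
  rcases ha with ha | ha
  · rw [hb, ha]
    simp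
  · rw [hb, ha]
    simp

/-- PROOF. `k = (1/sqrt(1-|z|^2), z/sqrt(1-|z|^2))`. -/
theorem exists_app_zero (z : Disc) : ∃ k : SU, k.app 0 = z := by
  have hr := A05_one_sub z
  set s : ℝ := Real.sqrt (1 - ‖(z : ℂ)‖ ^ 2) with hs
  have hs0 : 0 < s := Real.sqrt_pos.mpr hr
  have hs2 : s ^ 2 = 1 - ‖(z : ℂ)‖ ^ 2 := Real.sq_sqrt hr.le
  refine ⟨⟨((s⁻¹ : ℝ) : ℂ), ((s⁻¹ : ℝ) : ℂ) * z, ?_⟩, ?_⟩
  · rw [map_mul, normSq_ofReal, normSq_eq_norm_sq (z : ℂ)]
    field_simp
    linarith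
  · unfold SU.app
    simp only [mul_zero, zero_add, conj_ofReal]
    rw [mul_div_cancel_left₀]
    rw [Ne, ofReal_eq_zero]
    exact (inv_pos.2 hs0).ne'

end Pool.Agent.Lib.H11Q.A
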