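import Mathlib
import Pool.Agent.Lib.H11Q.AD
import Pool.Agent.Lib.H11Q.A06
import Pool.Agent.Lib.H11Q.A08

/-! # H11Q (MP_a00a7b_an) module A, chunk A12: congruence subgroups (2.7) -/

set_option autoImplicit false

namespace Pool.Agent.Lib.H11Q.A

open Complex Set
open scoped ComplexConjugate Topology

instance GN_normal (N : ℕ) : (GN N).Normal := by
  unfold GN
  infer_instance

/-- PROOF. The ring `R0 / (N)` is finite: every element is the class of `a + b x0 + c x0^2` with `0 <= a, b, c < N` (`R0_rep` in A06). So `Equiv.Perm (Fin 4 -> R0/(N))` is finite and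
the kernel of a homomorphism to a finite group has finite index (`Subgroup.finiteIndex_ker`). -/
theorem GN_finiteIndex {N : ℕ} (hN : 0 < N) : (GN N).FiniteIndex := by
  haveI : NeZero N := ⟨hN.ne'⟩
  have hN0 : ((N : ℕ) : R0 ⧸ Ideal.span {(N : R0)}) = 0 := by
    have h : Ideal.Quotient.mk (Ideal.span {(N : R0)}) (N : R0) = 0 :=
      Ideal.Quotient.eq_zero_iff_mem.mpr (Ideal.mem_span_singleton_self _)
    rwa [map_natCast] at h
  have hcast : ∀ a : ℤ, ((a : ℤ) : R0 ⧸ Ideal.span {(N : R0)}) = (((a : ZMod N).val : ℕ) : R0 ⧸ Ideal.span {(N : R0)}) := by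
    intro a
    have h1 := ZMod.val_intCast (n := N) a
    have h2 := Int.mul_ediv_add_emod a N
    rw [← h1] at h2
    have h3 := congrArg (fun z : ℤ => (z : R0 ⧸ Ideal.span {(N : R0)})) h2
    simp only [Int.cast_add, Int.cast_mul, Int.cast_natCast, hN0, zero_mul, zero_add] at h3
    exact h3.symm
  haveI : Finite (R0 ⧸ Ideal.span {(N : R0)}) := by
    refine Finite.of_surjective (fun t : ZMod N × ZMod N × ZMod N =>
      Ideal.Quotient.mk (Ideal.span {(N : R0)}) ((t.1.val : R0) + (t.2.1.val : R0) * x0 + (t.2.2.val : R0) * x0 ^ 2)) ?_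
    intro q
    obtain ⟨r, rfl⟩ := Ideal.Quotient.mk_surjective q
    obtain ⟨a, b, c, rfl⟩ := R0_rep r
    refine ⟨((a : ZMod N), (b : ZMod N), (c : ZMod N)), ?_⟩
    simp only [map_add, map_mul, map_pow, map_natCast, map_intCast, hcast]
  unfold GN
  infer_instance


/-- PROOF. `w` in the kernel: `Th (mk x0) w e4 = e4`; `Th_map` for `Ideal.Quotient.mk`; an element of the ideal `(N)` is `N q`. -/
theorem co_of_GN {N : ℕ} {w : W} (hw : w ∈ GN N) : ∃ Q : Fin 4 → R0, ∀ i, co w i = e4 i + N * Q i := by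
  have h1 : Th (Ideal.Quotient.mk (Ideal.span {(N : R0)}) x0) w = 1 := MonoidHom.mem_ker.mp hw
  have h2 := Th_map (Ideal.Quotient.mk (Ideal.span {(N : R0)})) x0 w e4
  rw [h1] at h2
  have h3 : ∀ i, ∃ q : R0, co w i = e4 i + N * q := by
    intro i
    have h4 : Ideal.Quotient.mk (Ideal.span {(N : R0)}) (e4 i) = Ideal.Quotient.mk (Ideal.span {(N : R0)}) (co w i) :=
      congrFun h2 i
    rw [eq_comm, Ideal.Quotient.eq, Ideal.mem_span_singleton'] at h4
    obtain ⟨q, hq⟩ := h4
    exact ⟨q, by linear_combination -hq⟩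
  exact ⟨fun i => (h3 i).choose, fun i => (h3 i).choose_spec⟩


end Pool.Agent.Lib.H11Q.A
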