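import Mathlib
import Pool.Agent.Lib.H11Q.AD
import Pool.Agent.Lib.H11Q.A06
import Pool.Agent.Lib.H11Q.A07
import Pool.Agent.Lib.H11Q.A10
import Pool.Agent.Lib.H11Q.A12

/-! # H11Q (MP_a00a7b_an) module A, chunk A13: deep congruence covers (2.8) -/

set_option autoImplicit false

namespace Pool.Agent.Lib.H11Q.A

open Complex Set
open scoped ComplexConjugate Topology

/-- PROOF. `del x (e4 + N Q) = 1 + N trq x Q + N^2 del x Q` in any commutative ring; `del_co`; so `N (trq x0 Q + N del x0 Q) = 0` in `R0`, apply `evl 0` and `evl_inj` (N > 0):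
`trq x0 Q = -N del x0 Q`, and `trq x0 (e4 + N Q) = 2 + N trq x0 Q`. -/
theorem trq_GN {N : ℕ} (hN : 0 < N) {w : W} {Q : Fin 4 → R0} (h : ∀ i, co w i = e4 i + N * Q i) :
    trq x0 (co w) = 2 - N ^ 2 * del x0 Q := by
  have hco : co w = fun i => e4 i + N * Q i := funext h
  have h1 := del_co w
  have e0 : (e4 : Fin 4 → R0) 0 = 1 := rfl
  have e1 : (e4 : Fin 4 → R0) 1 = 0 := rfl
  have e2 : (e4 : Fin 4 → R0) 2 = 0 := rfl
  have e3 : (e4 : Fin 4 → R0) 3 = 0 := rfl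
  have h2 : (N : R0) * (trq x0 Q + N * del x0 Q) = 0 := by
    rw [hco] at h1
    unfold del at h1
    simp only [e0, e1, e2, e3] at h1
    unfold trq del
    linear_combination h1
  have h3 : trq x0 Q + N * del x0 Q = 0 := by
    apply evl_eq_zero 0
    have h4 := congrArg (evl 0) h2
    rw [map_mul, map_zero, map_natCast] at h4
    have h5 : (N : ℝ) ≠ 0 := by exact_mod_cast hN.ne'
    exact (mul_eq_zero.mp h4).resolve_left h5
  rw [hco]
  unfold trq at h3 ⊢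
  simp only [e0, e1, e2, e3]
  linear_combination (N : R0) * h3


/-- PROOF. `tr_rU`: `2 Re a = 2`, `|a|^2 + |b|^2 = 1`, so `rU 0 w = 1`; `mat_rU` and `indep_rU` for `evl 1 (co w i) - e4 i`; `evl_inj`. -/
theorem co_of_tr_two (w : W) (h : evl 1 (trq x0 (co w)) = 2) : co w = e4 := by
  have e1 : (0 : Fin 2).succ = (1 : Fin 3) := rfl
  have h1 := tr_rU 0 w
  rw [e1, h] at h1
  have h2 : (rU 0 w).a.re = 1 := by linarith
  have h3 := (rU 0 w).h
  rw [normSq_apply, normSq_apply, h2] at h3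
  have h4 : (rU 0 w).a.im = 0 := by nlinarith [sq_nonneg (rU 0 w).b.re, sq_nonneg (rU 0 w).b.im, sq_nonneg (rU 0 w).a.im]
  have h5 : (rU 0 w).b.re = 0 := by nlinarith [sq_nonneg (rU 0 w).b.re, sq_nonneg (rU 0 w).b.im, sq_nonneg (rU 0 w).a.im]
  have h6 : (rU 0 w).b.im = 0 := by nlinarith [sq_nonneg (rU 0 w).b.re, sq_nonneg (rU 0 w).b.im, sq_nonneg (rU 0 w).a.im]
  have h7 : rU 0 w = 1 := by
    ext
    · rw [SU2.one_a]
      exact Complex.ext (by simpa using h2) (by simpa using h4)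
    · rw [SU2.one_b]
      exact Complex.ext (by simpa using h5) (by simpa using h6)
  have h8 := mat_rU 0 w
  rw [h7, map_one, e1] at h8
  have h9 := indep_rU 0 (fun i => evl 1 (co w i) - (e4 : Fin 4 → ℝ) i) (by
    have c0 : (e4 : Fin 4 → ℝ) 0 = 1 := rfl
    have c1 : (e4 : Fin 4 → ℝ) 1 = 0 := rfl
    have c2 : (e4 : Fin 4 → ℝ) 2 = 0 := rfl
    have c3 : (e4 : Fin 4 → ℝ) 3 = 0 := rfl
    unfold ev at h8 ⊢
    simp only [c0, c1, c2, c3, sub_zero]
    rw [ofReal_sub, ofReal_one, sub_smul, one_smul]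
    rw [sub_add_eq_add_sub, sub_add_eq_add_sub, sub_add_eq_add_sub, ← h8, sub_self])
  funext i
  apply evl_inj 1
  have h10 := congrFun h9 i
  have h11 : evl 1 ((e4 : Fin 4 → R0) i) = (e4 : Fin 4 → ℝ) i := by
    fin_cases i <;> simp [e4]
  rw [h11]
  exact sub_eq_zero.mp h10


/-- PROOF (2.8). `Q` from `co_of_GN`, `d = del x0 Q`. For `k = 1, 2`: `|2 - N^2 evl k d| <= 2` (`abs_tr_rU`), so `0 <= evl k d <= 4/N^2`. If `d = 0`: `co_of_tr_two`, `rho_of_co`. If `d /= 0`: `one_le_norm` gives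
`|evl 0 d| >= N^4/16` and `|2 Re a| = |2 - N^2 evl 0 d| >= N^6/16 - 2`. -/
theorem tr_GN {N : ℕ} (hN : 0 < N) {w : W} (hw : w ∈ GN N) : rho w = 1 ∨ (N : ℝ) ^ 6 / 16 - 2 ≤ |2 * (rho w).a.re| := by
  obtain ⟨Q, hQ⟩ := co_of_GN hw
  have h1 := trq_GN hN hQ
  by_cases hd : del x0 Q = 0
  · left
    apply rho_of_co
    apply co_of_tr_two
    rw [h1, hd, mul_zero, sub_zero, map_ofNat]
  · right
    have hN' : (0 : ℝ) < N := by exact_mod_cast hN
    have hk : ∀ k : Fin 2, |evl k.succ (del x0 Q)| * (N : ℝ) ^ 2 ≤ 4 := by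
      intro k
      have h2 := abs_tr_rU k w
      rw [h1, map_sub, map_mul, map_pow, map_natCast, map_ofNat] at h2
      have h3 := abs_le.mp h2
      have h4 : 0 ≤ (N : ℝ) ^ 2 * evl k.succ (del x0 Q) := by linarith [h3.2]
      have h5 : (N : ℝ) ^ 2 * evl k.succ (del x0 Q) ≤ 4 := by linarith [h3.1]
      have h6 : |evl k.succ (del x0 Q)| * (N : ℝ) ^ 2 = |(N : ℝ) ^ 2 * evl k.succ (del x0 Q)| := by
        rw [abs_mul, abs_of_pos (pow_pos hN' 2), mul_comm]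
      rw [h6, abs_of_nonneg h4]
      exact h5
    have h2 := hk 0
    have h3 := hk 1
    have e3 : (0 : Fin 2).succ = (1 : Fin 3) := rfl
    have e4 : (1 : Fin 2).succ = (2 : Fin 3) := rfl
    rw [e3] at h2
    rw [e4] at h3
    have h4 := one_le_norm hd
    rw [tr_rho, h1, map_sub, map_mul, map_pow, map_natCast, map_ofNat]
    have a0 := abs_nonneg (evl 0 (del x0 Q))
    have a1 := abs_nonneg (evl 1 (del x0 Q))
    have a2 := abs_nonneg (evl 2 (del x0 Q))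
    have h7 : (N : ℝ) ^ 2 * |evl 0 (del x0 Q)| - 2 ≤ |2 - (N : ℝ) ^ 2 * evl 0 (del x0 Q)| := by
      have h8 := abs_sub_abs_le_abs_sub ((N : ℝ) ^ 2 * evl 0 (del x0 Q)) 2
      rw [abs_sub_comm, abs_mul, abs_of_pos (pow_pos hN' 2), abs_of_pos (by norm_num : (0 : ℝ) < 2)] at h8
      exact h8
    refine le_trans ?_ h7
    generalize |evl 0 (del x0 Q)| = a at h4 a0
    generalize |evl 1 (del x0 Q)| = b at h4 h2 a1
    generalize |evl 2 (del x0 Q)| = c at h4 h3 a2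
    have h9 : (b * (N : ℝ) ^ 2) * (c * (N : ℝ) ^ 2) ≤ 4 * 4 := by gcongr
    have h10 : (N : ℝ) ^ 4 ≤ 16 * a := by
      calc (N : ℝ) ^ 4 = 1 * (N : ℝ) ^ 4 := by ring
        _ ≤ (a * b * c) * (N : ℝ) ^ 4 := by gcongr
        _ = a * ((b * (N : ℝ) ^ 2) * (c * (N : ℝ) ^ 2)) := by ring
        _ ≤ a * (4 * 4) := by gcongr
        _ = 16 * a := by ring
    have h11 : (N : ℝ) ^ 2 * (N : ℝ) ^ 4 ≤ (N : ℝ) ^ 2 * (16 * a) := by gcongr
    nlinarith


end Pool.Agent.Lib.H11Q.A
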