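import Mathlib
import Pool.Agent.Lib.H11Q.AD
import Pool.Agent.Lib.H11Q.A08

/-! # H11Q (MP_a00a7b_an) module A, chunk A14: the action modulo 7 determines the action on seven points (4.1) -/

set_option autoImplicit false

namespace Pool.Agent.Lib.H11Q.A

open Complex Set
open scoped ComplexConjugate Topology

/-- `Fq` without inverses. -/
def a14F (a : Fin 7) (p q : ZMod 7) : Bool :=
  if q = 0 then true else decide (p * q ^ 5 - ((a : ℕ) : ZMod 7) = 1 ∨ p * q ^ 5 - ((a : ℕ) : ZMod 7) = 2 ∨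
    p * q ^ 5 - ((a : ℕ) : ZMod 7) = 4)

theorem a14_inv {q : ZMod 7} (hq : q ≠ 0) : q⁻¹ = q ^ 5 := by
  haveI : Fact (Nat.Prime 7) := ⟨by norm_num⟩
  have h := ZMod.pow_card_sub_one_eq_one hq
  apply inv_eq_of_mul_eq_one_right
  rw [← pow_succ']
  exact h

theorem a14_F (a : Fin 7) (v : Fin 2 → ZMod 7) : Fq a v = a14F a (v 0) (v 1) := by
  unfold Fq a14F
  by_cases h : v 1 = 0
  · rw [if_pos h, if_pos h]
  · rw [if_neg h, if_neg h, a14_inv h]

theorem a14_ne {v : Fin 2 → ZMod 7} (hv : v ≠ 0) : ¬ (v 0 = 0 ∧ v 1 = 0) := by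
  rintro ⟨h0, h1⟩
  apply hv
  funext i
  fin_cases i
  · exact h0
  · exact h1

theorem a14_A : ∀ (a : Fin 7) (p q : ZMod 7), ¬ (p = 0 ∧ q = 0) → a14F (a + 1) (-p - q) (-q) = a14F a p q := by
  decide +kernel

theorem a14_B : ∀ a : Fin 7, ∃ e : Bool, ∀ (p q : ZMod 7), ¬ (p = 0 ∧ q = 0) →
    a14F (tau a) (4 * p + 6 * q) (6 * p + 4 * q) = (a14F a p q).xor e := by
  decide +kernel

theorem a14_S : ∀ a b : Fin 7, (∀ p : ZMod 7, a14F b p 1 = a14F a p 1) → a = b := by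
  decide +kernel

/-- PROOF. `decide` (7 * 49 cases; generalize `v` to its two coordinates if necessary). For `v /= 0`. -/
theorem Fq_sA (a : Fin 7) (v : Fin 2 → ZMod 7) (hv : v ≠ 0) :
    Fq (finRotate 7 a) ((sA : Matrix (Fin 2) (Fin 2) (ZMod 7)).mulVec v) = Fq a v := by
  have e0 : ((sA : Matrix (Fin 2) (Fin 2) (ZMod 7)).mulVec v) 0 = -v 0 - v 1 := by
    simp [sA, Matrix.mulVec, dotProduct, Fin.sum_univ_two]
    ring
  have e1 : ((sA : Matrix (Fin 2) (Fin 2) (ZMod 7)).mulVec v) 1 = -v 1 := by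
    simp [sA, Matrix.mulVec, dotProduct, Fin.sum_univ_two]
  rw [a14_F, a14_F, e0, e1, finRotate_succ_apply]
  exact a14_A a _ _ (a14_ne hv)


/-- PROOF. `decide`. For every `a` there is a sign. -/
theorem Fq_sB (a : Fin 7) : ∃ e : Bool, ∀ v : Fin 2 → ZMod 7, v ≠ 0 →
    Fq (tau a) ((sB : Matrix (Fin 2) (Fin 2) (ZMod 7)).mulVec v) = (Fq a v).xor e := by
  obtain ⟨e, he⟩ := a14_B a
  refine ⟨e, fun v hv => ?_⟩
  have e0 : ((sB : Matrix (Fin 2) (Fin 2) (ZMod 7)).mulVec v) 0 = 4 * v 0 + 6 * v 1 := by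
    simp [sB, Matrix.mulVec, dotProduct, Fin.sum_univ_two]
  have e1 : ((sB : Matrix (Fin 2) (Fin 2) (ZMod 7)).mulVec v) 1 = 6 * v 0 + 4 * v 1 := by
    simp [sB, Matrix.mulVec, dotProduct, Fin.sum_univ_two]
  rw [a14_F, a14_F, e0, e1]
  exact he _ _ (a14_ne hv)


/-- PROOF. Induction on words; the set of pairs (matrix, permutation) with this property is a group (`mulVec` by an invertible matrix maps nonzero vectors to nonzero vectors). -/
theorem Fq_word (w : W) (a : Fin 7) : ∃ e : Bool, ∀ v : Fin 2 → ZMod 7, v ≠ 0 →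
    Fq (pi7 w a) ((rho7 w : Matrix (Fin 2) (Fin 2) (ZMod 7)).mulVec v) = (Fq a v).xor e := by
  revert a
  have hne : ∀ (w : W) (v : Fin 2 → ZMod 7), v ≠ 0 → (rho7 w : Matrix (Fin 2) (Fin 2) (ZMod 7)).mulVec v ≠ 0 := by
    intro w v hv h
    apply hv
    have h1 : (rho7 w⁻¹ : Matrix (Fin 2) (Fin 2) (ZMod 7)).mulVec ((rho7 w : Matrix (Fin 2) (Fin 2) (ZMod 7)).mulVec v) = v := by
      rw [Matrix.mulVec_mulVec, ← Matrix.SpecialLinearGroup.coe_mul, ← map_mul, inv_mul_cancel, map_one, Matrix.SpecialLinearGroup.coe_one,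
        Matrix.one_mulVec]
    rw [← h1, h, Matrix.mulVec_zero]
  refine A08_ind (fun w => ∀ a : Fin 7, ∃ e : Bool, ∀ v : Fin 2 → ZMod 7, v ≠ 0 →
    Fq (pi7 w a) ((rho7 w : Matrix (Fin 2) (Fin 2) (ZMod 7)).mulVec v) = (Fq a v).xor e) ?_ ?_ ?_ ?_ ?_ w
  · intro a
    refine ⟨false, fun v hv => ?_⟩
    rw [map_one, map_one, Matrix.SpecialLinearGroup.coe_one, Matrix.one_mulVec, Bool.xor_false]
    rfl
  · intro a
    refine ⟨false, fun v hv => ?_⟩
    rw [pi7_wA, rho7_wA, Bool.xor_false]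
    exact Fq_sA a v hv
  · intro a
    rw [pi7_wB, rho7_wB]
    exact Fq_sB a
  · intro w h a
    obtain ⟨e, he⟩ := h (pi7 w⁻¹ a)
    refine ⟨e, fun v hv => ?_⟩
    have h1 := he _ (hne w⁻¹ v hv)
    rw [Matrix.mulVec_mulVec, ← Matrix.SpecialLinearGroup.coe_mul, ← map_mul, ← Equiv.Perm.mul_apply, ← map_mul, mul_inv_cancel, map_one, map_one,
      Matrix.SpecialLinearGroup.coe_one, Matrix.one_mulVec, Equiv.Perm.one_apply] at h1
    rw [h1]
    generalize Fq (pi7 w⁻¹ a) ((rho7 w⁻¹ : Matrix (Fin 2) (Fin 2) (ZMod 7)).mulVec v) = x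
    cases x <;> cases e <;> rfl
  · intro v w hv hw a
    obtain ⟨e1, h1⟩ := hw a
    obtain ⟨e2, h2⟩ := hv (pi7 w a)
    refine ⟨e1.xor e2, fun u hu => ?_⟩
    have h3 := h2 _ (hne w u hu)
    rw [h1 u hu, Matrix.mulVec_mulVec, ← Matrix.SpecialLinearGroup.coe_mul, ← map_mul, ← Equiv.Perm.mul_apply, ← map_mul] at h3
    rw [h3, Bool.xor_assoc]


/-- PROOF. `decide`: `Fq a` is even, and `Fq a`, `Fq b`, `a /= b`, do not differ by a sign. -/
theorem Fq_even (a : Fin 7) (v : Fin 2 → ZMod 7) : Fq a (-v) = Fq a v := by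
  haveI : Fact (Nat.Prime 7) := ⟨by norm_num⟩
  unfold Fq
  simp only [Pi.neg_apply, neg_eq_zero, inv_neg, neg_mul_neg]


theorem Fq_sep (a b : Fin 7) (e : Bool) (h : ∀ v : Fin 2 → ZMod 7, v ≠ 0 → Fq b v = (Fq a v).xor e) : a = b := by
  have h0 := h ![1, 0] (fun hv => by
    have h2 : (1 : ZMod 7) = 0 := congrFun hv 0
    revert h2
    decide)
  have f0 : ∀ c : Fin 7, Fq c ![1, 0] = true := fun c => by simp [Fq]
  rw [f0, f0] at h0
  have he : e = false := by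
    cases e
    · rfl
    · revert h0
      decide
  rw [he] at h
  apply a14_S
  intro q
  have h1 := h ![q, 1] (fun hv => by
    have h2 : (1 : ZMod 7) = 0 := congrFun hv 1
    revert h2
    decide)
  rw [Bool.xor_false, a14_F, a14_F] at h1
  exact h1


/-- PROOF. The previous lemmas. -/
theorem pi7_of_rho7 (w : W) (h : (rho7 w : Matrix (Fin 2) (Fin 2) (ZMod 7)) = 1 ∨ (rho7 w : Matrix (Fin 2) (Fin 2) (ZMod 7)) = -1) :
    pi7 w = 1 := by
  apply Equiv.Perm.ext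
  intro a
  obtain ⟨e, he⟩ := Fq_word w a
  rw [Equiv.Perm.one_apply]
  symm
  refine Fq_sep a (pi7 w a) e (fun v hv => ?_)
  have h1 := he v hv
  rcases h with h | h
  · rw [h, Matrix.one_mulVec] at h1
    exact h1
  · rw [h, Matrix.neg_mulVec, Matrix.one_mulVec, Fq_even] at h1
    exact h1


end Pool.Agent.Lib.H11Q.A
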