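import Mathlib
import Pool.Agent.Lib.H11Q.AD
import Pool.Agent.Lib.H11Q.A03
import Pool.Agent.Lib.H11Q.A05
import Pool.Agent.Lib.H11Q.A09
import Pool.Agent.Lib.H11Q.A10
import Pool.Agent.Lib.H11Q.A12
import Pool.Agent.Lib.H11Q.A13
import Pool.Agent.Lib.H11Q.A14

/-! # H11Q (MP_a00a7b_an) module A, chunk A15: 4.1 and A_cong -/

set_option autoImplicit false

namespace Pool.Agent.Lib.H11Q.A

open Complex Set
open scoped ComplexConjugate Topology

/-- PROOF (4.1). `act_eq_one`, `co_of_rho`, `mat_rho7` (so `rho7 w = 1` or `-1`), `pi7_of_rho7`. -/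
theorem pi7_of_ac (w : W) (h : ac w = 1) : pi7 w = 1 := by
  obtain ⟨hb, ha⟩ := act_eq_one (rho w) h
  apply pi7_of_rho7
  have e0 : ∀ c : ZMod 7, ev (sA : Matrix (Fin 2) (Fin 2) (ZMod 7)) (sB : Matrix (Fin 2) (Fin 2) (ZMod 7)) ![c, 0, 0, 0] = c • 1 := by
    intro c
    simp [ev]
  rcases co_of_rho w hb ha with h1 | h1
  · left
    rw [mat_rho7, h1]
    have h2 : (fun i => evs ((e4 : Fin 4 → R0) i)) = ![1, 0, 0, 0] := by
      funext i
      fin_cases i <;> simp [e4]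
    rw [h2, e0, one_smul]
  · right
    rw [mat_rho7, h1]
    have h2 : (fun i => evs (-((e4 : Fin 4 → R0) i))) = ![-1, 0, 0, 0] := by
      funext i
      fin_cases i <;> simp [e4]
    rw [h2, e0, neg_smul, one_smul]


/-- PROOF. `co_of_GN`, `evs (7 m q) = 0`, `mat_rho7`, `pi7_of_rho7`. -/
theorem pi7_of_GN {N : ℕ} (h7 : 7 ∣ N) {w : W} (hw : w ∈ GN N) : pi7 w = 1 := by
  obtain ⟨Q, hQ⟩ := co_of_GN hw
  apply pi7_of_rho7
  left
  have hN : (N : ZMod 7) = 0 := (ZMod.natCast_eq_zero_iff N 7).mpr h7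
  have h2 : (fun i => evs (co w i)) = ![1, 0, 0, 0] := by
    funext i
    rw [hQ, map_add, map_mul, map_natCast, hN, zero_mul, add_zero]
    fin_cases i <;> simp [e4]
  rw [mat_rho7, h2]
  simp [ev]


/-- PROOF (2.9). `N = 7 m` large, `(N^6/16 - 2)^2 / 4 > (1 + cosh |R|)/2 + 1`; for `w` in `GN N` with `rho w /= 1` and `z` in the disc `disp` and `tr_GN` give `1 + sh z (w z) >= (tr/2)^2`; `lt_hd_iff`. -/
theorem cong (R : ℝ) : ∃ G : Subgroup W, G.Normal ∧ G.FiniteIndex ∧ G ≤ Gam0 ∧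
    ∀ w ∈ G, ac w = 1 ∨ ∀ z : Disc, R < hd z (ac w z) := by
  obtain ⟨m, hm⟩ := exists_nat_gt (1 + Real.cosh |R|)
  have hc := Real.one_le_cosh |R|
  have hm0 : 0 < m := by
    have : (0 : ℝ) < m := by linarith
    exact_mod_cast this
  have hN : 0 < 7 * m := by omega
  refine ⟨GN (7 * m), GN_normal _, GN_finiteIndex hN, fun w hw => ?_, fun w hw => ?_⟩
  · rw [mem_Gam0, pi7_of_GN (Dvd.intro m rfl) hw]
    rfl
  · rcases tr_GN hN hw with h1 | h1
    · left
      show SU.act (rho w) = 1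
      rw [h1, map_one]
    · right
      intro z
      have h2 := disp (rho w) z
      have hz : ‖(rho w).app (z : ℂ)‖ < 1 := (rho w).app_norm_lt z.2
      have h3 : |R| < hd z ((rho w).app z) := by
        rw [lt_hd_iff (abs_nonneg R) z.2 hz]
        have hx : (7 : ℝ) ≤ ((7 * m : ℕ) : ℝ) := by
          have : 7 ≤ 7 * m := by omega
          exact_mod_cast this
        have hmx : (m : ℝ) ≤ ((7 * m : ℕ) : ℝ) := by
          have : m ≤ 7 * m := by omega
          exact_mod_cast this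
        generalize ((7 * m : ℕ) : ℝ) = x at h1 hx hmx
        have h4 : x ≤ x ^ 6 / 16 - 2 := by
          have h5 : (7 : ℝ) ^ 5 ≤ x ^ 5 := by gcongr
          nlinarith
        have h6 : x ≤ |2 * (rho w).a.re| := h4.trans h1
        have h7 : x ^ 2 ≤ (2 * (rho w).a.re) ^ 2 := by
          rw [← sq_abs (2 * (rho w).a.re)]
          gcongr
        nlinarith
      exact lt_of_le_of_lt (le_abs_self R) h3


end Pool.Agent.Lib.H11Q.A
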