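import Mathlib
import Pool.Agent.Lib.H11Q.AD
import Pool.Agent.Lib.H11Q.A02
import Pool.Agent.Lib.H11Q.A03
import Pool.Agent.Lib.H11Q.A15

/-! # H11Q (MP_a00a7b_an) module A, chunk A16: proper discontinuity, nearest centres -/

set_option autoImplicit false

namespace Pool.Agent.Lib.H11Q.A

open Complex Set
open scoped ComplexConjugate Topology

theorem A16_cont : Continuous fun z : Disc => hd 0 (z : ℂ) := by
  have h1 : Continuous fun z : Disc => sh 0 (z : ℂ) := by
    unfold sh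
    refine Continuous.div (by fun_prop) (by fun_prop) fun z => ?_
    have h2 := a02_pos z.2
    rw [norm_zero]
    have h3 : (1 : ℝ) - 0 ^ 2 = 1 := by norm_num
    rw [h3, one_mul]
    exact h2.ne'
  unfold hd
  exact continuous_const.mul (Real.continuous_arsinh.comp (Real.continuous_sqrt.comp h1))

theorem A16_zero : ‖(0 : ℂ)‖ < 1 := by
  rw [norm_zero]
  exact one_pos

theorem A16_disc (ρ : ℝ) (hρ : ρ < 1) : IsCompact {z : Disc | ‖(z : ℂ)‖ ≤ ρ} := by
  rw [Subtype.isCompact_iff]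
  have h : Subtype.val '' {z : Disc | ‖(z : ℂ)‖ ≤ ρ} = Metric.closedBall (0 : ℂ) ρ := by
    ext z
    rw [mem_closedBall_zero_iff]
    constructor
    · rintro ⟨w, hw, rfl⟩
      exact hw
    · intro hz
      exact ⟨⟨z, lt_of_le_of_lt hz hρ⟩, hz, rfl⟩
  rw [h]
  exact isCompact_closedBall _ _

/-- PROOF. `sh 0 z = |z|^2/(1-|z|^2)` is bounded on a compact set. (`K` empty is trivial; `sh 0` is continuous.) -/
theorem hd_bdd (K : Set Disc) (hK : IsCompact K) : ∃ D : ℝ, ∀ x ∈ K, ∀ y ∈ K, hd x y ≤ D := by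
  obtain ⟨C, hC⟩ := hK.exists_bound_of_continuousOn A16_cont.continuousOn
  refine ⟨C + C, fun x hx y hy => ?_⟩
  have h1 := hd_triangle x.2 A16_zero y.2
  have h2 := (le_abs_self _).trans (hC x hx)
  have h3 := (le_abs_self _).trans (hC y hy)
  rw [hd_comm (x : ℂ) 0] at h1
  linarith

/-- PROOF. `{z | hd 0 z <= r}` = a closed Euclidean disc of radius `tanh (r/2) < 1`. -/
theorem ball_compact (r : ℝ) : IsCompact {z : Disc | hd 0 z ≤ r} := by
  rcases lt_or_ge r 0 with hr | hr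
  · have h : {z : Disc | hd 0 z ≤ r} = ∅ := by
      ext z
      simp only [mem_setOf_eq, mem_empty_iff_false, iff_false, not_le]
      exact lt_of_lt_of_le hr (hd_nonneg _ _)
    rw [h]
    exact isCompact_empty
  obtain ⟨M, hM⟩ : ∃ M : ℝ, 2 * M = Real.cosh r - 1 := ⟨(Real.cosh r - 1) / 2, by ring⟩
  have hM0 : 0 ≤ M := by linarith [Real.one_le_cosh r]
  have hρ : Real.sqrt (M / (1 + M)) < 1 := by
    rw [Real.sqrt_lt' one_pos, div_lt_iff₀ (by linarith)]
    linarith
  refine (A16_disc _ hρ).of_isClosed_subset (isClosed_le A16_cont continuous_const) fun z hz => ?_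
  have h1 : hd 0 (z : ℂ) ≤ r := hz
  have h2 : ¬ Real.cosh r < 1 + 2 * sh 0 z := fun h => not_lt.2 h1 ((lt_hd_iff hr A16_zero z.2).2 h)
  have h3 : sh 0 (z : ℂ) ≤ M := by linarith
  have h4 := a02_pos z.2
  have h5 : sh 0 (z : ℂ) = ‖(z : ℂ)‖ ^ 2 / (1 - ‖(z : ℂ)‖ ^ 2) := by
    unfold sh
    rw [norm_zero, zero_sub, norm_neg]
    norm_num
  rw [h5, div_le_iff₀ h4] at h3
  show ‖(z : ℂ)‖ ≤ Real.sqrt (M / (1 + M))
  apply Real.le_sqrt_of_sq_le
  rw [le_div_iff₀ (by linarith)]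
  linarith

/-- PROOF. `cong` with `R = 2 D`, `D` = a bound of `hd` on `K` (`hd_bdd`). Let `G` be the subgroup, `S` = a finite set of representatives: `W` = union of `G u`, `u` in `S`. If `g = w = c u`, `g' = c' u` (c, c' in G) both
move a point of `K` into `K`: `c x`, `c' x'` in `K`, with `x, x'` in `u K`. Then `hd (c'^{-1} c x) x <= hd (c'^{-1} c x) x' + hd x' x = hd (c x) (c' x') + hd x' x <= 2 D`, so `ac (c'^{-1} c) = 1` and `g = g'`. So each coset
gives at most one homeomorphism. (The action of `w` is `ac w`; the set of the statement injects into `W / G`.) -/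
theorem proper (K : Set Disc) (hK : IsCompact K) :
    {g : Disc ≃ₜ Disc | (∃ w : W, g = ac w) ∧ (g '' K ∩ K).Nonempty}.Finite := by
  obtain ⟨D, hD⟩ := hd_bdd K hK
  obtain ⟨G, -, hGf, -, hG⟩ := cong (2 * D)
  have hq : Finite (W ⧸ G) := inferInstance
  have hinj : Function.Injective (fun g : {g : Disc ≃ₜ Disc | (∃ w : W, g = ac w) ∧ (g '' K ∩ K).Nonempty} =>
      (QuotientGroup.mk (g.2.1.choose)⁻¹ : W ⧸ G)) := by
    rintro ⟨g, hg⟩ ⟨g', hg'⟩ h
    have h1 := QuotientGroup.eq.1 h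
    rw [inv_inv] at h1
    have e : g = ac hg.1.choose := hg.1.choose_spec
    have e' : g' = ac hg'.1.choose := hg'.1.choose_spec
    have h1' : hg.1.choose * (hg'.1.choose)⁻¹ ∈ G := h1
    obtain ⟨y, ⟨x, hx, hxy⟩, hy⟩ := hg.2
    obtain ⟨y', ⟨x', hx', hxy'⟩, hy'⟩ := hg'.2
    have h2 : ac (hg.1.choose * (hg'.1.choose)⁻¹) = g * g'⁻¹ := by
      rw [map_mul, map_inv, ← e, ← e']
    rcases hG _ h1' with h3 | h3
    · rw [h2] at h3
      exact Subtype.ext (mul_inv_eq_one.1 h3)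
    · exfalso
      have h4 := h3 (g' x')
      rw [h2] at h4
      have h5 : (g * g'⁻¹) (g' x') = g x' := by
        show g (g'.symm (g' x')) = g x'
        rw [Homeomorph.symm_apply_apply]
      rw [h5] at h4
      have h6 := hd_triangle (g' x').2 (g x).2 (g x').2
      have h7 : hd (g x) (g x') = hd x x' := by
        rw [e]
        exact hd_app _ x.2 x'.2
      rw [h7] at h6
      have h8 : hd (g' x') (g x) ≤ D := by
        rw [hxy', hxy]
        exact hD y' hy' y hy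
      have h9 := hD x hx x' hx'
      linarith
  have hfin := Finite.of_injective _ hinj
  exact Set.toFinite _

/-- PROOF. `proper` for the closed ball about `0` of radius `hd 0 z + r`: it contains `0` and the centre. -/
theorem centres_finite (z : Disc) (r : ℝ) : {u : Disc | (∃ w : W, u = ac w o0) ∧ hd z u ≤ r}.Finite := by
  have h1 := proper _ (ball_compact (hd 0 z + max r 0))
  refine (h1.image fun g : Disc ≃ₜ Disc => g o0).subset ?_
  rintro u ⟨⟨w, rfl⟩, hu⟩
  have h2 := hd_triangle A16_zero z.2 (ac w o0).2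
  refine ⟨ac w, ⟨⟨w, rfl⟩, ac w o0, ⟨o0, ?_, rfl⟩, ?_⟩, rfl⟩
  · show hd 0 (0 : ℂ) ≤ _
    have h3 : hd 0 (0 : ℂ) = 0 := by
      unfold hd sh
      simp
    rw [h3]
    exact add_nonneg (hd_nonneg _ _) (le_max_right _ _)
  · show hd 0 (ac w o0 : ℂ) ≤ _
    have h4 := le_max_left r 0
    linarith

/-- PROOF. Minimum over the finite nonempty set of centres with `hd z u <= hd z 0`. -/
theorem exists_nearest (z : Disc) : ∃ w : W, ∀ w' : W, mink (Om z) (Om (ac w o0)) ≤ mink (Om z) (Om (ac w' o0)) := by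
  have hne : {u : Disc | (∃ w : W, u = ac w o0) ∧ hd z u ≤ hd z 0}.Nonempty := by
    refine ⟨o0, ⟨1, ?_⟩, le_rfl⟩
    rw [map_one]
    rfl
  obtain ⟨u, ⟨⟨w, rfl⟩, hu⟩, hmin⟩ := Set.exists_min_image _ (fun u : Disc => mink (Om z) (Om u)) (centres_finite z (hd z 0)) hne
  refine ⟨w, fun w' => ?_⟩
  by_cases h : hd z (ac w' o0) ≤ hd z 0
  · exact hmin _ ⟨⟨w', rfl⟩, h⟩
  · push Not at h
    rw [← cosh_hd' z.2 (ac w o0).2, ← cosh_hd' z.2 (ac w' o0).2, Real.cosh_le_cosh, abs_of_nonneg (hd_nonneg _ _),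
      abs_of_nonneg (hd_nonneg _ _)]
    linarith

end Pool.Agent.Lib.H11Q.A
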