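import Mathlib
import Pool.Agent.Lib.H11Q.AD
import Pool.Agent.Lib.H11Q.A02
import Pool.Agent.Lib.H11Q.A16
import Pool.Agent.Lib.H11Q.A18
import Pool.Agent.Lib.H11Q.A19

/-! # H11Q (MP_a00a7b_an) module A, chunk A20: reduction to the sector (3.2, 3.3) -/

set_option autoImplicit false

namespace Pool.Agent.Lib.H11Q.A

open Complex Set
open scoped ComplexConjugate Topology

theorem a20_inv (w : W) (x y : Disc) : mink (Om (ac w x : ℂ)) (Om (ac w y : ℂ)) = mink (Om x) (Om y) := by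
  rw [Om_ac, Om_ac, mink_lin]

theorem a20_wA (z : Disc) : ((ac wA z : Disc) : ℂ) = exp (((2 * Real.pi / 7 : ℝ) : ℂ) * I) * z := by
  rw [ac_coe, rho_wA]
  unfold SU.app
  rw [a18_gA_b, a18_gA_a, ← Complex.exp_conj]
  have h1 : conj (((Real.pi / 7 : ℝ) : ℂ) * I) = -(((Real.pi / 7 : ℝ) : ℂ) * I) := by
    rw [map_mul, conj_ofReal, conj_I]
    ring
  rw [h1, map_zero, zero_mul, zero_add, add_zero, div_eq_iff (Complex.exp_ne_zero _), mul_right_comm, ← Complex.exp_add]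
  congr 2
  push_cast
  ring

theorem a20_pow (s : ℕ) (z : Disc) : ((ac (wA ^ s) z : Disc) : ℂ) = exp (((2 * Real.pi * s / 7 : ℝ) : ℂ) * I) * z := by
  induction s with
  | zero =>
    rw [pow_zero, map_one]
    simp
  | succ n ih =>
    rw [pow_succ', map_mul]
    show ((ac wA (ac (wA ^ n) z) : Disc) : ℂ) = _
    rw [a20_wA, ih, ← mul_assoc, ← Complex.exp_add]
    congr 2
    push_cast
    ring

theorem a20_pow_o0 (s : ℕ) : ac (wA ^ s) o0 = o0 := by
  apply Subtype.ext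
  rw [a20_pow]
  show _ * (0 : ℂ) = 0
  rw [mul_zero]

theorem a20_sin (al t : ℝ) : (Real.sin (al - t) : ℂ) + (Real.sin t : ℂ) * exp ((al : ℂ) * I) =
    (Real.sin al : ℂ) * exp ((t : ℂ) * I) := by
  rw [exp_ofReal_mul_I, exp_ofReal_mul_I]
  apply Complex.ext
  · simp only [mul_re, add_re, ofReal_re, ofReal_im, mul_im, I_re, I_im, add_im]
    rw [Real.sin_sub]
    ring
  · simp only [mul_re, add_re, ofReal_re, ofReal_im, mul_im, I_re, I_im, add_im]
    ring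

/-- PROOF. `arg z` modulo `2 pi/7`; a complex number with argument in `[0, 2 pi/7]` is a nonnegative combination of `1` and `e^{2 pi i/7}`: `b = r sin(2 pi/7 - t)/sin(2 pi/7)`, `c = r sin t/sin(2 pi/7)`. -/
theorem sector_rot (z : ℂ) : ∃ s : ℕ, ∃ b c : ℝ, 0 ≤ b ∧ 0 ≤ c ∧
    exp (((2 * Real.pi * s / 7 : ℝ) : ℂ) * I) * z = b + c * exp (((2 * Real.pi / 7 : ℝ) : ℂ) * I) := by
  set al : ℝ := 2 * Real.pi / 7 with hal
  have hal0 : 0 < al := by positivity
  have halpi : al < Real.pi := by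
    rw [hal]
    linarith [Real.pi_pos]
  set k : ℤ := ⌊arg z / al⌋ with hk
  set t : ℝ := arg z - k * al with ht
  have ht0 : 0 ≤ t := by
    have h1 := Int.floor_le (arg z / al)
    rw [← hk, le_div_iff₀ hal0] at h1
    linarith
  have ht1 : t < al := by
    have h1 := Int.lt_floor_add_one (arg z / al)
    rw [← hk, div_lt_iff₀ hal0] at h1
    linarith
  have hm : ((-k) % 7) = -k - 7 * ((-k) / 7) := Int.emod_def _ _
  have hm0 : 0 ≤ (-k) % 7 := Int.emod_nonneg _ (by norm_num)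
  set s : ℕ := ((-k) % 7).toNat with hs
  have hs1 : (s : ℤ) = -k - 7 * ((-k) / 7) := by
    rw [hs, Int.toNat_of_nonneg hm0, hm]
  set m : ℤ := -((-k) / 7) with hm'
  have hs2 : (s : ℝ) = -(k : ℝ) + 7 * (m : ℝ) := by
    have h2 : (s : ℤ) = -k + 7 * m := by
      rw [hs1, hm']
      ring
    exact_mod_cast h2
  have hsal : 0 < Real.sin al := Real.sin_pos_of_pos_of_lt_pi hal0 halpi
  have hst : 0 ≤ Real.sin t := Real.sin_nonneg_of_nonneg_of_le_pi ht0 (by linarith)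
  have hsat : 0 ≤ Real.sin (al - t) := Real.sin_nonneg_of_nonneg_of_le_pi (by linarith) (by linarith)
  refine ⟨s, ‖z‖ * Real.sin (al - t) / Real.sin al, ‖z‖ * Real.sin t / Real.sin al,
    by positivity, by positivity, ?_⟩
  have hz : (‖z‖ : ℂ) * exp (arg z * I) = z := Complex.norm_mul_exp_arg_mul_I z
  have h3 : exp (((2 * Real.pi * s / 7 : ℝ) : ℂ) * I) * z = (‖z‖ : ℂ) * exp ((t : ℂ) * I) := by
    conv_lhs => rw [← hz]
    rw [mul_left_comm, ← Complex.exp_add]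
    congr 1
    have h4 : ((2 * Real.pi * s / 7 : ℝ) : ℂ) * I + arg z * I = (t : ℂ) * I + (m : ℂ) * (2 * Real.pi * I) := by
      have h5 : 2 * Real.pi * s / 7 + arg z = t + m * (2 * Real.pi) := by
        rw [ht, hs2, hal]
        ring
      have h6 := congrArg (fun x : ℝ => (x : ℂ)) h5
      simp only [ofReal_add, ofReal_mul, ofReal_intCast, ofReal_ofNat] at h6
      rw [← add_mul, h6]
      ring
    rw [h4, Complex.exp_add, Complex.exp_int_mul_two_pi_mul_I, mul_one]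
  rw [h3]
  have h7 := a20_sin al t
  have hne : (Real.sin al : ℂ) ≠ 0 := ofReal_ne_zero.2 hsal.ne'
  have h8 : exp ((t : ℂ) * I) = ((Real.sin (al - t) : ℂ) + (Real.sin t : ℂ) * exp ((al : ℂ) * I)) / (Real.sin al : ℂ) := by
    rw [h7]
    field_simp
  rw [h8]
  push_cast
  field_simp

/-- PROOF (3.2). `(Om z).2 = (2/(1-|z|^2)) z = S (b' + c' e^{2 pi i/7})`, `S = sqrt (CC^2-1)`, `b', c' >= 0`; `a := (Om z).1 - CC (b'+c')`, so `Om z = a O + b' V 0 + c' V 1`. Pair with `Om q0 - O`: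
`0 <= mink (Om z) (Om q0) - mink (Om z) O = a (2 c72^2 - 2)`, so `a >= 0`. -/
theorem sector (z : Disc) (b c : ℝ) (hb : 0 ≤ b) (hc : 0 ≤ c) (hz : (z : ℂ) = b + c * exp (((2 * Real.pi / 7 : ℝ) : ℂ) * I)) :
    ∃ a b' c' : ℝ, 0 ≤ b' ∧ 0 ≤ c' ∧ Om (z : ℂ) = a • O + b' • V 0 + c' • V 1 ∧
      a * (2 * c72 ^ 2 - 2) = mink (Om z) (Om q0) - mink (Om z) O := by
  have hz2 := z.2
  have hq : 0 < 1 - ‖(z : ℂ)‖ ^ 2 := by nlinarith [norm_nonneg (z : ℂ)]
  have hS : 0 < Real.sqrt (CC ^ 2 - 1) := Real.sqrt_pos.2 a18_S_pos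
  set q : ℝ := 1 - ‖(z : ℂ)‖ ^ 2 with hqd
  set S : ℝ := Real.sqrt (CC ^ 2 - 1) with hSd
  refine ⟨(1 + ‖(z : ℂ)‖ ^ 2) / q - CC * (2 * b / (q * S) + 2 * c / (q * S)), 2 * b / (q * S), 2 * c / (q * S),
    by positivity, by positivity, ?_, ?_⟩
  all_goals
    have hOm : Om (z : ℂ) = ((1 + ‖(z : ℂ)‖ ^ 2) / q - CC * (2 * b / (q * S) + 2 * c / (q * S))) • O
        + (2 * b / (q * S)) • V 0 + (2 * c / (q * S)) • V 1 := by
      rw [V_eq, V_eq]
      unfold O Om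
      ext1
      · show (1 + ‖(z : ℂ)‖ ^ 2) / q = ((1 + ‖(z : ℂ)‖ ^ 2) / q - CC * (2 * b / (q * S) + 2 * c / (q * S))) * 1
          + (2 * b / (q * S)) * CC + (2 * c / (q * S)) * CC
        ring
      · show 2 * (z : ℂ) / ((q : ℝ) : ℂ) = ((1 + ‖(z : ℂ)‖ ^ 2) / q - CC * (2 * b / (q * S) + 2 * c / (q * S))) • (0 : ℂ)
          + (2 * b / (q * S)) • ((S : ℂ) * exp (((2 * Real.pi * (0 : ℕ) / 7 : ℝ) : ℂ) * I))
          + (2 * c / (q * S)) • ((S : ℂ) * exp (((2 * Real.pi * (1 : ℕ) / 7 : ℝ) : ℂ) * I))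
        have e0 : exp (((2 * Real.pi * (0 : ℕ) / 7 : ℝ) : ℂ) * I) = 1 := by simp
        have e1 : (2 * Real.pi * (1 : ℕ) / 7 : ℝ) = 2 * Real.pi / 7 := by simp
        have hqc : (q : ℂ) ≠ 0 := ofReal_ne_zero.2 hq.ne'
        have hSc : (S : ℂ) ≠ 0 := ofReal_ne_zero.2 hS.ne'
        rw [e0, e1, smul_zero, zero_add, real_smul, real_smul]
        rw [hz]
        generalize exp (((2 * Real.pi / 7 : ℝ) : ℂ) * I) = E
        push_cast
        field_simp
  · exact hOm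
  · rw [hOm]
    simp only [mink_add_left, mink_smul_left]
    rw [mink_comm O (Om q0), mink_q0_O, mink_comm (V 0) (Om q0), mink_q0_V0, mink_comm (V 1) (Om q0), mink_q0_V1,
      mink_O_O, mink_comm (V 0) O, mink_O_V, mink_comm (V 1) O, mink_O_V]
    ring

/-- PROOF (3.3). Nearest centre (`exists_nearest`): move it to `0` by `w^{-1}`, then rotate by `wA^s` (`sector_rot`); `0` is still a nearest centre, in particular not farther than `q0`. -/
theorem to_sector (z : Disc) : ∃ w : W, ∃ a b c : ℝ, 0 ≤ a ∧ 0 ≤ b ∧ 0 ≤ c ∧ Om (ac w z : ℂ) = a • O + b • V 0 + c • V 1 := by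
  obtain ⟨w, hw⟩ := exists_nearest z
  set z1 : Disc := ac w⁻¹ z with hz1
  have hnear : ∀ w' : W, mink (Om z1) (Om (o0 : ℂ)) ≤ mink (Om z1) (Om (ac w' o0)) := by
    intro w'
    have h1 := hw (w * w')
    have hz : z = ac w z1 := by
      rw [hz1, ← Homeomorph.mul_apply, ← map_mul, mul_inv_cancel, map_one]
      rfl
    have h2 : ac (w * w') o0 = ac w (ac w' o0) := by
      rw [map_mul]
      rfl
    rw [h2, hz, a20_inv, a20_inv] at h1
    exact h1
  obtain ⟨s, b, c, hb, hc, hbc⟩ := sector_rot (z1 : ℂ)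
  set z2 : Disc := ac (wA ^ s) z1 with hz2
  have hz2c : (z2 : ℂ) = b + c * exp (((2 * Real.pi / 7 : ℝ) : ℂ) * I) := by
    rw [hz2, a20_pow, hbc]
  obtain ⟨a, b', c', hb', hc', hOm, ha⟩ := sector z2 b c hb hc hz2c
  have h3 : mink (Om z2) O ≤ mink (Om z2) (Om q0) := by
    have h4 := hnear ((wA ^ s)⁻¹ * e0)
    have h5 : mink (Om z2) O = mink (Om z1) (Om (o0 : ℂ)) := by
      rw [← a20_inv (wA ^ s) z1 o0, a20_pow_o0, Om_o0]
    have h6 : mink (Om z2) (Om q0) = mink (Om z1) (Om (ac ((wA ^ s)⁻¹ * e0) o0)) := by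
      have h6' : ac (wA ^ s) (ac ((wA ^ s)⁻¹ * e0) o0) = q0 := by
        rw [← Homeomorph.mul_apply, ← map_mul, mul_inv_cancel_left]
        rfl
      rw [← a20_inv (wA ^ s) z1 (ac ((wA ^ s)⁻¹ * e0) o0), h6']
    rw [h5, h6]
    exact h4
  have h7 : 0 < 2 * c72 ^ 2 - 2 := by
    have := c72_bd.1
    nlinarith
  have ha0 : 0 ≤ a := by
    have h8 : 0 ≤ a * (2 * c72 ^ 2 - 2) := by linarith
    exact nonneg_of_mul_nonneg_left h8 h7
  refine ⟨wA ^ s * w⁻¹, a, b', c', ha0, hb', hc', ?_⟩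
  have h9 : ac (wA ^ s * w⁻¹) z = z2 := by
    rw [hz2, hz1, map_mul]
    rfl
  rw [h9, hOm]

end Pool.Agent.Lib.H11Q.A
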