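import Mathlib
import Pool.Agent.Lib.H11Q.AD
import Pool.Agent.Lib.H11Q.A01
import Pool.Agent.Lib.H11Q.A02
import Pool.Agent.Lib.H11Q.A17
import Pool.Agent.Lib.H11Q.A18
import Pool.Agent.Lib.H11Q.A19
import Pool.Agent.Lib.H11Q.A20
import Pool.Agent.Lib.H11Q.A23

/-! # H11Q (MP_a00a7b_an) module A, chunk A25: covering: the four cases (3.6) -/

set_option autoImplicit false

namespace Pool.Agent.Lib.H11Q.A

open Complex Set
open scoped ComplexConjugate Topology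

/-- The triangle with the vertices `0, v_0, m_0` in coordinates; `T'`: the triangle `0, v_1, m_0`. -/
def Tri (j : ℕ) (X : Mk) (x7 x3 x2 : ℝ) : Prop := 0 ≤ x7 ∧ 0 ≤ x3 ∧ 0 ≤ x2 ∧ X = x7 • O + x3 • V j + x2 • M0

theorem a25_mink (a b c a' b' c' : ℝ) (P Q R P' Q' R' : Mk) : mink (a • P + b • Q + c • R) (a' • P' + b' • Q' + c' • R') =
    a * a' * mink P P' + a * b' * mink P Q' + a * c' * mink P R' + b * a' * mink Q P' + b * b' * mink Q Q' + b * c' * mink Q R' +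
    c * a' * mink R P' + c * b' * mink R Q' + c * c' * mink R R' := by
  simp only [mink_add_left, mink_add_right, mink_smul_left, mink_smul_right]
  ring

theorem a25_V1_O : mink (V 1) O = CC := by rw [mink_comm]; exact mink_O_V 1
theorem a25_V0_O : mink (V 0) O = CC := by rw [mink_comm]; exact mink_O_V 0
theorem a25_M0_O : mink M0 O = c72 := by rw [mink_comm]; exact mink_O_M0
theorem a25_M0_V0 : mink M0 (V 0) = c32 := by rw [mink_comm]; exact mink_V0_M0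
theorem a25_M0_V1 : mink M0 (V 1) = c32 := by rw [mink_comm]; exact mink_V1_M0
theorem a25_V0_V1 : mink (V 0) (V 1) = 2 * c32 ^ 2 - 1 := mink_V_V' 0

/-- PROOF. `to_sector`: if `b >= c`: `a O + b V 0 + c V 1 = a O + (b - c) V 0 + (2 c32 c) M0`; if `c >= b`: `a O + (c - b) V 1 + (2 c32 b) M0`. -/
theorem to_Tri (z : Disc) : ∃ w : W, ∃ j : ℕ, (j = 0 ∨ j = 1) ∧ ∃ x7 x3 x2 : ℝ, Tri j (Om (ac w z : ℂ)) x7 x3 x2 := by
  obtain ⟨w, a, b, c, ha, hb, hc, h⟩ := to_sector z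
  have h32 := c32_bd
  have hp : 0 < c32 := by linarith [h32.1]
  have hM : ∀ t : ℝ, (2 * c32 * t) • M0 = t • V 0 + t • V 1 := by
    intro t
    unfold M0
    rw [smul_smul, show 2 * c32 * t * (1 / (2 * c32)) = t by field_simp, smul_add]
  rcases le_total c b with hcb | hbc
  · refine ⟨w, 0, Or.inl rfl, a, b - c, 2 * c32 * c, ha, by linarith, by positivity, ?_⟩
    rw [h, hM]
    module
  · refine ⟨w, 1, Or.inr rfl, a, c - b, 2 * c32 * b, ha, by linarith, by positivity, ?_⟩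
    rw [h, hM]
    module

/-- PROOF. Gram numbers of A19: for `j = 0` and for `j = 1` the Gram matrix of `O, V j, M0` is the one of `Bf`. -/
theorem Tri_self {j : ℕ} (hj : j = 0 ∨ j = 1) {z : Disc} {x7 x3 x2 : ℝ} (h : Tri j (Om (z : ℂ)) x7 x3 x2) : Bf x7 x3 x2 x7 x3 x2 = 1 := by
  have h1 : mink (Om (z : ℂ)) (Om (z : ℂ)) = 1 := mink_Om_self z.2
  rw [← h1, h.2.2.2, a25_mink]
  unfold Bf
  rcases hj with rfl | rfl
  · rw [mink_O_O, mink_O_V, mink_O_M0, a25_V0_O, mink_V_V, mink_V0_M0, a25_M0_O, a25_M0_V0, mink_M0_M0]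
    ring
  · rw [mink_O_O, mink_O_V, mink_O_M0, a25_V1_O, mink_V_V, mink_V1_M0, a25_M0_O, a25_M0_V1, mink_M0_M0]
    ring

theorem Tri_same {j : ℕ} (hj : j = 0 ∨ j = 1) {X Y : Mk} {x7 x3 x2 y7 y3 y2 : ℝ} (h : Tri j X x7 x3 x2) (k : Tri j Y y7 y3 y2) :
    mink X Y = Bf x7 x3 x2 y7 y3 y2 := by
  rw [h.2.2.2, k.2.2.2, a25_mink]
  unfold Bf
  rcases hj with rfl | rfl
  · rw [mink_O_O, mink_O_V, mink_O_M0, a25_V0_O, mink_V_V, mink_V0_M0, a25_M0_O, a25_M0_V0, mink_M0_M0]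
    ring
  · rw [mink_O_O, mink_O_V, mink_O_M0, a25_V1_O, mink_V_V, mink_V1_M0, a25_M0_O, a25_M0_V1, mink_M0_M0]
    ring

/-- PROOF. `X = x7 O + x3 V 0 + x2 M0`, `Y = y7 O + y3 V 1 + y2 M0`. Only the product `V 0, V 1` differs from the Gram matrix of `Bf`: `mink (V 0) (V 1) = 2 c32^2 - 1 = 1 + (2 c32^2 - 2)`. -/
theorem Tri_a {X Y : Mk} {x7 x3 x2 y7 y3 y2 : ℝ} (h : Tri 0 X x7 x3 x2) (k : Tri 1 Y y7 y3 y2) :
    mink X Y = Bf x7 x3 x2 y7 y3 y2 + (2 * c32 ^ 2 - 2) * (x3 * y3) := by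
  rw [h.2.2.2, k.2.2.2, a25_mink]
  unfold Bf
  rw [mink_O_O, mink_O_V, mink_O_M0, a25_V0_O, a25_V0_V1, mink_V0_M0, a25_M0_O, a25_M0_V1, mink_M0_M0]
  ring

theorem a25_linAinv_V1 : (rho wA⁻¹).lin (V 1) = V 0 := by
  have h := lin_wA_V 0
  rw [zero_add] at h
  rw [← h, ← lin_mul, ← map_mul, inv_mul_cancel, map_one, lin_one]

theorem a25_linAinv_O : (rho wA⁻¹).lin O = O := by
  conv_lhs => rw [← lin_wA_O]
  rw [← lin_mul, ← map_mul, inv_mul_cancel, map_one, lin_one]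

theorem a25_O_A : mink O ((rho wA⁻¹).lin M0) = c72 := by
  conv_lhs => rw [← a25_linAinv_O]
  rw [mink_lin, mink_O_M0]

theorem a25_V0_A : mink (V 0) ((rho wA⁻¹).lin M0) = c32 := by
  conv_lhs => rw [← a25_linAinv_V1]
  rw [mink_lin, mink_V1_M0]

/-- PROOF. `(rho wA^{-1}).lin Y = y7 O + y3 V 0 + y2 (wA^{-1} M0)`; `mink_M0_Mm`; `mink (V 0) (wA^{-1} M0) = mink (V 1) M0 = c32`, `mink O (wA^{-1} M0) = mink O M0 = c72`. -/
theorem Tri_b {X Y : Mk} {x7 x3 x2 y7 y3 y2 : ℝ} (h : Tri 0 X x7 x3 x2) (k : Tri 1 Y y7 y3 y2) :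
    mink X ((rho wA⁻¹).lin Y) = Bf x7 x3 x2 y7 y3 y2 + (1 / 2 - 2 * Real.sin (Real.pi / 7) ^ 2) * (x2 * y2) := by
  rw [h.2.2.2, k.2.2.2, lin_add, lin_add, lin_smul, lin_smul, lin_smul, a25_linAinv_O, a25_linAinv_V1, a25_mink]
  unfold Bf
  rw [mink_O_O, mink_O_V, a25_O_A, a25_V0_O, mink_V_V, a25_V0_A, a25_M0_O, a25_M0_V0, mink_M0_Mm]
  ring

/-- PROOF. `(rho e0).lin Y = y7 Om q0 + y3 V 0 + y2 M0` (`e0_v1`, `lin_e0`), Gram numbers of `q0` (A19). -/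
theorem Tri_c {X Y : Mk} {x7 x3 x2 y7 y3 y2 : ℝ} (h : Tri 0 X x7 x3 x2) (k : Tri 1 Y y7 y3 y2) :
    mink X ((rho e0).lin Y) = Bf x7 x3 x2 y7 y3 y2 + (2 * c72 ^ 2 - 2) * (x7 * y7) := by
  have h1 : (rho e0).lin O = Om (q0 : ℂ) := by
    rw [lin_e0, mink_O_M0, Om_q0]
  have h2 : (rho e0).lin (V 1) = V 0 := by
    rw [lin_e0, mink_V1_M0]
    have h32 := c32_bd
    have hp : c32 ≠ 0 := by linarith [h32.1]
    unfold M0
    rw [smul_smul, show 2 * c32 * (1 / (2 * c32)) = 1 by field_simp, one_smul, add_sub_cancel_right]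
  have h3 : (rho e0).lin M0 = M0 := by
    rw [lin_e0, mink_M0_M0]
    module
  have h4 : mink O (Om (q0 : ℂ)) = 2 * c72 ^ 2 - 1 := by rw [mink_comm]; exact mink_q0_O
  have h5 : mink (V 0) (Om (q0 : ℂ)) = CC := by rw [mink_comm]; exact mink_q0_V0
  have h6 : mink M0 (Om (q0 : ℂ)) = c72 := by rw [mink_comm]; exact mink_q0_M0
  rw [h.2.2.2, k.2.2.2, lin_add, lin_add, lin_smul, lin_smul, lin_smul, h1, h2, h3, a25_mink]
  unfold Bf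
  rw [h4, mink_O_V, mink_O_M0, h5, mink_V_V, mink_V0_M0, h6, a25_M0_V0, mink_M0_M0]
  ring

theorem a25_move (w1 w2 u : W) (X Y : Disc) :
    mink (Om X) (Om (ac (w1⁻¹ * u * w2) Y : ℂ)) = mink (Om (ac w1 X : ℂ)) ((rho u).lin (Om (ac w2 Y : ℂ))) := by
  have e : w1 * (w1⁻¹ * u * w2) = u * w2 := by group
  rw [Om_ac, Om_ac, Om_ac, ← mink_lin (rho w1), ← lin_mul, ← map_mul, ← lin_mul, ← map_mul, e]

theorem a25_vert {j : ℕ} (hj : j = 0 ∨ j = 1) {X : Disc} {w : W} {x7 x3 x2 : ℝ} (h : Tri j (Om (ac w X : ℂ)) x7 x3 x2) :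
    ∃ w1 : W, mink (Om (ac w1 X : ℂ)) O = x7 + CC * x3 + c72 * x2 ∧ mink (Om (ac w1 X : ℂ)) (V 0) = CC * x7 + x3 + c32 * x2 := by
  rcases hj with rfl | rfl
  · refine ⟨w, ?_, ?_⟩
    · rw [h.2.2.2]
      simp only [mink_add_left, mink_smul_left]
      rw [mink_O_O, a25_V0_O, a25_M0_O]
      ring
    · rw [h.2.2.2]
      simp only [mink_add_left, mink_smul_left]
      rw [mink_O_V, mink_V_V, a25_M0_V0]
      ring
  · have e : Om (ac (wA⁻¹ * w) X : ℂ) = (rho wA⁻¹).lin (Om (ac w X : ℂ)) := by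
      rw [Om_ac, Om_ac, ← lin_mul, ← map_mul]
    refine ⟨wA⁻¹ * w, ?_, ?_⟩
    · rw [e]
      conv_lhs => rw [← a25_linAinv_O]
      rw [mink_lin, h.2.2.2]
      simp only [mink_add_left, mink_smul_left]
      rw [mink_O_O, a25_V1_O, a25_M0_O]
      ring
    · rw [e]
      conv_lhs => rw [← a25_linAinv_V1]
      rw [mink_lin, h.2.2.2]
      simp only [mink_add_left, mink_smul_left]
      rw [mink_O_V, mink_V_V, a25_M0_V1]
      ring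

theorem a25_mixed {X Y : Mk} {x7 x3 x2 y7 y3 y2 : ℝ} (h : Tri 0 X x7 x3 x2) (k : Tri 1 Y y7 y3 y2) :
    ∃ u : W, mink X ((rho u).lin Y) ≤ Bf x7 x3 x2 y7 y3 y2 + 638 / 10000 * (x7 * y7 + x3 * y3 + x2 * y2) := by
  rcases min3 (Bf x7 x3 x2 y7 y3 y2) (x3 * y3) (x2 * y2) (x7 * y7) (mul_nonneg h.2.1 k.2.1)
    (mul_nonneg h.2.2.1 k.2.2.1) (mul_nonneg h.1 k.1) with m | m | m
  · exact ⟨1, by rw [map_one, lin_one, Tri_a h k]; exact m⟩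
  · exact ⟨wA⁻¹, by rw [Tri_b h k]; exact m⟩
  · exact ⟨e0, by rw [Tri_c h k]; exact m⟩

theorem a25_Bf_comm (x7 x3 x2 y7 y3 y2 : ℝ) : Bf x7 x3 x2 y7 y3 y2 = Bf y7 y3 y2 x7 x3 x2 := by
  unfold Bf
  ring

theorem a25_same_le {j : ℕ} (hj : j = 0 ∨ j = 1) {X Y : Mk} {x7 x3 x2 y7 y3 y2 : ℝ} (h : Tri j X x7 x3 x2) (k : Tri j Y y7 y3 y2) :
    ∃ u : W, mink X ((rho u).lin Y) ≤ Bf x7 x3 x2 y7 y3 y2 + 638 / 10000 * (x7 * y7 + x3 * y3 + x2 * y2) := by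
  refine ⟨1, ?_⟩
  rw [map_one, lin_one, Tri_same hj h k]
  have h1 := mul_nonneg h.1 k.1
  have h2 := mul_nonneg h.2.1 k.2.1
  have h3 := mul_nonneg h.2.2.1 k.2.2.1
  linarith

/-- PROOF (3.6). `to_Tri` for `X` and `Y`: `w1 X` in `Tri j`, `w2 Y` in `Tri j'`. If `j = j'`: `w = w1^{-1} w2` (`mink (Om X) (Om (w1^{-1} w2 Y)) = mink (Om (w1 X)) (Om (w2 Y))`, `Tri_same`). If `j = 0, j' = 1`: `min3` with
`Tri_a, Tri_b, Tri_c` gives `u` in `{1, wA^{-1}, e0}`, `w = w1^{-1} u w2`. If `j = 1, j' = 0`: exchange the roles, `w = w1^{-1} u^{-1} w2`. The last four equations: for `j = 0` the Gram numbers; for `j = 1` replace `w1` by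
`wA^{-1} w1` (`mink (Om (wA^{-1} w1 X)) (V 0) = mink (Om (w1 X)) (V 1)`). -/
theorem master (X Y : Disc) : ∃ x7 x3 x2 y7 y3 y2 : ℝ, 0 ≤ x7 ∧ 0 ≤ x3 ∧ 0 ≤ x2 ∧ 0 ≤ y7 ∧ 0 ≤ y3 ∧ 0 ≤ y2 ∧
    Bf x7 x3 x2 x7 x3 x2 = 1 ∧ Bf y7 y3 y2 y7 y3 y2 = 1 ∧
    (∃ w : W, mink (Om X) (Om (ac w Y : ℂ)) ≤ Bf x7 x3 x2 y7 y3 y2 + 638 / 10000 * (x7 * y7 + x3 * y3 + x2 * y2)) ∧
    (∃ w1 : W, mink (Om (ac w1 X : ℂ)) O = x7 + CC * x3 + c72 * x2 ∧ mink (Om (ac w1 X : ℂ)) (V 0) = CC * x7 + x3 + c32 * x2) ∧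
    (∃ w2 : W, mink (Om (ac w2 Y : ℂ)) O = y7 + CC * y3 + c72 * y2 ∧ mink (Om (ac w2 Y : ℂ)) (V 0) = CC * y7 + y3 + c32 * y2) := by
  obtain ⟨w1, j1, hj1, x7, x3, x2, h⟩ := to_Tri X
  obtain ⟨w2, j2, hj2, y7, y3, y2, k⟩ := to_Tri Y
  refine ⟨x7, x3, x2, y7, y3, y2, h.1, h.2.1, h.2.2.1, k.1, k.2.1, k.2.2.1, Tri_self hj1 h, Tri_self hj2 k, ?_,
    a25_vert hj1 h, a25_vert hj2 k⟩
  rcases hj1 with rfl | rfl <;> rcases hj2 with rfl | rfl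
  · obtain ⟨u, hu⟩ := a25_same_le (Or.inl rfl) h k
    exact ⟨w1⁻¹ * u * w2, by rw [a25_move]; exact hu⟩
  · obtain ⟨u, hu⟩ := a25_mixed h k
    exact ⟨w1⁻¹ * u * w2, by rw [a25_move]; exact hu⟩
  · obtain ⟨u, hu⟩ := a25_mixed k h
    refine ⟨w1⁻¹ * u⁻¹ * w2, ?_⟩
    rw [a25_move, ← mink_lin (rho u), ← lin_mul, ← map_mul, mul_inv_cancel, map_one, lin_one, mink_comm, a25_Bf_comm]
    linarith [hu]
  · obtain ⟨u, hu⟩ := a25_same_le (Or.inr rfl) h k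
    exact ⟨w1⁻¹ * u * w2, by rw [a25_move]; exact hu⟩

end Pool.Agent.Lib.H11Q.A
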