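import Mathlib
import Pool.Agent.Lib.H11Q.AD
import Pool.Agent.Lib.H11Q.A02
import Pool.Agent.Lib.H11Q.A03
import Pool.Agent.Lib.H11Q.A11
import Pool.Agent.Lib.H11Q.A18
import Pool.Agent.Lib.H11Q.A24
import Pool.Agent.Lib.H11Q.A25

/-! # H11Q (MP_a00a7b_an) module A, chunk A26: covering, near-equality, diameter (3.6, 3.7, 3.8) -/

set_option autoImplicit false

namespace Pool.Agent.Lib.H11Q.A

open Complex Set
open scoped ComplexConjugate Topology

/-- PROOF. `master`, `Bf_le`. -/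
theorem cover (X Y : Disc) : ∃ w : W, mink (Om X) (Om (ac w Y)) ≤ CC := by
  obtain ⟨x7, x3, x2, y7, y3, y2, a1, a2, a3, b1, b2, b3, hx, hy, ⟨w, hw⟩, _, _⟩ := master X Y
  exact ⟨w, hw.trans (Bf_le a1 a2 a3 b1 b2 b3 hx hy)⟩

theorem a26_O (z : Disc) : mink (Om z) O = 1 + 2 * sh z 0 := by
  rw [← mink_Om z.2 (by simp : ‖(0 : ℂ)‖ < 1), Om_zero]
  rfl

theorem a26_V0 (z : Disc) : mink (Om z) (V 0) = 1 + 2 * sh z vv := by
  have h : V 0 = Om (v0 : ℂ) := by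
    unfold V vj
    rw [pow_zero, map_one]
    rfl
  rw [h, mink_Om z.2 v0.2]
  rfl

/-- PROOF. `master`, `near_pure`, `mink_Om`: `mink (Om z) O = 1 + 2 sh z 0`, `mink (Om z) (V 0) = 1 + 2 sh z vv` (`V 0 = Om v0`). -/
theorem near {δ : ℝ} (hδ : 0 < δ) : ∃ ε > 0, ∀ X Y : Disc,
    (∃ w : W, mink (Om X) (Om (ac w Y)) ≤ CC - ε) ∨
    (∃ w1 w2 : W, sh (ac w1 X) 0 < δ ∧ sh (ac w2 Y) vv < δ) ∨
    (∃ w1 w2 : W, sh (ac w1 X) vv < δ ∧ sh (ac w2 Y) 0 < δ) := by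
  obtain ⟨ε, hε, h⟩ := near_pure hδ
  refine ⟨ε, hε, fun X Y => ?_⟩
  obtain ⟨x7, x3, x2, y7, y3, y2, a1, a2, a3, b1, b2, b3, hx, hy, ⟨w, hw⟩, ⟨w1, h1, h1'⟩, ⟨w2, h2, h2'⟩⟩ := master X Y
  rw [a26_O] at h1 h2
  rw [a26_V0] at h1' h2'
  rcases h x7 x3 x2 y7 y3 y2 a1 a2 a3 b1 b2 b3 hx hy with h3 | ⟨h3, h4⟩ | ⟨h3, h4⟩
  · exact Or.inl ⟨w, hw.trans h3⟩
  · exact Or.inr (Or.inl ⟨w1, w2, by linarith, by linarith⟩)
  · exact Or.inr (Or.inr ⟨w1, w2, by linarith, by linarith⟩)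

/-- PROOF. `cosh (2 arsinh t) = 1 + 2 t^2`. -/
theorem cosh_cc : Real.cosh cc = CC := by
  unfold cc
  have h := one_lt_CC
  rw [Real.cosh_two_mul, Real.cosh_sq, Real.sinh_arsinh, Real.sq_sqrt (by linarith)]
  ring

/-- PROOF. `Subgroup.closure` of the two generators is the range of `ac` (`FreeGroup.lift` and `MonoidHom.range`, `FreeGroup.range_lift..`, or closure induction). -/
theorem mem_Delta (g : Disc ≃ₜ Disc) : g ∈ Delta ↔ ∃ w : W, g = ac w := by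
  have hA : ac wA = SU.act gA := by
    show SU.act (rho wA) = _
    rw [rho_wA]
  have hB : ac wB = SU.act gB := by
    show SU.act (rho wB) = _
    rw [rho_wB]
  constructor
  · intro hg
    unfold Delta at hg
    induction hg using Subgroup.closure_induction with
    | mem x hx =>
      rcases hx with rfl | rfl
      · exact ⟨wA, hA.symm⟩
      · exact ⟨wB, hB.symm⟩
    | one => exact ⟨1, (map_one ac).symm⟩
    | mul x y _ _ hx hy =>
      obtain ⟨a, rfl⟩ := hx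
      obtain ⟨b, rfl⟩ := hy
      exact ⟨a * b, (map_mul ac a b).symm⟩
    | inv x _ hx =>
      obtain ⟨a, rfl⟩ := hx
      exact ⟨a⁻¹, (map_inv ac a).symm⟩
  · rintro ⟨w, rfl⟩
    have hAm : ac wA ∈ Delta := by
      rw [hA]
      exact Subgroup.subset_closure (Or.inl rfl)
    have hBm : ac wB ∈ Delta := by
      rw [hB]
      exact Subgroup.subset_closure (Or.inr rfl)
    have hof : ∀ i : Fin 2, ac (FreeGroup.of i) ∈ Delta := by
      intro i
      fin_cases i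
      · exact hAm
      · exact hBm
    induction w using FreeGroup.induction_on with
    | C1 =>
      rw [map_one]
      exact Delta.one_mem
    | of i => exact hof i
    | inv_of i _ =>
      rw [map_inv]
      exact Delta.inv_mem (hof i)
    | mul x y hx hy =>
      rw [map_mul]
      exact Delta.mul_mem hx hy

theorem a26_cc_nonneg : 0 ≤ cc := by
  unfold cc
  have := Real.arsinh_nonneg_iff.2 (Real.sqrt_nonneg ((CC - 1) / 2))
  linarith

theorem a26_le {z w : Disc} (h : mink (Om z) (Om w) ≤ CC) : hd z w ≤ cc := by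
  rw [← cosh_hd' z.2 w.2, ← cosh_cc, Real.cosh_le_cosh, abs_of_nonneg (hd_nonneg _ _), abs_of_nonneg a26_cc_nonneg] at h
  exact h

theorem a26_ge {z w : Disc} (h : CC ≤ mink (Om z) (Om w)) : cc ≤ hd z w := by
  rw [← cosh_hd' z.2 w.2, ← cosh_cc, Real.cosh_le_cosh, abs_of_nonneg (hd_nonneg _ _), abs_of_nonneg a26_cc_nonneg] at h
  exact h

/-- PROOF (3.8). Every inner infimum is `<= cc` (`cover`, `cosh_hd'`, `cosh_cc`); for `x = v0, y = o0` it is `>= cc` (`key'`). -/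
theorem diam : diamO = cc := by
  have hbdd : ∀ x y : Disc, BddBelow {t : ℝ | ∃ g ∈ Delta, t = hd x (g y)} := by
    intro x y
    refine ⟨0, ?_⟩
    rintro t ⟨g, _, rfl⟩
    exact hd_nonneg _ _
  have hle : ∀ r ∈ {r : ℝ | ∃ x y : Disc, r = sInf {t : ℝ | ∃ g ∈ Delta, t = hd x (g y)}}, r ≤ cc := by
    rintro r ⟨x, y, rfl⟩
    obtain ⟨w, hw⟩ := cover x y
    exact (csInf_le (hbdd x y) ⟨ac w, (mem_Delta _).2 ⟨w, rfl⟩, rfl⟩).trans (a26_le hw)
  apply le_antisymm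
  · exact csSup_le ⟨_, o0, o0, rfl⟩ hle
  · have h1 : cc ≤ sInf {t : ℝ | ∃ g ∈ Delta, t = hd v0 (g o0)} := by
      refine le_csInf ⟨_, 1, Delta.one_mem, rfl⟩ ?_
      rintro t ⟨g, hg, rfl⟩
      obtain ⟨w, rfl⟩ := (mem_Delta g).1 hg
      have h2 := key' w 1
      rw [map_one] at h2
      exact a26_ge h2
    exact h1.trans (le_csSup ⟨cc, hle⟩ ⟨v0, o0, rfl⟩)

end Pool.Agent.Lib.H11Q.A
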