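import Mathlib
import Pool.Agent.Lib.H11Q.AD
import Pool.Agent.Lib.H11Q.A02
import Pool.Agent.Lib.H11Q.A05
import Pool.Agent.Lib.H11Q.A11
import Pool.Agent.Lib.H11Q.A18
import Pool.Agent.Lib.H11Q.A19
import Pool.Agent.Lib.H11Q.A20

/-! # H11Q (MP_a00a7b_an) module A, chunk A22: the stabilizer of 0 (3.5) -/

set_option autoImplicit false

namespace Pool.Agent.Lib.H11Q.A

open Complex Set
open scoped ComplexConjugate Topology

theorem a22_red (t : ℝ) : ∃ s : ℕ, ∃ t' : ℝ, 0 ≤ t' ∧ t' < 2 * Real.pi / 7 ∧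
    exp (((2 * Real.pi * s / 7 : ℝ) : ℂ) * I) * exp ((t : ℂ) * I) = exp ((t' : ℂ) * I) := by
  set al : ℝ := 2 * Real.pi / 7 with hal
  have hal0 : 0 < al := by positivity
  set k : ℤ := ⌊t / al⌋ with hk
  have ht0 : 0 ≤ t - k * al := by
    have h1 := Int.floor_le (t / al)
    rw [← hk, le_div_iff₀ hal0] at h1
    linarith
  have ht1 : t - k * al < al := by
    have h1 := Int.lt_floor_add_one (t / al)
    rw [← hk, div_lt_iff₀ hal0] at h1
    linarith
  have hm : ((-k) % 7) = -k - 7 * ((-k) / 7) := Int.emod_def _ _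
  have hm0 : 0 ≤ (-k) % 7 := Int.emod_nonneg _ (by norm_num)
  refine ⟨((-k) % 7).toNat, t - k * al, ht0, ht1, ?_⟩
  have hs1 : ((((-k) % 7).toNat : ℕ) : ℤ) = -k + 7 * (-((-k) / 7)) := by
    rw [Int.toNat_of_nonneg hm0, hm]
    ring
  set s : ℕ := ((-k) % 7).toNat with hs
  set m : ℤ := -((-k) / 7) with hm'
  have hs2 : (s : ℝ) = -(k : ℝ) + 7 * (m : ℝ) := by exact_mod_cast hs1
  rw [← Complex.exp_add]
  have h4 : ((2 * Real.pi * s / 7 : ℝ) : ℂ) * I + (t : ℂ) * I = ((t - k * al : ℝ) : ℂ) * I + (m : ℂ) * (2 * Real.pi * I) := by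
    have h5 : 2 * Real.pi * s / 7 + t = (t - k * al) + m * (2 * Real.pi) := by
      rw [hs2, hal]
      ring
    have h6 := congrArg (fun x : ℝ => (x : ℂ)) h5
    simp only [ofReal_add, ofReal_mul, ofReal_intCast, ofReal_ofNat] at h6
    rw [← add_mul, h6]
    ring
  rw [h4, Complex.exp_add, Complex.exp_int_mul_two_pi_mul_I, mul_one]

theorem a22_inv_pow (s : ℕ) (w : W) (h : ac (wA ^ s * w) = 1) : ac w = ac (wA ^ (6 * s)) := by
  have h1 : ac (wA ^ (7 * s)) = 1 := by
    apply Homeomorph.ext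
    intro z
    apply Subtype.ext
    rw [a20_pow]
    have h2 : ((2 * Real.pi * ((7 * s : ℕ) : ℝ) / 7 : ℝ) : ℂ) * I = (s : ℤ) * (2 * Real.pi * I) := by
      push_cast
      ring
    rw [h2, Complex.exp_int_mul_two_pi_mul_I, one_mul]
    rfl
  have h2 : ac (wA ^ (6 * s)) * ac (wA ^ s) = 1 := by
    rw [← map_mul, ← pow_add, show 6 * s + s = 7 * s by ring, h1]
  rw [map_mul] at h
  have h3 : ac (wA ^ s) = (ac w)⁻¹ := eq_inv_of_mul_eq_one_left h
  rw [h3] at h2
  exact (mul_inv_eq_one.1 h2).symm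

theorem a22_contra (t : ℝ) (ht0 : 0 < t) (ht1 : t < 2 * Real.pi / 7) (w : W)
    (h : ∀ z : Disc, ((ac w z : Disc) : ℂ) = exp ((t : ℂ) * I) * z) : False := by
  set al : ℝ := 2 * Real.pi / 7 with hal
  have hal0 : 0 < al := by positivity
  have halpi : al < Real.pi := by
    rw [hal]
    linarith [Real.pi_pos]
  have hsal : 0 < Real.sin al := Real.sin_pos_of_pos_of_lt_pi hal0 halpi
  have hst : 0 ≤ Real.sin t := Real.sin_nonneg_of_nonneg_of_le_pi ht0.le (by linarith)
  have hsat : 0 ≤ Real.sin (al - t) := Real.sin_nonneg_of_nonneg_of_le_pi (by linarith) (by linarith)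
  have hvv := vv_pos
  have hfix : ac w o0 = o0 := by
    apply Subtype.ext
    rw [h]
    show _ * (0 : ℂ) = 0
    rw [mul_zero]
  set z : Disc := ac w v0 with hz
  have hne : (Real.sin al : ℂ) ≠ 0 := ofReal_ne_zero.2 hsal.ne'
  have hzc : (z : ℂ) = ((vv * Real.sin (al - t) / Real.sin al : ℝ) : ℂ)
      + ((vv * Real.sin t / Real.sin al : ℝ) : ℂ) * exp (((2 * Real.pi / 7 : ℝ) : ℂ) * I) := by
    rw [hz, h]
    show _ * (vv : ℂ) = _
    have h7 := a20_sin al t
    have h8 : exp ((t : ℂ) * I) = ((Real.sin (al - t) : ℂ) + (Real.sin t : ℂ) * exp ((al : ℂ) * I)) / (Real.sin al : ℂ) := by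
      rw [h7]
      field_simp
    rw [h8, ← hal]
    generalize exp ((al : ℂ) * I) = E
    rw [ofReal_div, ofReal_div, ofReal_mul, ofReal_mul]
    ring
  obtain ⟨a, b', c', hb', hc', hOm, ha⟩ := sector z _ _ (by positivity) (by positivity) hzc
  have h9 : mink (Om z) O = CC := by
    have h10 := a20_inv w v0 o0
    rw [hfix, Om_o0] at h10
    rw [hz, h10]
    have h11 := mink_O_V 0
    rw [mink_comm] at h11
    unfold V vj at h11
    rw [pow_zero, map_one] at h11
    exact h11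
  have h12 : CC ≤ mink (Om z) (Om q0) := key' e0 w
  have h7 : 0 < 2 * c72 ^ 2 - 2 := by
    have := c72_bd.1
    nlinarith
  have ha0 : 0 ≤ a := by
    have h8 : 0 ≤ a * (2 * c72 ^ 2 - 2) := by linarith
    exact nonneg_of_mul_nonneg_left h8 h7
  -- coordinates
  have hS : 0 < Real.sqrt (CC ^ 2 - 1) := Real.sqrt_pos.2 a18_S_pos
  have hOmz : Om (z : ℂ) = (CC, (Real.sqrt (CC ^ 2 - 1) : ℂ) * exp ((t : ℂ) * I)) := by
    have hn : ‖(z : ℂ)‖ = vv := by
      rw [hz, h, norm_mul, norm_exp_ofReal_mul_I, one_mul]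
      show ‖(vv : ℂ)‖ = vv
      rw [Complex.norm_real, Real.norm_eq_abs, abs_of_pos vv_pos]
    unfold Om
    rw [hn, a18_X]
    ext1
    · rfl
    · show 2 * (z : ℂ) / ((1 - vv ^ 2 : ℝ) : ℂ) = _
      rw [← a18_Y, hz, h]
      show 2 * (exp ((t : ℂ) * I) * (vv : ℂ)) / ((1 - vv ^ 2 : ℝ) : ℂ) = _
      push_cast
      ring
  rw [hOmz, V_eq, V_eq] at hOm
  have e1 := congrArg Prod.fst hOm
  have e2 := congrArg Prod.snd hOm
  unfold O at e1 e2
  simp only [Prod.smul_mk, Prod.mk_add_mk, smul_eq_mul, mul_one, smul_zero, zero_add] at e1 e2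
  set S : ℝ := Real.sqrt (CC ^ 2 - 1) with hSd
  have e0 : (2 * Real.pi * ((0 : ℕ) : ℝ) / 7 : ℝ) = 0 := by simp
  have e1' : (2 * Real.pi * ((1 : ℕ) : ℝ) / 7 : ℝ) = al := by simp [hal]
  rw [e0] at e2
  have e3 : (2 * Real.pi * (((0 : ℕ) + 1 : ℕ) : ℝ) / 7 : ℝ) = al := by simp [hal]
  simp only [exp_ofReal_mul_I, e1'] at e2
  have r2 := congrArg re e2
  have i2 := congrArg im e2
  simp only [real_smul, mul_re, mul_im, add_re, add_im, ofReal_re, ofReal_im, I_re, I_im, Real.cos_zero, Real.sin_zero,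
    mul_zero, zero_mul, sub_zero, add_zero, zero_add, mul_one] at r2 i2
  have r3 : Real.cos t = b' + c' * Real.cos al := by
    apply mul_left_cancel₀ hS.ne'
    linarith
  have i3 : Real.sin t = c' * Real.sin al := by
    apply mul_left_cancel₀ hS.ne'
    linarith
  have hb1 : b' * Real.sin al = Real.sin (al - t) := by
    rw [Real.sin_sub, i3, r3]
    ring
  have hsum : Real.sin al < Real.sin (al - t) + Real.sin t := by
    have h20 : Real.sin (al - t) + Real.sin t = 2 * Real.sin (al / 2) * Real.cos (al / 2 - t) := by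
      have h21 := Real.sin_add (al / 2) (al / 2 - t)
      have h22 := Real.sin_sub (al / 2) (al / 2 - t)
      rw [show al / 2 + (al / 2 - t) = al - t by ring] at h21
      rw [show al / 2 - (al / 2 - t) = t by ring] at h22
      rw [h21, h22]
      ring
    have h23 : Real.sin al = 2 * Real.sin (al / 2) * Real.cos (al / 2) := by
      rw [← Real.sin_two_mul]
      congr 1
      ring
    have h24 : 0 < Real.sin (al / 2) := Real.sin_pos_of_pos_of_lt_pi (by linarith) (by linarith)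
    have h25 : Real.cos (al / 2) < Real.cos (al / 2 - t) := by
      rw [← Real.cos_abs (al / 2 - t)]
      refine Real.cos_lt_cos_of_nonneg_of_le_pi (abs_nonneg _) (by linarith) ?_
      rw [abs_lt]
      constructor <;> linarith
    rw [h20, h23]
    exact mul_lt_mul_of_pos_left h25 (by linarith)
  have h26 : 1 < b' + c' := by
    have h27 : Real.sin al * 1 < Real.sin al * (b' + c') := by
      rw [mul_one]
      linarith
    exact lt_of_mul_lt_mul_left h27 hsal.le
  have hC := one_lt_CC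
  nlinarith

/-- PROOF. `(rho w).app 0 = b/conj a = 0` so `b = 0`, `|a| = 1`: `ac w` is multiplication by `a^2`. -/
theorem rotation_of_fix (w : W) (h : ac w o0 = o0) : ∃ t : ℝ, ∀ z : Disc, ((ac w z : Disc) : ℂ) = exp ((t : ℂ) * I) * z := by
  have h1 : (rho w).app 0 = 0 := congrArg (fun z : Disc => (z : ℂ)) h
  have hg := (rho w).h
  have hb : (rho w).b = 0 := by
    unfold SU.app at h1
    rw [mul_zero, mul_zero, zero_add, zero_add, div_eq_zero_iff] at h1
    rcases h1 with h1 | h1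
    · exact h1
    · exfalso
      have h2 : (rho w).a = 0 := by
        have := congrArg conj h1
        rwa [conj_conj, map_zero] at this
      rw [h2, map_zero] at hg
      have := normSq_nonneg (rho w).b
      linarith
  rw [hb, map_zero, sub_zero, normSq_eq_norm_sq] at hg
  have ha : ‖(rho w).a‖ = 1 := by
    have h2 := norm_nonneg (rho w).a
    nlinarith
  have ha0 : (rho w).a ≠ 0 := by
    intro h2
    rw [h2, norm_zero] at ha
    exact zero_ne_one ha
  have hexp : exp (arg (rho w).a * I) = (rho w).a := by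
    have := Complex.norm_mul_exp_arg_mul_I (rho w).a
    rwa [ha, ofReal_one, one_mul] at this
  refine ⟨2 * arg (rho w).a, fun z => ?_⟩
  rw [ac_coe]
  unfold SU.app
  rw [hb, map_zero, zero_mul, zero_add, add_zero]
  have hca : (rho w).a * conj (rho w).a = 1 := by
    rw [mul_conj, normSq_eq_norm_sq, ha]
    norm_num
  have hca0 : conj (rho w).a ≠ 0 := by
    intro h2
    rw [h2, mul_zero] at hca
    exact zero_ne_one hca
  have h3 : exp (((2 * arg (rho w).a : ℝ) : ℂ) * I) = (rho w).a ^ 2 := by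
    rw [← hexp, ← Complex.exp_nat_mul, hexp]
    congr 1
    push_cast
    ring
  rw [h3, div_eq_iff hca0]
  linear_combination (-(rho w).a * (z : ℂ)) * hca

/-- PROOF (3.5). Multiply `w` by a power of `wA` so that `0 <= t < 2 pi/7` (t = the angle of `rotation_of_fix`). If `t = 0`, done. If `0 < t < 2 pi/7`: `X = Om (ac w' v0) = (CC, S e^{it})` and
`e^{it} = b + c e^{2 pi i/7}` with `b, c > 0`, `b + c > 1` (`b = sin(2 pi/7 - t)/sin(2 pi/7)`, `c = sin t / sin (2 pi/7)`, `b + c = cos(t - pi/7)/cos(pi/7)`), so `X = a O + b V 0 + c V 1`, `a = CC (1 - b - c) < 0`, so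
`mink X (Om q0) = mink X O + a (2 c72^2 - 2) < CC`. But `X = Om (ac w' v0)`, `q0 = ac e0 o0`: contradiction to `key'`. -/
theorem stab0 (w : W) (h : ac w o0 = o0) : ∃ s : ℕ, ac w = ac (wA ^ s) := by
  obtain ⟨t, ht⟩ := rotation_of_fix w h
  obtain ⟨s, t', ht0, ht1, hst⟩ := a22_red t
  have hw' : ∀ z : Disc, ((ac (wA ^ s * w) z : Disc) : ℂ) = exp ((t' : ℂ) * I) * z := by
    intro z
    rw [map_mul]
    show ((ac (wA ^ s) (ac w z) : Disc) : ℂ) = _
    rw [a20_pow, ht, ← mul_assoc, hst]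
  rcases ht0.eq_or_lt with h0 | h0
  · refine ⟨6 * s, a22_inv_pow s w ?_⟩
    apply Homeomorph.ext
    intro z
    apply Subtype.ext
    rw [hw', ← h0]
    simp
  · exact (a22_contra t' h0 ht1 _ hw').elim

end Pool.Agent.Lib.H11Q.A
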