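import Mathlib
import Pool.Agent.Lib.H11Q.AD
import Pool.Agent.Lib.H11Q.A15
import Pool.Agent.Lib.H11Q.A18
import Pool.Agent.Lib.H11Q.A22

/-! # H11Q (MP_a00a7b_an) module A, chunk A27: the subgroup Gam0 (4.2, 4.3, 4.4) -/

set_option autoImplicit false

namespace Pool.Agent.Lib.H11Q.A

open Complex Set
open scoped ComplexConjugate Topology

/-- PROOF. `decide` after unfolding: `pi7 (wA * wB) 0 = finRotate 7 (tau 0) = finRotate 7 6 = 0`. -/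
theorem e0_mem : e0 ∈ Gam0 := by
  rw [mem_Gam0]
  unfold e0
  rw [map_mul, pi7_wA, pi7_wB, Equiv.Perm.mul_apply]
  decide

theorem e1_mem : e1 ∈ Gam0 := by
  rw [mem_Gam0]
  unfold e1
  rw [map_mul, map_mul, map_mul, map_inv, pi7_wA, pi7_wB]
  simp only [Equiv.Perm.mul_apply]
  decide

/-- PROOF. `w = gamma' wA^j`: `pi7 (w wA^{-j}) 0 = 0` for `j = -(pi7 w)^{-1} 0`. -/
theorem fact_right (w : W) : ∃ γ ∈ Gam0, ∃ j : ℕ, w = γ * wA ^ j := by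
  have h : ∀ k : Fin 7, ∃ j : Fin 7, ((finRotate 7) ^ (j : ℕ)) k = 0 := by decide
  obtain ⟨j, hj⟩ := h ((pi7 w)⁻¹ 0)
  refine ⟨w * (wA ^ (j : ℕ))⁻¹, ?_, j, by rw [inv_mul_cancel_right]⟩
  have e : ((finRotate 7) ^ (j : ℕ))⁻¹ 0 = (pi7 w)⁻¹ 0 := by
    rw [Equiv.Perm.inv_eq_iff_eq]
    exact hj.symm
  rw [mem_Gam0, map_mul, map_inv, map_pow, pi7_wA, Equiv.Perm.mul_apply, e]
  simp

theorem a27_powA (j : ℕ) : ac (wA ^ j) o0 = o0 := by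
  induction j with
  | zero => rw [pow_zero, map_one]; rfl
  | succ n ih => rw [pow_succ, map_mul, Homeomorph.mul_apply, ac_wA_o0, ih]

theorem a27_powB (j : ℕ) : ac (wB ^ j) v0 = v0 := by
  induction j with
  | zero => rw [pow_zero, map_one]; rfl
  | succ n ih => rw [pow_succ, map_mul, Homeomorph.mul_apply, ac_wB_v0, ih]

/-- PROOF. `fact_right`: `w = c wA^j`, `ac w o0 = ac c o0`, take `c^{-1}`. -/
theorem red0 (w : W) : ∃ γ ∈ Gam0, ac γ (ac w o0) = o0 := by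
  obtain ⟨γ, hγ, j, rfl⟩ := fact_right w
  refine ⟨γ⁻¹, Gam0.inv_mem hγ, ?_⟩
  rw [map_mul, Homeomorph.mul_apply, a27_powA, ← Homeomorph.mul_apply, ← map_mul, inv_mul_cancel, map_one]
  rfl

/-- PROOF (4.3). `c = wA^j wB^i w^{-1}`: `pi7 c 0 = tau^i ((pi7 w)^{-1} 0) + j`; the `tau`-orbits are `{0,6,5}`, `{1,4,3}`, `{2}`: choose `i` and `j` in `{0, 3, 5}` with `tau^i k = -j`. `ac wB v0 = v0`. -/
theorem redv (w : W) : ∃ γ ∈ Gam0, ∃ j ∈ ({0, 3, 5} : Finset ℕ), ac γ (ac w v0) = ac (wA ^ j) v0 := by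
  have h : ∀ k : Fin 7, ∃ i : Fin 3, ∃ j ∈ ({0, 3, 5} : Finset ℕ), ((finRotate 7) ^ j) ((tau ^ (i : ℕ)) k) = 0 := by decide
  obtain ⟨i, j, hj, hij⟩ := h ((pi7 w)⁻¹ 0)
  refine ⟨wA ^ j * wB ^ (i : ℕ) * w⁻¹, ?_, j, hj, ?_⟩
  · rw [mem_Gam0, map_mul, map_mul, map_inv, map_pow, map_pow, pi7_wA, pi7_wB, Equiv.Perm.mul_apply, Equiv.Perm.mul_apply]
    exact hij
  · rw [← Homeomorph.mul_apply, ← map_mul, inv_mul_cancel_right, map_mul, Homeomorph.mul_apply, a27_powB]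

theorem a27_gA_pow (n : ℕ) : (gA ^ n).b = 0 ∧ (gA ^ n).a = exp (((Real.pi / 7 * n : ℝ) : ℂ) * I) := by
  have h1 : gA.a = exp (((Real.pi / 7 : ℝ) : ℂ) * I) := by
    rw [exp_mul_I]
    unfold gA rot o0
    simp
    rw [show (2 * (Real.pi : ℂ) / 7 / 2) = (Real.pi : ℂ) / 7 by ring]
    ring
  have h2 : gA.b = 0 := by
    unfold gA rot o0
    simp
  induction n with
  | zero =>
    rw [pow_zero]
    simp
  | succ n ih =>
    rw [pow_succ]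
    refine ⟨?_, ?_⟩
    · rw [SU.mul_b, ih.1, h2]
      simp
    · rw [SU.mul_a, ih.1, ih.2, h1, zero_mul, add_zero, ← Complex.exp_add]
      congr 1
      push_cast
      ring

theorem a27_A7 : ac (wA ^ 7) = 1 := by
  show SU.act (rho (wA ^ 7)) = 1
  rw [map_pow, rho_wA]
  refine act_eq_one' _ (a27_gA_pow 7).1 (Or.inr ?_)
  rw [(a27_gA_pow 7).2]
  have e : (((Real.pi / 7 * (7 : ℕ) : ℝ) : ℂ)) * I = Real.pi * I := by
    push_cast
    ring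
  rw [e, exp_pi_mul_I]

/-- PROOF (4.2). `stab0`: `ac c = ac (wA^s)`; so `ac (c wA^{-s}) = 1`, `pi7_of_ac`: `pi7 c = pi7 (wA^s)`, at `0`: `0 = s` modulo 7, so `ac (wA^s) = 1` (rotation by `2 pi s/7`). -/
theorem stab : ∀ γ ∈ Gam0, ac γ o0 = o0 → ac γ = 1 := by
  intro γ hγ h
  obtain ⟨s, hs⟩ := stab0 γ h
  have h1 : ac (γ * (wA ^ s)⁻¹) = 1 := by rw [map_mul, map_inv, hs, mul_inv_cancel]
  have h2 := pi7_of_ac _ h1
  rw [map_mul, map_inv, mul_inv_eq_one, map_pow, pi7_wA] at h2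
  have h3 : ((finRotate 7) ^ s) 0 = 0 := by
    rw [← h2]
    exact hγ
  have h7 : (finRotate 7) ^ 7 = 1 := by decide
  have h4 : ((finRotate 7) ^ (s % 7)) 0 = 0 := by
    have e : (finRotate 7) ^ s = (finRotate 7) ^ (s % 7) := by
      conv_lhs => rw [← Nat.mod_add_div s 7, pow_add, pow_mul, h7, one_pow, mul_one]
    rw [← e]
    exact h3
  have h5 : ∀ r : Fin 7, ((finRotate 7) ^ (r : ℕ)) 0 = 0 → r = 0 := by decide
  have h6 := h5 ⟨s % 7, Nat.mod_lt _ (by norm_num)⟩ h4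
  have h8 : s % 7 = 0 := congrArg Fin.val h6
  obtain ⟨m, rfl⟩ := Nat.dvd_of_mod_eq_zero h8
  rw [hs, pow_mul, map_pow, a27_A7, one_pow]

end Pool.Agent.Lib.H11Q.A
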