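import Mathlib
import Pool.Agent.Lib.H11Q.AD
import Pool.Agent.Lib.H11Q.A01
import Pool.Agent.Lib.H11Q.A02
import Pool.Agent.Lib.H11Q.A11
import Pool.Agent.Lib.H11Q.A18
import Pool.Agent.Lib.H11Q.A19

/-! # H11Q (MP_a00a7b_an) module A, chunk A21: nearest centres of the points of a cone (3.4) -/

set_option autoImplicit false

namespace Pool.Agent.Lib.H11Q.A

open Complex Set
open scoped ComplexConjugate Topology

theorem a21_left (j : ℕ) (a b c : ℝ) : mink (a • O + b • V j + c • V (j + 1)) O = a + b * CC + c * CC := by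
  simp only [mink_add_left, mink_smul_left]
  rw [mink_O_O, mink_comm (V j) O, mink_O_V, mink_comm (V (j + 1)) O, mink_O_V]
  ring

theorem a21_O (w : W) : 1 ≤ mink O (Om (ac w o0 : ℂ)) := by
  rw [← Om_o0]
  exact one_le_mink_Om o0.2 (ac w o0).2

theorem a21_V (j : ℕ) (w : W) : CC ≤ mink (V j) (Om (ac w o0 : ℂ)) := key' w (wA ^ j)

/-- PROOF (3.4). `mink (V j) (Om (ac w o0)) >= CC = mink (V j) O` (`key'`, `V j = Om (ac (wA^j) v0)`), `mink O (Om u) >= 1`. -/
theorem near_le (j : ℕ) {a b c : ℝ} (ha : 0 ≤ a) (hb : 0 ≤ b) (hc : 0 ≤ c) (w : W) :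
    mink (a • O + b • V j + c • V (j + 1)) O ≤ mink (a • O + b • V j + c • V (j + 1)) (Om (ac w o0 : ℂ)) := by
  rw [a21_left]
  simp only [mink_add_left, mink_smul_left]
  have h1 := mul_le_mul_of_nonneg_left (a21_O w) ha
  have h2 := mul_le_mul_of_nonneg_left (a21_V j w) hb
  have h3 := mul_le_mul_of_nonneg_left (a21_V (j + 1) w) hc
  linarith

/-- PROOF. `mink O (Om u) > 1` if `u /= 0` (`mink_Om_eq_one`). -/
theorem near_lt (j : ℕ) {a b c : ℝ} (ha : 0 < a) (hb : 0 ≤ b) (hc : 0 ≤ c) (w : W) (hw : ac w o0 ≠ o0) :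
    mink (a • O + b • V j + c • V (j + 1)) O < mink (a • O + b • V j + c • V (j + 1)) (Om (ac w o0 : ℂ)) := by
  rw [a21_left]
  simp only [mink_add_left, mink_smul_left]
  have h0 : 1 < mink O (Om (ac w o0 : ℂ)) := by
    refine lt_of_le_of_ne (a21_O w) fun h => hw ?_
    rw [← Om_o0] at h
    exact (Subtype.ext (mink_Om_eq_one o0.2 (ac w o0).2 h.symm)).symm
  have h1 := mul_lt_mul_of_pos_left h0 ha
  have h2 := mul_le_mul_of_nonneg_left (a21_V j w) hb
  have h3 := mul_le_mul_of_nonneg_left (a21_V (j + 1) w) hc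
  linarith

end Pool.Agent.Lib.H11Q.A
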