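import Mathlib
import Pool.Agent.Lib.H11Q.AD
import Pool.Agent.Lib.H11Q.A02
import Pool.Agent.Lib.H11Q.A17
import Pool.Agent.Lib.H11Q.A18
import Pool.Agent.Lib.H11Q.A19
import Pool.Agent.Lib.H11Q.A20
import Pool.Agent.Lib.H11Q.A21

/-! # H11Q (MP_a00a7b_an) module A, chunk A28: points of the Euclidean heptagon (3.4, 9.5) -/

set_option autoImplicit false

namespace Pool.Agent.Lib.H11Q.A

open Complex Set
open scoped ComplexConjugate Topology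

theorem a28_r1 : 0 < r1 ∧ r1 < 1 ∧ Real.sqrt (c72 ^ 2 - 1) * (1 + r1 ^ 2) = c72 * (2 * r1) := by
  have hs := sin7_bd
  have hpos := pi7_pos
  have h1 : 0 < 1 - 2 * Real.sin (Real.pi / 7) := by linarith [hs.2]
  have h2 : 0 < 1 + 2 * Real.sin (Real.pi / 7) := by linarith
  have h3 : 0 < (1 - 2 * Real.sin (Real.pi / 7)) / (1 + 2 * Real.sin (Real.pi / 7)) := div_pos h1 h2
  have hr : 0 < r1 := Real.sqrt_pos.2 h3
  have hr2 : r1 ^ 2 = (1 - 2 * Real.sin (Real.pi / 7)) / (1 + 2 * Real.sin (Real.pi / 7)) := Real.sq_sqrt h3.le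
  have hlt : r1 ^ 2 < 1 := by
    rw [hr2, div_lt_one h2]
    linarith
  have h5 : 0 ≤ c72 ^ 2 - 1 := by
    have := c72_bd.1
    nlinarith
  refine ⟨hr, by nlinarith, ?_⟩
  have h6 : (Real.sqrt (c72 ^ 2 - 1) * (1 + r1 ^ 2)) ^ 2 = (c72 * (2 * r1)) ^ 2 := by
    rw [mul_pow, Real.sq_sqrt h5, mul_pow, mul_pow, hr2]
    unfold c72
    have hpos' := hpos.ne'
    field_simp
    ring
  have hc : 0 < c72 := by linarith [c72_bd.1]
  exact (pow_left_inj₀ (by positivity) (by positivity) two_ne_zero).1 h6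

/-- PROOF. `mink (Om z) (Om q0) - mink (Om z) O = 2 (c72 mink (Om z) M0 - mink (Om z) O)` (`Om_q0`); with `x = Re (z e^{-i pi/7})`, `M0_eq`: it is
`2 s (s (1+|z|^2) - 2 c72 x)/(1-|z|^2)`, `s = sqrt (c72^2-1)`, `s/c72 = 2 r1/(1+r1^2)`; positive because `|z|^2 >= x^2` and `(1+x^2) r1 - x (1+r1^2) = (r1 - x)(1 - x r1) > 0` (if `x <= 0` it is clear). -/
theorem closer (z : Disc) (h : ((z : ℂ) * exp (-((Real.pi / 7 : ℝ) : ℂ) * I)).re < r1) : mink (Om z) O < mink (Om z) (Om q0) := by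
  obtain ⟨hr0, hr1, hr⟩ := a28_r1
  have hc : 0 < c72 := by linarith [c72_bd.1]
  have h5 : 0 < c72 ^ 2 - 1 := by
    have := c72_bd.1
    nlinarith
  set s := Real.sqrt (c72 ^ 2 - 1) with hs
  have hs0 : 0 < s := Real.sqrt_pos.2 h5
  have hs2 : s ^ 2 = c72 ^ 2 - 1 := Real.sq_sqrt h5.le
  set x := ((z : ℂ) * exp (-((Real.pi / 7 : ℝ) : ℂ) * I)).re with hx
  have hn := norm_nonneg (z : ℂ)
  have hz := z.2
  have hd : 0 < 1 - ‖(z : ℂ)‖ ^ 2 := by nlinarith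
  have hxn : x ^ 2 ≤ ‖(z : ℂ)‖ ^ 2 := by
    have h1 : |x| ≤ ‖(z : ℂ)‖ := by
      have h2 := Complex.abs_re_le_norm ((z : ℂ) * exp (-((Real.pi / 7 : ℝ) : ℂ) * I))
      have e : -((Real.pi / 7 : ℝ) : ℂ) * I = ((-(Real.pi / 7) : ℝ) : ℂ) * I := by push_cast; ring
      rw [norm_mul, e, norm_exp_ofReal_mul_I, mul_one, ← e] at h2
      exact h2
    rw [← sq_abs]
    exact pow_le_pow_left₀ (abs_nonneg _) h1 2
  have hM : mink (Om (z : ℂ)) M0 = c72 * ((1 + ‖(z : ℂ)‖ ^ 2) / (1 - ‖(z : ℂ)‖ ^ 2)) - s * (2 * x / (1 - ‖(z : ℂ)‖ ^ 2)) := by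
    rw [M0_eq]
    unfold mink Om
    simp only
    rw [← hs]
    have e1 : conj ((s : ℂ) * exp (((Real.pi / 7 : ℝ) : ℂ) * I)) = (s : ℂ) * exp (-((Real.pi / 7 : ℝ) : ℂ) * I) := by
      rw [map_mul, Complex.conj_ofReal, ← Complex.exp_conj, map_mul, Complex.conj_ofReal, Complex.conj_I, mul_neg, neg_mul]
    have e2 : 2 * (z : ℂ) / ((1 - ‖(z : ℂ)‖ ^ 2 : ℝ) : ℂ) * ((s : ℂ) * exp (-((Real.pi / 7 : ℝ) : ℂ) * I)) =
        ((s * (2 / (1 - ‖(z : ℂ)‖ ^ 2)) : ℝ) : ℂ) * ((z : ℂ) * exp (-((Real.pi / 7 : ℝ) : ℂ) * I)) := by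
      push_cast
      ring
    rw [e1, e2, Complex.re_ofReal_mul, ← hx]
    ring
  have hO : mink (Om (z : ℂ)) O = (1 + ‖(z : ℂ)‖ ^ 2) / (1 - ‖(z : ℂ)‖ ^ 2) := by
    unfold mink Om O
    simp
  have hQ : mink (Om (z : ℂ)) (Om (q0 : ℂ)) = 2 * c72 * mink (Om (z : ℂ)) M0 - mink (Om (z : ℂ)) O := by
    rw [Om_q0, sub_eq_add_neg, mink_add_right, mink_neg_right, mink_smul_right]
    ring
  have hdiff : mink (Om (z : ℂ)) (Om (q0 : ℂ)) - mink (Om (z : ℂ)) O =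
      2 * s * (s * (1 + ‖(z : ℂ)‖ ^ 2) - 2 * c72 * x) / (1 - ‖(z : ℂ)‖ ^ 2) := by
    rw [hQ, hM, hO]
    field_simp
    linear_combination (-2 * (1 + ‖(z : ℂ)‖ ^ 2)) * hs2
  have hpos : 0 < s * (1 + ‖(z : ℂ)‖ ^ 2) - 2 * c72 * x := by
    have h7 : 0 < (s * (1 + ‖(z : ℂ)‖ ^ 2) - 2 * c72 * x) * (1 + r1 ^ 2) := by
      have e3 : (s * (1 + ‖(z : ℂ)‖ ^ 2) - 2 * c72 * x) * (1 + r1 ^ 2) = 2 * c72 * (r1 * (1 + ‖(z : ℂ)‖ ^ 2) - x * (1 + r1 ^ 2)) := by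
        linear_combination (1 + ‖(z : ℂ)‖ ^ 2) * hr
      rw [e3]
      refine mul_pos (by linarith) ?_
      rcases le_or_gt x 0 with hx0 | hx0
      · have : 0 < r1 * (1 + ‖(z : ℂ)‖ ^ 2) := by positivity
        have h8 : x * (1 + r1 ^ 2) ≤ 0 := mul_nonpos_of_nonpos_of_nonneg hx0 (by positivity)
        linarith
      · have h8 : 0 < (r1 - x) * (1 - x * r1) := by
          refine mul_pos (by linarith) ?_
          nlinarith
        have h9 : 0 ≤ r1 * (‖(z : ℂ)‖ ^ 2 - x ^ 2) := mul_nonneg hr0.le (by linarith)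
        nlinarith
    exact (mul_pos_iff_of_pos_right (by positivity)).1 h7
  have h8 : 0 < mink (Om (z : ℂ)) (Om (q0 : ℂ)) - mink (Om (z : ℂ)) O := by
    rw [hdiff]
    positivity
  linarith

theorem a28_linA (j : ℕ) (x : Mk) : (rho (wA ^ j)).lin x = (x.1, exp (((2 * Real.pi * j / 7 : ℝ) : ℂ) * I) * x.2) := by
  induction j with
  | zero =>
    rw [pow_zero, map_one, lin_one]
    ext1
    · rfl
    · simp
  | succ n ih =>
    rw [pow_succ', map_mul, lin_mul, ih, a18_linA]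
    ext1
    · rfl
    · simp only
      rw [← mul_assoc, ← Complex.exp_add]
      congr 2
      push_cast
      ring

theorem a28_coe (j : ℕ) (z : Disc) : ((ac (wA ^ j) z : Disc) : ℂ) = exp (((2 * Real.pi * j / 7 : ℝ) : ℂ) * I) * z := by
  have h0 : ‖exp (((2 * Real.pi * j / 7 : ℝ) : ℂ) * I) * (z : ℂ)‖ = ‖(z : ℂ)‖ := by
    rw [norm_mul, norm_exp_ofReal_mul_I, one_mul]
  refine Om_inj (ac (wA ^ j) z).2 (by rw [h0]; exact z.2) ?_
  rw [Om_ac, a28_linA]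
  unfold Om
  rw [h0]
  ext1
  · rfl
  · simp only
    ring

/-- PROOF. `sector_rot`: `z' = e^{2 pi i s/7} z` in the sector; the hypothesis for suitable `j` gives `Re (z' e^{-i pi/7}) < r1`; `closer` and `sector`: `Om z' = a O + b V 0 + c V 1`, `a > 0`; `near_lt` for `z'` and
`wA^s w` (`z' = ac (wA^s) z`, invariance). -/
theorem voronoi (z : Disc)
    (hz : ∀ j : ℕ, ((z : ℂ) * exp (-((Real.pi / 7 + 2 * Real.pi * j / 7 : ℝ) : ℂ) * I)).re < r1)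
    (w : W) (hw : ac w o0 ≠ o0) : mink (Om z) (Om 0) < mink (Om z) (Om (ac w o0)) := by
  obtain ⟨s, b, c, hb, hc, h⟩ := sector_rot (z : ℂ)
  have h1 : ((ac (wA ^ s) z : Disc) : ℂ) = b + c * exp (((2 * Real.pi / 7 : ℝ) : ℂ) * I) := by
    rw [a28_coe, h]
  have h2 : (((ac (wA ^ s) z : Disc) : ℂ) * exp (-((Real.pi / 7 : ℝ) : ℂ) * I)).re < r1 := by
    have h3 := hz (6 * s)
    have e : ((ac (wA ^ s) z : Disc) : ℂ) * exp (-((Real.pi / 7 : ℝ) : ℂ) * I) =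
        (z : ℂ) * exp (-((Real.pi / 7 + 2 * Real.pi * (6 * s : ℕ) / 7 : ℝ) : ℂ) * I) := by
      rw [a28_coe]
      have e1 : exp (-((Real.pi / 7 + 2 * Real.pi * (6 * s : ℕ) / 7 : ℝ) : ℂ) * I) =
          exp (((2 * Real.pi * s / 7 : ℝ) : ℂ) * I) * exp (-((Real.pi / 7 : ℝ) : ℂ) * I) := by
        rw [← Complex.exp_add]
        have e2 : ((2 * Real.pi * s / 7 : ℝ) : ℂ) * I + -((Real.pi / 7 : ℝ) : ℂ) * I =
            -((Real.pi / 7 + 2 * Real.pi * (6 * s : ℕ) / 7 : ℝ) : ℂ) * I + (s : ℤ) * (2 * Real.pi * I) := by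
          push_cast
          ring
        rw [e2, Complex.exp_add, Complex.exp_int_mul_two_pi_mul_I, mul_one]
      rw [e1]
      ring
    rw [e]
    exact h3
  obtain ⟨a, b', c', hb', hc', hOm, ha⟩ := sector (ac (wA ^ s) z) b c hb hc h1
  have h4 := closer _ h2
  have h72 := c72_bd.1
  have ha0 : 0 < a := by
    have h5 : 0 < a * (2 * c72 ^ 2 - 2) := by
      rw [ha]
      linarith
    exact (mul_pos_iff_of_pos_right (by nlinarith)).1 h5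
  have hA0 : ac (wA ^ s) o0 = o0 := by
    apply Subtype.ext
    rw [a28_coe]
    show _ * (0 : ℂ) = 0
    rw [mul_zero]
  have hw' : ac (wA ^ s * w) o0 ≠ o0 := by
    intro h6
    apply hw
    rw [map_mul, Homeomorph.mul_apply] at h6
    have h7 := hA0.symm
    rw [← h6] at h7
    exact ((ac (wA ^ s)).injective (h6.trans hA0.symm))
  have h8 := near_lt 0 ha0 hb' hc' (wA ^ s * w) hw'
  have e3 : a • O + b' • V 0 + c' • V (0 + 1) = Om (ac (wA ^ s) z : ℂ) := hOm.symm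
  rw [e3] at h8
  have e4 : mink (Om (ac (wA ^ s) z : ℂ)) (Om (ac (wA ^ s * w) o0 : ℂ)) = mink (Om z) (Om (ac w o0)) := by
    have e5 : ac (wA ^ s * w) o0 = ac (wA ^ s) (ac w o0) := by rw [map_mul]; rfl
    rw [e5, Om_ac, Om_ac (wA ^ s), mink_lin]
  have e6 : mink (Om (ac (wA ^ s) z : ℂ)) O = mink (Om z) (Om 0) := by
    have e7 : Om ((ac (wA ^ s) o0 : Disc) : ℂ) = O := by rw [hA0, Om_o0]
    rw [← e7, Om_ac, Om_ac, mink_lin]
    rfl
  rw [e4, e6] at h8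
  exact h8

end Pool.Agent.Lib.H11Q.A
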