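import Mathlib
import Pool.Agent.Lib.H11Q.AD
import Pool.Agent.Lib.H11Q.A01
import Pool.Agent.Lib.H11Q.A02
import Pool.Agent.Lib.H11Q.A17
import Pool.Agent.Lib.H11Q.A18

/-! # H11Q (MP_a00a7b_an) module A, chunk A29: the base line: its normal vector -/

set_option autoImplicit false

namespace Pool.Agent.Lib.H11Q.A

open Complex Set
open scoped ComplexConjugate Topology

theorem a29_rot (t : ℝ) (x : Mk) : (rot o0 t).lin x = (x.1, exp ((t : ℂ) * I) * x.2) := by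
  have hb : (rot o0 t).b = 0 := by
    unfold rot o0
    simp
  have ha : (rot o0 t).a = exp (((t / 2 : ℝ) : ℂ) * I) := by
    rw [exp_mul_I]
    unfold rot o0
    simp
    ring
  unfold SU.lin
  rw [hb, ha]
  have h1 : normSq (exp (((t / 2 : ℝ) : ℂ) * I)) = 1 := by
    rw [normSq_eq_norm_sq, norm_exp_ofReal_mul_I]
    norm_num
  have h2 : exp (((t / 2 : ℝ) : ℂ) * I) ^ 2 = exp ((t : ℂ) * I) := by
    rw [← Complex.exp_nat_mul]
    congr 1
    push_cast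
    ring
  rw [h1, h2]
  ext1
  · simp
  · simp

theorem a29_TT (u : ℝ) (x : Mk) : (TT u).lin x = (Real.cosh u * x.1 + Real.sinh u * x.2.re,
    ⟨Real.sinh u * x.1 + Real.cosh u * x.2.re, x.2.im⟩) := by
  have h1 : Real.cosh u = Real.cosh (u / 2) ^ 2 + Real.sinh (u / 2) ^ 2 := by
    rw [← Real.cosh_two_mul]
    congr 1
    ring
  have h2 : Real.sinh u = 2 * Real.sinh (u / 2) * Real.cosh (u / 2) := by
    rw [← Real.sinh_two_mul]
    congr 1
    ring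
  have h3 : Real.cosh (u / 2) ^ 2 - Real.sinh (u / 2) ^ 2 = 1 := Real.cosh_sq_sub_sinh_sq _
  have key : ∀ p q : ℝ, p ^ 2 - q ^ 2 = 1 → ∀ h : normSq (p : ℂ) - normSq (q : ℂ) = 1,
      (⟨(p : ℂ), (q : ℂ), h⟩ : SU).lin x = ((p ^ 2 + q ^ 2) * x.1 + 2 * q * p * x.2.re,
        ⟨2 * q * p * x.1 + (p ^ 2 + q ^ 2) * x.2.re, x.2.im⟩) := by
    intro p q hpq h
    unfold SU.lin
    ext1
    · simp [normSq_ofReal]
      ring
    · apply Complex.ext
      · simp [pow_two]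
        ring
      · simp [pow_two]
        linear_combination x.2.im * hpq
  rw [h1, h2]
  exact key _ _ h3 _

theorem a29_lin_gl0 (x : Mk) : gl0.lin x = (Real.cosh d0 * x.1 + Real.sinh d0 * x.2.im,
    exp (((2 * Real.pi / 7 : ℝ) : ℂ) * I) * ⟨Real.sinh d0 * x.1 + Real.cosh d0 * x.2.im, -x.2.re⟩) := by
  have h1 : exp (((-(Real.pi / 2) : ℝ) : ℂ) * I) = -I := by
    rw [exp_mul_I, ← Complex.ofReal_cos, ← Complex.ofReal_sin, Real.cos_neg, Real.sin_neg, Real.cos_pi_div_two, Real.sin_pi_div_two]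
    simp
  unfold gl0
  rw [lin_mul, lin_mul, a29_rot, a29_TT, a29_rot, h1]
  ext1
  · simp
  · simp

theorem a29_q : 0 < 1 - 4 * Real.sin (Real.pi / 7) ^ 2 := by
  have h := sin7_bd
  nlinarith [h.1, h.2]

/-- PROOF. `0 < 1 - 4 sin^2 (pi/7)` and `td^2 = cos^2 (1 - 4 sin^2) < 1`. -/
theorem td_bd : 0 < td ∧ td < 1 := by
  have h1 := a29_q
  have h2 := cos7_bd
  have h3 : 0 < Real.sqrt (1 - 4 * Real.sin (Real.pi / 7) ^ 2) := Real.sqrt_pos.2 h1
  have h4 : Real.sqrt (1 - 4 * Real.sin (Real.pi / 7) ^ 2) ≤ 1 := by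
    have := sq_nonneg (Real.sin (Real.pi / 7))
    rw [Real.sqrt_le_left (by norm_num)]
    linarith
  have h5 : 0 < Real.cos (Real.pi / 7) := by linarith [h2.1]
  unfold td
  refine ⟨mul_pos h5 h3, ?_⟩
  nlinarith [h2.2]

theorem a29_w : 0 < 1 - td ^ 2 := by
  have h := td_bd
  nlinarith [h.1, h.2]

theorem sinh_d0 : Real.sinh d0 = td / Real.sqrt (1 - td ^ 2) := by
  unfold d0
  exact Real.sinh_arsinh _

theorem cosh_d0 : Real.cosh d0 = 1 / Real.sqrt (1 - td ^ 2) := by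
  have h1 := a29_w
  have h2 : 0 < Real.sqrt (1 - td ^ 2) := Real.sqrt_pos.2 h1
  have h3 := Real.cosh_sq d0
  rw [sinh_d0, div_pow, Real.sq_sqrt h1.le] at h3
  have h4 : Real.cosh d0 ^ 2 = (1 / Real.sqrt (1 - td ^ 2)) ^ 2 := by
    rw [h3, div_pow, Real.sq_sqrt h1.le]
    field_simp
    ring
  exact (pow_left_inj₀ (Real.cosh_pos d0).le (by positivity) two_ne_zero).1 h4

theorem d0_pos : 0 < d0 := by
  have h1 := a29_w
  have h2 : 0 < Real.sqrt (1 - td ^ 2) := Real.sqrt_pos.2 h1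
  unfold d0
  rw [Real.arsinh_pos_iff]
  exact div_pos td_bd.1 h2

/-- PROOF. `gl0 = R(2 pi/7) TT(d0) R(-pi/2)`: `R(-pi/2)` maps `(0, I)` to `(0, 1)`, `TT d` maps it to `(sinh d, cosh d)`, `R(2 pi/7)` multiplies the second component by `e^{2 pi i/7}`. -/
theorem nu_gl0 : nu gl0 = (Real.sinh d0, (Real.cosh d0 : ℂ) * exp (((2 * Real.pi / 7 : ℝ) : ℂ) * I)) := by
  unfold nu
  rw [a29_lin_gl0]
  ext1
  · simp only [mul_zero, Complex.I_im, mul_one, zero_add]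
  · simp only [mul_zero, Complex.I_im, mul_one, zero_add, Complex.I_re, neg_zero]
    rw [mul_comm]
    rfl

theorem a29_r : Real.sqrt (c72 ^ 2 - 1) = Real.sqrt (1 - 4 * Real.sin (Real.pi / 7) ^ 2) / (2 * Real.sin (Real.pi / 7)) := by
  have hs := pi7_pos
  rw [Real.sqrt_eq_iff_mul_self_eq_of_pos (by have := a29_q; positivity)]
  have h1 := Real.mul_self_sqrt a29_q.le
  unfold c72
  have hs' := hs.ne'
  field_simp
  nlinarith

theorem a29_M (t : ℝ) (ht : t = Real.pi / 7 ∨ t = 3 * Real.pi / 7) :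
    mink ((c72, (Real.sqrt (c72 ^ 2 - 1) : ℂ) * exp ((t : ℂ) * I)) : Mk) (nu gl0) = 0 := by
  have hs := pi7_pos
  have h1 : (((Real.sqrt (c72 ^ 2 - 1) : ℂ) * exp ((t : ℂ) * I)) * conj ((Real.cosh d0 : ℂ) * exp (((2 * Real.pi / 7 : ℝ) : ℂ) * I))).re =
      Real.sqrt (c72 ^ 2 - 1) * Real.cosh d0 * Real.cos (Real.pi / 7) := by
    have e1 : conj ((Real.cosh d0 : ℂ) * exp (((2 * Real.pi / 7 : ℝ) : ℂ) * I)) = (Real.cosh d0 : ℂ) * exp (-(((2 * Real.pi / 7 : ℝ) : ℂ) * I)) := by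
      rw [map_mul, Complex.conj_ofReal, ← Complex.exp_conj, map_mul, Complex.conj_ofReal, Complex.conj_I, mul_neg]
    have e2 : ((Real.sqrt (c72 ^ 2 - 1) : ℂ) * exp ((t : ℂ) * I)) * ((Real.cosh d0 : ℂ) * exp (-(((2 * Real.pi / 7 : ℝ) : ℂ) * I))) =
        ((Real.sqrt (c72 ^ 2 - 1) * Real.cosh d0 : ℝ) : ℂ) * exp (((t - 2 * Real.pi / 7 : ℝ) : ℂ) * I) := by
      have e3 : exp ((t : ℂ) * I) * exp (-(((2 * Real.pi / 7 : ℝ) : ℂ) * I)) = exp (((t - 2 * Real.pi / 7 : ℝ) : ℂ) * I) := by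
        rw [← Complex.exp_add]
        congr 1
        push_cast
        ring
      rw [← e3]
      push_cast
      ring
    rw [e1, e2, Complex.re_ofReal_mul, exp_ofReal_mul_I_re]
    congr 1
    rcases ht with rfl | rfl
    · rw [← Real.cos_neg]
      congr 1
      ring
    · congr 1
      ring
  rw [nu_gl0]
  unfold mink
  simp only
  rw [h1, sinh_d0, cosh_d0, a29_r]
  unfold c72 td
  have hs' := hs.ne'
  have h2 : Real.sqrt (1 - td ^ 2) ≠ 0 := (Real.sqrt_pos.2 a29_w).ne'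
  unfold td at h2
  field_simp
  ring

/-- PROOF. `cosh d0 (c72 td - sqrt (c72^2-1) cos (pi/7)) = 0`, `c72 sqrt (1 - 4 sin^2 (pi/7)) = sqrt (c72^2 - 1)`. -/
theorem mink_M0_nu : mink M0 (nu gl0) = 0 := by
  rw [M0_eq]
  exact a29_M _ (Or.inl rfl)

theorem mink_M1_nu : mink M1 (nu gl0) = 0 := by
  rw [M1_eq]
  exact a29_M _ (Or.inr rfl)

theorem mink_O_nu : mink O (nu gl0) = Real.sinh d0 := by
  rw [nu_gl0]
  unfold mink O
  simp only [one_mul, zero_mul, Complex.zero_re, sub_zero]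

theorem bs_gl0_zero : bs gl0 0 = -d0 := by
  unfold bs
  rw [sg_eq _ (by simp), Om_zero]
  have h : mink ((1, 0) : Mk) (nu gl0) = Real.sinh d0 := mink_O_nu
  rw [h, Real.arsinh_neg, Real.arsinh_sinh]

end Pool.Agent.Lib.H11Q.A
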