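import Mathlib
import Pool.Agent.Lib.H11Q.AD
import Pool.Agent.Lib.H11Q.A01
import Pool.Agent.Lib.H11Q.A02
import Pool.Agent.Lib.H11Q.A05
import Pool.Agent.Lib.H11Q.A18
import Pool.Agent.Lib.H11Q.A19
import Pool.Agent.Lib.H11Q.A29

/-! # H11Q (MP_a00a7b_an) module A, chunk A30: parametrization of the base line, the half-turns -/

set_option autoImplicit false

namespace Pool.Agent.Lib.H11Q.A

open Complex Set
open scoped ComplexConjugate Topology

/-- The point of the base line with the coordinate `u`. -/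
noncomputable def pl (u : ℝ) : Disc := SU.act (gl0 * TT u) o0

theorem a30_rot (t : ℝ) (x : Mk) : (rot o0 t).lin x = (x.1, exp ((t : ℂ) * I) * x.2) := by
  have hb : (rot o0 t).b = 0 := by
    unfold rot o0
    simp
  have ha : (rot o0 t).a = exp (((t / 2 : ℝ) : ℂ) * I) := by
    rw [exp_mul_I]
    unfold rot o0
    simp
    ring
  unfold SU.lin
  rw [hb, ha]
  have h1 : normSq (exp (((t / 2 : ℝ) : ℂ) * I)) = 1 := by
    rw [normSq_eq_norm_sq, norm_exp_ofReal_mul_I]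
    norm_num
  have h2 : exp (((t / 2 : ℝ) : ℂ) * I) ^ 2 = exp ((t : ℂ) * I) := by
    rw [← Complex.exp_nat_mul]
    congr 1
    push_cast
    ring
  rw [h1, h2]
  ext1
  · simp
  · simp

theorem a30_TT (u : ℝ) (x : Mk) : (TT u).lin x = (Real.cosh u * x.1 + Real.sinh u * x.2.re,
    ⟨Real.sinh u * x.1 + Real.cosh u * x.2.re, x.2.im⟩) := by
  have h1 : Real.cosh u = Real.cosh (u / 2) ^ 2 + Real.sinh (u / 2) ^ 2 := by
    rw [← Real.cosh_two_mul]
    congr 1
    ring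
  have h2 : Real.sinh u = 2 * Real.sinh (u / 2) * Real.cosh (u / 2) := by
    rw [← Real.sinh_two_mul]
    congr 1
    ring
  have h3 : Real.cosh (u / 2) ^ 2 - Real.sinh (u / 2) ^ 2 = 1 := Real.cosh_sq_sub_sinh_sq _
  have key : ∀ p q : ℝ, p ^ 2 - q ^ 2 = 1 → ∀ h : normSq (p : ℂ) - normSq (q : ℂ) = 1,
      (⟨(p : ℂ), (q : ℂ), h⟩ : SU).lin x = ((p ^ 2 + q ^ 2) * x.1 + 2 * q * p * x.2.re,
        ⟨2 * q * p * x.1 + (p ^ 2 + q ^ 2) * x.2.re, x.2.im⟩) := by
    intro p q hpq h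
    unfold SU.lin
    ext1
    · simp [normSq_ofReal]
      ring
    · apply Complex.ext
      · simp [pow_two]
        ring
      · simp [pow_two]
        linear_combination x.2.im * hpq
  rw [h1, h2]
  exact key _ _ h3 _

theorem a30_TT_O (u : ℝ) : (TT u).lin O = (Real.cosh u, (Real.sinh u : ℂ)) := by
  rw [a30_TT]
  unfold O
  ext1
  · simp
  · apply Complex.ext
    · simp only [mul_one, Complex.zero_re, mul_zero, add_zero, Complex.ofReal_re]
    · simp only [Complex.zero_im, Complex.ofReal_im]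

theorem a30_lin_gl0 (x : Mk) : gl0.lin x = (Real.cosh d0 * x.1 + Real.sinh d0 * x.2.im,
    exp (((2 * Real.pi / 7 : ℝ) : ℂ) * I) * ⟨Real.sinh d0 * x.1 + Real.cosh d0 * x.2.im, -x.2.re⟩) := by
  have h1 : exp (((-(Real.pi / 2) : ℝ) : ℂ) * I) = -I := by
    rw [exp_mul_I, ← Complex.ofReal_cos, ← Complex.ofReal_sin, Real.cos_neg, Real.sin_neg, Real.cos_pi_div_two, Real.sin_pi_div_two]
    simp
  unfold gl0
  rw [lin_mul, lin_mul, a30_rot, a30_TT, a30_rot, h1]
  ext1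
  · simp
  · simp

theorem a30_Om_pl (u : ℝ) : Om (pl u : ℂ) = gl0.lin (Real.cosh u, (Real.sinh u : ℂ)) := by
  have h1 : Om (pl u : ℂ) = (gl0 * TT u).lin (Om (o0 : ℂ)) := Om_app (gl0 * TT u) o0.2
  rw [h1, Om_o0, lin_mul, a30_TT_O]

/-- PROOF. `TT u` maps `O` to `(cosh u, sinh u)`, `R(-pi/2)` maps `(cosh u, sinh u)` to `(cosh u, -I sinh u)`, then `TT d0`, `R(2 pi/7)`. -/
theorem Om_pl (u : ℝ) : Om (pl u : ℂ) = (Real.cosh u * Real.cosh d0,
    (Real.cosh u * Real.sinh d0 - I * Real.sinh u) * exp (((2 * Real.pi / 7 : ℝ) : ℂ) * I)) := by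
  rw [a30_Om_pl, a30_lin_gl0]
  ext1
  · simp only [Complex.ofReal_im, mul_zero, add_zero]
    ring
  · simp only [Complex.ofReal_im, mul_zero, add_zero, Complex.ofReal_re]
    have e : (⟨Real.sinh d0 * Real.cosh u, -Real.sinh u⟩ : ℂ) = Real.cosh u * Real.sinh d0 - I * Real.sinh u := by
      have e' : ∀ p q r : ℝ, (⟨p * q, -r⟩ : ℂ) = (q : ℂ) * (p : ℂ) - I * (r : ℂ) := by
        intro p q r
        apply Complex.ext
        · simp
          ring
        · simp
      exact e' _ _ _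
    rw [e]
    ring

/-- PROOF. `pl u` has `mink = 0` with `nu gl0`; conversely `z = gl0 y`, `y` on the real diameter (`sg_eq`), `y = tanh (u/2)`. -/
theorem mem_L0 (z : Disc) : z ∈ L0 ↔ ∃ u : ℝ, z = pl u := by
  constructor
  · intro hz
    have hz' : mink (Om z) (nu gl0) = 0 := hz
    set y := gl0⁻¹.lin (Om z) with hy
    have h1 : gl0.lin y = Om z := by
      rw [hy, ← lin_mul, mul_inv_cancel, lin_one]
    have h2 : y.2.im = 0 := by
      rw [← h1] at hz'
      have h3 : mink y (0, I) = 0 := by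
        rw [← mink_lin gl0]
        exact hz'
      unfold mink at h3
      simp at h3
      linarith
    have h4 : mink y y = 1 := by
      rw [← mink_lin gl0, h1, mink_Om_self z.2]
    have h5 : y.1 ^ 2 = 1 + y.2.re ^ 2 := by
      unfold mink at h4
      simp [h2] at h4
      linarith
    have h6 : 0 < y.1 := by
      have h7 : Om (gl0⁻¹.app z) = y := by rw [hy, Om_app gl0⁻¹ z.2]
      have h8 : ‖gl0⁻¹.app z‖ < 1 := gl0⁻¹.app_norm_lt z.2
      rw [← h7]
      unfold Om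
      have h9 := norm_nonneg (gl0⁻¹.app (z : ℂ))
      have h10 : 0 < 1 - ‖gl0⁻¹.app (z : ℂ)‖ ^ 2 := by nlinarith
      positivity
    set u := Real.arsinh y.2.re with hu
    have hs : Real.sinh u = y.2.re := Real.sinh_arsinh _
    have hc : Real.cosh u = y.1 := by
      have h11 := Real.cosh_sq u
      rw [hs] at h11
      have h12 : Real.cosh u ^ 2 = y.1 ^ 2 := by rw [h11, h5]; ring
      exact (pow_left_inj₀ (Real.cosh_pos u).le h6.le two_ne_zero).1 h12
    refine ⟨u, Subtype.ext (Om_inj z.2 (pl u).2 ?_)⟩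
    rw [a30_Om_pl, hs, hc, ← h1]
    congr 1
    ext1
    · rfl
    · apply Complex.ext
      · simp
      · simp [h2]
  · rintro ⟨u, rfl⟩
    show mink (Om (pl u)) (nu gl0) = 0
    rw [a30_Om_pl]
    unfold nu
    rw [mink_lin]
    unfold mink
    have e : ∀ p q : ℝ, ((p, (q : ℂ)) : Mk).1 * ((0, I) : Mk).1 - (((p, (q : ℂ)) : Mk).2 * conj ((0, I) : Mk).2).re = 0 := by
      intro p q
      simp
    exact e _ _

theorem a30_s_pos : 0 < Real.sin (Real.pi / 7) := pi7_pos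

theorem a30_q : 0 < 1 - 4 * Real.sin (Real.pi / 7) ^ 2 := by
  have h := sin7_bd
  nlinarith [h.1, h.2]

theorem a30_sinh_u0 : Real.sinh u0 = Real.sqrt (1 - 4 * Real.sin (Real.pi / 7) ^ 2) / 2 := by
  unfold u0
  rw [Real.sinh_arsinh]
  have h := Real.sin_sq_add_cos_sq (Real.pi / 7)
  have e : Real.cos (Real.pi / 7) ^ 2 - 3 / 4 = (1 - 4 * Real.sin (Real.pi / 7) ^ 2) / 4 := by linarith
  rw [e, Real.sqrt_div a30_q.le]
  congr 1
  rw [show (4 : ℝ) = 2 ^ 2 by norm_num, Real.sqrt_sq (by norm_num)]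

theorem a30_cosh_u0 : Real.cosh u0 = Real.sqrt (1 + 4 * Real.cos (Real.pi / 7) ^ 2) / 2 := by
  have h1 := Real.cosh_sq u0
  rw [a30_sinh_u0, div_pow, Real.sq_sqrt a30_q.le] at h1
  have h := Real.sin_sq_add_cos_sq (Real.pi / 7)
  have h2 : Real.cosh u0 ^ 2 = (Real.sqrt (1 + 4 * Real.cos (Real.pi / 7) ^ 2) / 2) ^ 2 := by
    rw [h1, div_pow, Real.sq_sqrt (by positivity)]
    linarith
  exact (pow_left_inj₀ (Real.cosh_pos u0).le (by positivity) two_ne_zero).1 h2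

theorem a30_c72 : Real.sqrt (c72 ^ 2 - 1) = Real.sqrt (1 - 4 * Real.sin (Real.pi / 7) ^ 2) / (2 * Real.sin (Real.pi / 7)) := by
  have hs := a30_s_pos
  rw [Real.sqrt_eq_iff_mul_self_eq_of_pos (by have := a30_q; positivity)]
  have h1 := Real.mul_self_sqrt a30_q.le
  unfold c72
  have hs' := hs.ne'
  field_simp
  nlinarith

theorem a30_sqrt_td : Real.sqrt (1 - td ^ 2) = Real.sin (Real.pi / 7) * Real.sqrt (1 + 4 * Real.cos (Real.pi / 7) ^ 2) := by
  have hs := a30_s_pos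
  rw [Real.sqrt_eq_iff_mul_self_eq_of_pos (by positivity)]
  have h1 := Real.mul_self_sqrt (show (0 : ℝ) ≤ 1 + 4 * Real.cos (Real.pi / 7) ^ 2 by positivity)
  have h2 := Real.sq_sqrt a30_q.le
  have h := Real.sin_sq_add_cos_sq (Real.pi / 7)
  unfold td
  rw [mul_pow, h2]
  have e : Real.sin (Real.pi / 7) * Real.sqrt (1 + 4 * Real.cos (Real.pi / 7) ^ 2) * (Real.sin (Real.pi / 7) * Real.sqrt (1 + 4 * Real.cos (Real.pi / 7) ^ 2)) =
      Real.sin (Real.pi / 7) ^ 2 * (Real.sqrt (1 + 4 * Real.cos (Real.pi / 7) ^ 2) * Real.sqrt (1 + 4 * Real.cos (Real.pi / 7) ^ 2)) := by ring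
  rw [e, h1]
  have hc : Real.cos (Real.pi / 7) ^ 2 = 1 - Real.sin (Real.pi / 7) ^ 2 := by linarith
  rw [hc]
  ring

theorem a30_prod : Real.cosh u0 * Real.cosh d0 = c72 := by
  have hs := a30_s_pos
  have h1 : 0 < Real.sqrt (1 + 4 * Real.cos (Real.pi / 7) ^ 2) := Real.sqrt_pos.2 (by positivity)
  rw [a30_cosh_u0, cosh_d0, a30_sqrt_td]
  unfold c72
  field_simp

theorem a30_prod' : Real.cosh u0 * Real.sinh d0 = Real.sqrt (c72 ^ 2 - 1) * Real.cos (Real.pi / 7) := by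
  have hs := a30_s_pos
  have h1 : 0 < Real.sqrt (1 + 4 * Real.cos (Real.pi / 7) ^ 2) := Real.sqrt_pos.2 (by positivity)
  rw [a30_cosh_u0, sinh_d0, a30_sqrt_td, a30_c72]
  unfold td
  field_simp

theorem a30_sinh' : Real.sinh u0 = Real.sqrt (c72 ^ 2 - 1) * Real.sin (Real.pi / 7) := by
  have hs := a30_s_pos
  rw [a30_sinh_u0, a30_c72]
  field_simp

/-- PROOF. `cosh u0 cosh d0 = c72`: `cosh^2 u0 = 1/4 + cos^2 (pi/7)`, `1 - td^2 = (sin^2 + 4 sin^2 cos^2)`, `c72^2 (1 - td^2) = (1 + 4 cos^2)/4`. Second component: `cosh u0 sinh d0 - I sinh u0` must be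
`sqrt (c72^2-1) e^{-i pi/7}`: real part `c72 td = sqrt(c72^2-1) cos(pi/7)`, imaginary part `sinh^2 u0 = cos^2 - 3/4 = 1/4 - sin^2 = (c72^2 - 1) sin^2`. -/
theorem Om_pl_u0 : Om (pl u0 : ℂ) = M0 := by
  rw [Om_pl, M0_eq, a30_prod]
  ext1
  · rfl
  · simp only
    have e1 : (Real.cosh u0 : ℂ) * (Real.sinh d0 : ℂ) - I * (Real.sinh u0 : ℂ) =
        (Real.sqrt (c72 ^ 2 - 1) : ℂ) * exp (-(((Real.pi / 7 : ℝ) : ℂ) * I)) := by
      have e2 : -(((Real.pi / 7 : ℝ) : ℂ) * I) = ((-(Real.pi / 7) : ℝ) : ℂ) * I := by push_cast; ring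
      rw [← Complex.ofReal_mul, a30_prod', a30_sinh', e2, exp_mul_I, ← Complex.ofReal_cos, ← Complex.ofReal_sin, Real.cos_neg, Real.sin_neg]
      push_cast
      ring
    rw [e1, mul_assoc, ← Complex.exp_add]
    congr 2
    push_cast
    ring

theorem Om_pl_neg_u0 : Om (pl (-u0) : ℂ) = M1 := by
  rw [Om_pl, M1_eq, Real.cosh_neg, Real.sinh_neg, a30_prod]
  ext1
  · rfl
  · simp only
    have e1 : (Real.cosh u0 : ℂ) * (Real.sinh d0 : ℂ) - I * ((-Real.sinh u0 : ℝ) : ℂ) =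
        (Real.sqrt (c72 ^ 2 - 1) : ℂ) * exp (((Real.pi / 7 : ℝ) : ℂ) * I) := by
      rw [← Complex.ofReal_mul, a30_prod', a30_sinh', exp_mul_I, ← Complex.ofReal_cos, ← Complex.ofReal_sin]
      push_cast
      ring
    rw [e1, mul_assoc, ← Complex.exp_add]
    congr 2
    push_cast
    ring

/-- PROOF. `Om (g z) = g.lin (Om z)` and `Om_inj`. -/
theorem act_eq_of_lin {g k : SU} (h : ∀ x, g.lin x = k.lin x) : SU.act g = SU.act k := by
  apply Homeomorph.ext
  intro z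
  apply Subtype.ext
  refine Om_inj (SU.act g z).2 (SU.act k z).2 ?_
  show Om (g.app z) = Om (k.app z)
  rw [Om_app g z.2, Om_app k z.2, h]

theorem a30_lin_neg (g : SU) (x : Mk) : g.lin (-x) = -g.lin x := by
  have h := lin_smul g (-1) x
  rw [neg_one_smul, neg_one_smul] at h
  exact h

theorem a30_lin_sub (g : SU) (x y : Mk) : g.lin (x - y) = g.lin x - g.lin y := by
  rw [sub_eq_add_neg, lin_add, a30_lin_neg, ← sub_eq_add_neg]

theorem a30_iot (x : Mk) : iot.lin x = (x.1, -x.2) := by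
  unfold SU.lin iot
  ext1
  · simp
  · simp

theorem a30_turn (u : ℝ) (x : Mk) : (TT (2 * u)).lin (iot.lin x) =
    (2 * mink x (Real.cosh u, (Real.sinh u : ℂ))) • ((Real.cosh u, (Real.sinh u : ℂ)) : Mk) - x := by
  have h := Real.cosh_sq_sub_sinh_sq u
  rw [a30_iot, a30_TT, Real.cosh_two_mul, Real.sinh_two_mul]
  have key : ∀ p q : ℝ, p ^ 2 - q ^ 2 = 1 → (((p ^ 2 + q ^ 2) * x.1 + 2 * q * p * (-x.2).re, ⟨2 * q * p * x.1 + (p ^ 2 + q ^ 2) * (-x.2).re, (-x.2).im⟩) : Mk) =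
      (2 * mink x (p, (q : ℂ))) • ((p, (q : ℂ)) : Mk) - x := by
    intro p q hpq
    unfold mink
    ext1
    · simp
      linear_combination (-x.1) * hpq
    · apply Complex.ext
      · simp
        linear_combination (-x.2.re) * hpq
      · simp
  exact key _ _ h

theorem a30_half {g : SU} (u : ℝ) (h : ∀ x, g.lin x = (2 * mink x (Om (pl u))) • Om (pl u) - x) :
    SU.act g * SU.act gl0 = SU.act gl0 * SU.act (TT (2 * u)) * SU.act iot := by
  rw [← map_mul, ← map_mul, ← map_mul]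
  refine act_eq_of_lin fun x => ?_
  rw [lin_mul, lin_mul, lin_mul, a30_turn, h, a30_Om_pl, mink_lin, a30_lin_sub, lin_smul]

/-- PROOF. `act_eq_of_lin`: `iot.lin x = (2 mink x O) O - x`, `TT (2u) iot = TT u iot (TT u)^{-1}` (up to equality of `lin`), so `gl0 TT(2 u0) iot gl0^{-1}` is `x -> 2 mink x p p - x`, `p = Om (pl u0) = M0`; `lin_e0`. -/
theorem half0 : SU.act (rho e0) * SU.act gl0 = SU.act gl0 * SU.act (TT (2 * u0)) * SU.act iot := by
  refine a30_half u0 fun x => ?_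
  rw [Om_pl_u0, lin_e0]

theorem half1 : SU.act (rho e1) * SU.act gl0 = SU.act gl0 * SU.act (TT (-(2 * u0))) * SU.act iot := by
  have h := a30_half (g := rho e1) (-u0) fun x => by rw [Om_pl_neg_u0, lin_e1]
  rw [mul_neg] at h
  exact h

theorem a30_TT_mul (s t : ℝ) : TT s * TT t = TT (s + t) := by
  have e : (s + t) / 2 = s / 2 + t / 2 := by ring
  ext
  · show (Real.cosh (s / 2) : ℂ) * (Real.cosh (t / 2) : ℂ) + (Real.sinh (s / 2) : ℂ) * conj (Real.sinh (t / 2) : ℂ) = (Real.cosh ((s + t) / 2) : ℂ)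
    rw [e, Real.cosh_add, Complex.conj_ofReal]
    push_cast
    ring
  · show (Real.cosh (s / 2) : ℂ) * (Real.sinh (t / 2) : ℂ) + (Real.sinh (s / 2) : ℂ) * conj (Real.cosh (t / 2) : ℂ) = (Real.sinh ((s + t) / 2) : ℂ)
    rw [e, Real.sinh_add, Complex.conj_ofReal]
    push_cast
    ring

theorem a30_iot_TT (u : ℝ) : SU.act iot (SU.act (TT u) o0) = SU.act (TT (-u)) o0 := by
  apply Subtype.ext
  refine Om_inj (SU.act iot (SU.act (TT u) o0)).2 (SU.act (TT (-u)) o0).2 ?_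
  have h1 : Om (SU.act iot (SU.act (TT u) o0) : ℂ) = iot.lin (Om (SU.act (TT u) o0 : ℂ)) := Om_app iot (SU.act (TT u) o0).2
  have h2 : Om (SU.act (TT u) o0 : ℂ) = (TT u).lin (Om (o0 : ℂ)) := Om_app (TT u) o0.2
  have h3 : Om (SU.act (TT (-u)) o0 : ℂ) = (TT (-u)).lin (Om (o0 : ℂ)) := Om_app (TT (-u)) o0.2
  rw [h1, h2, h3, Om_o0, a30_TT_O, a30_TT_O, a30_iot, Real.cosh_neg, Real.sinh_neg]
  simp only
  rw [Complex.ofReal_neg]

theorem a30_move {e : W} (v u : ℝ) (h : SU.act (rho e) * SU.act gl0 = SU.act gl0 * SU.act (TT v) * SU.act iot) :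
    ac e (pl u) = pl (v - u) := by
  have h1 : ac e (pl u) = (SU.act (rho e) * SU.act gl0) (SU.act (TT u) o0) := by
    unfold pl
    rw [map_mul]
    rfl
  rw [h1, h]
  show SU.act gl0 (SU.act (TT v) (SU.act iot (SU.act (TT u) o0))) = pl (v - u)
  rw [a30_iot_TT]
  unfold pl
  rw [sub_eq_add_neg, ← a30_TT_mul, map_mul, map_mul]
  rfl

/-- PROOF. `half0`, `iot TT u iot = TT (-u)` as maps. -/
theorem e0_pl (u : ℝ) : ac e0 (pl u) = pl (2 * u0 - u) := a30_move _ _ half0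

theorem e1_pl (u : ℝ) : ac e1 (pl u) = pl (-(2 * u0) - u) := a30_move _ _ half1

theorem a30_u0_pos : 0 < u0 := by
  unfold u0
  rw [Real.arsinh_pos_iff, Real.sqrt_pos]
  have h := cos7_bd.1
  nlinarith

/-- PROOF. `x M0 + y M1` with norm 1 is `Om` of a point of the line between `pl u0` and `pl (-u0)`: `x, y >= 0` iff `-u0 <= u <= u0`: `Om (pl u) = (sinh(u0+u) M0 + sinh(u0-u) M1)/sinh (2 u0)`. -/
theorem mem_Seg (z : Disc) : z ∈ Seg ↔ ∃ u : ℝ, -u0 ≤ u ∧ u ≤ u0 ∧ z = pl u := by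
  have hu0 := a30_u0_pos
  have hs0 : 0 < Real.sinh u0 := Real.sinh_pos_iff.2 hu0
  have hc0 := Real.cosh_pos u0
  have hM : ∀ x y : ℝ, x • M0 + y • M1 = gl0.lin ((x + y) * Real.cosh u0, (((x - y) * Real.sinh u0 : ℝ) : ℂ)) := by
    intro x y
    rw [← Om_pl_u0, ← Om_pl_neg_u0, a30_Om_pl, a30_Om_pl, ← lin_smul, ← lin_smul, ← lin_add]
    congr 1
    rw [Real.cosh_neg, Real.sinh_neg]
    ext1
    · simp
      ring
    · simp
      ring
  constructor
  · rintro ⟨x, y, hx, hy, h⟩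
    have hL : z ∈ L0 := by
      show mink (Om z) (nu gl0) = 0
      rw [h, hM]
      unfold nu
      rw [mink_lin]
      have e : ∀ p q : ℝ, mink ((p, (q : ℂ)) : Mk) ((0, I) : Mk) = 0 := by
        intro p q
        unfold mink
        simp
      exact e _ _
    obtain ⟨u, hu⟩ := (mem_L0 z).1 hL
    have h1 : gl0.lin (Real.cosh u, (Real.sinh u : ℂ)) = gl0.lin ((x + y) * Real.cosh u0, (((x - y) * Real.sinh u0 : ℝ) : ℂ)) := by
      rw [← a30_Om_pl, ← hu, h, hM]
    have h2 := congrArg (fun t => gl0⁻¹.lin t) h1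
    simp only [← lin_mul, inv_mul_cancel, lin_one] at h2
    have h3 : Real.cosh u = (x + y) * Real.cosh u0 := congrArg Prod.fst h2
    have h4 : Real.sinh u = (x - y) * Real.sinh u0 := by
      have := congrArg Prod.snd h2
      exact Complex.ofReal_injective this
    have hsc := mul_pos hs0 hc0
    refine ⟨u, ?_, ?_, hu⟩
    · have h5 : 0 ≤ Real.sinh (u0 + u) := by
        rw [Real.sinh_add, h3, h4]
        nlinarith [mul_nonneg hx hsc.le]
      have := Real.sinh_nonneg_iff.1 h5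
      linarith
    · have h5 : 0 ≤ Real.sinh (u0 - u) := by
        rw [Real.sinh_sub, h3, h4]
        nlinarith [mul_nonneg hy hsc.le]
      have := Real.sinh_nonneg_iff.1 h5
      linarith
  · rintro ⟨u, h1, h2, rfl⟩
    have h3 : 0 < Real.sinh (2 * u0) := Real.sinh_pos_iff.2 (by linarith)
    refine ⟨Real.sinh (u0 + u) / Real.sinh (2 * u0), Real.sinh (u0 - u) / Real.sinh (2 * u0),
      div_nonneg (Real.sinh_nonneg_iff.2 (by linarith)) h3.le, div_nonneg (Real.sinh_nonneg_iff.2 (by linarith)) h3.le, ?_⟩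
    rw [hM, a30_Om_pl]
    congr 1
    have e1 : (Real.sinh (u0 + u) / Real.sinh (2 * u0) + Real.sinh (u0 - u) / Real.sinh (2 * u0)) * Real.cosh u0 = Real.cosh u := by
      rw [← add_div, Real.sinh_add, Real.sinh_sub, Real.sinh_two_mul]
      field_simp
      ring
    have e2 : (Real.sinh (u0 + u) / Real.sinh (2 * u0) - Real.sinh (u0 - u) / Real.sinh (2 * u0)) * Real.sinh u0 = Real.sinh u := by
      rw [← sub_div, Real.sinh_add, Real.sinh_sub, Real.sinh_two_mul]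
      field_simp
      ring
    rw [e1, e2]

end Pool.Agent.Lib.H11Q.A
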