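import Mathlib
import Pool.Agent.Lib.H11Q.AD
import Pool.Agent.Lib.H11Q.A27
import Pool.Agent.Lib.H11Q.A29
import Pool.Agent.Lib.H11Q.A30

/-! # H11Q (MP_a00a7b_an) module A, chunk A31: the infinite dihedral group of the base line (4.5) -/

set_option autoImplicit false

namespace Pool.Agent.Lib.H11Q.A

open Complex Set
open scoped ComplexConjugate Topology

/-- The group generated by the two half-turns. -/
def HH : Subgroup W := Subgroup.closure {e0, e1}

theorem HH_le : HH ≤ Gam0 := by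
  unfold HH
  rw [Subgroup.closure_le]
  rintro x (rfl | rfl)
  · exact e0_mem
  · exact e1_mem

theorem a31_e0_mem : e0 ∈ HH := Subgroup.subset_closure (Or.inl rfl)

theorem a31_e1_mem : e1 ∈ HH := Subgroup.subset_closure (Or.inr rfl)

theorem a31_u0_pos : 0 < u0 := by
  unfold u0
  rw [Real.arsinh_pos_iff, Real.sqrt_pos]
  have h := cos7_bd.1
  nlinarith

theorem a31_shift (u : ℝ) : ac (e0 * e1) (pl u) = pl (u + 4 * u0) := by
  have h : ac (e0 * e1) (pl u) = ac e0 (ac e1 (pl u)) := by rw [map_mul]; rfl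
  rw [h, e1_pl, e0_pl]
  congr 1
  ring

theorem a31_shift_nat (n : ℕ) : ∀ u : ℝ, ac ((e0 * e1) ^ n) (pl u) = pl (u + 4 * u0 * n) := by
  induction n with
  | zero =>
    intro u
    rw [pow_zero, map_one]
    simp
  | succ n ih =>
    intro u
    have h : ac ((e0 * e1) ^ (n + 1)) (pl u) = ac ((e0 * e1) ^ n) (ac (e0 * e1) (pl u)) := by
      rw [pow_succ, map_mul]; rfl
    rw [h, a31_shift, ih]
    congr 1
    push_cast
    ring

theorem a31_shift_int (n : ℤ) (u : ℝ) : ∃ s ∈ HH, ac s (pl u) = pl (u + 4 * u0 * n) := by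
  have hm : e0 * e1 ∈ HH := HH.mul_mem a31_e0_mem a31_e1_mem
  rcases le_total 0 n with h | h
  · obtain ⟨m, rfl⟩ := Int.eq_ofNat_of_zero_le h
    exact ⟨(e0 * e1) ^ m, HH.pow_mem hm m, by rw [a31_shift_nat]; simp⟩
  · obtain ⟨m, hm'⟩ := Int.eq_ofNat_of_zero_le (neg_nonneg.2 h)
    have hn : n = -(m : ℤ) := by omega
    subst hn
    refine ⟨((e0 * e1) ^ m)⁻¹, HH.inv_mem (HH.pow_mem hm m), ?_⟩
    have h1 := a31_shift_nat m (u + 4 * u0 * ((-(m : ℤ) : ℤ) : ℝ))
    have h2 : u + 4 * u0 * ((-(m : ℤ) : ℤ) : ℝ) + 4 * u0 * m = u := by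
      push_cast
      ring
    rw [h2] at h1
    rw [← h1, ← Homeomorph.mul_apply, ← map_mul, inv_mul_cancel, map_one]
    rfl

/-- PROOF (4.5). `z = pl u` (`mem_L0`). `e1 e0`, `e0 e1` act by `u -> u -+ 4 u0` (`e0_pl`, `e1_pl`), so `u` can be moved to `[-2 u0, 2 u0]`; if `u > u0` apply `e0`, if `u < -u0` apply `e1`. (`u0 > 0`.) -/
theorem to_Seg (z : Disc) (hz : z ∈ L0) : ∃ s ∈ HH, ac s z ∈ Seg := by
  obtain ⟨u, rfl⟩ := (mem_L0 z).1 hz
  have hu0 := a31_u0_pos
  have h4 : 0 < 4 * u0 := by linarith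
  set n : ℤ := ⌊(u + u0) / (4 * u0)⌋ with hn
  obtain ⟨s, hs, h1⟩ := a31_shift_int (-n) u
  have h2 : (n : ℝ) * (4 * u0) ≤ u + u0 := by
    have := Int.floor_le ((u + u0) / (4 * u0))
    rwa [le_div_iff₀ h4] at this
  have h3 : u + u0 < ((n : ℝ) + 1) * (4 * u0) := by
    have := Int.lt_floor_add_one ((u + u0) / (4 * u0))
    rwa [div_lt_iff₀ h4] at this
  push_cast at h1
  by_cases h : u + 4 * u0 * (-(n : ℝ)) ≤ u0
  · refine ⟨s, hs, (mem_Seg _).2 ⟨u + 4 * u0 * (-(n : ℝ)), by linarith, h, h1⟩⟩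
  · refine ⟨e0 * s, HH.mul_mem a31_e0_mem hs, (mem_Seg _).2 ⟨2 * u0 - (u + 4 * u0 * (-(n : ℝ))), ?_, ?_, ?_⟩⟩
    · linarith
    · linarith
    · have h5 : ac (e0 * s) (pl u) = ac e0 (ac s (pl u)) := by rw [map_mul]; rfl
      rw [h5, h1, e0_pl]

theorem a31_lin_neg (g : SU) (x : Mk) : g.lin (-x) = -g.lin x := by
  have h := lin_smul g (-1) x
  rw [neg_one_smul, neg_one_smul] at h
  exact h

/-- PROOF. `lin_e0`, `mink (nu gl0) M0 = 0`: `e0 nu = -nu`, the same for `e1`; closure induction. -/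
theorem HH_nu (s : W) (hs : s ∈ HH) : (rho s).lin (nu gl0) = nu gl0 ∨ (rho s).lin (nu gl0) = -nu gl0 := by
  unfold HH at hs
  induction hs using Subgroup.closure_induction with
  | mem x hx =>
    rcases hx with rfl | rfl
    · right
      rw [lin_e0, mink_comm, mink_M0_nu]
      simp
    · right
      rw [lin_e1, mink_comm, mink_M1_nu]
      simp
  | one =>
    left
    rw [map_one, lin_one]
  | mul x y _ _ hx hy =>
    rw [map_mul, lin_mul]
    rcases hx with hx | hx <;> rcases hy with hy | hy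
    · left; rw [hy, hx]
    · right; rw [hy, a31_lin_neg, hx]
    · right; rw [hy, hx]
    · left; rw [hy, a31_lin_neg, hx, neg_neg]
  | inv x _ hx =>
    have h1 : (rho x⁻¹).lin ((rho x).lin (nu gl0)) = nu gl0 := by
      rw [← lin_mul, ← map_mul, inv_mul_cancel, map_one, lin_one]
    rcases hx with hx | hx
    · left
      rw [hx] at h1
      exact h1
    · right
      rw [hx, a31_lin_neg] at h1
      exact neg_eq_iff_eq_neg.1 h1

theorem u0_pos : 0 < u0 := a31_u0_pos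

theorem Seg_sub_L0 : Seg ⊆ L0 := by
  rintro z ⟨x, y, _, _, h⟩
  show mink (Om z) (nu gl0) = 0
  rw [h, mink_add_left, mink_smul_left, mink_smul_left, mink_M0_nu, mink_M1_nu]
  ring

theorem a31_pl_cont : Continuous pl := by
  have h1 : ∀ u : ℝ, pl u = SU.act gl0 (SU.act (TT u) o0) := by
    intro u
    unfold pl
    rw [map_mul]
    rfl
  have h2 : Continuous fun u : ℝ => SU.act (TT u) o0 := by
    refine Continuous.subtype_mk ?_ _
    have h3 : ∀ u : ℝ, (TT u).app (o0 : ℂ) = (Real.sinh (u / 2) : ℂ) / (Real.cosh (u / 2) : ℂ) := by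
      intro u
      show ((TT u).a * 0 + (TT u).b) / ((starRingEnd ℂ) (TT u).b * 0 + (starRingEnd ℂ) (TT u).a) = _
      rw [mul_zero, zero_add, mul_zero, zero_add]
      unfold TT
      simp only [Complex.conj_ofReal]
    simp only [h3]
    refine Continuous.div (by fun_prop) (by fun_prop) fun u => ?_
    exact_mod_cast (Real.cosh_pos (u / 2)).ne'
  have h4 : pl = fun u => SU.act gl0 (SU.act (TT u) o0) := funext h1
  rw [h4]
  exact (SU.act gl0).continuous.comp h2

/-- PROOF. Image of a compact interval under a continuous map (`mem_Seg`, `pl` is continuous). -/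
theorem Seg_compact : IsCompact Seg := by
  have h : Seg = pl '' Icc (-u0) u0 := by
    ext z
    rw [mem_Seg]
    constructor
    · rintro ⟨u, h1, h2, rfl⟩
      exact ⟨u, ⟨h1, h2⟩, rfl⟩
    · rintro ⟨u, ⟨h1, h2⟩, rfl⟩
      exact ⟨u, h1, h2, rfl⟩
  rw [h]
  exact isCompact_Icc.image a31_pl_cont

/-- PROOF. `1 = mink z z = x^2 + y^2 + 2 x y mink M0 M1 >= (x+y)^2`, `mink (Om z) O = (x+y) c72`. -/
theorem Seg_O (z : Disc) (hz : z ∈ Seg) : mink (Om z) O ≤ c72 := by
  obtain ⟨x, y, hx, hy, h⟩ := hz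
  have h1 : mink (Om (z : ℂ)) (Om (z : ℂ)) = 1 := mink_Om_self z.2
  have h2 : mink M1 M0 = mink M0 M1 := mink_comm _ _
  have h3 : mink M0 O = c72 := by rw [mink_comm]; exact mink_O_M0
  have h4 : mink M1 O = c72 := by rw [mink_comm]; exact mink_O_M1
  rw [h] at h1 ⊢
  simp only [mink_add_left, mink_add_right, mink_smul_left, mink_smul_right] at h1 ⊢
  rw [mink_M0_M0, mink_M1_M1, h2, mink_M0_M1] at h1
  rw [h3, h4]
  have hs := sin7_bd
  have hs2 : Real.sin (Real.pi / 7) ^ 2 < 1 / 4 := by nlinarith [hs.1, hs.2]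
  have hxy : 0 ≤ x * y := mul_nonneg hx hy
  have h5 : (x + y) ^ 2 ≤ 1 := by nlinarith
  have h6 : x + y ≤ 1 := by nlinarith
  have h7 := c72_bd.1
  nlinarith

end Pool.Agent.Lib.H11Q.A
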