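import Mathlib
import Pool.Agent.Lib.H11Q.AD
import Pool.Agent.Lib.H11Q.A01
import Pool.Agent.Lib.H11Q.A02
import Pool.Agent.Lib.H11Q.A11
import Pool.Agent.Lib.H11Q.A18
import Pool.Agent.Lib.H11Q.A19
import Pool.Agent.Lib.H11Q.A21

/-! # H11Q (MP_a00a7b_an) module A, chunk A32: nearest centres of the points of the segment -/

set_option autoImplicit false

namespace Pool.Agent.Lib.H11Q.A

open Complex Set
open scoped ComplexConjugate Topology

theorem a32_one_add (t : ℝ) : (1 : ℂ) + exp (((2 * t : ℝ) : ℂ) * I) = 2 * (Real.cos t : ℂ) * exp ((t : ℂ) * I) := by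
  have h1 : (2 : ℂ) * (Real.cos t : ℂ) = exp ((t : ℂ) * I) + exp (-((t : ℂ) * I)) := by
    have := Complex.two_cos (t : ℂ)
    rw [← Complex.ofReal_cos] at this
    rw [this]
    congr 2
    ring
  rw [h1, add_mul, ← Complex.exp_add, ← Complex.exp_add, neg_add_cancel, Complex.exp_zero, add_comm]
  congr 2
  push_cast
  ring

/-- PROOF. `V_eq`: `1 + e^{2ia} = 2 cos a e^{ia}`, `a = 2 pi/7`. -/
theorem V0_add_V2 : V 0 + V 2 = (2 * Real.cos (2 * Real.pi / 7)) • V 1 + (2 * CC * (1 - Real.cos (2 * Real.pi / 7))) • O := by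
  rw [V_eq, V_eq, V_eq]
  have h := a32_one_add (2 * Real.pi / 7)
  have e0 : exp (((2 * Real.pi * (0 : ℕ) / 7 : ℝ) : ℂ) * I) = 1 := by simp
  have e2 : (2 * Real.pi * (2 : ℕ) / 7 : ℝ) = 2 * (2 * Real.pi / 7) := by push_cast; ring
  have e1 : (2 * Real.pi * (1 : ℕ) / 7 : ℝ) = 2 * Real.pi / 7 := by simp
  rw [e0, e1, e2]
  unfold O
  ext1
  · show CC + CC = 2 * Real.cos (2 * Real.pi / 7) * CC + 2 * CC * (1 - Real.cos (2 * Real.pi / 7)) * 1
    ring
  · show (Real.sqrt (CC ^ 2 - 1) : ℂ) * 1 + (Real.sqrt (CC ^ 2 - 1) : ℂ) * exp (((2 * (2 * Real.pi / 7) : ℝ) : ℂ) * I) =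
      (2 * Real.cos (2 * Real.pi / 7)) • ((Real.sqrt (CC ^ 2 - 1) : ℂ) * exp (((2 * Real.pi / 7 : ℝ) : ℂ) * I)) +
      (2 * CC * (1 - Real.cos (2 * Real.pi / 7))) • (0 : ℂ)
    rw [smul_zero, add_zero, Complex.real_smul, ← mul_add, h]
    push_cast
    ring

/-- PROOF. `D = Om u - O` is orthogonal to `V 0` and `V 1`, so it is a multiple `t` of `n = Om q0 - O` (explicit: `V_eq`; the plane spanned by `V 0`, `V 1` is nondegenerate, its orthogonal complement is a line). `mink (O + t n) (O + t n) = 1`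
gives `t (2 mink O n + t mink n n) = 0`, and `t = 1` is a solution, so `t = 0` or `t = 1`; `Om_inj`. -/
theorem two_circles0 (u : Disc) (h0 : mink (V 0) (Om u) = CC) (h1 : mink (V 1) (Om u) = CC) : u = o0 ∨ u = q0 := by
  have hCC := CC_bd
  have h72 := c72_bd
  have hS2 : 0 < CC ^ 2 - 1 := by nlinarith [hCC.1]
  have hS : 0 < Real.sqrt (CC ^ 2 - 1) := Real.sqrt_pos.2 hS2
  set S := Real.sqrt (CC ^ 2 - 1) with hSd
  set θ : ℝ := 2 * Real.pi / 7 with hθ
  have hsin : 0 < Real.sin θ := by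
    apply Real.sin_pos_of_pos_of_lt_pi
    · rw [hθ]; positivity
    · rw [hθ]; linarith [Real.pi_pos]
  have hV0 : ∀ X : Mk, mink (V 0) X = CC * X.1 - S * X.2.re := by
    intro X
    rw [V_eq]
    have e0 : exp (((2 * Real.pi * (0 : ℕ) / 7 : ℝ) : ℂ) * I) = 1 := by simp
    rw [e0]
    unfold mink
    rw [← hSd]
    simp
  have hV1 : ∀ X : Mk, mink (V 1) X = CC * X.1 - S * (Real.cos θ * X.2.re + Real.sin θ * X.2.im) := by
    intro X
    rw [V_eq]
    have e1 : (2 * Real.pi * (1 : ℕ) / 7 : ℝ) = θ := by rw [hθ]; simp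
    rw [e1, exp_mul_I, ← Complex.ofReal_cos, ← Complex.ofReal_sin]
    unfold mink
    rw [← hSd]
    generalize Real.cos θ = p
    generalize Real.sin θ = q
    simp
    ring
  have hq0 := mink_q0_V0
  have hq1 := mink_q0_V1
  rw [mink_comm] at hq0 hq1
  have hqO := mink_q0_O
  rw [hV0] at h0 hq0
  rw [hV1] at h1 hq1
  set X := Om (u : ℂ) with hX
  set Q := Om (q0 : ℂ) with hQ
  have hXX : mink X X = 1 := mink_Om_self u.2
  have hQQ : mink Q Q = 1 := mink_Om_self q0.2
  have hQ1 : Q.1 = 2 * c72 ^ 2 - 1 := by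
    rw [← hqO]
    unfold mink O
    simp
  have hn0 : 0 < Q.1 - 1 := by rw [hQ1]; nlinarith [h72.1]
  have hn1 : 0 < Q.2.re := by
    have e : S * Q.2.re = CC * (Q.1 - 1) := by linarith
    have : 0 < S * Q.2.re := by rw [e]; exact mul_pos (by linarith [hCC.1]) hn0
    exact (mul_pos_iff_of_pos_left hS).1 this
  set t := X.2.re / Q.2.re with ht
  have e1 : X.2.re = t * Q.2.re := by
    rw [ht]
    field_simp
  have e0 : X.1 - 1 = t * (Q.1 - 1) := by
    have a1 : CC * (X.1 - 1) = S * X.2.re := by linarith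
    have a2 : CC * (Q.1 - 1) = S * Q.2.re := by linarith
    have a3 : CC * (X.1 - 1) = CC * (t * (Q.1 - 1)) := by
      rw [a1, e1]
      linear_combination (-t) * a2
    exact mul_left_cancel₀ (by linarith [hCC.1]) a3
  have e2 : X.2.im = t * Q.2.im := by
    have a1 : S * (Real.cos θ * X.2.re + Real.sin θ * X.2.im) = S * X.2.re := by linarith
    have a2 : S * (Real.cos θ * Q.2.re + Real.sin θ * Q.2.im) = S * Q.2.re := by linarith
    have a1' := mul_left_cancel₀ hS.ne' a1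
    have a2' := mul_left_cancel₀ hS.ne' a2
    have a3 : Real.sin θ * X.2.im = Real.sin θ * (t * Q.2.im) := by
      rw [e1] at a1'
      linear_combination a1' - t * a2'
    exact mul_left_cancel₀ hsin.ne' a3
  have m1 : X.1 ^ 2 - X.2.re ^ 2 - X.2.im ^ 2 = 1 := by
    unfold mink at hXX
    simp at hXX
    linarith
  have m2 : Q.1 ^ 2 - Q.2.re ^ 2 - Q.2.im ^ 2 = 1 := by
    unfold mink at hQQ
    simp at hQQ
    linarith
  have e0' : X.1 = 1 + t * (Q.1 - 1) := by linarith
  have m3 : t * (1 - t) * (Q.1 - 1) = 0 := by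
    rw [e0', e1, e2] at m1
    linear_combination (1 / 2) * m1 - (t ^ 2 / 2) * m2
  rcases mul_eq_zero.1 m3 with m4 | m4
  · rcases mul_eq_zero.1 m4 with m5 | m5
    · left
      apply Subtype.ext
      refine Om_inj u.2 o0.2 ?_
      rw [Om_o0]
      unfold O
      ext1
      · rw [← hX, e0', m5]; ring
      · apply Complex.ext
        · rw [← hX, e1, m5]; simp
        · rw [← hX, e2, m5]; simp
    · right
      have ht1 : t = 1 := by linarith
      apply Subtype.ext
      refine Om_inj u.2 q0.2 ?_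
      ext1
      · rw [← hX, ← hQ, e0', ht1]; ring
      · apply Complex.ext
        · rw [← hX, ← hQ, e1, ht1]; ring
        · rw [← hX, ← hQ, e2, ht1]; ring
  · exact absurd m4 hn0.ne'

/-- PROOF. Apply `wA^{-1}`: `q1 = ac wA q0`. -/
theorem two_circles1 (u : Disc) (h0 : mink (V 1) (Om u) = CC) (h1 : mink (V 2) (Om u) = CC) : u = o0 ∨ u = q1 := by
  have hA : ∀ j : ℕ, mink (V j) (Om (ac wA⁻¹ u : ℂ)) = mink (V (j + 1)) (Om u) := by
    intro j
    rw [← lin_wA_V j, Om_ac]
    conv_rhs => rw [show Om (u : ℂ) = (rho wA).lin ((rho wA⁻¹).lin (Om u)) by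
      rw [← lin_mul, ← map_mul, mul_inv_cancel, map_one, lin_one]]
    rw [mink_lin]
  have hu : u = ac wA (ac wA⁻¹ u) := by
    rw [← Homeomorph.mul_apply, ← map_mul, mul_inv_cancel, map_one]
    rfl
  rcases two_circles0 (ac wA⁻¹ u) (by rw [hA]; exact h0) (by rw [hA]; exact h1) with h | h
  · left
    rw [hu, h, ac_wA_o0]
  · right
    rw [hu, h]
    have h2 : ac wA⁻¹ o0 = o0 := by
      conv_lhs => rw [← ac_wA_o0]
      rw [← Homeomorph.mul_apply, ← map_mul, inv_mul_cancel, map_one]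
      rfl
    have h3 : ac e1 o0 = ac wA (ac e0 (ac wA⁻¹ o0)) := by
      show ac (wA * (wA * wB) * wA⁻¹) o0 = _
      rw [map_mul, map_mul]
      rfl
    unfold q1 q0
    rw [h3, h2]

theorem a32_key (j : ℕ) (w : W) : CC ≤ mink (V j) (Om (ac w o0 : ℂ)) := key' w (wA ^ j)

theorem a32_V_O (j : ℕ) : mink (V j) O = CC := by rw [mink_comm]; exact mink_O_V j

theorem a32_coord {z : Disc} (hz : z ∈ Seg) : ∃ x y : ℝ, 0 ≤ x ∧ 0 ≤ y ∧ Om z = x • V 0 + (x + y) • V 1 + y • V 2 := by
  obtain ⟨x, y, hx, hy, h⟩ := hz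
  have h32 := c32_bd
  have hp : 0 < c32 := by linarith [h32.1]
  refine ⟨x * (1 / (2 * c32)), y * (1 / (2 * c32)), by positivity, by positivity, ?_⟩
  rw [h]
  unfold M0 M1
  module

/-- PROOF. `Om z = x' (V 0 + V 1) + y' (V 1 + V 2)`, `x', y' >= 0`: `mink (V j) (Om c) >= CC = mink (V j) O`. -/
theorem Seg_le (z : Disc) (hz : z ∈ Seg) (w : W) : mink (Om z) O ≤ mink (Om z) (Om (ac w o0 : ℂ)) := by
  obtain ⟨x, y, hx, hy, h⟩ := a32_coord hz
  rw [h]
  simp only [mink_add_left, mink_smul_left]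
  rw [a32_V_O, a32_V_O, a32_V_O]
  have k0 := a32_key 0 w
  have k1 := a32_key 1 w
  have k2 := a32_key 2 w
  have hxy : 0 ≤ x + y := add_nonneg hx hy
  have a0 := mul_le_mul_of_nonneg_left k0 hx
  have a1 := mul_le_mul_of_nonneg_left k1 hxy
  have a2 := mul_le_mul_of_nonneg_left k2 hy
  linarith

/-- PROOF. If `x', y' > 0`: if `x' >= y'` then `Om z = (x'-y') V 0 + (x' + y' + 2 cos(2 pi/7) y') V 1 + 2 CC (1 - cos (2 pi/7)) y' O` (`V0_add_V2`), `near_lt` with `j = 0`; if `x' <= y'` the same with `j = 1`: so `ac w o0 = o0`. If `y' = 0` (then `x' > 0`):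
`mink (V 0) + mink (V 1) = 2 CC`, both `>= CC`, `two_circles0`. If `x' = 0`: `two_circles1`. -/
theorem Seg_eq (z : Disc) (hz : z ∈ Seg) (w : W) (h : mink (Om z) (Om (ac w o0 : ℂ)) ≤ mink (Om z) O) :
    ac w o0 = o0 ∨ ac w o0 = q0 ∨ ac w o0 = q1 := by
  obtain ⟨x, y, hx, hy, hz'⟩ := a32_coord hz
  have k0 := a32_key 0 w
  have k1 := a32_key 1 w
  have k2 := a32_key 2 w
  have hcos : Real.cos (2 * Real.pi / 7) < 1 := by
    have h2 : Real.cos (2 * Real.pi / 7) < Real.cos 0 := by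
      apply Real.cos_lt_cos_of_nonneg_of_le_pi le_rfl
      · linarith [Real.pi_pos]
      · linarith [Real.pi_pos]
    rwa [Real.cos_zero] at h2
  have hcos0 : 0 < Real.cos (2 * Real.pi / 7) := by
    apply Real.cos_pos_of_mem_Ioo
    constructor
    · linarith [Real.pi_pos]
    · linarith [Real.pi_pos]
  have hCC := CC_bd
  rcases hx.eq_or_lt with hx0 | hx0
  · rcases hy.eq_or_lt with hy0 | hy0
    · exfalso
      have h1 : mink (Om (z : ℂ)) (Om (z : ℂ)) = 1 := mink_Om_self z.2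
      rw [hz', ← hx0, ← hy0] at h1
      simp only [mink_add_left, mink_smul_left] at h1
      linarith
    · rw [hz', ← hx0] at h
      simp only [mink_add_left, mink_smul_left] at h
      rw [a32_V_O, a32_V_O, a32_V_O] at h
      have h3 : y * (mink (V 1) (Om (ac w o0 : ℂ)) + mink (V 2) (Om (ac w o0 : ℂ)) - 2 * CC) ≤ 0 := by linarith
      have h4 : mink (V 1) (Om (ac w o0 : ℂ)) + mink (V 2) (Om (ac w o0 : ℂ)) - 2 * CC ≤ 0 := by
        by_contra hcon
        exact absurd h3 (not_le.2 (mul_pos hy0 (not_le.1 hcon)))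
      rcases two_circles1 (ac w o0) (by linarith) (by linarith) with h5 | h5
      · exact Or.inl h5
      · exact Or.inr (Or.inr h5)
  · rcases hy.eq_or_lt with hy0 | hy0
    · rw [hz', ← hy0] at h
      simp only [mink_add_left, mink_smul_left] at h
      rw [a32_V_O, a32_V_O, a32_V_O] at h
      have h3 : x * (mink (V 0) (Om (ac w o0 : ℂ)) + mink (V 1) (Om (ac w o0 : ℂ)) - 2 * CC) ≤ 0 := by linarith
      have h4 : mink (V 0) (Om (ac w o0 : ℂ)) + mink (V 1) (Om (ac w o0 : ℂ)) - 2 * CC ≤ 0 := by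
        by_contra hcon
        exact absurd h3 (not_le.2 (mul_pos hx0 (not_le.1 hcon)))
      rcases two_circles0 (ac w o0) (by linarith) (by linarith) with h5 | h5
      · exact Or.inl h5
      · exact Or.inr (Or.inl h5)
    · left
      by_contra hne
      have hV2 : V 2 = (2 * Real.cos (2 * Real.pi / 7)) • V 1 + (2 * CC * (1 - Real.cos (2 * Real.pi / 7))) • O - V 0 := by
        rw [← V0_add_V2]
        abel
      have hV0 : V 0 = (2 * Real.cos (2 * Real.pi / 7)) • V 1 + (2 * CC * (1 - Real.cos (2 * Real.pi / 7))) • O - V 2 := by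
        rw [← V0_add_V2]
        abel
      set kk := 2 * Real.cos (2 * Real.pi / 7) with hkk
      set mm := 2 * CC * (1 - Real.cos (2 * Real.pi / 7)) with hmm
      have hkk0 : 0 < kk := by rw [hkk]; linarith
      have hmm0 : 0 < mm := by
        rw [hmm]
        exact mul_pos (by linarith [hCC.1]) (by linarith)
      rcases le_total y x with hyx | hxy
      · have e : Om (z : ℂ) = (y * mm) • O + (x - y) • V 0 + (x + y + y * kk) • V (0 + 1) := by
          rw [hz', hV2, zero_add]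
          module
        have h1 := near_lt 0 (mul_pos hy0 hmm0) (sub_nonneg.2 hyx) (by positivity : 0 ≤ x + y + y * kk) w hne
        rw [← e] at h1
        exact absurd h (not_le.2 h1)
      · have e : Om (z : ℂ) = (x * mm) • O + (x + y + x * kk) • V 1 + (y - x) • V (1 + 1) := by
          rw [hz', hV0]
          module
        have h1 := near_lt 1 (mul_pos hx0 hmm0) (by positivity : 0 ≤ x + y + x * kk) (sub_nonneg.2 hxy) w hne
        rw [← e] at h1
        exact absurd h (not_le.2 h1)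

end Pool.Agent.Lib.H11Q.A
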