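import Mathlib
import Pool.Agent.Lib.H11Q.AD
import Pool.Agent.Lib.H11Q.A18
import Pool.Agent.Lib.H11Q.A27
import Pool.Agent.Lib.H11Q.A31
import Pool.Agent.Lib.H11Q.A32

/-! # H11Q (MP_a00a7b_an) module A, chunk A33: 4.6 and 4.8 -/

set_option autoImplicit false

namespace Pool.Agent.Lib.H11Q.A

open Complex Set
open scoped ComplexConjugate Topology

theorem a33_lin_neg (g : SU) (x : Mk) : g.lin (-x) = -g.lin x := by
  have h := lin_smul g (-1) x
  rw [neg_one_smul, neg_one_smul] at h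
  exact h

theorem a33_of_trivial {g : SU} (h : SU.act g = 1) (x : Mk) : g.lin x = x := by
  obtain ⟨hb, ha⟩ := act_eq_one g h
  unfold SU.lin
  rcases ha with ha | ha
  · rw [ha, hb]
    simp
  · rw [ha, hb]
    simp

theorem a33_sq {e γ : W} (he : ac (e * e) = 1) (h : ac (γ * e) = 1) : ac γ = ac e := by
  have h1 : ac γ * ac e = ac e * ac e := by
    rw [← map_mul, h, ← map_mul, he]
  exact mul_right_cancel h1

/-- PROOF. `0` is a nearest centre of `c z` (`Seg_le`), so `c^{-1} 0` is a nearest centre of `z`: `Seg_eq`: `c^{-1} 0` is `0`, `e0 0` or `e1 0`. First case: `stab`. Second: `(c e0) 0 = 0` so `ac (c e0) = 1`, `ac c = ac e0^{-1} = ac e0` (`e0_sq`). Third: the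
same. -/
theorem seg_stab {γ : W} (hγ : γ ∈ Gam0) {z : Disc} (hz : z ∈ Seg) (hz' : ac γ z ∈ Seg) : ac γ = 1 ∨ ac γ = ac e0 ∨ ac γ = ac e1 := by
  have h1 := Seg_le (ac γ z) hz' γ
  have h2 : mink (Om (ac γ z : Disc)) (Om (ac γ o0 : Disc)) = mink (Om z) O := by
    rw [Om_ac, Om_ac, mink_lin, Om_o0]
  have h3 : mink (Om (ac γ z : Disc)) O = mink (Om z) (Om (ac γ⁻¹ o0 : Disc)) := by
    rw [Om_ac γ⁻¹, Om_o0, ← mink_lin (rho γ) (Om z), ← lin_mul, ← map_mul, mul_inv_cancel, map_one, lin_one, Om_ac]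
  rw [h2, h3] at h1
  rcases Seg_eq z hz γ⁻¹ h1 with h | h | h
  · left
    have h4 := stab γ⁻¹ (Gam0.inv_mem hγ) h
    rw [map_inv, inv_eq_one] at h4
    exact h4
  · right; left
    refine a33_sq e0_sq (stab _ (Gam0.mul_mem hγ e0_mem) ?_)
    have h5 : ac (γ * e0) o0 = ac γ (ac e0 o0) := by rw [map_mul]; rfl
    rw [h5, show ac e0 o0 = ac γ⁻¹ o0 from h.symm, ← Homeomorph.mul_apply, ← map_mul, mul_inv_cancel, map_one]
    rfl
  · right; right
    refine a33_sq e1_sq (stab _ (Gam0.mul_mem hγ e1_mem) ?_)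
    have h5 : ac (γ * e1) o0 = ac γ (ac e1 o0) := by rw [map_mul]; rfl
    rw [h5, show ac e1 o0 = ac γ⁻¹ o0 from h.symm, ← Homeomorph.mul_apply, ← map_mul, mul_inv_cancel, map_one]
    rfl

/-- PROOF. If `ac c = ac s` then `rho c = rho s` or `- rho s`, and `lin` is the same. (`act (g k^{-1}) = 1`, `act_eq_one`; `lin` is quadratic in `(a,b)`.) -/
theorem lin_of_ac {w w' : W} (h : ac w = ac w') (x : Mk) : (rho w).lin x = (rho w').lin x := by
  have h1 : SU.act (rho w'⁻¹ * rho w) = 1 := by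
    rw [← map_mul]
    show ac (w'⁻¹ * w) = 1
    rw [map_mul, h, ← map_mul, inv_mul_cancel, map_one]
  have h2 := a33_of_trivial h1 x
  have h3 : (rho w').lin ((rho w'⁻¹ * rho w).lin x) = (rho w).lin x := by
    rw [← lin_mul, ← mul_assoc, ← map_mul, mul_inv_cancel, map_one, one_mul]
  rw [← h3, h2]

/-- PROOF (4.6, 4.8). `z` in `c l_0`: `c^{-1} z` in `L0`, `s` in `HH` with `s c^{-1} z` in `Seg` (`to_Seg`). `seg_stab` for `s c^{-1}`: `ac (s c^{-1})` is `1`, `ac e0` or `ac e1`; so `lin (s c^{-1}) nu = +-nu` (`lin_of_ac`, `HH_nu`), `lin c nu = +-nu`. -/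
theorem line_eq {γ : W} (hγ : γ ∈ Gam0) {z : Disc} (hz : z ∈ Seg) (h : mink (Om z) ((rho γ).lin (nu gl0)) = 0) :
    (rho γ).lin (nu gl0) = nu gl0 ∨ (rho γ).lin (nu gl0) = -nu gl0 := by
  have hL : ac γ⁻¹ z ∈ L0 := by
    show mink (Om (ac γ⁻¹ z : Disc)) (nu gl0) = 0
    rw [Om_ac, ← mink_lin (rho γ), ← lin_mul, ← map_mul, mul_inv_cancel, map_one, lin_one]
    exact h
  obtain ⟨s, hs, hy⟩ := to_Seg _ hL
  have hsz : ac (s * γ⁻¹) z = ac s (ac γ⁻¹ z) := by rw [map_mul]; rfl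
  have h1 := seg_stab (Gam0.mul_mem (HH_le hs) (Gam0.inv_mem hγ)) hz (by rw [hsz]; exact hy)
  have h2 : (rho (s * γ⁻¹)).lin (nu gl0) = nu gl0 ∨ (rho (s * γ⁻¹)).lin (nu gl0) = -nu gl0 := by
    rcases h1 with h1 | h1 | h1
    · left
      exact a33_of_trivial h1 _
    · rw [lin_of_ac h1]
      exact HH_nu e0 (Subgroup.subset_closure (by simp))
    · rw [lin_of_ac h1]
      exact HH_nu e1 (Subgroup.subset_closure (by simp))
  have h3 : (rho γ).lin ((rho s⁻¹).lin ((rho (s * γ⁻¹)).lin (nu gl0))) = nu gl0 := by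
    rw [← lin_mul, ← lin_mul, ← map_mul, ← map_mul]
    have e : γ * s⁻¹ * (s * γ⁻¹) = 1 := by group
    rw [e, map_one, lin_one]
  have h4 := HH_nu s⁻¹ (HH.inv_mem hs)
  rcases h2 with h2 | h2 <;> rcases h4 with h4 | h4
  · left
    rw [h2, h4] at h3
    exact h3
  · right
    rw [h2, h4, a33_lin_neg] at h3
    exact neg_eq_iff_eq_neg.1 h3
  · right
    rw [h2, a33_lin_neg, h4, a33_lin_neg] at h3
    exact neg_eq_iff_eq_neg.1 h3
  · left
    rw [h2, a33_lin_neg, h4, neg_neg] at h3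
    exact h3

end Pool.Agent.Lib.H11Q.A
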