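import Mathlib
import Pool.Agent.Lib.H11Q.AD
import Pool.Agent.Lib.H11Q.A01
import Pool.Agent.Lib.H11Q.A02
import Pool.Agent.Lib.H11Q.A03
import Pool.Agent.Lib.H11Q.A05
import Pool.Agent.Lib.H11Q.A30

/-! # H11Q (MP_a00a7b_an) module A, chunk A34: foot points -/

set_option autoImplicit false

namespace Pool.Agent.Lib.H11Q.A

open Complex Set
open scoped ComplexConjugate Topology

/-- PROOF. Move `g` to 1: `y = g^{-1} z`. `Om y = (y0, y1 + i y2)`, `y0^2 - y1^2 = 1 + y2^2`, `y2 = sg y`; choose `u` with `(y0, y1) = sqrt(1+y2^2) (cosh u, sinh u)`; then `mink (Om y) (Om (TT u 0)) = sqrt (1 + y2^2) = cosh (arsinh y2)`. -/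
theorem foot (g : SU) (z : Disc) : ∃ u : ℝ, hd z (SU.act (g * TT u) o0 : Disc) = |bs g z| := by
  have hy : ‖g⁻¹.app (z : ℂ)‖ < 1 := g⁻¹.app_norm_lt z.2
  set y := g⁻¹.app (z : ℂ) with hyd
  have hgy : g.app y = z := by
    rw [hyd, ← SU.app_mul _ _ z.2.le, mul_inv_cancel, SU.app_one]
  set Y := Om y with hY
  have hYY : mink Y Y = 1 := mink_Om_self hy
  have h1 : Y.1 ^ 2 = 1 + Y.2.im ^ 2 + Y.2.re ^ 2 := by
    unfold mink at hYY
    simp at hYY
    linarith
  have hY1 : 0 < Y.1 := by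
    rw [hY]
    unfold Om
    have h9 := norm_nonneg y
    have h10 : 0 < 1 - ‖y‖ ^ 2 := by nlinarith
    positivity
  set w : ℝ := Real.sqrt (1 + Y.2.im ^ 2) with hw
  have hw0 : 0 < w := Real.sqrt_pos.2 (by positivity)
  have hw2 : w ^ 2 = 1 + Y.2.im ^ 2 := Real.sq_sqrt (by positivity)
  set u := Real.arsinh (Y.2.re / w) with hu
  have hs : Real.sinh u * w = Y.2.re := by
    rw [hu, Real.sinh_arsinh]
    field_simp
  have hc : Real.cosh u * w = Y.1 := by
    have h2 := Real.cosh_sq u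
    have h3 : (Real.cosh u * w) ^ 2 = Y.1 ^ 2 := by
      rw [mul_pow, h2, h1, add_mul, ← mul_pow, hs, hw2]
      ring
    exact (pow_left_inj₀ (mul_pos (Real.cosh_pos u) hw0).le hY1.le two_ne_zero).1 h3
  refine ⟨u, ?_⟩
  have e1 : ((SU.act (g * TT u) o0 : Disc) : ℂ) = g.app (SU.act (TT u) o0 : Disc) := by
    rw [map_mul]
    rfl
  have e2 : hd z (SU.act (g * TT u) o0 : Disc) = hd y (SU.act (TT u) o0 : Disc) := by
    rw [e1, ← hgy]
    exact hd_app g hy (SU.act (TT u) o0).2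
  have e3 : mink Y (Om (SU.act (TT u) o0 : Disc)) = w := by
    have e4 : Om ((SU.act (TT u) o0 : Disc) : ℂ) = (TT u).lin (Om (o0 : ℂ)) := Om_app (TT u) o0.2
    rw [e4, Om_o0, a30_TT_O]
    have e5 : ∀ p q : ℝ, mink Y (p, (q : ℂ)) = Y.1 * p - Y.2.re * q := by
      intro p q
      unfold mink
      simp
    rw [e5, ← hs, ← hc]
    have h2 := Real.cosh_sq_sub_sinh_sq u
    linear_combination w * h2
  have e6 : bs g z = Real.arsinh Y.2.im := by
    unfold bs
    rw [← hyd]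
    congr 1
    rw [hY]
    unfold sg Om
    simp only
    rw [show (2 : ℂ) * y / ((1 - ‖y‖ ^ 2 : ℝ) : ℂ) = ((1 - ‖y‖ ^ 2 : ℝ) : ℂ)⁻¹ * (2 * y) by ring, ← Complex.ofReal_inv, Complex.im_ofReal_mul]
    simp
    ring
  have e7 : Real.cosh (bs g z) = w := by
    have h3 := Real.cosh_sq (bs g z)
    rw [e6, Real.sinh_arsinh] at h3
    have h4 : Real.cosh (bs g z) ^ 2 = w ^ 2 := by
      rw [e6, h3, hw2]
      ring
    exact (pow_left_inj₀ (Real.cosh_pos _).le hw0.le two_ne_zero).1 h4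
  have e8 : Real.cosh (hd z (SU.act (g * TT u) o0 : Disc)) = Real.cosh (bs g z) := by
    rw [e2, cosh_hd' hy (SU.act (TT u) o0).2, e3, e7]
  have h5 := hd_nonneg z (SU.act (g * TT u) o0 : Disc)
  apply le_antisymm
  · have h6 := Real.cosh_le_cosh.1 e8.le
    rwa [abs_of_nonneg h5] at h6
  · have h6 := Real.cosh_le_cosh.1 e8.ge
    rwa [abs_of_nonneg h5] at h6

/-- PROOF. `sinh (arsinh x) = x` and `sg_eq`. -/
theorem sinh_bs (g : SU) (z : Disc) : Real.sinh (bs g z) = -mink (Om z) (nu g) := by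
  unfold bs
  rw [Real.sinh_arsinh, sg_eq _ z.2]

end Pool.Agent.Lib.H11Q.A
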