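import Mathlib
import Pool.Agent.Lib.H11Q.AD
import Pool.Agent.Lib.H11Q.A03
import Pool.Agent.Lib.H11Q.A16
import Pool.Agent.Lib.H11Q.A27
import Pool.Agent.Lib.H11Q.A31
import Pool.Agent.Lib.H11Q.A33
import Pool.Agent.Lib.H11Q.A34

/-! # H11Q (MP_a00a7b_an) module A, chunk A35: compactness: lines which come close to the segment (4.7) -/

set_option autoImplicit false

namespace Pool.Agent.Lib.H11Q.A

open Complex Set
open scoped ComplexConjugate Topology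

theorem a35_lin_neg (g : SU) (x : Mk) : g.lin (-x) = -g.lin x := by
  have h := lin_smul g (-1) x
  rw [neg_one_smul, neg_one_smul] at h
  exact h

theorem a35_cont (n : Mk) : Continuous fun z : Disc => |mink (Om z) n| := by
  have h0 : ∀ z : Disc, 1 - ‖(z : ℂ)‖ ^ 2 ≠ 0 := by
    intro z
    have h1 := z.2
    have h2 := norm_nonneg (z : ℂ)
    have h3 : ‖(z : ℂ)‖ ^ 2 < 1 := by nlinarith
    linarith
  have h1 : Continuous fun z : Disc => (Om z).1 := by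
    unfold Om
    simp only
    exact Continuous.div (by fun_prop) (by fun_prop) h0
  have h2 : Continuous fun z : Disc => (Om z).2 := by
    unfold Om
    simp only
    refine Continuous.div (by fun_prop) (by fun_prop) fun z => ?_
    exact Complex.ofReal_ne_zero.2 (h0 z)
  have h3 : Continuous fun z : Disc => mink (Om z) n := by
    unfold mink
    exact (h1.mul continuous_const).sub (Complex.continuous_re.comp (h2.mul continuous_const))
  exact h3.abs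

/-- PROOF. `foot` for `g = rho c * gl0`: the foot is `f = ac c (pl u)`; `to_Seg`: `s` in `HH` with `y = ac s (pl u)` in `Seg`; `t = c s^{-1}` in `Gam0`, `ac t y = f`; `nu (rho c * gl0) = (rho c).lin (nu gl0)`, `HH_nu`. -/
theorem foot_Seg {γ : W} (hγ : γ ∈ Gam0) (z : Disc) : ∃ t ∈ Gam0, ∃ y ∈ Seg, hd z (ac t y) = |bs (rho γ * gl0) z| ∧
    ((rho γ).lin (nu gl0) = (rho t).lin (nu gl0) ∨ (rho γ).lin (nu gl0) = -(rho t).lin (nu gl0)) := by
  obtain ⟨u, hu⟩ := foot (rho γ * gl0) z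
  obtain ⟨s, hs, hy⟩ := to_Seg (pl u) ((mem_L0 _).2 ⟨u, rfl⟩)
  have e1 : SU.act (rho γ * gl0 * TT u) o0 = ac γ (pl u) := by
    rw [mul_assoc, map_mul]
    rfl
  have e2 : ac (γ * s⁻¹) (ac s (pl u)) = ac γ (pl u) := by
    rw [← Homeomorph.mul_apply, ← map_mul, inv_mul_cancel_right]
  refine ⟨γ * s⁻¹, Gam0.mul_mem hγ (Gam0.inv_mem (HH_le hs)), ac s (pl u), hy, ?_, ?_⟩
  · rw [e2, ← e1]
    exact hu
  · have h1 := HH_nu s⁻¹ (HH.inv_mem hs)
    rw [map_mul, lin_mul]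
    rcases h1 with h1 | h1
    · left
      rw [h1]
    · right
      rw [h1, a35_lin_neg, neg_neg]

/-- PROOF. `hd 0 (t 0) <= M + hd 0 y <= M + arcosh c72`-bound (`Seg_O`), so `ac t` belongs to a finite set (`proper` for a ball about 0); `lin t nu` depends only on `ac t` (`lin_of_ac`). -/
theorem lines_finite (M : ℝ) : {n : Mk | ∃ t ∈ Gam0, (∃ y ∈ Seg, hd 0 (ac t y) ≤ M) ∧ (n = (rho t).lin (nu gl0) ∨ n = -(rho t).lin (nu gl0))}.Finite := by
  classical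
  obtain ⟨D, hD⟩ := hd_bdd (Seg ∪ {o0}) (Seg_compact.union isCompact_singleton)
  have hK := ball_compact (M + D)
  have hF := proper _ hK
  set F := {g : Disc ≃ₜ Disc | (∃ w : W, g = ac w) ∧ (g '' {z : Disc | hd 0 z ≤ M + D} ∩ {z : Disc | hd 0 z ≤ M + D}).Nonempty} with hFd
  let φ : (Disc ≃ₜ Disc) → Mk := fun g => if h : ∃ w : W, g = ac w then (rho h.choose).lin (nu gl0) else 0
  refine ((hF.image φ).union (hF.image fun g => -φ g)).subset ?_
  rintro n ⟨t, ht, ⟨y, hy, hM⟩, hn⟩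
  have hφ : φ (ac t) = (rho t).lin (nu gl0) := by
    have hex : ∃ w : W, ac t = ac w := ⟨t, rfl⟩
    show (if h : ∃ w : W, ac t = ac w then (rho h.choose).lin (nu gl0) else 0) = _
    rw [dif_pos hex]
    exact (lin_of_ac hex.choose_spec _).symm
  have hy0 : hd y o0 ≤ D := hD y (Or.inl hy) o0 (Or.inr rfl)
  have h00 : hd 0 (o0 : ℂ) ≤ M + D := by
    have h1 : hd (o0 : ℂ) (o0 : ℂ) ≤ D := hD o0 (Or.inr rfl) o0 (Or.inr rfl)
    have h2 : (0 : ℝ) ≤ M := (hd_nonneg _ _).trans hM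
    have h3 : ((o0 : Disc) : ℂ) = 0 := rfl
    rw [h3] at h1 ⊢
    linarith
  have h1 : hd 0 (ac t o0 : Disc) ≤ M + D := by
    have h2 : hd (ac t y : Disc) (ac t o0 : Disc) = hd y o0 := hd_app (rho t) y.2 o0.2
    have h3 := hd_triangle (x := 0) (y := (ac t y : Disc)) (z := (ac t o0 : Disc)) (by simp) (ac t y).2 (ac t o0).2
    rw [h2] at h3
    linarith
  have hmem : ac t ∈ F := by
    refine ⟨⟨t, rfl⟩, ac t o0, ⟨o0, h00, rfl⟩, h1⟩
  rcases hn with rfl | rfl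
  · exact Or.inl ⟨ac t, hmem, hφ⟩
  · exact Or.inr ⟨ac t, hmem, by simp only; rw [hφ]⟩

/-- PROOF (4.7). If `|mink (Om z) (lin c nu)| <= 1` (`z` in `Seg`) then `|bs| <= arsinh 1`; `foot_Seg`: `lin c nu = +- lin t nu` with `hd 0 (t y) <= hd 0 z + 1`, so `lin c nu` is in the finite set of `lines_finite` for a constant `M`. For each vector `n`
of this finite set which is `lin c nu`, c in Gam0: if `mink (Om z) n = 0` for some `z` in `Seg` then `n = +- nu` (`line_eq`); otherwise `|mink (Om z) n|` has a positive minimum on the compact set `Seg`. Take the minimum of these numbers and 1. -/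
theorem gap : ∃ σ : ℝ, 0 < σ ∧ ∀ γ ∈ Gam0, ((rho γ).lin (nu gl0) = nu gl0 ∨ (rho γ).lin (nu gl0) = -nu gl0) ∨
    ∀ z ∈ Seg, σ ≤ |mink (Om z) ((rho γ).lin (nu gl0))| := by
  classical
  obtain ⟨D, hD⟩ := hd_bdd (Seg ∪ {o0}) (Seg_compact.union isCompact_singleton)
  have hF := lines_finite (D + Real.arsinh 1)
  set F := {n : Mk | ∃ t ∈ Gam0, (∃ y ∈ Seg, hd 0 (ac t y) ≤ D + Real.arsinh 1) ∧ (n = (rho t).lin (nu gl0) ∨ n = -(rho t).lin (nu gl0))} with hFd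
  have key : ∀ n : Mk, ∃ σ : ℝ, 0 < σ ∧ ((∃ z ∈ Seg, mink (Om z) n = 0) ∨ ∀ z ∈ Seg, σ ≤ |mink (Om z) n|) := by
    intro n
    by_cases h : ∃ z ∈ Seg, mink (Om z) n = 0
    · exact ⟨1, one_pos, Or.inl h⟩
    by_cases hne : Seg.Nonempty
    · obtain ⟨z0, hz0, hmin⟩ := Seg_compact.exists_isMinOn hne (a35_cont n).continuousOn
      refine ⟨|mink (Om z0) n|, abs_pos.2 fun h0 => h ⟨z0, hz0, h0⟩, Or.inr fun z hz => hmin hz⟩
    · exact ⟨1, one_pos, Or.inr fun z hz => absurd ⟨z, hz⟩ hne⟩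
  choose σ hσ0 hσ using key
  have hmin : ∃ τ : ℝ, 0 < τ ∧ ∀ n ∈ F, τ ≤ σ n := by
    by_cases hne : F.Nonempty
    · obtain ⟨n0, hn0, h0⟩ := Set.exists_min_image F σ hF hne
      exact ⟨σ n0, hσ0 n0, h0⟩
    · exact ⟨1, one_pos, fun n hn => absurd ⟨n, hn⟩ hne⟩
  obtain ⟨τ, hτ0, hτ⟩ := hmin
  refine ⟨min τ 1, lt_min hτ0 one_pos, fun γ hγ => ?_⟩
  by_cases hn : (rho γ).lin (nu gl0) = nu gl0 ∨ (rho γ).lin (nu gl0) = -nu gl0
  · exact Or.inl hn
  refine Or.inr fun z hz => ?_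
  by_contra hcon
  rw [not_le, lt_min_iff] at hcon
  obtain ⟨t, ht, y, hy, h1, h2⟩ := foot_Seg hγ z
  have h3 : |bs (rho γ * gl0) z| ≤ Real.arsinh 1 := by
    have e : bs (rho γ * gl0) z = Real.arsinh (-mink (Om z) ((rho γ).lin (nu gl0))) := by
      unfold bs
      rw [sg_eq _ z.2, nu_mul]
    have hm := abs_lt.1 hcon.2
    rw [e, abs_le]
    constructor
    · rw [← Real.arsinh_neg]
      exact Real.arsinh_le_arsinh.2 (by linarith [hm.2])
    · exact Real.arsinh_le_arsinh.2 (by linarith [hm.1])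
  have h4 : hd 0 (z : ℂ) ≤ D := hD o0 (Or.inr rfl) z (Or.inl hz)
  have h5 : hd 0 (ac t y : Disc) ≤ D + Real.arsinh 1 := by
    have h6 := hd_triangle (x := 0) (y := (z : ℂ)) (z := (ac t y : Disc)) (by simp) z.2 (ac t y).2
    rw [h1] at h6
    linarith
  have hF' : (rho γ).lin (nu gl0) ∈ F := ⟨t, ht, ⟨y, hy, h5⟩, h2⟩
  rcases hσ ((rho γ).lin (nu gl0)) with ⟨z', hz', h0⟩ | h7
  · exact hn (line_eq hγ hz' h0)
  · have := h7 z hz
    have h8 := hτ _ hF'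
    linarith [hcon.1]

/-- PROOF. `z` in `L0`: `s` in `HH`, `s z` in `Seg`; `mink (Om z) (lin c nu) = mink (Om (s z)) (lin (s c) nu)`; if `lin (s c) nu = +- nu` then `lin c nu = +- nu` (`HH_nu`). -/
theorem gap' : ∃ σ : ℝ, 0 < σ ∧ ∀ γ ∈ Gam0, ((rho γ).lin (nu gl0) = nu gl0 ∨ (rho γ).lin (nu gl0) = -nu gl0) ∨
    ∀ z ∈ L0, σ ≤ |mink (Om z) ((rho γ).lin (nu gl0))| := by
  obtain ⟨σ, hσ, h⟩ := gap
  refine ⟨σ, hσ, fun γ hγ => ?_⟩
  by_cases hn : (rho γ).lin (nu gl0) = nu gl0 ∨ (rho γ).lin (nu gl0) = -nu gl0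
  · exact Or.inl hn
  refine Or.inr fun z hz => ?_
  obtain ⟨s, hs, hy⟩ := to_Seg z hz
  have e : mink (Om z) ((rho γ).lin (nu gl0)) = mink (Om (ac s z)) ((rho (s * γ)).lin (nu gl0)) := by
    rw [Om_ac, map_mul, lin_mul, mink_lin]
  rw [e]
  rcases h (s * γ) (Gam0.mul_mem (HH_le hs) hγ) with h1 | h1
  · exfalso
    apply hn
    have h2 : (rho γ).lin (nu gl0) = (rho s⁻¹).lin ((rho (s * γ)).lin (nu gl0)) := by
      rw [← lin_mul, ← map_mul, inv_mul_cancel_left]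
    have h3 := HH_nu s⁻¹ (HH.inv_mem hs)
    rcases h1 with h1 | h1 <;> rcases h3 with h3 | h3
    · left; rw [h2, h1, h3]
    · right; rw [h2, h1, h3]
    · right; rw [h2, h1, a35_lin_neg, h3]
    · left; rw [h2, h1, a35_lin_neg, h3, neg_neg]
  · exact h1 _ hy

end Pool.Agent.Lib.H11Q.A
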