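import Mathlib
import Pool.Agent.Lib.H11Q.AD
import Pool.Agent.Lib.H11Q.A01
import Pool.Agent.Lib.H11Q.A02
import Pool.Agent.Lib.H11Q.A03

/-! # H11Q (MP_a00a7b_an) module A, chunk A37: signed distances to two lines (5.4, 5.5) -/

set_option autoImplicit false

namespace Pool.Agent.Lib.H11Q.A

open Complex Set
open scoped ComplexConjugate Topology

theorem a37_key {s t d C : ℝ} (hd : 0 < d) (hC : Real.cosh d ≤ C)
    (h : 0 ≤ 1 - C ^ 2 + Real.sinh s ^ 2 + Real.sinh t ^ 2 - 2 * Real.sinh s * Real.sinh t * C) :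
    t ≤ s - d ∨ s ≤ t - d := by
  have hC1 : 1 ≤ C := le_trans (Real.one_le_cosh d) hC
  set D : ℝ := Real.arsinh (Real.sqrt (C ^ 2 - 1)) with hD
  have hcD : Real.cosh D = C := by
    rw [hD, Real.cosh_arsinh, Real.sq_sqrt (by nlinarith)]
    rw [show 1 + (C ^ 2 - 1) = C ^ 2 by ring, Real.sqrt_sq (by linarith)]
  have hD0 : 0 ≤ D := Real.arsinh_nonneg_iff.2 (Real.sqrt_nonneg _)
  have hdD : d ≤ D := by
    rw [← hcD, Real.cosh_le_cosh, abs_of_pos hd, abs_of_nonneg hD0] at hC
    exact hC
  have hsD : 0 ≤ Real.sinh D := Real.sinh_nonneg_iff.2 hD0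
  have hct : 0 < Real.cosh t := Real.cosh_pos t
  have h1 : (Real.sinh D * Real.cosh t) ^ 2 ≤ (Real.sinh s - Real.sinh t * Real.cosh D) ^ 2 := by
    have e1 := Real.cosh_sq D
    have e2 := Real.cosh_sq t
    rw [← hcD] at h
    have e3 : (Real.sinh D * Real.cosh t) ^ 2 = (Real.cosh D ^ 2 - 1) * (Real.sinh t ^ 2 + 1) := by
      rw [mul_pow, e1, e2]; ring
    rw [e3]
    nlinarith [h]
  have h2 := sq_le_sq.1 h1
  rw [abs_of_nonneg (mul_nonneg hsD hct.le)] at h2
  rcases le_abs.1 h2 with h3 | h3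
  · left
    have h4 : Real.sinh (t + D) ≤ Real.sinh s := by
      rw [Real.sinh_add]
      linarith
    rw [Real.sinh_le_sinh] at h4
    linarith
  · right
    have h4 : Real.sinh s ≤ Real.sinh (t - D) := by
      rw [Real.sinh_sub]
      linarith
    rw [Real.sinh_le_sinh] at h4
    linarith

theorem a37_gram (g g' : SU) (z : Disc) :
    0 ≤ 1 - mink (nu g) (nu g') ^ 2 + Real.sinh (bs g z) ^ 2 + Real.sinh (bs g' z) ^ 2
      + 2 * Real.sinh (bs g z) * Real.sinh (bs g' z) * mink (nu g) (nu g') := by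
  have hG := gram_nonneg (Om z) (nu g) (nu g')
  rw [mink_Om_self z.2, mink_nu_self, mink_nu_self] at hG
  have hsa : Real.sinh (bs g z) = -mink (Om z) (nu g) := by
    unfold bs
    rw [Real.sinh_arsinh, sg_eq g z.2]
  have hsb : Real.sinh (bs g' z) = -mink (Om z) (nu g') := by
    unfold bs
    rw [Real.sinh_arsinh, sg_eq g' z.2]
  rw [hsa, hsb]
  nlinarith [hG]

theorem a37_cont (g : SU) : Continuous fun z : Disc => bs g z := by
  have e : (fun z : Disc => bs g z) = fun z : Disc => Real.arsinh (-mink (Om z) (nu g)) := by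
    funext z
    unfold bs
    rw [sg_eq g z.2]
  rw [e]
  have hne : ∀ z : Disc, 1 - ‖(z : ℂ)‖ ^ 2 ≠ 0 := by
    intro z
    have h1 := z.2
    have h2 := norm_nonneg (z : ℂ)
    nlinarith
  have hn : Continuous fun z : Disc => ‖(z : ℂ)‖ := continuous_norm.comp continuous_subtype_val
  refine Real.continuous_arsinh.comp (Continuous.neg ?_)
  unfold mink Om
  refine Continuous.sub (Continuous.mul ?_ continuous_const) (Complex.continuous_re.comp (Continuous.mul ?_ continuous_const))
  · exact Continuous.div (continuous_const.add (hn.pow 2)) (continuous_const.sub (hn.pow 2)) hne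
  · refine Continuous.div (continuous_const.mul continuous_subtype_val)
      (Complex.continuous_ofReal.comp (continuous_const.sub (hn.pow 2))) fun z => ?_
    exact Complex.ofReal_ne_zero.2 (hne z)

theorem a37_conn : PreconnectedSpace Disc := by
  have h : IsPreconnected {z : ℂ | ‖z‖ < 1} := by
    have e : {z : ℂ | ‖z‖ < 1} = Metric.ball (0 : ℂ) 1 := by
      ext z
      simp
    rw [e]
    exact (convex_ball (0 : ℂ) 1).isPreconnected
  exact Subtype.preconnectedSpace h

theorem a37_conn_arg {d : ℝ} (hd : 0 < d) {F : Disc → ℝ} (hF : Continuous F) (h : ∀ z, d ≤ F z ∨ F z ≤ -d)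
    (z0 : Disc) (h0 : 0 ≤ F z0) (z : Disc) : d ≤ F z := by
  have := a37_conn
  rcases h z with h1 | h1
  · exact h1
  · obtain ⟨w, hw⟩ := mem_range_of_exists_le_of_exists_ge hF ⟨z, le_trans h1 (by linarith)⟩ ⟨z0, h0⟩
    rcases h w with h2 | h2 <;> linarith

/-- PROOF. Gram determinant (`gram_nonneg`) of `Om z`, `n`, `n'`: with `a = -mink (Om z) n`, `b = -mink (Om z) n'`, `g = mink n n'`: `1 - g^2 + a^2 + b^2 + 2 g a b >= 0`. Let `g = -cosh D` (`D >= d`): `(a - b cosh D)^2 >= sinh^2 D (1 + b^2)`, so with `a = sinh s`,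
`b = sinh t`: `a >= sinh (t + D)` or `a <= sinh (t - D)`. -/
theorem two_neg (g g' : SU) {d : ℝ} (hd0 : 0 < d) (h : mink (nu g) (nu g') ≤ -Real.cosh d) (z : Disc) :
    bs g' z ≤ bs g z - d ∨ bs g z ≤ bs g' z - d := by
  refine a37_key hd0 (C := -mink (nu g) (nu g')) (by linarith) ?_
  have := a37_gram g g' z
  nlinarith [this]

/-- PROOF. The same with `a` replaced by `-a`. -/
theorem two_pos (g g' : SU) {d : ℝ} (hd0 : 0 < d) (h : Real.cosh d ≤ mink (nu g) (nu g')) (z : Disc) :
    bs g' z ≤ -bs g z - d ∨ -bs g z ≤ bs g' z - d := by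
  have h1 := a37_key (s := -bs g z) (t := bs g' z) hd0 h (by
    have := a37_gram g g' z
    rw [Real.sinh_neg]
    nlinarith [this])
  exact h1

/-- PROOF. `bs g z` is continuous in `z`, the disc is connected: the alternative of `two_neg` (the difference has absolute value at least `d > 0`) is the same for all `z`, at `z = 0` it is the first. The same for `two_pos`: at `0` the second one is impossible, because
`-bs g 0 > 0 > bs g' 0 - d`. -/
theorem sep_of_gram (g g' : SU) {d : ℝ} (hd0 : 0 < d) (h : Real.cosh d ≤ |mink (nu g) (nu g')|)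
    (h1 : bs g' 0 ≤ bs g 0) (h2 : bs g 0 < 0) :
    (∀ z : Disc, bs g' z ≤ bs g z - d) ∨ (∀ z : Disc, bs g' z ≤ -bs g z - d) := by
  rcases le_abs.1 h with h3 | h3
  · right
    intro z
    have h4 := a37_conn_arg (F := fun z : Disc => -bs g z - bs g' z) hd0 ((a37_cont g).neg.sub (a37_cont g'))
      (fun z => by
        rcases two_pos g g' hd0 h3 z with h5 | h5
        · left
          linarith
        · right
          linarith) ⟨0, by simp⟩ (by
        show 0 ≤ -bs g 0 - bs g' 0
        linarith) z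
    linarith
  · left
    intro z
    have h4 := a37_conn_arg (F := fun z : Disc => bs g z - bs g' z) hd0 ((a37_cont g).sub (a37_cont g'))
      (fun z => by
        rcases two_neg g g' hd0 (by linarith) z with h5 | h5
        · left
          linarith
        · right
          linarith) ⟨0, by simp⟩ (by
        show 0 ≤ bs g 0 - bs g' 0
        linarith) z
    linarith

end Pool.Agent.Lib.H11Q.A
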