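import Mathlib
import Pool.Agent.Lib.H11Q.AD

/-! # H11Q (MP_a00a7b_an) module A, chunk A38: sorting lemma -/

set_option autoImplicit false

namespace Pool.Agent.Lib.H11Q.A

open Complex Set
open scoped ComplexConjugate Topology

theorem a38_min {α : Type*} (S : Set α) (hS : S.Infinite) (f : α → ℝ) (hf : ∀ M : ℝ, {x | x ∈ S ∧ f x ≤ M}.Finite)
    (T : Finset α) : ∃ x ∈ S, x ∉ T ∧ ∀ y ∈ S, y ∉ T → f x ≤ f y := by
  classical
  have h1 : (S \ (T : Set α)).Nonempty := (hS.sdiff T.finite_toSet).nonempty
  obtain ⟨x0, hx0S, hx0T⟩ := h1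
  have h2 : {x | x ∈ S ∧ f x ≤ f x0 ∧ x ∉ T}.Finite :=
    (hf (f x0)).subset fun x hx => ⟨hx.1, hx.2.1⟩
  obtain ⟨x, hx, hmin⟩ := Set.exists_min_image _ f h2 ⟨x0, hx0S, le_rfl, hx0T⟩
  refine ⟨x, hx.1, hx.2.2, fun y hy hyT => ?_⟩
  by_cases h3 : f y ≤ f x0
  · exact hmin y ⟨hy, h3, hyT⟩
  · exact le_trans hx.2.1 (not_le.1 h3).le

/-- PROOF. Enumerate greedily: `S` is countable and `f` has a minimum on every nonempty subset (finite sublevel sets). `e n` = an element of `S` minus `{e 0, .., e (n-1)}` with minimal `f` (strong recursion). Injective; monotone; surjective: an element `s` is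
chosen at the latest after the finitely many elements of `{f <= f s}` are exhausted (if `s` is never chosen then `f (e n) <= f s` for all `n`, infinitely many elements). -/
theorem sort_set {α : Type*} (S : Set α) (hS : S.Infinite) (f : α → ℝ) (hf : ∀ M : ℝ, {x | x ∈ S ∧ f x ≤ M}.Finite) :
    ∃ e : ℕ → α, Function.Injective e ∧ Set.range e = S ∧ Monotone (fun n => f (e n)) := by
  classical
  choose g hgS hgT hgmin using a38_min S hS f hf
  -- the sets of the first `n` chosen elements
  let T : ℕ → Finset α := fun n => Nat.rec ∅ (fun _ t => insert (g t) t) n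
  have hT0 : T 0 = ∅ := rfl
  have hTs : ∀ n, T (n + 1) = insert (g (T n)) (T n) := fun n => rfl
  let e : ℕ → α := fun n => g (T n)
  have hmono : ∀ m n, m ≤ n → T m ⊆ T n := by
    intro m n hmn
    induction n, hmn using Nat.le_induction with
    | base => exact Finset.Subset.refl _
    | succ n _ ih =>
      rw [hTs]
      exact ih.trans (Finset.subset_insert _ _)
  have hemem : ∀ m n, m < n → e m ∈ T n := by
    intro m n hmn
    have h1 : e m ∈ T (m + 1) := by
      rw [hTs]
      exact Finset.mem_insert_self _ _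
    exact hmono _ _ hmn h1
  have hinj : Function.Injective e := by
    intro m n hmn
    by_contra hne
    rcases lt_or_gt_of_ne hne with h | h
    · have h1 := hemem m n h
      rw [hmn] at h1
      exact hgT (T n) h1
    · have h1 := hemem n m h
      rw [← hmn] at h1
      exact hgT (T m) h1
  have hTe : ∀ n, ∀ x ∈ T n, ∃ m, m < n ∧ e m = x := by
    intro n
    induction n with
    | zero =>
      intro x hx
      rw [hT0] at hx
      exact absurd hx (Finset.notMem_empty x)
    | succ n ih =>
      intro x hx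
      rw [hTs, Finset.mem_insert] at hx
      rcases hx with rfl | hx
      · exact ⟨n, Nat.lt_succ_self n, rfl⟩
      · obtain ⟨m, hm, h⟩ := ih x hx
        exact ⟨m, Nat.lt_succ_of_lt hm, h⟩
  have hmonof : Monotone (fun n => f (e n)) := by
    refine monotone_nat_of_le_succ fun n => ?_
    refine hgmin (T n) _ (hgS _) fun h => ?_
    exact hgT (T (n + 1)) (hmono n (n + 1) (Nat.le_succ n) h)
  refine ⟨e, hinj, ?_, hmonof⟩
  ext x
  constructor
  · rintro ⟨n, rfl⟩
    exact hgS _
  · intro hx
    by_contra hn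
    have h1 : ∀ n, f (e n) ≤ f x := by
      intro n
      refine hgmin (T n) x hx fun h => ?_
      obtain ⟨m, -, hm⟩ := hTe n x h
      exact hn ⟨m, hm⟩
    have h2 : (Set.range e).Finite :=
      (hf (f x)).subset (by
        rintro _ ⟨n, rfl⟩
        exact ⟨hgS _, h1 n⟩)
    exact Set.infinite_range_of_injective hinj h2

end Pool.Agent.Lib.H11Q.A
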