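import Mathlib
import Pool.Agent.Lib.H11Q.AD
import Pool.Agent.Lib.H11Q.A03
import Pool.Agent.Lib.H11Q.A11
import Pool.Agent.Lib.H11Q.A16
import Pool.Agent.Lib.H11Q.A21
import Pool.Agent.Lib.H11Q.A25
import Pool.Agent.Lib.H11Q.A26
import Pool.Agent.Lib.H11Q.A27
import Pool.Agent.Lib.H11Q.A29
import Pool.Agent.Lib.H11Q.A31
import Pool.Agent.Lib.H11Q.A32
import Pool.Agent.Lib.H11Q.A34
import Pool.Agent.Lib.H11Q.A35

/-! # H11Q (MP_a00a7b_an) module A, chunk A39: centres and vertices are far from the lines; there are infinitely many lines -/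

set_option autoImplicit false

namespace Pool.Agent.Lib.H11Q.A

open Complex Set
open scoped ComplexConjugate Topology

theorem a39_hd_le {a b a' b' : Disc} (h : mink (Om a) (Om b) ≤ mink (Om a') (Om b')) : hd a b ≤ hd a' b' := by
  rw [← cosh_hd' a.2 b.2, ← cosh_hd' a'.2 b'.2, Real.cosh_le_cosh, abs_of_nonneg (hd_nonneg _ _), abs_of_nonneg (hd_nonneg _ _)] at h
  exact h

theorem a39_bs (g : SU) (z : Disc) : bs g z = Real.arsinh (-mink (Om z) (nu g)) := by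
  unfold bs
  rw [sg_eq _ z.2]

theorem a39_move (t w : W) (x y : Disc) : hd (ac w x) (ac t y) = hd (ac (t⁻¹ * w) x) y := by
  have h1 : hd (ac t (ac (t⁻¹ * w) x) : Disc) (ac t y : Disc) = hd (ac (t⁻¹ * w) x : Disc) y :=
    hd_app (rho t) (ac (t⁻¹ * w) x).2 y.2
  rw [← h1]
  have h2 : ac t (ac (t⁻¹ * w) x) = ac w x := by
    rw [← Homeomorph.mul_apply, ← map_mul, mul_inv_cancel_left]
  rw [h2]

theorem a39_cosh_le {z : Disc} {R c : ℝ} (hR : 0 ≤ R) (hc : Real.cosh R = c) (h : mink (Om z) O ≤ c) : hd z o0 ≤ R := by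
  have h1 : Real.cosh (hd z o0) ≤ Real.cosh R := by
    rw [cosh_hd' z.2 o0.2, Om_o0, hc]
    exact h
  rw [Real.cosh_le_cosh, abs_of_nonneg (hd_nonneg _ _), abs_of_nonneg hR] at h1
  exact h1

theorem a39_k (p q : ℝ) (h : normSq (p : ℂ) - normSq (I * (q : ℂ)) = 1) :
    mink ((⟨(p : ℂ), I * (q : ℂ), h⟩ : SU).lin O) ((0, I) : Mk) = -(2 * q * p) := by
  unfold mink SU.lin O
  simp
  ring

theorem a39_cc_nonneg : 0 ≤ cc := by
  unfold cc
  have := Real.arsinh_nonneg_iff.2 (Real.sqrt_nonneg ((CC - 1) / 2))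
  linarith

/-- PROOF. `foot_Seg`: `|bs| = hd u (t y) = hd (t^{-1} u) y`, `y` in `Seg`, `t^{-1} u` is again a centre `c'`: `hd y c' >= hd y 0` (`Seg_le`) `>= |bs gl0 0| = d0` (`bs_lip`, `bs gl0 y = 0`). -/
theorem centre_far {γ : W} (hγ : γ ∈ Gam0) (w : W) : d0 ≤ |bs (rho γ * gl0) (ac w o0)| := by
  obtain ⟨t, ht, y, hy, h1, _⟩ := foot_Seg hγ (ac w o0)
  rw [← h1, a39_move]
  have h2 := Seg_le y hy (t⁻¹ * w)
  rw [← Om_o0] at h2
  have h3 := a39_hd_le h2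
  have h4 := bs_lip gl0 y.2 o0.2
  have h5 : bs gl0 y = 0 := by
    rw [a39_bs]
    have h6 : mink (Om y) (nu gl0) = 0 := Seg_sub_L0 hy
    rw [h6, neg_zero, Real.arsinh_zero]
  have h7 : bs gl0 (o0 : ℂ) = -d0 := bs_gl0_zero
  rw [h5, h7, zero_sub, neg_neg, abs_of_pos d0_pos] at h4
  rw [hd_comm]
  linarith

/-- PROOF. `foot_Seg`: `|bs| = hd (t^{-1} w v0) y`, `hd 0 (t^{-1} w v0) >= cc` (`key'`, `cosh_cc`), `cosh (hd 0 y) <= c72` (`Seg_O`), so `|bs| >= cc - arcosh c72 > 0` (`c72 < CC`). -/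
theorem vertex_far : ∃ r : ℝ, 0 < r ∧ ∀ γ ∈ Gam0, ∀ w : W, r ≤ |bs (rho γ * gl0) (ac w v0)| := by
  have h72 := c72_bd
  have hCC := CC_bd
  set R : ℝ := 2 * Real.arsinh (Real.sqrt ((c72 - 1) / 2)) with hR
  have hR0 : 0 ≤ R := by
    have := Real.arsinh_nonneg_iff.2 (Real.sqrt_nonneg ((c72 - 1) / 2))
    rw [hR]
    linarith
  have hRc : Real.cosh R = c72 := by
    rw [hR, Real.cosh_two_mul, Real.cosh_sq, Real.sinh_arsinh, Real.sq_sqrt (by linarith [h72.1])]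
    ring
  have hlt : R < cc := by
    have h1 : Real.cosh R < Real.cosh cc := by
      rw [hRc, cosh_cc]
      linarith [h72.2, hCC.1]
    rw [Real.cosh_lt_cosh, abs_of_nonneg hR0, abs_of_nonneg a39_cc_nonneg] at h1
    exact h1
  refine ⟨cc - R, by linarith, fun γ hγ w => ?_⟩
  obtain ⟨t, ht, y, hy, h1, _⟩ := foot_Seg hγ (ac w v0)
  rw [← h1, a39_move]
  have h2 := a39_cosh_le hR0 hRc (Seg_O y hy)
  have h3 : cc ≤ hd (ac (t⁻¹ * w) v0) o0 := by
    have h4 := key' 1 (t⁻¹ * w)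
    rw [map_one] at h4
    have h5 : Real.cosh cc ≤ Real.cosh (hd (ac (t⁻¹ * w) v0) o0) := by
      rw [cosh_hd' (ac (t⁻¹ * w) v0).2 o0.2, cosh_cc]
      exact h4
    rw [Real.cosh_le_cosh, abs_of_nonneg (hd_nonneg _ _), abs_of_nonneg a39_cc_nonneg] at h5
    exact h5
  have h6 := hd_triangle (ac (t⁻¹ * w) v0).2 y.2 o0.2
  linarith

/-- PROOF. Let `z` be a point with `bs gl0 z > M + cc` (on the perpendicular: `z = gl0 (i r)`, r near 1). By `cover`-type reduction there is a centre `u = ac w o0` with `hd z u <= cc` (`to_sector`: `mink (a O + b V 0 + c V 1) O = a + (b+c) CC <= CC`, since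
`1 >= (a+b+c)^2`). `u = ac c o0` with `c` in `Gam0` (`red0`). `|bs gl0 u| >= bs gl0 z - cc > M` (`bs_lip`). And `bs (rho c^{-1} * gl0) 0 = bs gl0 (ac c o0)`. -/
theorem lines_far (M : ℝ) : ∃ γ ∈ Gam0, M < |bs (rho γ * gl0) 0| := by
  have hCC := CC_bd
  have h32 := c32_bd
  set s : ℝ := |M| + cc + 1 with hs
  have hk : normSq (Real.cosh (s / 2) : ℂ) - normSq (I * (Real.sinh (s / 2) : ℂ)) = 1 := by
    rw [map_mul, normSq_I, normSq_ofReal, normSq_ofReal]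
    have := Real.cosh_sq (s / 2)
    nlinarith
  set k : SU := ⟨(Real.cosh (s / 2) : ℂ), I * (Real.sinh (s / 2) : ℂ), hk⟩ with hkd
  set z : Disc := SU.act (gl0 * k) o0 with hz
  have hOmz : Om (z : ℂ) = gl0.lin (k.lin O) := by
    have h1 : Om (z : ℂ) = (gl0 * k).lin (Om (o0 : ℂ)) := Om_app (gl0 * k) o0.2
    rw [h1, Om_o0, lin_mul]
  have hbs : bs gl0 z = s := by
    rw [a39_bs, hOmz]
    have h2 : mink (gl0.lin (k.lin O)) (nu gl0) = mink (k.lin O) (0, I) := mink_lin _ _ _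
    have h3 : mink (k.lin O) ((0, I) : Mk) = -Real.sinh s := by
      have h4 : Real.sinh s = 2 * Real.sinh (s / 2) * Real.cosh (s / 2) := by
        rw [← Real.sinh_two_mul]
        congr 1
        ring
      rw [h4]
      exact a39_k _ _ hk
    rw [h2, h3, neg_neg, Real.arsinh_sinh]
  obtain ⟨w, a, b, c, ha, hb, hc, h⟩ := to_sector z
  have h1 : mink (Om (ac w z : ℂ)) (Om (ac w z : ℂ)) = 1 := mink_Om_self (ac w z).2
  have hV0O : mink (V 0) O = CC := by rw [mink_comm]; exact mink_O_V 0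
  have hV1O : mink (V 1) O = CC := by rw [mink_comm]; exact mink_O_V 1
  have hV01 : mink (V 0) (V 1) = 2 * c32 ^ 2 - 1 := mink_V_V' 0
  have hV10 : mink (V 1) (V 0) = 2 * c32 ^ 2 - 1 := by rw [mink_comm]; exact hV01
  have h2 : mink (Om (ac w z : ℂ)) O ≤ CC := by
    rw [h] at h1 ⊢
    simp only [mink_add_left, mink_add_right, mink_smul_left, mink_smul_right] at h1 ⊢
    rw [mink_O_O, mink_O_V, mink_O_V, hV0O, hV1O, mink_V_V, mink_V_V, hV01, hV10] at h1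
    rw [mink_O_O, hV0O, hV1O]
    have hab : 0 ≤ a * b := mul_nonneg ha hb
    have hac : 0 ≤ a * c := mul_nonneg ha hc
    have hbc : 0 ≤ b * c := mul_nonneg hb hc
    have h32' : 1 ≤ 2 * c32 ^ 2 - 1 := by nlinarith [h32.1]
    have h3 : (a + b + c) ^ 2 ≤ 1 := by
      have e1 : 0 ≤ (CC - 1) * (a * b) := mul_nonneg (by linarith [hCC.1]) hab
      have e2 : 0 ≤ (CC - 1) * (a * c) := mul_nonneg (by linarith [hCC.1]) hac
      have e3 : 0 ≤ (2 * c32 ^ 2 - 1 - 1) * (b * c) := mul_nonneg (by linarith) hbc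
      nlinarith
    have h4 : a + b + c ≤ 1 := by nlinarith
    nlinarith [hCC.1]
  have h3 : hd (ac w z) o0 ≤ cc := a39_cosh_le a39_cc_nonneg cosh_cc h2
  obtain ⟨γ, hγ, hγ1⟩ := red0 w⁻¹
  have hu : ac w⁻¹ o0 = ac γ⁻¹ o0 := by
    have h9 : ac γ⁻¹ (ac γ (ac w⁻¹ o0)) = ac w⁻¹ o0 := by
      rw [← Homeomorph.mul_apply, ← map_mul, inv_mul_cancel, map_one]
      rfl
    rw [hγ1] at h9
    exact h9.symm
  have h4 : hd z (ac γ⁻¹ o0 : Disc) ≤ cc := by
    have h5 : hd (ac w z : Disc) (ac w (ac w⁻¹ o0) : Disc) = hd z (ac w⁻¹ o0 : Disc) := hd_app (rho w) z.2 (ac w⁻¹ o0).2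
    have h6 : ac w (ac w⁻¹ o0) = o0 := by
      rw [← Homeomorph.mul_apply, ← map_mul, mul_inv_cancel, map_one]
      rfl
    rw [h6] at h5
    rw [← hu, ← h5]
    exact h3
  have h5 := bs_lip gl0 z.2 (ac γ⁻¹ o0).2
  rw [hbs] at h5
  refine ⟨γ, hγ, ?_⟩
  have h6 : bs (rho γ * gl0) (o0 : ℂ) = bs gl0 (ac γ⁻¹ o0 : Disc) := by
    rw [a39_bs, a39_bs, Om_ac, nu_mul]
    congr 2
    rw [← mink_lin (rho γ) ((rho γ⁻¹).lin (Om (o0 : ℂ))), ← lin_mul, ← map_mul, mul_inv_cancel, map_one, lin_one]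
  have h7 : bs (rho γ * gl0) 0 = bs gl0 (ac γ⁻¹ o0 : Disc) := h6
  rw [h7]
  have h8 := (abs_le.1 (h5.trans h4)).2
  have h9 := le_abs_self M
  have h10 := le_abs_self (bs gl0 (ac γ⁻¹ o0 : Disc))
  linarith

end Pool.Agent.Lib.H11Q.A
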