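import Mathlib
import Pool.Agent.Lib.H11Q.AD
import Pool.Agent.Lib.H11Q.A01
import Pool.Agent.Lib.H11Q.A02
import Pool.Agent.Lib.H11Q.A30

/-! # H11Q (MP_a00a7b_an) module A, chunk A36: two lines: the product of the normals -/

set_option autoImplicit false

namespace Pool.Agent.Lib.H11Q.A

open Complex Set
open scoped ComplexConjugate Topology

theorem a36_real {α β σ : ℝ} (hσ : 0 < σ) (h : ∀ x : ℝ, 0 < x → 2 * σ ≤ |α * x + β / x|) :
    σ ^ 2 ≤ α * β := by
  rcases lt_trichotomy (α * β) 0 with h1 | h1 | h1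
  · exfalso
    have hα : α ≠ 0 := by
      rintro rfl
      simp at h1
    have hq : 0 < -β / α := by
      have : -β / α = -(α * β) / α ^ 2 := by
        field_simp
      rw [this]
      exact div_pos (by linarith) (by positivity)
    have hx : 0 < Real.sqrt (-β / α) := Real.sqrt_pos.2 hq
    have h2 := h _ hx
    have h3 : α * Real.sqrt (-β / α) + β / Real.sqrt (-β / α) = 0 := by
      have h4 : Real.sqrt (-β / α) * Real.sqrt (-β / α) = -β / α := Real.mul_self_sqrt hq.le
      rw [← mul_left_inj' hx.ne', add_mul, div_mul_cancel₀ _ hx.ne', mul_assoc, h4, zero_mul]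
      field_simp
      ring
    rw [h3, abs_zero] at h2
    linarith
  · exfalso
    rcases mul_eq_zero.1 h1 with h2 | h2
    · subst h2
      have h3 := h ((|β| + 1) / σ) (by positivity)
      rw [zero_mul, zero_add, abs_div, abs_of_pos (by positivity : 0 < (|β| + 1) / σ)] at h3
      have h4 : |β| / ((|β| + 1) / σ) < σ := by
        rw [div_div_eq_mul_div, div_lt_iff₀ (by positivity)]
        nlinarith [abs_nonneg β]
      linarith
    · subst h2
      have h3 := h (σ / (|α| + 1)) (by positivity)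
      rw [zero_div, add_zero, abs_mul, abs_of_pos (by positivity : 0 < σ / (|α| + 1))] at h3
      have h4 : |α| * (σ / (|α| + 1)) < σ := by
        rw [mul_div_assoc', div_lt_iff₀ (by positivity)]
        nlinarith [abs_nonneg α]
      linarith
  · have hα : α ≠ 0 := by
      rintro rfl
      simp at h1
    have hβ : β ≠ 0 := by
      rintro rfl
      simp at h1
    have hq : 0 < β / α := by
      have : β / α = (α * β) / α ^ 2 := by
        field_simp
      rw [this]
      exact div_pos h1 (by positivity)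
    have hx : 0 < Real.sqrt (β / α) := Real.sqrt_pos.2 hq
    have h2 := h _ hx
    have h4 : Real.sqrt (β / α) * Real.sqrt (β / α) = β / α := Real.mul_self_sqrt hq.le
    have h3 : (α * Real.sqrt (β / α) + β / Real.sqrt (β / α)) ^ 2 = 4 * (α * β) := by
      have h5 : α * Real.sqrt (β / α) = β / Real.sqrt (β / α) := by
        rw [eq_div_iff hx.ne', mul_assoc, h4]
        field_simp
      rw [h5, ← two_mul, mul_pow, div_pow, pow_two (Real.sqrt (β / α)), h4]
      field_simp
      ring
    have h6 : (2 * σ) ^ 2 ≤ |α * Real.sqrt (β / α) + β / Real.sqrt (β / α)| ^ 2 :=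
      pow_le_pow_left₀ (by positivity) h2 2
    rw [sq_abs, h3] at h6
    nlinarith

theorem a36_TT (u : ℝ) : (TT u).lin (1, 0) = (Real.cosh u, (Real.sinh u : ℂ)) := by
  have h1 : Real.cosh u = Real.cosh (u / 2) ^ 2 + Real.sinh (u / 2) ^ 2 := by
    rw [← Real.cosh_two_mul]
    congr 1
    ring
  have h2 : Real.sinh u = 2 * Real.sinh (u / 2) * Real.cosh (u / 2) := by
    rw [← Real.sinh_two_mul]
    congr 1
    ring
  unfold SU.lin TT
  ext1
  · simp only [normSq_ofReal, mul_one, mul_zero, zero_re, add_zero]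
    rw [h1]
    ring
  · simp only [mul_zero, map_zero, add_zero, ofReal_one, mul_one]
    rw [h2]
    push_cast
    ring

/-- PROOF. Frame `P = gl0.lin (1,0)`, `Q = gl0.lin (0,1)`, `N = nu gl0 = gl0.lin (0,I)`: `mink n n = mink P n ^2 - mink Q n ^2 - mink N n ^2` (true for gl0 = 1, invariance). `Om (pl u) = cosh u P + sinh u Q`. So with `p = mink P n`, `q = mink Q n`:
`p^2 - q^2 = mink N n ^2 - 1` and `s <= |p cosh u + q sinh u|` for all `u`. If `|p| < |q|`: `tanh u = -p/q` gives 0. If `|p| = |q|`: the value tends to 0 for `u` to plus or minus infinity. So `|p| > |q|`; `tanh u = -q/p` gives the value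
`+- sqrt (p^2 - q^2)`. So `s^2 <= mink N n^2 - 1`. -/
theorem normal_gap (n : Mk) (hn : mink n n = -1) {σ : ℝ} (hσ : 0 < σ) (h : ∀ z ∈ L0, σ ≤ |mink (Om z) n|) :
    1 + σ ^ 2 ≤ mink (nu gl0) n ^ 2 := by
  set m : Mk := (gl0⁻¹).lin n with hm
  have hn' : gl0.lin m = n := by
    rw [hm, ← lin_mul, mul_inv_cancel, lin_one]
  have hmm : m.1 ^ 2 - (m.2.re ^ 2 + m.2.im ^ 2) = -1 := by
    rw [← hn, ← hn', mink_lin]
    unfold mink
    rw [mul_re, conj_re, conj_im]
    ring
  have hnu : mink (nu gl0) n = -m.2.im := by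
    rw [← hn']
    unfold nu
    rw [mink_lin]
    unfold mink
    rw [mul_re, conj_re, conj_im]
    simp
  have hpl : ∀ u : ℝ, mink (Om (pl u)) n = m.1 * Real.cosh u - m.2.re * Real.sinh u := by
    intro u
    have e1 : ((pl u : Disc) : ℂ) = (gl0 * TT u).app 0 := rfl
    rw [e1, Om_app _ (by simp), Om_zero, lin_mul, a36_TT, ← hn', mink_lin]
    unfold mink
    rw [mul_re, conj_re, conj_im, ofReal_re, ofReal_im]
    ring
  have h1 : σ ^ 2 ≤ (m.1 - m.2.re) * (m.1 + m.2.re) := by
    refine a36_real hσ fun x hx => ?_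
    have h2 := h (pl (Real.log x)) ((mem_L0 _).2 ⟨_, rfl⟩)
    rw [hpl, Real.cosh_eq, Real.sinh_eq, Real.exp_neg, Real.exp_log hx] at h2
    have h3 : (m.1 - m.2.re) * x + (m.1 + m.2.re) / x
        = 2 * (m.1 * ((x + x⁻¹) / 2) - m.2.re * ((x - x⁻¹) / 2)) := by
      field_simp
      ring
    rw [h3, abs_mul, abs_of_pos (by norm_num : (0 : ℝ) < 2)]
    linarith
  rw [hnu]
  nlinarith

end Pool.Agent.Lib.H11Q.A
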