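import Mathlib
import Pool.Agent.Lib.H11Q.AD
import Pool.Agent.Lib.H11Q.A01
import Pool.Agent.Lib.H11Q.A02
import Pool.Agent.Lib.H11Q.A17
import Pool.Agent.Lib.H11Q.A29
import Pool.Agent.Lib.H11Q.A33
import Pool.Agent.Lib.H11Q.A35
import Pool.Agent.Lib.H11Q.A36
import Pool.Agent.Lib.H11Q.A38
import Pool.Agent.Lib.H11Q.A39

/-! # H11Q (MP_a00a7b_an) module A, chunk A40: the set of the oriented normals -/

set_option autoImplicit false

namespace Pool.Agent.Lib.H11Q.A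

open Complex Set
open scoped ComplexConjugate Topology

/-- The normals of the lines, oriented so that `0` is on the negative side. -/
def Lam : Set Mk := {n | (∃ γ ∈ Gam0, n = (rho γ).lin (nu gl0) ∨ n = -(rho γ).lin (nu gl0)) ∧ 0 < mink O n}

theorem a40_lin_neg (g : SU) (x : Mk) : g.lin (-x) = -g.lin x := by
  have h := lin_smul g (-1) x
  rw [neg_one_smul, neg_one_smul] at h
  exact h

theorem a40_abs_arsinh (x : ℝ) : |Real.arsinh x| = Real.arsinh |x| := by
  rcases le_total 0 x with h | h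
  · rw [abs_of_nonneg h, abs_of_nonneg (Real.arsinh_nonneg_iff.2 h)]
  · rw [abs_of_nonpos h, abs_of_nonpos (Real.arsinh_nonpos_iff.2 h), Real.arsinh_neg]

theorem a40_bs (γ : W) (z : Disc) : |bs (rho γ * gl0) z| = Real.arsinh |mink (Om z) ((rho γ).lin (nu gl0))| := by
  unfold bs
  rw [sg_eq _ z.2, nu_mul, a40_abs_arsinh, abs_neg]

theorem a40_Lam_abs {n : Mk} {γ : W} (h : n = (rho γ).lin (nu gl0) ∨ n = -(rho γ).lin (nu gl0)) (h0 : 0 < mink O n) :
    |mink O ((rho γ).lin (nu gl0))| = mink O n := by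
  rcases h with h | h
  · rw [← h, abs_of_pos h0]
  · have e : (rho γ).lin (nu gl0) = -n := by rw [h, neg_neg]
    rw [e, mink_neg_right, abs_neg, abs_of_pos h0]

theorem a40_bs0 {n : Mk} {γ : W} (h : n = (rho γ).lin (nu gl0) ∨ n = -(rho γ).lin (nu gl0)) (h0 : 0 < mink O n) :
    |bs (rho γ * gl0) (o0 : ℂ)| = Real.arsinh (mink O n) := by
  rw [a40_bs, Om_o0, a40_Lam_abs h h0]

/-- PROOF. `centre_far` with `w = 1`: `|mink O (lin c nu)| = sinh |bs| >= sinh d0`. -/
theorem Lam_far (n : Mk) (hn : n ∈ Lam) : Real.sinh d0 ≤ mink O n := by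
  obtain ⟨⟨γ, hγ, h⟩, h0⟩ := hn
  have h1 := centre_far hγ 1
  rw [map_one] at h1
  have h2 : d0 ≤ Real.arsinh (mink O n) := by
    rw [← a40_bs0 h h0]
    exact h1
  have h3 := Real.sinh_le_sinh.2 h2
  rwa [Real.sinh_arsinh] at h3

/-- PROOF. `mink O n <= M`: `foot_Seg` with `z = 0`: `n = +- lin t nu`, `hd 0 (t y) = |bs| = arsinh (mink O n) <= arsinh M`; `lines_finite`. -/
theorem Lam_fin (M : ℝ) : {n | n ∈ Lam ∧ mink O n ≤ M}.Finite := by
  refine (lines_finite (Real.arsinh M)).subset ?_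
  rintro n ⟨⟨⟨γ, hγ, h⟩, h0⟩, hM⟩
  obtain ⟨t, ht, y, hy, h1, h2⟩ := foot_Seg hγ o0
  refine ⟨t, ht, ⟨y, hy, ?_⟩, ?_⟩
  · have h3 : hd 0 (ac t y : Disc) = |bs (rho γ * gl0) (o0 : ℂ)| := h1
    rw [h3, a40_bs0 h h0]
    exact Real.arsinh_le_arsinh.2 hM
  · rcases h with h | h <;> rcases h2 with h2 | h2
    · left; rw [h, h2]
    · right; rw [h, h2]
    · right; rw [h, h2]
    · left; rw [h, h2, neg_neg]

/-- PROOF. `lines_far`: `mink O` is unbounded on `Lam`. -/
theorem Lam_inf : Lam.Infinite := by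
  intro hfin
  obtain ⟨B, hB⟩ := (hfin.image (fun n => mink O n)).bddAbove
  obtain ⟨γ, hγ, h⟩ := lines_far (Real.arsinh (max B 0))
  have h1 : |bs (rho γ * gl0) 0| = Real.arsinh |mink O ((rho γ).lin (nu gl0))| := by
    have h2 := a40_bs γ o0
    rw [Om_o0] at h2
    exact h2
  rw [h1, Real.arsinh_lt_arsinh, max_lt_iff] at h
  rcases lt_or_ge 0 (mink O ((rho γ).lin (nu gl0))) with h3 | h3
  · have hm : (rho γ).lin (nu gl0) ∈ Lam := ⟨⟨γ, hγ, Or.inl rfl⟩, h3⟩
    have h4 := hB ⟨_, hm, rfl⟩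
    rw [abs_of_pos h3] at h
    simp only at h4
    linarith [h.1]
  · have h5 : 0 < mink O (-(rho γ).lin (nu gl0)) := by
      rw [mink_neg_right]
      have h6 := h.2
      rw [abs_of_nonpos h3] at h6
      exact h6
    have hm : -(rho γ).lin (nu gl0) ∈ Lam := ⟨⟨γ, hγ, Or.inr rfl⟩, h5⟩
    have h4 := hB ⟨_, hm, rfl⟩
    simp only at h4
    rw [mink_neg_right] at h4
    rw [abs_of_nonpos h3] at h
    linarith [h.1]

/-- PROOF. `n = +- lin c nu`, `n' = +- lin c' nu`: `|mink n n'| = |mink nu (lin (c^{-1} c') nu)|`; `gap'` for `c^{-1} c'`: either `lin (c^{-1}c') nu = +- nu`, so `n' = +- n`, and `n' = n` because both have positive product with `O`: excluded; or `normal_gap`. -/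
theorem Lam_sep : ∃ σ : ℝ, 0 < σ ∧ ∀ n ∈ Lam, ∀ n' ∈ Lam, n ≠ n' → 1 + σ ^ 2 ≤ mink n n' ^ 2 := by
  obtain ⟨σ, hσ, hg⟩ := gap'
  refine ⟨σ, hσ, ?_⟩
  rintro n ⟨⟨γ, hγ, h⟩, h0⟩ n' ⟨⟨γ', hγ', h'⟩, h0'⟩ hne
  have e1 : mink n n' ^ 2 = mink (nu gl0) ((rho (γ⁻¹ * γ')).lin (nu gl0)) ^ 2 := by
    have e2 : mink (nu gl0) ((rho (γ⁻¹ * γ')).lin (nu gl0)) = mink ((rho γ).lin (nu gl0)) ((rho γ').lin (nu gl0)) := by
      rw [← mink_lin (rho γ), ← lin_mul, ← map_mul, mul_inv_cancel_left]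
    rw [e2]
    rcases h with rfl | rfl <;> rcases h' with rfl | rfl
    · rfl
    · rw [mink_neg_right, neg_sq]
    · rw [mink_neg_left, neg_sq]
    · rw [mink_neg_left, mink_neg_right, neg_neg]
  rw [e1]
  rcases hg (γ⁻¹ * γ') (Gam0.mul_mem (Gam0.inv_mem hγ) hγ') with h1 | h1
  · exfalso
    have h2 : (rho γ').lin (nu gl0) = (rho γ).lin ((rho (γ⁻¹ * γ')).lin (nu gl0)) := by
      rw [← lin_mul, ← map_mul, mul_inv_cancel_left]
    have h3 : (rho γ').lin (nu gl0) = (rho γ).lin (nu gl0) ∨ (rho γ').lin (nu gl0) = -(rho γ).lin (nu gl0) := by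
      rcases h1 with h1 | h1
      · left; rw [h2, h1]
      · right; rw [h2, h1, a40_lin_neg]
    have h4 : n' = n ∨ n' = -n := by
      rcases h with rfl | rfl <;> rcases h' with rfl | rfl <;> rcases h3 with h3 | h3
      · left; exact h3
      · right; exact h3
      · right; rw [h3]
      · left; rw [h3, neg_neg]
      · right; rw [h3, neg_neg]
      · left; exact h3
      · left; rw [h3]
      · right; rw [h3]
    rcases h4 with h4 | h4
    · exact hne h4.symm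
    · rw [h4, mink_neg_right] at h0'
      linarith
  · exact normal_gap _ (by rw [mink_lin, mink_nu_self]) hσ h1

theorem a40_nu_iot : nu iot = -((0, I) : Mk) := by
  unfold nu SU.lin iot
  ext1
  · simp
  · simp

/-- PROOF. `n = lin c nu = nu (rho c * gl0)`: `g = rho c * gl0`; if `n = - lin c nu`: `g = rho c * gl0 * iot` (`iot.lin (0,I) = (0,-I)`). -/
theorem Lam_rep (n : Mk) (hn : n ∈ Lam) : ∃ g : SU, nu g = n ∧ ∃ γ ∈ Gam0, SU.act g = ac γ * SU.act gl0 ∨ SU.act g = ac γ * SU.act gl0 * SU.act iot := by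
  obtain ⟨⟨γ, hγ, h⟩, h0⟩ := hn
  rcases h with h | h
  · refine ⟨rho γ * gl0, ?_, γ, hγ, Or.inl ?_⟩
    · rw [nu_mul, h]
    · rw [map_mul]
      rfl
  · refine ⟨rho γ * gl0 * iot, ?_, γ, hγ, Or.inr ?_⟩
    · rw [nu_mul, a40_nu_iot, a40_lin_neg, h, lin_mul]
      rfl
    · rw [map_mul, map_mul]
      rfl

theorem a40_TT {k : SU} (h : k.lin (0, I) = (0, I)) : ∃ s : ℝ, SU.act k = SU.act (TT s) := by
  have h1 := congrArg Prod.fst h
  have h2 := congrArg Prod.snd h
  have h3 := k.h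
  unfold SU.lin at h1 h2
  simp only at h1 h2
  have e1 := congrArg Complex.re h2
  have e2 := congrArg Complex.im h2
  simp [pow_two] at h1 e1 e2
  rw [normSq_apply, normSq_apply] at h3
  have hai : k.a.im ^ 2 = k.b.im ^ 2 := by nlinarith
  have hzero : k.a.im = 0 ∧ k.b.im = 0 := by
    by_contra hcon
    have hne : k.a.im ≠ 0 := by
      intro h0
      apply hcon
      refine ⟨h0, ?_⟩
      rw [h0] at hai
      have : k.b.im ^ 2 = 0 := by rw [← hai]; ring
      exact pow_eq_zero_iff (two_ne_zero) |>.1 this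
    rcases sq_eq_sq_iff_eq_or_eq_neg.1 hai with h4 | h4
    · have h5 : k.b.re = k.a.re := by
        have : k.a.im * (k.b.re - k.a.re) = 0 := by
          rw [← h4] at h1
          linarith
        rcases mul_eq_zero.1 this with h6 | h6
        · exact absurd h6 hne
        · linarith
      rw [h5, ← h4] at h3
      linarith
    · have h4' : k.b.im = -k.a.im := by rw [h4]; ring
      have h5 : k.b.re = -k.a.re := by
        have : k.a.im * (k.b.re + k.a.re) = 0 := by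
          rw [h4'] at h1
          linarith
        rcases mul_eq_zero.1 this with h6 | h6
        · exact absurd h6 hne
        · linarith
      rw [h5, h4'] at h3
      linarith
  obtain ⟨ha0, hb0⟩ := hzero
  rw [ha0, hb0] at h3
  have h3' : k.a.re ^ 2 = 1 + k.b.re ^ 2 := by linarith
  have hsign : ∃ e : ℝ, (e = 1 ∨ e = -1) ∧ 0 ≤ e * k.a.re := by
    rcases le_total 0 k.a.re with h5 | h5
    · exact ⟨1, Or.inl rfl, by linarith⟩
    · exact ⟨-1, Or.inr rfl, by linarith⟩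
  obtain ⟨e, he, hea⟩ := hsign
  have he2 : e * e = 1 := by rcases he with rfl | rfl <;> norm_num
  set s : ℝ := 2 * Real.arsinh (e * k.b.re) with hs
  have hsh : Real.sinh (s / 2) = e * k.b.re := by
    rw [hs, mul_div_cancel_left₀ _ (two_ne_zero), Real.sinh_arsinh]
  have hch : Real.cosh (s / 2) = e * k.a.re := by
    have h6 := Real.cosh_sq (s / 2)
    rw [hsh] at h6
    have h7 : (e * k.a.re) ^ 2 = (e * k.b.re) ^ 2 + 1 := by
      have : e ^ 2 = 1 := by rw [pow_two]; exact he2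
      rw [mul_pow, mul_pow, this, h3']
      ring
    have h8 : Real.cosh (s / 2) ^ 2 = (e * k.a.re) ^ 2 := by rw [h6, h7]
    exact (pow_left_inj₀ (Real.cosh_pos _).le hea (two_ne_zero)).1 h8
  refine ⟨s, act_eq_of_lin fun x => ?_⟩
  have hka : k.a = e * (Real.cosh (s / 2) : ℂ) := by
    rw [hch]
    apply Complex.ext
    · simp
      rw [← mul_assoc, he2, one_mul]
    · simp [ha0]
  have hkb : k.b = e * (Real.sinh (s / 2) : ℂ) := by
    rw [hsh]
    apply Complex.ext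
    · simp
      rw [← mul_assoc, he2, one_mul]
    · simp [hb0]
  have hec : (e : ℂ) * e = 1 := by exact_mod_cast he2
  unfold SU.lin TT
  rw [hka, hkb]
  ext1
  · simp only [map_mul, normSq_ofReal, Complex.conj_ofReal]
    have h9 : (e : ℂ) * (Real.cosh (s / 2) : ℂ) * ((e : ℂ) * (Real.sinh (s / 2) : ℂ)) * x.2 =
        (Real.cosh (s / 2) : ℂ) * (Real.sinh (s / 2) : ℂ) * x.2 := by
      linear_combination ((Real.cosh (s / 2) : ℂ) * (Real.sinh (s / 2) : ℂ) * x.2) * hec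
    rw [h9]
    linear_combination ((Real.cosh (s / 2)) ^ 2 + (Real.sinh (s / 2)) ^ 2) * x.1 * he2
  · simp only
    linear_combination (2 * (Real.cosh (s / 2) : ℂ) * (Real.sinh (s / 2) : ℂ) * x.1 + (Real.cosh (s / 2) : ℂ) ^ 2 * x.2 +
      (Real.sinh (s / 2) : ℂ) ^ 2 * (starRingEnd ℂ) x.2) * hec

/-- PROOF. `h = g^{-1} g'` fixes the vector `(0, I)`: `2 Re(a conj b I) = 0` and `a^2 I + b^2 (-I) = I`, i.e. `a^2 - b^2 = 1` and `Im (a conj b) = 0`, with `|a|^2 - |b|^2 = 1`: so `a`, `b` are real, and `h` or `-h` is `TT s`. -/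
theorem act_of_nu {g g' : SU} (h : nu g = nu g') : ∃ s : ℝ, SU.act g' = SU.act g * SU.act (TT s) := by
  have h1 : (g⁻¹ * g').lin (0, I) = (0, I) := by
    rw [lin_mul]
    have h2 : g'.lin (0, I) = g.lin (0, I) := h.symm
    rw [h2, ← lin_mul, inv_mul_cancel, lin_one]
  obtain ⟨s, hs⟩ := a40_TT h1
  refine ⟨s, ?_⟩
  rw [← hs, ← map_mul, mul_inv_cancel_left]

/-- PROOF. `nu (g' * iot) = - nu g' = nu g`, `act_of_nu`, `iot TT s = TT (-s) iot` as maps, `iot iot = 1` as maps. -/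
theorem act_of_nu' {g g' : SU} (h : nu g' = -nu g) : ∃ s : ℝ, SU.act g' = SU.act g * SU.act iot * SU.act (TT s) := by
  have h1 : nu (g * iot) = nu g' := by
    rw [nu_mul, a40_nu_iot, a40_lin_neg, h]
    rfl
  obtain ⟨s, hs⟩ := act_of_nu h1
  refine ⟨s, ?_⟩
  rw [hs, map_mul]

end Pool.Agent.Lib.H11Q.A
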