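import Mathlib
import Pool.Agent.Lib.H11Q.AD
import Pool.Agent.Lib.H11Q.A01
import Pool.Agent.Lib.H11Q.A02
import Pool.Agent.Lib.H11Q.A03
import Pool.Agent.Lib.H11Q.A29
import Pool.Agent.Lib.H11Q.A35
import Pool.Agent.Lib.H11Q.A37
import Pool.Agent.Lib.H11Q.A38
import Pool.Agent.Lib.H11Q.A39
import Pool.Agent.Lib.H11Q.A40

/-! # H11Q (MP_a00a7b_an) module A, chunk A41: assembly: A_lines -/

set_option autoImplicit false

namespace Pool.Agent.Lib.H11Q.A

open Complex Set
open scoped ComplexConjugate Topology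

theorem a41_bs (g : SU) (z : Disc) : bs g z = Real.arsinh (-mink (Om z) (nu g)) := by
  unfold bs
  rw [sg_eq _ z.2]

theorem a41_bs0 (g : SU) : bs g 0 = -Real.arsinh (mink O (nu g)) := by
  have h := a41_bs g o0
  rw [Om_o0, Real.arsinh_neg] at h
  exact h

theorem a41_abs {g : SU} {n : Mk} (hg : nu g = n) {γ : W} (h : n = (rho γ).lin (nu gl0) ∨ n = -(rho γ).lin (nu gl0)) (z : Disc) :
    |bs g z| = |bs (rho γ * gl0) z| := by
  rw [a40_bs, a41_bs, a40_abs_arsinh, abs_neg, hg]
  rcases h with rfl | rfl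
  · rfl
  · rw [mink_neg_right, abs_neg]

/-- PROOF. `sort_set` for `Lam` and `f = mink O`; `g n` from `Lam_rep (e n)`; `om = min of 1, d0/4, r/4 (vertex_far), arsinh(s)/4 (Lam_sep)`. `rep`: `Lam_rep`. `perm`: `(rho c).lin (nu (g n)) = +- e m` for some `m` (it or its negative is in `Lam`: it is
`+- lin (c c_n) nu` and its product with `O` is not 0 by `centre_far`), `act_of_nu`, `act_of_nu'`. `sep`: `sep_of_gram` with `d = 4 om`, `cosh d <= sqrt (1+s^2)`; `bs (g n) 0 = -arsinh (mink O (e n))` is antitone in `n`. `neg`: `Lam_far`. `fin`: `Lam_fin` and injectivity.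
`cen`: `centre_far`, `vertex_far`: `|bs (g n) z| = |bs (rho c * gl0) z|` because `nu (g n) = +- nu (rho c * gl0)`. -/
theorem lines : Nonempty LineSys := by
  obtain ⟨e, einj, erange, emono⟩ := sort_set Lam Lam_inf (fun n => mink O n) Lam_fin
  obtain ⟨r, hr0, hr⟩ := vertex_far
  obtain ⟨σ, hσ, hsep⟩ := Lam_sep
  have he : ∀ n, e n ∈ Lam := fun n => by
    rw [← erange]
    exact ⟨n, rfl⟩
  choose g hg γg hγg hrep using fun n => Lam_rep (e n) (he n)
  have hd0 := d0_pos
  have hσ' : 0 < Real.arsinh σ := Real.arsinh_pos_iff.2 hσ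
  set om : ℝ := min 1 (min (d0 / 4) (min (r / 4) (Real.arsinh σ / 4))) with hom
  have hom0 : 0 < om := lt_min one_pos (lt_min (by linarith) (lt_min (by linarith) (by linarith)))
  have hom1 : om ≤ 1 := min_le_left _ _
  have hom2 : om ≤ d0 / 4 := (min_le_right _ _).trans (min_le_left _ _)
  have hom3 : om ≤ r / 4 := (min_le_right _ _).trans ((min_le_right _ _).trans (min_le_left _ _))
  have hom4 : om ≤ Real.arsinh σ / 4 := (min_le_right _ _).trans ((min_le_right _ _).trans (min_le_right _ _))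
  have hfar : ∀ n, d0 ≤ Real.arsinh (mink O (e n)) := by
    intro n
    have h1 := Lam_far (e n) (he n)
    have h2 := Real.arsinh_le_arsinh.2 h1
    rwa [Real.arsinh_sinh] at h2
  have hneg : ∀ n, bs (g n) 0 ≤ -(4 * om) := by
    intro n
    rw [a41_bs0, hg n]
    have := hfar n
    linarith
  refine ⟨⟨om, hom0, hom1, g, fun n => ⟨γg n, hγg n, hrep n⟩, ?_, ?_, hneg, ?_, ?_⟩⟩
  · intro γ hγ n
    obtain ⟨⟨γ', hγ', h⟩, h0⟩ := he n
    have e1 : nu (rho γ * g n) = (rho (γ * γ')).lin (nu gl0) ∨ nu (rho γ * g n) = -(rho (γ * γ')).lin (nu gl0) := by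
      rw [nu_mul, hg n]
      rcases h with h | h
      · left
        rw [h, ← lin_mul, ← map_mul]
      · right
        rw [h, a40_lin_neg, ← lin_mul, ← map_mul]
    have hm := Gam0.mul_mem hγ hγ'
    have h1 : mink O (nu (rho γ * g n)) ≠ 0 := by
      intro h2
      have h3 := centre_far hm 1
      rw [map_one] at h3
      have h4 : |bs (rho (γ * γ') * gl0) (o0 : ℂ)| = 0 := by
        rw [a40_bs, Om_o0]
        have h5 : mink O ((rho (γ * γ')).lin (nu gl0)) = 0 := by
          rcases e1 with e1 | e1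
          · rw [← e1]; exact h2
          · have e2 : (rho (γ * γ')).lin (nu gl0) = -nu (rho γ * g n) := by rw [e1, neg_neg]
            rw [e2, mink_neg_right, h2, neg_zero]
        rw [h5, abs_zero, Real.arsinh_zero]
      have h6 : d0 ≤ |bs (rho (γ * γ') * gl0) (o0 : ℂ)| := h3
      rw [h4] at h6
      linarith
    rcases lt_or_gt_of_ne h1 with h2 | h2
    · have hmem : -nu (rho γ * g n) ∈ Lam := by
        refine ⟨⟨γ * γ', hm, ?_⟩, ?_⟩
        · rcases e1 with e1 | e1
          · right; rw [e1]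
          · left; rw [e1, neg_neg]
        · rw [mink_neg_right]
          linarith
      rw [← erange] at hmem
      obtain ⟨m, hm'⟩ := hmem
      have h3 : nu (rho γ * g n) = -nu (g m) := by rw [hg m, hm', neg_neg]
      obtain ⟨s, hs⟩ := act_of_nu' h3
      refine ⟨m, s, Or.inr ?_⟩
      rw [← hs, map_mul]
      rfl
    · have hmem : nu (rho γ * g n) ∈ Lam := ⟨⟨γ * γ', hm, e1⟩, h2⟩
      rw [← erange] at hmem
      obtain ⟨m, hm'⟩ := hmem
      have h3 : nu (g m) = nu (rho γ * g n) := by rw [hg m, hm']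
      obtain ⟨s, hs⟩ := act_of_nu h3
      refine ⟨m, s, Or.inl ?_⟩
      rw [← hs, map_mul]
      rfl
  · intro i j hij
    refine sep_of_gram (g i) (g j) (by linarith) ?_ ?_ ?_
    · rw [hg i, hg j]
      have h1 := hsep (e i) (he i) (e j) (he j) (fun h => hij.ne (einj h))
      have h2 : Real.sinh (4 * om) ≤ σ := by
        have h3 : 4 * om ≤ Real.arsinh σ := by linarith
        have h4 := Real.sinh_le_sinh.2 h3
        rwa [Real.sinh_arsinh] at h4
      have h3 : 0 ≤ Real.sinh (4 * om) := Real.sinh_nonneg_iff.2 (by linarith)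
      have h4 := Real.cosh_sq (4 * om)
      have h5 : Real.cosh (4 * om) ^ 2 ≤ |mink (e i) (e j)| ^ 2 := by
        rw [sq_abs, h4]
        nlinarith
      exact (pow_le_pow_iff_left₀ (Real.cosh_pos _).le (abs_nonneg _) two_ne_zero).1 h5
    · rw [a41_bs0, a41_bs0, hg i, hg j, neg_le_neg_iff]
      exact Real.arsinh_le_arsinh.2 (emono hij.le)
    · have := hneg i
      linarith
  · intro M
    have h1 := (Lam_fin (Real.sinh (-M))).preimage (f := e) einj.injOn
    refine h1.subset fun n hn => ?_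
    refine ⟨he n, ?_⟩
    have h2 : M ≤ bs (g n) 0 := hn
    rw [a41_bs0, hg n] at h2
    have h3 : Real.arsinh (mink O (e n)) ≤ -M := by linarith
    have h4 := Real.sinh_le_sinh.2 h3
    rwa [Real.sinh_arsinh] at h4
  · intro w n
    obtain ⟨⟨γ', hγ', h⟩, h0⟩ := he n
    constructor
    · rw [a41_abs (hg n) h]
      have := centre_far hγ' w
      linarith
    · rw [a41_abs (hg n) h]
      have := hr γ' hγ' w
      linarith

end Pool.Agent.Lib.H11Q.A
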