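import Mathlib
import Pool.Agent.Lib.H11Q.A26
import Pool.Agent.Lib.H11Q.A27
import Pool.Agent.Lib.H11Q.A28
import Pool.Agent.Lib.H11Q.A30
import Pool.Agent.Lib.H11Q.A41

/-! # H11Q (MP_a00a7b_an): module A (arithmetic, tiling, lines), exported theorems -/

set_option autoImplicit false

namespace Pool.Agent.Lib.H11Q

open Complex Set MeasureTheory
open scoped ComplexConjugate Topology

/-- 2.6 -/
theorem A_key (w : W) : CC ≤ mink (Om (ac w o0)) (Om vv) := A.key w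

/-- 3.6 -/
theorem A_cover (X Y : Disc) : ∃ w : W, mink (Om X) (Om (ac w Y)) ≤ CC := A.cover X Y

/-- 3.7 -/
theorem A_near {δ : ℝ} (hδ : 0 < δ) : ∃ ε > 0, ∀ X Y : Disc,
    (∃ w : W, mink (Om X) (Om (ac w Y)) ≤ CC - ε) ∨
    (∃ w1 w2 : W, sh (ac w1 X) 0 < δ ∧ sh (ac w2 Y) vv < δ) ∨
    (∃ w1 w2 : W, sh (ac w1 X) vv < δ ∧ sh (ac w2 Y) 0 < δ) := A.near hδ

/-- 3.8 -/
theorem A_diam : diamO = cc := A.diam

/-- 2.7 - 2.9, 4.1: deep congruence covers. -/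
theorem A_cong (R : ℝ) : ∃ G : Subgroup W, G.Normal ∧ G.FiniteIndex ∧ G ≤ Gam0 ∧
    ∀ w ∈ G, ac w = 1 ∨ ∀ z : Disc, R < hd z (ac w z) := A.cong R

/-- The action of the triangle group is properly discontinuous. -/
theorem A_proper (K : Set Disc) (hK : IsCompact K) :
    {g : Disc ≃ₜ Disc | (∃ w : W, g = ac w) ∧ (g '' K ∩ K).Nonempty}.Finite := A.proper K hK

/-- 4.2 -/
theorem A_red0 (w : W) : ∃ γ ∈ Gam0, ac γ (ac w o0) = o0 := A.red0 w

/-- 4.3 -/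
theorem A_redv (w : W) : ∃ γ ∈ Gam0, ∃ j ∈ ({0, 3, 5} : Finset ℕ),
    ac γ (ac w v0) = ac (wA ^ j) v0 := A.redv w

/-- 4.2 -/
theorem A_stab : ∀ γ ∈ Gam0, ac γ o0 = o0 → ac γ = 1 := A.stab

/-- 3.4, 9.5: every point of the Euclidean heptagon `P` has the unique nearest centre `0`. -/
theorem A_voronoi (z : Disc)
    (hz : ∀ j : ℕ, ((z : ℂ) * exp (-((Real.pi / 7 + 2 * Real.pi * j / 7 : ℝ) : ℂ) * I)).re < r1)
    (w : W) (hw : ac w o0 ≠ o0) : mink (Om z) (Om 0) < mink (Om z) (Om (ac w o0)) := A.voronoi z hz w hw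

/-- 4.4: the half-turns about `m_0` and `m_1` are in `Gam0`. -/
theorem A_e0 : wA * wB ∈ Gam0 := A.e0_mem
theorem A_e1 : wA * (wA * wB) * wA⁻¹ ∈ Gam0 := A.e1_mem

/-- The half-turns act on the base line by `u -> 2 u0 - u`, `u -> -2 u0 - u`, where `2 u0 = d(m_0, m_1)`, `sinh u0 = sqrt (cos^2 (pi/7) - 3/4)` (`A.u0`). -/
theorem A_half0 : ac (wA * wB) * SU.act gl0 = SU.act gl0 * SU.act (TT (2 * A.u0)) * SU.act iot := A.half0
theorem A_half1 : ac (wA * (wA * wB) * wA⁻¹) * SU.act gl0 = SU.act gl0 * SU.act (TT (-(2 * A.u0))) * SU.act iot := A.half1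

/-- 4.5 - 4.8 -/
theorem A_lines : Nonempty LineSys := A.lines

end Pool.Agent.Lib.H11Q
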