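import Pool.Agent.Lib.H11Q.CD

set_option autoImplicit false

namespace Pool.Agent.Lib.H11Q

open Complex Set MeasureTheory
open scoped ComplexConjugate Topology

/-! C01 (S/M): the real linear maps `ab a b : v ↦ a v + b conj v`. -/

/-- In the basis `1, I` the matrix of `ab a b` is `[[Re a + Re b, Im b - Im a], [Im a + Im b, Re a - Re b]]`, so
the determinant is `(Re a)² - (Re b)² - (Im b)² + (Im a)²`.  (`ContinuousLinearMap.det`,
`LinearMap.det_toLin'` or `LinearMap.det_toMatrix Complex.basisOneI`.) -/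
theorem C_ab_det (a b : ℂ) : (ab a b).det = ‖a‖ ^ 2 - ‖b‖ ^ 2 := by
  have h : ∀ v : ℂ, ((ab a b : ℂ →L[ℝ] ℂ) : ℂ →ₗ[ℝ] ℂ) v = a * v + b * conj v := fun v => ab_apply a b v
  rw [ContinuousLinearMap.det, ← LinearMap.det_toMatrix Complex.basisOneI, Matrix.det_fin_two]
  simp only [LinearMap.toMatrix_apply, Complex.coe_basisOneI, Complex.coe_basisOneI_repr, h, Matrix.cons_val_zero, Matrix.cons_val_one]
  rw [← Complex.normSq_eq_norm_sq, ← Complex.normSq_eq_norm_sq, Complex.normSq_apply, Complex.normSq_apply]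
  simp only [map_one, conj_I, mul_one, add_re, add_im, mul_re, mul_im, neg_re, neg_im, I_re, I_im]
  ring


/-- `≤` by the triangle inequality.  `≥`: if `a, b ≠ 0`, choose a unit complex number `v` with
`a v / |a| = b conj v / |b|`, i.e. `v² = |a| b / (a |b|)` (`v = exp (i arg(..) / 2)`); then
`|a v + b conj v| = |a| + |b|`. The cases `a = 0` or `b = 0` are trivial (`v = 1`). -/
theorem C_ab_norm (a b : ℂ) : ‖ab a b‖ = ‖a‖ + ‖b‖ := by
  apply le_antisymm
  · refine ContinuousLinearMap.opNorm_le_bound _ (by positivity) fun v => ?_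
    rw [ab_apply]
    refine (norm_add_le _ _).trans ?_
    rw [norm_mul, norm_mul, RCLike.norm_conj]
    exact le_of_eq (by ring)
  · suffices h : ∃ v : ℂ, ‖v‖ = 1 ∧ ‖a * v + b * conj v‖ = ‖a‖ + ‖b‖ by
      obtain ⟨v, hv, h⟩ := h
      have h2 := (ab a b).le_opNorm v
      rw [ab_apply, h, hv, mul_one] at h2
      exact h2
    by_cases ha : a = 0
    · exact ⟨1, by simp, by simp [ha]⟩
    by_cases hb : b = 0
    · exact ⟨1, by simp, by simp [hb]⟩
    have ha' : ‖a‖ ≠ 0 := norm_ne_zero_iff.mpr ha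
    have hb' : ‖b‖ ≠ 0 := norm_ne_zero_iff.mpr hb
    obtain ⟨v, hv⟩ := IsAlgClosed.exists_pow_nat_eq (b * (‖a‖ : ℂ) / (a * (‖b‖ : ℂ))) (n := 2) (by norm_num)
    have hv1 : ‖v‖ = 1 := by
      have h := congrArg norm hv
      rw [norm_pow, norm_div, norm_mul, norm_mul, norm_real, norm_real, norm_norm, norm_norm, mul_comm ‖b‖,
        div_self (mul_ne_zero ha' hb')] at h
      nlinarith [norm_nonneg v]
    have hvc : v * conj v = 1 := by
      rw [mul_conj, normSq_eq_norm_sq, hv1]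
      simp
    have hac : (‖a‖ : ℂ) ≠ 0 := by exact_mod_cast ha'
    have hbc : (‖b‖ : ℂ) ≠ 0 := by exact_mod_cast hb'
    have h1 : a * v = ((‖a‖ / ‖b‖ : ℝ) : ℂ) * (b * conj v) := by
      have h2 : v = v ^ 2 * conj v := by linear_combination (-v) * hvc
      have h3 : a * v = a * (v ^ 2 * conj v) := by rw [← h2]
      rw [h3, hv]
      push_cast
      field_simp
    refine ⟨v, hv1, ?_⟩
    have h4 : a * v + b * conj v = ((‖a‖ / ‖b‖ + 1 : ℝ) : ℂ) * (b * conj v) := by
      rw [h1]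
      push_cast
      ring
    rw [h4, norm_mul, norm_mul, RCLike.norm_conj, hv1, norm_real, Real.norm_eq_abs, abs_of_nonneg (by positivity)]
    field_simp


/-- `a = (L 1 - i L i)/2`, `b = (L 1 + i L i)/2`. -/
theorem C_ab_all (L : ℂ →L[ℝ] ℂ) : ∃ a b : ℂ, L = ab a b := by
  refine ⟨(L 1 - I * L I) / 2, (L 1 + I * L I) / 2, ?_⟩
  refine ContinuousLinearMap.ext fun v => ?_
  have h : L v = v.re * L 1 + v.im * L I := by
    have h1 : v = v.re • (1 : ℂ) + v.im • I := by
      simp [Complex.re_add_im]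
    have h2 := congrArg L h1
    rw [map_add, map_smul, map_smul, real_smul, real_smul] at h2
    exact h2
  have h3 : conj v = v.re - v.im * I := by
    apply Complex.ext <;> simp
  have h4 : v = v.re + v.im * I := (Complex.re_add_im v).symm
  rw [ab_apply, h, h3]
  generalize hL1 : L 1 = p
  generalize hLI : L I = q
  have h5 : (p - I * q) / 2 * v + (p + I * q) / 2 * (v.re - v.im * I) =
      (p - I * q) / 2 * (v.re + v.im * I) + (p + I * q) / 2 * (v.re - v.im * I) := by rw [← h4]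
  rw [h5]
  linear_combination (v.im * q) * I_sq


theorem C_ab_comp (a b c d : ℂ) :
    (ab a b).comp (ab c d) = ab (a * c + b * conj d) (a * d + b * conj c) := by
  refine ContinuousLinearMap.ext fun v => ?_
  rw [ContinuousLinearMap.comp_apply, ab_apply, ab_apply, ab_apply, map_add, map_mul, map_mul, conj_conj]
  ring


/-- From `C_ab_det`, `C_ab_norm`: `(|a|+|b|)² ≤ K (|a|-|b|)(|a|+|b|)`, divide by `|a|+|b| > 0`. -/
theorem C_QCL_ab {K : ℝ} {a b : ℂ} :
    QCL K (ab a b) ↔ ‖b‖ < ‖a‖ ∧ ‖a‖ + ‖b‖ ≤ K * (‖a‖ - ‖b‖) := by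
  unfold QCL
  rw [C_ab_det, C_ab_norm]
  have ha := norm_nonneg a
  have hb := norm_nonneg b
  generalize ‖a‖ = x at ha ⊢
  generalize ‖b‖ = y at hb ⊢
  constructor
  · rintro ⟨h1, h2⟩
    have h3 : y < x := by nlinarith
    refine ⟨h3, ?_⟩
    have h4 : 0 < x + y := by linarith
    have h5 : (x + y) * (x + y) ≤ (K * (x - y)) * (x + y) := by nlinarith
    exact le_of_mul_le_mul_right h5 h4
  · rintro ⟨h1, h2⟩
    have h4 : 0 < x + y := by linarith
    refine ⟨by nlinarith, ?_⟩
    have h5 := mul_le_mul_of_nonneg_right h2 h4.le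
    nlinarith


end Pool.Agent.Lib.H11Q
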