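import Pool.Agent.Lib.H11Q.C01

set_option autoImplicit false

namespace Pool.Agent.Lib.H11Q

open Complex Set MeasureTheory
open scoped ComplexConjugate Topology

/-! C02 (S/M): calculus of `QCL`. Everything follows from `‖L M‖ ≤ ‖L‖ ‖M‖`, `det (L M) = det L det M`
and C01. -/

/-- (If `K ≤ K'`; `0 < det`.) -/
theorem C_QCL_mono {K K' : ℝ} (h : K ≤ K') {L : ℂ →L[ℝ] ℂ} (hL : QCL K L) : QCL K' L := by
  exact ⟨hL.1, hL.2.trans (mul_le_mul_of_nonneg_right h hL.1.le)⟩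


theorem C_QCL_comp {K K' : ℝ} (hK : 0 ≤ K) {L M : ℂ →L[ℝ] ℂ} (hL : QCL K L) (hM : QCL K' M) :
    QCL (K * K') (L.comp M) := by
  have hd : (L.comp M).det = L.det * M.det := by
    rw [ContinuousLinearMap.det, ContinuousLinearMap.det, ContinuousLinearMap.det, ← LinearMap.det_comp]
    rfl
  refine ⟨by rw [hd]; exact mul_pos hL.1 hM.1, ?_⟩
  have h1 : ‖L.comp M‖ ^ 2 ≤ ‖L‖ ^ 2 * ‖M‖ ^ 2 := by
    rw [← mul_pow]
    exact pow_le_pow_left₀ (norm_nonneg _) (L.opNorm_comp_le M) 2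
  have h2 : ‖L‖ ^ 2 * ‖M‖ ^ 2 ≤ (K * L.det) * (K' * M.det) :=
    mul_le_mul hL.2 hM.2 (sq_nonneg _) (mul_nonneg hK hL.1.le)
  rw [hd]
  refine h1.trans (h2.trans (le_of_eq ?_))
  ring


/-- Multiplication by a complex number is conformal. -/
theorem C_QCL_smul {c : ℂ} (hc : c ≠ 0) : QCL 1 (ab c 0) := by
  rw [C_QCL_ab, norm_zero]
  exact ⟨norm_pos_iff.mpr hc, by simp⟩


theorem C_QCL_mul_left {K : ℝ} {L : ℂ →L[ℝ] ℂ} {c : ℂ} (hc : c ≠ 0) (hL : QCL K L) :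
    QCL K ((ab c 0).comp L) := by
  have h := C_QCL_comp zero_le_one (C_QCL_smul hc) hL
  rwa [one_mul] at h


theorem C_QCL_mul_right {K : ℝ} {L : ℂ →L[ℝ] ℂ} {c : ℂ} (hc : c ≠ 0) (hL : QCL K L) :
    QCL K (L.comp (ab c 0)) := by
  have hK : 0 ≤ K := by
    by_contra hcon
    push Not at hcon
    have h1 := hL.2
    have h2 : K * L.det < 0 := mul_neg_of_neg_of_pos hcon hL.1
    nlinarith [sq_nonneg ‖L‖]
  have h := C_QCL_comp hK hL (C_QCL_smul hc)
  rwa [mul_one] at h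


/-- The inverse has the same dilatation: `L = ab a b`, the inverse is
`ab (conj a / (|a|²-|b|²)) (- b / (|a|²-|b|²))`; use `C_QCL_ab`. -/
theorem C_QCL_inv {K : ℝ} {L M : ℂ →L[ℝ] ℂ} (h : M.comp L = ContinuousLinearMap.id ℝ ℂ)
    (hL : QCL K L) : QCL K M := by
  obtain ⟨a, b, rfl⟩ := C_ab_all L
  rw [C_QCL_ab] at hL
  have ha := norm_nonneg a
  have hb := norm_nonneg b
  have hD : 0 < ‖a‖ ^ 2 - ‖b‖ ^ 2 := by nlinarith [hL.1]
  have hDc : ((‖a‖ ^ 2 - ‖b‖ ^ 2 : ℝ) : ℂ) ≠ 0 := by exact_mod_cast hD.ne'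
  have hn : a * conj a - b * conj b = ((‖a‖ ^ 2 - ‖b‖ ^ 2 : ℝ) : ℂ) := by
    rw [mul_conj, mul_conj, normSq_eq_norm_sq, normSq_eq_norm_sq]
    push_cast
    ring
  set D : ℝ := ‖a‖ ^ 2 - ‖b‖ ^ 2 with hDdef
  have hN : (ab a b).comp (ab (conj a / D) (-b / D)) = ContinuousLinearMap.id ℝ ℂ := by
    refine ContinuousLinearMap.ext fun v => ?_
    rw [C_ab_comp, ab_apply, map_div₀, map_div₀, conj_conj, map_neg, conj_ofReal, ContinuousLinearMap.id_apply]
    field_simp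
    linear_combination v * hn
  have hM : M = ab (conj a / D) (-b / D) := by
    calc M = M.comp ((ab a b).comp (ab (conj a / D) (-b / D))) := by rw [hN, ContinuousLinearMap.comp_id]
      _ = (M.comp (ab a b)).comp (ab (conj a / D) (-b / D)) := by rw [ContinuousLinearMap.comp_assoc]
      _ = ab (conj a / D) (-b / D) := by rw [h, ContinuousLinearMap.id_comp]
  rw [hM, C_QCL_ab, norm_div, norm_div, norm_neg, RCLike.norm_conj, norm_real, Real.norm_eq_abs, abs_of_pos hD]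
  refine ⟨by gcongr; exact hL.1, ?_⟩
  rw [← add_div, ← sub_div, ← mul_div_assoc]
  gcongr
  exact hL.2


theorem C_iab_comp {m : ℂ} (hm : ‖m‖ < 1) :
    (iab m).comp (ab 1 m) = ContinuousLinearMap.id ℝ ℂ ∧
      (ab 1 m).comp (iab m) = ContinuousLinearMap.id ℝ ℂ := by
  have hp : 0 < 1 - ‖m‖ ^ 2 := by nlinarith [norm_nonneg m]
  have hpc : ((1 - ‖m‖ ^ 2 : ℝ) : ℂ) ≠ 0 := by exact_mod_cast hp.ne'
  have hn : 1 - m * conj m = ((1 - ‖m‖ ^ 2 : ℝ) : ℂ) := by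
    rw [mul_conj, normSq_eq_norm_sq]
    push_cast
    ring
  have hr : ((1 / (1 - ‖m‖ ^ 2) : ℝ) : ℂ) * (1 - m * conj m) = 1 := by
    rw [hn]
    push_cast
    push_cast at hpc
    field_simp
  unfold iab
  constructor
  · refine ContinuousLinearMap.ext fun v => ?_
    rw [C_ab_comp, ab_apply, map_one, ContinuousLinearMap.id_apply]
    linear_combination v * hr
  · refine ContinuousLinearMap.ext fun v => ?_
    rw [C_ab_comp, ab_apply, map_neg, map_mul, conj_ofReal, ContinuousLinearMap.id_apply]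
    linear_combination v * hr


theorem C_QCL_one_m {m : ℂ} (hm : ‖m‖ < 1) :
    QCL ((1 + ‖m‖) / (1 - ‖m‖)) (ab 1 m) ∧ QCL ((1 + ‖m‖) / (1 - ‖m‖)) (iab m) := by
  have h1 : QCL ((1 + ‖m‖) / (1 - ‖m‖)) (ab 1 m) := by
    rw [C_QCL_ab, norm_one]
    refine ⟨hm, le_of_eq ?_⟩
    have h : 1 - ‖m‖ ≠ 0 := by
      have : 0 < 1 - ‖m‖ := by linarith
      exact this.ne'
    rw [div_mul_cancel₀ _ h]
  exact ⟨h1, C_QCL_inv (C_iab_comp hm).1 h1⟩


/-- `bel α m = ab α (α m)`, and composition with complex numbers on the right: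
`(1, m) c = c (1, m conj(c)/c)`. -/
theorem C_bel_eq (α m : ℂ) : bel α m = (ab α 0).comp (ab 1 m) := by
  refine ContinuousLinearMap.ext fun v => ?_
  rw [ContinuousLinearMap.comp_apply, bel_apply, ab_apply, ab_apply]
  ring


theorem C_pul {m c : ℂ} (hc : c ≠ 0) :
    (ab 1 m).comp (ab c 0) = (ab c 0).comp (ab 1 (pul m c)) := by
  refine ContinuousLinearMap.ext fun v => ?_
  rw [ContinuousLinearMap.comp_apply, ContinuousLinearMap.comp_apply]
  simp only [ab_apply, zero_mul, add_zero, one_mul, map_mul]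
  unfold pul
  field_simp


theorem C_pul_norm {m c : ℂ} (hc : c ≠ 0) : ‖pul m c‖ = ‖m‖ := by
  unfold pul
  rw [norm_mul, norm_div, RCLike.norm_conj, div_self (norm_ne_zero_iff.mpr hc), mul_one]


end Pool.Agent.Lib.H11Q
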