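import Pool.Agent.Lib.H11Q.C02

set_option autoImplicit false

namespace Pool.Agent.Lib.H11Q

open Complex Set MeasureTheory
open scoped ComplexConjugate Topology

/-! C03 (M): first order expansion of the dilatation (PROOF.md 8.2). -/

theorem c03_id (p q : ℂ) : ContinuousLinearMap.id ℝ ℂ + ab p q = ab (1 + p) q := by
  ext1 v
  simp
  ring

theorem c03_norm4 (a b c d : ℂ) : ‖a + b + c + d‖ ≤ ‖a‖ + ‖b‖ + ‖c‖ + ‖d‖ :=
  (norm_add_le _ _).trans (add_le_add ((norm_add_le _ _).trans (add_le_add (norm_add_le _ _) le_rfl)) le_rfl)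

/-- The quadratic remainders. -/
theorem c03_R (κ : ℝ) (h0 : 0 ≤ κ) (h1 : κ ≤ 1 / 10) (m x y x' y' : ℂ) {s : ℝ} (hm : ‖m‖ ≤ s) (hx : ‖x‖ ≤ s) (hy : ‖y‖ ≤ s)
    (hx' : ‖x'‖ ≤ s) (hy' : ‖y'‖ ≤ s) :
    ‖-(κ * m * x) + m * y' + κ ^ 2 * m * y + -(κ * m * x')‖ ≤ 4 * s ^ 2 := by
  have hs : 0 ≤ s := (norm_nonneg m).trans hm
  have hk2 : κ ^ 2 ≤ 1 := by nlinarith
  have hmx : ∀ z : ℂ, ‖z‖ ≤ s → ‖m‖ * ‖z‖ ≤ s ^ 2 := fun z hz => by
    rw [sq]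
    exact mul_le_mul hm hz (norm_nonneg _) hs
  have hs2 : 0 ≤ s ^ 2 := sq_nonneg s
  have e1 : ‖-(κ * m * x)‖ ≤ s ^ 2 := by
    rw [norm_neg, norm_mul, norm_mul, Complex.norm_real, Real.norm_eq_abs, abs_of_nonneg h0, mul_assoc]
    have h2 := hmx x hx
    have h3 : 0 ≤ ‖m‖ * ‖x‖ := by positivity
    nlinarith
  have e2 : ‖m * y'‖ ≤ s ^ 2 := by
    rw [norm_mul]
    exact hmx y' hy'
  have e3 : ‖(κ : ℂ) ^ 2 * m * y‖ ≤ s ^ 2 := by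
    rw [norm_mul, norm_mul, norm_pow, Complex.norm_real, Real.norm_eq_abs, abs_of_nonneg h0, mul_assoc]
    have h2 := hmx y hy
    have h3 : 0 ≤ ‖m‖ * ‖y‖ := by positivity
    nlinarith
  have e4 : ‖-(κ * m * x')‖ ≤ s ^ 2 := by
    rw [norm_neg, norm_mul, norm_mul, Complex.norm_real, Real.norm_eq_abs, abs_of_nonneg h0, mul_assoc]
    have h2 := hmx x' hx'
    have h3 : 0 ≤ ‖m‖ * ‖x'‖ := by positivity
    nlinarith
  refine (c03_norm4 _ _ _ _).trans ?_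
  linarith

/-- The linear terms. -/
theorem c03_L (κ : ℝ) (h0 : 0 ≤ κ) (h1 : κ ≤ 1 / 10) (x y x' y' : ℂ) {s : ℝ} (hx : ‖x‖ ≤ s) (hy : ‖y‖ ≤ s)
    (hx' : ‖x'‖ ≤ s) (hy' : ‖y'‖ ≤ s) :
    ‖-(κ * x) + -(κ * x') + y + κ ^ 2 * y'‖ ≤ 4 * s ∧ ‖x + κ ^ 2 * x' + -(κ * y) + -(κ * y')‖ ≤ 4 * s := by
  have hs : 0 ≤ s := (norm_nonneg x).trans hx
  have hk2 : κ ^ 2 ≤ 1 := by nlinarith
  have f1 : ∀ z : ℂ, ‖z‖ ≤ s → ‖-(κ * z)‖ ≤ s := fun z hz => by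
    rw [norm_neg, norm_mul, Complex.norm_real, Real.norm_eq_abs, abs_of_nonneg h0]
    nlinarith [norm_nonneg z]
  have f2 : ∀ z : ℂ, ‖z‖ ≤ s → ‖(κ : ℂ) ^ 2 * z‖ ≤ s := fun z hz => by
    rw [norm_mul, norm_pow, Complex.norm_real, Real.norm_eq_abs, abs_of_nonneg h0]
    nlinarith [norm_nonneg z]
  constructor
  · refine (c03_norm4 _ _ _ _).trans ?_
    linarith [f1 x hx, f1 x' hx', f2 y' hy']
  · refine (c03_norm4 _ _ _ _).trans ?_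
    linarith [f2 x' hx', f1 y hy, f1 y' hy']

/-- Up to the positive real factor `1 / ((1-κ²)(1-|m1|²))` the map `RRm κ m1 (ab p q) m2` is the product
`(1,m2) (1,-κ) (1+p, q) (1,-κ) (1,-m1)`, where `(a,b)(c,d) = (a c + b conj d, a d + b conj c)`
(`C_ab_comp`), i.e. `ab α β` with
`α = 1+κ² + [p(1) + κ² conj p - κ q - κ conj q] - 2κ m2 + 2κ conj m1 + O(s²)`,
`β = -2κ + [-κ p - κ conj p + q + κ² conj q] + (1+κ²) m2 - (1+κ²) m1 + O(s²)`,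
`s = |m1| + |m2| + |p| + |q|`, where the constant in `O` is absolute (all factors are bounded by 2, all
terms of second or higher order are products containing two of the small quantities).  This file only
states the polynomial identity with an explicit remainder bound. -/
theorem C_RR_expand (κ : ℝ) (h0 : 0 ≤ κ) (h1 : κ ≤ 1 / 10) (m1 m2 p q : ℂ) (hm1 : ‖m1‖ ≤ 1 / 10)
    (hm2 : ‖m2‖ ≤ 1 / 10) (hp : ‖p‖ ≤ 1 / 10) (hq : ‖q‖ ≤ 1 / 10) :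
    ∃ α β : ℂ, ∃ c : ℝ, 0 < c ∧ RRm κ m1 (ab p q) m2 = (ab (c : ℂ) 0).comp (ab α β) ∧
      ‖α - (1 + κ ^ 2 + (p + κ ^ 2 * conj p - κ * q - κ * conj q) - 2 * κ * m2 +
        2 * κ * conj m1)‖ ≤ 100 * (‖m1‖ + ‖m2‖ + ‖p‖ + ‖q‖) ^ 2 ∧
      ‖β - (-2 * κ + (-κ * p - κ * conj p + q + κ ^ 2 * conj q) + (1 + κ ^ 2) * m2 -
        (1 + κ ^ 2) * m1)‖ ≤ 100 * (‖m1‖ + ‖m2‖ + ‖p‖ + ‖q‖) ^ 2 := by
  obtain ⟨s, hs⟩ : ∃ s : ℝ, s = ‖m1‖ + ‖m2‖ + ‖p‖ + ‖q‖ := ⟨_, rfl⟩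
  rw [← hs]
  have n1 := norm_nonneg m1
  have n2 := norm_nonneg m2
  have n3 := norm_nonneg p
  have n4 := norm_nonneg q
  have s1 : ‖m1‖ ≤ s := by linarith
  have s2 : ‖m2‖ ≤ s := by linarith
  have s3 : ‖p‖ ≤ s := by linarith
  have s4 : ‖q‖ ≤ s := by linarith
  have s3' : ‖conj p‖ ≤ s := by rwa [norm_conj]
  have s4' : ‖conj q‖ ≤ s := by rwa [norm_conj]
  have hs0 : 0 ≤ s := by linarith
  have hs4 : s ≤ 4 / 10 := by linarith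
  have hkn : ‖(κ : ℂ)‖ = κ := by rw [Complex.norm_real, Real.norm_eq_abs, abs_of_nonneg h0]
  have hk2 : κ ^ 2 ≤ 1 / 100 := by nlinarith
  have hm2' : ‖m1‖ ^ 2 ≤ 1 / 100 := by nlinarith
  obtain ⟨c1, hc1⟩ : ∃ c1 : ℝ, c1 = 1 / (1 - ‖(κ : ℂ)‖ ^ 2) := ⟨_, rfl⟩
  obtain ⟨c2, hc2⟩ : ∃ c2 : ℝ, c2 = 1 / (1 - ‖m1‖ ^ 2) := ⟨_, rfl⟩
  have hc1p : 0 < c1 := by
    rw [hc1, hkn]
    exact one_div_pos.2 (by linarith)
  have hc2p : 0 < c2 := by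
    rw [hc2]
    exact one_div_pos.2 (by linarith)
  obtain ⟨a2, ha2⟩ : ∃ a2 : ℂ, a2 = (1 - κ * m2) * (1 + p) + (m2 - κ) * conj q := ⟨_, rfl⟩
  obtain ⟨b2, hb2⟩ : ∃ b2 : ℂ, b2 = (1 - κ * m2) * q + (m2 - κ) * (1 + conj p) := ⟨_, rfl⟩
  refine ⟨(a2 - κ * b2) - (b2 - κ * a2) * conj m1, (b2 - κ * a2) - (a2 - κ * b2) * m1, c1 * c2,
    mul_pos hc1p hc2p, ?_, ?_, ?_⟩
  · unfold RRm iab
    rw [← hc1, ← hc2, c03_id, C_ab_comp, C_ab_comp, C_ab_comp, C_ab_comp, C_ab_comp]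
    simp only [map_add, map_mul, map_neg, map_one, map_sub, Complex.conj_conj, Complex.conj_ofReal, map_zero]
    congr 1
    · rw [ha2, hb2]
      push_cast
      ring
    · rw [ha2, hb2]
      push_cast
      ring
  · have r1 := c03_R κ h0 h1 m2 p q (conj p) (conj q) s2 s3 s4 s3' s4'
    have r2 := c03_R κ h0 h1 m2 q p (conj q) (conj p) s2 s4 s3 s4' s3'
    have r3 := (c03_L κ h0 h1 p q (conj p) (conj q) s3 s4 s3' s4').1
    have e1 : (a2 - κ * b2) - (b2 - κ * a2) * conj m1 - (1 + κ ^ 2 + (p + κ ^ 2 * conj p - κ * q - κ * conj q) -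
        2 * κ * m2 + 2 * κ * conj m1) =
        (-(κ * m2 * p) + m2 * conj q + κ ^ 2 * m2 * q + -(κ * m2 * conj p)) +
        -(((-(κ * p) + -(κ * conj p) + q + κ ^ 2 * conj q) + (1 + κ ^ 2) * m2 +
          (-(κ * m2 * q) + m2 * conj p + κ ^ 2 * m2 * p + -(κ * m2 * conj q))) * conj m1) := by
      rw [ha2, hb2]
      ring
    rw [e1]
    refine (norm_add_le _ _).trans ?_
    rw [norm_neg, norm_mul, norm_conj]
    have e2 : ‖(1 + (κ : ℂ) ^ 2) * m2‖ ≤ 2 * s := by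
      rw [norm_mul]
      have e3 : ‖1 + (κ : ℂ) ^ 2‖ ≤ 2 := by
        refine (norm_add_le _ _).trans ?_
        rw [norm_one, norm_pow, hkn]
        linarith
      exact mul_le_mul e3 s2 (norm_nonneg _) (by norm_num)
    have e4 := (norm_add_le (-(κ * p) + -(κ * conj p) + q + κ ^ 2 * conj q + (1 + κ ^ 2) * m2)
      (-(κ * m2 * q) + m2 * conj p + κ ^ 2 * m2 * p + -(κ * m2 * conj q))).trans
      (add_le_add (norm_add_le _ _) le_rfl)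
    have e5 : ‖-(κ * p) + -(κ * conj p) + q + κ ^ 2 * conj q + (1 + κ ^ 2) * m2 +
        (-(κ * m2 * q) + m2 * conj p + κ ^ 2 * m2 * p + -(κ * m2 * conj q))‖ ≤ 8 * s := by
      refine e4.trans ?_
      nlinarith
    have e6 := mul_le_mul e5 s1 n1 (by linarith)
    nlinarith
  · have r1 := c03_R κ h0 h1 m2 p q (conj p) (conj q) s2 s3 s4 s3' s4'
    have r2 := c03_R κ h0 h1 m2 q p (conj q) (conj p) s2 s4 s3 s4' s3'
    have r3 := (c03_L κ h0 h1 p q (conj p) (conj q) s3 s4 s3' s4').2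
    have e1 : (b2 - κ * a2) - (a2 - κ * b2) * m1 - (-2 * κ + (-κ * p - κ * conj p + q + κ ^ 2 * conj q) +
        (1 + κ ^ 2) * m2 - (1 + κ ^ 2) * m1) =
        (-(κ * m2 * q) + m2 * conj p + κ ^ 2 * m2 * p + -(κ * m2 * conj q)) +
        -(((p + κ ^ 2 * conj p + -(κ * q) + -(κ * conj q)) + -(2 * κ * m2) +
          (-(κ * m2 * p) + m2 * conj q + κ ^ 2 * m2 * q + -(κ * m2 * conj p))) * m1) := by
      rw [ha2, hb2]
      ring
    rw [e1]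
    refine (norm_add_le _ _).trans ?_
    rw [norm_neg, norm_mul]
    have e2 : ‖-(2 * (κ : ℂ) * m2)‖ ≤ 2 * s := by
      rw [norm_neg, norm_mul]
      have e3 : ‖2 * (κ : ℂ)‖ ≤ 2 := by
        rw [norm_mul, hkn]
        norm_num
        linarith
      exact mul_le_mul e3 s2 (norm_nonneg _) (by norm_num)
    have e4 := (norm_add_le (p + κ ^ 2 * conj p + -(κ * q) + -(κ * conj q) + -(2 * κ * m2))
      (-(κ * m2 * p) + m2 * conj q + κ ^ 2 * m2 * q + -(κ * m2 * conj p))).trans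
      (add_le_add (norm_add_le _ _) le_rfl)
    have e5 : ‖p + κ ^ 2 * conj p + -(κ * q) + -(κ * conj q) + -(2 * κ * m2) +
        (-(κ * m2 * p) + m2 * conj q + κ ^ 2 * m2 * q + -(κ * m2 * conj p))‖ ≤ 8 * s := by
      refine e4.trans ?_
      nlinarith
    have e6 := mul_le_mul e5 s1 n1 (by linarith)
    nlinarith

end Pool.Agent.Lib.H11Q
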