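import Pool.Agent.Lib.H11Q.C03

set_option autoImplicit false

namespace Pool.Agent.Lib.H11Q

open Complex Set MeasureTheory
open scoped ComplexConjugate Topology

/-! C03B (M): the dilatation inequality (PROOF.md 8.2). -/

theorem c03b_dif (p q : ℂ) : dif (ab p q) = -2 * q.re := by
  unfold dif
  simp
  ring

theorem c03b_abs {w : ℂ} (h : 1 / 20 ≤ w.re) : ‖w‖ ≤ w.re + 10 * w.im ^ 2 := by
  have h1 : ‖w‖ ^ 2 = w.re ^ 2 + w.im ^ 2 := by
    rw [← Complex.normSq_eq_norm_sq, Complex.normSq_apply]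
    ring
  have h2 : 0 ≤ w.re + 10 * w.im ^ 2 := by
    have := sq_nonneg w.im
    linarith
  refine (pow_le_pow_iff_left₀ (norm_nonneg w) h2 two_ne_zero).1 ?_
  rw [h1]
  nlinarith [mul_nonneg (sub_nonneg.2 h) (sq_nonneg w.im), sq_nonneg (w.im ^ 2)]

theorem c03b_mul {t u U : ℝ} (ht : |t| ≤ 1) (hu : |u| ≤ U) : |t * u| ≤ U := by
  rw [abs_mul]
  calc |t| * |u| ≤ 1 * |u| := mul_le_mul_of_nonneg_right ht (abs_nonneg _)
    _ = |u| := one_mul _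
    _ ≤ U := hu

theorem c03b_final {κ s e x y a b : ℝ} (hκ : 1 / 20 ≤ κ) (hκ' : κ ≤ 1 / 10)
    (hs : 0 ≤ s) (hs' : s ≤ 3 / 1000) (he0 : 0 ≤ e) (he : 1000 * s ^ 2 + 3 * e * s ≤ e)
    (hx : |x| ≤ s) (hy : |y| ≤ s) (h1 : a + b ≤ (1 + κ) ^ 2 * (1 + x) + 380 * s ^ 2)
    (h2 : (1 - κ) ^ 2 * (1 - y) - 290 * s ^ 2 ≤ a - b) :
    b < a ∧ a + b ≤ KK κ * Real.exp (x + y + e) * (a - b) := by
  rw [abs_le] at hx hy
  obtain ⟨hx1, hx2⟩ := hx
  obtain ⟨hy1, hy2⟩ := hy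
  have hB : 81 / 100 ≤ (1 - κ) ^ 2 := by nlinarith
  have hA : 1 ≤ (1 + κ) ^ 2 := by nlinarith
  have hs2 : s ^ 2 ≤ 3 / 1000 * s := by nlinarith
  have hs3 : s ^ 2 ≤ 9 / 1000000 := by nlinarith
  have hs4 : 0 ≤ s ^ 2 := sq_nonneg s
  have hpos : 1 / 2 ≤ (1 - κ) ^ 2 * (1 - y) - 290 * s ^ 2 := by
    have : 81 / 100 * (1 - y) ≤ (1 - κ) ^ 2 * (1 - y) :=
      mul_le_mul_of_nonneg_right hB (by linarith)
    linarith
  refine ⟨by linarith, ?_⟩
  have hKK : KK κ = (1 + κ) ^ 2 / (1 - κ) ^ 2 := by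
    unfold KK
    rw [div_pow]
  have hKK0 : 0 < KK κ := by
    rw [hKK]
    have hB' : 0 < (1 - κ) ^ 2 := by linarith
    exact div_pos (by linarith) hB'
  have hu : 0 ≤ 1 + (x + y + e) := by linarith
  have hexp : 1 + (x + y + e) ≤ Real.exp (x + y + e) := by
    have := Real.add_one_le_exp (x + y + e)
    linarith
  have hkey : 1 + x + 380 * s ^ 2 ≤ (1 + (x + y + e)) * (1 - y - 359 * s ^ 2) := by
    have g1 : x * y ≤ s ^ 2 := by nlinarith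
    have g2 : y ^ 2 ≤ s ^ 2 := by nlinarith
    have g3 : e * y ≤ e * s := mul_le_mul_of_nonneg_left hy2 he0
    have g4 : (x + y + e) * s ^ 2 ≤ (2 * s + e) * s ^ 2 :=
      mul_le_mul_of_nonneg_right (by linarith) hs4
    have g5 : (2 * s + e) * s ^ 2 ≤ 6 / 1000 * s ^ 2 + 3 / 1000 * (e * s) := by
      have g6 : 2 * s * s ^ 2 ≤ 6 / 1000 * s ^ 2 :=
        mul_le_mul_of_nonneg_right (by linarith) hs4
      have g7 : e * s ^ 2 ≤ e * (3 / 1000 * s) := mul_le_mul_of_nonneg_left hs2 he0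
      linarith
    have g8 : 0 ≤ e * s := mul_nonneg he0 hs
    nlinarith
  calc a + b ≤ (1 + κ) ^ 2 * (1 + x) + 380 * s ^ 2 := h1
    _ ≤ (1 + κ) ^ 2 * (1 + x + 380 * s ^ 2) := by nlinarith
    _ ≤ (1 + κ) ^ 2 * ((1 + (x + y + e)) * (1 - y - 359 * s ^ 2)) :=
        mul_le_mul_of_nonneg_left hkey (by positivity)
    _ = KK κ * (1 + (x + y + e)) * ((1 - κ) ^ 2 * (1 - y - 359 * s ^ 2)) := by
        rw [hKK]
        have hB0 : (1 - κ) ≠ 0 := by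
          intro h0
          rw [h0] at hB
          norm_num at hB
        field_simp
    _ ≤ KK κ * (1 + (x + y + e)) * ((1 - κ) ^ 2 * (1 - y) - 290 * s ^ 2) := by
        refine mul_le_mul_of_nonneg_left ?_ (mul_nonneg hKK0.le hu)
        nlinarith
    _ ≤ KK κ * Real.exp (x + y + e) * ((1 - κ) ^ 2 * (1 - y) - 290 * s ^ 2) := by
        refine mul_le_mul_of_nonneg_right ?_ (by linarith)
        exact mul_le_mul_of_nonneg_left hexp hKK0.le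
    _ ≤ KK κ * Real.exp (x + y + e) * (a - b) :=
        mul_le_mul_of_nonneg_left h2 (mul_nonneg hKK0.le (Real.exp_pos _).le)

/-- Let `P = ab p q` (`C_ab_all`), so `dif P = -2 Re q`, and `|p|, |q| ≤ ‖P‖` (`C_ab_norm`).  With `C_RR_expand`:
let `s = |m1|+|m2|+|p|+|q|` (at most `2 (‖m1‖+‖m2‖+‖P‖)`).
(1) If `w` is a complex number with `Re w ≥ 1/20` then `|w| ≤ Re w + 10 (Im w)²` (`|w| - Re w = (Im w)²/(|w| + Re w)`).
Apply it to `α` and `-β` (`κ ≥ 1/20`, `s` small: the imaginary parts are `≤ 10 s`):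
`|α| ≤ Re α + C s²`, `|β| ≤ -Re β + C s²`, and `|α| ≥ Re α`.
(2) `Re α - Re β ≤ (1+κ)² (1 + Re m1 - Re m2 + Re p - Re q) + C s²` and
`Re α + Re β ≥ (1-κ)² (1 - Re m1 + Re m2 + Re p + Re q) - C s²`  (insert the real parts of C03: the
linear terms are exactly these).
(3) So `|α| + |β| ≤ (1+κ)² (1 + x) + C s²`, `|α| - |β| ≥ (1-κ)² (1 - y) - C s²`, with
`x = Re m1 - Re m2 + Re p - Re q`, `y = Re m1 - Re m2 - Re p - Re q`, `x + y = 2 Re m1 - 2 Re m2 + dif P`.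
With `K = KK κ exp (x + y + e)`, `e = ε (‖m1‖+‖m2‖+‖P‖) ≥ (ε/2) s`:
`K ((1-κ)² (1-y) - C s²) ≥ (1+κ)² (1 + x + y + e + ..)(1 - y) - C' s² ≥ (1+κ)² (1 + x + e) - C'' s²` which is
`≥ (1+κ)² (1+x) + C s²` as soon as `s ≤ δ(ε)`.  (use `1 + u ≤ exp u` and `exp u ≤ 2` for the constants.)
Conclude with `C_QCL_ab` and `C_QCL_mul_left` (the positive factor `c`). -/
theorem C_RR {ε : ℝ} (hε : 0 < ε) : ∃ δ > 0, ∀ (κ : ℝ) (m1 m2 : ℂ) (P : ℂ →L[ℝ] ℂ),
    1 / 20 ≤ κ → κ ≤ 1 / 10 → ‖m1‖ ≤ δ → ‖m2‖ ≤ δ → ‖P‖ ≤ δ →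
    QCL (KK κ * Real.exp (2 * m1.re - 2 * m2.re + dif P + ε * (‖m1‖ + ‖m2‖ + ‖P‖)))
      (RRm κ m1 P m2) := by
  refine ⟨min (1 / 1000) (ε / (30000 + 10 * ε)), by positivity, ?_⟩
  intro κ m1 m2 P hκ hκ' hm1 hm2 hP
  obtain ⟨p, q, rfl⟩ := C_ab_all P
  rw [C_ab_norm] at hP ⊢
  rw [c03b_dif]
  set s : ℝ := ‖m1‖ + ‖m2‖ + (‖p‖ + ‖q‖) with hs
  have hs0 : 0 ≤ s := by positivity
  have hm1a := hm1.trans (min_le_left _ _)
  have hm2a := hm2.trans (min_le_left _ _)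
  have hPa := hP.trans (min_le_left _ _)
  have hm1b := hm1.trans (min_le_right _ _)
  have hm2b := hm2.trans (min_le_right _ _)
  have hPb := hP.trans (min_le_right _ _)
  have hp0 := norm_nonneg p
  have hq0 := norm_nonneg q
  have hm10 := norm_nonneg m1
  have hm20 := norm_nonneg m2
  have hs1 : s ≤ 3 / 1000 := by linarith
  have hs2 : s ≤ 3 * (ε / (30000 + 10 * ε)) := by linarith
  have hs3 : (1000 + 3 * ε) * s ≤ ε := by
    have h1 : (1000 + 3 * ε) * s ≤ (1000 + 3 * ε) * (3 * (ε / (30000 + 10 * ε))) :=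
      mul_le_mul_of_nonneg_left hs2 (by positivity)
    have h2 : (1000 + 3 * ε) * (3 * (ε / (30000 + 10 * ε))) ≤ ε := by
      have h3 : (1000 + 3 * ε) * (3 * (ε / (30000 + 10 * ε))) =
          ((1000 + 3 * ε) * 3 * ε) / (30000 + 10 * ε) := by ring
      rw [h3, div_le_iff₀ (by positivity)]
      nlinarith
    exact h1.trans h2
  obtain ⟨α, β, c, hc, hR, hα, hβ⟩ := C_RR_expand κ (by linarith) hκ' m1 m2 p q (by linarith)
    (by linarith) (by linarith) (by linarith)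
  have hss : ‖m1‖ + ‖m2‖ + ‖p‖ + ‖q‖ = s := by rw [hs]; ring
  rw [hss] at hα hβ
  -- real and imaginary parts
  have hα1 := (Complex.abs_re_le_norm _).trans hα
  have hα2 := (Complex.abs_im_le_norm _).trans hα
  have hβ1 := (Complex.abs_re_le_norm _).trans hβ
  have hβ2 := (Complex.abs_im_le_norm _).trans hβ
  have eα1 : (α - (1 + κ ^ 2 + (p + κ ^ 2 * conj p - κ * q - κ * conj q) - 2 * κ * m2 +
        2 * κ * conj m1)).re = α.re - ((1 + κ ^ 2) * (1 + p.re) - 2 * κ * q.re +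
          2 * κ * (m1.re - m2.re)) := by
    simp [pow_two]
    ring
  have eα2 : (α - (1 + κ ^ 2 + (p + κ ^ 2 * conj p - κ * q - κ * conj q) - 2 * κ * m2 +
        2 * κ * conj m1)).im = α.im - ((1 - κ ^ 2) * p.im - 2 * κ * m2.im - 2 * κ * m1.im) := by
    simp [pow_two]
    ring
  have eβ1 : (β - (-2 * κ + (-κ * p - κ * conj p + q + κ ^ 2 * conj q) + (1 + κ ^ 2) * m2 -
        (1 + κ ^ 2) * m1)).re = β.re - (-2 * κ * (1 + p.re) + (1 + κ ^ 2) * q.re +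
          (1 + κ ^ 2) * (m2.re - m1.re)) := by
    simp [pow_two]
    ring
  have eβ2 : (β - (-2 * κ + (-κ * p - κ * conj p + q + κ ^ 2 * conj q) + (1 + κ ^ 2) * m2 -
        (1 + κ ^ 2) * m1)).im = β.im - ((1 - κ ^ 2) * q.im + (1 + κ ^ 2) * m2.im -
          (1 + κ ^ 2) * m1.im) := by
    simp [pow_two]
    ring
  rw [eα1] at hα1
  rw [eα2] at hα2
  rw [eβ1] at hβ1
  rw [eβ2] at hβ2
  have hκ2 : κ ^ 2 ≤ 1 / 100 := by
    have h1 := pow_le_pow_left₀ (by linarith only [hκ] : 0 ≤ κ) hκ' 2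
    linarith only [h1]
  have hκ20 : 0 ≤ κ ^ 2 := sq_nonneg κ
  have t1 : |1 - κ ^ 2| ≤ 1 := by rw [abs_le]; constructor <;> linarith
  have t2 : |2 * κ| ≤ 1 := by rw [abs_le]; constructor <;> linarith
  have t3 : |(1 + κ ^ 2) / 2| ≤ 1 := by rw [abs_le]; constructor <;> linarith
  have i1 := c03b_mul t1 (Complex.abs_im_le_norm p)
  have i2 := c03b_mul t2 (Complex.abs_im_le_norm m2)
  have i3 := c03b_mul t2 (Complex.abs_im_le_norm m1)
  have i4 := c03b_mul t1 (Complex.abs_im_le_norm q)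
  have i5 := c03b_mul t3 (Complex.abs_im_le_norm m2)
  have i6 := c03b_mul t3 (Complex.abs_im_le_norm m1)
  have r1 := c03b_mul t3 (Complex.abs_re_le_norm p)
  have r2 := c03b_mul t2 (Complex.abs_re_le_norm q)
  have r3 := c03b_mul t2 (Complex.abs_re_le_norm m1)
  have r4 := c03b_mul t2 (Complex.abs_re_le_norm m2)
  have r5 := c03b_mul t2 (Complex.abs_re_le_norm p)
  have r6 := c03b_mul t3 (Complex.abs_re_le_norm q)
  have r7 := c03b_mul t3 (Complex.abs_re_le_norm m1)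
  have r8 := c03b_mul t3 (Complex.abs_re_le_norm m2)
  have a1 := Complex.abs_re_le_norm p
  have a2 := Complex.abs_re_le_norm q
  have a3 := Complex.abs_re_le_norm m1
  have a4 := Complex.abs_re_le_norm m2
  rw [abs_le] at hα1 hα2 hβ1 hβ2 i1 i2 i3 i4 i5 i6 r1 r2 r3 r4 r5 r6 r7 r8 a1 a2 a3 a4
  have hsq : s ^ 2 ≤ 3 / 1000 * s := by
    rw [sq]
    exact mul_le_mul_of_nonneg_right hs1 hs0
  have hsq2 : s ^ 2 ≤ 9 / 1000000 := by linarith only [hsq, hs1]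
  have hsq0 : 0 ≤ s ^ 2 := sq_nonneg s
  have him1 : |α.im| ≤ 3 * s := by
    rw [abs_le]
    constructor <;> linarith only [hα2.1, hα2.2, i1.1, i1.2, i2.1, i2.2, i3.1, i3.2, hs, hsq, hs0, hp0, hq0, hm10, hm20]
  have him2 : |β.im| ≤ 3 * s := by
    rw [abs_le]
    constructor <;> linarith only [hβ2.1, hβ2.2, i4.1, i4.2, i5.1, i5.2, i6.1, i6.2, hs, hsq, hs0, hp0, hq0, hm10, hm20]
  have him3 : α.im ^ 2 ≤ 9 * s ^ 2 := by
    have := pow_le_pow_left₀ (abs_nonneg _) him1 2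
    rw [sq_abs] at this
    linarith
  have him4 : β.im ^ 2 ≤ 9 * s ^ 2 := by
    have := pow_le_pow_left₀ (abs_nonneg _) him2 2
    rw [sq_abs] at this
    linarith
  have hre1 : 1 / 20 ≤ α.re := by
    linarith only [hα1.1, hα1.2, r1.1, r1.2, r2.1, r2.2, r3.1, r3.2, r4.1, r4.2, hs, hs0, hs1, hsq2, hκ20, hp0, hq0, hm10, hm20]
  have hre2 : 1 / 20 ≤ (-β).re := by
    rw [Complex.neg_re]
    linarith only [hβ1.1, hβ1.2, r5.1, r5.2, r6.1, r6.2, r7.1, r7.2, r8.1, r8.2, hs, hs0, hs1, hsq2, hκ, hp0, hq0, hm10, hm20]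
  have n1 := c03b_abs hre1
  have n2 := c03b_abs hre2
  rw [norm_neg, Complex.neg_re, Complex.neg_im, neg_sq] at n2
  have n3 := Complex.re_le_norm α
  set x : ℝ := p.re - q.re + (m1.re - m2.re) with hx
  set y : ℝ := (m1.re - m2.re) - p.re - q.re with hy
  have hxs : |x| ≤ s := by
    rw [abs_le]
    constructor <;> linarith only [a1.1, a1.2, a2.1, a2.2, a3.1, a3.2, a4.1, a4.2, hs, hx, hy]
  have hys : |y| ≤ s := by
    rw [abs_le]
    constructor <;> linarith only [a1.1, a1.2, a2.1, a2.2, a3.1, a3.2, a4.1, a4.2, hs, hx, hy]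
  have f1 : ‖α‖ + ‖β‖ ≤ (1 + κ) ^ 2 * (1 + x) + 380 * s ^ 2 := by
    have e1 : (1 + κ) ^ 2 * (1 + x) = ((1 + κ ^ 2) * (1 + p.re) - 2 * κ * q.re +
          2 * κ * (m1.re - m2.re)) - (-2 * κ * (1 + p.re) + (1 + κ ^ 2) * q.re +
          (1 + κ ^ 2) * (m2.re - m1.re)) := by
      rw [hx]
      ring
    rw [e1]
    linarith only [hα1.2, hβ1.1, n1, n2, him3, him4]
  have f2 : (1 - κ) ^ 2 * (1 - y) - 290 * s ^ 2 ≤ ‖α‖ - ‖β‖ := by
    have e1 : (1 - κ) ^ 2 * (1 - y) = ((1 + κ ^ 2) * (1 + p.re) - 2 * κ * q.re +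
          2 * κ * (m1.re - m2.re)) + (-2 * κ * (1 + p.re) + (1 + κ ^ 2) * q.re +
          (1 + κ ^ 2) * (m2.re - m1.re)) := by
      rw [hy]
      ring
    rw [e1]
    linarith only [hα1.1, hβ1.1, n2, n3, him4]
  have he0 : 0 ≤ ε * s := mul_nonneg hε.le hs0
  have he : 1000 * s ^ 2 + 3 * (ε * s) * s ≤ ε * s := by
    have := mul_le_mul_of_nonneg_right hs3 hs0
    linarith
  have hfin := c03b_final hκ hκ' hs0 hs1 he0 he hxs hys f1 f2
  have e2 : 2 * m1.re - 2 * m2.re + -2 * q.re + ε * s = x + y + ε * s := by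
    rw [hx, hy]
    ring
  rw [e2, hR]
  refine C_QCL_mul_left (by exact_mod_cast hc.ne') ?_
  exact C_QCL_ab.2 hfin

end Pool.Agent.Lib.H11Q
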