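import Pool.Agent.Lib.H11Q.C02

set_option autoImplicit false

namespace Pool.Agent.Lib.H11Q

open Complex Set MeasureTheory
open scoped ComplexConjugate Topology

/-! C04 (M): locally bi-Lipschitz maps with bounded dilatation are quasiconformal in the sense of `IsQC`. -/

theorem c04_ext (F : Disc ≃ₜ Disc) {z : ℂ} (hz : ‖z‖ < 1) : ext F z = F ⟨z, hz⟩ := by
  unfold ext
  rw [dif_pos hz]

theorem c04_seg {F : Disc ≃ₜ Disc} (h : LocallyLipschitz F) (c : ℝ → ℂ) (hc : LipschitzWith 1 c) (s : Set ℝ)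
    (hs : ∀ x ∈ s, ‖c x‖ < 1) : LocallyLipschitzOn s (fun x => ext F (c x)) := by
  intro x hx
  obtain ⟨K, t, ht, hK⟩ := h ⟨c x, hs x hx⟩
  obtain ⟨u, hu, hut⟩ := (mem_nhds_subtype _ _ _).1 ht
  refine ⟨K, s ∩ c ⁻¹' u, Filter.inter_mem self_mem_nhdsWithin (mem_nhdsWithin_of_mem_nhds (hc.continuous.continuousAt hu)), ?_⟩
  rintro x1 ⟨h1, h1'⟩ x2 ⟨h2, h2'⟩
  show edist (ext F (c x1)) (ext F (c x2)) ≤ _
  rw [c04_ext F (hs x1 h1), c04_ext F (hs x2 h2)]
  have h3 := hK (show (⟨c x1, hs x1 h1⟩ : Disc) ∈ t from hut h1') (show (⟨c x2, hs x2 h2⟩ : Disc) ∈ t from hut h2')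
  refine le_trans h3 ?_
  gcongr
  have h4 := hc x1 x2
  rw [ENNReal.coe_one, one_mul] at h4
  exact h4

/-- `x ↦ ext F ⟨x, y⟩` is, on `Icc a b` (for `y ∈ Icc c d`), the composition of the isometric inclusion of the
segment and of the locally Lipschitz map `F`, so it is locally Lipschitz on the compact set `Icc a b`, hence
Lipschitz there (`LocallyLipschitzOn.exists_lipschitzOnWith_of_compact`), hence absolutely continuous
(`LipschitzOnWith.absolutelyContinuousOnInterval`, `uIcc_of_le`).  All `y ∈ Icc c d` are good.  The third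
condition is `h.dil` (`HasFDerivAt.fderiv`). -/
theorem C_LQ_isQC {K : ℝ} {F : Disc ≃ₜ Disc} (h : LQ K F) : IsQC K F := by
  refine ⟨fun a b c d hab hcd hR => Filter.Eventually.of_forall fun y hy => ?_,
    fun a b c d hab hcd hR => Filter.Eventually.of_forall fun x hx => ?_, ?_⟩
  · have h1 : LocallyLipschitzOn (uIcc a b) (fun x : ℝ => ext F ⟨x, y⟩) := by
      refine c04_seg h.lip (fun x : ℝ => (⟨x, y⟩ : ℂ)) ?_ _ ?_
      · intro x1 x2
        rw [edist_dist, edist_dist, ENNReal.coe_one, one_mul, Complex.dist_eq]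
        apply le_of_eq
        congr 1
        have : (⟨x1, y⟩ : ℂ) - ⟨x2, y⟩ = ((x1 - x2 : ℝ) : ℂ) := by
          apply Complex.ext <;> simp
        rw [this, Complex.norm_real, Real.dist_eq, Real.norm_eq_abs]
      · intro x hx
        rw [uIcc_of_le hab] at hx
        exact hR x hx y hy
    obtain ⟨K', hK'⟩ := h1.exists_lipschitzOnWith_of_compact isCompact_uIcc
    exact hK'.absolutelyContinuousOnInterval
  · have h1 : LocallyLipschitzOn (uIcc c d) (fun y : ℝ => ext F ⟨x, y⟩) := by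
      refine c04_seg h.lip (fun y : ℝ => (⟨x, y⟩ : ℂ)) ?_ _ ?_
      · intro x1 x2
        rw [edist_dist, edist_dist, ENNReal.coe_one, one_mul, Complex.dist_eq]
        apply le_of_eq
        congr 1
        have : (⟨x, x1⟩ : ℂ) - ⟨x, x2⟩ = ((x1 - x2 : ℝ) : ℂ) * I := by
          apply Complex.ext <;> simp
        rw [this, norm_mul, Complex.norm_I, mul_one, Complex.norm_real, Real.dist_eq, Real.norm_eq_abs]
      · intro y hy
        rw [uIcc_of_le hcd] at hy
        exact hR x hx y hy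
    obtain ⟨K', hK'⟩ := h1.exists_lipschitzOnWith_of_compact isCompact_uIcc
    exact hK'.absolutelyContinuousOnInterval
  · obtain ⟨N, hN, h1⟩ := h.dil
    have h2 : ∀ᵐ z : ℂ, z ∉ N := by
      rw [ae_iff]
      simpa using hN
    filter_upwards [h2] with z hz hz1
    obtain ⟨L, hL, hq⟩ := h1 ⟨z, hz1⟩ hz
    refine ⟨hL.differentiableAt, ?_⟩
    have hL : HasFDerivAt (ext F) L z := hL
    rw [hL.fderiv]
    exact hq.2

end Pool.Agent.Lib.H11Q
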