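import Pool.Agent.Lib.H11Q.C02

set_option autoImplicit false

namespace Pool.Agent.Lib.H11Q

open Complex Set MeasureTheory
open scoped ComplexConjugate Topology

/-! C05 (M): null sets and inverse maps. -/

theorem c05_coe (F : Disc ≃ₜ Disc) (w : Disc) : ext F w = F w := by
  unfold ext
  rw [dif_pos w.2]

theorem c05_lip_null {K : NNReal} {f : ℂ → ℂ} {s : Set ℂ} (hf : LipschitzOnWith K f s) (hs : volume s = 0) :
    volume (f '' s) = 0 := by
  have h1 := hf.hausdorffMeasure_image_le (d := (Module.finrank ℝ ℂ : ℝ)) (Nat.cast_nonneg _)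
  have h2 : (μH[(Module.finrank ℝ ℂ : ℝ)] : Measure ℂ) s = 0 :=
    Measure.absolutelyContinuous_isAddHaarMeasure (μH[(Module.finrank ℝ ℂ : ℝ)] : Measure ℂ) volume hs
  rw [h2, mul_zero, nonpos_iff_eq_zero] at h1
  exact Measure.absolutelyContinuous_isAddHaarMeasure volume (μH[(Module.finrank ℝ ℂ : ℝ)] : Measure ℂ) h1

theorem c05_cont (F : Disc ≃ₜ Disc) (w : Disc) : ContinuousAt (ext F) w := by
  have hopen : Topology.IsOpenEmbedding (Subtype.val : Disc → ℂ) :=
    (isOpen_lt continuous_norm continuous_const).isOpenEmbedding_subtypeVal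
  rw [← hopen.continuousAt_iff]
  have h1 : ext F ∘ (Subtype.val : Disc → ℂ) = fun w => (F w : ℂ) := by
    funext w
    exact c05_coe F w
  rw [h1]
  exact (continuous_subtype_val.comp F.continuous).continuousAt

/-- A locally Lipschitz map of the disc maps null sets to null sets: the disc is second countable (Lindelof),
so `N ∩ ball 0 1` is a countable union of sets on which `F` is Lipschitz; a Lipschitz map of the plane maps
null sets for the Hausdorff measure `μH[2]` to null sets (`LipschitzOnWith.hausdorffMeasure_image_le`,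
`hausdorffMeasure ..` is an additive Haar measure on `ℂ`, `finrank ℝ ℂ = 2`, `isAddHaarMeasure_hausdorffMeasure`,
so it is a positive multiple of the volume). -/
theorem C_null {F : Disc ≃ₜ Disc} (h : LocallyLipschitz F) {N : Set ℂ} (hN : volume N = 0) :
    volume (ext F '' (N ∩ Metric.ball 0 1)) = 0 := by
  have hcov : ∀ z : Disc, ∃ K : NNReal, ∃ t ∈ 𝓝 z, LipschitzOnWith K F t := h
  choose K t ht hK using hcov
  obtain ⟨s, hs, hU⟩ := TopologicalSpace.countable_cover_nhds ht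
  have h1 : ext F '' (N ∩ Metric.ball 0 1) ⊆ ⋃ z ∈ s, ext F '' (N ∩ (Subtype.val '' t z)) := by
    rintro _ ⟨x, ⟨hx, hx1⟩, rfl⟩
    have hx2 : ‖x‖ < 1 := by simpa using hx1
    have h2 : (⟨x, hx2⟩ : Disc) ∈ ⋃ z ∈ s, t z := by
      rw [hU]
      trivial
    rw [mem_iUnion₂] at h2 ⊢
    obtain ⟨z, hz, h3⟩ := h2
    exact ⟨z, hz, x, ⟨hx, ⟨x, hx2⟩, h3, rfl⟩, rfl⟩
  refine measure_mono_null h1 ((measure_biUnion_null_iff hs).2 fun z _ => ?_)
  refine c05_lip_null (K := K z) ?_ (measure_mono_null inter_subset_left hN)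
  rintro _ ⟨_, x, hx, rfl⟩ _ ⟨_, y, hy, rfl⟩
  rw [c05_coe, c05_coe]
  exact hK z hx hy

/-- The derivative of the inverse homeomorphism: `HasFDerivAt.of_local_left_inverse` (`ext F.symm` is continuous
at `F z`, and `ext F (ext F.symm y) = y` near `F z`, since the disc is open). -/
theorem C_inv_deriv {F : Disc ≃ₜ Disc} {z : Disc} {L M : ℂ →L[ℝ] ℂ} (h : HasFDerivAt (ext F) L z)
    (h1 : M.comp L = ContinuousLinearMap.id ℝ ℂ) (h2 : L.comp M = ContinuousLinearMap.id ℝ ℂ) :
    HasFDerivAt (ext F.symm) M (F z) := by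
  have h3 : ext F.symm (F z : ℂ) = z := by
    rw [c05_coe, F.symm_apply_apply]
  have h4 : HasFDerivAt (ext F) ((ContinuousLinearEquiv.equivOfInverse L M
      (fun v => by rw [← ContinuousLinearMap.comp_apply, h1]; rfl)
      (fun v => by rw [← ContinuousLinearMap.comp_apply, h2]; rfl) : ℂ ≃L[ℝ] ℂ) : ℂ →L[ℝ] ℂ) (ext F.symm (F z)) := by
    rw [h3]
    exact h
  have h5 := HasFDerivAt.of_local_left_inverse (c05_cont F.symm (F z)) h4 (by
    have h6 : ∀ᶠ y : ℂ in 𝓝 (F z : ℂ), ‖y‖ < 1 := (isOpen_lt continuous_norm continuous_const).mem_nhds (F z).2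
    filter_upwards [h6] with y hy
    have h7 : ext F.symm y = (F.symm ⟨y, hy⟩ : Disc) := c05_coe F.symm ⟨y, hy⟩
    rw [h7, c05_coe, F.apply_symm_apply])
  exact h5

/-- `N' = ext F '' (N ∩ ball 0 1)` (`C_null`), `C_inv_deriv`, `C_QCL_inv` (`L` is invertible since
`0 < L.det`; e.g. by `C_ab_all` and the explicit inverse). -/
theorem C_LQ_symm {K : ℝ} {F : Disc ≃ₜ Disc} (h : LQ K F) : LQ K F.symm := by
  obtain ⟨N, hN, h1⟩ := h.dil
  refine ⟨h.lip', h.lip, ext F '' (N ∩ Metric.ball 0 1), C_null h.lip hN, fun w hw => ?_⟩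
  have h2 : ((F.symm w : Disc) : ℂ) ∉ N := by
    intro h3
    apply hw
    refine ⟨(F.symm w : Disc), ⟨h3, by simpa using (F.symm w).2⟩, ?_⟩
    rw [c05_coe, F.apply_symm_apply]
  obtain ⟨L, hL, hq⟩ := h1 _ h2
  obtain ⟨a, b, rfl⟩ := C_ab_all L
  have h3 := (C_QCL_ab.1 hq).1
  have h4 : (0 : ℝ) < ‖a‖ ^ 2 - ‖b‖ ^ 2 := by
    have := norm_nonneg b
    nlinarith
  set D : ℝ := ‖a‖ ^ 2 - ‖b‖ ^ 2 with hD
  have h5 : a * conj a - b * conj b = (D : ℂ) := by
    rw [Complex.mul_conj, Complex.mul_conj, normSq_eq_norm_sq, normSq_eq_norm_sq, hD]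
    push_cast
    ring
  have hD0 : (D : ℂ) ≠ 0 := by exact_mod_cast h4.ne'
  have hid : ab 1 0 = ContinuousLinearMap.id ℝ ℂ := by
    ext v
    simp
  have e1 : (ab (conj a / D) (-b / D)).comp (ab a b) = ContinuousLinearMap.id ℝ ℂ := by
    rw [C_ab_comp, ← hid]
    congr 1
    · field_simp
      linear_combination h5
    · field_simp
      ring
  have e2 : (ab a b).comp (ab (conj a / D) (-b / D)) = ContinuousLinearMap.id ℝ ℂ := by
    rw [C_ab_comp, ← hid]
    congr 1
    · rw [map_div₀, map_neg, Complex.conj_ofReal]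
      field_simp
      linear_combination h5
    · rw [map_div₀, Complex.conj_conj, Complex.conj_ofReal]
      field_simp
      ring
  refine ⟨_, ?_, C_QCL_inv e1 hq⟩
  have h6 := C_inv_deriv hL e1 e2
  rwa [F.apply_symm_apply] at h6

end Pool.Agent.Lib.H11Q
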