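import Pool.Agent.Lib.H11Q.C05

set_option autoImplicit false

namespace Pool.Agent.Lib.H11Q

open Complex Set MeasureTheory
open scoped ComplexConjugate Topology

/-! C06 (M): Moebius maps. -/

/-- Quotient rule; the determinant is `|a|² - |b|² = 1`. -/
theorem C_app_deriv (g : SU) {z : ℂ} (hz : ‖z‖ ≤ 1) :
    HasStrictDerivAt g.app (1 / (g.den z) ^ 2) z := by
  have hd : g.den z ≠ 0 := g.den_ne hz
  have h1 : HasStrictDerivAt (fun z => g.a * z + g.b) g.a z := by
    simpa using ((hasStrictDerivAt_id z).const_mul g.a).add_const g.b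
  have h2 : HasStrictDerivAt (fun z => conj g.b * z + conj g.a) (conj g.b) z := by
    simpa using ((hasStrictDerivAt_id z).const_mul (conj g.b)).add_const (conj g.a)
  have h3 := h1.div h2 hd
  have h4 : (g.a * (conj g.b * z + conj g.a) - (g.a * z + g.b) * conj g.b) / (conj g.b * z + conj g.a) ^ 2 = 1 / (g.den z) ^ 2 := by
    have h5 := g.h
    have h6 : g.a * conj g.a - g.b * conj g.b = 1 := by
      rw [Complex.mul_conj, Complex.mul_conj]
      exact_mod_cast h5
    have h7 : g.a * (conj g.b * z + conj g.a) - (g.a * z + g.b) * conj g.b = 1 := by linear_combination h6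
    rw [h7]
    rfl
  rw [← h4]
  exact h3

/-- `ext (SU.act g) = g.app` on the open unit disc, so near every point of it. -/
theorem C_ext_act (g : SU) {z : ℂ} (hz : ‖z‖ < 1) : ext (SU.act g) z = g.app z := by
  unfold ext
  rw [dif_pos hz]
  rfl

theorem C_act_strict (g : SU) (z : Disc) :
    HasStrictFDerivAt (ext (SU.act g)) (ab (1 / (g.den z) ^ 2) 0) z := by
  have h1 := (C_app_deriv g z.2.le).complexToReal_fderiv
  have h2 : (1 / (g.den z) ^ 2) • (1 : ℂ →L[ℝ] ℂ) = ab (1 / (g.den z) ^ 2) 0 := by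
    ext v
    simp
  rw [h2] at h1
  refine h1.congr_of_eventuallyEq ?_
  have h6 : ∀ᶠ y : ℂ in 𝓝 (z : ℂ), ‖y‖ < 1 := (isOpen_lt continuous_norm continuous_const).mem_nhds z.2
  filter_upwards [h6] with y hy
  exact (C_ext_act g hy).symm

/-- Strict differentiability gives a local Lipschitz constant (`HasStrictFDerivAt.exists_lipschitzOnWith`). -/
theorem C_strict_lip {F : Disc ≃ₜ Disc}
    (h : ∀ z : Disc, ∃ L : ℂ →L[ℝ] ℂ, HasStrictFDerivAt (ext F) L z) : LocallyLipschitz F := by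
  intro z
  obtain ⟨L, hL⟩ := h z
  obtain ⟨K, s, hs, hK⟩ := hL.exists_lipschitzOnWith
  refine ⟨K, Subtype.val ⁻¹' s, continuous_subtype_val.continuousAt hs, fun x hx y hy => ?_⟩
  have h1 := hK hx hy
  rw [c05_coe, c05_coe] at h1
  exact h1

theorem C_act_lip (g : SU) : LocallyLipschitz (SU.act g) :=
  C_strict_lip fun z => ⟨_, C_act_strict g z⟩

/-- Chain rule: `ext (F * G) z = ext F (ext G z)` for `z` in the disc. -/
theorem C_ext_mul (F G : Disc ≃ₜ Disc) {z : ℂ} (hz : ‖z‖ < 1) :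
    ext (F * G) z = ext F (ext G z) := by
  have h1 : ext G z = (G ⟨z, hz⟩ : Disc) := c05_coe G ⟨z, hz⟩
  have h2 : ext (F * G) z = ((F * G) ⟨z, hz⟩ : Disc) := c05_coe (F * G) ⟨z, hz⟩
  rw [h1, h2, c05_coe]
  rfl

theorem C_mul_deriv {F G : Disc ≃ₜ Disc} {z : Disc} {L M : ℂ →L[ℝ] ℂ}
    (hF : HasFDerivAt (ext F) L (G z)) (hG : HasFDerivAt (ext G) M z) :
    HasFDerivAt (ext (F * G)) (L.comp M) z := by
  have h1 : HasFDerivAt (ext F) L (ext G z) := by
    rw [c05_coe]
    exact hF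
  refine (h1.comp (z : ℂ) hG).congr_of_eventuallyEq ?_
  have h6 : ∀ᶠ y : ℂ in 𝓝 (z : ℂ), ‖y‖ < 1 := (isOpen_lt continuous_norm continuous_const).mem_nhds z.2
  filter_upwards [h6] with y hy
  exact C_ext_mul F G hy

/-- The null set is `(SU.act k)⁻¹ (N)`: `ext (SU.act k⁻¹) '' (N ∩ ball 0 1)`. (`C_null`.) -/
theorem C_LQ_act {K : ℝ} {F : Disc ≃ₜ Disc} (h : LQ K F) (g k : SU) :
    LQ K (SU.act g * F * SU.act k) := by
  obtain ⟨N, hN, h1⟩ := h.dil
  have hinv : ∀ g : SU, (SU.act g).symm = SU.act g⁻¹ := fun g => (map_inv SU.act g).symm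
  have hs : (SU.act g * F * SU.act k).symm = SU.act k⁻¹ * (F.symm * SU.act g⁻¹) := by
    rw [← hinv, ← hinv]
    rfl
  refine ⟨?_, ?_, ext (SU.act k⁻¹) '' (N ∩ Metric.ball 0 1), C_null (C_act_lip _) hN, fun z hz => ?_⟩
  · exact (C_act_lip g).comp (h.lip.comp (C_act_lip k))
  · rw [hs]
    exact (C_act_lip k⁻¹).comp (h.lip'.comp (C_act_lip g⁻¹))
  · have h2 : ((SU.act k z : Disc) : ℂ) ∉ N := by
      intro h3
      apply hz
      refine ⟨(SU.act k z : Disc), ⟨h3, by simpa using (SU.act k z).2⟩, ?_⟩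
      rw [c05_coe, ← hinv, (SU.act k).symm_apply_apply]
    obtain ⟨L, hL, hq⟩ := h1 _ h2
    have h4 := C_mul_deriv hL (C_act_strict k z).hasFDerivAt
    have h5 := C_mul_deriv (z := z) (F := SU.act g) (G := F * SU.act k) (C_act_strict g ((F * SU.act k) z)).hasFDerivAt h4
    refine ⟨_, ?_, C_QCL_mul_left (c := 1 / (g.den ((F * SU.act k) z : Disc)) ^ 2) ?_
      (C_QCL_mul_right (c := 1 / (k.den z) ^ 2) ?_ hq)⟩
    · rw [mul_assoc]
      exact h5
    · exact one_div_ne_zero (pow_ne_zero _ (g.den_ne ((F * SU.act k) z).2.le))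
    · exact one_div_ne_zero (pow_ne_zero _ (k.den_ne z.2.le))

end Pool.Agent.Lib.H11Q
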