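import Pool.Agent.Lib.H11Q.C06

set_option autoImplicit false

namespace Pool.Agent.Lib.H11Q

open Complex Set MeasureTheory
open scoped ComplexConjugate Topology

/-! C07 (S/M): the twist homeomorphism `h` is locally bi-Lipschitz. -/

theorem c07_strict {h : Disc ≃ₜ Disc} {z : Disc} {α m : ℂ} (hα : α ≠ 0) (hm : ‖m‖ < 1)
    (hD : HasStrictFDerivAt (ext h) (bel α m) z) :
    HasStrictFDerivAt (ext h.symm) ((iab m).comp (ab (1 / α) 0)) (h z) := by
  obtain ⟨i1, i2⟩ := C_iab_comp hm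
  have hid : ab 1 0 = ContinuousLinearMap.id ℝ ℂ := by
    ext v
    simp
  have e1 : (ab (1 / α) 0).comp (ab α 0) = ContinuousLinearMap.id ℝ ℂ := by
    rw [C_ab_comp, ← hid]
    congr 1
    · rw [map_zero, mul_zero, add_zero, one_div_mul_cancel hα]
    · simp
  have e2 : (ab α 0).comp (ab (1 / α) 0) = ContinuousLinearMap.id ℝ ℂ := by
    rw [C_ab_comp, ← hid]
    congr 1
    · rw [map_zero, mul_zero, add_zero, mul_one_div_cancel hα]
    · simp
  have h1 : ((iab m).comp (ab (1 / α) 0)).comp (bel α m) = ContinuousLinearMap.id ℝ ℂ := by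
    rw [C_bel_eq, ContinuousLinearMap.comp_assoc, ← ContinuousLinearMap.comp_assoc (ab (1 / α) 0), e1,
      ContinuousLinearMap.id_comp, i1]
  have h2 : (bel α m).comp ((iab m).comp (ab (1 / α) 0)) = ContinuousLinearMap.id ℝ ℂ := by
    rw [C_bel_eq, ContinuousLinearMap.comp_assoc, ← ContinuousLinearMap.comp_assoc (ab 1 m), i2,
      ContinuousLinearMap.id_comp, e2]
  have h3 : ext h.symm (h z : ℂ) = z := by
    rw [c05_coe, h.symm_apply_apply]
  have h4 : HasStrictFDerivAt (ext h) ((ContinuousLinearEquiv.equivOfInverse (bel α m) ((iab m).comp (ab (1 / α) 0))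
      (fun v => by rw [← ContinuousLinearMap.comp_apply, h1]; rfl)
      (fun v => by rw [← ContinuousLinearMap.comp_apply, h2]; rfl) : ℂ ≃L[ℝ] ℂ) : ℂ →L[ℝ] ℂ) (ext h.symm (h z)) := by
    rw [h3]
    exact hD
  have h5 := HasStrictFDerivAt.of_local_left_inverse (c05_cont h.symm (h z)) h4 (by
    have h6 : ∀ᶠ y : ℂ in 𝓝 (h z : ℂ), ‖y‖ < 1 := (isOpen_lt continuous_norm continuous_const).mem_nhds (h z).2
    filter_upwards [h6] with y hy
    have h7 : ext h.symm y = (h.symm ⟨y, hy⟩ : Disc) := c05_coe h.symm ⟨y, hy⟩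
    rw [h7, c05_coe, h.apply_symm_apply])
  exact h5

/-- Inverse: `HasStrictFDerivAt.of_local_left_inverse` with the equivalence given by `C_iab_comp` and the inverse of
`α`; `h.symm` is strictly differentiable too, so `C_strict_lip` applies to both. -/
theorem C_loc {h : Disc ≃ₜ Disc} (hD : ∀ z : Disc, ∃ α m : ℂ, α ≠ 0 ∧ ‖m‖ < 1 ∧
    HasStrictFDerivAt (ext h) (bel α m) z) : LocallyLipschitz h ∧ LocallyLipschitz h.symm := by
  constructor
  · refine C_strict_lip fun z => ?_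
    obtain ⟨α, m, _, _, h1⟩ := hD z
    exact ⟨_, h1⟩
  · refine C_strict_lip fun w => ?_
    obtain ⟨α, m, h1, h2, h3⟩ := hD (h.symm w)
    have h4 := c07_strict h1 h2 h3
    rw [h.apply_symm_apply] at h4
    exact ⟨_, h4⟩

theorem C_loc_inv {h : Disc ≃ₜ Disc} {z : Disc} {α m : ℂ} (hα : α ≠ 0) (hm : ‖m‖ < 1)
    (hD : HasStrictFDerivAt (ext h) (bel α m) z) :
    HasFDerivAt (ext h.symm) ((iab m).comp (ab (1 / α) 0)) (h z) := by
  exact (c07_strict hα hm hD).hasFDerivAt

end Pool.Agent.Lib.H11Q
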