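import Pool.Agent.Lib.H11Q.C02

set_option autoImplicit false

namespace Pool.Agent.Lib.H11Q

open Complex Set MeasureTheory
open scoped ComplexConjugate Topology

/-! C08 (M): the flow map `ξ + t V(ξ)`, `V = (1 - |ξ|²) P`. -/

theorem c08_fld (P : ℂ → ℂ) (z : ℂ) : fld P z = (1 - z * conj z) * P z := by
  unfold fld
  rw [Complex.mul_conj, Complex.normSq_eq_norm_sq]
  push_cast
  rfl

theorem c08_contDiff {P : ℂ → ℂ} (hP : ContDiff ℝ 2 P) : ContDiff ℝ 2 (fld P) := by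
  have e : fld P = fun z => (1 - z * conjCLE z) * P z := by
    funext z
    rw [c08_fld]
    rfl
  rw [e]
  exact (contDiff_const.sub (contDiff_id.mul conjCLE.contDiff)).mul hP

theorem c08_one {P : ℂ → ℂ} {ξ : ℂ} (h : ‖ξ‖ = 1) : fld P ξ = 0 := by
  unfold fld
  rw [h]
  simp

theorem c08_bound {P : ℂ → ℂ} (hP : ContDiff ℝ 2 P) :
    ∃ M : ℝ, ∀ ξ : ℂ, ‖ξ‖ ≤ 1 → ‖fderiv ℝ (fld P) ξ‖ ≤ M := by
  have hc : Continuous (fderiv ℝ (fld P)) := (c08_contDiff hP).continuous_fderiv (by norm_num)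
  obtain ⟨M, hM⟩ := (isCompact_closedBall (0 : ℂ) 1).exists_bound_of_continuousOn hc.continuousOn
  refine ⟨M, fun ξ hξ => hM ξ ?_⟩
  rw [mem_closedBall_zero_iff]
  exact hξ

theorem c08_lip {P : ℂ → ℂ} (hP : ContDiff ℝ 2 P) : ∃ M : ℝ, 0 ≤ M ∧ ∀ ξ η : ℂ, ‖ξ‖ ≤ 1 →
    ‖η‖ ≤ 1 → ‖fld P ξ - fld P η‖ ≤ M * ‖ξ - η‖ := by
  obtain ⟨M, hM⟩ := c08_bound hP
  have hM0 : 0 ≤ M := (norm_nonneg _).trans (hM 0 (by simp))
  refine ⟨M, hM0, fun ξ η hξ hη => ?_⟩
  have hd : ∀ x ∈ Metric.closedBall (0 : ℂ) 1, DifferentiableAt ℝ (fld P) x := fun x _ =>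
    (c08_contDiff hP).contDiffAt.differentiableAt (by norm_num)
  refine (convex_closedBall (0 : ℂ) 1).norm_image_sub_le_of_norm_fderiv_le (𝕜 := ℝ)
    hd (fun x hx => hM x ?_) ?_ ?_
  · rwa [mem_closedBall_zero_iff] at hx
  · rwa [mem_closedBall_zero_iff]
  · rwa [mem_closedBall_zero_iff]

open Classical in
/-- the extension by zero -/
noncomputable def c08_ext (P : ℂ → ℂ) (ξ : ℂ) : ℂ := if ‖ξ‖ ≤ 1 then fld P ξ else 0

theorem c08_near {P : ℂ → ℂ} {M : ℝ} (h : ∀ ξ η : ℂ, ‖ξ‖ ≤ 1 →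
    ‖η‖ ≤ 1 → ‖fld P ξ - fld P η‖ ≤ M * ‖ξ - η‖) (ξ : ℂ) (hξ : ‖ξ‖ ≤ 1) :
    ‖fld P ξ‖ ≤ M * (1 - ‖ξ‖) := by
  obtain ⟨ζ, hζ, hd⟩ : ∃ ζ : ℂ, ‖ζ‖ = 1 ∧ ‖ξ - ζ‖ = 1 - ‖ξ‖ := by
    rcases eq_or_ne ξ 0 with h0 | h0
    · refine ⟨1, by simp, ?_⟩
      rw [h0]
      simp
    · have hpos : 0 < ‖ξ‖ := norm_pos_iff.2 h0
      refine ⟨ξ * ((1 / ‖ξ‖ : ℝ) : ℂ), ?_, ?_⟩
      · rw [norm_mul, Complex.norm_real, Real.norm_of_nonneg (by positivity)]
        field_simp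
      · have e : ξ - ξ * ((1 / ‖ξ‖ : ℝ) : ℂ) = ξ * ((1 - 1 / ‖ξ‖ : ℝ) : ℂ) := by
          push_cast
          ring
        rw [e, norm_mul, Complex.norm_real, Real.norm_eq_abs, abs_of_nonpos]
        · field_simp
          ring
        · have : 1 ≤ 1 / ‖ξ‖ := by
            rw [le_div_iff₀ hpos]
            linarith
          linarith
  have h1 := h ξ ζ hξ hζ.le
  rw [c08_one hζ, sub_zero, hd] at h1
  exact h1

theorem c08_ext_lip {P : ℂ → ℂ} {M : ℝ} (hM : 0 ≤ M) (h : ∀ ξ η : ℂ, ‖ξ‖ ≤ 1 →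
    ‖η‖ ≤ 1 → ‖fld P ξ - fld P η‖ ≤ M * ‖ξ - η‖) (ξ η : ℂ) :
    ‖c08_ext P ξ - c08_ext P η‖ ≤ M * ‖ξ - η‖ := by
  unfold c08_ext
  split_ifs with h1 h2 h2
  · exact h ξ η h1 h2
  · rw [sub_zero]
    refine (c08_near h ξ h1).trans (mul_le_mul_of_nonneg_left ?_ hM)
    have := norm_sub_norm_le η ξ
    rw [norm_sub_rev] at this
    linarith
  · rw [zero_sub, norm_neg]
    refine (c08_near h η h2).trans (mul_le_mul_of_nonneg_left ?_ hM)
    have := norm_sub_norm_le ξ η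
    linarith
  · simp only [sub_self, norm_zero]
    positivity

/-- `fld P` is `C^1` on the plane, so Lipschitz on the closed unit disc (compact, convex) with a constant `Λ`
(bounded derivative).  Take `t0 = 1 / (2 Λ + 2)`.  `up`, `lo`: triangle inequality.  Extend `fld P` by `0` outside the
closed disc: the extension `V^` is Lipschitz on the plane with the constant `Λ` (for a segment from a point of the
closed disc to a point outside take the point of the segment on the circle, where `V^ = 0`).  `ξ ↦ ξ + t V^(ξ)` is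
then a bijection of the plane (`y ↦ η - t V^(y)` is a contraction: `ContractingWith`), it is the
identity outside of the closed disc and on the circle; so it maps the closed disc onto the closed disc and (injectivity) the
open disc to the open disc. -/
theorem C_fld {P : ℂ → ℂ} (hP : ContDiff ℝ 2 P) : ∃ t0 > 0, ∀ t : ℝ, |t| ≤ t0 → FldOK P t := by
  obtain ⟨M, hM, hlip⟩ := c08_lip hP
  refine ⟨1 / (2 * M + 2), by positivity, fun t ht => ?_⟩
  have htM : |t| * M ≤ 1 / 2 := by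
    have h1 : |t| * M ≤ 1 / (2 * M + 2) * M := mul_le_mul_of_nonneg_right ht hM
    have h2 : 1 / (2 * M + 2) * M ≤ 1 / 2 := by
      rw [div_mul_eq_mul_div, one_mul, div_le_iff₀ (by positivity)]
      linarith
    linarith
  have hdiff : ∀ ξ η : ℂ, ‖ξ‖ ≤ 1 → ‖η‖ ≤ 1 →
      ‖(t : ℂ) * fld P ξ - t * fld P η‖ ≤ 1 / 2 * ‖ξ - η‖ := by
    intro ξ η hξ hη
    rw [← mul_sub, norm_mul, Complex.norm_real, Real.norm_eq_abs]
    calc |t| * ‖fld P ξ - fld P η‖ ≤ |t| * (M * ‖ξ - η‖) :=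
          mul_le_mul_of_nonneg_left (hlip ξ η hξ hη) (abs_nonneg _)
      _ = (|t| * M) * ‖ξ - η‖ := by ring
      _ ≤ 1 / 2 * ‖ξ - η‖ := mul_le_mul_of_nonneg_right htM (norm_nonneg _)
  refine ⟨?_, ?_, ?_, ?_⟩
  · intro ξ η hξ hη
    have h1 := hdiff ξ η hξ hη
    have e : flm P t ξ - flm P t η = (ξ - η) + ((t : ℂ) * fld P ξ - t * fld P η) := by
      unfold flm
      ring
    rw [e]
    have h2 := norm_add_le (ξ - η) ((t : ℂ) * fld P ξ - t * fld P η)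
    linarith
  · intro ξ η hξ hη
    have h1 := hdiff ξ η hξ hη
    have e : flm P t ξ - flm P t η = (ξ - η) + ((t : ℂ) * fld P ξ - t * fld P η) := by
      unfold flm
      ring
    rw [e]
    have h2 := norm_sub_norm_le (ξ - η) (-((t : ℂ) * fld P ξ - t * fld P η))
    rw [norm_neg, sub_neg_eq_add] at h2
    linarith
  · intro ξ hξ
    have h1 := c08_near hlip ξ hξ.le
    have h2 : ‖(t : ℂ) * fld P ξ‖ ≤ 1 / 2 * (1 - ‖ξ‖) := by
      rw [norm_mul, Complex.norm_real, Real.norm_eq_abs]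
      calc |t| * ‖fld P ξ‖ ≤ |t| * (M * (1 - ‖ξ‖)) := mul_le_mul_of_nonneg_left h1 (abs_nonneg _)
        _ = (|t| * M) * (1 - ‖ξ‖) := by ring
        _ ≤ 1 / 2 * (1 - ‖ξ‖) := mul_le_mul_of_nonneg_right htM (by linarith)
    have h3 := norm_add_le ξ ((t : ℂ) * fld P ξ)
    unfold flm
    linarith
  · intro η hη
    have hcontr : ContractingWith (⟨1 / 2, by norm_num⟩ : NNReal)
        (fun y : ℂ => η - t * c08_ext P y) := by
      refine ⟨?_, ?_⟩
      · rw [← NNReal.coe_lt_coe]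
        show (1 / 2 : ℝ) < 1
        norm_num
      · refine LipschitzWith.of_dist_le_mul (fun x y => ?_)
        rw [dist_eq_norm, dist_eq_norm]
        have e : (η - (t : ℂ) * c08_ext P x) - (η - t * c08_ext P y) =
            (t : ℂ) * (c08_ext P y - c08_ext P x) := by ring
        rw [e, norm_mul, Complex.norm_real, Real.norm_eq_abs]
        calc |t| * ‖c08_ext P y - c08_ext P x‖ ≤ |t| * (M * ‖y - x‖) :=
              mul_le_mul_of_nonneg_left (c08_ext_lip hM hlip y x) (abs_nonneg _)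
          _ = (|t| * M) * ‖x - y‖ := by rw [norm_sub_rev]; ring
          _ ≤ 1 / 2 * ‖x - y‖ := mul_le_mul_of_nonneg_right htM (norm_nonneg _)
    set y : ℂ := ContractingWith.fixedPoint (fun y : ℂ => η - t * c08_ext P y) hcontr with hy
    have hfix : η - t * c08_ext P y = y := hcontr.fixedPoint_isFixedPt
    have hy1 : ‖y‖ ≤ 1 := by
      by_contra hcon
      have e : c08_ext P y = 0 := by
        unfold c08_ext
        rw [if_neg hcon]
      rw [e, mul_zero, sub_zero] at hfix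
      rw [← hfix] at hcon
      exact hcon hη
    refine ⟨y, hy1, ?_⟩
    have e : c08_ext P y = fld P y := by
      unfold c08_ext
      rw [if_pos hy1]
    rw [e] at hfix
    unfold flm
    linear_combination -hfix

/-- `fld P` is `C²`; its derivative is bounded on the closed disc. -/
theorem C_fld_diff {P : ℂ → ℂ} (hP : ContDiff ℝ 2 P) :
    ContDiff ℝ 2 (fld P) ∧ ∃ M : ℝ, ∀ ξ : ℂ, ‖ξ‖ ≤ 1 → ‖fderiv ℝ (fld P) ξ‖ ≤ M :=
  ⟨c08_contDiff hP, c08_bound hP⟩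

theorem C_flm_deriv {P : ℂ → ℂ} (hP : ContDiff ℝ 2 P) (t : ℝ) (ξ : ℂ) :
    HasStrictFDerivAt (flm P t) (ContinuousLinearMap.id ℝ ℂ + t • fderiv ℝ (fld P) ξ) ξ := by
  have h1 : HasStrictFDerivAt (fld P) (fderiv ℝ (fld P) ξ) ξ :=
    (c08_contDiff hP).contDiffAt.hasStrictFDerivAt (by norm_num)
  have h2 := (hasStrictFDerivAt_id (𝕜 := ℝ) ξ).add (h1.const_smul t)
  have e : flm P t = fun z => id z + t • fld P z := by
    funext z
    unfold flm
    rw [Complex.real_smul]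
    rfl
  rw [e]
  exact h2

theorem C_flm_odd {P : ℂ → ℂ} (hP : ∀ ξ, P (-ξ) = -P ξ) (t : ℝ) (ξ : ℂ) :
    flm P t (-ξ) = -flm P t ξ := by
  unfold flm fld
  rw [hP, norm_neg]
  ring

theorem C_flm_one {P : ℂ → ℂ} (t : ℝ) {ξ : ℂ} (h : ‖ξ‖ = 1) : flm P t ξ = ξ := by
  unfold flm
  rw [c08_one h]
  simp

theorem C_flm_zero {P : ℂ → ℂ} (hP : ∀ ξ, P (-ξ) = -P ξ) (t : ℝ) : flm P t 0 = 0 := by
  have h := hP 0
  rw [neg_zero] at h
  have h0 : P 0 = 0 := by
    have : (2 : ℂ) * P 0 = 0 := by linear_combination h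
    simpa using this
  unfold flm fld
  rw [h0]
  simp

end Pool.Agent.Lib.H11Q
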