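import Pool.Agent.Lib.H11Q.E07

/-! # H11Q chunk E17 (S): numerical bounds for `a_κ`.

PROOFS.  `aa κ = 2N/(1+2D)`, `N = κ + κ^9 + ∑_{n≥2} κ^((2n+1)²)`, `D = κ^4 + ∑_{n≥1} κ^(4(n+1)²)` (`E07_aa`).
For `0 ≤ κ ≤ 1/10`: `κ ≤ N ≤ κ + 2κ^9` (`∑_{n≥1} κ^((2n+1)²) ≤ ∑_{k≥9} κ^k = κ^9/(1-κ) ≤ 2κ^9`), `κ^4 ≤ D ≤ κ^4 + 2κ^16`.
So `2κ/(1+2κ^4+4κ^16) ≤ aa κ ≤ (2κ+4κ^9)/(1+2κ^4)`; then numerals:
`aa (1/10) ≥ 0.2/(1.0002000001) > 0.199`; `aa 0.07697 ≤ 0.15394000001/(1+2·0.07697^4) < 0.15393`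
(`2·0.07697^4 = 7.0196·10⁻⁵`); `aa 0.07698 ≥ 0.15396/(1+7.0233·10⁻⁵+..) > 0.15394`. -/

set_option autoImplicit false

namespace Pool.Agent.Lib.H11Q

theorem e17_gen {κ : ℝ} (h0 : 0 ≤ κ) (h1 : κ ≤ 1 / 10) (e : ℕ → ℕ) (m : ℕ) (he0 : 0 ≤ e 0) (he : ∀ n, m + n ≤ e (n + 1)) :
    κ ^ e 0 ≤ ∑' n, κ ^ e n ∧ ∑' n, κ ^ e n ≤ κ ^ e 0 + 2 * κ ^ m := by
  have hle : ∀ n, κ ^ e (n + 1) ≤ κ ^ m * κ ^ n := by
    intro n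
    rw [← pow_add]
    exact pow_le_pow_of_le_one h0 (by linarith) (he n)
  have hg : Summable (fun n : ℕ => κ ^ m * κ ^ n) := (summable_geometric_of_lt_one h0 (by linarith)).mul_left _
  have hs1 : Summable (fun n => κ ^ e (n + 1)) := Summable.of_nonneg_of_le (fun n => by positivity) hle hg
  have hs : Summable (fun n => κ ^ e n) := (summable_nat_add_iff 1).mp hs1
  rw [hs.tsum_eq_zero_add]
  have h2 : ∑' n, κ ^ e (n + 1) ≤ 2 * κ ^ m := by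
    refine (hs1.tsum_le_tsum hle hg).trans ?_
    rw [tsum_mul_left, tsum_geometric_of_lt_one h0 (by linarith), mul_comm]
    refine mul_le_mul_of_nonneg_right ?_ (by positivity)
    rw [inv_le_comm₀ (by linarith) (by norm_num)]
    linarith
  have h3 : 0 ≤ ∑' n, κ ^ e (n + 1) := tsum_nonneg fun n => by positivity
  constructor
  · linarith
  · linarith

theorem e17_N {κ : ℝ} (h0 : 0 ≤ κ) (h1 : κ ≤ 1 / 10) :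
    κ ≤ ∑' n : ℕ, κ ^ (2 * n + 1) ^ 2 ∧ ∑' n : ℕ, κ ^ (2 * n + 1) ^ 2 ≤ κ + 2 * κ ^ 9 := by
  have h := e17_gen h0 h1 (fun n => (2 * n + 1) ^ 2) 9 (Nat.zero_le _) (fun n => by nlinarith)
  simpa using h

theorem e17_D {κ : ℝ} (h0 : 0 ≤ κ) (h1 : κ ≤ 1 / 10) :
    κ ^ 4 ≤ ∑' n : ℕ, κ ^ (4 * (n + 1) ^ 2) ∧ ∑' n : ℕ, κ ^ (4 * (n + 1) ^ 2) ≤ κ ^ 4 + 2 * κ ^ 16 := by
  have h := e17_gen h0 h1 (fun n => 4 * (n + 1) ^ 2) 16 (Nat.zero_le _) (fun n => by nlinarith)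
  simpa using h

theorem E17_lower {κ : ℝ} (h0 : 0 ≤ κ) (h1 : κ ≤ 1 / 10) :
    2 * κ / (1 + 2 * κ ^ 4 + 4 * κ ^ 16) ≤ aa κ := by
  obtain ⟨hN, -⟩ := e17_N h0 h1
  obtain ⟨hD1, hD⟩ := e17_D h0 h1
  have h4 : 0 ≤ κ ^ 4 := by positivity
  rw [E07_aa]
  refine div_le_div₀ ?_ ?_ ?_ ?_ <;> linarith


theorem E17_upper {κ : ℝ} (h0 : 0 ≤ κ) (h1 : κ ≤ 1 / 10) :
    aa κ ≤ (2 * κ + 4 * κ ^ 9) / (1 + 2 * κ ^ 4) := by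
  obtain ⟨hN1, hN⟩ := e17_N h0 h1
  obtain ⟨hD, -⟩ := e17_D h0 h1
  have h4 : 0 ≤ κ ^ 4 := by positivity
  have h9 : 0 ≤ κ ^ 9 := by positivity
  rw [E07_aa]
  refine div_le_div₀ ?_ ?_ ?_ ?_ <;> linarith


theorem E17_top : 199 / 1000 < aa (1 / 10) := by
  refine lt_of_lt_of_le ?_ (E17_lower (by norm_num) le_rfl)
  norm_num


theorem E17_left : aa (7697 / 100000) < 15393 / 100000 := by
  refine lt_of_le_of_lt (E17_upper (by norm_num) (by norm_num)) ?_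
  norm_num


theorem E17_right : 15394 / 100000 < aa (7698 / 100000) := by
  refine lt_of_lt_of_le ?_ (E17_lower (by norm_num) (by norm_num))
  norm_num


end Pool.Agent.Lib.H11Q
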