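import Pool.Agent.Lib.H11Q.D1

/-! # H11Q chunk E18 (M, real numbers): `0.15393 < a_0 < 0.15394`.

PROOFS.  Let `l = 2 cos(π/7)`; `l³ - l² - 2l + 1 = 0` (from `cos(3π/7) = -cos(4π/7)`, i.e. with `c = cos(π/7)`:
`4c³ - 3c = -(8c⁴ - 8c² + 1)`, which factors as `(c+1)(8c³ - 4c² - 4c + 1) = 0`), and `l > 1.6` (`π/7 < π/6`... gives
`cos(π/7) > cos(π/6) = √3/2 > 0.866`), so `1.8019377 < l < 1.8019378` (`f(x) = x³ - x² - 2x + 1` is increasing for `x ≥ 1.6`,
`f(1.8019377) < 0 < f(1.8019378)`).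
`CC² = cos²/(3 sin²) = (l²/4)/(3(1 - l²/4)) = l²/(3(4 - l²))`, so `1.19888 < CC < 1.198881` (`CC > 0`).
`vv² = (CC-1)/(CC+1)`: `0.3007426² < vv² < 0.3007427²` (it is `0.090446..`: `vv = 0.3007426187..`), and
`a0 = vv/(1+√(1-vv²))`: `√(1-vv²) = 0.953707..`; `0.15393 < a0 < 0.15394` (value `0.1539345`).  The function
`v/(1+√(1-v²))` is increasing; crude intervals are enough: `0.30074 < vv < 0.30075` gives
`a0 > 0.30074/(1+0.95371) = 0.153933..` and `a0 < 0.30075/(1+0.9537) = 0.153939..`. -/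

set_option autoImplicit false

namespace Pool.Agent.Lib.H11Q

theorem e18_sin_pos : 0 < Real.sin (Real.pi / 7) :=
  Real.sin_pos_of_pos_of_lt_pi (by positivity) (by linarith [Real.pi_pos])

theorem E18_root : (2 * Real.cos (Real.pi / 7)) ^ 3 - (2 * Real.cos (Real.pi / 7)) ^ 2
    - 2 * (2 * Real.cos (Real.pi / 7)) + 1 = 0 := by
  set c := Real.cos (Real.pi / 7) with hc
  have h3 : Real.cos (3 * (Real.pi / 7)) = 4 * c ^ 3 - 3 * c := Real.cos_three_mul _
  have h2 : Real.cos (2 * (Real.pi / 7)) = 2 * c ^ 2 - 1 := Real.cos_two_mul _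
  have h4 : Real.cos (2 * (2 * (Real.pi / 7))) = 2 * (2 * c ^ 2 - 1) ^ 2 - 1 := by
    rw [Real.cos_two_mul, h2]
  have h5 : Real.cos (2 * (2 * (Real.pi / 7))) = -Real.cos (3 * (Real.pi / 7)) := by
    rw [← Real.cos_pi_sub]
    congr 1
    ring
  have hpos : 0 < c := Real.cos_pos_of_mem_Ioo ⟨by linarith [Real.pi_pos], by linarith [Real.pi_pos]⟩
  have h6 : (c + 1) * ((2 * c) ^ 3 - (2 * c) ^ 2 - 2 * (2 * c) + 1) = 0 := by
    have : 2 * (2 * c ^ 2 - 1) ^ 2 - 1 = -(4 * c ^ 3 - 3 * c) := by rw [← h4, h5, h3]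
    linear_combination this
  rcases mul_eq_zero.mp h6 with h | h
  · linarith
  · exact h

theorem e18_lower : (16 / 10 : ℝ) < 2 * Real.cos (Real.pi / 7) := by
  have h1 : Real.cos (Real.pi / 6) ≤ Real.cos (Real.pi / 7) :=
    Real.cos_le_cos_of_nonneg_of_le_pi (by positivity) (by linarith [Real.pi_pos])
      (by linarith [Real.pi_pos])
  rw [Real.cos_pi_div_six] at h1
  have h2 : (16 / 10 : ℝ) < Real.sqrt 3 := by
    rw [Real.lt_sqrt (by norm_num)]
    norm_num
  linarith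

theorem E18_cos : (18019377 / 10000000 : ℝ) < 2 * Real.cos (Real.pi / 7) ∧
    2 * Real.cos (Real.pi / 7) < 18019378 / 10000000 := by
  have hr := E18_root
  have hl := e18_lower
  set l := 2 * Real.cos (Real.pi / 7) with hldef
  have hfac : ∀ y : ℝ, (l - y) * (l ^ 2 + l * y + y ^ 2 - l - y - 2) = -(y ^ 3 - y ^ 2 - 2 * y + 1) := by
    intro y
    linear_combination hr
  have hq : ∀ y : ℝ, 16 / 10 < y → 0 < l ^ 2 + l * y + y ^ 2 - l - y - 2 := by
    intro y hy
    nlinarith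
  constructor
  · by_contra h
    push Not at h
    have h1 := hfac (18019377 / 10000000)
    have h2 := hq (18019377 / 10000000) (by norm_num)
    have h3 : (l - 18019377 / 10000000) *
        (l ^ 2 + l * (18019377 / 10000000) + (18019377 / 10000000) ^ 2 - l - 18019377 / 10000000 - 2) ≤ 0 :=
      mul_nonpos_of_nonpos_of_nonneg (by linarith) h2.le
    rw [h1] at h3
    norm_num at h3
  · by_contra h
    push Not at h
    have h1 := hfac (18019378 / 10000000)
    have h2 := hq (18019378 / 10000000) (by norm_num)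
    have h3 : 0 ≤ (l - 18019378 / 10000000) *
        (l ^ 2 + l * (18019378 / 10000000) + (18019378 / 10000000) ^ 2 - l - 18019378 / 10000000 - 2) :=
      mul_nonneg (by linarith) h2.le
    rw [h1] at h3
    norm_num at h3

theorem e18_CC_pos : 0 < CC := by
  unfold CC
  have h1 := e18_sin_pos
  have h2 := e18_lower
  have h3 : 0 < Real.sqrt 3 := Real.sqrt_pos.mpr (by norm_num)
  have h4 : 0 < Real.cos (Real.pi / 7) := by linarith
  positivity

theorem e18_CC_sq : CC ^ 2 * (3 * (4 - (2 * Real.cos (Real.pi / 7)) ^ 2)) =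
    (2 * Real.cos (Real.pi / 7)) ^ 2 := by
  unfold CC
  have h1 := e18_sin_pos
  have h3 : Real.sqrt 3 ^ 2 = 3 := Real.sq_sqrt (by norm_num)
  have h4 : Real.sin (Real.pi / 7) ^ 2 = 1 - Real.cos (Real.pi / 7) ^ 2 := Real.sin_sq _
  rw [div_pow, mul_pow, h3]
  have h5 : 3 * (4 - (2 * Real.cos (Real.pi / 7)) ^ 2) = 4 * (3 * Real.sin (Real.pi / 7) ^ 2) := by
    rw [h4]; ring
  rw [h5]
  have h6 : 3 * Real.sin (Real.pi / 7) ^ 2 ≠ 0 := by positivity
  field_simp
  ring

theorem E18_CC : (119888 / 100000 : ℝ) < CC ∧ CC < 1198881 / 1000000 := by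
  obtain ⟨h1, h2⟩ := E18_cos
  have h3 := e18_CC_sq
  have h4 := e18_CC_pos
  set l := 2 * Real.cos (Real.pi / 7) with hl
  have hl0 : 0 < l := by linarith
  have hl1 : l ^ 2 < (18019378 / 10000000) ^ 2 := by gcongr
  have hl2 : (18019377 / 10000000) ^ 2 < l ^ 2 := by gcongr
  constructor
  · by_contra h
    push Not at h
    have h5 : CC ^ 2 ≤ (119888 / 100000) ^ 2 := by gcongr
    have h6 : CC ^ 2 * (3 * (4 - l ^ 2)) ≤ (119888 / 100000) ^ 2 * (3 * (4 - (18019377 / 10000000) ^ 2)) := by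
      refine mul_le_mul h5 (by linarith) ?_ (by positivity)
      norm_num at hl1
      linarith
    rw [h3] at h6
    norm_num at h6 hl2
    linarith
  · by_contra h
    push Not at h
    have h5 : (1198881 / 1000000) ^ 2 ≤ CC ^ 2 := by gcongr
    have h6 : (1198881 / 1000000) ^ 2 * (3 * (4 - (18019378 / 10000000) ^ 2)) ≤ CC ^ 2 * (3 * (4 - l ^ 2)) := by
      refine mul_le_mul h5 (by linarith) ?_ (by positivity)
      norm_num
    rw [h3] at h6
    norm_num at h6 hl1
    linarith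

theorem E18_vv : (30074 / 100000 : ℝ) < vv ∧ vv < 30075 / 100000 := by
  obtain ⟨h1, h2⟩ := E18_CC
  have h3 := vv_sq
  have h4 := vv_pos
  have hC : 0 < CC + 1 := by linarith
  rw [eq_div_iff hC.ne'] at h3
  constructor
  · by_contra h
    push Not at h
    have h5 : vv ^ 2 ≤ (30074 / 100000) ^ 2 := by gcongr
    have h6 : vv ^ 2 * (CC + 1) ≤ (30074 / 100000) ^ 2 * (CC + 1) := by gcongr
    rw [h3] at h6
    norm_num at h6
    linarith
  · by_contra h
    push Not at h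
    have h5 : (30075 / 100000) ^ 2 ≤ vv ^ 2 := by gcongr
    have h6 : (30075 / 100000) ^ 2 * (CC + 1) ≤ vv ^ 2 * (CC + 1) := by gcongr
    rw [h3] at h6
    norm_num at h6
    linarith

theorem E18_a0 : (15393 / 100000 : ℝ) < a0 ∧ a0 < 15394 / 100000 := by
  obtain ⟨h1, h2⟩ := E18_vv
  have h4 := vv_pos
  have hs1 : (9537 / 10000 : ℝ) < Real.sqrt (1 - vv ^ 2) := by
    rw [Real.lt_sqrt (by norm_num)]
    have : vv ^ 2 < (30075 / 100000) ^ 2 := by gcongr
    norm_num at this ⊢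
    linarith
  have hs2 : Real.sqrt (1 - vv ^ 2) < 95371 / 100000 := by
    rw [Real.sqrt_lt' (by norm_num)]
    have : (30074 / 100000) ^ 2 < vv ^ 2 := by gcongr
    norm_num at this ⊢
    linarith
  unfold a0
  constructor
  · rw [lt_div_iff₀ (by linarith)]
    linarith
  · rw [div_lt_iff₀ (by linarith)]
    linarith

end Pool.Agent.Lib.H11Q
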