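import Pool.Agent.Lib.H11Q.E16
import Pool.Agent.Lib.H11Q.E17
import Pool.Agent.Lib.H11Q.E18

/-! # H11Q chunk E19 (S): the parameter `k0`.

PROOFS.  `aa` is continuous and strictly increasing on `[0, 1/10]` (`E16_hasDerivAt`: `strictMonoOn_of_deriv_pos` on the convex
set `Icc`, interior `Ioo`).  `aa 0.07697 < 0.15393 < a0 < 0.15394 < aa 0.07698` (`E17`, `E18`), so by the intermediate value
theorem there is `κ ∈ (0.07697, 0.07698)` with `aa κ = a0`, and the set of `k0` is `{x | 0 ≤ x ≤ 1/10, a0 ≤ aa x} = [κ, 1/10]`, so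
`k0 = κ` (`csInf_Icc` after rewriting the set, or `IsLeast.csInf_eq`).
* `E19_sh`: `tanh(c/4)` identities, from `vv = 2 a0/(1+a0²)` (`a0 = vv/(1+√(1-vv²))`) and `vv² = (CC-1)/(CC+1)`. -/

set_option autoImplicit false

namespace Pool.Agent.Lib.H11Q

open Set

theorem E19_mono : StrictMonoOn aa (Icc 0 (1 / 10)) := by
  refine strictMonoOn_of_deriv_pos (convex_Icc 0 (1 / 10)) ?_ ?_
  · intro x hx
    obtain ⟨a', -, h⟩ := E16_hasDerivAt hx.1 hx.2
    exact h.continuousAt.continuousWithinAt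
  · intro x hx
    rw [interior_Icc] at hx
    obtain ⟨a', ha, h⟩ := E16_hasDerivAt hx.1.le hx.2.le
    rw [h.deriv]
    exact ha


theorem E19_aa_cont : ContinuousOn aa (Icc 0 (1 / 10)) := by
  intro x hx
  obtain ⟨a', -, h⟩ := E16_hasDerivAt hx.1 hx.2
  exact h.continuousAt.continuousWithinAt


theorem E19_k0 : aa k0 = a0 ∧ (7697 : ℝ) / 100000 < k0 ∧ k0 < 7698 / 100000 := by
  have hl := E17_left
  have hr := E17_right
  have ha := E18_a0
  have h1 : a0 ∈ Icc (aa (7697 / 100000)) (aa (7698 / 100000)) := ⟨by linarith [ha.1], by linarith [ha.2]⟩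
  have h2 := intermediate_value_Icc (by norm_num : (7697 / 100000 : ℝ) ≤ 7698 / 100000)
    (E19_aa_cont.mono (Icc_subset_Icc (by norm_num) (by norm_num)))
  obtain ⟨κ, hκ, hκa⟩ := h2 h1
  have hm : κ ∈ Icc (0 : ℝ) (1 / 10) := ⟨by linarith [hκ.1], by linarith [hκ.2]⟩
  have hleast : IsLeast {κ : ℝ | 0 ≤ κ ∧ κ ≤ 1 / 10 ∧ a0 ≤ aa κ} κ := by
    refine ⟨⟨hm.1, hm.2, hκa.ge⟩, ?_⟩
    rintro x ⟨hx0, hx1, hx2⟩
    by_contra hcon
    push Not at hcon
    have h3 := E19_mono ⟨hx0, hx1⟩ hm hcon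
    rw [hκa] at h3
    linarith
  have hk : k0 = κ := hleast.csInf_eq
  rw [hk]
  refine ⟨hκa, lt_of_le_of_ne hκ.1 ?_, lt_of_le_of_ne hκ.2 ?_⟩
  · intro h
    rw [← h] at hκa
    linarith [ha.1]
  · intro h
    rw [h] at hκa
    linarith [ha.2]


/-- `tanh(c/2) = 2 tanh(c/4)/(1 + tanh²(c/4))`, `sinh²(c/2) = 4a²/(1-a²)²`. -/
theorem E19_vv : vv = 2 * a0 / (1 + a0 ^ 2) ∧ 4 * a0 ^ 2 / (1 - a0 ^ 2) ^ 2 = (CC - 1) / 2 := by
  have hv := vv_pos
  have hv1 := vv_lt_one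
  have h1 : 0 < 1 - vv ^ 2 := by nlinarith
  have hs0 : 0 < Real.sqrt (1 - vv ^ 2) := Real.sqrt_pos.mpr h1
  have hs2 : Real.sqrt (1 - vv ^ 2) ^ 2 = 1 - vv ^ 2 := Real.sq_sqrt h1.le
  have ha : a0 = vv / (1 + Real.sqrt (1 - vv ^ 2)) := rfl
  have hvs := vv_sq
  have hC := one_lt_CC
  generalize Real.sqrt (1 - vv ^ 2) = s at hs0 hs2 ha
  have hp : 1 + s ≠ 0 := by positivity
  have e1 : 1 + a0 ^ 2 = 2 / (1 + s) := by
    rw [ha]
    field_simp
    linear_combination hs2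
  have e2 : 1 - a0 ^ 2 = 2 * s / (1 + s) := by
    rw [ha]
    field_simp
    linear_combination -hs2
  constructor
  · rw [e1, ha]
    field_simp
  · rw [e2, ha]
    have h3 : 4 * (vv / (1 + s)) ^ 2 / (2 * s / (1 + s)) ^ 2 = vv ^ 2 / s ^ 2 := by
      field_simp
      ring
    have h4 : CC + 1 ≠ 0 := by positivity
    have h5 : 1 - (CC - 1) / (CC + 1) = 2 / (CC + 1) := by
      field_simp
      ring
    rw [h3, hs2, hvs, h5]
    field_simp


end Pool.Agent.Lib.H11Q
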