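import Pool.Agent.Lib.H11Q.E03

/-! # H11Q chunk E04 (S/M): the theta series are differentiable in `Z`.

PROOFS. `hasDerivAt_tsum_of_isPreconnected` on the convex open ball `ball 0 (5/4)`, with the bounds of E01 for the
derivatives: majorants (geometric, `r = 63/50`)
`‖κ^(2n(2n+1)) P'_{2n+1}‖ ≤ (1/10)^(6n) · 2(2n+1) r^(2n+1) ≤ 2 r ((1/10)^6 · 3 r²)^n` (`2n+1 ≤ 3^n`), and
`‖κ^((2n+2)(2n+1)) P'_{2n+2}‖ ≤ (1/100) (1/10)^(10n) · 2(2n+2) r^(2n+2) ≤ (1/25) r² (2 (1/10)^10 r²)^n`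
(`2n+2 ≤ 2·2^n`), and summability of the series itself at `Z = 0` (same majorants without the factor; the bound
`E01_bound`).  -/

set_option autoImplicit false

namespace Pool.Agent.Lib.H11Q

open Complex

theorem E04_NN {κ : ℝ} (h0 : 0 ≤ κ) (h1 : κ ≤ 1 / 10) {Z : ℂ} (hZ : ‖Z‖ < 5 / 4) :
    HasDerivAt (NN κ) (ENd κ Z) Z := by
  have hmem : Z ∈ Metric.ball (0 : ℂ) (5 / 4) := by simpa using hZ
  have hz : (0 : ℂ) ∈ Metric.ball (0 : ℂ) (5 / 4) := Metric.mem_ball_self (by norm_num)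
  have hle : ∀ y ∈ Metric.ball (0 : ℂ) (5 / 4), ‖y‖ ≤ 5 / 4 := fun y hy => by
    have : ‖y‖ < 5 / 4 := by simpa using hy
    exact this.le
  have h := hasDerivAt_tsum_of_isPreconnected
    (g := fun (n : ℕ) (z : ℂ) => (κ : ℂ) ^ (2 * n * (2 * n + 1)) * PP (2 * n + 1) κ z)
    (g' := fun (n : ℕ) (z : ℂ) => (κ : ℂ) ^ (2 * n * (2 * n + 1)) * EPd (2 * n + 1) κ z)
    (u := fun n : ℕ => 63 / 25 * (3 * ((1 / 10) ^ 6 * (63 / 50 : ℝ) ^ 2)) ^ n)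
    ((summable_geometric_of_lt_one (by norm_num) (by norm_num)).mul_left _)
    Metric.isOpen_ball (convex_ball (0 : ℂ) (5 / 4)).isPreconnected
    (fun n y _ => (E01_hasDerivAt κ (2 * n + 1) y).const_mul _)
    (fun n y hy => e03_tNd h0 h1 (hle y hy) n) hz
    (E03_sum_NN h0 h1 (hle 0 hz)).of_norm hmem
  exact h

theorem E04_DD {κ : ℝ} (h0 : 0 ≤ κ) (h1 : κ ≤ 1 / 10) {Z : ℂ} (hZ : ‖Z‖ < 5 / 4) :
    HasDerivAt (DD κ) (EDd κ Z) Z := by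
  have hmem : Z ∈ Metric.ball (0 : ℂ) (5 / 4) := by simpa using hZ
  have hz : (0 : ℂ) ∈ Metric.ball (0 : ℂ) (5 / 4) := Metric.mem_ball_self (by norm_num)
  have hle : ∀ y ∈ Metric.ball (0 : ℂ) (5 / 4), ‖y‖ ≤ 5 / 4 := fun y hy => by
    have : ‖y‖ < 5 / 4 := by simpa using hy
    exact this.le
  have h := hasDerivAt_tsum_of_isPreconnected
    (g := fun (n : ℕ) (z : ℂ) => (κ : ℂ) ^ ((2 * n + 2) * (2 * n + 1)) * PP (2 * n + 2) κ z)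
    (g' := fun (n : ℕ) (z : ℂ) => (κ : ℂ) ^ ((2 * n + 2) * (2 * n + 1)) * EPd (2 * n + 2) κ z)
    (u := fun n : ℕ => 1 / 25 * (63 / 50) ^ 2 * (2 * ((1 / 10) ^ 10 * (63 / 50 : ℝ) ^ 2)) ^ n)
    ((summable_geometric_of_lt_one (by norm_num) (by norm_num)).mul_left _)
    Metric.isOpen_ball (convex_ball (0 : ℂ) (5 / 4)).isPreconnected
    (fun n y _ => (E01_hasDerivAt κ (2 * n + 2) y).const_mul _)
    (fun n y hy => e03_tDd h0 h1 (hle y hy) n) hz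
    (E03_sum_DD h0 h1 (hle 0 hz)).of_norm hmem
  exact h.const_add 1

end Pool.Agent.Lib.H11Q
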