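import Pool.Agent.Lib.H11Q.E03
import Pool.Agent.Lib.H11Q.E04

/-! # H11Q chunk E08 (S/M): `WW` is close to the identity.

PROOFS (`‖Z‖ ≤ 5/4`, `κ ≤ 1/10`), from the bounds of E03:
* `E08_DD`: `‖κ² (Z² - 2κ²)‖ ≤ (1/100)(25/16 + 1/50) ≤ 0.0159`, so `‖DD - 1‖ ≤ 1/60`; hence `DD ≠ 0`, `‖DD‖ ≥ 59/60`.
* `E08_WW`: `WW - Z = (NN - Z - Z (DD - 1))/DD`, norm `≤ (1/200000 + (5/4)(1/60))/(59/60) ≤ 1/40`.
* `E08_EWd`: `EWd - 1 = (DD (ENd - DD) - NN EDd)/DD²`; `‖ENd - DD‖ ≤ 1/50000 + 1/60`, `‖NN‖ ≤ 1.2501`, `‖EDd‖ ≤ 0.0251`,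
  `‖DD‖ ≤ 61/60`: `≤ ((61/60)(0.01669) + 0.03138)/(59/60)² ≤ 1/16`.
* `E08_hasDerivAt`: quotient rule (`HasDerivAt.div`) with E04.
* `E08_lip`: `f Z = WW κ Z - Z` has derivative of norm `≤ 1/16` on the convex open ball:
  `Convex.norm_image_sub_le_of_norm_hasDerivWithin_le`. -/

set_option autoImplicit false

namespace Pool.Agent.Lib.H11Q

open Complex

theorem E08_DD {κ : ℝ} (h0 : 0 ≤ κ) (h1 : κ ≤ 1 / 10) {Z : ℂ} (hZ : ‖Z‖ ≤ 5 / 4) :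
    ‖DD κ Z - 1‖ ≤ 1 / 60 := by
  have h2 := E03_DD h0 h1 hZ
  have h3 := E01_sq h0 h1
  have h4 : ‖Z ^ 2 - 2 * (κ : ℂ) ^ 2‖ ≤ 633 / 400 := by
    refine (norm_sub_le _ _).trans ?_
    rw [norm_pow, norm_mul, Complex.norm_ofNat]
    have h5 : ‖Z‖ ^ 2 ≤ (5 / 4) ^ 2 := pow_le_pow_left₀ (norm_nonneg _) hZ 2
    linarith
  have h6 : ‖(κ : ℂ) ^ 2 * (Z ^ 2 - 2 * (κ : ℂ) ^ 2)‖ ≤ 1 / 100 * (633 / 400) := by
    rw [norm_mul]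
    exact mul_le_mul h3 h4 (norm_nonneg _) (by norm_num)
  have h7 : DD κ Z - 1 = (DD κ Z - (1 + (κ : ℂ) ^ 2 * (Z ^ 2 - 2 * (κ : ℂ) ^ 2))) + (κ : ℂ) ^ 2 * (Z ^ 2 - 2 * (κ : ℂ) ^ 2) := by ring
  rw [h7]
  refine (norm_add_le _ _).trans ((add_le_add h2 h6).trans ?_)
  norm_num


theorem E08_ne {κ : ℝ} (h0 : 0 ≤ κ) (h1 : κ ≤ 1 / 10) {Z : ℂ} (hZ : ‖Z‖ ≤ 5 / 4) :
    DD κ Z ≠ 0 := by
  intro h
  have h2 := E08_DD h0 h1 hZ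
  rw [h, zero_sub, norm_neg, norm_one] at h2
  norm_num at h2


theorem E08_WW {κ : ℝ} (h0 : 0 ≤ κ) (h1 : κ ≤ 1 / 10) {Z : ℂ} (hZ : ‖Z‖ ≤ 5 / 4) :
    ‖WW κ Z - Z‖ ≤ 1 / 40 := by
  have h2 := E08_DD h0 h1 hZ
  have h3 := E03_NN h0 h1 hZ
  have h4 := E08_ne h0 h1 hZ
  have h5 : 59 / 60 ≤ ‖DD κ Z‖ := by
    have h6 : ‖(1 : ℂ)‖ ≤ ‖DD κ Z‖ + ‖DD κ Z - 1‖ := by
      have h7 : (1 : ℂ) = DD κ Z - (DD κ Z - 1) := by ring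
      conv_lhs => rw [h7]
      exact norm_sub_le _ _
    rw [norm_one] at h6
    linarith
  have h8 : WW κ Z - Z = ((NN κ Z - Z) - Z * (DD κ Z - 1)) / DD κ Z := by
    unfold WW
    field_simp
    ring
  rw [h8, norm_div, div_le_iff₀ (norm_pos_iff.2 h4)]
  have h9 : ‖(NN κ Z - Z) - Z * (DD κ Z - 1)‖ ≤ 1 / 200000 + 5 / 4 * (1 / 60) := by
    refine (norm_sub_le _ _).trans (add_le_add h3 ?_)
    rw [norm_mul]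
    exact mul_le_mul hZ h2 (norm_nonneg _) (by norm_num)
  refine h9.trans ?_
  calc (1 : ℝ) / 200000 + 5 / 4 * (1 / 60) ≤ 1 / 40 * (59 / 60) := by norm_num
    _ ≤ 1 / 40 * ‖DD κ Z‖ := mul_le_mul_of_nonneg_left h5 (by norm_num)


theorem E08_EWd {κ : ℝ} (h0 : 0 ≤ κ) (h1 : κ ≤ 1 / 10) {Z : ℂ} (hZ : ‖Z‖ ≤ 5 / 4) :
    ‖EWd κ Z - 1‖ ≤ 1 / 16 := by
  have h2 := E08_DD h0 h1 hZ
  have h3 := E03_NN h0 h1 hZ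
  have h4 := E08_ne h0 h1 hZ
  have hE := E03_ENd h0 h1 hZ
  have hD := E03_EDd h0 h1 hZ
  have hk := E01_sq h0 h1
  have h5 : 59 / 60 ≤ ‖DD κ Z‖ := by
    have h6 : ‖(1 : ℂ)‖ ≤ ‖DD κ Z‖ + ‖DD κ Z - 1‖ := by
      have h7 : (1 : ℂ) = DD κ Z - (DD κ Z - 1) := by ring
      conv_lhs => rw [h7]
      exact norm_sub_le _ _
    rw [norm_one] at h6
    linarith
  have h5' : ‖DD κ Z‖ ≤ 61 / 60 := by
    have h7 : DD κ Z = 1 + (DD κ Z - 1) := by ring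
    rw [h7]
    refine (norm_add_le _ _).trans ?_
    rw [norm_one]
    linarith
  have h8 : EWd κ Z - 1 = (DD κ Z * ((ENd κ Z - 1) - (DD κ Z - 1)) - NN κ Z * EDd κ Z) / DD κ Z ^ 2 := by
    unfold EWd
    field_simp
    ring
  have hN : ‖NN κ Z‖ ≤ 1 / 200000 + 5 / 4 := by
    have h7 : NN κ Z = (NN κ Z - Z) + Z := by ring
    rw [h7]
    exact (norm_add_le _ _).trans (add_le_add h3 hZ)
  have hD2 : ‖EDd κ Z‖ ≤ 1 / 10 ^ 10 + 2 * (1 / 100) * (5 / 4) := by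
    have h7 : EDd κ Z = (EDd κ Z - 2 * (κ : ℂ) ^ 2 * Z) + 2 * (κ : ℂ) ^ 2 * Z := by ring
    rw [h7]
    refine (norm_add_le _ _).trans (add_le_add hD ?_)
    rw [norm_mul, norm_mul, Complex.norm_ofNat]
    refine mul_le_mul ?_ hZ (norm_nonneg _) (by norm_num)
    linarith
  have hX : ‖DD κ Z * ((ENd κ Z - 1) - (DD κ Z - 1))‖ ≤ 61 / 60 * (1 / 50000 + 1 / 60) := by
    rw [norm_mul]
    refine mul_le_mul h5' ?_ (norm_nonneg _) (by norm_num)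
    exact (norm_sub_le _ _).trans (add_le_add hE h2)
  have hY : ‖NN κ Z * EDd κ Z‖ ≤ (1 / 200000 + 5 / 4) * (1 / 10 ^ 10 + 2 * (1 / 100) * (5 / 4)) := by
    rw [norm_mul]
    exact mul_le_mul hN hD2 (norm_nonneg _) (by norm_num)
  have hsq : (59 / 60 : ℝ) ^ 2 ≤ ‖DD κ Z‖ ^ 2 := pow_le_pow_left₀ (by norm_num) h5 2
  rw [h8, norm_div, norm_pow, div_le_iff₀ (by positivity)]
  refine (norm_sub_le _ _).trans ((add_le_add hX hY).trans ?_)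
  calc (61 / 60 * (1 / 50000 + 1 / 60) + (1 / 200000 + 5 / 4) * (1 / 10 ^ 10 + 2 * (1 / 100) * (5 / 4)) : ℝ) ≤ 1 / 16 * (59 / 60) ^ 2 := by norm_num
    _ ≤ 1 / 16 * ‖DD κ Z‖ ^ 2 := mul_le_mul_of_nonneg_left hsq (by norm_num)


theorem E08_hasDerivAt {κ : ℝ} (h0 : 0 ≤ κ) (h1 : κ ≤ 1 / 10) {Z : ℂ} (hZ : ‖Z‖ < 5 / 4) :
    HasDerivAt (WW κ) (EWd κ Z) Z := by
  exact (E04_NN h0 h1 hZ).div (E04_DD h0 h1 hZ) (E08_ne h0 h1 hZ.le)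


theorem E08_lip {κ : ℝ} (h0 : 0 ≤ κ) (h1 : κ ≤ 1 / 10) {Z Z' : ℂ} (hZ : ‖Z‖ < 5 / 4)
    (hZ' : ‖Z'‖ < 5 / 4) : ‖(WW κ Z - WW κ Z') - (Z - Z')‖ ≤ 1 / 16 * ‖Z - Z'‖ := by
  have hconv : Convex ℝ (Metric.ball (0 : ℂ) (5 / 4)) := convex_ball _ _
  have h2 : ∀ z ∈ Metric.ball (0 : ℂ) (5 / 4), HasDerivWithinAt (fun z => WW κ z - z) (EWd κ z - 1) (Metric.ball (0 : ℂ) (5 / 4)) z := by
    intro z hz
    rw [mem_ball_zero_iff] at hz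
    exact ((E08_hasDerivAt h0 h1 hz).sub (hasDerivAt_id z)).hasDerivWithinAt
  have h3 : ∀ z ∈ Metric.ball (0 : ℂ) (5 / 4), ‖EWd κ z - 1‖ ≤ 1 / 16 := by
    intro z hz
    rw [mem_ball_zero_iff] at hz
    exact E08_EWd h0 h1 hz.le
  have h4 := hconv.norm_image_sub_le_of_norm_hasDerivWithin_le h2 h3 (mem_ball_zero_iff.2 hZ') (mem_ball_zero_iff.2 hZ)
  have h5 : (WW κ Z - WW κ Z') - (Z - Z') = (WW κ Z - Z) - (WW κ Z' - Z') := by ring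
  rw [h5]
  exact h4


theorem E08_inj {κ : ℝ} (h0 : 0 ≤ κ) (h1 : κ ≤ 1 / 10) {Z Z' : ℂ} (hZ : ‖Z‖ < 5 / 4)
    (hZ' : ‖Z'‖ < 5 / 4) (h : WW κ Z = WW κ Z') : Z = Z' := by
  have h2 := E08_lip h0 h1 hZ hZ'
  rw [h, sub_self, zero_sub, norm_neg] at h2
  have h3 := norm_nonneg (Z - Z')
  have h4 : ‖Z - Z'‖ = 0 := by linarith
  exact sub_eq_zero.1 (norm_eq_zero.1 h4)


end Pool.Agent.Lib.H11Q
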