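import Pool.Agent.Lib.H11Q.E07
import Pool.Agent.Lib.H11Q.E08

/-! # H11Q chunk E10 (M): the inverse function `Zi` on the disc of radius `11/10`.

PROOFS (`0 ≤ κ ≤ 1/10`, `‖w‖ ≤ 11/10`).
* `E10_exists`: `Φ(Z) = w + Z - WW κ Z` maps the closed ball of radius `6/5` into itself
  (`‖w‖ + 1/40 ≤ 11/10 + 1/40 ≤ 6/5`, `E08_WW`) and is a contraction with constant `1/16` (`E08_lip`): Banach fixed point theorem
  on the complete closed ball (`ContractingWith.exists_fixedPoint'`, or on the subtype); `Z = w + Z - WW Z` gives `WW Z = w`.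
* `E10_spec`: `Zi κ w = Function.invFunOn (WW κ) (closedBall 0 (6/5)) w`: `Function.invFunOn_mem`, `Function.invFunOn_eq`.
* `E10_WW`: uniqueness `E08_inj` (`6/5 < 5/4`).
* `E10_sub`: `‖Zi - w‖ = ‖Zi - WW (Zi)‖ ≤ 1/40` (`E08_WW`).
* `E10_lip`: `w = WW Zi`, so `‖(w - w') - (Zi - Zi')‖ ≤ (1/16) ‖Zi - Zi'‖`, hence `‖Zi - Zi'‖ ≤ (16/15) ‖w - w'‖`. -/

set_option autoImplicit false

namespace Pool.Agent.Lib.H11Q

open Complex Set Metric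

theorem E10_exists {κ : ℝ} (h0 : 0 ≤ κ) (h1 : κ ≤ 1 / 10) {w : ℂ} (hw : ‖w‖ ≤ 11 / 10) :
    ∃ Z : ℂ, ‖Z‖ ≤ 6 / 5 ∧ WW κ Z = w := by
  have hmaps : MapsTo (fun Z => w + (Z - WW κ Z)) (closedBall (0 : ℂ) (6 / 5)) (closedBall (0 : ℂ) (6 / 5)) := by
    intro Z hZ
    rw [mem_closedBall_zero_iff] at hZ ⊢
    have h := E08_WW h0 h1 (Z := Z) (by linarith)
    rw [norm_sub_rev] at h
    calc ‖w + (Z - WW κ Z)‖ ≤ ‖w‖ + ‖Z - WW κ Z‖ := norm_add_le _ _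
      _ ≤ 6 / 5 := by linarith
  have hcontr : ContractingWith (1 / 16 : NNReal) (hmaps.restrict _ _ _) := by
    refine ⟨?_, ?_⟩
    · rw [div_lt_one (by norm_num)]
      norm_num
    · refine LipschitzWith.of_dist_le_mul (fun x y => ?_)
      have hx : ‖(x : ℂ)‖ < 5 / 4 := by
        have := x.2
        rw [mem_closedBall_zero_iff] at this
        linarith
      have hy : ‖(y : ℂ)‖ < 5 / 4 := by
        have := y.2
        rw [mem_closedBall_zero_iff] at this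
        linarith
      have h := E08_lip h0 h1 hx hy
      rw [Subtype.dist_eq, Subtype.dist_eq, dist_eq_norm, dist_eq_norm]
      show ‖w + ((x : ℂ) - WW κ x) - (w + ((y : ℂ) - WW κ y))‖ ≤ ((1 / 16 : NNReal) : ℝ) * ‖(x : ℂ) - y‖
      have he : w + ((x : ℂ) - WW κ x) - (w + ((y : ℂ) - WW κ y)) =
          -((WW κ x - WW κ y) - ((x : ℂ) - y)) := by ring
      rw [he, norm_neg]
      refine h.trans (le_of_eq ?_)
      push_cast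
      rfl
  obtain ⟨Z, hZ, hfix, -⟩ := ContractingWith.exists_fixedPoint' (isClosed_closedBall.isComplete) hmaps hcontr
    (x := 0) (mem_closedBall_self (by norm_num)) (edist_ne_top _ _)
  refine ⟨Z, by simpa using hZ, ?_⟩
  have h : w + (Z - WW κ Z) = Z := hfix
  linear_combination -h

theorem E10_spec {κ : ℝ} (h0 : 0 ≤ κ) (h1 : κ ≤ 1 / 10) {w : ℂ} (hw : ‖w‖ ≤ 11 / 10) :
    ‖Zi κ w‖ ≤ 6 / 5 ∧ WW κ (Zi κ w) = w := by
  obtain ⟨Z, hZ, hWZ⟩ := E10_exists h0 h1 hw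
  have h : ∃ a ∈ closedBall (0 : ℂ) (6 / 5), WW κ a = w := ⟨Z, by simpa using hZ, hWZ⟩
  have h2 := Function.invFunOn_mem h
  have h3 := Function.invFunOn_eq h
  exact ⟨mem_closedBall_zero_iff.mp h2, h3⟩

theorem E10_WW {κ : ℝ} (h0 : 0 ≤ κ) (h1 : κ ≤ 1 / 10) {Z : ℂ} (hZ : ‖Z‖ < 5 / 4)
    (hw : ‖WW κ Z‖ ≤ 11 / 10) : Zi κ (WW κ Z) = Z := by
  obtain ⟨h2, h3⟩ := E10_spec h0 h1 hw
  exact E08_inj h0 h1 (by linarith) hZ h3

theorem E10_sub {κ : ℝ} (h0 : 0 ≤ κ) (h1 : κ ≤ 1 / 10) {w : ℂ} (hw : ‖w‖ ≤ 11 / 10) :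
    ‖Zi κ w - w‖ ≤ 1 / 40 := by
  obtain ⟨h2, h3⟩ := E10_spec h0 h1 hw
  have h := E08_WW h0 h1 (Z := Zi κ w) (by linarith)
  rw [h3, norm_sub_rev] at h
  exact h

theorem E10_lip {κ : ℝ} (h0 : 0 ≤ κ) (h1 : κ ≤ 1 / 10) {w w' : ℂ} (hw : ‖w‖ ≤ 11 / 10)
    (hw' : ‖w'‖ ≤ 11 / 10) : ‖Zi κ w - Zi κ w'‖ ≤ 16 / 15 * ‖w - w'‖ := by
  obtain ⟨h2, h3⟩ := E10_spec h0 h1 hw
  obtain ⟨h2', h3'⟩ := E10_spec h0 h1 hw'
  have h := E08_lip h0 h1 (Z := Zi κ w) (Z' := Zi κ w') (by linarith) (by linarith)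
  rw [h3, h3'] at h
  have h4 : ‖Zi κ w - Zi κ w'‖ ≤ ‖w - w'‖ + ‖(w - w') - (Zi κ w - Zi κ w')‖ := by
    have : Zi κ w - Zi κ w' = (w - w') - ((w - w') - (Zi κ w - Zi κ w')) := by ring
    calc ‖Zi κ w - Zi κ w'‖ = ‖(w - w') - ((w - w') - (Zi κ w - Zi κ w'))‖ := by rw [← this]
      _ ≤ _ := norm_sub_le _ _
  linarith

end Pool.Agent.Lib.H11Q
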