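import Pool.Agent.Lib.H11Q.E09
import Pool.Agent.Lib.H11Q.E10

/-! # H11Q chunk E11 (S/M): derivative, joint continuity and symmetries of the inverse `Zi`.

PROOFS (`0 ≤ κ ≤ 1/10`, `‖w‖ ≤ 11/10`).
* `E11_hasDerivAt`: `HasDerivAt.of_local_left_inverse` (continuity from `E10_lip`, `WW κ (Zi κ w') = w'` near `w`,
  `E08_hasDerivAt` at `Zi κ w`, `EWd ≠ 0` from `E08_EWd`), derivative `(EWd κ (Zi κ w))⁻¹`.
* `E11_cont`: `Zi(κ,w) - Zi(κ₁,w₁)`: by `E08_lip` at `κ`, `‖Zi - Zi₁‖ ≤ (16/15)‖WW κ Zi - WW κ Zi₁‖ =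
  (16/15)‖w - WW κ Zi₁‖ ≤ (16/15)(‖w - w₁‖ + ‖WW κ₁ Zi₁ - WW κ Zi₁‖)` and `κ ↦ WW κ Zi₁` is continuous on `[0, 1/10]` (`E09_WW`).
* `E11_neg`, `E11_conj`, `E11_zero`: uniqueness (`E10_WW`) and `E07_WW_neg`, `E07_WW_conj`. -/

set_option autoImplicit false

namespace Pool.Agent.Lib.H11Q

open Complex Set Metric
open scoped ComplexConjugate

theorem E11_hasDerivAt {κ : ℝ} (h0 : 0 ≤ κ) (h1 : κ ≤ 1 / 10) {w : ℂ} (hw : ‖w‖ < 11 / 10) :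
    HasDerivAt (Zi κ) (EWd κ (Zi κ w))⁻¹ w := by
  have h2 := E10_spec h0 h1 hw.le
  have hZ : ‖Zi κ w‖ < 5 / 4 := lt_of_le_of_lt h2.1 (by norm_num)
  have hnb : {w' : ℂ | ‖w'‖ < 11 / 10} ∈ nhds w := (isOpen_lt continuous_norm continuous_const).mem_nhds hw
  have hc : ContinuousAt (Zi κ) w := by
    rw [ContinuousAt, tendsto_iff_norm_sub_tendsto_zero]
    have hb : Filter.Tendsto (fun w' : ℂ => 16 / 15 * ‖w' - w‖) (nhds w) (nhds 0) := by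
      have : Continuous fun w' : ℂ => 16 / 15 * ‖w' - w‖ := by fun_prop
      have h3 := this.tendsto w
      simpa using h3
    refine squeeze_zero' (Filter.Eventually.of_forall fun _ => norm_nonneg _) ?_ hb
    filter_upwards [hnb] with w' hw'
    exact E10_lip h0 h1 (le_of_lt hw') hw.le
  have hne : EWd κ (Zi κ w) ≠ 0 := by
    intro h3
    have h4 := E08_EWd h0 h1 hZ.le
    rw [h3, zero_sub, norm_neg, norm_one] at h4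
    norm_num at h4
  refine HasDerivAt.of_local_left_inverse hc (E08_hasDerivAt h0 h1 hZ) hne ?_
  filter_upwards [hnb] with w' hw'
  exact (E10_spec h0 h1 (le_of_lt hw')).2

theorem E11_cont : ContinuousOn (fun p : ℝ × ℂ => Zi p.1 p.2)
    (Icc (0 : ℝ) (1 / 10) ×ˢ closedBall (0 : ℂ) (11 / 10)) := by
  intro p₁ hp₁
  obtain ⟨hκ₁, hw₁⟩ := hp₁
  have hw₁' : ‖p₁.2‖ ≤ 11 / 10 := by simpa using hw₁
  have hs₁ := E10_spec hκ₁.1 hκ₁.2 hw₁'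
  have hZ₁ : ‖Zi p₁.1 p₁.2‖ < 5 / 4 := lt_of_le_of_lt hs₁.1 (by norm_num)
  have hg : ContinuousOn (fun p : ℝ × ℂ => WW p.1 (Zi p₁.1 p₁.2))
      (Icc (0 : ℝ) (1 / 10) ×ˢ closedBall (0 : ℂ) (11 / 10)) := by
    refine E09_WW.comp (f := fun p : ℝ × ℂ => (p.1, Zi p₁.1 p₁.2)) (by fun_prop) ?_
    intro p hp
    exact ⟨hp.1, by simpa using hZ₁.le⟩
  have hb : ContinuousWithinAt (fun p : ℝ × ℂ => 16 / 15 * (‖p.2 - p₁.2‖ +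
      ‖WW p₁.1 (Zi p₁.1 p₁.2) - WW p.1 (Zi p₁.1 p₁.2)‖))
      (Icc (0 : ℝ) (1 / 10) ×ˢ closedBall (0 : ℂ) (11 / 10)) p₁ := by
    refine continuousWithinAt_const.mul (ContinuousWithinAt.add ?_ ?_)
    · exact (Continuous.continuousWithinAt (by fun_prop))
    · exact (continuousWithinAt_const.sub (hg p₁ ⟨hκ₁, hw₁⟩)).norm
  have hb' : Filter.Tendsto (fun p : ℝ × ℂ => 16 / 15 * (‖p.2 - p₁.2‖ +
      ‖WW p₁.1 (Zi p₁.1 p₁.2) - WW p.1 (Zi p₁.1 p₁.2)‖))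
      (nhdsWithin p₁ (Icc (0 : ℝ) (1 / 10) ×ˢ closedBall (0 : ℂ) (11 / 10))) (nhds 0) := by
    have h3 := hb.tendsto
    simpa using h3
  rw [ContinuousWithinAt, tendsto_iff_norm_sub_tendsto_zero]
  refine squeeze_zero' (Filter.Eventually.of_forall fun _ => norm_nonneg _) ?_ hb'
  filter_upwards [self_mem_nhdsWithin] with p hp
  obtain ⟨hκ, hw⟩ := hp
  have hw' : ‖p.2‖ ≤ 11 / 10 := by simpa using hw
  have hs := E10_spec hκ.1 hκ.2 hw'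
  have hZ : ‖Zi p.1 p.2‖ < 5 / 4 := lt_of_le_of_lt hs.1 (by norm_num)
  have h4 := E08_lip hκ.1 hκ.2 hZ hZ₁
  rw [hs.2] at h4
  have h5 : ‖Zi p.1 p.2 - Zi p₁.1 p₁.2‖ ≤ ‖p.2 - WW p.1 (Zi p₁.1 p₁.2)‖ +
      1 / 16 * ‖Zi p.1 p.2 - Zi p₁.1 p₁.2‖ := by
    have h6 : Zi p.1 p.2 - Zi p₁.1 p₁.2 = (p.2 - WW p.1 (Zi p₁.1 p₁.2)) -
      ((p.2 - WW p.1 (Zi p₁.1 p₁.2)) - (Zi p.1 p.2 - Zi p₁.1 p₁.2)) := by ring
    calc ‖Zi p.1 p.2 - Zi p₁.1 p₁.2‖ = ‖(p.2 - WW p.1 (Zi p₁.1 p₁.2)) -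
      ((p.2 - WW p.1 (Zi p₁.1 p₁.2)) - (Zi p.1 p.2 - Zi p₁.1 p₁.2))‖ := by rw [← h6]
      _ ≤ _ := (norm_sub_le _ _).trans (add_le_add le_rfl h4)
  have h7 : ‖p.2 - WW p.1 (Zi p₁.1 p₁.2)‖ ≤ ‖p.2 - p₁.2‖ + ‖WW p₁.1 (Zi p₁.1 p₁.2) - WW p.1 (Zi p₁.1 p₁.2)‖ := by
    rw [hs₁.2]
    have h8 : p.2 - WW p.1 (Zi p₁.1 p₁.2) = (p.2 - p₁.2) + (p₁.2 - WW p.1 (Zi p₁.1 p₁.2)) := by ring
    rw [h8]
    exact norm_add_le _ _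
  linarith

theorem E11_neg {κ : ℝ} (h0 : 0 ≤ κ) (h1 : κ ≤ 1 / 10) {w : ℂ} (hw : ‖w‖ ≤ 11 / 10) :
    Zi κ (-w) = -Zi κ w := by
  have hs := E10_spec h0 h1 hw
  have hZ : ‖-Zi κ w‖ < 5 / 4 := by
    rw [norm_neg]
    exact lt_of_le_of_lt hs.1 (by norm_num)
  have h2 : WW κ (-Zi κ w) = -w := by rw [E07_WW_neg, hs.2]
  have h3 := E10_WW h0 h1 hZ (by rw [h2, norm_neg]; exact hw)
  rw [h2] at h3
  exact h3

theorem E11_conj {κ : ℝ} (h0 : 0 ≤ κ) (h1 : κ ≤ 1 / 10) {w : ℂ} (hw : ‖w‖ ≤ 11 / 10) :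
    Zi κ (conj w) = conj (Zi κ w) := by
  have hs := E10_spec h0 h1 hw
  have hZ : ‖conj (Zi κ w)‖ < 5 / 4 := by
    rw [Complex.norm_conj]
    exact lt_of_le_of_lt hs.1 (by norm_num)
  have h2 : WW κ (conj (Zi κ w)) = conj w := by rw [E07_WW_conj, hs.2]
  have h3 := E10_WW h0 h1 hZ (by rw [h2, Complex.norm_conj]; exact hw)
  rw [h2] at h3
  exact h3

theorem E11_zero {κ : ℝ} (h0 : 0 ≤ κ) (h1 : κ ≤ 1 / 10) : Zi κ 0 = 0 := by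
  have h2 := E11_neg h0 h1 (w := 0) (by rw [norm_zero]; norm_num)
  rw [neg_zero] at h2
  have h3 : (2 : ℂ) * Zi κ 0 = 0 := by linear_combination h2
  exact (mul_eq_zero.1 h3).resolve_left two_ne_zero

end Pool.Agent.Lib.H11Q
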