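import Pool.Agent.Lib.H11Q.E03
import Pool.Agent.Lib.H11Q.E11
import Pool.Agent.Lib.H11Q.E19

/-! # H11Q chunk E20 (S/M): precise approximation of `WW` and of its derivative for small `κ` (for module N).

PROOFS.  For `0 ≤ κ ≤ 1/10`, `‖Z‖ ≤ 5/4`.
* `E20_W`: with `q = 1 + κ²(Z² - 2κ²)`: `Z - WW q = Z - WW DD + WW (DD - q) = (Z - NN) + WW (DD - q)`; a sharper bound of
  `NN - Z` is needed: `‖NN κ Z - Z‖ ≤ κ^6 (‖Z‖³ + 3κ²‖Z‖) + 10^-18 ≤ 3 κ^6` : first term `κ^6 P_3 = κ^6 (Z³ - 3κ² Z)`,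
  `‖Z‖³ + 3κ²‖Z‖ ≤ 1.96 + 0.04 = 2`, rest `∑_{n≥2} κ^(2n(2n+1)) 2 r^(2n+1) ≤ κ^6 · 1/2` (since `2n(2n+1) - 6 ≥ 14`); and
  `‖DD - q‖ ≤ κ^6·(1/10)` (first term `κ^12 P_4`), `‖WW‖ ≤ 1.3`.  Total `≤ 3 κ^6`.
* `E20_Zi`: apply it to `Z = Zi κ w`.
* `E20_ENd`: `‖ENd κ Z - 1‖ ≤ 8 κ^6`: first term `κ^6 P_3' = κ^6 (3Z² - 3κ²)`, norm `≤ κ^6 (4.7 + 0.03)`, rest `≤ κ^6`.
* `E20_EDd`: `‖EDd κ Z - 2κ²Z‖ ≤ κ^6`: first term of the rest `κ^12 P_4'`. -/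

set_option autoImplicit false

namespace Pool.Agent.Lib.H11Q

open Complex

theorem e20_tail1 {f : ℕ → ℂ} (hs : Summable f) {B q : ℝ} (hq0 : 0 ≤ q) (hq1 : q < 1)
    (h : ∀ n, ‖f (n + 1)‖ ≤ B * q ^ n) : ‖∑' n, f n - f 0‖ ≤ B * (1 - q)⁻¹ := by
  have h1 : ∑' n, f n - f 0 = ∑' n, f (n + 1) := by
    rw [hs.tsum_eq_zero_add]
    ring
  rw [h1]
  exact tsum_of_norm_bounded ((hasSum_geometric_of_lt_one hq0 hq1).mul_left B) h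

theorem e20_tail2 {f : ℕ → ℂ} (hs : Summable f) {A B q : ℝ} (hq0 : 0 ≤ q) (hq1 : q < 1)
    (h1 : ‖f 1‖ ≤ A) (h : ∀ n, ‖f (n + 2)‖ ≤ B * q ^ n) :
    ‖∑' n, f n - f 0‖ ≤ A + B * (1 - q)⁻¹ := by
  have hs' : Summable (fun n => f (n + 1)) := (summable_nat_add_iff 1).mpr hs
  have h2 := e20_tail1 hs' hq0 hq1 h
  have h3 : ∑' n, f n - f 0 = f 1 + (∑' n, f (n + 1) - f (0 + 1)) := by
    rw [hs.tsum_eq_zero_add]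
    simp
  rw [h3]
  exact (norm_add_le _ _).trans (add_le_add h1 h2)

theorem e20_k {κ : ℝ} (h0 : 0 ≤ κ) (h1 : κ ≤ 1 / 10) {n m : ℕ} (h : 6 + n ≤ m) :
    κ ^ m ≤ κ ^ 6 * (1 / 10 : ℝ) ^ n := by
  calc κ ^ m ≤ κ ^ (6 + n) := pow_le_pow_of_le_one h0 (by linarith) h
    _ = κ ^ 6 * κ ^ n := pow_add _ _ _
    _ ≤ κ ^ 6 * (1 / 10 : ℝ) ^ n := by gcongr

theorem e20_nk {κ : ℝ} (h0 : 0 ≤ κ) (m : ℕ) (z : ℂ) : ‖(κ : ℂ) ^ m * z‖ = κ ^ m * ‖z‖ := by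
  rw [norm_mul, norm_pow, Complex.norm_real, Real.norm_eq_abs, abs_of_nonneg h0]

theorem e20_Z2 {Z : ℂ} (hZ : ‖Z‖ ≤ 5 / 4) : ‖Z‖ ^ 2 ≤ 25 / 16 := by
  nlinarith [norm_nonneg Z]

theorem e20_NN {κ : ℝ} (h0 : 0 ≤ κ) (h1 : κ ≤ 1 / 10) {Z : ℂ} (hZ : ‖Z‖ ≤ 5 / 4) :
    ‖NN κ Z - Z‖ ≤ 5 / 2 * κ ^ 6 := by
  have hZn := norm_nonneg Z
  have h6 : 0 ≤ κ ^ 6 := by positivity
  have hf1 : ‖(κ : ℂ) ^ (2 * 1 * (2 * 1 + 1)) * PP (2 * 1 + 1) κ Z‖ ≤ 2 * κ ^ 6 := by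
    rw [e20_nk h0]
    have hP : PP (2 * 1 + 1) κ Z = Z * (Z ^ 2 - 3 * (κ : ℂ) ^ 2) := by
      simp only [PP]
      ring
    have hb : ‖PP (2 * 1 + 1) κ Z‖ ≤ 2 := by
      rw [hP, norm_mul]
      have hb2 : ‖Z ^ 2 - 3 * (κ : ℂ) ^ 2‖ ≤ 25 / 16 + 3 / 100 := by
        refine (norm_sub_le _ _).trans (add_le_add ?_ ?_)
        · rw [norm_pow]; exact e20_Z2 hZ
        · rw [norm_mul, norm_pow, Complex.norm_real, Real.norm_eq_abs, abs_of_nonneg h0,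
            Complex.norm_ofNat]
          nlinarith
      calc ‖Z‖ * ‖Z ^ 2 - 3 * (κ : ℂ) ^ 2‖ ≤ 5 / 4 * (25 / 16 + 3 / 100) :=
            mul_le_mul hZ hb2 (norm_nonneg _) (by norm_num)
        _ ≤ 2 := by norm_num
    show κ ^ 6 * ‖PP (2 * 1 + 1) κ Z‖ ≤ 2 * κ ^ 6
    nlinarith
  have ht : ∀ n : ℕ, ‖(κ : ℂ) ^ (2 * (n + 2) * (2 * (n + 2) + 1)) * PP (2 * (n + 2) + 1) κ Z‖ ≤
      (κ ^ 6 * (1 / 100) * (2 * (63 / 50) ^ 5)) * ((1 / 10) * (63 / 50 : ℝ) ^ 2) ^ n := by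
    intro n
    rw [e20_nk h0]
    have hk : κ ^ (2 * (n + 2) * (2 * (n + 2) + 1)) ≤ κ ^ 6 * (1 / 10 : ℝ) ^ (2 + n) :=
      e20_k h0 h1 (by nlinarith)
    calc κ ^ (2 * (n + 2) * (2 * (n + 2) + 1)) * ‖PP (2 * (n + 2) + 1) κ Z‖
        ≤ (κ ^ 6 * (1 / 10 : ℝ) ^ (2 + n)) * (2 * (63 / 50 : ℝ) ^ (2 * (n + 2) + 1)) :=
          mul_le_mul hk (E01_bound h0 h1 hZ _) (norm_nonneg _) (by positivity)
      _ = (κ ^ 6 * (1 / 100) * (2 * (63 / 50) ^ 5)) * ((1 / 10) * (63 / 50 : ℝ) ^ 2) ^ n := by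
          rw [mul_pow, ← pow_mul, show 2 * (n + 2) + 1 = 5 + 2 * n by ring, pow_add, pow_add]
          ring
  have h := e20_tail2 (E03_sum_NN h0 h1 hZ).of_norm (by norm_num) (by norm_num) hf1 ht
  have hz : (κ : ℂ) ^ (2 * 0 * (2 * 0 + 1)) * PP (2 * 0 + 1) κ Z = Z := by simp [PP]
  rw [hz] at h
  refine le_trans h ?_
  norm_num
  nlinarith

theorem E20_ENd {κ : ℝ} (h0 : 0 ≤ κ) (h1 : κ ≤ 1 / 10) {Z : ℂ} (hZ : ‖Z‖ ≤ 5 / 4) :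
    ‖ENd κ Z - 1‖ ≤ 8 * κ ^ 6 := by
  have hZn := norm_nonneg Z
  have h6 : 0 ≤ κ ^ 6 := by positivity
  have hf1 : ‖(κ : ℂ) ^ (2 * 1 * (2 * 1 + 1)) * EPd (2 * 1 + 1) κ Z‖ ≤ 5 * κ ^ 6 := by
    rw [e20_nk h0]
    have hP : EPd (2 * 1 + 1) κ Z = 3 * Z ^ 2 - 3 * (κ : ℂ) ^ 2 := by
      simp only [mul_one, EPd, PP]
      ring
    have hb : ‖EPd (2 * 1 + 1) κ Z‖ ≤ 5 := by
      rw [hP]
      refine (norm_sub_le _ _).trans ?_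
      rw [norm_mul, norm_mul, norm_pow, norm_pow, Complex.norm_real, Real.norm_eq_abs,
        abs_of_nonneg h0, Complex.norm_ofNat]
      have := e20_Z2 hZ
      nlinarith
    show κ ^ 6 * ‖EPd (2 * 1 + 1) κ Z‖ ≤ 5 * κ ^ 6
    nlinarith
  have ht : ∀ n : ℕ, ‖(κ : ℂ) ^ (2 * (n + 2) * (2 * (n + 2) + 1)) * EPd (2 * (n + 2) + 1) κ Z‖ ≤
      (κ ^ 6 * (1 / 100) * (10 * (63 / 50) ^ 5)) * (3 * ((1 / 10) * (63 / 50 : ℝ) ^ 2)) ^ n := by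
    intro n
    rw [e20_nk h0]
    have hk : κ ^ (2 * (n + 2) * (2 * (n + 2) + 1)) ≤ κ ^ 6 * (1 / 10 : ℝ) ^ (2 + n) :=
      e20_k h0 h1 (by nlinarith)
    have hb := E01_bound_d h0 h1 hZ (2 * (n + 2) + 1)
    have hb' : ‖EPd (2 * (n + 2) + 1) κ Z‖ ≤ 2 * (5 * 3 ^ n) * (63 / 50 : ℝ) ^ (2 * (n + 2) + 1) := by
      refine hb.trans ?_
      have h3 := e03_three n
      have h4 : ((2 * (n + 2) + 1 : ℕ) : ℝ) ≤ 5 * 3 ^ n := by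
        push_cast
        have h5 : (0 : ℝ) ≤ n := Nat.cast_nonneg n
        linarith
      gcongr
    calc κ ^ (2 * (n + 2) * (2 * (n + 2) + 1)) * ‖EPd (2 * (n + 2) + 1) κ Z‖
        ≤ (κ ^ 6 * (1 / 10 : ℝ) ^ (2 + n)) * (2 * (5 * 3 ^ n) * (63 / 50 : ℝ) ^ (2 * (n + 2) + 1)) :=
          mul_le_mul hk hb' (norm_nonneg _) (by positivity)
      _ = (κ ^ 6 * (1 / 100) * (10 * (63 / 50) ^ 5)) * (3 * ((1 / 10) * (63 / 50 : ℝ) ^ 2)) ^ n := by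
          rw [mul_pow, mul_pow, ← pow_mul, show 2 * (n + 2) + 1 = 5 + 2 * n by ring, pow_add, pow_add]
          ring
  have h := e20_tail2 (E03_sum_ENd h0 h1 hZ).of_norm (by norm_num) (by norm_num) hf1 ht
  have hz : (κ : ℂ) ^ (2 * 0 * (2 * 0 + 1)) * EPd (2 * 0 + 1) κ Z = 1 := by simp [EPd]
  rw [hz] at h
  refine le_trans h ?_
  norm_num
  nlinarith

theorem E20_EDd {κ : ℝ} (h0 : 0 ≤ κ) (h1 : κ ≤ 1 / 10) {Z : ℂ} (hZ : ‖Z‖ ≤ 5 / 4) :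
    ‖EDd κ Z - 2 * (κ : ℂ) ^ 2 * Z‖ ≤ κ ^ 6 := by
  have h6 : 0 ≤ κ ^ 6 := by positivity
  have ht : ∀ n : ℕ, ‖(κ : ℂ) ^ ((2 * (n + 1) + 2) * (2 * (n + 1) + 1)) *
      EPd (2 * (n + 1) + 2) κ Z‖ ≤
      (κ ^ 6 * (1 / 10) ^ 6 * (8 * (63 / 50) ^ 4)) * (2 * ((1 / 10) * (63 / 50 : ℝ) ^ 2)) ^ n := by
    intro n
    rw [e20_nk h0]
    have hk : κ ^ ((2 * (n + 1) + 2) * (2 * (n + 1) + 1)) ≤ κ ^ 6 * (1 / 10 : ℝ) ^ (6 + n) :=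
      e20_k h0 h1 (by nlinarith)
    have hb := E01_bound_d h0 h1 hZ (2 * (n + 1) + 2)
    have hb' : ‖EPd (2 * (n + 1) + 2) κ Z‖ ≤ 2 * (4 * 2 ^ n) * (63 / 50 : ℝ) ^ (2 * (n + 1) + 2) := by
      refine hb.trans ?_
      have h3 := e03_two n
      have h4 : ((2 * (n + 1) + 2 : ℕ) : ℝ) ≤ 4 * 2 ^ n := by
        push_cast
        have h5 : (0 : ℝ) ≤ n := Nat.cast_nonneg n
        linarith
      gcongr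
    calc κ ^ ((2 * (n + 1) + 2) * (2 * (n + 1) + 1)) * ‖EPd (2 * (n + 1) + 2) κ Z‖
        ≤ (κ ^ 6 * (1 / 10 : ℝ) ^ (6 + n)) * (2 * (4 * 2 ^ n) * (63 / 50 : ℝ) ^ (2 * (n + 1) + 2)) :=
          mul_le_mul hk hb' (norm_nonneg _) (by positivity)
      _ = (κ ^ 6 * (1 / 10) ^ 6 * (8 * (63 / 50) ^ 4)) * (2 * ((1 / 10) * (63 / 50 : ℝ) ^ 2)) ^ n := by
          rw [mul_pow, mul_pow, ← pow_mul, show 2 * (n + 1) + 2 = 4 + 2 * n by ring, pow_add, pow_add]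
          ring
  have h := e20_tail1 (f := fun n : ℕ => (κ : ℂ) ^ ((2 * n + 2) * (2 * n + 1)) * EPd (2 * n + 2) κ Z)
    (E03_sum_EDd h0 h1 hZ).of_norm (by norm_num) (by norm_num) ht
  have hz : (κ : ℂ) ^ ((2 * 0 + 2) * (2 * 0 + 1)) * EPd (2 * 0 + 2) κ Z =
      2 * (κ : ℂ) ^ 2 * Z := by
    simp only [mul_zero, zero_add, mul_one, EPd, PP]
    ring
  beta_reduce at h
  rw [hz] at h
  refine le_trans h ?_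
  norm_num
  nlinarith

theorem E20_DD {κ : ℝ} (h0 : 0 ≤ κ) (h1 : κ ≤ 1 / 10) {Z : ℂ} (hZ : ‖Z‖ ≤ 5 / 4) :
    ‖DD κ Z - (1 + (κ : ℂ) ^ 2 * (Z ^ 2 - 2 * (κ : ℂ) ^ 2))‖ ≤ κ ^ 6 / 10 := by
  have h6 : 0 ≤ κ ^ 6 := by positivity
  have ht : ∀ n : ℕ, ‖(κ : ℂ) ^ ((2 * (n + 1) + 2) * (2 * (n + 1) + 1)) *
      PP (2 * (n + 1) + 2) κ Z‖ ≤
      (κ ^ 6 * (1 / 10) ^ 6 * (2 * (63 / 50) ^ 4)) * ((1 / 10) * (63 / 50 : ℝ) ^ 2) ^ n := by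
    intro n
    rw [e20_nk h0]
    have hk : κ ^ ((2 * (n + 1) + 2) * (2 * (n + 1) + 1)) ≤ κ ^ 6 * (1 / 10 : ℝ) ^ (6 + n) :=
      e20_k h0 h1 (by nlinarith)
    calc κ ^ ((2 * (n + 1) + 2) * (2 * (n + 1) + 1)) * ‖PP (2 * (n + 1) + 2) κ Z‖
        ≤ (κ ^ 6 * (1 / 10 : ℝ) ^ (6 + n)) * (2 * (63 / 50 : ℝ) ^ (2 * (n + 1) + 2)) :=
          mul_le_mul hk (E01_bound h0 h1 hZ _) (norm_nonneg _) (by positivity)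
      _ = (κ ^ 6 * (1 / 10) ^ 6 * (2 * (63 / 50) ^ 4)) * ((1 / 10) * (63 / 50 : ℝ) ^ 2) ^ n := by
          rw [mul_pow, ← pow_mul, show 2 * (n + 1) + 2 = 4 + 2 * n by ring, pow_add, pow_add]
          ring
  have h := e20_tail1 (f := fun n : ℕ => (κ : ℂ) ^ ((2 * n + 2) * (2 * n + 1)) * PP (2 * n + 2) κ Z)
    (E03_sum_DD h0 h1 hZ).of_norm (by norm_num) (by norm_num) ht
  have hz : (κ : ℂ) ^ ((2 * 0 + 2) * (2 * 0 + 1)) * PP (2 * 0 + 2) κ Z =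
      (κ : ℂ) ^ 2 * (Z ^ 2 - 2 * (κ : ℂ) ^ 2) := by
    simp only [mul_zero, zero_add, mul_one, PP]
    ring
  have he : DD κ Z - (1 + (κ : ℂ) ^ 2 * (Z ^ 2 - 2 * (κ : ℂ) ^ 2)) =
      ∑' n : ℕ, (κ : ℂ) ^ ((2 * n + 2) * (2 * n + 1)) * PP (2 * n + 2) κ Z -
        (κ : ℂ) ^ 2 * (Z ^ 2 - 2 * (κ : ℂ) ^ 2) := by
    unfold DD
    ring
  beta_reduce at h
  rw [hz] at h
  rw [he]
  refine le_trans h ?_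
  norm_num
  nlinarith

theorem E20_W {κ : ℝ} (h0 : 0 ≤ κ) (h1 : κ ≤ 1 / 10) {Z : ℂ} (hZ : ‖Z‖ ≤ 5 / 4) :
    ‖Z - WW κ Z * (1 + (κ : ℂ) ^ 2 * (Z ^ 2 - 2 * (κ : ℂ) ^ 2))‖ ≤ 3 * κ ^ 6 := by
  have h6 : 0 ≤ κ ^ 6 := by positivity
  have hN := e20_NN h0 h1 hZ
  have hD := E20_DD h0 h1 hZ
  have hne := E08_ne h0 h1 hZ
  have hW : ‖WW κ Z‖ ≤ 51 / 40 := by
    have h2 := E08_WW h0 h1 hZ
    have h3 : WW κ Z = Z + (WW κ Z - Z) := by ring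
    rw [h3]
    exact (norm_add_le _ _).trans (by linarith)
  have hWD : WW κ Z * DD κ Z = NN κ Z := by
    unfold WW
    exact div_mul_cancel₀ _ hne
  have he : Z - WW κ Z * (1 + (κ : ℂ) ^ 2 * (Z ^ 2 - 2 * (κ : ℂ) ^ 2)) =
      -(NN κ Z - Z) + WW κ Z * (DD κ Z - (1 + (κ : ℂ) ^ 2 * (Z ^ 2 - 2 * (κ : ℂ) ^ 2))) := by
    linear_combination -hWD
  rw [he]
  refine (norm_add_le _ _).trans ?_
  rw [norm_neg, norm_mul]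
  have h4 : ‖WW κ Z‖ * ‖DD κ Z - (1 + (κ : ℂ) ^ 2 * (Z ^ 2 - 2 * (κ : ℂ) ^ 2))‖ ≤
      51 / 40 * (κ ^ 6 / 10) := mul_le_mul hW hD (norm_nonneg _) (by norm_num)
  linarith

theorem E20_Zi {κ : ℝ} (h0 : 0 ≤ κ) (h1 : κ ≤ 1 / 10) {w : ℂ} (hw : ‖w‖ ≤ 11 / 10) :
    ‖Zi κ w - w * (1 + (κ : ℂ) ^ 2 * (Zi κ w ^ 2 - 2 * (κ : ℂ) ^ 2))‖ ≤ 3 * κ ^ 6 := by
  obtain ⟨h2, h3⟩ := E10_spec h0 h1 hw
  have h := E20_W h0 h1 (Z := Zi κ w) (by linarith)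
  rw [h3] at h
  exact h

end Pool.Agent.Lib.H11Q
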