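import Pool.Agent.Lib.H11Q.E15
import Pool.Agent.Lib.H11Q.E19
import Pool.Agent.Lib.H11Q.E20

/-! # H11Q module E: the exported statements (section 6 of PROOF.md) -/

set_option autoImplicit false

namespace Pool.Agent.Lib.H11Q

open Complex Set MeasureTheory
open scoped ComplexConjugate Topology

theorem E_hol {κ : ℝ} (h0 : 0 ≤ κ) (h1 : κ ≤ 1 / 10) {Z : ℂ} (hZ : ‖Z‖ < 5 / 4) :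
    DifferentiableAt ℂ (WW κ) Z ∧ ‖deriv (WW κ) Z - 1‖ ≤ 1 / 2 := E09_hol h0 h1 hZ

theorem E_cont : ContinuousOn (fun p : ℝ × ℂ => WW p.1 p.2)
    (Icc 0 (1 / 10) ×ˢ Metric.ball (0 : ℂ) (5 / 4)) := E09_cont

theorem E_cont' : ContinuousOn (fun p : ℝ × ℂ => deriv (WW p.1) p.2)
    (Icc 0 (1 / 10) ×ˢ Metric.ball (0 : ℂ) (5 / 4)) := E09_cont'

theorem E_neg {κ : ℝ} (_h0 : 0 ≤ κ) (_h1 : κ ≤ 1 / 10) {Z : ℂ} (_hZ : ‖Z‖ < 5 / 4) :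
    WW κ (-Z) = -WW κ Z := E07_WW_neg κ Z

/-- interior and boundary -/
theorem E_beta_lt {κ : ℝ} (h0 : 0 ≤ κ) (h1 : κ ≤ 1 / 10) {ξ : ℂ} (h : ‖ξ‖ < 1) :
    ‖beta κ ξ‖ < 1 ∧ ‖beta' κ ξ‖ < 1 := E15_lt h0 h1 h

theorem E_beta_eq {κ : ℝ} (h0 : 0 ≤ κ) (h1 : κ ≤ 1 / 10) {ξ : ℂ} (h : ‖ξ‖ = 1) :
    ‖beta κ ξ‖ = 1 ∧ beta' κ ξ = beta κ ξ := E15_eq h0 h1 h

theorem E_beta_surj {κ : ℝ} (h0 : 0 ≤ κ) (h1 : κ ≤ 1 / 10) {w : ℂ} (h : ‖w‖ ≤ 1) :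
    (∃ ξ : ℂ, ‖ξ‖ ≤ 1 ∧ beta κ ξ = w) ∧ (∃ ξ : ℂ, ‖ξ‖ ≤ 1 ∧ beta' κ ξ = w) := E15_surj h0 h1 h

theorem E_aa {κ : ℝ} (h0 : 0 ≤ κ) (h1 : κ ≤ 1 / 10) : ∃ a' > 0, HasDerivAt aa a' κ :=
  E16_hasDerivAt h0 h1

theorem E_aa_cont : ContinuousOn (deriv aa) (Icc 0 (1 / 10)) := E16_cont

theorem E_aa_zero : aa 0 = 0 := E16_zero

theorem E_aa_WW {κ : ℝ} (_h0 : 0 ≤ κ) (_h1 : κ ≤ 1 / 10) : WW κ (2 * κ) = aa κ := E07_aa_WW κ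

theorem E_aa_top : 199 / 1000 < aa (1 / 10) := E17_top

theorem E_k0 : aa k0 = a0 ∧ (7697 : ℝ) / 100000 < k0 ∧ k0 < 7698 / 100000 := E19_k0

theorem E_hol10 {κ : ℝ} (h0 : 0 ≤ κ) (h1 : κ ≤ 1 / 10) {Z : ℂ} (hZ : ‖Z‖ < 5 / 4) :
    DifferentiableAt ℂ (WW κ) Z ∧ ‖deriv (WW κ) Z - 1‖ ≤ 1 / 10 := by
  refine ⟨(E08_hasDerivAt h0 h1 hZ).differentiableAt, ?_⟩
  rw [E09_deriv h0 h1 hZ]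
  exact (E08_EWd h0 h1 hZ.le).trans (by norm_num)

/-- `WW (1 + κ² (Z² - 2κ²)) = Z` up to `10⁻⁶`, for `κ ≤ 0.077`. -/
theorem E_num {κ : ℝ} (h0 : 0 ≤ κ) (h1 : κ ≤ 77 / 1000) {Z : ℂ} (hZ : ‖Z‖ ≤ 5 / 4) :
    ‖WW κ Z * (1 + (κ : ℂ) ^ 2 * Z ^ 2 - 2 * (κ : ℂ) ^ 4) - Z‖ ≤ 1 / 1000000 := by
  have h := E20_W h0 (h1.trans (by norm_num)) hZ
  rw [norm_sub_rev] at h
  have he : WW κ Z * (1 + (κ : ℂ) ^ 2 * Z ^ 2 - 2 * (κ : ℂ) ^ 4) - Z =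
      WW κ Z * (1 + (κ : ℂ) ^ 2 * (Z ^ 2 - 2 * (κ : ℂ) ^ 2)) - Z := by ring
  rw [he]
  have h6 : κ ^ 6 ≤ (77 / 1000) ^ 6 := by gcongr
  refine h.trans ?_
  norm_num at h6 ⊢
  linarith

/-- The inverse function. -/
theorem E_Zi {κ : ℝ} (h0 : 0 ≤ κ) (h1 : κ ≤ 1 / 10) {w : ℂ} (hw : ‖w‖ ≤ 11 / 10) :
    ‖Zi κ w‖ ≤ 6 / 5 ∧ WW κ (Zi κ w) = w ∧ ‖Zi κ w - w‖ ≤ 1 / 40 :=
  ⟨(E10_spec h0 h1 hw).1, (E10_spec h0 h1 hw).2, E10_sub h0 h1 hw⟩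

theorem E_Zi_deriv {κ : ℝ} (h0 : 0 ≤ κ) (h1 : κ ≤ 1 / 10) {w : ℂ} (hw : ‖w‖ < 11 / 10) :
    HasDerivAt (Zi κ) (deriv (WW κ) (Zi κ w))⁻¹ w := by
  have h2 := (E10_spec h0 h1 hw.le).1
  rw [E09_deriv h0 h1 (by linarith)]
  exact E11_hasDerivAt h0 h1 hw

theorem E_Zi_cont : ContinuousOn (fun p : ℝ × ℂ => Zi p.1 p.2)
    (Icc (0 : ℝ) (1 / 10) ×ˢ Metric.closedBall (0 : ℂ) (11 / 10)) := E11_cont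

theorem E_Zi_neg {κ : ℝ} (h0 : 0 ≤ κ) (h1 : κ ≤ 1 / 10) {w : ℂ} (hw : ‖w‖ ≤ 11 / 10) :
    Zi κ (-w) = -Zi κ w := E11_neg h0 h1 hw

theorem E_Zi_conj {κ : ℝ} (h0 : 0 ≤ κ) (h1 : κ ≤ 1 / 10) {w : ℂ} (hw : ‖w‖ ≤ 11 / 10) :
    Zi κ (conj w) = conj (Zi κ w) := E11_conj h0 h1 hw

/-- `Zi (closed disc) =` the closed ellipse `= {ZZ κ ξ : |ξ| ≤ 1}`. -/
theorem E_Zi_mem {κ : ℝ} (h0 : 0 ≤ κ) (h1 : κ ≤ 1 / 10) {w : ℂ} (hw : ‖w‖ ≤ 1) :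
    ∃ ξ : ℂ, ‖ξ‖ ≤ 1 ∧ Zi κ w = ZZ κ ξ ∧ (‖w‖ < 1 → ‖ξ‖ < 1) := by
  obtain ⟨ξ, hξ⟩ := E14_surj h0 h1 (Zi κ w)
  refine ⟨ξ, ?_, hξ.symm, ?_⟩
  · rw [← E14_le h0 h1, hξ]
    exact E13_le h0 h1 hw
  · intro h
    rw [← E14_lt h0 h1, hξ]
    exact E13_lt h0 h1 h

end Pool.Agent.Lib.H11Q
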