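import Pool.Agent.Lib.H11Q.G00

set_option autoImplicit false

namespace Pool.Agent.Lib.H11Q

open Complex Set MeasureTheory
open scoped ComplexConjugate Topology

/-! G07B (M): a continuous square root of `m ∘ f` is locally a Lipschitz function of `f`. -/

/-- `f '' Q` is compact in the open set `V`: there is `ρ > 0` such that the closed `ρ`-thickening `T` of `f '' Q` is a
compact subset of `V` (`IsCompact.exists_cthickening_subset_open`), and `‖deriv m‖ ≤ C1` on `T` (`DifferentiableOn.deriv`: the derivative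
is continuous on `V`).  If `‖f p - f q‖ ≤ ρ`, `p, q ∈ Q`, then the segment (a convex set) from `f p` to `f q` is in `T`, so
`‖m (f p) - m (f q)‖ ≤ C1 ‖f p - f q‖`.  `‖G‖ ≥ c0 > 0` on `Q` (compact, continuous, `G ≠ 0` as `G² ≠ 0`; the case `Q = ∅` is
trivial).  By uniform continuity (`IsCompact.uniformContinuousOn_of_continuous`) there is `δ` such that `‖p - q‖ < δ` implies
`‖f p - f q‖ ≤ ρ` and `‖G p - G q‖ ≤ c0`; then `‖G p + G q‖ ≥ 2 ‖G p‖ - ‖G p - G q‖ ≥ c0` and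
`(G p - G q) (G p + G q) = m (f p) - m (f q)`, so `C = C1 / c0`. -/
theorem G07_lip {f m G : ℂ → ℂ} {U V Q : Set ℂ} (hV : IsOpen V) (hf : ContinuousOn f U)
    (hfV : MapsTo f U V) (hm : DifferentiableOn ℂ m V) (hG : ContinuousOn G U)
    (hsq : ∀ z ∈ U, G z ^ 2 = m (f z)) (hne : ∀ z ∈ U, m (f z) ≠ 0) (hQ : IsCompact Q) (hQU : Q ⊆ U) :
    ∃ C δ : ℝ, 0 < δ ∧ ∀ p ∈ Q, ∀ q ∈ Q, ‖p - q‖ < δ → ‖G p - G q‖ ≤ C * ‖f p - f q‖ := by
  rcases Q.eq_empty_or_nonempty with hQe | hQn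
  · refine ⟨0, 1, one_pos, ?_⟩
    intro p hp
    rw [hQe] at hp
    exact absurd hp (Set.notMem_empty _)
  have hfQ : IsCompact (f '' Q) := hQ.image_of_continuousOn (hf.mono hQU)
  have hfQV : f '' Q ⊆ V := by
    rintro _ ⟨p, hp, rfl⟩
    exact hfV (hQU hp)
  obtain ⟨ρ, hρ, hT⟩ := hfQ.exists_cthickening_subset_open hV hfQV
  have hTc : IsCompact (Metric.cthickening ρ (f '' Q)) := hfQ.cthickening
  obtain ⟨C1, hC1⟩ := hTc.exists_bound_of_continuousOn ((hm.deriv hV).continuousOn.mono hT)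
  obtain ⟨p0, hp0, hmin⟩ := hQ.exists_isMinOn hQn (hG.mono hQU).norm
  have hc0 : 0 < ‖G p0‖ := by
    rw [norm_pos_iff]
    intro h0
    apply hne p0 (hQU hp0)
    rw [← hsq p0 (hQU hp0), h0]
    norm_num
  set c0 := ‖G p0‖ with hc0def
  have hGlow : ∀ p ∈ Q, c0 ≤ ‖G p‖ := fun p hp => hmin hp
  have huf := hQ.uniformContinuousOn_of_continuous (hf.mono hQU)
  have huG := hQ.uniformContinuousOn_of_continuous (hG.mono hQU)
  rw [Metric.uniformContinuousOn_iff] at huf huG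
  obtain ⟨δ1, hδ1, h1⟩ := huf ρ hρ
  obtain ⟨δ2, hδ2, h2⟩ := huG c0 hc0
  have hC1n : 0 ≤ C1 := (norm_nonneg _).trans (hC1 (f p0) (Metric.self_subset_cthickening _ ⟨p0, hp0, rfl⟩))
  refine ⟨C1 / c0, min δ1 δ2, lt_min hδ1 hδ2, ?_⟩
  intro p hp q hq hpq
  have hd1 := h1 p hp q hq (by rw [dist_eq_norm]; exact lt_of_lt_of_le hpq (min_le_left _ _))
  have hd2 := h2 p hp q hq (by rw [dist_eq_norm]; exact lt_of_lt_of_le hpq (min_le_right _ _))
  rw [dist_eq_norm] at hd1 hd2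
  -- Lipschitz estimate of `m`
  have hseg : Metric.closedBall (f q) ρ ⊆ Metric.cthickening ρ (f '' Q) :=
    Metric.closedBall_subset_cthickening (Set.mem_image_of_mem f hq) ρ
  have hm1 : ‖m (f p) - m (f q)‖ ≤ C1 * ‖f p - f q‖ := by
    apply (convex_closedBall (f q) ρ).norm_image_sub_le_of_norm_deriv_le (𝕜 := ℂ)
    · intro x hx
      exact (hm.differentiableAt (hV.mem_nhds (hT (hseg hx))))
    · intro x hx
      exact hC1 x (hseg hx)
    · exact Metric.mem_closedBall_self hρ.le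
    · rw [Metric.mem_closedBall, dist_eq_norm]
      exact hd1.le
  have hlow : c0 ≤ ‖G p + G q‖ := by
    have h3 : ‖(2 : ℂ) * G p‖ ≤ ‖G p + G q‖ + ‖G p - G q‖ := by
      have : (2 : ℂ) * G p = (G p + G q) + (G p - G q) := by ring
      rw [this]
      exact norm_add_le _ _
    rw [norm_mul, Complex.norm_ofNat] at h3
    have h4 := hGlow p hp
    linarith
  have hfac : (G p - G q) * (G p + G q) = m (f p) - m (f q) := by
    rw [← hsq p (hQU hp), ← hsq q (hQU hq)]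
    ring
  have h5 : ‖G p - G q‖ * c0 ≤ C1 * ‖f p - f q‖ := by
    calc ‖G p - G q‖ * c0 ≤ ‖G p - G q‖ * ‖G p + G q‖ := mul_le_mul_of_nonneg_left hlow (norm_nonneg _)
      _ = ‖m (f p) - m (f q)‖ := by rw [← norm_mul, hfac]
      _ ≤ _ := hm1
  rw [div_mul_eq_mul_div, le_div_iff₀ hc0]
  exact h5

end Pool.Agent.Lib.H11Q
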