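import Pool.Agent.Lib.H11Q.G00

set_option autoImplicit false

namespace Pool.Agent.Lib.H11Q

open Complex Set MeasureTheory
open scoped ComplexConjugate Topology

/-! G07C (M): the derivative of a continuous square root of `m ∘ f`. -/

/-- Near `z`: `G z' - G z = (m (f z') - m (f z)) * (G z' + G z)⁻¹` (`G z' + G z → 2 G z ≠ 0`).  `H = m ∘ f` has the real
derivative `deriv m (f z) • fderiv ℝ f z` at `z` (`HasDerivAt.complexToReal_fderiv`, `HasFDerivAt.comp`), and a function
`c(z') (H z' - H z)` with `c` continuous at `z` is differentiable at `z` with derivative `c(z) • H'`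
(`(H z' - H z) - H' (z' - z) = o(z' - z)`, `H z' - H z = O(z' - z)` and `c(z') - c(z) = o(1)`). -/
theorem G07_deriv {f m G : ℂ → ℂ} {U V : Set ℂ} (hU : IsOpen U) (hV : IsOpen V)
    (hfV : MapsTo f U V) (hm : DifferentiableOn ℂ m V) (hG : ContinuousOn G U)
    (hsq : ∀ z ∈ U, G z ^ 2 = m (f z)) (hne : ∀ z ∈ U, m (f z) ≠ 0) {z : ℂ} (hz : z ∈ U)
    (hd : DifferentiableAt ℝ f z) :
    HasFDerivAt G ((deriv m (f z) / (2 * G z)) • fderiv ℝ f z) z := by
  have hGz : G z ≠ 0 := by
    intro h0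
    apply hne z hz
    rw [← hsq z hz, h0]
    norm_num
  have hGc : ContinuousAt G z := hG.continuousAt (hU.mem_nhds hz)
  -- derivative of `m ∘ f`
  have hm1 : HasDerivAt m (deriv m (f z)) (f z) :=
    (hm.differentiableAt (hV.mem_nhds (hfV hz))).hasDerivAt
  have hH : HasFDerivAt (fun w => m (f w)) ((deriv m (f z)) • fderiv ℝ f z) z := by
    have h1 := (hm1.complexToReal_fderiv).comp z hd.hasFDerivAt
    convert! h1 using 1
  -- the multiplier
  have hadd : Filter.Tendsto (fun w => (G w + G z)⁻¹) (𝓝 z) (𝓝 ((2 * G z)⁻¹)) := by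
    have h2 : Filter.Tendsto (fun w => G w + G z) (𝓝 z) (𝓝 (2 * G z)) := by
      have h3 := hGc.tendsto.add_const (G z)
      rw [two_mul]
      exact h3
    exact h2.inv₀ (by simpa using hGz)
  rw [hasFDerivAt_iff_isLittleO_nhds_zero] at hH ⊢
  have hO : (fun h => m (f (z + h)) - m (f z)) =O[𝓝 0] fun h => h := by
    have h1 := hH.isBigO
    have h2 : (fun h : ℂ => ((deriv m (f z)) • fderiv ℝ f z) h) =O[𝓝 0] fun h => h :=
      ContinuousLinearMap.isBigO_id _ _
    have h3 := h1.add h2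
    refine h3.congr_left ?_
    intro h
    ring
  have hz0 : Filter.Tendsto (fun h : ℂ => z + h) (𝓝 0) (𝓝 z) := by
    have : Filter.Tendsto (fun h : ℂ => z + h) (𝓝 0) (𝓝 (z + 0)) :=
      (continuous_const.add continuous_id).tendsto 0
    rwa [add_zero] at this
  have hc1 : (fun h => (G (z + h) + G z)⁻¹ - (2 * G z)⁻¹) =o[𝓝 (0 : ℂ)] fun _ => (1 : ℂ) := by
    rw [Asymptotics.isLittleO_one_iff]
    have h2 := (hadd.comp hz0).sub_const ((2 * G z)⁻¹)
    rw [sub_self] at h2
    exact h2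
  have hA := hc1.mul_isBigO hO
  have hB := hH.const_mul_left ((2 * G z)⁻¹)
  have hC := (hA.congr_right (fun x => one_mul x)).add hB
  have hev : ∀ᶠ h : ℂ in 𝓝 0, z + h ∈ U ∧ G (z + h) + G z ≠ 0 := by
    have h2 : ∀ᶠ w in 𝓝 z, w ∈ U ∧ G w + G z ≠ 0 := by
      have h4 : ∀ᶠ w in 𝓝 z, w ∈ U := hU.mem_nhds hz
      refine Filter.Eventually.and h4 ?_
      have h3 : Filter.Tendsto (fun w => G w + G z) (𝓝 z) (𝓝 (G z + G z)) := hGc.tendsto.add_const (G z)
      apply h3.eventually_ne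
      rw [← two_mul]
      exact mul_ne_zero two_ne_zero hGz
    exact hz0.eventually h2
  refine (hC.congr' ?_ ?_)
  · filter_upwards [hev] with h hh
    have e1 : G (z + h) - G z = (m (f (z + h)) - m (f z)) * (G (z + h) + G z)⁻¹ := by
      rw [← hsq _ hh.1, ← hsq z hz, eq_mul_inv_iff_mul_eq₀ hh.2]
      ring
    rw [e1]
    simp only [FunLike.coe_smul, Pi.smul_apply, smul_eq_mul]
    field_simp
    ring
  · exact Filter.EventuallyEq.rfl


end Pool.Agent.Lib.H11Q
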