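import Pool.Agent.Lib.H11Q.G07A
import Pool.Agent.Lib.H11Q.G07B
import Pool.Agent.Lib.H11Q.G07C

set_option autoImplicit false

namespace Pool.Agent.Lib.H11Q

open Complex Set MeasureTheory
open scoped ComplexConjugate Topology

/-! G07D (M): a continuous square root of `m ∘ f` is `GACL` if `f` is. -/

/-- Segments: `G07_lip` on the closed rectangle, `G07_ac` (`‖⟨x, y⟩ - ⟨x', y⟩‖ = |x - x'|`).  Differentiability:
`G07_deriv`.  Integrability on a compact `C ⊆ U`: for almost every `z ∈ C` the derivative is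
`c(z) • fderiv ℝ f z`, `c(z) = deriv m (f z) / (2 G z)` continuous on `U`, so bounded on `C`
(`Integrable.mono'` and `measurable_fderiv`). -/
theorem G07_acl {f m G : ℂ → ℂ} {U V : Set ℂ} (hU : IsOpen U) (hV : IsOpen V) (hf : GACL U f)
    (hfV : MapsTo f U V) (hm : DifferentiableOn ℂ m V) (hG : ContinuousOn G U)
    (hsq : ∀ z ∈ U, G z ^ 2 = m (f z)) (hne : ∀ z ∈ U, m (f z) ≠ 0) : GACL U G := by
  have hQc : ∀ a b c d : ℝ, IsCompact (Icc a b ×ℂ Icc c d) := fun a b c d => isCompact_Icc.reProdIm isCompact_Icc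
  refine ⟨hG, ?_, ?_, ?_, ?_⟩
  · intro a b c d hab hcd hR
    have hQU : Icc a b ×ℂ Icc c d ⊆ U := by
      intro z hz
      have h1 := hR z.re hz.1 z.im hz.2
      exact h1
    obtain ⟨C, δ, hδ, hlip⟩ := G07_lip hV hf.cont hfV hm hG hsq hne (hQc a b c d) hQU
    filter_upwards [hf.acl_h a b c d hab hcd hR] with y hy hyc
    apply G07_ac hδ (hy hyc) (C := C)
    intro x hx x' hx' hlt
    rw [uIcc_of_le hab] at hx hx'
    apply hlip ⟨x, y⟩ ⟨hx, hyc⟩ ⟨x', y⟩ ⟨hx', hyc⟩
    have e : (⟨x, y⟩ : ℂ) - ⟨x', y⟩ = ((x - x' : ℝ) : ℂ) := by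
      apply Complex.ext <;> simp
    rw [e, Complex.norm_real, Real.norm_eq_abs]
    exact hlt
  · intro a b c d hab hcd hR
    have hQU : Icc a b ×ℂ Icc c d ⊆ U := by
      intro z hz
      have h1 := hR z.re hz.1 z.im hz.2
      exact h1
    obtain ⟨C, δ, hδ, hlip⟩ := G07_lip hV hf.cont hfV hm hG hsq hne (hQc a b c d) hQU
    filter_upwards [hf.acl_v a b c d hab hcd hR] with x hx hxc
    apply G07_ac hδ (hx hxc) (C := C)
    intro y hy y' hy' hlt
    rw [uIcc_of_le hcd] at hy hy'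
    apply hlip ⟨x, y⟩ ⟨hxc, hy⟩ ⟨x, y'⟩ ⟨hxc, hy'⟩
    have e : (⟨x, y⟩ : ℂ) - ⟨x, y'⟩ = ((y - y' : ℝ) : ℂ) * I := by
      apply Complex.ext <;> simp
    rw [e, norm_mul, Complex.norm_real, Real.norm_eq_abs, Complex.norm_I, mul_one]
    exact hlt
  · filter_upwards [hf.diff] with z hz hzU
    exact (G07_deriv hU hV hfV hm hG hsq hne hzU (hz hzU)).differentiableAt
  · intro C hCU hC
    have hGne : ∀ z ∈ U, G z ≠ 0 := by
      intro z hz h0
      apply hne z hz
      rw [← hsq z hz, h0]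
      norm_num
    have hcc : ContinuousOn (fun z => deriv m (f z) / (2 * G z)) C := by
      apply ContinuousOn.div
      · exact ((hm.deriv hV).continuousOn.comp (hf.cont.mono hCU) (fun z hz => hfV (hCU hz)))
      · exact (continuousOn_const.mul (hG.mono hCU))
      · intro z hz
        exact mul_ne_zero two_ne_zero (hGne z (hCU hz))
    obtain ⟨B, hB⟩ := hC.exists_bound_of_continuousOn hcc
    apply Integrable.mono' ((hf.int C hCU hC).const_mul B)
    · exact (measurable_fderiv ℝ G).norm.aestronglyMeasurable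
    · rw [ae_restrict_iff' hC.measurableSet]
      filter_upwards [hf.diff] with z hz hzC
      have h1 := (G07_deriv hU hV hfV hm hG hsq hne (hCU hzC) (hz (hCU hzC))).fderiv
      rw [h1, norm_norm, norm_smul]
      exact mul_le_mul_of_nonneg_right (hB z hzC) (norm_nonneg _)

end Pool.Agent.Lib.H11Q
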