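import Pool.Agent.Lib.H11Q.G00

set_option autoImplicit false

namespace Pool.Agent.Lib.H11Q

open Complex Set MeasureTheory
open scoped ComplexConjugate Topology

/-! G06 (S/M): `C^1` functions are `GACL`; monotonicity. -/

theorem g06_h (y : ℝ) : ContDiff ℝ 1 (fun x : ℝ => (⟨x, y⟩ : ℂ)) := by
  have h : (fun x : ℝ => (⟨x, y⟩ : ℂ)) = fun x : ℝ => Complex.ofRealCLM x + (⟨0, y⟩ : ℂ) := by
    funext x
    apply Complex.ext <;> simp
  rw [h]
  exact Complex.ofRealCLM.contDiff.add contDiff_const

theorem g06_v (x : ℝ) : ContDiff ℝ 1 (fun y : ℝ => (⟨x, y⟩ : ℂ)) := by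
  have h : (fun y : ℝ => (⟨x, y⟩ : ℂ)) = fun y : ℝ => Complex.ofRealCLM y * I + (⟨x, 0⟩ : ℂ) := by
    funext y
    apply Complex.ext <;> simp
  rw [h]
  exact (Complex.ofRealCLM.contDiff.mul contDiff_const).add contDiff_const

/-- On a closed rectangle in `U` every horizontal and vertical segment gives a `C^1` function
(`ContDiffOn.absolutelyContinuousOnInterval`); `fderiv ℝ G` is continuous on `U` (`ContDiffOn.continuousOn_fderiv_of_isOpen`), so its norm is
integrable on compact subsets (`ContinuousOn.integrableOn_compact`). -/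
theorem G06_c1 {U : Set ℂ} (hU : IsOpen U) {G : ℂ → ℂ} (hG : ContDiffOn ℝ 1 G U) : GACL U G where
  cont := hG.continuousOn
  acl_h := by
    intro a b c d hab _ h
    refine Filter.Eventually.of_forall fun y hy => ?_
    apply ContDiffOn.absolutelyContinuousOnInterval
    rw [uIcc_of_le hab]
    exact hG.comp (g06_h y).contDiffOn fun x hx => h x hx y hy
  acl_v := by
    intro a b c d _ hcd h
    refine Filter.Eventually.of_forall fun x hx => ?_
    apply ContDiffOn.absolutelyContinuousOnInterval
    rw [uIcc_of_le hcd]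
    exact hG.comp (g06_v x).contDiffOn fun y hy => h x hx y hy
  diff := Filter.Eventually.of_forall fun z hz =>
    (hG.contDiffAt (hU.mem_nhds hz)).differentiableAt (by norm_num)
  int := by
    intro C hC hCc
    exact ContinuousOn.integrableOn_compact hCc
      (((hG.continuousOn_fderiv_of_isOpen hU le_rfl).mono hC).norm)

theorem G06_mono {U V : Set ℂ} (h : V ⊆ U) {G : ℂ → ℂ} (hG : GACL U G) : GACL V G where
  cont := hG.cont.mono h
  acl_h := fun a b c d hab hcd h1 => hG.acl_h a b c d hab hcd fun x hx y hy => h (h1 x hx y hy)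
  acl_v := fun a b c d hab hcd h1 => hG.acl_v a b c d hab hcd fun x hx y hy => h (h1 x hx y hy)
  diff := hG.diff.mono fun z hz hzV => hz (h hzV)
  int := fun C hC hCc => hG.int C (hC.trans h) hCc

end Pool.Agent.Lib.H11Q
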