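import Pool.Agent.Lib.H11Q.G08A
import Pool.Agent.Lib.H11Q.G06
import Pool.Agent.Lib.H11Q.C05

set_option autoImplicit false

namespace Pool.Agent.Lib.H11Q

open Complex Set MeasureTheory
open scoped ComplexConjugate Topology

/-! G08B (S/M): a quasiconformal map of the disc is `GACL`. -/

theorem g08_ball (e : Disc ≃ₜ Disc) {z : ℂ} (hz : z ∈ Metric.ball (0 : ℂ) 1) :
    ∃ w : Disc, (w : ℂ) = z ∧ ext e z = e w := by
  have h1 : ‖z‖ < 1 := mem_ball_zero_iff.1 hz
  exact ⟨⟨z, h1⟩, rfl, c05_coe e ⟨z, h1⟩⟩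

theorem g08_inj (e : Disc ≃ₜ Disc) : InjOn (ext e) (Metric.ball 0 1) := by
  intro z hz w hw h
  obtain ⟨z', hz1, hz2⟩ := g08_ball e hz
  obtain ⟨w', hw1, hw2⟩ := g08_ball e hw
  rw [hz2, hw2] at h
  have h3 : z' = w' := e.injective (Subtype.ext h)
  rw [← hz1, ← hw1, h3]

theorem g08_vol (e : Disc ≃ₜ Disc) : volume (ext e '' Metric.ball 0 1) < ⊤ := by
  refine (measure_mono ?_).trans_lt (measure_ball_lt_top (μ := volume) (x := (0 : ℂ)) (r := 1))
  rintro _ ⟨z, hz, rfl⟩
  obtain ⟨z', hz1, hz2⟩ := g08_ball e hz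
  rw [hz2]
  exact mem_ball_zero_iff.2 (e z').2

/-- `G08_area` with `U = ball 0 1` (`ext e` is injective there: `c05_coe`), `ext e '' ball ⊆ ball`, whose volume is
finite. -/
theorem G08_fin {K : ℝ} (hK : 1 ≤ K) {e : Disc ≃ₜ Disc} (he : IsQC K e) :
    ∫⁻ z in Metric.ball (0 : ℂ) 1, ENNReal.ofReal (‖fderiv ℝ (ext e) z‖ ^ 2) < ⊤ := by
  refine (G08_area measurableSet_ball (g08_inj e) (by linarith) ?_).trans_lt
    (ENNReal.mul_lt_top ENNReal.ofReal_lt_top (g08_vol e))
  filter_upwards [he.dil] with z hz hz1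
  exact hz (mem_ball_zero_iff.1 hz1)

/-- Continuity: `c05_cont`.  Segments and differentiability: the definition of `IsQC`.  Integrability: `G08_fin`, and
`‖L‖ ≤ 1 + ‖L‖ ^ 2` on a set of finite volume. -/
theorem G08_acl {K : ℝ} (hK : 1 ≤ K) {e : Disc ≃ₜ Disc} (he : IsQC K e) :
    GACL (Metric.ball 0 1) (ext e) where
  cont := by
    intro z hz
    obtain ⟨z', hz1, _⟩ := g08_ball e hz
    rw [← hz1]
    exact (c05_cont e z').continuousWithinAt
  acl_h := fun a b c d hab hcd h1 => he.acl_h a b c d hab hcd fun x hx y hy => mem_ball_zero_iff.1 (h1 x hx y hy)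
  acl_v := fun a b c d hab hcd h1 => he.acl_v a b c d hab hcd fun x hx y hy => mem_ball_zero_iff.1 (h1 x hx y hy)
  diff := by
    filter_upwards [he.dil] with z hz hz1
    exact (hz (mem_ball_zero_iff.1 hz1)).1
  int := by
    intro C hC hCc
    have hm : Measurable fun z => ‖fderiv ℝ (ext e) z‖ := (measurable_fderiv ℝ (ext e)).norm
    have h1 : IntegrableOn (fun z => ‖fderiv ℝ (ext e) z‖ ^ 2) C := by
      refine ⟨(hm.pow_const 2).aestronglyMeasurable, ?_⟩
      rw [hasFiniteIntegral_iff_ofReal (Filter.Eventually.of_forall fun z => by positivity)]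
      exact (lintegral_mono_set hC).trans_lt (G08_fin hK he)
    have h2 : IntegrableOn (fun z => 1 + ‖fderiv ℝ (ext e) z‖ ^ 2) C :=
      (integrableOn_const hCc.measure_lt_top.ne).add h1
    refine Integrable.mono' h2 hm.aestronglyMeasurable (Filter.Eventually.of_forall fun z => ?_)
    rw [norm_norm]
    nlinarith [sq_nonneg (‖fderiv ℝ (ext e) z‖ - 1)]

end Pool.Agent.Lib.H11Q
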