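import Pool.Agent.Lib.H11Q.G00
import Pool.Agent.Lib.H11Q.C01

set_option autoImplicit false

namespace Pool.Agent.Lib.H11Q

open Complex Set MeasureTheory
open scoped ComplexConjugate Topology

/-! G09 (S): multiplication of a real linear map by a complex number. -/

/-- `C_ab_all`-style decomposition `L = ab a b` (module C): `c • ab a b = ab (c a) (c b)`; `C_ab_det`, `C_ab_norm`.  (The norm:
`norm_smul`.) -/
theorem G09_smul (c : ℂ) (L : ℂ →L[ℝ] ℂ) : ‖c • L‖ = ‖c‖ * ‖L‖ ∧ (c • L).det = ‖c‖ ^ 2 * L.det := by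
  refine ⟨norm_smul _ _, ?_⟩
  obtain ⟨a, b, rfl⟩ := C_ab_all L
  have h : c • ab a b = ab (c * a) (c * b) := by
    refine ContinuousLinearMap.ext fun v => ?_
    rw [ContinuousLinearMap.smul_apply, ab_apply, ab_apply, smul_eq_mul]
    ring
  rw [h, C_ab_det, C_ab_det, norm_mul, norm_mul]
  ring

end Pool.Agent.Lib.H11Q
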