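import Pool.Agent.Lib.H11Q.C10

set_option autoImplicit false

namespace Pool.Agent.Lib.H11Q

open Complex Set MeasureTheory
open scoped ComplexConjugate Topology

/-! C10B (M): the normalization of two points. -/

/-- `b = S/(1+C)`, `S = √((E-1)/2)`, `C = √((E+1)/2)`, `C² = 1 + S²`. -/
theorem C_bE {E : ℝ} (hE : 1 < E) : 0 < bE E ∧ bE E < 1 ∧
    (2 * bE E / (1 + bE E ^ 2)) ^ 2 = (E - 1) / (E + 1) := by
  have hS2 : 0 < (E - 1) / 2 := by linarith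
  have hC2 : 0 < (E + 1) / 2 := by linarith
  have hS := Real.sqrt_pos.2 hS2
  have hC := Real.sqrt_pos.2 hC2
  have eS := Real.sq_sqrt hS2.le
  have eC := Real.sq_sqrt hC2.le
  unfold bE
  set S := Real.sqrt ((E - 1) / 2) with hSd
  set C := Real.sqrt ((E + 1) / 2) with hCd
  have hSC : C ^ 2 = 1 + S ^ 2 := by rw [eS, eC]; ring
  refine ⟨by positivity, ?_, ?_⟩
  · rw [div_lt_one (by positivity)]
    nlinarith
  · have h1 : 2 * (S / (1 + C)) / (1 + (S / (1 + C)) ^ 2) = S / C := by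
      have h2 : (1 + C) ≠ 0 := by positivity
      have h3 : 1 + (S / (1 + C)) ^ 2 = 2 * C / (1 + C) := by
        field_simp
        nlinarith
      rw [h3]
      field_simp
    rw [h1, div_pow, eS, eC]
    field_simp

/-- `|rel X Z|² = sh/(1+sh) = (E-1)/(E+1)`, so `|rel X Z| = 2b/(1+b²)`. -/
theorem C_rel_norm {X Z : Disc} (h : X ≠ Z) :
    1 < mink (Om X) (Om Z) ∧ ‖rel X Z‖ = 2 * bE (mink (Om X) (Om Z)) /
      (1 + bE (mink (Om X) (Om Z)) ^ 2) := by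
  obtain ⟨p1, p2⟩ := c10_pos X Z
  have hne : (X : ℂ) ≠ Z := fun h' => h (Subtype.ext h')
  have h0 : 0 < ‖(X : ℂ) - Z‖ := norm_pos_iff.2 (sub_ne_zero.2 hne)
  have hs : 0 < sh X Z := by
    unfold sh
    positivity
  have hE := C_mink_sh X Z
  have hE1 : 1 < mink (Om X) (Om Z) := by
    rw [hE]
    linarith
  obtain ⟨b1, b2, b3⟩ := C_bE hE1
  refine ⟨hE1, ?_⟩
  have hr : ‖rel X Z‖ ^ 2 = (mink (Om X) (Om Z) - 1) / (mink (Om X) (Om Z) + 1) := by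
    have h1 : ‖1 - conj (X : ℂ) * Z‖ ^ 2 = (1 - ‖(X : ℂ)‖ ^ 2) * (1 - ‖(Z : ℂ)‖ ^ 2) + ‖(X : ℂ) - Z‖ ^ 2 := by
      simp only [← normSq_eq_norm_sq, normSq_apply, sub_re, sub_im, mul_re, mul_im, conj_re, conj_im, one_re, one_im]
      ring
    have h2 : 0 < (1 - ‖(X : ℂ)‖ ^ 2) * (1 - ‖(Z : ℂ)‖ ^ 2) + ‖(X : ℂ) - Z‖ ^ 2 := by positivity
    unfold rel
    rw [norm_div, div_pow, h1, norm_sub_rev (Z : ℂ), hE]
    unfold sh
    have p3 : (1 - ‖(X : ℂ)‖ ^ 2) ≠ 0 := p1.ne'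
    have p4 : (1 - ‖(Z : ℂ)‖ ^ 2) ≠ 0 := p2.ne'
    have h3 : (1 + 2 * (‖(X : ℂ) - Z‖ ^ 2 / ((1 - ‖(X : ℂ)‖ ^ 2) * (1 - ‖(Z : ℂ)‖ ^ 2))) + 1) =
        2 * ((1 - ‖(X : ℂ)‖ ^ 2) * (1 - ‖(Z : ℂ)‖ ^ 2) + ‖(X : ℂ) - Z‖ ^ 2) / ((1 - ‖(X : ℂ)‖ ^ 2) * (1 - ‖(Z : ℂ)‖ ^ 2)) := by
      field_simp
      ring
    rw [h3]
    field_simp
    ring
  have h4 : ‖rel X Z‖ ^ 2 = (2 * bE (mink (Om X) (Om Z)) / (1 + bE (mink (Om X) (Om Z)) ^ 2)) ^ 2 := by
    rw [hr, b3]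
  exact (pow_left_inj₀ (norm_nonneg _) (by positivity) two_ne_zero).1 h4

/-- `g⁻¹` is the composition of `w ↦ (w+b)/(1+bw)` (maps `-b` to `0`, `b` to `2b/(1+b²) = |rel X Z|`), of the rotation
`w ↦ u w`, `u = uu X Z`, and of `w ↦ (w + X)/(1 + conj X w)` (maps `0` to `X`, `u |rel X Z| = rel X Z` to `Z`).
As an element of SU: `(1/√(1-|X|²), X/√(1-|X|²)) * (exp(iθ/2), 0) * (1/√(1-b²), b/√(1-b²))`, `u = exp(iθ)`; the
product is, up to the real factor `1/√((1-|X|²)(1-b²))` and the factor `exp(-iθ/2)`, the matrix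
`[[u + X b, u b + X], [b + conj X u, 1 + conj X u b]]`, so `den w = exp(-iθ/2) gid X Z w / √(..)`, and
`1/den² = u (1-|X|²)(1-b²) / gid²`. -/
theorem C_two {X Z : Disc} (h : X ≠ Z) : ∃ g : SU,
    g.app X = -(bE (mink (Om X) (Om Z)) : ℂ) ∧ g.app Z = (bE (mink (Om X) (Om Z)) : ℂ) ∧
    ∀ w : ℂ, ‖w‖ ≤ 1 → gid X Z w ≠ 0 ∧ g⁻¹.app w = gi X Z w ∧
      1 / (g⁻¹.den w) ^ 2 = gi' X Z w := by
  obtain ⟨hE1, hrn⟩ := C_rel_norm h
  obtain ⟨b1, b2, _⟩ := C_bE hE1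
  set b := bE (mink (Om X) (Om Z)) with hb
  obtain ⟨p1, _⟩ := c10_pos X X
  have hpb : 0 < 1 - b ^ 2 := by nlinarith
  have hrel0 : rel X Z ≠ 0 := by
    rw [← norm_pos_iff, hrn]
    positivity
  have hrel0' : (‖rel X Z‖ : ℂ) ≠ 0 := by
    rw [Ne, ofReal_eq_zero, norm_eq_zero]
    exact hrel0
  have hu1 : ‖uu X Z‖ = 1 := by
    unfold uu
    rw [norm_div, Complex.norm_real, norm_norm, div_self (norm_ne_zero_iff.2 hrel0)]
  have hur : uu X Z * ((2 * b / (1 + b ^ 2) : ℝ) : ℂ) = rel X Z := by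
    rw [← hrn]
    unfold uu
    rw [div_mul_cancel₀ _ hrel0']
  obtain ⟨e, he1, he2⟩ : ∃ e : ℂ, ‖e‖ = 1 ∧ e ^ 2 = uu X Z := by
    obtain ⟨e, he⟩ := IsAlgClosed.exists_pow_nat_eq (uu X Z) (n := 2) (by norm_num)
    have he := he.symm
    refine ⟨e, ?_, he.symm⟩
    have h2 : ‖e‖ ^ 2 = 1 := by
      rw [← norm_pow, ← he, hu1]
    exact (pow_eq_one_iff_of_nonneg (norm_nonneg e) two_ne_zero).1 h2
  have hee : conj e * e = 1 := by
    rw [← normSq_eq_conj_mul_self, normSq_eq_norm_sq, he1]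
    norm_num
  have heu : e = conj e * uu X Z := by
    rw [← he2]
    linear_combination (-e) * hee
  set A1 := Real.sqrt (1 - ‖(X : ℂ)‖ ^ 2) with hA1
  set B1 := Real.sqrt (1 - b ^ 2) with hB1
  have hA1p : 0 < A1 := Real.sqrt_pos.2 p1
  have hB1p : 0 < B1 := Real.sqrt_pos.2 hpb
  have eA : A1 ^ 2 = 1 - ‖(X : ℂ)‖ ^ 2 := Real.sq_sqrt p1.le
  have eB : B1 ^ 2 = 1 - b ^ 2 := Real.sq_sqrt hpb.le
  let m1 : SU := ⟨((1 / A1 : ℝ) : ℂ), (X : ℂ) * ((1 / A1 : ℝ) : ℂ), by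
    rw [map_mul, normSq_ofReal, normSq_eq_norm_sq]
    field_simp
    linarith⟩
  let m2 : SU := ⟨e, 0, by
    rw [normSq_eq_norm_sq, he1, map_zero]
    norm_num⟩
  let m3 : SU := ⟨((1 / B1 : ℝ) : ℂ), ((b / B1 : ℝ) : ℂ), by
    rw [normSq_ofReal, normSq_ofReal]
    field_simp
    linarith⟩
  have hC0 : ((1 / (A1 * B1) : ℝ) : ℂ) ≠ 0 := by
    rw [Ne, ofReal_eq_zero]
    positivity
  have hden : ∀ w : ℂ, (m1 * m2 * m3).den w = conj e * gid X Z w * ((1 / (A1 * B1) : ℝ) : ℂ) := by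
    intro w
    unfold SU.den gid
    rw [← hb]
    simp only [SU.mul_a, SU.mul_b, map_add, map_mul, conj_ofReal, conj_conj, map_zero, m1, m2, m3]
    push_cast
    linear_combination (((b : ℂ) * conj (X : ℂ) + conj (X : ℂ) * w) * (1 / A1) * (1 / B1)) * heu
  have hnum : ∀ w : ℂ, (m1 * m2 * m3).a * w + (m1 * m2 * m3).b = conj e * gin X Z w * ((1 / (A1 * B1) : ℝ) : ℂ) := by
    intro w
    unfold gin
    rw [← hb]
    simp only [SU.mul_a, SU.mul_b, map_add, map_mul, conj_ofReal, conj_conj, map_zero, m1, m2, m3]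
    push_cast
    linear_combination ((w + b) * (1 / A1) * (1 / B1)) * heu
  have hmain : ∀ w : ℂ, ‖w‖ ≤ 1 → gid X Z w ≠ 0 ∧ (m1 * m2 * m3).app w = gi X Z w ∧
      1 / ((m1 * m2 * m3).den w) ^ 2 = gi' X Z w := by
    intro w hw
    have hd := (m1 * m2 * m3).den_ne hw
    rw [hden] at hd
    have hgid : gid X Z w ≠ 0 := by
      intro h0
      rw [h0] at hd
      simp at hd
    have hce : conj e ≠ 0 := by
      intro h0
      rw [h0] at hd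
      simp at hd
    refine ⟨hgid, ?_, ?_⟩
    · have e1 : (m1 * m2 * m3).app w = ((m1 * m2 * m3).a * w + (m1 * m2 * m3).b) / (m1 * m2 * m3).den w := rfl
      rw [e1, hnum, hden]
      unfold gi
      field_simp
    · rw [hden]
      unfold gi'
      rw [← hb]
      have e2 : conj e ^ 2 * uu X Z = 1 := by
        rw [← he2]
        linear_combination (conj e * e + 1) * hee
      have e3 : ((1 / (A1 * B1) : ℝ) : ℂ) ^ 2 * (((1 - b ^ 2) * (1 - ‖(X : ℂ)‖ ^ 2) : ℝ) : ℂ) = 1 := by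
        rw [← eA, ← eB, ← ofReal_pow, ← ofReal_mul, ← ofReal_one]
        congr 1
        field_simp
      rw [div_eq_div_iff (pow_ne_zero _ hd) (pow_ne_zero _ hgid), one_mul]
      calc gid X Z w ^ 2 = gid X Z w ^ 2 * ((conj e ^ 2 * uu X Z) * (((1 / (A1 * B1) : ℝ) : ℂ) ^ 2 * (((1 - b ^ 2) * (1 - ‖(X : ℂ)‖ ^ 2) : ℝ) : ℂ))) := by
            rw [e2, e3]
            ring
        _ = _ := by ring
  have hX0 : 1 - conj (X : ℂ) * Z ≠ 0 := by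
    intro h0
    have h1 : ‖conj (X : ℂ) * Z‖ = 1 := by
      have : conj (X : ℂ) * Z = 1 := by linear_combination -h0
      rw [this, norm_one]
    rw [norm_mul, norm_conj] at h1
    have h2 := X.2
    have h3 := Z.2
    nlinarith [norm_nonneg (X : ℂ), norm_nonneg (Z : ℂ)]
  have hXX : ((1 - ‖(X : ℂ)‖ ^ 2 : ℝ) : ℂ) = 1 - conj (X : ℂ) * X := by
    rw [← normSq_eq_conj_mul_self, normSq_eq_norm_sq]
    push_cast
    ring
  have hXX0 : 1 - conj (X : ℂ) * X ≠ 0 := by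
    rw [← hXX]
    exact_mod_cast p1.ne'
  have hnb : ‖(b : ℂ)‖ ≤ 1 := by
    rw [Complex.norm_real, Real.norm_eq_abs, abs_of_pos b1]
    exact b2.le
  have hb2 : (1 : ℂ) + (b : ℂ) ^ 2 ≠ 0 := by
    have : (1 + b ^ 2 : ℝ) ≠ 0 := by positivity
    exact_mod_cast this
  have hb3 : (1 : ℂ) - (b : ℂ) ^ 2 ≠ 0 := by
    have : (1 - b ^ 2 : ℝ) ≠ 0 := hpb.ne'
    exact_mod_cast this
  have g1 : gi X Z (-(b : ℂ)) = X := by
    unfold gi gin gid
    rw [← hb]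
    have e1 : uu X Z * (-(b : ℂ) + b) + X * (1 + b * -(b : ℂ)) = X * (1 - (b : ℂ) ^ 2) := by ring
    have e2 : (1 + (b : ℂ) * -(b : ℂ)) + conj (X : ℂ) * uu X Z * (-(b : ℂ) + b) = 1 - (b : ℂ) ^ 2 := by ring
    rw [e1, e2, mul_div_cancel_right₀ _ hb3]
  have g2 : gi X Z (b : ℂ) = Z := by
    unfold gi gin gid
    rw [← hb]
    have e3 : uu X Z * (2 * b) = (1 + (b : ℂ) ^ 2) * rel X Z := by
      rw [← hur]
      push_cast
      field_simp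
    have e1 : uu X Z * ((b : ℂ) + b) + X * (1 + b * (b : ℂ)) = (1 + (b : ℂ) ^ 2) * (rel X Z + X) := by
      linear_combination e3
    have e2 : (1 + (b : ℂ) * (b : ℂ)) + conj (X : ℂ) * uu X Z * ((b : ℂ) + b) = (1 + (b : ℂ) ^ 2) * (1 + conj (X : ℂ) * rel X Z) := by
      linear_combination (conj (X : ℂ)) * e3
    rw [e1, e2, mul_div_mul_left _ _ hb2]
    have e4 : rel X Z + X = Z * (1 - conj (X : ℂ) * X) / (1 - conj (X : ℂ) * Z) := by
      unfold rel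
      rw [eq_div_iff hX0, add_mul, div_mul_cancel₀ _ hX0]
      ring
    have e5 : 1 + conj (X : ℂ) * rel X Z = (1 - conj (X : ℂ) * X) / (1 - conj (X : ℂ) * Z) := by
      unfold rel
      rw [eq_div_iff hX0, add_mul, mul_assoc, div_mul_cancel₀ _ hX0]
      ring
    rw [e4, e5, div_div_div_cancel_right₀ hX0, mul_div_cancel_right₀ _ hXX0]
  refine ⟨(m1 * m2 * m3)⁻¹, ?_, ?_, ?_⟩
  · have h1 := (hmain (-(b : ℂ)) (by rwa [norm_neg])).2.1
    rw [g1] at h1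
    rw [← h1, ← SU.app_mul _ _ (by rwa [norm_neg]), inv_mul_cancel, SU.app_one]
  · have h1 := (hmain (b : ℂ) hnb).2.1
    rw [g2] at h1
    rw [← h1, ← SU.app_mul _ _ hnb, inv_mul_cancel, SU.app_one]
  · rw [inv_inv]
    exact hmain

end Pool.Agent.Lib.H11Q
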