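import Pool.Agent.Lib.H11Q.G00
import Pool.Agent.Lib.H11Q.C10B

set_option autoImplicit false

namespace Pool.Agent.Lib.H11Q

open Complex Set MeasureTheory
open scoped ComplexConjugate Topology

/-! G10 (M): normalization of two points with distance at least `cc`. -/

/-- `bE CC = a0`. -/
theorem g10_bE_CC : bE CC = a0 := by
  have h := one_lt_CC
  have hS : 0 < (CC - 1) / 2 := by linarith
  have hC : 0 < (CC + 1) / 2 := by linarith
  have hC1 : 0 < Real.sqrt ((CC + 1) / 2) := Real.sqrt_pos.mpr hC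
  have e1 : vv = Real.sqrt ((CC - 1) / 2) / Real.sqrt ((CC + 1) / 2) := by
    rw [← Real.sqrt_div hS.le]
    unfold vv
    congr 1
    field_simp
  have e2 : Real.sqrt (1 - vv ^ 2) = 1 / Real.sqrt ((CC + 1) / 2) := by
    rw [← Real.sqrt_one, ← Real.sqrt_div zero_le_one, vv_sq, Real.sqrt_one]
    congr 1
    have : CC + 1 ≠ 0 := by linarith
    field_simp
    ring
  unfold a0 bE
  rw [e2, e1]
  field_simp
  ring

theorem g10_bE_mono {E E' : ℝ} (h : 1 ≤ E) (hE : E < E') : bE E < bE E' := by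
  have hSS : Real.sqrt ((E - 1) / 2) ^ 2 = (E - 1) / 2 := Real.sq_sqrt (by linarith)
  have hCC : Real.sqrt ((E + 1) / 2) ^ 2 = (E + 1) / 2 := Real.sq_sqrt (by linarith)
  have hSS' : Real.sqrt ((E' - 1) / 2) ^ 2 = (E' - 1) / 2 := Real.sq_sqrt (by linarith)
  have hCC' : Real.sqrt ((E' + 1) / 2) ^ 2 = (E' + 1) / 2 := Real.sq_sqrt (by linarith)
  have hS0 := Real.sqrt_nonneg ((E - 1) / 2)
  have hS0' : 0 < Real.sqrt ((E' - 1) / 2) := Real.sqrt_pos.mpr (by linarith)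
  have hC0 : 0 < Real.sqrt ((E + 1) / 2) := Real.sqrt_pos.mpr (by linarith)
  have hC0' : 0 < Real.sqrt ((E' + 1) / 2) := Real.sqrt_pos.mpr (by linarith)
  have hSm : Real.sqrt ((E - 1) / 2) < Real.sqrt ((E' - 1) / 2) :=
    Real.sqrt_lt_sqrt (by linarith) (by linarith)
  unfold bE
  set S := Real.sqrt ((E - 1) / 2) with hSd
  set C := Real.sqrt ((E + 1) / 2) with hCd
  set S' := Real.sqrt ((E' - 1) / 2) with hSd'
  set C' := Real.sqrt ((E' + 1) / 2) with hCd'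
  rw [div_lt_div_iff₀ (by linarith) (by linarith)]
  have e1 : S * C' < S' * C := by
    apply lt_of_pow_lt_pow_left₀ 2 (by positivity)
    rw [mul_pow, mul_pow, hSS, hCC, hSS', hCC']
    nlinarith
  nlinarith

theorem g10_cosh_cc : Real.cosh cc = CC := by
  have h := one_lt_CC
  unfold cc
  rw [Real.cosh_two_mul, Real.cosh_sq, Real.sinh_arsinh, Real.sq_sqrt (by linarith)]
  ring

theorem g10_cc_nonneg : 0 ≤ cc := by
  unfold cc
  have := Real.arsinh_nonneg_iff.2 (Real.sqrt_nonneg ((CC - 1) / 2))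
  linarith

theorem g10_CC {z w : Disc} (h : cc ≤ hd z w) : CC ≤ mink (Om z) (Om w) := by
  rw [← C_cosh_hd, ← g10_cosh_cc]
  rw [Real.cosh_le_cosh, abs_of_nonneg g10_cc_nonneg, abs_of_nonneg (C_hd_nonneg _ _)]
  exact h

/-- `bE CC = a0`: both are positive roots of `2 b / (1 + b²) = √((CC-1)/(CC+1)) = vv` (`C_bE`), `b < 1`; or compute.
`bE` is monotone on `[1, ∞)`: `bE E = S / (1 + √(1 + S²))`, `S = √((E-1)/2)`, and `S / (1 + √(1+S²))` increases
(`= (√(1+S²) - 1) / S`).  `cosh cc = CC` (`cosh (2x) = 1 + 2 sinh² x`), `C_cosh_hd`. -/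
theorem G10_bE {z w : Disc} (h : cc ≤ hd z w) : z ≠ w ∧ a0 ≤ bE (mink (Om z) (Om w)) := by
  have h1 := one_lt_CC
  have h2 := g10_CC h
  constructor
  · rintro rfl
    rw [C_mink_sh] at h2
    have : sh (z : ℂ) z = 0 := by
      unfold sh
      simp
    rw [this] at h2
    linarith
  · rw [← g10_bE_CC]
    rcases h2.eq_or_lt with h3 | h3
    · rw [← h3]
    · exact (g10_bE_mono h1.le h3).le

/-- The map `u ↦ (u - t) / (1 - t u)`. -/
theorem g10_map {t : ℝ} (ht0 : 0 ≤ t) (ht1 : t < 1) : ∃ N : SU, ∀ u : ℂ, N.app u = (u - t) / (1 - t * u) := by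
  have h3 : 0 < 1 - t ^ 2 := by nlinarith
  have h4 : 0 < Real.sqrt (1 - t ^ 2) := Real.sqrt_pos.2 h3
  have h5 : (Real.sqrt (1 - t ^ 2) : ℂ) ≠ 0 := by exact_mod_cast h4.ne'
  refine ⟨⟨1 / (Real.sqrt (1 - t ^ 2) : ℂ), -(t : ℂ) / (Real.sqrt (1 - t ^ 2) : ℂ), ?_⟩, ?_⟩
  · rw [map_div₀, map_div₀, map_one, normSq_neg, normSq_ofReal, normSq_ofReal, Real.mul_self_sqrt h3.le]
    field_simp
  · intro u
    simp only [SU.app, map_div₀, map_one, map_neg, conj_ofReal]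
    have e1 : 1 / (Real.sqrt (1 - t ^ 2) : ℂ) * u + -(t : ℂ) / (Real.sqrt (1 - t ^ 2) : ℂ) =
        (u - t) / (Real.sqrt (1 - t ^ 2) : ℂ) := by ring
    have e2 : -(t : ℂ) / (Real.sqrt (1 - t ^ 2) : ℂ) * u + 1 / (Real.sqrt (1 - t ^ 2) : ℂ) =
        (1 - t * u) / (Real.sqrt (1 - t ^ 2) : ℂ) := by ring
    rw [e1, e2, div_div_div_cancel_right₀ h5]

/-- With `b = bE (mink (Om z) (Om w)) ≥ a0` take `g` from `C_two` (`z ↦ -b`, `w ↦ b`) and compose with the map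
`u ↦ (u - t) / (1 - t u)`, `t = (b - a0) / (1 - a0 b) ∈ [0, 1)` (the element `a = 1/√(1-t²)`, `b = -t/√(1-t²)` of `SU`):
`b ↦ a0`, `-b ↦ -(b + t)/(1 + t b)`, and `(b + t)/(1 + t b) ≥ b ≥ a0`, `< 1`. -/
theorem G10_normal {z w : Disc} (h : cc ≤ hd z w) : ∃ (M : SU) (b : ℝ), a0 ≤ b ∧ b < 1 ∧
    M.app z = -(b : ℂ) ∧ M.app w = (a0 : ℂ) := by
  obtain ⟨hne, hab⟩ := G10_bE h
  obtain ⟨hE1, -⟩ := C_rel_norm hne
  obtain ⟨g, g1, g2, -⟩ := C_two hne
  obtain ⟨b1, b2, -⟩ := C_bE hE1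
  set b := bE (mink (Om z) (Om w)) with hb
  have ha : 0 < a0 := by
    rw [← g10_bE_CC]
    exact (C_bE one_lt_CC).1
  have hab1 : 0 < 1 - a0 * b := by nlinarith
  obtain ⟨t, ht⟩ : ∃ t : ℝ, t = (b - a0) / (1 - a0 * b) := ⟨_, rfl⟩
  have ht0 : 0 ≤ t := by
    rw [ht]
    exact div_nonneg (by linarith) hab1.le
  have ht1 : t < 1 := by
    rw [ht, div_lt_one hab1]
    nlinarith
  have htm : t * (1 - a0 * b) = b - a0 := by
    rw [ht]
    exact div_mul_cancel₀ _ hab1.ne'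
  have htb : 0 < 1 - t * b := by nlinarith
  have htb' : 0 < 1 + t * b := by positivity
  obtain ⟨N, hN⟩ := g10_map ht0 ht1
  refine ⟨N * g, (b + t) / (1 + t * b), ?_, ?_, ?_, ?_⟩
  · rw [le_div_iff₀ htb']
    nlinarith [mul_nonneg ht0 b1.le, mul_nonneg ht0 ha.le]
  · rw [div_lt_one htb']
    nlinarith
  · rw [SU.app_mul _ _ z.2.le, g1, hN]
    have e1 : (1 - (t : ℂ) * -(b : ℂ)) = ((1 + t * b : ℝ) : ℂ) := by
      push_cast
      ring
    rw [e1]
    push_cast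
    ring
  · rw [SU.app_mul _ _ w.2.le, g2, hN]
    have e1 : (1 - (t : ℂ) * (b : ℂ)) = ((1 - t * b : ℝ) : ℂ) := by
      push_cast
      ring
    have e2 : ((b : ℂ) - t) = ((b - t : ℝ) : ℂ) := by
      push_cast
      ring
    rw [e1, e2, ← ofReal_div]
    congr 1
    rw [div_eq_iff htb.ne']
    linarith

end Pool.Agent.Lib.H11Q
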