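import Pool.Agent.Lib.H11Q.G12
import Pool.Agent.Lib.H11Q.C05

set_option autoImplicit false

namespace Pool.Agent.Lib.H11Q

open Complex Set MeasureTheory
open scoped ComplexConjugate Topology

/-! G15B (M): `Gz κ M (e z) ≠ 2κ` on `GU κ M`. -/

private theorem g15_mono {κ : ℝ} (h0 : 0 ≤ κ) (h1 : κ ≤ 1 / 10) {s t : ℝ} (hs : |s| < 5 / 4) (ht : |t| < 5 / 4)
    (hst : s ≤ t) : (t - s) / 2 ≤ (WW κ t - WW κ s).re := by
  have hb : ∀ x ∈ Metric.ball (0 : ℂ) (5 / 4), DifferentiableAt ℂ (fun Z => WW κ Z - Z) x ∧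
      ‖deriv (fun Z => WW κ Z - Z) x‖ ≤ 1 / 2 := by
    intro x hx
    rw [mem_ball_zero_iff] at hx
    obtain ⟨h2, h3⟩ := E_hol h0 h1 hx
    refine ⟨h2.sub differentiableAt_id, ?_⟩
    have h4 : deriv (fun Z => WW κ Z - Z) x = deriv (WW κ) x - 1 := (h2.hasDerivAt.sub (hasDerivAt_id x)).deriv
    rw [h4]
    exact h3
  have h2 := Convex.norm_image_sub_le_of_norm_deriv_le (f := fun Z => WW κ Z - Z) (fun x hx => (hb x hx).1)
    (fun x hx => (hb x hx).2) (convex_ball (0 : ℂ) (5 / 4)) (x := (s : ℂ)) (y := (t : ℂ))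
    (by rw [mem_ball_zero_iff, norm_real]; exact hs) (by rw [mem_ball_zero_iff, norm_real]; exact ht)
  have h3 : ‖(t : ℂ) - (s : ℂ)‖ = t - s := by
    rw [← ofReal_sub, norm_real, Real.norm_eq_abs, abs_of_nonneg (by linarith)]
  rw [h3] at h2
  have h4 := (abs_le.1 ((abs_re_le_norm _).trans h2)).1
  simp only [sub_re, ofReal_re] at h4 ⊢
  linarith

/-- `WW κ` maps `[-5/4, 5/4] ⊂ ℝ` to the reals and is strictly increasing there (`Zi κ` commutes with `conj`: `E_Zi_conj`; or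
`‖deriv (WW κ) - 1‖ ≤ 1/2`: for real `s < t`, `Re (WW κ t - WW κ s) ≥ (t - s)/2`).  So for real `b ∈ [aa κ, 1)` the
number `Zi κ b` is real (`E_Zi_conj`) and `≥ 2κ`: otherwise `b = WW κ (Zi κ b)` would be smaller than
`WW κ (2κ) = aa κ` (`E_aa_WW`). -/
theorem G15_Zi {κ : ℝ} (h0 : 0 ≤ κ) (h1 : κ ≤ 1 / 10) {b : ℝ} (hb : aa κ ≤ b) (hb1 : b < 1) :
    ∃ t : ℝ, 2 * κ ≤ t ∧ Zi κ b = t := by
  have haa : (WW κ ((2 * κ : ℝ) : ℂ)).re = aa κ := by
    have h := E_aa_WW h0 h1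
    rw [show ((2 * κ : ℝ) : ℂ) = 2 * (κ : ℂ) by push_cast; ring, h, ofReal_re]
  have hzero : WW κ ((0 : ℝ) : ℂ) = 0 := by
    have h := E_neg h0 h1 (Z := 0) (by simp)
    rw [neg_zero] at h
    rw [ofReal_zero]
    linear_combination (1 / 2 : ℂ) * h
  have haa0 : 0 ≤ aa κ := by
    have h := g15_mono h0 h1 (s := 0) (t := 2 * κ) (by simp) (by rw [abs_of_nonneg (by linarith)]; linarith) (by linarith)
    rw [hzero, sub_zero, sub_zero, haa] at h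
    linarith
  have hbn : ‖(b : ℂ)‖ ≤ 11 / 10 := by
    rw [norm_real, Real.norm_eq_abs, abs_of_nonneg (by linarith)]
    linarith
  obtain ⟨h2, h3, -⟩ := E_Zi h0 h1 hbn
  have h4 : conj (Zi κ b) = Zi κ b := by
    have h := E_Zi_conj h0 h1 hbn
    rw [conj_ofReal] at h
    exact h.symm
  have h5 : Zi κ b = ((Zi κ b).re : ℂ) := (conj_eq_iff_re.1 h4).symm
  refine ⟨(Zi κ b).re, ?_, h5⟩
  by_contra hlt
  push Not at hlt
  have h6 : |(Zi κ b).re| < 5 / 4 := ((abs_re_le_norm _).trans h2).trans_lt (by norm_num)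
  have h7 := g15_mono h0 h1 (s := (Zi κ b).re) (t := 2 * κ) h6 (by rw [abs_of_nonneg (by linarith)]; linarith) hlt.le
  rw [← h5, h3, sub_re, haa, ofReal_re] at h7
  linarith

/-- If `Zi κ (M (e z)) = 2κ` then `M (e z) = WW κ (2κ) = aa κ = M (e z0)`, so `z = z0` (`M` and `e` are injective), `M z = -b`,
`Gz κ M z + 2κ = -Zi κ b + 2κ ≤ 0` is not in the slit plane (`E_Zi_neg`, `G15_Zi`). -/
theorem G15_ne {κ K : ℝ} {M : SU} {e : Disc ≃ₜ Disc} (hD : GD κ K M e) {z : ℂ} (hz : z ∈ GU κ M) :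
    Gz κ M (ext e z) - 2 * κ ≠ 0 := by
  intro hcon
  obtain ⟨hz1, hz2⟩ := hz
  obtain ⟨z0, b, hb, hb1, hp1, hp2⟩ := hD.pt
  have h0 := hD.h0.le
  have h1 := hD.h1
  have hez : ext e z = (e ⟨z, hz1⟩ : Disc) := by
    unfold ext
    rw [dif_pos hz1]
  have hlt : ‖M.app (ext e z)‖ < 1 := by
    rw [hez]
    exact M.app_norm_lt (e ⟨z, hz1⟩).2
  have h2 : Zi κ (M.app (ext e z)) = 2 * κ := sub_eq_zero.1 hcon
  have h3 := (E_Zi h0 h1 (w := M.app (ext e z)) (hlt.le.trans (by norm_num))).2.1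
  rw [h2, E_aa_WW h0 h1, ← hp2] at h3
  have h4 : SU.act M (e z0) = SU.act M (e ⟨z, hz1⟩) := by
    apply Subtype.ext
    rw [SU.act_coe, SU.act_coe, h3, hez]
  have h5 : z0 = ⟨z, hz1⟩ := e.injective ((SU.act M).injective h4)
  have h6 : M.app z = -(b : ℂ) := by
    rw [← hp1, h5]
  obtain ⟨t, ht, hZt⟩ := G15_Zi h0 h1 hb hb1
  have hbn : ‖(b : ℂ)‖ ≤ 11 / 10 := by
    have h7 : ‖M.app z‖ < 1 := M.app_norm_lt hz1
    rw [h6, norm_neg] at h7
    linarith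
  have h8 : Gz κ M z + 2 * κ = ((2 * κ - t : ℝ) : ℂ) := by
    unfold Gz
    rw [h6, E_Zi_neg h0 h1 hbn, hZt]
    push_cast
    ring
  rw [h8, ofReal_mem_slitPlane] at hz2
  linarith

end Pool.Agent.Lib.H11Q
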