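import Pool.Agent.Lib.H11Q.G15A
import Pool.Agent.Lib.H11Q.G15B

set_option autoImplicit false

namespace Pool.Agent.Lib.H11Q

open Complex Set MeasureTheory
open scoped ComplexConjugate Topology

/-! G15C (S/M): existence of `G`. -/

theorem g15_convex : Convex ℝ GH := by
  have h1 : GH = {ξ : ℂ | 0 < ξ.re} ∩ Metric.ball 0 1 := by
    ext ξ
    unfold GH
    rw [mem_inter_iff, mem_ball_zero_iff]
    rfl
  rw [h1]
  exact (convex_halfSpace_re_gt 0).inter (convex_ball 0 1)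

theorem g15_open : IsOpen GH := by
  have h1 : IsOpen {ξ : ℂ | 0 < ξ.re} := isOpen_lt continuous_const Complex.continuous_re
  have h2 : IsOpen {ξ : ℂ | ‖ξ‖ < 1} := isOpen_lt continuous_norm continuous_const
  exact h1.inter h2

theorem g15_ne : GH.Nonempty := ⟨1 / 2, by norm_num, by norm_num⟩

theorem g15_Gz {κ : ℝ} (h0 : 0 ≤ κ) (h1 : κ ≤ 1 / 10) (M : SU) {z : ℂ} (hz : ‖z‖ < 1) :
    ContinuousAt (Gz κ M) z := by
  have h2 : ContinuousAt M.app z := (C_app_deriv M hz.le).hasDerivAt.continuousAt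
  have h3 : ‖M.app z‖ < 1 := M.app_norm_lt hz
  have h4 : ContinuousAt (Zi κ) (M.app z) := (E_Zi_deriv h0 h1 (by linarith)).continuousAt
  exact ContinuousAt.comp (f := M.app) (g := Zi κ) h4 h2

theorem g15_Gx (κ : ℝ) : Continuous (Gx κ) := by
  have h : Gx κ = fun σ : ℂ => ((σ.re / (1 + κ) : ℝ) : ℂ) + ((σ.im / (1 - κ) : ℝ) : ℂ) * I := by
    funext σ
    unfold Gx
    exact Complex.mk_eq_add_mul_I _ _
  rw [h]
  fun_prop

/-- `h ξ := Gz κ M (ext e (M⁻¹ (beta κ ξ))) - 2κ` is continuous on the convex open set `GH` (`G12_phi`, `c05_cont`, `E_Zi_deriv`) and nowhere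
zero there (`G11_inv`, `G15_ne`); `G15_sqrt` gives `g`; `G z := g (Gy κ M z)` (`M⁻¹ (beta κ (Gy κ M z)) = z` by `G11_mem`;
`Gy κ M` is continuous on `GU κ M` by `G12_diff`). -/
theorem G15_exists {κ K : ℝ} {M : SU} {e : Disc ≃ₜ Disc} (hD : GD κ K M e) : ∃ G, GG κ M e G := by
  have h0 := hD.h0.le
  have h1 := hD.h1
  have hGU : ∀ ξ ∈ GH, M⁻¹.app (beta κ ξ) ∈ GU κ M := fun ξ hξ => (G11_inv h0 h1 M hξ).1
  have hphi : ContinuousOn (fun ξ => M⁻¹.app (beta κ ξ)) GH := (G12_phi h0 h1 M).mono fun ξ hξ => by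
    rw [mem_closedBall_zero_iff]
    exact hξ.2.le
  have hext : ∀ z : ℂ, ‖z‖ < 1 → ContinuousAt (ext e) z ∧ ‖ext e z‖ < 1 := by
    intro z hz
    refine ⟨c05_cont e ⟨z, hz⟩, ?_⟩
    have h2 := c05_coe e ⟨z, hz⟩
    have h3 : ext e z = e ⟨z, hz⟩ := h2
    rw [h3]
    exact (e ⟨z, hz⟩).2
  have hc : ContinuousOn (fun ξ => Gz κ M (ext e (M⁻¹.app (beta κ ξ))) - 2 * κ) GH := by
    intro ξ hξ
    have h2 := hphi ξ hξ
    have h3 := hext _ (hGU ξ hξ).1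
    have h4 : ContinuousAt (fun z => Gz κ M (ext e z)) (M⁻¹.app (beta κ ξ)) :=
      ContinuousAt.comp (g := Gz κ M) (g15_Gz h0 h1 M h3.2) h3.1
    have h5 : ContinuousWithinAt (fun ξ => Gz κ M (ext e (M⁻¹.app (beta κ ξ)))) GH ξ :=
      ContinuousAt.comp_continuousWithinAt (g := fun z => Gz κ M (ext e z)) h4 h2
    exact h5.sub continuousWithinAt_const
  obtain ⟨g, hg, hg2⟩ := G15_sqrt g15_convex g15_open g15_ne hc fun ξ hξ => G15_ne hD (hGU ξ hξ)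
  refine ⟨fun z => g (Gy κ M z), ?_, ?_⟩
  · refine hg.comp ?_ fun z hz => (G11_mem h0 h1 hz).1
    exact (g15_Gx κ).comp_continuousOn (G12_diff h0 h1 M).continuousOn
  · intro z hz
    have h2 := G11_mem h0 h1 hz
    show g (Gy κ M z) ^ 2 = _
    rw [hg2 _ h2.1, ← h2.2.1, ← SU.app_mul _ _ hz.1.le, inv_mul_cancel, SU.app_one]

end Pool.Agent.Lib.H11Q
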