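import Pool.Agent.Lib.H11Q.G00

set_option autoImplicit false

namespace Pool.Agent.Lib.H11Q

open Complex Set MeasureTheory
open scoped ComplexConjugate Topology

/-! G13 (M): volumes. -/

theorem g13_line : volume {ξ : ℂ | ξ.re = 0} = 0 := by
  have h := MeasureTheory.Measure.addHaar_submodule (volume : Measure ℂ) (LinearMap.ker Complex.reLm) (fun h => by
    have h1 : (1 : ℂ) ∈ LinearMap.ker Complex.reLm := by
      rw [h]
      trivial
    have h2 : ((1 : ℂ)).re = 0 := h1
    norm_num at h2)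
  exact h

theorem g13_meas : MeasurableSet GH := by
  have h1 : MeasurableSet {ξ : ℂ | 0 < ξ.re} := measurableSet_lt measurable_const Complex.measurable_re
  have h2 : MeasurableSet {ξ : ℂ | ‖ξ‖ < 1} := measurableSet_lt measurable_norm measurable_const
  exact h1.inter h2

theorem g13_pi : ((NNReal.pi : NNReal) : ENNReal) = ENNReal.ofReal Real.pi := by
  rw [← NNReal.coe_real_pi, ENNReal.ofReal_coe_nnreal]

/-- The disc is the disjoint union of `GH`, `-GH` and a subset of the line `re = 0` (null); `-GH` has the same volume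
(`Measure.IsAddHaarMeasure`, `measure_neg` or `Measure.addHaar_image_..`); `Complex.volume_ball`. -/
theorem G13_half : volume GH = ENNReal.ofReal (Real.pi / 2) := by
  have h1 : volume (Metric.ball (0 : ℂ) 1) = ENNReal.ofReal Real.pi := by
    rw [Complex.volume_ball, ENNReal.ofReal_one, one_pow, one_mul, g13_pi]
  have h2 : volume (Metric.ball (0 : ℂ) 1 \ GH) = volume (-GH) := by
    refine measure_congr ?_
    have hnull : ∀ᵐ ξ : ℂ, ξ.re ≠ 0 := by
      rw [ae_iff]
      simpa using g13_line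
    filter_upwards [hnull] with ξ hξ
    apply propext
    show ξ ∈ Metric.ball (0 : ℂ) 1 \ GH ↔ ξ ∈ -GH
    rw [Set.mem_neg, mem_sdiff, mem_ball_zero_iff]
    unfold GH
    simp only [mem_ofPred_eq, neg_re, norm_neg]
    constructor
    · rintro ⟨h3, h4⟩
      refine ⟨?_, h3⟩
      by_contra h5
      refine h4 ⟨lt_of_le_of_ne ?_ (Ne.symm hξ), h3⟩
      linarith
    · rintro ⟨h3, h4⟩
      exact ⟨h4, fun h5 => by linarith [h5.1]⟩
  have h3 : volume (-GH) = volume GH := Measure.measure_neg volume GH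
  have h4 : GH ⊆ Metric.ball (0 : ℂ) 1 := fun ξ hξ => mem_ball_zero_iff.2 hξ.2
  have h5 := measure_inter_add_sdiff (μ := volume) (Metric.ball (0 : ℂ) 1) g13_meas
  rw [inter_eq_self_of_subset_right h4, h2, h3, h1] at h5
  have h6 : volume GH + volume GH = ENNReal.ofReal (Real.pi / 2) + ENNReal.ofReal (Real.pi / 2) := by
    rw [h5, ← ENNReal.ofReal_add (by positivity) (by positivity)]
    congr 1
    ring
  have h7 : volume GH ≠ ⊤ := by
    refine (measure_mono h4).trans_lt ?_ |>.ne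
    rw [h1]
    exact ENNReal.ofReal_lt_top
  lift volume GH to NNReal using h7 with x hx
  have h8 : ENNReal.ofReal (Real.pi / 2) = ((Real.pi / 2).toNNReal : ENNReal) := rfl
  rw [h8] at h6 ⊢
  norm_cast at h6 ⊢
  have h9 : (x : ℝ) + x = (Real.pi / 2).toNNReal + (Real.pi / 2).toNNReal := by exact_mod_cast h6
  apply NNReal.coe_injective
  linarith

/-- `Gs κ` is the real linear map `ab 1 κ` with determinant `1 - κ²` (`C_ab_det`): `Measure.addHaar_image_continuousLinearMap`. -/
theorem G13_img {κ : ℝ} (h : |κ| < 1) (A : Set ℂ) :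
    volume (Gs κ '' A) = ENNReal.ofReal (1 - κ ^ 2) * volume A := by
  have h1 : Gs κ = (ab 1 κ : ℂ → ℂ) := by
    funext ξ
    rw [ab_apply]
    unfold Gs
    ring
  rw [h1]
  have h2 := Measure.addHaar_image_continuousLinearMap (volume : Measure ℂ) (ab 1 κ) A
  rw [h2]
  have h3 : LinearMap.det ((ab 1 κ : ℂ →L[ℝ] ℂ) : ℂ →ₗ[ℝ] ℂ) = 1 - κ ^ 2 := by
    have h4 := C_ab_det 1 (κ : ℂ)
    rw [ContinuousLinearMap.det] at h4
    rw [h4, norm_one, Complex.norm_real, Real.norm_eq_abs, sq_abs]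
    norm_num
  rw [h3]
  have h5 : 0 ≤ 1 - κ ^ 2 := by
    have := (sq_lt_one_iff_abs_lt_one κ).2 h
    linarith
  rw [abs_of_nonneg h5]

theorem g13_sqrt (x : ℝ) : ENNReal.ofReal (Real.sqrt x) ^ 2 = ENNReal.ofReal x := by
  rcases le_total 0 x with h | h
  · rw [← ENNReal.ofReal_pow (Real.sqrt_nonneg x), Real.sq_sqrt h]
  · rw [Real.sqrt_eq_zero_of_nonpos h, ENNReal.ofReal_zero, ENNReal.ofReal_of_nonpos h]
    norm_num

/-- The set is contained in the difference of the closed ball of radius `√(1 - 1/n)` and the open ball of radius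
`√(1 - 2/n)` (for `n = 1` the whole set is a point or the ball of radius `0`); `Complex.volume_ball`,
`Complex.volume_closedBall`. -/
theorem G13_ann {n : ℕ} (hn : 1 ≤ n) :
    volume {ξ : ℂ | 1 ≤ n * (1 - normSq ξ) ∧ n * (1 - normSq ξ) ≤ 2} ≤ ENNReal.ofReal (Real.pi / n) := by
  have hn0 : (0 : ℝ) < n := by exact_mod_cast hn
  have h1 : {ξ : ℂ | 1 ≤ n * (1 - normSq ξ) ∧ n * (1 - normSq ξ) ≤ 2} ⊆
      Metric.closedBall 0 (Real.sqrt (1 - 1 / n)) \ Metric.ball 0 (Real.sqrt (1 - 2 / n)) := by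
    rintro ξ ⟨h2, h3⟩
    rw [Complex.normSq_eq_norm_sq] at h2 h3
    have h4 : ‖ξ‖ ^ 2 ≤ 1 - 1 / n := by
      rw [le_sub_iff_add_le, ← le_sub_iff_add_le', div_le_iff₀ hn0]
      linarith
    have h5 : 1 - 2 / n ≤ ‖ξ‖ ^ 2 := by
      rw [sub_le_iff_le_add, ← sub_le_iff_le_add', le_div_iff₀ hn0]
      linarith
    constructor
    · rw [mem_closedBall_zero_iff]
      exact Real.le_sqrt_of_sq_le h4
    · rw [mem_ball_zero_iff, not_lt]
      exact Real.sqrt_le_iff.2 ⟨norm_nonneg _, h5⟩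
  have hn1 : (1 : ℝ) ≤ n := by exact_mod_cast hn
  have h6 : (1 : ℝ) - 2 / n ≤ 1 - 1 / n := by
    have : (1 : ℝ) / n ≤ 2 / n := by
      apply div_le_div_of_nonneg_right _ hn0.le
      norm_num
    linarith
  have h7 : Metric.ball (0 : ℂ) (Real.sqrt (1 - 2 / n)) ⊆ Metric.closedBall 0 (Real.sqrt (1 - 1 / n)) :=
    (Metric.ball_subset_closedBall).trans (Metric.closedBall_subset_closedBall (Real.sqrt_le_sqrt h6))
  refine (measure_mono h1).trans ?_
  rw [measure_sdiff h7 measurableSet_ball.nullMeasurableSet (by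
    rw [Complex.volume_ball]
    exact ENNReal.mul_ne_top (ENNReal.pow_ne_top ENNReal.ofReal_ne_top) ENNReal.coe_ne_top)]
  rw [Complex.volume_ball, Complex.volume_closedBall, g13_sqrt, g13_sqrt, tsub_le_iff_right, g13_pi,
    ← ENNReal.ofReal_mul' Real.pi_pos.le, ← ENNReal.ofReal_mul' Real.pi_pos.le]
  refine le_trans (ENNReal.ofReal_le_ofReal (le_of_eq ?_)) (ENNReal.ofReal_add_le)
  field_simp
  ring

end Pool.Agent.Lib.H11Q
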