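import Pool.Agent.Lib.H11Q.G15B
import Pool.Agent.Lib.H11Q.G13

set_option autoImplicit false

namespace Pool.Agent.Lib.H11Q

open Complex Set MeasureTheory
open scoped ComplexConjugate Topology

/-! G16 (M): `G` is injective, `G(U)` and `-G(U)` are disjoint subsets of the ellipse. -/

theorem g16_ext (e : Disc ≃ₜ Disc) {z : ℂ} (hz : ‖z‖ < 1) : ‖ext e z‖ < 1 := by
  have h1 : ext e z = (e ⟨z, hz⟩ : ℂ) := c05_coe e ⟨z, hz⟩
  rw [h1]
  exact (e ⟨z, hz⟩).2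

theorem g16_sq {κ K : ℝ} {M : SU} {e : Disc ≃ₜ Disc} (hD : GD κ K M e) {G : ℂ → ℂ} (hG : GG κ M e G)
    {z z' : ℂ} (hz : z ∈ GU κ M) (hz' : z' ∈ GU κ M) (h : G z ^ 2 = G z' ^ 2) : z = z' := by
  rw [hG.sq z hz, hG.sq z' hz'] at h
  have h2 : Gz κ M (ext e z) = Gz κ M (ext e z') := by linear_combination h
  unfold Gz at h2
  have n1 := g16_ext e hz.1
  have n2 := g16_ext e hz'.1
  have m1 : ‖M.app (ext e z)‖ ≤ 11 / 10 := (M.app_norm_lt n1).le.trans (by norm_num)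
  have m2 : ‖M.app (ext e z')‖ ≤ 11 / 10 := (M.app_norm_lt n2).le.trans (by norm_num)
  have h3 : M.app (ext e z) = M.app (ext e z') := by
    rw [← (E_Zi hD.h0.le hD.h1 m1).2.1, ← (E_Zi hD.h0.le hD.h1 m2).2.1, h2]
  have h4 : ext e z = ext e z' := by
    rw [← g12_inv M n1, ← g12_inv M n2, h3]
  have e1 : ext e z = (e ⟨z, hz.1⟩ : ℂ) := c05_coe e ⟨z, hz.1⟩
  have e2 : ext e z' = (e ⟨z', hz'.1⟩ : ℂ) := c05_coe e ⟨z', hz'.1⟩
  rw [e1, e2] at h4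
  have h5 := e.injective (Subtype.ext h4)
  exact congrArg Subtype.val h5

/-- `G z ² = G z' ²` implies `Zi κ (M (e z)) = Zi κ (M (e z'))`, so `z = z'` (`E_Zi`: `WW κ (Zi κ w) = w`; `M`, `e` injective).  If
`G z = -G z'` then `z = z'` and `G z = 0`, against `G15_ne`. -/
theorem G16_inj {κ K : ℝ} {M : SU} {e : Disc ≃ₜ Disc} (hD : GD κ K M e) {G : ℂ → ℂ} (hG : GG κ M e G) :
    InjOn G (GU κ M) ∧ ∀ z ∈ GU κ M, ∀ z' ∈ GU κ M, G z ≠ -G z' := by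
  constructor
  · intro z hz z' hz' h
    exact g16_sq hD hG hz hz' (by rw [h])
  · intro z hz z' hz' h
    have h2 := g16_sq hD hG hz hz' (by rw [h]; ring)
    rw [← h2] at h
    have h3 : G z = 0 := by linear_combination h / 2
    refine G15_ne hD hz ?_
    rw [← hG.sq z hz, h3]
    ring

/-- `w = M (e z)`, `‖w‖ < 1`: `w = beta' κ ξ` with `‖ξ‖ ≤ 1` (`E_beta_surj`), `‖ξ‖ ≠ 1` (`E_beta_eq`), `Zi κ w = ZZ' κ ξ`
(`E10_WW`; `‖ZZ' κ ξ‖ ≤ 1 + κ²` as for `ZZ`: `ZZ' κ ξ = -ZZ κ (I ξ)`), so `G z ² = (Gs (-κ) ξ)²`, `G z = ± Gs (-κ) ξ`. -/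
theorem G16_mem {κ K : ℝ} {M : SU} {e : Disc ≃ₜ Disc} (hD : GD κ K M e) {G : ℂ → ℂ} (hG : GG κ M e G)
    {z : ℂ} (hz : z ∈ GU κ M) : ∃ ξ : ℂ, ‖ξ‖ < 1 ∧ G z = Gs (-κ) ξ := by
  have h0 := hD.h0.le
  have h1 := hD.h1
  have n1 := M.app_norm_lt (g16_ext e hz.1)
  obtain ⟨ξ, hξ, hw⟩ := (E_beta_surj h0 h1 n1.le).2
  have hξ1 : ‖ξ‖ < 1 := by
    refine lt_of_le_of_ne hξ fun h => ?_
    obtain ⟨a1, a2⟩ := E_beta_eq h0 h1 h
    rw [← hw, a2, a1] at n1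
    exact lt_irrefl _ n1
  have h2 := (E14_norm h0 h1 hξ).2
  have h3 : ‖ZZ' κ ξ‖ < 5 / 4 := by nlinarith
  have h4 : Zi κ (M.app (ext e z)) = ZZ' κ ξ := by
    rw [← hw]
    unfold beta'
    refine E10_WW h0 h1 h3 ?_
    have : WW κ (ZZ' κ ξ) = M.app (ext e z) := hw
    rw [this]
    exact n1.le.trans (by norm_num)
  have h5 : G z ^ 2 = (Gs (-κ) ξ) ^ 2 := by
    rw [hG.sq z hz]
    unfold Gz
    rw [h4]
    unfold ZZ' Gs
    push_cast
    ring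
  rcases sq_eq_sq_iff_eq_or_eq_neg.mp h5 with h6 | h6
  · exact ⟨ξ, hξ1, h6⟩
  · refine ⟨-ξ, by rwa [norm_neg], ?_⟩
    rw [h6]
    unfold Gs
    rw [map_neg]
    ring

/-- `A = G '' GU κ M` is measurable (`MeasurableSet.image_of_continuousOn_injOn`), `A` and `-A` are disjoint subsets
of `Gs (-κ) '' ball 0 1` with the same volume, so `2 volume A ≤ (1 - κ²) π` (`G13_img`, `Complex.volume_ball`). -/
theorem G16_vol {κ K : ℝ} {M : SU} {e : Disc ≃ₜ Disc} (hD : GD κ K M e) {G : ℂ → ℂ} (hG : GG κ M e G) :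
    volume (G '' GU κ M) ≤ ENNReal.ofReal ((1 - κ ^ 2) * (Real.pi / 2)) := by
  have h0 := hD.h0.le
  have h1 := hD.h1
  obtain ⟨i1, i2⟩ := G16_inj hD hG
  have hU := (G12_open h0 h1 M).measurableSet
  obtain ⟨A, hA⟩ : ∃ A : Set ℂ, A = G '' GU κ M := ⟨_, rfl⟩
  have hAm : MeasurableSet A := by
    rw [hA]
    exact hU.image_of_continuousOn_injOn hG.cont i1
  have hsub : A ∪ -A ⊆ Gs (-κ) '' Metric.ball 0 1 := by
    rintro w (hw | hw)
    · rw [hA] at hw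
      obtain ⟨z, hz, rfl⟩ := hw
      obtain ⟨ξ, hξ, e1⟩ := G16_mem hD hG hz
      exact ⟨ξ, by simpa using hξ, e1.symm⟩
    · rw [hA] at hw
      obtain ⟨z, hz, hzw⟩ := hw
      obtain ⟨ξ, hξ, e1⟩ := G16_mem hD hG hz
      refine ⟨-ξ, by simpa using hξ, ?_⟩
      have e2 : Gs (-κ) (-ξ) = -Gs (-κ) ξ := by
        unfold Gs
        rw [map_neg]
        ring
      rw [e2, ← e1, hzw, neg_neg]
  have hdis : Disjoint A (-A) := by
    rw [Set.disjoint_left]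
    intro w hw hw'
    rw [hA] at hw hw'
    obtain ⟨z, hz, e1⟩ := hw
    obtain ⟨z', hz', e2⟩ := hw'
    refine i2 z hz z' hz' ?_
    rw [e1, e2, neg_neg]
  have hv : volume (-A) = volume A := Measure.measure_neg volume A
  have h2 : volume (A ∪ -A) = volume A + volume A := by
    rw [measure_union hdis hAm.neg, hv]
  have hκ : |(-κ)| < 1 := by
    rw [abs_neg, abs_of_nonneg h0]
    linarith
  have h3 : volume A + volume A ≤ ENNReal.ofReal ((1 - κ ^ 2) * Real.pi) := by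
    rw [← h2]
    refine (measure_mono hsub).trans ?_
    rw [G13_img hκ, Complex.volume_ball, neg_sq]
    have : 0 ≤ 1 - κ ^ 2 := by nlinarith
    rw [ENNReal.ofReal_mul this]
    simp [ENNReal.ofReal, Real.toNNReal_of_nonneg Real.pi_pos.le, NNReal.pi]
    rfl
  rw [← hA]
  have h4 : ENNReal.ofReal ((1 - κ ^ 2) * Real.pi) = ENNReal.ofReal ((1 - κ ^ 2) * (Real.pi / 2)) +
      ENNReal.ofReal ((1 - κ ^ 2) * (Real.pi / 2)) := by
    have : 0 ≤ (1 - κ ^ 2) * (Real.pi / 2) := by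
      have : 0 ≤ 1 - κ ^ 2 := by nlinarith
      have := Real.pi_pos
      positivity
    rw [← ENNReal.ofReal_add this this]
    congr 1
    ring
  rw [h4] at h3
  by_contra hcon
  push Not at hcon
  exact absurd h3 (not_le.2 (ENNReal.add_lt_add hcon hcon))

end Pool.Agent.Lib.H11Q
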