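import Pool.Agent.Lib.H11Q.G00

set_option autoImplicit false

namespace Pool.Agent.Lib.H11Q

open Complex Set MeasureTheory
open scoped ComplexConjugate Topology

/-! G17B (M): the sign. -/

/-- `‖ξ - κ conj ξ‖ ≥ 2/5`. -/
theorem g17_L {κ : ℝ} (h0 : 0 ≤ κ) (h1 : κ ≤ 1 / 10) {ξ : ℂ} (hξ : 1 / 2 ≤ ‖ξ‖) : 2 / 5 ≤ ‖Gs (-κ) ξ‖ := by
  have h2 : ‖ξ‖ - ‖(κ : ℂ) * conj ξ‖ ≤ ‖Gs (-κ) ξ‖ := by
    have h3 : Gs (-κ) ξ = ξ - κ * conj ξ := by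
      unfold Gs
      push_cast
      ring
    rw [h3]
    exact norm_sub_norm_le _ _
  have h4 : ‖(κ : ℂ) * conj ξ‖ = κ * ‖ξ‖ := by
    rw [norm_mul, Complex.norm_real, RCLike.norm_conj, Real.norm_eq_abs, abs_of_nonneg h0]
  rw [h4] at h2
  nlinarith

/-- A continuous function without zeros on a preconnected set has a constant sign. -/
theorem g17_const {X : Type*} [TopologicalSpace X] {P : Set X} (hP : IsPreconnected P) {f : X → ℝ}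
    (hf : ContinuousOn f P) (h0 : ∀ x ∈ P, f x ≠ 0) : (∀ x ∈ P, 0 < f x) ∨ ∀ x ∈ P, f x < 0 := by
  by_contra hcon
  push Not at hcon
  obtain ⟨⟨x, hx, hx0⟩, y, hy, hy0⟩ := hcon
  have := hP.intermediate_value hx hy hf ⟨hx0, hy0⟩
  obtain ⟨z, hz, hz0⟩ := this
  exact h0 z hz hz0

/-- Write `L = Gs (-κ) ξ`, `Re L = (1 - κ) Re ξ > 0` on `GH`, `‖L‖ ≥ (1 - κ) ‖ξ‖ ≥ 2/5` for `‖ξ‖ ≥ 1/2`.  Let `δ0 ≤ 1/2` belong to
`η0 = 1/100`: on the half annulus `N = {ξ ∈ GH : 1 - δ0 < ‖ξ‖}` the quotient `R = g / L` satisfies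
`‖R² - 1‖ ≤ (1/100) / (4/25) < 1`, so `Re (R²) > 0`, so `Re R ≠ 0`.  `N` is connected (image of
`(1 - δ0, 1) × (-π/2, π/2)` under `r exp (i θ)`; or path connected), so the sign of `Re R` is constant on `N`
(`IsPreconnected` and the intermediate value theorem); let `ε = ±1` be this sign (`N` is not empty).  Then
`‖ε g + L‖ = ‖L‖ ‖ε R + 1‖ ≥ ‖L‖ ≥ 2/5` and `‖ε g - L‖ = ‖g² - L²‖ / ‖ε g + L‖ ≤ (5/2) ‖g² - L²‖`. -/
theorem G17_sign {κ : ℝ} (h0 : 0 ≤ κ) (h1 : κ ≤ 1 / 10) {g : ℂ → ℂ} (hg : ContinuousOn g GH)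
    (h : ∀ η > 0, ∃ δ > 0, ∀ ξ ∈ GH, 1 - δ < ‖ξ‖ → ‖g ξ ^ 2 - Gs (-κ) ξ ^ 2‖ ≤ η) :
    ∃ ε : ℂ, (ε = 1 ∨ ε = -1) ∧
      ∀ η > 0, ∃ δ > 0, ∀ ξ ∈ GH, 1 - δ < ‖ξ‖ → ‖ε * g ξ - Gs (-κ) ξ‖ ≤ η := by
  obtain ⟨δ0, hδ0, hd0⟩ := h (1 / 100) (by norm_num)
  set δ1 : ℝ := min δ0 (1 / 2) with hδ1
  have hδ1p : 0 < δ1 := lt_min hδ0 (by norm_num)
  have hδ1h : δ1 ≤ 1 / 2 := min_le_right _ _
  set N : Set ℂ := {ξ | ξ ∈ GH ∧ 1 - δ1 < ‖ξ‖} with hN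
  have hNH : N ⊆ GH := fun ξ hξ => hξ.1
  have hNn : ∀ ξ ∈ N, 1 / 2 ≤ ‖ξ‖ := fun ξ hξ => by
    have := hξ.2
    linarith
  have hL : ∀ ξ ∈ N, 2 / 5 ≤ ‖Gs (-κ) ξ‖ := fun ξ hξ => g17_L h0 h1 (hNn ξ hξ)
  have hL0 : ∀ ξ ∈ N, Gs (-κ) ξ ≠ 0 := fun ξ hξ h3 => by
    have := hL ξ hξ
    rw [h3, norm_zero] at this
    linarith
  set R : ℂ → ℂ := fun ξ => g ξ / Gs (-κ) ξ with hR
  have hGsc : Continuous (Gs (-κ)) := by
    unfold Gs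
    fun_prop
  have hRc : ContinuousOn R N := (hg.mono hNH).div hGsc.continuousOn hL0
  have hRre : ∀ ξ ∈ N, (R ξ).re ≠ 0 := by
    intro ξ hξ h3
    have h4 : ‖g ξ ^ 2 - Gs (-κ) ξ ^ 2‖ ≤ 1 / 100 := hd0 ξ hξ.1 (by
      have h5 := hξ.2
      have h6 : δ1 ≤ δ0 := min_le_left _ _
      linarith)
    have h7 : R ξ ^ 2 - 1 = (g ξ ^ 2 - Gs (-κ) ξ ^ 2) / Gs (-κ) ξ ^ 2 := by
      have := hL0 ξ hξ
      simp only [hR]
      field_simp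
    have h8 : ‖R ξ ^ 2 - 1‖ < 1 := by
      rw [h7, norm_div, norm_pow, div_lt_one (by have := hL ξ hξ; positivity)]
      have := hL ξ hξ
      nlinarith
    have h9 : ((R ξ ^ 2 - 1)).re ≤ -1 := by
      have h10 : (R ξ ^ 2).re = (R ξ).re ^ 2 - (R ξ).im ^ 2 := by
        rw [sq, Complex.mul_re]
        ring
      rw [Complex.sub_re, h10, h3, Complex.one_re]
      nlinarith [sq_nonneg (R ξ).im]
    have h11 := Complex.abs_re_le_norm (R ξ ^ 2 - 1)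
    have h12 := neg_abs_le (R ξ ^ 2 - 1).re
    linarith
  have hNc : IsPreconnected N := by
    have h3 : N = (fun p : ℝ × ℝ => (p.1 : ℂ) * exp (p.2 * I)) '' (Ioo (1 - δ1) 1 ×ˢ Ioo (-(Real.pi / 2)) (Real.pi / 2)) := by
      ext ξ
      constructor
      · intro hξ
        refine ⟨(‖ξ‖, arg ξ), ⟨⟨hξ.2, hξ.1.2⟩, ?_⟩, Complex.norm_mul_exp_arg_mul_I ξ⟩
        have h4 := (Complex.abs_arg_lt_pi_div_two_iff (z := ξ)).2 (Or.inl hξ.1.1)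
        exact abs_lt.1 h4
      · rintro ⟨⟨r, θ⟩, ⟨hr, hθ⟩, rfl⟩
        simp only at hr hθ ⊢
        have hr0 : 0 < r := by linarith [hr.1]
        have h5 : ‖(r : ℂ) * exp (θ * I)‖ = r := by
          rw [norm_mul, Complex.norm_exp_ofReal_mul_I, mul_one, Complex.norm_real, Real.norm_eq_abs, abs_of_pos hr0]
        refine ⟨⟨?_, ?_⟩, ?_⟩
        · rw [Complex.re_ofReal_mul, Complex.exp_ofReal_mul_I_re]
          exact mul_pos hr0 (Real.cos_pos_of_mem_Ioo hθ)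
        · rw [h5]
          exact hr.2
        · rw [h5]
          exact hr.1
    rw [h3]
    refine IsPreconnected.image ?_ _ (by fun_prop)
    exact ((convex_Ioo _ _).prod (convex_Ioo _ _)).isPreconnected
  obtain ⟨ε, hε, hεR⟩ : ∃ ε : ℝ, (ε = 1 ∨ ε = -1) ∧ ∀ ξ ∈ N, 0 < ε * (R ξ).re := by
    rcases g17_const hNc (Complex.continuous_re.comp_continuousOn hRc) hRre with h3 | h3
    · exact ⟨1, Or.inl rfl, fun ξ hξ => by
        have := h3 ξ hξ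
        simpa using this⟩
    · exact ⟨-1, Or.inr rfl, fun ξ hξ => by
        have := h3 ξ hξ
        simp only [Function.comp_apply] at this
        linarith⟩
  refine ⟨ε, ?_, ?_⟩
  · rcases hε with h3 | h3
    · left
      rw [h3]
      norm_num
    · right
      rw [h3]
      norm_num
  intro η hη
  obtain ⟨δ2, hδ2, hd2⟩ := h (2 / 5 * η) (by positivity)
  refine ⟨min δ2 δ1, lt_min hδ2 hδ1p, fun ξ hξ hξ1 => ?_⟩
  have hξN : ξ ∈ N := ⟨hξ, by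
    have := min_le_right δ2 δ1
    linarith⟩
  have h3 : ‖g ξ ^ 2 - Gs (-κ) ξ ^ 2‖ ≤ 2 / 5 * η := hd2 ξ hξ (by
    have := min_le_left δ2 δ1
    linarith)
  have hε2 : (ε : ℂ) ^ 2 = 1 := by
    rcases hε with h4 | h4 <;> rw [h4] <;> norm_num
  have h5 : (ε * g ξ - Gs (-κ) ξ) * (ε * g ξ + Gs (-κ) ξ) = g ξ ^ 2 - Gs (-κ) ξ ^ 2 := by
    linear_combination g ξ ^ 2 * hε2
  have h6 : 2 / 5 ≤ ‖ε * g ξ + Gs (-κ) ξ‖ := by
    have h7 : (ε : ℂ) * g ξ + Gs (-κ) ξ = Gs (-κ) ξ * (ε * R ξ + 1) := by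
      have := hL0 ξ hξN
      simp only [hR]
      field_simp
    rw [h7, norm_mul]
    have h8 : 1 ≤ ‖(ε : ℂ) * R ξ + 1‖ := by
      have h9 := Complex.re_le_norm ((ε : ℂ) * R ξ + 1)
      rw [Complex.add_re, Complex.re_ofReal_mul, Complex.one_re] at h9
      have := hεR ξ hξN
      linarith
    have := hL ξ hξN
    nlinarith
  rw [← h5, norm_mul] at h3
  have h10 : 0 ≤ ‖(ε : ℂ) * g ξ - Gs (-κ) ξ‖ := norm_nonneg _
  nlinarith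

end Pool.Agent.Lib.H11Q
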