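import Pool.Agent.Lib.H11Q.G17A
import Pool.Agent.Lib.H11Q.G17B

set_option autoImplicit false

namespace Pool.Agent.Lib.H11Q

open Complex Set MeasureTheory
open scoped ComplexConjugate Topology

/-! G17C (S/M): boundary values of `G`. -/

/-- `g ξ := G (M⁻¹ (beta κ ξ))` is continuous on `GH` (`G12_phi`, `G11_inv`), `g² - (Gs (-κ))²` is small by `G17_cont` and
`hG.sq`; `G17_sign`; then `ξ = Gy κ M z`, `M⁻¹ (beta κ ξ) = z` (`G11_mem`). -/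
theorem G17_bdry {κ K : ℝ} {M : SU} {e : Disc ≃ₜ Disc} (hD : GD κ K M e) {G : ℂ → ℂ} (hG : GG κ M e G) :
    ∃ ε : ℂ, (ε = 1 ∨ ε = -1) ∧
      ∀ η > 0, ∃ δ > 0, ∀ z ∈ GU κ M, 1 - δ < ‖Gy κ M z‖ → ‖ε * G z - GT κ M z‖ ≤ η := by
  have h0 := hD.h0.le
  have h1 := hD.h1
  have hmap : MapsTo (fun ξ => M⁻¹.app (beta κ ξ)) GH (GU κ M) := fun ξ hξ => (G11_inv h0 h1 M hξ).1
  have hGH : GH ⊆ Metric.closedBall (0 : ℂ) 1 := by
    intro ξ hξ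
    rw [mem_closedBall_zero_iff]
    exact hξ.2.le
  have hphi : ContinuousOn (fun ξ => M⁻¹.app (beta κ ξ)) (Metric.closedBall 0 1) :=
    (g17a_app_cont M⁻¹).comp (g17a_beta_cont h0 h1) (by
      intro ξ hξ
      rw [mem_closedBall_zero_iff] at hξ ⊢
      exact g17a_beta_le h0 h1 hξ)
  have hg : ContinuousOn (fun ξ => G (M⁻¹.app (beta κ ξ))) GH := hG.cont.comp (hphi.mono hGH) hmap
  obtain ⟨ε, hε, hs⟩ := G17_sign h0 h1 hg (by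
    intro η hη
    obtain ⟨δ, hδ, hd⟩ := G17_cont hD hη
    refine ⟨δ, hδ, ?_⟩
    intro ξ hξ hξ1
    have h2 := hd ξ hξ1 hξ.2
    have h3 := hG.sq _ (hmap hξ)
    beta_reduce at h3 ⊢
    rw [h3]
    exact h2)
  refine ⟨ε, hε, ?_⟩
  intro η hη
  obtain ⟨δ, hδ, hd⟩ := hs η hη
  refine ⟨δ, hδ, ?_⟩
  intro z hz hz1
  obtain ⟨hm1, hm2, hm3⟩ := G11_mem h0 h1 hz
  have h4 := hd (Gy κ M z) hm1 hz1
  have h5 : M⁻¹.app (beta κ (Gy κ M z)) = z := by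
    rw [← hm2, ← SU.app_mul _ _ (le_of_lt hz.1), inv_mul_cancel, SU.app_one]
  rw [h5] at h4
  exact h4

end Pool.Agent.Lib.H11Q
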