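import Pool.Agent.Lib.H11Q.G11

set_option autoImplicit false

namespace Pool.Agent.Lib.H11Q

open Complex Set MeasureTheory
open scoped ComplexConjugate Topology

/-! G12 (M): `ψ` is holomorphic and injective on the open set `GU κ M`. -/

theorem g12_Gz {κ : ℝ} (h0 : 0 ≤ κ) (h1 : κ ≤ 1 / 10) (M : SU) {z : ℂ} (hz : ‖z‖ < 1) :
    DifferentiableAt ℂ (Gz κ M) z := by
  have h2 : ‖M.app z‖ < 11 / 10 := (M.app_norm_lt hz).trans (by norm_num)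
  exact ((E_Zi_deriv h0 h1 h2).comp z (C_app_deriv M hz.le).hasDerivAt).differentiableAt

theorem g12_inv (M : SU) {z : ℂ} (hz : ‖z‖ < 1) : M⁻¹.app (M.app z) = z := by
  rw [← SU.app_mul _ _ hz.le, inv_mul_cancel, SU.app_one]

/-- `z ↦ M z` is holomorphic on the disc (`C_app_deriv`), `Zi κ` on `‖w‖ < 11/10` (`E_Zi_deriv`), the slit plane is open
(`isOpen_slitPlane`). -/
theorem G12_open {κ : ℝ} (h0 : 0 ≤ κ) (h1 : κ ≤ 1 / 10) (M : SU) : IsOpen (GU κ M) := by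
  have hc : ContinuousOn (fun z => Gz κ M z + 2 * κ) (Metric.ball 0 1) := fun z hz =>
    ((g12_Gz h0 h1 M (by simpa using hz)).continuousAt.add continuousAt_const).continuousWithinAt
  have h2 := hc.isOpen_inter_preimage Metric.isOpen_ball isOpen_slitPlane
  have e : GU κ M = Metric.ball 0 1 ∩ (fun z => Gz κ M z + 2 * κ) ⁻¹' slitPlane := by
    ext z
    simp [GU]
  rw [e]
  exact h2

/-- Also `DifferentiableAt.clog`. -/
theorem G12_diff {κ : ℝ} (h0 : 0 ≤ κ) (h1 : κ ≤ 1 / 10) (M : SU) :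
    DifferentiableOn ℂ (Gp κ M) (GU κ M) := by
  intro z hz
  have h2 : DifferentiableAt ℂ (fun z => Gz κ M z + 2 * κ) z := (g12_Gz h0 h1 M hz.1).add_const _
  have h3 := ((h2.clog hz.2).div_const 2).cexp
  exact h3.differentiableWithinAt

/-- `Gp κ M z` determines `Gy κ M z`, so `M z` (`G11_mem`), so `z = M⁻¹ (M z)` (`SU.app_mul`, `SU.app_one`). -/
theorem G12_inj {κ : ℝ} (h0 : 0 ≤ κ) (h1 : κ ≤ 1 / 10) (M : SU) : InjOn (Gp κ M) (GU κ M) := by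
  intro z hz z' hz' h
  obtain ⟨-, a2, -⟩ := G11_mem h0 h1 hz
  obtain ⟨-, b2, -⟩ := G11_mem h0 h1 hz'
  have h3 : Gy κ M z = Gy κ M z' := by
    unfold Gy
    rw [h]
  rw [← g12_inv M hz.1, ← g12_inv M hz'.1, a2, b2, h3]

/-- `G11_mem`, `G11_inv`. -/
theorem G12_img {κ : ℝ} (h0 : 0 ≤ κ) (h1 : κ ≤ 1 / 10) (M : SU) : Gp κ M '' GU κ M = Gs κ '' GH := by
  ext σ
  constructor
  · rintro ⟨z, hz, rfl⟩
    obtain ⟨a1, -, a3⟩ := G11_mem h0 h1 hz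
    exact ⟨_, a1, a3⟩
  · rintro ⟨ξ, hξ, rfl⟩
    obtain ⟨a1, a2, -⟩ := G11_inv h0 h1 M hξ
    exact ⟨_, a1, a2⟩

/-- `E_cont` or `E_hol` (continuity of `WW κ` on `‖Z‖ < 5/4`; `‖ZZ κ ξ‖ ≤ 1 + κ²`), `C_app_deriv`. -/
theorem G12_phi {κ : ℝ} (h0 : 0 ≤ κ) (h1 : κ ≤ 1 / 10) (M : SU) :
    ContinuousOn (fun ξ => M⁻¹.app (beta κ ξ)) (Metric.closedBall 0 1) := by
  intro ξ hξ
  have hξ1 : ‖ξ‖ ≤ 1 := by simpa using hξ
  have h2 := (E14_norm h0 h1 hξ1).1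
  have h3 : ‖ZZ κ ξ‖ < 5 / 4 := by nlinarith
  have h4 : ContinuousAt (beta κ) ξ := by
    have h5 : ContinuousAt (ZZ κ) ξ := by
      unfold ZZ
      fun_prop
    exact ContinuousAt.comp (g := WW κ) (E_hol h0 h1 h3).1.continuousAt h5
  have h6 : ‖beta κ ξ‖ ≤ 1 := by
    rcases hξ1.lt_or_eq with h | h
    · exact (E_beta_lt h0 h1 h).1.le
    · exact (E_beta_eq h0 h1 h).1.le
  have h7 : ContinuousAt M⁻¹.app (beta κ ξ) := (C_app_deriv M⁻¹ h6).hasDerivAt.continuousAt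
  exact (ContinuousAt.comp (g := M⁻¹.app) h7 h4).continuousWithinAt

end Pool.Agent.Lib.H11Q
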