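import Pool.Agent.Lib.H11Q.G09
import Pool.Agent.Lib.H11Q.G12
import Pool.Agent.Lib.H11Q.G13

set_option autoImplicit false

namespace Pool.Agent.Lib.H11Q

open Complex Set MeasureTheory
open scoped ComplexConjugate Topology

/-! G14 (S/M): the area formula for `ψ`. -/

/-- `lintegral_abs_det_fderiv_eq_addHaar_image` with `f' z = (deriv (Gp κ M) z) • 1` (real derivative of a holomorphic
function, `HasDerivAt.complexToReal_fderiv`), determinant `‖deriv (Gp κ M) z‖²` (`C_ab_det` with `ab c 0`). -/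
theorem G14_area {κ : ℝ} (h0 : 0 ≤ κ) (h1 : κ ≤ 1 / 10) (M : SU) {A : Set ℂ} (hA : MeasurableSet A)
    (hAU : A ⊆ GU κ M) :
    ∫⁻ z in A, ENNReal.ofReal (‖deriv (Gp κ M) z‖ ^ 2) = volume (Gp κ M '' A) := by
  rw [← lintegral_abs_det_fderiv_eq_addHaar_image volume hA
    (f' := fun z => deriv (Gp κ M) z • (1 : ℂ →L[ℝ] ℂ)) (fun z hz => ?_)
    ((G12_inj h0 h1 M).mono hAU)]
  · refine lintegral_congr fun z => ?_
    rw [(G09_smul _ _).2]
    have hd : (1 : ℂ →L[ℝ] ℂ).det = 1 := by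
      have : ((1 : ℂ →L[ℝ] ℂ) : ℂ →ₗ[ℝ] ℂ) = LinearMap.id := rfl
      rw [ContinuousLinearMap.det, this, LinearMap.det_id]
    rw [hd, mul_one, abs_of_nonneg (by positivity)]
  · have h2 : DifferentiableAt ℂ (Gp κ M) z :=
      (G12_diff h0 h1 M).differentiableAt ((G12_open h0 h1 M).mem_nhds (hAU hz))
    exact h2.hasDerivAt.complexToReal_fderiv.hasFDerivWithinAt

/-- `A = GU κ M`, `G12_img`, `G13_img`, `G13_half`. -/
theorem G14_total {κ : ℝ} (h0 : 0 ≤ κ) (h1 : κ ≤ 1 / 10) (M : SU) :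
    ∫⁻ z in GU κ M, ENNReal.ofReal (‖deriv (Gp κ M) z‖ ^ 2) =
      ENNReal.ofReal ((1 - κ ^ 2) * (Real.pi / 2)) := by
  rw [G14_area h0 h1 M (G12_open h0 h1 M).measurableSet le_rfl, G12_img h0 h1,
    G13_img (by rw [abs_of_nonneg h0]; linarith), G13_half, ← ENNReal.ofReal_mul]
  nlinarith

/-- The image of the strip under `ψ` is contained in `Gs κ ''` of the annulus of `G13_ann` (`Gs κ (Gy κ M z) = Gp κ M z`). -/
theorem G14_strip {κ : ℝ} (h0 : 0 ≤ κ) (h1 : κ ≤ 1 / 10) (M : SU) {n : ℕ} (hn : 1 ≤ n) :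
    ∫⁻ z in {z | z ∈ GU κ M ∧ 1 ≤ n * (1 - normSq (Gy κ M z)) ∧ n * (1 - normSq (Gy κ M z)) ≤ 2},
      ENNReal.ofReal (‖deriv (Gp κ M) z‖ ^ 2) ≤ ENNReal.ofReal (Real.pi / n) := by
  have hop := G12_open h0 h1 M
  have hGp : ContinuousOn (Gp κ M) (GU κ M) := (G12_diff h0 h1 M).continuousOn
  have hGx : Continuous (Gx κ) := by
    have : Gx κ = fun σ => ((σ.re / (1 + κ) : ℝ) : ℂ) + ((σ.im / (1 - κ) : ℝ) : ℂ) * I := by
      funext σ
      apply Complex.ext
      · simp only [Gx, add_re, ofReal_re, mul_re, ofReal_im, I_re, I_im]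
        ring
      · simp only [Gx, add_im, ofReal_re, mul_im, ofReal_im, I_re, I_im]
        ring
    rw [this]
    fun_prop
  have hg : ContinuousOn (fun z => (n : ℝ) * (1 - normSq (Gy κ M z))) (GU κ M) := by
    have h2 : ContinuousOn (fun z => Gy κ M z) (GU κ M) := hGx.comp_continuousOn hGp
    exact (continuousOn_const.mul (continuousOn_const.sub
      (Complex.continuous_normSq.comp_continuousOn h2)))
  set A : Set ℂ := {z | z ∈ GU κ M ∧ 1 ≤ n * (1 - normSq (Gy κ M z)) ∧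
    n * (1 - normSq (Gy κ M z)) ≤ 2} with hAdef
  have hAm : MeasurableSet A := by
    have h2 : A = GU κ M \ (GU κ M ∩ (fun z => (n : ℝ) * (1 - normSq (Gy κ M z))) ⁻¹' (Icc 1 2)ᶜ) := by
      ext z
      simp only [hAdef, mem_setOf_eq, Set.mem_diff, mem_inter_iff, mem_preimage, mem_compl_iff, mem_Icc]
      tauto
    rw [h2]
    exact hop.measurableSet.diff
      (hg.isOpen_inter_preimage hop isClosed_Icc.isOpen_compl).measurableSet
  rw [G14_area h0 h1 M hAm (fun z hz => hz.1)]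
  have hsub : Gp κ M '' A ⊆
      Gs κ '' {ξ : ℂ | 1 ≤ n * (1 - normSq ξ) ∧ n * (1 - normSq ξ) ≤ 2} := by
    rintro _ ⟨z, hz, rfl⟩
    exact ⟨Gy κ M z, hz.2, (G11_mem h0 h1 hz.1).2.2⟩
  refine (measure_mono hsub).trans ?_
  rw [G13_img (by rw [abs_of_nonneg h0]; linarith)]
  calc ENNReal.ofReal (1 - κ ^ 2) * volume {ξ : ℂ | 1 ≤ n * (1 - normSq ξ) ∧ n * (1 - normSq ξ) ≤ 2}
      ≤ 1 * ENNReal.ofReal (Real.pi / n) := by
        gcongr
        · rw [← ENNReal.ofReal_one]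
          apply ENNReal.ofReal_le_ofReal
          nlinarith
        · exact G13_ann hn
    _ = ENNReal.ofReal (Real.pi / n) := one_mul _

end Pool.Agent.Lib.H11Q
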