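import Pool.Agent.Lib.H11Q.G00

set_option autoImplicit false

namespace Pool.Agent.Lib.H11Q

open Complex Set MeasureTheory
open scoped ComplexConjugate Topology

/-! G18 (M): the cut-off functions. -/

theorem g18_deriv0 {t : ℝ} (h : t < 1 ∨ 2 < t) : deriv Gst t = 0 := by
  rcases h with h | h
  · have h1 : Gst =ᶠ[𝓝 t] fun _ => (0 : ℝ) := by
      filter_upwards [eventually_lt_nhds h] with x hx
      exact Real.smoothTransition.zero_of_nonpos (by linarith)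
    rw [h1.deriv_eq, deriv_const]
  · have h1 : Gst =ᶠ[𝓝 t] fun _ => (1 : ℝ) := by
      filter_upwards [eventually_gt_nhds h] with x hx
      exact Real.smoothTransition.one_of_one_le (by linarith)
    rw [h1.deriv_eq, deriv_const]

/-- `Real.smoothTransition.contDiff`; `deriv Gst` is continuous and zero outside `[1, 2]`. -/
theorem G18_st : ContDiff ℝ 2 Gst ∧ (∀ t, 0 ≤ Gst t ∧ Gst t ≤ 1) ∧ (∀ t ≤ 1, Gst t = 0) ∧ (∀ t ≥ 2, Gst t = 1) ∧
    ∃ C : ℝ, 0 ≤ C ∧ (∀ t, |deriv Gst t| ≤ C) ∧ ∀ t, deriv Gst t ≠ 0 → 1 ≤ t ∧ t ≤ 2 := by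
  have hsm : ContDiff ℝ 2 Gst := by
    unfold Gst
    exact Real.smoothTransition.contDiff.comp (contDiff_id.sub contDiff_const)
  have hsupp : ∀ t, deriv Gst t ≠ 0 → 1 ≤ t ∧ t ≤ 2 := by
    intro t ht
    constructor
    · by_contra h
      exact ht (g18_deriv0 (Or.inl (not_le.1 h)))
    · by_contra h
      exact ht (g18_deriv0 (Or.inr (not_le.1 h)))
  refine ⟨hsm, fun t => ⟨Real.smoothTransition.nonneg _, Real.smoothTransition.le_one _⟩,
    fun t ht => Real.smoothTransition.zero_of_nonpos (by linarith), fun t ht => Real.smoothTransition.one_of_one_le (by linarith), ?_⟩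
  have hcont : Continuous (deriv Gst) := hsm.continuous_deriv (by norm_num)
  obtain ⟨C, hC⟩ := isCompact_Icc.exists_bound_of_continuousOn (s := Icc (1 : ℝ) 2) hcont.continuousOn
  have hC0 : 0 ≤ C := (norm_nonneg _).trans (hC 1 ⟨le_rfl, by norm_num⟩)
  refine ⟨C, hC0, fun t => ?_, hsupp⟩
  by_cases h : deriv Gst t = 0
  · rw [h, abs_zero]
    exact hC0
  · exact hC t (hsupp t h)

theorem G18_smooth (n : ℕ) : ContDiff ℝ 2 (Gc n) := by
  have h1 : ContDiff ℝ 2 (fun ξ : ℂ => Gst (n * ξ.re)) :=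
    G18_st.1.comp (contDiff_const.mul Complex.reCLM.contDiff)
  have h2 : ContDiff ℝ 2 (fun ξ : ℂ => Gst (n * (1 - normSq ξ))) := by
    refine G18_st.1.comp (contDiff_const.mul (contDiff_const.sub ?_))
    have e : (⇑normSq : ℂ → ℝ) = fun ξ : ℂ => ξ.re * ξ.re + ξ.im * ξ.im := by
      ext ξ
      rw [normSq_apply]
    rw [e]
    exact (Complex.reCLM.contDiff.mul Complex.reCLM.contDiff).add (Complex.imCLM.contDiff.mul Complex.imCLM.contDiff)
  exact h1.mul h2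

theorem G18_range (n : ℕ) (ξ : ℂ) : 0 ≤ Gc n ξ ∧ Gc n ξ ≤ 1 := by
  have h1 := G18_st.2.1 (n * ξ.re)
  have h2 := G18_st.2.1 (n * (1 - normSq ξ))
  exact ⟨mul_nonneg h1.1 h2.1, mul_le_one₀ h1.2 h2.1 h2.2⟩

theorem G18_supp {n : ℕ} {ξ : ℂ} (h : Gc n ξ ≠ 0) : 1 < n * ξ.re ∧ 1 < n * (1 - normSq ξ) := by
  unfold Gc at h
  constructor
  · by_contra h1
    exact (left_ne_zero_of_mul h) (G18_st.2.2.1 _ (not_lt.1 h1))
  · by_contra h1
    exact (right_ne_zero_of_mul h) (G18_st.2.2.1 _ (not_lt.1 h1))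

/-- For `ξ ∈ GH` one has `n Re ξ ≥ 2` and `n (1 - normSq ξ) ≥ 2` for large `n`. -/
theorem G18_lim {ξ : ℂ} (hξ : ξ ∈ GH) : Filter.Tendsto (fun n : ℕ => Gc n ξ) Filter.atTop (𝓝 1) := by
  obtain ⟨h1, h2⟩ := hξ
  have h3 : 0 < 1 - normSq ξ := by
    have h4 : normSq ξ = ‖ξ‖ ^ 2 := normSq_eq_norm_sq ξ
    have h5 : ‖ξ‖ ^ 2 < 1 := by
      have := norm_nonneg ξ
      nlinarith
    linarith
  have t1 : Filter.Tendsto (fun n : ℕ => (n : ℝ) * ξ.re) Filter.atTop Filter.atTop :=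
    tendsto_natCast_atTop_atTop.atTop_mul_const h1
  have t2 : Filter.Tendsto (fun n : ℕ => (n : ℝ) * (1 - normSq ξ)) Filter.atTop Filter.atTop :=
    tendsto_natCast_atTop_atTop.atTop_mul_const h3
  refine tendsto_const_nhds.congr' ?_
  filter_upwards [t1.eventually_ge_atTop 2, t2.eventually_ge_atTop 2] with n hn1 hn2
  unfold Gc
  rw [G18_st.2.2.2.1 _ hn1, G18_st.2.2.2.1 _ hn2, mul_one]

theorem g18_I (n : ℕ) (ξ : ℂ) :
    fderiv ℝ (Gc n) ξ I = Gst (n * ξ.re) * (deriv Gst (n * (1 - normSq ξ)) * (n * (-(2 * ξ.im)))) := by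
  have hd : DifferentiableAt ℝ (Gc n) ξ := (G18_smooth n).differentiable (by norm_num) ξ
  have hg : HasDerivAt (fun t : ℝ => ξ + (t : ℂ) * I) I 0 := by
    have h := ((Complex.ofRealCLM.hasDerivAt (x := (0 : ℝ))).mul_const I).const_add ξ
    simpa using h
  have e0 : ξ + ((0 : ℝ) : ℂ) * I = ξ := by simp
  have h1 : HasDerivAt (fun t : ℝ => Gc n (ξ + (t : ℂ) * I)) (fderiv ℝ (Gc n) ξ I) 0 := by
    have hd' : HasFDerivAt (Gc n) (fderiv ℝ (Gc n) ξ) (ξ + ((0 : ℝ) : ℂ) * I) := by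
      rw [e0]
      exact hd.hasFDerivAt
    exact hd'.comp_hasDerivAt (0 : ℝ) hg
  have e1 : (fun t : ℝ => Gc n (ξ + (t : ℂ) * I)) =
      fun t : ℝ => Gst (n * ξ.re) * Gst (n * (1 - (ξ.re * ξ.re + (ξ.im + t) * (ξ.im + t)))) := by
    ext t
    unfold Gc
    rw [normSq_apply]
    simp
  have hdG : ∀ x, HasDerivAt Gst (deriv Gst x) x := fun x =>
    (G18_st.1.differentiable (by norm_num) x).hasDerivAt
  have h2 : HasDerivAt (fun t : ℝ => Gst (n * ξ.re) * Gst (n * (1 - (ξ.re * ξ.re + (ξ.im + t) * (ξ.im + t)))))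
      (Gst (n * ξ.re) * (deriv Gst (n * (1 - normSq ξ)) * (n * (-(2 * ξ.im))))) 0 := by
    have h3 : HasDerivAt (fun t : ℝ => (n : ℝ) * (1 - (ξ.re * ξ.re + (ξ.im + t) * (ξ.im + t)))) (n * (-(2 * ξ.im))) 0 := by
      have h4 : HasDerivAt (fun t : ℝ => ξ.im + t) 1 0 := (hasDerivAt_id (0 : ℝ)).const_add ξ.im
      have h5 := (((h4.mul h4).const_add (ξ.re * ξ.re)).const_sub 1).const_mul (n : ℝ)
      have e3 : (n : ℝ) * (-(2 * ξ.im)) = n * -(1 * (ξ.im + 0) + (ξ.im + 0) * 1) := by ring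
      rw [e3]
      exact h5
    have e2 : (n : ℝ) * (1 - normSq ξ) = (n : ℝ) * (1 - (ξ.re * ξ.re + (ξ.im + 0) * (ξ.im + 0))) := by
      rw [normSq_apply, add_zero]
    rw [e2]
    exact ((hdG _).comp (0 : ℝ) h3).const_mul _
  rw [e1] at h1
  exact h1.unique h2

/-- The derivative in the direction `I` is `Gst (n Re ξ) * deriv Gst (n (1 - normSq ξ)) * n * (-2 Im ξ)`. -/
theorem G18_deriv : ∃ C : ℝ, 0 ≤ C ∧ ∀ (n : ℕ) (ξ : ℂ), ‖ξ‖ ≤ 1 → |fderiv ℝ (Gc n) ξ I| ≤ C * n ∧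
    (fderiv ℝ (Gc n) ξ I ≠ 0 → 1 ≤ n * (1 - normSq ξ) ∧ n * (1 - normSq ξ) ≤ 2) := by
  obtain ⟨C, hC0, hC, hsupp⟩ := G18_st.2.2.2.2
  refine ⟨2 * C, by positivity, fun n ξ hξ => ⟨?_, ?_⟩⟩
  · rw [g18_I, abs_mul, abs_mul (deriv Gst (n * (1 - normSq ξ))), abs_mul (n : ℝ), abs_neg, abs_mul 2, abs_of_nonneg (G18_st.2.1 _).1,
      abs_of_nonneg (show (0 : ℝ) ≤ (n : ℝ) from Nat.cast_nonneg n), abs_of_pos (show (0 : ℝ) < 2 by norm_num)]
    have h1 : |ξ.im| ≤ 1 := (Complex.abs_im_le_norm ξ).trans hξ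
    have h2 := (G18_st.2.1 (n * ξ.re)).2
    have h3 := (G18_st.2.1 (n * ξ.re)).1
    have hn : (0 : ℝ) ≤ n := Nat.cast_nonneg n
    calc Gst (n * ξ.re) * (|deriv Gst (n * (1 - normSq ξ))| * (n * (2 * |ξ.im|)))
        ≤ 1 * (C * (n * (2 * 1))) := by
          refine mul_le_mul h2 ?_ (by positivity) (by norm_num)
          refine mul_le_mul (hC _) ?_ (by positivity) hC0
          gcongr
      _ = 2 * C * n := by ring
  · intro h
    rw [g18_I] at h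
    exact hsupp _ (left_ne_zero_of_mul (right_ne_zero_of_mul h))

end Pool.Agent.Lib.H11Q
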