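import Pool.Agent.Lib.H11Q.G12
import Pool.Agent.Lib.H11Q.G18

set_option autoImplicit false

namespace Pool.Agent.Lib.H11Q

open Complex Set MeasureTheory
open scoped ComplexConjugate Topology

/-! G19B (M): the divergence of the test vector fields. -/

/-- `Gx κ` as a real linear map. -/
noncomputable def g19b_L (κ : ℝ) : ℂ →L[ℝ] ℂ :=
  (ofRealCLM.comp ((1 / (1 + κ)) • reCLM)) + (I • (ofRealCLM.comp ((1 / (1 - κ)) • imCLM)))

theorem g19b_L_apply (κ : ℝ) (σ : ℂ) : g19b_L κ σ = Gx κ σ := by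
  unfold g19b_L Gx
  rw [ContinuousLinearMap.add_apply, ContinuousLinearMap.smul_apply, ContinuousLinearMap.comp_apply,
    ContinuousLinearMap.comp_apply, ContinuousLinearMap.smul_apply, ContinuousLinearMap.smul_apply,
    reCLM_apply, imCLM_apply, ofRealCLM_apply, ofRealCLM_apply, smul_eq_mul, smul_eq_mul, smul_eq_mul]
  apply Complex.ext
  · rw [add_re, ofReal_re, I_mul_re, ofReal_im, neg_zero, add_zero]
    show 1 / (1 + κ) * σ.re = σ.re / (1 + κ)
    ring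
  · rw [add_im, ofReal_im, I_mul_im, ofReal_re, zero_add]
    show 1 / (1 - κ) * σ.im = σ.im / (1 - κ)
    ring

theorem g19b_lin (L : ℂ →L[ℝ] ℝ) (w : ℂ) : L w = w.re * L 1 + w.im * L I := by
  have h1 : w = w.re • (1 : ℂ) + w.im • I := by
    rw [real_smul, real_smul, mul_one]
    exact (re_add_im w).symm
  conv_lhs => rw [h1]
  rw [map_add, map_smul, map_smul, smul_eq_mul, smul_eq_mul]

/-- Near `z ∈ GU κ M` (open): `GX = χ(ψ) * (I * conj ψ')` with `ψ = Gp κ M`, `χ = Gc n ∘ Gx κ` real.  With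
`ψ' = p + i q` at `z` and `A = fderiv χ (ψ z)` (real linear, `χ_u = A 1`, `χ_v = A I`):
`fderiv GX z v = A (ψ' v) * (I conj ψ') + χ * I * conj (ψ'' v)`.  The second part does not contribute to `Gdiv`:
`Re (I conj ψ'') + Im (I conj (I ψ'')) = Re (I conj ψ'') + Im (conj ψ'') = 0`.  The first part:
`I conj ψ' = q + i p`, `A (ψ') = p χ_u + q χ_v`, `A (I ψ') = -q χ_u + p χ_v`, so `Gdiv = q (p χ_u + q χ_v) + p (-q χ_u + p χ_v)
= (p² + q²) χ_v`, and `χ_v = fderiv (Gc n) (Gx κ ψ) (Gx κ I) = fderiv (Gc n) (Gy κ M z) I / (1 - κ)`. -/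
theorem G19_div {κ : ℝ} (h0 : 0 ≤ κ) (h1 : κ ≤ 1 / 10) (M : SU) (n : ℕ) {z : ℂ} (hz : z ∈ GU κ M) :
    Gdiv (GX κ M n) z = ‖deriv (Gp κ M) z‖ ^ 2 * (fderiv ℝ (Gc n) (Gy κ M z) I / (1 - κ)) := by
  classical
  have hU := G12_open h0 h1 M
  have hψ := G12_diff h0 h1 M
  set D := deriv (Gp κ M) z with hD
  set D2 := deriv (deriv (Gp κ M)) z with hD2
  have d1 : HasFDerivAt (Gp κ M) (D • (1 : ℂ →L[ℝ] ℂ)) z :=
    (hψ.differentiableAt (hU.mem_nhds hz)).hasDerivAt.complexToReal_fderiv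
  have d2 : HasFDerivAt (deriv (Gp κ M)) (D2 • (1 : ℂ →L[ℝ] ℂ)) z :=
    ((hψ.deriv hU).differentiableAt (hU.mem_nhds hz)).hasDerivAt.complexToReal_fderiv
  set L := fderiv ℝ (Gc n) (Gy κ M z) with hL
  have d3 : HasFDerivAt (Gc n) L (g19b_L κ (Gp κ M z)) := by
    rw [g19b_L_apply]
    exact (((G18_smooth n).differentiable (by norm_num)) _).hasFDerivAt
  have d4 : HasFDerivAt (fun z => Gc n (g19b_L κ (Gp κ M z))) (L.comp ((g19b_L κ).comp (D • (1 : ℂ →L[ℝ] ℂ)))) z :=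
    HasFDerivAt.comp z (g := Gc n) (f := fun z => g19b_L κ (Gp κ M z)) d3
      (HasFDerivAt.comp z (g := g19b_L κ) (f := Gp κ M) (g19b_L κ).hasFDerivAt d1)
  have d5 : HasFDerivAt (fun z => ((Gc n (g19b_L κ (Gp κ M z)) : ℝ) : ℂ))
      (ofRealCLM.comp (L.comp ((g19b_L κ).comp (D • (1 : ℂ →L[ℝ] ℂ))))) z :=
    ofRealCLM.hasFDerivAt.comp z d4
  have d6 : HasFDerivAt (fun z => I * conj (deriv (Gp κ M) z))
      (I • (conjCLE.toContinuousLinearMap.comp (D2 • (1 : ℂ →L[ℝ] ℂ)))) z :=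
    (conjCLE.toContinuousLinearMap.hasFDerivAt.comp z d2).const_mul I
  have d7 := d5.mul d6
  have d8 : HasFDerivAt (GX κ M n) _ z := d7.congr_of_eventuallyEq (by
    filter_upwards [hU.mem_nhds hz] with y hy
    show (if y ∈ GU κ M then _ else _) = _
    rw [if_pos hy]
    show ((Gc n (Gy κ M y) : ℝ) : ℂ) * (I * conj (deriv (Gp κ M) y)) = ((Gc n (g19b_L κ (Gp κ M y)) : ℝ) : ℂ) * (I * conj (deriv (Gp κ M) y))
    rw [g19b_L_apply]
    rfl)
  unfold Gdiv
  rw [d8.fderiv]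
  have hκ : 0 < 1 - κ := by linarith
  have hκ' : 0 < 1 + κ := by linarith
  have a1 : L (g19b_L κ D) = D.re / (1 + κ) * L 1 + D.im / (1 - κ) * L I := by
    rw [g19b_L_apply, g19b_lin]
    rfl
  have a2 : L (g19b_L κ (D * I)) = -D.im / (1 + κ) * L 1 + D.re / (1 - κ) * L I := by
    rw [g19b_L_apply, g19b_lin]
    show (D * I).re / (1 + κ) * L 1 + (D * I).im / (1 - κ) * L I = _
    rw [mul_I_re, mul_I_im]
  have a3 : ‖D‖ ^ 2 = D.re * D.re + D.im * D.im := by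
    rw [← normSq_eq_norm_sq, normSq_apply]
  simp only [ContinuousLinearMap.add_apply, ContinuousLinearMap.smul_apply, ContinuousLinearMap.comp_apply,
    ContinuousLinearMap.one_apply, smul_eq_mul, mul_one, ofRealCLM_apply, a1, a2, ContinuousLinearEquiv.coe_coe, conjCLE_apply]
  rw [a3]
  simp only [add_re, add_im, mul_re, mul_im, I_re, I_im, conj_re, conj_im, ofReal_re, ofReal_im, map_mul, conj_I, neg_re, neg_im]
  field_simp
  ring

end Pool.Agent.Lib.H11Q
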