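import Pool.Agent.Lib.H11Q.G19A
import Pool.Agent.Lib.H11Q.G19B
import Pool.Agent.Lib.H11Q.G14

set_option autoImplicit false

namespace Pool.Agent.Lib.H11Q

open Complex Set MeasureTheory
open scoped ComplexConjugate Topology

/-! G20 (M): the boundary term tends to zero. -/

/-- The strip of `G14_strip`. -/
def g20_S (κ : ℝ) (M : SU) (n : ℕ) : Set ℂ :=
  {z | z ∈ GU κ M ∧ 1 ≤ n * (1 - normSq (Gy κ M z)) ∧ n * (1 - normSq (Gy κ M z)) ≤ 2}

theorem g20_Gy {κ : ℝ} (h0 : 0 ≤ κ) (h1 : κ ≤ 1 / 10) (M : SU) : ContinuousOn (Gy κ M) (GU κ M) := by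
  have h2 := (G12_diff h0 h1 M).continuousOn
  have h3 : Continuous (Gx κ) := by
    have h4 : Gx κ = fun σ : ℂ => ((σ.re / (1 + κ) : ℝ) : ℂ) + ((σ.im / (1 - κ) : ℝ) : ℂ) * I := by
      funext σ
      apply Complex.ext
      · rw [add_re, ofReal_re, mul_I_re, ofReal_im, neg_zero, add_zero]
        rfl
      · rw [add_im, ofReal_im, mul_I_im, ofReal_re, zero_add]
        rfl
    rw [h4]
    fun_prop
  exact h3.comp_continuousOn h2

theorem g20_meas {κ : ℝ} (h0 : 0 ≤ κ) (h1 : κ ≤ 1 / 10) (M : SU) (n : ℕ) : MeasurableSet (g20_S κ M n) := by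
  have hU := G12_open h0 h1 M
  set K : Set ℂ := {ξ | 1 ≤ n * (1 - normSq ξ) ∧ n * (1 - normSq ξ) ≤ 2} with hK
  have hKc : IsClosed K := by
    have h3 : Continuous fun ξ : ℂ => (n : ℝ) * (1 - normSq ξ) := by
      have := Complex.continuous_normSq
      fun_prop
    exact (isClosed_le continuous_const h3).inter (isClosed_le h3 continuous_const)
  have h2 : g20_S κ M n = GU κ M \ (GU κ M ∩ Gy κ M ⁻¹' Kᶜ) := by
    ext z
    constructor
    · rintro ⟨a, b⟩
      exact ⟨a, fun h => h.2 b⟩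
    · rintro ⟨a, b⟩
      refine ⟨a, ?_⟩
      by_contra hcon
      exact b ⟨a, hcon⟩
  rw [h2]
  exact hU.measurableSet.diff ((g20_Gy h0 h1 M).isOpen_inter_preimage hU hKc.isOpen_compl).measurableSet

/-- Outside `GU κ M` the field is zero near each point outside its support, so `Gdiv = 0` off `GU κ M`
(`G19_field`: a point outside `tsupport`).  On `GU κ M`: `‖Gdiv‖ ≤ ‖ψ'‖² C n / (1 - κ)` on the strip of `G14_strip` and `0`
elsewhere (`G19_div`, `G18_deriv`).  Given `η > 0` take `δ` from the hypothesis; if `n > 2/δ` then on the strip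
`normSq (Gy) ≥ 1 - 2/n > 1 - δ`, so `‖Gy‖ ≥ normSq (Gy) > 1 - δ` (as `‖Gy‖ < 1`) and `‖w‖ ≤ η`.  So the norm of the
integral is at most `η * C n / (1 - κ) * (π / n) = η C π / (1 - κ)` (`G14_strip`, via `lintegral`). -/
theorem G20_lim {κ : ℝ} (h0 : 0 ≤ κ) (h1 : κ ≤ 1 / 10) (M : SU) {w : ℂ → ℂ}
    (hw : ∀ η > 0, ∃ δ > 0, ∀ z ∈ GU κ M, 1 - δ < ‖Gy κ M z‖ → ‖w z‖ ≤ η) :
    Filter.Tendsto (fun n : ℕ => ∫ z, (Gdiv (GX κ M n) z : ℂ) * w z) Filter.atTop (𝓝 0) := by
  obtain ⟨C, hC, hCn⟩ := G18_deriv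
  have hκ : 0 < 1 - κ := by linarith
  -- the pointwise bound
  have hpt : ∀ n : ℕ, 1 ≤ n → ∀ z, (z ∉ g20_S κ M n → Gdiv (GX κ M n) z = 0) ∧
      (z ∈ g20_S κ M n → |Gdiv (GX κ M n) z| ≤ C * n / (1 - κ) * ‖deriv (Gp κ M) z‖ ^ 2) := by
    intro n hn z
    by_cases hz : z ∈ GU κ M
    · have hy := (G11_mem h0 h1 hz).1
      obtain ⟨c1, c2⟩ := hCn n (Gy κ M z) hy.2.le
      have hd := G19_div h0 h1 M n hz
      constructor
      · intro hS
        have h2 : fderiv ℝ (Gc n) (Gy κ M z) I = 0 := by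
          by_contra h3
          exact hS ⟨hz, c2 h3⟩
        rw [hd, h2]
        ring
      · intro _
        rw [hd, abs_mul, abs_of_nonneg (sq_nonneg _), abs_div, abs_of_pos hκ]
        have h3 : |fderiv ℝ (Gc n) (Gy κ M z) I| / (1 - κ) ≤ C * n / (1 - κ) := div_le_div_of_nonneg_right c1 hκ.le
        calc _ ≤ ‖deriv (Gp κ M) z‖ ^ 2 * (C * n / (1 - κ)) := mul_le_mul_of_nonneg_left h3 (sq_nonneg _)
          _ = _ := by ring
    · have h2 : z ∉ tsupport (GX κ M n) := fun h => hz ((G19_field h0 h1 M hn).2.2 h)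
      have h3 : fderiv ℝ (GX κ M n) z = 0 := by
        by_contra h4
        exact h2 (support_fderiv_subset ℝ h4)
      have h4 : Gdiv (GX κ M n) z = 0 := by
        unfold Gdiv
        rw [h3]
        simp
      exact ⟨fun _ => h4, fun h => absurd h.1 hz⟩
  rw [Metric.tendsto_atTop]
  intro ε hε
  have hπ := Real.pi_pos
  obtain ⟨δ, hδ, hδw⟩ := hw (ε / 2 * (1 - κ) / (C * Real.pi + 1)) (by positivity)
  obtain ⟨n0, hn0⟩ := exists_nat_gt (2 / δ)
  refine ⟨n0 + 1, fun n hn => ?_⟩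
  have hn1 : 1 ≤ n := by omega
  have hnR : (0 : ℝ) < n := by exact_mod_cast hn1
  have hnδ : 2 < n * δ := by
    have h2 : 2 / δ < n := hn0.trans_le (by exact_mod_cast (by omega : n0 ≤ n))
    rwa [div_lt_iff₀ hδ] at h2
  rw [dist_zero_right]
  set η := ε / 2 * (1 - κ) / (C * Real.pi + 1) with hη
  have hη0 : 0 ≤ η := by positivity
  have hpw : ∀ z, ENNReal.ofReal ‖(Gdiv (GX κ M n) z : ℂ) * w z‖ ≤
      (g20_S κ M n).indicator (fun z => ENNReal.ofReal (η * (C * n / (1 - κ))) * ENNReal.ofReal (‖deriv (Gp κ M) z‖ ^ 2)) z := by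
    intro z
    by_cases hz : z ∈ g20_S κ M n
    · rw [indicator_of_mem hz, ← ENNReal.ofReal_mul (by positivity)]
      refine ENNReal.ofReal_le_ofReal ?_
      have hy := (G11_mem h0 h1 hz.1).1
      have h2 : ‖w z‖ ≤ η := by
        refine hδw z hz.1 ?_
        have h3 : normSq (Gy κ M z) = ‖Gy κ M z‖ ^ 2 := normSq_eq_norm_sq _
        have h4 := hz.2.2
        rw [h3] at h4
        have h5 := norm_nonneg (Gy κ M z)
        have h6 : ‖Gy κ M z‖ < 1 := hy.2
        have h7 : ‖Gy κ M z‖ ^ 2 ≤ ‖Gy κ M z‖ := by nlinarith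
        have h8 : n * (1 - ‖Gy κ M z‖ ^ 2) < n * δ := by linarith
        have h9 : 1 - ‖Gy κ M z‖ ^ 2 < δ := lt_of_mul_lt_mul_left h8 hnR.le
        linarith
      rw [norm_mul, Complex.norm_real, Real.norm_eq_abs]
      calc _ ≤ (C * n / (1 - κ) * ‖deriv (Gp κ M) z‖ ^ 2) * η :=
            mul_le_mul ((hpt n hn1 z).2 hz) h2 (norm_nonneg _) (by positivity)
        _ = _ := by ring
    · rw [indicator_of_notMem hz, (hpt n hn1 z).1 hz]
      simp
  have hlin : ∫⁻ z, ENNReal.ofReal ‖(Gdiv (GX κ M n) z : ℂ) * w z‖ ≤ ENNReal.ofReal (η * (C * n / (1 - κ)) * (Real.pi / n)) := by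
    refine (lintegral_mono hpw).trans ?_
    have hq : 0 ≤ η * (C * n / (1 - κ)) := by positivity
    generalize η * (C * n / (1 - κ)) = q at hq ⊢
    rw [lintegral_indicator (g20_meas h0 h1 M n), lintegral_const_mul']
    · rw [ENNReal.ofReal_mul hq]
      exact mul_le_mul_right (G14_strip h0 h1 M hn1) _
    · exact ENNReal.ofReal_ne_top
  have h2 := norm_integral_le_lintegral_norm (fun z => (Gdiv (GX κ M n) z : ℂ) * w z) (μ := volume)
  refine (h2.trans (ENNReal.toReal_le_of_le_ofReal (by positivity) hlin)).trans_lt ?_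
  have h3 : η * (C * n / (1 - κ)) * (Real.pi / n) = ε / 2 * (C * Real.pi / (C * Real.pi + 1)) := by
    rw [hη]
    field_simp
  rw [h3]
  have h4 : C * Real.pi / (C * Real.pi + 1) ≤ 1 := by
    rw [div_le_one (by positivity)]
    linarith
  have h5 : ε / 2 * (C * Real.pi / (C * Real.pi + 1)) ≤ ε / 2 * 1 := mul_le_mul_of_nonneg_left h4 (by positivity)
  linarith

end Pool.Agent.Lib.H11Q
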