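import Pool.Agent.Lib.H11Q.G12
import Pool.Agent.Lib.H11Q.G18
import Pool.Agent.Lib.H11Q.G06
import Pool.Agent.Lib.H11Q.G14

set_option autoImplicit false

namespace Pool.Agent.Lib.H11Q

open Complex Set MeasureTheory
open scoped ComplexConjugate Topology

/-! G21 (M): the comparison map `GT`. -/

/-- The real linear map `Gs (-κ) ∘ Gx κ`. -/
noncomputable def g21_B (κ : ℝ) : ℂ →L[ℝ] ℂ :=
  ((1 - κ) / (1 + κ)) • (Complex.ofRealCLM.comp Complex.reCLM) +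
    ((1 + κ) / (1 - κ)) • ((ContinuousLinearMap.mul ℝ ℂ I).comp (Complex.ofRealCLM.comp Complex.imCLM))

theorem g21_B_apply (κ : ℝ) (v : ℂ) :
    g21_B κ v = (((1 - κ) / (1 + κ) * v.re : ℝ) : ℂ) + (((1 + κ) / (1 - κ) * v.im : ℝ) : ℂ) * I := by
  simp [g21_B]
  ring

theorem g21_GT (κ : ℝ) (M : SU) (z : ℂ) : GT κ M z = g21_B κ (Gp κ M z) := by
  rw [g21_B_apply]
  unfold GT Gy Gs Gx
  apply Complex.ext
  · simp only [add_re, mul_re, ofReal_re, ofReal_im, conj_re, conj_im, I_re, I_im, ofReal_neg,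
      neg_re, neg_im]
    ring
  · simp only [add_im, mul_im, ofReal_re, ofReal_im, conj_re, conj_im, I_re, I_im, ofReal_neg,
      neg_re, neg_im]
    ring

theorem g21_fderiv {κ : ℝ} (h0 : 0 ≤ κ) (h1 : κ ≤ 1 / 10) (M : SU) {z : ℂ} (hz : z ∈ GU κ M) :
    fderiv ℝ (GT κ M) z =
      (g21_B κ).comp (deriv (Gp κ M) z • (1 : ℂ →L[ℝ] ℂ)) := by
  have hd : HasDerivAt (Gp κ M) (deriv (Gp κ M) z) z :=
    ((G12_diff h0 h1 M).differentiableAt ((G12_open h0 h1 M).mem_nhds hz)).hasDerivAt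
  have hf := hd.complexToReal_fderiv
  have hg : HasFDerivAt (GT κ M) ((g21_B κ).comp (deriv (Gp κ M) z • (1 : ℂ →L[ℝ] ℂ))) z := by
    have h2 := (g21_B κ).hasFDerivAt.comp z hf
    have h3 : GT κ M = (g21_B κ) ∘ Gp κ M := by
      funext w
      exact g21_GT κ M w
    rw [h3]
    exact h2
  exact hg.fderiv

/-- `GT κ M` is a real linear function of the holomorphic function `Gp κ M`: `C^∞` on the open set `GU κ M`
(`DifferentiableOn.contDiffOn`, restriction of scalars); `G06_c1`. -/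
theorem G21_acl {κ : ℝ} (h0 : 0 ≤ κ) (h1 : κ ≤ 1 / 10) (M : SU) : GACL (GU κ M) (GT κ M) := by
  apply G06_c1 (G12_open h0 h1 M)
  have h2 : ContDiffOn ℝ 1 (Gp κ M) (GU κ M) :=
    ((G12_diff h0 h1 M).contDiffOn (G12_open h0 h1 M)).restrict_scalars ℝ
  have h3 : GT κ M = fun z => g21_B κ (Gp κ M z) := by
    funext w
    exact g21_GT κ M w
  rw [h3]
  exact (g21_B κ).contDiff.comp_contDiffOn h2

/-- `fderiv GT z v = Gs (-κ) (Gx κ (ψ' v))` and `ψ' I conj ψ' = I ‖ψ'‖²`, `Gx κ (I t) = I t / (1 - κ)`,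
`Gs (-κ) (I s) = (1 + κ) I s` (`s, t` real). -/
theorem G21_deriv {κ : ℝ} (h0 : 0 ≤ κ) (h1 : κ ≤ 1 / 10) (M : SU) {z : ℂ} (hz : z ∈ GU κ M) :
    fderiv ℝ (GT κ M) z (I * conj (deriv (Gp κ M) z)) =
      I * ((((1 + κ) / (1 - κ)) * ‖deriv (Gp κ M) z‖ ^ 2 : ℝ) : ℂ) := by
  rw [g21_fderiv h0 h1 M hz]
  have h2 : ((g21_B κ).comp (deriv (Gp κ M) z • (1 : ℂ →L[ℝ] ℂ))) (I * conj (deriv (Gp κ M) z)) =
      g21_B κ (deriv (Gp κ M) z * (I * conj (deriv (Gp κ M) z))) := by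
    simp
  rw [h2]
  have h3 : deriv (Gp κ M) z * (I * conj (deriv (Gp κ M) z)) =
      ((‖deriv (Gp κ M) z‖ ^ 2 : ℝ) : ℂ) * I := by
    rw [show deriv (Gp κ M) z * (I * conj (deriv (Gp κ M) z)) =
      (deriv (Gp κ M) z * conj (deriv (Gp κ M) z)) * I by ring, Complex.mul_conj, normSq_eq_norm_sq]
  rw [h3, g21_B_apply]
  have h4 : (((‖deriv (Gp κ M) z‖ ^ 2 : ℝ) : ℂ) * I).re = 0 := by
    rw [re_ofReal_mul, I_re, mul_zero]
  have h5 : (((‖deriv (Gp κ M) z‖ ^ 2 : ℝ) : ℂ) * I).im = ‖deriv (Gp κ M) z‖ ^ 2 := by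
    rw [im_ofReal_mul, I_im, mul_one]
  rw [h4, h5]
  push_cast
  ring

/-- `fderiv GT z = B ∘ (ψ' • 1)` with a fixed real linear map `B`. -/
theorem G21_bound {κ : ℝ} (h0 : 0 ≤ κ) (h1 : κ ≤ 1 / 10) (M : SU) : ∃ C : ℝ, 0 ≤ C ∧ ∀ z ∈ GU κ M,
    ‖fderiv ℝ (GT κ M) z‖ ≤ C * ‖deriv (Gp κ M) z‖ := by
  refine ⟨‖g21_B κ‖, norm_nonneg _, ?_⟩
  intro z hz
  rw [g21_fderiv h0 h1 M hz]
  refine (ContinuousLinearMap.opNorm_comp_le _ _).trans ?_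
  apply mul_le_mul_of_nonneg_left _ (norm_nonneg _)
  apply ContinuousLinearMap.opNorm_le_bound _ (norm_nonneg _)
  intro v
  simp

end Pool.Agent.Lib.H11Q
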