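import Pool.Agent.Lib.H11Q.G00

set_option autoImplicit false

namespace Pool.Agent.Lib.H11Q

open Complex Set MeasureTheory
open scoped ComplexConjugate Topology

/-! G22 (M): dominated convergence for the cut-off functions. -/

/-- On `U`: `F z (X_n z) = c_n(z) * F z (Y z)` with `c_n(z) ∈ [0, 1]`, `c_n(z) → 1`; `‖F z (Y z)‖ ≤ ‖F z‖ ‖Y z‖`, integrable on `U` by the
hypothesis `hi` (`tendsto_integral_of_dominated_convergence`; the integral over `ℂ` of a function which vanishes off `U`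
is the integral over `U`). -/
theorem G22_dct {U : Set ℂ} (hU : MeasurableSet U) {F : ℂ → ℂ →L[ℝ] ℂ} {Y : ℂ → ℂ} (hF : Measurable F)
    (hY : Measurable Y) (hi : IntegrableOn (fun z => ‖F z‖ * ‖Y z‖) U) {c : ℕ → ℂ → ℝ} {X : ℕ → ℂ → ℂ}
    (hX : ∀ n, ∀ z ∈ U, X n z = (c n z : ℂ) * Y z) (hX0 : ∀ n, ∀ z ∉ U, X n z = 0)
    (hXm : ∀ n, Measurable (X n)) (hc : ∀ n, ∀ z ∈ U, 0 ≤ c n z ∧ c n z ≤ 1)
    (hl : ∀ z ∈ U, Filter.Tendsto (fun n => c n z) Filter.atTop (𝓝 1)) :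
    Filter.Tendsto (fun n : ℕ => ∫ z, F z (X n z)) Filter.atTop (𝓝 (∫ z in U, F z (Y z))) := by
  have hE : ∀ n, ∫ z, F z (X n z) = ∫ z in U, F z (X n z) := by
    intro n
    rw [setIntegral_eq_integral_of_forall_compl_eq_zero]
    intro z hz
    rw [hX0 n z hz, map_zero]
  simp_rw [hE]
  have hFX : ∀ n z, z ∈ U → F z (X n z) = (c n z) • F z (Y z) := by
    intro n z hz
    rw [hX n z hz, ← Complex.real_smul, map_smul]
  refine tendsto_integral_of_dominated_convergence (fun z => ‖F z‖ * ‖Y z‖) ?_ hi ?_ ?_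
  · intro n
    have h := (ContinuousLinearMap.apply ℝ ℂ : ℂ →L[ℝ] (ℂ →L[ℝ] ℂ) →L[ℝ] ℂ)
    have hm : Measurable fun z => F z (X n z) := by
      have hcont : Continuous fun p : (ℂ →L[ℝ] ℂ) × ℂ => p.1 p.2 := by fun_prop
      exact hcont.measurable.comp (hF.prodMk (hXm n))
    exact hm.aestronglyMeasurable
  · intro n
    filter_upwards [ae_restrict_mem hU] with z hz
    rw [hFX n z hz, norm_smul]
    have h1 : ‖c n z‖ ≤ 1 := by
      rw [Real.norm_eq_abs, abs_of_nonneg (hc n z hz).1]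
      exact (hc n z hz).2
    calc ‖c n z‖ * ‖F z (Y z)‖ ≤ 1 * (‖F z‖ * ‖Y z‖) :=
          mul_le_mul h1 ((F z).le_opNorm _) (norm_nonneg _) zero_le_one
      _ = _ := one_mul _
  · filter_upwards [ae_restrict_mem hU] with z hz
    have h1 : (fun n => F z (X n z)) = fun n => (c n z) • F z (Y z) := by
      funext n
      exact hFX n z hz
    rw [h1]
    have h2 := (hl z hz).smul_const (F z (Y z))
    simpa using h2

/-- Cauchy-Schwarz: from `ab ≤ (t a² + b² / t) / 2`, or `ENNReal.lintegral_mul_le_Lp_mul_Lq` with `p = q = 2`. -/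
theorem G22_cs {U : Set ℂ} (hU : MeasurableSet U) {u v : ℂ → ℝ} (hu : Measurable u) (hv : Measurable v)
    (hu0 : ∀ z, 0 ≤ u z) (hv0 : ∀ z, 0 ≤ v z) {A B : ℝ} (hA : 0 ≤ A) (hB : 0 ≤ B)
    (h1 : ∫⁻ z in U, ENNReal.ofReal (u z ^ 2) ≤ ENNReal.ofReal A)
    (h2 : ∫⁻ z in U, ENNReal.ofReal (v z ^ 2) ≤ ENNReal.ofReal B) :
    IntegrableOn (fun z => u z * v z) U ∧ (∫ z in U, u z * v z) ^ 2 ≤ A * B := by
  have hpq : (2 : ℝ).HolderConjugate 2 := Real.HolderConjugate.two_two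
  have hum : AEMeasurable (fun z => ENNReal.ofReal (u z)) (volume.restrict U) := hu.ennreal_ofReal.aemeasurable
  have hvm : AEMeasurable (fun z => ENNReal.ofReal (v z)) (volume.restrict U) := hv.ennreal_ofReal.aemeasurable
  have hH := ENNReal.lintegral_mul_le_Lp_mul_Lq (volume.restrict U) hpq hum hvm
  have e1 : ∀ (w : ℂ → ℝ), (∀ z, 0 ≤ w z) → ∀ z, ENNReal.ofReal (w z) ^ (2 : ℝ) = ENNReal.ofReal (w z ^ 2) := by
    intro w hw z
    rw [ENNReal.ofReal_rpow_of_nonneg (hw z) (by norm_num)]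
    congr 1
    exact Real.rpow_two _
  simp only [e1 u hu0, e1 v hv0, Pi.mul_apply] at hH
  have hH2 : (∫⁻ z in U, ENNReal.ofReal (u z * v z)) ≤ ENNReal.ofReal (A ^ (1 / 2 : ℝ) * B ^ (1 / 2 : ℝ)) := by
    have : ∀ z, ENNReal.ofReal (u z * v z) = ENNReal.ofReal (u z) * ENNReal.ofReal (v z) := fun z =>
      ENNReal.ofReal_mul (hu0 z)
    simp_rw [this]
    refine hH.trans ?_
    rw [ENNReal.ofReal_mul (by positivity), ← ENNReal.ofReal_rpow_of_nonneg hA (by norm_num),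
      ← ENNReal.ofReal_rpow_of_nonneg hB (by norm_num)]
    exact mul_le_mul' (ENNReal.rpow_le_rpow h1 (by norm_num)) (ENNReal.rpow_le_rpow h2 (by norm_num))
  have hmeas : AEStronglyMeasurable (fun z => u z * v z) (volume.restrict U) := (hu.mul hv).aestronglyMeasurable
  have hnn : ∀ z, 0 ≤ u z * v z := fun z => mul_nonneg (hu0 z) (hv0 z)
  have hint : IntegrableOn (fun z => u z * v z) U := by
    refine ⟨hmeas, ?_⟩
    rw [hasFiniteIntegral_iff_ofReal (Filter.Eventually.of_forall hnn)]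
    exact hH2.trans_lt ENNReal.ofReal_lt_top
  refine ⟨hint, ?_⟩
  have h3 : ∫ z in U, u z * v z ≤ A ^ (1 / 2 : ℝ) * B ^ (1 / 2 : ℝ) := by
    rw [integral_eq_lintegral_of_nonneg_ae (Filter.Eventually.of_forall hnn) hmeas]
    exact ENNReal.toReal_le_of_le_ofReal (by positivity) hH2
  have h4 : 0 ≤ ∫ z in U, u z * v z := integral_nonneg hnn
  calc (∫ z in U, u z * v z) ^ 2 ≤ (A ^ (1 / 2 : ℝ) * B ^ (1 / 2 : ℝ)) ^ 2 := by
        exact pow_le_pow_left₀ h4 h3 2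
    _ = A * B := by
        rw [mul_pow, ← Real.sqrt_eq_rpow, ← Real.sqrt_eq_rpow, Real.sq_sqrt hA, Real.sq_sqrt hB]

end Pool.Agent.Lib.H11Q
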