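import Pool.Agent.Lib.H11Q.G05
import Pool.Agent.Lib.H11Q.G07D
import Pool.Agent.Lib.H11Q.G08B
import Pool.Agent.Lib.H11Q.G09
import Pool.Agent.Lib.H11Q.G10
import Pool.Agent.Lib.H11Q.G15C
import Pool.Agent.Lib.H11Q.G16
import Pool.Agent.Lib.H11Q.G17C
import Pool.Agent.Lib.H11Q.G20
import Pool.Agent.Lib.H11Q.G21
import Pool.Agent.Lib.H11Q.G22

/-!
# H11Q, module G: assembly
-/

set_option autoImplicit false

namespace Pool.Agent.Lib.H11Q

open Complex Set MeasureTheory Filter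
open scoped ComplexConjugate Topology

theorem g23_Gz {κ : ℝ} (h0 : 0 ≤ κ) (h1 : κ ≤ 1 / 10) (M : SU) :
    DifferentiableOn ℂ (fun w => Gz κ M w - 2 * κ) (Metric.ball 0 1) := by
  intro w hw
  have hw1 : ‖w‖ < 1 := by simpa using hw
  have h2 : ‖M.app w‖ < 11 / 10 := (M.app_norm_lt hw1).trans (by norm_num)
  have h3 := (E_Zi_deriv h0 h1 h2).comp w (C_app_deriv M hw1.le).hasDerivAt
  exact (h3.differentiableAt.sub_const _).differentiableWithinAt

theorem g23_maps {κ : ℝ} {M : SU} (e : Disc ≃ₜ Disc) : MapsTo (ext e) (GU κ M) (Metric.ball 0 1) := by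
  intro z hz
  have h1 : ext e z = (e ⟨z, hz.1⟩ : ℂ) := c05_coe e ⟨z, hz.1⟩
  rw [h1]
  simpa using (e ⟨z, hz.1⟩).2

theorem G23_acl {κ K : ℝ} {M : SU} {e : Disc ≃ₜ Disc} (hD : GD κ K M e) {G : ℂ → ℂ} (hG : GG κ M e G) :
    GACL (GU κ M) G ∧ ∀ᵐ z : ℂ, z ∈ GU κ M →
      DifferentiableAt ℝ G z ∧ ‖fderiv ℝ G z‖ ^ 2 ≤ K * (fderiv ℝ G z).det := by
  have hU := G12_open hD.h0.le hD.h1 M
  have hsub : GU κ M ⊆ Metric.ball 0 1 := fun z hz => by simpa using hz.1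
  have hf := G06_mono hsub (G08_acl hD.K1 hD.qc)
  have hm := g23_Gz hD.h0.le hD.h1 M
  have hmaps := g23_maps (κ := κ) (M := M) e
  have hne : ∀ z ∈ GU κ M, (fun w => Gz κ M w - 2 * κ) (ext e z) ≠ 0 := fun z hz => G15_ne hD hz
  refine ⟨G07_acl hU Metric.isOpen_ball hf hmaps hm hG.cont hG.sq hne, ?_⟩
  filter_upwards [hD.qc.dil] with z hz hzU
  obtain ⟨h1, h2⟩ := hz hzU.1
  have h3 := G07_deriv hU Metric.isOpen_ball hmaps hm hG.cont hG.sq hne hzU h1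
  refine ⟨h3.differentiableAt, ?_⟩
  rw [h3.fderiv]
  obtain ⟨h4, h5⟩ := G09_smul (deriv (fun w => Gz κ M w - 2 * κ) (ext e z) / (2 * G z)) (fderiv ℝ (ext e) z)
  rw [h4, h5, mul_pow]
  calc _ ≤ ‖deriv (fun w => Gz κ M w - 2 * κ) (ext e z) / (2 * G z)‖ ^ 2 * (K * (fderiv ℝ (ext e) z).det) :=
        mul_le_mul_of_nonneg_left h2 (sq_nonneg _)
    _ = _ := by ring

theorem g23_area {κ K : ℝ} {M : SU} {e : Disc ≃ₜ Disc} (hD : GD κ K M e) {G : ℂ → ℂ} (hG : GG κ M e G) :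
    ∫⁻ z in GU κ M, ENNReal.ofReal (‖fderiv ℝ G z‖ ^ 2) ≤ ENNReal.ofReal (K * ((1 - κ ^ 2) * (Real.pi / 2))) := by
  have hK : 0 ≤ K := zero_le_one.trans hD.K1
  refine (G08_area (G12_open hD.h0.le hD.h1 M).measurableSet (G16_inj hD hG).1 hK (G23_acl hD hG).2).trans ?_
  rw [ENNReal.ofReal_mul hK]
  exact mul_le_mul_right (G16_vol hD hG) _

theorem g23_int {κ K : ℝ} {M : SU} {e : Disc ≃ₜ Disc} (hD : GD κ K M e) {G : ℂ → ℂ} (hG : GG κ M e G) :
    IntegrableOn (fun z => ‖fderiv ℝ G z‖ * ‖I * conj (deriv (Gp κ M) z)‖) (GU κ M) ∧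
    (∫ z in GU κ M, ‖fderiv ℝ G z‖ * ‖I * conj (deriv (Gp κ M) z)‖) ^ 2 ≤
      K * ((1 - κ ^ 2) * (Real.pi / 2)) * ((1 - κ ^ 2) * (Real.pi / 2)) := by
  have hK : 0 ≤ K := zero_le_one.trans hD.K1
  have hκ : 0 ≤ (1 - κ ^ 2) * (Real.pi / 2) := by
    have h0 := hD.h0
    have h1 := hD.h1
    have : κ ^ 2 ≤ 1 := by nlinarith
    have := Real.pi_pos
    have : 0 ≤ 1 - κ ^ 2 := by linarith
    positivity
  have e1 : ∀ z, ‖I * conj (deriv (Gp κ M) z)‖ = ‖deriv (Gp κ M) z‖ := by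
    intro z
    rw [norm_mul, norm_I, one_mul, Complex.norm_conj]
  simp only [e1]
  refine G22_cs (G12_open hD.h0.le hD.h1 M).measurableSet (measurable_fderiv ℝ G).norm (measurable_deriv _).norm
    (fun z => norm_nonneg _) (fun z => norm_nonneg _) (mul_nonneg hK hκ) hκ (g23_area hD hG) ?_
  exact (G14_total hD.h0.le hD.h1 M).le

theorem g23_measX {κ : ℝ} (h0 : 0 ≤ κ) (h1 : κ ≤ 1 / 10) (M : SU) (n : ℕ) : Measurable (GX κ M (n + 1)) :=
  (G19_field h0 h1 M (by omega)).1.continuous.measurable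

theorem g23_dct {κ : ℝ} (h0 : 0 ≤ κ) (h1 : κ ≤ 1 / 10) (M : SU) {F : ℂ → ℂ →L[ℝ] ℂ} (hF : Measurable F)
    (hi : IntegrableOn (fun z => ‖F z‖ * ‖I * conj (deriv (Gp κ M) z)‖) (GU κ M)) :
    Tendsto (fun n : ℕ => ∫ z, F z (GX κ M (n + 1) z)) atTop
      (𝓝 (∫ z in GU κ M, F z (I * conj (deriv (Gp κ M) z)))) := by
  classical
  refine G22_dct (G12_open h0 h1 M).measurableSet hF ?_ hi (c := fun n z => Gc (n + 1) (Gy κ M z)) ?_ ?_ ?_ ?_ ?_
  · exact measurable_const.mul (Complex.continuous_conj.measurable.comp (measurable_deriv _))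
  · intro n z hz
    exact if_pos hz
  · intro n z hz
    exact if_neg hz
  · exact fun n => g23_measX h0 h1 M n
  · exact fun n z _ => G18_range _ _
  · intro z hz
    exact (G18_lim (G11_mem h0 h1 hz).1).comp (tendsto_add_atTop_nat 1)

theorem g23_intT {κ : ℝ} (h0 : 0 ≤ κ) (h1 : κ ≤ 1 / 10) (M : SU) :
    IntegrableOn (fun z => ‖deriv (Gp κ M) z‖ ^ 2) (GU κ M) ∧
    ∫ z in GU κ M, ‖deriv (Gp κ M) z‖ ^ 2 = (1 - κ ^ 2) * (Real.pi / 2) := by
  have hκ : 0 ≤ (1 - κ ^ 2) * (Real.pi / 2) := by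
    have : κ ^ 2 ≤ 1 := by nlinarith
    have := Real.pi_pos
    have : 0 ≤ 1 - κ ^ 2 := by linarith
    positivity
  have hm : Measurable fun z => ‖deriv (Gp κ M) z‖ ^ 2 := (measurable_deriv _).norm.pow_const 2
  have h2 := G14_total h0 h1 M
  constructor
  · refine ⟨hm.aestronglyMeasurable, ?_⟩
    rw [hasFiniteIntegral_iff_ofReal (Eventually.of_forall fun z => sq_nonneg _), h2]
    exact ENNReal.ofReal_lt_top
  · rw [integral_eq_lintegral_of_nonneg_ae (Eventually.of_forall fun z => sq_nonneg _) hm.aestronglyMeasurable, h2,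
      ENNReal.toReal_ofReal hκ]

theorem g23_GTbound {κ : ℝ} (h0 : 0 ≤ κ) (h1 : κ ≤ 1 / 10) (M : SU) :
    IntegrableOn (fun z => ‖fderiv ℝ (GT κ M) z‖ * ‖I * conj (deriv (Gp κ M) z)‖) (GU κ M) := by
  obtain ⟨C, hC, hb⟩ := G21_bound h0 h1 M
  have hU := (G12_open h0 h1 M).measurableSet
  refine Integrable.mono' ((g23_intT h0 h1 M).1.const_mul C) ?_ ?_
  · refine Measurable.aestronglyMeasurable ?_
    exact (measurable_fderiv ℝ (GT κ M)).norm.mul
      (measurable_const.mul (Complex.continuous_conj.measurable.comp (measurable_deriv _))).norm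
  · filter_upwards [self_mem_ae_restrict hU] with z hz
    rw [norm_mul, norm_norm, norm_norm, norm_mul, norm_I, one_mul, Complex.norm_conj]
    calc _ ≤ C * ‖deriv (Gp κ M) z‖ * ‖deriv (Gp κ M) z‖ := mul_le_mul_of_nonneg_right (hb z hz) (norm_nonneg _)
      _ = _ := by ring

theorem G23_id {κ K : ℝ} {M : SU} {e : Disc ≃ₜ Disc} (hD : GD κ K M e) {G : ℂ → ℂ} (hG : GG κ M e G) :
    ‖∫ z in GU κ M, fderiv ℝ G z (I * conj (deriv (Gp κ M) z))‖ =
      (1 + κ) / (1 - κ) * ((1 - κ ^ 2) * (Real.pi / 2)) := by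
  have h0 := hD.h0.le
  have h1 := hD.h1
  have hU := G12_open h0 h1 M
  obtain ⟨ε, hε, hb⟩ := G17_bdry hD hG
  have hGa := (G23_acl hD hG).1
  have hTa := G21_acl h0 h1 M
  have e1 := g23_dct h0 h1 M (measurable_fderiv ℝ G) (g23_int hD hG).1
  have e2 := g23_dct h0 h1 M (measurable_fderiv ℝ (GT κ M)) (g23_GTbound h0 h1 M)
  have e3 := (G20_lim h0 h1 M (w := fun z => ε * G z - GT κ M z) hb).comp (tendsto_add_atTop_nat 1)
  have e4 : ∀ n : ℕ, ε * ∫ z, fderiv ℝ G z (GX κ M (n + 1) z) = (∫ z, fderiv ℝ (GT κ M) z (GX κ M (n + 1) z)) -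
      ∫ z, (Gdiv (GX κ M (n + 1)) z : ℂ) * (ε * G z - GT κ M z) := by
    intro n
    obtain ⟨f1, f2, f3⟩ := G19_field h0 h1 M (n := n + 1) (by omega)
    obtain ⟨a1, a2, a3⟩ := G05_field hU hGa f1 f2 f3
    obtain ⟨b1, b2, b3⟩ := G05_field hU hTa f1 f2 f3
    rw [integral_add a1 a2] at a3
    rw [integral_add b1 b2] at b3
    have c1 : ∫ z, (Gdiv (GX κ M (n + 1)) z : ℂ) * (ε * G z - GT κ M z) =
        ε * (∫ z, (Gdiv (GX κ M (n + 1)) z : ℂ) * G z) - ∫ z, (Gdiv (GX κ M (n + 1)) z : ℂ) * GT κ M z := by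
      rw [← integral_const_mul, ← integral_sub (a1.const_mul ε) b1]
      congr 1
      funext z
      ring
    rw [c1]
    linear_combination ε * a3 - b3
  have e5 : Tendsto (fun n : ℕ => ε * ∫ z, fderiv ℝ G z (GX κ M (n + 1) z)) atTop
      (𝓝 ((∫ z in GU κ M, fderiv ℝ (GT κ M) z (I * conj (deriv (Gp κ M) z))) - 0)) := by
    refine (e2.sub e3).congr fun n => ?_
    exact (e4 n).symm
  have e6 := tendsto_nhds_unique (e1.const_mul ε) e5
  rw [sub_zero] at e6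
  have e7 : ∫ z in GU κ M, fderiv ℝ (GT κ M) z (I * conj (deriv (Gp κ M) z)) =
      I * ((((1 + κ) / (1 - κ)) * ((1 - κ ^ 2) * (Real.pi / 2)) : ℝ) : ℂ) := by
    have f1 : ∫ z in GU κ M, fderiv ℝ (GT κ M) z (I * conj (deriv (Gp κ M) z)) =
        ∫ z in GU κ M, I * ((((1 + κ) / (1 - κ)) * ‖deriv (Gp κ M) z‖ ^ 2 : ℝ) : ℂ) :=
      setIntegral_congr_fun hU.measurableSet fun z hz => G21_deriv h0 h1 M hz
    rw [f1, integral_const_mul, integral_complex_ofReal, integral_const_mul, (g23_intT h0 h1 M).2]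
  rw [e7] at e6
  have e8 : ‖ε‖ = 1 := by
    rcases hε with h | h
    · rw [h, norm_one]
    · rw [h, norm_neg, norm_one]
  have e9 := congrArg norm e6
  rw [norm_mul, e8, one_mul, norm_mul, norm_I, one_mul, Complex.norm_real, Real.norm_of_nonneg] at e9
  · exact e9
  · have h2 : 0 < 1 - κ := by linarith
    have : κ ^ 2 ≤ 1 := by nlinarith
    have := Real.pi_pos
    have : 0 ≤ 1 - κ ^ 2 := by linarith
    positivity

theorem G23_main {κ K : ℝ} {M : SU} {e : Disc ≃ₜ Disc} (hD : GD κ K M e) : KK κ ≤ K := by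
  obtain ⟨G, hG⟩ := G15_exists hD
  have h0 := hD.h0
  have h1 := hD.h1
  obtain ⟨i1, i2⟩ := g23_int hD hG
  have e1 := G23_id hD hG
  set A := (1 - κ ^ 2) * (Real.pi / 2) with hA
  have hA0 : 0 < A := by
    have : κ ^ 2 < 1 := by nlinarith
    have := Real.pi_pos
    have : 0 < 1 - κ ^ 2 := by linarith
    positivity
  have h2 : 0 < 1 - κ := by linarith
  have e2 : (1 + κ) / (1 - κ) * A ≤ ∫ z in GU κ M, ‖fderiv ℝ G z‖ * ‖I * conj (deriv (Gp κ M) z)‖ := by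
    rw [← e1]
    refine (norm_integral_le_integral_norm _).trans ?_
    refine integral_mono_of_nonneg (Eventually.of_forall fun z => norm_nonneg _) i1
      (Eventually.of_forall fun z => ContinuousLinearMap.le_opNorm _ _)
  have e3 : ((1 + κ) / (1 - κ) * A) ^ 2 ≤ K * A * A := (pow_le_pow_left₀ (by positivity) e2 2).trans i2
  unfold KK
  have e4 : ((1 + κ) / (1 - κ)) ^ 2 * (A * A) ≤ K * (A * A) := by
    calc _ = ((1 + κ) / (1 - κ) * A) ^ 2 := by ring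
      _ ≤ _ := e3
      _ = _ := by ring
  exact le_of_mul_le_mul_right e4 (mul_pos hA0 hA0)

/-- 7.4: the Teichmüller problem. -/
theorem G_lower {K : ℝ} (hK : 1 ≤ K) (e : Disc ≃ₜ Disc) (he : IsQC K e) (hb : IdBdry e) (z : Disc)
    (hz : cc ≤ hd z (e z)) : KK k0 ≤ K := by
  obtain ⟨M, b, h1, h2, h3, h4⟩ := G10_normal hz
  obtain ⟨k1, k2, k3⟩ := E_k0
  refine G23_main (M := M) (e := e) ⟨by linarith, by linarith, hK, he, hb, z, b, ?_, h2, h3, ?_⟩
  · rw [k1]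
    exact h1
  · rw [k1]
    exact h4

end Pool.Agent.Lib.H11Q
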