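import Pool.Agent.Lib.H11Q.N02

/-! # H11Q chunk N23 (S/M): the enumeration of the lines.

PROOFS.
* `N23_rep`: `L.rep n`, `N02_nv_act` (`ac γ = SU.act (rho γ)`, `SU.act` is a homomorphism), `N02_iot`.
* `N23_exists`: take `γ0` for `n = 0` from `L.rep 0` and apply `L.perm (γ γ0⁻¹) _ 0`; `N02_TT`, `N02_iot`
  (`nv (g * iot * TT s) = nv (g * iot) = -nv g`).
* `N23_inj`: `bs (L.g i) z = arsinh (mink (nv (L.g i)) (Om z))` for `‖z‖ < 1` (`N01_sg`).  If the normals agree up to a sign then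
  `bs_i = ± bs_j` on the disc.  By `L.neg` both are negative at `0`, so the sign is `+`.  Suppose `i ≠ j`, WLOG `i < j`; at
  `z = (L.g j).app 0`, `bs_j z = 0`; `L.sep` gives `0 ≤ 0 - 4om` in both cases. -/

set_option autoImplicit false

namespace Pool.Agent.Lib.H11Q

open Complex Set MeasureTheory Metric Filter
open scoped ComplexConjugate Topology

theorem n23_ac (γ : W) : ac γ = SU.act (rho γ) := rfl

theorem N23_rep (L : LineSys) (n : ℕ) : ∃ γ ∈ Gam0,
    nv (L.g n) = nv (rho γ * gl0) ∨ nv (L.g n) = -nv (rho γ * gl0) := by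
  obtain ⟨γ, hγ, h⟩ := L.rep n
  refine ⟨γ, hγ, ?_⟩
  rcases h with h | h
  · left
    refine N02_nv_act ?_
    rw [h, map_mul, n23_ac]
  · right
    rw [← N02_iot]
    refine N02_nv_act ?_
    rw [h, map_mul, map_mul, n23_ac]

theorem n23_neg {x y : Mk} (h : -x = y) : x = -y := by
  rw [← h, neg_neg]

theorem N23_exists (L : LineSys) {γ : W} (hγ : γ ∈ Gam0) :
    ∃ n, nv (L.g n) = nv (rho γ * gl0) ∨ nv (L.g n) = -nv (rho γ * gl0) := by
  obtain ⟨γ0, hγ0, h⟩ := L.rep 0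
  obtain ⟨m, s, hm⟩ := L.perm (γ * γ0⁻¹) (Gam0.mul_mem hγ (Gam0.inv_mem hγ0)) 0
  refine ⟨m, ?_⟩
  have e1 : ∃ k : SU, (nv k = nv (rho γ * gl0) ∨ nv k = -nv (rho γ * gl0)) ∧
      ac (γ * γ0⁻¹) * SU.act (L.g 0) = SU.act k := by
    rcases h with h | h
    · refine ⟨rho γ * gl0, Or.inl rfl, ?_⟩
      rw [h, ← mul_assoc, ← map_mul, inv_mul_cancel_right, map_mul, n23_ac]
    · refine ⟨rho γ * gl0 * iot, Or.inr (N02_iot _), ?_⟩
      rw [h, ← mul_assoc, ← mul_assoc, ← map_mul ac, inv_mul_cancel_right, map_mul, map_mul, n23_ac]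
  obtain ⟨k, hk, hk'⟩ := e1
  rw [hk'] at hm
  rcases hm with hm | hm
  · rw [← map_mul] at hm
    have h1 := N02_nv_act hm
    rw [N02_TT] at h1
    rw [h1]
    exact hk
  · rw [← map_mul, ← map_mul] at hm
    have h1 := N02_nv_act hm
    rw [N02_TT, N02_iot] at h1
    have h2 := n23_neg h1
    rcases hk with hk | hk
    · right
      rw [h2, hk]
    · left
      rw [h2, hk, neg_neg]

theorem n23_mink_neg (x y : Mk) : mink (-x) y = -mink x y := by
  unfold mink
  simp only [Prod.fst_neg, Prod.snd_neg, neg_mul, neg_re]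
  ring

theorem n23_bs (g : SU) {z : ℂ} (hz : ‖z‖ < 1) : bs g z = Real.arsinh (mink (nv g) (Om z)) := by
  unfold bs
  rw [N01_sg g hz]

theorem n23_lt (L : LineSys) {i j : ℕ} (hij : i < j)
    (h : ∀ z : ℂ, ‖z‖ < 1 → bs (L.g i) z = bs (L.g j) z) : False := by
  have h0 := L.om_pos
  have hz : ‖(L.g j).app 0‖ < 1 := (L.g j).app_norm_lt (by simp)
  have hj : bs (L.g j) ((L.g j).app 0) = 0 := by
    unfold bs
    rw [← SU.app_mul _ _ (by simp), inv_mul_cancel, SU.app_one]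
    simp [sg]
  have hi := h _ hz
  rw [hj] at hi
  rcases L.sep i j hij with h1 | h1
  · have h2 : bs (L.g j) ((L.g j).app 0) ≤ bs (L.g i) ((L.g j).app 0) - 4 * L.om := h1 ⟨_, hz⟩
    rw [hi, hj] at h2
    linarith
  · have h2 : bs (L.g j) ((L.g j).app 0) ≤ -bs (L.g i) ((L.g j).app 0) - 4 * L.om := h1 ⟨_, hz⟩
    rw [hi, hj] at h2
    linarith

theorem N23_inj (L : LineSys) {i j : ℕ}
    (h : nv (L.g i) = nv (L.g j) ∨ nv (L.g i) = -nv (L.g j)) : i = j := by
  have key : ∀ z : ℂ, ‖z‖ < 1 → bs (L.g i) z = bs (L.g j) z := by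
    rcases h with h | h
    · intro z hz
      rw [n23_bs _ hz, n23_bs _ hz, h]
    · exfalso
      have h0 := L.om_pos
      have h1 := L.neg i
      have h2 := L.neg j
      have h3 : bs (L.g i) 0 = -bs (L.g j) 0 := by
        rw [n23_bs _ (by simp), n23_bs _ (by simp), h, n23_mink_neg, Real.arsinh_neg]
      rw [h3] at h1
      linarith
  rcases lt_trichotomy i j with h1 | h1 | h1
  · exact (n23_lt L h1 key).elim
  · exact h1
  · exact (n23_lt L h1 fun z hz => (key z hz).symm).elim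

end Pool.Agent.Lib.H11Q
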