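import Pool.Agent.Lib.H11Q.N24

/-! # H11Q chunk N30 (M): the half-turns about `m_0` and `m_1` in the coordinates of the line `l_0`. -/

set_option autoImplicit false

namespace Pool.Agent.Lib.H11Q

open Complex Set MeasureTheory Metric Filter
open scoped ComplexConjugate Topology

theorem N30_TT_add (s t : ℝ) : TT s * TT t = TT (s + t) := by
  have e : (s + t) / 2 = s / 2 + t / 2 := by ring
  apply SU.ext
  · show ((Real.cosh (s / 2) : ℝ) : ℂ) * ((Real.cosh (t / 2) : ℝ) : ℂ) +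
      ((Real.sinh (s / 2) : ℝ) : ℂ) * conj ((Real.sinh (t / 2) : ℝ) : ℂ) =
      ((Real.cosh ((s + t) / 2) : ℝ) : ℂ)
    rw [conj_ofReal, e, Real.cosh_add]
    push_cast
    ring
  · show ((Real.cosh (s / 2) : ℝ) : ℂ) * ((Real.sinh (t / 2) : ℝ) : ℂ) +
      ((Real.sinh (s / 2) : ℝ) : ℂ) * conj ((Real.cosh (t / 2) : ℝ) : ℂ) =
      ((Real.sinh ((s + t) / 2) : ℝ) : ℂ)
    rw [conj_ofReal, e, Real.sinh_add]
    push_cast
    ring

theorem N30_iot_TT (s : ℝ) : iot * TT s = TT (-s) * iot := by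
  have e : (-s) / 2 = -(s / 2) := by ring
  apply SU.ext
  · show I * ((Real.cosh (s / 2) : ℝ) : ℂ) + 0 * conj ((Real.sinh (s / 2) : ℝ) : ℂ) =
      ((Real.cosh ((-s) / 2) : ℝ) : ℂ) * I + ((Real.sinh ((-s) / 2) : ℝ) : ℂ) * conj (0 : ℂ)
    rw [e, Real.cosh_neg, map_zero]
    ring
  · show I * ((Real.sinh (s / 2) : ℝ) : ℂ) + 0 * conj ((Real.cosh (s / 2) : ℝ) : ℂ) =
      ((Real.cosh ((-s) / 2) : ℝ) : ℂ) * 0 + ((Real.sinh ((-s) / 2) : ℝ) : ℂ) * conj I
    rw [e, Real.sinh_neg, conj_I]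
    push_cast
    ring

theorem N30_iot_iot : SU.act (iot * iot) = 1 := by
  apply Homeomorph.ext
  intro z
  apply Subtype.ext
  have ha : (iot * iot).a = -1 := by
    show I * I + 0 * conj (0 : ℂ) = -1
    rw [map_zero, I_mul_I]
    ring
  have hb : (iot * iot).b = 0 := by
    show I * 0 + 0 * conj I = 0
    ring
  rw [SU.act_coe]
  show ((iot * iot).a * z + (iot * iot).b) / (conj (iot * iot).b * z + conj (iot * iot).a) = (z : ℂ)
  rw [ha, hb]
  simp

theorem n30_s_pos : 0 < Real.sin (Real.pi / 7) := pi7_pos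

/-- hyperbolic functions of `d0` -/
theorem n30_d0 : Real.sinh d0 = Real.cos (Real.pi / 7) * qq / MM ∧ Real.cosh d0 = 1 / MM := by
  obtain ⟨h1, h2⟩ := N24_M
  have e : td = Real.cos (Real.pi / 7) * qq := rfl
  have e2 : 1 - td ^ 2 = MM ^ 2 := by
    rw [h1, e]
    ring
  have e3 : Real.sqrt (1 - td ^ 2) = MM := by
    rw [e2, Real.sqrt_sq h2.le]
  have e4 : Real.sinh d0 = td / MM := by
    unfold d0
    rw [Real.sinh_arsinh, e3]
  refine ⟨by rw [e4, e], ?_⟩
  have e5 : Real.cosh d0 ^ 2 = (1 / MM) ^ 2 := by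
    rw [Real.cosh_sq, e4, div_pow, div_pow]
    have h3 : MM ^ 2 ≠ 0 := pow_ne_zero 2 h2.ne'
    field_simp
    linarith
  have h4 : 0 < Real.cosh d0 := Real.cosh_pos _
  exact (sq_eq_sq₀ h4.le (by positivity)).mp e5

theorem n30_D : Real.sinh (Dm / 2) = qq / 2 ∧ 2 * Real.sin (Real.pi / 7) * Real.cosh (Dm / 2) = MM := by
  have e : Dm / 2 = Real.arsinh (qq / 2) := by
    unfold Dm
    ring
  have hs := n30_s_pos
  obtain ⟨h1, h2⟩ := N24_M
  have hq := N24_q.1
  have hcs := Real.sin_sq_add_cos_sq (Real.pi / 7)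
  refine ⟨by rw [e, Real.sinh_arsinh], ?_⟩
  have h3 : 0 < Real.cosh (Dm / 2) := Real.cosh_pos _
  have h4 : Real.cosh (Dm / 2) ^ 2 = 1 + qq ^ 2 / 4 := by
    rw [Real.cosh_sq, e, Real.sinh_arsinh]
    ring
  have h5 : (2 * Real.sin (Real.pi / 7) * Real.cosh (Dm / 2)) ^ 2 = MM ^ 2 := by
    rw [mul_pow, h4, h1, hq]
    have : Real.cos (Real.pi / 7) ^ 2 = 1 - Real.sin (Real.pi / 7) ^ 2 := by linarith
    rw [this]
    ring
  exact (sq_eq_sq₀ (by positivity) h2.le).mp h5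

/-- the two relations -/
theorem n30_rel : Real.cosh (d0 / 2) - qq * Real.cos (Real.pi / 7) * Real.sinh (d0 / 2) =
      2 * Real.sin (Real.pi / 7) * Real.cosh (Dm / 2) * Real.cosh (d0 / 2) ∧
    qq * Real.cos (Real.pi / 7) * Real.cosh (d0 / 2) - Real.sinh (d0 / 2) =
      2 * Real.sin (Real.pi / 7) * Real.cosh (Dm / 2) * Real.sinh (d0 / 2) := by
  obtain ⟨h1, h2⟩ := n30_d0
  obtain ⟨-, h3⟩ := n30_D
  obtain ⟨m1, m2⟩ := N24_M
  rw [h3]
  have hch : 0 < Real.cosh (d0 / 2) := Real.cosh_pos _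
  have e1 : Real.sinh d0 = 2 * Real.sinh (d0 / 2) * Real.cosh (d0 / 2) := by
    rw [← Real.sinh_two_mul]
    congr 1
    ring
  have e2 : Real.cosh d0 = 2 * Real.cosh (d0 / 2) ^ 2 - 1 := by
    have : d0 = 2 * (d0 / 2) := by ring
    rw [this, Real.cosh_two_mul]
    have h5 := Real.cosh_sq (d0 / 2)
    have : 2 * (d0 / 2) / 2 = d0 / 2 := by ring
    rw [this]
    linarith
  rw [h1] at e1
  rw [h2] at e2
  have e3 : 2 * Real.cosh (d0 / 2) ^ 2 * MM = 1 + MM := by
    have : 2 * Real.cosh (d0 / 2) ^ 2 = 1 / MM + 1 := by linarith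
    rw [this]
    field_simp
  have e4 : 2 * Real.sinh (d0 / 2) * Real.cosh (d0 / 2) * MM = Real.cos (Real.pi / 7) * qq := by
    rw [← e1]
    field_simp
  constructor
  · have : 2 * MM * Real.cosh (d0 / 2) * (Real.cosh (d0 / 2) -
        qq * Real.cos (Real.pi / 7) * Real.sinh (d0 / 2) - MM * Real.cosh (d0 / 2)) = 0 := by
      linear_combination (1 - MM) * e3 - qq * Real.cos (Real.pi / 7) * e4 - m1
    have h6 : 2 * MM * Real.cosh (d0 / 2) ≠ 0 := by positivity
    have := (mul_eq_zero.mp this).resolve_left h6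
    linarith
  · have : 2 * MM * Real.cosh (d0 / 2) * (qq * Real.cos (Real.pi / 7) * Real.cosh (d0 / 2) -
        Real.sinh (d0 / 2) - MM * Real.sinh (d0 / 2)) = 0 := by
      linear_combination qq * Real.cos (Real.pi / 7) * e3 - (1 + MM) * e4
    have h6 : 2 * MM * Real.cosh (d0 / 2) ≠ 0 := by positivity
    have := (mul_eq_zero.mp this).resolve_left h6
    linarith

/-- `exp(iπ/7)` -/
noncomputable def n30E : ℂ := (Real.cos (Real.pi / 7) : ℂ) + (Real.sin (Real.pi / 7) : ℂ) * I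

noncomputable def n30F : ℂ := (Real.cos (Real.pi / 4) : ℂ) - (Real.sin (Real.pi / 4) : ℂ) * I

theorem n30_E : n30E * conj n30E = 1 := by
  rw [mul_conj]
  have : normSq n30E = 1 := by
    rw [normSq_apply]
    have h1 : n30E.re = Real.cos (Real.pi / 7) := by
      unfold n30E
      simp only [add_re, mul_re, ofReal_re, ofReal_im, I_re, I_im]
      ring
    have h2 : n30E.im = Real.sin (Real.pi / 7) := by
      unfold n30E
      simp only [add_im, mul_im, ofReal_re, ofReal_im, I_re, I_im]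
      ring
    rw [h1, h2]
    have := Real.sin_sq_add_cos_sq (Real.pi / 7)
    nlinarith
  rw [this]
  simp

theorem n30_Ec : conj n30E = (Real.cos (Real.pi / 7) : ℂ) - (Real.sin (Real.pi / 7) : ℂ) * I := by
  unfold n30E
  rw [map_add, map_mul, conj_ofReal, conj_ofReal, conj_I]
  ring

theorem n30_F : conj n30F = I * n30F := by
  have h : Real.sin (Real.pi / 4) = Real.cos (Real.pi / 4) := by
    rw [Real.sin_pi_div_four, Real.cos_pi_div_four]
  unfold n30F
  rw [map_sub, map_mul, conj_ofReal, conj_ofReal, conj_I, h]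
  have := I_mul_I
  linear_combination (Real.cos (Real.pi / 4) : ℂ) * this

theorem n30_A : gA.a = n30E ∧ gA.b = 0 := by
  have h := N02_rot (2 * Real.pi / 7)
  refine ⟨?_, h.2⟩
  show (rot o0 (2 * Real.pi / 7)).a = _
  rw [h.1]
  have e : (2 * Real.pi / 7 / 2 : ℝ) = Real.pi / 7 := by ring
  rw [e, exp_mul_I]
  unfold n30E
  push_cast
  rfl

theorem n30_gl0 : gl0.a = n30E * n30F * (Real.cosh (d0 / 2) : ℂ) ∧
    gl0.b = n30E * (I * n30F) * (Real.sinh (d0 / 2) : ℂ) := by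
  have h := N02_rot (2 * Real.pi / 7)
  have h' := N02_rot (-(Real.pi / 2))
  have e1 : (rot o0 (2 * Real.pi / 7)).a = n30E := n30_A.1
  have e2 : (rot o0 (-(Real.pi / 2))).a = n30F := by
    rw [h'.1]
    have e : (-(Real.pi / 2) / 2 : ℝ) = -(Real.pi / 4) := by ring
    rw [e, exp_mul_I]
    unfold n30F
    push_cast
    rw [Complex.cos_neg, Complex.sin_neg]
    ring
  have e3 : (rot o0 (2 * Real.pi / 7)).b = 0 := h.2
  have e4 : (rot o0 (-(Real.pi / 2))).b = 0 := h'.2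
  have t1 : (TT d0).a = (Real.cosh (d0 / 2) : ℂ) := rfl
  have t2 : (TT d0).b = (Real.sinh (d0 / 2) : ℂ) := rfl
  constructor
  · show (rot o0 (2 * Real.pi / 7) * TT d0 * rot o0 (-(Real.pi / 2))).a = _
    simp only [SU.mul_a, SU.mul_b, e1, e2, e3, e4, t1, t2, map_zero]
    ring
  · show (rot o0 (2 * Real.pi / 7) * TT d0 * rot o0 (-(Real.pi / 2))).b = _
    simp only [SU.mul_a, SU.mul_b, e1, e2, e3, e4, t1, t2, map_zero, n30_F]
    ring

/-- the matrix of `A B` -/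
theorem n30_AB : (2 * (Real.sin (Real.pi / 7) : ℂ)) * (gA * gB).a = I ∧
    (2 * (Real.sin (Real.pi / 7) : ℂ)) * (gA * gB).b = -(I * (qq : ℂ) * n30E) := by
  obtain ⟨h1, h2⟩ := N24_gB
  obtain ⟨a1, a2⟩ := n30_A
  have hs : (Real.sin (Real.pi / 7) : ℂ) ≠ 0 := by
    exact_mod_cast n30_s_pos.ne'
  have hcs : (Real.sin (Real.pi / 7) : ℂ) ^ 2 + (Real.cos (Real.pi / 7) : ℂ) ^ 2 = 1 := by
    exact_mod_cast Real.sin_sq_add_cos_sq (Real.pi / 7)
  have b1 : (2 * (Real.sin (Real.pi / 7) : ℂ)) * gB.a =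
      (Real.sin (Real.pi / 7) : ℂ) + I * (Real.cos (Real.pi / 7) : ℂ) := by
    rw [h1]
    simp only [ofReal_div, ofReal_mul, ofReal_ofNat]
    field_simp
  have b2 : (2 * (Real.sin (Real.pi / 7) : ℂ)) * gB.b = -(I * (qq : ℂ)) := by
    rw [h2]
    simp only [ofReal_div, ofReal_mul, ofReal_ofNat]
    field_simp
  constructor
  · rw [SU.mul_a, a1, a2, zero_mul, add_zero, mul_left_comm, b1]
    unfold n30E
    have := I_mul_I
    linear_combination (I : ℂ) * hcs + (Real.sin (Real.pi / 7) : ℂ) * (Real.cos (Real.pi / 7) : ℂ) * this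
  · rw [SU.mul_b, a1, a2, zero_mul, add_zero, mul_left_comm, b2]
    ring

theorem n30_rho_A : rho wA = gA := by simp [rho, wA]
theorem n30_rho_B : rho wB = gB := by simp [rho, wB]

/-- the matrix of the second half-turn -/
theorem n30_AAB : (2 * (Real.sin (Real.pi / 7) : ℂ)) * (rho we1).a = I ∧
    (2 * (Real.sin (Real.pi / 7) : ℂ)) * (rho we1).b = -(I * (qq : ℂ) * n30E ^ 3) := by
  obtain ⟨x1, x2⟩ := n30_AB
  obtain ⟨a1, a2⟩ := n30_A
  have e : rho we1 = gA * (gA * gB) * gA⁻¹ := by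
    unfold we1
    rw [map_mul, map_mul, map_mul, map_inv, n30_rho_A, n30_rho_B]
  have hE := n30_E
  rw [e]
  constructor
  · rw [SU.mul_a, SU.inv_a, SU.inv_b, a2, SU.mul_a gA (gA * gB), SU.mul_b gA (gA * gB), a1, a2]
    simp only [map_zero, neg_zero, mul_zero, add_zero, zero_mul]
    linear_combination (n30E * conj n30E) * x1 + I * hE
  · rw [SU.mul_b, SU.inv_a, SU.inv_b, a2, SU.mul_a gA (gA * gB), SU.mul_b gA (gA * gB), a1, a2]
    simp only [neg_zero, mul_zero, add_zero, zero_mul, zero_add, conj_conj]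
    linear_combination (n30E * n30E) * x2

theorem n30_e0 : rho we0 * gl0 = gl0 * iot * TT (-Dm) := by
  have hs : (2 * (Real.sin (Real.pi / 7) : ℂ)) ≠ 0 :=
    mul_ne_zero two_ne_zero (by exact_mod_cast n30_s_pos.ne')
  obtain ⟨x1, x2⟩ := n30_AB
  obtain ⟨g1, g2⟩ := n30_gl0
  obtain ⟨r1, r2⟩ := n30_rel
  have r1' : (Real.cosh (d0 / 2) : ℂ) - qq * Real.cos (Real.pi / 7) * Real.sinh (d0 / 2) =
      2 * Real.sin (Real.pi / 7) * Real.cosh (Dm / 2) * Real.cosh (d0 / 2) := by exact_mod_cast r1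
  have r2' : (qq : ℂ) * Real.cos (Real.pi / 7) * Real.cosh (d0 / 2) - Real.sinh (d0 / 2) =
      2 * Real.sin (Real.pi / 7) * Real.cosh (Dm / 2) * Real.sinh (d0 / 2) := by exact_mod_cast r2
  have hS : (Real.sinh (Dm / 2) : ℂ) = qq / 2 := by exact_mod_cast n30_D.1
  have t1 : (TT (-Dm)).a = (Real.cosh (Dm / 2) : ℂ) := by
    show ((Real.cosh (-Dm / 2) : ℝ) : ℂ) = _
    rw [neg_div, Real.cosh_neg]
  have t2 : (TT (-Dm)).b = -(Real.sinh (Dm / 2) : ℂ) := by
    show ((Real.sinh (-Dm / 2) : ℝ) : ℂ) = _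
    rw [neg_div, Real.sinh_neg]
    push_cast
    rfl
  have i1 : iot.a = I := rfl
  have i2 : iot.b = 0 := rfl
  have e : rho we0 = gA * gB := by
    unfold we0
    rw [map_mul, n30_rho_A, n30_rho_B]
  have cg2 : conj gl0.b = conj n30E * n30F * (Real.sinh (d0 / 2) : ℂ) := by
    rw [g2, map_mul, map_mul, ← n30_F, conj_conj, conj_ofReal]
  have cg1 : conj gl0.a = conj n30E * (I * n30F) * (Real.cosh (d0 / 2) : ℂ) := by
    rw [g1, map_mul, map_mul, n30_F, conj_ofReal]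
  have hE := n30_E
  have hEc := n30_Ec
  rw [e]
  apply SU.ext
  · apply mul_left_cancel₀ hs
    rw [SU.mul_a (gA * gB) gl0, mul_add, ← mul_assoc, x1, ← mul_assoc (2 * _) (gA * gB).b, x2,
      SU.mul_a, SU.mul_a, SU.mul_b, i1, i2, t1, t2, map_zero, cg2, g1, g2, map_neg, conj_ofReal, hS,
      conj_I]
    have hII := I_mul_I
    rw [hEc] at hE ⊢
    linear_combination (I * n30F * n30E) * r1' +
      (0 : ℂ) * hII
  · apply mul_left_cancel₀ hs
    rw [SU.mul_b (gA * gB) gl0, mul_add, ← mul_assoc, x1, ← mul_assoc (2 * _) (gA * gB).b, x2,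
      SU.mul_b, SU.mul_b, SU.mul_a, i1, i2, t1, t2, map_zero, cg1, g1, g2, conj_ofReal, hS, conj_I]
    have hII := I_mul_I
    rw [hEc] at hE ⊢
    linear_combination (-(I * I) * n30F * n30E) * r2' +
      (I * n30E * n30F * qq * Real.sin (Real.pi / 7) * Real.cosh (d0 / 2)) * hII

theorem n30_e1 : rho we1 * gl0 = gl0 * iot * TT Dm := by
  have hs : (2 * (Real.sin (Real.pi / 7) : ℂ)) ≠ 0 :=
    mul_ne_zero two_ne_zero (by exact_mod_cast n30_s_pos.ne')
  obtain ⟨x1, x2⟩ := n30_AAB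
  obtain ⟨g1, g2⟩ := n30_gl0
  obtain ⟨r1, r2⟩ := n30_rel
  have r1' : (Real.cosh (d0 / 2) : ℂ) - qq * Real.cos (Real.pi / 7) * Real.sinh (d0 / 2) =
      2 * Real.sin (Real.pi / 7) * Real.cosh (Dm / 2) * Real.cosh (d0 / 2) := by exact_mod_cast r1
  have r2' : (qq : ℂ) * Real.cos (Real.pi / 7) * Real.cosh (d0 / 2) - Real.sinh (d0 / 2) =
      2 * Real.sin (Real.pi / 7) * Real.cosh (Dm / 2) * Real.sinh (d0 / 2) := by exact_mod_cast r2
  have hS : (Real.sinh (Dm / 2) : ℂ) = qq / 2 := by exact_mod_cast n30_D.1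
  have t1 : (TT Dm).a = (Real.cosh (Dm / 2) : ℂ) := rfl
  have t2 : (TT Dm).b = (Real.sinh (Dm / 2) : ℂ) := rfl
  have i1 : iot.a = I := rfl
  have i2 : iot.b = 0 := rfl
  have cg2 : conj gl0.b = conj n30E * n30F * (Real.sinh (d0 / 2) : ℂ) := by
    rw [g2, map_mul, map_mul, ← n30_F, conj_conj, conj_ofReal]
  have cg1 : conj gl0.a = conj n30E * (I * n30F) * (Real.cosh (d0 / 2) : ℂ) := by
    rw [g1, map_mul, map_mul, n30_F, conj_ofReal]
  have hE := n30_E
  have hEc : n30E = (Real.cos (Real.pi / 7) : ℂ) + (Real.sin (Real.pi / 7) : ℂ) * I := rfl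
  have hII := I_mul_I
  apply SU.ext
  · apply mul_left_cancel₀ hs
    rw [SU.mul_a (rho we1) gl0, mul_add, ← mul_assoc, x1, ← mul_assoc (2 * _) (rho we1).b, x2,
      SU.mul_a, SU.mul_a, SU.mul_b, i1, i2, t1, t2, map_zero, cg2, g1, g2, conj_ofReal, hS,
      conj_I]
    linear_combination (I * n30F * n30E) * r1' -
      (I * n30F * n30E * n30E * qq * Real.sinh (d0 / 2)) * hE -
      (I * n30F * n30E * qq * Real.sinh (d0 / 2)) * hEc
  · apply mul_left_cancel₀ hs
    rw [SU.mul_b (rho we1) gl0, mul_add, ← mul_assoc, x1, ← mul_assoc (2 * _) (rho we1).b, x2,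
      SU.mul_b, SU.mul_b, SU.mul_a, i1, i2, t1, t2, map_zero, cg1, g1, g2, conj_ofReal, hS, conj_I]
    linear_combination (-(I * I) * n30F * n30E) * r2' -
      (I * I * n30F * n30E * n30E * qq * Real.cosh (d0 / 2)) * hE -
      (I * I * n30F * n30E * qq * Real.cosh (d0 / 2)) * hEc -
      (I * n30F * n30E * qq * Real.cosh (d0 / 2) * Real.sin (Real.pi / 7)) * hII

theorem N30_e0 : SU.act (rho we0 * gl0) = SU.act (gl0 * iot * TT (-Dm)) := by
  rw [n30_e0]

theorem N30_e1 : SU.act (rho we1 * gl0) = SU.act (gl0 * iot * TT Dm) := by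
  rw [n30_e1]

theorem n30_TT_zero : TT 0 = 1 := by
  apply SU.ext
  · show ((Real.cosh (0 / 2) : ℝ) : ℂ) = 1
    simp
  · show ((Real.sinh (0 / 2) : ℝ) : ℂ) = 0
    simp

/-- one step -/
theorem n30_step : SU.act (rho (we0 * we1)) * SU.act gl0 = SU.act gl0 * SU.act (TT (2 * Dm)) := by
  have h0 := N30_e0
  have h1 := N30_e1
  have hi := N30_iot_iot
  rw [map_mul] at h0 h1 hi
  rw [map_mul, map_mul] at h0 h1
  rw [map_mul rho, map_mul, mul_assoc, h1, ← mul_assoc, ← mul_assoc, h0]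
  have e : SU.act (TT (-Dm)) * SU.act iot = SU.act iot * SU.act (TT Dm) := by
    rw [← map_mul, ← map_mul, N30_iot_TT]
  have e2 : SU.act (TT Dm) * SU.act (TT Dm) = SU.act (TT (2 * Dm)) := by
    rw [← map_mul, N30_TT_add]
    congr 2
    ring
  calc SU.act gl0 * SU.act iot * SU.act (TT (-Dm)) * SU.act iot * SU.act (TT Dm)
      = SU.act gl0 * SU.act iot * (SU.act (TT (-Dm)) * SU.act iot) * SU.act (TT Dm) := by
        simp only [mul_assoc]
    _ = SU.act gl0 * (SU.act iot * SU.act iot) * (SU.act (TT Dm) * SU.act (TT Dm)) := by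
        rw [e]
        simp only [mul_assoc]
    _ = SU.act gl0 * SU.act (TT (2 * Dm)) := by
        rw [hi, e2, mul_one]

theorem N30_T (k : ℤ) : SU.act (rho ((we0 * we1) ^ k) * gl0) = SU.act (gl0 * TT (2 * Dm * k)) := by
  rw [map_mul, map_mul]
  induction k using Int.induction_on with
  | zero =>
    simp [n30_TT_zero]
  | succ i ih =>
    rw [zpow_add_one, map_mul, map_mul, mul_assoc, n30_step, ← mul_assoc, ih, mul_assoc, ← map_mul,
      N30_TT_add]
    congr 3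
    push_cast
    ring
  | pred i ih =>
    have h2 : SU.act (rho (we0 * we1))⁻¹ * SU.act gl0 = SU.act gl0 * SU.act (TT (-(2 * Dm))) := by
      have h3 := n30_step
      have h4 : SU.act (TT (2 * Dm)) * SU.act (TT (-(2 * Dm))) = 1 := by
        rw [← map_mul, N30_TT_add, add_neg_cancel, n30_TT_zero, map_one]
      rw [map_inv, inv_mul_eq_iff_eq_mul, ← mul_assoc, h3, mul_assoc, h4, mul_one]
    rw [zpow_sub_one, map_mul, map_mul, mul_assoc, map_inv, h2, ← mul_assoc, ih, mul_assoc,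
      ← map_mul, N30_TT_add]
    congr 3
    push_cast
    ring

theorem N30_Te (k : ℤ) : SU.act (rho ((we0 * we1) ^ k * we0) * gl0) =
    SU.act (gl0 * iot * TT (-(Dm + 2 * Dm * k))) := by
  have h := N30_T k
  have h0 := N30_e0
  rw [map_mul] at h h0
  rw [map_mul, map_mul] at h0
  rw [map_mul rho, map_mul, map_mul, mul_assoc, h0, ← mul_assoc, ← mul_assoc, h, map_mul, map_mul,
    map_mul]
  have e : SU.act (TT (2 * Dm * k)) * SU.act iot = SU.act iot * SU.act (TT (-(2 * Dm * k))) := by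
    rw [← map_mul, ← map_mul, N30_iot_TT, neg_neg]
  have e2 : SU.act (TT (-(2 * Dm * k))) * SU.act (TT (-Dm)) =
      SU.act (TT (-(Dm + 2 * Dm * k))) := by
    rw [← map_mul, N30_TT_add]
    congr 2
    ring
  calc SU.act gl0 * SU.act (TT (2 * Dm * k)) * SU.act iot * SU.act (TT (-Dm))
      = SU.act gl0 * (SU.act (TT (2 * Dm * k)) * SU.act iot) * SU.act (TT (-Dm)) := by
        simp only [mul_assoc]
    _ = SU.act gl0 * SU.act iot * (SU.act (TT (-(2 * Dm * k))) * SU.act (TT (-Dm))) := by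
        rw [e]
        simp only [mul_assoc]
    _ = SU.act gl0 * SU.act iot * SU.act (TT (-(Dm + 2 * Dm * k))) := by
        rw [e2]

theorem N30_Dm_pos : 0 < Dm := by
  unfold Dm
  have h := N24_q.2
  have : 0 < Real.arsinh (qq / 2) := Real.arsinh_pos_iff.mpr (by positivity)
  positivity

end Pool.Agent.Lib.H11Q
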