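import Pool.Agent.Lib.H11Q.N02

/-! # H11Q chunk N31 (S/M): the translates of the ball `|z| < r_1` are disjoint.

PROOF.  `w := γ⁻¹ γ'`, `z = w z'` (as points of the disc, `z = ac w z'`).  Suppose `ac w o0 ≠ o0`.  `Vor` at `z` for `w`:
`<Om z, Om 0> < <Om z, Om (w 0)> = <Om (w z'), Om (w 0)> = <Om z', Om 0>` (`N01_lin_Om`, `N01_lin_mink`).  `Vor` at `z'` for `w⁻¹`
(`ac w⁻¹ o0 ≠ o0`): `<Om z', Om 0> < <Om z', Om (w⁻¹ 0)> = <Om z, Om 0>`.  Contradiction.  So `ac w o0 = o0`, `Stab` gives `ac w = 1`. -/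

set_option autoImplicit false

namespace Pool.Agent.Lib.H11Q

open Complex Set MeasureTheory Metric Filter
open scoped ComplexConjugate Topology

theorem n31_mink (w : W) (x y : Disc) :
    mink (Om (ac w x)) (Om (ac w y)) = mink (Om x) (Om y) := by
  have e1 : ((ac w x : Disc) : ℂ) = (rho w).app x := rfl
  have e2 : ((ac w y : Disc) : ℂ) = (rho w).app y := rfl
  rw [e1, e2, ← N01_lin_Om _ x.2, ← N01_lin_Om _ y.2, N01_lin_mink]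

theorem n31_lt {z : ℂ}
    (hz : ‖z‖ ^ 2 < (1 - 2 * Real.sin (Real.pi / 7)) / (1 + 2 * Real.sin (Real.pi / 7))) :
    ‖z‖ < 1 := by
  have hpos := pi7_pos
  have hle : (1 - 2 * Real.sin (Real.pi / 7)) / (1 + 2 * Real.sin (Real.pi / 7)) ≤ 1 := by
    rw [div_le_one (by linarith)]
    linarith
  have h0 := norm_nonneg z
  nlinarith

theorem N31_disj (hV : Vor) (hS : Stab) {γ γ' : W} (h : γ ∈ Gam0) (h' : γ' ∈ Gam0) {z z' : ℂ}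
    (hz : ‖z‖ ^ 2 < (1 - 2 * Real.sin (Real.pi / 7)) / (1 + 2 * Real.sin (Real.pi / 7)))
    (hz' : ‖z'‖ ^ 2 < (1 - 2 * Real.sin (Real.pi / 7)) / (1 + 2 * Real.sin (Real.pi / 7)))
    (e : (rho γ).app z = (rho γ').app z') : ac γ = ac γ' := by
  have hZ : ac γ ⟨z, n31_lt hz⟩ = ac γ' ⟨z', n31_lt hz'⟩ := Subtype.ext e
  obtain ⟨Z, hZd⟩ : ∃ Z : Disc, Z = ⟨z, n31_lt hz⟩ := ⟨_, rfl⟩
  obtain ⟨Z', hZd'⟩ : ∃ Z : Disc, Z = ⟨z', n31_lt hz'⟩ := ⟨_, rfl⟩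
  rw [← hZd, ← hZd'] at hZ
  have hzZ : ‖(Z : ℂ)‖ ^ 2 <
      (1 - 2 * Real.sin (Real.pi / 7)) / (1 + 2 * Real.sin (Real.pi / 7)) := by
    rw [hZd]
    exact hz
  have hzZ' : ‖(Z' : ℂ)‖ ^ 2 <
      (1 - 2 * Real.sin (Real.pi / 7)) / (1 + 2 * Real.sin (Real.pi / 7)) := by
    rw [hZd']
    exact hz'
  have hw : ac (γ⁻¹ * γ') Z' = Z := by
    rw [map_mul, map_inv]
    show (ac γ)⁻¹ (ac γ' Z') = Z
    rw [← hZ]
    exact (ac γ).symm_apply_apply Z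
  by_contra hne
  have hwG : γ⁻¹ * γ' ∈ Gam0 := Gam0.mul_mem (Gam0.inv_mem h) h'
  have h0 : ac (γ⁻¹ * γ') o0 ≠ o0 := by
    intro h0
    have h1 := hS _ hwG h0
    rw [map_mul, map_inv, inv_mul_eq_one] at h1
    exact hne h1
  have h2 : ac (γ⁻¹ * γ') (ac (γ⁻¹ * γ')⁻¹ o0) = o0 := by
    rw [map_inv]
    exact (ac (γ⁻¹ * γ')).apply_symm_apply o0
  have h0' : ac (γ⁻¹ * γ')⁻¹ o0 ≠ o0 := by
    intro h1
    rw [h1] at h2
    exact h0 h2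
  have a1 := hV Z hzZ _ h0
  have a2 := hV Z' hzZ' _ h0'
  have b1 := n31_mink (γ⁻¹ * γ') Z' o0
  have b2 := n31_mink (γ⁻¹ * γ') Z' (ac (γ⁻¹ * γ')⁻¹ o0)
  rw [hw] at b1 b2
  rw [h2] at b2
  rw [b1] at a1
  rw [← b2] at a2
  exact lt_asymm a1 a2

end Pool.Agent.Lib.H11Q
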