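import Pool.Agent.Lib.H11Q.N10
import Pool.Agent.Lib.H11Q.N23
import Pool.Agent.Lib.H11Q.N30
import Pool.Agent.Lib.H11Q.N31

/-! # H11Q chunk N32 (M): the copies in the strip are disjoint.

PROOFS.
* `N32_mem`: let `ζ ∈ cpy Dm (EEs (rho γ * gl0) r) k b`.  If `b = true`: `ζ = st y + 2Dk`, `y = (rho γ * gl0)⁻¹.app z`, `‖z‖ < r`; so
  `th ζ = (TT (2Dk)).app y` (`N10_shift`, `N10_st`) and `gl0.app (th ζ) = (gl0 * TT (2Dk)).app y = (rho (T^k) * gl0).app y
  = (rho (T^k)).app ((rho γ)⁻¹.app z) = (rho (T^k * γ⁻¹)).app z` (`N30_T`: equality of `SU.act` gives equality of `app` on the disc).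
  If `b = false`: `ζ = -st y + (D + 2Dk)`, `th ζ = (TT (D+2Dk) * iot).app y = (iot * TT (-(D+2Dk))).app y`, `N30_Te`.
* `N32_disj`: a common point gives `ac (σ γ⁻¹) = ac (σ' γ'⁻¹)` (`N31_disj`; `σ`, `σ'` are in `Gam0` because `we0`, `we1` are: `he0`, `he1`).
  Hence `ac γ' = ac (γ σ⁻¹ σ')`, and `SU.act (rho γ' * gl0) = ac (γ σ⁻¹) ac σ' SU.act gl0`; with `N30_T`, `N30_Te` the normal vectors of
  `rho γ' * gl0` and `rho γ * gl0` agree up to sign (`N02_TT`, `N02_iot`, `N02_nv_act`).  This is the first claim.  If moreover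
  `γ = γ'` then `ac σ = ac σ'`, so `SU.act (TT (2Dk)) = SU.act (TT (2Dk'))` or the same with `iot` on both sides (then `k = k'`: look at the
  image of `0`, or at `N01_act`), or `SU.act (TT a) = SU.act (iot * TT b)`: impossible (`nv`: `(0,-I)` against `(0,I)`). -/

set_option autoImplicit false

namespace Pool.Agent.Lib.H11Q

open Complex Set MeasureTheory Metric Filter
open scoped ComplexConjugate Topology

theorem n32_app {g h : SU} (e : SU.act g = SU.act h) {y : ℂ} (hy : ‖y‖ < 1) :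
    g.app y = h.app y := by
  have h1 := congrArg (fun F : Disc ≃ₜ Disc => ((F ⟨y, hy⟩ : Disc) : ℂ)) e
  exact h1

/-- The element of the group. -/
def n32_sig (k : ℤ) (b : Bool) : W := if b then (we0 * we1) ^ k else (we0 * we1) ^ k * we0

/-- The motion of the line. -/
noncomputable def n32_M (k : ℤ) (b : Bool) : SU :=
  if b then TT (2 * Dm * k) else iot * TT (-(Dm + 2 * Dm * k))

theorem n32_rel (k : ℤ) (b : Bool) :
    SU.act (rho (n32_sig k b) * gl0) = SU.act (gl0 * n32_M k b) := by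
  unfold n32_sig n32_M
  cases b
  · simp only [Bool.false_eq_true, if_false]
    rw [N30_Te, mul_assoc]
  · simp only [if_true]
    exact N30_T k

theorem n32_th {ζ : ℂ} (hζ : ζ ∈ Str) (k : ℤ) (b : Bool) :
    th (if b then ζ + ((2 * Dm * k : ℝ) : ℂ) else -ζ + ((Dm + 2 * Dm * k : ℝ) : ℂ)) =
      (n32_M k b).app (th ζ) := by
  unfold n32_M
  cases b
  · simp only [Bool.false_eq_true, if_false]
    obtain ⟨h1, h2⟩ := N10_neg hζ
    obtain ⟨h3, h4⟩ := N10_shift h1 (Dm + 2 * Dm * k)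
    rw [h4, h2, ← SU.app_mul _ _ (N10_norm hζ).le]
    have h5 := N30_iot_TT (-(Dm + 2 * Dm * k))
    rw [neg_neg] at h5
    rw [h5]
  · simp only [if_true]
    exact (N10_shift hζ (2 * Dm * k)).2

theorem N32_mem (γ : W) {r : ℝ} (hr : r ≤ 1) (k : ℤ) (b : Bool) {ζ : ℂ}
    (h : ζ ∈ cpy Dm (EEs (rho γ * gl0) r) k b) :
    ∃ z : ℂ, ‖z‖ < r ∧ gl0.app (th ζ) =
      (rho ((if b then (we0 * we1) ^ k else (we0 * we1) ^ k * we0) * γ⁻¹)).app z := by
  obtain ⟨ζ0, ⟨z, hz, hz0⟩, hζ⟩ := h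
  rw [mem_ball_zero_iff] at hz
  refine ⟨z, hz, ?_⟩
  have hz1 : ‖z‖ < 1 := lt_of_lt_of_le hz hr
  have hy : ‖(rho γ * gl0)⁻¹.app z‖ < 1 := SU.app_norm_lt _ hz1
  obtain ⟨hst, hth⟩ := N10_st hy
  have hz0' : st ((rho γ * gl0)⁻¹.app z) = ζ0 := hz0
  rw [hz0'] at hst hth
  have h1 : th ζ = (n32_M k b).app ((rho γ * gl0)⁻¹.app z) := by
    rw [← hζ, ← hth]
    exact n32_th hst k b
  rw [h1, ← SU.app_mul _ _ hy.le, ← n32_app (n32_rel k b) hy, ← SU.app_mul _ _ hz1.le]
  have e : rho (n32_sig k b) * gl0 * (rho γ * gl0)⁻¹ = rho (n32_sig k b * γ⁻¹) := by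
    rw [map_mul, map_inv]
    group
  rw [e]
  rfl

theorem n32_TT_inj {s t : ℝ} (h : SU.act (TT s) = SU.act (TT t)) : s = t := by
  rcases N01_act h with h1 | ⟨h1, -⟩
  · have h2 := congrArg SU.b h1
    have h3 : ((Real.sinh (t / 2) : ℝ) : ℂ) = ((Real.sinh (s / 2) : ℝ) : ℂ) := h2
    have h4 : Real.sinh (t / 2) = Real.sinh (s / 2) := by exact_mod_cast h3
    have h5 := Real.sinh_injective h4
    linarith
  · have h3 : ((Real.cosh (t / 2) : ℝ) : ℂ) = -((Real.cosh (s / 2) : ℝ) : ℂ) := h1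
    have h4 : Real.cosh (t / 2) = -Real.cosh (s / 2) := by exact_mod_cast h3
    have h5 := Real.cosh_pos (t / 2)
    have h6 := Real.cosh_pos (s / 2)
    linarith

theorem n32_nv (g : SU) (k : ℤ) (b : Bool) :
    nv (g * n32_M k b) = if b then nv g else -nv g := by
  unfold n32_M
  cases b
  · simp only [Bool.false_eq_true, if_false]
    rw [← mul_assoc, N02_TT, N02_iot]
  · simp only [if_true]
    exact N02_TT g _

theorem n32_nv_inv (g : SU) (k : ℤ) (b : Bool) :
    nv (g * (n32_M k b)⁻¹) = if b then nv g else -nv g := by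
  have h := n32_nv (g * (n32_M k b)⁻¹) k b
  rw [inv_mul_cancel_right] at h
  rw [h]
  cases b
  · simp only [Bool.false_eq_true, if_false, neg_neg]
  · simp only [if_true]

theorem N32_disj (hV : Vor) (hS : Stab) (he0 : we0 ∈ Gam0) (he1 : we1 ∈ Gam0)
    {γ γ' : W} (h : γ ∈ Gam0) (h' : γ' ∈ Gam0) {r : ℝ} (hr : r ≤ 1)
    (hr2 : r ^ 2 ≤ (1 - 2 * Real.sin (Real.pi / 7)) / (1 + 2 * Real.sin (Real.pi / 7)))
    (k k' : ℤ) (b b' : Bool) {ζ : ℂ} (h1 : ζ ∈ cpy Dm (EEs (rho γ * gl0) r) k b)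
    (h2 : ζ ∈ cpy Dm (EEs (rho γ' * gl0) r) k' b') :
    (nv (rho γ * gl0) = nv (rho γ' * gl0) ∨ nv (rho γ * gl0) = -nv (rho γ' * gl0)) ∧
    (γ = γ' → k = k' ∧ b = b') := by
  obtain ⟨z, hz, hz1⟩ := N32_mem γ hr k b h1
  obtain ⟨z', hz', hz2⟩ := N32_mem γ' hr k' b' h2
  have hT : ∀ k : ℤ, (we0 * we1) ^ k ∈ Gam0 := fun k => Gam0.zpow_mem (Gam0.mul_mem he0 he1) k
  have hsig : ∀ (k : ℤ) (b : Bool), n32_sig k b ∈ Gam0 := by
    intro k b
    unfold n32_sig
    cases b
    · simp only [Bool.false_eq_true, if_false]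
      exact Gam0.mul_mem (hT k) he0
    · simp only [if_true]
      exact hT k
  have hsq : ∀ w : ℂ, ‖w‖ < r →
      ‖w‖ ^ 2 < (1 - 2 * Real.sin (Real.pi / 7)) / (1 + 2 * Real.sin (Real.pi / 7)) := by
    intro w hw
    refine lt_of_lt_of_le ?_ hr2
    exact pow_lt_pow_left₀ hw (norm_nonneg _) two_ne_zero
  have hac : ac (n32_sig k b * γ⁻¹) = ac (n32_sig k' b' * γ'⁻¹) :=
    N31_disj hV hS (Gam0.mul_mem (hsig k b) (Gam0.inv_mem h))
      (Gam0.mul_mem (hsig k' b') (Gam0.inv_mem h')) (hsq z hz) (hsq z' hz') (hz1.symm.trans hz2)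
  have hrel : ∀ (k : ℤ) (b : Bool), ac (n32_sig k b) * SU.act gl0 =
      SU.act gl0 * SU.act (n32_M k b) := by
    intro k b
    have h3 := n32_rel k b
    rw [map_mul, map_mul] at h3
    exact h3
  constructor
  · have h4 : SU.act (rho γ' * gl0) =
        SU.act (rho γ * gl0 * (n32_M k b)⁻¹ * n32_M k' b') := by
      have e1 : SU.act (rho γ' * gl0) = ac γ' * SU.act gl0 := map_mul _ _ _
      have e2 : ac γ' = ac γ * (ac (n32_sig k b))⁻¹ * ac (n32_sig k' b') := by
        rw [map_mul, map_mul, map_inv, map_inv] at hac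
        have e3 : ac (n32_sig k b) = ac (n32_sig k' b') * (ac γ')⁻¹ * ac γ := by
          rw [← hac, inv_mul_cancel_right]
        rw [e3]
        group
      have e4 : (ac (n32_sig k b))⁻¹ * SU.act gl0 = SU.act gl0 * (SU.act (n32_M k b))⁻¹ := by
        rw [inv_mul_eq_iff_eq_mul, ← mul_assoc, hrel, mul_inv_cancel_right]
      rw [e1, e2, mul_assoc, mul_assoc, hrel, ← mul_assoc (ac (n32_sig k b))⁻¹, e4, map_mul,
        map_mul, map_mul, map_inv]
      have e5 : SU.act (rho γ) = ac γ := rfl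
      rw [e5]
      group
    have h5 := N02_nv_act h4
    rw [n32_nv, n32_nv_inv] at h5
    cases b <;> cases b'
    · left
      simp only [Bool.false_eq_true, if_false, neg_neg] at h5
      exact h5
    · right
      simp only [Bool.false_eq_true, if_false, if_true] at h5
      rw [← h5, neg_neg]
    · right
      simp only [Bool.false_eq_true, if_false, if_true] at h5
      rw [← h5, neg_neg]
    · left
      simp only [if_true] at h5
      exact h5
  · intro hγ
    rw [← hγ, map_mul, map_mul] at hac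
    have h4 : ac (n32_sig k b) = ac (n32_sig k' b') := mul_right_cancel hac
    have h5 : SU.act (n32_M k b) = SU.act (n32_M k' b') := by
      have h6 := hrel k b
      rw [h4, hrel k' b'] at h6
      exact (mul_left_cancel h6).symm
    have h7 := N02_nv_act h5
    have e1 := n32_nv 1 k b
    have e2 := n32_nv 1 k' b'
    rw [one_mul] at e1 e2
    rw [e1, e2, N01_nv_one] at h7
    have hD := N30_Dm_pos
    have hI : ¬ ((0 : ℝ), -I) = -((0 : ℝ), -I) := by
      intro h8
      have h9 := congrArg Prod.snd h8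
      simp only [Prod.snd_neg, neg_neg] at h9
      have h10 := congrArg Complex.im h9
      simp at h10
      norm_num at h10
    have hI' : ¬ -((0 : ℝ), -I) = ((0 : ℝ), -I) := fun h8 => hI h8.symm
    cases b <;> cases b'
    · refine ⟨?_, rfl⟩
      unfold n32_M at h5
      simp only [Bool.false_eq_true, if_false] at h5
      rw [map_mul, map_mul] at h5
      have h8 := n32_TT_inj (mul_left_cancel h5)
      have h9 : Dm * (k : ℝ) = Dm * k' := by linarith
      have h10 := mul_left_cancel₀ hD.ne' h9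
      exact_mod_cast h10
    · exfalso
      simp only [Bool.false_eq_true, if_false, if_true] at h7
      first | exact hI h7 | exact hI' h7
    · exfalso
      simp only [Bool.false_eq_true, if_false, if_true] at h7
      first | exact hI h7 | exact hI' h7
    · refine ⟨?_, rfl⟩
      unfold n32_M at h5
      simp only [if_true] at h5
      have h8 := n32_TT_inj h5
      have h9 : Dm * (k : ℝ) = Dm * k' := by linarith
      have h10 := mul_left_cancel₀ hD.ne' h9
      exact_mod_cast h10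

end Pool.Agent.Lib.H11Q
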