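import Pool.Agent.Lib.H11Q.N00

/-! # H11Q chunk N33 (M): packing in the strip.

PROOF.  `Rk := {ζ ∈ Str | 2Dk ≤ Re ζ < 2D(k+1)}`, `k ∈ ℤ`: a disjoint measurable cover of `Str`, translates of `R_0`, of area `2Dπ`
(`Complex.volume_reProdIm` or the product formula).  For each `n`, `b`: the sets `cpy D (E n) k b ∩ R_0` (`k ∈ ℤ`) are the images of
`E n ∩ R_{-k}` (`b = true`), resp. of `E n ∩ {ζ : -ζ + D + 2Dk ∈ R_0}` under measure preserving maps, so
`∑_k vol (cpy D (E n) k b ∩ R_0) = vol (E n)` (`measure_iUnion`; `E n ⊆ Str`; for `b = false` the sets `{ζ : -ζ + D + 2Dk ∈ R_0}` are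
`{2Dk - D < Re ζ ≤ 2Dk + D} ∩ Str`, again a partition).  All the sets `cpy D (E n) k b ∩ R_0` (`n ∈ F`, `k`, `b`) are disjoint subsets of `R_0`:
`2 ∑_n vol (E n) ≤ 2Dπ`. -/

set_option autoImplicit false

namespace Pool.Agent.Lib.H11Q

open Complex Set MeasureTheory Metric Filter
open scoped ComplexConjugate Topology

/-- the map and its inverse -/
noncomputable def n33_f (D : ℝ) (k : ℤ) (b : Bool) (ζ : ℂ) : ℂ :=
  if b then ζ + ((2 * D * k : ℝ) : ℂ) else -ζ + ((D + 2 * D * k : ℝ) : ℂ)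

noncomputable def n33_g (D : ℝ) (k : ℤ) (b : Bool) (ζ : ℂ) : ℂ :=
  if b then ζ + (-((2 * D * k : ℝ) : ℂ)) else -ζ + ((D + 2 * D * k : ℝ) : ℂ)

theorem n33_fg (D : ℝ) (k : ℤ) (b : Bool) (ζ : ℂ) : n33_f D k b (n33_g D k b ζ) = ζ := by
  cases b
  · simp only [n33_f, n33_g, Bool.false_eq_true, if_false]
    ring
  · simp only [n33_f, n33_g, if_true]
    ring

theorem n33_gf (D : ℝ) (k : ℤ) (b : Bool) (ζ : ℂ) : n33_g D k b (n33_f D k b ζ) = ζ := by
  cases b
  · simp only [n33_f, n33_g, Bool.false_eq_true, if_false]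
    ring
  · simp only [n33_f, n33_g, if_true]
    ring

theorem n33_mp (D : ℝ) (k : ℤ) (b : Bool) : MeasurePreserving (n33_g D k b) volume volume := by
  cases b
  · have h := (measurePreserving_add_right (volume : Measure ℂ) ((D + 2 * D * k : ℝ) : ℂ)).comp
      (Measure.measurePreserving_neg (volume : Measure ℂ))
    have he : n33_g D k false = ((fun ζ : ℂ => ζ + ((D + 2 * D * k : ℝ) : ℂ)) ∘ Neg.neg) := by
      funext ζ
      simp [n33_g]
    rw [he]
    exact h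
  · have h := measurePreserving_add_right (volume : Measure ℂ) (-((2 * D * k : ℝ) : ℂ))
    have he : n33_g D k true = (fun ζ : ℂ => ζ + (-((2 * D * k : ℝ) : ℂ))) := by
      funext ζ
      simp [n33_g]
    rw [he]
    exact h

theorem n33_fm (D : ℝ) (k : ℤ) (b : Bool) : Measurable (n33_f D k b) := by
  cases b
  · have he : n33_f D k false = (fun ζ : ℂ => -ζ + ((D + 2 * D * k : ℝ) : ℂ)) := by
      funext ζ
      simp [n33_f]
    rw [he]
    exact (continuous_neg.add continuous_const).measurable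
  · have he : n33_f D k true = (fun ζ : ℂ => ζ + ((2 * D * k : ℝ) : ℂ)) := by
      funext ζ
      simp [n33_f]
    rw [he]
    exact (continuous_id.add continuous_const).measurable

theorem n33_cpy (D : ℝ) (E : Set ℂ) (k : ℤ) (b : Bool) : cpy D E k b = n33_g D k b ⁻¹' E := by
  have h : cpy D E k b = n33_f D k b '' E := rfl
  rw [h]
  ext z
  constructor
  · rintro ⟨y, hy, rfl⟩
    show n33_g D k b (n33_f D k b y) ∈ E
    rw [n33_gf]; exact hy
  · intro hz
    exact ⟨n33_g D k b z, hz, n33_fg D k b z⟩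

/-- the fundamental rectangle -/
def n33_R (D : ℝ) : Set ℂ := {ζ : ℂ | (0 ≤ ζ.re ∧ ζ.re < 2 * D) ∧ |ζ.im| < Real.pi / 2}

theorem n33_R_eq (D : ℝ) : n33_R D = Complex.measurableEquivRealProd ⁻¹'
    (Ico (0 : ℝ) (2 * D) ×ˢ Ioo (-(Real.pi / 2)) (Real.pi / 2)) := by
  ext ζ
  have h : ζ ∈ Complex.measurableEquivRealProd ⁻¹'
    (Ico (0 : ℝ) (2 * D) ×ˢ Ioo (-(Real.pi / 2)) (Real.pi / 2)) ↔
    (0 ≤ ζ.re ∧ ζ.re < 2 * D) ∧ (-(Real.pi / 2) < ζ.im ∧ ζ.im < Real.pi / 2) := Iff.rfl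
  rw [h, ← abs_lt]
  exact Iff.rfl

theorem n33_R_meas (D : ℝ) : MeasurableSet (n33_R D) := by
  rw [n33_R_eq]
  exact Complex.measurableEquivRealProd.measurable (measurableSet_Ico.prod measurableSet_Ioo)

theorem n33_R_vol {D : ℝ} (hD : 0 < D) : volume (n33_R D) = 2 * ENNReal.ofReal (Real.pi * D) := by
  rw [n33_R_eq, Complex.volume_preserving_equiv_real_prod.measure_preimage
    (measurableSet_Ico.prod measurableSet_Ioo).nullMeasurableSet, Measure.volume_eq_prod,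
    Measure.prod_prod, Real.volume_Ico, Real.volume_Ioo]
  rw [← ENNReal.ofReal_mul (by linarith)]
  have h : (2 * D - 0) * (Real.pi / 2 - -(Real.pi / 2)) = 2 * (Real.pi * D) := by ring
  rw [h, ENNReal.ofReal_mul (by norm_num)]
  simp

/-- the index `k` of a point -/
theorem n33_cover {D : ℝ} (hD : 0 < D) (b : Bool) {ζ : ℂ} (hζ : ζ ∈ Str) :
    ∃ k : ℤ, n33_f D k b ζ ∈ n33_R D := by
  have hD2 : 0 < 2 * D := by linarith
  have hi : |ζ.im| < Real.pi / 2 := hζ
  cases b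
  · -- false
    refine ⟨-⌊(-ζ.re + D) / (2 * D)⌋, ?_⟩
    set m := ⌊(-ζ.re + D) / (2 * D)⌋ with hm
    have h1 : (m : ℝ) ≤ (-ζ.re + D) / (2 * D) := Int.floor_le _
    have h2 : (-ζ.re + D) / (2 * D) < m + 1 := Int.lt_floor_add_one _
    rw [le_div_iff₀ hD2] at h1
    rw [div_lt_iff₀ hD2] at h2
    have hre : (n33_f D (-m) false ζ).re = -ζ.re + (D + 2 * D * (-m : ℤ)) := by
      simp [n33_f]
    have him : (n33_f D (-m) false ζ).im = -ζ.im := by
      simp [n33_f]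
    refine ⟨⟨?_, ?_⟩, ?_⟩
    · rw [hre]; push_cast; nlinarith
    · rw [hre]; push_cast; nlinarith
    · rw [him, abs_neg]; exact hi
  · refine ⟨-⌊ζ.re / (2 * D)⌋, ?_⟩
    set m := ⌊ζ.re / (2 * D)⌋ with hm
    have h1 : (m : ℝ) ≤ ζ.re / (2 * D) := Int.floor_le _
    have h2 : ζ.re / (2 * D) < m + 1 := Int.lt_floor_add_one _
    rw [le_div_iff₀ hD2] at h1
    rw [div_lt_iff₀ hD2] at h2
    have hre : (n33_f D (-m) true ζ).re = ζ.re + (2 * D * (-m : ℤ)) := by
      simp [n33_f]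
    have him : (n33_f D (-m) true ζ).im = ζ.im := by
      simp [n33_f]
    refine ⟨⟨?_, ?_⟩, ?_⟩
    · rw [hre]; push_cast; nlinarith
    · rw [hre]; push_cast; nlinarith
    · rw [him]; exact hi

theorem n33_uniq {D : ℝ} (hD : 0 < D) (b : Bool) {ζ : ℂ} {k l : ℤ} (hk : n33_f D k b ζ ∈ n33_R D)
    (hl : n33_f D l b ζ ∈ n33_R D) : k = l := by
  obtain ⟨⟨k1, k2⟩, -⟩ := hk
  obtain ⟨⟨l1, l2⟩, -⟩ := hl
  have hd : (n33_f D k b ζ).re - (n33_f D l b ζ).re = 2 * D * ((k : ℝ) - l) := by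
    cases b <;> simp [n33_f] <;> ring
  have h1 : 2 * D * ((k : ℝ) - l) < 2 * D * 1 := by rw [← hd]; linarith
  have h2 : 2 * D * (-1) < 2 * D * ((k : ℝ) - l) := by rw [← hd]; linarith
  have h3 := lt_of_mul_lt_mul_left h1 (by linarith)
  have h4 := lt_of_mul_lt_mul_left h2 (by linarith)
  have h5 : k - l < 1 := by exact_mod_cast h3
  have h6 : -1 < k - l := by exact_mod_cast h4
  omega

theorem n33_sum {D : ℝ} (hD : 0 < D) {E : Set ℂ} (hm : MeasurableSet E) (hs : E ⊆ Str) (b : Bool) :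
    ∑' k : ℤ, volume (cpy D E k b ∩ n33_R D) = volume E := by
  have h1 : ∀ k : ℤ, volume (cpy D E k b ∩ n33_R D) = volume (E ∩ n33_f D k b ⁻¹' n33_R D) := by
    intro k
    have h2 : cpy D E k b ∩ n33_R D = n33_g D k b ⁻¹' (E ∩ n33_f D k b ⁻¹' n33_R D) := by
      rw [n33_cpy, preimage_inter]
      congr 1
      ext z
      show _ ↔ n33_f D k b (n33_g D k b z) ∈ n33_R D
      rw [n33_fg]
    rw [h2]
    exact (n33_mp D k b).measure_preimage
      (hm.inter (n33_fm D k b (n33_R_meas D))).nullMeasurableSet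
  simp only [h1]
  rw [← measure_iUnion]
  · congr 1
    ext z
    constructor
    · intro hz
      obtain ⟨k, hk⟩ := mem_iUnion.1 hz
      exact hk.1
    · intro hz
      obtain ⟨k, hk⟩ := n33_cover hD b (hs hz)
      exact mem_iUnion.2 ⟨k, hz, hk⟩
  · intro k l hkl
    rw [Function.onFun, Set.disjoint_left]
    intro z hz hz'
    exact hkl (n33_uniq hD b hz.2 hz'.2)
  · intro k
    exact hm.inter (n33_fm D k b (n33_R_meas D))

theorem N33_pack {D : ℝ} (hD : 0 < D) (F : Finset ℕ) (E : ℕ → Set ℂ)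
    (hm : ∀ n ∈ F, MeasurableSet (E n)) (hs : ∀ n ∈ F, E n ⊆ Str)
    (hd : ∀ n ∈ F, ∀ m ∈ F, ∀ (k l : ℤ) (a b : Bool), (n, k, a) ≠ (m, l, b) →
      Disjoint (cpy D (E n) k a) (cpy D (E m) l b)) :
    ∑ n ∈ F, volume (E n) ≤ ENNReal.ofReal (Real.pi * D) := by
  have h1 : ∑' i : F × Bool × ℤ, volume (cpy D (E i.1) i.2.2 i.2.1 ∩ n33_R D) ≤
      volume (n33_R D) := by
    rw [← measure_iUnion]
    · apply measure_mono
      intro z hz
      obtain ⟨i, hi⟩ := mem_iUnion.1 hz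
      exact hi.2
    · intro i j hij
      rw [Function.onFun]
      refine Disjoint.mono inter_subset_left inter_subset_left ?_
      apply hd _ i.1.2 _ j.1.2
      intro h
      apply hij
      rw [Prod.mk.injEq, Prod.mk.injEq] at h
      obtain ⟨h1, h2, h3⟩ := h
      exact Prod.ext (Subtype.ext h1) (Prod.ext h3 h2)
    · intro i
      refine MeasurableSet.inter ?_ (n33_R_meas D)
      rw [n33_cpy]
      exact (n33_mp D _ _).measurable (hm _ i.1.2)
  have h2 : ∑' i : F × Bool × ℤ, volume (cpy D (E i.1) i.2.2 i.2.1 ∩ n33_R D) =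
      2 * ∑ n ∈ F, volume (E n) := by
    rw [ENNReal.tsum_prod (f := fun (n : F) (p : Bool × ℤ) =>
      volume (cpy D (E n) p.2 p.1 ∩ n33_R D))]
    have h3 : ∀ n : F, ∑' p : Bool × ℤ, volume (cpy D (E n) p.2 p.1 ∩ n33_R D) =
        2 * volume (E n) := by
      intro n
      rw [ENNReal.tsum_prod (f := fun (b : Bool) (k : ℤ) => volume (cpy D (E n) k b ∩ n33_R D))]
      simp only [n33_sum hD (hm _ n.2) (hs _ n.2)]
      rw [tsum_fintype]
      simp [two_mul]
    simp only [h3]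
    rw [tsum_fintype, Finset.mul_sum]
    exact Finset.sum_coe_sort F (fun n => 2 * volume (E n))
  rw [h2, n33_R_vol hD] at h1
  rwa [ENNReal.mul_le_mul_iff_right (by norm_num) (by norm_num)] at h1

end Pool.Agent.Lib.H11Q
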