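import Pool.Agent.Lib.H11Q.N10

/-! # H11Q chunk N11 (M): change of variables for holomorphic injective maps.

PROOFS.  `MeasureTheory.integral_image_eq_integral_abs_det_fderiv_smul`, `integrableOn_image_iff_integrableOn_abs_det_fderiv_smul`,
`lintegral_abs_det_fderiv_eq_addHaar_image` with the real derivative `(f' z) •` (multiplication by `f' z` as a real linear map),
whose determinant is `|f' z|²` (`HasDerivAt.complexToReal_fderiv`, matrix `((a,-b),(b,a))` in the basis `1, I`: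
`LinearMap.det_toLin`/`Complex.basisOneI`; or `Complex.det_conjAE`-like lemmas; or `LinearMap.det` of `Algebra.lmul` =
`Algebra.norm`: `Algebra.norm_complex_apply`).
* `N11_strip` : `N11_cov` for `th` and `Str`, `N10_image`, `N10_inj`, `N10_deriv`, and `‖(1-th²)/2‖²`. -/

set_option autoImplicit false

namespace Pool.Agent.Lib.H11Q

open Complex Set MeasureTheory Metric Filter
open scoped ComplexConjugate Topology

theorem n11_det (c : ℂ) : (c • (1 : ℂ →L[ℝ] ℂ)).det = ‖c‖ ^ 2 := by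
  have h1 : ((c • (1 : ℂ →L[ℝ] ℂ) : ℂ →L[ℝ] ℂ) : ℂ →ₗ[ℝ] ℂ) = Algebra.lmul ℝ ℂ c := by
    ext
    simp
  rw [ContinuousLinearMap.det, h1, ← Algebra.norm_apply, Algebra.norm_complex_apply, Complex.normSq_eq_norm_sq]

theorem n11_abs_det (c : ℂ) : |(c • (1 : ℂ →L[ℝ] ℂ)).det| = ‖c‖ ^ 2 := by
  rw [n11_det, abs_of_nonneg (by positivity)]

theorem n11_fderiv {S : Set ℂ} {f f' : ℂ → ℂ} (hf : ∀ z ∈ S, HasDerivAt f (f' z) z) :
    ∀ z ∈ S, HasFDerivWithinAt f (f' z • (1 : ℂ →L[ℝ] ℂ)) S z :=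
  fun z hz => (hf z hz).complexToReal_fderiv.hasFDerivWithinAt

theorem N11_cov {S : Set ℂ} (hS : MeasurableSet S) {f f' : ℂ → ℂ}
    (hf : ∀ z ∈ S, HasDerivAt f (f' z) z) (hinj : InjOn f S) (F : ℂ → ℂ) :
    ∫ z in f '' S, F z = ∫ z in S, ((‖f' z‖ ^ 2 : ℝ) : ℂ) * F (f z) := by
  rw [integral_image_eq_integral_abs_det_fderiv_smul volume hS (n11_fderiv hf) hinj F]
  refine setIntegral_congr_fun hS fun z _ => ?_
  simp only [n11_abs_det]
  rw [Complex.real_smul]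

theorem N11_int {S : Set ℂ} (hS : MeasurableSet S) {f f' : ℂ → ℂ}
    (hf : ∀ z ∈ S, HasDerivAt f (f' z) z) (hinj : InjOn f S) (F : ℂ → ℂ) :
    IntegrableOn F (f '' S) ↔ IntegrableOn (fun z => ((‖f' z‖ ^ 2 : ℝ) : ℂ) * F (f z)) S := by
  rw [integrableOn_image_iff_integrableOn_abs_det_fderiv_smul volume hS (n11_fderiv hf) hinj F]
  refine integrableOn_congr_fun (fun z _ => ?_) hS
  simp only [n11_abs_det]
  rw [Complex.real_smul]

theorem N11_vol {S : Set ℂ} (hS : MeasurableSet S) {f f' : ℂ → ℂ}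
    (hf : ∀ z ∈ S, HasDerivAt f (f' z) z) (hinj : InjOn f S) :
    volume (f '' S) = ∫⁻ z in S, ENNReal.ofReal (‖f' z‖ ^ 2) := by
  rw [← lintegral_abs_det_fderiv_eq_addHaar_image volume hS (n11_fderiv hf) hinj]
  refine setLIntegral_congr_fun hS fun z _ => ?_
  simp only [n11_abs_det]

theorem N11_strip (F : ℂ → ℂ) :
    ∫ z in ball (0 : ℂ) 1, F z =
      ∫ ζ in Str, ((‖(1 - th ζ ^ 2) / 2‖ ^ 2 : ℝ) : ℂ) * F (th ζ) := by
  rw [← N10_image]
  exact N11_cov N10_open.2 (fun z hz => N10_deriv hz) N10_inj F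

theorem N11_strip_int (F : ℂ → ℂ) : IntegrableOn F (ball (0 : ℂ) 1) ↔
    IntegrableOn (fun ζ => ((‖(1 - th ζ ^ 2) / 2‖ ^ 2 : ℝ) : ℂ) * F (th ζ)) Str := by
  rw [← N10_image]
  exact N11_int N10_open.2 (fun z hz => N10_deriv hz) N10_inj F

end Pool.Agent.Lib.H11Q
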