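import Pool.Agent.Lib.H11Q.N34

/-! # H11Q chunk N35B (M): integral over a disc in polar coordinates.

`Complex.lintegral_comp_polarCoord_symm` (or `Complex.integral_comp_polarCoord_symm` and integrability) for
`h z = L²/(|z-u|²|z-w|²)`, `L² = ‖u-w‖²` (continuous on the ball, `‖z-u‖ ≥ 1-r`); the circle means are `N34_mean` (periodicity: the angle interval
`(-π,π)` against `(0,2π)`, `Function.Periodic.intervalIntegral_add_eq`), and
`d/ds [π log(1 + s²L²/(1-s²)²)] = 2π s L²(1+s²)/((1-s²)((1-s²)²+s²L²))` for `0 ≤ s < 1`. -/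

set_option autoImplicit false

namespace Pool.Agent.Lib.H11Q

open Complex Set MeasureTheory Metric Filter
open scoped ComplexConjugate Topology

/-- the integrand -/
noncomputable def n35b_h (u w : ℂ) (z : ℂ) : ℝ := ‖u - w‖ ^ 2 / (‖z - u‖ ^ 2 * ‖z - w‖ ^ 2)

theorem n35b_h_nonneg (u w z : ℂ) : 0 ≤ n35b_h u w z := by
  unfold n35b_h
  positivity

theorem n35b_pt (s t : ℝ) : ‖(s : ℂ) * Complex.exp (t * I)‖ = |s| := by
  rw [norm_mul, Complex.norm_real, Real.norm_eq_abs, Complex.norm_exp_ofReal_mul_I, mul_one]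

theorem n35b_ne {u : ℂ} (hu : ‖u‖ = 1) {s : ℝ} (hs : 0 ≤ s) (hs1 : s < 1) (t : ℝ) :
    ‖(s : ℂ) * Complex.exp (t * I) - u‖ ^ 2 ≠ 0 := by
  apply pow_ne_zero 2
  rw [norm_ne_zero_iff]
  intro h
  have h1 := congrArg norm (sub_eq_zero.mp h)
  rw [n35b_pt, hu, abs_of_nonneg hs] at h1
  linarith

theorem n35b_cont {u w : ℂ} (hu : ‖u‖ = 1) (hw : ‖w‖ = 1) {s : ℝ} (hs : 0 ≤ s) (hs1 : s < 1) :
    Continuous fun t : ℝ => n35b_h u w ((s : ℂ) * Complex.exp (t * I)) := by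
  unfold n35b_h
  apply Continuous.div
  · fun_prop
  · fun_prop
  · intro t
    exact mul_ne_zero (n35b_ne hu hs hs1 t) (n35b_ne hw hs hs1 t)

theorem n35b_circle {u w : ℂ} (hu : ‖u‖ = 1) (hw : ‖w‖ = 1) {s : ℝ} (hs : 0 ≤ s) (hs1 : s < 1) :
    ∫⁻ t in Ioo (-Real.pi) Real.pi, ENNReal.ofReal (s * n35b_h u w ((s : ℂ) * Complex.exp (t * I))) =
      ENNReal.ofReal (2 * Real.pi * s * (‖u - w‖ ^ 2 * (1 + s ^ 2) /
        ((1 - s ^ 2) * ((1 - s ^ 2) ^ 2 + s ^ 2 * ‖u - w‖ ^ 2)))) := by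
  have hc := n35b_cont hu hw hs hs1
  have hper : Function.Periodic (fun t : ℝ => n35b_h u w ((s : ℂ) * Complex.exp (t * I)))
      (2 * Real.pi) := by
    intro t
    show n35b_h u w ((s : ℂ) * Complex.exp ((t + 2 * Real.pi : ℝ) * I)) = _
    have : Complex.exp ((t + 2 * Real.pi : ℝ) * I) = Complex.exp (t * I) := by
      push_cast
      rw [add_mul, Complex.exp_add, Complex.exp_two_pi_mul_I, mul_one]
    rw [this]
  have h1 : ∫ t in (-Real.pi)..Real.pi, n35b_h u w ((s : ℂ) * Complex.exp (t * I)) =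
      2 * Real.pi * (‖u - w‖ ^ 2 * (1 + s ^ 2) /
        ((1 - s ^ 2) * ((1 - s ^ 2) ^ 2 + s ^ 2 * ‖u - w‖ ^ 2))) := by
    have h2 := hper.intervalIntegral_add_eq (-Real.pi) 0
    rw [show -Real.pi + 2 * Real.pi = Real.pi by ring, zero_add] at h2
    rw [h2]
    exact N34_mean hu hw hs hs1
  have hint : IntegrableOn (fun t : ℝ => s * n35b_h u w ((s : ℂ) * Complex.exp (t * I)))
      (Ioo (-Real.pi) Real.pi) :=
    ((continuous_const.mul hc).integrableOn_Icc (a := -Real.pi) (b := Real.pi)).mono_set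
      Ioo_subset_Icc_self
  rw [← ofReal_integral_eq_lintegral_ofReal hint
    (Eventually.of_forall fun t => mul_nonneg hs (n35b_h_nonneg _ _ _))]
  congr 1
  rw [← integral_Ioc_eq_integral_Ioo, ← intervalIntegral.integral_of_le (by linarith [Real.pi_pos]),
    intervalIntegral.integral_const_mul, h1]
  ring

theorem n35b_deriv {L : ℝ} (hL : 0 ≤ L) {s : ℝ} (hs : 0 ≤ s) (hs1 : s < 1) :
    HasDerivAt (fun s : ℝ => Real.pi * Real.log (1 + s ^ 2 * L / (1 - s ^ 2) ^ 2))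
      (2 * Real.pi * s * (L * (1 + s ^ 2) / ((1 - s ^ 2) * ((1 - s ^ 2) ^ 2 + s ^ 2 * L)))) s := by
  have h1 : 0 < 1 - s ^ 2 := by nlinarith
  have e1 : HasDerivAt (fun s : ℝ => s ^ 2) (2 * s) s := by
    simpa using hasDerivAt_pow 2 s
  have e2 : HasDerivAt (fun s : ℝ => 1 - s ^ 2) (-(2 * s)) s := e1.const_sub 1
  have e3 : HasDerivAt (fun s : ℝ => (1 - s ^ 2) ^ 2) (2 * (1 - s ^ 2) * -(2 * s)) s := by
    have := e2.fun_pow 2
    simpa using this
  have e4 : HasDerivAt (fun s : ℝ => s ^ 2 * L) (2 * s * L) s := e1.mul_const L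
  have e5 := (e4.fun_div e3 (pow_ne_zero 2 h1.ne')).const_add 1
  have hpos : 0 < 1 + s ^ 2 * L / (1 - s ^ 2) ^ 2 := by positivity
  have e6 := (e5.log hpos.ne').const_mul Real.pi
  refine e6.congr_deriv ?_
  have h2 : 0 < (1 - s ^ 2) ^ 2 + s ^ 2 * L := by positivity
  have h3 : 1 + s ^ 2 * L / (1 - s ^ 2) ^ 2 = ((1 - s ^ 2) ^ 2 + s ^ 2 * L) / (1 - s ^ 2) ^ 2 := by
    field_simp
  rw [h3]
  have h2' := h2.ne'
  have h1' := h1.ne'
  generalize hX : (1 - s ^ 2) ^ 2 + s ^ 2 * L = X at *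
  generalize hY : 1 - s ^ 2 = Y at *
  have hs2 : s ^ 2 = 1 - Y := by linarith
  field_simp
  rw [hs2]
  ring

theorem N35B_polar {u w : ℂ} (hu : ‖u‖ = 1) (hw : ‖w‖ = 1) {r : ℝ} (hr : 0 < r) (hr1 : r < 1) :
    ∫⁻ z in ball (0 : ℂ) r, ENNReal.ofReal (‖u - w‖ ^ 2 / (‖z - u‖ ^ 2 * ‖z - w‖ ^ 2)) =
      ENNReal.ofReal (Real.pi * Real.log (1 + r ^ 2 * ‖u - w‖ ^ 2 / (1 - r ^ 2) ^ 2)) := by
  rw [← lintegral_indicator measurableSet_ball, ← Complex.lintegral_comp_polarCoord_symm]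
  have hF : ∀ p ∈ polarCoord.target, ENNReal.ofReal p.1 •
      (ball (0 : ℂ) r).indicator (fun z => ENNReal.ofReal (‖u - w‖ ^ 2 / (‖z - u‖ ^ 2 * ‖z - w‖ ^ 2)))
        (Complex.polarCoord.symm p) =
      (Iio r ×ˢ (univ : Set ℝ)).indicator (fun p : ℝ × ℝ =>
        ENNReal.ofReal (p.1 * n35b_h u w ((p.1 : ℂ) * Complex.exp (p.2 * I)))) p := by
    intro p hp
    have hp1 : 0 < p.1 := hp.1
    have hsym : Complex.polarCoord.symm p = (p.1 : ℂ) * Complex.exp (p.2 * I) := by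
      rw [Complex.polarCoord_symm_apply, Complex.exp_mul_I, Complex.ofReal_cos, Complex.ofReal_sin]
    rw [hsym]
    by_cases hpr : p.1 < r
    · rw [indicator_of_mem (by
        rw [mem_ball_zero_iff, n35b_pt, abs_of_pos hp1]
        exact hpr), indicator_of_mem (by exact ⟨hpr, mem_univ _⟩), smul_eq_mul,
        ← ENNReal.ofReal_mul hp1.le]
      rfl
    · rw [indicator_of_notMem (by
        rw [mem_ball_zero_iff, n35b_pt, abs_of_pos hp1]
        exact hpr), indicator_of_notMem (by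
        intro h
        exact hpr h.1), smul_zero]
  have hmt : MeasurableSet polarCoord.target := polarCoord.open_target.measurableSet
  have hmi : MeasurableSet (Iio r ×ˢ (univ : Set ℝ)) := measurableSet_Iio.prod MeasurableSet.univ
  rw [setLIntegral_congr_fun hmt hF, lintegral_indicator hmi, Measure.restrict_restrict hmi]
  have hset : (Iio r ×ˢ (univ : Set ℝ)) ∩ polarCoord.target = Ioo 0 r ×ˢ Ioo (-Real.pi) Real.pi := by
    ext p
    rw [polarCoord_target]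
    simp only [mem_inter_iff, mem_prod, mem_Iio, mem_univ, and_true, mem_Ioi, mem_Ioo]
    tauto
  rw [hset, Measure.volume_eq_prod, ← Measure.prod_restrict]
  have hmeas : Measurable (fun p : ℝ × ℝ =>
      ENNReal.ofReal (p.1 * n35b_h u w ((p.1 : ℂ) * Complex.exp (p.2 * I)))) := by
    unfold n35b_h
    apply ENNReal.measurable_ofReal.comp
    apply Measurable.mul measurable_fst
    apply Measurable.div measurable_const
    apply Continuous.measurable
    fun_prop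
  rw [lintegral_prod _ hmeas.aemeasurable]
  have hinner : ∀ s ∈ Ioo (0 : ℝ) r, ∫⁻ t in Ioo (-Real.pi) Real.pi,
      ENNReal.ofReal (s * n35b_h u w ((s : ℂ) * Complex.exp (t * I))) =
      ENNReal.ofReal (2 * Real.pi * s * (‖u - w‖ ^ 2 * (1 + s ^ 2) /
        ((1 - s ^ 2) * ((1 - s ^ 2) ^ 2 + s ^ 2 * ‖u - w‖ ^ 2)))) := by
    intro s hs
    exact n35b_circle hu hw hs.1.le (hs.2.trans hr1)
  rw [setLIntegral_congr_fun measurableSet_Ioo hinner]
  have hL : 0 ≤ ‖u - w‖ ^ 2 := by positivity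
  generalize ‖u - w‖ ^ 2 = L at *
  have hden : ∀ s ∈ Icc (0 : ℝ) r, (1 - s ^ 2) * ((1 - s ^ 2) ^ 2 + s ^ 2 * L) ≠ 0 := by
    intro s hs
    have h1 : 0 < 1 - s ^ 2 := by nlinarith [hs.1, hs.2]
    positivity
  have hcont : ContinuousOn (fun s : ℝ => 2 * Real.pi * s * (L * (1 + s ^ 2) /
      ((1 - s ^ 2) * ((1 - s ^ 2) ^ 2 + s ^ 2 * L)))) (Icc 0 r) := by
    apply ContinuousOn.mul (by fun_prop)
    apply ContinuousOn.div (by fun_prop) (by fun_prop) hden
  have hint : IntegrableOn (fun s : ℝ => 2 * Real.pi * s * (L * (1 + s ^ 2) /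
      ((1 - s ^ 2) * ((1 - s ^ 2) ^ 2 + s ^ 2 * L)))) (Ioo 0 r) :=
    (hcont.integrableOn_Icc).mono_set Ioo_subset_Icc_self
  rw [← ofReal_integral_eq_lintegral_ofReal hint]
  · congr 1
    rw [← integral_Ioc_eq_integral_Ioo, ← intervalIntegral.integral_of_le hr.le,
      intervalIntegral.integral_eq_sub_of_hasDerivAt
        (f := fun s : ℝ => Real.pi * Real.log (1 + s ^ 2 * L / (1 - s ^ 2) ^ 2))]
    · simp
    · intro s hs
      rw [uIcc_of_le hr.le] at hs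
      exact n35b_deriv hL hs.1 (lt_of_le_of_lt hs.2 hr1)
    · apply ContinuousOn.intervalIntegrable
      rw [uIcc_of_le hr.le]
      exact hcont
  · rw [EventuallyLE, ae_restrict_iff' measurableSet_Ioo]
    apply Eventually.of_forall
    intro s hs
    have h1 : 0 < 1 - s ^ 2 := by nlinarith [hs.1, hs.2]
    have h2 := hs.1
    have hpi := Real.pi_pos
    show 0 ≤ 2 * Real.pi * s * (L * (1 + s ^ 2) / ((1 - s ^ 2) * ((1 - s ^ 2) ^ 2 + s ^ 2 * L)))
    positivity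

end Pool.Agent.Lib.H11Q
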