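import Pool.Agent.Lib.H11Q.N35A
import Pool.Agent.Lib.H11Q.N35B
import Pool.Agent.Lib.H11Q.N11

/-! # H11Q chunk N35 (S): the area of the image of the ball in the strip.

`N11_vol` with `S = ball 0 r`, `f z = st (g⁻¹.app z)` (injective on the ball: `g⁻¹.app` and `st` are, `N10_st`, `N16`-type argument
`g.app (g⁻¹.app z) = z`), `N35A_der`, `N35A_L`, `N35B_polar` with `u = g.app 1`, `w = g.app (-1)`. -/

set_option autoImplicit false

namespace Pool.Agent.Lib.H11Q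

open Complex Set MeasureTheory Metric Filter
open scoped ComplexConjugate Topology

theorem N35_vol (g : SU) {r : ℝ} (hr : 0 < r) (hr1 : r < 1) :
    volume (EEs g r) =
      ENNReal.ofReal (Real.pi * Real.log (1 + r ^ 2 * Lsq (nv g) / (1 - r ^ 2) ^ 2)) := by
  classical
  have hlt : ∀ z ∈ ball (0 : ℂ) r, ‖z‖ < 1 := by
    intro z hz
    rw [mem_ball_zero_iff] at hz
    linarith
  obtain ⟨hL, hu, hw⟩ := N35A_L g
  have hch : ∀ z : ℂ, ∃ f' : ℂ, ‖z‖ < 1 → HasDerivAt (fun z => st (g⁻¹.app z)) f' z ∧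
      ‖f'‖ ^ 2 = Lsq (nv g) / (‖z - g.app 1‖ ^ 2 * ‖z - g.app (-1)‖ ^ 2) := by
    intro z
    by_cases hz : ‖z‖ < 1
    · obtain ⟨f', h⟩ := N35A_der g hz
      exact ⟨f', fun _ => h⟩
    · exact ⟨0, fun h => absurd h hz⟩
  choose f' hf' using hch
  have hinj : InjOn (fun z => st (g⁻¹.app z)) (ball (0 : ℂ) r) := by
    intro z hz w hw h
    have hz1 := hlt z hz
    have hw1 := hlt w hw
    have h1 : th (st (g⁻¹.app z)) = th (st (g⁻¹.app w)) := congrArg th h
    rw [(N10_st (g⁻¹.app_norm_lt hz1)).2, (N10_st (g⁻¹.app_norm_lt hw1)).2] at h1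
    have h2 : g.app (g⁻¹.app z) = g.app (g⁻¹.app w) := congrArg g.app h1
    rwa [← SU.app_mul _ _ hz1.le, ← SU.app_mul _ _ hw1.le, mul_inv_cancel, SU.app_one,
      SU.app_one] at h2
  unfold EEs
  rw [N11_vol measurableSet_ball (fun z hz => (hf' z (hlt z hz)).1) hinj]
  rw [setLIntegral_congr_fun (g := fun z => ENNReal.ofReal (‖g.app 1 - g.app (-1)‖ ^ 2 /
    (‖z - g.app 1‖ ^ 2 * ‖z - g.app (-1)‖ ^ 2))) measurableSet_ball]
  · rw [N35B_polar hu hw hr hr1, hL]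
  · intro z hz
    simp only
    rw [(hf' z (hlt z hz)).2, hL]

end Pool.Agent.Lib.H11Q
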