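import Pool.Agent.Lib.H11Q.N23
import Pool.Agent.Lib.H11Q.N32
import Pool.Agent.Lib.H11Q.N33
import Pool.Agent.Lib.H11Q.N35

/-! # H11Q chunk N36 (S/M): the product bound for the lengths of the chords (PROOF.md 9.5, improved).

PROOF.  `r := sqrt ((1-2s)/(1+2s))`, `0 < r < 1` (`s = sin(π/7) < 1/2`), `r²/(1-r²)² = (1-4s²)/(16 s²) = rr`.  Choose `γ n ∈ Gam0` with
`nv (L.g n) = ± nv (rho (γ n) * gl0)` (`N23_rep`), `E n := EEs (rho (γ n) * gl0) r`.  `N33_pack` with `D = Dm`: the disjointness is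
`N32_disj` (if `n ≠ m` then the normals are different up to sign by `N23_inj`; if `n = m` then `γ n = γ m`).  `N35_vol`:
`∑ π log(1 + rr Lsq) ≤ π Dm` (`ENNReal.ofReal_sum_of_nonneg`), exponentiate. -/

set_option autoImplicit false

namespace Pool.Agent.Lib.H11Q

open Complex Set MeasureTheory Metric Filter
open scoped ComplexConjugate Topology

theorem n36_s : 0 < Real.sin (Real.pi / 7) ∧ Real.sin (Real.pi / 7) < 1 / 2 := by
  refine ⟨pi7_pos, ?_⟩
  rw [← Real.sin_pi_div_six]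
  exact Real.sin_lt_sin_of_lt_of_le_pi_div_two (by linarith [Real.pi_pos])
    (by linarith [Real.pi_pos]) (by linarith [Real.pi_pos])

theorem n36_qq : 0 < qq ∧ qq ^ 2 = 1 - 4 * Real.sin (Real.pi / 7) ^ 2 := by
  obtain ⟨h0, h1⟩ := n36_s
  have h2 : 0 < 1 - 4 * Real.sin (Real.pi / 7) ^ 2 := by nlinarith
  exact ⟨Real.sqrt_pos.mpr h2, Real.sq_sqrt h2.le⟩

theorem n36_rr : 0 ≤ rr := by
  unfold rr
  positivity

theorem n36_Lsq (x : Mk) : 0 ≤ Lsq x := by
  unfold Lsq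
  positivity

theorem N36_prod (hV : Vor) (hS : Stab) (he0 : we0 ∈ Gam0) (he1 : we1 ∈ Gam0) (L : LineSys)
    (F : Finset ℕ) : ∏ n ∈ F, (1 + rr * Lsq (nv (L.g n))) ≤ Real.exp Dm := by
  obtain ⟨hs0, hs1⟩ := n36_s
  obtain ⟨hq0, hq1⟩ := n36_qq
  set s := Real.sin (Real.pi / 7) with hs
  have hfr0 : 0 < (1 - 2 * s) / (1 + 2 * s) := div_pos (by linarith) (by linarith)
  have hfr1 : (1 - 2 * s) / (1 + 2 * s) < 1 := by
    rw [div_lt_one (by linarith)]
    linarith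
  obtain ⟨r, hr⟩ : ∃ r : ℝ, r = Real.sqrt ((1 - 2 * s) / (1 + 2 * s)) := ⟨_, rfl⟩
  have hr0 : 0 < r := by
    rw [hr]
    exact Real.sqrt_pos.mpr hfr0
  have hr2 : r ^ 2 = (1 - 2 * s) / (1 + 2 * s) := by
    rw [hr]
    exact Real.sq_sqrt hfr0.le
  have hr1 : r < 1 := by
    have : r ^ 2 < 1 := by rw [hr2]; exact hfr1
    nlinarith
  have hrr : r ^ 2 / (1 - r ^ 2) ^ 2 = rr := by
    unfold rr
    rw [hq1, ← hs, hr2]
    have e1 : 1 + 2 * s ≠ 0 := by linarith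
    have e2 : 1 - (1 - 2 * s) / (1 + 2 * s) = 4 * s / (1 + 2 * s) := by
      field_simp
      ring
    rw [e2]
    field_simp
    ring
  choose γ hγ hnv using fun n => N23_rep L n
  have hD : 0 < Dm := by
    unfold Dm
    have : 0 < Real.arsinh (qq / 2) := Real.arsinh_pos_iff.mpr (by linarith)
    linarith
  have hpack := N33_pack hD F (fun n => EEs (rho (γ n) * gl0) r)
    (fun n _ => (N35A_meas _ hr0 hr1).1) (fun n _ => (N35A_meas _ hr0 hr1).2) (by
      intro n _ m _ k l a b hne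
      rw [Set.disjoint_left]
      intro ζ h1 h2
      obtain ⟨h3, h4⟩ := N32_disj hV hS he0 he1 (hγ n) (hγ m) hr1.le (by rw [hr2]) k l a b h1 h2
      have hnm : n = m := by
        apply N23_inj L
        rcases hnv n with e1 | e1 <;> rcases hnv m with e2 | e2 <;> rcases h3 with e3 | e3 <;>
          rw [e1, e2, e3] <;> simp
      subst hnm
      obtain ⟨h5, h6⟩ := h4 rfl
      exact hne (by rw [h5, h6]))
  have hvol : ∀ n, volume (EEs (rho (γ n) * gl0) r) =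
      ENNReal.ofReal (Real.pi * Real.log (1 + rr * Lsq (nv (L.g n)))) := by
    intro n
    rw [N35_vol _ hr0 hr1]
    have h1 : Lsq (nv (rho (γ n) * gl0)) = Lsq (nv (L.g n)) := by
      rcases hnv n with e | e <;> rw [e]
      rw [N02_Lsq_neg]
    rw [h1, ← hrr]
    congr 4
    ring
  simp only [hvol] at hpack
  have hnn : ∀ n ∈ F, 0 ≤ Real.pi * Real.log (1 + rr * Lsq (nv (L.g n))) := by
    intro n _
    apply mul_nonneg Real.pi_pos.le
    apply Real.log_nonneg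
    have := mul_nonneg n36_rr (n36_Lsq (nv (L.g n)))
    linarith
  rw [← ENNReal.ofReal_sum_of_nonneg hnn, ENNReal.ofReal_le_ofReal_iff (by positivity),
    ← Finset.mul_sum] at hpack
  have h2 : ∑ n ∈ F, Real.log (1 + rr * Lsq (nv (L.g n))) ≤ Dm :=
    le_of_mul_le_mul_left hpack Real.pi_pos
  have h3 : ∀ n ∈ F, 1 + rr * Lsq (nv (L.g n)) ≠ 0 := by
    intro n _
    have := mul_nonneg n36_rr (n36_Lsq (nv (L.g n)))
    linarith
  rw [← Real.log_prod h3] at h2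
  have h4 : 0 < ∏ n ∈ F, (1 + rr * Lsq (nv (L.g n))) := by
    apply Finset.prod_pos
    intro n _
    have := mul_nonneg n36_rr (n36_Lsq (nv (L.g n)))
    linarith
  rw [← Real.exp_log h4]
  exact Real.exp_le_exp.mpr h2

/-- The far lines. -/
theorem N36_far (hV : Vor) (hS : Stab) (he0 : we0 ∈ Gam0) (he1 : we1 ∈ Gam0) (L : LineSys)
    (F G : Finset ℕ) (hFG : Disjoint F G) :
    1 + rr * ∑ n ∈ G, Lsq (nv (L.g n)) ≤
      Real.exp Dm / ∏ n ∈ F, (1 + rr * Lsq (nv (L.g n))) := by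
  have hpos : ∀ n, 0 < 1 + rr * Lsq (nv (L.g n)) := by
    intro n
    have := mul_nonneg n36_rr (n36_Lsq (nv (L.g n)))
    linarith
  have h4 : 0 < ∏ n ∈ F, (1 + rr * Lsq (nv (L.g n))) := Finset.prod_pos fun n _ => hpos n
  rw [le_div_iff₀ h4]
  have h5 : 1 + rr * ∑ n ∈ G, Lsq (nv (L.g n)) ≤ ∏ n ∈ G, (1 + rr * Lsq (nv (L.g n))) := by
    rw [Finset.mul_sum]
    clear hFG
    induction G using Finset.induction_on with
    | empty => simp
    | insert a G ha ih =>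
      rw [Finset.sum_insert ha, Finset.prod_insert ha]
      have h6 := mul_nonneg n36_rr (n36_Lsq (nv (L.g a)))
      have h7 : 0 ≤ ∑ n ∈ G, rr * Lsq (nv (L.g n)) :=
        Finset.sum_nonneg fun n _ => mul_nonneg n36_rr (n36_Lsq (nv (L.g n)))
      have h8 := mul_le_mul_of_nonneg_left ih (hpos a).le
      nlinarith [mul_nonneg h6 h7]
  calc (1 + rr * ∑ n ∈ G, Lsq (nv (L.g n))) * ∏ n ∈ F, (1 + rr * Lsq (nv (L.g n)))
      ≤ (∏ n ∈ G, (1 + rr * Lsq (nv (L.g n)))) * ∏ n ∈ F, (1 + rr * Lsq (nv (L.g n))) :=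
        mul_le_mul_of_nonneg_right h5 h4.le
    _ = ∏ n ∈ F ∪ G, (1 + rr * Lsq (nv (L.g n))) := by
        rw [Finset.prod_union hFG, mul_comm]
    _ ≤ Real.exp Dm := N36_prod hV hS he0 he1 L (F ∪ G)

end Pool.Agent.Lib.H11Q
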