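import Pool.Agent.Lib.H11Q.N00

/-!
# H11Q, module N: definitions for the Taylor approximation of `Qst` (PROOF.md 9.8)

With `t = z - a`, `u = 1 - a z`, `w = t/u`: `Qst z` is approximately `NQ a0 k0 z / DQ a0 k0 z`, and on `|z| = 1` this is
approximately `PQ z / z`, `PQ z = ∑_{k<10} CQ k z^k` (`CQ 0` is the residue, `CQ (k+1)` the coefficient of `z^k` in `Qst`).
-/

set_option autoImplicit false

namespace Pool.Agent.Lib.H11Q

open Complex Set MeasureTheory Metric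
open scoped ComplexConjugate Topology

noncomputable def NQ (a κ : ℝ) (z : ℂ) : ℂ :=
  (1 - (a : ℂ) ^ 2) ^ 2 * ((1 - 4 * (κ : ℂ) ^ 4) * (1 - a * z) ^ 4 +
    6 * (κ : ℂ) ^ 2 * (z - a) ^ 2 * (1 - a * z) ^ 2 + 29 * (κ : ℂ) ^ 4 * (z - a) ^ 4)

noncomputable def DQ (a κ : ℝ) (z : ℂ) : ℂ :=
  4 * (1 - a * z) ^ 3 * ((1 - 2 * (κ : ℂ) ^ 4) * (z - a) * (1 - a * z) ^ 4 +
    (κ : ℂ) ^ 2 * (z - a) ^ 3 * (1 - a * z) ^ 2 + 2 * (κ : ℂ) ^ 4 * (z - a) ^ 5 +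
    2 * (κ : ℂ) * (1 - a * z) ^ 5)

/-- `10^9` times the coefficients. -/
def CQz : List ℤ :=
  [244161739, 110797277, 40420195, 13661168, 4449716, 1419159, 446639, 139307, 43172, 13316]

noncomputable def CQ (k : ℕ) : ℝ := (CQz.getD k 0 : ℝ) / 10 ^ 9

noncomputable def PQ (z : ℂ) : ℂ := ∑ k ∈ Finset.range 10, (CQ k : ℂ) * z ^ k

/-- Rational approximations of `a0`, `k0`. -/
noncomputable def ah : ℝ := 1539345 / 10 ^ 7
noncomputable def kh : ℝ := 769726 / 10 ^ 7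

/-- The cubic polynomial which approximates the average `HX` (rounded coefficients). -/
noncomputable def PX (z : ℂ) : ℂ :=
  (-(800534 / 10 ^ 7) + 385517 / 10 ^ 7 * I) + (89943 / 10 ^ 7 + 112785 / 10 ^ 7 * I) * z +
    (30399 / 10 ^ 7 - 38119 / 10 ^ 7 * I) * z ^ 2 + (-(32150 / 10 ^ 7) - 15483 / 10 ^ 7 * I) * z ^ 3

/-- The polynomial which approximates the average `HY`. -/
noncomputable def PY (z : ℂ) : ℂ := 404202 / 10 ^ 7 * z + 14192 / 10 ^ 7 * z ^ 4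

/-! ### Polynomials with integer coefficients as lists -/

/-- evaluation -/
def lev : List ℤ → ℂ → ℂ
  | [], _ => 0
  | (c :: p), z => (c : ℂ) + z * lev p z

def ladd : List ℤ → List ℤ → List ℤ
  | [], q => q
  | p, [] => p
  | (c :: p), (d :: q) => (c + d) :: ladd p q

def lsc (c : ℤ) (p : List ℤ) : List ℤ := p.map (fun x => c * x)

def lmul : List ℤ → List ℤ → List ℤ
  | [], _ => []
  | (c :: p), q => ladd (lsc c q) (0 :: lmul p q)

def lpow (p : List ℤ) : ℕ → List ℤ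
  | 0 => [1]
  | (n + 1) => lmul p (lpow p n)

/-- sum of the absolute values of the coefficients -/
def labs : List ℤ → ℕ
  | [] => 0
  | (c :: p) => c.natAbs + labs p

/-- `10^7 t`, `10^7 u` -/
def lT : List ℤ := [-1539345, 10 ^ 7]
def lU : List ℤ := [10 ^ 7, -1539345]

/-- `10^84 NQ ah kh` -/
def lN : List ℤ := lsc ((10 ^ 14 - 1539345 ^ 2) ^ 2)
  (ladd (ladd (lsc (10 ^ 28 - 4 * 769726 ^ 4) (lpow lU 4))
    (lsc (6 * 769726 ^ 2 * 10 ^ 14) (lmul (lpow lT 2) (lpow lU 2))))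
    (lsc (29 * 769726 ^ 4) (lpow lT 4)))

/-- `10^84 DQ ah kh` -/
def lD : List ℤ := lsc 4 (lmul (lpow lU 3)
  (ladd (ladd (ladd (lsc (10 ^ 28 - 2 * 769726 ^ 4) (lmul lT (lpow lU 4)))
    (lsc (769726 ^ 2 * 10 ^ 14) (lmul (lpow lT 3) (lpow lU 2))))
    (lsc (2 * 769726 ^ 4) (lpow lT 5)))
    (lsc (2 * 769726 * 10 ^ 21) (lpow lU 5))))

/-- `10^93 (z NQ - DQ PQ)` -/
def lR : List ℤ := ladd (lsc (10 ^ 9) (0 :: lN)) (lsc (-1) (lmul lD CQz))

end Pool.Agent.Lib.H11Q
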