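import Pool.Agent.Lib.H11Q.EE
import Pool.Agent.Lib.H11Q.N0Q

/-! # H11Q chunk N42 (M): approximation of `Qc` on the unit circle.

PROOF.  `κ = k0 < 0.07698`: `κ² ≤ 0.005926`, `κ⁴ ≤ 3.512·10⁻⁵`, `κ⁶ ≤ 2.082·10⁻⁷`; `|w| = 1`, `Z = Zi κ w`, `x = κ² w²`, `y = κ⁴`.
(1) `|Z| ≤ 1.025` (`E_Zi`), then `|Z - w| ≤ κ²|Z|² + 2κ⁴ + 3κ⁶ ≤ 0.0063` (`E20_Zi`), `|Z| ≤ 1.0063`.
(2) `q := 1 + κ²(Z² - 2κ²)`, `|Z - w q| ≤ 3κ⁶ ≤ 6.3·10⁻⁷`; `η := q - 1`, `|η| ≤ 0.006075`; `η = x q² - 2y + O(10⁻⁸)`, so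
`|η - x| ≤ 1.43·10⁻⁴` and with `q0 := 1 + x + 2x² - 2y`: `|q - q0| ≤ 2·10⁻⁶`, `|Z - w q0| ≤ 2.7·10⁻⁶`.
(3) `D := DD κ Z`: `|D - q| ≤ 3·10⁻⁸` (`E20_DD`).  `deriv (WW κ) Z = EWd κ Z = (ENd D - NN EDd)/D²` (`E09_deriv`), `NN = w D`, so it is `E/D` with
`E := ENd κ Z - w EDd κ Z`, `|E - (1 - 2κ² Z w)| ≤ 9κ⁶ ≤ 1.9·10⁻⁶` (`E20_ENd`, `E20_EDd`), `|E - (1 - 2x q0)| ≤ 2·10⁻⁶`, `|E| ≥ 0.988`.
(4) `R0 := 1 + 3x + 10x² - 2y`; `R0 (1 - 2x q0) - q0 = -30x³ + 8xy - 32x⁴ + 16x²y - 40x⁵ + 48x³y - 8xy²`, norm `≤ 8·10⁻⁶`.  So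
`|R0 E - D| ≤ 1.21·10⁻⁵`, `R := D/E`, `|R - R0| ≤ 1.23·10⁻⁵`.
(5) `N4 := 1 + 6x + 29x² - 4y`: `R0² - N4 = 60x³ - 12xy + 100x⁴ - 40x²y + 4y²`, norm `≤ 1.52·10⁻⁵`; `|R² - N4| ≤ 4.1·10⁻⁵`.
(6) `Qc κ w = R²/(4(Z+2κ))`, `|Z + 2κ| ≥ 0.8397`; `D5 := w + κ²w³ + 2κ⁴w⁵ - 2κ⁴w + 2κ = w q0 + 2κ`, `|D5 - (Z+2κ)| ≤ 2.7·10⁻⁶`, `|D5| ≥ 0.8396`.
Difference `≤ 4.1·10⁻⁵/(4·0.8397) + 1.04·2.7·10⁻⁶/(4·0.8397·0.8396) ≤ 1.4·10⁻⁵`. -/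

set_option autoImplicit false

namespace Pool.Agent.Lib.H11Q

open Complex Set MeasureTheory Metric Filter
open scoped ComplexConjugate Topology

theorem n42_add {u v : ℂ} {p q : ℝ} (hu : ‖u‖ ≤ p) (hv : ‖v‖ ≤ q) : ‖u + v‖ ≤ p + q :=
  (norm_add_le _ _).trans (add_le_add hu hv)

theorem n42_sub {u v : ℂ} {p q : ℝ} (hu : ‖u‖ ≤ p) (hv : ‖v‖ ≤ q) : ‖u - v‖ ≤ p + q :=
  (norm_sub_le _ _).trans (add_le_add hu hv)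

theorem n42_mul {u v : ℂ} {p q : ℝ} (hu : ‖u‖ ≤ p) (hv : ‖v‖ ≤ q) : ‖u * v‖ ≤ p * q := by
  rw [norm_mul]
  exact mul_le_mul hu hv (norm_nonneg _) ((norm_nonneg _).trans hu)

theorem n42_pow {u : ℂ} {p : ℝ} (hu : ‖u‖ ≤ p) (n : ℕ) : ‖u ^ n‖ ≤ p ^ n := by
  rw [norm_pow]
  exact pow_le_pow_left₀ (norm_nonneg _) hu n

theorem n42_low {u v : ℂ} {p q : ℝ} (hu : p ≤ ‖u‖) (hv : ‖v - u‖ ≤ q) : p - q ≤ ‖v‖ := by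
  have h : ‖u‖ ≤ ‖v‖ + ‖v - u‖ := by
    have := norm_sub_le v (v - u)
    rwa [sub_sub_cancel] at this
  linarith

/-- The computation, with everything abstract. -/
theorem n42_core {κ : ℝ} (h0 : 0 ≤ κ) (hk : κ ≤ 7698 / 100000) {w Z q D E : ℂ} (hw : ‖w‖ = 1)
    (hZ1 : ‖Z - w‖ ≤ 1 / 40) (hq : q = 1 + (κ : ℂ) ^ 2 * (Z ^ 2 - 2 * (κ : ℂ) ^ 2))
    (hZq : ‖Z - w * q‖ ≤ 3 * κ ^ 6) (hD : ‖D - q‖ ≤ κ ^ 6 / 10)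
    (hE : ‖E - (1 - 2 * (κ : ℂ) ^ 2 * Z * w)‖ ≤ 9 * κ ^ 6) :
    ‖(D / E) ^ 2 / (4 * (Z + 2 * κ)) - (1 + 6 * (κ : ℂ) ^ 2 * w ^ 2 + 29 * (κ : ℂ) ^ 4 * w ^ 4 -
      4 * (κ : ℂ) ^ 4) / (4 * (w + (κ : ℂ) ^ 2 * w ^ 3 + 2 * (κ : ℂ) ^ 4 * w ^ 5 -
        2 * (κ : ℂ) ^ 4 * w + 2 * κ))‖ ≤ 25 / 10 ^ 6 := by
  obtain ⟨a, ha⟩ : ∃ a : ℝ, a = κ ^ 2 := ⟨_, rfl⟩
  have ha0 : 0 ≤ a := by rw [ha]; positivity
  have ha1 : a ≤ 5926 / 10 ^ 6 := by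
    rw [ha]
    have : κ ^ 2 ≤ (7698 / 100000) ^ 2 := by gcongr
    exact this.trans (by norm_num)
  have ha2 : a ^ 2 ≤ 3512 / 10 ^ 8 := by
    have : a ^ 2 ≤ (5926 / 10 ^ 6) ^ 2 := by gcongr
    exact this.trans (by norm_num)
  have ha3 : a ^ 3 ≤ 2082 / 10 ^ 10 := by
    have : a ^ 3 ≤ (5926 / 10 ^ 6) ^ 3 := by gcongr
    exact this.trans (by norm_num)
  have hk4 : κ ^ 4 = a ^ 2 := by rw [ha]; ring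
  have hk6 : κ ^ 6 = a ^ 3 := by rw [ha]; ring
  rw [hk6] at hZq hD hE
  have nk : ‖(κ : ℂ)‖ = κ := by rw [Complex.norm_real, Real.norm_of_nonneg h0]
  have nk2 : ‖(κ : ℂ) ^ 2‖ = a := by rw [norm_pow, nk, ha]
  have nw : ∀ n : ℕ, ‖w ^ n‖ = 1 := fun n => by rw [norm_pow, hw, one_pow]
  obtain ⟨x, hx⟩ : ∃ x : ℂ, x = (κ : ℂ) ^ 2 * w ^ 2 := ⟨_, rfl⟩
  obtain ⟨y, hy⟩ : ∃ y : ℂ, y = (κ : ℂ) ^ 4 := ⟨_, rfl⟩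
  have nx : ‖x‖ ≤ 5926 / 10 ^ 6 := by rw [hx, norm_mul, nk2, nw, mul_one]; exact ha1
  have ny : ‖y‖ ≤ 3512 / 10 ^ 8 := by
    rw [hy, norm_pow, nk, hk4]; exact ha2
  have nk2' : ‖(κ : ℂ) ^ 2‖ ≤ 5926 / 10 ^ 6 := by rw [nk2]; exact ha1
  have n2 : ‖(2 : ℂ)‖ ≤ 2 := by simp
  have n1 : ‖(1 : ℂ)‖ ≤ 1 := by simp
  -- step 1
  have Z1 : ‖Z‖ ≤ 1025 / 1000 := by
    have h : Z = (Z - w) + w := by ring
    rw [h]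
    refine (n42_add hZ1 hw.le).trans (by norm_num)
  have Zw : ‖Z - w‖ ≤ 63 / 10 ^ 4 := by
    have h : Z - w = (Z - w * q) + w * ((κ : ℂ) ^ 2 * Z ^ 2 - 2 * y) := by
      rw [hq, hy]; ring
    rw [h]
    have e1 := n42_add hZq (n42_mul hw.le (n42_sub (n42_mul nk2' (n42_pow Z1 2)) (n42_mul n2 ny)))
    refine e1.trans ?_
    norm_num at ha3 ⊢
    linarith
  have Z2 : ‖Z‖ ≤ 10063 / 10 ^ 4 := by
    have h : Z = (Z - w) + w := by ring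
    rw [h]
    refine (n42_add Zw hw.le).trans (by norm_num)
  -- step 2
  obtain ⟨η, hη⟩ : ∃ η : ℂ, η = q - 1 := ⟨_, rfl⟩
  have ηk : η = (κ : ℂ) ^ 2 * Z ^ 2 - 2 * y := by rw [hη, hq, hy]; ring
  have nη : ‖η‖ ≤ 608 / 10 ^ 5 := by
    rw [ηk]
    refine (n42_sub (n42_mul nk2' (n42_pow Z2 2)) (n42_mul n2 ny)).trans (by norm_num)
  have nq : ‖q‖ ≤ 100608 / 10 ^ 5 := by
    have h : q = 1 + η := by rw [hη]; ring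
    rw [h]
    refine (n42_add n1 nη).trans (by norm_num)
  obtain ⟨e2, he2⟩ : ∃ e2 : ℂ, e2 = η - (x * q ^ 2 - 2 * y) := ⟨_, rfl⟩
  have hZq' : ‖Z - w * q‖ ≤ 63 / 10 ^ 8 := by
    refine hZq.trans ?_
    norm_num at ha3 ⊢
    linarith
  have ne2 : ‖e2‖ ≤ 1 / 10 ^ 8 := by
    have h : e2 = (κ : ℂ) ^ 2 * ((Z - w * q) * (Z + w * q)) := by
      rw [he2, ηk, hx]; ring
    rw [h]
    refine (n42_mul nk2' (n42_mul hZq' (n42_add Z2 (n42_mul hw.le nq)))).trans (by norm_num)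
  have nηx : ‖η - x‖ ≤ 144 / 10 ^ 6 := by
    have h : η - x = x * (η * (2 + η)) - 2 * y + e2 := by
      have : q = 1 + η := by rw [hη]; ring
      rw [he2, this]; ring
    rw [h]
    refine (n42_add (n42_sub (n42_mul nx (n42_mul nη (n42_add n2 nη))) (n42_mul n2 ny)) ne2).trans
      (by norm_num)
  obtain ⟨q0, hq0⟩ : ∃ q0 : ℂ, q0 = 1 + x + 2 * x ^ 2 - 2 * y := ⟨_, rfl⟩
  have nqq : ‖q - q0‖ ≤ 2 / 10 ^ 6 := by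
    have h : q - q0 = 2 * x * (η - x) + x * η ^ 2 + e2 := by
      have h1 : q = 1 + η := by rw [hη]; ring
      have h2 : 1 + η - (1 + x + 2 * x ^ 2 - 2 * y) = 2 * x * (η - x) + x * η ^ 2 +
        (η - (x * (1 + η) ^ 2 - 2 * y)) := by ring
      rw [hq0, he2, h1]
      exact h2
    rw [h]
    refine (n42_add (n42_add (n42_mul (n42_mul n2 nx) nηx) (n42_mul nx (n42_pow nη 2))) ne2).trans
      (by norm_num)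
  have nZq0 : ‖Z - w * q0‖ ≤ 27 / 10 ^ 7 := by
    have h : Z - w * q0 = (Z - w * q) + w * (q - q0) := by ring
    rw [h]
    refine (n42_add hZq' (n42_mul hw.le nqq)).trans (by norm_num)
  -- step 3
  have nDq : ‖D - q‖ ≤ 3 / 10 ^ 8 := by
    refine hD.trans ?_
    norm_num at ha3 ⊢
    linarith
  have nq0 : ‖q0‖ ≤ 10061 / 10 ^ 4 := by
    rw [hq0]
    refine (n42_sub (n42_add (n42_add n1 nx) (n42_mul n2 (n42_pow nx 2))) (n42_mul n2 ny)).trans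
      (by norm_num)
  have nE : ‖E - (1 - 2 * x * q0)‖ ≤ 2 / 10 ^ 6 := by
    have h : E - (1 - 2 * x * q0) = (E - (1 - 2 * (κ : ℂ) ^ 2 * Z * w)) -
        2 * (κ : ℂ) ^ 2 * w * (Z - w * q0) := by
      rw [hx]; ring
    rw [h]
    have e1 := n42_sub hE (n42_mul (n42_mul (n42_mul n2 nk2') hw.le) nZq0)
    refine e1.trans ?_
    norm_num at ha3 ⊢
    linarith
  have nxq : ‖2 * x * q0‖ ≤ 11925 / 10 ^ 6 :=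
    (n42_mul (n42_mul n2 nx) nq0).trans (by norm_num)
  have E0 : 988 / 1000 ≤ ‖E‖ := by
    have h1 : (1 : ℝ) ≤ ‖(1 : ℂ)‖ := by simp
    have h2 : ‖(1 - 2 * x * q0) - 1‖ ≤ 11925 / 10 ^ 6 := by
      have : (1 - 2 * x * q0) - 1 = -(2 * x * q0) := by ring
      rw [this, norm_neg]; exact nxq
    have h3 := n42_low h1 h2
    have h4 := n42_low h3 nE
    refine le_trans ?_ h4
    norm_num
  have Ene : E ≠ 0 := by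
    intro h
    rw [h, norm_zero] at E0
    norm_num at E0
  -- step 4
  obtain ⟨R0, hR0⟩ : ∃ R0 : ℂ, R0 = 1 + 3 * x + 10 * x ^ 2 - 2 * y := ⟨_, rfl⟩
  have n3 : ‖(3 : ℂ)‖ ≤ 3 := by simp
  have n10 : ‖(10 : ℂ)‖ ≤ 10 := by simp
  have nR0 : ‖R0‖ ≤ 10183 / 10 ^ 4 := by
    rw [hR0]
    refine (n42_sub (n42_add (n42_add n1 (n42_mul n3 nx)) (n42_mul n10 (n42_pow nx 2)))
      (n42_mul n2 ny)).trans (by norm_num)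
  have npoly : ‖R0 * (1 - 2 * x * q0) - q0‖ ≤ 8 / 10 ^ 6 := by
    have h : R0 * (1 - 2 * x * q0) - q0 = -(30 * x ^ 3) + 8 * x * y - 32 * x ^ 4 +
        16 * x ^ 2 * y - 40 * x ^ 5 + 48 * x ^ 3 * y - 8 * x * y ^ 2 := by
      rw [hR0, hq0]; ring
    rw [h]
    have m1 : ‖-(30 * x ^ 3)‖ ≤ 30 * (5926 / 10 ^ 6) ^ 3 := by
      rw [norm_neg]
      exact n42_mul (by simp) (n42_pow nx 3)
    have m2 : ‖8 * x * y‖ ≤ 8 * (5926 / 10 ^ 6) * (3512 / 10 ^ 8) :=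
      n42_mul (n42_mul (by simp) nx) ny
    have m3 : ‖32 * x ^ 4‖ ≤ 32 * (5926 / 10 ^ 6) ^ 4 := n42_mul (by simp) (n42_pow nx 4)
    have m4 : ‖16 * x ^ 2 * y‖ ≤ 16 * (5926 / 10 ^ 6) ^ 2 * (3512 / 10 ^ 8) :=
      n42_mul (n42_mul (by simp) (n42_pow nx 2)) ny
    have m5 : ‖40 * x ^ 5‖ ≤ 40 * (5926 / 10 ^ 6) ^ 5 := n42_mul (by simp) (n42_pow nx 5)
    have m6 : ‖48 * x ^ 3 * y‖ ≤ 48 * (5926 / 10 ^ 6) ^ 3 * (3512 / 10 ^ 8) :=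
      n42_mul (n42_mul (by simp) (n42_pow nx 3)) ny
    have m7 : ‖8 * x * y ^ 2‖ ≤ 8 * (5926 / 10 ^ 6) * (3512 / 10 ^ 8) ^ 2 :=
      n42_mul (n42_mul (by simp) nx) (n42_pow ny 2)
    refine (n42_sub (n42_add (n42_sub (n42_add (n42_sub (n42_add m1 m2) m3) m4) m5) m6) m7).trans
      (by norm_num)
  have nRE : ‖R0 * E - D‖ ≤ 122 / 10 ^ 7 := by
    have h : R0 * E - D = R0 * (E - (1 - 2 * x * q0)) + (R0 * (1 - 2 * x * q0) - q0) -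
        (q - q0) - (D - q) := by ring
    rw [h]
    refine (n42_sub (n42_sub (n42_add (n42_mul nR0 nE) npoly) nqq) nDq).trans (by norm_num)
  obtain ⟨R, hR⟩ : ∃ R : ℂ, R = D / E := ⟨_, rfl⟩
  have nRR : ‖R - R0‖ ≤ 124 / 10 ^ 7 := by
    have h : R - R0 = -(R0 * E - D) / E := by
      rw [hR]; field_simp; ring
    rw [h, norm_div, norm_neg, div_le_iff₀ (by linarith [norm_nonneg E, E0] : 0 < ‖E‖)]
    calc ‖R0 * E - D‖ ≤ 122 / 10 ^ 7 := nRE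
      _ ≤ 124 / 10 ^ 7 * (988 / 1000) := by norm_num
      _ ≤ 124 / 10 ^ 7 * ‖E‖ := by gcongr
  -- step 5
  obtain ⟨N4, hN4⟩ : ∃ N4 : ℂ, N4 = 1 + 6 * x + 29 * x ^ 2 - 4 * y := ⟨_, rfl⟩
  have nN : ‖R0 ^ 2 - N4‖ ≤ 153 / 10 ^ 7 := by
    have h : R0 ^ 2 - N4 = 60 * x ^ 3 - 12 * x * y + 100 * x ^ 4 - 40 * x ^ 2 * y + 4 * y ^ 2 := by
      rw [hR0, hN4]; ring
    rw [h]
    have m1 : ‖60 * x ^ 3‖ ≤ 60 * (5926 / 10 ^ 6) ^ 3 := n42_mul (by simp) (n42_pow nx 3)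
    have m2 : ‖12 * x * y‖ ≤ 12 * (5926 / 10 ^ 6) * (3512 / 10 ^ 8) :=
      n42_mul (n42_mul (by simp) nx) ny
    have m3 : ‖100 * x ^ 4‖ ≤ 100 * (5926 / 10 ^ 6) ^ 4 := n42_mul (by simp) (n42_pow nx 4)
    have m4 : ‖40 * x ^ 2 * y‖ ≤ 40 * (5926 / 10 ^ 6) ^ 2 * (3512 / 10 ^ 8) :=
      n42_mul (n42_mul (by simp) (n42_pow nx 2)) ny
    have m5 : ‖4 * y ^ 2‖ ≤ 4 * (3512 / 10 ^ 8) ^ 2 := n42_mul (by simp) (n42_pow ny 2)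
    refine (n42_add (n42_sub (n42_add (n42_sub m1 m2) m3) m4) m5).trans (by norm_num)
  have nRN : ‖R ^ 2 - N4‖ ≤ 42 / 10 ^ 6 := by
    have h : R ^ 2 - N4 = (R - R0) * ((R - R0) + 2 * R0) + (R0 ^ 2 - N4) := by ring
    rw [h]
    refine (n42_add (n42_mul nRR (n42_add nRR (n42_mul n2 nR0))) nN).trans (by norm_num)
  have nN4 : ‖N4‖ ≤ 104 / 100 := by
    rw [hN4]
    have m1 : ‖6 * x‖ ≤ 6 * (5926 / 10 ^ 6) := n42_mul (by simp) nx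
    have m2 : ‖29 * x ^ 2‖ ≤ 29 * (5926 / 10 ^ 6) ^ 2 := n42_mul (by simp) (n42_pow nx 2)
    have m3 : ‖4 * y‖ ≤ 4 * (3512 / 10 ^ 8) := n42_mul (by simp) ny
    refine (n42_sub (n42_add (n42_add n1 m1) m2) m3).trans (by norm_num)
  -- step 6
  obtain ⟨T, hT⟩ : ∃ T : ℂ, T = Z + 2 * κ := ⟨_, rfl⟩
  obtain ⟨D5, hD5⟩ : ∃ D5 : ℂ, D5 = w * q0 + 2 * κ := ⟨_, rfl⟩
  have lw : 1 - 2 * (7698 / 100000) ≤ ‖w + 2 * (κ : ℂ)‖ := by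
    have h1 : (1 : ℝ) ≤ ‖w‖ := hw.ge
    have h2 : ‖(w + 2 * (κ : ℂ)) - w‖ ≤ 2 * (7698 / 100000) := by
      have : (w + 2 * (κ : ℂ)) - w = 2 * (κ : ℂ) := by ring
      rw [this]
      exact n42_mul n2 (by rw [nk]; exact hk)
    exact n42_low h1 h2
  have lT : 8397 / 10 ^ 4 ≤ ‖T‖ := by
    have h2 : ‖T - (w + 2 * (κ : ℂ))‖ ≤ 63 / 10 ^ 4 := by
      have : T - (w + 2 * (κ : ℂ)) = Z - w := by rw [hT]; ring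
      rw [this]; exact Zw
    refine le_trans ?_ (n42_low lw h2)
    norm_num
  have nD5T : ‖D5 - T‖ ≤ 27 / 10 ^ 7 := by
    have : D5 - T = -(Z - w * q0) := by rw [hT, hD5]; ring
    rw [this, norm_neg]; exact nZq0
  have lD5 : 8396 / 10 ^ 4 ≤ ‖D5‖ := by
    refine le_trans ?_ (n42_low lT nD5T)
    norm_num
  have Tne : T ≠ 0 := by
    intro h
    rw [h, norm_zero] at lT
    norm_num at lT
  have D5ne : D5 ≠ 0 := by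
    intro h
    rw [h, norm_zero] at lD5
    norm_num at lD5
  have f1 : 1 + 6 * (κ : ℂ) ^ 2 * w ^ 2 + 29 * (κ : ℂ) ^ 4 * w ^ 4 - 4 * (κ : ℂ) ^ 4 = N4 := by
    rw [hN4, hx, hy]; ring
  have f2 : w + (κ : ℂ) ^ 2 * w ^ 3 + 2 * (κ : ℂ) ^ 4 * w ^ 5 - 2 * (κ : ℂ) ^ 4 * w + 2 * κ = D5 := by
    rw [hD5, hq0, hx, hy]; ring
  rw [f1, f2, ← hR, ← hT]
  have hfin : R ^ 2 / (4 * T) - N4 / (4 * D5) = (R ^ 2 - N4) / (4 * T) +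
      N4 * (D5 - T) / (4 * T * D5) := by
    field_simp
    ring
  rw [hfin]
  refine (norm_add_le _ _).trans ?_
  have n4 : ‖(4 : ℂ)‖ = 4 := by simp
  have g1 : ‖(R ^ 2 - N4) / (4 * T)‖ ≤ 126 / 10 ^ 7 := by
    rw [norm_div, norm_mul, n4, div_le_iff₀ (by linarith [norm_nonneg T] : 0 < 4 * ‖T‖)]
    calc ‖R ^ 2 - N4‖ ≤ 42 / 10 ^ 6 := nRN
      _ ≤ 126 / 10 ^ 7 * (4 * (8397 / 10 ^ 4)) := by norm_num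
      _ ≤ 126 / 10 ^ 7 * (4 * ‖T‖) := by gcongr
  have g2 : ‖N4 * (D5 - T) / (4 * T * D5)‖ ≤ 11 / 10 ^ 7 := by
    have hpos : 0 < 4 * ‖T‖ * ‖D5‖ := by
      have : 0 < ‖T‖ := norm_pos_iff.2 Tne
      have : 0 < ‖D5‖ := norm_pos_iff.2 D5ne
      positivity
    rw [norm_div, norm_mul, norm_mul, norm_mul, n4, div_le_iff₀ hpos]
    calc ‖N4‖ * ‖D5 - T‖ ≤ 104 / 100 * (27 / 10 ^ 7) :=
          mul_le_mul nN4 nD5T (norm_nonneg _) (by norm_num)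
      _ ≤ 11 / 10 ^ 7 * (4 * (8397 / 10 ^ 4) * (8396 / 10 ^ 4)) := by norm_num
      _ ≤ 11 / 10 ^ 7 * (4 * ‖T‖ * ‖D5‖) := by gcongr
  refine (add_le_add g1 g2).trans (by norm_num)

theorem N42_Qc {w : ℂ} (hw : ‖w‖ = 1) :
    ‖Qc k0 w - (1 + 6 * (k0 : ℂ) ^ 2 * w ^ 2 + 29 * (k0 : ℂ) ^ 4 * w ^ 4 - 4 * (k0 : ℂ) ^ 4) /
      (4 * (w + (k0 : ℂ) ^ 2 * w ^ 3 + 2 * (k0 : ℂ) ^ 4 * w ^ 5 - 2 * (k0 : ℂ) ^ 4 * w + 2 * k0))‖ ≤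
      25 / 10 ^ 6 := by
  obtain ⟨-, hk1, hk2⟩ := E_k0
  have h0 : 0 ≤ k0 := by norm_num at hk1; linarith
  have h1 : k0 ≤ 1 / 10 := by norm_num at hk2 ⊢; linarith
  obtain ⟨z1, z2, z3⟩ := E_Zi h0 h1 (w := w) (by rw [hw]; norm_num)
  have hZ : ‖Zi k0 w‖ ≤ 5 / 4 := by linarith
  have hZ' : ‖Zi k0 w‖ < 5 / 4 := by linarith
  have hne := E08_ne h0 h1 hZ
  have hNN : NN k0 (Zi k0 w) = w * DD k0 (Zi k0 w) := by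
    have h := z2
    rw [WW, div_eq_iff hne] at h
    exact h
  set E : ℂ := ENd k0 (Zi k0 w) - w * EDd k0 (Zi k0 w) with hE
  have hder : deriv (WW k0) (Zi k0 w) = E / DD k0 (Zi k0 w) := by
    rw [E09_deriv h0 h1 hZ', EWd, hNN, hE]
    field_simp
  have e1 := E20_ENd h0 h1 hZ
  have e2 := E20_EDd h0 h1 hZ
  have hE1 : ‖E - (1 - 2 * (k0 : ℂ) ^ 2 * Zi k0 w * w)‖ ≤ 9 * k0 ^ 6 := by
    have h : E - (1 - 2 * (k0 : ℂ) ^ 2 * Zi k0 w * w) = (ENd k0 (Zi k0 w) - 1) -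
      w * (EDd k0 (Zi k0 w) - 2 * (k0 : ℂ) ^ 2 * Zi k0 w) := by rw [hE]; ring
    rw [h]
    refine (n42_sub e1 (n42_mul hw.le e2)).trans ?_
    apply le_of_eq; ring
  have hmain := n42_core h0 hk2.le hw z3 rfl (E20_Zi h0 h1 (w := w) (by rw [hw]; norm_num))
    (E20_DD h0 h1 hZ) hE1
  have hQ : Qc k0 w = (DD k0 (Zi k0 w) / E) ^ 2 / (4 * (Zi k0 w + 2 * k0)) := by
    rw [Qc, hder]
    rw [div_pow, div_pow, mul_assoc, mul_comm (4 : ℂ)]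
    by_cases hE0 : E = 0
    · simp [hE0]
    · by_cases hT : Zi k0 w + 2 * k0 = 0
      · simp [hT]
      · field_simp
  rw [hQ]
  exact hmain

end Pool.Agent.Lib.H11Q
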