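import Pool.Agent.Lib.H11Q.N44L

/-! # H11Q chunk N44P (M): perturbation of the parameters; lower bound for the denominator.

PROOFS.  `|z| = 1`; `|a - ah| ≤ 2·10⁻⁸`, `|κ - kh| ≤ 4·10⁻⁷`; `t = z-a`, `u = 1-az`, `|t| = |u| ≤ 1.154`, `|u| ≥ 1-a ≥ 0.84606`.
* `N44P_den`: `|DQ| ≥ 4|u|³ |u|⁵ (1 - 2κ⁴ - κ² - 2κ⁴ - 2κ) ≥ 4·0.8397·0.84606⁸ = 0.8818..`.
* `N44P_D`: `|DQ a κ z - DQ ah kh z| ≤ 1.4·10⁻⁵`: in `κ` the derivative is bounded by `4|u|³(8κ³|u|⁵·2 + 2κ|u|⁵ + 2|u|⁵) ≤ 27.3`, in `a` by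
  `8·4·1.154⁷·1.17 ≤ 103`; do it without derivatives by `|x y - x' y'| ≤ |x-x'||y| + |x'||y-y'|` for the factors (powers:
  `|xⁿ - x'ⁿ| ≤ n Bⁿ⁻¹ |x-x'|`), or by the mean value inequality along a segment.
* `N44P_N`: `|NQ a κ z - NQ ah kh z| ≤ 10⁻⁶`: similarly (`|∂_κ| ≤ 1.154⁴·0.99`, `|∂_a| ≤ 8`).
* `N44P_P`: `|PQ z| ≤ ∑ |CQ k| ≤ 0.5591`.
* `N44P_res`: `N44L_res` and the three bounds: `9.86·10⁻⁵ + 10⁻⁶ + 1.4·10⁻⁵·0.5591 ≤ 11·10⁻⁵`. -/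

set_option autoImplicit false

namespace Pool.Agent.Lib.H11Q

open Complex Set Metric

theorem n44p_tu (a : ℝ) {z : ℂ} (hz : ‖z‖ = 1) : ‖z - a‖ = ‖1 - (a : ℂ) * z‖ := by
  have hzc : (starRingEnd ℂ) z * z = 1 := by
    rw [mul_comm, Complex.mul_conj, Complex.normSq_eq_norm_sq, hz]; simp
  have h1 : ‖z - a‖ = ‖(starRingEnd ℂ) (z - a)‖ := (Complex.norm_conj _).symm
  have h2 : ‖(starRingEnd ℂ) (z - a)‖ = ‖(starRingEnd ℂ) (z - a)‖ * ‖z‖ := by rw [hz, mul_one]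
  rw [h1, h2, ← norm_mul]
  congr 1
  rw [map_sub, Complex.conj_ofReal, sub_mul, hzc]

/-- closeness of degree `m` -/
def n44p_cl (B δ : ℝ) (m : ℕ) (f f' : ℂ) : Prop :=
  ‖f‖ ≤ B ^ m ∧ ‖f'‖ ≤ B ^ m ∧ ‖f - f'‖ * B ≤ m * B ^ m * δ

theorem n44p_mul {B δ : ℝ} (hB : 0 ≤ B) {m n : ℕ} {f f' g g' : ℂ} (h1 : n44p_cl B δ m f f')
    (h2 : n44p_cl B δ n g g') : n44p_cl B δ (m + n) (f * g) (f' * g') := by
  obtain ⟨a1, a2, a3⟩ := h1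
  obtain ⟨b1, b2, b3⟩ := h2
  have hBm : 0 ≤ B ^ m := pow_nonneg hB m
  have hBn : 0 ≤ B ^ n := pow_nonneg hB n
  refine ⟨?_, ?_, ?_⟩
  · rw [norm_mul, pow_add]
    exact mul_le_mul a1 b1 (norm_nonneg _) hBm
  · rw [norm_mul, pow_add]
    exact mul_le_mul a2 b2 (norm_nonneg _) hBm
  · have he : f * g - f' * g' = (f - f') * g + f' * (g - g') := by ring
    have h3 : ‖f * g - f' * g'‖ ≤ ‖f - f'‖ * ‖g‖ + ‖f'‖ * ‖g - g'‖ := by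
      rw [he]
      refine (norm_add_le _ _).trans ?_
      rw [norm_mul, norm_mul]
    have h4 : ‖f * g - f' * g'‖ * B ≤ (‖f - f'‖ * B) * ‖g‖ + ‖f'‖ * (‖g - g'‖ * B) := by
      calc ‖f * g - f' * g'‖ * B ≤ (‖f - f'‖ * ‖g‖ + ‖f'‖ * ‖g - g'‖) * B :=
            mul_le_mul_of_nonneg_right h3 hB
        _ = _ := by ring
    have h5 : (‖f - f'‖ * B) * ‖g‖ ≤ (m * B ^ m * δ) * B ^ n :=
      mul_le_mul a3 b1 (norm_nonneg _) ((mul_nonneg (norm_nonneg _) hB).trans a3)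
    have h6 : ‖f'‖ * (‖g - g'‖ * B) ≤ B ^ m * (n * B ^ n * δ) :=
      mul_le_mul a2 b3 (mul_nonneg (norm_nonneg _) hB) hBm
    calc ‖f * g - f' * g'‖ * B ≤ _ := h4
      _ ≤ (m * B ^ m * δ) * B ^ n + B ^ m * (n * B ^ n * δ) := add_le_add h5 h6
      _ = ((m + n : ℕ) : ℝ) * B ^ (m + n) * δ := by push_cast; ring

theorem n44p_pow {B δ : ℝ} (hB : 0 ≤ B) {f f' : ℂ} (h1 : n44p_cl B δ 1 f f') :
    ∀ k : ℕ, n44p_cl B δ k (f ^ k) (f' ^ k) := by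
  intro k
  induction k with
  | zero => simp [n44p_cl]
  | succ k ih =>
    rw [pow_succ, pow_succ]
    exact n44p_mul hB ih h1

theorem n44p_a {a : ℝ} (ha : |a - ah| ≤ 2 / 10 ^ 8) : 0 ≤ a ∧ a ≤ 15393452 / 10 ^ 8 := by
  rw [abs_le, ah] at ha
  constructor <;> norm_num at ha ⊢ <;> linarith [ha.1, ha.2]

theorem n44p_k {κ : ℝ} (hk : |κ - kh| ≤ 4 / 10 ^ 7) : 0 ≤ κ ∧ κ ≤ 76973 / 10 ^ 6 := by
  rw [abs_le, kh] at hk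
  constructor <;> norm_num at hk ⊢ <;> linarith [hk.1, hk.2]

theorem n44p_ah : |ah - ah| ≤ 2 / 10 ^ 8 := by simp; positivity

theorem n44p_kh : |kh - kh| ≤ 4 / 10 ^ 7 := by simp; positivity

theorem n44p_u {a : ℝ} (ha : |a - ah| ≤ 2 / 10 ^ 8) {z : ℂ} (hz : ‖z‖ = 1) :
    84606 / 10 ^ 5 ≤ ‖1 - (a : ℂ) * z‖ ∧ ‖1 - (a : ℂ) * z‖ ≤ 1154 / 1000 := by
  obtain ⟨h0, h1⟩ := n44p_a ha
  have h2 : ‖(a : ℂ) * z‖ = a := by rw [norm_mul, hz, mul_one, Complex.norm_real, Real.norm_of_nonneg h0]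
  constructor
  · have h3 : ‖(1 : ℂ)‖ - ‖(a : ℂ) * z‖ ≤ ‖1 - (a : ℂ) * z‖ := norm_sub_norm_le _ _
    rw [h2, norm_one] at h3
    norm_num at h1 ⊢
    linarith
  · have h3 : ‖1 - (a : ℂ) * z‖ ≤ ‖(1 : ℂ)‖ + ‖(a : ℂ) * z‖ := norm_sub_le _ _
    rw [h2, norm_one] at h3
    norm_num at h1 ⊢
    linarith

theorem n44p_cl_t {a : ℝ} (ha : |a - ah| ≤ 2 / 10 ^ 8) {z : ℂ} (hz : ‖z‖ = 1) :
    n44p_cl (1154 / 1000) (2 / 10 ^ 8) 1 (z - a) (z - ah) := by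
  refine ⟨?_, ?_, ?_⟩
  · rw [n44p_tu a hz, pow_one]; exact (n44p_u ha hz).2
  · rw [n44p_tu ah hz, pow_one]; exact (n44p_u n44p_ah hz).2
  · have h : (z - a) - (z - ah) = -((a - ah : ℝ) : ℂ) := by push_cast; ring
    rw [h, norm_neg, Complex.norm_real, Real.norm_eq_abs]
    rw [pow_one, Nat.cast_one, one_mul, mul_comm]
    exact mul_le_mul_of_nonneg_left ha (by norm_num)

theorem n44p_cl_u {a : ℝ} (ha : |a - ah| ≤ 2 / 10 ^ 8) {z : ℂ} (hz : ‖z‖ = 1) :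
    n44p_cl (1154 / 1000) (2 / 10 ^ 8) 1 (1 - (a : ℂ) * z) (1 - (ah : ℂ) * z) := by
  refine ⟨?_, ?_, ?_⟩
  · rw [pow_one]; exact (n44p_u ha hz).2
  · rw [pow_one]; exact (n44p_u n44p_ah hz).2
  · have h : (1 - (a : ℂ) * z) - (1 - (ah : ℂ) * z) = -(((a - ah : ℝ) : ℂ) * z) := by
      push_cast; ring
    rw [h, norm_neg, norm_mul, hz, mul_one, Complex.norm_real, Real.norm_eq_abs]
    rw [pow_one, Nat.cast_one, one_mul, mul_comm]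
    exact mul_le_mul_of_nonneg_left ha (by norm_num)

/-- The form of `DQ` in the four monomials. -/
theorem n44p_DQ (a κ : ℝ) (z : ℂ) : DQ a κ z =
    4 * ((1 - 2 * (κ : ℂ) ^ 4) * ((z - a) ^ 1 * (1 - a * z) ^ 7) +
      (κ : ℂ) ^ 2 * ((z - a) ^ 3 * (1 - a * z) ^ 5) +
      2 * (κ : ℂ) ^ 4 * ((z - a) ^ 5 * (1 - a * z) ^ 3) +
      2 * (κ : ℂ) * ((z - a) ^ 0 * (1 - a * z) ^ 8)) := by
  rw [DQ]; ring

theorem n44p_NQ (a κ : ℝ) (z : ℂ) : NQ a κ z =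
    (1 - (a : ℂ) ^ 2) ^ 2 * ((1 - 4 * (κ : ℂ) ^ 4) * ((z - a) ^ 0 * (1 - a * z) ^ 4) +
      6 * (κ : ℂ) ^ 2 * ((z - a) ^ 2 * (1 - a * z) ^ 2) +
      29 * (κ : ℂ) ^ 4 * ((z - a) ^ 4 * (1 - a * z) ^ 0)) := by
  rw [NQ]; ring

theorem n44p_real {x : ℝ} (hx : 0 ≤ x) : ‖(x : ℂ)‖ = x := by
  rw [Complex.norm_real, Real.norm_of_nonneg hx]

theorem N44P_den {a κ : ℝ} (ha : |a - ah| ≤ 2 / 10 ^ 8) (hk : |κ - kh| ≤ 4 / 10 ^ 7) {z : ℂ}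
    (hz : ‖z‖ = 1) : 88 / 100 ≤ ‖DQ a κ z‖ := by
  obtain ⟨hk0, hk1⟩ := n44p_k hk
  have htu := n44p_tu a hz
  obtain ⟨hu1, hu2⟩ := n44p_u ha hz
  set A : ℝ := ‖1 - (a : ℂ) * z‖ with hA
  have hA0 : 0 ≤ A := norm_nonneg _
  have hK2 : κ ^ 2 ≤ (76973 / 10 ^ 6) ^ 2 := by gcongr
  have hK4 : κ ^ 4 ≤ (76973 / 10 ^ 6) ^ 4 := by gcongr
  rw [n44p_DQ]
  set X : ℂ := (z - a) ^ 1 * (1 - a * z) ^ 7 with hX
  set Y : ℂ := -((2 * κ ^ 4 : ℝ) : ℂ) * ((z - a) ^ 1 * (1 - a * z) ^ 7) +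
      ((κ ^ 2 : ℝ) : ℂ) * ((z - a) ^ 3 * (1 - a * z) ^ 5) +
      ((2 * κ ^ 4 : ℝ) : ℂ) * ((z - a) ^ 5 * (1 - a * z) ^ 3) +
      ((2 * κ : ℝ) : ℂ) * ((z - a) ^ 0 * (1 - a * z) ^ 8) with hY
  have he : 4 * ((1 - 2 * (κ : ℂ) ^ 4) * X +
      (κ : ℂ) ^ 2 * ((z - a) ^ 3 * (1 - a * z) ^ 5) +
      2 * (κ : ℂ) ^ 4 * ((z - a) ^ 5 * (1 - a * z) ^ 3) +
      2 * (κ : ℂ) * ((z - a) ^ 0 * (1 - a * z) ^ 8)) = 4 * (X + Y) := by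
    rw [hX, hY]; push_cast; ring
  rw [he, norm_mul]
  have h4 : ‖(4 : ℂ)‖ = 4 := by simp
  rw [h4]
  have hmon : ∀ i j : ℕ, ‖(z - a) ^ i * (1 - (a : ℂ) * z) ^ j‖ = A ^ (i + j) := by
    intro i j
    rw [norm_mul, norm_pow, norm_pow, htu, pow_add]
  have hXn : ‖X‖ = A ^ 8 := by rw [hX, hmon]
  have hYn : ‖Y‖ ≤ (4 * κ ^ 4 + κ ^ 2 + 2 * κ) * A ^ 8 := by
    have n1 : ‖-((2 * κ ^ 4 : ℝ) : ℂ) * ((z - a) ^ 1 * (1 - a * z) ^ 7)‖ = 2 * κ ^ 4 * A ^ 8 := by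
      rw [norm_mul, norm_neg, n44p_real (by positivity), hmon]
    have n2 : ‖((κ ^ 2 : ℝ) : ℂ) * ((z - a) ^ 3 * (1 - a * z) ^ 5)‖ = κ ^ 2 * A ^ 8 := by
      rw [norm_mul, n44p_real (by positivity), hmon]
    have n3 : ‖((2 * κ ^ 4 : ℝ) : ℂ) * ((z - a) ^ 5 * (1 - a * z) ^ 3)‖ = 2 * κ ^ 4 * A ^ 8 := by
      rw [norm_mul, n44p_real (by positivity), hmon]
    have n4 : ‖((2 * κ : ℝ) : ℂ) * ((z - a) ^ 0 * (1 - a * z) ^ 8)‖ = 2 * κ * A ^ 8 := by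
      rw [norm_mul, n44p_real (by positivity), hmon]
    rw [hY]
    refine (norm_add_le _ _).trans ?_
    refine (add_le_add (norm_add_le _ _) le_rfl).trans ?_
    refine (add_le_add (add_le_add (norm_add_le _ _) le_rfl) le_rfl).trans ?_
    rw [n1, n2, n3, n4]
    apply le_of_eq; ring
  have h5 : ‖X‖ - ‖Y‖ ≤ ‖X + Y‖ := by
    have h := norm_sub_norm_le X (-Y)
    rw [norm_neg, sub_neg_eq_add] at h
    exact h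
  have h6 : 4 * κ ^ 4 + κ ^ 2 + 2 * κ ≤ 1 - 8397 / 10 ^ 4 := by
    norm_num at hK2 hK4 hk1 ⊢
    linarith
  have hA8 : (84606 / 10 ^ 5 : ℝ) ^ 8 ≤ A ^ 8 := by gcongr
  have hA8' : (0 : ℝ) ≤ A ^ 8 := by positivity
  have h7 : (4 * κ ^ 4 + κ ^ 2 + 2 * κ) * A ^ 8 ≤ (1 - 8397 / 10 ^ 4) * A ^ 8 :=
    mul_le_mul_of_nonneg_right h6 hA8'
  have h8 : 8397 / 10 ^ 4 * A ^ 8 ≤ ‖X + Y‖ := by
    rw [hXn] at h5
    nlinarith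
  have h9 : (88 / 100 : ℝ) ≤ 4 * (8397 / 10 ^ 4 * (84606 / 10 ^ 5 : ℝ) ^ 8) := by norm_num
  calc (88 / 100 : ℝ) ≤ 4 * (8397 / 10 ^ 4 * (84606 / 10 ^ 5 : ℝ) ^ 8) := h9
    _ ≤ 4 * (8397 / 10 ^ 4 * A ^ 8) := by gcongr
    _ ≤ 4 * ‖X + Y‖ := by gcongr

theorem n44p_k2 {κ : ℝ} (hk : |κ - kh| ≤ 4 / 10 ^ 7) : |κ ^ 2 - kh ^ 2| ≤ 6158 / 10 ^ 11 := by
  obtain ⟨hk0, hk1⟩ := n44p_k hk
  obtain ⟨h0, h1⟩ := n44p_k n44p_kh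
  have h : κ ^ 2 - kh ^ 2 = (κ - kh) * (κ + kh) := by ring
  rw [h, abs_mul, abs_of_nonneg (by linarith : 0 ≤ κ + kh)]
  calc |κ - kh| * (κ + kh) ≤ 4 / 10 ^ 7 * (76973 / 10 ^ 6 + 76973 / 10 ^ 6) := by gcongr
    _ ≤ 6158 / 10 ^ 11 := by norm_num

theorem n44p_k4 {κ : ℝ} (hk : |κ - kh| ≤ 4 / 10 ^ 7) : |κ ^ 4 - kh ^ 4| ≤ 74 / 10 ^ 11 := by
  obtain ⟨hk0, hk1⟩ := n44p_k hk
  obtain ⟨h0, h1⟩ := n44p_k n44p_kh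
  have h : κ ^ 4 - kh ^ 4 = (κ ^ 2 - kh ^ 2) * (κ ^ 2 + kh ^ 2) := by ring
  rw [h, abs_mul, abs_of_nonneg (by positivity : 0 ≤ κ ^ 2 + kh ^ 2)]
  calc |κ ^ 2 - kh ^ 2| * (κ ^ 2 + kh ^ 2) ≤
        6158 / 10 ^ 11 * ((76973 / 10 ^ 6) ^ 2 + (76973 / 10 ^ 6) ^ 2) := by
        gcongr
        exact n44p_k2 hk
    _ ≤ 74 / 10 ^ 11 := by norm_num

theorem n44p_mon {a : ℝ} (ha : |a - ah| ≤ 2 / 10 ^ 8) {z : ℂ} (hz : ‖z‖ = 1) (i j : ℕ) :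
    n44p_cl (1154 / 1000) (2 / 10 ^ 8) (i + j) ((z - a) ^ i * (1 - (a : ℂ) * z) ^ j)
      ((z - ah) ^ i * (1 - (ah : ℂ) * z) ^ j) :=
  n44p_mul (by norm_num) (n44p_pow (by norm_num) (n44p_cl_t ha hz) i)
    (n44p_pow (by norm_num) (n44p_cl_u ha hz) j)

theorem n44p_norm4 (x y z w : ℂ) : ‖x + y + z + w‖ ≤ ‖x‖ + ‖y‖ + ‖z‖ + ‖w‖ := by
  refine (norm_add_le _ _).trans ?_
  gcongr
  refine (norm_add_le _ _).trans ?_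
  gcongr
  exact norm_add_le _ _

theorem N44P_D {a κ : ℝ} (ha : |a - ah| ≤ 2 / 10 ^ 8) (hk : |κ - kh| ≤ 4 / 10 ^ 7) {z : ℂ}
    (hz : ‖z‖ = 1) : ‖DQ a κ z - DQ ah kh z‖ ≤ 14 / 10 ^ 6 := by
  obtain ⟨h0, h1⟩ := n44p_k n44p_kh
  have hk2 := n44p_k2 hk
  have hk4 := n44p_k4 hk
  obtain ⟨a1, a2, a3⟩ := n44p_mon ha hz 1 7
  obtain ⟨b1, b2, b3⟩ := n44p_mon ha hz 3 5
  obtain ⟨c1, c2, c3⟩ := n44p_mon ha hz 5 3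
  obtain ⟨d1, d2, d3⟩ := n44p_mon ha hz 0 8
  rw [n44p_DQ, n44p_DQ]
  set m1 : ℂ := (z - a) ^ 1 * (1 - (a : ℂ) * z) ^ 7
  set m2 : ℂ := (z - a) ^ 3 * (1 - (a : ℂ) * z) ^ 5
  set m3 : ℂ := (z - a) ^ 5 * (1 - (a : ℂ) * z) ^ 3
  set m4 : ℂ := (z - a) ^ 0 * (1 - (a : ℂ) * z) ^ 8
  set n1 : ℂ := (z - ah) ^ 1 * (1 - (ah : ℂ) * z) ^ 7
  set n2 : ℂ := (z - ah) ^ 3 * (1 - (ah : ℂ) * z) ^ 5
  set n3 : ℂ := (z - ah) ^ 5 * (1 - (ah : ℂ) * z) ^ 3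
  set n4 : ℂ := (z - ah) ^ 0 * (1 - (ah : ℂ) * z) ^ 8
  have hB : (1154 / 1000 : ℝ) ^ 8 ≤ 31453 / 10 ^ 4 := by norm_num
  have hD : ∀ x : ℝ, x * (1154 / 1000) ≤ ((8 : ℕ) : ℝ) * (1154 / 1000) ^ 8 * (2 / 10 ^ 8) →
      x ≤ 4361 / 10 ^ 10 := by
    intro x hx
    norm_num at hx ⊢
    linarith
  have a3' := hD _ a3
  have b3' := hD _ b3
  have c3' := hD _ c3
  have d3' := hD _ d3
  have a1' := a1.trans hB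
  have b1' := b1.trans hB
  have c1' := c1.trans hB
  have d1' := d1.trans hB
  have he : 4 * ((1 - 2 * (κ : ℂ) ^ 4) * m1 + (κ : ℂ) ^ 2 * m2 + 2 * (κ : ℂ) ^ 4 * m3 +
      2 * (κ : ℂ) * m4) - 4 * ((1 - 2 * (kh : ℂ) ^ 4) * n1 + (kh : ℂ) ^ 2 * n2 +
      2 * (kh : ℂ) ^ 4 * n3 + 2 * (kh : ℂ) * n4) =
      4 * ((((-2 * (κ ^ 4 - kh ^ 4) : ℝ) : ℂ) * m1 + ((κ ^ 2 - kh ^ 2 : ℝ) : ℂ) * m2 +
        ((2 * (κ ^ 4 - kh ^ 4) : ℝ) : ℂ) * m3 + ((2 * (κ - kh) : ℝ) : ℂ) * m4) +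
      (((1 - 2 * kh ^ 4 : ℝ) : ℂ) * (m1 - n1) + ((kh ^ 2 : ℝ) : ℂ) * (m2 - n2) +
        ((2 * kh ^ 4 : ℝ) : ℂ) * (m3 - n3) + ((2 * kh : ℝ) : ℂ) * (m4 - n4))) := by
    push_cast; ring
  rw [he, norm_mul]
  have h4 : ‖(4 : ℂ)‖ = 4 := by simp
  rw [h4]
  have hkh4 : kh ^ 4 ≤ (76973 / 10 ^ 6) ^ 4 := by gcongr
  have hkh2 : kh ^ 2 ≤ (76973 / 10 ^ 6) ^ 2 := by gcongr
  have t1 : ‖((-2 * (κ ^ 4 - kh ^ 4) : ℝ) : ℂ) * m1‖ ≤ (2 * (74 / 10 ^ 11)) * (31453 / 10 ^ 4) := by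
    rw [norm_mul, Complex.norm_real, Real.norm_eq_abs, abs_mul]
    refine mul_le_mul ?_ a1' (norm_nonneg _) (by positivity)
    rw [abs_neg, abs_of_pos (by norm_num : (0 : ℝ) < 2)]
    gcongr
  have t2 : ‖((κ ^ 2 - kh ^ 2 : ℝ) : ℂ) * m2‖ ≤ (6158 / 10 ^ 11) * (31453 / 10 ^ 4) := by
    rw [norm_mul, Complex.norm_real, Real.norm_eq_abs]
    exact mul_le_mul hk2 b1' (norm_nonneg _) (by positivity)
  have t3 : ‖((2 * (κ ^ 4 - kh ^ 4) : ℝ) : ℂ) * m3‖ ≤ (2 * (74 / 10 ^ 11)) * (31453 / 10 ^ 4) := by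
    rw [norm_mul, Complex.norm_real, Real.norm_eq_abs, abs_mul]
    refine mul_le_mul ?_ c1' (norm_nonneg _) (by positivity)
    rw [abs_of_pos (by norm_num : (0 : ℝ) < 2)]
    gcongr
  have t4 : ‖((2 * (κ - kh) : ℝ) : ℂ) * m4‖ ≤ (2 * (4 / 10 ^ 7)) * (31453 / 10 ^ 4) := by
    rw [norm_mul, Complex.norm_real, Real.norm_eq_abs, abs_mul]
    refine mul_le_mul ?_ d1' (norm_nonneg _) (by positivity)
    rw [abs_of_pos (by norm_num : (0 : ℝ) < 2)]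
    gcongr
  have s1 : ‖((1 - 2 * kh ^ 4 : ℝ) : ℂ) * (m1 - n1)‖ ≤ 1 * (4361 / 10 ^ 10) := by
    rw [norm_mul]
    refine mul_le_mul ?_ a3' (norm_nonneg _) (by positivity)
    rw [n44p_real]
    · have : 0 ≤ kh ^ 4 := by positivity
      linarith
    · norm_num at hkh4 ⊢; linarith
  have s2 : ‖((kh ^ 2 : ℝ) : ℂ) * (m2 - n2)‖ ≤ (76973 / 10 ^ 6) ^ 2 * (4361 / 10 ^ 10) := by
    rw [norm_mul, n44p_real (by positivity)]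
    exact mul_le_mul hkh2 b3' (norm_nonneg _) (by positivity)
  have s3 : ‖((2 * kh ^ 4 : ℝ) : ℂ) * (m3 - n3)‖ ≤
      (2 * (76973 / 10 ^ 6) ^ 4) * (4361 / 10 ^ 10) := by
    rw [norm_mul, n44p_real (by positivity)]
    exact mul_le_mul (by gcongr) c3' (norm_nonneg _) (by positivity)
  have s4 : ‖((2 * kh : ℝ) : ℂ) * (m4 - n4)‖ ≤
      (2 * (76973 / 10 ^ 6)) * (4361 / 10 ^ 10) := by
    rw [norm_mul, n44p_real (by positivity)]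
    exact mul_le_mul (by gcongr) d3' (norm_nonneg _) (by positivity)
  have hfin := (norm_add_le (((-2 * (κ ^ 4 - kh ^ 4) : ℝ) : ℂ) * m1 +
      ((κ ^ 2 - kh ^ 2 : ℝ) : ℂ) * m2 +
        ((2 * (κ ^ 4 - kh ^ 4) : ℝ) : ℂ) * m3 + ((2 * (κ - kh) : ℝ) : ℂ) * m4)
      (((1 - 2 * kh ^ 4 : ℝ) : ℂ) * (m1 - n1) + ((kh ^ 2 : ℝ) : ℂ) * (m2 - n2) +
        ((2 * kh ^ 4 : ℝ) : ℂ) * (m3 - n3) + ((2 * kh : ℝ) : ℂ) * (m4 - n4))).trans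
    (add_le_add (n44p_norm4 _ _ _ _) (n44p_norm4 _ _ _ _))
  have hsum : 4 * ((2 * (74 / 10 ^ 11) * (31453 / 10 ^ 4) + 6158 / 10 ^ 11 * (31453 / 10 ^ 4) +
      2 * (74 / 10 ^ 11) * (31453 / 10 ^ 4) + 2 * (4 / 10 ^ 7) * (31453 / 10 ^ 4)) +
      (1 * (4361 / 10 ^ 10) + (76973 / 10 ^ 6) ^ 2 * (4361 / 10 ^ 10) +
        2 * (76973 / 10 ^ 6) ^ 4 * (4361 / 10 ^ 10) + 2 * (76973 / 10 ^ 6) * (4361 / 10 ^ 10))) ≤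
      (14 / 10 ^ 6 : ℝ) := by norm_num
  refine (mul_le_mul_of_nonneg_left (hfin.trans (add_le_add
    (add_le_add (add_le_add (add_le_add t1 t2) t3) t4)
    (add_le_add (add_le_add (add_le_add s1 s2) s3) s4))) (by norm_num)).trans hsum

theorem n44p_norm3 (x y z : ℂ) : ‖x + y + z‖ ≤ ‖x‖ + ‖y‖ + ‖z‖ := by
  refine (norm_add_le _ _).trans ?_
  gcongr
  exact norm_add_le _ _

theorem N44P_N {a κ : ℝ} (ha : |a - ah| ≤ 2 / 10 ^ 8) (hk : |κ - kh| ≤ 4 / 10 ^ 7) {z : ℂ}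
    (hz : ‖z‖ = 1) : ‖NQ a κ z - NQ ah kh z‖ ≤ 1 / 10 ^ 6 := by
  obtain ⟨h0, h1⟩ := n44p_k n44p_kh
  obtain ⟨ha0, ha1⟩ := n44p_a ha
  obtain ⟨hb0, hb1⟩ := n44p_a n44p_ah
  have hk2 := n44p_k2 hk
  have hk4 := n44p_k4 hk
  obtain ⟨a1, a2, a3⟩ := n44p_mon ha hz 0 4
  obtain ⟨b1, b2, b3⟩ := n44p_mon ha hz 2 2
  obtain ⟨c1, c2, c3⟩ := n44p_mon ha hz 4 0
  rw [n44p_NQ, n44p_NQ]
  set m1 : ℂ := (z - a) ^ 0 * (1 - (a : ℂ) * z) ^ 4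
  set m2 : ℂ := (z - a) ^ 2 * (1 - (a : ℂ) * z) ^ 2
  set m3 : ℂ := (z - a) ^ 4 * (1 - (a : ℂ) * z) ^ 0
  set n1 : ℂ := (z - ah) ^ 0 * (1 - (ah : ℂ) * z) ^ 4
  set n2 : ℂ := (z - ah) ^ 2 * (1 - (ah : ℂ) * z) ^ 2
  set n3 : ℂ := (z - ah) ^ 4 * (1 - (ah : ℂ) * z) ^ 0
  have hB : (1154 / 1000 : ℝ) ^ 4 ≤ 17735 / 10 ^ 4 := by norm_num
  have hD : ∀ x : ℝ, x * (1154 / 1000) ≤ ((4 : ℕ) : ℝ) * (1154 / 1000) ^ 4 * (2 / 10 ^ 8) →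
      x ≤ 123 / 10 ^ 9 := by
    intro x hx
    norm_num at hx ⊢
    linarith
  have a3' := hD _ a3
  have b3' := hD _ b3
  have c3' := hD _ c3
  have a1' := a1.trans hB
  have b1' := b1.trans hB
  have c1' := c1.trans hB
  have hkh4 : kh ^ 4 ≤ (76973 / 10 ^ 6) ^ 4 := by gcongr
  have hkh2 : kh ^ 2 ≤ (76973 / 10 ^ 6) ^ 2 := by gcongr
  have hkh4' : 0 ≤ kh ^ 4 := by positivity
  -- the bracket
  set S : ℂ := (1 - 4 * (κ : ℂ) ^ 4) * m1 + 6 * (κ : ℂ) ^ 2 * m2 + 29 * (κ : ℂ) ^ 4 * m3 with hS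
  set S' : ℂ := (1 - 4 * (kh : ℂ) ^ 4) * n1 + 6 * (kh : ℂ) ^ 2 * n2 + 29 * (kh : ℂ) ^ 4 * n3 with hS'
  have a2' := a2.trans hB
  have b2' := b2.trans hB
  have c2' := c2.trans hB
  have hSS : S - S' = (((-4 * (κ ^ 4 - kh ^ 4) : ℝ) : ℂ) * m1 +
      ((6 * (κ ^ 2 - kh ^ 2) : ℝ) : ℂ) * m2 + ((29 * (κ ^ 4 - kh ^ 4) : ℝ) : ℂ) * m3) +
      (((1 - 4 * kh ^ 4 : ℝ) : ℂ) * (m1 - n1) + ((6 * kh ^ 2 : ℝ) : ℂ) * (m2 - n2) +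
        ((29 * kh ^ 4 : ℝ) : ℂ) * (m3 - n3)) := by
    rw [hS, hS']; push_cast; ring
  have t1 : ‖((-4 * (κ ^ 4 - kh ^ 4) : ℝ) : ℂ) * m1‖ ≤ (4 * (74 / 10 ^ 11)) * (17735 / 10 ^ 4) := by
    rw [norm_mul, Complex.norm_real, Real.norm_eq_abs, abs_mul]
    refine mul_le_mul ?_ a1' (norm_nonneg _) (by positivity)
    rw [abs_neg, abs_of_pos (by norm_num : (0 : ℝ) < 4)]
    gcongr
  have t2 : ‖((6 * (κ ^ 2 - kh ^ 2) : ℝ) : ℂ) * m2‖ ≤ (6 * (6158 / 10 ^ 11)) * (17735 / 10 ^ 4) := by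
    rw [norm_mul, Complex.norm_real, Real.norm_eq_abs, abs_mul]
    refine mul_le_mul ?_ b1' (norm_nonneg _) (by positivity)
    rw [abs_of_pos (by norm_num : (0 : ℝ) < 6)]
    gcongr
  have t3 : ‖((29 * (κ ^ 4 - kh ^ 4) : ℝ) : ℂ) * m3‖ ≤ (29 * (74 / 10 ^ 11)) * (17735 / 10 ^ 4) := by
    rw [norm_mul, Complex.norm_real, Real.norm_eq_abs, abs_mul]
    refine mul_le_mul ?_ c1' (norm_nonneg _) (by positivity)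
    rw [abs_of_pos (by norm_num : (0 : ℝ) < 29)]
    gcongr
  have s1 : ‖((1 - 4 * kh ^ 4 : ℝ) : ℂ) * (m1 - n1)‖ ≤ 1 * (123 / 10 ^ 9) := by
    rw [norm_mul]
    refine mul_le_mul ?_ a3' (norm_nonneg _) (by positivity)
    rw [n44p_real]
    · linarith
    · norm_num at hkh4 ⊢; linarith
  have s2 : ‖((6 * kh ^ 2 : ℝ) : ℂ) * (m2 - n2)‖ ≤
      (6 * (76973 / 10 ^ 6) ^ 2) * (123 / 10 ^ 9) := by
    rw [norm_mul, n44p_real (by positivity)]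
    exact mul_le_mul (by gcongr) b3' (norm_nonneg _) (by positivity)
  have s3 : ‖((29 * kh ^ 4 : ℝ) : ℂ) * (m3 - n3)‖ ≤
      (29 * (76973 / 10 ^ 6) ^ 4) * (123 / 10 ^ 9) := by
    rw [norm_mul, n44p_real (by positivity)]
    exact mul_le_mul (by gcongr) c3' (norm_nonneg _) (by positivity)
  have hSd : ‖S - S'‖ ≤ 86 / 10 ^ 8 := by
    rw [hSS]
    refine (norm_add_le _ _).trans ((add_le_add (n44p_norm3 _ _ _) (n44p_norm3 _ _ _)).trans ?_)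
    refine (add_le_add (add_le_add (add_le_add t1 t2) t3) (add_le_add (add_le_add s1 s2) s3)).trans ?_
    norm_num
  have hSn : ‖S'‖ ≤ 19 / 10 := by
    have u1 : ‖((1 - 4 * kh ^ 4 : ℝ) : ℂ) * n1‖ ≤ 1 * (17735 / 10 ^ 4) := by
      rw [norm_mul]
      refine mul_le_mul ?_ a2' (norm_nonneg _) (by positivity)
      rw [n44p_real]
      · linarith
      · norm_num at hkh4 ⊢; linarith
    have u2 : ‖((6 * kh ^ 2 : ℝ) : ℂ) * n2‖ ≤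
        (6 * (76973 / 10 ^ 6) ^ 2) * (17735 / 10 ^ 4) := by
      rw [norm_mul, n44p_real (by positivity)]
      exact mul_le_mul (by gcongr) b2' (norm_nonneg _) (by positivity)
    have u3 : ‖((29 * kh ^ 4 : ℝ) : ℂ) * n3‖ ≤
        (29 * (76973 / 10 ^ 6) ^ 4) * (17735 / 10 ^ 4) := by
      rw [norm_mul, n44p_real (by positivity)]
      exact mul_le_mul (by gcongr) c2' (norm_nonneg _) (by positivity)
    have he : S' = ((1 - 4 * kh ^ 4 : ℝ) : ℂ) * n1 + ((6 * kh ^ 2 : ℝ) : ℂ) * n2 +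
        ((29 * kh ^ 4 : ℝ) : ℂ) * n3 := by rw [hS']; push_cast; ring
    rw [he]
    refine (n44p_norm3 _ _ _).trans ((add_le_add (add_le_add u1 u2) u3).trans ?_)
    norm_num
  have hf : (1 - (a : ℂ) ^ 2) ^ 2 * S - (1 - (ah : ℂ) ^ 2) ^ 2 * S' =
      (((1 - a ^ 2) ^ 2 : ℝ) : ℂ) * (S - S') +
      (((1 - a ^ 2) ^ 2 - (1 - ah ^ 2) ^ 2 : ℝ) : ℂ) * S' := by push_cast; ring
  rw [hf]
  have v1 : ‖(((1 - a ^ 2) ^ 2 : ℝ) : ℂ) * (S - S')‖ ≤ 1 * (86 / 10 ^ 8) := by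
    rw [norm_mul, n44p_real (by positivity)]
    refine mul_le_mul ?_ hSd (norm_nonneg _) (by positivity)
    have h2 : a ^ 2 ≤ (15393452 / 10 ^ 8) ^ 2 := by gcongr
    have h3 : 0 ≤ a ^ 2 := by positivity
    have h4' : (15393452 / 10 ^ 8 : ℝ) ^ 2 ≤ 1 := by norm_num
    have h4 : 0 ≤ 1 - a ^ 2 := by linarith
    have h5 : 1 - a ^ 2 ≤ 1 := by linarith
    nlinarith
  have v2 : ‖(((1 - a ^ 2) ^ 2 - (1 - ah ^ 2) ^ 2 : ℝ) : ℂ) * S'‖ ≤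
      (13 / 10 ^ 9) * (19 / 10) := by
    rw [norm_mul]
    refine mul_le_mul ?_ hSn (norm_nonneg _) (by positivity)
    rw [Complex.norm_real, Real.norm_eq_abs]
    have h2 : a ^ 2 ≤ (15393452 / 10 ^ 8) ^ 2 := by gcongr
    have h3 : 0 ≤ a ^ 2 := by positivity
    have h2' : ah ^ 2 ≤ (15393452 / 10 ^ 8) ^ 2 := by gcongr
    have h3' : 0 ≤ ah ^ 2 := by positivity
    have h6 : (1 - a ^ 2) ^ 2 - (1 - ah ^ 2) ^ 2 =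
      -((a - ah) * ((a + ah) * ((1 - a ^ 2) + (1 - ah ^ 2)))) := by ring
    rw [h6, abs_neg, abs_mul]
    have h7 : |(a + ah) * ((1 - a ^ 2) + (1 - ah ^ 2))| ≤
        (15393452 / 10 ^ 8 + 15393452 / 10 ^ 8) * 2 := by
      rw [abs_of_nonneg]
      · refine mul_le_mul (by gcongr) (by linarith) ?_ (by positivity)
        have h4' : (15393452 / 10 ^ 8 : ℝ) ^ 2 ≤ 1 := by norm_num
        linarith
      · refine mul_nonneg (by linarith) ?_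
        have h4' : (15393452 / 10 ^ 8 : ℝ) ^ 2 ≤ 1 := by norm_num
        linarith
    calc |a - ah| * |(a + ah) * ((1 - a ^ 2) + (1 - ah ^ 2))| ≤
        (2 / 10 ^ 8) * ((15393452 / 10 ^ 8 + 15393452 / 10 ^ 8) * 2) := by gcongr
      _ ≤ 13 / 10 ^ 9 := by norm_num
  refine (norm_add_le _ _).trans ((add_le_add v1 v2).trans ?_)
  norm_num

theorem N44P_P {z : ℂ} (hz : ‖z‖ ≤ 1) : ‖PQ z‖ ≤ 5591 / 10 ^ 4 := by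
  have h1 : ∀ k ∈ Finset.range 10, ‖(CQ k : ℂ) * z ^ k‖ ≤ |CQ k| := by
    intro k _
    rw [norm_mul, norm_pow, Complex.norm_real, Real.norm_eq_abs]
    have h2 : ‖z‖ ^ k ≤ 1 := pow_le_one₀ (norm_nonneg _) hz
    have h3 : 0 ≤ |CQ k| := abs_nonneg _
    nlinarith
  rw [PQ]
  refine (norm_sum_le_of_le _ h1).trans ?_
  simp only [Finset.sum_range_succ, Finset.sum_range_zero, CQ, CQz]
  norm_num

theorem N44P_res {a κ : ℝ} (ha : |a - ah| ≤ 2 / 10 ^ 8) (hk : |κ - kh| ≤ 4 / 10 ^ 7) {z : ℂ}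
    (hz : ‖z‖ = 1) : ‖z * NQ a κ z - DQ a κ z * PQ z‖ ≤ 11 / 10 ^ 5 := by
  have h1 := N44L_res hz.le
  have h2 := N44P_N ha hk hz
  have h3 := N44P_D ha hk hz
  have h4 := N44P_P hz.le
  have he : z * NQ a κ z - DQ a κ z * PQ z = (z * NQ ah kh z - DQ ah kh z * PQ z) +
      z * (NQ a κ z - NQ ah kh z) + -((DQ a κ z - DQ ah kh z) * PQ z) := by ring
  rw [he]
  refine (n44p_norm3 _ _ _).trans ?_
  rw [norm_neg, norm_mul, norm_mul, hz, one_mul]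
  have h5 : ‖DQ a κ z - DQ ah kh z‖ * ‖PQ z‖ ≤ 14 / 10 ^ 6 * (5591 / 10 ^ 4) :=
    mul_le_mul h3 h4 (norm_nonneg _) (by positivity)
  refine (add_le_add (add_le_add h1 h2) h5).trans ?_
  norm_num

end Pool.Agent.Lib.H11Q
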