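import Pool.Agent.Lib.H11Q.N40
import Pool.Agent.Lib.H11Q.N42
import Pool.Agent.Lib.H11Q.N44P

/-! # H11Q chunk N43 (S/M): the Taylor approximation of `Qst` on the unit circle.

PROOF.  `|z| = 1`, `u = 1 - a0 z`, `t = z - a0`, `|t| = |u|`, `w = t/u`, `|w| = 1`.  `Qst z = Qc k0 w ((1-a0²)/u²)²` and
`N4(w)/(4 D5(w)) · (1-a0²)²/u⁴ = NQ a0 k0 z/DQ a0 k0 z` (clear denominators: `N4(w) u⁴`, `D5(w) u⁵` are the polynomials in `t`, `u` of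
the definitions), so by `N42_Qc` the difference `Qst z - NQ/DQ` is at most `25·10⁻⁶ ((1+a0)/(1-a0))² ≤ 25·10⁻⁶·1.861 ≤ 4.66·10⁻⁵`
(`|u| ≥ 1 - a0`).  And `|NQ/DQ - PQ/z| = |z NQ - DQ PQ|/|DQ| ≤ 11·10⁻⁵/0.88 = 12.5·10⁻⁵` (`N44P_res`, `N44P_den`, `N40_ah`).
Sum `≤ 17.2·10⁻⁵`. -/

set_option autoImplicit false

namespace Pool.Agent.Lib.H11Q

open Complex Set MeasureTheory Metric Filter
open scoped ComplexConjugate Topology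

theorem n43_id (a κ t u : ℂ) (hu : u ≠ 0) :
    (1 + 6 * κ ^ 2 * (t / u) ^ 2 + 29 * κ ^ 4 * (t / u) ^ 4 - 4 * κ ^ 4) /
      (4 * (t / u + κ ^ 2 * (t / u) ^ 3 + 2 * κ ^ 4 * (t / u) ^ 5 - 2 * κ ^ 4 * (t / u) + 2 * κ)) *
      ((1 - a ^ 2) / u ^ 2) ^ 2 =
    ((1 - a ^ 2) ^ 2 * ((1 - 4 * κ ^ 4) * u ^ 4 + 6 * κ ^ 2 * t ^ 2 * u ^ 2 + 29 * κ ^ 4 * t ^ 4)) /
      (4 * u ^ 3 * ((1 - 2 * κ ^ 4) * t * u ^ 4 + κ ^ 2 * t ^ 3 * u ^ 2 + 2 * κ ^ 4 * t ^ 5 +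
        2 * κ * u ^ 5)) := by
  have e1 : 1 + 6 * κ ^ 2 * (t / u) ^ 2 + 29 * κ ^ 4 * (t / u) ^ 4 - 4 * κ ^ 4 =
      ((1 - 4 * κ ^ 4) * u ^ 4 + 6 * κ ^ 2 * t ^ 2 * u ^ 2 + 29 * κ ^ 4 * t ^ 4) / u ^ 4 := by
    field_simp
    ring
  have e2 : 4 * (t / u + κ ^ 2 * (t / u) ^ 3 + 2 * κ ^ 4 * (t / u) ^ 5 - 2 * κ ^ 4 * (t / u) + 2 * κ) =
      4 * ((1 - 2 * κ ^ 4) * t * u ^ 4 + κ ^ 2 * t ^ 3 * u ^ 2 + 2 * κ ^ 4 * t ^ 5 +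
        2 * κ * u ^ 5) / u ^ 5 := by
    field_simp
    ring
  rw [e1, e2, div_pow, div_div_div_eq, div_mul_div_comm]
  generalize (1 - 4 * κ ^ 4) * u ^ 4 + 6 * κ ^ 2 * t ^ 2 * u ^ 2 + 29 * κ ^ 4 * t ^ 4 = p
  generalize (1 - 2 * κ ^ 4) * t * u ^ 4 + κ ^ 2 * t ^ 3 * u ^ 2 + 2 * κ ^ 4 * t ^ 5 +
        2 * κ * u ^ 5 = q
  rw [show u ^ 4 * (4 * q) * (u ^ 2) ^ 2 = (4 * u ^ 3 * q) * u ^ 5 by ring,
    show p * u ^ 5 * (1 - a ^ 2) ^ 2 = ((1 - a ^ 2) ^ 2 * p) * u ^ 5 by ring,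
    mul_div_mul_right _ _ (pow_ne_zero 5 hu)]

theorem N43_Qst {z : ℂ} (hz : ‖z‖ = 1) : ‖Qst z - PQ z / z‖ ≤ 18 / 10 ^ 5 := by
  obtain ⟨ha, hk⟩ := N40_ah
  obtain ⟨hlo, hhi⟩ := N40_a0
  have ha0 : 0 < a0 := by
    refine lt_trans ?_ hlo
    norm_num
  have hz0 : z ≠ 0 := by
    intro h
    rw [h, norm_zero] at hz
    exact zero_ne_one hz
  have hu1 : 1 - a0 ≤ ‖1 - (a0 : ℂ) * z‖ := by
    have h1 := norm_sub_norm_le (1 : ℂ) ((a0 : ℂ) * z)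
    rw [norm_one, norm_mul, hz, Complex.norm_real, Real.norm_eq_abs, abs_of_pos ha0, mul_one] at h1
    exact h1
  have ha1 : 0 < 1 - a0 := by
    have : (15393449 : ℝ) / 10 ^ 8 < 1 := by norm_num
    linarith
  have hun : 0 < ‖1 - (a0 : ℂ) * z‖ := lt_of_lt_of_le ha1 hu1
  have hu : 1 - (a0 : ℂ) * z ≠ 0 := norm_pos_iff.mp hun
  have htu : ‖z - a0‖ = ‖1 - (a0 : ℂ) * z‖ := by
    have h1 : normSq (z - a0) = normSq (1 - (a0 : ℂ) * z) := by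
      have h2 : z.re * z.re + z.im * z.im = 1 := by
        rw [← normSq_apply, normSq_eq_norm_sq, hz, one_pow]
      simp only [normSq_apply, sub_re, sub_im, mul_re, mul_im, ofReal_re, ofReal_im, one_re, one_im]
      linear_combination (1 - a0 ^ 2) * h2
    rw [normSq_eq_norm_sq, normSq_eq_norm_sq] at h1
    exact (pow_left_inj₀ (norm_nonneg _) (norm_nonneg _) two_ne_zero).mp h1
  have hw : ‖(z - a0) / (1 - (a0 : ℂ) * z)‖ = 1 := by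
    rw [norm_div, htu, div_self hun.ne']
  have hQ := N42_Qc hw
  have hid := n43_id (a0 : ℂ) (k0 : ℂ) (z - a0) (1 - (a0 : ℂ) * z) hu
  have h1 : Qst z - NQ a0 k0 z / DQ a0 k0 z =
      (Qc k0 ((z - a0) / (1 - (a0 : ℂ) * z)) -
        (1 + 6 * (k0 : ℂ) ^ 2 * ((z - a0) / (1 - (a0 : ℂ) * z)) ^ 2 +
          29 * (k0 : ℂ) ^ 4 * ((z - a0) / (1 - (a0 : ℂ) * z)) ^ 4 - 4 * (k0 : ℂ) ^ 4) /
      (4 * ((z - a0) / (1 - (a0 : ℂ) * z) + (k0 : ℂ) ^ 2 * ((z - a0) / (1 - (a0 : ℂ) * z)) ^ 3 +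
        2 * (k0 : ℂ) ^ 4 * ((z - a0) / (1 - (a0 : ℂ) * z)) ^ 5 -
        2 * (k0 : ℂ) ^ 4 * ((z - a0) / (1 - (a0 : ℂ) * z)) + 2 * k0))) *
      ((1 - (a0 : ℂ) ^ 2) / (1 - (a0 : ℂ) * z) ^ 2) ^ 2 := by
    rw [sub_mul, hid]
    rfl
  have h2 : ‖((1 - (a0 : ℂ) ^ 2) / (1 - (a0 : ℂ) * z) ^ 2) ^ 2‖ ≤ 1861 / 1000 := by
    have e1 : ‖1 - (a0 : ℂ) ^ 2‖ = 1 - a0 ^ 2 := by
      rw [show (1 : ℂ) - (a0 : ℂ) ^ 2 = ((1 - a0 ^ 2 : ℝ) : ℂ) by push_cast; rfl,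
        Complex.norm_real, Real.norm_eq_abs, abs_of_pos (by nlinarith)]
    rw [norm_pow, norm_div, norm_pow, e1]
    have e2 : (1 - a0 ^ 2) / ‖1 - (a0 : ℂ) * z‖ ^ 2 ≤ (1 + a0) / (1 - a0) := by
      rw [div_le_div_iff₀ (by positivity) ha1]
      have e3 : (1 - a0) ^ 2 ≤ ‖1 - (a0 : ℂ) * z‖ ^ 2 := pow_le_pow_left₀ ha1.le hu1 2
      nlinarith
    have e4 : (1 + a0) / (1 - a0) ≤ 13639 / 10000 := by
      rw [div_le_iff₀ ha1]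
      norm_num at hhi
      linarith
    have e5 : 0 ≤ (1 - a0 ^ 2) / ‖1 - (a0 : ℂ) * z‖ ^ 2 := by
      apply div_nonneg _ (by positivity)
      nlinarith
    calc ((1 - a0 ^ 2) / ‖1 - (a0 : ℂ) * z‖ ^ 2) ^ 2 ≤ (13639 / 10000) ^ 2 :=
          pow_le_pow_left₀ e5 (e2.trans e4) 2
      _ ≤ 1861 / 1000 := by norm_num
  have h3 : ‖Qst z - NQ a0 k0 z / DQ a0 k0 z‖ ≤ 25 / 10 ^ 6 * (1861 / 1000) := by
    rw [h1, norm_mul]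
    exact mul_le_mul hQ h2 (norm_nonneg _) (by norm_num)
  have hden := N44P_den ha hk hz
  have hdpos : 0 < ‖DQ a0 k0 z‖ := lt_of_lt_of_le (by norm_num) hden
  have hdne : DQ a0 k0 z ≠ 0 := norm_pos_iff.mp hdpos
  have h4 : NQ a0 k0 z / DQ a0 k0 z - PQ z / z =
      (z * NQ a0 k0 z - DQ a0 k0 z * PQ z) / (z * DQ a0 k0 z) := by
    field_simp
  have h5 : ‖NQ a0 k0 z / DQ a0 k0 z - PQ z / z‖ ≤ 125 / 10 ^ 6 := by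
    rw [h4, norm_div, norm_mul, hz, one_mul, div_le_iff₀ hdpos]
    refine (N44P_res ha hk hz).trans ?_
    norm_num at hden ⊢
    linarith
  have h6 : Qst z - PQ z / z = (Qst z - NQ a0 k0 z / DQ a0 k0 z) +
      (NQ a0 k0 z / DQ a0 k0 z - PQ z / z) := by ring
  rw [h6]
  refine (norm_add_le _ _).trans ?_
  refine (add_le_add h3 h5).trans ?_
  norm_num

end Pool.Agent.Lib.H11Q
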