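import Pool.Agent.Lib.H11Q.N02

/-! # H11Q chunk N45 (M): averaging over rotations removes the pole.

PROOF.  `wt (rot o0 t) Q z = Q(e^{it} z) e^{2it}` (`N02_rot`: `app z = e^{it} z`, `den⁴ = e^{-2it}`).  With `Q = h/z`:
`∑ l_i Q(e^{it_i}z) e^{2it_i} = (∑ l_i e^{it_i} h(e^{it_i} z))/z`.  The numerator `N(z)` is holomorphic on `ball 0 R` and `N(0) = h(0) ∑ l_i e^{it_i} = 0`, so
`H := dslope N 0` is holomorphic there (`differentiableOn_dslope`) and `H z = N z/z` for `z ≠ 0`.
On `|z| = 1`: `‖H z - ∑_i l_i e^{2it_i} P(e^{it_i}z)/(e^{it_i}z)‖ ≤ ∑ l_i ε = ε` with `P(z) = ∑_{k<10} C k z^k`, and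
`∑_i l_i e^{2it_i} P(e^{it_i}z)/(e^{it_i}z) = ∑_{k<10} C k (∑_i l_i e^{i(k+1)t_i}) z^{k-1}`, where the term `k = 0` vanishes
(`hp`); `Finset.sum_range_succ'`.  So the polynomial is the one in the statement; the difference is holomorphic on `ball 0 R`, bounded by
`ε` on the circle, so on the closed disc (`Complex.norm_le_of_forall_mem_frontier_norm_le`). -/

set_option autoImplicit false

namespace Pool.Agent.Lib.H11Q

open Complex Set MeasureTheory Metric Filter
open scoped ComplexConjugate Topology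

theorem N45_wt (t : ℝ) (Q : ℂ → ℂ) (z : ℂ) :
    wt (rot o0 t) Q z = Q (Complex.exp (t * I) * z) * Complex.exp (2 * t * I) := by
  obtain ⟨ha, hb⟩ := N02_rot t
  have hca : conj (rot o0 t).a = Complex.exp (-(((t / 2 : ℝ) : ℂ) * I)) := by
    rw [ha, ← Complex.exp_conj, map_mul, Complex.conj_ofReal, Complex.conj_I, mul_neg]
  have happ : (rot o0 t).app z = Complex.exp (t * I) * z := by
    unfold SU.app
    rw [hb, map_zero, zero_mul, zero_add, add_zero, hca, ha, Complex.exp_neg, div_inv_eq_mul, mul_right_comm,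
      ← Complex.exp_add]
    congr 2
    push_cast
    ring
  have hden : (rot o0 t).den z ^ 4 = (Complex.exp (2 * t * I))⁻¹ := by
    unfold SU.den
    rw [hb, map_zero, zero_mul, zero_add, hca, ← Complex.exp_nat_mul, ← Complex.exp_neg]
    congr 1
    push_cast
    ring
  unfold wt
  rw [happ, hden, div_inv_eq_mul]

theorem N45_avg {Q h : ℂ → ℂ} {R ε : ℝ} (hR : 1 < R) (hh : DifferentiableOn ℂ h (ball 0 R))
    (e : ∀ z : ℂ, z ≠ 0 → ‖z‖ < R → Q z = h z / z) {C : ℕ → ℝ}
    (hP : ∀ z : ℂ, ‖z‖ = 1 → ‖Q z - (∑ k ∈ Finset.range 10, (C k : ℂ) * z ^ k) / z‖ ≤ ε)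
    {n : ℕ} {l t : ℕ → ℝ} (hl : ∀ i, 0 ≤ l i) (hl1 : ∑ i ∈ Finset.range n, l i = 1)
    (hp : ∑ i ∈ Finset.range n, (l i : ℂ) * Complex.exp (t i * I) = 0) :
    ∃ H : ℂ → ℂ, DifferentiableOn ℂ H (ball 0 R) ∧
      (∀ z : ℂ, z ≠ 0 → ‖z‖ < R →
        H z = ∑ i ∈ Finset.range n, (l i : ℂ) * wt (rot o0 (t i)) Q z) ∧
      ∀ z : ℂ, ‖z‖ ≤ 1 → ‖H z - ∑ k ∈ Finset.range 9, (C (k + 1) : ℂ) *
        (∑ i ∈ Finset.range n, (l i : ℂ) * Complex.exp ((k + 2) * t i * I)) * z ^ k‖ ≤ ε := by
  have hE : ∀ i, ‖Complex.exp (t i * I)‖ = 1 := fun i => Complex.norm_exp_ofReal_mul_I (t i)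
  have hE0 : ∀ i, Complex.exp (t i * I) ≠ 0 := fun i => Complex.exp_ne_zero _
  have hE2 : ∀ i, Complex.exp (2 * t i * I) = Complex.exp (t i * I) ^ 2 := by
    intro i
    rw [← Complex.exp_nat_mul]
    congr 1
    push_cast
    ring
  have hEk : ∀ (k : ℕ) (i : ℕ), Complex.exp ((k + 2) * t i * I) = Complex.exp (t i * I) ^ (k + 2) := by
    intro k i
    rw [← Complex.exp_nat_mul]
    congr 1
    push_cast
    ring
  set N : ℂ → ℂ := fun z => ∑ i ∈ Finset.range n, (l i : ℂ) * Complex.exp (t i * I) * h (Complex.exp (t i * I) * z) with hN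
  have hNd : DifferentiableOn ℂ N (ball 0 R) := by
    rw [hN]
    refine DifferentiableOn.fun_sum fun i _ => ?_
    refine DifferentiableOn.const_mul ?_ _
    refine hh.comp ((differentiable_id.const_mul _).differentiableOn) ?_
    intro z hz
    rw [mem_ball_zero_iff] at hz ⊢
    rw [norm_mul, hE, one_mul]
    exact hz
  have hN0 : N 0 = 0 := by
    rw [hN]
    simp only [mul_zero]
    rw [← Finset.sum_mul, hp, zero_mul]
  have hHd : DifferentiableOn ℂ (dslope N 0) (ball 0 R) :=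
    (Complex.differentiableOn_dslope (ball_mem_nhds _ (by linarith))).mpr hNd
  have hH : ∀ z : ℂ, z ≠ 0 → ‖z‖ < R →
      dslope N 0 z = ∑ i ∈ Finset.range n, (l i : ℂ) * wt (rot o0 (t i)) Q z := by
    intro z hz hzR
    rw [dslope_of_ne _ hz, slope_def_field, hN0, sub_zero, sub_zero, hN, Finset.sum_div]
    refine Finset.sum_congr rfl fun i _ => ?_
    rw [N45_wt, e _ (mul_ne_zero (hE0 i) hz) (by rw [norm_mul, hE, one_mul]; exact hzR), hE2]
    have := hE0 i
    field_simp
  refine ⟨dslope N 0, hHd, hH, ?_⟩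
  intro z hz
  set f : ℂ → ℂ := fun z => dslope N 0 z - ∑ k ∈ Finset.range 9, (C (k + 1) : ℂ) *
        (∑ i ∈ Finset.range n, (l i : ℂ) * Complex.exp ((k + 2) * t i * I)) * z ^ k with hf
  have hfd : DiffContOnCl ℂ f (ball 0 1) := by
    apply DifferentiableOn.diffContOnCl
    rw [closure_ball _ one_ne_zero]
    refine DifferentiableOn.sub (hHd.mono (closedBall_subset_ball hR)) ?_
    refine DifferentiableOn.fun_sum fun k _ => ?_
    exact ((differentiable_id.pow k).const_mul _).differentiableOn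
  have hbd : ∀ z ∈ frontier (ball (0 : ℂ) 1), ‖f z‖ ≤ ε := by
    intro z hz
    rw [frontier_ball _ one_ne_zero, mem_sphere_zero_iff_norm] at hz
    have hz0 : z ≠ 0 := by
      rw [← norm_pos_iff, hz]
      exact one_pos
    have hpoly : ∑ k ∈ Finset.range 9, (C (k + 1) : ℂ) *
        (∑ i ∈ Finset.range n, (l i : ℂ) * Complex.exp ((k + 2) * t i * I)) * z ^ k =
        ∑ i ∈ Finset.range n, (l i : ℂ) * (Complex.exp (t i * I) ^ 2 *
          ((∑ k ∈ Finset.range 10, (C k : ℂ) * (Complex.exp (t i * I) * z) ^ k) / (Complex.exp (t i * I) * z))) := by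
      have h1 : ∀ i, (l i : ℂ) * (Complex.exp (t i * I) ^ 2 *
          ((∑ k ∈ Finset.range 10, (C k : ℂ) * (Complex.exp (t i * I) * z) ^ k) / (Complex.exp (t i * I) * z))) =
          (∑ k ∈ Finset.range 9, (C (k + 1) : ℂ) * ((l i : ℂ) * Complex.exp ((k + 2) * t i * I)) * z ^ k) +
            C 0 * ((l i : ℂ) * Complex.exp (t i * I)) * z⁻¹ := by
        intro i
        have h2 := hE0 i
        rw [Finset.sum_range_succ', add_div, mul_add, mul_add, Finset.sum_div, Finset.mul_sum, Finset.mul_sum]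
        congr 1
        · refine Finset.sum_congr rfl fun k _ => ?_
          rw [hEk, mul_pow, pow_succ z k]
          field_simp
          ring
        · rw [pow_zero, mul_one]
          field_simp
      rw [Finset.sum_congr rfl fun i _ => h1 i, Finset.sum_add_distrib, ← Finset.sum_mul, ← Finset.mul_sum, hp, mul_zero,
        zero_mul, add_zero, Finset.sum_comm]
      refine Finset.sum_congr rfl fun k _ => ?_
      rw [Finset.mul_sum, Finset.sum_mul]
    have hfz : f z = ∑ i ∈ Finset.range n, (l i : ℂ) * (Complex.exp (t i * I) ^ 2 * (Q (Complex.exp (t i * I) * z) -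
          (∑ k ∈ Finset.range 10, (C k : ℂ) * (Complex.exp (t i * I) * z) ^ k) / (Complex.exp (t i * I) * z))) := by
      rw [hf]
      simp only
      rw [hpoly, hH z hz0 (by rw [hz]; exact hR), ← Finset.sum_sub_distrib]
      refine Finset.sum_congr rfl fun i _ => ?_
      rw [N45_wt, hE2]
      ring
    rw [hfz]
    calc ‖∑ i ∈ Finset.range n, (l i : ℂ) * (Complex.exp (t i * I) ^ 2 * (Q (Complex.exp (t i * I) * z) -
          (∑ k ∈ Finset.range 10, (C k : ℂ) * (Complex.exp (t i * I) * z) ^ k) / (Complex.exp (t i * I) * z)))‖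
        ≤ ∑ i ∈ Finset.range n, l i * ε := by
          refine (norm_sum_le _ _).trans (Finset.sum_le_sum fun i _ => ?_)
          rw [norm_mul, norm_mul, norm_pow, hE, one_pow, one_mul, Complex.norm_real, Real.norm_eq_abs, abs_of_nonneg (hl i)]
          exact mul_le_mul_of_nonneg_left (hP _ (by rw [norm_mul, hE, hz, one_mul])) (hl i)
      _ = ε := by rw [← Finset.sum_mul, hl1, one_mul]
  exact Complex.norm_le_of_forall_mem_frontier_norm_le isBounded_ball hfd hbd (by
    rw [closure_ball _ one_ne_zero, mem_closedBall_zero_iff]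
    exact hz)

end Pool.Agent.Lib.H11Q
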