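import Pool.Agent.Lib.H11Q.N02

/-! # H11Q chunk N24 (M): explicit matrices.

`c = cos(π/7)`, `s = sin(π/7)`, `q = qq = sqrt(1-4s²)`.
* `N24_gB`: `gB = rot v0 (2π/3)`; `(1+vv²)/(1-vv²) = CC`, `2vv/(1-vv²) = sqrt(CC²-1) = q/(√3 s)` (`vv_sq`, `c² - 3s² = 1 - 4s² = q²`),
  `sin(π/3) = √3/2`, `cos(π/3) = 1/2`.
* `N24_nv`: `gl0 = rot o0 (2π/7) * TT d0 * rot o0 (-(π/2))`: `a = exp(iπ/7 - iπ/4) cosh(d0/2)`, `b = exp(iπ/7 + iπ/4) sinh(d0/2)`,
  `2 Im(a conj b) = -sinh d0`, `a² - b² = -I exp(2πi/7) cosh d0`; `sinh d0 = td/sqrt(1-td²)`, `cosh d0 = 1/sqrt(1-td²)`, `td = c q`,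
  `1 - c²q² = s²(1+4c²) = MM²`.
* `N24_linB`: from `N24_gB`, `SU.lin`. -/

set_option autoImplicit false

namespace Pool.Agent.Lib.H11Q

open Complex Set MeasureTheory Metric Filter
open scoped ComplexConjugate Topology

theorem n24_s : 0 < Real.sin (Real.pi / 7) ∧ Real.sin (Real.pi / 7) < 1 / 2 := by
  refine ⟨pi7_pos, ?_⟩
  rw [← Real.sin_pi_div_six]
  exact Real.sin_lt_sin_of_lt_of_le_pi_div_two (by linarith [Real.pi_pos])
    (by linarith [Real.pi_pos]) (by linarith [Real.pi_pos])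

theorem N24_q : qq ^ 2 = 1 - 4 * Real.sin (Real.pi / 7) ^ 2 ∧ 0 < qq := by
  obtain ⟨h0, h1⟩ := n24_s
  have h2 : 0 < 1 - 4 * Real.sin (Real.pi / 7) ^ 2 := by nlinarith
  exact ⟨Real.sq_sqrt h2.le, Real.sqrt_pos.mpr h2⟩

theorem N24_M : MM ^ 2 = 1 - Real.cos (Real.pi / 7) ^ 2 * qq ^ 2 ∧ 0 < MM := by
  obtain ⟨h0, h1⟩ := n24_s
  constructor
  · unfold MM
    rw [N24_q.1, mul_pow, Real.sq_sqrt (by positivity)]
    have := Real.sin_sq_add_cos_sq (Real.pi / 7)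
    linear_combination this
  · unfold MM
    positivity

theorem n24_CC : (1 + vv ^ 2) / (1 - vv ^ 2) = CC := by
  have h := one_lt_CC
  have hC : CC + 1 ≠ 0 := by linarith
  have h1 : 1 - vv ^ 2 = 2 / (CC + 1) := by
    rw [vv_sq]
    field_simp
    ring
  have h2 : 1 + vv ^ 2 = 2 * CC / (CC + 1) := by
    rw [vv_sq]
    field_simp
    ring
  rw [h1, h2]
  field_simp

theorem n24_vv : 2 * vv / (1 - vv ^ 2) = qq / (Real.sqrt 3 * Real.sin (Real.pi / 7)) := by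
  have h := one_lt_CC
  have hv := vv_pos
  have hv1 := vv_lt_one
  obtain ⟨hs0, hs1⟩ := n24_s
  obtain ⟨hq1, hq0⟩ := N24_q
  have hC : CC + 1 ≠ 0 := by linarith
  have h1 : 1 - vv ^ 2 = 2 / (CC + 1) := by
    rw [vv_sq]
    field_simp
    ring
  have h3 : 0 < Real.sqrt 3 := Real.sqrt_pos.mpr (by norm_num)
  have h33 : Real.sqrt 3 ^ 2 = 3 := Real.sq_sqrt (by norm_num)
  have e1 : (2 * vv / (1 - vv ^ 2)) ^ 2 = (qq / (Real.sqrt 3 * Real.sin (Real.pi / 7))) ^ 2 := by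
    have e2 : (2 * vv / (1 - vv ^ 2)) ^ 2 = CC ^ 2 - 1 := by
      rw [h1, div_pow, mul_pow, vv_sq]
      field_simp
      ring
    rw [e2, div_pow, mul_pow, hq1, h33]
    unfold CC
    rw [div_pow, mul_pow, h33]
    have h4 := Real.sin_sq_add_cos_sq (Real.pi / 7)
    have h5 : Real.cos (Real.pi / 7) ^ 2 = 1 - Real.sin (Real.pi / 7) ^ 2 := by linarith
    rw [h5]
    field_simp
    ring
  have p1 : 0 ≤ 2 * vv / (1 - vv ^ 2) := by
    apply div_nonneg (by linarith)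
    nlinarith
  have p2 : 0 ≤ qq / (Real.sqrt 3 * Real.sin (Real.pi / 7)) := by positivity
  exact (pow_left_inj₀ p1 p2 two_ne_zero).mp e1

theorem N24_gB : gB.a = 1 / 2 + I * (Real.cos (Real.pi / 7) / (2 * Real.sin (Real.pi / 7)) : ℝ) ∧
    gB.b = -I * (qq / (2 * Real.sin (Real.pi / 7)) : ℝ) := by
  obtain ⟨hs0, hs1⟩ := n24_s
  have hv := vv_pos
  have hn : ‖((v0 : Disc) : ℂ)‖ = vv := by
    show ‖(vv : ℂ)‖ = vv
    rw [Complex.norm_real, Real.norm_eq_abs, abs_of_pos hv]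
  have h3 : 0 < Real.sqrt 3 := Real.sqrt_pos.mpr (by norm_num)
  have e0 : 2 * Real.pi / 3 / 2 = Real.pi / 3 := by ring
  constructor
  · unfold gB rot
    simp only
    rw [hn, n24_CC, e0, Real.cos_pi_div_three, Real.sin_pi_div_three]
    have : Real.sqrt 3 / 2 * CC = Real.cos (Real.pi / 7) / (2 * Real.sin (Real.pi / 7)) := by
      unfold CC
      field_simp
    rw [← this]
    push_cast
    ring
  · unfold gB rot
    simp only
    rw [hn, e0, Real.sin_pi_div_three]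
    have h4 : Real.sqrt 3 / 2 * (2 * vv / (1 - vv ^ 2)) = qq / (2 * Real.sin (Real.pi / 7)) := by
      rw [n24_vv]
      field_simp
    rw [← h4]
    show -2 * I * ((Real.sqrt 3 / 2 : ℝ) : ℂ) * (vv : ℂ) / ((1 - vv ^ 2 : ℝ) : ℂ) = _
    push_cast
    ring

theorem n24_hyp : Real.sinh d0 = Real.cos (Real.pi / 7) * qq / MM ∧ Real.cosh d0 = 1 / MM := by
  obtain ⟨hM, hM0⟩ := N24_M
  have htd : td = Real.cos (Real.pi / 7) * qq := rfl
  have h1 : 1 - td ^ 2 = MM ^ 2 := by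
    rw [htd, hM]
    ring
  have h2 : Real.sqrt (1 - td ^ 2) = MM := by
    rw [h1, Real.sqrt_sq hM0.le]
  have h3 : Real.sinh d0 = Real.cos (Real.pi / 7) * qq / MM := by
    unfold d0
    rw [Real.sinh_arsinh, h2, htd]
  refine ⟨h3, ?_⟩
  have h4 : Real.cosh d0 ^ 2 = (1 / MM) ^ 2 := by
    rw [Real.cosh_sq, h3]
    field_simp
    rw [hM]
    ring
  exact (pow_left_inj₀ (Real.cosh_pos _).le (by positivity) two_ne_zero).mp h4

theorem N24_nv : nv gl0 = (-(Real.cos (Real.pi / 7) * qq / MM),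
    -(Complex.exp (((2 * Real.pi / 7 : ℝ) : ℂ) * I) / (MM : ℂ))) := by
  obtain ⟨hsh, hch⟩ := n24_hyp
  obtain ⟨hM, hM0⟩ := N24_M
  obtain ⟨r1a, r1b⟩ := N02_rot (2 * Real.pi / 7)
  obtain ⟨r2a, r2b⟩ := N02_rot (-(Real.pi / 2))
  obtain ⟨C, hC⟩ : ∃ C : ℝ, C = Real.cosh (d0 / 2) := ⟨_, rfl⟩
  obtain ⟨S, hS⟩ : ∃ S : ℝ, S = Real.sinh (d0 / 2) := ⟨_, rfl⟩
  have hd : d0 = 2 * (d0 / 2) := by ring
  have hCS1 : 2 * S * C = Real.sinh d0 := by
    conv_rhs => rw [hd, Real.sinh_two_mul]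
    rw [hC, hS]
  have hCS2 : C ^ 2 + S ^ 2 = Real.cosh d0 := by
    conv_rhs => rw [hd, Real.cosh_two_mul]
    rw [hC, hS]
  obtain ⟨E, hE⟩ : ∃ E : ℂ, E = Complex.exp (((2 * Real.pi / 7 / 2 : ℝ) : ℂ) * I) := ⟨_, rfl⟩
  obtain ⟨G, hG⟩ : ∃ G : ℂ, G = Complex.exp (((-(Real.pi / 2) / 2 : ℝ) : ℂ) * I) := ⟨_, rfl⟩
  have hcE : E * conj E = 1 := by
    rw [hE, ← Complex.exp_conj, ← Complex.exp_add, map_mul, conj_ofReal, conj_I]
    rw [show (((2 * Real.pi / 7 / 2 : ℝ) : ℂ) * I + ((2 * Real.pi / 7 / 2 : ℝ) : ℂ) * -I) = 0 by ring,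
      Complex.exp_zero]
  have hG2 : G ^ 2 = -I := by
    rw [hG, ← Complex.exp_nat_mul]
    rw [show ((2 : ℕ) : ℂ) * (((-(Real.pi / 2) / 2 : ℝ) : ℂ) * I) = -(Real.pi / 2 * I) by
      push_cast; ring, Complex.exp_neg, Complex.exp_pi_div_two_mul_I, Complex.inv_I]
  have hcG : conj G ^ 2 = I := by
    rw [← map_pow, hG2, map_neg, conj_I, neg_neg]
  have hE2 : E ^ 2 = Complex.exp (((2 * Real.pi / 7 : ℝ) : ℂ) * I) := by
    rw [hE, ← Complex.exp_nat_mul]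
    congr 1
    push_cast
    ring
  have ha : gl0.a = E * C * G := by
    show ((rot o0 (2 * Real.pi / 7) * TT d0) * rot o0 (-(Real.pi / 2))).a = _
    rw [SU.mul_a, SU.mul_a, SU.mul_b, r1a, r1b, r2a, r2b, ← hE, ← hG]
    show (E * ((Real.cosh (d0 / 2) : ℝ) : ℂ) + 0 * _) * G + _ * conj (0 : ℂ) = _
    rw [← hC, map_zero]
    ring
  have hb : gl0.b = E * S * conj G := by
    show ((rot o0 (2 * Real.pi / 7) * TT d0) * rot o0 (-(Real.pi / 2))).b = _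
    rw [SU.mul_b, SU.mul_a, SU.mul_b, r1a, r1b, r2a, r2b, ← hE, ← hG]
    show _ * 0 + (E * ((Real.sinh (d0 / 2) : ℝ) : ℂ) + 0 * _) * conj G = _
    rw [← hS]
    ring
  unfold nv
  apply Prod.ext
  · show 2 * (gl0.a * conj gl0.b).im = _
    have h1 : gl0.a * conj gl0.b = ((-(C * S) : ℝ) : ℂ) * I := by
      rw [ha, hb, map_mul, map_mul, conj_conj, conj_ofReal]
      rw [show E * (C : ℂ) * G * (conj E * (S : ℂ) * G) = (E * conj E) * ((C : ℂ) * S) * G ^ 2 by ring,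
        hcE, hG2]
      push_cast
      ring
    rw [h1, im_ofReal_mul, I_im]
    rw [← hsh, ← hCS1]
    ring
  · show -I * (gl0.a ^ 2 - gl0.b ^ 2) = _
    rw [ha, hb]
    have h2 : ((C ^ 2 + S ^ 2 : ℝ) : ℂ) = ((1 / MM : ℝ) : ℂ) := by rw [hCS2, hch]
    push_cast at h2
    rw [show (E * (C : ℂ) * G) ^ 2 - (E * (S : ℂ) * conj G) ^ 2 =
      E ^ 2 * ((C : ℂ) ^ 2 * G ^ 2 - (S : ℂ) ^ 2 * conj G ^ 2) by ring, hG2, hcG, hE2]
    rw [show -I * (Complex.exp (((2 * Real.pi / 7 : ℝ) : ℂ) * I) *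
      ((C : ℂ) ^ 2 * -I - (S : ℂ) ^ 2 * I)) = I ^ 2 * (Complex.exp (((2 * Real.pi / 7 : ℝ) : ℂ) * I) *
        ((C : ℂ) ^ 2 + (S : ℂ) ^ 2)) by ring, h2, Complex.I_sq]
    ring

/-- The three real components of `gB.lin x`. -/
theorem N24_linB (x : Mk) (c s q : ℝ) (hc : c = Real.cos (Real.pi / 7))
    (hs : s = Real.sin (Real.pi / 7)) (hq : q = qq) :
    (gB.lin x).1 = (1 - 2 * s ^ 2) / (2 * s ^ 2) * x.1 - c * q / (2 * s ^ 2) * x.2.re -
      q / (2 * s) * x.2.im ∧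
    (gB.lin x).2.re = c * q / (2 * s ^ 2) * x.1 +
      (1 / 4 - c ^ 2 / (4 * s ^ 2) - q ^ 2 / (4 * s ^ 2)) * x.2.re - c / (2 * s) * x.2.im ∧
    (gB.lin x).2.im = -(q / (2 * s)) * x.1 + c / (2 * s) * x.2.re +
      (1 / 4 - c ^ 2 / (4 * s ^ 2) + q ^ 2 / (4 * s ^ 2)) * x.2.im := by
  obtain ⟨ha, hb⟩ := N24_gB
  rw [← hc, ← hs] at ha
  rw [← hq, ← hs] at hb
  have hs0 : 0 < s := by
    rw [hs]
    exact n24_s.1
  have hq2 : q ^ 2 = 1 - 4 * s ^ 2 := by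
    rw [hq, hs]
    exact N24_q.1
  have hcs : c ^ 2 = 1 - s ^ 2 := by
    rw [hc, hs]
    linarith [Real.sin_sq_add_cos_sq (Real.pi / 7)]
  have har : gB.a.re = 1 / 2 := by
    rw [ha, add_re, re_mul_ofReal, I_re, zero_mul, add_zero]
    norm_num
  have hai : gB.a.im = c / (2 * s) := by
    rw [ha, add_im, im_mul_ofReal, I_im, one_mul]
    norm_num
  have hbr : gB.b.re = 0 := by
    rw [hb, re_mul_ofReal, neg_re, I_re]
    simp
  have hbi : gB.b.im = -(q / (2 * s)) := by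
    rw [hb, im_mul_ofReal, neg_im, I_im]
    ring
  have hs2 : s ^ 2 ≠ 0 := pow_ne_zero 2 hs0.ne'
  refine ⟨?_, ?_, ?_⟩
  · show (normSq gB.a + normSq gB.b) * x.1 + 2 * (gB.a * conj gB.b * x.2).re = _
    simp only [normSq_apply, mul_re, mul_im, conj_re, conj_im, har, hai, hbr, hbi]
    have e1 : 1 / 2 * (1 / 2) + c / (2 * s) * (c / (2 * s)) + (0 * 0 + -(q / (2 * s)) * -(q / (2 * s))) =
        (1 - 2 * s ^ 2) / (2 * s ^ 2) := by
      have : c / (2 * s) * (c / (2 * s)) = c ^ 2 / (4 * s ^ 2) := by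
        field_simp
        ring
      rw [this, hcs]
      have : -(q / (2 * s)) * -(q / (2 * s)) = q ^ 2 / (4 * s ^ 2) := by
        field_simp
        ring
      rw [this, hq2]
      field_simp
      ring
    rw [e1]
    field_simp
    ring
  · show (2 * gB.a * gB.b * (x.1 : ℂ) + gB.a ^ 2 * x.2 + gB.b ^ 2 * conj x.2).re = _
    simp only [pow_two, add_re, mul_re, mul_im, conj_re, conj_im, ofReal_re, ofReal_im, re_ofNat,
      im_ofNat, har, hai, hbr, hbi]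
    field_simp
    ring
  · show (2 * gB.a * gB.b * (x.1 : ℂ) + gB.a ^ 2 * x.2 + gB.b ^ 2 * conj x.2).im = _
    simp only [pow_two, add_im, mul_re, mul_im, conj_re, conj_im, ofReal_re, ofReal_im, re_ofNat,
      im_ofNat, har, hai, hbr, hbi]
    field_simp
    ring

end Pool.Agent.Lib.H11Q
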