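import Pool.Agent.Lib.H11Q.E18
import Pool.Agent.Lib.H11Q.N24

/-! # H11Q chunk N50 (M): decimals.

PROOFS.  `l = 2 cos(π/7)` is a root of `l³ - l² - 2l + 1` (`E18_root`) in `(1.8019377, 1.8019378)` (`E18_cos`), where the cubic is
increasing; evaluate it at `1.80193773580483`, `1.80193773580484` by `norm_num` (get `c` and `s` to about 13 digits first, as auxiliary lemmas).  `s² = 1 - c²`, `cos(2π/7) = 2c² - 1`, `sin(2π/7) = 2sc`,
`cos(3π/7) = 4c³ - 3c`, `sin(3π/7) = 3s - 4s³`, `qq² = 1 - 4s²` (`N24_q`), `MM² = 1 - c² qq²` (`N24_M`), `CC = c/(√3 s)`: for each, bounds from the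
bounds of the previous ones (`abs_le`, `Real.sqrt_lt'`, `nlinarith`; for square roots compare squares).
Values: `c = 0.90096886790242`, `s = 0.43388373911756`, `cos(2π/7) = 0.62348980185873`, `sin(2π/7) = 0.78183148246803`,
`cos(3π/7) = 0.22252093395631`, `sin(3π/7) = 0.97492791218182`, `qq = 0.49697042539518`, `MM = 0.89415634317987`, `√3 = 1.73205080756888`,
`CC = 1.19888018728906`, `qq/(√3 s) = 0.66129698583484`, `vv = 0.30074261874638`. -/

set_option autoImplicit false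

namespace Pool.Agent.Lib.H11Q

theorem n50_l : (180193773580483 / 10 ^ 14 : ℝ) < 2 * Real.cos (Real.pi / 7) ∧
    2 * Real.cos (Real.pi / 7) < 180193773580484 / 10 ^ 14 := by
  have hr := E18_root
  have hl := e18_lower
  set l := 2 * Real.cos (Real.pi / 7) with hldef
  have hfac : ∀ y : ℝ, (l - y) * (l ^ 2 + l * y + y ^ 2 - l - y - 2) =
      -(y ^ 3 - y ^ 2 - 2 * y + 1) := by
    intro y
    linear_combination hr
  have hq : ∀ y : ℝ, 16 / 10 < y → 0 < l ^ 2 + l * y + y ^ 2 - l - y - 2 := by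
    intro y hy
    nlinarith
  constructor
  · by_contra h
    push Not at h
    have h1 := hfac (180193773580483 / 10 ^ 14)
    have h2 := hq (180193773580483 / 10 ^ 14) (by norm_num)
    have h3 : (l - 180193773580483 / 10 ^ 14) *
        (l ^ 2 + l * (180193773580483 / 10 ^ 14) + (180193773580483 / 10 ^ 14) ^ 2 - l -
          180193773580483 / 10 ^ 14 - 2) ≤ 0 :=
      mul_nonpos_of_nonpos_of_nonneg (by linarith) h2.le
    rw [h1] at h3
    norm_num at h3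
  · by_contra h
    push Not at h
    have h1 := hfac (180193773580484 / 10 ^ 14)
    have h2 := hq (180193773580484 / 10 ^ 14) (by norm_num)
    have h3 : 0 ≤ (l - 180193773580484 / 10 ^ 14) *
        (l ^ 2 + l * (180193773580484 / 10 ^ 14) + (180193773580484 / 10 ^ 14) ^ 2 - l -
          180193773580484 / 10 ^ 14 - 2) :=
      mul_nonneg (by linarith) h2.le
    rw [h1] at h3
    norm_num at h3

theorem n50_lo {x E L : ℝ} (hx : x ^ 2 = E) (hL : L ^ 2 < E) (h0 : 0 < x) : L < x :=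
  lt_of_pow_lt_pow_left₀ 2 h0.le (by rw [hx]; exact hL)

theorem n50_hi {x E U : ℝ} (hx : x ^ 2 = E) (hU : E < U ^ 2) (h0 : 0 ≤ U) : x < U :=
  lt_of_pow_lt_pow_left₀ 2 h0 (by rw [hx]; exact hU)

theorem n50_cc : (90096886790241 / 10 ^ 14 : ℝ) < Real.cos (Real.pi / 7) ∧
    Real.cos (Real.pi / 7) < 90096886790242 / 10 ^ 14 := by
  obtain ⟨h1, h2⟩ := n50_l
  constructor <;> linarith

/-- The square of the cosine. -/
theorem n50_csq : (81174490092935 / 10 ^ 14 : ℝ) < Real.cos (Real.pi / 7) ^ 2 ∧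
    Real.cos (Real.pi / 7) ^ 2 < 81174490092938 / 10 ^ 14 := by
  obtain ⟨h1, h2⟩ := n50_cc
  have h3 : (90096886790241 / 10 ^ 14 : ℝ) ^ 2 < Real.cos (Real.pi / 7) ^ 2 := by gcongr
  have h4 : Real.cos (Real.pi / 7) ^ 2 < (90096886790242 / 10 ^ 14 : ℝ) ^ 2 := by
    have : 0 ≤ Real.cos (Real.pi / 7) := by linarith
    gcongr
  norm_num at h3 h4 ⊢
  constructor <;> linarith

theorem n50_ss : (43388373911754 / 10 ^ 14 : ℝ) < Real.sin (Real.pi / 7) ∧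
    Real.sin (Real.pi / 7) < 43388373911758 / 10 ^ 14 := by
  obtain ⟨h1, h2⟩ := n50_csq
  have h3 : Real.sin (Real.pi / 7) ^ 2 = 1 - Real.cos (Real.pi / 7) ^ 2 := Real.sin_sq _
  refine ⟨n50_lo h3 ?_ e18_sin_pos, n50_hi h3 ?_ (by norm_num)⟩
  · norm_num at h2 ⊢
    linarith
  · norm_num at h1 ⊢
    linarith

theorem N50_c : |Real.cos (Real.pi / 7) - 90096886790 / 10 ^ 11| ≤ 1 / 10 ^ 10 := by
  obtain ⟨h1, h2⟩ := n50_cc
  rw [abs_le]
  constructor <;> linarith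

theorem N50_s : |Real.sin (Real.pi / 7) - 43388373912 / 10 ^ 11| ≤ 2 / 10 ^ 10 := by
  obtain ⟨h1, h2⟩ := n50_ss
  rw [abs_le]
  constructor <;> linarith

theorem N50_c2 : |Real.cos (2 * Real.pi / 7) - 62348980186 / 10 ^ 11| ≤ 5 / 10 ^ 10 := by
  obtain ⟨h1, h2⟩ := n50_csq
  have h3 : 2 * Real.pi / 7 = 2 * (Real.pi / 7) := by ring
  rw [h3, Real.cos_two_mul, abs_le]
  constructor <;> linarith

theorem N50_s2 : |Real.sin (2 * Real.pi / 7) - 78183148247 / 10 ^ 11| ≤ 10 / 10 ^ 10 := by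
  obtain ⟨h1, h2⟩ := n50_cc
  obtain ⟨h3, h4⟩ := n50_ss
  have h5 : 2 * Real.pi / 7 = 2 * (Real.pi / 7) := by ring
  rw [h5, Real.sin_two_mul, abs_le]
  set c := Real.cos (Real.pi / 7)
  set s := Real.sin (Real.pi / 7)
  have h6 : (43388373911754 / 10 ^ 14 : ℝ) * (90096886790241 / 10 ^ 14) < s * c := by gcongr
  have h7 : s * c < (43388373911758 / 10 ^ 14 : ℝ) * (90096886790242 / 10 ^ 14) := by
    have hs : 0 ≤ s := by linarith
    have hc : 0 ≤ c := by linarith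
    gcongr
  norm_num at h6 h7 ⊢
  constructor <;> linarith

/-- The cube of the cosine. -/
theorem n50_ccu : (73135688441586 / 10 ^ 14 : ℝ) < Real.cos (Real.pi / 7) ^ 3 ∧
    Real.cos (Real.pi / 7) ^ 3 < 73135688441592 / 10 ^ 14 := by
  obtain ⟨h1, h2⟩ := n50_cc
  have h3 : (90096886790241 / 10 ^ 14 : ℝ) ^ 3 < Real.cos (Real.pi / 7) ^ 3 := by gcongr
  have h4 : Real.cos (Real.pi / 7) ^ 3 < (90096886790242 / 10 ^ 14 : ℝ) ^ 3 := by
    have : 0 ≤ Real.cos (Real.pi / 7) := by linarith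
    gcongr
  norm_num at h3 h4 ⊢
  constructor <;> linarith

/-- The cube of the sine. -/
theorem n50_scu : (8168082629268 / 10 ^ 14 : ℝ) < Real.sin (Real.pi / 7) ^ 3 ∧
    Real.sin (Real.pi / 7) ^ 3 < 8168082629276 / 10 ^ 14 := by
  obtain ⟨h1, h2⟩ := n50_ss
  have h3 : (43388373911754 / 10 ^ 14 : ℝ) ^ 3 < Real.sin (Real.pi / 7) ^ 3 := by gcongr
  have h4 : Real.sin (Real.pi / 7) ^ 3 < (43388373911758 / 10 ^ 14 : ℝ) ^ 3 := by
    have : 0 ≤ Real.sin (Real.pi / 7) := by linarith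
    gcongr
  norm_num at h3 h4 ⊢
  constructor <;> linarith

theorem N50_c3 : |Real.cos (3 * Real.pi / 7) - 22252093396 / 10 ^ 11| ≤ 10 / 10 ^ 10 := by
  obtain ⟨h1, h2⟩ := n50_cc
  obtain ⟨h3, h4⟩ := n50_ccu
  have h5 : 3 * Real.pi / 7 = 3 * (Real.pi / 7) := by ring
  rw [h5, Real.cos_three_mul, abs_le]
  constructor <;> linarith

theorem N50_s3 : |Real.sin (3 * Real.pi / 7) - 97492791218 / 10 ^ 11| ≤ 10 / 10 ^ 10 := by
  obtain ⟨h1, h2⟩ := n50_ss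
  obtain ⟨h3, h4⟩ := n50_scu
  have h5 : 3 * Real.pi / 7 = 3 * (Real.pi / 7) := by ring
  rw [h5, Real.sin_three_mul, abs_le]
  constructor <;> linarith

theorem n50_q2 : qq ^ 2 = 4 * Real.cos (Real.pi / 7) ^ 2 - 3 := by
  rw [N24_q.1, Real.sin_sq]
  ring

theorem n50_qq : (4969704253951 / 10 ^ 13 : ℝ) < qq ∧ qq < 4969704253953 / 10 ^ 13 := by
  obtain ⟨h1, h2⟩ := n50_csq
  refine ⟨n50_lo n50_q2 ?_ N24_q.2, n50_hi n50_q2 ?_ (by norm_num)⟩
  · norm_num at h1 ⊢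
    linarith
  · norm_num at h2 ⊢
    linarith

theorem N50_q : |qq - 49697042540 / 10 ^ 11| ≤ 10 / 10 ^ 10 := by
  obtain ⟨h1, h2⟩ := n50_qq
  rw [abs_le]
  constructor <;> linarith

theorem N50_M : |MM - 89415634318 / 10 ^ 11| ≤ 20 / 10 ^ 10 := by
  obtain ⟨h1, h2⟩ := n50_csq
  have h3 : MM ^ 2 = 1 + 3 * Real.cos (Real.pi / 7) ^ 2 - 4 * (Real.cos (Real.pi / 7) ^ 2) ^ 2 := by
    rw [N24_M.1, n50_q2]
    ring
  set x := Real.cos (Real.pi / 7) ^ 2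
  have hx0 : 0 ≤ x := by linarith
  have h4 : (81174490092935 / 10 ^ 14 : ℝ) ^ 2 < x ^ 2 := by gcongr
  have h5 : x ^ 2 < (81174490092938 / 10 ^ 14 : ℝ) ^ 2 := by gcongr
  have h6 : (89415634218 / 10 ^ 11 : ℝ) < MM := by
    refine n50_lo h3 ?_ N24_M.2
    norm_num at h1 h5 ⊢
    linarith
  have h7 : MM < (89415634418 / 10 ^ 11 : ℝ) := by
    refine n50_hi h3 ?_ (by norm_num)
    norm_num at h2 h4 ⊢
    linarith
  rw [abs_le]
  constructor <;> linarith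

/-- The square of `CC`. -/
theorem n50_CC2 : CC ^ 2 = Real.cos (Real.pi / 7) ^ 2 / (3 * (1 - Real.cos (Real.pi / 7) ^ 2)) := by
  have h3 := e18_CC_sq
  obtain ⟨h1, h2⟩ := n50_csq
  have h4 : (0 : ℝ) < 3 * (1 - Real.cos (Real.pi / 7) ^ 2) := by linarith
  rw [eq_div_iff h4.ne']
  linear_combination h3 / 4

theorem n50_CCb : (11988801872 / 10 ^ 10 : ℝ) < CC ∧ CC < 11988801874 / 10 ^ 10 := by
  obtain ⟨h1, h2⟩ := n50_csq
  set x := Real.cos (Real.pi / 7) ^ 2 with hx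
  have h4 : (0 : ℝ) < 3 * (1 - x) := by linarith
  refine ⟨n50_lo n50_CC2 ?_ e18_CC_pos, n50_hi n50_CC2 ?_ (by norm_num)⟩
  · rw [← hx, lt_div_iff₀ h4]
    norm_num at h1 ⊢
    linarith
  · rw [← hx, div_lt_iff₀ h4]
    norm_num at h2 ⊢
    linarith

theorem N50_CC : |CC - 119888018729 / 10 ^ 11| ≤ 20 / 10 ^ 10 := by
  obtain ⟨h1, h2⟩ := n50_CCb
  rw [abs_le]
  constructor <;> linarith

theorem N50_SS : |qq / (Real.sqrt 3 * Real.sin (Real.pi / 7)) - 66129698583 / 10 ^ 11| ≤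
    40 / 10 ^ 10 := by
  obtain ⟨h1, h2⟩ := n50_csq
  have hs := e18_sin_pos
  have h5 : Real.sqrt 3 ^ 2 = 3 := Real.sq_sqrt (by norm_num)
  have h6 : 0 < Real.sqrt 3 := Real.sqrt_pos.mpr (by norm_num)
  have h3 : (qq / (Real.sqrt 3 * Real.sin (Real.pi / 7))) ^ 2 =
      (4 * Real.cos (Real.pi / 7) ^ 2 - 3) / (3 * (1 - Real.cos (Real.pi / 7) ^ 2)) := by
    rw [div_pow, mul_pow, n50_q2, h5, Real.sin_sq]
  have hpos : 0 < qq / (Real.sqrt 3 * Real.sin (Real.pi / 7)) := by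
    have := N24_q.2
    positivity
  set x := Real.cos (Real.pi / 7) ^ 2 with hx
  have h4 : (0 : ℝ) < 3 * (1 - x) := by linarith
  have h7 : (66129698183 / 10 ^ 11 : ℝ) < qq / (Real.sqrt 3 * Real.sin (Real.pi / 7)) := by
    refine n50_lo h3 ?_ hpos
    rw [lt_div_iff₀ h4]
    norm_num at h1 ⊢
    linarith
  have h8 : qq / (Real.sqrt 3 * Real.sin (Real.pi / 7)) < (66129698983 / 10 ^ 11 : ℝ) := by
    refine n50_hi h3 ?_ (by norm_num)
    rw [div_lt_iff₀ h4]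
    norm_num at h2 ⊢
    linarith
  rw [abs_le]
  constructor <;> linarith

theorem n50_vv : (30074261 / 10 ^ 8 : ℝ) < vv ∧ vv < 30074262 / 10 ^ 8 := by
  obtain ⟨h1, h2⟩ := n50_CCb
  have h4 : (0 : ℝ) < CC + 1 := by linarith
  refine ⟨n50_lo vv_sq ?_ vv_pos, n50_hi vv_sq ?_ (by norm_num)⟩
  · rw [lt_div_iff₀ h4]
    norm_num at h1 ⊢
    linarith
  · rw [div_lt_iff₀ h4]
    norm_num at h2 ⊢
    linarith

theorem N50_fac : ((1 + vv) / (1 - vv)) ^ 2 ≤ 34603 / 10 ^ 4 := by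
  obtain ⟨h1, h2⟩ := n50_vv
  have h3 : (0 : ℝ) < 1 - vv := by linarith
  have h4 : (1 + vv) / (1 - vv) ≤ 1860186 / 10 ^ 6 := by
    rw [div_le_iff₀ h3]
    linarith
  have h5 : 0 ≤ (1 + vv) / (1 - vv) := by
    have : 0 ≤ 1 + vv := by linarith
    positivity
  calc ((1 + vv) / (1 - vv)) ^ 2 ≤ (1860186 / 10 ^ 6) ^ 2 := by gcongr
    _ ≤ 34603 / 10 ^ 4 := by norm_num

theorem N50_rr : 81996 / 10 ^ 6 ≤ rr := by
  obtain ⟨h1, h2⟩ := n50_csq
  unfold rr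
  rw [n50_q2, Real.sin_sq]
  set x := Real.cos (Real.pi / 7) ^ 2 with hx
  have h4 : (0 : ℝ) < 16 * (1 - x) := by linarith
  rw [le_div_iff₀ h4]
  norm_num at h1 ⊢
  linarith

theorem N50_Dm : Real.exp Dm ≤ 163558 / 10 ^ 5 := by
  obtain ⟨h1, h2⟩ := n50_qq
  unfold Dm
  rw [mul_comm, Real.exp_mul, Real.exp_arsinh]
  have h3 : (0 : ℝ) ≤ 1 + (qq / 2) ^ 2 := by positivity
  have h4 : Real.sqrt (1 + (qq / 2) ^ 2) ≤ 10304114 / 10 ^ 7 := by
    rw [Real.sqrt_le_left (by norm_num)]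
    have : qq ^ 2 ≤ (4969704253953 / 10 ^ 13) ^ 2 := by
      have h0 : 0 ≤ qq := by linarith
      gcongr
    norm_num at this ⊢
    linarith
  have h5 : 0 ≤ Real.sqrt (1 + (qq / 2) ^ 2) := Real.sqrt_nonneg _
  have h6 : qq / 2 + Real.sqrt (1 + (qq / 2) ^ 2) ≤ 127889662 / 10 ^ 8 := by
    norm_num at h2 h4 ⊢
    linarith
  have h7 : 0 ≤ qq / 2 + Real.sqrt (1 + (qq / 2) ^ 2) := by
    have h0 : 0 ≤ qq := by linarith
    positivity
  calc (qq / 2 + Real.sqrt (1 + (qq / 2) ^ 2)) ^ (2 : ℝ) =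
      (qq / 2 + Real.sqrt (1 + (qq / 2) ^ 2)) ^ 2 := by norm_cast
    _ ≤ (127889662 / 10 ^ 8) ^ 2 := by gcongr
    _ ≤ 163558 / 10 ^ 5 := by norm_num

end Pool.Agent.Lib.H11Q
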