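import Pool.Agent.Lib.H11Q.N41
import Pool.Agent.Lib.H11Q.N43
import Pool.Agent.Lib.H11Q.N45
import Pool.Agent.Lib.H11Q.N50

/-! # H11Q chunk N46 (M): the averaged differential `HX`.

`c = cos(π/7)`, `ω = exp(-2πi/7)`, `lam 2 = c/(1+c)`, `lam 5 = lam 6 = 1/(2(1+c))`, the others `0`; `t_s = -(2πs/7)`.
`Λ_k := ∑_s lam s exp(i(k+2)t_s) = lam_2 ω^{2(k+2)} + lam_5 (ω^{5(k+2)} + ω^{6(k+2)})`.  With `ω^7 = 1`, `ω^{7/2} = -1`:
`k = -1`: `0` (the hypothesis `hp`), `Λ_0 = α ω⁴`, `Λ_1 = β ω⁶`, `Λ_2 = β ω`, `Λ_3 = α ω³`, `Λ_4 = 0`, `Λ_5 = 1`, `Λ_6 = 0`, `Λ_7 = Λ_0`, `Λ_8 = Λ_1`,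
`α = (c + cos(2π/7))/(1+c) = 0.80193774`, `β = (c - cos(3π/7))/(1+c) = 0.35689587` (the pole condition: `cos(2π·..)`: with
`lam_2 : lam_5 = 2c : 1` and `ω⁵ + ω⁶ = -2c ω²`).  For the real and imaginary parts: `N50` decimals (`ω⁴ = exp(-8πi/7) = exp(6πi/7)
= -c + I s`, `ω⁶ = exp(2πi/7) = c2 + I s2`, `ω = c2 - I s2`, `ω³ = exp(-6πi/7) = -c - I s`).
`N46_X`: `N45_avg` with `Q = Qst`, `h` of `N41_h`, `C = CQ`, `ε = 18/10^5` (`N43_Qst`); the sum over `k < 9` differs from `PX` by: rounding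
`≤ 10⁻⁶`, `k = 5`: `0.000446639`, `k = 7`: `0.000043172·0.80194`, `k = 8`: `0.000013316·0.3569`.  Total
`≤ 18·10⁻⁵ + 10⁻⁶ + 44.67·10⁻⁵ + 3.47·10⁻⁵ + 0.48·10⁻⁵ ≤ 68·10⁻⁵`. -/

set_option autoImplicit false

namespace Pool.Agent.Lib.H11Q

open Complex Set MeasureTheory Metric Filter
open scoped ComplexConjugate Topology

noncomputable def n46_w : ℂ := Complex.exp (-(2 * Real.pi / 7) * I)

theorem n46_w7 : n46_w ^ 7 = 1 := by
  rw [n46_w, ← Complex.exp_nat_mul]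
  have h : ((7 : ℕ) : ℂ) * (-(2 * Real.pi / 7) * I) = -(2 * Real.pi * I) := by push_cast; ring
  rw [h, Complex.exp_neg, Complex.exp_two_pi_mul_I, inv_one]

theorem n46_pow (m : ℕ) : n46_w ^ m =
    ((Real.cos (2 * m * Real.pi / 7) : ℝ) : ℂ) - ((Real.sin (2 * m * Real.pi / 7) : ℝ) : ℂ) * I := by
  rw [n46_w, ← Complex.exp_nat_mul]
  have h : (m : ℂ) * (-(2 * Real.pi / 7) * I) = ((-(2 * m * Real.pi / 7) : ℝ) : ℂ) * I := by
    push_cast; ring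
  rw [h, Complex.exp_mul_I, ← Complex.ofReal_cos, ← Complex.ofReal_sin, Real.cos_neg, Real.sin_neg]
  push_cast
  ring

theorem n46_w1 : n46_w = ((Real.cos (2 * Real.pi / 7) : ℝ) : ℂ) -
    ((Real.sin (2 * Real.pi / 7) : ℝ) : ℂ) * I := by
  have h := n46_pow 1
  rw [pow_one] at h
  rw [h]
  norm_num

theorem n46_w6 : n46_w ^ 6 = ((Real.cos (2 * Real.pi / 7) : ℝ) : ℂ) +
    ((Real.sin (2 * Real.pi / 7) : ℝ) : ℂ) * I := by
  rw [n46_pow 6]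
  have h : (2 * ((6 : ℕ) : ℝ) * Real.pi / 7) = 2 * Real.pi - 2 * Real.pi / 7 := by
    push_cast; ring
  rw [h, Real.cos_two_pi_sub, Real.sin_two_pi_sub]
  push_cast
  ring

theorem n46_w3 : n46_w ^ 3 = -((Real.cos (Real.pi / 7) : ℝ) : ℂ) -
    ((Real.sin (Real.pi / 7) : ℝ) : ℂ) * I := by
  rw [n46_pow 3]
  have h : (2 * ((3 : ℕ) : ℝ) * Real.pi / 7) = Real.pi - Real.pi / 7 := by
    push_cast; ring
  rw [h, Real.cos_pi_sub, Real.sin_pi_sub]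
  push_cast
  ring

theorem n46_w4 : n46_w ^ 4 = -((Real.cos (Real.pi / 7) : ℝ) : ℂ) +
    ((Real.sin (Real.pi / 7) : ℝ) : ℂ) * I := by
  rw [n46_pow 4]
  have h : (2 * ((4 : ℕ) : ℝ) * Real.pi / 7) = Real.pi / 7 + Real.pi := by
    push_cast; ring
  rw [h, Real.cos_add_pi, Real.sin_add_pi]
  push_cast
  ring

theorem n46_w2 : n46_w ^ 2 = -((Real.cos (3 * Real.pi / 7) : ℝ) : ℂ) -
    ((Real.sin (3 * Real.pi / 7) : ℝ) : ℂ) * I := by
  rw [n46_pow 2]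
  have h : (2 * ((2 : ℕ) : ℝ) * Real.pi / 7) = Real.pi - 3 * Real.pi / 7 := by
    push_cast; ring
  rw [h, Real.cos_pi_sub, Real.sin_pi_sub]
  push_cast
  ring

theorem n46_w5 : n46_w ^ 5 = -((Real.cos (3 * Real.pi / 7) : ℝ) : ℂ) +
    ((Real.sin (3 * Real.pi / 7) : ℝ) : ℂ) * I := by
  rw [n46_pow 5]
  have h : (2 * ((5 : ℕ) : ℝ) * Real.pi / 7) = 3 * Real.pi / 7 + Real.pi := by
    push_cast; ring
  rw [h, Real.cos_add_pi, Real.sin_add_pi]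
  push_cast
  ring

theorem n46_c : (2 : ℂ) * ((Real.cos (Real.pi / 7) : ℝ) : ℂ) = -(n46_w ^ 3 + n46_w ^ 4) := by
  rw [n46_w3, n46_w4]; ring

theorem n46_c2 : (2 : ℂ) * ((Real.cos (2 * Real.pi / 7) : ℝ) : ℂ) = n46_w + n46_w ^ 6 := by
  rw [n46_w6]; nth_rewrite 1 [n46_w1]; ring

theorem n46_c3 : (2 : ℂ) * ((Real.cos (3 * Real.pi / 7) : ℝ) : ℂ) = -(n46_w ^ 2 + n46_w ^ 5) := by
  rw [n46_w2, n46_w5]; ring

theorem n46_cb : 9009 / 10 ^ 4 ≤ Real.cos (Real.pi / 7) := by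
  have h := N50_c
  rw [abs_le] at h
  norm_num at h ⊢
  linarith [h.1]

theorem n46_ne : (1 + ((Real.cos (Real.pi / 7) : ℝ) : ℂ)) ≠ 0 := by
  have h := n46_cb
  rw [← Complex.ofReal_one, ← Complex.ofReal_add]
  norm_cast
  have : (0 : ℝ) < 1 + Real.cos (Real.pi / 7) := by norm_num at h; linarith
  exact this.ne'

/-- the averages -/
noncomputable def n46_L (m : ℕ) : ℂ := ∑ s ∈ Finset.range 7, (lam s : ℂ) * n46_w ^ (m * s)

theorem n46_lam2 : lam 2 = Real.cos (Real.pi / 7) / (1 + Real.cos (Real.pi / 7)) := by simp [lam]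
theorem n46_lam5 : lam 5 = 1 / (2 * (1 + Real.cos (Real.pi / 7))) := by simp [lam]
theorem n46_lam6 : lam 6 = 1 / (2 * (1 + Real.cos (Real.pi / 7))) := by simp [lam]
theorem n46_lam0 : lam 0 = 0 := by simp [lam]
theorem n46_lam1 : lam 1 = 0 := by simp [lam]
theorem n46_lam3 : lam 3 = 0 := by simp [lam]
theorem n46_lam4 : lam 4 = 0 := by simp [lam]

theorem n46_LL (m : ℕ) : 2 * (1 + ((Real.cos (Real.pi / 7) : ℝ) : ℂ)) * n46_L m =
    2 * ((Real.cos (Real.pi / 7) : ℝ) : ℂ) * n46_w ^ (m * 2) + n46_w ^ (m * 5) +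
      n46_w ^ (m * 6) := by
  have hne := n46_ne
  rw [n46_L]
  simp only [Finset.sum_range_succ, Finset.sum_range_zero, n46_lam0, n46_lam1, n46_lam2,
    n46_lam3, n46_lam4, n46_lam5, n46_lam6]
  push_cast
  push_cast at hne
  field_simp
  ring

theorem n46_per (m : ℕ) : n46_L (m + 7) = n46_L m := by
  rw [n46_L, n46_L]
  refine Finset.sum_congr rfl fun s _ => ?_
  rw [add_mul, pow_add, pow_mul n46_w 7 s, n46_w7, one_pow, mul_one]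

theorem n46_L1 : n46_L 1 = 0 := by
  have h := n46_LL 1
  have h7 := n46_w7
  rw [n46_c] at h
  have h0 : 2 * (1 + ((Real.cos (Real.pi / 7) : ℝ) : ℂ)) * n46_L 1 = 0 := by
    rw [h]
    ring
  rcases mul_eq_zero.1 h0 with h1 | h1
  · exact absurd (by simpa using h1) n46_ne
  · exact h1

theorem n46_L2 : 2 * (1 + ((Real.cos (Real.pi / 7) : ℝ) : ℂ)) * n46_L 2 =
    2 * ((Real.cos (Real.pi / 7) : ℝ) + (Real.cos (2 * Real.pi / 7) : ℝ) : ℂ) * n46_w ^ 4 := by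
  rw [n46_LL]
  have h7 := n46_w7
  have h2 := n46_c2
  linear_combination (-(n46_w ^ 4)) * h2 + (n46_w ^ 5 - 1 * n46_w ^ 3 + n46_w ^ 3) * h7 +
    (n46_w ^ 3 - n46_w ^ 3) * h7

theorem n46_L3 : 2 * (1 + ((Real.cos (Real.pi / 7) : ℝ) : ℂ)) * n46_L 3 =
    2 * ((Real.cos (Real.pi / 7) : ℝ) - (Real.cos (3 * Real.pi / 7) : ℝ) : ℂ) * n46_w ^ 6 := by
  rw [n46_LL]
  have h7 := n46_w7
  have h2 := n46_c3
  linear_combination (n46_w ^ 6) * h2 + (n46_w ^ 8 + n46_w ^ 11) * h7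

theorem n46_L4 : 2 * (1 + ((Real.cos (Real.pi / 7) : ℝ) : ℂ)) * n46_L 4 =
    2 * ((Real.cos (Real.pi / 7) : ℝ) - (Real.cos (3 * Real.pi / 7) : ℝ) : ℂ) * n46_w := by
  rw [n46_LL]
  have h7 := n46_w7
  have h2 := n46_c3
  linear_combination (n46_w) * h2 + (2 * ((Real.cos (Real.pi / 7) : ℝ) : ℂ) * n46_w +
    n46_w ^ 13 + n46_w ^ 6 + n46_w ^ 17 + n46_w ^ 10 + n46_w ^ 3) * h7

theorem n46_L5 : 2 * (1 + ((Real.cos (Real.pi / 7) : ℝ) : ℂ)) * n46_L 5 =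
    2 * ((Real.cos (Real.pi / 7) : ℝ) + (Real.cos (2 * Real.pi / 7) : ℝ) : ℂ) * n46_w ^ 3 := by
  rw [n46_LL]
  have h7 := n46_w7
  have h2 := n46_c2
  linear_combination (-(n46_w ^ 3)) * h2 + (2 * ((Real.cos (Real.pi / 7) : ℝ) : ℂ) * n46_w ^ 3 +
    n46_w ^ 18 + n46_w ^ 11 + n46_w ^ 4 + n46_w ^ 23 + n46_w ^ 16 + n46_w ^ 9 + n46_w ^ 2 -
    n46_w ^ 2) * h7

theorem n46_L6 : n46_L 6 = 0 := by
  have h := n46_LL 6
  have h7 := n46_w7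
  rw [n46_c] at h
  have h0 : 2 * (1 + ((Real.cos (Real.pi / 7) : ℝ) : ℂ)) * n46_L 6 = 0 := by
    rw [h]
    linear_combination (-(n46_w ^ 8) - n46_w - n46_w ^ 9 - n46_w ^ 2 + n46_w ^ 23 + n46_w ^ 16 +
      n46_w ^ 9 + n46_w ^ 2 + n46_w ^ 29 + n46_w ^ 22 + n46_w ^ 15 + n46_w ^ 8 + n46_w) * h7
  rcases mul_eq_zero.1 h0 with h1 | h1
  · exact absurd (by simpa using h1) n46_ne
  · exact h1

theorem n46_L7 : n46_L 7 = 1 := by
  have h := n46_LL 7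
  have h7 := n46_w7
  have hne := n46_ne
  rw [pow_mul, pow_mul, pow_mul, h7, one_pow, one_pow, one_pow] at h
  have h0 : 2 * (1 + ((Real.cos (Real.pi / 7) : ℝ) : ℂ)) * (n46_L 7 - 1) = 0 := by
    linear_combination h
  rcases mul_eq_zero.1 h0 with h1 | h1
  · exact absurd (by simpa using h1) n46_ne
  · exact sub_eq_zero.1 h1

theorem n46_L8 : n46_L 8 = 0 := by rw [n46_per 1, n46_L1]

theorem n46_lt (i : ℕ) : Complex.exp (((-(2 * Real.pi * i / 7) : ℝ) : ℂ) * I) = n46_w ^ i := by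
  rw [n46_w, ← Complex.exp_nat_mul]
  congr 1
  push_cast
  ring

theorem n46_exp (k i : ℕ) : Complex.exp ((k + 2) * ((-(2 * Real.pi * i / 7) : ℝ) : ℂ) * I) =
    n46_w ^ ((k + 2) * i) := by
  rw [n46_w, ← Complex.exp_nat_mul]
  congr 1
  push_cast
  ring

theorem N46_lam : (∀ s, 0 ≤ lam s) ∧ ∑ s ∈ Finset.range 7, lam s = 1 ∧
    ∑ s ∈ Finset.range 7, (lam s : ℂ) * Complex.exp ((-(2 * Real.pi * s / 7) : ℝ) * I) = 0 := by
  have hc := n46_cb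
  have hc0 : 0 ≤ Real.cos (Real.pi / 7) := by norm_num at hc; linarith
  refine ⟨?_, ?_, ?_⟩
  · intro s
    rw [lam]
    split_ifs <;> positivity
  · simp only [Finset.sum_range_succ, Finset.sum_range_zero, n46_lam0, n46_lam1, n46_lam2,
      n46_lam3, n46_lam4, n46_lam5, n46_lam6]
    have : (1 + Real.cos (Real.pi / 7)) ≠ 0 := by positivity
    field_simp
    ring
  · have h := n46_L1
    rw [n46_L] at h
    rw [← h]
    refine Finset.sum_congr rfl fun s _ => ?_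
    rw [n46_lt, one_mul]

/-- `α`, `β` -/
noncomputable def n46_al : ℝ :=
  (Real.cos (Real.pi / 7) + Real.cos (2 * Real.pi / 7)) / (1 + Real.cos (Real.pi / 7))
noncomputable def n46_be : ℝ :=
  (Real.cos (Real.pi / 7) - Real.cos (3 * Real.pi / 7)) / (1 + Real.cos (Real.pi / 7))

theorem n46_div {A w L : ℂ} (h : 2 * (1 + ((Real.cos (Real.pi / 7) : ℝ) : ℂ)) * L = 2 * A * w) :
    L = A / (1 + ((Real.cos (Real.pi / 7) : ℝ) : ℂ)) * w := by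
  have hne := n46_ne
  field_simp
  linear_combination (1 / 2 : ℂ) * h

theorem n46_L2' : n46_L 2 = (n46_al : ℂ) * n46_w ^ 4 := by
  rw [n46_div n46_L2, n46_al]; push_cast; rfl
theorem n46_L3' : n46_L 3 = (n46_be : ℂ) * n46_w ^ 6 := by
  rw [n46_div n46_L3, n46_be]; push_cast; rfl
theorem n46_L4' : n46_L 4 = (n46_be : ℂ) * n46_w := by
  rw [n46_div n46_L4, n46_be]; push_cast; rfl
theorem n46_L5' : n46_L 5 = (n46_al : ℂ) * n46_w ^ 3 := by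
  rw [n46_div n46_L5, n46_al]; push_cast; rfl

theorem n46_alb : |n46_al - 80193774 / 10 ^ 8| ≤ 1 / 10 ^ 8 := by
  have h1 := N50_c
  have h2 := N50_c2
  have hc := n46_cb
  rw [abs_le] at h1 h2
  have hp : 0 < 1 + Real.cos (Real.pi / 7) := by norm_num at hc; linarith
  rw [n46_al, abs_le]
  constructor
  · have : 80193774 / 10 ^ 8 - 1 / 10 ^ 8 ≤
        (Real.cos (Real.pi / 7) + Real.cos (2 * Real.pi / 7)) / (1 + Real.cos (Real.pi / 7)) := by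
      rw [le_div_iff₀ hp]
      norm_num at h1 h2 ⊢
      linarith [h1.1, h1.2, h2.1, h2.2]
    linarith
  · have : (Real.cos (Real.pi / 7) + Real.cos (2 * Real.pi / 7)) / (1 + Real.cos (Real.pi / 7)) ≤
        80193774 / 10 ^ 8 + 1 / 10 ^ 8 := by
      rw [div_le_iff₀ hp]
      norm_num at h1 h2 ⊢
      linarith [h1.1, h1.2, h2.1, h2.2]
    linarith

theorem n46_beb : |n46_be - 35689587 / 10 ^ 8| ≤ 1 / 10 ^ 8 := by
  have h1 := N50_c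
  have h2 := N50_c3
  have hc := n46_cb
  rw [abs_le] at h1 h2
  have hp : 0 < 1 + Real.cos (Real.pi / 7) := by norm_num at hc; linarith
  rw [n46_be, abs_le]
  constructor
  · have : 35689587 / 10 ^ 8 - 1 / 10 ^ 8 ≤
        (Real.cos (Real.pi / 7) - Real.cos (3 * Real.pi / 7)) / (1 + Real.cos (Real.pi / 7)) := by
      rw [le_div_iff₀ hp]
      norm_num at h1 h2 ⊢
      linarith [h1.1, h1.2, h2.1, h2.2]
    linarith
  · have : (Real.cos (Real.pi / 7) - Real.cos (3 * Real.pi / 7)) / (1 + Real.cos (Real.pi / 7)) ≤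
        35689587 / 10 ^ 8 + 1 / 10 ^ 8 := by
      rw [div_le_iff₀ hp]
      norm_num at h1 h2 ⊢
      linarith [h1.1, h1.2, h2.1, h2.2]
    linarith

/-- product of two approximated numbers in `[0,1]` -/
theorem n46_prod {x y x0 y0 e : ℝ} (hx : |x - x0| ≤ e) (hy : |y - y0| ≤ e) (hx0 : |x0| ≤ 1)
    (hy0 : |y0| ≤ 1) (he : e ≤ 1) : |x * y - x0 * y0| ≤ 3 * e := by
  have h : x * y - x0 * y0 = (x - x0) * y0 + x0 * (y - y0) + (x - x0) * (y - y0) := by ring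
  rw [h]
  have he0 : 0 ≤ e := (abs_nonneg _).trans hx
  refine (abs_add_three _ _ _).trans ?_
  rw [abs_mul, abs_mul, abs_mul]
  have h1 : |x - x0| * |y0| ≤ e * 1 := mul_le_mul hx hy0 (abs_nonneg _) he0
  have h2 : |x0| * |y - y0| ≤ 1 * e := mul_le_mul hx0 hy (abs_nonneg _) (by norm_num)
  have h3 : |x - x0| * |y - y0| ≤ e * 1 := mul_le_mul hx (hy.trans he) (abs_nonneg _) he0
  linarith

/-- one coefficient -/
theorem n46_coef {C al c s c0 s0 al0 p q : ℝ} (hC : 0 ≤ C) (hC1 : C ≤ 1 / 5)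
    (hal : |al - al0| ≤ 1 / 10 ^ 8) (hc : |c - c0| ≤ 1 / 10 ^ 8) (hs : |s - s0| ≤ 1 / 10 ^ 8)
    (h1 : |al0| ≤ 1) (h2 : |c0| ≤ 1) (h3 : |s0| ≤ 1)
    (hp : |C * (al0 * c0) - p| ≤ 9 / 10 ^ 8) (hq : |C * (al0 * s0) - q| ≤ 9 / 10 ^ 8) :
    ‖(C : ℂ) * ((al : ℂ) * ((c : ℂ) + (s : ℂ) * I)) - ((p : ℂ) + (q : ℂ) * I)‖ ≤ 2 / 10 ^ 7 := by
  have e1 := n46_prod hal hc h1 h2 (by norm_num)
  have e2 := n46_prod hal hs h1 h3 (by norm_num)
  have he : (C : ℂ) * ((al : ℂ) * ((c : ℂ) + (s : ℂ) * I)) - ((p : ℂ) + (q : ℂ) * I) =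
      ((C * (al * c) - p : ℝ) : ℂ) + ((C * (al * s) - q : ℝ) : ℂ) * I := by push_cast; ring
  rw [he]
  refine (norm_add_le _ _).trans ?_
  rw [norm_mul, Complex.norm_I, mul_one, Complex.norm_real, Complex.norm_real, Real.norm_eq_abs,
    Real.norm_eq_abs]
  have f1 : |C * (al * c) - p| ≤ C * (3 * (1 / 10 ^ 8)) + 9 / 10 ^ 8 := by
    have : C * (al * c) - p = C * (al * c - al0 * c0) + (C * (al0 * c0) - p) := by ring
    rw [this]
    refine (abs_add_le _ _).trans ?_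
    rw [abs_mul, abs_of_nonneg hC]
    gcongr
  have f2 : |C * (al * s) - q| ≤ C * (3 * (1 / 10 ^ 8)) + 9 / 10 ^ 8 := by
    have : C * (al * s) - q = C * (al * s - al0 * s0) + (C * (al0 * s0) - q) := by ring
    rw [this]
    refine (abs_add_le _ _).trans ?_
    rw [abs_mul, abs_of_nonneg hC]
    gcongr
  have g1 : C * (3 * (1 / 10 ^ 8)) ≤ 1 / 5 * (3 * (1 / 10 ^ 8)) := by gcongr
  calc |C * (al * c) - p| + |C * (al * s) - q| ≤
        (1 / 5 * (3 * (1 / 10 ^ 8)) + 9 / 10 ^ 8) + (1 / 5 * (3 * (1 / 10 ^ 8)) + 9 / 10 ^ 8) := by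
        linarith
    _ ≤ 2 / 10 ^ 7 := by norm_num

theorem n46_weak {x y : ℝ} {e : ℝ} (h : |x - y| ≤ e) (he : e ≤ 1 / 10 ^ 8) : |x - y| ≤ 1 / 10 ^ 8 :=
  h.trans he

theorem n46_k0 : ‖(CQ 1 : ℂ) * n46_L 2 - ((-(800534 / 10 ^ 7 : ℝ) : ℝ) + ((385517 / 10 ^ 7 : ℝ) : ℂ) * I)‖
    ≤ 2 / 10 ^ 7 := by
  have c1 : CQ 1 = 110797277 / 10 ^ 9 := by simp [CQ, CQz]
  have hc : |(-Real.cos (Real.pi / 7)) - (-(90096886790 / 10 ^ 11))| ≤ 1 / 10 ^ 8 := by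
    have h := N50_c
    rw [abs_sub_comm] at h
    have h2 : (-Real.cos (Real.pi / 7)) - (-(90096886790 / 10 ^ 11)) =
      90096886790 / 10 ^ 11 - Real.cos (Real.pi / 7) := by ring
    rw [h2]
    exact h.trans (by norm_num)
  have hs := n46_weak N50_s (by norm_num)
  have h := n46_coef (C := CQ 1) (al := n46_al) (p := -(800534 / 10 ^ 7)) (q := 385517 / 10 ^ 7)
    (by rw [c1]; norm_num) (by rw [c1]; norm_num) n46_alb hc hs
    (by rw [abs_le]; constructor <;> norm_num) (by rw [abs_le]; constructor <;> norm_num)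
    (by rw [abs_le]; constructor <;> norm_num)
    (by rw [c1, abs_le]; constructor <;> norm_num) (by rw [c1, abs_le]; constructor <;> norm_num)
  rw [n46_L2', n46_w4]
  push_cast at h ⊢
  exact h

theorem n46_k3 : ‖(CQ 4 : ℂ) * n46_L 5 - ((-(32150 / 10 ^ 7 : ℝ) : ℝ) + ((-(15483 / 10 ^ 7) : ℝ) : ℂ) * I)‖
    ≤ 2 / 10 ^ 7 := by
  have c1 : CQ 4 = 4449716 / 10 ^ 9 := by simp [CQ, CQz]
  have hc : |(-Real.cos (Real.pi / 7)) - (-(90096886790 / 10 ^ 11))| ≤ 1 / 10 ^ 8 := by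
    have h := N50_c
    rw [abs_sub_comm] at h
    have h2 : (-Real.cos (Real.pi / 7)) - (-(90096886790 / 10 ^ 11)) =
      90096886790 / 10 ^ 11 - Real.cos (Real.pi / 7) := by ring
    rw [h2]
    exact h.trans (by norm_num)
  have hs : |(-Real.sin (Real.pi / 7)) - (-(43388373912 / 10 ^ 11))| ≤ 1 / 10 ^ 8 := by
    have h := N50_s
    rw [abs_sub_comm] at h
    have h2 : (-Real.sin (Real.pi / 7)) - (-(43388373912 / 10 ^ 11)) =
      43388373912 / 10 ^ 11 - Real.sin (Real.pi / 7) := by ring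
    rw [h2]
    exact h.trans (by norm_num)
  have h := n46_coef (C := CQ 4) (al := n46_al) (p := -(32150 / 10 ^ 7)) (q := -(15483 / 10 ^ 7))
    (by rw [c1]; norm_num) (by rw [c1]; norm_num) n46_alb hc hs
    (by rw [abs_le]; constructor <;> norm_num) (by rw [abs_le]; constructor <;> norm_num)
    (by rw [abs_le]; constructor <;> norm_num)
    (by rw [c1, abs_le]; constructor <;> norm_num) (by rw [c1, abs_le]; constructor <;> norm_num)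
  have he : n46_L 5 = (n46_al : ℂ) * (((-Real.cos (Real.pi / 7) : ℝ) : ℂ) +
      ((-Real.sin (Real.pi / 7) : ℝ) : ℂ) * I) := by
    rw [n46_L5', n46_w3]; push_cast; ring
  rw [he]
  exact h

theorem n46_k1 : ‖(CQ 2 : ℂ) * n46_L 3 - (((89943 / 10 ^ 7 : ℝ) : ℂ) + ((112785 / 10 ^ 7 : ℝ) : ℂ) * I)‖
    ≤ 2 / 10 ^ 7 := by
  have c1 : CQ 2 = 40420195 / 10 ^ 9 := by simp [CQ, CQz]
  have hc := n46_weak N50_c2 (by norm_num)
  have hs := n46_weak N50_s2 (by norm_num)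
  have h := n46_coef (C := CQ 2) (al := n46_be) (p := 89943 / 10 ^ 7) (q := 112785 / 10 ^ 7)
    (by rw [c1]; norm_num) (by rw [c1]; norm_num) n46_beb hc hs
    (by rw [abs_le]; constructor <;> norm_num) (by rw [abs_le]; constructor <;> norm_num)
    (by rw [abs_le]; constructor <;> norm_num)
    (by rw [c1, abs_le]; constructor <;> norm_num) (by rw [c1, abs_le]; constructor <;> norm_num)
  rw [n46_L3', n46_w6]
  exact h

theorem n46_k2 : ‖(CQ 3 : ℂ) * n46_L 4 - (((30399 / 10 ^ 7 : ℝ) : ℂ) + ((-(38119 / 10 ^ 7) : ℝ) : ℂ) * I)‖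
    ≤ 2 / 10 ^ 7 := by
  have c1 : CQ 3 = 13661168 / 10 ^ 9 := by simp [CQ, CQz]
  have hc := n46_weak N50_c2 (by norm_num)
  have hs : |(-Real.sin (2 * Real.pi / 7)) - (-(78183148247 / 10 ^ 11))| ≤ 1 / 10 ^ 8 := by
    have h := N50_s2
    rw [abs_sub_comm] at h
    have h2 : (-Real.sin (2 * Real.pi / 7)) - (-(78183148247 / 10 ^ 11)) =
      78183148247 / 10 ^ 11 - Real.sin (2 * Real.pi / 7) := by ring
    rw [h2]
    exact h.trans (by norm_num)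
  have h := n46_coef (C := CQ 3) (al := n46_be) (p := 30399 / 10 ^ 7) (q := -(38119 / 10 ^ 7))
    (by rw [c1]; norm_num) (by rw [c1]; norm_num) n46_beb hc hs
    (by rw [abs_le]; constructor <;> norm_num) (by rw [abs_le]; constructor <;> norm_num)
    (by rw [abs_le]; constructor <;> norm_num)
    (by rw [c1, abs_le]; constructor <;> norm_num) (by rw [c1, abs_le]; constructor <;> norm_num)
  have he : n46_L 4 = (n46_be : ℂ) * (((Real.cos (2 * Real.pi / 7) : ℝ) : ℂ) +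
      ((-Real.sin (2 * Real.pi / 7) : ℝ) : ℂ) * I) := by
    rw [n46_L4']; nth_rewrite 1 [n46_w1]; push_cast; ring
  rw [he]
  exact h

theorem n46_nw : ‖n46_w‖ = 1 := by
  have h : n46_w = Complex.exp (((-(2 * Real.pi / 7) : ℝ) : ℂ) * I) := by
    rw [n46_w]; push_cast; rfl
  rw [h, Complex.norm_exp_ofReal_mul_I]

theorem N46_X : ∃ H : ℂ → ℂ, DifferentiableOn ℂ H (ball 0 (21 / 20)) ∧
    (∀ z : ℂ, z ≠ 0 → ‖z‖ < 21 / 20 →
      H z = ∑ s ∈ Finset.range 7, (lam s : ℂ) * wt (rot o0 (-(2 * Real.pi * s / 7))) Qst z) ∧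
    ∀ z : ℂ, ‖z‖ ≤ 1 → ‖H z - PX z‖ ≤ 68 / 10 ^ 5 := by
  obtain ⟨h, hh, he⟩ := N41_h
  obtain ⟨l1, l2, l3⟩ := N46_lam
  obtain ⟨H, hH1, hH2, hH3⟩ := N45_avg (R := 21 / 20) (ε := 18 / 10 ^ 5) (by norm_num) hh he
    (C := CQ) (fun z hz => N43_Qst hz) (n := 7) (l := lam)
    (t := fun i => -(2 * Real.pi * i / 7)) l1 l2 l3
  refine ⟨H, hH1, hH2, ?_⟩
  intro z hz
  have h1 := hH3 z hz
  have hL : ∀ k : ℕ, ∑ i ∈ Finset.range 7, (lam i : ℂ) *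
      Complex.exp ((k + 2) * ((-(2 * Real.pi * i / 7) : ℝ) : ℂ) * I) = n46_L (k + 2) := by
    intro k
    rw [n46_L]
    refine Finset.sum_congr rfl fun s _ => ?_
    rw [n46_exp]
  simp only [hL] at h1
  have p7 : n46_L (7 + 2) = n46_L 2 := n46_per 2
  have p8 : n46_L (8 + 2) = n46_L 3 := n46_per 3
  have p4 : n46_L (4 + 2) = 0 := n46_L6
  have p5 : n46_L (5 + 2) = 1 := n46_L7
  have p6 : n46_L (6 + 2) = 0 := n46_L8
  simp only [Finset.sum_range_succ, Finset.sum_range_zero, p4, p5, p6, p7, p8] at h1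
  have q0 := n46_k0
  have q1 := n46_k1
  have q2 := n46_k2
  have q3 := n46_k3
  set S : ℂ := 0 + (CQ (0 + 1) : ℂ) * n46_L (0 + 2) * z ^ 0 +
    (CQ (1 + 1) : ℂ) * n46_L (1 + 2) * z ^ 1 +
    (CQ (2 + 1) : ℂ) * n46_L (2 + 2) * z ^ 2 + (CQ (3 + 1) : ℂ) * n46_L (3 + 2) * z ^ 3 +
    (CQ (4 + 1) : ℂ) * 0 * z ^ 4 + (CQ (5 + 1) : ℂ) * 1 * z ^ 5 + (CQ (6 + 1) : ℂ) * 0 * z ^ 6 +
    (CQ (7 + 1) : ℂ) * n46_L 2 * z ^ 7 + (CQ (8 + 1) : ℂ) * n46_L 3 * z ^ 8 with hS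
  have hd : H z - PX z = (H z - S) +
      (((CQ 1 : ℂ) * n46_L 2 - ((-(800534 / 10 ^ 7 : ℝ) : ℝ) + ((385517 / 10 ^ 7 : ℝ) : ℂ) * I)) * z ^ 0 +
       ((CQ 2 : ℂ) * n46_L 3 - (((89943 / 10 ^ 7 : ℝ) : ℂ) + ((112785 / 10 ^ 7 : ℝ) : ℂ) * I)) * z ^ 1 +
       ((CQ 3 : ℂ) * n46_L 4 - (((30399 / 10 ^ 7 : ℝ) : ℂ) + ((-(38119 / 10 ^ 7) : ℝ) : ℂ) * I)) * z ^ 2 +
       ((CQ 4 : ℂ) * n46_L 5 - ((-(32150 / 10 ^ 7 : ℝ) : ℝ) + ((-(15483 / 10 ^ 7) : ℝ) : ℂ) * I)) * z ^ 3) +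
      ((CQ 6 : ℂ) * z ^ 5 + (CQ 8 : ℂ) * n46_L 2 * z ^ 7 + (CQ 9 : ℂ) * n46_L 3 * z ^ 8) := by
    rw [hS, PX]
    push_cast
    ring
  have hzk : ∀ k : ℕ, ‖z ^ k‖ ≤ 1 := fun k => by
    rw [norm_pow]; exact pow_le_one₀ (norm_nonneg _) hz
  have hmz : ∀ (x : ℂ) (b : ℝ) (k : ℕ), ‖x‖ ≤ b → ‖x * z ^ k‖ ≤ b := by
    intro x b k hx
    rw [norm_mul]
    have := hzk k
    calc ‖x‖ * ‖z ^ k‖ ≤ ‖x‖ * 1 := by gcongr
      _ ≤ b := by rw [mul_one]; exact hx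
  have r1 : ‖(CQ 6 : ℂ) * z ^ 5‖ ≤ 446639 / 10 ^ 9 := by
    apply hmz
    have c1 : CQ 6 = 446639 / 10 ^ 9 := by simp [CQ, CQz]
    rw [c1, Complex.norm_real, Real.norm_of_nonneg (by positivity)]
  have ha := n46_alb
  have hb := n46_beb
  rw [abs_le] at ha hb
  have ha0 : 0 ≤ n46_al := by norm_num at ha; linarith [ha.1]
  have hb0 : 0 ≤ n46_be := by norm_num at hb; linarith [hb.1]
  have r2 : ‖(CQ 8 : ℂ) * n46_L 2 * z ^ 7‖ ≤ 43172 / 10 ^ 9 * (802 / 1000) := by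
    apply hmz
    have c1 : CQ 8 = 43172 / 10 ^ 9 := by simp [CQ, CQz]
    rw [c1, n46_L2', norm_mul, norm_mul, norm_pow, n46_nw, one_pow, mul_one, Complex.norm_real,
      Complex.norm_real, Real.norm_of_nonneg (by positivity), Real.norm_of_nonneg ha0]
    have : n46_al ≤ 802 / 1000 := by norm_num at ha ⊢; linarith [ha.2]
    gcongr
  have r3 : ‖(CQ 9 : ℂ) * n46_L 3 * z ^ 8‖ ≤ 13316 / 10 ^ 9 * (357 / 1000) := by
    apply hmz
    have c1 : CQ 9 = 13316 / 10 ^ 9 := by simp [CQ, CQz]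
    rw [c1, n46_L3', norm_mul, norm_mul, norm_pow, n46_nw, one_pow, mul_one, Complex.norm_real,
      Complex.norm_real, Real.norm_of_nonneg (by positivity), Real.norm_of_nonneg hb0]
    have : n46_be ≤ 357 / 1000 := by norm_num at hb ⊢; linarith [hb.2]
    gcongr
  rw [hd]
  refine (norm_add_le _ _).trans ?_
  refine (add_le_add (norm_add_le _ _) le_rfl).trans ?_
  have n4 : ∀ x y z w : ℂ, ‖x + y + z + w‖ ≤ ‖x‖ + ‖y‖ + ‖z‖ + ‖w‖ := by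
    intro x y z w
    refine (norm_add_le _ _).trans ?_
    gcongr
    refine (norm_add_le _ _).trans ?_
    gcongr
    exact norm_add_le _ _
  have n3 : ∀ x y z : ℂ, ‖x + y + z‖ ≤ ‖x‖ + ‖y‖ + ‖z‖ := by
    intro x y z
    refine (norm_add_le _ _).trans ?_
    gcongr
    exact norm_add_le _ _
  refine (add_le_add (add_le_add h1 (n4 _ _ _ _)) (n3 _ _ _)).trans ?_
  refine (add_le_add (add_le_add le_rfl (add_le_add (add_le_add (add_le_add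
    (hmz _ _ 0 q0) (hmz _ _ 1 q1)) (hmz _ _ 2 q2)) (hmz _ _ 3 q3)))
    (add_le_add (add_le_add r1 r2) r3)).trans ?_
  norm_num

theorem n46_norm {p q r : ℝ} (hr : 0 ≤ r) (h : p ^ 2 + q ^ 2 ≤ r ^ 2) :
    ‖(p : ℂ) + (q : ℂ) * I‖ ≤ r := by
  have h1 : ‖(p : ℂ) + (q : ℂ) * I‖ ^ 2 = p ^ 2 + q ^ 2 := by
    rw [← Complex.normSq_eq_norm_sq, Complex.normSq_add_mul_I]
  have h2 : ‖(p : ℂ) + (q : ℂ) * I‖ ^ 2 ≤ r ^ 2 := by rw [h1]; exact h
  exact (pow_le_pow_iff_left₀ (norm_nonneg _) hr (by norm_num)).1 h2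

theorem N46_PX {z : ℂ} (hz : ‖z‖ ≤ 1) : ‖PX z‖ ≤ 11173 / 10 ^ 5 := by
  have hd : PX z =
      (((-(800534 / 10 ^ 7) : ℝ) : ℂ) + ((385517 / 10 ^ 7 : ℝ) : ℂ) * I) * z ^ 0 +
       (((89943 / 10 ^ 7 : ℝ) : ℂ) + ((112785 / 10 ^ 7 : ℝ) : ℂ) * I) * z ^ 1 +
       (((30399 / 10 ^ 7 : ℝ) : ℂ) + ((-(38119 / 10 ^ 7) : ℝ) : ℂ) * I) * z ^ 2 +
       (((-(32150 / 10 ^ 7) : ℝ) : ℂ) + ((-(15483 / 10 ^ 7) : ℝ) : ℂ) * I) * z ^ 3 := by
    rw [PX]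
    push_cast
    ring
  have hmz : ∀ (x : ℂ) (b : ℝ) (k : ℕ), ‖x‖ ≤ b → ‖x * z ^ k‖ ≤ b := by
    intro x b k hx
    rw [norm_mul]
    have : ‖z ^ k‖ ≤ 1 := by rw [norm_pow]; exact pow_le_one₀ (norm_nonneg _) hz
    calc ‖x‖ * ‖z ^ k‖ ≤ ‖x‖ * 1 := by gcongr
      _ ≤ b := by rw [mul_one]; exact hx
  have u0 := hmz _ _ 0 (n46_norm (p := -(800534 / 10 ^ 7)) (q := 385517 / 10 ^ 7)
    (r := 88854 / 10 ^ 6) (by norm_num) (by norm_num))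
  have u1 := hmz _ _ 1 (n46_norm (p := 89943 / 10 ^ 7) (q := 112785 / 10 ^ 7)
    (r := 14427 / 10 ^ 6) (by norm_num) (by norm_num))
  have u2 := hmz _ _ 2 (n46_norm (p := 30399 / 10 ^ 7) (q := -(38119 / 10 ^ 7))
    (r := 4877 / 10 ^ 6) (by norm_num) (by norm_num))
  have u3 := hmz _ _ 3 (n46_norm (p := -(32150 / 10 ^ 7)) (q := -(15483 / 10 ^ 7))
    (r := 3569 / 10 ^ 6) (by norm_num) (by norm_num))
  rw [hd]
  refine (norm_add_le _ _).trans ?_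
  refine (add_le_add (norm_add_le _ _) le_rfl).trans ?_
  refine (add_le_add (add_le_add (norm_add_le _ _) le_rfl) le_rfl).trans ?_
  refine (add_le_add (add_le_add (add_le_add u0 u1) u2) u3).trans ?_
  norm_num

end Pool.Agent.Lib.H11Q
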