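import Pool.Agent.Lib.H11Q.N41
import Pool.Agent.Lib.H11Q.N43
import Pool.Agent.Lib.H11Q.N45

/-! # H11Q chunk N47 (S/M): the averaged differential `HY`.

`N45_avg` with `n = 3`, `l i = 1/3`, `t_r = -(2πr/3)`: `(1/3)∑_r exp(i(k+2)t_r) = 1` if `k ≡ 1 mod 3`, `0` otherwise (`exp(-2πi/3)` is a primitive
third root of unity; `k = -1` is the hypothesis `hp`).  So the polynomial is `CQ 2 z + CQ 5 z⁴ + CQ 8 z⁷`; it differs from `PY` by
`|CQ 8| = 0.000043172` and rounding `≤ 10⁻⁷·2`.  Total `≤ 18·10⁻⁵ + 4.32·10⁻⁵ + 0.02·10⁻⁵ ≤ 23·10⁻⁵`. -/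

set_option autoImplicit false

namespace Pool.Agent.Lib.H11Q

open Complex Set MeasureTheory Metric Filter
open scoped ComplexConjugate Topology

noncomputable def n47_w : ℂ := Complex.exp (-(2 * Real.pi / 3) * I)

theorem n47_w3 : n47_w ^ 3 = 1 := by
  rw [n47_w, ← Complex.exp_nat_mul]
  have h : ((3 : ℕ) : ℂ) * (-(2 * Real.pi / 3) * I) = -(2 * Real.pi * I) := by push_cast; ring
  rw [h, Complex.exp_neg, Complex.exp_two_pi_mul_I, inv_one]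

theorem n47_w_ne : n47_w ≠ 1 := by
  intro h
  have h1 := congrArg Complex.re h
  have h2 : n47_w = Complex.exp (((-(2 * Real.pi / 3) : ℝ) : ℂ) * I) := by
    rw [n47_w]; push_cast; rfl
  rw [h2, Complex.exp_ofReal_mul_I_re, Real.cos_neg, Complex.one_re] at h1
  have h3 : 2 * Real.pi / 3 = Real.pi - Real.pi / 3 := by ring
  rw [h3, Real.cos_pi_sub, Real.cos_pi_div_three] at h1
  norm_num at h1

theorem n47_sum : 1 + n47_w + n47_w ^ 2 = 0 := by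
  have h : (n47_w - 1) * (1 + n47_w + n47_w ^ 2) = 0 := by
    have := n47_w3
    linear_combination this
  rcases mul_eq_zero.1 h with h | h
  · exact absurd (sub_eq_zero.1 h) n47_w_ne
  · exact h

theorem n47_exp (k i : ℕ) : Complex.exp ((k + 2) * ((-(2 * Real.pi * i / 3) : ℝ) : ℂ) * I) =
    n47_w ^ ((k + 2) * i) := by
  rw [n47_w, ← Complex.exp_nat_mul]
  congr 1
  push_cast
  ring

theorem n47_hp : ∑ i ∈ Finset.range 3, (((1 / 3 : ℝ)) : ℂ) *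
    Complex.exp (((-(2 * Real.pi * i / 3) : ℝ) : ℂ) * I) = 0 := by
  have h1 : ∀ i : ℕ, Complex.exp (((-(2 * Real.pi * i / 3) : ℝ) : ℂ) * I) = n47_w ^ i := by
    intro i
    rw [n47_w, ← Complex.exp_nat_mul]
    congr 1
    push_cast
    ring
  simp only [h1, Finset.sum_range_succ, Finset.sum_range_zero]
  have := n47_sum
  push_cast
  linear_combination (1 / 3 : ℂ) * this

theorem n47_L (k : ℕ) : ∑ i ∈ Finset.range 3, (((1 / 3 : ℝ)) : ℂ) *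
    Complex.exp ((k + 2) * ((-(2 * Real.pi * i / 3) : ℝ) : ℂ) * I) =
    (1 / 3) * (1 + n47_w ^ (k + 2) + (n47_w ^ (k + 2)) ^ 2) := by
  simp only [n47_exp, Finset.sum_range_succ, Finset.sum_range_zero]
  push_cast
  ring

theorem N47_Y : ∃ H : ℂ → ℂ, DifferentiableOn ℂ H (ball 0 (21 / 20)) ∧
    (∀ z : ℂ, z ≠ 0 → ‖z‖ < 21 / 20 →
      H z = ∑ r ∈ Finset.range 3, (1 / 3 : ℂ) * wt (rot o0 (-(2 * Real.pi * r / 3))) Qst z) ∧
    ∀ z : ℂ, ‖z‖ ≤ 1 → ‖H z - PY z‖ ≤ 23 / 10 ^ 5 := by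
  obtain ⟨h, hh, he⟩ := N41_h
  obtain ⟨H, hH1, hH2, hH3⟩ := N45_avg (R := 21 / 20) (ε := 18 / 10 ^ 5) (by norm_num) hh he
    (C := CQ) (fun z hz => N43_Qst hz) (n := 3) (l := fun _ => 1 / 3)
    (t := fun i => -(2 * Real.pi * i / 3)) (fun _ => by norm_num)
    (by simp) n47_hp
  refine ⟨H, hH1, ?_, ?_⟩
  · intro z hz hz1
    rw [hH2 z hz hz1]
    refine Finset.sum_congr rfl fun i _ => ?_
    push_cast
    rfl
  · intro z hz
    have h1 := hH3 z hz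
    simp only [n47_L] at h1
    have w3 := n47_w3
    have ws := n47_sum
    have e0 : (1 / 3 : ℂ) * (1 + n47_w ^ (0 + 2) + (n47_w ^ (0 + 2)) ^ 2) = 0 := by
      linear_combination (1 / 3 : ℂ) * ws + (1 / 3 : ℂ) * n47_w * w3
    have e1 : (1 / 3 : ℂ) * (1 + n47_w ^ (1 + 2) + (n47_w ^ (1 + 2)) ^ 2) = 1 := by
      linear_combination ((2 / 3 : ℂ) + (1 / 3 : ℂ) * n47_w ^ 3) * w3
    have e2 : (1 / 3 : ℂ) * (1 + n47_w ^ (2 + 2) + (n47_w ^ (2 + 2)) ^ 2) = 0 := by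
      linear_combination (1 / 3 : ℂ) * ws + (1 / 3 : ℂ) * (n47_w + n47_w ^ 2 * (1 + n47_w ^ 3)) * w3
    have e3 : (1 / 3 : ℂ) * (1 + n47_w ^ (3 + 2) + (n47_w ^ (3 + 2)) ^ 2) = 0 := by
      linear_combination (1 / 3 : ℂ) * ws + (1 / 3 : ℂ) * (n47_w ^ 2 +
        n47_w * (1 + n47_w ^ 3 + n47_w ^ 6)) * w3
    have e4 : (1 / 3 : ℂ) * (1 + n47_w ^ (4 + 2) + (n47_w ^ (4 + 2)) ^ 2) = 1 := by
      linear_combination (1 / 3 : ℂ) * ((1 + n47_w ^ 3) +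
        (1 + n47_w ^ 3 + n47_w ^ 6 + n47_w ^ 9)) * w3
    have hs : ∀ k : ℕ, n47_w ^ (k + 3 + 2) = n47_w ^ (k + 2) := by
      intro k
      have : k + 3 + 2 = (k + 2) + 3 := by ring
      rw [this, pow_add, w3, mul_one]
    have e5 : (1 / 3 : ℂ) * (1 + n47_w ^ (5 + 2) + (n47_w ^ (5 + 2)) ^ 2) = 0 := by
      have := hs 2
      norm_num at this e2 ⊢
      rw [this]; exact e2
    have e6 : (1 / 3 : ℂ) * (1 + n47_w ^ (6 + 2) + (n47_w ^ (6 + 2)) ^ 2) = 0 := by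
      have := hs 3
      norm_num at this e3 ⊢
      rw [this]; exact e3
    have e7 : (1 / 3 : ℂ) * (1 + n47_w ^ (7 + 2) + (n47_w ^ (7 + 2)) ^ 2) = 1 := by
      have := hs 4
      norm_num at this e4 ⊢
      rw [this]; exact e4
    have e8 : (1 / 3 : ℂ) * (1 + n47_w ^ (8 + 2) + (n47_w ^ (8 + 2)) ^ 2) = 0 := by
      have := hs 5
      norm_num at this e5 ⊢
      rw [this]; exact e5
    simp only [Finset.sum_range_succ, Finset.sum_range_zero, e0, e1, e2, e3, e4, e5, e6, e7, e8] at h1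
    have hd : H z - PY z = (H z - (0 + (CQ (0 + 1) : ℂ) * 0 * z ^ 0 + (CQ (1 + 1) : ℂ) * 1 * z ^ 1 +
        (CQ (2 + 1) : ℂ) * 0 * z ^ 2 + (CQ (3 + 1) : ℂ) * 0 * z ^ 3 + (CQ (4 + 1) : ℂ) * 1 * z ^ 4 +
        (CQ (5 + 1) : ℂ) * 0 * z ^ 5 + (CQ (6 + 1) : ℂ) * 0 * z ^ 6 + (CQ (7 + 1) : ℂ) * 1 * z ^ 7 +
        (CQ (8 + 1) : ℂ) * 0 * z ^ 8)) +
        ((-(5 / 10 ^ 9 : ℝ) : ℂ) * z + (-(41 / 10 ^ 9 : ℝ) : ℂ) * z ^ 4 +
          ((43172 / 10 ^ 9 : ℝ) : ℂ) * z ^ 7) := by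
      have c2 : CQ (1 + 1) = 40420195 / 10 ^ 9 := by simp [CQ, CQz]
      have c5 : CQ (4 + 1) = 1419159 / 10 ^ 9 := by simp [CQ, CQz]
      have c8 : CQ (7 + 1) = 43172 / 10 ^ 9 := by simp [CQ, CQz]
      rw [c2, c5, c8, PY]
      push_cast
      ring
    rw [hd]
    refine (norm_add_le _ _).trans ?_
    have hz4 : ‖z‖ ^ 4 ≤ 1 := pow_le_one₀ (norm_nonneg _) hz
    have hz7 : ‖z‖ ^ 7 ≤ 1 := pow_le_one₀ (norm_nonneg _) hz
    have hz40 : 0 ≤ ‖z‖ ^ 4 := by positivity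
    have hz70 : 0 ≤ ‖z‖ ^ 7 := by positivity
    have hz0 : 0 ≤ ‖z‖ := norm_nonneg _
    have h3 : ‖(-(5 / 10 ^ 9 : ℝ) : ℂ) * z + (-(41 / 10 ^ 9 : ℝ) : ℂ) * z ^ 4 +
          ((43172 / 10 ^ 9 : ℝ) : ℂ) * z ^ 7‖ ≤ 5 / 10 ^ 9 + 41 / 10 ^ 9 + 43172 / 10 ^ 9 := by
      refine (norm_add_le _ _).trans ?_
      refine (add_le_add (norm_add_le _ _) le_rfl).trans ?_
      rw [norm_mul, norm_mul, norm_mul, norm_pow, norm_pow, norm_neg, norm_neg,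
        Complex.norm_real, Complex.norm_real, Complex.norm_real, Real.norm_of_nonneg (by positivity),
        Real.norm_of_nonneg (by positivity), Real.norm_of_nonneg (by positivity)]
      have q1 : (5 / 10 ^ 9 : ℝ) * ‖z‖ ≤ 5 / 10 ^ 9 := by nlinarith
      have q2 : (41 / 10 ^ 9 : ℝ) * ‖z‖ ^ 4 ≤ 41 / 10 ^ 9 := by nlinarith
      have q3 : (43172 / 10 ^ 9 : ℝ) * ‖z‖ ^ 7 ≤ 43172 / 10 ^ 9 := by nlinarith
      linarith
    refine (add_le_add h1 h3).trans ?_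
    norm_num

theorem N47_PY {z : ℂ} (hz : ‖z‖ ≤ 1) : ‖PY z‖ ≤ 4184 / 10 ^ 5 := by
  have hz4 : ‖z‖ ^ 4 ≤ 1 := pow_le_one₀ (norm_nonneg _) hz
  have hz40 : 0 ≤ ‖z‖ ^ 4 := by positivity
  have hz0 : 0 ≤ ‖z‖ := norm_nonneg _
  have he : PY z = ((404202 / 10 ^ 7 : ℝ) : ℂ) * z + ((14192 / 10 ^ 7 : ℝ) : ℂ) * z ^ 4 := by
    rw [PY]; push_cast; ring
  rw [he]
  refine (norm_add_le _ _).trans ?_
  rw [norm_mul, norm_mul, norm_pow, Complex.norm_real, Complex.norm_real,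
    Real.norm_of_nonneg (by positivity), Real.norm_of_nonneg (by positivity)]
  norm_num
  linarith

end Pool.Agent.Lib.H11Q
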