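import Pool.Agent.Lib.H11Q.N51
import Pool.Agent.Lib.H11Q.N0Q

/-! # H11Q chunk N52D: interval versions of the linear maps and of the values `JJ x PX`, `JJ x PY` (definitions). -/

set_option autoImplicit false

namespace Pool.Agent.Lib.H11Q

open Complex

/-- box in `ℝ × ℂ` -/
structure Iw where
  x0 : Iv
  x1 : Ic

def WMem (x : Mk) (I : Iw) : Prop := IMem x.1 I.x0 ∧ CMem x.2 I.x1

/-- base constants: `c, s, q, M, CC, SS` (`N50`) -/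
def iC : Iv := ⟨900968867800, 900968868000⟩
def iS : Iv := ⟨433883738920, 433883739320⟩
def iQ : Iv := ⟨496970424400, 496970426400⟩
def iM : Iv := ⟨894156341180, 894156345180⟩
def iCC : Iv := ⟨1198880185290, 1198880189290⟩
def iSS : Iv := ⟨661296981830, 661296989830⟩
def iC2 : Iv := ⟨623489801360, 623489802360⟩
def iS2 : Iv := ⟨781831481470, 781831483470⟩
def iC3 : Iv := ⟨222520932960, 222520934960⟩
def iS3 : Iv := ⟨974927911180, 974927913180⟩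
def iOne : Iv := ⟨Isc, Isc⟩
def iZero : Iv := ⟨0, 0⟩

/-- `exp (2πi k/7)`, `k = 0, .., 6` -/
def iom (k : ℕ) : Ic :=
  match k with
  | 0 => ⟨iOne, iZero⟩
  | 1 => ⟨iC2, iS2⟩
  | 2 => ⟨iC3.neg, iS3⟩
  | 3 => ⟨iC.neg, iS⟩
  | 4 => ⟨iC.neg, iS.neg⟩
  | 5 => ⟨iC3.neg, iS3.neg⟩
  | _ => ⟨iC2, iS2.neg⟩

/-- `gA ^ k` -/
def iA (k : ℕ) (I : Iw) : Iw := ⟨I.x0, (iom k).mul I.x1⟩

/-- the coefficients of `gB.lin`: `1/(2s²)`, `q/(2s)`, `c/(2s)`, `cq/(2s²)`, `c²/(4s²)`, `q²/(4s²)` -/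
def iIs : Iv := iS.inv
def iH : Iv := ⟨Isc / 2, Isc / 2⟩
def iQs : Iv := (iQ.mul iIs).mul iH
def iCs : Iv := (iC.mul iIs).mul iH
/-- `(1-2s²)/(2s²)` -/
def iB1 : Iv := (((iIs.mul iIs).mul iH)).sub iOne
/-- `cq/(2s²)` -/
def iB2 : Iv := (((iC.mul iQ).mul (iIs.mul iIs)).mul iH)
def iQuart : Iv := ⟨Isc / 4, Isc / 4⟩
def iB4 : Iv := (iQuart.sub (iCs.mul iCs)).sub (iQs.mul iQs)
def iB6 : Iv := (iQuart.sub (iCs.mul iCs)).add (iQs.mul iQs)

def iB (I : Iw) : Iw :=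
  ⟨((iB1.mul I.x0).sub (iB2.mul I.x1.re)).sub (iQs.mul I.x1.im),
   ⟨((iB2.mul I.x0).add (iB4.mul I.x1.re)).sub (iCs.mul I.x1.im),
    (((iQs.neg).mul I.x0).add (iCs.mul I.x1.re)).add (iB6.mul I.x1.im)⟩⟩

def iChi (I : Iw) : Iw :=
  ⟨(iCC.mul I.x0).sub (iSS.mul I.x1.re),
   ⟨(iSS.mul I.x0).sub (iCC.mul I.x1.re), I.x1.im.neg⟩⟩

/-- box of `nv gl0 = -(c q, exp(2πi/7))/M` -/
def iNv : Iw := ⟨((iC.mul iQ).mul iM.inv).neg, (Ic.rmul iM.inv (iom 1)).neg⟩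

/-- words: `(true, k)` is `A^k`, `(false, _)` is `B` -/
def stepW (p : Bool × ℕ) : W := if p.1 then wA ^ p.2 else wB
def wordW (l : List (Bool × ℕ)) : W := (l.map stepW).prod
def stepI (p : Bool × ℕ) (I : Iw) : Iw := if p.1 then iA p.2 I else iB I
def wordI (l : List (Bool × ℕ)) (I : Iw) : Iw := l.foldr stepI I

/-- the words of the eight near lines -/
def nword : ℕ → List (Bool × ℕ)
  | 0 => []
  | 1 => [(true, 4), (false, 0), (true, 4)]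
  | 2 => [(true, 6), (false, 0), (true, 3)]
  | 3 => [(true, 1), (false, 0), (true, 6), (false, 0), (true, 3)]
  | 4 => [(true, 3), (false, 0), (true, 5), (false, 0), (true, 4)]
  | 5 => [(true, 1), (false, 0), (true, 4), (false, 0), (true, 4)]
  | 6 => [(false, 0), (true, 4), (false, 0), (true, 3)]
  | _ => [(true, 2), (false, 0), (true, 5), (false, 0), (true, 3)]

/-- the normals of the near lines -/
noncomputable def nu (i : ℕ) : Mk := nv (rho (wordW (nword i)) * gl0)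

/-- `1/|x.2|²` -/
def iInv (I : Iw) : Iv := (I.x1.nsq).inv
/-- `mid x = x.1 x.2 /|x.2|²` -/
def iMid (I : Iw) : Ic := Ic.rmul (I.x0.mul (iInv I)) I.x1
/-- `-(pp x)²`, `pp x = x.2/|x.2|²` -/
def iD (I : Iw) : Ic := ((Ic.rmul (iInv I) I.x1).mul (Ic.rmul (iInv I) I.x1)).neg

/-- `n/d` as a complex interval -/
def icQ (n d : ℤ) (m e : ℤ) : Ic := ⟨Iv.ofQ n d, Iv.ofQ m e⟩

/-- the value `Re (I/2 * JJ x PX)` from `m = mid x`, `d = -(pp x)²` -/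
def ivXmd (m d : Ic) : Iv :=
  (Iv.mul (Iv.ofQ (-1) 2)
    (((((icQ (-800534) 10000000 385517 10000000).mul (Ic.rmul (Iv.ofQ 2 3) d)).add
      ((icQ 89943 10000000 112785 10000000).mul ((Ic.rmul (Iv.ofQ 2 3) d).mul m))).add
      ((icQ 30399 10000000 (-38119) 10000000).mul
        (d.mul ((Ic.rmul (Iv.ofQ 2 3) (m.mul m)).add (Ic.rmul (Iv.ofQ 2 15) d))))).add
      ((icQ (-32150) 10000000 (-15483) 10000000).mul
        ((d.mul m).mul ((Ic.rmul (Iv.ofQ 2 3) (m.mul m)).add (Ic.rmul (Iv.ofQ 2 5) d))))).im)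

/-- the value `Re (I/2 * JJ x PY)` -/
def ivYmd (m d : Ic) : Iv :=
  (Iv.mul (Iv.ofQ (-1) 2)
    (((Ic.rmul (Iv.ofQ 404202 10000000) ((Ic.rmul (Iv.ofQ 2 3) d).mul m)).add
      (Ic.rmul (Iv.ofQ 14192 10000000)
        (d.mul (((Ic.rmul (Iv.ofQ 2 3) ((m.mul m).mul (m.mul m))).add
          ((Ic.rmul (Iv.ofQ 4 5) (m.mul m)).mul d)).add (Ic.rmul (Iv.ofQ 2 35) (d.mul d))))))).im)

def ivX (I : Iw) : Iv := ivXmd (iMid I) (iD I)
def ivY (I : Iw) : Iv := ivYmd (iMid I) (iD I)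

/-- the box of the near line `i` -/
def nbox (i : ℕ) : Iw := wordI (nword i) iNv
/-- in the frame `chi * (gA ^ j)⁻¹`, `j = 0, 3, 5` (`k = 7 - j`) -/
def ybox (k i : ℕ) : Iw := iChi (iA k (nbox i))

end Pool.Agent.Lib.H11Q
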