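import Pool.Agent.Lib.H11Q.N04
import Pool.Agent.Lib.H11Q.N52D

/-! # H11Q chunk N53: interval evaluation of `Re (I/2 * JJ x PX)`, `Re (I/2 * JJ x PY)` and `Lsq x`. -/

set_option autoImplicit false

namespace Pool.Agent.Lib.H11Q

open Complex Metric
open scoped ComplexConjugate

theorem n53_ne {x : Mk} (hx : IsNrm x) : x.2 ≠ 0 := by
  intro h
  unfold IsNrm at hx
  rw [h, norm_zero] at hx
  nlinarith [sq_nonneg x.1]

theorem n53_inv {x : Mk} {I : Iw} (h : WMem x I) (hI : 0 < (I.x1.nsq).lo) :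
    IMem (normSq x.2)⁻¹ (iInv I) :=
  N51_inv (N51_nsq h.2) hI

theorem n53_pp {x : Mk} (hx : IsNrm x) : pp x = (((normSq x.2)⁻¹ : ℝ) : ℂ) * x.2 := by
  have h0 := n53_ne hx
  have h1 : conj x.2 ≠ 0 := by
    rw [Ne, map_eq_zero]
    exact h0
  have h2 : (normSq x.2 : ℂ) = x.2 * conj x.2 := (mul_conj x.2).symm
  unfold pp
  push_cast
  rw [h2]
  field_simp

theorem n53_mid {x : Mk} (hx : IsNrm x) :
    mid x = ((x.1 * (normSq x.2)⁻¹ : ℝ) : ℂ) * x.2 := by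
  have h0 := n53_ne hx
  have h1 : conj x.2 ≠ 0 := by
    rw [Ne, map_eq_zero]
    exact h0
  have h2 : (normSq x.2 : ℂ) = x.2 * conj x.2 := (mul_conj x.2).symm
  unfold mid
  push_cast
  rw [h2]
  field_simp

theorem N53_mid {x : Mk} (hx : IsNrm x) {I : Iw} (h : WMem x I) (hI : 0 < (I.x1.nsq).lo) :
    CMem (mid x) (iMid I) := by
  rw [n53_mid hx]
  exact N51_crmul (N51_mul h.1 (n53_inv h hI)) h.2

theorem N53_d {x : Mk} (hx : IsNrm x) {I : Iw} (h : WMem x I) (hI : 0 < (I.x1.nsq).lo) :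
    CMem (-(pp x) ^ 2) (iD I) := by
  rw [n53_pp hx, sq]
  exact N51_cneg (N51_cmul (N51_crmul (n53_inv h hI) h.2) (N51_crmul (n53_inv h hI) h.2))

theorem N53_Lsq {x : Mk} {I : Iw} (h : WMem x I) (hI : 0 < (I.x1.nsq).lo) :
    IMem (Lsq x) ((Iv.ofQ 4 1).mul (iInv I)) := by
  have e : Lsq x = ((4 : ℤ) : ℝ) / ((1 : ℤ) : ℝ) * (normSq x.2)⁻¹ := by
    unfold Lsq
    rw [normSq_eq_norm_sq]
    push_cast
    rw [div_one]
    rfl
  rw [e]
  exact N51_mul (N51_ofQ 4 1 (by norm_num)) (n53_inv h hI)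

theorem n53_cQ (n d m e : ℤ) (hd : 0 < d) (he : 0 < e) {z : ℂ} (h1 : z.re = (n : ℝ) / d)
    (h2 : z.im = (m : ℝ) / e) : CMem z (icQ n d m e) := by
  constructor
  · rw [h1]
    exact N51_ofQ n d hd
  · rw [h2]
    exact N51_ofQ m e he

theorem n53_rQ (n d : ℤ) (hd : 0 < d) {z : ℂ} {J : Ic} (hz : CMem z J) {q : ℂ}
    (hq : q = (((n : ℝ) / d : ℝ) : ℂ)) : CMem (q * z) (Ic.rmul (Iv.ofQ n d) J) := by
  rw [hq]
  exact N51_crmul (N51_ofQ n d hd) hz

theorem n53_half (J : ℂ) : (I / 2 * J).re = (((-1 : ℤ) : ℝ) / ((2 : ℤ) : ℝ)) * J.im := by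
  rw [mul_re]
  have h1 : (I / 2 : ℂ).re = 0 := by simp
  have h2 : (I / 2 : ℂ).im = 1 / 2 := by simp
  rw [h1, h2]
  push_cast
  ring

theorem n53_JX {x : Mk} (hx : IsNrm x) : JJ x PX =
    (-(800534 / 10 ^ 7) + 385517 / 10 ^ 7 * I) * (2 / 3 * (-(pp x) ^ 2)) +
    (89943 / 10 ^ 7 + 112785 / 10 ^ 7 * I) * (2 / 3 * (-(pp x) ^ 2) * mid x) +
    (30399 / 10 ^ 7 - 38119 / 10 ^ 7 * I) *
      ((-(pp x) ^ 2) * (2 / 3 * mid x ^ 2 + 2 / 15 * (-(pp x) ^ 2))) +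
    (-(32150 / 10 ^ 7) - 15483 / 10 ^ 7 * I) *
      ((-(pp x) ^ 2) * mid x * (2 / 3 * mid x ^ 2 + 2 / 5 * (-(pp x) ^ 2))) := by
  have e : PX = fun z => ((((-(800534 / 10 ^ 7) + 385517 / 10 ^ 7 * I) * 1 +
      (89943 / 10 ^ 7 + 112785 / 10 ^ 7 * I) * z) +
      (30399 / 10 ^ 7 - 38119 / 10 ^ 7 * I) * z ^ 2) +
      (-(32150 / 10 ^ 7) - 15483 / 10 ^ 7 * I) * z ^ 3) := by
    funext z
    unfold PX
    ring
  rw [e, N03_add hx (by fun_prop) (by fun_prop), N03_add hx (by fun_prop) (by fun_prop),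
    N03_add hx (by fun_prop) (by fun_prop)]
  rw [N03_smul x _ (fun z => z ^ 3), N03_smul x _ (fun z => z ^ 2), N03_smul x _ (fun z => z),
    N03_smul x _ (fun _ => 1), N04_J0, N04_J1, N04_J2, N04_J3]

theorem n53_JY {x : Mk} (hx : IsNrm x) : JJ x PY =
    404202 / 10 ^ 7 * (2 / 3 * (-(pp x) ^ 2) * mid x) +
    14192 / 10 ^ 7 * ((-(pp x) ^ 2) * (2 / 3 * mid x ^ 4 + 4 / 5 * mid x ^ 2 * (-(pp x) ^ 2) +
      2 / 35 * (-(pp x) ^ 2) ^ 2)) := by
  have e : PY = fun z => 404202 / 10 ^ 7 * z + 14192 / 10 ^ 7 * z ^ 4 := by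
    funext z
    rfl
  rw [e, N03_add hx (by fun_prop) (by fun_prop)]
  rw [N03_smul x _ (fun z => z ^ 4), N03_smul x _ (fun z => z), N04_J1, N04_J4]

theorem N53_X {x : Mk} (hx : IsNrm x) {m d : Ic} (hm : CMem (mid x) m)
    (hd : CMem (-(pp x) ^ 2) d) : IMem (I / 2 * JJ x PX).re (ivXmd m d) := by
  rw [n53_half, n53_JX hx]
  refine N51_mul (N51_ofQ (-1) 2 (by norm_num)) ?_
  refine And.right (?_ : CMem _ _)
  refine N51_cadd (N51_cadd (N51_cadd ?_ ?_) ?_) ?_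
  · refine N51_cmul (n53_cQ _ _ _ _ (by norm_num) (by norm_num) ?_ ?_)
      (n53_rQ 2 3 (by norm_num) hd (by push_cast; rfl))
    · simp
      norm_num
    · simp
      norm_num
  · refine N51_cmul (n53_cQ _ _ _ _ (by norm_num) (by norm_num) ?_ ?_)
      (N51_cmul (n53_rQ 2 3 (by norm_num) hd (by push_cast; rfl)) hm)
    · simp
      norm_num
    · simp
      norm_num
  · refine N51_cmul (n53_cQ _ _ _ _ (by norm_num) (by norm_num) ?_ ?_)
      (N51_cmul hd (N51_cadd (n53_rQ 2 3 (by norm_num) ?_ (by push_cast; rfl))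
        (n53_rQ 2 15 (by norm_num) hd (by push_cast; rfl))))
    · simp
      norm_num
    · simp
      norm_num
    · rw [sq]
      exact N51_cmul hm hm
  · refine N51_cmul (n53_cQ _ _ _ _ (by norm_num) (by norm_num) ?_ ?_)
      (N51_cmul (N51_cmul hd hm) (N51_cadd (n53_rQ 2 3 (by norm_num) ?_ (by push_cast; rfl))
        (n53_rQ 2 5 (by norm_num) hd (by push_cast; rfl))))
    · simp
      norm_num
    · simp
      norm_num
    · rw [sq]
      exact N51_cmul hm hm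

theorem N53_Y {x : Mk} (hx : IsNrm x) {m d : Ic} (hm : CMem (mid x) m)
    (hd : CMem (-(pp x) ^ 2) d) : IMem (I / 2 * JJ x PY).re (ivYmd m d) := by
  rw [n53_half, n53_JY hx]
  refine N51_mul (N51_ofQ (-1) 2 (by norm_num)) ?_
  refine And.right (?_ : CMem _ _)
  refine N51_cadd ?_ ?_
  · exact n53_rQ 404202 10000000 (by norm_num)
      (N51_cmul (n53_rQ 2 3 (by norm_num) hd (by push_cast; rfl)) hm) (by push_cast; norm_num)
  · refine n53_rQ 14192 10000000 (by norm_num) ?_ (by push_cast; norm_num)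
    refine N51_cmul hd (N51_cadd (N51_cadd ?_ ?_) ?_)
    · refine n53_rQ 2 3 (by norm_num) ?_ (by push_cast; rfl)
      have e : mid x ^ 4 = mid x * mid x * (mid x * mid x) := by ring
      rw [e]
      exact N51_cmul (N51_cmul hm hm) (N51_cmul hm hm)
    · refine N51_cmul (n53_rQ 4 5 (by norm_num) ?_ (by push_cast; rfl)) hd
      rw [sq]
      exact N51_cmul hm hm
    · refine n53_rQ 2 35 (by norm_num) ?_ (by push_cast; rfl)
      rw [sq (-(pp x) ^ 2)]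
      exact N51_cmul hd hd

theorem N53_X' {x : Mk} (hx : IsNrm x) {I' : Iw} (h : WMem x I') (hI : 0 < (I'.x1.nsq).lo) :
    IMem (I / 2 * JJ x PX).re (ivX I') :=
  N53_X hx (N53_mid hx h hI) (N53_d hx h hI)

theorem N53_Y' {x : Mk} (hx : IsNrm x) {I' : Iw} (h : WMem x I') (hI : 0 < (I'.x1.nsq).lo) :
    IMem (I / 2 * JJ x PY).re (ivY I') :=
  N53_Y hx (N53_mid hx h hI) (N53_d hx h hI)

end Pool.Agent.Lib.H11Q
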