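import Pool.Agent.Lib.H11Q.N52
import Pool.Agent.Lib.H11Q.N53

/-! # H11Q chunk N54: the numbers for the eight near lines. -/

set_option autoImplicit false

namespace Pool.Agent.Lib.H11Q

open Complex Metric
open scoped ComplexConjugate

theorem n54_pos : ∀ i : Fin 8, 0 < ((nbox i).x1.nsq).lo ∧ 0 < ((ybox 0 i).x1.nsq).lo ∧
    0 < ((ybox 4 i).x1.nsq).lo ∧ 0 < ((ybox 2 i).x1.nsq).lo := by
  decide +kernel

/-- upper bound from a box -/
theorem n54_up {x : ℝ} {I : Iv} (h : IMem x I) : x ≤ (I.hi : ℝ) / (Isc : ℝ) := by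
  rw [le_div_iff₀ N51_sc]
  exact h.2

theorem n54_low {x : ℝ} {I : Iv} (h : IMem x I) : (I.lo : ℝ) / (Isc : ℝ) ≤ x := by
  rw [div_le_iff₀ N51_sc]
  exact h.1

theorem n54_sum (f : ℕ → ℝ) (u v : ℕ → Iv) (g : ℕ → ℝ)
    (hf : ∀ i < 8, IMem (f i) (u i)) (hg : ∀ i < 8, IMem (g i) (v i))
    (hk : ((List.range 8).map (fun i => (u i).hi + (v i).hi)).sum ≤ -24370000000) :
    ∑ i ∈ Finset.range 8, (f i + g i) ≤ -(2437 / 10 ^ 5) := by
  have h1 : ∑ i ∈ Finset.range 8, (f i + g i) ≤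
      ∑ i ∈ Finset.range 8, (((u i).hi : ℝ) / (Isc : ℝ) + ((v i).hi : ℝ) / (Isc : ℝ)) := by
    apply Finset.sum_le_sum
    intro i hi
    have hi' := Finset.mem_range.mp hi
    exact add_le_add (n54_up (hf i hi')) (n54_up (hg i hi'))
  have h2 : ∑ i ∈ Finset.range 8, (((u i).hi : ℝ) / (Isc : ℝ) + ((v i).hi : ℝ) / (Isc : ℝ)) =
      ((((List.range 8).map (fun i => (u i).hi + (v i).hi)).sum : ℤ) : ℝ) / (Isc : ℝ) := by
    simp only [Finset.sum_range_succ, Finset.sum_range_zero, List.range_succ, List.range_zero,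
      List.map_append, List.map_cons, List.map_nil, List.sum_append, List.sum_cons, List.sum_nil]
    push_cast
    ring
  have h3 : ((((List.range 8).map (fun i => (u i).hi + (v i).hi)).sum : ℤ) : ℝ) ≤
      ((-24370000000 : ℤ) : ℝ) := by exact_mod_cast hk
  rw [h2] at h1
  refine h1.trans ?_
  rw [div_le_iff₀ N51_sc]
  refine h3.trans ?_
  norm_num [Isc]

theorem N54_near0 : ∑ i ∈ Finset.range 8, ((I / 2 * JJ (nu i) PX).re +
    (I / 2 * JJ ((chi * (gA ^ 0)⁻¹).lin (nu i)) PY).re) ≤ -(2437 / 10 ^ 5) := by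
  refine n54_sum _ (fun i => ivX (nbox i)) (fun i => ivY (ybox 0 i)) _ ?_ ?_ ?_
  · intro i hi
    exact N53_X' (N52_nu_nrm i) (N52_nu hi) (n54_pos ⟨i, hi⟩).1
  · intro i hi
    exact N53_Y' (N01_lin_nrm _ (N52_nu_nrm i)) (N52_y0 hi) (n54_pos ⟨i, hi⟩).2.1
  · decide +kernel

theorem N54_near3 : ∑ i ∈ Finset.range 8, ((I / 2 * JJ (nu i) PX).re +
    (I / 2 * JJ ((chi * (gA ^ 3)⁻¹).lin (nu i)) PY).re) ≤ -(2437 / 10 ^ 5) := by
  refine n54_sum _ (fun i => ivX (nbox i)) (fun i => ivY (ybox 4 i)) _ ?_ ?_ ?_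
  · intro i hi
    exact N53_X' (N52_nu_nrm i) (N52_nu hi) (n54_pos ⟨i, hi⟩).1
  · intro i hi
    exact N53_Y' (N01_lin_nrm _ (N52_nu_nrm i)) (N52_y3 hi) (n54_pos ⟨i, hi⟩).2.2.1
  · decide +kernel

theorem N54_near5 : ∑ i ∈ Finset.range 8, ((I / 2 * JJ (nu i) PX).re +
    (I / 2 * JJ ((chi * (gA ^ 5)⁻¹).lin (nu i)) PY).re) ≤ -(2437 / 10 ^ 5) := by
  refine n54_sum _ (fun i => ivX (nbox i)) (fun i => ivY (ybox 2 i)) _ ?_ ?_ ?_
  · intro i hi
    exact N53_X' (N52_nu_nrm i) (N52_nu hi) (n54_pos ⟨i, hi⟩).1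
  · intro i hi
    exact N53_Y' (N01_lin_nrm _ (N52_nu_nrm i)) (N52_y5 hi) (n54_pos ⟨i, hi⟩).2.2.2
  · decide +kernel

theorem N54_near {j : ℕ} (hj : j ∈ ({0, 3, 5} : Finset ℕ)) :
    ∑ i ∈ Finset.range 8, ((I / 2 * JJ (nu i) PX).re +
    (I / 2 * JJ ((chi * (gA ^ j)⁻¹).lin (nu i)) PY).re) ≤ -(2437 / 10 ^ 5) := by
  simp only [Finset.mem_insert, Finset.mem_singleton] at hj
  rcases hj with rfl | rfl | rfl
  · exact N54_near0
  · exact N54_near3
  · exact N54_near5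

/-- intervals for the squares of the lengths -/
def iL (i : ℕ) : Iv := (Iv.ofQ 4 1).mul (iInv (nbox i))

def nlow : ℕ → ℤ
  | 0 => 3198062000000
  | 1 => 984934000000
  | 2 => 633415000000
  | 3 => 183862000000
  | 4 => 183862000000
  | 5 => 125455000000
  | 6 => 84523000000
  | _ => 84523000000

theorem n54_L : ∀ i : Fin 8, nlow i ≤ (iL i).lo := by
  decide +kernel

theorem n54_Lup : ((List.range 8).map (fun i => (iL i).hi)).sum ≤ 5478800000000 := by
  decide +kernel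

theorem N54_Lsum : ∑ i ∈ Finset.range 8, Lsq (nu i) ≤ 54788 / 10 ^ 4 := by
  have h1 : ∑ i ∈ Finset.range 8, Lsq (nu i) ≤
      ∑ i ∈ Finset.range 8, (((iL i).hi : ℝ) / (Isc : ℝ)) := by
    apply Finset.sum_le_sum
    intro i hi
    have hi' := Finset.mem_range.mp hi
    exact n54_up (N53_Lsq (N52_nu hi') (n54_pos ⟨i, hi'⟩).1)
  have h2 : ∑ i ∈ Finset.range 8, (((iL i).hi : ℝ) / (Isc : ℝ)) =
      ((((List.range 8).map (fun i => (iL i).hi)).sum : ℤ) : ℝ) / (Isc : ℝ) := by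
    simp only [Finset.sum_range_succ, Finset.sum_range_zero, List.range_succ, List.range_zero,
      List.map_append, List.map_cons, List.map_nil, List.sum_append, List.sum_cons, List.sum_nil]
    push_cast
    ring
  have h3 : ((((List.range 8).map (fun i => (iL i).hi)).sum : ℤ) : ℝ) ≤
      ((5478800000000 : ℤ) : ℝ) := by exact_mod_cast n54_Lup
  rw [h2] at h1
  refine h1.trans ?_
  rw [div_le_iff₀ N51_sc]
  refine h3.trans ?_
  norm_num [Isc]

theorem N54_Llow {i : ℕ} (hi : i < 8) : ((nlow i : ℤ) : ℝ) / (Isc : ℝ) ≤ Lsq (nu i) := by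
  refine le_trans ?_ (n54_low (N53_Lsq (N52_nu hi) (n54_pos ⟨i, hi⟩).1))
  apply div_le_div_of_nonneg_right _ N51_sc.le
  exact_mod_cast n54_L ⟨i, hi⟩

theorem N54_prod : 15145 / 10 ^ 4 ≤ ∏ i ∈ Finset.range 8, (1 + rr * Lsq (nu i)) := by
  have hr := N50_rr
  have h : ∀ i < 8, ∀ q : ℝ, q = ((nlow i : ℤ) : ℝ) / (Isc : ℝ) → 0 ≤ q →
      1 + 81996 / 10 ^ 6 * q ≤ 1 + rr * Lsq (nu i) := by
    intro i hi q hq hq0
    have h1 := N54_Llow hi
    rw [← hq] at h1
    have : 81996 / 10 ^ 6 * q ≤ rr * Lsq (nu i) :=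
      mul_le_mul hr h1 hq0 (le_trans (by norm_num) hr)
    linarith
  have h0 := h 0 (by norm_num) (3198062 / 10 ^ 6) (by norm_num [nlow, Isc]) (by norm_num)
  have h1 := h 1 (by norm_num) (984934 / 10 ^ 6) (by norm_num [nlow, Isc]) (by norm_num)
  have h2 := h 2 (by norm_num) (633415 / 10 ^ 6) (by norm_num [nlow, Isc]) (by norm_num)
  have h3 := h 3 (by norm_num) (183862 / 10 ^ 6) (by norm_num [nlow, Isc]) (by norm_num)
  have h4 := h 4 (by norm_num) (183862 / 10 ^ 6) (by norm_num [nlow, Isc]) (by norm_num)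
  have h5 := h 5 (by norm_num) (125455 / 10 ^ 6) (by norm_num [nlow, Isc]) (by norm_num)
  have h6 := h 6 (by norm_num) (84523 / 10 ^ 6) (by norm_num [nlow, Isc]) (by norm_num)
  have h7 := h 7 (by norm_num) (84523 / 10 ^ 6) (by norm_num [nlow, Isc]) (by norm_num)
  have key : ∏ i ∈ Finset.range 8, (1 + 81996 / 10 ^ 6 *
      (![3198062 / 10 ^ 6, 984934 / 10 ^ 6, 633415 / 10 ^ 6, 183862 / 10 ^ 6, 183862 / 10 ^ 6,
        125455 / 10 ^ 6, 84523 / 10 ^ 6, 84523 / 10 ^ 6] : Fin 8 → ℝ) (Fin.ofNat 8 i)) ≤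
      ∏ i ∈ Finset.range 8, (1 + rr * Lsq (nu i)) := by
    apply Finset.prod_le_prod
    · intro i hi
      have hi' := Finset.mem_range.mp hi
      interval_cases i <;> norm_num [Fin.ofNat]
    · intro i hi
      have hi' := Finset.mem_range.mp hi
      interval_cases i
      · exact h0
      · exact h1
      · exact h2
      · exact h3
      · exact h4
      · exact h5
      · exact h6
      · exact h7
  refine le_trans ?_ key
  simp only [Finset.prod_range_succ, Finset.prod_range_zero]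
  norm_num [Fin.ofNat]

/-! ### the eight lines are different and belong to `Gam0` -/

def sepv (I J : Iv) : Bool := decide (I.hi < J.lo) || decide (J.hi < I.lo)
def sepw (I J : Iw) : Bool := sepv I.x0 J.x0 || sepv I.x1.re J.x1.re || sepv I.x1.im J.x1.im
def negw (I : Iw) : Iw := ⟨I.x0.neg, I.x1.neg⟩

theorem n54_sepv {x y : ℝ} {I J : Iv} (hx : IMem x I) (hy : IMem y J) (h : sepv I J = true) :
    x ≠ y := by
  intro e
  subst e
  unfold sepv at h
  rw [Bool.or_eq_true, decide_eq_true_eq, decide_eq_true_eq] at h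
  rcases h with h | h
  · have h' : (I.hi : ℝ) < J.lo := by exact_mod_cast h
    linarith [hx.2, hy.1]
  · have h' : (J.hi : ℝ) < I.lo := by exact_mod_cast h
    linarith [hx.1, hy.2]

theorem n54_sepw {x y : Mk} {I J : Iw} (hx : WMem x I) (hy : WMem y J) (h : sepw I J = true) :
    x ≠ y := by
  intro e
  subst e
  unfold sepw at h
  rw [Bool.or_eq_true, Bool.or_eq_true] at h
  rcases h with (h | h) | h
  · exact n54_sepv hx.1 hy.1 h rfl
  · exact n54_sepv hx.2.1 hy.2.1 h rfl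
  · exact n54_sepv hx.2.2 hy.2.2 h rfl

theorem n54_negw {x : Mk} {I : Iw} (hx : WMem x I) : WMem (-x) (negw I) :=
  ⟨N51_neg hx.1, N51_cneg hx.2⟩

theorem n54_sep : ∀ i j : Fin 8, i ≠ j → sepw (nbox i) (nbox j) = true ∧
    sepw (nbox i) (negw (nbox j)) = true := by
  decide +kernel

theorem N54_ne {i j : ℕ} (hi : i < 8) (hj : j < 8) (hij : i ≠ j) :
    nu i ≠ nu j ∧ nu i ≠ -nu j := by
  have h := n54_sep ⟨i, hi⟩ ⟨j, hj⟩ (by
    intro e
    exact hij (Fin.mk.inj_iff.mp e))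
  exact ⟨n54_sepw (N52_nu hi) (N52_nu hj) h.1, n54_sepw (N52_nu hi) (n54_negw (N52_nu hj)) h.2⟩

def stepP (p : Bool × ℕ) : Equiv.Perm (Fin 7) := if p.1 then (finRotate 7) ^ p.2 else tau

theorem n54_pi7 (l : List (Bool × ℕ)) : pi7 (wordW l) = (l.map stepP).prod := by
  induction l with
  | nil => simp [wordW]
  | cons p l ih =>
    have e : pi7 (wordW (p :: l)) = pi7 (stepW p) * pi7 (wordW l) := by
      simp [wordW]
    rw [e, ih, List.map_cons, List.prod_cons]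
    congr 1
    obtain ⟨b, k⟩ := p
    cases b
    · show pi7 wB = tau
      simp [pi7, wB]
    · show pi7 (wA ^ k) = (finRotate 7) ^ k
      rw [map_pow]
      congr 1

theorem n54_perm : ∀ i : Fin 8, (((nword i).map stepP).prod) 0 = 0 := by
  decide +kernel

theorem N54_mem {i : ℕ} (hi : i < 8) : wordW (nword i) ∈ Gam0 := by
  show pi7 (wordW (nword i)) • (0 : Fin 7) = 0
  rw [n54_pi7]
  exact n54_perm ⟨i, hi⟩

end Pool.Agent.Lib.H11Q
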