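import Pool.Agent.Lib.H11Q.EE
import Pool.Agent.Lib.H11Q.N0Q

/-! # H11Q chunk N41 (M): `Qst` has a simple pole at `0` and no other singularity near the closed disc.

PROOF.  `κ = k0`, `a = a0`, `g z = (z-a)/(1-az)`.  For `‖z‖ < 21/20`: `1 - az ≠ 0`, `‖g z‖ < 11/10` (equivalently
`|z-a|² < 1.21 |1-az|²`; `|z-a|² - |1-az|² = (|z|²-1)(1-a²)`, and `|1-az| ≥ 1 - 1.05·0.154 = 0.838`, so
`|z-a|² ≤ |1-az|² + 0.1025 ≤ 1.146 |1-az|²`).  On `‖w‖ < 11/10`: `Zi κ` is holomorphic with derivative `(deriv (WW κ) (Zi κ w))⁻¹`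
(`E_Zi_deriv`), values in `‖Z‖ ≤ 6/5`, `deriv (WW κ)` is holomorphic on `‖Z‖ < 5/4` and not zero (`E_hol`), `Zi κ (-a) = -2κ`
(`WW κ (-2κ) = -a0` by `E_neg`, `E_aa_WW`, `E_k0`, and `WW κ` is injective on `‖Z‖ ≤ 6/5`: `‖deriv - 1‖ ≤ 1/2`; or: `E_Zi` and uniqueness),
and `Zi κ w = -2κ` only for `w = WW κ (-2κ) = -a`.
`k w := dslope (Zi κ) (-a) w`: `Zi κ w + 2κ = (w + a) k w`, holomorphic on `‖w‖ < 11/10` (`differentiableOn_dslope`), never zero.
`g z + a = z (1-a²)/(1-az)`.  So `h z := (1-az)/(4 (deriv (WW κ) (Zi κ (g z)))² k(g z) (1-a²)) · ((1-a²)/(1-az)²)²`. -/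

set_option autoImplicit false

namespace Pool.Agent.Lib.H11Q

open Complex Set MeasureTheory Metric Filter
open scoped ComplexConjugate Topology

theorem n41_a0 : (15393 / 100000 : ℝ) < a0 ∧ a0 < 15394 / 100000 := E18_a0

theorem n41_den {z : ℂ} (hz : ‖z‖ < 21 / 20) : 838 / 1000 ≤ ‖1 - (a0 : ℂ) * z‖ := by
  obtain ⟨h1, h2⟩ := n41_a0
  have h3 := norm_sub_norm_le (1 : ℂ) ((a0 : ℂ) * z)
  rw [norm_one, norm_mul, Complex.norm_real, Real.norm_eq_abs, abs_of_pos (by linarith)] at h3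
  nlinarith [norm_nonneg z]

theorem n41_ne {z : ℂ} (hz : ‖z‖ < 21 / 20) : 1 - (a0 : ℂ) * z ≠ 0 := by
  have := n41_den hz
  intro h
  rw [h, norm_zero] at this
  norm_num at this

theorem n41_g {z : ℂ} (hz : ‖z‖ < 21 / 20) : ‖(z - a0) / (1 - (a0 : ℂ) * z)‖ < 11 / 10 := by
  obtain ⟨h1, h2⟩ := n41_a0
  have h3 := n41_den hz
  have h4 : 0 < ‖1 - (a0 : ℂ) * z‖ := by linarith
  rw [norm_div, div_lt_iff₀ h4]
  have h5 : ‖z - a0‖ ^ 2 = ‖1 - (a0 : ℂ) * z‖ ^ 2 + (‖z‖ ^ 2 - 1) * (1 - a0 ^ 2) := by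
    rw [← normSq_eq_norm_sq, ← normSq_eq_norm_sq, ← normSq_eq_norm_sq]
    simp only [normSq_apply, sub_re, sub_im, mul_re, mul_im, ofReal_re, ofReal_im, one_re, one_im]
    ring
  have h6 : ‖z‖ ^ 2 - 1 < 1025 / 10000 := by nlinarith [norm_nonneg z]
  have h7 : (‖z‖ ^ 2 - 1) * (1 - a0 ^ 2) ≤ 1025 / 10000 := by
    have h8 : 0 ≤ 1 - a0 ^ 2 := by nlinarith
    have h9 : 1 - a0 ^ 2 ≤ 1 := by nlinarith
    rcases le_or_gt 0 (‖z‖ ^ 2 - 1) with h | h
    · calc (‖z‖ ^ 2 - 1) * (1 - a0 ^ 2) ≤ (‖z‖ ^ 2 - 1) * 1 := mul_le_mul_of_nonneg_left h9 h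
        _ ≤ 1025 / 10000 := by linarith
    · nlinarith
  have h10 : ‖z - a0‖ ^ 2 < (11 / 10 * ‖1 - (a0 : ℂ) * z‖) ^ 2 := by
    rw [h5, mul_pow]
    nlinarith
  exact lt_of_pow_lt_pow_left₀ 2 (by positivity) h10

theorem n41_Zi : Zi k0 (-(a0 : ℂ)) = -(2 * (k0 : ℂ)) := by
  obtain ⟨h1, h2, h3⟩ := E_k0
  have h0 : 0 ≤ k0 := by linarith
  have h10 : k0 ≤ 1 / 10 := by linarith
  have hn : ‖-(2 * (k0 : ℂ))‖ < 5 / 4 := by
    rw [norm_neg, norm_mul, Complex.norm_real, Real.norm_eq_abs, abs_of_nonneg h0]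
    simp
    linarith
  have hn' : ‖(2 * (k0 : ℂ))‖ < 5 / 4 := by
    rwa [norm_neg] at hn
  have hW : WW k0 (-(2 * (k0 : ℂ))) = -(a0 : ℂ) := by
    rw [E_neg h0 h10 hn', E_aa_WW h0 h10, h1]
  have hle : ‖WW k0 (-(2 * (k0 : ℂ)))‖ ≤ 11 / 10 := by
    obtain ⟨h4, h5⟩ := n41_a0
    rw [hW, norm_neg, Complex.norm_real, Real.norm_eq_abs, abs_of_pos (by linarith)]
    linarith
  have := E10_WW h0 h10 hn hle
  rw [hW] at this
  exact this

theorem N41_h : ∃ h : ℂ → ℂ, DifferentiableOn ℂ h (ball 0 (21 / 20)) ∧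
    ∀ z : ℂ, z ≠ 0 → ‖z‖ < 21 / 20 → Qst z = h z / z := by
  obtain ⟨ha1, ha2⟩ := n41_a0
  obtain ⟨hk, hk1, hk2⟩ := E_k0
  have h0 : 0 ≤ k0 := by linarith
  have h10 : k0 ≤ 1 / 10 := by linarith
  have hg : DifferentiableOn ℂ (fun z : ℂ => (z - a0) / (1 - (a0 : ℂ) * z)) (ball 0 (21 / 20)) := by
    apply DifferentiableOn.div
    · fun_prop
    · fun_prop
    · intro z hz
      exact n41_ne (by simpa using hz)
  have hmap : MapsTo (fun z : ℂ => (z - a0) / (1 - (a0 : ℂ) * z)) (ball 0 (21 / 20))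
      (ball 0 (11 / 10)) := by
    intro z hz
    have := n41_g (z := z) (by simpa using hz)
    simpa using this
  have hZi : DifferentiableOn ℂ (Zi k0) (ball 0 (11 / 10)) := by
    intro w hw
    exact (E_Zi_deriv h0 h10 (by simpa using hw)).differentiableAt.differentiableWithinAt
  have hZmap : MapsTo (Zi k0) (ball (0 : ℂ) (11 / 10)) (ball 0 (5 / 4)) := by
    intro w hw
    have hw' : ‖w‖ < 11 / 10 := by simpa using hw
    have := (E_Zi h0 h10 hw'.le).1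
    rw [mem_ball_zero_iff]
    linarith
  have hW : DifferentiableOn ℂ (WW k0) (ball 0 (5 / 4)) := by
    intro w hw
    exact (E_hol h0 h10 (by simpa using hw)).1.differentiableWithinAt
  have hWd : DifferentiableOn ℂ (deriv (WW k0)) (ball 0 (5 / 4)) := hW.deriv isOpen_ball
  have hWne : ∀ Z : ℂ, ‖Z‖ < 5 / 4 → deriv (WW k0) Z ≠ 0 := by
    intro Z hZ h
    have := (E_hol h0 h10 hZ).2
    rw [h, zero_sub, norm_neg, norm_one] at this
    norm_num at this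
  have hmem : -(a0 : ℂ) ∈ ball (0 : ℂ) (11 / 10) := by
    rw [mem_ball_zero_iff, norm_neg, Complex.norm_real, Real.norm_eq_abs, abs_of_pos (by linarith)]
    linarith
  have hk' : DifferentiableOn ℂ (dslope (Zi k0) (-(a0 : ℂ))) (ball 0 (11 / 10)) :=
    (Complex.differentiableOn_dslope (isOpen_ball.mem_nhds hmem)).mpr hZi
  have hslope : ∀ w : ℂ, (w + a0) * dslope (Zi k0) (-(a0 : ℂ)) w = Zi k0 w + 2 * k0 := by
    intro w
    have := sub_smul_dslope (Zi k0) (-(a0 : ℂ)) w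
    rw [n41_Zi, smul_eq_mul] at this
    rw [sub_neg_eq_add] at this
    rw [this]
    ring
  have hkne : ∀ w : ℂ, ‖w‖ < 11 / 10 → dslope (Zi k0) (-(a0 : ℂ)) w ≠ 0 := by
    intro w hw h
    by_cases hwa : w = -(a0 : ℂ)
    · rw [hwa, dslope_same, (E_Zi_deriv h0 h10 (by simpa using hmem)).deriv] at h
      have hne := hWne (Zi k0 (-(a0 : ℂ))) (by simpa using hZmap hmem)
      exact inv_ne_zero hne h
    · have h1 := hslope w
      rw [h, mul_zero] at h1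
      have h2 : Zi k0 w = Zi k0 (-(a0 : ℂ)) := by
        rw [n41_Zi]
        linear_combination -h1
      have h3 := (E_Zi h0 h10 hw.le).2.1
      have h4 := (E_Zi h0 h10 (w := -(a0 : ℂ)) (by
        rw [mem_ball_zero_iff] at hmem
        exact hmem.le)).2.1
      rw [h2, h4] at h3
      exact hwa h3.symm
  have ha : (1 - (a0 : ℂ) ^ 2) ≠ 0 := by
    have : (1 - a0 ^ 2) ≠ 0 := by nlinarith
    exact_mod_cast this
  refine ⟨fun z => (1 - (a0 : ℂ) * z) /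
    (4 * (deriv (WW k0) (Zi k0 ((z - a0) / (1 - (a0 : ℂ) * z)))) ^ 2 *
      dslope (Zi k0) (-(a0 : ℂ)) ((z - a0) / (1 - (a0 : ℂ) * z)) * (1 - (a0 : ℂ) ^ 2)) *
      ((1 - (a0 : ℂ) ^ 2) / (1 - (a0 : ℂ) * z) ^ 2) ^ 2, ?_, ?_⟩
  · have hD1 : DifferentiableOn ℂ (fun z : ℂ => deriv (WW k0) (Zi k0 ((z - a0) / (1 - (a0 : ℂ) * z))))
        (ball 0 (21 / 20)) :=
      hWd.comp (hZi.comp hg hmap) (hZmap.comp hmap)
    have hD2 : DifferentiableOn ℂ
        (fun z : ℂ => dslope (Zi k0) (-(a0 : ℂ)) ((z - a0) / (1 - (a0 : ℂ) * z))) (ball 0 (21 / 20)) :=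
      hk'.comp hg hmap
    have hl : DifferentiableOn ℂ (fun z : ℂ => 1 - (a0 : ℂ) * z) (ball 0 (21 / 20)) := by fun_prop
    apply DifferentiableOn.mul
    · apply DifferentiableOn.div hl
      · exact ((hD1.pow 2).const_mul 4).mul hD2 |>.mul_const _
      · intro z hz
        have hz' : ‖z‖ < 21 / 20 := by simpa using hz
        refine mul_ne_zero (mul_ne_zero (mul_ne_zero (by norm_num) (pow_ne_zero 2 ?_)) ?_) ha
        · apply hWne
          have := hZmap (hmap hz)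
          simpa using this
        · exact hkne _ (n41_g hz')
    · apply DifferentiableOn.pow
      apply DifferentiableOn.div (differentiableOn_const _) (hl.pow 2)
      intro z hz
      exact pow_ne_zero 2 (n41_ne (by simpa using hz))
  · intro z hz0 hz
    have hu := n41_ne hz
    have hgn := n41_g hz
    have hD := hWne (Zi k0 ((z - a0) / (1 - (a0 : ℂ) * z))) (by
      have := (E_Zi h0 h10 hgn.le).1
      linarith)
    have hK := hkne _ hgn
    have hS := hslope ((z - a0) / (1 - (a0 : ℂ) * z))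
    have hga : (z - a0) / (1 - (a0 : ℂ) * z) + a0 = z * (1 - (a0 : ℂ) ^ 2) / (1 - (a0 : ℂ) * z) := by
      rw [div_add' _ _ _ hu]
      congr 1
      ring
    rw [hga] at hS
    unfold Qst Qc
    beta_reduce
    rw [← hS]
    generalize deriv (WW k0) (Zi k0 ((z - a0) / (1 - (a0 : ℂ) * z))) = D at *
    generalize dslope (Zi k0) (-(a0 : ℂ)) ((z - a0) / (1 - (a0 : ℂ) * z)) = K at *
    clear hgn hga hS
    generalize 1 - (a0 : ℂ) * z = u at *
    generalize 1 - (a0 : ℂ) ^ 2 = A at *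
    field_simp

end Pool.Agent.Lib.H11Q
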