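import Pool.Agent.Lib.H11Q.N22
import Pool.Agent.Lib.H11Q.N41

/-! # H11Q chunk N60 (M): integrability of `mu L * wt φ Qst`.

PROOF.  `N22_int` with `F = wt φ Qst`.  Write `h` as in `N41_h` (continuous on the closed unit disc, bounded there by some `B`).
Measurability: on `ball 0 1` without the point `p = φ⁻¹.app 0`, `F z = h (φ.app z)/(φ.app z)/(φ.den z)^4` is continuous
(`ContinuousOn.aestronglyMeasurable` on the open set `ball 0 1 \ {p}`; the point has measure zero; or `AEStronglyMeasurable` of the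
everywhere defined function `h(φ z)/(φ z)/..`, equal to `F` except at one point).
Bound: let `z` be in the ball with `mu L z ≠ 0`.  By `hZ` (with `w` of `hφ`) `sh z (φ⁻¹ 0) ≥ δ`; and
`sh z (φ⁻¹.app 0) = sh (φ.app z) 0 = |φ z|²/(1-|φ z|²)` (invariance of `sh`: from `SU.normSq_app` and
`|g z - g w|² = |z-w|²/(|den z|²|den w|²)`), so `|φ z|² ≥ δ/(1+δ)`; `|den| ≥ |a| - |b| = 1/(|a|+|b|)`. -/

set_option autoImplicit false

namespace Pool.Agent.Lib.H11Q

open Complex Set MeasureTheory Metric Filter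
open scoped ComplexConjugate Topology

/-- `T_mu_zero` (module T). -/
def MuZ (L : LineSys) : Prop := ∃ δ > 0, ∀ (w : W) (z : Disc),
  (sh z (ac w o0) < δ ∨ sh z (ac w v0) < δ) → mu L z = 0

theorem n60_diff (g : SU) {z w : ℂ} (hz : ‖z‖ < 1) (hw : ‖w‖ < 1) :
    g.app z - g.app w = (z - w) / (g.den z * g.den w) := by
  have h1 := g.den_ne hz.le
  have h2 := g.den_ne hw.le
  have e1 : g.app z = (g.a * z + g.b) / g.den z := rfl
  have e2 : g.app w = (g.a * w + g.b) / g.den w := rfl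
  have h3 : g.a * conj g.a - g.b * conj g.b = 1 := by
    rw [Complex.mul_conj, Complex.mul_conj]
    exact_mod_cast g.h
  rw [e1, e2, div_sub_div _ _ h1 h2]
  congr 1
  unfold SU.den
  linear_combination (z - w) * h3

theorem N60_sh (g : SU) {z w : ℂ} (hz : ‖z‖ < 1) (hw : ‖w‖ < 1) :
    sh (g.app z) (g.app w) = sh z w := by
  have h1 : ‖g.den z‖ ≠ 0 := norm_ne_zero_iff.2 (g.den_ne hz.le)
  have h2 : ‖g.den w‖ ≠ 0 := norm_ne_zero_iff.2 (g.den_ne hw.le)
  unfold sh
  rw [n60_diff g hz hw, g.normSq_app hz.le, g.normSq_app hw.le, norm_div, norm_mul]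
  have h3 : 0 < 1 - ‖z‖ ^ 2 := by nlinarith [norm_nonneg z]
  have h4 : 0 < 1 - ‖w‖ ^ 2 := by nlinarith [norm_nonneg w]
  field_simp

theorem n60_app_inv (g : SU) {z : ℂ} (hz : ‖z‖ < 1) : g⁻¹.app (g.app z) = z := by
  rw [← SU.app_mul _ _ hz.le, inv_mul_cancel, SU.app_one]

theorem n60_app_inv' (g : SU) {z : ℂ} (hz : ‖z‖ < 1) : g.app (g⁻¹.app z) = z := by
  rw [← SU.app_mul _ _ hz.le, mul_inv_cancel, SU.app_one]

theorem N60_int (L : LineSys) (hZ : MuZ L) (φ : SU)
    (hφ : ∃ w : W, φ⁻¹.app 0 = ac w o0 ∨ φ⁻¹.app 0 = ac w v0) :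
    IntegrableOn (fun z => mu L z * wt φ Qst z) (ball (0 : ℂ) 1) := by
  obtain ⟨h, hh, hQ⟩ := N41_h
  obtain ⟨δ, hδ, hmu⟩ := hZ
  have h01 : ‖(0 : ℂ)‖ < 1 := by simp
  obtain ⟨p, hp⟩ : ∃ p : ℂ, p = φ⁻¹.app 0 := ⟨_, rfl⟩
  have hp1 : ‖p‖ < 1 := by
    rw [hp]
    exact SU.app_norm_lt _ h01
  have hφp : φ.app p = 0 := by
    rw [hp]
    exact n60_app_inv' φ h01
  have hne : ∀ z : ℂ, ‖z‖ < 1 → z ≠ p → φ.app z ≠ 0 := by
    intro z hz hzp h0
    apply hzp
    rw [hp, ← h0]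
    exact (n60_app_inv φ hz).symm
  have hdenc : Continuous φ.den := by
    unfold SU.den
    fun_prop
  have happc : ContinuousOn φ.app (ball (0 : ℂ) 1) := by
    intro z hz
    have hz' : ‖z‖ < 1 := by rwa [mem_ball_zero_iff] at hz
    have h1 : ContinuousAt (fun z => (φ.a * z + φ.b) / φ.den z) z := by
      apply ContinuousAt.div
      · fun_prop
      · exact hdenc.continuousAt
      · exact φ.den_ne hz'.le
    exact h1.continuousWithinAt
  -- measurability
  have hF : AEStronglyMeasurable (wt φ Qst) (volume.restrict (ball (0 : ℂ) 1)) := by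
    have hset : (ball (0 : ℂ) 1 \ {p} : Set ℂ) =ᵐ[volume] (ball (0 : ℂ) 1 : Set ℂ) :=
      diff_null_ae_eq_self (measure_singleton p)
    rw [← Measure.restrict_congr_set hset]
    have hop : MeasurableSet (ball (0 : ℂ) 1 \ {p} : Set ℂ) :=
      measurableSet_ball.diff (measurableSet_singleton p)
    have hc : ContinuousOn (fun z => h (φ.app z) / φ.app z / φ.den z ^ 4)
        (ball (0 : ℂ) 1 \ {p} : Set ℂ) := by
      have h1 : ContinuousOn φ.app (ball (0 : ℂ) 1 \ {p} : Set ℂ) := happc.mono diff_subset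
      have h2 : ContinuousOn (fun z => h (φ.app z)) (ball (0 : ℂ) 1 \ {p} : Set ℂ) := by
        refine hh.continuousOn.comp h1 ?_
        intro z hz
        have hz1 : ‖z‖ < 1 := by
          have := hz.1
          rwa [mem_ball_zero_iff] at this
        rw [mem_ball_zero_iff]
        have := φ.app_norm_lt hz1
        linarith
      refine (h2.div h1 ?_).div (hdenc.continuousOn.pow 4) ?_
      · intro z hz
        have hz1 : ‖z‖ < 1 := by
          have := hz.1
          rwa [mem_ball_zero_iff] at this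
        exact hne z hz1 hz.2
      · intro z hz
        have hz1 : ‖z‖ < 1 := by
          have := hz.1
          rwa [mem_ball_zero_iff] at this
        exact pow_ne_zero 4 (φ.den_ne hz1.le)
    refine (hc.aestronglyMeasurable hop).congr ?_
    filter_upwards [ae_restrict_mem hop] with z hz
    have hz1 : ‖z‖ < 1 := by
      have := hz.1
      rwa [mem_ball_zero_iff] at this
    unfold wt
    rw [hQ (φ.app z) (hne z hz1 hz.2) (by have := φ.app_norm_lt hz1; linarith)]
  -- the bound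
  obtain ⟨B, hB⟩ := (isCompact_closedBall (0 : ℂ) 1).exists_bound_of_continuousOn
    (hh.continuousOn.mono (closedBall_subset_ball (by norm_num : (1 : ℝ) < 21 / 20)))
  have hB0 : 0 ≤ B := (norm_nonneg _).trans (hB 0 (by simp))
  have hab : 0 < ‖φ.a‖ - ‖φ.b‖ := by
    have h1 := φ.h
    rw [normSq_eq_norm_sq, normSq_eq_norm_sq] at h1
    nlinarith [norm_nonneg φ.a, norm_nonneg φ.b]
  set η : ℝ := Real.sqrt (δ / (1 + δ)) with hη
  have hη0 : 0 < η := Real.sqrt_pos.2 (by positivity)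
  refine N22_int L hF (M := B / η / (‖φ.a‖ - ‖φ.b‖) ^ 4) ?_
  intro z hz hmz
  have hz1 : ‖z‖ < 1 := by rwa [mem_ball_zero_iff] at hz
  have hsh : δ ≤ sh z p := by
    by_contra hcon
    push Not at hcon
    obtain ⟨w, hw⟩ := hφ
    apply hmz
    refine hmu w ⟨z, hz1⟩ ?_
    rw [← hp] at hw
    rcases hw with hw | hw
    · left
      rw [← hw]
      exact hcon
    · right
      rw [← hw]
      exact hcon
  rw [← N60_sh φ hz1 hp1, hφp] at hsh
  have hu1 := φ.app_norm_lt hz1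
  have hu0 := norm_nonneg (φ.app z)
  have hu2 : 0 < 1 - ‖φ.app z‖ ^ 2 := by nlinarith
  have hu3 : δ / (1 + δ) ≤ ‖φ.app z‖ ^ 2 := by
    unfold sh at hsh
    rw [sub_zero, norm_zero, le_div_iff₀ (by nlinarith)] at hsh
    rw [div_le_iff₀ (by positivity)]
    nlinarith
  have hu4 : η ≤ ‖φ.app z‖ := by
    rw [hη]
    exact Real.sqrt_le_iff.2 ⟨hu0, hu3⟩
  have hapne : φ.app z ≠ 0 := by
    intro h0
    rw [h0, norm_zero] at hu4
    linarith
  have hden : ‖φ.a‖ - ‖φ.b‖ ≤ ‖φ.den z‖ := by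
    unfold SU.den
    have h1 := norm_sub_norm_le (conj φ.a) (-(conj φ.b * z))
    rw [norm_neg, norm_mul, norm_conj, norm_conj, sub_neg_eq_add, add_comm (conj φ.a)] at h1
    have h2 : ‖φ.b‖ * ‖z‖ ≤ ‖φ.b‖ := mul_le_of_le_one_right (norm_nonneg _) hz1.le
    linarith
  unfold wt
  rw [hQ (φ.app z) hapne (by linarith), norm_div, norm_div, norm_pow]
  have hBz : ‖h (φ.app z)‖ ≤ B := hB _ (by rw [mem_closedBall_zero_iff]; exact hu1.le)
  have g1 : ‖h (φ.app z)‖ / ‖φ.app z‖ ≤ B / η := div_le_div₀ hB0 hBz hη0 hu4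
  have g2 : (‖φ.a‖ - ‖φ.b‖) ^ 4 ≤ ‖φ.den z‖ ^ 4 := pow_le_pow_left₀ hab.le hden 4
  exact div_le_div₀ (div_nonneg hB0 hη0.le) g1 (pow_pos hab 4) g2

end Pool.Agent.Lib.H11Q
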