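import Pool.Agent.Lib.H11Q.N25
import Pool.Agent.Lib.H11Q.N45
import Pool.Agent.Lib.H11Q.N60

/-! # H11Q chunk N61 (S/M): combination of the pairings.

PROOFS.  `bb L φ = Re ∫ mu L z * wt φ Qst z` (definition).  `rho (wA ^ s) = gA ^ s` (`rho = FreeGroup.lift ..`), `SU.act` of
`(gA ^ s)⁻¹` and `rot o0 (-(2πs/7))` agree (both are `(exp(-iπs/7), 0)`: `N02_gA`, `N02_rot`), so `wt` agrees (`N02_wt_act`).
* `N61_X`: `∑ lam s ∫ mu wt_s Qst = ∫ mu ∑ lam s wt_s Qst` (`integral_finset_sum`, `N60_int` with `w = 1`: `φ⁻¹.app 0 = 0 = ac 1 o0`), and the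
  integrand is `mu L z * H z` except at `z = 0` (`he`).
* `N61_Y`: `φ_r := chi * (rho (wA^j * wB^r))⁻¹ = chi * (gB^r)⁻¹ * (gA^j)⁻¹`, `wt φ_r Qst = wt (rot o0 (-(2πr/3)) * (chi * (gA^j)⁻¹)) Qst`
  (`N25_chiB`, `N02_wt_act`) `= wt (chi (gA^j)⁻¹) (wt (rot ..) Qst)` on the disc (`N02_wt_mul`).  Sum: `wt (chi (gA^j)⁻¹) H z` for
  `(chi (gA^j)⁻¹).app z ≠ 0`, i.e. all `z` but one.  Integrability: `N60_int` with `w = wA^j * wB^r`:
  `φ_r⁻¹.app 0 = (rho w).app (chi⁻¹.app 0) = (rho w).app vv = ac w v0` (`N25_chi_app`). -/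

set_option autoImplicit false

namespace Pool.Agent.Lib.H11Q

open Complex Set MeasureTheory Metric Filter
open scoped ComplexConjugate Topology

theorem n61_bb (L : LineSys) (φ : SU) :
    bb L φ = (∫ z in ball (0 : ℂ) 1, mu L z * wt φ Qst z).re := rfl

theorem n61_rhoA (s : ℕ) : rho (wA ^ s) = gA ^ s := by
  rw [map_pow]
  congr 1
  unfold rho wA
  simp

theorem n61_rhoB (s : ℕ) : rho (wB ^ s) = gB ^ s := by
  rw [map_pow]
  congr 1
  unfold rho wB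
  simp

theorem n61_rot (s : ℕ) : (gA ^ s)⁻¹ = rot o0 (-(2 * Real.pi * s / 7)) := by
  obtain ⟨h1, h2⟩ := N02_gA s
  obtain ⟨h3, h4⟩ := N02_rot (-(2 * Real.pi * s / 7))
  apply SU.ext
  · rw [SU.inv_a, h1, h3, ← Complex.exp_conj]
    congr 1
    rw [map_mul, Complex.conj_ofReal, Complex.conj_I]
    push_cast
    ring
  · rw [SU.inv_b, h2, h4, neg_zero]

theorem n61_sum (L : LineSys) {ι : Type*} (S : Finset ι) (c : ι → ℝ) (F : ι → ℂ → ℂ) {G : ℂ → ℂ}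
    (hF : ∀ i ∈ S, IntegrableOn (fun z => mu L z * F i z) (ball (0 : ℂ) 1)) (p : ℂ)
    (hG : ∀ z : ℂ, z ≠ p → ‖z‖ < 1 → G z = ∑ i ∈ S, (c i : ℂ) * F i z) :
    ∑ i ∈ S, c i * (∫ z in ball (0 : ℂ) 1, mu L z * F i z).re =
      (∫ z in ball (0 : ℂ) 1, mu L z * G z).re := by
  have h1 : ∫ z in ball (0 : ℂ) 1, mu L z * G z =
      ∫ z in ball (0 : ℂ) 1, ∑ i ∈ S, (c i : ℂ) * (mu L z * F i z) := by
    refine integral_congr_ae ?_
    have hp : ∀ᵐ z : ℂ ∂(volume.restrict (ball (0 : ℂ) 1)), z ≠ p := by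
      refine ae_restrict_of_ae ?_
      exact Measure.ae_ne volume p
    filter_upwards [hp, ae_restrict_mem measurableSet_ball] with z hz1 hz2
    rw [mem_ball_zero_iff] at hz2
    rw [hG z hz1 hz2, Finset.mul_sum]
    refine Finset.sum_congr rfl (fun i _ => ?_)
    ring
  rw [h1, integral_finsetSum]
  · rw [Complex.re_sum]
    refine Finset.sum_congr rfl (fun i _ => ?_)
    rw [integral_const_mul, Complex.re_ofReal_mul]
  · intro i hi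
    exact (hF i hi).const_mul _

theorem N61_X (L : LineSys) (hZ : MuZ L) {H : ℂ → ℂ} (he : ∀ z : ℂ, z ≠ 0 → ‖z‖ < 1 →
      H z = ∑ s ∈ Finset.range 7, (lam s : ℂ) * wt (rot o0 (-(2 * Real.pi * s / 7))) Qst z) :
    ∑ s ∈ Finset.range 7, lam s * bb L (rho (wA ^ s))⁻¹ =
      (∫ z in ball (0 : ℂ) 1, mu L z * H z).re := by
  simp only [n61_bb]
  refine n61_sum L (Finset.range 7) lam (fun s => wt (rho (wA ^ s))⁻¹ Qst) ?_ 0 ?_
  · intro s _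
    refine N60_int L hZ _ ⟨wA ^ s, Or.inl ?_⟩
    rw [inv_inv]
    rfl
  · intro z hz0 hz1
    rw [he z hz0 hz1]
    refine Finset.sum_congr rfl (fun s _ => ?_)
    rw [n61_rhoA, n61_rot]

theorem N61_Y (L : LineSys) (hZ : MuZ L) (j : ℕ) {H : ℂ → ℂ} (he : ∀ z : ℂ, z ≠ 0 → ‖z‖ < 1 →
      H z = ∑ r ∈ Finset.range 3, (1 / 3 : ℂ) * wt (rot o0 (-(2 * Real.pi * r / 3))) Qst z) :
    1 / 3 * ∑ r ∈ Finset.range 3, bb L (chi * (rho (wA ^ j * wB ^ r))⁻¹) =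
      (∫ z in ball (0 : ℂ) 1, mu L z * wt (chi * (gA ^ j)⁻¹) H z).re := by
  simp only [n61_bb]
  rw [Finset.mul_sum]
  have h01 : ‖(0 : ℂ)‖ < 1 := by simp
  refine n61_sum L (Finset.range 3) (fun _ => 1 / 3)
    (fun r => wt (chi * (rho (wA ^ j * wB ^ r))⁻¹) Qst) ?_ ((chi * (gA ^ j)⁻¹)⁻¹.app 0) ?_
  · intro r _
    refine N60_int L hZ _ ⟨wA ^ j * wB ^ r, Or.inr ?_⟩
    rw [mul_inv_rev, inv_inv, SU.app_mul _ _ h01.le, N25_chi_app.1]
    rfl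
  · intro z hz0 hz1
    have hne : (chi * (gA ^ j)⁻¹).app z ≠ 0 := by
      intro h0
      apply hz0
      rw [← h0]
      exact (n60_app_inv _ hz1).symm
    have hlt := (chi * (gA ^ j)⁻¹).app_norm_lt hz1
    have hH := he _ hne hlt
    have e0 : wt (chi * (gA ^ j)⁻¹) H z =
        H ((chi * (gA ^ j)⁻¹).app z) / ((chi * (gA ^ j)⁻¹).den z) ^ 4 := rfl
    rw [e0, hH, Finset.sum_div]
    refine Finset.sum_congr rfl (fun r _ => ?_)
    have hact : SU.act (chi * (rho (wA ^ j * wB ^ r))⁻¹) =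
        SU.act (rot o0 (-(2 * Real.pi * r / 3)) * (chi * (gA ^ j)⁻¹)) := by
      have e1 : chi * (rho (wA ^ j * wB ^ r))⁻¹ = chi * (gB ^ r)⁻¹ * (gA ^ j)⁻¹ := by
        rw [map_mul, n61_rhoA, n61_rhoB, mul_inv_rev, mul_assoc]
      rw [e1, map_mul, N25_chiB, ← map_mul, mul_assoc]
    rw [← N02_wt_act hact Qst, N02_wt_mul _ _ _ hz1.le]
    have e2 : wt (chi * (gA ^ j)⁻¹) (wt (rot o0 (-(2 * Real.pi * r / 3))) Qst) z =
        wt (rot o0 (-(2 * Real.pi * r / 3))) Qst ((chi * (gA ^ j)⁻¹).app z) /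
          ((chi * (gA ^ j)⁻¹).den z) ^ 4 := rfl
    rw [e2]
    push_cast
    ring

end Pool.Agent.Lib.H11Q
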