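import Mathlib

/-! # H11Q chunk N62 (S): an estimate for a convergent series with finitely many exceptional terms. -/

set_option autoImplicit false

namespace Pool.Agent.Lib.H11Q

theorem N62_sum {a l : ℕ → ℝ} {S K B N : ℝ} (hS : HasSum a S) (T : Finset ℕ) (hK : 0 ≤ K)
    (ha : ∀ n, n ∉ T → a n ≤ K * l n) (hB : ∀ G : Finset ℕ, Disjoint T G → ∑ n ∈ G, l n ≤ B)
    (hN : ∑ n ∈ T, a n ≤ N) : S ≤ N + K * B := by
  have h1 : ∀ᶠ G : Finset ℕ in Filter.atTop, ∑ n ∈ G, a n ≤ N + K * B := by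
    filter_upwards [Filter.eventually_ge_atTop T] with G hG
    have h2 : ∑ n ∈ G, a n = ∑ n ∈ T, a n + ∑ n ∈ G \ T, a n := by
      rw [add_comm, Finset.sum_sdiff hG]
    have h3 : ∑ n ∈ G \ T, a n ≤ K * ∑ n ∈ G \ T, l n := by
      rw [Finset.mul_sum]
      apply Finset.sum_le_sum
      intro n hn
      exact ha n (Finset.mem_sdiff.mp hn).2
    have h4 : ∑ n ∈ G \ T, l n ≤ B := hB _ Finset.disjoint_sdiff
    have h5 := mul_le_mul_of_nonneg_left h4 hK
    linarith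
  exact le_of_tendsto hS h1

end Pool.Agent.Lib.H11Q
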