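import Pool.Agent.Lib.H11Q.N22
import Pool.Agent.Lib.H11Q.N36
import Pool.Agent.Lib.H11Q.N46
import Pool.Agent.Lib.H11Q.N47
import Pool.Agent.Lib.H11Q.N54
import Pool.Agent.Lib.H11Q.N61
import Pool.Agent.Lib.H11Q.N62

/-! # H11Q chunk N63: the claim of PROOF.md 9.2 (assembly of module N). -/

set_option autoImplicit false

namespace Pool.Agent.Lib.H11Q

open Complex Set MeasureTheory Metric Filter
open scoped ComplexConjugate Topology

/-- the factor of `chi * (gA ^ j)⁻¹` -/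
theorem n63_fac (j : ℕ) : (‖(chi * (gA ^ j)⁻¹).a‖ + ‖(chi * (gA ^ j)⁻¹).b‖) ^ 4 ≤ 34603 / 10 ^ 4 := by
  have hb : (gA ^ j).b = 0 := (N02_gA j).2
  have ha : ‖(gA ^ j).a‖ = 1 := by
    rw [(N02_gA j).1, Complex.norm_exp_ofReal_mul_I]
  have e1 : ‖(chi * (gA ^ j)⁻¹).a‖ = ‖chi.a‖ := by
    rw [SU.mul_a, SU.inv_a, SU.inv_b, hb]
    simp [ha]
  have e2 : ‖(chi * (gA ^ j)⁻¹).b‖ = ‖chi.b‖ := by
    rw [SU.mul_b, SU.inv_a, SU.inv_b, hb]
    simp [ha]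
  rw [e1, e2]
  have h1 := vv_lt_one
  have h2 := vv_pos
  have h3 : 0 < 1 - vv ^ 2 := by nlinarith
  have h4 : 0 < Real.sqrt (1 - vv ^ 2) := Real.sqrt_pos.mpr h3
  have h5 : Real.sqrt (1 - vv ^ 2) ^ 2 = 1 - vv ^ 2 := Real.sq_sqrt h3.le
  have e3 : ‖chi.a‖ = 1 / Real.sqrt (1 - vv ^ 2) := by
    show ‖-(I / (Real.sqrt (1 - vv ^ 2) : ℂ))‖ = _
    rw [norm_neg, norm_div, norm_I, Complex.norm_real, Real.norm_eq_abs, abs_of_pos h4]
  have e4 : ‖chi.b‖ = vv / Real.sqrt (1 - vv ^ 2) := by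
    show ‖I * vv / (Real.sqrt (1 - vv ^ 2) : ℂ)‖ = _
    rw [norm_div, norm_mul, norm_I, Complex.norm_real, Complex.norm_real, Real.norm_eq_abs,
      Real.norm_eq_abs, abs_of_pos h4, abs_of_pos h2, one_mul]
  have e5 : (‖chi.a‖ + ‖chi.b‖) ^ 4 = ((1 + vv) / (1 - vv)) ^ 2 := by
    rw [e3, e4, ← add_div, div_pow, div_pow]
    have : Real.sqrt (1 - vv ^ 2) ^ 4 = (1 - vv ^ 2) ^ 2 := by
      have h8 : Real.sqrt (1 - vv ^ 2) ^ 4 = (Real.sqrt (1 - vv ^ 2) ^ 2) ^ 2 := by ring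
      rw [h8, h5]
    rw [this]
    have h6 : (1 - vv) ≠ 0 := by linarith
    have h7 : (1 - vv ^ 2) ≠ 0 := h3.ne'
    rw [div_eq_div_iff (pow_ne_zero 2 h7) (pow_ne_zero 2 h6)]
    ring
  rw [e5]
  exact N50_fac

/-- one line, with the functions `HX`, `HY` -/
theorem n63_term (j : ℕ) {HX HY : ℂ → ℂ} (hX : ContinuousOn HX (closedBall 0 1))
    (hY : ContinuousOn HY (closedBall 0 1))
    (hX' : ∀ z : ℂ, ‖z‖ ≤ 1 → ‖HX z - PX z‖ ≤ 68 / 10 ^ 5)
    (hY' : ∀ z : ℂ, ‖z‖ ≤ 1 → ‖HY z - PY z‖ ≤ 23 / 10 ^ 5) {x : Mk} (hx : IsNrm x) :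
    (I / 2 * JJ x HX).re + (I / 2 * JJ ((chi * (gA ^ j)⁻¹).lin x) HY).re ≤
      ((I / 2 * JJ x PX).re + (I / 2 * JJ ((chi * (gA ^ j)⁻¹).lin x) PY).re) +
        (68 / 10 ^ 5 + 34603 / 10 ^ 4 * (23 / 10 ^ 5)) / 12 * Lsq x := by
  have hy := N01_lin_nrm (chi * (gA ^ j)⁻¹) hx
  have hL := (N02_Lsq_pos hx).1
  have hLy : Lsq ((chi * (gA ^ j)⁻¹).lin x) ≤ 34603 / 10 ^ 4 * Lsq x :=
    (N02_Lsq_lin _ hx).trans (mul_le_mul_of_nonneg_right (n63_fac j) hL.le)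
  have hPX : ContinuousOn PX (closedBall 0 1) := by
    have : Continuous PX := by
      unfold PX
      fun_prop
    exact this.continuousOn
  have hPY : ContinuousOn PY (closedBall 0 1) := by
    have : Continuous PY := by
      unfold PY
      fun_prop
    exact this.continuousOn
  have e1 : JJ x HX = JJ x (fun z => HX z - PX z) + JJ x PX := by
    rw [← N03_add (Q1 := fun z => HX z - PX z) (Q2 := PX) hx (hX.sub hPX) hPX]
    congr 1
    funext z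
    ring
  have e2 : JJ ((chi * (gA ^ j)⁻¹).lin x) HY =
      JJ ((chi * (gA ^ j)⁻¹).lin x) (fun z => HY z - PY z) +
        JJ ((chi * (gA ^ j)⁻¹).lin x) PY := by
    rw [← N03_add (Q1 := fun z => HY z - PY z) (Q2 := PY) hy (hY.sub hPY) hPY]
    congr 1
    funext z
    ring
  have b1 := N03_bound hx hX'
  have b2 := N03_bound hy hY'
  have r : ∀ J : ℂ, (I / 2 * J).re ≤ ‖J‖ / 2 := by
    intro J
    have h1 : (I / 2 * J).re ≤ ‖I / 2 * J‖ := Complex.re_le_norm _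
    have h2 : ‖I / 2 * J‖ = ‖J‖ / 2 := by
      rw [norm_mul, norm_div, norm_I]
      norm_num
      ring
    rw [← h2]
    exact h1
  have c1 := r (JJ x (fun z => HX z - PX z))
  have c2 := r (JJ ((chi * (gA ^ j)⁻¹).lin x) (fun z => HY z - PY z))
  rw [e1, e2, mul_add, mul_add, add_re, add_re]
  have : ‖JJ ((chi * (gA ^ j)⁻¹).lin x) (fun z => HY z - PY z)‖ ≤
      23 / 10 ^ 5 * (34603 / 10 ^ 4 * Lsq x) / 6 := by
    refine b2.trans ?_
    have := mul_le_mul_of_nonneg_left hLy (show (0 : ℝ) ≤ 23 / 10 ^ 5 by norm_num)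
    linarith
  linarith

/-- upper bound for one far line -/
theorem n63_far (j : ℕ) {HX HY : ℂ → ℂ}
    (hX' : ∀ z : ℂ, ‖z‖ ≤ 1 → ‖HX z - PX z‖ ≤ 68 / 10 ^ 5)
    (hY' : ∀ z : ℂ, ‖z‖ ≤ 1 → ‖HY z - PY z‖ ≤ 23 / 10 ^ 5) {x : Mk} (hx : IsNrm x) :
    (I / 2 * JJ x HX).re + (I / 2 * JJ ((chi * (gA ^ j)⁻¹).lin x) HY).re ≤
      (11241 / 10 ^ 5 + 34603 / 10 ^ 4 * (4207 / 10 ^ 5)) / 12 * Lsq x := by
  have hy := N01_lin_nrm (chi * (gA ^ j)⁻¹) hx
  have hL := (N02_Lsq_pos hx).1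
  have hLy : Lsq ((chi * (gA ^ j)⁻¹).lin x) ≤ 34603 / 10 ^ 4 * Lsq x :=
    (N02_Lsq_lin _ hx).trans (mul_le_mul_of_nonneg_right (n63_fac j) hL.le)
  have sX : ∀ z : ℂ, ‖z‖ ≤ 1 → ‖HX z‖ ≤ 11241 / 10 ^ 5 := by
    intro z hz
    have h1 := hX' z hz
    have h2 := N46_PX hz
    have h3 : ‖HX z‖ ≤ ‖HX z - PX z‖ + ‖PX z‖ := by
      have := norm_add_le (HX z - PX z) (PX z)
      rwa [sub_add_cancel] at this
    linarith
  have sY : ∀ z : ℂ, ‖z‖ ≤ 1 → ‖HY z‖ ≤ 4207 / 10 ^ 5 := by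
    intro z hz
    have h1 := hY' z hz
    have h2 := N47_PY hz
    have h3 : ‖HY z‖ ≤ ‖HY z - PY z‖ + ‖PY z‖ := by
      have := norm_add_le (HY z - PY z) (PY z)
      rwa [sub_add_cancel] at this
    linarith
  have b1 := N03_bound hx sX
  have b2 := N03_bound hy sY
  have r : ∀ J : ℂ, (I / 2 * J).re ≤ ‖J‖ / 2 := by
    intro J
    have h1 : (I / 2 * J).re ≤ ‖I / 2 * J‖ := Complex.re_le_norm _
    have h2 : ‖I / 2 * J‖ = ‖J‖ / 2 := by
      rw [norm_mul, norm_div, norm_I]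
      norm_num
      ring
    rw [← h2]
    exact h1
  have c1 := r (JJ x HX)
  have c2 := r (JJ ((chi * (gA ^ j)⁻¹).lin x) HY)
  have : ‖JJ ((chi * (gA ^ j)⁻¹).lin x) HY‖ ≤
      4207 / 10 ^ 5 * (34603 / 10 ^ 4 * Lsq x) / 6 := by
    refine b2.trans ?_
    have := mul_le_mul_of_nonneg_left hLy (show (0 : ℝ) ≤ 4207 / 10 ^ 5 by norm_num)
    linarith
  linarith

theorem n63_lin_pm (φ : SU) {x y : Mk} (h : x = y ∨ x = -y) (Q : ℂ → ℂ) :
    JJ (φ.lin x) Q = JJ (φ.lin y) Q := by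
  rcases h with h | h
  · rw [h]
  · rw [h, N01_lin_neg, N03_neg]

theorem n63_pm {x y : Mk} (h : x = y ∨ x = -y) (Q : ℂ → ℂ) :
    JJ x Q = JJ y Q := by
  rcases h with h | h
  · rw [h]
  · rw [h, N03_neg]

theorem n63_Lpm {x y : Mk} (h : x = y ∨ x = -y) : Lsq x = Lsq y := by
  rcases h with h | h
  · rw [h]
  · rw [h, N02_Lsq_neg]

theorem N63_claim (hV : Vor) (hS : Stab) (he0 : we0 ∈ Gam0) (he1 : we1 ∈ Gam0) (L : LineSys)
    (hZ : MuZ L) : ∀ j ∈ ({0, 3, 5} : Finset ℕ),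
    ∑ s ∈ Finset.range 7, lam s * bb L (rho (wA ^ s))⁻¹ +
      1 / 3 * ∑ r ∈ Finset.range 3, bb L (chi * (rho (wA ^ j * wB ^ r))⁻¹) < 0 := by
  intro j hj
  obtain ⟨HX, dX, eX, aX⟩ := N46_X
  obtain ⟨HY, dY, eY, aY⟩ := N47_Y
  have hR : (1 : ℝ) < 21 / 20 := by norm_num
  have cX : ContinuousOn HX (closedBall 0 1) :=
    dX.continuousOn.mono (closedBall_subset_ball hR)
  have cY : ContinuousOn HY (closedBall 0 1) :=
    dY.continuousOn.mono (closedBall_subset_ball hR)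
  have sX := N22_line L 1 hR dX
  have sY := N22_line L (chi * (gA ^ j)⁻¹) hR dY
  have wX : wt 1 HX = HX := by
    funext z
    simp [wt, SU.app_one, SU.den]
  rw [wX] at sX
  have lX : ∀ x : Mk, (1 : SU).lin x = x := N01_lin_one
  simp only [lX] at sX
  rw [N61_X L hZ (fun z h1 h2 => eX z h1 (h2.trans hR)),
    N61_Y L hZ j (fun z h1 h2 => eY z h1 (h2.trans hR))]
  set a : ℕ → ℝ := fun n => (I / 2 * JJ (nv (L.g n)) HX).re +
    (I / 2 * JJ ((chi * (gA ^ j)⁻¹).lin (nv (L.g n))) HY).re with ha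
  have hsum : HasSum a ((∫ z in ball (0 : ℂ) 1, mu L z * HX z).re +
      (∫ z in ball (0 : ℂ) 1, mu L z * wt (chi * (gA ^ j)⁻¹) HY z).re) :=
    (Complex.hasSum_re sX).add (Complex.hasSum_re sY)
  -- the near lines
  have hex : ∀ i : ℕ, ∃ n : ℕ, i < 8 → (nv (L.g n) = nu i ∨ nv (L.g n) = -nu i) := by
    intro i
    by_cases hi : i < 8
    · obtain ⟨n, hn⟩ := N23_exists L (N54_mem hi)
      exact ⟨n, fun _ => hn⟩
    · exact ⟨0, fun h => absurd h hi⟩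
  choose ix hix using hex
  have hinj : Set.InjOn ix (Finset.range 8 : Set ℕ) := by
    intro i hi k hk hik
    by_contra hne
    have hi' : i < 8 := Finset.mem_range.mp hi
    have hk' : k < 8 := Finset.mem_range.mp hk
    obtain ⟨n1, n2⟩ := N54_ne hi' hk' hne
    have h1 := hix i hi'
    have h2 := hix k hk'
    rw [hik] at h1
    rcases h1 with h1 | h1 <;> rcases h2 with h2 | h2
    · exact n1 (h1.symm.trans h2)
    · exact n2 (h1.symm.trans h2)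
    · apply n2
      rw [← h2, h1, neg_neg]
    · apply n1
      have := h1.symm.trans h2
      exact neg_injective this
  set T : Finset ℕ := (Finset.range 8).image ix with hT
  have hTsum : ∀ f : ℕ → ℝ, ∑ n ∈ T, f n = ∑ i ∈ Finset.range 8, f (ix i) := by
    intro f
    rw [hT, Finset.sum_image hinj]
  have hTprod : ∏ n ∈ T, (1 + rr * Lsq (nv (L.g n))) = ∏ i ∈ Finset.range 8, (1 + rr * Lsq (nu i)) := by
    rw [hT, Finset.prod_image hinj]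
    apply Finset.prod_congr rfl
    intro i hi
    rw [n63_Lpm (hix i (Finset.mem_range.mp hi))]
  have hnear : ∑ n ∈ T, a n ≤ -(2437 / 10 ^ 5) +
      (68 / 10 ^ 5 + 34603 / 10 ^ 4 * (23 / 10 ^ 5)) / 12 * (54788 / 10 ^ 4) := by
    rw [hTsum]
    have h1 : ∑ i ∈ Finset.range 8, a (ix i) ≤ ∑ i ∈ Finset.range 8,
        (((I / 2 * JJ (nu i) PX).re + (I / 2 * JJ ((chi * (gA ^ j)⁻¹).lin (nu i)) PY).re) +
          (68 / 10 ^ 5 + 34603 / 10 ^ 4 * (23 / 10 ^ 5)) / 12 * Lsq (nu i)) := by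
      apply Finset.sum_le_sum
      intro i hi
      have h2 := hix i (Finset.mem_range.mp hi)
      have h3 : a (ix i) = (I / 2 * JJ (nu i) HX).re +
          (I / 2 * JJ ((chi * (gA ^ j)⁻¹).lin (nu i)) HY).re := by
        rw [ha]
        simp only
        rw [n63_pm h2, n63_lin_pm _ h2]
      rw [h3]
      exact n63_term j cX cY aX aY (N52_nu_nrm i)
    refine h1.trans ?_
    rw [Finset.sum_add_distrib, ← Finset.mul_sum]
    have h4 := N54_near hj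
    have h5 := N54_Lsum
    have h6 := mul_le_mul_of_nonneg_left h5
      (show (0 : ℝ) ≤ (68 / 10 ^ 5 + 34603 / 10 ^ 4 * (23 / 10 ^ 5)) / 12 by norm_num)
    linarith
  -- the far lines
  have hfar : ∀ G : Finset ℕ, Disjoint T G → ∑ n ∈ G, Lsq (nv (L.g n)) ≤ 97503 / 10 ^ 5 := by
    intro G hG
    have h1 := N36_far hV hS he0 he1 L T G hG
    rw [hTprod] at h1
    have h2 := N54_prod
    have h3 := N50_Dm
    have h4 := N50_rr
    have h5 : Real.exp Dm / ∏ i ∈ Finset.range 8, (1 + rr * Lsq (nu i)) ≤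
        (163558 / 10 ^ 5) / (15145 / 10 ^ 4) :=
      div_le_div₀ (by norm_num) h3 (by norm_num) h2
    have h6 : 1 + rr * ∑ n ∈ G, Lsq (nv (L.g n)) ≤ (163558 / 10 ^ 5) / (15145 / 10 ^ 4) :=
      h1.trans h5
    have h7 : 0 ≤ ∑ n ∈ G, Lsq (nv (L.g n)) :=
      Finset.sum_nonneg (fun n _ => (N02_Lsq_pos (N01_nrm (L.g n))).1.le)
    have h8 : (81996 / 10 ^ 6) * ∑ n ∈ G, Lsq (nv (L.g n)) ≤ rr * ∑ n ∈ G, Lsq (nv (L.g n)) :=
      mul_le_mul_of_nonneg_right h4 h7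
    norm_num at h6 h8 ⊢
    linarith
  have hK : (0 : ℝ) ≤ (11241 / 10 ^ 5 + 34603 / 10 ^ 4 * (4207 / 10 ^ 5)) / 12 := by norm_num
  have hfin := N62_sum hsum T hK
    (fun n _ => n63_far j aX aY (N01_nrm (L.g n))) hfar hnear
  refine lt_of_le_of_lt hfin ?_
  norm_num

end Pool.Agent.Lib.H11Q
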