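import Pool.Agent.Lib.H11Q.T00

/-!
# H11Q, module T, chunk T02: algebra of the twist along the real diameter (PROOF.md 5.1, 5.2)
-/

set_option autoImplicit false

namespace Pool.Agent.Lib.H11Q

open Complex Set MeasureTheory
open scoped ComplexConjugate Topology

theorem t_iot_TT (s : ℝ) : iot * TT s = TT (-s) * iot := by
  have h1 : Real.cosh (-s / 2) = Real.cosh (s / 2) := by rw [neg_div, Real.cosh_neg]
  have h2 : Real.sinh (-s / 2) = -Real.sinh (s / 2) := by rw [neg_div, Real.sinh_neg]
  ext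
  · simp only [iot, TT, SU.mul_a, h1, h2, map_zero, conj_ofReal]
    ring
  · simp only [iot, TT, SU.mul_b, h1, h2, conj_ofReal, conj_I]
    push_cast
    ring


theorem t_act_iot_sq : SU.act iot * SU.act iot = 1 := by
  apply Homeomorph.ext
  intro z
  apply Subtype.ext
  show iot.app (iot.app z) = z
  rw [t_iot_app, t_iot_app, neg_neg]


/-- (`sg` is invariant under `TT s`, and `TT s`, `TT r` commute) -/
theorem tS_TT (w t s : ℝ) : tS w t * SU.act (TT s) = SU.act (TT s) * tS w t := by
  apply Homeomorph.ext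
  intro z
  apply Subtype.ext
  show tF w t ((TT s).app z) = (TT s).app (tF w t z)
  unfold tF
  rw [t_sg_TT s z.2, ← SU.app_mul _ _ z.2.le, ← SU.app_mul _ _ z.2.le, ← t_TT_add, ← t_TT_add, add_comm]


/-- (`theta w (-x) = 1 - theta w x`, which is an hypothesis here, to be independent of T01) -/
theorem tS_iot {w : ℝ} (t : ℝ) (hθ : ∀ x : ℝ, theta w (-x) = 1 - theta w x) :
    SU.act iot * tS w t * SU.act iot = SU.act (TT (-t)) * tS w t := by
  apply Homeomorph.ext
  intro z
  apply Subtype.ext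
  show iot.app (tF w t (iot.app z)) = (TT (-t)).app (tF w t z)
  have hz : ‖iot.app (z : ℂ)‖ ≤ 1 := (iot.app_norm_lt z.2).le
  unfold tF
  rw [← SU.app_mul _ _ hz, t_iot_TT, SU.app_mul _ _ hz, t_iot_app (iot.app z), t_iot_app (z : ℂ), neg_neg, t_sg_neg, hθ,
    ← SU.app_mul _ _ z.2.le, ← t_TT_add]
  congr 2
  ring


end Pool.Agent.Lib.H11Q
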