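import Pool.Agent.Lib.H11Q.T01
import Pool.Agent.Lib.H11Q.T02

/-!
# H11Q, module T, chunk T11: the group permutes the twists (PROOF.md 5.8)
-/

set_option autoImplicit false

namespace Pool.Agent.Lib.H11Q

open Complex Set MeasureTheory
open scoped ComplexConjugate Topology

theorem t11_bs (g : SU) (z : Disc) : bs g z = Real.arsinh (sg ((((SU.act g)⁻¹ : Disc ≃ₜ Disc) z : Disc) : ℂ)) := rfl

/-- From `L.perm`.  If `γ g_n = g_m TT_s` then `S_m γ = γ S_n`; if `γ g_n = g_m iota TT_s` then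
`S_m γ = γ (g_n TT_(-t) g_n⁻¹) S_n` (`tS_iot`, `tS_TT`); `ac γ = SU.act (rho γ)`. -/
theorem t11_perm (L : LineSys) (t : ℝ) {γ : W} (hγ : γ ∈ Gam0) (n : ℕ) : ∃ m : ℕ,
    (∃ M : SU, tL (Real.sinh L.om) t (L.g m) * ac γ =
      SU.act M * tL (Real.sinh L.om) t (L.g n)) ∧
    ∀ z : Disc, |bs (L.g m) (ac γ z)| = |bs (L.g n) z| := by
  obtain ⟨m, s, h | h⟩ := L.perm γ hγ n
  · refine ⟨m, ⟨rho γ, ?_⟩, fun z => ?_⟩
    · show _ = ac γ * _
      have e : ac γ = SU.act (L.g m) * SU.act (TT s) * (SU.act (L.g n))⁻¹ := by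
        rw [← h, mul_inv_cancel_right]
      unfold tL
      calc SU.act (L.g m) * tS (Real.sinh L.om) t * (SU.act (L.g m))⁻¹ * ac γ
          = SU.act (L.g m) * (tS (Real.sinh L.om) t * SU.act (TT s)) * (SU.act (L.g n))⁻¹ := by
            rw [e]; group
        _ = ac γ * (SU.act (L.g n) * tS (Real.sinh L.om) t * (SU.act (L.g n))⁻¹) := by
            rw [tS_TT, e]; group
    · have e : (SU.act (L.g m))⁻¹ * ac γ = SU.act (TT s) * (SU.act (L.g n))⁻¹ := by
        rw [inv_mul_eq_iff_eq_mul, ← mul_assoc, ← h, mul_inv_cancel_right]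
      rw [t11_bs, t11_bs]
      have e' : ((SU.act (L.g m))⁻¹ : Disc ≃ₜ Disc) (ac γ z) =
          SU.act (TT s) (((SU.act (L.g n))⁻¹ : Disc ≃ₜ Disc) z) :=
        congrArg (fun f : Disc ≃ₜ Disc => f z) e
      rw [e', SU.act_coe, t_sg_TT s (((SU.act (L.g n))⁻¹ : Disc ≃ₜ Disc) z).2]
  · refine ⟨m, ⟨rho γ * (L.g n * TT (-t) * (L.g n)⁻¹), ?_⟩, fun z => ?_⟩
    · rw [map_mul SU.act, map_mul SU.act, map_mul SU.act, map_inv SU.act]
      show _ = ac γ * _ * _
      have hi := t_act_iot_sq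
      have hS := tS_iot (w := Real.sinh L.om) t (t_theta_neg _)
      have hS' : tS (Real.sinh L.om) t * SU.act iot =
          SU.act iot * (SU.act (TT (-t)) * tS (Real.sinh L.om) t) := by
        rw [← hS, ← mul_assoc, ← mul_assoc, hi, one_mul]
      have hTT : SU.act (TT (-t)) * SU.act (TT s) = SU.act (TT s) * SU.act (TT (-t)) := by
        rw [← map_mul, ← map_mul, ← t_TT_add, ← t_TT_add, add_comm]
      have e : ac γ = SU.act (L.g m) * SU.act iot * SU.act (TT s) * (SU.act (L.g n))⁻¹ := by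
        rw [← h, mul_inv_cancel_right]
      unfold tL
      calc SU.act (L.g m) * tS (Real.sinh L.om) t * (SU.act (L.g m))⁻¹ * ac γ
          = SU.act (L.g m) * (tS (Real.sinh L.om) t * SU.act iot) * SU.act (TT s) * (SU.act (L.g n))⁻¹ := by
            rw [e]; group
        _ = SU.act (L.g m) * SU.act iot * SU.act (TT (-t)) * (tS (Real.sinh L.om) t * SU.act (TT s)) *
            (SU.act (L.g n))⁻¹ := by
            rw [hS']; group
        _ = SU.act (L.g m) * SU.act iot * (SU.act (TT (-t)) * SU.act (TT s)) * tS (Real.sinh L.om) t *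
            (SU.act (L.g n))⁻¹ := by
            rw [tS_TT]; group
        _ = ac γ * (SU.act (L.g n) * SU.act (TT (-t)) * (SU.act (L.g n))⁻¹) *
            (SU.act (L.g n) * tS (Real.sinh L.om) t * (SU.act (L.g n))⁻¹) := by
            rw [hTT, e]; group
    · have e : (SU.act (L.g m))⁻¹ * ac γ = SU.act iot * SU.act (TT s) * (SU.act (L.g n))⁻¹ := by
        rw [inv_mul_eq_iff_eq_mul, ← mul_assoc, ← mul_assoc, ← h, mul_inv_cancel_right]
      rw [t11_bs, t11_bs]
      have e' : ((SU.act (L.g m))⁻¹ : Disc ≃ₜ Disc) (ac γ z) =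
          SU.act iot (SU.act (TT s) (((SU.act (L.g n))⁻¹ : Disc ≃ₜ Disc) z)) :=
        congrArg (fun f : Disc ≃ₜ Disc => f z) e
      rw [e', SU.act_coe, SU.act_coe, t_iot_app, t_sg_neg, t_sg_TT s (((SU.act (L.g n))⁻¹ : Disc ≃ₜ Disc) z).2, Real.arsinh_neg, abs_neg]

end Pool.Agent.Lib.H11Q
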