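import Pool.Agent.Lib.H11Q.T03

/-!
# H11Q, module T, chunk T12: a local conjugacy by Moebius maps is global
-/

set_option autoImplicit false

namespace Pool.Agent.Lib.H11Q

open Complex Set MeasureTheory
open scoped ComplexConjugate Topology

instance t12_conn : PreconnectedSpace Disc := by
  apply Subtype.preconnectedSpace
  have e : {z : ℂ | ‖z‖ < 1} = Metric.ball 0 1 := by
    ext z
    simp
  have h := (convex_ball (0 : ℂ) 1).isPreconnected
  rw [← e] at h
  exact h

/-- A Moebius map is determined by its restriction to an open set (identity theorem). -/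
theorem t12_ident {M M' : SU} {p : Disc} (h : ∀ᶠ y in 𝓝 p, SU.act M y = SU.act M' y) :
    SU.act M = SU.act M' := by
  have han : ∀ g : SU, AnalyticOnNhd ℂ g.app (Metric.ball 0 1) := by
    intro g
    apply DifferentiableOn.analyticOnNhd _ Metric.isOpen_ball
    intro z hz
    have hz1 : ‖z‖ < 1 := by simpa using hz
    exact (t_app_strict g hz1).hasDerivAt.differentiableAt.differentiableWithinAt
  have hloc : M.app =ᶠ[𝓝 (p : ℂ)] M'.app := by
    apply t00_lift (P := fun y => M.app y = M'.app y)
    filter_upwards [h] with y hy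
    exact congrArg Subtype.val hy
  have hp : (p : ℂ) ∈ Metric.ball (0 : ℂ) 1 := mem_ball_zero_iff.mpr p.2
  have := (han M).eqOn_of_preconnected_of_eventuallyEq (han M')
    (convex_ball (0 : ℂ) 1).isPreconnected hp hloc
  apply Homeomorph.ext
  intro z
  apply Subtype.ext
  exact this (mem_ball_zero_iff.mpr z.2)

/-- The map `p ↦ SU.act (M_p)` is locally constant. -/
theorem t12_global (h f : Disc ≃ₜ Disc)
    (hloc : ∀ p : Disc, ∃ M : SU, ∀ᶠ y in 𝓝 p, f y = SU.act M (h y)) :
    ∃ M : SU, f = SU.act M * h := by
  choose M hM using hloc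
  -- local constancy
  have hlc : IsLocallyConstant (fun p => SU.act (M p)) := by
    rw [IsLocallyConstant.iff_eventually_eq]
    intro p
    have h1 := (hM p).eventually_nhds
    filter_upwards [h1] with q hq
    -- near `q` both formulas hold
    have h2 : ∀ᶠ y in 𝓝 q, SU.act (M q) (h y) = SU.act (M p) (h y) := by
      filter_upwards [hM q, hq] with y hy hy'
      rw [← hy, ← hy']
    apply t12_ident (p := h q)
    have h3 : Filter.Tendsto (fun z => h.symm z) (𝓝 (h q)) (𝓝 q) := by
      have := h.symm.continuous.tendsto (h q)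
      rwa [h.symm_apply_apply] at this
    filter_upwards [h3.eventually h2] with y hy
    rwa [h.apply_symm_apply] at hy
  refine ⟨M ⟨0, by simp⟩, ?_⟩
  apply Homeomorph.ext
  intro z
  have h1 : SU.act (M z) = SU.act (M ⟨0, by simp⟩) := hlc.apply_eq_of_preconnectedSpace _ _
  have h2 := (hM z).self_of_nhds
  rw [h2, h1]
  rfl

end Pool.Agent.Lib.H11Q
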