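import Pool.Agent.Lib.H11Q.T00

/-!
# H11Q, module T, chunk T03: first derivatives
-/

set_option autoImplicit false

namespace Pool.Agent.Lib.H11Q

open Complex Set MeasureTheory
open scoped ComplexConjugate Topology

theorem t_bel_zero_strict {f : ℂ → ℂ} {α z : ℂ} (h : HasStrictDerivAt f α z) :
    HasStrictFDerivAt f (bel α 0) z := by
  have h1 := h.hasStrictFDerivAt.restrictScalars ℝ
  refine h1.congr_fderiv ?_
  apply ContinuousLinearMap.ext
  intro v
  simp [mul_comm]

theorem t_bel_comp_left (c α m : ℂ) : (bel c 0).comp (bel α m) = bel (c * α) m := by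
  apply ContinuousLinearMap.ext
  intro v
  simp only [ContinuousLinearMap.comp_apply, bel_apply]
  ring

theorem t_bel_comp_right {c : ℂ} (α m : ℂ) (hc : c ≠ 0) :
    (bel α m).comp (bel c 0) = bel (α * c) (m * (conj c / c)) := by
  apply ContinuousLinearMap.ext
  intro v
  simp only [ContinuousLinearMap.comp_apply, bel_apply, zero_mul, add_zero, map_mul]
  field_simp

/-- The derivative of a Moebius map is `1 / den ^ 2`. -/
theorem t_app_strict (g : SU) {z : ℂ} (hz : ‖z‖ < 1) : HasStrictDerivAt g.app (1 / g.den z ^ 2) z := by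
  have hd := g.den_ne hz.le
  have h1 : HasStrictDerivAt (fun z : ℂ => g.a * z + g.b) g.a z := by
    simpa using ((hasStrictDerivAt_id z).const_mul g.a).add_const g.b
  have h2 : HasStrictDerivAt (fun z : ℂ => conj g.b * z + conj g.a) (conj g.b) z := by
    simpa using ((hasStrictDerivAt_id z).const_mul (conj g.b)).add_const (conj g.a)
  have h3 := h1.div h2 hd
  have hdet : g.a * conj g.a - g.b * conj g.b = 1 := by
    rw [Complex.mul_conj, Complex.mul_conj]
    exact_mod_cast g.h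
  have e : (g.a * (conj g.b * z + conj g.a) - (g.a * z + g.b) * conj g.b) / (conj g.b * z + conj g.a) ^ 2 =
      1 / g.den z ^ 2 := by
    unfold SU.den
    congr 1
    linear_combination hdet
  rw [e] at h3
  exact h3

theorem t_one_sub_sq_ne {z : ℂ} (hz : ‖z‖ < 1) : 1 - z ^ 2 ≠ 0 := by
  intro h
  have h1 : z ^ 2 = 1 := by linear_combination -h
  have h2 : ‖z‖ ^ 2 = 1 := by rw [← norm_pow, h1, norm_one]
  have := norm_nonneg z
  nlinarith

theorem t_one_add_sg_sq {z : ℂ} (hz : ‖z‖ < 1) :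
    1 + sg z ^ 2 = normSq (1 - z ^ 2) / (1 - ‖z‖ ^ 2) ^ 2 := by
  have h1 : 0 < 1 - ‖z‖ ^ 2 := by
    have := norm_nonneg z
    nlinarith
  have n1 : ‖z‖ ^ 2 = z.re ^ 2 + z.im ^ 2 := by
    rw [← normSq_eq_norm_sq, normSq_apply]
    ring
  unfold sg
  field_simp
  rw [n1, normSq_apply]
  simp only [pow_two, sub_re, sub_im, one_re, one_im, mul_re, mul_im]
  ring

/-- `d sg (v) = (1 + sg ^ 2) Im (2 v / (1 - z ^ 2))`. -/
theorem t_sg_strict {z : ℂ} (hz : ‖z‖ < 1) : HasStrictFDerivAt sg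
    ((1 + sg z ^ 2) • (imCLM.comp (ContinuousLinearMap.mul ℝ ℂ (2 / (1 - z ^ 2))))) z := by
  have h1 : 0 < 1 - ‖z‖ ^ 2 := by
    have := norm_nonneg z
    nlinarith
  have n1 : ∀ z : ℂ, ‖z‖ ^ 2 = z.re * z.re + z.im * z.im := fun z => by
    rw [← normSq_eq_norm_sq, normSq_apply]
  have e0 : sg = fun z : ℂ => 2 * z.im / (1 - (z.re * z.re + z.im * z.im)) := by
    funext z
    rw [sg, n1]
  have hre : HasStrictFDerivAt (fun z : ℂ => z.re) reCLM z := reCLM.hasStrictFDerivAt
  have him : HasStrictFDerivAt (fun z : ℂ => z.im) imCLM z := imCLM.hasStrictFDerivAt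
  have hden : HasStrictFDerivAt (fun z : ℂ => 1 - (z.re * z.re + z.im * z.im)) _ z :=
    ((hre.mul hre).add (him.mul him)).const_sub 1
  have hd0 : 1 - (z.re * z.re + z.im * z.im) ≠ 0 := by
    rw [← n1]
    exact h1.ne'
  have hnum : HasStrictFDerivAt (fun z : ℂ => 2 * z.im) _ z := him.const_mul 2
  have hinv := (hasStrictDerivAt_inv hd0).comp_hasStrictFDerivAt z hden
  have hq := hnum.mul hinv
  have e2 : sg = fun z : ℂ => 2 * z.im * ((fun y : ℝ => y⁻¹) ∘ fun z : ℂ => 1 - (z.re * z.re + z.im * z.im)) z := by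
    rw [e0]
    funext z
    rw [div_eq_mul_inv]
    rfl
  have hq' : HasStrictFDerivAt sg ((2 * z.im) •
      -((1 - (z.re * z.re + z.im * z.im)) ^ 2)⁻¹ •
        -(z.re • reCLM + z.re • reCLM + (z.im • imCLM + z.im • imCLM)) +
      (1 - (z.re * z.re + z.im * z.im))⁻¹ • (2 : ℝ) • imCLM) z := by
    rw [e2]
    exact hq
  refine hq'.congr_fderiv ?_
  rw [t_one_add_sg_sq hz]
  symm
  apply ContinuousLinearMap.ext
  intro v
  have hn : normSq (1 - z ^ 2) ≠ 0 := fun h => t_one_sub_sq_ne hz (normSq_eq_zero.mp h)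
  have e1 : (2 / (1 - z ^ 2) * v).im = 2 * (v * conj (1 - z ^ 2)).im / normSq (1 - z ^ 2) := by
    have : 2 / (1 - z ^ 2) * v = ((2 / normSq (1 - z ^ 2) : ℝ) : ℂ) * (v * conj (1 - z ^ 2)) := by
      rw [div_eq_mul_inv, Complex.inv_def]
      push_cast
      ring
    rw [this, im_ofReal_mul]
    ring
  simp only [smul_apply, ContinuousLinearMap.comp_apply, ContinuousLinearMap.mul_apply',
    imCLM_apply, smul_eq_mul, add_apply, neg_apply, reCLM_apply, n1, e1]
  field_simp
  simp only [pow_two, sub_re, sub_im, one_re, one_im, mul_re, mul_im, conj_re, conj_im]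
  ring

end Pool.Agent.Lib.H11Q
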