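import Pool.Agent.Lib.H11Q.T00

/-!
# H11Q, module T, chunk T04: the derivative of `(s, z) ↦ TT s z`
-/

set_option autoImplicit false

namespace Pool.Agent.Lib.H11Q

open Complex Set MeasureTheory
open scoped ComplexConjugate Topology

theorem t_one_sub_TT_sq (s : ℝ) {z : ℂ} (hz : ‖z‖ < 1) :
    1 - ((TT s).app z) ^ 2 = (1 - z ^ 2) / (TT s).den z ^ 2 := by
  have hd := (TT s).den_ne hz.le
  have h3 : ((Real.cosh (s / 2) : ℝ) : ℂ) ^ 2 = ((Real.sinh (s / 2) : ℝ) : ℂ) ^ 2 + 1 := by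
    exact_mod_cast Real.cosh_sq (s / 2)
  rw [t00_den] at hd ⊢
  rw [t00_app]
  generalize ((Real.cosh (s / 2) : ℝ) : ℂ) = C at *
  generalize ((Real.sinh (s / 2) : ℝ) : ℂ) = S at *
  rw [div_pow, eq_div_iff (pow_ne_zero 2 hd), sub_mul, div_mul_cancel₀ _ (pow_ne_zero 2 hd)]
  linear_combination (1 - z ^ 2) * h3

/-- With `F = TT s z`: `∂F/∂s = (1 - F ^ 2) / 2`, `∂F/∂z = 1 / den ^ 2`. -/
theorem t_TT_strict (s : ℝ) {z : ℂ} (hz : ‖z‖ < 1) :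
    HasStrictFDerivAt (fun p : ℝ × ℂ => (TT p.1).app p.2)
      (((ContinuousLinearMap.fst ℝ ℝ ℂ).smulRight ((1 - ((TT s).app z) ^ 2) / 2)) +
        (ContinuousLinearMap.mul ℝ ℂ (1 / (TT s).den z ^ 2)).comp (ContinuousLinearMap.snd ℝ ℝ ℂ))
      (s, z) := by
  have hd := (TT s).den_ne hz.le
  have h3 : ((Real.cosh (s / 2) : ℝ) : ℂ) ^ 2 = ((Real.sinh (s / 2) : ℝ) : ℂ) ^ 2 + 1 := by
    exact_mod_cast Real.cosh_sq (s / 2)
  have hhalf : HasStrictFDerivAt (fun p : ℝ × ℂ => p.1 / 2) ((1 / 2 : ℝ) • ContinuousLinearMap.fst ℝ ℝ ℂ) (s, z) := by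
    have := (ContinuousLinearMap.fst ℝ ℝ ℂ).hasStrictFDerivAt (x := (s, z)) |>.const_mul (1 / 2 : ℝ)
    refine this.congr_of_eventuallyEq (Filter.Eventually.of_forall fun p => ?_)
    simp
    ring
  have hCr : HasStrictFDerivAt (fun p : ℝ × ℂ => Real.cosh (p.1 / 2))
      (Real.sinh (s / 2) • (1 / 2 : ℝ) • ContinuousLinearMap.fst ℝ ℝ ℂ) (s, z) := by
    have h0 : HasStrictDerivAt Real.cosh (Real.sinh (s / 2)) ((fun p : ℝ × ℂ => p.1 / 2) (s, z)) :=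
      Real.hasStrictDerivAt_cosh (s / 2)
    exact h0.comp_hasStrictFDerivAt (s, z) hhalf
  have hSr : HasStrictFDerivAt (fun p : ℝ × ℂ => Real.sinh (p.1 / 2))
      (Real.cosh (s / 2) • (1 / 2 : ℝ) • ContinuousLinearMap.fst ℝ ℝ ℂ) (s, z) := by
    have h0 : HasStrictDerivAt Real.sinh (Real.cosh (s / 2)) ((fun p : ℝ × ℂ => p.1 / 2) (s, z)) :=
      Real.hasStrictDerivAt_sinh (s / 2)
    exact h0.comp_hasStrictFDerivAt (s, z) hhalf
  have hC : HasStrictFDerivAt (fun p : ℝ × ℂ => ((Real.cosh (p.1 / 2) : ℝ) : ℂ))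
      (ofRealCLM.comp (Real.sinh (s / 2) • (1 / 2 : ℝ) • ContinuousLinearMap.fst ℝ ℝ ℂ)) (s, z) :=
    ofRealCLM.hasStrictFDerivAt.comp (s, z) hCr
  have hS : HasStrictFDerivAt (fun p : ℝ × ℂ => ((Real.sinh (p.1 / 2) : ℝ) : ℂ))
      (ofRealCLM.comp (Real.cosh (s / 2) • (1 / 2 : ℝ) • ContinuousLinearMap.fst ℝ ℝ ℂ)) (s, z) :=
    ofRealCLM.hasStrictFDerivAt.comp (s, z) hSr
  have hz' : HasStrictFDerivAt (fun p : ℝ × ℂ => p.2) (ContinuousLinearMap.snd ℝ ℝ ℂ) (s, z) :=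
    (ContinuousLinearMap.snd ℝ ℝ ℂ).hasStrictFDerivAt
  have hnum := (hC.mul hz').add hS
  have hden := (hS.mul hz').add hC
  have hd' : ((Real.sinh (s / 2) : ℝ) : ℂ) * z + ((Real.cosh (s / 2) : ℝ) : ℂ) ≠ 0 := by
    rwa [t00_den] at hd
  have hinv' : HasStrictFDerivAt (fun y : ℂ => y⁻¹) _
    (((Real.sinh (s / 2) : ℝ) : ℂ) * z + ((Real.cosh (s / 2) : ℝ) : ℂ)) :=
    ((hasStrictDerivAt_inv hd').hasStrictFDerivAt.restrictScalars ℝ)
  have hinv := hinv'.comp (s, z) hden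
  have hq := hnum.mul hinv
  have e2 : (fun p : ℝ × ℂ => (TT p.1).app p.2) = fun p : ℝ × ℂ =>
      (((Real.cosh (p.1 / 2) : ℝ) : ℂ) * p.2 + ((Real.sinh (p.1 / 2) : ℝ) : ℂ)) *
      (((Real.sinh (p.1 / 2) : ℝ) : ℂ) * p.2 + ((Real.cosh (p.1 / 2) : ℝ) : ℂ))⁻¹ := by
    funext p
    rw [t00_app, div_eq_mul_inv]
  rw [e2]
  refine HasStrictFDerivAt.congr_fderiv hq ?_
  apply ContinuousLinearMap.ext
  intro v
  rw [t_one_sub_TT_sq s hz, t00_den]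
  simp only [smul_apply, ContinuousLinearMap.comp_apply, ContinuousLinearMap.mul_apply',
    smul_eq_mul, add_apply, ContinuousLinearMap.smulRight_apply, ofRealCLM_apply,
    ContinuousLinearMap.coe_fst', ContinuousLinearMap.coe_snd', ContinuousLinearMap.coe_restrictScalars',
    ContinuousLinearMap.toSpanSingleton_apply, real_smul]
  simp only [ofReal_mul, ofReal_div, ofReal_one, ofReal_ofNat, Pi.add_apply, Pi.mul_apply]
  clear hq hinv hinv' hden hnum hC hS hCr hSr hhalf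
  generalize ((Real.cosh (s / 2) : ℝ) : ℂ) = C at *
  generalize ((Real.sinh (s / 2) : ℝ) : ℂ) = S at *
  have hD2 : (S * z + C) ^ 2 ≠ 0 := pow_ne_zero 2 hd'
  have k1 : (C * z + S) * ((S * v.2 + z * (C * (1 / 2 * v.1)) + S * (1 / 2 * v.1)) * -((S * z + C) ^ 2)⁻¹) +
      (S * z + C)⁻¹ * (C * v.2 + z * (S * (1 / 2 * v.1)) + C * (1 / 2 * v.1)) =
      (v.2 + v.1 * (1 - z ^ 2) / 2) * ((S * z + C) ^ 2)⁻¹ := by
    have k2 : (S * z + C)⁻¹ = (S * z + C) * ((S * z + C) ^ 2)⁻¹ := by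
      rw [pow_two, mul_inv, ← mul_assoc, mul_inv_cancel₀ hd', one_mul]
    rw [k2]
    linear_combination (((S * z + C) ^ 2)⁻¹ * (v.2 + v.1 * (1 - z ^ 2) / 2)) * h3
  rw [k1]
  ring

end Pool.Agent.Lib.H11Q
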