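import Pool.Agent.Lib.H11Q.T01
import Pool.Agent.Lib.H11Q.T03
import Pool.Agent.Lib.H11Q.T04

/-!
# H11Q, module T, chunk T05: the derivative of the twist along the real diameter (PROOF.md 5.3)
-/

set_option autoImplicit false

namespace Pool.Agent.Lib.H11Q

open Complex Set MeasureTheory
open scoped ComplexConjugate Topology

/-- With `β = t theta' (sg z) (1 + sg ^ 2)`, `F = tF w t z`: the derivative at `z` is `bel α m` with
`α = (1 - F ^ 2) / (1 - z ^ 2) (1 - i β / 2)`, `m = (i β / 2) / (1 - i β / 2) (1 - z ^ 2) / conj (1 - z ^ 2)`. -/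
theorem tF_strict (w t : ℝ) {z : ℂ} (hz : ‖z‖ < 1) : ∃ α m : ℂ, α ≠ 0 ∧
    ‖m - t * muS w z‖ ≤ (t * (deriv (theta w) (sg z) * (1 + sg z ^ 2))) ^ 2 / 4 ∧
    HasStrictFDerivAt (tF w t) (bel α m) z := by
  obtain ⟨β, hβ⟩ : ∃ β : ℝ, β = t * (deriv (theta w) (sg z) * (1 + sg z ^ 2)) := ⟨_, rfl⟩
  have h1 : 1 - z ^ 2 ≠ 0 := t_one_sub_sq_ne hz
  have h1c : conj (1 - z ^ 2) ≠ 0 := (map_ne_zero _).mpr h1
  set F : ℂ := tF w t z with hF
  have hF1 : ‖F‖ < 1 := tF_lt w t hz
  have h2 : 1 - F ^ 2 ≠ 0 := t_one_sub_sq_ne hF1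
  have h3 : (1 - I * β / 2) ≠ 0 := by
    intro h
    have := congrArg re h
    simp at this
  have h3n : 1 ≤ ‖(1 - I * β / 2 : ℂ)‖ := by
    have h4 := abs_re_le_norm (1 - I * β / 2 : ℂ)
    have h5 : (1 - I * β / 2 : ℂ).re = 1 := by simp
    rw [h5, abs_one] at h4
    exact h4
  refine ⟨(1 - F ^ 2) / (1 - z ^ 2) * (1 - I * β / 2),
    (I * β / 2) / (1 - I * β / 2) * ((1 - z ^ 2) / conj (1 - z ^ 2)), ?_, ?_, ?_⟩
  · exact mul_ne_zero (div_ne_zero h2 h1) h3
  · rw [← hβ]
    have e1 : (I * β / 2) / (1 - I * β / 2) * ((1 - z ^ 2) / conj (1 - z ^ 2)) - t * muS w z =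
        (I * β / 2) ^ 2 / (1 - I * β / 2) * ((1 - z ^ 2) / conj (1 - z ^ 2)) := by
      have e2 : (t : ℂ) * muS w z = (I * β / 2) * ((1 - z ^ 2) / conj (1 - z ^ 2)) := by
        rw [muS, hβ]
        push_cast
        ring
      rw [e2, ← sub_mul]
      congr 1
      rw [eq_div_iff h3, sub_mul, div_mul_cancel₀ _ h3]
      ring
    rw [e1, norm_mul, norm_div, norm_div, norm_pow, norm_conj, div_self (norm_ne_zero_iff.mpr h1), mul_one]
    have e3 : ‖(I * β / 2 : ℂ)‖ ^ 2 = β ^ 2 / 4 := by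
      rw [norm_div, norm_mul, norm_I, one_mul, norm_real, Real.norm_eq_abs, div_pow, sq_abs]
      norm_num
    rw [e3, div_le_iff₀ (by positivity)]
    have : 0 ≤ β ^ 2 / 4 := by positivity
    nlinarith
  · -- the chain rule
    have hθ : HasStrictDerivAt (theta w) (deriv (theta w) (sg z)) (sg z) :=
      ((t_theta_smooth w).contDiffAt.hasStrictDerivAt (by norm_num))
    have hs : HasStrictFDerivAt (fun z => t * theta w (sg z)) _ z :=
      (hθ.comp_hasStrictFDerivAt z (t_sg_strict hz)).const_mul t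
    have hid : HasStrictFDerivAt (fun z : ℂ => z) (ContinuousLinearMap.id ℝ ℂ) z := hasStrictFDerivAt_id z
    have hp := hs.prodMk hid
    have hT : HasStrictFDerivAt (fun p : ℝ × ℂ => (TT p.1).app p.2)
        (((ContinuousLinearMap.fst ℝ ℝ ℂ).smulRight ((1 - F ^ 2) / 2)) +
        (ContinuousLinearMap.mul ℝ ℂ ((1 - F ^ 2) / (1 - z ^ 2))).comp (ContinuousLinearMap.snd ℝ ℝ ℂ))
        ((fun x => (t * theta w (sg x), x)) z) := by
      have h5 := t_TT_strict (t * theta w (sg z)) hz
      have h6 := t_one_sub_TT_sq (t * theta w (sg z)) hz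
      have h7 : (TT (t * theta w (sg z))).app z = F := rfl
      have hden := (TT (t * theta w (sg z))).den_ne hz.le
      rw [h7] at h5 h6
      have h8 : 1 / (TT (t * theta w (sg z))).den z ^ 2 = (1 - F ^ 2) / (1 - z ^ 2) := by
        rw [h6]
        field_simp
      rw [h8] at h5
      exact h5
    have hc := HasStrictFDerivAt.comp (f := fun x : ℂ => (t * theta w (sg x), x)) z hT hp
    refine HasStrictFDerivAt.congr_fderiv hc ?_
    apply ContinuousLinearMap.ext
    intro v
    simp only [smul_apply, ContinuousLinearMap.comp_apply, ContinuousLinearMap.mul_apply',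
      smul_eq_mul, add_apply, ContinuousLinearMap.smulRight_apply, ContinuousLinearMap.prod_apply,
      ContinuousLinearMap.coe_fst', ContinuousLinearMap.coe_snd', ContinuousLinearMap.id_apply, bel_apply,
      imCLM_apply, real_smul]
    have h9 : (((t * (deriv (theta w) (sg z) * ((1 + sg z ^ 2) * (2 / (1 - z ^ 2) * v).im))) : ℝ) : ℂ) =
        β * ((2 / (1 - z ^ 2) * v - conj (2 / (1 - z ^ 2) * v)) / (2 * I)) := by
      rw [← Complex.im_eq_sub_conj, hβ]
      push_cast
      ring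
    rw [h9]
    simp only [map_mul, map_div₀]
    have hI : I * I = -1 := I_mul_I
    have h10 : conj (2 : ℂ) = 2 := by
      exact map_ofNat _ 2
    rw [h10]
    generalize conj (1 - z ^ 2) = q at *
    generalize (1 - z ^ 2) = p at *
    generalize conj v = v' at *
    generalize (1 - F ^ 2) = f at *
    clear hc hT hp hs h9 hθ
    have k1 : f / p * (1 - I * β / 2) * (v + I * β / 2 / (1 - I * β / 2) * (p / q) * v') =
        f / p * ((1 - I * β / 2) * v + I * β / 2 * (p / q) * v') := by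
      generalize (1 - I * β / 2 : ℂ) = c at *
      field_simp
    rw [k1]
    have k2 : ∀ x : ℂ, x / (2 * I) = -(I / 2) * x := by
      intro x
      rw [div_eq_iff (mul_ne_zero two_ne_zero I_ne_zero)]
      linear_combination x * hI
    rw [k2]
    field_simp
    ring

end Pool.Agent.Lib.H11Q
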