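import Pool.Agent.Lib.H11Q.T02
import Pool.Agent.Lib.H11Q.T05

/-!
# H11Q, module T, chunk T07: the twist along a line
-/

set_option autoImplicit false

namespace Pool.Agent.Lib.H11Q

open Complex Set MeasureTheory
open scoped ComplexConjugate Topology

theorem t07_coe (w t : ℝ) (g : SU) (z : Disc) : ((tL w t g z : Disc) : ℂ) = g.app (tF w t (g⁻¹.app z)) := by
  have h : (SU.act g)⁻¹ = SU.act g⁻¹ := (map_inv SU.act g).symm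
  unfold tL
  rw [h]
  rfl

theorem t07_bs (g : SU) (z : ℂ) : Real.sinh (bs g z) = sg (g⁻¹.app z) := by
  unfold bs
  rw [Real.sinh_arsinh]

theorem t_bs_tL (w t : ℝ) (g : SU) (z : Disc) : bs g (tL w t g z) = bs g z := by
  have h1 : ‖g⁻¹.app (z : ℂ)‖ < 1 := g⁻¹.app_norm_lt z.2
  unfold bs
  rw [t07_coe, ← SU.app_mul _ _ (tF_lt w t h1).le, inv_mul_cancel, SU.app_one, sg_tF w t h1]


theorem tL_neg {om : ℝ} (hom : 0 < om) (t : ℝ) (g : SU) {z : Disc} (h : bs g z ≤ -om) :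
    tL (Real.sinh om) t g z = z := by
  apply Subtype.ext
  have h0 : 0 < Real.sinh om := Real.sinh_pos_iff.mpr hom
  have h1 : sg (g⁻¹.app z) ≤ -Real.sinh om := by
    rw [← t07_bs, ← Real.sinh_neg]
    exact Real.sinh_le_sinh.mpr h
  rw [t07_coe]
  unfold tF
  rw [t_theta_zero h0 h1, mul_zero, t_TT_zero, SU.app_one, ← SU.app_mul _ _ z.2.le, mul_inv_cancel, SU.app_one]


theorem tL_pos {om : ℝ} (hom : 0 < om) (t : ℝ) (g : SU) {z : Disc} (h : om ≤ bs g z) :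
    tL (Real.sinh om) t g z = SU.act (g * TT t * g⁻¹) z := by
  apply Subtype.ext
  have h0 : 0 < Real.sinh om := Real.sinh_pos_iff.mpr hom
  have h1 : Real.sinh om ≤ sg (g⁻¹.app z) := by
    rw [← t07_bs]
    exact Real.sinh_le_sinh.mpr h
  have h2 : ‖g⁻¹.app (z : ℂ)‖ < 1 := g⁻¹.app_norm_lt z.2
  rw [t07_coe, SU.act_coe]
  unfold tF
  rw [t_theta_one h0 h1, mul_one, ← SU.app_mul _ _ h2.le, ← SU.app_mul _ _ z.2.le]


theorem tL_strict {w : ℝ} (hw : 0 < w) : ∃ C : ℝ, ∀ (t : ℝ) (g : SU) (z : Disc), ∃ α m : ℂ,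
    α ≠ 0 ∧ ‖m - t * muL w g z‖ ≤ C * t ^ 2 ∧ HasStrictFDerivAt (ext (tL w t g)) (bel α m) z := by
  obtain ⟨B, hB0, hB⟩ := t_theta_bdd hw
  refine ⟨B ^ 2 / 4, fun t g z => ?_⟩
  have h2 : ‖g⁻¹.app (z : ℂ)‖ < 1 := g⁻¹.app_norm_lt z.2
  obtain ⟨α, m, hα, hm, hF⟩ := tF_strict w t h2
  have hd1 : g⁻¹.den (z : ℂ) ≠ 0 := g⁻¹.den_ne z.2.le
  have h3 : ‖tF w t (g⁻¹.app z)‖ < 1 := tF_lt w t h2
  have hd2 : g.den (tF w t (g⁻¹.app z)) ≠ 0 := g.den_ne h3.le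
  have hc1 : 1 / g⁻¹.den (z : ℂ) ^ 2 ≠ 0 := one_div_ne_zero (pow_ne_zero 2 hd1)
  have hc2 : 1 / g.den (tF w t (g⁻¹.app z)) ^ 2 ≠ 0 := one_div_ne_zero (pow_ne_zero 2 hd2)
  have a1 := t_bel_zero_strict (t_app_strict g⁻¹ z.2)
  have a3 := t_bel_zero_strict (t_app_strict g h3)
  have a4 := a3.comp (z : ℂ) (hF.comp (z : ℂ) a1)
  rw [t_bel_comp_right _ _ hc1, t_bel_comp_left] at a4
  refine ⟨_, m * (conj (1 / g⁻¹.den (z : ℂ) ^ 2) / (1 / g⁻¹.den (z : ℂ) ^ 2)), mul_ne_zero hc2 (mul_ne_zero hα hc1), ?_, ?_⟩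
  · have e1 : conj (1 / g⁻¹.den (z : ℂ) ^ 2) / (1 / g⁻¹.den (z : ℂ) ^ 2) = (g⁻¹.den (z : ℂ)) ^ 2 / conj ((g⁻¹.den (z : ℂ)) ^ 2) := by
      rw [map_div₀, map_one]
      field_simp
    have e2 : m * ((g⁻¹.den (z : ℂ)) ^ 2 / conj ((g⁻¹.den (z : ℂ)) ^ 2)) - t * muL w g z =
        (m - t * muS w (g⁻¹.app z)) * ((g⁻¹.den (z : ℂ)) ^ 2 / conj ((g⁻¹.den (z : ℂ)) ^ 2)) := by
      unfold muL
      ring
    have hn : ‖(g⁻¹.den (z : ℂ)) ^ 2‖ ≠ 0 := norm_ne_zero_iff.mpr (pow_ne_zero 2 hd1)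
    rw [e1, e2, norm_mul, norm_div, RCLike.norm_conj, div_self hn, mul_one]
    refine hm.trans ?_
    have h5 := hB (sg (g⁻¹.app z))
    have h6 : (deriv (theta w) (sg (g⁻¹.app z)) * (1 + sg (g⁻¹.app z) ^ 2)) ^ 2 ≤ B ^ 2 := by
      rw [← sq_abs]
      exact pow_le_pow_left₀ (abs_nonneg _) h5 2
    rw [mul_pow]
    nlinarith [sq_nonneg t]
  · refine a4.congr_of_eventuallyEq ?_
    have h7 : ∀ᶠ y : Disc in 𝓝 z, (g.app ∘ (tF w t ∘ g⁻¹.app)) (y : ℂ) = ext (tL w t g) (y : ℂ) := by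
      refine Filter.Eventually.of_forall fun y => ?_
      rw [t00_ext, t07_coe]
      rfl
    exact t00_lift (P := fun y => (g.app ∘ (tF w t ∘ g⁻¹.app)) y = ext (tL w t g) y) h7


end Pool.Agent.Lib.H11Q
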