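import Pool.Agent.Lib.H11Q.T06
import Pool.Agent.Lib.H11Q.T07

/-!
# H11Q, module T, chunk T10: local form of the twist (PROOF.md 5.7)
-/

set_option autoImplicit false

namespace Pool.Agent.Lib.H11Q

open Complex Set MeasureTheory
open scoped ComplexConjugate Topology

/-- Two collars are far from each other. -/
theorem t10_col (L : LineSys) {i j : ℕ} (hij : i ≠ j) {z : Disc} (hi : |bs (L.g i) z| < 2 * L.om) :
    2 * L.om < |bs (L.g j) z| := by
  have hom := L.om_pos
  rw [abs_lt] at hi
  rw [lt_abs]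
  rcases lt_or_gt_of_ne hij with h | h
  · rcases L.sep i j h with h1 | h1
    · right
      have := h1 z
      linarith
    · right
      have := h1 z
      linarith
  · rcases L.sep j i h with h1 | h1
    · left
      have := h1 z
      linarith
    · right
      have := h1 z
      linarith

/-- A later line does not see the collar of an earlier one. -/
theorem t10_later (L : LineSys) {i j : ℕ} (hij : i < j) {z : Disc} (hi : |bs (L.g i) z| < 2 * L.om) :
    bs (L.g j) z < -(2 * L.om) := by
  rw [abs_lt] at hi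
  rcases L.sep i j hij with h1 | h1
  · have := h1 z
    linarith
  · have := h1 z
    linarith

/-- On the half-plane `bs_N ≥ -2 om` each `tH k`, `k ≤ N`, is a Moebius map.  Strong induction on `N`, inner induction on `k`:
`tH (k+1) x = tH k (S_k x)`; `L.sep k N`: if `bs_N ≤ bs_k - 4 om` then `bs_k x ≥ 2 om`, `S_k x = T_k x`, and `bs_k (S_k x) = bs_k x ≥ - 2 om`
so the (outer) hypothesis for `N' = k` applies; otherwise `bs_k x ≤ - 2 om` and `S_k x = x`. -/
theorem t10_half (L : LineSys) (t : ℝ) (N : ℕ) : ∀ k, k ≤ N → ∃ M : SU, ∀ x : Disc,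
    -(2 * L.om) ≤ bs (L.g N) x → tH L t k x = SU.act M x := by
  have hom := L.om_pos
  induction N using Nat.strong_induction_on with
  | _ N ihN =>
    intro k
    induction k with
    | zero =>
      intro _
      refine ⟨1, fun x _ => ?_⟩
      rw [map_one]
      rfl
    | succ k ihk =>
      intro hk
      have hkN : k < N := hk
      have e : ∀ x, tH L t (k + 1) x = tH L t k (tL (Real.sinh L.om) t (L.g k) x) := fun x => rfl
      rcases L.sep k N hkN with h1 | h1
      · obtain ⟨M, hM⟩ := ihN k hkN k le_rfl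
        refine ⟨M * (L.g k * TT t * (L.g k)⁻¹), fun x hx => ?_⟩
        have h2 := h1 x
        have h3 : L.om ≤ bs (L.g k) x := by linarith
        have h4 : -(2 * L.om) ≤ bs (L.g k) (tL (Real.sinh L.om) t (L.g k) x) := by
          rw [t_bs_tL]
          linarith
        rw [e, hM _ h4, tL_pos hom t (L.g k) h3]
        show (SU.act M) ((SU.act (L.g k * TT t * (L.g k)⁻¹)) x) = _
        rw [map_mul SU.act M]
        rfl
      · obtain ⟨M, hM⟩ := ihk hkN.le
        refine ⟨M, fun x hx => ?_⟩
        have h2 := h1 x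
        have h3 : bs (L.g k) x ≤ -L.om := by linarith
        rw [e, tL_neg hom t (L.g k) h3]
        exact hM x hx

/-- Off the collars.  Induction on `k`, with `t10_half` in the case `bs_k p > om`. -/
theorem t10_off (L : LineSys) (t : ℝ) (p : Disc) (hp : ∀ n, L.om < |bs (L.g n) p|) (k : ℕ) :
    ∃ M : SU, ∀ᶠ y in 𝓝 p, tH L t k y = SU.act M y := by
  have hom := L.om_pos
  induction k with
  | zero =>
    refine ⟨1, Filter.Eventually.of_forall fun x => ?_⟩
    rw [map_one]
    rfl
  | succ k ihk =>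
    have e : ∀ x, tH L t (k + 1) x = tH L t k (tL (Real.sinh L.om) t (L.g k) x) := fun x => rfl
    have h0 : Filter.Tendsto (fun y : Disc => bs (L.g k) y) (𝓝 p) (𝓝 (bs (L.g k) p)) :=
      (t_bs_cont (L.g k)).tendsto p
    rcases lt_abs.mp (hp k) with h1 | h1
    · obtain ⟨M, hM⟩ := t10_half L t k k le_rfl
      refine ⟨M * (L.g k * TT t * (L.g k)⁻¹), ?_⟩
      filter_upwards [h0.eventually (lt_mem_nhds h1)] with y hy
      have h4 : -(2 * L.om) ≤ bs (L.g k) (tL (Real.sinh L.om) t (L.g k) y) := by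
        rw [t_bs_tL]
        linarith
      rw [e, hM _ h4, tL_pos hom t (L.g k) hy.le, map_mul SU.act M]
      rfl
    · obtain ⟨M, hM⟩ := ihk
      refine ⟨M, ?_⟩
      have h1' : bs (L.g k) p < -L.om := by linarith
      filter_upwards [h0.eventually (gt_mem_nhds h1'), hM] with y hy hy'
      rw [e, tL_neg hom t (L.g k) hy.le]
      exact hy'

/-- The local form.  In a collar `|bs_n p| ≤ om`: near `p` is `|bs_n y| < 2 om`, so `S_i y = y` for `i > n` and
`tH N y = tH n (S_n y)`, and `bs_n (S_n y) = bs_n y ≥ - 2 om` (`t10_half` with `k = N = n`). -/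
theorem t10_local (L : LineSys) (t : ℝ) {h : Disc ≃ₜ Disc} (hh : TLim L t h) (p : Disc) :
    ((∀ n, L.om < |bs (L.g n) p|) ∧ ∃ M : SU, ∀ᶠ y in 𝓝 p, h y = SU.act M y) ∨
    (∃ n, |bs (L.g n) p| ≤ L.om ∧ ∃ M : SU, ∀ᶠ y in 𝓝 p,
      h y = SU.act M (tL (Real.sinh L.om) t (L.g n) y)) := by
  have hom := L.om_pos
  obtain ⟨U, hU, N, hN⟩ := hh p
  by_cases hp : ∀ n, L.om < |bs (L.g n) p|
  · left
    refine ⟨hp, ?_⟩
    obtain ⟨M, hM⟩ := t10_off L t p hp N
    refine ⟨M, ?_⟩
    filter_upwards [hM, hU] with y hy hyU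
    rw [hN N le_rfl y hyU, hy]
  · right
    push Not at hp
    obtain ⟨n, hn⟩ := hp
    refine ⟨n, hn, ?_⟩
    obtain ⟨M, hM⟩ := t10_half L t n n le_rfl
    refine ⟨M, ?_⟩
    have h0 : Filter.Tendsto (fun y : Disc => |bs (L.g n) y|) (𝓝 p) (𝓝 |bs (L.g n) p|) :=
      (t_bs_cont (L.g n)).abs.tendsto p
    have h1 : |bs (L.g n) p| < 2 * L.om := by linarith
    filter_upwards [h0.eventually (gt_mem_nhds h1), hU] with y hy hyU
    have h2 : ∀ m, tH L t (n + 1 + m) y = tH L t (n + 1) y := by
      intro m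
      induction m with
      | zero => rfl
      | succ m ihm =>
        have e : tH L t (n + 1 + (m + 1)) y =
          tH L t (n + 1 + m) (tL (Real.sinh L.om) t (L.g (n + 1 + m)) y) := rfl
        have h3 := t10_later L (i := n) (j := n + 1 + m) (by omega) hy
        rw [e, tL_neg hom t _ (by linarith), ihm]
    have h3 : h y = tH L t (n + 1) y := by
      rw [hN (n + 1 + N) (by omega) y hyU, h2]
    have h4 : -(2 * L.om) ≤ bs (L.g n) (tL (Real.sinh L.om) t (L.g n) y) := by
      rw [t_bs_tL]
      rw [abs_lt] at hy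
      linarith
    rw [h3]
    exact hM _ h4

end Pool.Agent.Lib.H11Q
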