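import Pool.Agent.Lib.H11Q.T01
import Pool.Agent.Lib.H11Q.T03
import Pool.Agent.Lib.H11Q.T10

/-!
# H11Q, module T, chunk T13: the Beltrami differential mu (PROOF.md 5.9)
-/

set_option autoImplicit false

namespace Pool.Agent.Lib.H11Q

open Complex Set MeasureTheory
open scoped ComplexConjugate Topology

theorem t13_unit (x : ℂ) : ‖x / conj x‖ ≤ 1 := by
  rw [norm_div, norm_conj]
  exact div_self_le_one _

theorem t13_muS (w : ℝ) : ContinuousOn (muS w) (Metric.ball 0 1) := by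
  have h1 : ContinuousOn sg (Metric.ball (0 : ℂ) 1) := fun z hz => by
    rw [mem_ball_zero_iff] at hz
    exact (t_sg_strict hz).hasFDerivAt.continuousAt.continuousWithinAt
  have h2 : Continuous (deriv (theta w)) := (t_theta_smooth w).continuous_deriv le_rfl
  have h3 : ContinuousOn (fun z : ℂ => ((deriv (theta w) (sg z) * (1 + sg z ^ 2) : ℝ) : ℂ)) (Metric.ball 0 1) :=
    Complex.continuous_ofReal.comp_continuousOn ((h2.comp_continuousOn h1).mul (continuousOn_const.add (h1.pow 2)))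
  have h4 : ContinuousOn (fun z : ℂ => (1 - z ^ 2) / conj (1 - z ^ 2)) (Metric.ball 0 1) := by
    refine ContinuousOn.div (by fun_prop) ?_ fun z hz => ?_
    · exact (Complex.continuous_conj.comp (by fun_prop : Continuous fun z : ℂ => 1 - z ^ 2)).continuousOn
    · rw [mem_ball_zero_iff] at hz
      rw [Ne, map_eq_zero]
      exact t_one_sub_sq_ne hz
  exact (continuousOn_const.mul h3).mul h4

theorem t_muL_zero {om : ℝ} (hom : 0 < om) (g : SU) {z : ℂ} (h : om ≤ |bs g z|) :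
    muL (Real.sinh om) g z = 0 := by
  have h1 : Real.sinh om ≤ |sg (g⁻¹.app z)| := by
    unfold bs at h
    rcases le_total 0 (sg (g⁻¹.app z)) with h2 | h2
    · rw [abs_of_nonneg (Real.arsinh_nonneg_iff.2 h2)] at h
      rw [abs_of_nonneg h2, ← Real.sinh_arsinh (sg (g⁻¹.app z))]
      exact Real.sinh_le_sinh.2 h
    · rw [abs_of_nonpos (Real.arsinh_nonpos_iff.2 h2), ← Real.arsinh_neg] at h
      rw [abs_of_nonpos h2, ← Real.sinh_arsinh (-sg (g⁻¹.app z))]
      exact Real.sinh_le_sinh.2 h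
  unfold muL muS
  rw [t_theta_deriv_zero (Real.sinh_pos_iff.2 hom) h1]
  simp

theorem t_muL_bdd {w : ℝ} (hw : 0 < w) : ∃ M : ℝ, ∀ (g : SU) (z : ℂ), ‖z‖ < 1 → ‖muL w g z‖ ≤ M := by
  obtain ⟨B, hB0, hB⟩ := t_theta_bdd hw
  refine ⟨B, fun g z hz => ?_⟩
  unfold muL muS
  rw [norm_mul, norm_mul, norm_mul]
  have h1 : ‖I / 2‖ ≤ 1 := by
    rw [norm_div, norm_I]
    norm_num
  have h2 : ‖((deriv (theta w) (sg (g⁻¹.app z)) * (1 + sg (g⁻¹.app z) ^ 2) : ℝ) : ℂ)‖ ≤ B := by
    rw [Complex.norm_real, Real.norm_eq_abs]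
    exact hB _
  have h3 := t13_unit (1 - g⁻¹.app z ^ 2)
  have h4 := t13_unit (g⁻¹.den z ^ 2)
  calc _ ≤ 1 * B * 1 * 1 := by
        refine mul_le_mul (mul_le_mul (mul_le_mul h1 h2 (norm_nonneg _) zero_le_one) h3 (norm_nonneg _) (by positivity)) h4
          (norm_nonneg _) (by positivity)
    _ = B := by ring

theorem t_muL_cont (w : ℝ) (g : SU) : ContinuousOn (muL w g) (Metric.ball 0 1) := by
  have h1 : ContinuousOn (fun z : ℂ => g⁻¹.app z) (Metric.ball 0 1) := fun z hz => by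
    rw [mem_ball_zero_iff] at hz
    exact (t_app_strict g⁻¹ hz).hasDerivAt.continuousAt.continuousWithinAt
  have h2 : ContinuousOn (fun z : ℂ => muS w (g⁻¹.app z)) (Metric.ball 0 1) := by
    refine (t13_muS w).comp h1 fun z hz => ?_
    rw [mem_ball_zero_iff] at hz ⊢
    exact g⁻¹.app_norm_lt hz
  have h3 : Continuous fun z : ℂ => g⁻¹.den z := by
    unfold SU.den
    fun_prop
  have h4 : ContinuousOn (fun z : ℂ => (g⁻¹.den z) ^ 2 / conj ((g⁻¹.den z) ^ 2)) (Metric.ball 0 1) := by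
    refine ContinuousOn.div (h3.pow 2).continuousOn ?_ fun z hz => ?_
    · exact (Complex.continuous_conj.comp (h3.pow 2)).continuousOn
    · rw [mem_ball_zero_iff] at hz
      rw [Ne, map_eq_zero]
      exact pow_ne_zero 2 (g⁻¹.den_ne hz.le)
  exact h2.mul h4

theorem t_mu_single (L : LineSys) (n : ℕ) {z : Disc} (h : |bs (L.g n) z| < 2 * L.om) :
    mu L z = muL (Real.sinh L.om) (L.g n) z := by
  unfold mu
  rw [tsum_eq_single n]
  intro m hm
  refine t_muL_zero L.om_pos _ ?_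
  have h2 := t10_col L (Ne.symm hm) h
  linarith [L.om_pos]

theorem t_mu_off (L : LineSys) {z : Disc} (h : ∀ n, L.om ≤ |bs (L.g n) z|) : mu L z = 0 := by
  unfold mu
  have h2 : ∀ n, muL (Real.sinh L.om) (L.g n) z = 0 := fun n => t_muL_zero L.om_pos _ (h n)
  simp [h2]

end Pool.Agent.Lib.H11Q
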