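import Pool.Agent.Lib.H11Q.T09
import Pool.Agent.Lib.H11Q.T11
import Pool.Agent.Lib.H11Q.T12
import Pool.Agent.Lib.H11Q.T13

/-!
# H11Q, module T, chunk T14: assembly
-/

set_option autoImplicit false

namespace Pool.Agent.Lib.H11Q

open Complex Set MeasureTheory
open scoped ComplexConjugate Topology

theorem T_mu_bdd (L : LineSys) : ∃ M : ℝ, ∀ z : ℂ, ‖z‖ < 1 → ‖mu L z‖ ≤ M := by
  have hw : 0 < Real.sinh L.om := Real.sinh_pos_iff.mpr L.om_pos
  obtain ⟨M, hM⟩ := t_muL_bdd hw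
  refine ⟨M, fun z hz => ?_⟩
  by_cases h : ∃ n, |bs (L.g n) z| < 2 * L.om
  · obtain ⟨n, hn⟩ := h
    rw [t_mu_single L n (z := ⟨z, hz⟩) hn]
    exact hM _ _ hz
  · push Not at h
    rw [t_mu_off L (z := ⟨z, hz⟩) (fun n => by have := h n; have := L.om_pos; linarith), norm_zero]
    have := hM 1 0 (by simp)
    exact le_trans (norm_nonneg _) this

theorem T_mu_cont (L : LineSys) : ContinuousOn (mu L) (Metric.ball 0 1) := by
  intro z0 hz0
  have hz1 : ‖z0‖ < 1 := by simpa using hz0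
  obtain ⟨z, rfl⟩ : ∃ z : Disc, (z : ℂ) = z0 := ⟨⟨z0, hz1⟩, rfl⟩
  have hball : Metric.ball (0 : ℂ) 1 ∈ 𝓝 (z : ℂ) := Metric.isOpen_ball.mem_nhds hz0
  by_cases h : ∃ n, |bs (L.g n) z| < 2 * L.om
  · obtain ⟨n, hn⟩ := h
    have h0 : Filter.Tendsto (fun y : Disc => |bs (L.g n) y|) (𝓝 z) (𝓝 |bs (L.g n) z|) :=
      (t_bs_cont (L.g n)).abs.tendsto z
    have h1 : ∀ᶠ y : Disc in 𝓝 z, |bs (L.g n) y| < 2 * L.om := h0.eventually (gt_mem_nhds hn)
    have h2 : ∀ᶠ y in 𝓝 (z : ℂ), mu L y = muL (Real.sinh L.om) (L.g n) y := by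
      apply t00_lift
      filter_upwards [h1] with y hy
      exact t_mu_single L n hy
    have h3 : ContinuousAt (muL (Real.sinh L.om) (L.g n)) z :=
      ((t_muL_cont _ (L.g n)) z hz0).continuousAt hball
    exact (h3.congr_of_eventuallyEq h2).continuousWithinAt
  · push Not at h
    have h0 : Filter.Tendsto (fun y : Disc => hd z y) (𝓝 z) (𝓝 (hd z z)) := (t_hd_cont z).tendsto z
    rw [t_hd_self] at h0
    have h1 : ∀ᶠ y : Disc in 𝓝 z, hd z y < L.om := h0.eventually (gt_mem_nhds L.om_pos)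
    have h2 : ∀ᶠ y in 𝓝 (z : ℂ), mu L y = 0 := by
      apply t00_lift
      filter_upwards [h1] with y hy
      apply t_mu_off
      intro n
      have h4 := t_bs_lip (L.g n) z.2 y.2
      have h5 := h n
      have h6 := abs_sub_abs_le_abs_sub (bs (L.g n) z) (bs (L.g n) (y : ℂ))
      linarith
    have h3 : ContinuousAt (fun _ : ℂ => (0 : ℂ)) (z : ℂ) := continuousAt_const
    exact (h3.congr_of_eventuallyEq h2).continuousWithinAt

theorem T_mu_zero (L : LineSys) : ∃ δ > 0, ∀ (w : W) (z : Disc),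
    (sh z (ac w o0) < δ ∨ sh z (ac w v0) < δ) → mu L z = 0 := by
  have hom := L.om_pos
  refine ⟨Real.sinh ((3 * L.om) / 2) ^ 2, pow_pos (Real.sinh_pos_iff.mpr (by linarith)) 2, ?_⟩
  intro w z h
  apply t_mu_off
  intro n
  obtain ⟨h1, h2⟩ := L.cen w n
  rcases h with h | h
  · have h3 := t_hd_lt_of_sh (r := 3 * L.om) (by linarith) z.2 (ac w o0).2 h
    have h4 := t_bs_lip (L.g n) z.2 (ac w o0).2
    have h6 := abs_sub_abs_le_abs_sub (bs (L.g n) ((ac w o0 : Disc) : ℂ)) (bs (L.g n) (z : ℂ))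
    rw [abs_sub_comm] at h6
    linarith
  · have h3 := t_hd_lt_of_sh (r := 3 * L.om) (by linarith) z.2 (ac w v0).2 h
    have h4 := t_bs_lip (L.g n) z.2 (ac w v0).2
    have h6 := abs_sub_abs_le_abs_sub (bs (L.g n) ((ac w v0 : Disc) : ℂ)) (bs (L.g n) (z : ℂ))
    rw [abs_sub_comm] at h6
    linarith

/-- Local conjugacy: `h ∘ γ` is locally a Moebius map composed with `h`. -/
theorem t14_conj (L : LineSys) (t : ℝ) {h : Disc ≃ₜ Disc} (hh : TLim L t h) {γ : W} (hγ : γ ∈ Gam0)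
    (p : Disc) : ∃ M : SU, ∀ᶠ y in 𝓝 p, (h * ac γ) y = SU.act M (h y) := by
  have hom := L.om_pos
  have hcont : Filter.Tendsto (fun y => ac γ y) (𝓝 p) (𝓝 (ac γ p)) := (ac γ).continuous.continuousAt
  rcases t10_local L t hh p with ⟨h1, M, hM⟩ | ⟨n, hn, M, hM⟩
  · -- off the collars
    have h2 : ∀ m, L.om < |bs (L.g m) (ac γ p)| := by
      intro m
      obtain ⟨n, -, hn⟩ := t11_perm L t (Gam0.inv_mem hγ) m
      have h3 := hn (ac γ p)
      have h4 : ac γ⁻¹ (ac γ p) = p := by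
        rw [map_inv]
        exact (ac γ).symm_apply_apply p
      rw [h4] at h3
      rw [← h3]
      exact h1 n
    rcases t10_local L t hh (ac γ p) with ⟨-, M', hM'⟩ | ⟨m, hm, -⟩
    · refine ⟨M' * rho γ * M⁻¹, ?_⟩
      filter_upwards [hM, hcont.eventually hM'] with y hy hy'
      show h (ac γ y) = _
      rw [hy', hy, map_mul, map_mul, map_inv]
      show _ = SU.act M' (SU.act (rho γ) ((SU.act M)⁻¹ (SU.act M y)))
      have : (SU.act M)⁻¹ (SU.act M y) = y := (SU.act M).symm_apply_apply y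
      rw [this]
      rfl
    · exact absurd hm (not_le.mpr (h2 m))
  · obtain ⟨m, ⟨M'', hM''⟩, hm⟩ := t11_perm L t hγ n
    have h2 : |bs (L.g m) (ac γ p)| ≤ L.om := by
      rw [hm]
      exact hn
    rcases t10_local L t hh (ac γ p) with ⟨h3, -⟩ | ⟨m', hm', M', hM'⟩
    · exact absurd h2 (not_le.mpr (h3 m))
    · have e : m' = m := by
        by_contra hne
        have := t10_col L hne (z := ac γ p) (by linarith)
        linarith
      subst e
      refine ⟨M' * M'' * M⁻¹, ?_⟩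
      filter_upwards [hM, hcont.eventually hM'] with y hy hy'
      show h (ac γ y) = _
      have h5 : tL (Real.sinh L.om) t (L.g m') (ac γ y) =
          SU.act M'' (tL (Real.sinh L.om) t (L.g n) y) := by
        have := congrArg (fun f : Disc ≃ₜ Disc => f y) hM''
        exact this
      rw [hy', hy, h5, map_mul, map_mul, map_inv]
      show _ = SU.act M' (SU.act M'' ((SU.act M)⁻¹ (SU.act M _)))
      have : (SU.act M)⁻¹ (SU.act M (tL (Real.sinh L.om) t (L.g n) y)) =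
        tL (Real.sinh L.om) t (L.g n) y := (SU.act M).symm_apply_apply _
      rw [this]

/-- 5.6 - 5.9 -/
theorem T_twist (L : LineSys) : ∃ C : ℝ, ∃ t1 > 0, ∀ t : ℝ, |t| ≤ t1 → ∃ h : Disc ≃ₜ Disc,
    (∀ γ ∈ Gam0, ∃ M : SU, h * ac γ * h⁻¹ = SU.act M) ∧
    ∀ z : Disc, ∃ α m : ℂ, α ≠ 0 ∧ ‖m - t * mu L z‖ ≤ C * t ^ 2 ∧
      HasStrictFDerivAt (ext h) (bel α m) z := by
  have hom := L.om_pos
  have hw : 0 < Real.sinh L.om := Real.sinh_pos_iff.mpr hom
  obtain ⟨C, hC⟩ := tL_strict hw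
  have hC0 : 0 ≤ C := by
    obtain ⟨α, m, -, h1, -⟩ := hC 1 1 ⟨0, by simp⟩
    have := norm_nonneg (m - ((1 : ℝ) : ℂ) * muL (Real.sinh L.om) 1 ((⟨0, by simp⟩ : Disc) : ℂ))
    nlinarith
  refine ⟨C, 1, one_pos, fun t _ => ?_⟩
  obtain ⟨h, hh⟩ := t09_exists L t
  refine ⟨h, fun γ hγ => ?_, fun z => ?_⟩
  · obtain ⟨M, hM⟩ := t12_global h (h * ac γ) (t14_conj L t hh hγ)
    refine ⟨M, ?_⟩
    rw [hM, mul_assoc, mul_inv_cancel, mul_one]
  · have hext := t00_ext
    rcases t10_local L t hh z with ⟨h1, M, hM⟩ | ⟨n, hn, M, hM⟩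
    · refine ⟨1 / M.den z ^ 2, 0, ?_, ?_, ?_⟩
      · exact one_div_ne_zero (pow_ne_zero 2 (M.den_ne z.2.le))
      · rw [t_mu_off L (fun n => (h1 n).le), mul_zero, sub_zero, norm_zero]
        positivity
      · have h2 : ∀ᶠ y in 𝓝 (z : ℂ), M.app y = ext h y := by
          apply t00_lift
          filter_upwards [hM] with y hy
          rw [hext, hy]
          rfl
        exact (t_bel_zero_strict (t_app_strict M z.2)).congr_of_eventuallyEq h2
    · obtain ⟨α, m, h1, h2, h3⟩ := hC t (L.g n) z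
      set q : Disc := tL (Real.sinh L.om) t (L.g n) z with hq
      refine ⟨1 / M.den q ^ 2 * α, m, ?_, ?_, ?_⟩
      · exact mul_ne_zero (one_div_ne_zero (pow_ne_zero 2 (M.den_ne q.2.le))) h1
      · rw [t_mu_single L n (by linarith)]
        exact h2
      · have h4 : ∀ᶠ y in 𝓝 (z : ℂ), (M.app ∘ ext (tL (Real.sinh L.om) t (L.g n))) y = ext h y := by
          apply t00_lift
          filter_upwards [hM] with y hy
          rw [hext, hy, Function.comp_apply, hext]
          rfl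
        have h5 : HasStrictFDerivAt M.app (bel (1 / M.den q ^ 2) 0)
            (ext (tL (Real.sinh L.om) t (L.g n)) z) := by
          rw [hext]
          exact t_bel_zero_strict (t_app_strict M q.2)
        have h6 := h5.comp (z : ℂ) h3
        rw [t_bel_comp_left] at h6
        exact h6.congr_of_eventuallyEq h4

end Pool.Agent.Lib.H11Q
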