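import Pool.Agent.Lib.H11Q.A
import Pool.Agent.Lib.H11Q.T14
import Pool.Agent.Lib.H11Q.N63

/-! # H11Q (MP_a00a7b_an), module N: the exported theorem (PROOF.md 9.2, CLAIM). -/

set_option autoImplicit false

namespace Pool.Agent.Lib.H11Q

open Complex Set MeasureTheory
open scoped ComplexConjugate Topology

theorem n_vor : Vor := by
  intro z hz w hw
  refine A_voronoi z (fun j => ?_) w hw
  have h1 : ((z : ℂ) * exp (-((Real.pi / 7 + 2 * Real.pi * j / 7 : ℝ) : ℂ) * I)).re ≤ ‖(z : ℂ)‖ := by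
    refine (Complex.re_le_norm _).trans ?_
    rw [norm_mul]
    have : ‖exp (-((Real.pi / 7 + 2 * Real.pi * j / 7 : ℝ) : ℂ) * I)‖ = 1 := by
      have h := Complex.norm_exp_ofReal_mul_I (-(Real.pi / 7 + 2 * Real.pi * j / 7))
      rw [ofReal_neg] at h
      exact h
    rw [this, mul_one]
  refine lt_of_le_of_lt h1 ?_
  exact Real.lt_sqrt_of_sq_lt hz

theorem N_claim (L : LineSys) : ∀ j ∈ ({0, 3, 5} : Finset ℕ),
    ∑ s ∈ Finset.range 7, lam s * bb L (rho (wA ^ s))⁻¹ +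
      1 / 3 * ∑ r ∈ Finset.range 3, bb L (chi * (rho (wA ^ j * wB ^ r))⁻¹) < 0 :=
  N63_claim n_vor A_stab A_e0 A_e1 L (T_mu_zero L)

end Pool.Agent.Lib.H11Q
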