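import Pool.Agent.Lib.H11Q.A
import Pool.Agent.Lib.H11Q.EE
import Pool.Agent.Lib.H11Q.T14
import Pool.Agent.Lib.H11Q.N
import Pool.Agent.Lib.H11Q.G23

/-!
# H11Q (MP_a00a7b_an): the exported statements of the modules A, T, E, G, N

`C`, `F` = sections 8, 9.1, 9.2, 10 use only these statements.
-/

set_option autoImplicit false

namespace Pool.Agent.Lib.H11Q

open Complex Set MeasureTheory
open scoped ComplexConjugate Topology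

namespace Iface

/-! ## Module A (sections 2, 3, 4) -/

/-- 2.6 -/
theorem A_key (w : W) : CC ≤ mink (Om (ac w o0)) (Om vv) := H11Q.A_key w

/-- 3.6 -/
theorem A_cover (X Y : Disc) : ∃ w : W, mink (Om X) (Om (ac w Y)) ≤ CC := H11Q.A_cover X Y

/-- 3.7 -/
theorem A_near {δ : ℝ} (hδ : 0 < δ) : ∃ ε > 0, ∀ X Y : Disc,
    (∃ w : W, mink (Om X) (Om (ac w Y)) ≤ CC - ε) ∨
    (∃ w1 w2 : W, sh (ac w1 X) 0 < δ ∧ sh (ac w2 Y) vv < δ) ∨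
    (∃ w1 w2 : W, sh (ac w1 X) vv < δ ∧ sh (ac w2 Y) 0 < δ) := H11Q.A_near hδ

/-- 3.8 -/
theorem A_diam : diamO = cc := H11Q.A_diam

/-- 2.7 - 2.9, 4.1: deep congruence covers. -/
theorem A_cong (R : ℝ) : ∃ G : Subgroup W, G.Normal ∧ G.FiniteIndex ∧ G ≤ Gam0 ∧
    ∀ w ∈ G, ac w = 1 ∨ ∀ z : Disc, R < hd z (ac w z) := H11Q.A_cong R

/-- The action of the triangle group is properly discontinuous. -/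
theorem A_proper (K : Set Disc) (hK : IsCompact K) :
    {g : Disc ≃ₜ Disc | (∃ w : W, g = ac w) ∧ (g '' K ∩ K).Nonempty}.Finite := H11Q.A_proper K hK

/-- 4.2 -/
theorem A_red0 (w : W) : ∃ γ ∈ Gam0, ac γ (ac w o0) = o0 := H11Q.A_red0 w

/-- 4.3 -/
theorem A_redv (w : W) : ∃ γ ∈ Gam0, ∃ j ∈ ({0, 3, 5} : Finset ℕ),
    ac γ (ac w v0) = ac (wA ^ j) v0 := H11Q.A_redv w

/-- 4.2 -/
theorem A_stab : ∀ γ ∈ Gam0, ac γ o0 = o0 → ac γ = 1 := H11Q.A_stab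

/-- 4.4: the half-turns about `m_0` and `m_1` are in `Gam0`. -/
theorem A_e0 : wA * wB ∈ Gam0 := H11Q.A_e0
theorem A_e1 : wA * (wA * wB) * wA⁻¹ ∈ Gam0 := H11Q.A_e1

/-- 4.5 - 4.8 -/
theorem A_lines : Nonempty LineSys := H11Q.A_lines

/-! ## Module T (section 5) -/

theorem T_mu_bdd (L : LineSys) : ∃ M : ℝ, ∀ z : ℂ, ‖z‖ < 1 → ‖mu L z‖ ≤ M := H11Q.T_mu_bdd L

theorem T_mu_cont (L : LineSys) : ContinuousOn (mu L) (Metric.ball 0 1) := H11Q.T_mu_cont L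

theorem T_mu_zero (L : LineSys) : ∃ δ > 0, ∀ (w : W) (z : Disc),
    (sh z (ac w o0) < δ ∨ sh z (ac w v0) < δ) → mu L z = 0 := H11Q.T_mu_zero L

/-- 5.6 - 5.9 -/
theorem T_twist (L : LineSys) : ∃ C : ℝ, ∃ t1 > 0, ∀ t : ℝ, |t| ≤ t1 → ∃ h : Disc ≃ₜ Disc,
    (∀ γ ∈ Gam0, ∃ M : SU, h * ac γ * h⁻¹ = SU.act M) ∧
    ∀ z : Disc, ∃ α m : ℂ, α ≠ 0 ∧ ‖m - t * mu L z‖ ≤ C * t ^ 2 ∧
      HasStrictFDerivAt (ext h) (bel α m) z := H11Q.T_twist L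

/-! ## Module E (section 6) -/

theorem E_hol {κ : ℝ} (h0 : 0 ≤ κ) (h1 : κ ≤ 1 / 10) {Z : ℂ} (hZ : ‖Z‖ < 5 / 4) :
    DifferentiableAt ℂ (WW κ) Z ∧ ‖deriv (WW κ) Z - 1‖ ≤ 1 / 2 := H11Q.E_hol h0 h1 hZ

theorem E_cont : ContinuousOn (fun p : ℝ × ℂ => WW p.1 p.2)
    (Icc 0 (1 / 10) ×ˢ Metric.ball (0 : ℂ) (5 / 4)) := H11Q.E_cont

theorem E_cont' : ContinuousOn (fun p : ℝ × ℂ => deriv (WW p.1) p.2)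
    (Icc 0 (1 / 10) ×ˢ Metric.ball (0 : ℂ) (5 / 4)) := H11Q.E_cont'

theorem E_neg {κ : ℝ} (h0 : 0 ≤ κ) (h1 : κ ≤ 1 / 10) {Z : ℂ} (hZ : ‖Z‖ < 5 / 4) :
    WW κ (-Z) = -WW κ Z := H11Q.E_neg h0 h1 hZ

/-- interior and boundary -/
theorem E_beta_lt {κ : ℝ} (h0 : 0 ≤ κ) (h1 : κ ≤ 1 / 10) {ξ : ℂ} (h : ‖ξ‖ < 1) :
    ‖beta κ ξ‖ < 1 ∧ ‖beta' κ ξ‖ < 1 := H11Q.E_beta_lt h0 h1 h

theorem E_beta_eq {κ : ℝ} (h0 : 0 ≤ κ) (h1 : κ ≤ 1 / 10) {ξ : ℂ} (h : ‖ξ‖ = 1) :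
    ‖beta κ ξ‖ = 1 ∧ beta' κ ξ = beta κ ξ := H11Q.E_beta_eq h0 h1 h

theorem E_beta_surj {κ : ℝ} (h0 : 0 ≤ κ) (h1 : κ ≤ 1 / 10) {w : ℂ} (h : ‖w‖ ≤ 1) :
    (∃ ξ : ℂ, ‖ξ‖ ≤ 1 ∧ beta κ ξ = w) ∧ (∃ ξ : ℂ, ‖ξ‖ ≤ 1 ∧ beta' κ ξ = w) :=
  H11Q.E_beta_surj h0 h1 h

theorem E_aa {κ : ℝ} (h0 : 0 ≤ κ) (h1 : κ ≤ 1 / 10) : ∃ a' > 0, HasDerivAt aa a' κ :=
  H11Q.E_aa h0 h1

theorem E_aa_cont : ContinuousOn (deriv aa) (Icc 0 (1 / 10)) := H11Q.E_aa_cont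

theorem E_aa_zero : aa 0 = 0 := H11Q.E_aa_zero

theorem E_aa_WW {κ : ℝ} (h0 : 0 ≤ κ) (h1 : κ ≤ 1 / 10) : WW κ (2 * κ) = aa κ :=
  H11Q.E_aa_WW h0 h1

theorem E_aa_top : 199 / 1000 < aa (1 / 10) := H11Q.E_aa_top

theorem E_k0 : aa k0 = a0 ∧ (7697 : ℝ) / 100000 < k0 ∧ k0 < 7698 / 100000 := H11Q.E_k0

/-! ## Module G (section 7) -/

/-- 7.4: the Teichmüller problem. -/
theorem G_lower {K : ℝ} (hK : 1 ≤ K) (e : Disc ≃ₜ Disc) (he : IsQC K e) (hb : IdBdry e) (z : Disc)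
    (hz : cc ≤ hd z (e z)) : KK k0 ≤ K := H11Q.G_lower hK e he hb z hz

/-! ## Module N (sections 9.3 - 9.8) -/

theorem N_claim (L : LineSys) : ∀ j ∈ ({0, 3, 5} : Finset ℕ),
    ∑ s ∈ Finset.range 7, lam s * bb L (rho (wA ^ s))⁻¹ +
      1 / 3 * ∑ r ∈ Finset.range 3, bb L (chi * (rho (wA ^ j * wB ^ r))⁻¹) < 0 := H11Q.N_claim L

end Iface

end Pool.Agent.Lib.H11Q
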