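import Pool.Agent.Lib.H11Q.CD
import Pool.Agent.Lib.H11Q.Iface

set_option autoImplicit false

namespace Pool.Agent.Lib.H11Q

open Complex Set MeasureTheory
open scoped ComplexConjugate Topology

/-! C09A (M): estimates for `beta`, `beta'` on the closed disc. -/

/-- `ZZ κ ξ = ξ² + 2κ(|ξ|² - 1) + κ² conj(ξ)²`, `ZZ' κ ξ = ξ² + 2κ(1 - |ξ|²) + κ² conj(ξ)²`, so the norm is at most
`|ξ|²(1+κ²) + 2κ(1-|ξ|²) ≤ 1 + κ²`. -/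
theorem C_ZZ_norm {κ : ℝ} (h0 : 0 ≤ κ) (h1 : κ ≤ 1 / 10) {ξ : ℂ} (h : ‖ξ‖ ≤ 1) :
    ‖ZZ κ ξ‖ ≤ 1 + κ ^ 2 ∧ ‖ZZ' κ ξ‖ ≤ 1 + κ ^ 2 := by
  have e : ∀ ξ : ℂ, ((‖ξ‖ ^ 2 : ℝ) : ℂ) = ξ * conj ξ := fun ξ => by
    rw [Complex.mul_conj, normSq_eq_norm_sq]
  have hr : ‖ξ‖ ^ 2 ≤ 1 := by nlinarith [norm_nonneg ξ]
  have hκ : (0 : ℝ) ≤ 1 - ‖ξ‖ ^ 2 := by linarith
  have hq : ‖ξ ^ 2‖ + ‖((κ : ℂ) * conj ξ) ^ 2‖ + 2 * κ * (1 - ‖ξ‖ ^ 2) ≤ 1 + κ ^ 2 := by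
    rw [norm_pow, norm_pow, norm_mul, norm_conj, Complex.norm_real, Real.norm_eq_abs, abs_of_nonneg h0, mul_pow]
    nlinarith [sq_nonneg (1 - κ), mul_nonneg hκ (sq_nonneg (1 - κ))]
  constructor
  · have h2 : ZZ κ ξ = ξ ^ 2 + ((κ : ℂ) * conj ξ) ^ 2 - ((2 * κ * (1 - ‖ξ‖ ^ 2) : ℝ) : ℂ) := by
      unfold ZZ
      rw [Complex.ofReal_mul, Complex.ofReal_sub, e]
      push_cast
      ring
    rw [h2]
    refine (norm_sub_le _ _).trans ?_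
    have h3 : ‖((2 * κ * (1 - ‖ξ‖ ^ 2) : ℝ) : ℂ)‖ = 2 * κ * (1 - ‖ξ‖ ^ 2) := by
      rw [Complex.norm_real, Real.norm_eq_abs, abs_of_nonneg (by positivity)]
    rw [h3]
    have h4 := norm_add_le (ξ ^ 2) (((κ : ℂ) * conj ξ) ^ 2)
    linarith
  · have h2 : ZZ' κ ξ = ξ ^ 2 + ((κ : ℂ) * conj ξ) ^ 2 + ((2 * κ * (1 - ‖ξ‖ ^ 2) : ℝ) : ℂ) := by
      unfold ZZ'
      rw [Complex.ofReal_mul, Complex.ofReal_sub, e]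
      push_cast
      ring
    rw [h2]
    refine (norm_add_le _ _).trans ?_
    have h3 : ‖((2 * κ * (1 - ‖ξ‖ ^ 2) : ℝ) : ℂ)‖ = 2 * κ * (1 - ‖ξ‖ ^ 2) := by
      rw [Complex.norm_real, Real.norm_eq_abs, abs_of_nonneg (by positivity)]
    rw [h3]
    have h4 := norm_add_le (ξ ^ 2) (((κ : ℂ) * conj ξ) ^ 2)
    linarith

/-- `WW κ` is holomorphic with `|WW' - 1| ≤ 1/2` on the convex set `|Z| < 5/4` (`Iface.E_hol`): mean value inequality for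
`WW κ Z - Z`. -/
theorem C_WW_bilip {κ : ℝ} (h0 : 0 ≤ κ) (h1 : κ ≤ 1 / 10) {Z Y : ℂ} (hZ : ‖Z‖ < 5 / 4)
    (hY : ‖Y‖ < 5 / 4) : 1 / 2 * ‖Z - Y‖ ≤ ‖WW κ Z - WW κ Y‖ ∧
      ‖WW κ Z - WW κ Y‖ ≤ 3 / 2 * ‖Z - Y‖ := by
  have hmem : ∀ z : ℂ, z ∈ Metric.ball (0 : ℂ) (5 / 4) ↔ ‖z‖ < 5 / 4 := fun z => by simp
  have h2 : ‖(WW κ Z - Z) - (WW κ Y - Y)‖ ≤ 1 / 2 * ‖Z - Y‖ := by
    refine Convex.norm_image_sub_le_of_norm_hasDerivWithin_le (f := fun z => WW κ z - z)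
      (f' := fun z => deriv (WW κ) z - 1) (s := Metric.ball (0 : ℂ) (5 / 4)) ?_ ?_ (convex_ball _ _)
      ((hmem Y).2 hY) ((hmem Z).2 hZ)
    · intro z hz
      have h3 := (Iface.E_hol h0 h1 ((hmem z).1 hz)).1
      exact (h3.hasDerivAt.sub (hasDerivAt_id z)).hasDerivWithinAt
    · intro z hz
      exact (Iface.E_hol h0 h1 ((hmem z).1 hz)).2
  have h3 : WW κ Z - WW κ Y = (Z - Y) + ((WW κ Z - Z) - (WW κ Y - Y)) := by ring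
  constructor
  · have h4 : Z - Y = (WW κ Z - WW κ Y) - ((WW κ Z - Z) - (WW κ Y - Y)) := by ring
    have h5 := norm_sub_le (WW κ Z - WW κ Y) ((WW κ Z - Z) - (WW κ Y - Y))
    rw [← h4] at h5
    linarith
  · rw [h3]
    refine (norm_add_le _ _).trans ?_
    linarith

theorem c09_lin {κ : ℝ} (h0 : 0 ≤ κ) (h1 : κ ≤ 1 / 10) (v : ℂ) :
    9 / 10 * ‖v‖ ≤ ‖v + κ * conj v‖ ∧ ‖v + κ * conj v‖ ≤ 11 / 10 * ‖v‖ := by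
  have h2 : ‖(κ : ℂ) * conj v‖ = κ * ‖v‖ := by
    rw [norm_mul, norm_conj, Complex.norm_real, Real.norm_eq_abs, abs_of_nonneg h0]
  have h3 : κ * ‖v‖ ≤ 1 / 10 * ‖v‖ := mul_le_mul_of_nonneg_right h1 (norm_nonneg v)
  constructor
  · have h4 := norm_sub_le (v + κ * conj v) (κ * conj v)
    rw [add_sub_cancel_right, h2] at h4
    linarith
  · have h4 := norm_add_le v (κ * conj v)
    rw [h2] at h4
    linarith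

theorem c09_lin' {κ : ℝ} (h0 : 0 ≤ κ) (h1 : κ ≤ 1 / 10) (v : ℂ) :
    9 / 10 * ‖v‖ ≤ ‖v - κ * conj v‖ ∧ ‖v - κ * conj v‖ ≤ 11 / 10 * ‖v‖ := by
  have h2 : ‖(κ : ℂ) * conj v‖ = κ * ‖v‖ := by
    rw [norm_mul, norm_conj, Complex.norm_real, Real.norm_eq_abs, abs_of_nonneg h0]
  have h3 : κ * ‖v‖ ≤ 1 / 10 * ‖v‖ := mul_le_mul_of_nonneg_right h1 (norm_nonneg v)
  constructor
  · have h4 := norm_add_le (v - κ * conj v) (κ * conj v)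
    rw [sub_add_cancel, h2] at h4
    linarith
  · have h4 := norm_sub_le v (κ * conj v)
    rw [h2] at h4
    linarith

theorem c09_strict {κ : ℝ} (h0 : 0 ≤ κ) (h1 : κ ≤ 1 / 10) {Z : ℂ} (hZ : ‖Z‖ < 5 / 4) :
    HasStrictDerivAt (WW κ) (deriv (WW κ) Z) Z := by
  have h2 : DifferentiableOn ℂ (WW κ) (Metric.ball (0 : ℂ) (5 / 4)) := by
    intro z hz
    exact (Iface.E_hol h0 h1 (by simpa using hz)).1.differentiableWithinAt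
  have h3 : AnalyticAt ℂ (WW κ) Z := h2.analyticAt (Metric.isOpen_ball.mem_nhds (by simpa using hZ))
  exact h3.hasStrictDerivAt

theorem c09_quad (κ : ℝ) (ξ : ℂ) :
    HasStrictFDerivAt (fun y : ℂ => (y + (κ : ℂ) * conj y) ^ 2) ((2 * (ξ + κ * conj ξ)) • ab 1 κ) ξ := by
  have h1 : HasStrictFDerivAt (fun y : ℂ => ab 1 κ y) (ab 1 κ) ξ := (ab 1 κ).hasStrictFDerivAt
  have h2 := (hasStrictDerivAt_pow 2 (ab 1 κ ξ)).complexToReal_fderiv.comp ξ h1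
  have e1 : (fun y : ℂ => (ab 1 κ y) ^ 2) = fun y : ℂ => (y + (κ : ℂ) * conj y) ^ 2 := by
    funext y
    simp
  have e2 : ((((2 : ℕ) : ℂ) * (ab 1 κ ξ) ^ (2 - 1)) • (1 : ℂ →L[ℝ] ℂ)).comp (ab 1 κ) = (2 * (ξ + κ * conj ξ)) • ab 1 κ := by
    ext v
    simp
  rw [e1, e2] at h2
  exact h2

/-- `ZZ κ ξ - ZZ κ η = (σ - τ)(σ + τ)`, `σ - τ = (ξ-η) + κ conj(ξ-η)` has norm between `(1-κ)|ξ-η|` and
`(1+κ)|ξ-η|`, the same for the sum; `1/2 (9/10)² ≥ 2/5`, `3/2 (11/10)² ≤ 2`. -/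
theorem C_beta_est {κ : ℝ} (h0 : 0 ≤ κ) (h1 : κ ≤ 1 / 10) {ξ η : ℂ} (hξ : ‖ξ‖ ≤ 1)
    (hη : ‖η‖ ≤ 1) : 2 / 5 * (‖ξ - η‖ * ‖ξ + η‖) ≤ ‖beta κ ξ - beta κ η‖ ∧
      ‖beta κ ξ - beta κ η‖ ≤ 2 * (‖ξ - η‖ * ‖ξ + η‖) := by
  have hZ := (C_ZZ_norm h0 h1 hξ).1
  have hY := (C_ZZ_norm h0 h1 hη).1
  have hk : 1 + κ ^ 2 < 5 / 4 := by nlinarith
  obtain ⟨h2, h3⟩ := C_WW_bilip h0 h1 (hZ.trans_lt hk) (hY.trans_lt hk)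
  have h4 : ZZ κ ξ - ZZ κ η = ((ξ - η) + κ * conj (ξ - η)) * ((ξ + η) + κ * conj (ξ + η)) := by
    unfold ZZ
    rw [map_sub, map_add]
    ring
  obtain ⟨a1, a2⟩ := c09_lin h0 h1 (ξ - η)
  obtain ⟨b1, b2⟩ := c09_lin h0 h1 (ξ + η)
  unfold beta
  rw [h4, norm_mul] at h2 h3
  have c1 : 81 / 100 * (‖ξ - η‖ * ‖ξ + η‖) ≤ ‖(ξ - η) + κ * conj (ξ - η)‖ * ‖(ξ + η) + κ * conj (ξ + η)‖ := by
    have := mul_le_mul a1 b1 (by positivity) (norm_nonneg _)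
    nlinarith
  have c2 : ‖(ξ - η) + κ * conj (ξ - η)‖ * ‖(ξ + η) + κ * conj (ξ + η)‖ ≤ 121 / 100 * (‖ξ - η‖ * ‖ξ + η‖) := by
    have := mul_le_mul a2 b2 (norm_nonneg _) (by positivity)
    nlinarith
  have c3 : 0 ≤ ‖ξ - η‖ * ‖ξ + η‖ := by positivity
  constructor
  · linarith
  · linarith

theorem C_beta'_est {κ : ℝ} (h0 : 0 ≤ κ) (h1 : κ ≤ 1 / 10) {ξ η : ℂ} (hξ : ‖ξ‖ ≤ 1)
    (hη : ‖η‖ ≤ 1) : 2 / 5 * (‖ξ - η‖ * ‖ξ + η‖) ≤ ‖beta' κ ξ - beta' κ η‖ ∧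
      ‖beta' κ ξ - beta' κ η‖ ≤ 2 * (‖ξ - η‖ * ‖ξ + η‖) := by
  have hZ := (C_ZZ_norm h0 h1 hξ).2
  have hY := (C_ZZ_norm h0 h1 hη).2
  have hk : 1 + κ ^ 2 < 5 / 4 := by nlinarith
  obtain ⟨h2, h3⟩ := C_WW_bilip h0 h1 (hZ.trans_lt hk) (hY.trans_lt hk)
  have h4 : ZZ' κ ξ - ZZ' κ η = ((ξ - η) - κ * conj (ξ - η)) * ((ξ + η) - κ * conj (ξ + η)) := by
    unfold ZZ'
    rw [map_sub, map_add]
    ring
  obtain ⟨a1, a2⟩ := c09_lin' h0 h1 (ξ - η)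
  obtain ⟨b1, b2⟩ := c09_lin' h0 h1 (ξ + η)
  unfold beta'
  rw [h4, norm_mul] at h2 h3
  have c1 : 81 / 100 * (‖ξ - η‖ * ‖ξ + η‖) ≤ ‖(ξ - η) - κ * conj (ξ - η)‖ * ‖(ξ + η) - κ * conj (ξ + η)‖ := by
    have := mul_le_mul a1 b1 (by positivity) (norm_nonneg _)
    nlinarith
  have c2 : ‖(ξ - η) - κ * conj (ξ - η)‖ * ‖(ξ + η) - κ * conj (ξ + η)‖ ≤ 121 / 100 * (‖ξ - η‖ * ‖ξ + η‖) := by
    have := mul_le_mul a2 b2 (norm_nonneg _) (by positivity)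
    nlinarith
  have c3 : 0 ≤ ‖ξ - η‖ * ‖ξ + η‖ := by positivity
  constructor
  · linarith
  · linarith

/-- Chain rule; real derivative `v ↦ WW'(Z) 2 σ (v + κ conj v)`. -/
theorem C_beta_deriv {κ : ℝ} (h0 : 0 ≤ κ) (h1 : κ ≤ 1 / 10) {ξ : ℂ} (hξ : ‖ξ‖ ≤ 1) :
    HasStrictFDerivAt (beta κ)
      ((ab (deriv (WW κ) (ZZ κ ξ) * (2 * (ξ + κ * conj ξ))) 0).comp (ab 1 κ)) ξ := by
  have hZ := (C_ZZ_norm h0 h1 hξ).1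
  have hk : 1 + κ ^ 2 < 5 / 4 := by nlinarith
  have h2 := (c09_strict h0 h1 (hZ.trans_lt hk)).complexToReal_fderiv
  have h3 : HasStrictFDerivAt (ZZ κ) ((2 * (ξ + κ * conj ξ)) • ab 1 κ) ξ := by
    have h4 := c09_quad κ ξ
    have h5 := h4.sub_const (2 * (κ : ℂ))
    exact h5
  have h4 := h2.comp ξ h3
  have h5 : (deriv (WW κ) (ZZ κ ξ) • (1 : ℂ →L[ℝ] ℂ)).comp ((2 * (ξ + κ * conj ξ)) • ab 1 κ) =
      (ab (deriv (WW κ) (ZZ κ ξ) * (2 * (ξ + κ * conj ξ))) 0).comp (ab 1 κ) := by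
    ext v
    simp
    ring
  rw [h5] at h4
  exact h4

theorem C_beta'_deriv {κ : ℝ} (h0 : 0 ≤ κ) (h1 : κ ≤ 1 / 10) {ξ : ℂ} (hξ : ‖ξ‖ ≤ 1) :
    HasStrictFDerivAt (beta' κ)
      ((ab (deriv (WW κ) (ZZ' κ ξ) * (2 * (ξ - κ * conj ξ))) 0).comp (ab 1 (-κ))) ξ := by
  have hZ := (C_ZZ_norm h0 h1 hξ).2
  have hk : 1 + κ ^ 2 < 5 / 4 := by nlinarith
  have h2 := (c09_strict h0 h1 (hZ.trans_lt hk)).complexToReal_fderiv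
  have h3 : HasStrictFDerivAt (ZZ' κ) ((2 * (ξ - κ * conj ξ)) • ab 1 (-κ)) ξ := by
    have h4 := c09_quad (-κ) ξ
    have h5 := h4.add_const (2 * (κ : ℂ))
    have e1 : (fun y : ℂ => (y + ((-κ : ℝ) : ℂ) * conj y) ^ 2 + 2 * (κ : ℂ)) = ZZ' κ := by
      funext y
      unfold ZZ'
      push_cast
      ring
    have e2 : (2 * (ξ + ((-κ : ℝ) : ℂ) * conj ξ)) • ab 1 ((-κ : ℝ) : ℂ) = (2 * (ξ - κ * conj ξ)) • ab 1 (-κ) := by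
      push_cast
      congr 1
      ring
    rw [e1, e2] at h5
    exact h5
  have h4 := h2.comp ξ h3
  have h5 : (deriv (WW κ) (ZZ' κ ξ) • (1 : ℂ →L[ℝ] ℂ)).comp ((2 * (ξ - κ * conj ξ)) • ab 1 (-κ)) =
      (ab (deriv (WW κ) (ZZ' κ ξ) * (2 * (ξ - κ * conj ξ))) 0).comp (ab 1 (-κ)) := by
    ext v
    simp
    ring
  rw [h5] at h4
  exact h4

/-- `WW κ (-2κ) = - aa κ`, `WW κ (2κ) = aa κ`. -/
theorem C_beta_zero {κ : ℝ} (h0 : 0 ≤ κ) (h1 : κ ≤ 1 / 10) :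
    beta κ 0 = -(aa κ : ℂ) ∧ beta' κ 0 = (aa κ : ℂ) := by
  have h2 : ‖(2 * κ : ℂ)‖ < 5 / 4 := by
    have : (2 * κ : ℂ) = ((2 * κ : ℝ) : ℂ) := by push_cast; ring
    rw [this, Complex.norm_real, Real.norm_eq_abs, abs_of_nonneg (by positivity)]
    linarith
  constructor
  · unfold beta
    have h3 : ZZ κ 0 = -(2 * κ : ℂ) := by
      unfold ZZ
      simp
    rw [h3, Iface.E_neg h0 h1 h2, Iface.E_aa_WW h0 h1]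
  · unfold beta'
    have h3 : ZZ' κ 0 = (2 * κ : ℂ) := by
      unfold ZZ'
      simp
    rw [h3, Iface.E_aa_WW h0 h1]

end Pool.Agent.Lib.H11Q
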