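import Pool.Agent.Lib.H11Q.C09A
import Pool.Agent.Lib.H11Q.C08

set_option autoImplicit false

namespace Pool.Agent.Lib.H11Q

open Complex Set MeasureTheory
open scoped ComplexConjugate Topology

/-! C09B (M): the model homeomorphism `Ψ` (PROOF.md 8.3), extended by the identity to the plane. -/

theorem c09b_seg {z w : ℂ} (hz : ‖z‖ ≤ 1) (hw : 1 < ‖w‖) :
    ∃ u : ℂ, ‖u‖ = 1 ∧ ‖z - u‖ + ‖u - w‖ = ‖z - w‖ := by
  have hc : ContinuousOn (fun s : ℝ => ‖z + s * (w - z)‖) (Icc 0 1) := by fun_prop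
  have h1 := intermediate_value_Icc (zero_le_one (α := ℝ)) hc
  have h2 : (1 : ℝ) ∈ Icc ‖z + ((0 : ℝ) : ℂ) * (w - z)‖ ‖z + ((1 : ℝ) : ℂ) * (w - z)‖ := by
    refine ⟨by simpa using hz, ?_⟩
    have : z + ((1 : ℝ) : ℂ) * (w - z) = w := by push_cast; ring
    rw [this]
    exact hw.le
  obtain ⟨s, ⟨hs0, hs1⟩, hs⟩ := h1 h2
  refine ⟨z + s * (w - z), hs, ?_⟩
  have e1 : z - (z + s * (w - z)) = (s : ℂ) * (z - w) := by ring
  have e2 : (z + s * (w - z)) - w = ((1 - s : ℝ) : ℂ) * (z - w) := by push_cast; ring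
  rw [e1, e2, norm_mul, norm_mul, Complex.norm_real, Complex.norm_real, Real.norm_eq_abs, Real.norm_eq_abs,
    abs_of_nonneg hs0, abs_of_nonneg (by linarith)]
  ring

/-- Define `Ψ z = z` for `1 ≤ |z|` and `Ψ z = β'(flm P t ξ)` for `|z| < 1`, where `β ξ = z`, `|ξ| ≤ 1`
(`Iface.E_beta_surj`).
WELL DEFINED and bi-Lipschitz on the closed disc: for `z = β ξ`, `w = β η`, `ξ' = flm ξ`, `η' = flm η`:
`|β' ξ' - β' η'| ≤ 2 |ξ'-η'| |ξ'+η'|`, `ξ' + η' = flm ξ - flm (-η)` (`C_flm_odd`), so by `FldOK.up`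
`≤ 2 (9/4) |ξ-η| |ξ+η| ≤ 2 (9/4) (5/2) |z - w| ≤ 20 |z - w|`, and `≥ (2/5)(1/4) |ξ-η| |ξ+η| ≥ (1/20) |z-w|`
(`C_beta_est`, `C_beta'_est`).  (If `|ξ| = 1` then `|z| = 1` and `Ψ z = β'(ξ) = β ξ = z`: `C_flm_one`,
`Iface.E_beta_eq`; `|ξ| < 1` iff `|z| < 1`.)
SURJECTIVE: outside clear; `|w| < 1`: `w = β' ξ'`, `ξ' = flm ξ` (`FldOK.surj`), `w = Ψ (β ξ)`, `|β ξ| ≤ 1`.
`Ψ` maps the open disc to the open disc.  GLOBAL bi-Lipschitz with the same constants: for `|z| < 1 ≤ |w|` take the point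
`u` of the segment `[z,w]` with `|u| = 1`: `|Ψ z - w| ≤ |Ψ z - u| + |u - w| ≤ 20 |z-u| + |u-w| ≤ 20 |z-w|`; the
lower bound in the same way with `[Ψ z, w]`.  So `Ψ` is a homeomorphism. -/
theorem C_Psi {κ : ℝ} (h0 : 0 ≤ κ) (h1 : κ ≤ 1 / 10) {P : ℂ → ℂ} (hodd : ∀ ξ, P (-ξ) = -P ξ)
    {t : ℝ} (hF : FldOK P t) : ∃ Ψ : ℂ ≃ₜ ℂ, (∀ z : ℂ, 1 ≤ ‖z‖ → Ψ z = z) ∧
      (∀ z : ℂ, ‖z‖ < 1 → ‖Ψ z‖ < 1) ∧
      (∀ ξ : ℂ, ‖ξ‖ ≤ 1 → Ψ (beta κ ξ) = beta' κ (flm P t ξ)) ∧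
      ∀ z w : ℂ, ‖Ψ z - Ψ w‖ ≤ 20 * ‖z - w‖ ∧ ‖z - w‖ ≤ 20 * ‖Ψ z - Ψ w‖ := by
  classical
  have hf1 : ∀ ξ : ℂ, ‖ξ‖ ≤ 1 → ‖flm P t ξ‖ ≤ 1 := by
    intro ξ hξ
    rcases hξ.lt_or_eq with h | h
    · exact (hF.lt ξ h).le
    · rw [C_flm_one t h, h]
  have hest : ∀ ξ η : ℂ, ‖ξ‖ ≤ 1 → ‖η‖ ≤ 1 →
      ‖beta' κ (flm P t ξ) - beta' κ (flm P t η)‖ ≤ 20 * ‖beta κ ξ - beta κ η‖ ∧
      ‖beta κ ξ - beta κ η‖ ≤ 20 * ‖beta' κ (flm P t ξ) - beta' κ (flm P t η)‖ := by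
    intro ξ η hξ hη
    obtain ⟨b1, b2⟩ := C_beta_est h0 h1 hξ hη
    obtain ⟨b3, b4⟩ := C_beta'_est h0 h1 (hf1 ξ hξ) (hf1 η hη)
    have hη' : ‖-η‖ ≤ 1 := by rwa [norm_neg]
    have u1 := hF.up ξ η hξ hη
    have u2 := hF.up ξ (-η) hξ hη'
    have l1 := hF.lo ξ η hξ hη
    have l2 := hF.lo ξ (-η) hξ hη'
    rw [C_flm_odd hodd, sub_neg_eq_add, sub_neg_eq_add] at u2 l2
    have c1 : ‖flm P t ξ - flm P t η‖ * ‖flm P t ξ + flm P t η‖ ≤ 9 / 4 * (‖ξ - η‖ * ‖ξ + η‖) := by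
      have := mul_le_mul u1 u2 (norm_nonneg _) (by positivity)
      linarith
    have c2 : 1 / 4 * (‖ξ - η‖ * ‖ξ + η‖) ≤ ‖flm P t ξ - flm P t η‖ * ‖flm P t ξ + flm P t η‖ := by
      have := mul_le_mul l1 l2 (by positivity) (norm_nonneg _)
      linarith
    have c3 : 0 ≤ ‖ξ - η‖ * ‖ξ + η‖ := by positivity
    constructor <;> linarith
  have hB : ∀ z : ℂ, ∃ ξ : ℂ, ‖z‖ ≤ 1 → (‖ξ‖ ≤ 1 ∧ beta κ ξ = z) := by
    intro z
    by_cases hz : ‖z‖ ≤ 1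
    · obtain ⟨ξ, h2, h3⟩ := (Iface.E_beta_surj h0 h1 hz).1
      exact ⟨ξ, fun _ => ⟨h2, h3⟩⟩
    · exact ⟨0, fun h => absurd h hz⟩
  choose B hB using hB
  let Ψ : ℂ → ℂ := fun z => if ‖z‖ ≤ 1 then beta' κ (flm P t (B z)) else z
  have hΨ1 : ∀ z : ℂ, ‖z‖ ≤ 1 → Ψ z = beta' κ (flm P t (B z)) := fun z hz => if_pos hz
  have hΨ2 : ∀ z : ℂ, 1 < ‖z‖ → Ψ z = z := fun z hz => if_neg (not_le.2 hz)
  have hβ1 : ∀ ξ : ℂ, ‖ξ‖ ≤ 1 → ‖beta κ ξ‖ ≤ 1 := by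
    intro ξ hξ
    rcases hξ.lt_or_eq with h | h
    · exact (Iface.E_beta_lt h0 h1 h).1.le
    · exact (Iface.E_beta_eq h0 h1 h).1.le
  have hloc : ∀ z w : ℂ, ‖z‖ ≤ 1 → ‖w‖ ≤ 1 → ‖Ψ z - Ψ w‖ ≤ 20 * ‖z - w‖ ∧ ‖z - w‖ ≤ 20 * ‖Ψ z - Ψ w‖ := by
    intro z w hz hw
    have h2 := hest (B z) (B w) (hB z hz).1 (hB w hw).1
    rw [(hB z hz).2, (hB w hw).2] at h2
    rw [hΨ1 z hz, hΨ1 w hw]
    exact h2
  have hΨβ : ∀ ξ : ℂ, ‖ξ‖ ≤ 1 → Ψ (beta κ ξ) = beta' κ (flm P t ξ) := by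
    intro ξ hξ
    have h2 := (hest (B (beta κ ξ)) ξ (hB _ (hβ1 ξ hξ)).1 hξ).1
    rw [(hB _ (hβ1 ξ hξ)).2, sub_self, norm_zero, mul_zero] at h2
    rw [hΨ1 _ (hβ1 ξ hξ)]
    exact sub_eq_zero.1 (norm_le_zero_iff.1 h2)
  have hone : ∀ z : ℂ, ‖z‖ = 1 → Ψ z = z := by
    intro z hz
    obtain ⟨h2, h3⟩ := hB z hz.le
    have h4 : ‖B z‖ = 1 := by
      rcases h2.lt_or_eq with h | h
      · exfalso
        have := (Iface.E_beta_lt h0 h1 h).1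
        rw [h3, hz] at this
        exact lt_irrefl _ this
      · exact h
    rw [hΨ1 z hz.le, C_flm_one t h4, (Iface.E_beta_eq h0 h1 h4).2, h3]
  have hge : ∀ z : ℂ, 1 ≤ ‖z‖ → Ψ z = z := by
    intro z hz
    rcases hz.lt_or_eq with h | h
    · exact hΨ2 z h
    · exact hone z h.symm
  have hlt : ∀ z : ℂ, ‖z‖ < 1 → ‖Ψ z‖ < 1 := by
    intro z hz
    obtain ⟨h2, h3⟩ := hB z hz.le
    have h4 : ‖B z‖ < 1 := by
      rcases h2.lt_or_eq with h | h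
      · exact h
      · exfalso
        have := (Iface.E_beta_eq h0 h1 h).1
        rw [h3] at this
        linarith
    rw [hΨ1 z hz.le]
    exact (Iface.E_beta_lt h0 h1 (hF.lt _ h4)).2
  have hmix : ∀ z w : ℂ, ‖z‖ ≤ 1 → 1 < ‖w‖ → ‖Ψ z - Ψ w‖ ≤ 20 * ‖z - w‖ ∧ ‖z - w‖ ≤ 20 * ‖Ψ z - Ψ w‖ := by
    intro z w hz hw
    rw [hΨ2 w hw]
    constructor
    · obtain ⟨u, hu, hs⟩ := c09b_seg hz hw
      have h2 := (hloc z u hz hu.le).1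
      rw [hone u hu] at h2
      have h3 : Ψ z - w = (Ψ z - u) + (u - w) := by ring
      rw [h3]
      refine (norm_add_le _ _).trans ?_
      rw [← hs]
      have := norm_nonneg (u - w)
      linarith
    · have hz' : ‖Ψ z‖ ≤ 1 := by
        rcases hz.lt_or_eq with h | h
        · exact (hlt z h).le
        · rw [hone z h, h]
      obtain ⟨u, hu, hs⟩ := c09b_seg hz' hw
      have h2 := (hloc z u hz hu.le).2
      rw [hone u hu] at h2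
      have h3 : z - w = (z - u) + (u - w) := by ring
      rw [h3]
      refine (norm_add_le _ _).trans ?_
      rw [← hs]
      have := norm_nonneg (u - w)
      linarith
  have hbil : ∀ z w : ℂ, ‖Ψ z - Ψ w‖ ≤ 20 * ‖z - w‖ ∧ ‖z - w‖ ≤ 20 * ‖Ψ z - Ψ w‖ := by
    intro z w
    rcases le_or_gt ‖z‖ 1 with hz | hz
    · rcases le_or_gt ‖w‖ 1 with hw | hw
      · exact hloc z w hz hw
      · exact hmix z w hz hw
    · rcases le_or_gt ‖w‖ 1 with hw | hw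
      · have h2 := hmix w z hw hz
        rw [norm_sub_rev (Ψ z), norm_sub_rev z]
        exact h2
      · rw [hΨ2 z hz, hΨ2 w hw]
        have := norm_nonneg (z - w)
        constructor <;> linarith
  have hinj : Function.Injective Ψ := by
    intro z w h
    have h2 := (hbil z w).2
    rw [h, sub_self, norm_zero, mul_zero] at h2
    exact sub_eq_zero.1 (norm_le_zero_iff.1 h2)
  have hsurj : Function.Surjective Ψ := by
    intro w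
    rcases lt_or_ge ‖w‖ 1 with hw | hw
    · obtain ⟨ξ', h2, h3⟩ := (Iface.E_beta_surj h0 h1 hw.le).2
      obtain ⟨ξ, h4, h5⟩ := hF.surj ξ' h2
      exact ⟨beta κ ξ, by rw [hΨβ ξ h4, h5, h3]⟩
    · exact ⟨w, hge w hw⟩
  have hc : Continuous Ψ := by
    have : LipschitzWith 20 Ψ := LipschitzWith.of_dist_le_mul fun z w => by
      rw [Complex.dist_eq, Complex.dist_eq]
      exact_mod_cast (hbil z w).1
    exact this.continuous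
  let e : ℂ ≃ ℂ := Equiv.ofBijective Ψ ⟨hinj, hsurj⟩
  have hc' : Continuous e.symm := by
    have : LipschitzWith 20 e.symm := LipschitzWith.of_dist_le_mul fun z w => by
      rw [Complex.dist_eq, Complex.dist_eq]
      have h2 := (hbil (e.symm z) (e.symm w)).2
      have h3 : ∀ z, Ψ (e.symm z) = z := fun z => e.apply_symm_apply z
      rw [h3, h3] at h2
      exact_mod_cast h2
    exact this.continuous
  exact ⟨{ toEquiv := e, continuous_toFun := hc, continuous_invFun := hc' }, hge, hlt, hΨβ, hbil⟩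

end Pool.Agent.Lib.H11Q
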