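import Pool.Agent.Lib.H11Q.CD

set_option autoImplicit false

namespace Pool.Agent.Lib.H11Q

open Complex Set MeasureTheory
open scoped ComplexConjugate Topology

/-! C10 (S/M): the hyperbolic distance. -/

theorem c10_pos (z w : Disc) : 0 < 1 - ‖(z : ℂ)‖ ^ 2 ∧ 0 < 1 - ‖(w : ℂ)‖ ^ 2 := by
  have h1 := z.2
  have h2 := w.2
  have h3 := norm_nonneg (z : ℂ)
  have h4 := norm_nonneg (w : ℂ)
  constructor <;> nlinarith

theorem c10_sh (z w : Disc) : 0 ≤ sh z w := by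
  obtain ⟨h1, h2⟩ := c10_pos z w
  unfold sh
  positivity

/-- `mink (Om z) (Om w) = 1 + 2 sh z w`: expand, `|z-w|² = |z|² + |w|² - 2 Re (z conj w)`. -/
theorem C_mink_sh (z w : Disc) : mink (Om z) (Om w) = 1 + 2 * sh z w := by
  obtain ⟨hz, hw⟩ := c10_pos z w
  have e1 : ‖(z : ℂ)‖ ^ 2 = (z : ℂ).re ^ 2 + (z : ℂ).im ^ 2 := by
    rw [← normSq_eq_norm_sq, normSq_apply]; ring
  have e2 : ‖(w : ℂ)‖ ^ 2 = (w : ℂ).re ^ 2 + (w : ℂ).im ^ 2 := by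
    rw [← normSq_eq_norm_sq, normSq_apply]; ring
  have e3 : ‖(z : ℂ) - w‖ ^ 2 = ((z : ℂ).re - (w : ℂ).re) ^ 2 + ((z : ℂ).im - (w : ℂ).im) ^ 2 := by
    rw [← normSq_eq_norm_sq, normSq_apply, sub_re, sub_im]; ring
  unfold mink Om sh
  simp only [map_div₀, conj_ofReal, map_mul]
  have e4 : (2 * (z : ℂ) / ((1 - ‖(z : ℂ)‖ ^ 2 : ℝ) : ℂ) * (conj (2 : ℂ) * conj (w : ℂ) / ((1 - ‖(w : ℂ)‖ ^ 2 : ℝ) : ℂ))).re =
      4 * ((z : ℂ).re * (w : ℂ).re + (z : ℂ).im * (w : ℂ).im) / ((1 - ‖(z : ℂ)‖ ^ 2) * (1 - ‖(w : ℂ)‖ ^ 2)) := by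
    have h2 : conj (2 : ℂ) = 2 := by
      apply Complex.ext <;> simp
    rw [h2, div_mul_div_comm, ← ofReal_mul, div_ofReal_re]
    congr 1
    simp only [mul_re, mul_im, conj_re, conj_im, re_ofNat, im_ofNat]
    ring
  rw [e4, e3, div_mul_div_comm]
  have hz' : (1 - ‖(z : ℂ)‖ ^ 2) ≠ 0 := hz.ne'
  have hw' : (1 - ‖(w : ℂ)‖ ^ 2) ≠ 0 := hw.ne'
  field_simp
  rw [e1, e2]
  ring

/-- `cosh (2 x) = 1 + 2 sinh² x`. -/
theorem C_cosh_hd (z w : Disc) : Real.cosh (hd z w) = mink (Om z) (Om w) := by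
  rw [C_mink_sh]
  unfold hd
  rw [Real.cosh_two_mul, Real.cosh_sq, Real.sinh_arsinh, Real.sq_sqrt (c10_sh z w)]
  ring

theorem C_hd_nonneg (z w : ℂ) : 0 ≤ hd z w := by
  unfold hd
  have := Real.arsinh_nonneg_iff.2 (Real.sqrt_nonneg (sh z w))
  linarith

theorem C_hd_comm (z w : ℂ) : hd z w = hd w z := by
  unfold hd sh
  rw [norm_sub_rev, mul_comm (1 - ‖z‖ ^ 2)]

/-- `|g z - g w|² = |z-w|² / (|den z|² |den w|²)` and `SU.normSq_app`. -/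
theorem C_sh_inv (g : SU) (z w : Disc) : sh (g.app z) (g.app w) = sh z w := by
  have hz := g.den_ne z.2.le
  have hw := g.den_ne w.2.le
  have h1 : g.app z - g.app w = (z - w) / (g.den z * g.den w) := by
    have e1 : g.app z = (g.a * z + g.b) / g.den z := rfl
    have e2 : g.app w = (g.a * w + g.b) / g.den w := rfl
    rw [e1, e2, div_sub_div _ _ hz hw]
    congr 1
    have h5 := g.h
    have h6 : g.a * conj g.a - g.b * conj g.b = 1 := by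
      rw [Complex.mul_conj, Complex.mul_conj]
      exact_mod_cast h5
    unfold SU.den
    linear_combination (z - w : ℂ) * h6
  have h2 := g.normSq_app z.2.le
  have h3 := g.normSq_app w.2.le
  have hz2 : ‖g.den z‖ ≠ 0 := norm_ne_zero_iff.2 hz
  have hw2 : ‖g.den w‖ ≠ 0 := norm_ne_zero_iff.2 hw
  obtain ⟨p1, p2⟩ := c10_pos z w
  have hz' : (1 - ‖(z : ℂ)‖ ^ 2) ≠ 0 := p1.ne'
  have hw' : (1 - ‖(w : ℂ)‖ ^ 2) ≠ 0 := p2.ne'
  unfold sh
  rw [h1, h2, h3, norm_div, norm_mul]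
  field_simp

theorem C_hd_inv (g : SU) (z w : Disc) : hd (g.app z) (g.app w) = hd z w := by
  unfold hd
  rw [C_sh_inv]

/-- `sh 0 z = |z|²/(1-|z|²)`, `tanh² = sinh²/(1+sinh²)`. -/
theorem C_hd_zero (z : Disc) : Real.tanh (hd 0 z / 2) = ‖(z : ℂ)‖ := by
  have hz := (c10_pos z z).1
  unfold hd
  have h1 : sh 0 z = ‖(z : ℂ)‖ ^ 2 / (1 - ‖(z : ℂ)‖ ^ 2) := by
    unfold sh
    rw [zero_sub, norm_neg, norm_zero]
    ring
  rw [mul_div_cancel_left₀ _ (two_ne_zero), Real.tanh_eq_sinh_div_cosh, Real.sinh_arsinh, Real.cosh_arsinh,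
    Real.sq_sqrt (by rw [h1]; positivity), h1, ← Real.sqrt_div (by positivity)]
  have h2 : ‖(z : ℂ)‖ ^ 2 / (1 - ‖(z : ℂ)‖ ^ 2) / (1 + ‖(z : ℂ)‖ ^ 2 / (1 - ‖(z : ℂ)‖ ^ 2)) = ‖(z : ℂ)‖ ^ 2 := by
    have hz' : (1 - ‖(z : ℂ)‖ ^ 2) ≠ 0 := hz.ne'
    field_simp
    ring
  rw [h2, Real.sqrt_sq (norm_nonneg _)]

/-- For each `p` in the disc there is `g` in SU with `g 0 = p` (`a = 1/√(1-|p|²)`, `b = p/√(1-|p|²)`). -/
theorem C_trans (p : Disc) : ∃ g : SU, g.app 0 = p := by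
  have hz := (c10_pos p p).1
  have hs : Real.sqrt (1 - ‖(p : ℂ)‖ ^ 2) ≠ 0 := (Real.sqrt_pos.2 hz).ne'
  refine ⟨⟨((1 / Real.sqrt (1 - ‖(p : ℂ)‖ ^ 2) : ℝ) : ℂ), (p : ℂ) * ((1 / Real.sqrt (1 - ‖(p : ℂ)‖ ^ 2) : ℝ) : ℂ), ?_⟩, ?_⟩
  · rw [map_mul, normSq_ofReal, normSq_eq_norm_sq]
    have h2 := Real.mul_self_sqrt hz.le
    field_simp
    nlinarith
  · unfold SU.app
    simp only [mul_zero, zero_add, conj_ofReal]
    rw [mul_div_cancel_right₀]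
    exact_mod_cast (one_div_ne_zero hs)

theorem c10_hyp (z : Disc) : 1 ≤ (Om z).1 ∧ (Om z).1 ^ 2 - ‖(Om z).2‖ ^ 2 = 1 := by
  have hz := (c10_pos z z).1
  unfold Om
  constructor
  · show 1 ≤ (1 + ‖(z : ℂ)‖ ^ 2) / (1 - ‖(z : ℂ)‖ ^ 2)
    rw [le_div_iff₀ hz]
    have := sq_nonneg ‖(z : ℂ)‖
    linarith
  · show ((1 + ‖(z : ℂ)‖ ^ 2) / (1 - ‖(z : ℂ)‖ ^ 2)) ^ 2 - ‖2 * (z : ℂ) / ((1 - ‖(z : ℂ)‖ ^ 2 : ℝ) : ℂ)‖ ^ 2 = 1
    rw [norm_div, norm_mul, Complex.norm_real, Real.norm_eq_abs, abs_of_pos hz, Complex.norm_ofNat]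
    have hz' : (1 - ‖(z : ℂ)‖ ^ 2) ≠ 0 := hz.ne'
    field_simp
    ring

theorem c10_tri (x z : Disc) : hd x z ≤ hd x 0 + hd 0 z := by
  have hx := C_cosh_hd x ⟨0, by simp⟩
  have hz := C_cosh_hd ⟨0, by simp⟩ z
  have hxz := C_cosh_hd x z
  obtain ⟨x1, x2⟩ := c10_hyp x
  obtain ⟨z1, z2⟩ := c10_hyp z
  have ex : mink (Om x) (Om (0 : ℂ)) = (Om x).1 := by
    unfold mink
    have : Om (0 : ℂ) = (1, 0) := by
      unfold Om
      simp
    rw [this]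
    simp
  have ez : mink (Om (0 : ℂ)) (Om z) = (Om z).1 := by
    unfold mink
    have : Om (0 : ℂ) = (1, 0) := by
      unfold Om
      simp
    rw [this]
    simp
  have hx : Real.cosh (hd x 0) = (Om x).1 := hx.trans ex
  have hz : Real.cosh (hd 0 z) = (Om z).1 := hz.trans ez
  have n1 := C_hd_nonneg x 0
  have n2 := C_hd_nonneg 0 z
  have n3 := C_hd_nonneg x z
  have s1 : Real.sinh (hd x 0) = ‖(Om x).2‖ := by
    have h1 := Real.cosh_sq (hd x 0)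
    have h2 := Real.sinh_nonneg_iff.2 n1
    rw [hx] at h1
    have h3 : Real.sinh (hd x 0) ^ 2 = ‖(Om x).2‖ ^ 2 := by linarith
    exact (pow_left_inj₀ h2 (norm_nonneg _) two_ne_zero).1 h3
  have s2 : Real.sinh (hd 0 z) = ‖(Om z).2‖ := by
    have h1 := Real.cosh_sq (hd 0 z)
    have h2 := Real.sinh_nonneg_iff.2 n2
    rw [hz] at h1
    have h3 : Real.sinh (hd 0 z) ^ 2 = ‖(Om z).2‖ ^ 2 := by linarith
    exact (pow_left_inj₀ h2 (norm_nonneg _) two_ne_zero).1 h3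
  have h4 : Real.cosh (hd x z) ≤ Real.cosh (hd x 0 + hd 0 z) := by
    rw [hxz, Real.cosh_add, hx, hz, s1, s2]
    unfold mink
    have h5 : -((Om x).2 * conj (Om z).2).re ≤ ‖(Om x).2‖ * ‖(Om z).2‖ := by
      have h6 := abs_re_le_norm ((Om x).2 * conj (Om z).2)
      rw [norm_mul, norm_conj] at h6
      have h7 := neg_abs_le ((Om x).2 * conj (Om z).2).re
      linarith
    linarith
  rw [Real.cosh_le_cosh, abs_of_nonneg n3, abs_of_nonneg (by positivity)] at h4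
  exact h4

/-- By `C_trans`, `C_hd_inv` assume `y = 0`.  With `α = hd x 0`, `β = hd 0 z`:
`cosh (hd x z) = mink = cosh α cosh β - Re (x_1 conj z_1) ≤ cosh α cosh β + sinh α sinh β = cosh (α+β)`
(`|x_1| = sinh α`, since `x_0² - |x_1|² = 1`). -/
theorem C_hd_triangle (x y z : Disc) : hd x z ≤ hd x y + hd y z := by
  obtain ⟨g, hg⟩ := C_trans y
  have hx : hd x y = hd (g⁻¹.app x) 0 := by
    have h1 := C_hd_inv g⁻¹ x y
    have h2 : g⁻¹.app y = 0 := by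
      rw [← hg, ← SU.app_mul _ _ (by simp), inv_mul_cancel, SU.app_one]
    rw [h2] at h1
    exact h1.symm
  have hz : hd y z = hd 0 (g⁻¹.app z) := by
    have h1 := C_hd_inv g⁻¹ y z
    have h2 : g⁻¹.app y = 0 := by
      rw [← hg, ← SU.app_mul _ _ (by simp), inv_mul_cancel, SU.app_one]
    rw [h2] at h1
    exact h1.symm
  rw [hx, hz, ← C_hd_inv g⁻¹ x z]
  exact c10_tri (SU.act g⁻¹ x) (SU.act g⁻¹ z)

theorem C_hd_cont : Continuous fun p : Disc × Disc => hd p.1 p.2 := by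
  unfold hd
  refine Continuous.mul continuous_const (Real.continuous_arsinh.comp (Real.continuous_sqrt.comp ?_))
  unfold sh
  refine Continuous.div ?_ ?_ ?_
  · fun_prop
  · fun_prop
  · rintro ⟨z, w⟩
    obtain ⟨p1, p2⟩ := c10_pos z w
    exact (mul_pos p1 p2).ne'

theorem C_hd_eq_zero {z w : Disc} : hd z w = 0 ↔ z = w := by
  obtain ⟨p1, p2⟩ := c10_pos z w
  unfold hd
  constructor
  · intro h
    have h1 : Real.arsinh (Real.sqrt (sh z w)) = 0 := by linarith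
    rw [Real.arsinh_eq_zero_iff, Real.sqrt_eq_zero (c10_sh z w)] at h1
    unfold sh at h1
    rw [div_eq_zero_iff] at h1
    rcases h1 with h1 | h1
    · have h2 : ‖(z : ℂ) - w‖ = 0 := by simpa using h1
      exact Subtype.ext (sub_eq_zero.1 (norm_eq_zero.1 h2))
    · exact absurd h1 (mul_pos p1 p2).ne'
  · rintro rfl
    have : sh z z = 0 := by
      unfold sh
      simp
    rw [this]
    simp

end Pool.Agent.Lib.H11Q
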