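import Pool.Agent.Lib.H11Q.C09B
import Pool.Agent.Lib.H11Q.C06

set_option autoImplicit false

namespace Pool.Agent.Lib.H11Q

open Complex Set MeasureTheory
open scoped ComplexConjugate Topology

/-! C11 (S/M): the model map in the disc `|g z| < r`. -/

/-- `G1 = act g⁻¹ * M * act g`, `M z = r Ψ(z / r)` for `|z| < 1` (`C_Psi`; for `|z| < r`: `|Ψ (z/r)| < 1`; for
`r ≤ |z| < 1`: `M z = z`).  `M` and `M⁻¹` are Lipschitz, `act g` is locally Lipschitz (`C_act_lip`,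
`LocallyLipschitz.comp`). -/
theorem C_local {κ : ℝ} (h0 : 0 ≤ κ) (h1 : κ ≤ 1 / 10) {P : ℂ → ℂ} (hodd : ∀ ξ, P (-ξ) = -P ξ)
    {t : ℝ} (hF : FldOK P t) {r : ℝ} (hr : 0 < r) (hr1 : r < 1) (g : SU) :
    ∃ G1 : Disc ≃ₜ Disc, LocallyLipschitz G1 ∧ LocallyLipschitz G1.symm ∧
      (∀ z : Disc, r ≤ ‖g.app z‖ → G1 z = z) ∧
      ∀ ξ : ℂ, ‖ξ‖ ≤ 1 → ∀ z : Disc, g.app z = r * beta κ ξ →
        g.app (G1 z) = r * beta' κ (flm P t ξ) := by
  obtain ⟨Ψ, hge, hlt, hβ, hbil⟩ := C_Psi h0 h1 hodd hF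
  have hr0 : (r : ℂ) ≠ 0 := by exact_mod_cast hr.ne'
  have hnr : ‖(r : ℂ)‖ = r := by rw [Complex.norm_real, Real.norm_eq_abs, abs_of_pos hr]
  have hlt' : ∀ z : ℂ, ‖z‖ < 1 → ‖Ψ.symm z‖ < 1 := by
    intro z hz
    by_contra hcon
    have h2 := hge _ (not_lt.1 hcon)
    rw [Ψ.apply_symm_apply] at h2
    rw [← h2] at hcon
    exact hcon hz
  have hge' : ∀ z : ℂ, 1 ≤ ‖z‖ → Ψ.symm z = z := by
    intro z hz
    rw [Homeomorph.symm_apply_eq, hge z hz]
  have hdiv : ∀ z : ℂ, ‖z / r‖ < 1 ↔ ‖z‖ < r := by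
    intro z
    rw [norm_div, hnr, div_lt_one hr]
  have hA : ∀ z : ℂ, ‖z‖ < 1 → ‖(r : ℂ) * Ψ (z / r)‖ < 1 := by
    intro z hz
    rcases lt_or_ge ‖z‖ r with h | h
    · have h2 := hlt _ ((hdiv z).2 h)
      rw [norm_mul, hnr]
      nlinarith [norm_nonneg (Ψ (z / r))]
    · rw [hge _ (not_lt.1 fun h' => absurd ((hdiv z).1 h') (not_lt.2 h)), mul_div_cancel₀ _ hr0]
      exact hz
  have hB : ∀ z : ℂ, ‖z‖ < 1 → ‖(r : ℂ) * Ψ.symm (z / r)‖ < 1 := by
    intro z hz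
    rcases lt_or_ge ‖z‖ r with h | h
    · have h2 := hlt' _ ((hdiv z).2 h)
      rw [norm_mul, hnr]
      nlinarith [norm_nonneg (Ψ.symm (z / r))]
    · rw [hge' _ (not_lt.1 fun h' => absurd ((hdiv z).1 h') (not_lt.2 h)), mul_div_cancel₀ _ hr0]
      exact hz
  have hscale : ∀ z w : ℂ, ‖(r : ℂ) * Ψ (z / r) - r * Ψ (w / r)‖ ≤ 20 * ‖z - w‖ := by
    intro z w
    have h2 := (hbil (z / r) (w / r)).1
    rw [← mul_sub, norm_mul, hnr]
    rw [← sub_div, norm_div, hnr] at h2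
    calc r * ‖Ψ (z / r) - Ψ (w / r)‖ ≤ r * (20 * (‖z - w‖ / r)) := mul_le_mul_of_nonneg_left h2 hr.le
      _ = 20 * ‖z - w‖ := by field_simp
  have hscale' : ∀ z w : ℂ, ‖(r : ℂ) * Ψ.symm (z / r) - r * Ψ.symm (w / r)‖ ≤ 20 * ‖z - w‖ := by
    intro z w
    have h2 := (hbil (Ψ.symm (z / r)) (Ψ.symm (w / r))).2
    rw [Ψ.apply_symm_apply, Ψ.apply_symm_apply] at h2
    rw [← mul_sub, norm_mul, hnr]
    rw [← sub_div, norm_div, hnr] at h2
    calc r * ‖Ψ.symm (z / r) - Ψ.symm (w / r)‖ ≤ r * (20 * (‖z - w‖ / r)) := mul_le_mul_of_nonneg_left h2 hr.le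
      _ = 20 * ‖z - w‖ := by field_simp
  let M : Disc ≃ₜ Disc :=
    { toFun := fun z => ⟨(r : ℂ) * Ψ (z / r), hA z z.2⟩
      invFun := fun z => ⟨(r : ℂ) * Ψ.symm (z / r), hB z z.2⟩
      left_inv := fun z => by
        apply Subtype.ext
        show (r : ℂ) * Ψ.symm ((r : ℂ) * Ψ (z / r) / r) = z
        rw [mul_div_cancel_left₀ _ hr0, Ψ.symm_apply_apply, mul_div_cancel₀ _ hr0]
      right_inv := fun z => by
        apply Subtype.ext
        show (r : ℂ) * Ψ ((r : ℂ) * Ψ.symm (z / r) / r) = z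
        rw [mul_div_cancel_left₀ _ hr0, Ψ.apply_symm_apply, mul_div_cancel₀ _ hr0]
      continuous_toFun := by
        apply Continuous.subtype_mk
        exact continuous_const.mul (Ψ.continuous.comp (continuous_subtype_val.div_const _))
      continuous_invFun := by
        apply Continuous.subtype_mk
        exact continuous_const.mul (Ψ.symm.continuous.comp (continuous_subtype_val.div_const _)) }
  have hMc : ∀ z : Disc, ((M z : Disc) : ℂ) = (r : ℂ) * Ψ (z / r) := fun _ => rfl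
  have hMl : LocallyLipschitz M := by
    refine LipschitzWith.locallyLipschitz (K := 20) (LipschitzWith.of_dist_le_mul fun z w => ?_)
    rw [Subtype.dist_eq, Subtype.dist_eq, Complex.dist_eq, Complex.dist_eq]
    exact_mod_cast hscale z w
  have hMl' : LocallyLipschitz M.symm := by
    refine LipschitzWith.locallyLipschitz (K := 20) (LipschitzWith.of_dist_le_mul fun z w => ?_)
    rw [Subtype.dist_eq, Subtype.dist_eq, Complex.dist_eq, Complex.dist_eq]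
    exact_mod_cast hscale' z w
  have hinv : ∀ g : SU, (SU.act g).symm = SU.act g⁻¹ := fun g => (map_inv SU.act g).symm
  have hgG : ∀ z : Disc, g.app (((SU.act g⁻¹ * M * SU.act g) z : Disc) : ℂ) = (r : ℂ) * Ψ (g.app z / r) := by
    intro z
    have e1 : (((SU.act g⁻¹ * M * SU.act g) z : Disc) : ℂ) = g⁻¹.app (M (SU.act g z) : Disc) := rfl
    rw [e1, ← SU.app_mul _ _ (M (SU.act g z)).2.le, mul_inv_cancel, SU.app_one, hMc]
    rfl
  refine ⟨SU.act g⁻¹ * M * SU.act g, ?_, ?_, ?_, ?_⟩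
  · exact (C_act_lip g⁻¹).comp (hMl.comp (C_act_lip g))
  · have hs : (SU.act g⁻¹ * M * SU.act g).symm = SU.act g⁻¹ * (M.symm * SU.act g) := by
      show (SU.act g⁻¹ * M * SU.act g)⁻¹ = SU.act g⁻¹ * (M⁻¹ * SU.act g)
      rw [mul_inv_rev, mul_inv_rev, map_inv, inv_inv]
    rw [hs]
    exact (C_act_lip g⁻¹).comp (hMl'.comp (C_act_lip g))
  · intro z hz
    have h2 : M (SU.act g z) = SU.act g z := by
      apply Subtype.ext
      rw [hMc]
      show (r : ℂ) * Ψ (g.app z / r) = g.app z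
      rw [hge _ (not_lt.1 fun h' => absurd ((hdiv _).1 h') (not_lt.2 hz)), mul_div_cancel₀ _ hr0]
    show SU.act g⁻¹ (M (SU.act g z)) = z
    rw [h2, ← hinv, (SU.act g).symm_apply_apply]
  · intro ξ hξ z hz
    rw [hgG, hz, mul_div_cancel_left₀ _ hr0, hβ ξ hξ]

end Pool.Agent.Lib.H11Q
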