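import Pool.Agent.Lib.H11Q.C10
import Pool.Agent.Lib.H11Q.C06

set_option autoImplicit false

namespace Pool.Agent.Lib.H11Q

open Complex Set MeasureTheory
open scoped ComplexConjugate Topology

/-! C12 (M): periodic extension of a map supported in a ball (PROOF.md 8.4). -/

theorem c12_tanh {x y : ℝ} (h : x < y) : Real.tanh x < Real.tanh y := by
  have hx := Real.cosh_pos x
  have hy := Real.cosh_pos y
  rw [Real.tanh_eq_sinh_div_cosh, Real.tanh_eq_sinh_div_cosh, div_lt_div_iff₀ hx hy]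
  have h1 : 0 < Real.sinh (y - x) := Real.sinh_pos_iff.2 (by linarith)
  rw [Real.sinh_sub] at h1
  linarith

theorem c12_tanh_le {x y : ℝ} (h : Real.tanh x ≤ Real.tanh y) : x ≤ y := by
  by_contra hcon
  push Not at hcon
  exact absurd (c12_tanh hcon) (not_lt.2 h)

/-- The centre `g⁻¹ 0`. -/
noncomputable def c12_p (g : SU) : Disc := SU.act g⁻¹ ⟨0, by simp⟩

/-- The distance from the centre. -/
noncomputable def c12_D (g : SU) (z : Disc) : ℝ := hd (c12_p g) z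

theorem c12_app_p (g : SU) : g.app (c12_p g) = 0 := by
  have h : SU.act g (c12_p g) = ⟨0, by simp⟩ := by
    unfold c12_p
    rw [map_inv]
    exact (SU.act g).apply_symm_apply _
  have h2 := congrArg (fun z : Disc => (z : ℂ)) h
  exact h2

theorem c12_D_tanh (g : SU) (z : Disc) : Real.tanh (c12_D g z / 2) = ‖g.app z‖ := by
  have h1 := C_hd_zero (SU.act g z)
  have h2 := C_hd_inv g (c12_p g) z
  rw [c12_app_p] at h2
  rw [SU.act_coe] at h1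
  unfold c12_D
  rw [← h2]
  exact h1

theorem c12_hd_cont (z : Disc) : Continuous fun z' : Disc => hd z z' := by
  have h := C_hd_cont.comp (Continuous.prodMk (continuous_const (y := z)) continuous_id)
  exact h

theorem c12_D_cont (g : SU) : Continuous (c12_D g) := c12_hd_cont (c12_p g)

open Classical in
/-- The periodic extension. -/
noncomputable def c12_G (Γ : Subgroup (Disc ≃ₜ Disc)) (D : Disc → ℝ) (R : ℝ)
    (H : Disc → Disc) (z : Disc) : Disc :=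
  if h : ∃ γ ∈ Γ, D (γ⁻¹ z) < R then h.choose (H (h.choose⁻¹ z)) else z

section

variable {Γ : Subgroup (Disc ≃ₜ Disc)} {D : Disc → ℝ} {R : ℝ} {H : Disc → Disc}

theorem c12_G_of (hu : ∀ γ ∈ Γ, ∀ γ' ∈ Γ, ∀ z, D (γ⁻¹ z) ≤ R + 1 / 2 →
      D (γ'⁻¹ z) ≤ R + 1 / 2 → γ = γ') (hH : ∀ z, R ≤ D z → H z = z)
    {γ : Disc ≃ₜ Disc} (hγ : γ ∈ Γ) {z : Disc} (hz : D (γ⁻¹ z) ≤ R + 1 / 2) :
    c12_G Γ D R H z = γ (H (γ⁻¹ z)) := by
  unfold c12_G
  by_cases h : ∃ γ ∈ Γ, D (γ⁻¹ z) < R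
  · rw [dif_pos h]
    have h1 := h.choose_spec
    have h2 : h.choose = γ := hu _ h1.1 _ hγ z (by linarith [h1.2]) hz
    rw [h2]
  · rw [dif_neg h]
    have h1 : R ≤ D (γ⁻¹ z) := by
      by_contra hcon
      exact h ⟨γ, hγ, not_le.1 hcon⟩
    rw [hH _ h1]
    exact (γ.apply_symm_apply z).symm

theorem c12_G_none {z : Disc} (h : ¬ ∃ γ ∈ Γ, D (γ⁻¹ z) < R) : c12_G Γ D R H z = z := by
  unfold c12_G
  rw [dif_neg h]

theorem c12_G_inv {H' : Disc → Disc} (hR : ∀ γ ∈ Γ, ∀ γ' ∈ Γ, ∀ z, D (γ⁻¹ z) ≤ R + 1 / 2 →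
      D (γ'⁻¹ z) ≤ R + 1 / 2 → γ = γ') (hH : ∀ z, R ≤ D z → H z = z)
    (hH' : ∀ z, R ≤ D z → H' z = z) (hinv : ∀ z, H' (H z) = z) (z : Disc) :
    c12_G Γ D R H' (c12_G Γ D R H z) = z := by
  by_cases h : ∃ γ ∈ Γ, D (γ⁻¹ z) < R
  · obtain ⟨γ, hγ, hz⟩ := h
    rw [c12_G_of hR hH hγ (by linarith : D (γ⁻¹ z) ≤ R + 1 / 2)]
    have e : γ⁻¹ (γ (H (γ⁻¹ z))) = H (γ⁻¹ z) := γ.symm_apply_apply _
    have h1 : D (H (γ⁻¹ z)) < R := by
      by_contra hcon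
      push Not at hcon
      have h2 := hH' _ hcon
      rw [hinv] at h2
      rw [← h2] at hcon
      linarith
    rw [c12_G_of hR hH' hγ (by rw [e]; linarith), e, hinv]
    exact γ.apply_symm_apply z
  · rw [c12_G_none h, c12_G_none h]

theorem c12_G_comm (hR : ∀ γ ∈ Γ, ∀ γ' ∈ Γ, ∀ z, D (γ⁻¹ z) ≤ R + 1 / 2 →
      D (γ'⁻¹ z) ≤ R + 1 / 2 → γ = γ') (hH : ∀ z, R ≤ D z → H z = z)
    {γ : Disc ≃ₜ Disc} (hγ : γ ∈ Γ) (z : Disc) :
    γ (c12_G Γ D R H z) = c12_G Γ D R H (γ z) := by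
  by_cases h : ∃ δ ∈ Γ, D (δ⁻¹ z) < R
  · obtain ⟨δ, hδ, hz⟩ := h
    rw [c12_G_of hR hH hδ (by linarith : D (δ⁻¹ z) ≤ R + 1 / 2)]
    have e : (γ * δ)⁻¹ (γ z) = δ⁻¹ z := by
      rw [mul_inv_rev]
      show δ⁻¹ (γ⁻¹ (γ z)) = δ⁻¹ z
      congr 1
      exact γ.symm_apply_apply z
    rw [c12_G_of hR hH (Γ.mul_mem hγ hδ) (by rw [e]; linarith), e]
    rfl
  · have h' : ¬ ∃ δ ∈ Γ, D (δ⁻¹ (γ z)) < R := by
      rintro ⟨δ, hδ, hz⟩
      refine h ⟨γ⁻¹ * δ, Γ.mul_mem (Γ.inv_mem hγ) hδ, ?_⟩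
      have e : (γ⁻¹ * δ)⁻¹ z = δ⁻¹ (γ z) := by
        rw [mul_inv_rev, inv_inv]
        rfl
      rw [e]
      exact hz
    rw [c12_G_none h, c12_G_none h']

end

theorem c12_lip {f g : Disc → Disc} {z : Disc} (h : ∀ᶠ z' in 𝓝 z, f z' = g z')
    (hg : LocallyLipschitz g) : ∃ K, ∃ t ∈ 𝓝 z, LipschitzOnWith K f t := by
  obtain ⟨K, t, ht, hK⟩ := hg z
  refine ⟨K, t ∩ {z' | f z' = g z'}, Filter.inter_mem ht h, ?_⟩
  intro x hx y hy
  have e1 : f x = g x := hx.2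
  have e2 : f y = g y := hy.2
  rw [e1, e2]
  exact hK hx.1 hy.1

/-- Let `p = g⁻¹ 0`, `B = {z : |g z| < tanh (R/2)} = {z : hd p z < R}` (`C_hd_zero`, `C_hd_inv`).
(1) If `γ, γ' ∈ Γ` and `hd p (γ⁻¹ z) ≤ R + 1/2`, `hd p (γ'⁻¹ z) ≤ R + 1/2` then `γ = γ'`: put `x = γ⁻¹ z`, `y = γ'⁻¹ z`,
`y = δ x`, `δ = γ'⁻¹ γ`, `hd x (δ x) ≤ 2R + 1`, so `δ = 1`.
(2) Define `G z = γ (G1 (γ⁻¹ z))` if some `γ ∈ Γ` has `hd p (γ⁻¹ z) < R` (it is unique by (1)), `G z = z` otherwise.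
In all cases: for every `z` there is `γ ∈ Γ` with `G z' = γ (G1 (γ⁻¹ z'))` for all `z'` with `hd z z' < 1/4`: if some `z'`
with `hd z z' < 1/4` is in `γ B`, then all `z''` with `hd z z'' < 1/4` have `hd p (γ⁻¹ z'') < R + 1/2`, so by (1) no other
`γ' B` contains such a `z''`, and where `z''` is not in `γ B` both sides are `z''` (`G1` is the identity off `B`).
If no `γ B` meets the small ball take `γ = 1`.
If `hd p z ≤ R`: `γ = 1` works (same argument).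
(3) So `G` is continuous and locally Lipschitz.  The same construction with `G1.symm` (which is also the identity off `B`,
`G1` maps `B` onto `B`) gives the inverse.  (4) `γ G = G γ`: from the definition. -/
theorem C_periodic (Γ : Subgroup (Disc ≃ₜ Disc)) (hmob : ∀ γ ∈ Γ, ∃ m : SU, γ = SU.act m)
    {R : ℝ} (hR : 0 < R) (hdisp : ∀ γ ∈ Γ, γ ≠ 1 → ∀ z : Disc, 2 * R + 2 < hd z (γ z))
    (g : SU) (G1 : Disc ≃ₜ Disc) (hl : LocallyLipschitz G1) (hl' : LocallyLipschitz G1.symm)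
    (hid : ∀ z : Disc, Real.tanh (R / 2) ≤ ‖g.app z‖ → G1 z = z) :
    ∃ G : Disc ≃ₜ Disc, (∀ γ ∈ Γ, γ * G = G * γ) ∧ LocallyLipschitz G ∧
      LocallyLipschitz G.symm ∧
      (∀ z : Disc, ∃ γ ∈ Γ, ∀ᶠ z' in 𝓝 z, G z' = γ (G1 (γ⁻¹ z'))) ∧
      ∀ z : Disc, ‖g.app z‖ ≤ Real.tanh (R / 2) → ∀ᶠ z' in 𝓝 z, G z' = G1 z' := by
  classical
  set D : Disc → ℝ := c12_D g with hD
  have hDc : Continuous D := c12_D_cont g
  have hinvΓ : ∀ γ ∈ Γ, ∀ z w : Disc, hd (γ z) (γ w) = hd z w := by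
    intro γ hγ z w
    obtain ⟨m, rfl⟩ := hmob γ hγ
    rw [SU.act_coe, SU.act_coe]
    exact C_hd_inv m z w
  have hu : ∀ γ ∈ Γ, ∀ γ' ∈ Γ, ∀ z, D (γ⁻¹ z) ≤ R + 1 / 2 →
      D (γ'⁻¹ z) ≤ R + 1 / 2 → γ = γ' := by
    intro γ hγ γ' hγ' z h1 h2
    by_contra hne
    have hδ : γ'⁻¹ * γ ∈ Γ := Γ.mul_mem (Γ.inv_mem hγ') hγ
    have hδ1 : γ'⁻¹ * γ ≠ 1 := by
      intro h
      exact hne (inv_mul_eq_one.1 h).symm
    have h3 := hdisp _ hδ hδ1 (γ⁻¹ z)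
    have e : (γ'⁻¹ * γ) (γ⁻¹ z) = γ'⁻¹ z := by
      show γ'⁻¹ (γ (γ⁻¹ z)) = γ'⁻¹ z
      congr 1
      exact γ.apply_symm_apply z
    rw [e] at h3
    have h4 := C_hd_triangle (γ⁻¹ z) (c12_p g) (γ'⁻¹ z)
    rw [C_hd_comm (γ⁻¹ z) (c12_p g)] at h4
    have h5 : D (γ⁻¹ z) = hd (c12_p g) (γ⁻¹ z) := rfl
    have h6 : D (γ'⁻¹ z) = hd (c12_p g) (γ'⁻¹ z) := rfl
    rw [← h5, ← h6] at h4
    linarith
  have hH : ∀ z, R ≤ D z → G1 z = z := by
    intro z hz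
    apply hid
    rw [← c12_D_tanh]
    rcases hz.lt_or_eq with h | h
    · exact (c12_tanh (by linarith : R / 2 < c12_D g z / 2)).le
    · have : R / 2 = c12_D g z / 2 := by rw [h]
      rw [this]
  have hH' : ∀ z, R ≤ D z → G1.symm z = z := by
    intro z hz
    rw [Homeomorph.symm_apply_eq]
    exact (hH z hz).symm
  have hmobL : ∀ γ ∈ Γ, LocallyLipschitz γ := by
    intro γ hγ
    obtain ⟨m, rfl⟩ := hmob γ hγ
    exact C_act_lip m
  -- the local form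
  have hlocal : ∀ H : Disc → Disc, (∀ z, R ≤ D z → H z = z) → ∀ z : Disc, ∃ γ ∈ Γ,
      ∀ᶠ z' in 𝓝 z, c12_G Γ D R H z' = γ (H (γ⁻¹ z')) := by
    intro H hHH z
    by_cases h : ∃ γ ∈ Γ, D (γ⁻¹ z) < R + 1 / 2
    · obtain ⟨γ, hγ, hz⟩ := h
      refine ⟨γ, hγ, ?_⟩
      have hc : Continuous fun z' : Disc => D (γ⁻¹ z') := hDc.comp (γ⁻¹).continuous
      filter_upwards [hc.continuousAt.eventually_lt continuousAt_const hz] with z' hz'
      exact c12_G_of hu hHH hγ hz'.le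
    · refine ⟨1, Γ.one_mem, ?_⟩
      have hc : Continuous fun z' : Disc => hd z z' := c12_hd_cont z
      have h0 : hd z z < 1 / 2 := by
        rw [C_hd_eq_zero.2 rfl]
        norm_num
      filter_upwards [hc.continuousAt.eventually_lt continuousAt_const h0] with z' hz'
      have hall : ∀ γ ∈ Γ, R < D (γ⁻¹ z') := by
        intro γ hγ
        have h1 : R + 1 / 2 ≤ D (γ⁻¹ z) := by
          by_contra hcon
          exact h ⟨γ, hγ, not_le.1 hcon⟩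
        have h2 := C_hd_triangle (c12_p g) (γ⁻¹ z') (γ⁻¹ z)
        have h3 := hinvΓ γ⁻¹ (Γ.inv_mem hγ) z' z
        rw [h3, C_hd_comm (z' : ℂ) z] at h2
        have h4 : D (γ⁻¹ z) = hd (c12_p g) (γ⁻¹ z) := rfl
        have h5 : D (γ⁻¹ z') = hd (c12_p g) (γ⁻¹ z') := rfl
        rw [← h4, ← h5] at h2
        linarith
      rw [c12_G_none]
      · have h6 := hall 1 Γ.one_mem
        rw [inv_one] at h6
        have h7 : H z' = z' := hHH z' h6.le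
        rw [inv_one]
        exact h7.symm
      · rintro ⟨γ, hγ, h7⟩
        linarith [hall γ hγ]
  have hlip : ∀ H : Disc → Disc, (∀ z, R ≤ D z → H z = z) → LocallyLipschitz H →
      LocallyLipschitz (c12_G Γ D R H) := by
    intro H hHH hHl z
    obtain ⟨γ, hγ, hz⟩ := hlocal H hHH z
    exact c12_lip hz ((hmobL γ hγ).comp (hHl.comp (hmobL γ⁻¹ (Γ.inv_mem hγ))))
  obtain ⟨G, hGf, hGi⟩ : ∃ G : Disc ≃ₜ Disc, (G : Disc → Disc) = c12_G Γ D R G1 ∧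
      (G.symm : Disc → Disc) = c12_G Γ D R G1.symm :=
    ⟨{ toFun := c12_G Γ D R G1
       invFun := c12_G Γ D R G1.symm
       left_inv := c12_G_inv hu hH hH' (fun z => G1.symm_apply_apply z)
       right_inv := c12_G_inv hu hH' hH (fun z => G1.apply_symm_apply z)
       continuous_toFun := (hlip _ hH hl).continuous
       continuous_invFun := (hlip _ hH' hl').continuous }, rfl, rfl⟩
  refine ⟨G, ?_, ?_, ?_, ?_, ?_⟩
  · intro γ hγ
    apply Homeomorph.ext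
    intro z
    rw [Homeomorph.mul_apply, Homeomorph.mul_apply, hGf]
    exact c12_G_comm hu hH hγ z
  · rw [hGf]
    exact hlip _ hH hl
  · rw [hGi]
    exact hlip _ hH' hl'
  · rw [hGf]
    exact hlocal _ hH
  · intro z hz
    rw [← c12_D_tanh] at hz
    have h1 : D z ≤ R := by
      have := c12_tanh_le hz
      show c12_D g z ≤ R
      linarith
    have h2 : D z < R + 1 / 2 := by linarith
    rw [hGf]
    filter_upwards [hDc.continuousAt.eventually_lt continuousAt_const h2] with z' hz'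
    have h3 := c12_G_of hu hH Γ.one_mem (z := z') (by rw [inv_one]; exact hz'.le)
    rw [inv_one] at h3
    exact h3

end Pool.Agent.Lib.H11Q
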