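import Pool.Agent.Lib.H11Q.CD

set_option autoImplicit false

namespace Pool.Agent.Lib.H11Q

open Complex Set MeasureTheory
open scoped ComplexConjugate Topology

/-! C13 (S): group theory. -/

/-- `F = h a G h⁻¹`: `F h γ h⁻¹ F⁻¹ = h (a γ a⁻¹) h⁻¹`. -/
theorem C_norm {H : Type*} [Group H] (Γ : Subgroup H) (h a G : H)
    (ha : ∀ x, x ∈ Γ ↔ a * x * a⁻¹ ∈ Γ) (hG : ∀ γ ∈ Γ, γ * G = G * γ) (x : H) :
    x ∈ Γ.map (MulAut.conj h).toMonoidHom ↔
      (h * a * G * h⁻¹) * x * (h * a * G * h⁻¹)⁻¹ ∈ Γ.map (MulAut.conj h).toMonoidHom := by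
  have hmem : ∀ y : H, y ∈ Γ.map (MulAut.conj h).toMonoidHom ↔ h⁻¹ * y * h ∈ Γ := by
    intro y
    constructor
    · rintro ⟨γ, hγ, rfl⟩
      have : h⁻¹ * (MulAut.conj h).toMonoidHom γ * h = γ := by
        show h⁻¹ * (h * γ * h⁻¹) * h = γ
        group
      rw [this]
      exact hγ
    · intro hy
      refine ⟨h⁻¹ * y * h, hy, ?_⟩
      show h * (h⁻¹ * y * h) * h⁻¹ = y
      group
  rw [hmem, hmem]
  have e : h⁻¹ * (h * a * G * h⁻¹ * x * (h * a * G * h⁻¹)⁻¹) * h = a * (G * (h⁻¹ * x * h) * G⁻¹) * a⁻¹ := by group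
  rw [e, ← ha]
  constructor
  · intro hy
    rw [← hG _ hy, mul_inv_cancel_right]
    exact hy
  · intro hy
    have h1 := hG _ hy
    have h2 : h⁻¹ * x * h = G * (h⁻¹ * x * h) * G⁻¹ := by
      have h3 : G * (h⁻¹ * x * h) * G⁻¹ * G = G * (h⁻¹ * x * h) := by group
      rw [h3] at h1
      exact mul_left_cancel h1
    rw [h2]
    exact hy

/-- Normality of `G` in `W` (both directions). -/
theorem C_norm_map {G : Subgroup W} (hG : G.Normal) (a : W) (x : Disc ≃ₜ Disc) :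
    x ∈ G.map ac ↔ ac a * x * (ac a)⁻¹ ∈ G.map ac := by
  constructor
  · rintro ⟨w, hw, rfl⟩
    exact ⟨a * w * a⁻¹, hG.conj_mem w hw a, by rw [map_mul, map_mul, map_inv]⟩
  · rintro ⟨w, hw, h1⟩
    refine ⟨a⁻¹ * w * a, ?_, ?_⟩
    · have := hG.conj_mem w hw a⁻¹
      rwa [inv_inv] at this
    · rw [map_mul, map_mul, map_inv, h1]
      group

end Pool.Agent.Lib.H11Q
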