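import Pool.Agent.Lib.H11Q.C11

set_option autoImplicit false

namespace Pool.Agent.Lib.H11Q

open Complex Set MeasureTheory
open scoped ComplexConjugate Topology

/-! C14 (M): the derivative of the model map. -/

/-- `φ(ξ) = g⁻¹ (r β ξ)` is strictly differentiable at `ξ` with derivative `2 r c1 (1, κ)` (`C_app_deriv`, `C_beta_deriv`,
chain rule; `c1` collects `1/den²`, `WW'`, `σ`), which is invertible: `WW' ≠ 0` (`Iface.E_hol`: `|WW' - 1| ≤ 1/2`),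
`σ = ξ + κ conj ξ ≠ 0`, `den ≠ 0`.  So `φ` has a local inverse `ψ` at `z` (`HasStrictFDerivAt.localInverse`, or
`HasStrictFDerivAt.toOpenPartialHomeomorph`) with derivative `(1,κ)⁻¹ (1/(2 r c1))`, and near `z`:
`G1 = g⁻¹ (r β' (flm (ψ)))` by the hypothesis `hG`, with derivative `2 r c2 (1,-κ)(1 + t DV)` composed with it; the
factor `2r` cancels.  (`flm ξ ≠ 0` by `FldOK.lo`, `C_flm_zero`.) -/
theorem C_G1_deriv {κ : ℝ} (h0 : 0 ≤ κ) (h1 : κ ≤ 1 / 10) {P : ℂ → ℂ} (hP : ContDiff ℝ 2 P)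
    (hodd : ∀ ξ, P (-ξ) = -P ξ) {t : ℝ} (hF : FldOK P t) {r : ℝ} (hr : 0 < r) (hr1 : r < 1)
    (g : SU) (G1 : Disc ≃ₜ Disc)
    (hG : ∀ ξ : ℂ, ‖ξ‖ ≤ 1 → ∀ z : Disc, g.app z = r * beta κ ξ →
      g.app (G1 z) = r * beta' κ (flm P t ξ))
    {ξ : ℂ} (hξ0 : ξ ≠ 0) (hξ : ‖ξ‖ < 1) {z : Disc} (hz : g.app z = r * beta κ ξ) :
    c1 g r κ ξ ≠ 0 ∧ c2 g⁻¹ r κ (flm P t ξ) ≠ 0 ∧
    HasFDerivAt (ext G1) ((ab (c2 g⁻¹ r κ (flm P t ξ)) 0).comp ((ab 1 (-(κ : ℂ))).comp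
      ((ContinuousLinearMap.id ℝ ℂ + t • fderiv ℝ (fld P) ξ).comp
        ((iab κ).comp (ab (1 / c1 g r κ ξ) 0))))) z := by
  have hk : 1 + κ ^ 2 < 5 / 4 := by nlinarith
  have hnr : ‖(r : ℂ)‖ = r := by rw [Complex.norm_real, Real.norm_eq_abs, abs_of_pos hr]
  have hr0 : (r : ℂ) ≠ 0 := by exact_mod_cast hr.ne'
  have hκn : ‖(κ : ℂ)‖ < 1 := by
    rw [Complex.norm_real, Real.norm_eq_abs, abs_of_nonneg h0]
    linarith
  -- norms
  have hβ : ‖beta κ ξ‖ < 1 := (Iface.E_beta_lt h0 h1 hξ).1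
  have hfl : ‖flm P t ξ‖ < 1 := hF.lt ξ hξ
  have hβ' : ‖beta' κ (flm P t ξ)‖ < 1 := (Iface.E_beta_lt h0 h1 hfl).2
  have hrβ : ‖(r : ℂ) * beta κ ξ‖ < 1 := by
    rw [norm_mul, hnr]
    nlinarith [norm_nonneg (beta κ ξ)]
  have hrβ' : ‖(r : ℂ) * beta' κ (flm P t ξ)‖ < 1 := by
    rw [norm_mul, hnr]
    nlinarith [norm_nonneg (beta' κ (flm P t ξ))]
  have hfl0 : flm P t ξ ≠ 0 := by
    intro h
    have h2 := hF.lo ξ 0 hξ.le (by simp)
    rw [C_flm_zero hodd, h, sub_self, norm_zero, sub_zero] at h2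
    have h3 := norm_pos_iff.2 hξ0
    linarith
  have hW : ∀ Z : ℂ, ‖Z‖ ≤ 1 + κ ^ 2 → deriv (WW κ) Z ≠ 0 := by
    intro Z hZ h
    have h2 := (Iface.E_hol h0 h1 (hZ.trans_lt hk)).2
    rw [h, zero_sub, norm_neg, norm_one] at h2
    norm_num at h2
  have hσ : ξ + κ * conj ξ ≠ 0 := by
    intro h
    have h2 := (c09_lin h0 h1 ξ).1
    rw [h, norm_zero] at h2
    have h3 := norm_pos_iff.2 hξ0
    linarith
  have hσ' : flm P t ξ - κ * conj (flm P t ξ) ≠ 0 := by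
    intro h
    have h2 := (c09_lin' h0 h1 (flm P t ξ)).1
    rw [h, norm_zero] at h2
    have h3 := norm_pos_iff.2 hfl0
    linarith
  have hc1 : c1 g r κ ξ ≠ 0 := by
    unfold c1
    exact mul_ne_zero (mul_ne_zero (one_div_ne_zero (pow_ne_zero _ (g⁻¹.den_ne hrβ.le))) (hW _ (C_ZZ_norm h0 h1 hξ.le).1)) hσ
  have hc2 : c2 g⁻¹ r κ (flm P t ξ) ≠ 0 := by
    unfold c2
    exact mul_ne_zero (mul_ne_zero (one_div_ne_zero (pow_ne_zero _ (g⁻¹.den_ne hrβ'.le))) (hW _ (C_ZZ_norm h0 h1 hfl.le).2)) hσ'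
  refine ⟨hc1, hc2, ?_⟩
  -- the map φ
  set φ : ℂ → ℂ := fun η => g⁻¹.app ((r : ℂ) * beta κ η) with hφ
  have hmulr : ∀ x : ℂ, HasStrictFDerivAt (fun y : ℂ => (r : ℂ) * y) (ab r 0) x := by
    intro x
    have h2 : HasStrictFDerivAt (fun y : ℂ => ab r 0 y) (ab r 0) x := (ab r 0).hasStrictFDerivAt
    have h3 : (fun y : ℂ => ab (r : ℂ) 0 y) = fun y : ℂ => (r : ℂ) * y := by
      funext y
      simp
    rwa [h3] at h2
  have happ : ∀ x : ℂ, ‖x‖ ≤ 1 → HasStrictFDerivAt g⁻¹.app (ab (1 / (g⁻¹.den x) ^ 2) 0) x := by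
    intro x hx
    have h2 := (C_app_deriv g⁻¹ hx).complexToReal_fderiv
    have h3 : (1 / (g⁻¹.den x) ^ 2) • (1 : ℂ →L[ℝ] ℂ) = ab (1 / (g⁻¹.den x) ^ 2) 0 := by
      ext v
      simp
    rwa [h3] at h2
  have hφD : HasStrictFDerivAt φ ((ab (2 * r * c1 g r κ ξ) 0).comp (ab 1 κ)) ξ := by
    have h2 := (happ _ hrβ.le).comp ξ ((hmulr (beta κ ξ)).comp ξ (C_beta_deriv h0 h1 hξ.le))
    have h3 : (ab (1 / (g⁻¹.den ((r : ℂ) * beta κ ξ)) ^ 2) 0).comp ((ab (r : ℂ) 0).comp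
        ((ab (deriv (WW κ) (ZZ κ ξ) * (2 * (ξ + κ * conj ξ))) 0).comp (ab 1 κ))) =
        (ab (2 * r * c1 g r κ ξ) 0).comp (ab 1 κ) := by
      ext v
      simp only [ContinuousLinearMap.comp_apply, ab_apply, zero_mul, add_zero]
      unfold c1
      ring
    rw [h3] at h2
    exact h2
  obtain ⟨i1, i2⟩ := C_iab_comp hκn
  have hc1' : 2 * (r : ℂ) * c1 g r κ ξ ≠ 0 := mul_ne_zero (mul_ne_zero two_ne_zero hr0) hc1
  have hid : ab 1 0 = ContinuousLinearMap.id ℝ ℂ := by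
    ext v
    simp
  have j1 : (ab (1 / (2 * r * c1 g r κ ξ)) 0).comp (ab (2 * r * c1 g r κ ξ) 0) = ContinuousLinearMap.id ℝ ℂ := by
    rw [C_ab_comp, ← hid]
    congr 1
    · rw [map_zero, mul_zero, add_zero, one_div_mul_cancel hc1']
    · simp
  have j2 : (ab (2 * r * c1 g r κ ξ) 0).comp (ab (1 / (2 * r * c1 g r κ ξ)) 0) = ContinuousLinearMap.id ℝ ℂ := by
    rw [C_ab_comp, ← hid]
    congr 1
    · rw [map_zero, mul_zero, add_zero, mul_one_div_cancel hc1']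
    · simp
  set A := (ab (2 * r * c1 g r κ ξ) 0).comp (ab 1 κ) with hA
  set A' := (iab (κ : ℂ)).comp (ab (1 / (2 * r * c1 g r κ ξ)) 0) with hA'
  have k1 : A'.comp A = ContinuousLinearMap.id ℝ ℂ := by
    rw [hA, hA', ContinuousLinearMap.comp_assoc, ← ContinuousLinearMap.comp_assoc (ab (1 / (2 * r * c1 g r κ ξ)) 0), j1,
      ContinuousLinearMap.id_comp, i1]
  have k2 : A.comp A' = ContinuousLinearMap.id ℝ ℂ := by
    rw [hA, hA', ContinuousLinearMap.comp_assoc, ← ContinuousLinearMap.comp_assoc (ab 1 (κ : ℂ)), i2,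
      ContinuousLinearMap.id_comp, j2]
  let E : ℂ ≃L[ℝ] ℂ := ContinuousLinearEquiv.equivOfInverse A A'
      (fun v => by rw [← ContinuousLinearMap.comp_apply, k1]; rfl)
      (fun v => by rw [← ContinuousLinearMap.comp_apply, k2]; rfl)
  have hE : HasStrictFDerivAt φ (E : ℂ →L[ℝ] ℂ) ξ := hφD
  have hφξ : φ ξ = z := by
    show g⁻¹.app ((r : ℂ) * beta κ ξ) = z
    rw [← hz, ← SU.app_mul _ _ z.2.le, inv_mul_cancel, SU.app_one]
  set ψ := hE.localInverse φ E ξ with hψ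
  have hψD : HasStrictFDerivAt ψ (A' : ℂ →L[ℝ] ℂ) (z : ℂ) := by
    have h2 := hE.to_localInverse
    rw [hφξ] at h2
    exact h2
  have hψz : ψ z = ξ := by
    rw [← hφξ]
    exact hE.localInverse_apply_image
  have hψr : ∀ᶠ y in 𝓝 (z : ℂ), φ (ψ y) = y := by
    have h2 := hE.eventually_right_inverse
    rw [hφξ] at h2
    exact h2
  have hψc : ∀ᶠ y in 𝓝 (z : ℂ), ‖ψ y‖ < 1 := by
    have h2 : ContinuousAt ψ z := hψD.continuousAt
    have h3 : {x : ℂ | ‖x‖ < 1} ∈ 𝓝 (ψ z) := by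
      rw [hψz]
      exact (isOpen_lt continuous_norm continuous_const).mem_nhds hξ
    exact h2 h3
  have hz1 : ∀ᶠ y : ℂ in 𝓝 (z : ℂ), ‖y‖ < 1 := (isOpen_lt continuous_norm continuous_const).mem_nhds z.2
  have hG1 : ext G1 =ᶠ[𝓝 (z : ℂ)] fun y => g⁻¹.app ((r : ℂ) * beta' κ (flm P t (ψ y))) := by
    filter_upwards [hψr, hψc, hz1] with y hy1 hy2 hy3
    have h2 : g.app y = (r : ℂ) * beta κ (ψ y) := by
      have h3 : ‖(r : ℂ) * beta κ (ψ y)‖ ≤ 1 := by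
        rw [norm_mul, hnr]
        nlinarith [norm_nonneg (beta κ (ψ y)), (Iface.E_beta_lt h0 h1 hy2).1]
      conv_lhs => rw [← hy1]
      show g.app (g⁻¹.app ((r : ℂ) * beta κ (ψ y))) = _
      rw [← SU.app_mul _ _ h3, mul_inv_cancel, SU.app_one]
    have h4 := hG (ψ y) hy2.le ⟨y, hy3⟩ h2
    have h5 : ext G1 y = (G1 ⟨y, hy3⟩ : Disc) := c05_coe G1 ⟨y, hy3⟩
    rw [h5, ← h4, ← SU.app_mul _ _ (G1 ⟨y, hy3⟩).2.le, inv_mul_cancel, SU.app_one]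
  refine HasFDerivAt.congr_of_eventuallyEq ?_ hG1
  have d1 : HasStrictFDerivAt (flm P t) (ContinuousLinearMap.id ℝ ℂ + t • fderiv ℝ (fld P) ξ) (ψ z) := by
    rw [hψz]
    exact C_flm_deriv hP t ξ
  have d2 : HasStrictFDerivAt (beta' κ)
      ((ab (deriv (WW κ) (ZZ' κ (flm P t ξ)) * (2 * (flm P t ξ - κ * conj (flm P t ξ)))) 0).comp (ab 1 (-κ))) (flm P t (ψ z)) := by
    rw [hψz]
    exact C_beta'_deriv h0 h1 hfl.le
  have d3 := d2.comp (z : ℂ) (d1.comp (z : ℂ) hψD)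
  have d4 := (hmulr (beta' κ (flm P t (ψ z)))).comp (z : ℂ) d3
  have d5 : HasStrictFDerivAt g⁻¹.app (ab (1 / (g⁻¹.den ((r : ℂ) * beta' κ (flm P t ξ))) ^ 2) 0) ((r : ℂ) * beta' κ (flm P t (ψ z))) := by
    rw [hψz]
    exact happ _ hrβ'.le
  have d6 := d5.comp (z : ℂ) d4
  have d7 := d6.hasFDerivAt
  have h9 : (ab (1 / (g⁻¹.den ((r : ℂ) * beta' κ (flm P t ξ))) ^ 2) 0).comp ((ab (r : ℂ) 0).comp
      (((ab (deriv (WW κ) (ZZ' κ (flm P t ξ)) * (2 * (flm P t ξ - κ * conj (flm P t ξ)))) 0).comp (ab 1 (-κ))).comp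
        ((ContinuousLinearMap.id ℝ ℂ + t • fderiv ℝ (fld P) ξ).comp A'))) =
      (ab (c2 g⁻¹ r κ (flm P t ξ)) 0).comp ((ab 1 (-(κ : ℂ))).comp
      ((ContinuousLinearMap.id ℝ ℂ + t • fderiv ℝ (fld P) ξ).comp
        ((iab κ).comp (ab (1 / c1 g r κ ξ) 0)))) := by
    have h10 : A' = ((1 / (2 * r) : ℝ)) • (iab (κ : ℂ)).comp (ab (1 / c1 g r κ ξ) 0) := by
      rw [hA']
      have h11 : ab (1 / (2 * r * c1 g r κ ξ)) 0 = ((1 / (2 * r) : ℝ)) • ab (1 / c1 g r κ ξ) 0 := by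
        ext v
        simp only [ab_apply, ContinuousLinearMap.smul_apply, Complex.real_smul, zero_mul, add_zero]
        push_cast
        field_simp
      rw [h11, ContinuousLinearMap.comp_smul]
    rw [h10]
    simp only [ContinuousLinearMap.comp_smul]
    have h12 : ∀ T : ℂ →L[ℝ] ℂ, ((1 / (2 * r) : ℝ)) • (ab (1 / (g⁻¹.den ((r : ℂ) * beta' κ (flm P t ξ))) ^ 2) 0).comp ((ab (r : ℂ) 0).comp
      (((ab (deriv (WW κ) (ZZ' κ (flm P t ξ)) * (2 * (flm P t ξ - κ * conj (flm P t ξ)))) 0).comp (ab 1 (-κ))).comp T)) =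
      (ab (c2 g⁻¹ r κ (flm P t ξ)) 0).comp ((ab 1 (-(κ : ℂ))).comp T) := by
      intro T
      ext v
      simp only [ContinuousLinearMap.comp_apply, ab_apply, ContinuousLinearMap.smul_apply, Complex.real_smul, zero_mul, add_zero]
      unfold c2
      push_cast
      field_simp
    exact h12 _
  rw [h9] at d7
  exact d7

end Pool.Agent.Lib.H11Q
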