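import Pool.Agent.Lib.H11Q.C06

set_option autoImplicit false

namespace Pool.Agent.Lib.H11Q

open Complex Set MeasureTheory
open scoped ComplexConjugate Topology

/-! C15 (S/M): a null set. -/

theorem c15_count : Countable W := by
  have h : Function.Surjective (FreeGroup.mk : List (Fin 2 × Bool) → FreeGroup (Fin 2)) := Quot.mk_surjective
  exact h.countable

/-- `W` is countable; for each `w` the set is the image of a part of a circle (`MeasureTheory.Measure.addHaar_sphere`) or
of a point under the locally Lipschitz map `SU.act (g * rho w)⁻¹` (`C_null`). -/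
theorem C_bad (G : Subgroup W) (g : SU) (r : ℝ) (b : ℂ) :
    volume {z : ℂ | ‖z‖ < 1 ∧ ∃ w ∈ G, ‖(g * rho w).app z‖ = r ∨ (g * rho w).app z = b} = 0 := by
  have hcount : Countable W := c15_count
  have hsub : {z : ℂ | ‖z‖ < 1 ∧ ∃ w ∈ G, ‖(g * rho w).app z‖ = r ∨ (g * rho w).app z = b} ⊆
      ⋃ w : W, ext (SU.act (g * rho w)⁻¹) '' ((Metric.sphere 0 r ∪ {b}) ∩ Metric.ball 0 1) := by
    rintro z ⟨hz, w, _, h⟩
    rw [mem_iUnion]
    refine ⟨w, (g * rho w).app z, ⟨?_, ?_⟩, ?_⟩
    · rcases h with h | h
      · left
        simpa using h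
      · right
        exact h
    · have := (g * rho w).app_norm_lt hz
      simpa using this
    · rw [C_ext_act _ ((g * rho w).app_norm_lt hz), ← SU.app_mul _ _ hz.le, inv_mul_cancel, SU.app_one]
  refine measure_mono_null hsub (measure_iUnion_null fun w => C_null (C_act_lip _) ?_)
  refine measure_union_null (Measure.addHaar_sphere _ _ _) (measure_singleton b)

end Pool.Agent.Lib.H11Q
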