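import Pool.Agent.Lib.H11Q.C14
import Pool.Agent.Lib.H11Q.C07

set_option autoImplicit false

namespace Pool.Agent.Lib.H11Q

open Complex Set MeasureTheory
open scoped ComplexConjugate Topology

/-! C16 (M): the dilatation of `h k G h⁻¹` (PROOF.md 8.6). -/

theorem c16_den (k g : SU) {w : ℂ} (hw : ‖w‖ ≤ 1) : (k * g).den w = k.den (g.app w) * g.den w := by
  have hd := g.den_ne hw
  have e1 : g.app w = (g.a * w + g.b) / g.den w := rfl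
  unfold SU.den at *
  rw [e1, add_mul, mul_assoc (conj k.b), div_mul_cancel₀ _ hd]
  simp only [SU.mul_a, SU.mul_b, map_add, map_mul, conj_conj]
  ring

theorem c16_swap {m c : ℂ} (hm : ‖m‖ < 1) (hc : c ≠ 0) :
    (iab (pul m c)).comp (ab (1 / c) 0) = (ab (1 / c) 0).comp (iab m) := by
  have hm' : ‖pul m c‖ < 1 := by rw [C_pul_norm hc]; exact hm
  obtain ⟨i1, i2⟩ := C_iab_comp hm
  obtain ⟨i3, i4⟩ := C_iab_comp hm'
  have hid : ab 1 0 = ContinuousLinearMap.id ℝ ℂ := by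
    ext v
    simp
  have j1 : (ab (1 / c) 0).comp (ab c 0) = ContinuousLinearMap.id ℝ ℂ := by
    rw [C_ab_comp, ← hid]
    congr 1
    · rw [map_zero, mul_zero, add_zero, one_div_mul_cancel hc]
    · simp
  have j2 : (ab c 0).comp (ab (1 / c) 0) = ContinuousLinearMap.id ℝ ℂ := by
    rw [C_ab_comp, ← hid]
    congr 1
    · rw [map_zero, mul_zero, add_zero, mul_one_div_cancel hc]
    · simp
  have h1 := C_pul (m := m) hc
  calc (iab (pul m c)).comp (ab (1 / c) 0)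
      = ((iab (pul m c)).comp (ab (1 / c) 0)).comp ((ab 1 m).comp (iab m)) := by rw [i2, ContinuousLinearMap.comp_id]
    _ = ((iab (pul m c)).comp (ab (1 / c) 0)).comp (((ab 1 m).comp ((ab c 0).comp (ab (1 / c) 0))).comp (iab m)) := by
        rw [j2, ContinuousLinearMap.comp_id]
    _ = (iab (pul m c)).comp (((ab (1 / c) 0).comp (ab c 0)).comp ((ab 1 (pul m c)).comp ((ab (1 / c) 0).comp (iab m)))) := by
        rw [← ContinuousLinearMap.comp_assoc (ab 1 m), h1]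
        simp only [ContinuousLinearMap.comp_assoc]
    _ = (ab (1 / c) 0).comp (iab m) := by
        rw [j1, ContinuousLinearMap.id_comp, ← ContinuousLinearMap.comp_assoc, i3, ContinuousLinearMap.id_comp]

/-- Chain rule (`C_mul_deriv`, `C_loc_inv`, `C_G1_deriv`, `C_act_strict`, `C_bel_eq`): with `m = mh z`,
`m' = mh (k G1 z)`, `α`, `α'` the factors of `Dh`:
`L = α' (1,m') · k' · c2(g⁻¹) (1,-κ)(1+tDV)(1,κ)⁻¹ (1/c1) · (1,m)⁻¹ (1/α)`, where `k'` = derivative of `k` at `G1 z`.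
`k' c2 (g⁻¹) = c2 (k g⁻¹)` (cocycle: `den (k g⁻¹) w = den k (g⁻¹ w) den g⁻¹ w`, `g⁻¹ (r β'(..)) = G1 z`), and
`(1,m') c2 = c2 (1, pul m' c2)`, `(1/c1) (1,m)⁻¹ = (c1 (1, ..))`: precisely `(1,m) c1 = c1 (1, pul m c1)` gives
`(1/c1) (1,m)⁻¹ = (1, pul m c1)⁻¹ (1/c1)` (`C_pul`, `C_iab_comp`).  So `L = (α' c2) RRm (1/(c1 α))`, conclude with
`C_QCL_mul_left`, `C_QCL_mul_right`. -/
theorem C_dil_in {h : Disc ≃ₜ Disc} {mh : Disc → ℂ}
    (hD : ∀ z : Disc, ‖mh z‖ < 1 ∧ ∃ α : ℂ, α ≠ 0 ∧ HasStrictFDerivAt (ext h) (bel α (mh z)) z)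
    (k : SU) {κ : ℝ} (h0 : 0 ≤ κ) (h1 : κ ≤ 1 / 10) {P : ℂ → ℂ} (hP : ContDiff ℝ 2 P)
    (hodd : ∀ ξ, P (-ξ) = -P ξ) {t : ℝ} (hF : FldOK P t) {r : ℝ} (hr : 0 < r) (hr1 : r < 1)
    (g : SU) (G1 : Disc ≃ₜ Disc)
    (hG : ∀ ξ : ℂ, ‖ξ‖ ≤ 1 → ∀ z : Disc, g.app z = r * beta κ ξ →
      g.app (G1 z) = r * beta' κ (flm P t ξ))
    {ξ : ℂ} (hξ0 : ξ ≠ 0) (hξ : ‖ξ‖ < 1) {z : Disc} (hz : g.app z = r * beta κ ξ) {K1 : ℝ}
    (hQ : QCL K1 (RRm κ (pul (mh z) (c1 g r κ ξ)) (t • fderiv ℝ (fld P) ξ)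
      (pul (mh (SU.act k (G1 z))) (c2 (k * g⁻¹) r κ (flm P t ξ))))) :
    ∃ L : ℂ →L[ℝ] ℂ, HasFDerivAt (ext (h * SU.act k * G1 * h⁻¹)) L (h z) ∧ QCL K1 L := by
  have hκn : ‖(κ : ℂ)‖ < 1 := by
    rw [Complex.norm_real, Real.norm_eq_abs, abs_of_nonneg h0]
    linarith
  obtain ⟨hm, α, hα, hDz⟩ := hD z
  obtain ⟨hm', α', hα', hDz'⟩ := hD (SU.act k (G1 z))
  obtain ⟨hc1, hc2, hG1⟩ := C_G1_deriv h0 h1 hP hodd hF hr hr1 g G1 hG hξ0 hξ hz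
  have hfl : ‖flm P t ξ‖ < 1 := hF.lt ξ hξ
  have hβ' : ‖beta' κ (flm P t ξ)‖ < 1 := (Iface.E_beta_lt h0 h1 hfl).2
  have hnr : ‖(r : ℂ)‖ = r := by rw [Complex.norm_real, Real.norm_eq_abs, abs_of_pos hr]
  have hrβ' : ‖(r : ℂ) * beta' κ (flm P t ξ)‖ < 1 := by
    rw [norm_mul, hnr]
    nlinarith [norm_nonneg (beta' κ (flm P t ξ))]
  have hG1z : g⁻¹.app ((r : ℂ) * beta' κ (flm P t ξ)) = (G1 z : Disc) := by
    rw [← hG ξ hξ.le z hz, ← SU.app_mul _ _ (G1 z).2.le, inv_mul_cancel, SU.app_one]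
  have hden : (k * g⁻¹).den ((r : ℂ) * beta' κ (flm P t ξ)) =
      k.den (G1 z : Disc) * g⁻¹.den ((r : ℂ) * beta' κ (flm P t ξ)) := by
    rw [← hG1z]
    exact c16_den k g⁻¹ hrβ'.le
  have hkd : k.den (G1 z : Disc) ≠ 0 := k.den_ne (G1 z).2.le
  have hcc : c2 (k * g⁻¹) r κ (flm P t ξ) = 1 / (k.den (G1 z : Disc)) ^ 2 * c2 g⁻¹ r κ (flm P t ξ) := by
    unfold c2
    rw [hden, mul_pow, ← one_div_mul_one_div]
    ring
  have hc2k : c2 (k * g⁻¹) r κ (flm P t ξ) ≠ 0 := by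
    rw [hcc]
    exact mul_ne_zero (one_div_ne_zero (pow_ne_zero _ hkd)) hc2
  -- the derivative
  have d1 := C_loc_inv hα hm hDz
  have d1' : HasFDerivAt (ext h⁻¹) ((iab (mh z)).comp (ab (1 / α) 0)) (h z) := d1
  have e1 : h⁻¹ (h z) = z := h.symm_apply_apply z
  have d2 : HasFDerivAt (ext (G1 * h⁻¹)) _ (h z) := C_mul_deriv (F := G1) (G := h⁻¹) (z := h z) (by rw [e1]; exact hG1) d1'
  have e2 : (G1 * h⁻¹) (h z) = G1 z := by
    show G1 (h⁻¹ (h z)) = G1 z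
    rw [e1]
  have d3 : HasFDerivAt (ext (SU.act k * (G1 * h⁻¹))) _ (h z) :=
    C_mul_deriv (F := SU.act k) (G := G1 * h⁻¹) (z := h z) (by rw [e2]; exact (C_act_strict k (G1 z)).hasFDerivAt) d2
  have e3 : (SU.act k * (G1 * h⁻¹)) (h z) = SU.act k (G1 z) := by
    show SU.act k ((G1 * h⁻¹) (h z)) = _
    rw [e2]
  have d4 : HasFDerivAt (ext (h * (SU.act k * (G1 * h⁻¹)))) _ (h z) :=
    C_mul_deriv (F := h) (G := SU.act k * (G1 * h⁻¹)) (z := h z) (by rw [e3]; exact hDz'.hasFDerivAt) d3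
  have e4 : h * SU.act k * G1 * h⁻¹ = h * (SU.act k * (G1 * h⁻¹)) := by
    rw [mul_assoc, mul_assoc]
  rw [e4]
  refine ⟨_, d4, ?_⟩
  have key := C_QCL_mul_left (c := α' * c2 (k * g⁻¹) r κ (flm P t ξ)) (mul_ne_zero hα' hc2k)
    (C_QCL_mul_right (c := 1 / (c1 g r κ ξ * α)) (one_div_ne_zero (mul_ne_zero hc1 hα)) hQ)
  have hL : (bel α' (mh (SU.act k (G1 z)))).comp ((ab (1 / (k.den (G1 z : Disc)) ^ 2) 0).comp
      (((ab (c2 g⁻¹ r κ (flm P t ξ)) 0).comp ((ab 1 (-(κ : ℂ))).comp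
      ((ContinuousLinearMap.id ℝ ℂ + t • fderiv ℝ (fld P) ξ).comp
        ((iab κ).comp (ab (1 / c1 g r κ ξ) 0))))).comp ((iab (mh z)).comp (ab (1 / α) 0)))) =
      (ab (α' * c2 (k * g⁻¹) r κ (flm P t ξ)) 0).comp
        ((RRm κ (pul (mh z) (c1 g r κ ξ)) (t • fderiv ℝ (fld P) ξ)
          (pul (mh (SU.act k (G1 z))) (c2 (k * g⁻¹) r κ (flm P t ξ)))).comp (ab (1 / (c1 g r κ ξ * α)) 0)) := by
    have q1 : ab (α' * c2 (k * g⁻¹) r κ (flm P t ξ)) 0 = (ab α' 0).comp (ab (c2 (k * g⁻¹) r κ (flm P t ξ)) 0) := by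
      rw [C_ab_comp]
      congr 1 <;> simp
    have q2 : ab (1 / (c1 g r κ ξ * α)) 0 = (ab (1 / c1 g r κ ξ) 0).comp (ab (1 / α) 0) := by
      rw [C_ab_comp]
      congr 1
      · rw [map_zero, mul_zero, add_zero]
        field_simp
      · simp
    have q3 : (iab (pul (mh z) (c1 g r κ ξ))).comp (ab (1 / c1 g r κ ξ) 0) = (ab (1 / c1 g r κ ξ) 0).comp (iab (mh z)) :=
      c16_swap hm hc1
    have q4 : (ab (c2 (k * g⁻¹) r κ (flm P t ξ)) 0).comp (ab 1 (pul (mh (SU.act k (G1 z))) (c2 (k * g⁻¹) r κ (flm P t ξ)))) =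
      (ab 1 (mh (SU.act k (G1 z)))).comp (ab (c2 (k * g⁻¹) r κ (flm P t ξ)) 0) := (C_pul hc2k).symm
    have q5 : ab (c2 (k * g⁻¹) r κ (flm P t ξ)) 0 = (ab (1 / (k.den (G1 z : Disc)) ^ 2) 0).comp (ab (c2 g⁻¹ r κ (flm P t ξ)) 0) := by
      rw [hcc, C_ab_comp]
      congr 1 <;> simp
    rw [C_bel_eq]
    unfold RRm
    ext v
    simp only [ContinuousLinearMap.comp_apply]
    have r2 := DFunLike.congr_fun q2 v
    simp only [ContinuousLinearMap.comp_apply] at r2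
    rw [r2]
    have r3 := DFunLike.congr_fun q3 (ab (1 / α) 0 v)
    simp only [ContinuousLinearMap.comp_apply] at r3
    rw [r3]
    generalize (ab 1 (-(κ : ℂ))) ((ContinuousLinearMap.id ℝ ℂ + t • fderiv ℝ (fld P) ξ)
      ((iab κ) ((ab (1 / c1 g r κ ξ) 0) ((iab (mh z)) ((ab (1 / α) 0) v))))) = y
    have r1 := DFunLike.congr_fun q1 (ab 1 (pul (mh (SU.act k (G1 z))) (c2 (k * g⁻¹) r κ (flm P t ξ))) y)
    simp only [ContinuousLinearMap.comp_apply] at r1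
    rw [r1]
    have r4 := DFunLike.congr_fun q4 y
    simp only [ContinuousLinearMap.comp_apply] at r4
    rw [r4]
    have r5 := DFunLike.congr_fun q5 y
    simp only [ContinuousLinearMap.comp_apply] at r5
    rw [r5]
  rw [hL]
  exact key

/-- Near `h z` the map is `h k h⁻¹`, with derivative `α' (1,m') k' (1,m)⁻¹ (1/α)`; `C_QCL_one_m`, `C_QCL_comp`,
`C_QCL_mono`. -/
theorem C_dil_out {h : Disc ≃ₜ Disc} {mh : Disc → ℂ}
    (hD : ∀ z : Disc, ‖mh z‖ < 1 ∧ ∃ α : ℂ, α ≠ 0 ∧ HasStrictFDerivAt (ext h) (bel α (mh z)) z)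
    (k : SU) (G : Disc ≃ₜ Disc) {z : Disc} (hG : ∀ᶠ z' in 𝓝 z, G z' = z') {K1 : ℝ}
    (hK : ((1 + ‖mh (SU.act k z)‖) / (1 - ‖mh (SU.act k z)‖)) *
      ((1 + ‖mh z‖) / (1 - ‖mh z‖)) ≤ K1) :
    ∃ L : ℂ →L[ℝ] ℂ, HasFDerivAt (ext (h * SU.act k * G * h⁻¹)) L (h z) ∧ QCL K1 L := by
  obtain ⟨hm, α, hα, hDz⟩ := hD z
  obtain ⟨hm', α', hα', hDz'⟩ := hD (SU.act k z)
  have hGz : G z = z := hG.self_of_nhds
  have hG1 : HasFDerivAt (ext G) (ContinuousLinearMap.id ℝ ℂ) (z : ℂ) := by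
    refine (hasFDerivAt_id (z : ℂ)).congr_of_eventuallyEq ?_
    obtain ⟨u, hu, hus⟩ := (mem_nhds_subtype _ _ _).1 hG
    have hz1 : ∀ᶠ y : ℂ in 𝓝 (z : ℂ), ‖y‖ < 1 := (isOpen_lt continuous_norm continuous_const).mem_nhds z.2
    filter_upwards [hu, hz1] with y hy hy1
    have h2 : G ⟨y, hy1⟩ = ⟨y, hy1⟩ := hus (show (⟨y, hy1⟩ : Disc) ∈ _ from hy)
    have h3 : ext G y = (G ⟨y, hy1⟩ : Disc) := c05_coe G ⟨y, hy1⟩
    rw [h3, h2]
    rfl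
  have d1' : HasFDerivAt (ext h⁻¹) ((iab (mh z)).comp (ab (1 / α) 0)) (h z) := C_loc_inv hα hm hDz
  have e1 : h⁻¹ (h z) = z := h.symm_apply_apply z
  have d2 : HasFDerivAt (ext (G * h⁻¹)) _ (h z) := C_mul_deriv (F := G) (G := h⁻¹) (z := h z) (by rw [e1]; exact hG1) d1'
  have e2 : (G * h⁻¹) (h z) = z := by
    show G (h⁻¹ (h z)) = z
    rw [e1, hGz]
  have d3 : HasFDerivAt (ext (SU.act k * (G * h⁻¹))) _ (h z) :=
    C_mul_deriv (F := SU.act k) (G := G * h⁻¹) (z := h z) (by rw [e2]; exact (C_act_strict k z).hasFDerivAt) d2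
  have e3 : (SU.act k * (G * h⁻¹)) (h z) = SU.act k z := by
    show SU.act k ((G * h⁻¹) (h z)) = _
    rw [e2]
  have d4 : HasFDerivAt (ext (h * (SU.act k * (G * h⁻¹)))) _ (h z) :=
    C_mul_deriv (F := h) (G := SU.act k * (G * h⁻¹)) (z := h z) (by rw [e3]; exact hDz'.hasFDerivAt) d3
  have e4 : h * SU.act k * G * h⁻¹ = h * (SU.act k * (G * h⁻¹)) := by
    rw [mul_assoc, mul_assoc]
  rw [e4]
  refine ⟨_, d4, ?_⟩
  rw [C_bel_eq, ContinuousLinearMap.id_comp]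
  have hkd : 1 / (k.den z) ^ 2 ≠ 0 := one_div_ne_zero (pow_ne_zero _ (k.den_ne z.2.le))
  have s1 : QCL ((1 + ‖mh z‖) / (1 - ‖mh z‖)) ((ab (1 / (k.den z) ^ 2) 0).comp ((iab (mh z)).comp (ab (1 / α) 0))) :=
    C_QCL_mul_left hkd (C_QCL_mul_right (one_div_ne_zero hα) (C_QCL_one_m hm).2)
  have s2 := C_QCL_mul_left hα' (C_QCL_comp (by
    have := norm_nonneg (mh (SU.act k z))
    exact div_nonneg (by linarith) (by linarith)) (C_QCL_one_m hm').1 s1)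
  have s3 := C_QCL_mono hK s2
  rw [ContinuousLinearMap.comp_assoc]
  exact s3

end Pool.Agent.Lib.H11Q
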