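import Pool.Agent.Lib.H11Q.C16
import Pool.Agent.Lib.H11Q.C15
import Pool.Agent.Lib.H11Q.C13
import Pool.Agent.Lib.H11Q.C12

set_option autoImplicit false

namespace Pool.Agent.Lib.H11Q

open Complex Set MeasureTheory
open scoped ComplexConjugate Topology

/-! C17 (M): the main theorem of section 8. -/

theorem c17_congr {F F' : Disc ≃ₜ Disc} {y : Disc} {L : ℂ →L[ℝ] ℂ} (hev : ∀ᶠ y' in 𝓝 y, F y' = F' y')
    (hL : HasFDerivAt (ext F') L y) : HasFDerivAt (ext F) L y := by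
  refine hL.congr_of_eventuallyEq ?_
  obtain ⟨u, hu, hus⟩ := (mem_nhds_subtype _ _ _).1 hev
  have hz1 : ∀ᶠ x : ℂ in 𝓝 (y : ℂ), ‖x‖ < 1 := (isOpen_lt continuous_norm continuous_const).mem_nhds y.2
  filter_upwards [hu, hz1] with x hx hx1
  have h2 : F ⟨x, hx1⟩ = F' ⟨x, hx1⟩ := hus (show (⟨x, hx1⟩ : Disc) ∈ _ from hx)
  have h3 : ext F x = (F ⟨x, hx1⟩ : Disc) := c05_coe F ⟨x, hx1⟩
  have h4 : ext F' x = (F' ⟨x, hx1⟩ : Disc) := c05_coe F' ⟨x, hx1⟩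
  rw [h3, h4, h2]

/-- Let `r = tanh (R/2)`, `Γ = G.map ac`, `G1` from `C_local` (for `g`), `G'` from `C_periodic` (elements of `Γ` are Moebius
maps; displacement `hdisp`; `ac w = 1` is the identity), `F = h (ac a) G' h⁻¹`.
* normalizes: `C_norm`, `C_norm_map`.
* `F (h X) = h (a (G' X))`, `G' X = G1 X` (`|g X| = r aa κ ≤ r`: `aa κ < 1` by `C_beta_zero`, `Iface.E_beta_lt`), and
  `g (G1 X) = r β'(flm 0) = r aa κ = g Z`, so `G1 X = Z` (`C_beta_zero`, `C_flm_zero`, injectivity of `act g`).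
* locally bi-Lipschitz: compositions (`C_loc`, `C_act_lip`, `C_periodic`; `LocallyLipschitz.comp`).
* dilatation: the null set is `ext h '' (bad)`, bad = the set of `C_bad` for `G, g, r, b = -r aa κ` (`C_null`).
  At `h z`, `z` not bad: take `w ∈ G` with `G' = γ G1 γ⁻¹` near `z`, `γ = ac w`.  Let `z1 = γ⁻¹ z` (`w⁻¹ ∈ G`); `|g z1| ≠ r` and
  `g z1 ≠ -r aa κ`.
  If `|g z1| > r`: `G1 = id` near `z1`, `G' = id` near `z`: `C_dil_out` and `hout`.
  If `|g z1| < r`: `g z1 = r β ξ` with `|ξ| < 1` (`Iface.E_beta_surj`, `E_beta_eq`), `ξ ≠ 0`.  Near `h z`: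
  `F = h a γ G1 γ⁻¹ h⁻¹ = (h (a γ a⁻¹) h⁻¹) (h a G1 h⁻¹) (h γ⁻¹ h⁻¹)`, the outer factors are Moebius maps by `hM`
  (`a w a⁻¹ ∈ G ≤ Gam0`), the middle factor has at `h z1` a derivative with `QCL K1` by `C_dil_in` and `hin`
  (`z2 = G1 z1`); `C_mul_deriv`, `C_act_strict`, `C_QCL_mul_left/right`. -/
theorem C_main {h : Disc ≃ₜ Disc} {mh : Disc → ℂ}
    (hM : ∀ γ ∈ Gam0, ∃ M : SU, h * ac γ * h⁻¹ = SU.act M)
    (hD : ∀ z : Disc, ‖mh z‖ < 1 ∧ ∃ α : ℂ, α ≠ 0 ∧ HasStrictFDerivAt (ext h) (bel α (mh z)) z)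
    {G : Subgroup W} (hGn : G.Normal) (hG0 : G ≤ Gam0) {R : ℝ} (hR : 0 < R)
    (hdisp : ∀ w ∈ G, ac w = 1 ∨ ∀ z : Disc, 2 * R + 2 < hd z (ac w z)) (a : W)
    {κ : ℝ} (h0 : 0 ≤ κ) (h1 : κ ≤ 1 / 10) {P : ℂ → ℂ} (hP : ContDiff ℝ 2 P)
    (hodd : ∀ ξ, P (-ξ) = -P ξ) {t : ℝ} (hF : FldOK P t) (g : SU) {X Z : Disc}
    (hX : g.app X = -((Real.tanh (R / 2) * aa κ : ℝ) : ℂ))
    (hZ : g.app Z = ((Real.tanh (R / 2) * aa κ : ℝ) : ℂ)) {K1 : ℝ}
    (hout : ∀ z : Disc, ((1 + ‖mh (ac a z)‖) / (1 - ‖mh (ac a z)‖)) *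
      ((1 + ‖mh z‖) / (1 - ‖mh z‖)) ≤ K1)
    (hin : ∀ (ξ : ℂ) (z z2 : Disc), ξ ≠ 0 → ‖ξ‖ < 1 → g.app z = Real.tanh (R / 2) * beta κ ξ →
      g.app z2 = Real.tanh (R / 2) * beta' κ (flm P t ξ) →
      QCL K1 (RRm κ (pul (mh z) (c1 g (Real.tanh (R / 2)) κ ξ)) (t • fderiv ℝ (fld P) ξ)
        (pul (mh (ac a z2)) (c2 (rho a * g⁻¹) (Real.tanh (R / 2)) κ (flm P t ξ))))) :
    ∃ F : Disc ≃ₜ Disc, LQ K1 F ∧
      (∀ x, x ∈ (G.map ac).map (MulAut.conj h).toMonoidHom ↔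
        F * x * F⁻¹ ∈ (G.map ac).map (MulAut.conj h).toMonoidHom) ∧
      F (h X) = h (ac a Z) := by
  set r : ℝ := Real.tanh (R / 2) with hrdef
  have hr : 0 < r := by
    rw [hrdef, Real.tanh_eq_sinh_div_cosh]
    exact div_pos (Real.sinh_pos_iff.2 (by linarith)) (Real.cosh_pos _)
  have hr1 : r < 1 := Real.tanh_lt_one _
  have hnr : ‖(r : ℂ)‖ = r := by rw [Complex.norm_real, Real.norm_eq_abs, abs_of_pos hr]
  have hr0 : (r : ℂ) ≠ 0 := by exact_mod_cast hr.ne'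
  have hac : ∀ w : W, ac w = SU.act (rho w) := fun w => rfl
  obtain ⟨G1, hl, hl', hG1id, hG1⟩ := C_local h0 h1 hodd hF hr hr1 g
  obtain ⟨G', hcomm, hGl, hGl', hloc, hin'⟩ := C_periodic (G.map ac)
    (by
      rintro _ ⟨w, _, rfl⟩
      exact ⟨rho w, rfl⟩) hR
    (by
      rintro _ ⟨w, hw, rfl⟩ hne z
      rcases hdisp w hw with h2 | h2
      · exact absurd h2 hne
      · exact h2 z) g G1 hl hl' hG1id
  have hD' : ∀ z : Disc, ∃ α m : ℂ, α ≠ 0 ∧ ‖m‖ < 1 ∧ HasStrictFDerivAt (ext h) (bel α m) z := by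
    intro z
    obtain ⟨h2, α, h3, h4⟩ := hD z
    exact ⟨α, mh z, h3, h2, h4⟩
  obtain ⟨hlip, hlip'⟩ := C_loc hD'
  have hlipi : LocallyLipschitz (h⁻¹ : Disc ≃ₜ Disc) := hlip'
  have hlac : ∀ w : W, LocallyLipschitz (ac w) := fun w => C_act_lip (rho w)
  have haa : |aa κ| ≤ 1 := by
    have h2 := (Iface.E_beta_lt h0 h1 (ξ := 0) (by simp)).1
    rw [(C_beta_zero h0 h1).1, norm_neg, Complex.norm_real, Real.norm_eq_abs] at h2
    exact h2.le
  refine ⟨h * ac a * G' * h⁻¹, ⟨?_, ?_, ext h '' ({z : ℂ | ‖z‖ < 1 ∧ ∃ w ∈ G, ‖(g * rho w).app z‖ = r ∨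
    (g * rho w).app z = -((r * aa κ : ℝ) : ℂ)} ∩ Metric.ball 0 1), C_null hlip (C_bad G g r _), ?_⟩, ?_, ?_⟩
  · have h2 : LocallyLipschitz (fun z => h (ac a (G' (h⁻¹ z)))) := hlip.comp ((hlac a).comp (hGl.comp hlipi))
    exact h2
  · have e : (h * ac a * G' * h⁻¹).symm = h * G'⁻¹ * ac a⁻¹ * h⁻¹ := by
      show (h * ac a * G' * h⁻¹)⁻¹ = _
      rw [map_inv]
      group
    rw [e]
    have h2 : LocallyLipschitz (fun z => h (G'⁻¹ (ac a⁻¹ (h⁻¹ z)))) := hlip.comp (LocallyLipschitz.comp hGl' ((hlac a⁻¹).comp hlipi))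
    exact h2
  · intro y hy
    obtain ⟨z, rfl⟩ : ∃ z, y = h z := ⟨h.symm y, (h.apply_symm_apply y).symm⟩
    have hnb : ¬ ∃ w ∈ G, ‖(g * rho w).app z‖ = r ∨ (g * rho w).app z = -((r * aa κ : ℝ) : ℂ) := by
      intro hb
      apply hy
      exact ⟨z, ⟨⟨z.2, hb⟩, by simpa using z.2⟩, c05_coe h z⟩
    obtain ⟨γ, ⟨w, hw, rfl⟩, hev⟩ := hloc z
    have hz1 : g.app (((ac w)⁻¹ z : Disc) : ℂ) = (g * rho w⁻¹).app z := by
      rw [SU.app_mul _ _ z.2.le, ← map_inv]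
      rfl
    have hne1 : ‖g.app (((ac w)⁻¹ z : Disc) : ℂ)‖ ≠ r := by
      intro h2
      exact hnb ⟨w⁻¹, G.inv_mem hw, Or.inl (by rw [← hz1]; exact h2)⟩
    have hne2 : g.app (((ac w)⁻¹ z : Disc) : ℂ) ≠ -((r * aa κ : ℝ) : ℂ) := by
      intro h2
      exact hnb ⟨w⁻¹, G.inv_mem hw, Or.inr (by rw [← hz1]; exact h2)⟩
    rcases lt_or_gt_of_ne hne1 with hlt | hgt
    · -- inside
      have hβ1 : ‖g.app (((ac w)⁻¹ z : Disc) : ℂ) / r‖ < 1 := by
        rw [norm_div, hnr, div_lt_one hr]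
        exact hlt
      obtain ⟨ξ, hξ1, hξ2⟩ := (Iface.E_beta_surj h0 h1 hβ1.le).1
      have hξ : ‖ξ‖ < 1 := by
        rcases hξ1.lt_or_eq with h2 | h2
        · exact h2
        · exfalso
          have h3 := (Iface.E_beta_eq h0 h1 h2).1
          rw [hξ2] at h3
          linarith
      have hgz : g.app (((ac w)⁻¹ z : Disc) : ℂ) = r * beta κ ξ := by
        rw [hξ2, mul_div_cancel₀ _ hr0]
      have hξ0 : ξ ≠ 0 := by
        rintro rfl
        apply hne2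
        rw [hgz, (C_beta_zero h0 h1).1]
        push_cast
        ring
      obtain ⟨L1, hL1, hq1⟩ := C_dil_in hD (rho a) h0 h1 hP hodd hF hr hr1 g G1 hG1 hξ0 hξ hgz
        (hin ξ _ (G1 ((ac w)⁻¹ z)) hξ0 hξ hgz (hG1 ξ hξ.le _ hgz))
      obtain ⟨m1, hm1⟩ := hM (a * w * a⁻¹) (hG0 (hGn.conj_mem w hw a))
      obtain ⟨m2, hm2⟩ := hM w⁻¹ (hG0 (G.inv_mem hw))
      have e1 : (SU.act m2) (h z) = h ((ac w)⁻¹ z) := by
        rw [← hm2, map_inv]
        show h ((ac w)⁻¹ (h⁻¹ (h z))) = _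
        congr 2
        exact h.symm_apply_apply z
      have d1 := C_mul_deriv (F := h * SU.act (rho a) * G1 * h⁻¹) (G := SU.act m2) (z := h z)
        (by rw [e1]; exact hL1) (C_act_strict m2 (h z)).hasFDerivAt
      have d2 := C_mul_deriv (F := SU.act m1) (G := h * SU.act (rho a) * G1 * h⁻¹ * SU.act m2) (z := h z)
        (C_act_strict m1 _).hasFDerivAt d1
      refine ⟨_, c17_congr ?_ d2, C_QCL_mul_left (one_div_ne_zero (pow_ne_zero _ (m1.den_ne ((h * SU.act (rho a) * G1 * h⁻¹ * SU.act m2) (h z)).2.le)))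
        (C_QCL_mul_right (one_div_ne_zero (pow_ne_zero _ (m2.den_ne (h z).2.le))) hq1)⟩
      have hc : Filter.Tendsto (fun y : Disc => h.symm y) (𝓝 (h z)) (𝓝 z) := by
        have h2 := h.symm.continuous.tendsto (h z)
        rwa [h.symm_apply_apply] at h2
      filter_upwards [hc.eventually hev] with y' hy'
      have e2 : SU.act m1 * (h * SU.act (rho a) * G1 * h⁻¹ * SU.act m2) = h * ac a * (ac w * G1 * (ac w)⁻¹) * h⁻¹ := by
        rw [← hm1, ← hm2, ← hac, map_mul, map_mul, map_inv, map_inv]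
        group
      rw [e2]
      show h (ac a (G' (h.symm y'))) = h (ac a (ac w (G1 ((ac w)⁻¹ (h.symm y')))))
      rw [hy']
    · -- outside
      have hev2 : ∀ᶠ z' in 𝓝 z, G' z' = z' := by
        have hc : Continuous fun z' : Disc => ‖g.app (((ac w)⁻¹ z' : Disc) : ℂ)‖ := by
          have h2 : Continuous fun z' : Disc => ((SU.act g ((ac w)⁻¹ z') : Disc) : ℂ) :=
            continuous_subtype_val.comp ((SU.act g).continuous.comp ((ac w)⁻¹).continuous)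
          exact h2.norm
        filter_upwards [hev, (isOpen_lt continuous_const hc).mem_nhds hgt] with z' h2 h3
        rw [h2, hG1id _ (le_of_lt h3)]
        exact (ac w).apply_symm_apply z'
      exact C_dil_out hD (rho a) G' hev2 (hout z)
  · intro x
    exact C_norm (G.map ac) h (ac a) G' (C_norm_map hGn a) hcomm x
  · have e1 : (h * ac a * G' * h⁻¹) (h X) = h (ac a (G' X)) := by
      show h (ac a (G' (h⁻¹ (h X)))) = _
      congr 3
      exact h.symm_apply_apply X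
    have hgX : ‖g.app X‖ ≤ r := by
      rw [hX, norm_neg, Complex.norm_real, Real.norm_eq_abs, abs_mul, abs_of_pos hr]
      nlinarith [abs_nonneg (aa κ)]
    have e2 : G' X = G1 X := (hin' X hgX).self_of_nhds
    have e3 : g.app X = r * beta κ 0 := by
      rw [hX, (C_beta_zero h0 h1).1]
      push_cast
      ring
    have e4 := hG1 0 (by simp) X e3
    rw [C_flm_zero hodd, (C_beta_zero h0 h1).2] at e4
    have e5 : SU.act g (G1 X) = SU.act g Z := by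
      apply Subtype.ext
      show g.app (G1 X : Disc) = g.app Z
      rw [e4, hZ]
      push_cast
      ring
    have e6 : G1 X = Z := (SU.act g).injective e5
    rw [e1, e2, e6]

end Pool.Agent.Lib.H11Q
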