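import Pool.Agent.Lib.H11Q.CD
import Pool.Agent.Lib.H11Q.C01

set_option autoImplicit false

namespace Pool.Agent.Lib.H11Q

open Complex Set MeasureTheory
open scoped ComplexConjugate Topology

/-! C18A (M): the basic fields (PROOF.md 8.7).  Complex notation: with `Y = - conj V` one has
`dif (DV) = ∂₂V₂ - ∂₁V₁ = div Y = 2 Re ∂_z Y`. -/

theorem c18a_conj (z : ℂ) : HasFDerivAt (fun z : ℂ => conj z) (ab 0 1) z := by
  have h := (conjCLE.toContinuousLinearMap : ℂ →L[ℝ] ℂ).hasFDerivAt (x := z)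
  have e : ab 0 1 = (conjCLE.toContinuousLinearMap : ℂ →L[ℝ] ℂ) := by
    ext
    simp
  rw [e]
  exact h

theorem c18a_id (z : ℂ) : HasFDerivAt (fun z : ℂ => z) (ab 1 0) z := by
  have h := hasFDerivAt_id (𝕜 := ℝ) z
  have e : ab 1 0 = ContinuousLinearMap.id ℝ ℂ := by
    ext
    simp
  rw [e]
  exact h

theorem c18a_const (c z : ℂ) : HasFDerivAt (fun _ : ℂ => c) (ab 0 0) z := by
  have h := hasFDerivAt_const (𝕜 := ℝ) c z
  have e : ab 0 0 = 0 := by
    ext
    simp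
  rw [e]
  exact h

theorem c18a_mul {f g : ℂ → ℂ} {p q p' q' z : ℂ} (hf : HasFDerivAt f (ab p q) z)
    (hg : HasFDerivAt g (ab p' q') z) :
    HasFDerivAt (fun z => f z * g z) (ab (f z * p' + g z * p) (f z * q' + g z * q)) z := by
  have h := hf.mul hg
  have e : ab (f z * p' + g z * p) (f z * q' + g z * q) = f z • ab p' q' + g z • ab p q := by
    ext v
    simp
    ring
  rw [e]
  exact h

theorem c18a_sub {f g : ℂ → ℂ} {p q p' q' z : ℂ} (hf : HasFDerivAt f (ab p q) z)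
    (hg : HasFDerivAt g (ab p' q') z) :
    HasFDerivAt (fun z => f z - g z) (ab (p - p') (q - q')) z := by
  have h := hf.sub hg
  have e : ab (p - p') (q - q') = ab p q - ab p' q' := by
    ext v
    simp
    ring
  rw [e]
  exact h

theorem c18a_pow {f : ℂ → ℂ} {p q z : ℂ} (hf : HasFDerivAt f (ab p q) z) (n : ℕ) :
    HasFDerivAt (fun z => f z ^ (n + 1)) (ab (((n : ℂ) + 1) * f z ^ n * p)
      (((n : ℂ) + 1) * f z ^ n * q)) z := by
  induction n with
  | zero =>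
    simp only [zero_add, pow_one, Nat.cast_zero, pow_zero, mul_one, one_mul]
    exact hf
  | succ n ih =>
    have h := c18a_mul ih hf
    have e1 : (fun z => f z ^ (n + 1) * f z) = fun z => f z ^ (n + 1 + 1) := by
      funext z
      rw [pow_succ (f z) (n + 1)]
    rw [e1] at h
    have e2 : f z ^ (n + 1) * p + f z * (((n : ℂ) + 1) * f z ^ n * p) =
        (((n + 1 : ℕ) : ℂ) + 1) * f z ^ (n + 1) * p := by
      push_cast
      ring
    have e3 : f z ^ (n + 1) * q + f z * (((n : ℂ) + 1) * f z ^ n * q) =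
        (((n + 1 : ℕ) : ℂ) + 1) * f z ^ (n + 1) * q := by
      push_cast
      ring
    rw [e2, e3] at h
    exact h

theorem c18a_fld (P : ℂ → ℂ) (z : ℂ) : fld P z = (1 - z * conj z) * P z := by
  unfold fld
  rw [Complex.mul_conj, Complex.normSq_eq_norm_sq]
  push_cast
  rfl

theorem c18a_fac (z : ℂ) : HasFDerivAt (fun z : ℂ => 1 - z * conj z) (ab (-conj z) (-z)) z := by
  have h := c18a_sub (c18a_const 1 z) (c18a_mul (c18a_id z) (c18a_conj z))
  have e1 : (0 : ℂ) - (z * 0 + conj z * 1) = -conj z := by ring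
  have e2 : (0 : ℂ) - (z * 1 + conj z * 0) = -z := by ring
  rw [e1, e2] at h
  exact h

theorem c18a_fld_deriv {P : ℂ → ℂ} {p q z : ℂ} (hP : HasFDerivAt P (ab p q) z) :
    HasFDerivAt (fld P) (ab ((1 - z * conj z) * p + P z * (-conj z))
      ((1 - z * conj z) * q + P z * (-z))) z := by
  have h := c18a_mul (c18a_fac z) hP
  have e : (fun z => (1 - z * conj z) * P z) = fld P := by
    funext z
    rw [c18a_fld]
  rw [e] at h
  exact h

theorem c18a_fld_contDiff {P : ℂ → ℂ} (hP : ContDiff ℝ 2 P) : ContDiff ℝ 2 (fld P) := by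
  have e : fld P = fun z => (1 - z * conjCLE z) * P z := by
    funext z
    rw [c18a_fld]
    rfl
  rw [e]
  exact (contDiff_const.sub (contDiff_id.mul conjCLE.contDiff)).mul hP

/-- If `V` has at `ξ` the real derivative `ab p q` (`p = ∂V/∂z`, `q = ∂V/∂conj z`), then `dif (ab p q) = -2 Re q`. -/
theorem C_dif_ab (p q : ℂ) : dif (ab p q) = -2 * q.re := by
  unfold dif
  simp
  ring

/-- `V(ξ) = (1 - |ξ|²) P(ξ)` with `P(ξ) = - conj (c ξ^(a+1) conj(ξ)^b)`: `∂V/∂conj z = - conj (∂/∂z [(1 - z conj z) c z^(a+1) conj(z)^b])`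
and `∂/∂z [(1 - z w) c z^(a+1) w^b] = c ((a+1) z^a w^b - (a+2) z^(a+1) w^(b+1))`. (Compute the real derivative of the
polynomial expression in `z`, `conj z`, `|z|² = z conj z`, as `ab p q`; `C_dif_ab`.) -/
theorem C_field_ab (a b : ℕ) (c : ℂ) : ∃ P : ℂ → ℂ, ContDiff ℝ 2 P ∧ ∀ ξ : ℂ,
    dif (fderiv ℝ (fld P) ξ) = 2 * (c * (((a : ℂ) + 1) * ξ ^ a * (conj ξ) ^ b -
      ((a : ℂ) + 2) * ξ ^ (a + 1) * (conj ξ) ^ (b + 1))).re := by
  refine ⟨fun ξ => -conj c * (conj ξ) ^ (a + 1) * ξ ^ b, ?_, ?_⟩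
  · exact (contDiff_const.mul (conjCLE.contDiff.pow (a + 1))).mul (contDiff_id.pow b)
  · intro ξ
    -- the derivative of `ξ ^ b`
    obtain ⟨r, hr⟩ : ∃ r : ℂ, HasFDerivAt (fun z : ℂ => z ^ b) (ab r 0) ξ := by
      cases b with
      | zero =>
        refine ⟨0, ?_⟩
        simp only [pow_zero]
        exact c18a_const 1 ξ
      | succ b =>
        refine ⟨((b : ℂ) + 1) * ξ ^ b * 1, ?_⟩
        have h := c18a_pow (c18a_id ξ) b
        rw [mul_zero] at h
        exact h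
    have h1 := c18a_mul (c18a_mul (c18a_const (-conj c) ξ) (c18a_pow (c18a_conj ξ) a)) hr
    have h2 := (c18a_fld_deriv h1).fderiv
    rw [h2, C_dif_ab]
    have e : (c * (((a : ℂ) + 1) * ξ ^ a * (conj ξ) ^ b -
      ((a : ℂ) + 2) * ξ ^ (a + 1) * (conj ξ) ^ (b + 1))).re =
      (conj (c * (((a : ℂ) + 1) * ξ ^ a * (conj ξ) ^ b -
      ((a : ℂ) + 2) * ξ ^ (a + 1) * (conj ξ) ^ (b + 1)))).re := (Complex.conj_re _).symm
    rw [e]
    simp only [map_mul, map_sub, map_add, map_pow, conj_conj, map_natCast, map_one, map_ofNat]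
    have e3 : ∀ u v : ℂ, u = -v → -2 * u.re = 2 * v.re := by
      intro u v h
      rw [h, neg_re]
      ring
    apply e3
    ring

/-- `P(ξ) = - conj (c conj(ξ)^k)`: `∂/∂z [(1 - z w) c w^k] = - c w^(k+1)`. -/
theorem C_field_k (k : ℕ) (c : ℂ) : ∃ P : ℂ → ℂ, ContDiff ℝ 2 P ∧ ∀ ξ : ℂ,
    dif (fderiv ℝ (fld P) ξ) = -2 * (c * (conj ξ) ^ (k + 1)).re := by
  refine ⟨fun ξ => -conj c * ξ ^ k, ?_, ?_⟩
  · exact contDiff_const.mul (contDiff_id.pow k)
  · intro ξ
    obtain ⟨r, hr⟩ : ∃ r : ℂ, HasFDerivAt (fun z : ℂ => z ^ k) (ab r 0) ξ := by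
      cases k with
      | zero =>
        refine ⟨0, ?_⟩
        simp only [pow_zero]
        exact c18a_const 1 ξ
      | succ b =>
        refine ⟨((b : ℂ) + 1) * ξ ^ b * 1, ?_⟩
        have h := c18a_pow (c18a_id ξ) b
        rw [mul_zero] at h
        exact h
    have h1 := c18a_mul (c18a_const (-conj c) ξ) hr
    have h2 := (c18a_fld_deriv h1).fderiv
    rw [h2, C_dif_ab]
    have e : (c * (conj ξ) ^ (k + 1)).re = (conj (c * (conj ξ) ^ (k + 1))).re :=
      (Complex.conj_re _).symm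
    rw [e]
    simp only [map_mul, map_pow, conj_conj]
    have e3 : ∀ u v : ℂ, u = v → -2 * u.re = -2 * v.re := by
      intro u v h
      rw [h]
    apply e3
    ring

/-- Linearity of `P ↦ dif (D (fld P))`. -/
theorem C_field_add {P Q : ℂ → ℂ} (hP : ContDiff ℝ 2 P) (hQ : ContDiff ℝ 2 Q) (s : ℝ) (ξ : ℂ) :
    dif (fderiv ℝ (fld (fun z => P z + s * Q z)) ξ) =
      dif (fderiv ℝ (fld P) ξ) + s * dif (fderiv ℝ (fld Q) ξ) := by
  have h1 : DifferentiableAt ℝ (fld P) ξ :=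
    (c18a_fld_contDiff hP).contDiffAt.differentiableAt (by norm_num)
  have h2 : DifferentiableAt ℝ (fld Q) ξ :=
    (c18a_fld_contDiff hQ).contDiffAt.differentiableAt (by norm_num)
  have e : fld (fun z => P z + s * Q z) = fun z => fld P z + s • fld Q z := by
    funext z
    rw [c18a_fld, c18a_fld, c18a_fld, Complex.real_smul]
    ring
  have h3 : HasFDerivAt (fun z => fld P z + s • fld Q z)
      (fderiv ℝ (fld P) ξ + s • fderiv ℝ (fld Q) ξ) ξ :=
    h1.hasFDerivAt.add (h2.hasFDerivAt.const_smul s)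
  rw [e, h3.fderiv]
  unfold dif
  simp only [add_apply, smul_apply, Complex.add_im,
    Complex.add_re, Complex.smul_re, Complex.smul_im, smul_eq_mul]
  ring

/-- `P^-(ξ) = - P(-ξ)`: `fld P^- (ξ) = - fld P (-ξ)`. -/
theorem C_field_neg {P : ℂ → ℂ} (hP : ContDiff ℝ 2 P) (ξ : ℂ) :
    dif (fderiv ℝ (fld (fun z => -P (-z))) ξ) = dif (fderiv ℝ (fld P) (-ξ)) := by
  have h1 : DifferentiableAt ℝ (fld P) (-ξ) :=
    (c18a_fld_contDiff hP).contDiffAt.differentiableAt (by norm_num)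
  have e : fld (fun z => -P (-z)) = fun z => -fld P (-z) := by
    funext z
    rw [c18a_fld, c18a_fld, map_neg]
    ring
  have h2 : HasFDerivAt (fun z : ℂ => -z) (-ContinuousLinearMap.id ℝ ℂ) ξ :=
    (hasFDerivAt_id (𝕜 := ℝ) ξ).neg
  have h3 : HasFDerivAt (fun z => -fld P (-z))
      (-((fderiv ℝ (fld P) (-ξ)).comp (-ContinuousLinearMap.id ℝ ℂ))) ξ :=
    (h1.hasFDerivAt.comp ξ h2).neg
  rw [e, h3.fderiv]
  congr 1
  ext v
  simp

end Pool.Agent.Lib.H11Q
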