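import Pool.Agent.Lib.H11Q.C18A

set_option autoImplicit false

namespace Pool.Agent.Lib.H11Q

open Complex Set MeasureTheory
open scoped ComplexConjugate Topology

/-! C18B (M): every polynomial is a constant modulo divergences (PROOF.md 8.7). -/

/-- Induction on `a` (with `b`, `c` arbitrary).  `a = b = 0`: `P = 0` (`dif (D 0) = 0 = c.re/1 - c.re`).
`a = 0, b = k+1`: `C_field_k` with `c/2` (`Re (c conj(ξ)^(k+1))`), mean 0.
`a = k+1, b = 0`: `Re (c ξ^(k+1)) = Re (conj c conj(ξ)^(k+1))`, same.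
`(a+1, b+1)`: `Re (c ξ^(a+1) conj ξ^(b+1)) = ((a+1)/(a+2)) Re (c ξ^a conj ξ^b) - (1/(a+2)) (1/2) 2 Re(c(..))`: take the field
`Q` of the induction hypothesis for `(a, b, ((a+1)/(a+2)) c)` and add `1/(2(a+2))` times the field of `C_field_ab a b c`
(sign!: `dif = mean - Re(..)`); the constants: `((a+1)/(a+2)) / (a+1) = 1/(a+2)`. (`C_field_add`.) -/
theorem C_mono (a b : ℕ) (c : ℂ) : ∃ P : ℂ → ℂ, ContDiff ℝ 2 P ∧ ∀ ξ : ℂ,
    dif (fderiv ℝ (fld P) ξ) =
      (if a = b then c.re / ((a : ℝ) + 1) else 0) - (c * ξ ^ a * (conj ξ) ^ b).re := by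
  induction a generalizing b c with
  | zero =>
    cases b with
    | zero =>
      refine ⟨fun _ => 0, contDiff_const, ?_⟩
      intro ξ
      have e : fld (fun _ => 0) = fun _ : ℂ => (0 : ℂ) := by
        funext z
        rw [c18a_fld, mul_zero]
      rw [e, (c18a_const 0 ξ).fderiv, C_dif_ab]
      simp
    | succ k =>
      obtain ⟨P, hP, h⟩ := C_field_k k (c / 2)
      refine ⟨P, hP, ?_⟩
      intro ξ
      rw [h ξ, if_neg (by omega)]
      have e : c / 2 * (conj ξ) ^ (k + 1) = ((1 / 2 : ℝ) : ℂ) * (c * (conj ξ) ^ (k + 1)) := by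
        push_cast
        ring
      rw [e, Complex.re_ofReal_mul, pow_zero, mul_one]
      ring
  | succ a ih =>
    cases b with
    | zero =>
      obtain ⟨P, hP, h⟩ := C_field_k a (conj c / 2)
      refine ⟨P, hP, ?_⟩
      intro ξ
      rw [h ξ, if_neg (by omega)]
      have e : conj c / 2 * (conj ξ) ^ (a + 1) =
          ((1 / 2 : ℝ) : ℂ) * conj (c * ξ ^ (a + 1)) := by
        rw [map_mul, map_pow]
        push_cast
        ring
      rw [e, Complex.re_ofReal_mul, Complex.conj_re, pow_zero, mul_one]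
      ring
    | succ b =>
      have ha : ((a : ℝ) + 2) ≠ 0 := by positivity
      have ha' : ((a : ℝ) + 1) ≠ 0 := by positivity
      obtain ⟨Q, hQ, h1⟩ := ih b (((((a : ℝ) + 1) / ((a : ℝ) + 2) : ℝ) : ℂ) * c)
      obtain ⟨R, hR, h2⟩ := C_field_ab a b c
      refine ⟨fun z => Q z + ((1 / (2 * ((a : ℝ) + 2)) : ℝ) : ℂ) * R z, ?_, ?_⟩
      · exact hQ.add (contDiff_const.mul hR)
      · intro ξ
        rw [C_field_add hQ hR, h1 ξ, h2 ξ]
        set X : ℂ := c * (ξ ^ a * (conj ξ) ^ b) with hX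
        set Y : ℂ := c * (ξ ^ (a + 1) * (conj ξ) ^ (b + 1)) with hY
        have e1 : ((((((a : ℝ) + 1) / ((a : ℝ) + 2) : ℝ) : ℂ) * c) * ξ ^ a * (conj ξ) ^ b).re =
            (((a : ℝ) + 1) / ((a : ℝ) + 2)) * X.re := by
          rw [hX, ← Complex.re_ofReal_mul]
          congr 1
          ring
        have e2 : (c * (((a : ℂ) + 1) * ξ ^ a * (conj ξ) ^ b -
            ((a : ℂ) + 2) * ξ ^ (a + 1) * (conj ξ) ^ (b + 1))).re =
            ((a : ℝ) + 1) * X.re - ((a : ℝ) + 2) * Y.re := by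
          rw [hX, hY, ← Complex.re_ofReal_mul, ← Complex.re_ofReal_mul, ← Complex.sub_re]
          congr 1
          push_cast
          ring
        have e3 : (c * ξ ^ (a + 1) * (conj ξ) ^ (b + 1)).re = Y.re := by
          rw [hY]
          congr 1
          ring
        rw [e1, e2, e3]
        by_cases hab : a = b
        · rw [if_pos hab, if_pos (by omega), Complex.re_ofReal_mul]
          push_cast
          field_simp
          ring
        · rw [if_neg hab, if_neg (by omega)]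
          field_simp
          ring

/-- Sum over a finite set (`C_field_add`, `Finset.induction_on`). -/
theorem C_poly (s : Finset (ℕ × ℕ)) (c : ℕ × ℕ → ℂ) : ∃ P : ℂ → ℂ, ContDiff ℝ 2 P ∧ ∀ ξ : ℂ,
    dif (fderiv ℝ (fld P) ξ) =
      (∑ i ∈ s, (if i.1 = i.2 then (c i).re / ((i.1 : ℝ) + 1) else 0)) -
        (∑ i ∈ s, c i * ξ ^ i.1 * (conj ξ) ^ i.2).re := by
  classical
  induction s using Finset.induction_on with
  | empty =>
    refine ⟨fun _ => 0, contDiff_const, ?_⟩
    intro ξ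
    have e : fld (fun _ => 0) = fun _ : ℂ => (0 : ℂ) := by
      funext z
      rw [c18a_fld, mul_zero]
    rw [e, (c18a_const 0 ξ).fderiv, C_dif_ab]
    simp
  | insert i s hi ih =>
    obtain ⟨P, hP, h1⟩ := ih
    obtain ⟨Q, hQ, h2⟩ := C_mono i.1 i.2 (c i)
    refine ⟨fun z => P z + ((1 : ℝ) : ℂ) * Q z, hP.add (contDiff_const.mul hQ), ?_⟩
    intro ξ
    rw [C_field_add hP hQ, h1 ξ, h2 ξ, Finset.sum_insert hi, Finset.sum_insert hi, Complex.add_re]
    ring

end Pool.Agent.Lib.H11Q
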