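import Pool.Agent.Lib.H11Q.CD

set_option autoImplicit false

namespace Pool.Agent.Lib.H11Q

open Complex Set MeasureTheory
open scoped ComplexConjugate Topology

/-! C19 (M): moments of the unit disc. -/

theorem c19_r (n : ℕ) : ∫ r in Ioo (0 : ℝ) 1, ((r ^ n : ℝ) : ℂ) = 1 / ((n : ℂ) + 1) := by
  rw [integral_complex_ofReal, ← integral_Ioc_eq_integral_Ioo, ← intervalIntegral.integral_of_le zero_le_one, integral_pow]
  push_cast
  rw [one_pow, zero_pow (Nat.succ_ne_zero n), sub_zero]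

theorem c19_t (a b : ℕ) : ∫ t in Ioo (-Real.pi) Real.pi, Complex.exp ((((a : ℂ) - b) * I) * t) =
    if a = b then 2 * (Real.pi : ℂ) else 0 := by
  rw [← integral_Ioc_eq_integral_Ioo, ← intervalIntegral.integral_of_le (by linarith [Real.pi_pos])]
  by_cases h : a = b
  · subst h
    rw [if_pos rfl, sub_self, zero_mul]
    simp only [zero_mul, Complex.exp_zero, intervalIntegral.integral_const]
    rw [Complex.real_smul]
    push_cast
    ring
  · rw [if_neg h]
    have hc : ((a : ℂ) - b) * I ≠ 0 := by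
      refine mul_ne_zero (sub_ne_zero.2 ?_) I_ne_zero
      exact_mod_cast h
    rw [integral_exp_mul_complex hc]
    have h2 : Complex.exp (((a : ℂ) - b) * I * (Real.pi : ℂ)) = Complex.exp (((a : ℂ) - b) * I * ((-Real.pi : ℝ) : ℂ)) := by
      rw [Complex.exp_eq_exp_iff_exists_int]
      refine ⟨(a : ℤ) - b, ?_⟩
      push_cast
      ring
    rw [h2, sub_self, zero_div]

theorem c19_cont (a b : ℕ) : Continuous fun ξ : ℂ => ξ ^ a * (conj ξ) ^ b :=
  (continuous_id.pow a).mul (Complex.continuous_conj.pow b)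

theorem c19_int {f : ℂ → ℂ} (hf : Continuous f) : IntegrableOn f (Metric.ball (0 : ℂ) 1) :=
  (hf.continuousOn.integrableOn_compact (isCompact_closedBall (0 : ℂ) 1)).mono_set Metric.ball_subset_closedBall

theorem c19_M (a b : ℕ) : ∫ ξ in Metric.ball (0 : ℂ) 1, ξ ^ a * (conj ξ) ^ b =
    (Real.pi : ℂ) * (if a = b then 1 / ((a : ℂ) + 1) else 0) := by
  rw [← integral_indicator measurableSet_ball, ← Complex.integral_comp_polarCoord_symm]
  have h1 : ∀ p ∈ polarCoord.target, p.1 • (Metric.ball (0 : ℂ) 1).indicator (fun ξ : ℂ => ξ ^ a * (conj ξ) ^ b)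
      (Complex.polarCoord.symm p) = (Ioo (0 : ℝ) 1 ×ˢ Ioo (-Real.pi) Real.pi).indicator
      (fun p : ℝ × ℝ => ((p.1 ^ (a + b + 1) : ℝ) : ℂ) * Complex.exp ((((a : ℂ) - b) * I) * p.2)) p := by
    rintro ⟨r, t⟩ hp
    have hp' : 0 < r ∧ (-Real.pi < t ∧ t < Real.pi) := by
      simpa [polarCoord] using hp
    by_cases hr : r < 1
    · rw [indicator_of_mem, indicator_of_mem]
      · rw [Complex.polarCoord_symm_apply]
        have e1 : ((Real.cos t : ℂ) + Real.sin t * I) = Complex.exp (t * I) := by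
          rw [Complex.exp_mul_I]
          push_cast
          rfl
        show r • (((r : ℂ) * ((Real.cos t : ℂ) + Real.sin t * I)) ^ a * (conj ((r : ℂ) * ((Real.cos t : ℂ) + Real.sin t * I))) ^ b) = _
        rw [e1, map_mul, Complex.conj_ofReal, ← Complex.exp_conj, map_mul, Complex.conj_ofReal, Complex.conj_I, mul_pow, mul_pow,
          ← Complex.exp_nat_mul, ← Complex.exp_nat_mul, Complex.real_smul]
        have e2 : (((a : ℂ) - b) * I) * t = (a : ℂ) * (t * I) + (b : ℂ) * (t * -I) := by ring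
        show _ = ((r ^ (a + b + 1) : ℝ) : ℂ) * Complex.exp ((((a : ℂ) - b) * I) * t)
        rw [e2, Complex.exp_add]
        push_cast
        ring
      · exact ⟨⟨hp'.1, hr⟩, hp'.2⟩
      · rw [mem_ball_zero_iff, Complex.norm_polarCoord_symm, abs_of_pos hp'.1]
        exact hr
    · rw [indicator_of_notMem, indicator_of_notMem, smul_zero]
      · intro h
        exact hr h.1.2
      · rw [mem_ball_zero_iff, Complex.norm_polarCoord_symm, abs_of_pos hp'.1]
        exact hr
  rw [setIntegral_congr_fun polarCoord.open_target.measurableSet h1,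
    setIntegral_indicator (measurableSet_Ioo.prod measurableSet_Ioo)]
  have h2 : polarCoord.target ∩ (Ioo (0 : ℝ) 1 ×ˢ Ioo (-Real.pi) Real.pi) = Ioo (0 : ℝ) 1 ×ˢ Ioo (-Real.pi) Real.pi := by
    refine inter_eq_right.2 ?_
    rintro ⟨r, t⟩ ⟨h3, h4⟩
    exact ⟨h3.1, h4⟩
  rw [h2, Measure.volume_eq_prod, setIntegral_prod_mul (fun r : ℝ => ((r ^ (a + b + 1) : ℝ) : ℂ))
    (fun t : ℝ => Complex.exp ((((a : ℂ) - b) * I) * t)), c19_r, c19_t]
  by_cases h : a = b
  · subst h
    rw [if_pos rfl, if_pos rfl]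
    have h5 : ((a : ℂ) + 1) ≠ 0 := by exact_mod_cast Nat.succ_ne_zero a
    have h6 : (((a + a + 1 : ℕ) : ℂ) + 1) = 2 * ((a : ℂ) + 1) := by
      push_cast
      ring
    rw [h6]
    field_simp
  · rw [if_neg h, if_neg h, mul_zero, mul_zero]

/-- Polar coordinates (`Complex.integral_comp_polarCoord_symm` with the indicator of the ball, or
`Complex.polarCoord`): `ξ^a conj(ξ)^b = r^(a+b) exp(i(a-b)θ)`, so the integral is
`∫_0^1 r^(a+b+1) dr ∫_(-π)^π exp(i(a-b)θ) dθ`; for `a = b`: `2π / (2a+2)`, otherwise `0`.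
(Alternative: rotation invariance of the integral gives `0` for `a ≠ b`; and `|ξ|^(2a)` is radial.) -/
theorem C_moment (a b : ℕ) (c : ℂ) :
    ∫ ξ in Metric.ball (0 : ℂ) 1, (c * ξ ^ a * (conj ξ) ^ b).re =
      Real.pi * (if a = b then c.re / ((a : ℝ) + 1) else 0) := by
  have h1 : ∫ ξ in Metric.ball (0 : ℂ) 1, (c * ξ ^ a * (conj ξ) ^ b).re =
      (∫ ξ in Metric.ball (0 : ℂ) 1, c * (ξ ^ a * (conj ξ) ^ b)).re := by
    have h2 := (c19_int ((continuous_const (y := c)).mul (c19_cont a b)))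
    have h3 := Complex.reCLM.integral_comp_comm h2
    simp only [Complex.reCLM_apply] at h3
    refine Eq.trans ?_ h3
    simp only [mul_assoc]
    rfl
  rw [h1, integral_const_mul, c19_M]
  by_cases h : a = b
  · rw [if_pos h, if_pos h]
    have h4 : c * ((Real.pi : ℂ) * (1 / ((a : ℂ) + 1))) = ((Real.pi / ((a : ℝ) + 1) : ℝ) : ℂ) * c := by
      push_cast
      ring
    rw [h4, Complex.re_ofReal_mul]
    ring
  · rw [if_neg h, if_neg h, mul_zero, mul_zero, mul_zero, Complex.zero_re]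

/-- Sum (`integral_finsetSum`; continuous functions on a bounded set are integrable). -/
theorem C_moment_sum (s : Finset (ℕ × ℕ)) (c : ℕ × ℕ → ℂ) :
    ∫ ξ in Metric.ball (0 : ℂ) 1, (∑ i ∈ s, c i * ξ ^ i.1 * (conj ξ) ^ i.2).re =
      Real.pi * ∑ i ∈ s, (if i.1 = i.2 then (c i).re / ((i.1 : ℝ) + 1) else 0) := by
  have h1 : ∀ ξ : ℂ, (∑ i ∈ s, c i * ξ ^ i.1 * (conj ξ) ^ i.2).re = ∑ i ∈ s, (c i * ξ ^ i.1 * (conj ξ) ^ i.2).re :=
    fun ξ => Complex.re_sum _ _
  simp only [h1]
  rw [integral_finsetSum]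
  · rw [Finset.mul_sum]
    exact Finset.sum_congr rfl fun i _ => C_moment i.1 i.2 (c i)
  · intro i _
    have h2 := (c19_int ((continuous_const (y := c i)).mul (c19_cont i.1 i.2)))
    have h3 := Complex.reCLM.integrable_comp h2
    simp only [Complex.reCLM_apply] at h3
    refine h3.congr (Filter.Eventually.of_forall fun ξ => ?_)
    simp only [mul_assoc]
    rfl

end Pool.Agent.Lib.H11Q
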