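import Pool.Agent.Lib.H11Q.CD

set_option autoImplicit false

namespace Pool.Agent.Lib.H11Q

open Complex Set MeasureTheory
open scoped ComplexConjugate Topology

/-! C20 (M): Stone-Weierstrass on the closed unit disc. -/

/-- elements of the star algebra generated by the identity are polynomials in `z`, `conj z` -/
theorem c20_adjoin (s : Set ℂ) (g : C(s, ℂ))
    (hg : g ∈ StarAlgebra.adjoin ℂ {ContinuousMap.restrict s (ContinuousMap.id ℂ)}) :
    ∃ f : (ℕ × ℕ) →₀ ℂ, ∀ ξ : s, g ξ = f.sum (fun i a => a * (ξ : ℂ) ^ i.1 * (conj (ξ : ℂ)) ^ i.2) := by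
  have h1 : g ∈ (StarAlgebra.adjoin ℂ {ContinuousMap.restrict s (ContinuousMap.id ℂ)}).toSubalgebra := hg
  rw [StarAlgebra.adjoin_toSubalgebra] at h1
  have h2 : g ∈ Subalgebra.toSubmodule (Algebra.adjoin ℂ
      ({ContinuousMap.restrict s (ContinuousMap.id ℂ)} ∪
        star {ContinuousMap.restrict s (ContinuousMap.id ℂ)})) := h1
  rw [Algebra.adjoin_eq_span] at h2
  induction h2 using Submodule.span_induction with
  | mem x hx =>
    have hx' : x ∈ Submonoid.closure ({ContinuousMap.restrict s (ContinuousMap.id ℂ),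
        star (ContinuousMap.restrict s (ContinuousMap.id ℂ))} : Set C(s, ℂ)) := by
      have : ({ContinuousMap.restrict s (ContinuousMap.id ℂ)} ∪
        star {ContinuousMap.restrict s (ContinuousMap.id ℂ)} : Set C(s, ℂ)) =
        {ContinuousMap.restrict s (ContinuousMap.id ℂ),
        star (ContinuousMap.restrict s (ContinuousMap.id ℂ))} := by
        rw [Set.star_singleton, Set.singleton_union]
      rw [this] at hx
      exact hx
    rw [Submonoid.mem_closure_pair] at hx'
    obtain ⟨a, b, rfl⟩ := hx'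
    refine ⟨Finsupp.single (a, b) 1, fun ξ => ?_⟩
    rw [Finsupp.sum_single_index (by simp)]
    simp
  | zero => exact ⟨0, fun ξ => by simp⟩
  | add x y _ _ hx hy =>
    obtain ⟨f, hf⟩ := hx (by
      have : x ∈ Subalgebra.toSubmodule (Algebra.adjoin ℂ
        ({ContinuousMap.restrict s (ContinuousMap.id ℂ)} ∪
        star {ContinuousMap.restrict s (ContinuousMap.id ℂ)})) := by
        rw [Algebra.adjoin_eq_span]; assumption
      rw [← SetLike.mem_coe, ← StarSubalgebra.coe_toSubalgebra, StarAlgebra.adjoin_toSubalgebra]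
      exact this) (by
      have : x ∈ Subalgebra.toSubmodule (Algebra.adjoin ℂ
        ({ContinuousMap.restrict s (ContinuousMap.id ℂ)} ∪
        star {ContinuousMap.restrict s (ContinuousMap.id ℂ)})) := by
        rw [Algebra.adjoin_eq_span]; assumption
      exact this)
    obtain ⟨f', hf'⟩ := hy (by
      have : y ∈ Subalgebra.toSubmodule (Algebra.adjoin ℂ
        ({ContinuousMap.restrict s (ContinuousMap.id ℂ)} ∪
        star {ContinuousMap.restrict s (ContinuousMap.id ℂ)})) := by
        rw [Algebra.adjoin_eq_span]; assumption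
      rw [← SetLike.mem_coe, ← StarSubalgebra.coe_toSubalgebra, StarAlgebra.adjoin_toSubalgebra]
      exact this) (by
      have : y ∈ Subalgebra.toSubmodule (Algebra.adjoin ℂ
        ({ContinuousMap.restrict s (ContinuousMap.id ℂ)} ∪
        star {ContinuousMap.restrict s (ContinuousMap.id ℂ)})) := by
        rw [Algebra.adjoin_eq_span]; assumption
      exact this)
    refine ⟨f + f', fun ξ => ?_⟩
    rw [Finsupp.sum_add_index' (by simp) (by intros; ring), ContinuousMap.add_apply, hf, hf']
  | smul a x _ hx =>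
    obtain ⟨f, hf⟩ := hx (by
      have : x ∈ Subalgebra.toSubmodule (Algebra.adjoin ℂ
        ({ContinuousMap.restrict s (ContinuousMap.id ℂ)} ∪
        star {ContinuousMap.restrict s (ContinuousMap.id ℂ)})) := by
        rw [Algebra.adjoin_eq_span]; assumption
      rw [← SetLike.mem_coe, ← StarSubalgebra.coe_toSubalgebra, StarAlgebra.adjoin_toSubalgebra]
      exact this) (by
      have : x ∈ Subalgebra.toSubmodule (Algebra.adjoin ℂ
        ({ContinuousMap.restrict s (ContinuousMap.id ℂ)} ∪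
        star {ContinuousMap.restrict s (ContinuousMap.id ℂ)})) := by
        rw [Algebra.adjoin_eq_span]; assumption
      exact this)
    refine ⟨a • f, fun ξ => ?_⟩
    rw [Finsupp.sum_smul_index' (by simp), ContinuousMap.smul_apply, hf, Finsupp.sum, Finsupp.sum,
      smul_eq_mul, Finset.mul_sum]
    refine Finset.sum_congr rfl fun i _ => ?_
    rw [smul_eq_mul]; ring

/-- `ContinuousMap.elemental_id_eq_top` (in `Mathlib.Topology.ContinuousMap.StoneWeierstrass`): the closed star algebra
generated by the identity of a compact set `s ⊂ ℂ` is everything.  An element of the star algebra generated by `id` is a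
finite sum `∑ c_(a,b) z^a conj(z)^b` (these sums contain `1`, `id` and are closed under `+`, `·`, `star`:
`StarAlgebra.adjoin_induction` or `StarSubalgebra`).  Apply it to `f` (complex valued) and take real parts. -/
theorem C_SW {f : ℂ → ℝ} (hf : ContinuousOn f (Metric.closedBall 0 1)) {ε : ℝ} (hε : 0 < ε) :
    ∃ (s : Finset (ℕ × ℕ)) (c : ℕ × ℕ → ℂ), ∀ ξ : ℂ, ‖ξ‖ ≤ 1 →
      |(∑ i ∈ s, c i * ξ ^ i.1 * (conj ξ) ^ i.2).re - f ξ| ≤ ε := by
  classical
  set s : Set ℂ := Metric.closedBall 0 1 with hs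
  haveI : CompactSpace s := isCompact_iff_compactSpace.mp (isCompact_closedBall 0 1)
  let F : C(s, ℂ) := ⟨fun ξ => ((f ξ : ℝ) : ℂ), by
    exact Complex.continuous_ofReal.comp (continuousOn_iff_continuous_restrict.mp hf)⟩
  have hF : F ∈ StarAlgebra.elemental ℂ (ContinuousMap.restrict s (ContinuousMap.id ℂ)) := by
    rw [ContinuousMap.elemental_id_eq_top]; trivial
  have hF' : F ∈ closure ((StarAlgebra.adjoin ℂ
      {ContinuousMap.restrict s (ContinuousMap.id ℂ)} : Set C(s, ℂ))) := hF
  rw [Metric.mem_closure_iff] at hF'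
  obtain ⟨g, hg, hgd⟩ := hF' ε hε
  obtain ⟨p, hp⟩ := c20_adjoin s g hg
  refine ⟨p.support, p, fun ξ hξ => ?_⟩
  have hξs : ξ ∈ s := by simpa [hs] using hξ
  have h1 := hp ⟨ξ, hξs⟩
  rw [Finsupp.sum] at h1
  simp only at h1
  rw [← h1]
  have h2 : dist (F ⟨ξ, hξs⟩) (g ⟨ξ, hξs⟩) ≤ dist F g := ContinuousMap.dist_apply_le_dist _
  have h3 : F ⟨ξ, hξs⟩ = ((f ξ : ℝ) : ℂ) := rfl
  rw [h3, dist_eq_norm] at h2
  have h4 : |((((f ξ : ℝ) : ℂ)) - g ⟨ξ, hξs⟩).re| ≤ ‖(((f ξ : ℝ) : ℂ)) - g ⟨ξ, hξs⟩‖ := Complex.abs_re_le_norm _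
  rw [Complex.sub_re, Complex.ofReal_re] at h4
  rw [abs_sub_comm]
  linarith

end Pool.Agent.Lib.H11Q
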