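import Pool.Agent.Lib.H11Q.CD

set_option autoImplicit false

namespace Pool.Agent.Lib.H11Q

open Complex Set MeasureTheory
open scoped ComplexConjugate Topology

/-! C21 (M): a continuous majorant (PROOF.md 8.8). -/

/-- The cut-off function. -/
noncomputable def c21_chi (ρ : ℝ) (ξ : ℂ) : ℝ := max 0 (min 1 (2 * ((1 + ρ) / 2 - ‖ξ‖) / (1 - ρ)))

theorem c21_cont (ρ : ℝ) : Continuous (c21_chi ρ) := by
  unfold c21_chi
  exact continuous_const.max (continuous_const.min ((continuous_const.mul (continuous_const.sub continuous_norm)).div_const _))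

theorem c21_nonneg (ρ : ℝ) (ξ : ℂ) : 0 ≤ c21_chi ρ ξ := le_max_left _ _

theorem c21_le (ρ : ℝ) (ξ : ℂ) : c21_chi ρ ξ ≤ 1 := max_le zero_le_one (min_le_left _ _)

theorem c21_one {ρ : ℝ} (hρ : ρ < 1) {ξ : ℂ} (h : ‖ξ‖ ≤ ρ) : c21_chi ρ ξ = 1 := by
  unfold c21_chi
  rw [min_eq_left, max_eq_right zero_le_one]
  rw [le_div_iff₀ (by linarith)]
  linarith

theorem c21_zero {ρ : ℝ} (hρ : ρ < 1) {ξ : ℂ} (h : (1 + ρ) / 2 ≤ ‖ξ‖) : c21_chi ρ ξ = 0 := by
  unfold c21_chi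
  apply max_eq_left
  exact (min_le_right _ _).trans (div_nonpos_of_nonpos_of_nonneg (by linarith) (by linarith))

/-- The majorant. -/
noncomputable def c21_np (n : ℂ → ℝ) (M1 ρ δ : ℝ) (ξ : ℂ) : ℝ := c21_chi ρ ξ * (n ξ + δ) + (1 - c21_chi ρ ξ) * M1

theorem c21_npcont {n : ℂ → ℝ} (hc : ContinuousOn n (Metric.ball 0 1)) (M1 : ℝ) {ρ : ℝ} (hρ : ρ < 1) (δ : ℝ) :
    Continuous (c21_np n M1 ρ δ) := by
  rw [continuous_iff_continuousAt]
  intro ξ
  rcases lt_or_ge ‖ξ‖ 1 with h | h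
  · have h1 : ContinuousAt n ξ := hc.continuousAt (Metric.isOpen_ball.mem_nhds (by rwa [mem_ball_zero_iff]))
    exact ((c21_cont ρ).continuousAt.mul (h1.add continuousAt_const)).add
      ((continuousAt_const.sub (c21_cont ρ).continuousAt).mul continuousAt_const)
  · have h1 : {z : ℂ | (1 + ρ) / 2 < ‖z‖} ∈ nhds ξ := by
      refine (isOpen_lt continuous_const continuous_norm).mem_nhds ?_
      show (1 + ρ) / 2 < ‖ξ‖
      linarith
    refine (continuousAt_const (y := M1)).congr ?_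
    filter_upwards [h1] with z hz
    unfold c21_np
    rw [c21_zero hρ (le_of_lt hz)]
    ring

/-- Let `M1 = max M M' + 1`, `χ_ρ(ξ) = max 0 (min 1 ((1 - ‖ξ‖)/(1 - ρ) - 1))`-like: a continuous radial function,
`0 ≤ χ ≤ 1`, `χ = 1` for `‖ξ‖ ≤ ρ`, `χ = 0` for `‖ξ‖ ≥ (1+ρ)/2`.
`np = χ (n + δ) + (1 - χ) M1` (the product `χ n` is extended by `0`; it is continuous on `ℂ` since `n` is continuous on the
open disc and `χ` vanishes on `‖ξ‖ > (1+ρ)/2`).
* even: `χ` is radial.  * `np > n`: `M1 > n` and `δ > 0`.  * `np = M1 > M'` for `‖ξ‖ ≥ (1+ρ)/2`.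
* `∫ np ≤ ∫ n + π δ + (M1 + M) (π - π ρ²)` (on the annulus `np - n ≤ δ + M1 + M`), `< π B` for `δ` small and
`ρ` near 1. -/
theorem C_cut {n : ℂ → ℝ} {M : ℝ} (hb : ∀ ξ : ℂ, ‖ξ‖ < 1 → |n ξ| ≤ M)
    (hc : ContinuousOn n (Metric.ball 0 1)) (he : ∀ ξ : ℂ, ‖ξ‖ < 1 → n (-ξ) = n ξ) {B : ℝ}
    (hB : ∫ ξ in Metric.ball (0 : ℂ) 1, n ξ < Real.pi * B) (M' : ℝ) :
    ∃ np : ℂ → ℝ, Continuous np ∧ (∀ ξ, np (-ξ) = np ξ) ∧ (∀ ξ : ℂ, ‖ξ‖ < 1 → n ξ < np ξ) ∧
      (∀ ξ : ℂ, ‖ξ‖ = 1 → M' < np ξ) ∧ ∫ ξ in Metric.ball (0 : ℂ) 1, np ξ < Real.pi * B := by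
  obtain ⟨M1, hM1⟩ : ∃ M1 : ℝ, M1 = max M M' + 1 := ⟨_, rfl⟩
  have hM : M < M1 := by
    rw [hM1]
    linarith [le_max_left M M']
  have hM' : M' < M1 := by
    rw [hM1]
    linarith [le_max_right M M']
  have hM0 : 0 ≤ M := (abs_nonneg _).trans (hb 0 (by simp))
  have hlim : Filter.Tendsto (fun k : ℕ => ∫ ξ in Metric.ball (0 : ℂ) 1, c21_np n M1 (1 - 1 / ((k : ℝ) + 1)) (1 / ((k : ℝ) + 1)) ξ)
      Filter.atTop (nhds (∫ ξ in Metric.ball (0 : ℂ) 1, n ξ)) := by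
    have hρ : ∀ k : ℕ, 1 - 1 / ((k : ℝ) + 1) < 1 := fun k => by
      have : 0 < 1 / ((k : ℝ) + 1) := by positivity
      linarith
    have hδ : ∀ k : ℕ, 1 / ((k : ℝ) + 1) ≤ 1 := fun k => by
      rw [div_le_one (by positivity)]
      linarith [(Nat.cast_nonneg k : (0 : ℝ) ≤ k)]
    refine tendsto_integral_of_dominated_convergence (fun _ => M + 1 + M1) (fun k => (c21_npcont hc M1 (hρ k) _).aestronglyMeasurable)
      ?_ (fun k => ?_) ?_
    · exact integrableOn_const (by simp [measure_ball_lt_top.ne])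
    · refine ae_restrict_of_forall_mem measurableSet_ball fun ξ hξ => ?_
      rw [mem_ball_zero_iff] at hξ
      have h1 := hb ξ hξ
      have h2 := c21_nonneg (1 - 1 / ((k : ℝ) + 1)) ξ
      have h3 := c21_le (1 - 1 / ((k : ℝ) + 1)) ξ
      have h4 : 0 < 1 / ((k : ℝ) + 1) := by positivity
      have h5 := hδ k
      rw [Real.norm_eq_abs]
      unfold c21_np
      refine (abs_add_le _ _).trans ?_
      rw [abs_mul, abs_mul, abs_of_nonneg h2, abs_of_nonneg (sub_nonneg.2 h3), abs_of_pos (by linarith : 0 < M1)]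
      have h6 : |n ξ + 1 / ((k : ℝ) + 1)| ≤ M + 1 := by
        refine (abs_add_le _ _).trans ?_
        rw [abs_of_pos h4]
        linarith
      have h7 := abs_nonneg (n ξ + 1 / ((k : ℝ) + 1))
      nlinarith
    · refine ae_restrict_of_forall_mem measurableSet_ball fun ξ hξ => ?_
      rw [mem_ball_zero_iff] at hξ
      have h1 : Filter.Tendsto (fun k : ℕ => n ξ + 1 / ((k : ℝ) + 1)) Filter.atTop (nhds (n ξ)) := by
        have h2 := (tendsto_one_div_add_atTop_nhds_zero_nat (𝕜 := ℝ)).const_add (n ξ)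
        rwa [add_zero] at h2
      refine h1.congr' ?_
      have h3 : ∀ᶠ k : ℕ in Filter.atTop, 1 / ((k : ℝ) + 1) < 1 - ‖ξ‖ :=
        (tendsto_one_div_add_atTop_nhds_zero_nat (𝕜 := ℝ)).eventually (gt_mem_nhds (by linarith))
      filter_upwards [h3] with k hk
      unfold c21_np
      rw [c21_one (hρ k) (by linarith)]
      ring
  have hev : ∀ᶠ k : ℕ in Filter.atTop, (∫ ξ in Metric.ball (0 : ℂ) 1, c21_np n M1 (1 - 1 / ((k : ℝ) + 1)) (1 / ((k : ℝ) + 1)) ξ) <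
      Real.pi * B := hlim.eventually (gt_mem_nhds hB)
  obtain ⟨k, hk⟩ := hev.exists
  obtain ⟨δ, hδ⟩ : ∃ δ : ℝ, δ = 1 / ((k : ℝ) + 1) := ⟨_, rfl⟩
  rw [← hδ] at hk
  have hδ0 : 0 < δ := by
    rw [hδ]
    positivity
  have hρ : 1 - δ < 1 := by linarith
  refine ⟨c21_np n M1 (1 - δ) δ, c21_npcont hc M1 hρ δ, fun ξ => ?_, fun ξ hξ => ?_, fun ξ hξ => ?_, hk⟩
  · have h1 : c21_chi (1 - δ) (-ξ) = c21_chi (1 - δ) ξ := by
      unfold c21_chi
      rw [norm_neg]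
    unfold c21_np
    rw [h1]
    rcases lt_or_ge ‖ξ‖ 1 with h | h
    · rw [he ξ h]
    · rw [c21_zero hρ (by linarith)]
      ring
  · have h1 := (abs_le.1 (hb ξ hξ)).2
    have h2 := c21_nonneg (1 - δ) ξ
    have h3 := c21_le (1 - δ) ξ
    have h4 : 0 < min δ (M1 - n ξ) := lt_min hδ0 (by linarith)
    have h5 := min_le_left δ (M1 - n ξ)
    have h6 := min_le_right δ (M1 - n ξ)
    have h7 : c21_np n M1 (1 - δ) δ ξ - n ξ = c21_chi (1 - δ) ξ * δ + (1 - c21_chi (1 - δ) ξ) * (M1 - n ξ) := by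
      unfold c21_np
      ring
    have h8 := mul_le_mul_of_nonneg_left h5 h2
    have h9 := mul_le_mul_of_nonneg_left h6 (sub_nonneg.2 h3)
    linarith
  · unfold c21_np
    rw [c21_zero hρ (by linarith)]
    linarith

end Pool.Agent.Lib.H11Q
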