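import Pool.Agent.Lib.H11Q.C21
import Pool.Agent.Lib.H11Q.C20
import Pool.Agent.Lib.H11Q.C19
import Pool.Agent.Lib.H11Q.C18B

set_option autoImplicit false

namespace Pool.Agent.Lib.H11Q

open Complex Set MeasureTheory
open scoped ComplexConjugate Topology

/-! C22 (M): the improvement lemma (PROOF.md 8.8). -/

/-- `np` from `C_cut`; `δ = (π B - ∫ np) / (2 π) > 0`; `C_SW` for `f = np + δ`, `ε = δ`: `p = Re ∑ ..` satisfies
`np ≤ p ≤ np + 2 δ` on the closed disc, so `mean p = (1/π) ∫ p ≤ (1/π)(∫ np + 2 δ π) ≤ B` (`C_moment_sum`).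
`P0` from `C_poly`: `dif (D fld P0) = mean p - p ≤ B - np`.  `P = (P0(ξ) - P0(-ξ))/2` (`C_field_add`, `C_field_neg`) is odd and
`dif (D fld P) ξ = (dif .. ξ + dif .. (-ξ))/2 ≤ B - (np ξ + np (-ξ))/2 = B - np ξ`. -/
theorem C_improve {n : ℂ → ℝ} {M : ℝ} (hb : ∀ ξ : ℂ, ‖ξ‖ < 1 → |n ξ| ≤ M)
    (hc : ContinuousOn n (Metric.ball 0 1)) (he : ∀ ξ : ℂ, ‖ξ‖ < 1 → n (-ξ) = n ξ) {B : ℝ}
    (hB : ∫ ξ in Metric.ball (0 : ℂ) 1, n ξ < Real.pi * B) (M' : ℝ) :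
    ∃ P : ℂ → ℂ, ContDiff ℝ 2 P ∧ (∀ ξ, P (-ξ) = -P ξ) ∧ ∃ np : ℂ → ℝ, Continuous np ∧
      (∀ ξ : ℂ, ‖ξ‖ < 1 → n ξ < np ξ) ∧ (∀ ξ : ℂ, ‖ξ‖ = 1 → M' < np ξ) ∧
      ∀ ξ : ℂ, ‖ξ‖ ≤ 1 → dif (fderiv ℝ (fld P) ξ) + np ξ ≤ B := by
  obtain ⟨np, hnc, hne, hlt, hbd, hint⟩ := C_cut hb hc he hB M'
  obtain ⟨I0, hI0⟩ : ∃ I0 : ℝ, I0 = ∫ ξ in Metric.ball (0 : ℂ) 1, np ξ := ⟨_, rfl⟩
  rw [← hI0] at hint
  have hπ := Real.pi_pos
  obtain ⟨δ, hδ⟩ : ∃ δ : ℝ, δ = (Real.pi * B - I0) / (2 * Real.pi) := ⟨_, rfl⟩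
  have hδ0 : 0 < δ := by
    rw [hδ]
    exact div_pos (by linarith) (by positivity)
  have hδe : 2 * Real.pi * δ = Real.pi * B - I0 := by
    rw [hδ]
    field_simp
  obtain ⟨s, c, hsc⟩ := C_SW (f := fun ξ => np ξ + δ) ((hnc.add continuous_const).continuousOn) hδ0
  obtain ⟨P0, hP0, h0⟩ := C_poly s c
  obtain ⟨mean, hmean⟩ : ∃ mean : ℝ, mean = ∑ i ∈ s, (if i.1 = i.2 then (c i).re / ((i.1 : ℝ) + 1) else 0) := ⟨_, rfl⟩
  have hp : Continuous fun ξ : ℂ => (∑ i ∈ s, c i * ξ ^ i.1 * (conj ξ) ^ i.2).re := by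
    refine Complex.continuous_re.comp (continuous_finset_sum _ fun i _ => ?_)
    exact (continuous_const.mul (continuous_id.pow _)).mul (Complex.continuous_conj.pow _)
  have hInt : ∀ {f : ℂ → ℝ}, Continuous f → IntegrableOn f (Metric.ball (0 : ℂ) 1) := fun hf =>
    (hf.continuousOn.integrableOn_compact (isCompact_closedBall (0 : ℂ) 1)).mono_set Metric.ball_subset_closedBall
  have hle : mean ≤ B := by
    have h1 : Real.pi * mean ≤ I0 + 2 * Real.pi * δ := by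
      rw [hmean, ← C_moment_sum s c]
      have h2 : ∫ ξ in Metric.ball (0 : ℂ) 1, (∑ i ∈ s, c i * ξ ^ i.1 * (conj ξ) ^ i.2).re ≤
          ∫ ξ in Metric.ball (0 : ℂ) 1, (np ξ + 2 * δ) := by
        refine setIntegral_mono_on (hInt hp) (hInt (hnc.add continuous_const)) measurableSet_ball fun ξ hξ => ?_
        rw [mem_ball_zero_iff] at hξ
        have h3 := (abs_le.1 (hsc ξ hξ.le)).2
        linarith
      refine h2.trans (le_of_eq ?_)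
      rw [integral_add (hInt hnc) (hInt continuous_const), ← hI0, setIntegral_const, smul_eq_mul]
      have h4 : (volume : Measure ℂ).real (Metric.ball (0 : ℂ) 1) = Real.pi := by
        rw [Measure.real, Complex.volume_ball]
        simp
      rw [h4]
      ring
    rw [hδe] at h1
    have h5 : Real.pi * mean ≤ Real.pi * B := by linarith
    exact le_of_mul_le_mul_left h5 hπ
  have h1 : ∀ ξ : ℂ, ‖ξ‖ ≤ 1 → dif (fderiv ℝ (fld P0) ξ) ≤ B - np ξ := fun ξ hξ => by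
    rw [h0 ξ, ← hmean]
    have h3 := (abs_le.1 (hsc ξ hξ)).1
    linarith
  have hQ : ContDiff ℝ 2 (fun z : ℂ => -P0 (-z)) := (hP0.comp contDiff_neg).neg
  have hR : ContDiff ℝ 2 (fun z : ℂ => P0 z + ((1 : ℝ) : ℂ) * (-P0 (-z))) := hP0.add (contDiff_const.mul hQ)
  refine ⟨fun z => (P0 z + ((1 : ℝ) : ℂ) * (-P0 (-z))) + ((-1 / 2 : ℝ) : ℂ) * (P0 z + ((1 : ℝ) : ℂ) * (-P0 (-z))),
    hR.add (contDiff_const.mul hR), fun ξ => ?_, np, hnc, hlt, hbd, fun ξ hξ => ?_⟩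
  · show P0 (-ξ) + ((1 : ℝ) : ℂ) * -P0 (- -ξ) + ((-1 / 2 : ℝ) : ℂ) * (P0 (-ξ) + ((1 : ℝ) : ℂ) * -P0 (- -ξ)) =
      -(P0 ξ + ((1 : ℝ) : ℂ) * -P0 (-ξ) + ((-1 / 2 : ℝ) : ℂ) * (P0 ξ + ((1 : ℝ) : ℂ) * -P0 (-ξ)))
    rw [neg_neg]
    push_cast
    ring
  · rw [C_field_add hR hR, C_field_add hP0 hQ, C_field_neg hP0]
    have h6 := h1 ξ hξ
    have h7 := h1 (-ξ) (by rwa [norm_neg])
    rw [hne] at h7
    linarith

end Pool.Agent.Lib.H11Q
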