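import Pool.Agent.Lib.H11Q.D1

/-!
# H11Q, modules C and F: definitions
-/

set_option autoImplicit false

namespace Pool.Agent.Lib.H11Q

open Complex Set MeasureTheory
open scoped ComplexConjugate Topology

/-- The real linear map `v ↦ a v + b conj v`. -/
noncomputable def ab (a b : ℂ) : ℂ →L[ℝ] ℂ :=
  ContinuousLinearMap.mul ℝ ℂ a +
    (ContinuousLinearMap.mul ℝ ℂ b).comp conjCLE.toContinuousLinearMap

@[simp] theorem ab_apply (a b v : ℂ) : ab a b v = a * v + b * conj v := by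
  simp [ab]

/-- The real linear map `L` preserves the orientation and its dilatation is at most `K`. -/
def QCL (K : ℝ) (L : ℂ →L[ℝ] ℂ) : Prop := 0 < L.det ∧ ‖L‖ ^ 2 ≤ K * L.det

/-- Locally bi-Lipschitz homeomorphisms with dilatation at most `K` off a null set. -/
structure LQ (K : ℝ) (F : Disc ≃ₜ Disc) : Prop where
  lip : LocallyLipschitz F
  lip' : LocallyLipschitz F.symm
  dil : ∃ N : Set ℂ, volume N = 0 ∧ ∀ z : Disc, (z : ℂ) ∉ N →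
    ∃ L : ℂ →L[ℝ] ℂ, HasFDerivAt (ext F) L z ∧ QCL K L

/-- The inverse of `ab 1 m`, `‖m‖ < 1`. -/
noncomputable def iab (m : ℂ) : ℂ →L[ℝ] ℂ :=
  ab ((1 / (1 - ‖m‖ ^ 2) : ℝ) : ℂ) (-(m * ((1 / (1 - ‖m‖ ^ 2) : ℝ) : ℂ)))

/-- The linear map of PROOF.md 8.2 (in the coordinates `σ`, `σ'` both diagonal matrices become
`(1, κ)⁻¹` and `(1, -κ)`, where `(1, m)(v) = v + m conj v`):
`RR = (1, m2) (1, -κ) (1 + P) (1, κ)⁻¹ (1, m1)⁻¹`. -/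
noncomputable def RRm (κ : ℝ) (m1 : ℂ) (P : ℂ →L[ℝ] ℂ) (m2 : ℂ) : ℂ →L[ℝ] ℂ :=
  (ab 1 m2).comp ((ab 1 (-(κ : ℂ))).comp
    ((ContinuousLinearMap.id ℝ ℂ + P).comp ((iab κ).comp (iab m1))))

/-- `P_22 - P_11`. -/
noncomputable def dif (P : ℂ →L[ℝ] ℂ) : ℝ := (P I).im - (P 1).re

/-- The vector field `V = (1 - |ξ|²) P`. -/
noncomputable def fld (P : ℂ → ℂ) (ξ : ℂ) : ℂ := ((1 - ‖ξ‖ ^ 2 : ℝ) : ℂ) * P ξ

/-- `ξ ↦ ξ + t V(ξ)`. -/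
noncomputable def flm (P : ℂ → ℂ) (t : ℝ) (ξ : ℂ) : ℂ := ξ + t * fld P ξ

/-- `ξ + t V(ξ)` is a good homeomorphism of the closed disc. -/
structure FldOK (P : ℂ → ℂ) (t : ℝ) : Prop where
  up : ∀ ξ η : ℂ, ‖ξ‖ ≤ 1 → ‖η‖ ≤ 1 → ‖flm P t ξ - flm P t η‖ ≤ 3 / 2 * ‖ξ - η‖
  lo : ∀ ξ η : ℂ, ‖ξ‖ ≤ 1 → ‖η‖ ≤ 1 → 1 / 2 * ‖ξ - η‖ ≤ ‖flm P t ξ - flm P t η‖
  lt : ∀ ξ : ℂ, ‖ξ‖ < 1 → ‖flm P t ξ‖ < 1
  surj : ∀ η : ℂ, ‖η‖ ≤ 1 → ∃ ξ : ℂ, ‖ξ‖ ≤ 1 ∧ flm P t ξ = η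

/-- `tanh (d/4)` as a function of `E = cosh d`. -/
noncomputable def bE (E : ℝ) : ℝ :=
  Real.sqrt ((E - 1) / 2) / (1 + Real.sqrt ((E + 1) / 2))

/-- `Z` seen from `X`: `(Z - X) / (1 - conj X Z)`. -/
noncomputable def rel (X Z : ℂ) : ℂ := (Z - X) / (1 - conj X * Z)

/-- The direction of `rel X Z`. -/
noncomputable def uu (X Z : ℂ) : ℂ := rel X Z / (‖rel X Z‖ : ℂ)

/-- Numerator and denominator of `gi`. -/
noncomputable def gin (X Z w : ℂ) : ℂ :=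
  uu X Z * (w + bE (mink (Om X) (Om Z))) + X * (1 + bE (mink (Om X) (Om Z)) * w)

noncomputable def gid (X Z w : ℂ) : ℂ :=
  (1 + bE (mink (Om X) (Om Z)) * w) + conj X * uu X Z * (w + bE (mink (Om X) (Om Z)))

/-- The Moebius map which maps `-b` to `X` and `b` to `Z`, `b = bE (cosh d(X,Z)) = tanh (d(X,Z)/4)`. -/
noncomputable def gi (X Z w : ℂ) : ℂ := gin X Z w / gid X Z w

/-- The derivative of `gi`. -/
noncomputable def gi' (X Z w : ℂ) : ℂ :=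
  uu X Z * ((1 - bE (mink (Om X) (Om Z)) ^ 2) * (1 - ‖X‖ ^ 2) : ℝ) / gid X Z w ^ 2

/-- The complex derivative with respect to `σ` (up to the factor `2 r > 0`) of
`g⁻¹ (r β(ξ))`, `σ = ξ + κ conj ξ`. -/
noncomputable def c1 (g : SU) (r κ : ℝ) (ξ : ℂ) : ℂ :=
  1 / (g⁻¹.den (r * beta κ ξ)) ^ 2 * deriv (WW κ) (ZZ κ ξ) * (ξ + κ * conj ξ)

/-- The complex derivative with respect to `σ'` (up to the factor `2 r > 0`) of
`k (g⁻¹ (r β'(ξ)))`, `σ' = ξ - κ conj ξ`; here `g2 = k g⁻¹`. -/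
noncomputable def c2 (g2 : SU) (r κ : ℝ) (ξ : ℂ) : ℂ :=
  1 / (g2.den (r * beta' κ ξ)) ^ 2 * deriv (WW κ) (ZZ' κ ξ) * (ξ - κ * conj ξ)

/-- The pulled back coefficient `m conj(c) / c`. -/
noncomputable def pul (m c : ℂ) : ℂ := m * (conj c / c)

end Pool.Agent.Lib.H11Q
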