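import Mathlib

/-!
# H11Q (MP_a00a7b_an): basic definitions

The unit disc as a model of the hyperbolic plane, the group SU(1,1), the hyperbolic distance,
K-quasiconformal homeomorphisms (analytic definition), surface groups, quasiconformal homogeneity,
the (2,3,7) triangle group, the constant `Kbar`.
-/

set_option autoImplicit false

namespace Pool.Agent.Lib.H11Q

open Complex Set MeasureTheory
open scoped ComplexConjugate Topology

/-- The open unit disc. -/
abbrev Disc : Type := {z : ℂ // ‖z‖ < 1}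

/-- The group SU(1,1): matrices `((a, b), (conj b, conj a))` of determinant one. -/
@[ext]
structure SU where
  a : ℂ
  b : ℂ
  h : normSq a - normSq b = 1

namespace SU

instance : Mul SU :=
  ⟨fun g k => ⟨g.a * k.a + g.b * conj k.b, g.a * k.b + g.b * conj k.a, by
    have h1 := g.h
    have h2 := k.h
    have e : normSq (g.a * k.a + g.b * conj k.b) - normSq (g.a * k.b + g.b * conj k.a) =
        (normSq g.a - normSq g.b) * (normSq k.a - normSq k.b) := by
      simp only [normSq_apply, add_re, mul_re, conj_re, conj_im, add_im, mul_im]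
      ring
    rw [e, h1, h2, one_mul]⟩⟩

instance : One SU := ⟨⟨1, 0, by simp⟩⟩

instance : Inv SU := ⟨fun g => ⟨conj g.a, -g.b, by
    have h1 := g.h
    rw [normSq_conj, normSq_neg]
    exact h1⟩⟩

@[simp] theorem mul_a (g k : SU) : (g * k).a = g.a * k.a + g.b * conj k.b := rfl
@[simp] theorem mul_b (g k : SU) : (g * k).b = g.a * k.b + g.b * conj k.a := rfl
@[simp] theorem one_a : (1 : SU).a = 1 := rfl
@[simp] theorem one_b : (1 : SU).b = 0 := rfl
@[simp] theorem inv_a (g : SU) : (g⁻¹).a = conj g.a := rfl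
@[simp] theorem inv_b (g : SU) : (g⁻¹).b = -g.b := rfl

instance : Group SU where
  mul_assoc g k l := by
    ext <;> simp <;> ring
  one_mul g := by ext <;> simp
  mul_one g := by ext <;> simp
  inv_mul_cancel g := by
    have h1 := g.h
    have h2 : conj g.a * g.a - g.b * conj g.b = 1 := by
      rw [← Complex.normSq_eq_conj_mul_self, Complex.mul_conj]
      exact_mod_cast h1
    ext
    · show conj g.a * g.a + -g.b * conj g.b = 1
      linear_combination h2
    · show conj g.a * g.b + -g.b * conj g.a = 0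
      ring

/-- The Moebius action on the complex plane (meaningful on the closed unit disc). -/
noncomputable def app (g : SU) (z : ℂ) : ℂ := (g.a * z + g.b) / (conj g.b * z + conj g.a)

/-- The denominator. -/
noncomputable def den (g : SU) (z : ℂ) : ℂ := conj g.b * z + conj g.a

theorem den_ne (g : SU) {z : ℂ} (hz : ‖z‖ ≤ 1) : g.den z ≠ 0 := by
  intro h0
  have h1 := g.h
  have h2 : conj g.a = -(conj g.b * z) := by
    unfold den at h0
    linear_combination h0
  have h3 : ‖g.a‖ = ‖g.b‖ * ‖z‖ := by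
    have := congrArg norm h2
    rwa [norm_neg, norm_mul, norm_conj, norm_conj] at this
  rw [normSq_eq_norm_sq, normSq_eq_norm_sq, h3] at h1
  nlinarith [norm_nonneg g.b, norm_nonneg z, mul_nonneg (norm_nonneg g.b) (norm_nonneg g.b),
    mul_nonneg (norm_nonneg z) (norm_nonneg z), mul_nonneg (mul_nonneg (norm_nonneg g.b) (norm_nonneg g.b)) (sub_nonneg.mpr hz)]

theorem normSq_app (g : SU) {z : ℂ} (hz : ‖z‖ ≤ 1) :
    1 - ‖g.app z‖ ^ 2 = (1 - ‖z‖ ^ 2) / ‖g.den z‖ ^ 2 := by
  have hd : g.den z ≠ 0 := g.den_ne hz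
  have hd' : ‖g.den z‖ ^ 2 ≠ 0 := pow_ne_zero 2 (norm_ne_zero_iff.mpr hd)
  have h1 := g.h
  have e : g.app z = (g.a * z + g.b) / g.den z := rfl
  rw [e, norm_div, div_pow, eq_div_iff hd', sub_mul, div_mul_cancel₀ _ hd', one_mul]
  unfold den
  rw [← normSq_eq_norm_sq, ← normSq_eq_norm_sq, ← normSq_eq_norm_sq]
  have e2 : normSq (conj g.b * z + conj g.a) - normSq (g.a * z + g.b) =
      (normSq g.a - normSq g.b) * (1 - normSq z) := by
    simp only [normSq_apply, add_re, mul_re, conj_re, conj_im, add_im, mul_im]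
    ring
  rw [e2, h1, one_mul]

theorem app_norm_lt (g : SU) {z : ℂ} (hz : ‖z‖ < 1) : ‖g.app z‖ < 1 := by
  have h1 := g.normSq_app hz.le
  have hd : g.den z ≠ 0 := g.den_ne hz.le
  have h2 : 0 < (1 - ‖z‖ ^ 2) / ‖g.den z‖ ^ 2 := by
    apply div_pos
    · nlinarith [norm_nonneg z]
    · exact pow_pos (norm_pos_iff.mpr hd) 2
  rw [← h1] at h2
  nlinarith [norm_nonneg (g.app z)]

theorem app_one (z : ℂ) : (1 : SU).app z = z := by
  simp [app]

theorem app_mul (g k : SU) {z : ℂ} (hz : ‖z‖ ≤ 1) : (g * k).app z = g.app (k.app z) := by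
  have hk : k.den z ≠ 0 := k.den_ne hz
  have hgk : (g * k).den z ≠ 0 := (g * k).den_ne hz
  have e1 : (g * k).den z = conj g.b * (k.a * z + k.b) + conj g.a * k.den z := by
    simp only [den, mul_a, mul_b, map_add, map_mul, conj_conj]
    ring
  have e2 : k.app z = (k.a * z + k.b) / k.den z := rfl
  have e3 : (g * k).app z = ((g * k).a * z + (g * k).b) / (g * k).den z := rfl
  have e4 : g.app (k.app z) = (g.a * k.app z + g.b) / (conj g.b * k.app z + conj g.a) := rfl
  have e5 : conj g.b * k.app z + conj g.a = (g * k).den z / k.den z := by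
    rw [e2, e1]
    field_simp
  rw [e3, e4, e5, e2, div_div_eq_mul_div, mul_a, mul_b]
  congr 1
  field_simp
  simp only [den]
  ring

/-- The homeomorphism of the disc defined by an element of SU(1,1). -/
noncomputable def toHomeo (g : SU) : Disc ≃ₜ Disc where
  toFun z := ⟨g.app z, g.app_norm_lt z.2⟩
  invFun z := ⟨g⁻¹.app z, g⁻¹.app_norm_lt z.2⟩
  left_inv z := by
    apply Subtype.ext
    show g⁻¹.app (g.app z) = z
    rw [← app_mul _ _ z.2.le, inv_mul_cancel, app_one]
  right_inv z := by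
    apply Subtype.ext
    show g.app (g⁻¹.app z) = z
    rw [← app_mul _ _ z.2.le, mul_inv_cancel, app_one]
  continuous_toFun := by
    apply Continuous.subtype_mk
    apply Continuous.div
    · fun_prop
    · fun_prop
    · exact fun z => g.den_ne z.2.le
  continuous_invFun := by
    apply Continuous.subtype_mk
    apply Continuous.div
    · fun_prop
    · fun_prop
    · exact fun z => g⁻¹.den_ne z.2.le

/-- The action of SU(1,1) on the disc by homeomorphisms. -/
noncomputable def act : SU →* (Disc ≃ₜ Disc) where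
  toFun := toHomeo
  map_one' := by
    apply Homeomorph.ext
    intro z
    apply Subtype.ext
    exact app_one z
  map_mul' g k := by
    apply Homeomorph.ext
    intro z
    apply Subtype.ext
    exact app_mul g k z.2.le

@[simp] theorem act_coe (g : SU) (z : Disc) : ((act g z : Disc) : ℂ) = g.app z := rfl

end SU

/-- Rotation of the hyperbolic plane about `z` through the angle `t`. -/
noncomputable def rot (z : Disc) (t : ℝ) : SU where
  a := Real.cos (t / 2) + I * Real.sin (t / 2) * ((1 + ‖(z : ℂ)‖ ^ 2) / (1 - ‖(z : ℂ)‖ ^ 2) : ℝ)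
  b := -2 * I * Real.sin (t / 2) * (z : ℂ) / ((1 - ‖(z : ℂ)‖ ^ 2 : ℝ) : ℂ)
  h := by
    have hz : (1 - ‖(z : ℂ)‖ ^ 2) ≠ 0 := by
      have := z.2
      have h0 := norm_nonneg (z : ℂ)
      nlinarith
    have h1 : normSq (-2 * I * Real.sin (t / 2) * (z : ℂ) / ((1 - ‖(z : ℂ)‖ ^ 2 : ℝ) : ℂ)) =
        4 * Real.sin (t / 2) ^ 2 * ‖(z : ℂ)‖ ^ 2 / (1 - ‖(z : ℂ)‖ ^ 2) ^ 2 := by
      rw [map_div₀, map_mul, map_mul, map_mul, normSq_neg, normSq_ofReal, normSq_I,
        normSq_ofReal, normSq_eq_norm_sq (z : ℂ)]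
      have : normSq (2 : ℂ) = 4 := by
        rw [show (2 : ℂ) = ((2 : ℝ) : ℂ) by norm_num, normSq_ofReal]
        norm_num
      rw [this]
      ring
    have h2 : normSq (Real.cos (t / 2) + I * Real.sin (t / 2) *
        ((1 + ‖(z : ℂ)‖ ^ 2) / (1 - ‖(z : ℂ)‖ ^ 2) : ℝ)) =
        Real.cos (t / 2) ^ 2 + Real.sin (t / 2) ^ 2 *
          ((1 + ‖(z : ℂ)‖ ^ 2) / (1 - ‖(z : ℂ)‖ ^ 2)) ^ 2 := by
      rw [show (Real.cos (t / 2) + I * Real.sin (t / 2) *
        ((1 + ‖(z : ℂ)‖ ^ 2) / (1 - ‖(z : ℂ)‖ ^ 2) : ℝ) : ℂ) =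
        (Real.cos (t / 2) : ℂ) + ((Real.sin (t / 2) *
          ((1 + ‖(z : ℂ)‖ ^ 2) / (1 - ‖(z : ℂ)‖ ^ 2)) : ℝ) : ℂ) * I by push_cast; ring,
        normSq_add_mul_I]
      ring
    rw [h1, h2]
    have h3 := Real.sin_sq_add_cos_sq (t / 2)
    field_simp
    linear_combination ((1 - ‖(z : ℂ)‖ ^ 2) ^ 2) * h3

/-- The point pair invariant `sinh (d/2) ^ 2`. -/
noncomputable def sh (z w : ℂ) : ℝ := ‖z - w‖ ^ 2 / ((1 - ‖z‖ ^ 2) * (1 - ‖w‖ ^ 2))

/-- The hyperbolic distance (curvature -1). -/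
noncomputable def hd (z w : ℂ) : ℝ := 2 * Real.arsinh (Real.sqrt (sh z w))

open Classical in
/-- A homeomorphism of the disc as a function on the plane (identity outside the disc). -/
noncomputable def ext (e : Disc ≃ₜ Disc) (z : ℂ) : ℂ := if h : ‖z‖ < 1 then (e ⟨z, h⟩ : ℂ) else z

/-- `e` is `K`-quasiconformal: absolutely continuous on almost all horizontal and vertical segments
of each closed rectangle in the disc, differentiable almost everywhere with `|Df|^2 ≤ K det Df`. -/
structure IsQC (K : ℝ) (e : Disc ≃ₜ Disc) : Prop where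
  acl_h : ∀ a b c d : ℝ, a ≤ b → c ≤ d → (∀ x ∈ Icc a b, ∀ y ∈ Icc c d, ‖(⟨x, y⟩ : ℂ)‖ < 1) →
    ∀ᵐ y : ℝ, y ∈ Icc c d → AbsolutelyContinuousOnInterval (fun x : ℝ => ext e ⟨x, y⟩) a b
  acl_v : ∀ a b c d : ℝ, a ≤ b → c ≤ d → (∀ x ∈ Icc a b, ∀ y ∈ Icc c d, ‖(⟨x, y⟩ : ℂ)‖ < 1) →
    ∀ᵐ x : ℝ, x ∈ Icc a b → AbsolutelyContinuousOnInterval (fun y : ℝ => ext e ⟨x, y⟩) c d
  dil : ∀ᵐ z : ℂ, ‖z‖ < 1 → DifferentiableAt ℝ (ext e) z ∧
    ‖fderiv ℝ (ext e) z‖ ^ 2 ≤ K * (fderiv ℝ (ext e) z).det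

/-- `e` extends to the closed disc by the identity on the unit circle. -/
def IdBdry (e : Disc ≃ₜ Disc) : Prop :=
  ∀ u : ℂ, ‖u‖ = 1 → Filter.Tendsto (ext e) (𝓝[Metric.ball 0 1] u) (𝓝 u)

/-- `Γ` is the group of a closed hyperbolic surface `D / Γ`: Moebius maps (orientation preserving
isometries) acting freely, properly discontinuously and cocompactly. -/
structure IsSurfaceGroup (Γ : Subgroup (Disc ≃ₜ Disc)) : Prop where
  mob : ∀ g ∈ Γ, ∃ m : SU, g = SU.act m
  free : ∀ g ∈ Γ, (∃ z, g z = z) → g = 1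
  disc : ∀ K : Set Disc, IsCompact K → {g | g ∈ Γ ∧ (g '' K ∩ K).Nonempty}.Finite
  cocompact : ∃ K : Set Disc, IsCompact K ∧ ∀ z, ∃ g ∈ Γ, g z ∈ K

/-- The surface `D / Γ` is `K`-quasiconformally homogeneous: for all `x`, `y` there is a
`K`-quasiconformal homeomorphism of `D / Γ`, i.e. a `K`-quasiconformal homeomorphism `F` of `D`
normalizing `Γ`, which maps the orbit of `x` to the orbit of `y` (`F` chosen with `F x = y`). -/
def QCHomog (K : ℝ) (Γ : Subgroup (Disc ≃ₜ Disc)) : Prop :=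
  ∀ x y : Disc, ∃ F : Disc ≃ₜ Disc, IsQC K F ∧ (∀ g, g ∈ Γ ↔ F * g * F⁻¹ ∈ Γ) ∧ F x = y

/-- `K(S)` for `S = D / Γ`. -/
noncomputable def KS (Γ : Subgroup (Disc ≃ₜ Disc)) : ℝ := sInf {K : ℝ | 1 ≤ K ∧ QCHomog K Γ}

/-- `cosh` of the longest side of the hyperbolic (2,3,7) triangle: `cot (π/3) cot (π/7)`. -/
noncomputable def CC : ℝ := Real.cos (Real.pi / 7) / (Real.sqrt 3 * Real.sin (Real.pi / 7))

/-- The vertex of angle `π/3`: the point `v > 0` with `cosh d(0, v) = CC`. -/
noncomputable def vv : ℝ := Real.sqrt ((CC - 1) / (CC + 1))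

theorem pi7_pos : 0 < Real.sin (Real.pi / 7) :=
  Real.sin_pos_of_pos_of_lt_pi (by positivity) (by linarith [Real.pi_pos])

theorem one_lt_CC : 1 < CC := by
  have h1 := pi7_pos
  have h3 : 0 < Real.sqrt 3 := Real.sqrt_pos.mpr (by norm_num)
  unfold CC
  rw [lt_div_iff₀ (mul_pos h3 h1), one_mul]
  -- √3 sin(π/7) < cos(π/7), i.e. tan(π/7) < 1/√3 = tan(π/6)
  have hs : Real.sin (Real.pi / 7) < Real.sin (Real.pi / 6) :=
    Real.sin_lt_sin_of_lt_of_le_pi_div_two (by linarith [Real.pi_pos]) (by linarith [Real.pi_pos])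
      (by linarith [Real.pi_pos])
  have hc : Real.cos (Real.pi / 6) < Real.cos (Real.pi / 7) :=
    Real.cos_lt_cos_of_nonneg_of_le_pi (by positivity) (by linarith [Real.pi_pos])
      (by linarith [Real.pi_pos])
  rw [Real.sin_pi_div_six] at hs
  rw [Real.cos_pi_div_six] at hc
  nlinarith

theorem vv_pos : 0 < vv := by
  have h := one_lt_CC
  exact Real.sqrt_pos.mpr (div_pos (by linarith) (by linarith))

theorem vv_sq : vv ^ 2 = (CC - 1) / (CC + 1) := by
  have h := one_lt_CC
  exact Real.sq_sqrt (div_nonneg (by linarith) (by linarith))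

theorem vv_lt_one : vv < 1 := by
  have h := one_lt_CC
  have h0 := vv_pos
  have h1 := vv_sq
  have h2 : (CC - 1) / (CC + 1) < 1 := by
    rw [div_lt_one (by linarith)]
    linarith
  nlinarith

/-- The vertex `v` as a point of the disc. -/
noncomputable def v0 : Disc := ⟨(vv : ℂ), by
  rw [Complex.norm_real, Real.norm_eq_abs, abs_of_pos vv_pos]
  exact vv_lt_one⟩

/-- The centre of the disc: the vertex of angle `π/7`. -/
def o0 : Disc := ⟨0, by simp⟩

/-- The rotations generating the triangle group. -/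
noncomputable def gA : SU := rot o0 (2 * Real.pi / 7)
noncomputable def gB : SU := rot v0 (2 * Real.pi / 3)

/-- The (2,3,7) triangle group: generated by the rotations through `2π/7` about `0` and `2π/3`
about `v` (vertices of a hyperbolic triangle with angles `π/2, π/3, π/7`). -/
noncomputable def Delta : Subgroup (Disc ≃ₜ Disc) :=
  Subgroup.closure {SU.act gA, SU.act gB}

/-- The diameter of the orbifold `O_min = D / Delta`. -/
noncomputable def diamO : ℝ :=
  sSup {r : ℝ | ∃ x y : Disc, r = sInf {t : ℝ | ∃ g ∈ Delta, t = hd x (g y)}}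

/-- The constant `Kbar_aut`: the infimum of the `K ≥ 1` for which some `K`-quasiconformal
homeomorphism of the disc extending to the identity on the circle moves some point a hyperbolic
distance at least `diamO`. -/
noncomputable def Kbar : ℝ :=
  sInf {K : ℝ | 1 ≤ K ∧ ∃ e : Disc ≃ₜ Disc, IsQC K e ∧ IdBdry e ∧ ∃ z : Disc, diamO ≤ hd z (e z)}

end Pool.Agent.Lib.H11Q
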