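import Pool.Agent.Lib.H11Q.D1

/-!
# H11Q module E (section 6 of PROOF.md): auxiliary definitions

`PP n κ (y + κ²/y) = y^n + (κ²/y)^n` (Dickson polynomials).  `EPd`, `ENd`, `EDd`, `EWd` are the derivatives in `Z` of
`PP`, `NN`, `DD`, `WW`.  The ellipse `|Z-2κ| + |Z+2κ| < 2 + 2κ²` is written as a quadratic inequality.
-/

set_option autoImplicit false

namespace Pool.Agent.Lib.H11Q

open Complex Set Metric

/-- The derivative of `PP n κ`. -/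
noncomputable def EPd : ℕ → ℝ → ℂ → ℂ
  | 0, _, _ => 0
  | 1, _, _ => 1
  | (n + 2), κ, Z => PP (n + 1) κ Z + Z * EPd (n + 1) κ Z - (κ : ℂ) ^ 2 * EPd n κ Z

noncomputable def ENd (κ : ℝ) (Z : ℂ) : ℂ :=
  ∑' n : ℕ, (κ : ℂ) ^ (2 * n * (2 * n + 1)) * EPd (2 * n + 1) κ Z

noncomputable def EDd (κ : ℝ) (Z : ℂ) : ℂ :=
  ∑' n : ℕ, (κ : ℂ) ^ ((2 * n + 2) * (2 * n + 1)) * EPd (2 * n + 2) κ Z

/-- The derivative of `WW κ`. -/
noncomputable def EWd (κ : ℝ) (Z : ℂ) : ℂ :=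
  (ENd κ Z * DD κ Z - NN κ Z * EDd κ Z) / DD κ Z ^ 2

/-- The quadratic form of the ellipse. -/
noncomputable def EEq (κ : ℝ) (Z : ℂ) : ℝ := (Z.re / (1 + κ ^ 2)) ^ 2 + (Z.im / (1 - κ ^ 2)) ^ 2

/-- The parameter domain of the joint continuity statements. -/
def Edom : Set (ℝ × ℂ) := Icc (0 : ℝ) (1 / 10) ×ˢ closedBall (0 : ℂ) (5 / 4)

end Pool.Agent.Lib.H11Q
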