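import Pool.Agent.Lib.H11Q.E00

/-! # H11Q chunk E01 (S): bounds and derivatives of the polynomials `PP`.

PROOFS. All by two step induction on `n` (`Nat.twoStepInduction` or strong induction; unfold `PP`, `EPd` at `n+2`
with `show` / `simp only [PP]`), `r = 63/50`.

* `E01_bound`: `‖Z P_{n+1} - κ² P_n‖ ≤ (5/4)·2r^{n+1} + (1/100)·2r^n = 2 r^n ((5/4) r + 1/100)` and
  `(5/4) r + 1/100 = 1.585 ≤ r² = 1.5876`.
* `E01_bound_d`: `‖P_{n+1}‖ + (5/4)·2(n+1) r^{n+1} + (1/100)·2n r^n ≤ 2r^{n+1} + 2(n+1) r^n((5/4) r + 1/100)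
  ≤ 2 r^{n+2} + 2(n+1) r^{n+2} = 2(n+2) r^{n+2}`.
* `E01_hasDerivAt`: product rule.  `E01_cont`, `E01_cont_d`: joint continuity in `(κ, Z)`. -/

set_option autoImplicit false

namespace Pool.Agent.Lib.H11Q

open Complex

theorem E01_sq {κ : ℝ} (h0 : 0 ≤ κ) (h1 : κ ≤ 1 / 10) : ‖(κ : ℂ) ^ 2‖ ≤ 1 / 100 := by
  rw [norm_pow, Complex.norm_real, Real.norm_eq_abs, abs_of_nonneg h0]
  nlinarith

theorem E01_bound {κ : ℝ} (h0 : 0 ≤ κ) (h1 : κ ≤ 1 / 10) {Z : ℂ} (hZ : ‖Z‖ ≤ 5 / 4) (n : ℕ) :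
    ‖PP n κ Z‖ ≤ 2 * (63 / 50 : ℝ) ^ n := by
  induction n using Nat.twoStepInduction with
  | zero => simp [PP]
  | one =>
    show ‖Z‖ ≤ 2 * (63 / 50 : ℝ) ^ 1
    rw [pow_one]
    linarith
  | more n ih0 ih1 =>
    show ‖Z * PP (n + 1) κ Z - (κ : ℂ) ^ 2 * PP n κ Z‖ ≤ _
    have hR : 0 < (63 / 50 : ℝ) ^ n := by positivity
    have h2 : ‖Z * PP (n + 1) κ Z‖ ≤ 5 / 4 * (2 * (63 / 50 : ℝ) ^ (n + 1)) := by
      rw [norm_mul]
      exact mul_le_mul hZ ih1 (norm_nonneg _) (by norm_num)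
    have h3 : ‖(κ : ℂ) ^ 2 * PP n κ Z‖ ≤ 1 / 100 * (2 * (63 / 50 : ℝ) ^ n) := by
      rw [norm_mul]
      exact mul_le_mul (E01_sq h0 h1) ih0 (norm_nonneg _) (by norm_num)
    refine (norm_sub_le _ _).trans ((add_le_add h2 h3).trans ?_)
    rw [pow_succ, show n + 2 = n + 1 + 1 from rfl, pow_succ, pow_succ]
    nlinarith

theorem E01_bound_d {κ : ℝ} (h0 : 0 ≤ κ) (h1 : κ ≤ 1 / 10) {Z : ℂ} (hZ : ‖Z‖ ≤ 5 / 4) (n : ℕ) :
    ‖EPd n κ Z‖ ≤ 2 * n * (63 / 50 : ℝ) ^ n := by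
  induction n using Nat.twoStepInduction with
  | zero => simp [EPd]
  | one =>
    show ‖(1 : ℂ)‖ ≤ 2 * ((1 : ℕ) : ℝ) * (63 / 50 : ℝ) ^ 1
    rw [norm_one]
    norm_num
  | more n ih0 ih1 =>
    show ‖PP (n + 1) κ Z + Z * EPd (n + 1) κ Z - (κ : ℂ) ^ 2 * EPd n κ Z‖ ≤ _
    have hR : 0 < (63 / 50 : ℝ) ^ n := by positivity
    have hn : (0 : ℝ) ≤ n := Nat.cast_nonneg n
    have hnR : 0 ≤ (n : ℝ) * (63 / 50 : ℝ) ^ n := by positivity
    have h2 : ‖Z * EPd (n + 1) κ Z‖ ≤ 5 / 4 * (2 * ((n + 1 : ℕ) : ℝ) * (63 / 50 : ℝ) ^ (n + 1)) := by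
      rw [norm_mul]
      exact mul_le_mul hZ ih1 (norm_nonneg _) (by norm_num)
    have h3 : ‖(κ : ℂ) ^ 2 * EPd n κ Z‖ ≤ 1 / 100 * (2 * n * (63 / 50 : ℝ) ^ n) := by
      rw [norm_mul]
      exact mul_le_mul (E01_sq h0 h1) ih0 (norm_nonneg _) (by norm_num)
    have h4 := E01_bound h0 h1 hZ (n + 1)
    have h5 : ‖PP (n + 1) κ Z + Z * EPd (n + 1) κ Z‖ ≤ 2 * (63 / 50 : ℝ) ^ (n + 1) +
        5 / 4 * (2 * ((n + 1 : ℕ) : ℝ) * (63 / 50 : ℝ) ^ (n + 1)) :=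
      (norm_add_le _ _).trans (add_le_add h4 h2)
    refine (norm_sub_le _ _).trans ((add_le_add h5 h3).trans ?_)
    rw [pow_succ, show n + 2 = n + 1 + 1 from rfl, pow_succ, pow_succ]
    push_cast
    nlinarith

theorem E01_hasDerivAt (κ : ℝ) (n : ℕ) (Z : ℂ) : HasDerivAt (PP n κ) (EPd n κ Z) Z := by
  induction n using Nat.twoStepInduction with
  | zero => exact hasDerivAt_const Z (2 : ℂ)
  | one => exact hasDerivAt_id Z
  | more n ih0 ih1 =>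
    have h2 := ((hasDerivAt_id Z).mul ih1).sub (ih0.const_mul ((κ : ℂ) ^ 2))
    have h3 : (1 : ℂ) * PP (n + 1) κ Z + id Z * EPd (n + 1) κ Z - (κ : ℂ) ^ 2 * EPd n κ Z = EPd (n + 2) κ Z := by
      show _ = PP (n + 1) κ Z + Z * EPd (n + 1) κ Z - (κ : ℂ) ^ 2 * EPd n κ Z
      rw [one_mul]
      rfl
    rw [h3] at h2
    exact h2

theorem E01_cont (n : ℕ) : Continuous (fun p : ℝ × ℂ => PP n p.1 p.2) := by
  induction n using Nat.twoStepInduction with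
  | zero => exact continuous_const
  | one => exact continuous_snd
  | more n ih0 ih1 =>
    have hk : Continuous fun p : ℝ × ℂ => (p.1 : ℂ) ^ 2 := (Complex.continuous_ofReal.comp continuous_fst).pow 2
    exact (continuous_snd.mul ih1).sub (hk.mul ih0)

theorem E01_cont_d (n : ℕ) : Continuous (fun p : ℝ × ℂ => EPd n p.1 p.2) := by
  induction n using Nat.twoStepInduction with
  | zero => exact continuous_const
  | one => exact continuous_const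
  | more n ih0 ih1 =>
    have hk : Continuous fun p : ℝ × ℂ => (p.1 : ℂ) ^ 2 := (Complex.continuous_ofReal.comp continuous_fst).pow 2
    exact ((E01_cont (n + 1)).add (continuous_snd.mul ih1)).sub (hk.mul ih0)

end Pool.Agent.Lib.H11Q
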