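import Pool.Agent.Lib.H11Q.E00

/-! # H11Q chunk E02 (S): values and symmetries of the polynomials `PP`.

PROOFS. Two step induction on `n`, unfolding `PP`.

* `E02_val`: `P_{n+2} = (y + q)(y^{n+1} + q^{n+1}) - y q (y^n + q^n) = y^{n+2} + q^{n+2}` with `q = κ²/y`, `y q = κ²`.
* `E02_two_mul`: `2κ·2κ^{n+1} - κ²·2κ^n = 2κ^{n+2}`.
* `E02_neg`, `E02_conj`: induction. -/

set_option autoImplicit false

namespace Pool.Agent.Lib.H11Q

open Complex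
open scoped ComplexConjugate

theorem E02_val (κ : ℝ) (n : ℕ) {y : ℂ} (hy : y ≠ 0) :
    PP n κ (y + (κ : ℂ) ^ 2 / y) = y ^ n + ((κ : ℂ) ^ 2 / y) ^ n := by
  induction n using Nat.twoStepInduction with
  | zero =>
    show (2 : ℂ) = _
    norm_num
  | one =>
    show y + (κ : ℂ) ^ 2 / y = _
    rw [pow_one, pow_one]
  | more n ih0 ih1 =>
    show (y + (κ : ℂ) ^ 2 / y) * PP (n + 1) κ (y + (κ : ℂ) ^ 2 / y) - (κ : ℂ) ^ 2 * PP n κ (y + (κ : ℂ) ^ 2 / y) = _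
    rw [ih0, ih1]
    obtain ⟨q, hq⟩ : ∃ q : ℂ, q = (κ : ℂ) ^ 2 / y := ⟨_, rfl⟩
    have hk : (κ : ℂ) ^ 2 = y * q := by
      rw [hq, mul_div_cancel₀ _ hy]
    rw [← hq, hk]
    ring

theorem E02_two_mul (κ : ℝ) (n : ℕ) : PP n κ (2 * κ) = 2 * (κ : ℂ) ^ n := by
  induction n using Nat.twoStepInduction with
  | zero =>
    show (2 : ℂ) = _
    norm_num
  | one =>
    show (2 * κ : ℂ) = _
    rw [pow_one]
  | more n ih0 ih1 =>
    show (2 * κ : ℂ) * PP (n + 1) κ (2 * κ) - (κ : ℂ) ^ 2 * PP n κ (2 * κ) = _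
    rw [ih0, ih1]
    ring

theorem E02_neg (κ : ℝ) (n : ℕ) (Z : ℂ) : PP n κ (-Z) = (-1) ^ n * PP n κ Z := by
  induction n using Nat.twoStepInduction with
  | zero =>
    show (2 : ℂ) = (-1) ^ 0 * 2
    norm_num
  | one =>
    show -Z = (-1) ^ 1 * Z
    ring
  | more n ih0 ih1 =>
    show -Z * PP (n + 1) κ (-Z) - (κ : ℂ) ^ 2 * PP n κ (-Z) =
      (-1) ^ (n + 2) * (Z * PP (n + 1) κ Z - (κ : ℂ) ^ 2 * PP n κ Z)
    rw [ih0, ih1]
    ring

theorem E02_conj (κ : ℝ) (n : ℕ) (Z : ℂ) : PP n κ (conj Z) = conj (PP n κ Z) := by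
  induction n using Nat.twoStepInduction with
  | zero =>
    show (2 : ℂ) = conj 2
    exact (Complex.conj_ofNat 2).symm
  | one => rfl
  | more n ih0 ih1 =>
    show conj Z * PP (n + 1) κ (conj Z) - (κ : ℂ) ^ 2 * PP n κ (conj Z) =
      conj (Z * PP (n + 1) κ Z - (κ : ℂ) ^ 2 * PP n κ Z)
    rw [ih0, ih1, map_sub, map_mul, map_mul, map_pow, Complex.conj_ofReal]

end Pool.Agent.Lib.H11Q
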