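import Pool.Agent.Lib.H11Q.E01

/-! # H11Q chunk E03 (M): summability and size of the four theta series.

PROOFS. `r = 63/50`, `‖κ‖ = κ ≤ 1/10` (bounds of E01).  Terms (`n ≥ 0`):
`‖κ^(2n(2n+1)) P_{2n+1}‖ ≤ (1/10)^(2n(2n+1)) · 2 r^(2n+1)`, and `2n(2n+1) ≥ 6n`, so it is at most
`2r · ((1/10)^6 r^2)^n`, geometric.  For `ENd` there is the factor `2n+1 ≤ 3^n`:
`2 r (3 r² 10⁻⁶)^n`.  `DD`: `(2n+2)(2n+1) ≥ 2 + 10 n`, terms `≤ (1/100)·2r²·((1/10)^10 r²)^n`;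
`EDd`: the factor `2n+2 ≤ 2·2^n`: terms `≤ (1/100)·4r²·(2·(1/10)^10 r²)^n`.

* `E03_NN`: `NN - Z = ∑_{n ≥ 1}` (`Summable.tsum_eq_zero_add`, the term `n = 0` is `Z`), and
  `∑_{n≥1} 2r ((1/10)^6 r²)^n = 2 r³ 10⁻⁶/(1 - r² 10⁻⁶) ≤ 4.01·10⁻⁶ ≤ 1/200000`.
* `E03_ENd`: `∑_{n ≥ 1} 2 r (3 r² 10⁻⁶)^n ≤ 1.3·10⁻⁵ ≤ 1/50000`.
* `E03_DD`: the term `n = 0` is `κ² P_2 = κ² (Z² - 2κ²)`; `∑_{n≥1} (1/100) 2 r² ((1/10)^10 r²)^n ≤ 5.1·10⁻¹² ≤ 10⁻¹¹`.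
* `E03_EDd`: the term `n = 0` is `κ² P_2' = 2κ² Z`; the rest is `≤ 2.1·10⁻¹¹ ≤ 10⁻¹⁰`. -/

set_option autoImplicit false

namespace Pool.Agent.Lib.H11Q

open Complex

theorem e03_summable {f : ℕ → ℂ} {C q : ℝ} (hq0 : 0 ≤ q) (hq1 : q < 1)
    (h : ∀ n, ‖f n‖ ≤ C * q ^ n) : Summable (fun n => ‖f n‖) :=
  Summable.of_nonneg_of_le (fun n => norm_nonneg _) h
    ((summable_geometric_of_lt_one hq0 hq1).mul_left C)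

theorem e03_tail {f : ℕ → ℂ} {C q : ℝ} (hq0 : 0 ≤ q) (hq1 : q < 1)
    (h : ∀ n, ‖f n‖ ≤ C * q ^ n) : ‖∑' n, f n - f 0‖ ≤ C * q / (1 - q) := by
  have hs : Summable f := (e03_summable hq0 hq1 h).of_norm
  have h1 : ∑' n, f n - f 0 = ∑' n, f (n + 1) := by
    rw [hs.tsum_eq_zero_add]
    ring
  rw [h1]
  have h2 : HasSum (fun n : ℕ => C * q ^ (n + 1)) (C * q / (1 - q)) := by
    have h3 := (hasSum_geometric_of_lt_one hq0 hq1).mul_left (C * q)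
    rw [← div_eq_mul_inv] at h3
    refine h3.congr_fun ?_ |> fun h => h
    intro n
    show C * q ^ (n + 1) = C * q * q ^ n
    rw [pow_succ]
    ring
  exact tsum_of_norm_bounded h2 (fun n => h (n + 1))

theorem e03_k {κ : ℝ} (h0 : 0 ≤ κ) (h1 : κ ≤ 1 / 10) {n m : ℕ} (h : n ≤ m) :
    κ ^ m ≤ (1 / 10 : ℝ) ^ n := by
  calc κ ^ m ≤ (1 / 10 : ℝ) ^ m := by gcongr
    _ ≤ (1 / 10 : ℝ) ^ n := pow_le_pow_of_le_one (by norm_num) (by norm_num) h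

theorem e03_nk {κ : ℝ} (h0 : 0 ≤ κ) (m : ℕ) (z : ℂ) : ‖(κ : ℂ) ^ m * z‖ = κ ^ m * ‖z‖ := by
  rw [norm_mul, norm_pow, Complex.norm_real, Real.norm_eq_abs, abs_of_nonneg h0]

theorem e03_tN {κ : ℝ} (h0 : 0 ≤ κ) (h1 : κ ≤ 1 / 10) {Z : ℂ} (hZ : ‖Z‖ ≤ 5 / 4) (n : ℕ) :
    ‖(κ : ℂ) ^ (2 * n * (2 * n + 1)) * PP (2 * n + 1) κ Z‖ ≤
      63 / 25 * ((1 / 10) ^ 6 * (63 / 50 : ℝ) ^ 2) ^ n := by
  rw [e03_nk h0]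
  have hk : κ ^ (2 * n * (2 * n + 1)) ≤ (1 / 10 : ℝ) ^ (6 * n) := by
    refine e03_k h0 h1 ?_
    rcases n with _ | n
    · simp
    · nlinarith
  calc κ ^ (2 * n * (2 * n + 1)) * ‖PP (2 * n + 1) κ Z‖
      ≤ (1 / 10 : ℝ) ^ (6 * n) * (2 * (63 / 50 : ℝ) ^ (2 * n + 1)) :=
        mul_le_mul hk (E01_bound h0 h1 hZ _) (norm_nonneg _) (by positivity)
    _ = 63 / 25 * ((1 / 10) ^ 6 * (63 / 50 : ℝ) ^ 2) ^ n := by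
        rw [mul_pow, ← pow_mul, ← pow_mul, pow_succ]
        ring

theorem e03_tD {κ : ℝ} (h0 : 0 ≤ κ) (h1 : κ ≤ 1 / 10) {Z : ℂ} (hZ : ‖Z‖ ≤ 5 / 4) (n : ℕ) :
    ‖(κ : ℂ) ^ ((2 * n + 2) * (2 * n + 1)) * PP (2 * n + 2) κ Z‖ ≤
      1 / 50 * (63 / 50) ^ 2 * ((1 / 10) ^ 10 * (63 / 50 : ℝ) ^ 2) ^ n := by
  rw [e03_nk h0]
  have hk : κ ^ ((2 * n + 2) * (2 * n + 1)) ≤ (1 / 10 : ℝ) ^ (2 + 10 * n) := by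
    refine e03_k h0 h1 ?_
    rcases n with _ | n
    · simp
    · nlinarith
  calc κ ^ ((2 * n + 2) * (2 * n + 1)) * ‖PP (2 * n + 2) κ Z‖
      ≤ (1 / 10 : ℝ) ^ (2 + 10 * n) * (2 * (63 / 50 : ℝ) ^ (2 * n + 2)) :=
        mul_le_mul hk (E01_bound h0 h1 hZ _) (norm_nonneg _) (by positivity)
    _ = 1 / 50 * (63 / 50) ^ 2 * ((1 / 10) ^ 10 * (63 / 50 : ℝ) ^ 2) ^ n := by
        rw [mul_pow, ← pow_mul, ← pow_mul, pow_add, pow_add]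
        ring

theorem e03_three (n : ℕ) : (2 * (n : ℝ) + 1) ≤ 3 ^ n := by
  induction n with
  | zero => simp
  | succ n ih =>
    push_cast
    rw [pow_succ]
    have : (1 : ℝ) ≤ 3 ^ n := one_le_pow₀ (by norm_num)
    nlinarith

theorem e03_two (n : ℕ) : (2 * (n : ℝ) + 2) ≤ 2 * 2 ^ n := by
  have : n + 1 ≤ 2 ^ n := Nat.lt_two_pow_self
  have h : ((n : ℝ) + 1) ≤ 2 ^ n := by exact_mod_cast this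
  linarith

theorem e03_tNd {κ : ℝ} (h0 : 0 ≤ κ) (h1 : κ ≤ 1 / 10) {Z : ℂ} (hZ : ‖Z‖ ≤ 5 / 4) (n : ℕ) :
    ‖(κ : ℂ) ^ (2 * n * (2 * n + 1)) * EPd (2 * n + 1) κ Z‖ ≤
      63 / 25 * (3 * ((1 / 10) ^ 6 * (63 / 50 : ℝ) ^ 2)) ^ n := by
  rw [e03_nk h0]
  have hk : κ ^ (2 * n * (2 * n + 1)) ≤ (1 / 10 : ℝ) ^ (6 * n) := by
    refine e03_k h0 h1 ?_
    rcases n with _ | n
    · simp
    · nlinarith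
  have hb := E01_bound_d h0 h1 hZ (2 * n + 1)
  have hb' : ‖EPd (2 * n + 1) κ Z‖ ≤ 2 * 3 ^ n * (63 / 50 : ℝ) ^ (2 * n + 1) := by
    refine hb.trans ?_
    push_cast
    have := e03_three n
    gcongr
  calc κ ^ (2 * n * (2 * n + 1)) * ‖EPd (2 * n + 1) κ Z‖
      ≤ (1 / 10 : ℝ) ^ (6 * n) * (2 * 3 ^ n * (63 / 50 : ℝ) ^ (2 * n + 1)) :=
        mul_le_mul hk hb' (norm_nonneg _) (by positivity)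
    _ = 63 / 25 * (3 * ((1 / 10) ^ 6 * (63 / 50 : ℝ) ^ 2)) ^ n := by
        rw [mul_pow, mul_pow, ← pow_mul, ← pow_mul, pow_succ]
        ring

theorem e03_tDd {κ : ℝ} (h0 : 0 ≤ κ) (h1 : κ ≤ 1 / 10) {Z : ℂ} (hZ : ‖Z‖ ≤ 5 / 4) (n : ℕ) :
    ‖(κ : ℂ) ^ ((2 * n + 2) * (2 * n + 1)) * EPd (2 * n + 2) κ Z‖ ≤
      1 / 25 * (63 / 50) ^ 2 * (2 * ((1 / 10) ^ 10 * (63 / 50 : ℝ) ^ 2)) ^ n := by
  rw [e03_nk h0]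
  have hk : κ ^ ((2 * n + 2) * (2 * n + 1)) ≤ (1 / 10 : ℝ) ^ (2 + 10 * n) := by
    refine e03_k h0 h1 ?_
    rcases n with _ | n
    · simp
    · nlinarith
  have hb := E01_bound_d h0 h1 hZ (2 * n + 2)
  have hb' : ‖EPd (2 * n + 2) κ Z‖ ≤ 2 * (2 * 2 ^ n) * (63 / 50 : ℝ) ^ (2 * n + 2) := by
    refine hb.trans ?_
    push_cast
    have := e03_two n
    gcongr
  calc κ ^ ((2 * n + 2) * (2 * n + 1)) * ‖EPd (2 * n + 2) κ Z‖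
      ≤ (1 / 10 : ℝ) ^ (2 + 10 * n) * (2 * (2 * 2 ^ n) * (63 / 50 : ℝ) ^ (2 * n + 2)) :=
        mul_le_mul hk hb' (norm_nonneg _) (by positivity)
    _ = 1 / 25 * (63 / 50) ^ 2 * (2 * ((1 / 10) ^ 10 * (63 / 50 : ℝ) ^ 2)) ^ n := by
        rw [mul_pow, mul_pow, ← pow_mul, ← pow_mul, pow_add, pow_add]
        ring

theorem E03_sum_NN {κ : ℝ} (h0 : 0 ≤ κ) (h1 : κ ≤ 1 / 10) {Z : ℂ} (hZ : ‖Z‖ ≤ 5 / 4) :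
    Summable (fun n : ℕ => ‖(κ : ℂ) ^ (2 * n * (2 * n + 1)) * PP (2 * n + 1) κ Z‖) :=
  e03_summable (by norm_num) (by norm_num) (e03_tN h0 h1 hZ)

theorem E03_sum_DD {κ : ℝ} (h0 : 0 ≤ κ) (h1 : κ ≤ 1 / 10) {Z : ℂ} (hZ : ‖Z‖ ≤ 5 / 4) :
    Summable (fun n : ℕ => ‖(κ : ℂ) ^ ((2 * n + 2) * (2 * n + 1)) * PP (2 * n + 2) κ Z‖) :=
  e03_summable (by norm_num) (by norm_num) (e03_tD h0 h1 hZ)

theorem E03_sum_ENd {κ : ℝ} (h0 : 0 ≤ κ) (h1 : κ ≤ 1 / 10) {Z : ℂ} (hZ : ‖Z‖ ≤ 5 / 4) :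
    Summable (fun n : ℕ => ‖(κ : ℂ) ^ (2 * n * (2 * n + 1)) * EPd (2 * n + 1) κ Z‖) :=
  e03_summable (by norm_num) (by norm_num) (e03_tNd h0 h1 hZ)

theorem E03_sum_EDd {κ : ℝ} (h0 : 0 ≤ κ) (h1 : κ ≤ 1 / 10) {Z : ℂ} (hZ : ‖Z‖ ≤ 5 / 4) :
    Summable (fun n : ℕ => ‖(κ : ℂ) ^ ((2 * n + 2) * (2 * n + 1)) * EPd (2 * n + 2) κ Z‖) :=
  e03_summable (by norm_num) (by norm_num) (e03_tDd h0 h1 hZ)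

theorem E03_NN {κ : ℝ} (h0 : 0 ≤ κ) (h1 : κ ≤ 1 / 10) {Z : ℂ} (hZ : ‖Z‖ ≤ 5 / 4) :
    ‖NN κ Z - Z‖ ≤ 1 / 200000 := by
  have h := e03_tail (by norm_num) (by norm_num) (e03_tN h0 h1 hZ)
  have hz : (κ : ℂ) ^ (2 * 0 * (2 * 0 + 1)) * PP (2 * 0 + 1) κ Z = Z := by simp [PP]
  rw [hz] at h
  refine le_trans h ?_
  norm_num

theorem E03_ENd {κ : ℝ} (h0 : 0 ≤ κ) (h1 : κ ≤ 1 / 10) {Z : ℂ} (hZ : ‖Z‖ ≤ 5 / 4) :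
    ‖ENd κ Z - 1‖ ≤ 1 / 50000 := by
  have h := e03_tail (by norm_num) (by norm_num) (e03_tNd h0 h1 hZ)
  have hz : (κ : ℂ) ^ (2 * 0 * (2 * 0 + 1)) * EPd (2 * 0 + 1) κ Z = 1 := by simp [EPd]
  rw [hz] at h
  refine le_trans h ?_
  norm_num

theorem E03_DD {κ : ℝ} (h0 : 0 ≤ κ) (h1 : κ ≤ 1 / 10) {Z : ℂ} (hZ : ‖Z‖ ≤ 5 / 4) :
    ‖DD κ Z - (1 + (κ : ℂ) ^ 2 * (Z ^ 2 - 2 * (κ : ℂ) ^ 2))‖ ≤ 1 / 10 ^ 11 := by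
  have h := e03_tail (by norm_num) (by norm_num) (e03_tD h0 h1 hZ)
  have hz : (κ : ℂ) ^ ((2 * 0 + 2) * (2 * 0 + 1)) * PP (2 * 0 + 2) κ Z =
      (κ : ℂ) ^ 2 * (Z ^ 2 - 2 * (κ : ℂ) ^ 2) := by
    simp only [mul_zero, zero_add, mul_one, PP]
    ring
  rw [hz] at h
  have he : DD κ Z - (1 + (κ : ℂ) ^ 2 * (Z ^ 2 - 2 * (κ : ℂ) ^ 2)) =
      ∑' n : ℕ, (κ : ℂ) ^ ((2 * n + 2) * (2 * n + 1)) * PP (2 * n + 2) κ Z -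
        (κ : ℂ) ^ 2 * (Z ^ 2 - 2 * (κ : ℂ) ^ 2) := by
    unfold DD
    ring
  rw [he]
  refine le_trans h ?_
  norm_num

theorem E03_EDd {κ : ℝ} (h0 : 0 ≤ κ) (h1 : κ ≤ 1 / 10) {Z : ℂ} (hZ : ‖Z‖ ≤ 5 / 4) :
    ‖EDd κ Z - 2 * (κ : ℂ) ^ 2 * Z‖ ≤ 1 / 10 ^ 10 := by
  have h := e03_tail (by norm_num) (by norm_num) (e03_tDd h0 h1 hZ)
  have hz : (κ : ℂ) ^ ((2 * 0 + 2) * (2 * 0 + 1)) * EPd (2 * 0 + 2) κ Z =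
      2 * (κ : ℂ) ^ 2 * Z := by
    simp only [mul_zero, zero_add, mul_one, EPd, PP]
    ring
  rw [hz] at h
  refine le_trans h ?_
  norm_num

end Pool.Agent.Lib.H11Q
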