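import Pool.Agent.Lib.H11Q.E03

/-! # H11Q chunk E05 (S/M): joint continuity in `(κ, Z)` of the four theta series.

PROOFS. `continuousOn_tsum` on the set `Edom = Icc 0 (1/10) ×ˢ closedBall 0 (5/4)` (bounds of E01, `E01_cont`, `E01_cont_d`),
with the geometric majorants (`r = 63/50`) `2r ((1/10)^6 r²)^n`, `(1/50) r² ((1/10)^10 r²)^n`,
`2 r ((1/10)^6 · 3 r²)^n` (`2n+1 ≤ 3^n`), `(1/25) r² (2 (1/10)^10 r²)^n` (`2n+2 ≤ 2·2^n`);
`2n(2n+1) ≥ 6n`, `(2n+2)(2n+1) ≥ 2 + 10n`. -/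

set_option autoImplicit false

namespace Pool.Agent.Lib.H11Q

open Complex Set Metric

theorem e05_mem {p : ℝ × ℂ} (hp : p ∈ Edom) : 0 ≤ p.1 ∧ p.1 ≤ 1 / 10 ∧ ‖p.2‖ ≤ 5 / 4 := by
  obtain ⟨h1, h2⟩ := hp
  refine ⟨h1.1, h1.2, ?_⟩
  simpa using h2

theorem e05_ct (m : ℕ) {f : ℝ × ℂ → ℂ} (hf : Continuous f) :
    ContinuousOn (fun p : ℝ × ℂ => (p.1 : ℂ) ^ m * f p) Edom :=
  (((Complex.continuous_ofReal.comp continuous_fst).pow m).mul hf).continuousOn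

theorem E05_NN : ContinuousOn (fun p : ℝ × ℂ => NN p.1 p.2) Edom := by
  unfold NN
  exact continuousOn_tsum (fun n => e05_ct _ (E01_cont (2 * n + 1)))
    ((summable_geometric_of_lt_one (r := ((1 / 10) ^ 6 * (63 / 50 : ℝ) ^ 2)) (by norm_num)
      (by norm_num)).mul_left (63 / 25))
    (fun n p hp => e03_tN (e05_mem hp).1 (e05_mem hp).2.1 (e05_mem hp).2.2 n)

theorem E05_DD : ContinuousOn (fun p : ℝ × ℂ => DD p.1 p.2) Edom := by
  unfold DD
  refine continuousOn_const.add ?_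
  exact continuousOn_tsum (fun n => e05_ct _ (E01_cont (2 * n + 2)))
    ((summable_geometric_of_lt_one (r := ((1 / 10) ^ 10 * (63 / 50 : ℝ) ^ 2)) (by norm_num)
      (by norm_num)).mul_left (1 / 50 * (63 / 50) ^ 2))
    (fun n p hp => e03_tD (e05_mem hp).1 (e05_mem hp).2.1 (e05_mem hp).2.2 n)

theorem E05_ENd : ContinuousOn (fun p : ℝ × ℂ => ENd p.1 p.2) Edom := by
  unfold ENd
  exact continuousOn_tsum (fun n => e05_ct _ (E01_cont_d (2 * n + 1)))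
    ((summable_geometric_of_lt_one (r := 3 * ((1 / 10) ^ 6 * (63 / 50 : ℝ) ^ 2)) (by norm_num)
      (by norm_num)).mul_left (63 / 25))
    (fun n p hp => e03_tNd (e05_mem hp).1 (e05_mem hp).2.1 (e05_mem hp).2.2 n)

theorem E05_EDd : ContinuousOn (fun p : ℝ × ℂ => EDd p.1 p.2) Edom := by
  unfold EDd
  exact continuousOn_tsum (fun n => e05_ct _ (E01_cont_d (2 * n + 2)))
    ((summable_geometric_of_lt_one (r := 2 * ((1 / 10) ^ 10 * (63 / 50 : ℝ) ^ 2)) (by norm_num)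
      (by norm_num)).mul_left (1 / 25 * (63 / 50) ^ 2))
    (fun n p hp => e03_tDd (e05_mem hp).1 (e05_mem hp).2.1 (e05_mem hp).2.2 n)

end Pool.Agent.Lib.H11Q
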