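import Pool.Agent.Lib.H11Q.E02
import Pool.Agent.Lib.H11Q.E03

/-! # H11Q chunk E06 (M): `|N| = |D|` on the boundary of the ellipse.

PROOFS.
* `E06_param`: for `0 ≤ κ ≤ 1/10` and `EEq κ Z = 1` take `y = Z.re/(1+κ²) + i Z.im/(1-κ²)`: `‖y‖ = 1` and
  `y + κ² / y = y + κ² conj y = Z` (`1/y = conj y`).
* `E06_conj`: for `‖y‖ = 1`, `Z = y + κ²/y = y + κ² conj y` (so `‖Z‖ ≤ 1.01`).  By `E02_val` and `conj y = y⁻¹`:
  `NN = ∑_{n≥0} [κ^(4n²+2n) y^(2n+1) + κ^(4n²+6n+2) y^(-(2n+1))]` (indeed `κ^(2n(2n+1)) (κ²/y)^(2n+1) = κ^(4n²+6n+2) y^(-(2n+1))`),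
  `conj DD = 1 + ∑_{n≥0} [κ^(4n²+6n+2) y^(-(2n+2)) + κ^(4n²+10n+6) y^(2n+2)]`
  (`(2n+2)(2n+1) = 4n²+6n+2`, `4n²+6n+2 + 2(2n+2) = 4n²+10n+6`), so
  `y·conj DD = y + ∑_{n≥0} κ^(4(n+1)²+2(n+1)) y^(2(n+1)+1) + ∑_{n≥0} κ^(4n²+6n+2) y^(-(2n+1))`,
  because `4(n+1)² + 2(n+1) = 4n²+10n+6`.  The first two pieces are `∑_{n≥0} κ^(4n²+2n) y^(2n+1)`
  (`Summable.tsum_eq_zero_add`).  So `NN κ Z = y * conj (DD κ Z)`.  All the series are absolutely summable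
  (majorants `(κ^2)^n`, say, since `4n²+2n ≥ 2n`), so they can be split (`Summable.tsum_add`).
* `E06_norm`: take norms.
* `E06_at_two`: `E02_two_mul`; exponents `2n(2n+1) + (2n+1) = (2n+1)²`, `(2n+2)(2n+1) + (2n+2) = 4(n+1)²`.
  (No convergence is needed: equality of the terms; `Complex.ofReal_tsum`, `tsum_mul_left`.) -/

set_option autoImplicit false

namespace Pool.Agent.Lib.H11Q

open Complex
open scoped ComplexConjugate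

theorem e06_inv {y : ℂ} (hy : ‖y‖ = 1) : y⁻¹ = conj y := by
  rw [Complex.inv_def, Complex.normSq_eq_norm_sq, hy]
  simp

theorem E06_param {κ : ℝ} (h0 : 0 ≤ κ) (h1 : κ ≤ 1 / 10) {Z : ℂ} (hZ : EEq κ Z = 1) :
    ∃ y : ℂ, ‖y‖ = 1 ∧ Z = y + (κ : ℂ) ^ 2 / y := by
  have hp : 0 < 1 + κ ^ 2 := by positivity
  have hm : 0 < 1 - κ ^ 2 := by nlinarith
  have hy : ‖(⟨Z.re / (1 + κ ^ 2), Z.im / (1 - κ ^ 2)⟩ : ℂ)‖ = 1 := by
    have h2 : ‖(⟨Z.re / (1 + κ ^ 2), Z.im / (1 - κ ^ 2)⟩ : ℂ)‖ ^ 2 = 1 := by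
      rw [← Complex.normSq_eq_norm_sq, Complex.normSq_mk]
      unfold EEq at hZ
      linarith
    have h3 : (0 : ℝ) ≤ ‖(⟨Z.re / (1 + κ ^ 2), Z.im / (1 - κ ^ 2)⟩ : ℂ)‖ := norm_nonneg _
    nlinarith
  refine ⟨⟨Z.re / (1 + κ ^ 2), Z.im / (1 - κ ^ 2)⟩, hy, ?_⟩
  rw [div_eq_mul_inv ((κ : ℂ) ^ 2), e06_inv hy]
  rw [← Complex.ofReal_pow]
  apply Complex.ext
  · simp only [Complex.add_re, Complex.mul_re, Complex.ofReal_re, Complex.conj_re, Complex.ofReal_im,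
      Complex.conj_im]
    field_simp
    ring
  · simp only [Complex.add_im, Complex.mul_im, Complex.ofReal_re, Complex.conj_re, Complex.ofReal_im,
      Complex.conj_im]
    field_simp
    ring

theorem e06_pow {κ : ℝ} (h0 : 0 ≤ κ) (h1 : κ ≤ 1 / 10) {n m : ℕ} (h : n ≤ m) :
    κ ^ m ≤ (1 / 10 : ℝ) ^ n := by
  calc κ ^ m ≤ (1 / 10 : ℝ) ^ m := by gcongr
    _ ≤ (1 / 10 : ℝ) ^ n := pow_le_pow_of_le_one (by norm_num) (by norm_num) h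

theorem e06_sum {κ : ℝ} (h0 : 0 ≤ κ) (h1 : κ ≤ 1 / 10) {m : ℕ → ℕ} (hm : ∀ n, n ≤ m n)
    {u : ℕ → ℂ} (hu : ∀ n, ‖u n‖ = 1) : Summable (fun n => (κ : ℂ) ^ m n * u n) := by
  refine Summable.of_norm_bounded
    (summable_geometric_of_lt_one (by norm_num : (0 : ℝ) ≤ 1 / 10) (by norm_num)) (fun n => ?_)
  rw [norm_mul, hu n, mul_one, norm_pow, Complex.norm_real, Real.norm_eq_abs, abs_of_nonneg h0]
  exact e06_pow h0 h1 (hm n)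

theorem E06_conj {κ : ℝ} (h0 : 0 ≤ κ) (h1 : κ ≤ 1 / 10) {y : ℂ} (hy : ‖y‖ = 1) :
    NN κ (y + (κ : ℂ) ^ 2 / y) = y * conj (DD κ (y + (κ : ℂ) ^ 2 / y)) := by
  have hy0 : y ≠ 0 := by
    intro h
    rw [h, norm_zero] at hy
    norm_num at hy
  have hinv := e06_inv hy
  have hny : ‖y⁻¹‖ = 1 := by rw [norm_inv, hy, inv_one]
  have hA : Summable (fun n : ℕ => (κ : ℂ) ^ (2 * n * (2 * n + 1)) * y ^ (2 * n + 1)) :=
    e06_sum h0 h1 (m := fun n => 2 * n * (2 * n + 1)) (fun n => by show n ≤ 2 * n * (2 * n + 1); nlinarith)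
      (fun n => by rw [norm_pow, hy, one_pow])
  have hB : Summable (fun n : ℕ => (κ : ℂ) ^ ((2 * n + 2) * (2 * n + 1)) * y⁻¹ ^ (2 * n + 1)) :=
    e06_sum h0 h1 (m := fun n => (2 * n + 2) * (2 * n + 1))
      (fun n => by show n ≤ (2 * n + 2) * (2 * n + 1); nlinarith)
      (fun n => by rw [norm_pow, hny, one_pow])
  have hN : NN κ (y + (κ : ℂ) ^ 2 / y) = ∑' n : ℕ, (κ : ℂ) ^ (2 * n * (2 * n + 1)) * y ^ (2 * n + 1) +
      ∑' n : ℕ, (κ : ℂ) ^ ((2 * n + 2) * (2 * n + 1)) * y⁻¹ ^ (2 * n + 1) := by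
    rw [← hA.tsum_add hB]
    unfold NN
    refine tsum_congr (fun n => ?_)
    rw [E02_val κ _ hy0, mul_add, div_eq_mul_inv, mul_pow, ← pow_mul, ← mul_assoc, ← pow_add]
    congr 3
    ring
  have hA' := hA.tsum_eq_zero_add
  have hD : y * conj (DD κ (y + (κ : ℂ) ^ 2 / y)) = y +
      (∑' n : ℕ, (κ : ℂ) ^ ((2 * n + 2) * (2 * n + 1)) * y⁻¹ ^ (2 * n + 1) +
      ∑' n : ℕ, (κ : ℂ) ^ (2 * (n + 1) * (2 * (n + 1) + 1)) * y ^ (2 * (n + 1) + 1)) := by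
    rw [← hB.tsum_add ((summable_nat_add_iff 1).mpr hA)]
    unfold DD
    rw [map_add, map_one, mul_add, mul_one, Complex.conj_tsum, ← tsum_mul_left]
    congr 1
    refine tsum_congr (fun n => ?_)
    rw [E02_val κ _ hy0]
    rw [map_mul, map_add, map_pow, map_pow, map_pow, map_div₀, map_pow, Complex.conj_ofReal, ← hinv]
    have e1 : y * y⁻¹ ^ (2 * n + 2) = y⁻¹ ^ (2 * n + 1) := by
      rw [show 2 * n + 2 = (2 * n + 1) + 1 by ring, pow_succ, mul_comm, mul_assoc, inv_mul_cancel₀ hy0,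
        mul_one]
    have e2 : ((κ : ℂ) ^ 2 / y⁻¹) = (κ : ℂ) ^ 2 * y := by rw [div_inv_eq_mul]
    rw [e2, mul_pow, ← pow_mul]
    calc y * ((κ : ℂ) ^ ((2 * n + 2) * (2 * n + 1)) *
          (y⁻¹ ^ (2 * n + 2) + (κ : ℂ) ^ (2 * (2 * n + 2)) * y ^ (2 * n + 2)))
        = (κ : ℂ) ^ ((2 * n + 2) * (2 * n + 1)) * (y * y⁻¹ ^ (2 * n + 2)) +
          ((κ : ℂ) ^ ((2 * n + 2) * (2 * n + 1)) * (κ : ℂ) ^ (2 * (2 * n + 2))) *
            (y * y ^ (2 * n + 2)) := by ring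
      _ = _ := by
          rw [e1, ← pow_add, ← pow_succ']
          congr 3
          ring
  rw [hN, hD, hA']
  simp only [mul_zero, zero_mul, pow_zero, one_mul, zero_add, pow_one]
  ring

theorem E06_norm {κ : ℝ} (h0 : 0 ≤ κ) (h1 : κ ≤ 1 / 10) {Z : ℂ} (hZ : EEq κ Z = 1) :
    ‖NN κ Z‖ = ‖DD κ Z‖ := by
  obtain ⟨y, hy, rfl⟩ := E06_param h0 h1 hZ
  rw [E06_conj h0 h1 hy, norm_mul, hy, one_mul, Complex.norm_conj]

end Pool.Agent.Lib.H11Q
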