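import Pool.Agent.Lib.H11Q.E02

/-! # H11Q chunk E07 (S): symmetries of the theta series and the values at `Z = 2κ`.

PROOFS.
* `E07_NN_neg` etc.: `E02_neg`, `(-1)^(2n+1) = -1`, `(-1)^(2n+2) = 1`, `tsum_neg`; `E02_conj` and `Complex.conj_tsum`
  (`(Complex.conj_tsum _)` or `ContinuousLinearEquiv.map_tsum conjCLE`).
* `E07_WW_neg`, `E07_WW_conj`: quotient.
* `E07_NN_two`, `E07_DD_two`: `E02_two_mul`; exponents `2n(2n+1) + (2n+1) = (2n+1)²`, `(2n+2)(2n+1) + (2n+2) = 4(n+1)²`.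
  No convergence is needed: equality of the terms, `Complex.ofReal_tsum`, `tsum_mul_left`.
* `E07_aa`: `aa κ` is the real part of the quotient, both are real. -/

set_option autoImplicit false

namespace Pool.Agent.Lib.H11Q

open Complex
open scoped ComplexConjugate

theorem E07_NN_neg (κ : ℝ) (Z : ℂ) : NN κ (-Z) = -NN κ Z := by
  unfold NN
  rw [← tsum_neg]
  refine tsum_congr fun n => ?_
  rw [E02_neg, Odd.neg_one_pow ⟨n, rfl⟩]
  ring


theorem E07_DD_neg (κ : ℝ) (Z : ℂ) : DD κ (-Z) = DD κ Z := by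
  unfold DD
  congr 1
  refine tsum_congr fun n => ?_
  have h : Even (2 * n + 2) := ⟨n + 1, by ring⟩
  rw [E02_neg, h.neg_one_pow, one_mul]


theorem E07_WW_neg (κ : ℝ) (Z : ℂ) : WW κ (-Z) = -WW κ Z := by
  unfold WW
  rw [E07_NN_neg, E07_DD_neg, neg_div]


theorem E07_WW_conj (κ : ℝ) (Z : ℂ) : WW κ (conj Z) = conj (WW κ Z) := by
  have h1 : NN κ (conj Z) = conj (NN κ Z) := by
    unfold NN
    rw [Complex.conj_tsum]
    refine tsum_congr fun n => ?_
    rw [E02_conj, map_mul, map_pow, Complex.conj_ofReal]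
  have h2 : DD κ (conj Z) = conj (DD κ Z) := by
    unfold DD
    rw [map_add, map_one, Complex.conj_tsum]
    congr 1
    refine tsum_congr fun n => ?_
    rw [E02_conj, map_mul, map_pow, Complex.conj_ofReal]
  unfold WW
  rw [h1, h2, map_div₀]


theorem E07_NN_two (κ : ℝ) : NN κ (2 * κ) = ((2 * ∑' n : ℕ, κ ^ (2 * n + 1) ^ 2 : ℝ) : ℂ) := by
  unfold NN
  rw [Complex.ofReal_mul, Complex.ofReal_tsum, ← tsum_mul_left]
  refine tsum_congr fun n => ?_
  rw [E02_two_mul]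
  push_cast
  have h : (2 * n + 1) ^ 2 = 2 * n * (2 * n + 1) + (2 * n + 1) := by ring
  rw [h, pow_add]
  ring


theorem E07_DD_two (κ : ℝ) :
    DD κ (2 * κ) = ((1 + 2 * ∑' n : ℕ, κ ^ (4 * (n + 1) ^ 2) : ℝ) : ℂ) := by
  unfold DD
  rw [Complex.ofReal_add, Complex.ofReal_mul, Complex.ofReal_tsum, ← tsum_mul_left, Complex.ofReal_one]
  congr 1
  refine tsum_congr fun n => ?_
  rw [E02_two_mul]
  push_cast
  have h : 4 * (n + 1) ^ 2 = (2 * n + 2) * (2 * n + 1) + (2 * n + 2) := by ring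
  rw [h, pow_add]
  ring


theorem E07_aa (κ : ℝ) :
    aa κ = (2 * ∑' n : ℕ, κ ^ (2 * n + 1) ^ 2) / (1 + 2 * ∑' n : ℕ, κ ^ (4 * (n + 1) ^ 2)) := by
  unfold aa WW
  rw [E07_NN_two, E07_DD_two, ← Complex.ofReal_div, Complex.ofReal_re]


theorem E07_aa_WW (κ : ℝ) : WW κ (2 * κ) = aa κ := by
  rw [E07_aa]
  unfold WW
  rw [E07_NN_two, E07_DD_two, ← Complex.ofReal_div]


end Pool.Agent.Lib.H11Q
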