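import Pool.Agent.Lib.H11Q.E05
import Pool.Agent.Lib.H11Q.E08

/-! # H11Q chunk E09 (S): joint continuity of `WW` and its derivative, small consequences.

PROOFS.
* `E09_WW`, `E09_EWd`: quotients of the functions of E05, `DD ≠ 0` (`E08_ne`).
* `E09_deriv`: `E08_hasDerivAt .. |>.deriv`.
* `E09_hol`: `E08_hasDerivAt`, `E08_EWd`, `1/16 ≤ 1/2`.
* `E09_cont`, `E09_cont'`: restrict to `ball ⊆ closedBall`; `deriv (WW κ) Z = EWd κ Z` on the open ball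
  (`ContinuousOn.congr`). -/

set_option autoImplicit false

namespace Pool.Agent.Lib.H11Q

open Complex Set Metric

theorem E09_WW : ContinuousOn (fun p : ℝ × ℂ => WW p.1 p.2) Edom := by
  refine ContinuousOn.div E05_NN E05_DD fun p hp => ?_
  obtain ⟨h0, h1, h2⟩ := e05_mem hp
  exact E08_ne h0 h1 h2

theorem E09_EWd : ContinuousOn (fun p : ℝ × ℂ => EWd p.1 p.2) Edom := by
  refine ContinuousOn.div ((E05_ENd.mul E05_DD).sub (E05_NN.mul E05_EDd)) (E05_DD.pow 2) fun p hp => ?_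
  obtain ⟨h0, h1, h2⟩ := e05_mem hp
  exact pow_ne_zero 2 (E08_ne h0 h1 h2)

theorem E09_deriv {κ : ℝ} (h0 : 0 ≤ κ) (h1 : κ ≤ 1 / 10) {Z : ℂ} (hZ : ‖Z‖ < 5 / 4) :
    deriv (WW κ) Z = EWd κ Z := by
  exact (E08_hasDerivAt h0 h1 hZ).deriv

theorem E09_hol {κ : ℝ} (h0 : 0 ≤ κ) (h1 : κ ≤ 1 / 10) {Z : ℂ} (hZ : ‖Z‖ < 5 / 4) :
    DifferentiableAt ℂ (WW κ) Z ∧ ‖deriv (WW κ) Z - 1‖ ≤ 1 / 2 := by
  refine ⟨(E08_hasDerivAt h0 h1 hZ).differentiableAt, ?_⟩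
  rw [E09_deriv h0 h1 hZ]
  exact (E08_EWd h0 h1 hZ.le).trans (by norm_num)

theorem E09_cont : ContinuousOn (fun p : ℝ × ℂ => WW p.1 p.2)
    (Icc 0 (1 / 10) ×ˢ Metric.ball (0 : ℂ) (5 / 4)) := by
  refine E09_WW.mono ?_
  rintro ⟨κ, Z⟩ ⟨h1, h2⟩
  exact ⟨h1, ball_subset_closedBall h2⟩

theorem E09_cont' : ContinuousOn (fun p : ℝ × ℂ => deriv (WW p.1) p.2)
    (Icc 0 (1 / 10) ×ˢ Metric.ball (0 : ℂ) (5 / 4)) := by
  have h : ContinuousOn (fun p : ℝ × ℂ => EWd p.1 p.2) (Icc 0 (1 / 10) ×ˢ Metric.ball (0 : ℂ) (5 / 4)) := by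
    refine E09_EWd.mono ?_
    rintro ⟨κ, Z⟩ ⟨h1, h2⟩
    exact ⟨h1, ball_subset_closedBall h2⟩
  refine h.congr ?_
  rintro ⟨κ, Z⟩ ⟨h1, h2⟩
  have h3 : ‖Z‖ < 5 / 4 := by simpa using h2
  exact E09_deriv h1.1 h1.2 h3

end Pool.Agent.Lib.H11Q
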