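import Pool.Agent.Lib.H11Q.E06
import Pool.Agent.Lib.H11Q.E08

/-! # H11Q chunk E12 (M): `WW` maps the closed ellipse into the closed disc.

PROOFS (`0 ≤ κ ≤ 1/10`).
* `E12_norm`: if `EEq κ Z ≤ 1` then `(Z.re)² + (Z.im)² ≤ (1+κ²)² EEq κ Z ≤ (1+κ²)²`, so `‖Z‖ ≤ 1 + κ² ≤ 6/5`.
* `E12_bdry`: `‖WW‖ = ‖NN‖/‖DD‖ = 1` (`E06_norm`, `E08_ne`).
* `E12_le`: `U = {EEq κ < 1}` is open and bounded, its frontier is contained in `{EEq κ = 1}` (`EEq κ` is continuous: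
  `frontier_lt_subset_eq`), its closure is in `{EEq κ ≤ 1}`, contained in the ball of radius `6/5`, `WW κ` is `DiffContOnCl` on `U`
  (differentiable on a neighbourhood of the closure): `Complex.norm_le_of_forall_mem_frontier_norm_le`.
* `E12_lt`: if `‖WW κ Z₀‖ = 1` for some `Z₀` with `EEq κ Z₀ < 1` then `|WW|` has a maximum at an interior point of the convex
  (preconnected) open set `U`: `Complex.eqOn_of_isPreconnected_of_isMaxOn_norm` gives `WW` constant on `U`, against injectivity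
  (`E08_inj`, `U` contains `0` and `1/2`). -/

set_option autoImplicit false

namespace Pool.Agent.Lib.H11Q

open Complex Set Metric

theorem E12_norm {κ : ℝ} (h0 : 0 ≤ κ) (h1 : κ ≤ 1 / 10) {Z : ℂ} (hZ : EEq κ Z ≤ 1) :
    ‖Z‖ ≤ 1 + κ ^ 2 := by
  have hp : 0 < 1 + κ ^ 2 := by positivity
  have hm : 0 < 1 - κ ^ 2 := by nlinarith
  have h2 : ‖Z‖ ^ 2 ≤ (1 + κ ^ 2) ^ 2 := by
    rw [← Complex.normSq_eq_norm_sq, Complex.normSq_apply]
    unfold EEq at hZ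
    have e1 : Z.re = (Z.re / (1 + κ ^ 2)) * (1 + κ ^ 2) := by field_simp
    have e2 : Z.im = (Z.im / (1 - κ ^ 2)) * (1 - κ ^ 2) := by field_simp
    set a := Z.re / (1 + κ ^ 2) with ha
    set b := Z.im / (1 - κ ^ 2) with hb
    rw [e1, e2]
    have h3 : (1 - κ ^ 2) ^ 2 ≤ (1 + κ ^ 2) ^ 2 := by nlinarith [sq_nonneg κ]
    have h4 : b ^ 2 * (1 - κ ^ 2) ^ 2 ≤ b ^ 2 * (1 + κ ^ 2) ^ 2 := by gcongr
    have h5 : (a ^ 2 + b ^ 2) * (1 + κ ^ 2) ^ 2 ≤ 1 * (1 + κ ^ 2) ^ 2 := by gcongr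
    nlinarith
  exact abs_le_of_sq_le_sq' h2 hp.le |>.2

theorem E12_bdry {κ : ℝ} (h0 : 0 ≤ κ) (h1 : κ ≤ 1 / 10) {Z : ℂ} (hZ : EEq κ Z = 1) :
    ‖WW κ Z‖ = 1 := by
  have h2 := E12_norm h0 h1 hZ.le
  have h3 : ‖Z‖ ≤ 5 / 4 := by nlinarith
  have h4 := E08_ne h0 h1 h3
  unfold WW
  rw [norm_div, E06_norm h0 h1 hZ, div_self (norm_ne_zero_iff.mpr h4)]

theorem e12_cont (κ : ℝ) : Continuous (EEq κ) := by
  unfold EEq
  exact ((Complex.continuous_re.div_const _).pow 2).add ((Complex.continuous_im.div_const _).pow 2)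

theorem e12_diff {κ : ℝ} (h0 : 0 ≤ κ) (h1 : κ ≤ 1 / 10) :
    DifferentiableOn ℂ (WW κ) (closure {Z | EEq κ Z < 1}) := by
  intro Z hZ
  have h : EEq κ Z ≤ 1 := closure_lt_subset_le (e12_cont κ) continuous_const hZ
  have h2 := E12_norm h0 h1 h
  have h3 : ‖Z‖ < 5 / 4 := by nlinarith
  exact (E08_hasDerivAt h0 h1 h3).differentiableAt.differentiableWithinAt

theorem E12_le {κ : ℝ} (h0 : 0 ≤ κ) (h1 : κ ≤ 1 / 10) {Z : ℂ} (hZ : EEq κ Z ≤ 1) :
    ‖WW κ Z‖ ≤ 1 := by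
  rcases hZ.lt_or_eq with h | h
  · have hb : Bornology.IsBounded {Z | EEq κ Z < 1} := by
      refine (Metric.isBounded_closedBall (x := (0 : ℂ)) (r := 2)).subset (fun z hz => ?_)
      have h2 := E12_norm h0 h1 (le_of_lt hz : EEq κ z ≤ 1)
      rw [mem_closedBall_zero_iff]
      nlinarith
    refine Complex.norm_le_of_forall_mem_frontier_norm_le hb (e12_diff h0 h1).diffContOnCl
      (fun z hz => ?_) (subset_closure h)
    exact (E12_bdry h0 h1 (frontier_lt_subset_eq (e12_cont κ) continuous_const hz)).le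
  · exact (E12_bdry h0 h1 h).le

theorem E12_lt {κ : ℝ} (h0 : 0 ≤ κ) (h1 : κ ≤ 1 / 10) {Z : ℂ} (hZ : EEq κ Z < 1) :
    ‖WW κ Z‖ < 1 := by
  refine lt_of_le_of_ne (E12_le h0 h1 hZ.le) (fun heq => ?_)
  have hz0 : (0 : ℂ) ∈ {Z | EEq κ Z < 1} := by
    show EEq κ 0 < 1
    simp [EEq]
  have hstar : StarConvex ℝ (0 : ℂ) {Z | EEq κ Z < 1} := by
    rw [starConvex_zero_iff]
    intro z hz a ha0 ha1
    show EEq κ (a • z) < 1
    have hz' : EEq κ z < 1 := hz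
    have he : EEq κ (a • z) = a ^ 2 * EEq κ z := by
      unfold EEq
      rw [Complex.real_smul, Complex.re_ofReal_mul, Complex.im_ofReal_mul]
      ring
    have hnn : 0 ≤ EEq κ z := by
      unfold EEq
      positivity
    rw [he]
    have : a ^ 2 ≤ 1 := by nlinarith
    nlinarith
  have hc : IsPreconnected {Z | EEq κ Z < 1} :=
    (hstar.isPathConnected hz0).isConnected.isPreconnected
  have ho : IsOpen {Z | EEq κ Z < 1} := isOpen_lt (e12_cont κ) continuous_const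
  have hm : IsMaxOn (norm ∘ WW κ) {Z | EEq κ Z < 1} Z := by
    intro z hz
    show ‖WW κ z‖ ≤ ‖WW κ Z‖
    rw [heq]
    exact E12_le h0 h1 (le_of_lt hz)
  have h := Complex.eqOn_of_isPreconnected_of_isMaxOn_norm hc ho
    ((e12_diff h0 h1).mono subset_closure) hZ hm
  have hhalf : ((1 / 2 : ℝ) : ℂ) ∈ {Z | EEq κ Z < 1} := by
    show EEq κ ((1 / 2 : ℝ) : ℂ) < 1
    unfold EEq
    rw [Complex.ofReal_re, Complex.ofReal_im]
    have : 1 / 2 / (1 + κ ^ 2) ≤ 1 / 2 := div_le_self (by norm_num) (by nlinarith)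
    have h3 : 0 ≤ 1 / 2 / (1 + κ ^ 2) := by positivity
    rw [zero_div]
    nlinarith
  have e1 : WW κ 0 = WW κ ((1 / 2 : ℝ) : ℂ) := (h hz0).trans (h hhalf).symm
  have e2 := E08_inj h0 h1 (by simp) (by rw [Complex.norm_real]; norm_num) e1
  have e3 := congrArg Complex.re e2
  norm_num at e3

end Pool.Agent.Lib.H11Q
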