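import Pool.Agent.Lib.H11Q.E11
import Pool.Agent.Lib.H11Q.E12

/-! # H11Q chunk E13 (S/M): the inverse maps the disc onto the ellipse.

PROOFS (`0 ≤ κ ≤ 1/10`).
* `E13_lt`: suppose `EEq κ (Zi κ w) ≥ 1`, `‖w‖ < 1`.  The function `t ↦ EEq κ (Zi κ (t w))` is continuous on `[0,1]`
  (`E11_cont` or `E10_lip`), it is `0` at `t = 0` (`E11_zero`), so it is `1` for some `t ∈ [0,1]` (intermediate value theorem);
  then `‖t w‖ = ‖WW κ (Zi κ (t w))‖ = 1` by `E12_bdry`, against `‖t w‖ ≤ ‖w‖ < 1`.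
* `E13_le`: the same with `‖w‖ ≤ 1`: if `EEq κ (Zi κ w) > 1` there is `t ∈ [0,1)` with value `1` at `t w`, so `‖t w‖ = 1`, but
  `‖t w‖ < 1` (if `w ≠ 0`; for `w = 0` the value is `0`).  (Or a limit of `E13_lt`.)
* `E13_eq`: `EEq κ (Zi κ w) ≤ 1` and not `< 1` (`E12_lt` would give `‖w‖ < 1`). -/

set_option autoImplicit false

namespace Pool.Agent.Lib.H11Q

open Complex Set Metric

theorem e13_eeq (κ : ℝ) : Continuous (EEq κ) := by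
  unfold EEq
  fun_prop

theorem e13_path {κ : ℝ} (h0 : 0 ≤ κ) (h1 : κ ≤ 1 / 10) {w : ℂ} (hw : ‖w‖ ≤ 1) :
    ContinuousOn (fun t : ℝ => EEq κ (Zi κ (t * w))) (Icc 0 1) := by
  refine (e13_eeq κ).comp_continuousOn ?_
  refine E11_cont.comp (f := fun t : ℝ => ((κ, (t : ℂ) * w) : ℝ × ℂ)) (by fun_prop) ?_
  intro t ht
  refine ⟨⟨h0, h1⟩, ?_⟩
  rw [mem_closedBall_zero_iff, norm_mul, Complex.norm_real, Real.norm_eq_abs, abs_of_nonneg ht.1]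
  nlinarith [ht.1, ht.2, norm_nonneg w]

theorem e13_norm {κ : ℝ} (h0 : 0 ≤ κ) (h1 : κ ≤ 1 / 10) {w : ℂ} (hw : ‖w‖ ≤ 11 / 10)
    (h : EEq κ (Zi κ w) = 1) : ‖w‖ = 1 := by
  have h2 := E12_bdry h0 h1 h
  rw [(E10_spec h0 h1 hw).2] at h2
  exact h2

theorem e13_zero {κ : ℝ} (h0 : 0 ≤ κ) (h1 : κ ≤ 1 / 10) (w : ℂ) : EEq κ (Zi κ (((0 : ℝ) : ℂ) * w)) = 0 := by
  rw [Complex.ofReal_zero, zero_mul, E11_zero h0 h1]
  simp [EEq]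

theorem e13_ivt {κ : ℝ} (h0 : 0 ≤ κ) (h1 : κ ≤ 1 / 10) {w : ℂ} (hw : ‖w‖ ≤ 1)
    (h : 1 ≤ EEq κ (Zi κ w)) : ∃ t : ℝ, 0 ≤ t ∧ t ≤ 1 ∧ EEq κ (Zi κ (t * w)) = 1 ∧ ‖(t : ℂ) * w‖ = 1 := by
  have h2 := intermediate_value_Icc (zero_le_one' ℝ) (e13_path h0 h1 hw)
  have h3 : (1 : ℝ) ∈ Icc (EEq κ (Zi κ (((0 : ℝ) : ℂ) * w))) (EEq κ (Zi κ (((1 : ℝ) : ℂ) * w))) := by
    rw [e13_zero h0 h1, Complex.ofReal_one, one_mul]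
    exact ⟨zero_le_one, h⟩
  obtain ⟨t, ht, ht1⟩ := h2 h3
  have ht1' : EEq κ (Zi κ (t * w)) = 1 := ht1
  refine ⟨t, ht.1, ht.2, ht1', e13_norm h0 h1 ?_ ht1'⟩
  rw [norm_mul, Complex.norm_real, Real.norm_eq_abs, abs_of_nonneg ht.1]
  nlinarith [ht.1, ht.2, norm_nonneg w]

theorem E13_lt {κ : ℝ} (h0 : 0 ≤ κ) (h1 : κ ≤ 1 / 10) {w : ℂ} (hw : ‖w‖ < 1) :
    EEq κ (Zi κ w) < 1 := by
  by_contra hcon
  push Not at hcon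
  obtain ⟨t, ht0, ht1, -, h3⟩ := e13_ivt h0 h1 hw.le hcon
  rw [norm_mul, Complex.norm_real, Real.norm_eq_abs, abs_of_nonneg ht0] at h3
  nlinarith [norm_nonneg w]

theorem E13_le {κ : ℝ} (h0 : 0 ≤ κ) (h1 : κ ≤ 1 / 10) {w : ℂ} (hw : ‖w‖ ≤ 1) :
    EEq κ (Zi κ w) ≤ 1 := by
  by_contra hcon
  push Not at hcon
  obtain ⟨t, ht0, ht1, h2, h3⟩ := e13_ivt h0 h1 hw hcon.le
  rw [norm_mul, Complex.norm_real, Real.norm_eq_abs, abs_of_nonneg ht0] at h3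
  have h4 : t = 1 := by nlinarith [norm_nonneg w]
  rw [h4, Complex.ofReal_one, one_mul] at h2
  linarith

theorem E13_eq {κ : ℝ} (h0 : 0 ≤ κ) (h1 : κ ≤ 1 / 10) {w : ℂ} (hw : ‖w‖ = 1) :
    EEq κ (Zi κ w) = 1 := by
  refine le_antisymm (E13_le h0 h1 hw.le) ?_
  by_contra hcon
  push Not at hcon
  have h2 := E10_spec h0 h1 (w := w) (by rw [hw]; norm_num)
  have h3 := E12_lt h0 h1 hcon
  rw [h2.2, hw] at h3
  exact lt_irrefl _ h3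

end Pool.Agent.Lib.H11Q
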