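import Pool.Agent.Lib.H11Q.E00

/-! # H11Q chunk E14 (S): the algebra of the coordinates `ZZ`, `ZZ'`.

PROOFS. Write `ξ = x + i y`.  `ξ + κ conj ξ = (1+κ) x + i (1-κ) y`, so `ZZ κ ξ` has real part
`(1+κ)² x² - (1-κ)² y² - 2κ` and imaginary part `2 (1-κ²) x y`.
* `E14_id`: polynomial identity after clearing denominators (`field_simp`, `ring`):
  `(1+κ²)² (1 - EEq κ (ZZ κ ξ)) = (1 - x² - y²) ((1-κ²)² + (1+κ)⁴ x² + (1-κ)⁴ y²)`.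
* `E14_iff..`: the second factor is `≥ (1-κ²)² > 0`.
* `E14_rot`: `ZZ' κ ξ = - ZZ κ (I ξ)` (`conj (I ξ) = -I conj ξ`, `I² = -1`).
* `E14_circle`: on `|ξ| = 1` both are `ξ² + κ² (conj ξ)²` (`ξ conj ξ = 1`).
* `E14_surj`: take `σ` with `σ² = Z + 2κ` (`IsSquare`/`Complex.cpow`: `∃ σ, σ ^ 2 = Z + 2 κ`, e.g. `IsAlgClosed.exists_pow_nat_eq`),
  `ξ = σ.re/(1+κ) + i σ.im/(1-κ)`; then `ξ + κ conj ξ = σ`.
* `E14_norm`: `‖ZZ κ ξ‖ ≤ (1+κ)² ‖ξ‖² + 2κ`, crude; for `‖ξ‖ ≤ 1` it is better to use the identity: `EEq ≤ 1` gives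
  `‖ZZ‖ ≤ 1 + κ²` (as in `E12_norm`): `(re)² + (im)² ≤ (1+κ²)² EEq`.
* `E14_inj`: `ZZ κ ξ = ZZ κ η` iff `σ² = τ²` iff `σ = ± τ` iff `ξ = ± η` (`ξ ↦ ξ + κ conj ξ` is injective and odd). -/

set_option autoImplicit false

namespace Pool.Agent.Lib.H11Q

open Complex
open scoped ComplexConjugate

theorem e14_re (κ : ℝ) (ξ : ℂ) :
    (ZZ κ ξ).re = (1 + κ) ^ 2 * ξ.re ^ 2 - (1 - κ) ^ 2 * ξ.im ^ 2 - 2 * κ := by
  unfold ZZ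
  simp only [pow_two, Complex.sub_re, Complex.mul_re, Complex.add_re, Complex.add_im, Complex.mul_im,
    Complex.conj_re, Complex.conj_im, Complex.ofReal_re, Complex.ofReal_im, Complex.re_ofNat,
    Complex.im_ofNat]
  ring

theorem e14_im (κ : ℝ) (ξ : ℂ) :
    (ZZ κ ξ).im = 2 * (1 - κ ^ 2) * ξ.re * ξ.im := by
  unfold ZZ
  simp only [pow_two, Complex.sub_im, Complex.mul_re, Complex.add_re, Complex.add_im, Complex.mul_im,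
    Complex.conj_re, Complex.conj_im, Complex.ofReal_re, Complex.ofReal_im, Complex.re_ofNat,
    Complex.im_ofNat]
  ring

theorem E14_id {κ : ℝ} (h0 : 0 ≤ κ) (h1 : κ ≤ 1 / 10) (ξ : ℂ) :
    (1 + κ ^ 2) ^ 2 * (1 - EEq κ (ZZ κ ξ)) =
      (1 - ‖ξ‖ ^ 2) * ((1 - κ ^ 2) ^ 2 + (1 + κ) ^ 4 * ξ.re ^ 2 + (1 - κ) ^ 4 * ξ.im ^ 2) := by
  have hp : 0 < 1 + κ ^ 2 := by positivity
  have hm : 0 < 1 - κ ^ 2 := by nlinarith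
  have hn : ‖ξ‖ ^ 2 = ξ.re ^ 2 + ξ.im ^ 2 := by
    rw [← Complex.normSq_eq_norm_sq, Complex.normSq_apply]
    ring
  unfold EEq
  rw [e14_re, e14_im, hn]
  field_simp
  ring

theorem e14_pos {κ : ℝ} (h0 : 0 ≤ κ) (h1 : κ ≤ 1 / 10) (ξ : ℂ) :
    0 < (1 - κ ^ 2) ^ 2 + (1 + κ) ^ 4 * ξ.re ^ 2 + (1 - κ) ^ 4 * ξ.im ^ 2 := by
  have hm : 0 < 1 - κ ^ 2 := by nlinarith
  positivity

theorem E14_lt {κ : ℝ} (h0 : 0 ≤ κ) (h1 : κ ≤ 1 / 10) (ξ : ℂ) :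
    EEq κ (ZZ κ ξ) < 1 ↔ ‖ξ‖ < 1 := by
  have hid := E14_id h0 h1 ξ
  have hpos := e14_pos h0 h1 ξ
  have hp : 0 < (1 + κ ^ 2) ^ 2 := by positivity
  have hnn := norm_nonneg ξ
  constructor
  · intro h
    have h2 : 0 < (1 + κ ^ 2) ^ 2 * (1 - EEq κ (ZZ κ ξ)) := mul_pos hp (by linarith)
    rw [hid] at h2
    have h3 : 0 < 1 - ‖ξ‖ ^ 2 := pos_of_mul_pos_left h2 hpos.le
    nlinarith
  · intro h
    have h2 : 0 < (1 - ‖ξ‖ ^ 2) *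
        ((1 - κ ^ 2) ^ 2 + (1 + κ) ^ 4 * ξ.re ^ 2 + (1 - κ) ^ 4 * ξ.im ^ 2) :=
      mul_pos (by nlinarith) hpos
    rw [← hid] at h2
    have h3 := pos_of_mul_pos_right h2 hp.le
    linarith

theorem E14_eq {κ : ℝ} (h0 : 0 ≤ κ) (h1 : κ ≤ 1 / 10) (ξ : ℂ) :
    EEq κ (ZZ κ ξ) = 1 ↔ ‖ξ‖ = 1 := by
  have hid := E14_id h0 h1 ξ
  have hpos := e14_pos h0 h1 ξ
  have hp : 0 < (1 + κ ^ 2) ^ 2 := by positivity
  have hnn := norm_nonneg ξ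
  constructor
  · intro h
    rw [h, sub_self, mul_zero] at hid
    rcases mul_eq_zero.mp hid.symm with h2 | h2
    · nlinarith
    · exact absurd h2 hpos.ne'
  · intro h
    rw [h, one_pow, sub_self, zero_mul] at hid
    rcases mul_eq_zero.mp hid with h2 | h2
    · exact absurd h2 hp.ne'
    · linarith

theorem E14_le {κ : ℝ} (h0 : 0 ≤ κ) (h1 : κ ≤ 1 / 10) (ξ : ℂ) :
    EEq κ (ZZ κ ξ) ≤ 1 ↔ ‖ξ‖ ≤ 1 := by
  rw [le_iff_lt_or_eq, le_iff_lt_or_eq, E14_lt h0 h1, E14_eq h0 h1]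

theorem E14_rot (κ : ℝ) (ξ : ℂ) : ZZ' κ ξ = -ZZ κ (I * ξ) := by
  unfold ZZ ZZ'
  rw [map_mul, Complex.conj_I]
  linear_combination (ξ - (κ : ℂ) * conj ξ) ^ 2 * Complex.I_sq

theorem E14_circle (κ : ℝ) {ξ : ℂ} (h : ‖ξ‖ = 1) : ZZ' κ ξ = ZZ κ ξ := by
  have h2 : ξ * conj ξ = 1 := by
    rw [Complex.mul_conj, Complex.normSq_eq_norm_sq, h]
    simp
  unfold ZZ ZZ'
  linear_combination (-4 * (κ : ℂ)) * h2

theorem e14_lin {κ : ℝ} (h0 : 0 ≤ κ) (h1 : κ ≤ 1 / 10) (σ : ℂ) :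
    ∃ ξ : ℂ, ξ + κ * conj ξ = σ := by
  refine ⟨⟨σ.re / (1 + κ), σ.im / (1 - κ)⟩, ?_⟩
  have hp : 1 + κ ≠ 0 := by positivity
  have hm : 1 - κ ≠ 0 := by
    have : 0 < 1 - κ := by linarith
    exact this.ne'
  apply Complex.ext
  · simp only [Complex.add_re, Complex.mul_re, Complex.ofReal_re, Complex.conj_re, Complex.ofReal_im,
      Complex.conj_im]
    field_simp
    ring
  · simp only [Complex.add_im, Complex.mul_im, Complex.ofReal_re, Complex.conj_re, Complex.ofReal_im,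
      Complex.conj_im]
    field_simp
    ring

theorem E14_surj {κ : ℝ} (h0 : 0 ≤ κ) (h1 : κ ≤ 1 / 10) (Z : ℂ) : ∃ ξ : ℂ, ZZ κ ξ = Z := by
  obtain ⟨σ, hσ⟩ := IsAlgClosed.exists_pow_nat_eq (Z + 2 * κ) (n := 2) (by norm_num)
  obtain ⟨ξ, hξ⟩ := e14_lin h0 h1 σ
  refine ⟨ξ, ?_⟩
  unfold ZZ
  rw [hξ, hσ]
  ring

theorem e14_n {κ : ℝ} (h0 : 0 ≤ κ) (h1 : κ ≤ 1 / 10) {Z : ℂ} (hZ : EEq κ Z ≤ 1) :
    ‖Z‖ ≤ 1 + κ ^ 2 := by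
  have hp : 0 < 1 + κ ^ 2 := by positivity
  have hm : 0 < 1 - κ ^ 2 := by nlinarith
  have h2 : ‖Z‖ ^ 2 ≤ (1 + κ ^ 2) ^ 2 := by
    rw [← Complex.normSq_eq_norm_sq, Complex.normSq_apply]
    unfold EEq at hZ
    have e1 : Z.re = (Z.re / (1 + κ ^ 2)) * (1 + κ ^ 2) := by field_simp
    have e2 : Z.im = (Z.im / (1 - κ ^ 2)) * (1 - κ ^ 2) := by field_simp
    set a := Z.re / (1 + κ ^ 2) with ha
    set b := Z.im / (1 - κ ^ 2) with hb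
    rw [e1, e2]
    have h3 : (1 - κ ^ 2) ^ 2 ≤ (1 + κ ^ 2) ^ 2 := by nlinarith [sq_nonneg κ]
    have h4 : b ^ 2 * (1 - κ ^ 2) ^ 2 ≤ b ^ 2 * (1 + κ ^ 2) ^ 2 := by gcongr
    have h5 : (a ^ 2 + b ^ 2) * (1 + κ ^ 2) ^ 2 ≤ 1 * (1 + κ ^ 2) ^ 2 := by gcongr
    nlinarith
  exact abs_le_of_sq_le_sq' h2 hp.le |>.2

theorem E14_norm {κ : ℝ} (h0 : 0 ≤ κ) (h1 : κ ≤ 1 / 10) {ξ : ℂ} (h : ‖ξ‖ ≤ 1) :
    ‖ZZ κ ξ‖ ≤ 1 + κ ^ 2 ∧ ‖ZZ' κ ξ‖ ≤ 1 + κ ^ 2 := by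
  refine ⟨e14_n h0 h1 ((E14_le h0 h1 ξ).mpr h), ?_⟩
  rw [E14_rot, norm_neg]
  refine e14_n h0 h1 ((E14_le h0 h1 _).mpr ?_)
  rw [norm_mul, Complex.norm_I, one_mul]
  exact h

theorem e14_linj {κ : ℝ} (h0 : 0 ≤ κ) (h1 : κ ≤ 1 / 10) {ξ η : ℂ}
    (h : ξ + κ * conj ξ = η + κ * conj η) : ξ = η := by
  have hre := congrArg Complex.re h
  have him := congrArg Complex.im h
  simp only [Complex.add_re, Complex.mul_re, Complex.ofReal_re, Complex.conj_re, Complex.ofReal_im,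
      Complex.conj_im, Complex.add_im, Complex.mul_im, zero_mul, sub_zero, add_zero] at hre him
  have hp : 1 + κ ≠ 0 := by positivity
  have hm : 1 - κ ≠ 0 := by
    have : 0 < 1 - κ := by linarith
    exact this.ne'
  apply Complex.ext
  · apply mul_left_cancel₀ hp
    linear_combination hre
  · apply mul_left_cancel₀ hm
    linear_combination him

theorem E14_inj {κ : ℝ} (h0 : 0 ≤ κ) (h1 : κ ≤ 1 / 10) {ξ η : ℂ} (h : ZZ κ ξ = ZZ κ η) :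
    ξ = η ∨ ξ = -η := by
  unfold ZZ at h
  have h2 : (ξ + κ * conj ξ) ^ 2 = (η + κ * conj η) ^ 2 := by linear_combination h
  rcases sq_eq_sq_iff_eq_or_eq_neg.mp h2 with h3 | h3
  · exact Or.inl (e14_linj h0 h1 h3)
  · refine Or.inr (e14_linj h0 h1 ?_)
    rw [h3, map_neg]
    ring

end Pool.Agent.Lib.H11Q
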