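import Pool.Agent.Lib.H11Q.E13
import Pool.Agent.Lib.H11Q.E14

/-! # H11Q chunk E15 (S/M): the maps `β`, `β'`.

PROOFS (`0 ≤ κ ≤ 1/10`).
* `E15_rot`: `β' κ ξ = WW κ (ZZ' κ ξ) = WW κ (-ZZ κ (I ξ)) = - β κ (I ξ)` (`E14_rot`, `E07_WW_neg`).
* `E15_lt`: `E14_lt`, `E12_lt`, and `‖I ξ‖ = ‖ξ‖` for `β'`.
* `E15_eq`: `E14_eq`, `E12_bdry`, `E14_circle`.
* `E15_surj`: `Z = Zi κ w` (`E13_le`: `EEq ≤ 1`), `ξ` from `E14_surj`, `‖ξ‖ ≤ 1` by `E14_le`; for `β'` take `η` with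
  `β κ η = -w` and `ξ = -I η`.
* `E15_inj`: `E08_inj` (norms by `E14_norm`), `E14_inj`. -/

set_option autoImplicit false

namespace Pool.Agent.Lib.H11Q

open Complex Set Metric

theorem e15_I (ξ : ℂ) : ‖I * ξ‖ = ‖ξ‖ := by
  rw [norm_mul, norm_I, one_mul]

theorem E15_rot (κ : ℝ) (ξ : ℂ) : beta' κ ξ = -beta κ (I * ξ) := by
  unfold beta' beta
  rw [E14_rot, E07_WW_neg]


theorem E15_lt {κ : ℝ} (h0 : 0 ≤ κ) (h1 : κ ≤ 1 / 10) {ξ : ℂ} (h : ‖ξ‖ < 1) :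
    ‖beta κ ξ‖ < 1 ∧ ‖beta' κ ξ‖ < 1 := by
  have h2 : ∀ η : ℂ, ‖η‖ < 1 → ‖beta κ η‖ < 1 := fun η hη => E12_lt h0 h1 ((E14_lt h0 h1 η).mpr hη)
  refine ⟨h2 ξ h, ?_⟩
  rw [E15_rot, norm_neg]
  exact h2 _ (by rwa [e15_I])


theorem E15_eq {κ : ℝ} (h0 : 0 ≤ κ) (h1 : κ ≤ 1 / 10) {ξ : ℂ} (h : ‖ξ‖ = 1) :
    ‖beta κ ξ‖ = 1 ∧ beta' κ ξ = beta κ ξ := by
  refine ⟨E12_bdry h0 h1 ((E14_eq h0 h1 ξ).mpr h), ?_⟩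
  unfold beta' beta
  rw [E14_circle κ h]


theorem E15_surj {κ : ℝ} (h0 : 0 ≤ κ) (h1 : κ ≤ 1 / 10) {w : ℂ} (h : ‖w‖ ≤ 1) :
    (∃ ξ : ℂ, ‖ξ‖ ≤ 1 ∧ beta κ ξ = w) ∧ (∃ ξ : ℂ, ‖ξ‖ ≤ 1 ∧ beta' κ ξ = w) := by
  have key : ∀ v : ℂ, ‖v‖ ≤ 1 → ∃ ξ : ℂ, ‖ξ‖ ≤ 1 ∧ beta κ ξ = v := by
    intro v hv
    obtain ⟨ξ, hξ⟩ := E14_surj h0 h1 (Zi κ v)
    refine ⟨ξ, ?_, ?_⟩
    · rw [← E14_le h0 h1, hξ]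
      exact E13_le h0 h1 hv
    · unfold beta
      rw [hξ]
      exact (E10_spec h0 h1 (by linarith)).2
  refine ⟨key w h, ?_⟩
  obtain ⟨η, hη, h2⟩ := key (-w) (by rwa [norm_neg])
  refine ⟨-(I * η), by rwa [norm_neg, e15_I], ?_⟩
  rw [E15_rot]
  have h3 : I * -(I * η) = η := by linear_combination (-η) * I_sq
  rw [h3, h2, neg_neg]


theorem E15_inj {κ : ℝ} (h0 : 0 ≤ κ) (h1 : κ ≤ 1 / 10) {ξ η : ℂ} (hξ : ‖ξ‖ ≤ 1) (hη : ‖η‖ ≤ 1) :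
    (beta κ ξ = beta κ η → ξ = η ∨ ξ = -η) ∧ (beta' κ ξ = beta' κ η → ξ = η ∨ ξ = -η) := by
  have key : ∀ a b : ℂ, ‖a‖ ≤ 1 → ‖b‖ ≤ 1 → beta κ a = beta κ b → a = b ∨ a = -b := by
    intro a b ha hb hab
    have e1 := (E14_norm h0 h1 ha).1
    have e2 := (E14_norm h0 h1 hb).1
    have h3 : κ ^ 2 ≤ 1 / 100 := by nlinarith
    exact E14_inj h0 h1 (E08_inj h0 h1 (by linarith) (by linarith) hab)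
  refine ⟨key ξ η hξ hη, fun h => ?_⟩
  rw [E15_rot, E15_rot, neg_inj] at h
  rcases key (I * ξ) (I * η) (by rwa [e15_I]) (by rwa [e15_I]) h with h2 | h2
  · exact Or.inl (mul_left_cancel₀ I_ne_zero h2)
  · refine Or.inr (mul_left_cancel₀ I_ne_zero ?_)
    rw [h2]
    ring


end Pool.Agent.Lib.H11Q
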