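import Pool.Agent.Lib.H11Q.E07

/-! # H11Q chunk E16 (M): `a_κ` is `C¹` with positive derivative on `[0, 1/10]`.

PROOFS.  Put `N κ = ∑' n, κ^((2n+1)²)`, `D κ = ∑' n, κ^(4(n+1)²)`; by `E07_aa` `aa = 2N/(1+2D)`.  For `|κ| < 1/2`
(`hasDerivAt_tsum_of_isPreconnected` on the open interval `(-1/2, 1/2)`, majorants
`(2n+1)² (1/2)^((2n+1)²-1) ≤ ` const·`(3/4)^n`, e.g. from `k (1/2)^(k-1)` summable over all `k` and injectivity of
`n ↦ (2n+1)²`):
`N' = ∑' (2n+1)² κ^((2n+1)²-1)`, `D' = ∑' 4(n+1)² κ^(4(n+1)²-1)`, both continuous on `(-1/2, 1/2)` (`continuousOn_tsum`).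
`aa' = (2N'(1+2D) - 4 N D')/(1+2D)²`.  For `0 ≤ κ ≤ 1/10`: `N' ≥ 1`, `D ≥ 0`, `0 ≤ N ≤ κ/(1-κ) ≤ 1/9`,
`0 ≤ D' ≤ ∑_{k≥4} k κ^(k-1) ≤ 4κ³/(1-κ)² ≤ 1/100·...`: `D' ≤ 0.006`, so the numerator is `≥ 2 - 4·(1/9)·(0.006) > 0`.
* `E16_cont`: `deriv aa` is given by the formula on `(-1/2,1/2)`.
* `E16_zero`: all exponents are positive. -/

set_option autoImplicit false

namespace Pool.Agent.Lib.H11Q

open Complex Set Metric

theorem e16_u : Summable (fun k : ℕ => (k : ℝ) * (1 / 2 : ℝ) ^ (k - 1)) := by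
  have h := summable_pow_mul_geometric_of_norm_lt_one (R := ℝ) 1 (r := (1 / 2 : ℝ)) (by norm_num)
  refine (h.mul_left 2).congr (fun k => ?_)
  rcases k with _ | k
  · simp
  · simp only [Nat.add_sub_cancel, pow_succ]
    ring

/-- the series with exponents `e n` -/
noncomputable def e16S (e : ℕ → ℕ) (x : ℝ) : ℝ := ∑' n, x ^ e n

noncomputable def e16T (e : ℕ → ℕ) (x : ℝ) : ℝ := ∑' n, (e n : ℝ) * x ^ (e n - 1)

theorem e16_bd {e : ℕ → ℕ} (n : ℕ) {x : ℝ} (hx : x ∈ ball (0 : ℝ) (1 / 2)) :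
    ‖(e n : ℝ) * x ^ (e n - 1)‖ ≤ (e n : ℝ) * (1 / 2 : ℝ) ^ (e n - 1) := by
  have hx' : |x| < 1 / 2 := by simpa [Real.dist_eq] using hx
  rw [norm_mul, Real.norm_natCast, norm_pow, Real.norm_eq_abs]
  exact mul_le_mul_of_nonneg_left (pow_le_pow_left₀ (abs_nonneg x) hx'.le _) (Nat.cast_nonneg _)

theorem e16_sumT {e : ℕ → ℕ} (he : Function.Injective e) {x : ℝ} (hx : x ∈ ball (0 : ℝ) (1 / 2)) :
    Summable (fun n => (e n : ℝ) * x ^ (e n - 1)) :=
  Summable.of_norm_bounded (e16_u.comp_injective he) (fun n => e16_bd n hx)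

theorem e16_sumS {e : ℕ → ℕ} (he : Function.Injective e) {x : ℝ} (hx : x ∈ ball (0 : ℝ) (1 / 2)) :
    Summable (fun n => x ^ e n) := by
  have hx' : |x| < 1 / 2 := by simpa [Real.dist_eq] using hx
  refine Summable.of_norm_bounded
    ((summable_geometric_of_lt_one (by norm_num : (0 : ℝ) ≤ 1 / 2) (by norm_num)).comp_injective he)
    (fun n => ?_)
  rw [norm_pow, Real.norm_eq_abs]
  exact pow_le_pow_left₀ (abs_nonneg x) hx'.le _

theorem e16_hasDerivAt {e : ℕ → ℕ} (he : Function.Injective e) {x : ℝ}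
    (hx : x ∈ ball (0 : ℝ) (1 / 2)) : HasDerivAt (e16S e) (e16T e x) x := by
  unfold e16S e16T
  exact hasDerivAt_tsum_of_isPreconnected (u := fun n => (e n : ℝ) * (1 / 2 : ℝ) ^ (e n - 1))
    (e16_u.comp_injective he) isOpen_ball (convex_ball (0 : ℝ) (1 / 2)).isPreconnected
    (fun n y _ => hasDerivAt_pow (e n) y) (fun n y hy => e16_bd n hy)
    (mem_ball_self (by norm_num)) (e16_sumS he (mem_ball_self (by norm_num))) hx

theorem e16_contT {e : ℕ → ℕ} (he : Function.Injective e) :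
    ContinuousOn (e16T e) (ball (0 : ℝ) (1 / 2)) := by
  unfold e16T
  exact continuousOn_tsum (fun n => (continuous_const.mul (continuous_pow _)).continuousOn)
    (e16_u.comp_injective he) (fun n y hy => e16_bd n hy)

theorem e16_inj1 : Function.Injective (fun n : ℕ => (2 * n + 1) ^ 2) := by
  intro a b h
  have h' : (2 * a + 1) ^ 2 = (2 * b + 1) ^ 2 := h
  have := Nat.pow_left_injective (n := 2) (by norm_num) h'
  omega

theorem e16_inj2 : Function.Injective (fun n : ℕ => 4 * (n + 1) ^ 2) := by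
  intro a b h
  have h' : 4 * (a + 1) ^ 2 = 4 * (b + 1) ^ 2 := h
  have h2 : (a + 1) ^ 2 = (b + 1) ^ 2 := by omega
  have := Nat.pow_left_injective (n := 2) (by norm_num) h2
  omega

theorem e16_aa (x : ℝ) : aa x = (2 * e16S (fun n => (2 * n + 1) ^ 2) x) /
    (1 + 2 * e16S (fun n => 4 * (n + 1) ^ 2) x) := E07_aa x

theorem e16_D_nonneg (x : ℝ) : 0 ≤ e16S (fun n => 4 * (n + 1) ^ 2) x := by
  unfold e16S
  refine tsum_nonneg (fun n => ?_)
  show 0 ≤ x ^ (4 * (n + 1) ^ 2)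
  rw [show 4 * (n + 1) ^ 2 = 2 * (2 * (n + 1) ^ 2) by ring, pow_mul]
  positivity

theorem e16_aa_deriv {x : ℝ} (hx : x ∈ ball (0 : ℝ) (1 / 2)) :
    HasDerivAt aa ((2 * e16T (fun n => (2 * n + 1) ^ 2) x * (1 + 2 * e16S (fun n => 4 * (n + 1) ^ 2) x)
      - 2 * e16S (fun n => (2 * n + 1) ^ 2) x * (2 * e16T (fun n => 4 * (n + 1) ^ 2) x)) /
      (1 + 2 * e16S (fun n => 4 * (n + 1) ^ 2) x) ^ 2) x := by
  have h1 := (e16_hasDerivAt e16_inj1 hx).const_mul 2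
  have h2 := ((e16_hasDerivAt e16_inj2 hx).const_mul 2).const_add 1
  have hne : 1 + 2 * e16S (fun n => 4 * (n + 1) ^ 2) x ≠ 0 := by
    have := e16_D_nonneg x
    positivity
  have h3 := h1.div h2 hne
  have hf : aa = fun x => (2 * e16S (fun n => (2 * n + 1) ^ 2) x) /
    (1 + 2 * e16S (fun n => 4 * (n + 1) ^ 2) x) := funext e16_aa
  rw [hf]
  exact h3

theorem E16_hasDerivAt {κ : ℝ} (h0 : 0 ≤ κ) (h1 : κ ≤ 1 / 10) : ∃ a' > 0, HasDerivAt aa a' κ := by
  have hx : κ ∈ ball (0 : ℝ) (1 / 2) := by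
    rw [mem_ball, Real.dist_eq, sub_zero, abs_of_nonneg h0]
    linarith
  refine ⟨_, ?_, e16_aa_deriv hx⟩
  have hD := e16_D_nonneg κ
  have hN' : 1 ≤ e16T (fun n => (2 * n + 1) ^ 2) κ := by
    have h := (e16_sumT e16_inj1 hx).le_tsum 0 (fun j _ => by positivity)
    simpa [e16T] using h
  have hN0 : 0 ≤ e16S (fun n => (2 * n + 1) ^ 2) κ := tsum_nonneg (fun n => by positivity)
  have hN1 : e16S (fun n => (2 * n + 1) ^ 2) κ ≤ 1 / 9 := by
    have hg : Summable (fun n : ℕ => κ * κ ^ n) :=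
      (summable_geometric_of_lt_one h0 (by linarith)).mul_left κ
    have hle : e16S (fun n => (2 * n + 1) ^ 2) κ ≤ ∑' n : ℕ, κ * κ ^ n := by
      refine (e16_sumS e16_inj1 hx).tsum_le_tsum (fun n => ?_) hg
      rw [← pow_succ']
      exact pow_le_pow_of_le_one h0 (by linarith) (by nlinarith)
    rw [tsum_mul_left, tsum_geometric_of_lt_one h0 (by linarith)] at hle
    refine hle.trans ?_
    rw [← div_eq_mul_inv, div_le_iff₀ (by linarith)]
    linarith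
  have hT0 : 0 ≤ e16T (fun n => 4 * (n + 1) ^ 2) κ := tsum_nonneg (fun n => by positivity)
  have hT1 : e16T (fun n => 4 * (n + 1) ^ 2) κ ≤ 1 / 100 := by
    have hg : Summable (fun n : ℕ => (4 / 1000 : ℝ) * (4 / 10 : ℝ) ^ n) :=
      (summable_geometric_of_lt_one (by norm_num) (by norm_num)).mul_left _
    have hle : e16T (fun n => 4 * (n + 1) ^ 2) κ ≤ ∑' n : ℕ, (4 / 1000 : ℝ) * (4 / 10 : ℝ) ^ n := by
      refine (e16_sumT e16_inj2 hx).tsum_le_tsum (fun n => ?_) hg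
      have h2n : ((n : ℝ) + 1) ≤ 2 ^ n := by
        have : n + 1 ≤ 2 ^ n := Nat.lt_two_pow_self
        exact_mod_cast this
      have h4n : ((n : ℝ) + 1) ^ 2 ≤ 4 ^ n := by
        calc ((n : ℝ) + 1) ^ 2 ≤ (2 ^ n) ^ 2 := by gcongr
          _ = 4 ^ n := by rw [← pow_mul, mul_comm, pow_mul]; norm_num
      have hk : κ ^ (4 * (n + 1) ^ 2 - 1) ≤ (1 / 10 : ℝ) ^ (3 + n) := by
        calc κ ^ (4 * (n + 1) ^ 2 - 1) ≤ (1 / 10 : ℝ) ^ (4 * (n + 1) ^ 2 - 1) := by gcongr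
          _ ≤ (1 / 10 : ℝ) ^ (3 + n) := by
            refine pow_le_pow_of_le_one (by norm_num) (by norm_num) ?_
            have : n + 4 ≤ 4 * (n + 1) ^ 2 := by nlinarith
            omega
      push_cast
      calc 4 * ((n : ℝ) + 1) ^ 2 * κ ^ (4 * (n + 1) ^ 2 - 1)
          ≤ 4 * 4 ^ n * (1 / 10 : ℝ) ^ (3 + n) := by gcongr
        _ = (4 / 1000 : ℝ) * (4 / 10 : ℝ) ^ n := by
            rw [show (4 / 10 : ℝ) = 4 * (1 / 10) by norm_num, mul_pow, pow_add]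
            ring
    rw [tsum_mul_left, tsum_geometric_of_lt_one (by norm_num) (by norm_num)] at hle
    refine hle.trans ?_
    norm_num
  have hden : 0 < (1 + 2 * e16S (fun n => 4 * (n + 1) ^ 2) κ) ^ 2 := by positivity
  refine div_pos ?_ hden
  have h3 : e16S (fun n => (2 * n + 1) ^ 2) κ * e16T (fun n => 4 * (n + 1) ^ 2) κ ≤ 1 / 9 * (1 / 100) :=
    mul_le_mul hN1 hT1 hT0 (by norm_num)
  have h4 : 1 ≤ e16T (fun n => (2 * n + 1) ^ 2) κ * (1 + 2 * e16S (fun n => 4 * (n + 1) ^ 2) κ) := by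
    nlinarith
  nlinarith

theorem E16_cont : ContinuousOn (deriv aa) (Icc 0 (1 / 10)) := by
  have hsub : Icc (0 : ℝ) (1 / 10) ⊆ ball (0 : ℝ) (1 / 2) := by
    intro x hx
    rw [mem_ball, Real.dist_eq, sub_zero, abs_of_nonneg hx.1]
    linarith [hx.2]
  have hS : ∀ {e : ℕ → ℕ}, Function.Injective e → ContinuousOn (e16S e) (ball (0 : ℝ) (1 / 2)) :=
    fun he x hx => (e16_hasDerivAt he hx).continuousAt.continuousWithinAt
  refine ContinuousOn.mono ?_ hsub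
  refine ContinuousOn.congr (f := fun x =>
    (2 * e16T (fun n => (2 * n + 1) ^ 2) x * (1 + 2 * e16S (fun n => 4 * (n + 1) ^ 2) x)
      - 2 * e16S (fun n => (2 * n + 1) ^ 2) x * (2 * e16T (fun n => 4 * (n + 1) ^ 2) x)) /
      (1 + 2 * e16S (fun n => 4 * (n + 1) ^ 2) x) ^ 2) ?_ (fun x hx => (e16_aa_deriv hx).deriv)
  have a1 := hS e16_inj1
  have a2 := hS e16_inj2
  have a3 := e16_contT e16_inj1
  have a4 := e16_contT e16_inj2
  have a5 : ContinuousOn (fun x => 1 + 2 * e16S (fun n => 4 * (n + 1) ^ 2) x) (ball (0 : ℝ) (1 / 2)) :=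
    continuousOn_const.add (continuousOn_const.mul a2)
  refine ContinuousOn.div (((continuousOn_const.mul a3).mul a5).sub
    ((continuousOn_const.mul a1).mul (continuousOn_const.mul a4))) (a5.pow 2) (fun x _ => ?_)
  have := e16_D_nonneg x
  positivity

theorem E16_zero : aa 0 = 0 := by
  have h : e16S (fun n => (2 * n + 1) ^ 2) 0 = 0 := by
    unfold e16S
    refine (tsum_congr (fun n => ?_)).trans tsum_zero
    exact zero_pow (by positivity)
  rw [e16_aa, h]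
  simp

end Pool.Agent.Lib.H11Q
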