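import Pool.Agent.Lib.H11Q.FD
import Pool.Agent.Lib.H11Q.Iface
import Pool.Agent.Lib.H11Q.C09A

set_option autoImplicit false

namespace Pool.Agent.Lib.H11Q

open Complex Set MeasureTheory
open scoped ComplexConjugate Topology

/-! F01 (S/M): joint continuity of `beta`, `beta'` and of the derivatives. -/

theorem f01_aux {F : ℝ × ℂ → ℂ} (hF : ContinuousOn F (Icc 0 (1 / 10) ×ˢ Metric.ball (0 : ℂ) (5 / 4))) {κ0 : ℝ} (h0 : 0 < κ0)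
    (h1 : κ0 < 1 / 10) {ξ0 : ℂ} {g : ℝ × ℂ → ℂ} (hg : Continuous g) (hn : ‖g (κ0, ξ0)‖ < 5 / 4) :
    ContinuousAt (fun p : ℝ × ℂ => F (p.1, g p)) (κ0, ξ0) := by
  have h2 : Icc 0 (1 / 10) ×ˢ Metric.ball (0 : ℂ) (5 / 4) ∈ 𝓝 ((κ0, g (κ0, ξ0)) : ℝ × ℂ) :=
    prod_mem_nhds (Icc_mem_nhds h0 h1) (Metric.isOpen_ball.mem_nhds (by rwa [mem_ball_zero_iff]))
  have h3 : ContinuousAt (fun p : ℝ × ℂ => ((p.1, g p) : ℝ × ℂ)) (κ0, ξ0) := (continuous_fst.prodMk hg).continuousAt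
  exact ContinuousAt.comp (g := F) (f := fun p : ℝ × ℂ => ((p.1, g p) : ℝ × ℂ)) (hF.continuousAt h2) h3

theorem f01_ZZ : Continuous fun p : ℝ × ℂ => ZZ p.1 p.2 := by
  unfold ZZ
  fun_prop

theorem f01_ZZ' : Continuous fun p : ℝ × ℂ => ZZ' p.1 p.2 := by
  unfold ZZ'
  fun_prop

theorem f01_W {κ : ℝ} (h0 : 0 ≤ κ) (h1 : κ ≤ 1 / 10) {Z : ℂ} (hZ : ‖Z‖ < 5 / 4) : deriv (WW κ) Z ≠ 0 := by
  intro h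
  have h2 := (Iface.E_hol h0 h1 hZ).2
  rw [h, zero_sub, norm_neg, norm_one] at h2
  norm_num at h2

/-- `(κ, ξ) ↦ (κ, ZZ κ ξ)` is continuous and maps a neighbourhood of `(κ0, ξ0)` into `Icc 0 (1/10) ×ˢ ball 0 (5/4)`
(`C_ZZ_norm`: `‖ZZ κ0 ξ0‖ ≤ 1.01`), `Iface.E_cont`, `Iface.E_cont'` (`ContinuousOn.continuousAt` in the interior). -/
theorem F_beta_cont {κ0 : ℝ} (h0 : 0 < κ0) (h1 : κ0 < 1 / 10) {ξ0 : ℂ} (hξ : ‖ξ0‖ < 1) :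
    ContinuousAt (fun p : ℝ × ℂ => beta p.1 p.2) (κ0, ξ0) ∧
    ContinuousAt (fun p : ℝ × ℂ => beta' p.1 p.2) (κ0, ξ0) ∧
    ContinuousAt (fun p : ℝ × ℂ => deriv (WW p.1) (ZZ p.1 p.2)) (κ0, ξ0) ∧
    ContinuousAt (fun p : ℝ × ℂ => deriv (WW p.1) (ZZ' p.1 p.2)) (κ0, ξ0) := by
  have h2 := C_ZZ_norm h0.le h1.le hξ.le
  have h3 : 1 + κ0 ^ 2 < 5 / 4 := by nlinarith
  have e1 := f01_aux (F := fun p : ℝ × ℂ => WW p.1 p.2) Iface.E_cont h0 h1 (ξ0 := ξ0) (g := fun p : ℝ × ℂ => ZZ p.1 p.2) f01_ZZ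
    (lt_of_le_of_lt h2.1 h3)
  have e2 := f01_aux (F := fun p : ℝ × ℂ => WW p.1 p.2) Iface.E_cont h0 h1 (ξ0 := ξ0) (g := fun p : ℝ × ℂ => ZZ' p.1 p.2) f01_ZZ'
    (lt_of_le_of_lt h2.2 h3)
  have e3 := f01_aux (F := fun p : ℝ × ℂ => deriv (WW p.1) p.2) Iface.E_cont' h0 h1 (ξ0 := ξ0) (g := fun p : ℝ × ℂ => ZZ p.1 p.2) f01_ZZ
    (lt_of_le_of_lt h2.1 h3)
  have e4 := f01_aux (F := fun p : ℝ × ℂ => deriv (WW p.1) p.2) Iface.E_cont' h0 h1 (ξ0 := ξ0) (g := fun p : ℝ × ℂ => ZZ' p.1 p.2) f01_ZZ'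
    (lt_of_le_of_lt h2.2 h3)
  exact ⟨e1, e2, e3, e4⟩

/-- `WW' ≠ 0` (`Iface.E_hol`, `C_ZZ_norm`), `ξ ± κ conj ξ ≠ 0` for `ξ ≠ 0`. -/
theorem F_deriv_ne {κ : ℝ} (h0 : 0 ≤ κ) (h1 : κ ≤ 1 / 10) {ξ : ℂ} (hξ : ‖ξ‖ ≤ 1) (hξ0 : ξ ≠ 0) :
    deriv (WW κ) (ZZ κ ξ) * (ξ + κ * conj ξ) ≠ 0 ∧
      deriv (WW κ) (ZZ' κ ξ) * (ξ - κ * conj ξ) ≠ 0 := by
  have h2 := C_ZZ_norm h0 h1 hξ
  have h3 : 1 + κ ^ 2 < 5 / 4 := by nlinarith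
  have h4 : 0 < ‖ξ‖ := norm_pos_iff.2 hξ0
  constructor
  · refine mul_ne_zero (f01_W h0 h1 (lt_of_le_of_lt h2.1 h3)) fun h => ?_
    have h5 := (c09_lin h0 h1 ξ).1
    rw [h, norm_zero] at h5
    linarith
  · refine mul_ne_zero (f01_W h0 h1 (lt_of_le_of_lt h2.2 h3)) fun h => ?_
    have h5 := (c09_lin' h0 h1 ξ).1
    rw [h, norm_zero] at h5
    linarith

end Pool.Agent.Lib.H11Q
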