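import Pool.Agent.Lib.H11Q.FD
import Pool.Agent.Lib.H11Q.C10B

set_option autoImplicit false

namespace Pool.Agent.Lib.H11Q

open Complex Set MeasureTheory
open scoped ComplexConjugate Topology

/-! F02 (M): continuity of `gi`, `gi'`. -/

theorem f02_bE : Continuous bE := by
  unfold bE
  refine Continuous.div (by fun_prop) (by fun_prop) fun E => ?_
  have := Real.sqrt_nonneg ((E + 1) / 2)
  positivity

theorem f02_den (k g : SU) {w : ℂ} (hw : ‖w‖ ≤ 1) : (k * g).den w = k.den (g.app w) * g.den w := by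
  have hd := g.den_ne hw
  have e : g.app w = (g.a * w + g.b) / g.den w := rfl
  have e2 : k.den (g.app w) * g.den w = conj k.b * (g.a * w + g.b) + conj k.a * g.den w := by
    rw [e]
    show (conj k.b * ((g.a * w + g.b) / g.den w) + conj k.a) * g.den w = _
    field_simp
  rw [e2]
  unfold SU.den
  rw [SU.mul_a, SU.mul_b, map_add, map_add, map_mul, map_mul, map_mul, map_mul, conj_conj, conj_conj]
  ring

theorem f02_base {Z0 w0 : ℂ} (hZ0 : Z0 ≠ 0) (hZ : ‖Z0‖ < 1) (hw : ‖w0‖ ≤ 1) :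
    gid 0 Z0 w0 ≠ 0 := by
  have hne : (o0 : Disc) ≠ ⟨Z0, hZ⟩ := fun h => hZ0 (congrArg Subtype.val h).symm
  obtain ⟨g, -, -, h3⟩ := C_two hne
  exact (h3 w0 hw).1

/-- `mink (Om X) (Om Z)` is continuous on the open disc, `> 1` at `(0, Z0)`, `bE` is continuous, `rel` is continuous and
`≠ 0` at `(0, Z0)` (`rel 0 Z0 = Z0`), so `uu` is continuous there; the denominator `gid 0 Z0 w0 = 1 + b w0 ≠ 0`
(`0 < b < 1`, `C_bE`). -/
theorem F_gi_cont {Z0 w0 : ℂ} (hZ0 : Z0 ≠ 0) (hZ : ‖Z0‖ < 1) (hw : ‖w0‖ ≤ 1) :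
    ContinuousAt (fun p : ℂ × ℂ × ℂ => gi p.1 p.2.1 p.2.2) (0, Z0, w0) ∧
    ContinuousAt (fun p : ℂ × ℂ × ℂ => gi' p.1 p.2.1 p.2.2) (0, Z0, w0) := by
  have h0 : (1 : ℝ) - ‖(0 : ℂ)‖ ^ 2 ≠ 0 := by simp
  have hz : (1 : ℝ) - ‖Z0‖ ^ 2 ≠ 0 := by
    have : 0 < 1 - ‖Z0‖ ^ 2 := by nlinarith [norm_nonneg Z0]
    exact this.ne'
  have h0c : ((1 - ‖(0 : ℂ)‖ ^ 2 : ℝ) : ℂ) ≠ 0 := by exact_mod_cast h0
  have hzc : ((1 - ‖Z0‖ ^ 2 : ℝ) : ℂ) ≠ 0 := by exact_mod_cast hz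
  have p1 : ContinuousAt (fun p : ℂ × ℂ × ℂ => p.1) (0, Z0, w0) := by fun_prop
  have p2 : ContinuousAt (fun p : ℂ × ℂ × ℂ => p.2.1) (0, Z0, w0) := by fun_prop
  have p3 : ContinuousAt (fun p : ℂ × ℂ × ℂ => p.2.2) (0, Z0, w0) := by fun_prop
  have q1 : ContinuousAt (fun p : ℂ × ℂ × ℂ => ((1 - ‖p.1‖ ^ 2 : ℝ) : ℂ)) (0, Z0, w0) := by fun_prop
  have q2 : ContinuousAt (fun p : ℂ × ℂ × ℂ => ((1 - ‖p.2.1‖ ^ 2 : ℝ) : ℂ)) (0, Z0, w0) := by fun_prop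
  have cm : ContinuousAt (fun p : ℂ × ℂ × ℂ => mink (Om p.1) (Om p.2.1)) (0, Z0, w0) := by
    unfold mink Om
    refine ContinuousAt.sub (ContinuousAt.mul ?_ ?_) ?_
    · exact ContinuousAt.div (by fun_prop) (by fun_prop) h0
    · exact ContinuousAt.div (by fun_prop) (by fun_prop) hz
    · refine continuous_re.continuousAt.comp (ContinuousAt.mul ?_ (continuous_conj.continuousAt.comp ?_))
      · exact ContinuousAt.div (continuousAt_const.mul p1) q1 h0c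
      · exact ContinuousAt.div (continuousAt_const.mul p2) q2 hzc
  have cb : ContinuousAt (fun p : ℂ × ℂ × ℂ => bE (mink (Om p.1) (Om p.2.1))) (0, Z0, w0) :=
    ContinuousAt.comp (g := bE) f02_bE.continuousAt cm
  have cbc : ContinuousAt (fun p : ℂ × ℂ × ℂ => ((bE (mink (Om p.1) (Om p.2.1)) : ℝ) : ℂ)) (0, Z0, w0) :=
    ContinuousAt.comp (g := Complex.ofReal) continuous_ofReal.continuousAt cb
  have cj : ContinuousAt (fun p : ℂ × ℂ × ℂ => conj p.1) (0, Z0, w0) :=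
    ContinuousAt.comp (g := fun z : ℂ => conj z) continuous_conj.continuousAt p1
  have cr : ContinuousAt (fun p : ℂ × ℂ × ℂ => rel p.1 p.2.1) (0, Z0, w0) := by
    unfold rel
    refine ContinuousAt.div (p2.sub p1) (continuousAt_const.sub (cj.mul p2)) ?_
    show 1 - conj (0 : ℂ) * Z0 ≠ 0
    simp
  have hr : rel 0 Z0 = Z0 := by
    unfold rel
    simp
  have crn : ContinuousAt (fun p : ℂ × ℂ × ℂ => ((‖rel p.1 p.2.1‖ : ℝ) : ℂ)) (0, Z0, w0) :=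
    ContinuousAt.comp (g := Complex.ofReal) continuous_ofReal.continuousAt cr.norm
  have cu : ContinuousAt (fun p : ℂ × ℂ × ℂ => uu p.1 p.2.1) (0, Z0, w0) := by
    unfold uu
    refine ContinuousAt.div cr crn ?_
    show ((‖rel 0 Z0‖ : ℝ) : ℂ) ≠ 0
    rw [hr, Ne, ofReal_eq_zero, norm_eq_zero]
    exact hZ0
  have cn : ContinuousAt (fun p : ℂ × ℂ × ℂ => gin p.1 p.2.1 p.2.2) (0, Z0, w0) := by
    unfold gin
    exact (cu.mul (p3.add cbc)).add (p1.mul (continuousAt_const.add (cbc.mul p3)))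
  have cd : ContinuousAt (fun p : ℂ × ℂ × ℂ => gid p.1 p.2.1 p.2.2) (0, Z0, w0) := by
    unfold gid
    exact (continuousAt_const.add (cbc.mul p3)).add ((cj.mul cu).mul (p3.add cbc))
  have hd := f02_base hZ0 hZ hw
  constructor
  · unfold gi
    exact cn.div cd hd
  · unfold gi'
    refine ContinuousAt.div (cu.mul ?_) (cd.pow 2) (pow_ne_zero 2 hd)
    exact ContinuousAt.comp (g := Complex.ofReal) continuous_ofReal.continuousAt
      ((continuousAt_const.sub (cb.pow 2)).mul (continuousAt_const.sub (p1.norm.pow 2)))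


/-- `gi X Z` is the map `g⁻¹` of `C_two`. -/
theorem F_gi_mem {X Z : Disc} (h : X ≠ Z) {w : ℂ} (hw : ‖w‖ < 1) :
    ‖gi X Z w‖ < 1 ∧ gi' X Z w ≠ 0 := by
  obtain ⟨g, -, -, h3⟩ := C_two h
  obtain ⟨h4, h5, h6⟩ := h3 w hw.le
  rw [← h5, ← h6]
  exact ⟨g⁻¹.app_norm_lt hw, one_div_ne_zero (pow_ne_zero 2 (g⁻¹.den_ne hw.le))⟩


/-- `g (X) = -b` etc.: `gi X Z (-b) = X`, `gi X Z b = Z`. -/
theorem F_gi_val {X Z : Disc} (h : X ≠ Z) :
    gi X Z (-(bE (mink (Om X) (Om Z)) : ℂ)) = X ∧ gi X Z (bE (mink (Om X) (Om Z)) : ℂ) = Z := by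
  obtain ⟨g, h1, h2, h3⟩ := C_two h
  rw [← h1, ← h2, ← (h3 _ (g.app_norm_lt X.2).le).2.1, ← (h3 _ (g.app_norm_lt Z.2).le).2.1,
    ← SU.app_mul _ _ X.2.le, ← SU.app_mul _ _ Z.2.le, inv_mul_cancel, SU.app_one, SU.app_one]
  exact ⟨rfl, rfl⟩


/-- `c1`, `c2` of module C are `cc1`, `cc2`. -/
theorem F_c1_eq {X Z : Disc} (h : X ≠ Z) (g : SU) (r κ : ℝ) (ξ : ℂ)
    (hg : 1 / (g⁻¹.den (r * beta κ ξ)) ^ 2 = gi' X Z (r * beta κ ξ)) :
    c1 g r κ ξ = cc1 X Z r κ ξ := by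
  unfold c1 cc1
  rw [hg]


/-- Cocycle: `(k * g⁻¹).den w = k.den (g⁻¹.app w) * g⁻¹.den w`. -/
theorem F_c2_eq {X Z : Disc} (h : X ≠ Z) (g k : SU) (r κ : ℝ) (ξ : ℂ)
    (hw : ‖(r : ℂ) * beta' κ ξ‖ ≤ 1)
    (hg : g⁻¹.app (r * beta' κ ξ) = gi X Z (r * beta' κ ξ))
    (hg' : 1 / (g⁻¹.den (r * beta' κ ξ)) ^ 2 = gi' X Z (r * beta' κ ξ)) :
    c2 (k * g⁻¹) r κ ξ = cc2 k X Z r κ ξ := by
  unfold c2 cc2
  rw [f02_den k g⁻¹ hw, ← hg', hg, mul_pow]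
  ring


end Pool.Agent.Lib.H11Q
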