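import Pool.Agent.Lib.H11Q.FD
import Pool.Agent.Lib.H11Q.Iface

set_option autoImplicit false

namespace Pool.Agent.Lib.H11Q

open Complex Set MeasureTheory
open scoped ComplexConjugate Topology

/-! F09A (S/M): the inverse function of `aa` and elementary derivatives. -/

/-- `aa` has a strict derivative `a' > 0` at `k0` (`Iface.E_aa`, `Iface.E_aa_cont`, `k0` is an interior point of
`[0, 1/10]`; `hasStrictDerivAt_of_hasDerivAt_of_continuousAt`), `aa k0 = a0`; local inverse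
(`HasStrictDerivAt.localInverse`, `HasStrictDerivAt.to_localInverse`, `eventually_right_inverse`). -/
theorem F_kap : ∃ (kap : ℝ → ℝ) (d : ℝ), 0 < d ∧ HasDerivAt kap d a0 ∧ kap a0 = k0 ∧
    ∀ᶠ b in 𝓝 a0, 1 / 20 ≤ kap b ∧ kap b ≤ 1 / 10 ∧ aa (kap b) = b := by
  obtain ⟨h1, h2, h3⟩ := Iface.E_k0
  have hnb : Icc (0 : ℝ) (1 / 10) ∈ 𝓝 k0 := Icc_mem_nhds (by linarith) (by linarith)
  have hder : ∀ᶠ y in 𝓝 k0, HasDerivAt aa (deriv aa y) y := by
    filter_upwards [hnb] with y hy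
    obtain ⟨a', -, ha⟩ := Iface.E_aa hy.1 hy.2
    exact ha.differentiableAt.hasDerivAt
  have hcont : ContinuousAt (deriv aa) k0 := Iface.E_aa_cont.continuousAt hnb
  have hs := hasStrictDerivAt_of_hasDerivAt_of_continuousAt hder hcont
  obtain ⟨a', ha0, ha⟩ := Iface.E_aa (κ := k0) (by linarith) (by linarith)
  have hd : deriv aa k0 = a' := ha.deriv
  rw [hd] at hs
  have hne : a' ≠ 0 := ha0.ne'
  have hinv := hs.to_localInverse hne
  have himg : hs.localInverse aa a' k0 hne (aa k0) = k0 :=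
    HasStrictFDerivAt.localInverse_apply_image (hs.hasStrictFDerivAt_equiv hne)
  have hev : ∀ᶠ y in 𝓝 (aa k0), aa (hs.localInverse aa a' k0 hne y) = y :=
    HasStrictFDerivAt.eventually_right_inverse (hs.hasStrictFDerivAt_equiv hne)
  rw [h1] at hinv himg hev
  refine ⟨hs.localInverse aa a' k0 hne, a'⁻¹, inv_pos.mpr ha0, hinv.hasDerivAt, himg, ?_⟩
  have hc : ContinuousAt (hs.localInverse aa a' k0 hne) a0 := hinv.hasDerivAt.continuousAt
  have hnb2 : Icc (1 / 20 : ℝ) (1 / 10) ∈ 𝓝 (hs.localInverse aa a' k0 hne a0) := by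
    rw [himg]
    exact Icc_mem_nhds (by linarith) (by linarith)
  filter_upwards [hc hnb2, hev] with b hb1 hb2
  exact ⟨hb1.1, hb1.2, hb2⟩

/-- `log (KK κ) = 2 (log (1+κ) - log (1-κ))`. -/
theorem F_logKK {κ : ℝ} (h0 : 0 ≤ κ) (h1 : κ < 1) :
    HasDerivAt (fun x => Real.log (KK x)) (4 / (1 - κ ^ 2)) κ := by
  have hp : 0 < 1 - κ := by linarith
  have hq : 0 < 1 + κ := by linarith
  have e1 : HasDerivAt (fun x : ℝ => 1 + x) 1 κ := by
    simpa using (hasDerivAt_id κ).const_add 1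
  have e2 : HasDerivAt (fun x : ℝ => 1 - x) (-1) κ := by
    simpa using (hasDerivAt_id κ).const_sub 1
  have hp' : 1 - κ ≠ 0 := hp.ne'
  have hq' : 1 + κ ≠ 0 := hq.ne'
  have e3 := ((e1.div e2 hp.ne').pow 2).log (by
    simp only [Pi.pow_apply, Pi.div_apply]
    exact pow_ne_zero 2 (div_ne_zero hq' hp'))
  have e4 : (fun x => Real.log (KK x)) = fun x => Real.log
      ((((fun x : ℝ => 1 + x) / fun x : ℝ => 1 - x) ^ 2) x) := by
    funext x
    simp [KK]
  rw [e4]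
  convert e3 using 1
  simp only [Pi.div_apply, Pi.pow_apply, Nat.add_one_sub_one, pow_one, Nat.cast_ofNat]
  have : 1 - κ ^ 2 = (1 - κ) * (1 + κ) := by ring
  rw [this]
  field_simp
  ring

/-- `bE E = S/(1+C)`, `S = √((E-1)/2)`, `C = √((E+1)/2)`; the derivative at `E > 1` is
`(S'(1+C) - S C')/(1+C)²`, with `S' = 1/(4S)`, `C' = 1/(4C)`: positive since `(1+C)/S > S/C`. -/
theorem F_bE_deriv {E : ℝ} (hE : 1 < E) : ∃ d > 0, HasDerivAt bE d E := by
  have hS : 0 < (E - 1) / 2 := by linarith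
  have hC : 0 < (E + 1) / 2 := by linarith
  have hS1 : 0 < Real.sqrt ((E - 1) / 2) := Real.sqrt_pos.mpr hS
  have hC1 : 0 < Real.sqrt ((E + 1) / 2) := Real.sqrt_pos.mpr hC
  have hSS : Real.sqrt ((E - 1) / 2) ^ 2 = (E - 1) / 2 := Real.sq_sqrt hS.le
  have hCC : Real.sqrt ((E + 1) / 2) ^ 2 = (E + 1) / 2 := Real.sq_sqrt hC.le
  have e1 : HasDerivAt (fun x : ℝ => (x - 1) / 2) (1 / 2) E :=
    ((hasDerivAt_id E).sub_const 1).div_const 2
  have e2 : HasDerivAt (fun x : ℝ => (x + 1) / 2) (1 / 2) E :=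
    ((hasDerivAt_id E).add_const 1).div_const 2
  have e3 := e1.sqrt hS.ne'
  have e4 := e2.sqrt hC.ne'
  have e5 := e3.div (e4.const_add 1) (by positivity : (1 : ℝ) + Real.sqrt ((E + 1) / 2) ≠ 0)
  refine ⟨_, ?_, e5⟩
  set S := Real.sqrt ((E - 1) / 2) with hSd
  set C := Real.sqrt ((E + 1) / 2) with hCd
  have e6 : C ^ 2 = S ^ 2 + 1 := by
    rw [hSS, hCC]
    ring
  apply div_pos _ (by positivity)
  have e7 : 1 / 2 / (2 * S) * (1 + C) - S * (1 / 2 / (2 * C)) = (C + C ^ 2 - S ^ 2) / (4 * S * C) := by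
    field_simp
    ring
  rw [e7, e6]
  apply div_pos _ (by positivity)
  linarith

/-- `bE CC = a0`. -/
theorem F_bE_CC : bE CC = a0 := by
  have h := one_lt_CC
  have hS : 0 < (CC - 1) / 2 := by linarith
  have hC : 0 < (CC + 1) / 2 := by linarith
  have hC1 : 0 < Real.sqrt ((CC + 1) / 2) := Real.sqrt_pos.mpr hC
  have e1 : vv = Real.sqrt ((CC - 1) / 2) / Real.sqrt ((CC + 1) / 2) := by
    rw [← Real.sqrt_div hS.le]
    unfold vv
    congr 1
    field_simp
  have e2 : Real.sqrt (1 - vv ^ 2) = 1 / Real.sqrt ((CC + 1) / 2) := by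
    rw [← Real.sqrt_one, ← Real.sqrt_div zero_le_one, vv_sq, Real.sqrt_one]
    congr 1
    have : CC + 1 ≠ 0 := by linarith
    field_simp
    ring
  unfold a0 bE
  rw [e2, e1]
  field_simp
  ring

theorem F_bE_mono {E E' : ℝ} (h : 1 ≤ E) (hE : E < E') : bE E < bE E' := by
  have hSS : Real.sqrt ((E - 1) / 2) ^ 2 = (E - 1) / 2 := Real.sq_sqrt (by linarith)
  have hCC : Real.sqrt ((E + 1) / 2) ^ 2 = (E + 1) / 2 := Real.sq_sqrt (by linarith)
  have hSS' : Real.sqrt ((E' - 1) / 2) ^ 2 = (E' - 1) / 2 := Real.sq_sqrt (by linarith)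
  have hCC' : Real.sqrt ((E' + 1) / 2) ^ 2 = (E' + 1) / 2 := Real.sq_sqrt (by linarith)
  have hS0 := Real.sqrt_nonneg ((E - 1) / 2)
  have hS0' : 0 < Real.sqrt ((E' - 1) / 2) := Real.sqrt_pos.mpr (by linarith)
  have hC0 : 0 < Real.sqrt ((E + 1) / 2) := Real.sqrt_pos.mpr (by linarith)
  have hC0' : 0 < Real.sqrt ((E' + 1) / 2) := Real.sqrt_pos.mpr (by linarith)
  have hSm : Real.sqrt ((E - 1) / 2) < Real.sqrt ((E' - 1) / 2) :=
    Real.sqrt_lt_sqrt (by linarith) (by linarith)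
  unfold bE
  set S := Real.sqrt ((E - 1) / 2) with hSd
  set C := Real.sqrt ((E + 1) / 2) with hCd
  set S' := Real.sqrt ((E' - 1) / 2) with hSd'
  set C' := Real.sqrt ((E' + 1) / 2) with hCd'
  rw [div_lt_div_iff₀ (by linarith) (by linarith)]
  have e1 : S * C' < S' * C := by
    apply lt_of_pow_lt_pow_left₀ 2 (by positivity)
    rw [mul_pow, mul_pow, hSS, hCC, hSS', hCC']
    nlinarith
  nlinarith

end Pool.Agent.Lib.H11Q
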