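import Pool.Agent.Lib.H11Q.FD
import Pool.Agent.Lib.H11Q.C10

set_option autoImplicit false

namespace Pool.Agent.Lib.H11Q

open Complex Set MeasureTheory
open scoped ComplexConjugate Topology

/-! F10A (S/M): positions of the vertices and centres. -/

theorem f10a_rho_A (s : ℕ) : rho (wA ^ s) = gA ^ s := by
  rw [map_pow]
  congr 1
  simp [rho, wA]

theorem f10a_rho_B (s : ℕ) : rho (wB ^ s) = gB ^ s := by
  rw [map_pow]
  congr 1
  simp [rho, wB]

theorem f10a_conj (t : ℝ) : conj (exp ((t : ℂ) * I)) = exp (-((t : ℂ) * I)) := by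
  rw [← Complex.exp_conj, map_mul, conj_ofReal, conj_I, mul_neg]

theorem f10a_gA : gA.a = exp (((Real.pi / 7 : ℝ) : ℂ) * I) ∧ gA.b = 0 := by
  constructor
  · unfold gA rot
    simp only [o0, norm_zero]
    rw [show 2 * Real.pi / 7 / 2 = Real.pi / 7 by ring, Complex.exp_mul_I, Complex.ofReal_cos,
      Complex.ofReal_sin]
    norm_num
    ring
  · unfold gA rot
    simp [o0]

theorem f10a_gA_pow (s : ℕ) : (gA ^ s).a = exp (((Real.pi * s / 7 : ℝ) : ℂ) * I) ∧
    (gA ^ s).b = 0 := by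
  induction s with
  | zero => simp
  | succ s ih =>
    rw [pow_succ, SU.mul_a, SU.mul_b, ih.1, ih.2, f10a_gA.1, f10a_gA.2]
    constructor
    · rw [zero_mul, add_zero, ← Complex.exp_add]
      congr 1
      push_cast
      ring
    · simp

theorem F_A_app (s : ℕ) (z : ℂ) : (rho (wA ^ s)).app z = er s * z := by
  rw [f10a_rho_A]
  unfold SU.app er
  rw [(f10a_gA_pow s).1, (f10a_gA_pow s).2, f10a_conj, map_zero, zero_mul, zero_add, add_zero,
    Complex.exp_neg, div_inv_eq_mul]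
  have : exp (((2 * Real.pi * s / 7 : ℝ) : ℂ) * I) =
      exp (((Real.pi * s / 7 : ℝ) : ℂ) * I) * exp (((Real.pi * s / 7 : ℝ) : ℂ) * I) := by
    rw [← Complex.exp_add]
    congr 1
    push_cast
    ring
  rw [this]
  ring

/-- `rho (wA ^ s) = rot o0 (2π s/7)` acts as multiplication by `er s` (`gA = (exp(iπ/7), 0)`). -/
theorem F_vs (s : ℕ) : (vs s : ℂ) = vv * er s := by
  have : (vs s : ℂ) = (rho (wA ^ s)).app v0 := rfl
  rw [this, F_A_app, mul_comm]
  rfl

theorem f10a_rel_B (z : ℂ) (hz : ‖z‖ < 1) :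
    rel vv (gB.app z) = exp (((2 * Real.pi / 3 : ℝ) : ℂ) * I) * rel vv z := by
  have hv0 := vv_pos
  have hv1 := vv_lt_one
  have hn : ‖((v0 : Disc) : ℂ)‖ = vv := by
    show ‖(vv : ℂ)‖ = vv
    rw [Complex.norm_real, Real.norm_eq_abs, abs_of_pos hv0]
  have hd := gB.den_ne hz.le
  have hvz : (1 : ℂ) - vv * z ≠ 0 := by
    intro h0
    have h1 : (vv : ℂ) * z = 1 := by linear_combination -h0
    have h2 := congrArg norm h1
    rw [norm_mul, Complex.norm_real, Real.norm_eq_abs, abs_of_pos hv0, norm_one] at h2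
    nlinarith [norm_nonneg z]
  obtain ⟨c, hc⟩ : ∃ c : ℝ, c = Real.cos (2 * Real.pi / 3 / 2) := ⟨_, rfl⟩
  obtain ⟨σ, hσ⟩ : ∃ σ : ℝ, σ = Real.sin (2 * Real.pi / 3 / 2) := ⟨_, rfl⟩
  have hcs : c ^ 2 + σ ^ 2 = 1 := by
    rw [hc, hσ]
    exact Real.cos_sq_add_sin_sq _
  have hq : (1 : ℝ) - vv ^ 2 ≠ 0 := by nlinarith
  have hqC : (1 : ℂ) - (vv : ℂ) ^ 2 ≠ 0 := by exact_mod_cast hq
  have ha : gB.a = c + I * σ * ((1 + vv ^ 2) / (1 - vv ^ 2)) := by
    unfold gB rot
    simp only [hn, ← hc, ← hσ]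
    push_cast
    ring
  have hb : gB.b = -2 * I * σ * vv / (1 - vv ^ 2) := by
    unfold gB rot
    simp only [hn, ← hσ]
    push_cast
    rfl
  have hca : conj gB.a = c - I * σ * ((1 + vv ^ 2) / (1 - vv ^ 2)) := by
    rw [ha]
    simp only [map_add, map_mul, map_div₀, map_sub, map_pow, conj_ofReal, conj_I, map_one]
    ring
  have hcb : conj gB.b = 2 * I * σ * vv / (1 - vv ^ 2) := by
    rw [hb]
    simp only [map_neg, map_ofNat, map_mul, map_div₀, map_sub, map_pow, conj_ofReal, conj_I, map_one]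
    ring
  have e1 : gB.a - vv * conj gB.b = c + I * σ := by
    rw [ha, hcb]
    field_simp
    ring
  have e2 : gB.b - vv * conj gB.a = -(vv * (c + I * σ)) := by
    rw [hb, hca]
    field_simp
    ring
  have e3 : conj gB.a - vv * gB.b = c - I * σ := by
    rw [hca, hb]
    field_simp
    ring
  have e4 : conj gB.b - vv * gB.a = -(vv * (c - I * σ)) := by
    rw [ha, hcb]
    field_simp
    ring
  have hden : gB.den z = conj gB.b * z + conj gB.a := rfl
  have happ : gB.app z = (gB.a * z + gB.b) / gB.den z := rfl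
  have h1 : gB.app z - vv = (c + I * σ) * (z - vv) / gB.den z := by
    rw [happ, eq_div_iff hd, sub_mul, div_mul_cancel₀ _ hd, hden]
    linear_combination z * e1 + e2
  have h2 : 1 - vv * gB.app z = (c - I * σ) * (1 - vv * z) / gB.den z := by
    rw [happ, eq_div_iff hd, sub_mul, mul_assoc, div_mul_cancel₀ _ hd, hden]
    linear_combination z * e4 + e3
  have hne : (c : ℂ) - I * σ ≠ 0 := by
    intro h0
    have h3 : ((c : ℂ) + I * σ) * (c - I * σ) = 1 := by
      have : (c : ℂ) ^ 2 + (σ : ℂ) ^ 2 = 1 := by exact_mod_cast hcs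
      linear_combination this - (σ : ℂ) ^ 2 * Complex.I_sq
    rw [h0, mul_zero] at h3
    exact zero_ne_one h3
  have h4 : exp (((2 * Real.pi / 3 : ℝ) : ℂ) * I) * (c - I * σ) = c + I * σ := by
    have e5 : exp (((2 * Real.pi / 3 / 2 : ℝ) : ℂ) * I) = c + I * σ := by
      rw [Complex.exp_mul_I, hc, hσ, Complex.ofReal_cos, Complex.ofReal_sin]
      ring
    have e6 : exp (-(((2 * Real.pi / 3 / 2 : ℝ) : ℂ) * I)) = c - I * σ := by
      rw [← f10a_conj, e5]
      simp only [map_add, map_mul, conj_ofReal, conj_I]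
      ring
    rw [← e5, ← e6, ← Complex.exp_add]
    congr 1
    push_cast
    ring
  unfold rel
  rw [conj_ofReal, h1, h2, div_div_div_cancel_right₀ hd, ← h4]
  field_simp

theorem f10a_B_pow (r : ℕ) :
    rel vv ((SU.act (gB ^ r) o0 : Disc) : ℂ) = -(vv * exp (((2 * Real.pi * r / 3 : ℝ) : ℂ) * I)) := by
  induction r with
  | zero =>
    simp [rel, o0]
  | succ r ih =>
    have h1 : ((SU.act (gB ^ (r + 1)) o0 : Disc) : ℂ) = gB.app ((SU.act (gB ^ r) o0 : Disc) : ℂ) := by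
      rw [pow_succ', map_mul]
      rfl
    rw [h1, f10a_rel_B _ (SU.act (gB ^ r) o0).2, ih]
    have h2 : exp (((2 * Real.pi * (r + 1 : ℕ) / 3 : ℝ) : ℂ) * I) =
        exp (((2 * Real.pi / 3 : ℝ) : ℂ) * I) * exp (((2 * Real.pi * r / 3 : ℝ) : ℂ) * I) := by
      rw [← Complex.exp_add]
      congr 1
      push_cast
      ring
    rw [h2]
    ring

/-- `rel (u z) (u w) = u rel z w` for `|u| = 1`, and for the rotation `B` about `v0`:
`rel v0 (B z) = exp(2πi/3) rel v0 z` (conjugate `rot v0 θ` by the translation `(1/√(1-v²), v/√(1-v²))`: direct computation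
with `den`).  So `rel (vs j) (A^j B^r 0) = er j * exp(2πi r/3) * rel v0 0 = - er j exp(2πi r/3) vv`. -/
theorem F_fr (j r : ℕ) : rel (vs j) ((ac (wA ^ j * wB ^ r) o0 : Disc) : ℂ) = vv * fr j r := by
  have h1 : ((ac (wA ^ j * wB ^ r) o0 : Disc) : ℂ) = er j * ((SU.act (gB ^ r) o0 : Disc) : ℂ) := by
    have : ((ac (wA ^ j * wB ^ r) o0 : Disc) : ℂ) =
        (rho (wA ^ j)).app ((SU.act (rho (wB ^ r)) o0 : Disc) : ℂ) := by
      unfold ac
      rw [map_mul]
      rfl
    rw [this, F_A_app, f10a_rho_B]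
  have hu : conj (er j) * er j = 1 := by
    unfold er
    rw [f10a_conj, ← Complex.exp_add, neg_add_cancel, Complex.exp_zero]
  have h2 : rel (vs j) ((ac (wA ^ j * wB ^ r) o0 : Disc) : ℂ) =
      er j * rel vv ((SU.act (gB ^ r) o0 : Disc) : ℂ) := by
    rw [h1, F_vs]
    unfold rel
    rw [map_mul, conj_ofReal, mul_div_assoc']
    congr 1
    · ring
    · linear_combination (-(vv : ℂ) * ((SU.act (gB ^ r) o0 : Disc) : ℂ)) * hu
  rw [h2, f10a_B_pow]
  unfold fr er
  have h3 : exp (((2 * Real.pi * j / 7 + 2 * Real.pi * r / 3 : ℝ) : ℂ) * I) =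
      exp (((2 * Real.pi * j / 7 : ℝ) : ℂ) * I) * exp (((2 * Real.pi * r / 3 : ℝ) : ℂ) * I) := by
    rw [← Complex.exp_add]
    congr 1
    push_cast
    ring
  rw [h3]
  ring

end Pool.Agent.Lib.H11Q
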