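import Pool.Agent.Lib.H11Q.F01
import Pool.Agent.Lib.H11Q.F02
import Pool.Agent.Lib.H11Q.F09A
import Pool.Agent.Lib.H11Q.F10A

set_option autoImplicit false

namespace Pool.Agent.Lib.H11Q

open Complex Set MeasureTheory
open scoped ComplexConjugate Topology

/-! F03 (M): continuity of the first variation at the base point. -/

theorem f03_er (s : ℕ) : ‖er s‖ = 1 := by
  unfold er
  exact Complex.norm_exp_ofReal_mul_I _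

/-- `bE CC = a0` (`S/(1+C)` with `vv = S/C`), `mink (Om 0) (Om (vs s)) = CC`. -/
theorem F_base (s : ℕ) : bE CC = a0 ∧ mink (Om 0) (Om (vs s)) = CC ∧ (vs s : ℂ) ≠ 0 := by
  refine ⟨F_bE_CC, ?_, ?_⟩
  · have h1 : ‖((vs s : Disc) : ℂ)‖ = vv := by
      rw [F_vs, norm_mul, f03_er, mul_one, Complex.norm_real, Real.norm_eq_abs,
        abs_of_pos vv_pos]
    have h2 := vv_sq
    have h3 := one_lt_CC
    unfold mink Om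
    simp only [norm_zero, ne_eq, OfNat.ofNat_ne_zero, not_false_eq_true, zero_pow, add_zero,
      sub_zero, div_one, mul_zero, ofReal_one, zero_mul, zero_re]
    rw [h1, h2, one_mul]
    have h4 : CC + 1 ≠ 0 := by linarith
    field_simp
    ring
  · rw [F_vs]
    apply mul_ne_zero
    · exact_mod_cast vv_pos.ne'
    · intro h
      have := f03_er s
      rw [h, norm_zero] at this
      exact zero_ne_one this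

theorem f03_pul {α : Type*} [TopologicalSpace α] {m c : α → ℂ} {x : α} (hm : ContinuousAt m x)
    (hc : ContinuousAt c x) (h : c x ≠ 0) : ContinuousAt (fun y => pul (m y) (c y)) x := by
  unfold pul
  exact hm.mul ((continuous_conj.continuousAt.comp hc).div hc h)

/-- Distance of a point to a fixed point. -/
theorem f03_sh {α : Type*} [TopologicalSpace α] {f : α → ℂ} {x : α} (hf : ContinuousAt f x)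
    {p : ℂ} (hp : ‖p‖ < 1) (hx : f x = p) {δ : ℝ} (hδ : 0 < δ) :
    ∀ᶠ y in 𝓝 x, ‖f y‖ < 1 ∧ sh (f y) p < δ := by
  have h1 : ∀ᶠ y in 𝓝 x, ‖f y‖ < 1 := by
    apply (hf.norm).eventually_lt continuousAt_const
    rw [hx]
    exact hp
  have h2 : ContinuousAt (fun y => sh (f y) p) x := by
    unfold sh
    apply ContinuousAt.div
    · exact ((hf.sub continuousAt_const).norm).pow 2
    · exact (continuousAt_const.sub (hf.norm.pow 2)).mul continuousAt_const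
    · rw [hx]
      have : 0 < 1 - ‖p‖ ^ 2 := by nlinarith [norm_nonneg p]
      exact (mul_pos this this).ne'
  have h3 : sh (f x) p = 0 := by
    rw [hx]
    unfold sh
    simp
  have h4 : ∀ᶠ y in 𝓝 x, sh (f y) p < δ := by
    apply h2.eventually_lt continuousAt_const
    show sh (f x) p < δ
    rw [h3]
    exact hδ
  exact h1.and h4

theorem f03_parts (L : LineSys) (k : SU) (s : ℕ) {ξ0 : ℂ}
    (hξ : ‖ξ0‖ < 1) (hξ0 : ξ0 ≠ 0) :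
    ContinuousAt (fun p : ℂ × ℂ × ℝ × ℝ × ℂ × ℂ =>
      pul (mu L (gi p.1 p.2.1 (((p.2.2.1 : ℝ) : ℂ) * beta p.2.2.2.1 p.2.2.2.2.1)))
        (cc1 p.1 p.2.1 p.2.2.1 p.2.2.2.1 p.2.2.2.2.1))
      (0, (vs s : ℂ), 1, k0, ξ0, ξ0) ∧
    ContinuousAt (fun p : ℂ × ℂ × ℝ × ℝ × ℂ × ℂ =>
      pul (mu L (k.app (gi p.1 p.2.1 (((p.2.2.1 : ℝ) : ℂ) * beta' p.2.2.2.1 p.2.2.2.2.2))))
        (cc2 k p.1 p.2.1 p.2.2.1 p.2.2.2.1 p.2.2.2.2.2))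
      (0, (vs s : ℂ), 1, k0, ξ0, ξ0) ∧
    ContinuousAt (fun p : ℂ × ℂ × ℝ × ℝ × ℂ × ℂ =>
      nn L k p.1 p.2.1 p.2.2.1 p.2.2.2.1 p.2.2.2.2.1 p.2.2.2.2.2)
      (0, (vs s : ℂ), 1, k0, ξ0, ξ0) := by
  obtain ⟨hb1, hb2, hb3⟩ := F_base s
  obtain ⟨e1, e2, e3⟩ := Iface.E_k0
  have hk0 : 0 < k0 := by linarith
  have hk1 : k0 < 1 / 10 := by linarith
  obtain ⟨c1, c2, c3, c4⟩ := F_beta_cont hk0 hk1 hξ
  obtain ⟨n1, n2⟩ := Iface.E_beta_lt hk0.le hk1.le hξ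
  -- the projections
  let x0 : ℂ × ℂ × ℝ × ℝ × ℂ × ℂ := (0, (vs s : ℂ), 1, k0, ξ0, ξ0)
  have pX : ContinuousAt (fun p : ℂ × ℂ × ℝ × ℝ × ℂ × ℂ => p.1) x0 := by fun_prop
  have pZ : ContinuousAt (fun p : ℂ × ℂ × ℝ × ℝ × ℂ × ℂ => p.2.1) x0 := by fun_prop
  have pr : ContinuousAt (fun p : ℂ × ℂ × ℝ × ℝ × ℂ × ℂ => ((p.2.2.1 : ℝ) : ℂ)) x0 := by fun_prop
  have pκ : ContinuousAt (fun p : ℂ × ℂ × ℝ × ℝ × ℂ × ℂ => ((p.2.2.2.1 : ℝ) : ℂ)) x0 := by fun_prop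
  have pξ : ContinuousAt (fun p : ℂ × ℂ × ℝ × ℝ × ℂ × ℂ => p.2.2.2.2.1) x0 := by fun_prop
  have pξ' : ContinuousAt (fun p : ℂ × ℂ × ℝ × ℝ × ℂ × ℂ => p.2.2.2.2.2) x0 := by fun_prop
  have q1 : ContinuousAt (fun p : ℂ × ℂ × ℝ × ℝ × ℂ × ℂ => (p.2.2.2.1, p.2.2.2.2.1)) x0 := by
    fun_prop
  have q2 : ContinuousAt (fun p : ℂ × ℂ × ℝ × ℝ × ℂ × ℂ => (p.2.2.2.1, p.2.2.2.2.2)) x0 := by
    fun_prop
  have b1 : ContinuousAt (fun p : ℂ × ℂ × ℝ × ℝ × ℂ × ℂ => beta p.2.2.2.1 p.2.2.2.2.1) x0 :=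
    ContinuousAt.comp (g := fun p : ℝ × ℂ => beta p.1 p.2)
      (f := fun p : ℂ × ℂ × ℝ × ℝ × ℂ × ℂ => (p.2.2.2.1, p.2.2.2.2.1)) (x := x0) c1 q1
  have b2 : ContinuousAt (fun p : ℂ × ℂ × ℝ × ℝ × ℂ × ℂ => beta' p.2.2.2.1 p.2.2.2.2.2) x0 :=
    ContinuousAt.comp (g := fun p : ℝ × ℂ => beta' p.1 p.2)
      (f := fun p : ℂ × ℂ × ℝ × ℝ × ℂ × ℂ => (p.2.2.2.1, p.2.2.2.2.2)) (x := x0) c2 q2
  have b3 : ContinuousAt (fun p : ℂ × ℂ × ℝ × ℝ × ℂ × ℂ =>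
      deriv (WW p.2.2.2.1) (ZZ p.2.2.2.1 p.2.2.2.2.1)) x0 :=
    ContinuousAt.comp (g := fun p : ℝ × ℂ => deriv (WW p.1) (ZZ p.1 p.2))
      (f := fun p : ℂ × ℂ × ℝ × ℝ × ℂ × ℂ => (p.2.2.2.1, p.2.2.2.2.1)) (x := x0) c3 q1
  have b4 : ContinuousAt (fun p : ℂ × ℂ × ℝ × ℝ × ℂ × ℂ =>
      deriv (WW p.2.2.2.1) (ZZ' p.2.2.2.1 p.2.2.2.2.2)) x0 :=
    ContinuousAt.comp (g := fun p : ℝ × ℂ => deriv (WW p.1) (ZZ' p.1 p.2))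
      (f := fun p : ℂ × ℂ × ℝ × ℝ × ℂ × ℂ => (p.2.2.2.1, p.2.2.2.2.2)) (x := x0) c4 q2
  have w1 : ContinuousAt (fun p : ℂ × ℂ × ℝ × ℝ × ℂ × ℂ =>
      ((p.2.2.1 : ℝ) : ℂ) * beta p.2.2.2.1 p.2.2.2.2.1) x0 := pr.mul b1
  have w2 : ContinuousAt (fun p : ℂ × ℂ × ℝ × ℝ × ℂ × ℂ =>
      ((p.2.2.1 : ℝ) : ℂ) * beta' p.2.2.2.1 p.2.2.2.2.2) x0 := pr.mul b2
  have t1 : ContinuousAt (fun p : ℂ × ℂ × ℝ × ℝ × ℂ × ℂ =>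
      (p.1, p.2.1, ((p.2.2.1 : ℝ) : ℂ) * beta p.2.2.2.1 p.2.2.2.2.1)) x0 :=
    pX.prodMk (pZ.prodMk w1)
  have t2 : ContinuousAt (fun p : ℂ × ℂ × ℝ × ℝ × ℂ × ℂ =>
      (p.1, p.2.1, ((p.2.2.1 : ℝ) : ℂ) * beta' p.2.2.2.1 p.2.2.2.2.2)) x0 :=
    pX.prodMk (pZ.prodMk w2)
  have o1 : ((1 : ℝ) : ℂ) * beta k0 ξ0 = beta k0 ξ0 := by rw [ofReal_one, one_mul]
  have o2 : ((1 : ℝ) : ℂ) * beta' k0 ξ0 = beta' k0 ξ0 := by rw [ofReal_one, one_mul]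
  have g1 := F_gi_cont hb3 (vs s).2 (w0 := ((1 : ℝ) : ℂ) * beta k0 ξ0) (by rw [o1]; exact n1.le)
  have g2 := F_gi_cont hb3 (vs s).2 (w0 := ((1 : ℝ) : ℂ) * beta' k0 ξ0) (by rw [o2]; exact n2.le)
  have z1 : ContinuousAt (fun p : ℂ × ℂ × ℝ × ℝ × ℂ × ℂ =>
      gi p.1 p.2.1 (((p.2.2.1 : ℝ) : ℂ) * beta p.2.2.2.1 p.2.2.2.2.1)) x0 :=
    ContinuousAt.comp (g := fun p : ℂ × ℂ × ℂ => gi p.1 p.2.1 p.2.2)
      (f := fun p : ℂ × ℂ × ℝ × ℝ × ℂ × ℂ =>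
      (p.1, p.2.1, ((p.2.2.1 : ℝ) : ℂ) * beta p.2.2.2.1 p.2.2.2.2.1)) (x := x0) g1.1 t1
  have z1' : ContinuousAt (fun p : ℂ × ℂ × ℝ × ℝ × ℂ × ℂ =>
      gi' p.1 p.2.1 (((p.2.2.1 : ℝ) : ℂ) * beta p.2.2.2.1 p.2.2.2.2.1)) x0 :=
    ContinuousAt.comp (g := fun p : ℂ × ℂ × ℂ => gi' p.1 p.2.1 p.2.2)
      (f := fun p : ℂ × ℂ × ℝ × ℝ × ℂ × ℂ =>
      (p.1, p.2.1, ((p.2.2.1 : ℝ) : ℂ) * beta p.2.2.2.1 p.2.2.2.2.1)) (x := x0) g1.2 t1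
  have z2 : ContinuousAt (fun p : ℂ × ℂ × ℝ × ℝ × ℂ × ℂ =>
      gi p.1 p.2.1 (((p.2.2.1 : ℝ) : ℂ) * beta' p.2.2.2.1 p.2.2.2.2.2)) x0 :=
    ContinuousAt.comp (g := fun p : ℂ × ℂ × ℂ => gi p.1 p.2.1 p.2.2)
      (f := fun p : ℂ × ℂ × ℝ × ℝ × ℂ × ℂ =>
      (p.1, p.2.1, ((p.2.2.1 : ℝ) : ℂ) * beta' p.2.2.2.1 p.2.2.2.2.2)) (x := x0) g2.1 t2
  have z2' : ContinuousAt (fun p : ℂ × ℂ × ℝ × ℝ × ℂ × ℂ =>
      gi' p.1 p.2.1 (((p.2.2.1 : ℝ) : ℂ) * beta' p.2.2.2.1 p.2.2.2.2.2)) x0 :=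
    ContinuousAt.comp (g := fun p : ℂ × ℂ × ℂ => gi' p.1 p.2.1 p.2.2)
      (f := fun p : ℂ × ℂ × ℝ × ℝ × ℂ × ℂ =>
      (p.1, p.2.1, ((p.2.2.1 : ℝ) : ℂ) * beta' p.2.2.2.1 p.2.2.2.2.2)) (x := x0) g2.2 t2
  have h0vs : o0 ≠ vs s := by
    intro h
    apply hb3
    rw [← h]
    rfl
  obtain ⟨m1, m1'⟩ := F_gi_mem h0vs n1
  obtain ⟨m2, m2'⟩ := F_gi_mem h0vs n2
  have hco0 : ((o0 : Disc) : ℂ) = 0 := rfl
  rw [hco0] at m1 m1' m2 m2'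
  -- `k` after `z2`
  have hden : k.den (gi 0 (vs s) (((1 : ℝ) : ℂ) * beta' k0 ξ0)) ≠ 0 := by
    rw [o2]
    exact k.den_ne m2.le
  have kd : ContinuousAt (fun p : ℂ × ℂ × ℝ × ℝ × ℂ × ℂ =>
      k.den (gi p.1 p.2.1 (((p.2.2.1 : ℝ) : ℂ) * beta' p.2.2.2.1 p.2.2.2.2.2))) x0 := by
    unfold SU.den
    exact (continuousAt_const.mul z2).add continuousAt_const
  have ka : ContinuousAt (fun p : ℂ × ℂ × ℝ × ℝ × ℂ × ℂ =>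
      k.app (gi p.1 p.2.1 (((p.2.2.1 : ℝ) : ℂ) * beta' p.2.2.2.1 p.2.2.2.2.2))) x0 := by
    unfold SU.app
    exact ((continuousAt_const.mul z2).add continuousAt_const).div kd hden
  obtain ⟨d1, d2⟩ := F_deriv_ne hk0.le hk1.le hξ.le hξ0
  have hball1 : gi 0 (vs s) (((1 : ℝ) : ℂ) * beta k0 ξ0) ∈ Metric.ball (0 : ℂ) 1 := by
    rw [o1, mem_ball_zero_iff]
    exact m1
  have hball2 : k.app (gi 0 (vs s) (((1 : ℝ) : ℂ) * beta' k0 ξ0)) ∈ Metric.ball (0 : ℂ) 1 := by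
    rw [o2, mem_ball_zero_iff]
    exact k.app_norm_lt m2
  have μ1 : ContinuousAt (fun p : ℂ × ℂ × ℝ × ℝ × ℂ × ℂ =>
      mu L (gi p.1 p.2.1 (((p.2.2.1 : ℝ) : ℂ) * beta p.2.2.2.1 p.2.2.2.2.1))) x0 :=
    ContinuousAt.comp (f := fun p : ℂ × ℂ × ℝ × ℝ × ℂ × ℂ =>
      gi p.1 p.2.1 (((p.2.2.1 : ℝ) : ℂ) * beta p.2.2.2.1 p.2.2.2.2.1)) (x := x0)
      ((Iface.T_mu_cont L).continuousAt (Metric.isOpen_ball.mem_nhds hball1)) z1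
  have μ2 : ContinuousAt (fun p : ℂ × ℂ × ℝ × ℝ × ℂ × ℂ =>
      mu L (k.app (gi p.1 p.2.1 (((p.2.2.1 : ℝ) : ℂ) * beta' p.2.2.2.1 p.2.2.2.2.2)))) x0 :=
    ContinuousAt.comp (f := fun p : ℂ × ℂ × ℝ × ℝ × ℂ × ℂ =>
      k.app (gi p.1 p.2.1 (((p.2.2.1 : ℝ) : ℂ) * beta' p.2.2.2.1 p.2.2.2.2.2))) (x := x0)
      ((Iface.T_mu_cont L).continuousAt (Metric.isOpen_ball.mem_nhds hball2)) ka
  have k1 : ContinuousAt (fun p : ℂ × ℂ × ℝ × ℝ × ℂ × ℂ =>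
      cc1 p.1 p.2.1 p.2.2.1 p.2.2.2.1 p.2.2.2.2.1) x0 := by
    unfold cc1
    exact (z1'.mul b3).mul (pξ.add (pκ.mul (continuous_conj.continuousAt.comp pξ)))
  have k2 : ContinuousAt (fun p : ℂ × ℂ × ℝ × ℝ × ℂ × ℂ =>
      cc2 k p.1 p.2.1 p.2.2.1 p.2.2.2.1 p.2.2.2.2.2) x0 := by
    unfold cc2
    exact (((continuousAt_const.div (kd.pow 2) (pow_ne_zero 2 hden)).mul z2').mul b4).mul
      (pξ'.sub (pκ.mul (continuous_conj.continuousAt.comp pξ')))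
  have k1n : cc1 0 (vs s) 1 k0 ξ0 ≠ 0 := by
    unfold cc1
    rw [mul_assoc]
    apply mul_ne_zero _ d1
    rw [o1]
    exact m1'
  have k2n : cc2 k 0 (vs s) 1 k0 ξ0 ≠ 0 := by
    unfold cc2
    rw [mul_assoc]
    apply mul_ne_zero _ d2
    apply mul_ne_zero
    · exact div_ne_zero one_ne_zero (pow_ne_zero 2 hden)
    · rw [o2]
      exact m2'
  have r1 := f03_pul μ1 k1 k1n
  have r2 := f03_pul μ2 k2 k2n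
  refine ⟨r1, r2, ?_⟩
  unfold nn
  exact (continuousAt_const.mul (continuous_re.continuousAt.comp r1)).sub
    (continuousAt_const.mul (continuous_re.continuousAt.comp r2))

/-- If `ξ0 ≠ 0`: all factors of `cc1`, `cc2` are continuous and not zero at the base point (`F_beta_cont`, `F_gi_cont`,
`F_deriv_ne`, `F_gi_mem`), `mu L` is continuous on the open disc (`Iface.T_mu_cont`), and the arguments of `mu L` are in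
the open disc; `pul m c = m * (conj c / c)`.
If `ξ0 = 0`: near the base point both arguments of `mu L` are near `gi 0 (vs s) (-a0) = 0 = ac 1 o0` resp.
`k (vs s) = ac u v0` (`F_gi_val`, `C_beta_zero`, `Iface.E_k0`, `F_base`), where `mu L = 0` (`Iface.T_mu_zero`; `sh` is continuous), so
`nn = 0` near the base point. -/
theorem F_nn_cont (L : LineSys) {k : SU} {s : ℕ} (hk : ∃ u : W, k.app (vs s) = ac u v0) {ξ0 : ℂ}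
    (hξ : ‖ξ0‖ < 1) :
    ContinuousAt (fun p : ℂ × ℂ × ℝ × ℝ × ℂ × ℂ =>
      nn L k p.1 p.2.1 p.2.2.1 p.2.2.2.1 p.2.2.2.2.1 p.2.2.2.2.2)
      (0, (vs s : ℂ), 1, k0, ξ0, ξ0) := by
  obtain ⟨hb1, hb2, hb3⟩ := F_base s
  obtain ⟨e1, e2, e3⟩ := Iface.E_k0
  have hk0 : 0 < k0 := by linarith
  have hk1 : k0 < 1 / 10 := by linarith
  obtain ⟨c1, c2, c3, c4⟩ := F_beta_cont hk0 hk1 hξ
  obtain ⟨n1, n2⟩ := Iface.E_beta_lt hk0.le hk1.le hξ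
  -- the projections
  let x0 : ℂ × ℂ × ℝ × ℝ × ℂ × ℂ := (0, (vs s : ℂ), 1, k0, ξ0, ξ0)
  have pX : ContinuousAt (fun p : ℂ × ℂ × ℝ × ℝ × ℂ × ℂ => p.1) x0 := by fun_prop
  have pZ : ContinuousAt (fun p : ℂ × ℂ × ℝ × ℝ × ℂ × ℂ => p.2.1) x0 := by fun_prop
  have pr : ContinuousAt (fun p : ℂ × ℂ × ℝ × ℝ × ℂ × ℂ => ((p.2.2.1 : ℝ) : ℂ)) x0 := by fun_prop
  have pκ : ContinuousAt (fun p : ℂ × ℂ × ℝ × ℝ × ℂ × ℂ => ((p.2.2.2.1 : ℝ) : ℂ)) x0 := by fun_prop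
  have pξ : ContinuousAt (fun p : ℂ × ℂ × ℝ × ℝ × ℂ × ℂ => p.2.2.2.2.1) x0 := by fun_prop
  have pξ' : ContinuousAt (fun p : ℂ × ℂ × ℝ × ℝ × ℂ × ℂ => p.2.2.2.2.2) x0 := by fun_prop
  have q1 : ContinuousAt (fun p : ℂ × ℂ × ℝ × ℝ × ℂ × ℂ => (p.2.2.2.1, p.2.2.2.2.1)) x0 := by
    fun_prop
  have q2 : ContinuousAt (fun p : ℂ × ℂ × ℝ × ℝ × ℂ × ℂ => (p.2.2.2.1, p.2.2.2.2.2)) x0 := by
    fun_prop
  have b1 : ContinuousAt (fun p : ℂ × ℂ × ℝ × ℝ × ℂ × ℂ => beta p.2.2.2.1 p.2.2.2.2.1) x0 :=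
    ContinuousAt.comp (g := fun p : ℝ × ℂ => beta p.1 p.2)
      (f := fun p : ℂ × ℂ × ℝ × ℝ × ℂ × ℂ => (p.2.2.2.1, p.2.2.2.2.1)) (x := x0) c1 q1
  have b2 : ContinuousAt (fun p : ℂ × ℂ × ℝ × ℝ × ℂ × ℂ => beta' p.2.2.2.1 p.2.2.2.2.2) x0 :=
    ContinuousAt.comp (g := fun p : ℝ × ℂ => beta' p.1 p.2)
      (f := fun p : ℂ × ℂ × ℝ × ℝ × ℂ × ℂ => (p.2.2.2.1, p.2.2.2.2.2)) (x := x0) c2 q2
  have b3 : ContinuousAt (fun p : ℂ × ℂ × ℝ × ℝ × ℂ × ℂ =>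
      deriv (WW p.2.2.2.1) (ZZ p.2.2.2.1 p.2.2.2.2.1)) x0 :=
    ContinuousAt.comp (g := fun p : ℝ × ℂ => deriv (WW p.1) (ZZ p.1 p.2))
      (f := fun p : ℂ × ℂ × ℝ × ℝ × ℂ × ℂ => (p.2.2.2.1, p.2.2.2.2.1)) (x := x0) c3 q1
  have b4 : ContinuousAt (fun p : ℂ × ℂ × ℝ × ℝ × ℂ × ℂ =>
      deriv (WW p.2.2.2.1) (ZZ' p.2.2.2.1 p.2.2.2.2.2)) x0 :=
    ContinuousAt.comp (g := fun p : ℝ × ℂ => deriv (WW p.1) (ZZ' p.1 p.2))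
      (f := fun p : ℂ × ℂ × ℝ × ℝ × ℂ × ℂ => (p.2.2.2.1, p.2.2.2.2.2)) (x := x0) c4 q2
  have w1 : ContinuousAt (fun p : ℂ × ℂ × ℝ × ℝ × ℂ × ℂ =>
      ((p.2.2.1 : ℝ) : ℂ) * beta p.2.2.2.1 p.2.2.2.2.1) x0 := pr.mul b1
  have w2 : ContinuousAt (fun p : ℂ × ℂ × ℝ × ℝ × ℂ × ℂ =>
      ((p.2.2.1 : ℝ) : ℂ) * beta' p.2.2.2.1 p.2.2.2.2.2) x0 := pr.mul b2
  have t1 : ContinuousAt (fun p : ℂ × ℂ × ℝ × ℝ × ℂ × ℂ =>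
      (p.1, p.2.1, ((p.2.2.1 : ℝ) : ℂ) * beta p.2.2.2.1 p.2.2.2.2.1)) x0 :=
    pX.prodMk (pZ.prodMk w1)
  have t2 : ContinuousAt (fun p : ℂ × ℂ × ℝ × ℝ × ℂ × ℂ =>
      (p.1, p.2.1, ((p.2.2.1 : ℝ) : ℂ) * beta' p.2.2.2.1 p.2.2.2.2.2)) x0 :=
    pX.prodMk (pZ.prodMk w2)
  have o1 : ((1 : ℝ) : ℂ) * beta k0 ξ0 = beta k0 ξ0 := by rw [ofReal_one, one_mul]
  have o2 : ((1 : ℝ) : ℂ) * beta' k0 ξ0 = beta' k0 ξ0 := by rw [ofReal_one, one_mul]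
  have g1 := F_gi_cont hb3 (vs s).2 (w0 := ((1 : ℝ) : ℂ) * beta k0 ξ0) (by rw [o1]; exact n1.le)
  have g2 := F_gi_cont hb3 (vs s).2 (w0 := ((1 : ℝ) : ℂ) * beta' k0 ξ0) (by rw [o2]; exact n2.le)
  have z1 : ContinuousAt (fun p : ℂ × ℂ × ℝ × ℝ × ℂ × ℂ =>
      gi p.1 p.2.1 (((p.2.2.1 : ℝ) : ℂ) * beta p.2.2.2.1 p.2.2.2.2.1)) x0 :=
    ContinuousAt.comp (g := fun p : ℂ × ℂ × ℂ => gi p.1 p.2.1 p.2.2)
      (f := fun p : ℂ × ℂ × ℝ × ℝ × ℂ × ℂ =>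
      (p.1, p.2.1, ((p.2.2.1 : ℝ) : ℂ) * beta p.2.2.2.1 p.2.2.2.2.1)) (x := x0) g1.1 t1
  have z1' : ContinuousAt (fun p : ℂ × ℂ × ℝ × ℝ × ℂ × ℂ =>
      gi' p.1 p.2.1 (((p.2.2.1 : ℝ) : ℂ) * beta p.2.2.2.1 p.2.2.2.2.1)) x0 :=
    ContinuousAt.comp (g := fun p : ℂ × ℂ × ℂ => gi' p.1 p.2.1 p.2.2)
      (f := fun p : ℂ × ℂ × ℝ × ℝ × ℂ × ℂ =>
      (p.1, p.2.1, ((p.2.2.1 : ℝ) : ℂ) * beta p.2.2.2.1 p.2.2.2.2.1)) (x := x0) g1.2 t1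
  have z2 : ContinuousAt (fun p : ℂ × ℂ × ℝ × ℝ × ℂ × ℂ =>
      gi p.1 p.2.1 (((p.2.2.1 : ℝ) : ℂ) * beta' p.2.2.2.1 p.2.2.2.2.2)) x0 :=
    ContinuousAt.comp (g := fun p : ℂ × ℂ × ℂ => gi p.1 p.2.1 p.2.2)
      (f := fun p : ℂ × ℂ × ℝ × ℝ × ℂ × ℂ =>
      (p.1, p.2.1, ((p.2.2.1 : ℝ) : ℂ) * beta' p.2.2.2.1 p.2.2.2.2.2)) (x := x0) g2.1 t2
  have z2' : ContinuousAt (fun p : ℂ × ℂ × ℝ × ℝ × ℂ × ℂ =>
      gi' p.1 p.2.1 (((p.2.2.1 : ℝ) : ℂ) * beta' p.2.2.2.1 p.2.2.2.2.2)) x0 :=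
    ContinuousAt.comp (g := fun p : ℂ × ℂ × ℂ => gi' p.1 p.2.1 p.2.2)
      (f := fun p : ℂ × ℂ × ℝ × ℝ × ℂ × ℂ =>
      (p.1, p.2.1, ((p.2.2.1 : ℝ) : ℂ) * beta' p.2.2.2.1 p.2.2.2.2.2)) (x := x0) g2.2 t2
  have h0vs : o0 ≠ vs s := by
    intro h
    apply hb3
    rw [← h]
    rfl
  obtain ⟨m1, m1'⟩ := F_gi_mem h0vs n1
  obtain ⟨m2, m2'⟩ := F_gi_mem h0vs n2
  have hco0 : ((o0 : Disc) : ℂ) = 0 := rfl
  rw [hco0] at m1 m1' m2 m2'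
  -- `k` after `z2`
  have hden : k.den (gi 0 (vs s) (((1 : ℝ) : ℂ) * beta' k0 ξ0)) ≠ 0 := by
    rw [o2]
    exact k.den_ne m2.le
  have kd : ContinuousAt (fun p : ℂ × ℂ × ℝ × ℝ × ℂ × ℂ =>
      k.den (gi p.1 p.2.1 (((p.2.2.1 : ℝ) : ℂ) * beta' p.2.2.2.1 p.2.2.2.2.2))) x0 := by
    unfold SU.den
    exact (continuousAt_const.mul z2).add continuousAt_const
  have ka : ContinuousAt (fun p : ℂ × ℂ × ℝ × ℝ × ℂ × ℂ =>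
      k.app (gi p.1 p.2.1 (((p.2.2.1 : ℝ) : ℂ) * beta' p.2.2.2.1 p.2.2.2.2.2))) x0 := by
    unfold SU.app
    exact ((continuousAt_const.mul z2).add continuousAt_const).div kd hden
  by_cases hξ0 : ξ0 = 0
  · -- near the base point `nn` vanishes
    obtain ⟨δ, hδ, hμ⟩ := Iface.T_mu_zero L
    obtain ⟨u, hu⟩ := hk
    have hbz := C_beta_zero hk0.le hk1.le
    have gv := F_gi_val h0vs
    rw [hco0, hb2, hb1] at gv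
    have v1 : gi 0 (vs s) (((1 : ℝ) : ℂ) * beta k0 ξ0) = 0 := by
      rw [o1, hξ0, hbz.1, e1]
      exact gv.1
    have v2 : gi 0 (vs s) (((1 : ℝ) : ℂ) * beta' k0 ξ0) = vs s := by
      rw [o2, hξ0, hbz.2, e1]
      exact gv.2
    have ev1 := f03_sh z1 (p := 0) (by simp) v1 hδ
    have ev2 := f03_sh ka (p := ((ac u v0 : Disc) : ℂ)) (ac u v0).2 (by
      show k.app (gi 0 (vs s) (((1 : ℝ) : ℂ) * beta' k0 ξ0)) = _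
      rw [v2, hu]) hδ
    have hev : ∀ᶠ p in 𝓝 x0, nn L k p.1 p.2.1 p.2.2.1 p.2.2.2.1 p.2.2.2.2.1 p.2.2.2.2.2 = 0 := by
      filter_upwards [ev1, ev2] with p hp1 hp2
      have a1 := hμ 1 ⟨_, hp1.1⟩ (Or.inl (by
        rw [map_one]
        exact hp1.2))
      have a2 := hμ u ⟨_, hp2.1⟩ (Or.inr hp2.2)
      unfold nn
      simp only at a1 a2
      rw [a1, a2]
      simp [pul]
    have h00 : nn L k x0.1 x0.2.1 x0.2.2.1 x0.2.2.2.1 x0.2.2.2.2.1 x0.2.2.2.2.2 = 0 :=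
      hev.self_of_nhds
    apply ContinuousAt.congr (f := fun _ => (0 : ℝ)) continuousAt_const
    filter_upwards [hev] with p hp
    exact hp.symm
  · exact (f03_parts L k s hξ hξ0).2.2

end Pool.Agent.Lib.H11Q
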