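import Pool.Agent.Lib.H11Q.F02
import Pool.Agent.Lib.H11Q.Iface
import Pool.Agent.Lib.H11Q.C09A

set_option autoImplicit false

namespace Pool.Agent.Lib.H11Q

open Complex Set MeasureTheory
open scoped ComplexConjugate Topology

/-! F04 (S/M): bound and symmetry of the first variation. -/

theorem f04_pul (m c : ℂ) : ‖pul m c‖ ≤ ‖m‖ := by
  by_cases hc : c = 0
  · unfold pul
    rw [hc, div_zero, mul_zero, norm_zero]
    exact norm_nonneg _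
  · unfold pul
    rw [norm_mul, norm_div, RCLike.norm_conj, div_self (norm_ne_zero_iff.mpr hc), mul_one]

theorem f04_neg (m c : ℂ) : pul m (-c) = pul m c := by
  unfold pul
  rw [map_neg, neg_div_neg_eq]

/-- `|pul m c| ≤ |m|` for all `c` (also `c = 0`), the arguments of `mu L` are in the open disc (`F_gi_mem`,
`Iface.E_beta_lt`). -/
theorem F_nn_bd (L : LineSys) {M : ℝ} (hM : ∀ z : ℂ, ‖z‖ < 1 → ‖mu L z‖ ≤ M) (k : SU)
    {X Z : Disc} (h : X ≠ Z) {r κ : ℝ} (hr : 0 ≤ r) (hr1 : r ≤ 1) (h0 : 0 ≤ κ)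
    (h1 : κ ≤ 1 / 10) {ξ ξ' : ℂ} (hξ : ‖ξ‖ < 1) (hξ' : ‖ξ'‖ < 1) :
    |nn L k X Z r κ ξ ξ'| ≤ 4 * M := by
  have hb := (Iface.E_beta_lt h0 h1 hξ).1
  have hb' := (Iface.E_beta_lt h0 h1 hξ').2
  have hrn : ∀ w : ℂ, ‖w‖ < 1 → ‖(r : ℂ) * w‖ < 1 := by
    intro w hw
    rw [norm_mul, Complex.norm_real, Real.norm_eq_abs, abs_of_nonneg hr]
    nlinarith [norm_nonneg w]
  have a1 := (F_gi_mem h (hrn _ hb)).1
  have a2 := k.app_norm_lt (F_gi_mem h (hrn _ hb')).1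
  have b1 := (abs_re_le_norm _).trans ((f04_pul (mu L (gi X Z (r * beta κ ξ))) (cc1 X Z r κ ξ)).trans (hM _ a1))
  have b2 := (abs_re_le_norm _).trans ((f04_pul (mu L (k.app (gi X Z (r * beta' κ ξ')))) (cc2 k X Z r κ ξ')).trans (hM _ a2))
  unfold nn
  rw [abs_le] at b1 b2 ⊢
  constructor <;> linarith [b1.1, b1.2, b2.1, b2.2]


/-- `beta κ (-ξ) = beta κ ξ` and `cc1`, `cc2` change the sign. -/
theorem F_nn_even (L : LineSys) (k : SU) (X Z : ℂ) (r κ : ℝ) (ξ ξ' : ℂ) :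
    nn L k X Z r κ (-ξ) (-ξ') = nn L k X Z r κ ξ ξ' := by
  have e1 : ∀ ξ : ℂ, ZZ κ (-ξ) = ZZ κ ξ := by
    intro ξ
    unfold ZZ
    rw [map_neg]
    ring
  have e2 : ∀ ξ : ℂ, ZZ' κ (-ξ) = ZZ' κ ξ := by
    intro ξ
    unfold ZZ'
    rw [map_neg]
    ring
  have e3 : ∀ ξ : ℂ, beta κ (-ξ) = beta κ ξ := by
    intro ξ
    unfold beta
    rw [e1]
  have e4 : ∀ ξ : ℂ, beta' κ (-ξ) = beta' κ ξ := by
    intro ξ
    unfold beta'
    rw [e2]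
  have e5 : cc1 X Z r κ (-ξ) = -cc1 X Z r κ ξ := by
    unfold cc1
    rw [e3, e1, map_neg]
    ring
  have e6 : cc2 k X Z r κ (-ξ') = -cc2 k X Z r κ ξ' := by
    unfold cc2
    rw [e4, e2, map_neg]
    ring
  unfold nn
  rw [e3, e4, e5, e6, f04_neg, f04_neg]


end Pool.Agent.Lib.H11Q
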