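import Pool.Agent.Lib.H11Q.F03
import Pool.Agent.Lib.H11Q.F04
import Pool.Agent.Lib.H11Q.C08

set_option autoImplicit false

namespace Pool.Agent.Lib.H11Q

open Complex Set MeasureTheory
open scoped ComplexConjugate Topology

/-! F05 (M): the first variation is below the majorant for all nearby parameters (PROOF.md 10.1). -/

theorem f05_rho {np : ℂ → ℝ} (hnp : Continuous np) {c : ℝ} (h2 : ∀ ξ : ℂ, ‖ξ‖ = 1 → c < np ξ) :
    ∃ ρ : ℝ, 0 ≤ ρ ∧ ρ < 1 ∧ ∀ ξ : ℂ, ρ < ‖ξ‖ → ‖ξ‖ ≤ 1 → c < np ξ := by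
  set K : Set ℂ := Metric.closedBall (0 : ℂ) 1 ∩ {ξ | np ξ ≤ c} with hK
  have hKc : IsCompact K :=
    (isCompact_closedBall (0 : ℂ) 1).inter_right (isClosed_le hnp continuous_const)
  by_cases hne : K.Nonempty
  · obtain ⟨ξ0, hξ0, hmax⟩ := hKc.exists_isMaxOn hne (continuous_norm.continuousOn)
    have h1 : ‖ξ0‖ ≤ 1 := by simpa using hξ0.1
    have h3 : ‖ξ0‖ < 1 := by
      rcases h1.lt_or_eq with h | h
      · exact h
      · exact absurd hξ0.2 (not_le.mpr (h2 ξ0 h))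
    refine ⟨‖ξ0‖, norm_nonneg _, h3, fun ξ ha hb => ?_⟩
    by_contra hcon
    have : ξ ∈ K := ⟨by simpa using hb, not_lt.mp hcon⟩
    have := hmax this
    simp only [mem_setOf_eq] at this
    linarith
  · refine ⟨0, le_rfl, one_pos, fun ξ _ hb => ?_⟩
    by_contra hcon
    exact hne ⟨ξ, by simpa using hb, not_lt.mp hcon⟩

/-- There is `ρ < 1` with `4 M < np ξ` for `ρ ≤ ‖ξ‖ ≤ 1` (compactness of the circle, continuity): there `F_nn_bd` suffices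
(`‖flm P τ ξ‖ < 1` for `τ` small: `C_fld`).  For `‖ξ‖ ≤ ρ`: the function `(X,Z,r,κ,τ,ξ) ↦ nn L k X Z r κ ξ (flm P τ ξ) - np ξ` is
continuous at `(0, vs s, 1, k0, 0, ξ0)` and negative there (`F_nn_cont`, `flm P 0 ξ = ξ`), so
`IsCompact.eventually_forall_of_forall_eventually` for the compact set `closedBall 0 ρ` gives a neighbourhood of the
parameter point. `X ≠ Z` for `δ` small since `vs s ≠ 0`. -/
theorem F_unif (L : LineSys) {k : SU} {s : ℕ} (hk : ∃ u : W, k.app (vs s) = ac u v0) {P : ℂ → ℂ}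
    (hP : ContDiff ℝ 2 P) {np : ℂ → ℝ} (hnp : Continuous np)
    (h1 : ∀ ξ : ℂ, ‖ξ‖ < 1 → nn L k 0 (vs s) 1 k0 ξ ξ < np ξ) {M : ℝ}
    (hM : ∀ z : ℂ, ‖z‖ < 1 → ‖mu L z‖ ≤ M) (h2 : ∀ ξ : ℂ, ‖ξ‖ = 1 → 4 * M < np ξ) :
    ∃ δ > 0, ∀ (X Z : Disc) (r κ τ : ℝ), ‖(X : ℂ)‖ < δ → ‖(Z : ℂ) - vs s‖ < δ → 1 - δ < r →
      r ≤ 1 → |κ - k0| < δ → |τ| < δ → ∀ ξ : ℂ, ‖ξ‖ < 1 →
      nn L k X Z r κ ξ (flm P τ ξ) ≤ np ξ := by
  obtain ⟨ρ, hρ0, hρ1, hρ⟩ := f05_rho hnp h2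
  obtain ⟨t0, ht0, hF⟩ := C_fld hP
  obtain ⟨-, -, hvs⟩ := F_base s
  obtain ⟨e1, e2, e3⟩ := Iface.E_k0
  have hflm0 : ∀ ξ, flm P 0 ξ = ξ := fun ξ => by simp [flm]
  have hfld : Continuous (fld P) := (C_fld_diff hP).1.continuous
  have hcomp : ∀ᶠ p : ℂ × ℂ × ℝ × ℝ × ℝ in 𝓝 ((0 : ℂ), ((vs s : Disc) : ℂ), (1 : ℝ), k0, (0 : ℝ)),
      ∀ ξ ∈ Metric.closedBall (0 : ℂ) ρ,
        nn L k p.1 p.2.1 p.2.2.1 p.2.2.2.1 ξ (flm P p.2.2.2.2 ξ) < np ξ := by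
    apply (isCompact_closedBall (0 : ℂ) ρ).eventually_forall_of_forall_eventually
    intro ξ0 hξ0
    have hξ1 : ‖ξ0‖ < 1 := lt_of_le_of_lt (by simpa using hξ0) hρ1
    have hc := F_nn_cont L hk hξ1
    have hmap : ContinuousAt (fun q : (ℂ × ℂ × ℝ × ℝ × ℝ) × ℂ =>
        (q.1.1, q.1.2.1, q.1.2.2.1, q.1.2.2.2.1, q.2, flm P q.1.2.2.2.2 q.2))
        (((0 : ℂ), ((vs s : Disc) : ℂ), (1 : ℝ), k0, (0 : ℝ)), ξ0) := by
      have : Continuous (fun q : (ℂ × ℂ × ℝ × ℝ × ℝ) × ℂ =>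
        (q.1.1, q.1.2.1, q.1.2.2.1, q.1.2.2.2.1, q.2, flm P q.1.2.2.2.2 q.2)) := by
        unfold flm
        have h5 : Continuous (fun q : (ℂ × ℂ × ℝ × ℝ × ℝ) × ℂ => fld P q.2) :=
          hfld.comp continuous_snd
        fun_prop
      exact this.continuousAt
    have hval : (fun q : (ℂ × ℂ × ℝ × ℝ × ℝ) × ℂ =>
        (q.1.1, q.1.2.1, q.1.2.2.1, q.1.2.2.2.1, q.2, flm P q.1.2.2.2.2 q.2))
        (((0 : ℂ), ((vs s : Disc) : ℂ), (1 : ℝ), k0, (0 : ℝ)), ξ0) =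
        (0, (vs s : ℂ), 1, k0, ξ0, ξ0) := by
      simp only [hflm0]
    have hc2 : ContinuousAt (fun q : (ℂ × ℂ × ℝ × ℝ × ℝ) × ℂ =>
        nn L k q.1.1 q.1.2.1 q.1.2.2.1 q.1.2.2.2.1 q.2 (flm P q.1.2.2.2.2 q.2))
        (((0 : ℂ), ((vs s : Disc) : ℂ), (1 : ℝ), k0, (0 : ℝ)), ξ0) := by
      refine ContinuousAt.comp (g := fun p : ℂ × ℂ × ℝ × ℝ × ℂ × ℂ =>
        nn L k p.1 p.2.1 p.2.2.1 p.2.2.2.1 p.2.2.2.2.1 p.2.2.2.2.2)
        (f := fun q : (ℂ × ℂ × ℝ × ℝ × ℝ) × ℂ =>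
        (q.1.1, q.1.2.1, q.1.2.2.1, q.1.2.2.2.1, q.2, flm P q.1.2.2.2.2 q.2))
        (x := (((0 : ℂ), ((vs s : Disc) : ℂ), (1 : ℝ), k0, (0 : ℝ)), ξ0)) ?_ hmap
      simp only [hflm0]
      exact hc
    apply hc2.eventually_lt (hnp.comp continuous_snd).continuousAt
    show nn L k 0 (vs s) 1 k0 ξ0 (flm P 0 ξ0) < np ξ0
    rw [hflm0]
    exact h1 ξ0 hξ1
  rw [Metric.eventually_nhds_iff] at hcomp
  obtain ⟨δ0, hδ0, hδ⟩ := hcomp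
  have hvn : 0 < ‖((vs s : Disc) : ℂ)‖ := norm_pos_iff.mpr hvs
  refine ⟨min (min δ0 t0) (min (1 / 100) (‖((vs s : Disc) : ℂ)‖ / 2)),
    lt_min (lt_min hδ0 ht0) (lt_min (by norm_num) (by linarith)), ?_⟩
  intro X Z r κ τ hX hZ hr hr1 hκ hτ ξ hξ
  have m1 : min (min δ0 t0) (min (1 / 100) (‖((vs s : Disc) : ℂ)‖ / 2)) ≤ δ0 :=
    (min_le_left _ _).trans (min_le_left _ _)
  have m2 : min (min δ0 t0) (min (1 / 100) (‖((vs s : Disc) : ℂ)‖ / 2)) ≤ t0 :=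
    (min_le_left _ _).trans (min_le_right _ _)
  have m3 : min (min δ0 t0) (min (1 / 100) (‖((vs s : Disc) : ℂ)‖ / 2)) ≤ 1 / 100 :=
    (min_le_right _ _).trans (min_le_left _ _)
  have m4 : min (min δ0 t0) (min (1 / 100) (‖((vs s : Disc) : ℂ)‖ / 2)) ≤
      ‖((vs s : Disc) : ℂ)‖ / 2 := (min_le_right _ _).trans (min_le_right _ _)
  by_cases hξρ : ‖ξ‖ ≤ ρ
  · have hd : dist ((X : ℂ), (Z : ℂ), r, κ, τ)
        ((0 : ℂ), ((vs s : Disc) : ℂ), (1 : ℝ), k0, (0 : ℝ)) < δ0 := by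
      rw [Prod.dist_eq, Prod.dist_eq, Prod.dist_eq, Prod.dist_eq]
      refine max_lt ?_ (max_lt ?_ (max_lt ?_ (max_lt ?_ ?_)))
      · simp only [dist_zero_right]
        linarith
      · simp only [dist_eq_norm]
        linarith
      · simp only [Real.dist_eq]
        rw [abs_lt]
        constructor <;> linarith
      · simp only [Real.dist_eq]
        linarith
      · simp only [Real.dist_eq, sub_zero]
        linarith
    exact (hδ hd ξ (by simpa using hξρ)).le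
  · have hfo := hF τ (by linarith)
    have hXZ : X ≠ Z := by
      intro he
      rw [he] at hX
      have h5 : ‖((vs s : Disc) : ℂ)‖ ≤ ‖(Z : ℂ)‖ + ‖(Z : ℂ) - vs s‖ := by
        have : ((vs s : Disc) : ℂ) = (Z : ℂ) - ((Z : ℂ) - vs s) := by ring
        calc ‖((vs s : Disc) : ℂ)‖ = ‖(Z : ℂ) - ((Z : ℂ) - vs s)‖ := by rw [← this]
          _ ≤ _ := norm_sub_le _ _
      linarith
    have hk := abs_lt.mp hκ
    have hb := F_nn_bd L hM k hXZ (r := r) (κ := κ) (by linarith) hr1 (by linarith)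
      (by linarith) hξ (hfo.lt ξ hξ)
    have h6 := hρ ξ (not_le.mp hξρ) hξ.le
    have := (abs_le.mp hb).2
    linarith

end Pool.Agent.Lib.H11Q
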