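import Pool.Agent.Lib.H11Q.FD
import Pool.Agent.Lib.H11Q.Iface
import Pool.Agent.Lib.H11Q.C09A

set_option autoImplicit false

namespace Pool.Agent.Lib.H11Q

open Complex Set MeasureTheory
open scoped ComplexConjugate Topology

/-! F06A (M): the two sheets of `beta`, `beta'`. -/

theorem f06a_line : volume {ξ : ℂ | ξ.re = 0} = 0 := by
  have h := MeasureTheory.Measure.addHaar_submodule (volume : Measure ℂ) (LinearMap.ker Complex.reLm) (fun h => by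
    have h1 : (1 : ℂ) ∈ LinearMap.ker Complex.reLm := by
      rw [h]
      trivial
    have h2 : ((1 : ℂ)).re = 0 := h1
    norm_num at h2)
  exact h

theorem f06a_gen {b : ℂ → ℂ} (hd : ∀ ξ : ℂ, ‖ξ‖ ≤ 1 → DifferentiableAt ℝ b ξ) (he : ∀ ξ, b (-ξ) = b ξ)
    (hi : ∀ ξ η : ℂ, ‖ξ‖ ≤ 1 → ‖η‖ ≤ 1 → 2 / 5 * (‖ξ - η‖ * ‖ξ + η‖) ≤ ‖b ξ - b η‖)
    (hlt : ∀ ξ : ℂ, ‖ξ‖ < 1 → ‖b ξ‖ < 1) (heq : ∀ ξ : ℂ, ‖ξ‖ = 1 → ‖b ξ‖ = 1)
    (hs : ∀ w : ℂ, ‖w‖ ≤ 1 → ∃ ξ : ℂ, ‖ξ‖ ≤ 1 ∧ b ξ = w) : InjOn b Hd ∧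
    b '' Hd ⊆ Metric.ball 0 1 ∧ volume (Metric.ball (0 : ℂ) 1 \ b '' Hd) = 0 := by
  refine ⟨?_, ?_, ?_⟩
  · intro ξ hξ η hη h
    have h1 := hi ξ η hξ.2.le hη.2.le
    rw [h, sub_self, norm_zero] at h1
    have h2 : ‖ξ - η‖ * ‖ξ + η‖ = 0 := by
      have : 0 ≤ ‖ξ - η‖ * ‖ξ + η‖ := by positivity
      linarith
    rcases mul_eq_zero.mp h2 with h3 | h3
    · exact sub_eq_zero.mp (norm_eq_zero.mp h3)
    · have h4 : (ξ + η).re = 0 := by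
        rw [norm_eq_zero.mp h3]
        rfl
      rw [add_re] at h4
      linarith [hξ.1, hη.1]
  · rintro _ ⟨ξ, hξ, rfl⟩
    exact mem_ball_zero_iff.mpr (hlt ξ hξ.2)
  · have hsub : Metric.ball (0 : ℂ) 1 \ b '' Hd ⊆ b '' {ξ : ℂ | ξ.re = 0 ∧ ‖ξ‖ < 1} := by
      rintro w ⟨hw, hw2⟩
      rw [mem_ball_zero_iff] at hw
      obtain ⟨ξ, hξ, rfl⟩ := hs w hw.le
      have h1 : ‖ξ‖ < 1 := by
        refine lt_of_le_of_ne hξ fun h => ?_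
        rw [heq ξ h] at hw
        exact lt_irrefl _ hw
      rcases lt_trichotomy ξ.re 0 with h | h | h
      · exact absurd ⟨-ξ, ⟨by rw [neg_re]; linarith, by rwa [norm_neg]⟩, he ξ⟩ hw2
      · exact ⟨ξ, ⟨h, h1⟩, rfl⟩
      · exact absurd ⟨ξ, ⟨h, h1⟩, rfl⟩ hw2
    refine measure_mono_null hsub ?_
    refine MeasureTheory.addHaar_image_eq_zero_of_differentiableOn_of_addHaar_eq_zero _ ?_ ?_
    · intro ξ hξ
      exact (hd ξ hξ.2.le).differentiableWithinAt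
    · exact measure_mono_null (fun ξ hξ => hξ.1) f06a_line

/-- Injective: `C_beta_est` (`ξ + η ≠ 0` since the real parts are positive).  Image: every `w` in the open unit disc is `beta κ ξ`,
`‖ξ‖ ≤ 1` (`Iface.E_beta_surj`), `‖ξ‖ < 1` (`Iface.E_beta_eq`), and `beta κ (-ξ) = beta κ ξ`; so the complement of the image is in the image
of the null set `{ξ : ξ.re = 0, ‖ξ‖ < 1}` (a proper real subspace: `MeasureTheory.Measure.addHaar_submodule`) under a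
differentiable map (`C_beta_deriv`; `MeasureTheory.addHaar_image_eq_zero_of_differentiableOn_of_addHaar_eq_zero`). -/
theorem F_half {κ : ℝ} (h0 : 0 ≤ κ) (h1 : κ ≤ 1 / 10) : InjOn (beta κ) Hd ∧
    beta κ '' Hd ⊆ Metric.ball 0 1 ∧ volume (Metric.ball (0 : ℂ) 1 \ beta κ '' Hd) = 0 := by
  refine f06a_gen (fun ξ hξ => (C_beta_deriv h0 h1 hξ).hasFDerivAt.differentiableAt) ?_
    (fun ξ η hξ hη => (C_beta_est h0 h1 hξ hη).1) (fun ξ hξ => (Iface.E_beta_lt h0 h1 hξ).1)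
    (fun ξ hξ => (Iface.E_beta_eq h0 h1 hξ).1) (fun w hw => (Iface.E_beta_surj h0 h1 hw).1)
  intro ξ
  unfold beta ZZ
  rw [map_neg]
  congr 1
  ring


theorem F_half' {κ : ℝ} (h0 : 0 ≤ κ) (h1 : κ ≤ 1 / 10) : InjOn (beta' κ) Hd ∧
    beta' κ '' Hd ⊆ Metric.ball 0 1 ∧ volume (Metric.ball (0 : ℂ) 1 \ beta' κ '' Hd) = 0 := by
  refine f06a_gen (fun ξ hξ => (C_beta'_deriv h0 h1 hξ).hasFDerivAt.differentiableAt) ?_
    (fun ξ η hξ hη => (C_beta'_est h0 h1 hξ hη).1) (fun ξ hξ => (Iface.E_beta_lt h0 h1 hξ).2)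
    (fun ξ hξ => ?_) (fun w hw => (Iface.E_beta_surj h0 h1 hw).2)
  · intro ξ
    unfold beta' ZZ'
    rw [map_neg]
    congr 1
    ring
  · rw [(Iface.E_beta_eq h0 h1 hξ).2]
    exact (Iface.E_beta_eq h0 h1 hξ).1


/-- For even integrable `f` (`ξ ↦ -ξ` preserves the measure and maps `Hd` to the left half disc; the line `ξ.re = 0` is a
null set). -/
theorem F_even {f : ℂ → ℝ} (hf : IntegrableOn f (Metric.ball 0 1))
    (he : ∀ ξ : ℂ, ‖ξ‖ < 1 → f (-ξ) = f ξ) :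
    ∫ ξ in Metric.ball (0 : ℂ) 1, f ξ = 2 * ∫ ξ in Hd, f ξ := by
  have hn : IsOpen {ξ : ℂ | ‖ξ‖ < 1} := isOpen_lt continuous_norm continuous_const
  have hHd : MeasurableSet Hd := ((isOpen_lt continuous_const continuous_re).inter hn).measurableSet
  have hHm : MeasurableSet {ξ : ℂ | ξ.re < 0 ∧ ‖ξ‖ < 1} := ((isOpen_lt continuous_re continuous_const).inter hn).measurableSet
  have e1 : (Metric.ball (0 : ℂ) 1 : Set ℂ) =ᵐ[volume] (Hd ∪ {ξ : ℂ | ξ.re < 0 ∧ ‖ξ‖ < 1} : Set ℂ) := by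
    rw [ae_eq_set]
    constructor
    · refine measure_mono_null ?_ f06a_line
      rintro ξ ⟨h1, h2⟩
      rw [mem_ball_zero_iff] at h1
      rcases lt_trichotomy ξ.re 0 with h | h | h
      · exact absurd (Or.inr ⟨h, h1⟩) h2
      · exact h
      · exact absurd (Or.inl ⟨h, h1⟩) h2
    · refine measure_mono_null (t := ∅) ?_ measure_empty
      rintro ξ ⟨h1, h2⟩
      exact absurd (mem_ball_zero_iff.mpr (h1.elim (fun h => h.2) (fun h => h.2))) h2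
  have hd : Disjoint Hd {ξ : ℂ | ξ.re < 0 ∧ ‖ξ‖ < 1} := by
    rw [Set.disjoint_left]
    rintro ξ ⟨h1, -⟩ ⟨h2, -⟩
    exact lt_asymm h1 h2
  have i1 : IntegrableOn f Hd := hf.mono_set fun ξ hξ => mem_ball_zero_iff.mpr hξ.2
  have i2 : IntegrableOn f {ξ : ℂ | ξ.re < 0 ∧ ‖ξ‖ < 1} := hf.mono_set fun ξ hξ => mem_ball_zero_iff.mpr hξ.2
  have e2 : ∫ ξ in {ξ : ℂ | ξ.re < 0 ∧ ‖ξ‖ < 1}, f ξ = ∫ ξ in Hd, f ξ := by
    have h1 : {ξ : ℂ | ξ.re < 0 ∧ ‖ξ‖ < 1} = (fun ξ : ℂ => -ξ) ⁻¹' Hd := by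
      ext ξ
      show (ξ.re < 0 ∧ ‖ξ‖ < 1) ↔ (0 < (-ξ).re ∧ ‖-ξ‖ < 1)
      rw [neg_re, norm_neg, Left.neg_pos_iff]
    have h2 := (Measure.measurePreserving_neg (volume : Measure ℂ)).setIntegral_preimage_emb
      (MeasurableEquiv.neg ℂ).measurableEmbedding f Hd
    rw [← h2]
    have h3 : Neg.neg ⁻¹' Hd = {ξ : ℂ | ξ.re < 0 ∧ ‖ξ‖ < 1} := h1.symm
    rw [h3]
    exact setIntegral_congr_fun hHm fun ξ hξ => (he ξ hξ.2).symm
  rw [setIntegral_congr_set e1, setIntegral_union hd hHm i1 i2, e2]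
  ring


end Pool.Agent.Lib.H11Q
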