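import Pool.Agent.Lib.H11Q.F06A
import Pool.Agent.Lib.H11Q.C06
import Pool.Agent.Lib.H11Q.C01

set_option autoImplicit false

namespace Pool.Agent.Lib.H11Q

open Complex Set MeasureTheory
open scoped ComplexConjugate Topology

/-! F06B (M): change of variables. -/

theorem f06b_gen (k : SU) {κ κ' : ℝ} (h0 : 0 ≤ κ) (h1 : κ ≤ 1 / 10) (hκ : κ' ^ 2 = κ ^ 2) (b B : ℂ → ℂ)
    (hinj : InjOn b Hd) (hsub : b '' Hd ⊆ Metric.ball 0 1) (hvol : volume (Metric.ball (0 : ℂ) 1 \ b '' Hd) = 0)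
    (hder : ∀ ξ ∈ Hd, HasFDerivAt b ((ab (B ξ) 0).comp (ab 1 κ')) ξ) (F : ℂ → ℂ) :
    ∫ z in Metric.ball (0 : ℂ) 1, F z =
      ∫ ξ in Hd, (‖1 / (k.den (b ξ)) ^ 2 * B ξ‖ ^ 2 * (1 - κ ^ 2)) • F (k.app (b ξ)) := by
  have hn : IsOpen {ξ : ℂ | ‖ξ‖ < 1} := isOpen_lt continuous_norm continuous_const
  have hHd : MeasurableSet Hd := ((isOpen_lt continuous_const continuous_re).inter hn).measurableSet
  have hb : ∀ ξ ∈ Hd, ‖b ξ‖ < 1 := fun ξ hξ => mem_ball_zero_iff.mp (hsub ⟨ξ, hξ, rfl⟩)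
  have hdet : ∀ A : ℂ, ((ab A 0).comp (ab 1 (κ' : ℂ))).det = ‖A‖ ^ 2 * (1 - κ ^ 2) := by
    intro A
    rw [C_ab_comp, C_ab_det]
    have e1 : A * 1 + 0 * conj ((κ' : ℝ) : ℂ) = A := by ring
    have e2 : A * ((κ' : ℝ) : ℂ) + 0 * conj (1 : ℂ) = A * ((κ' : ℝ) : ℂ) := by ring
    rw [e1, e2, norm_mul, Complex.norm_real, mul_pow, Real.norm_eq_abs, sq_abs, hκ]
    ring
  have hk : ∀ ξ ∈ Hd, HasFDerivWithinAt (fun ξ => k.app (b ξ)) ((ab (1 / (k.den (b ξ)) ^ 2 * B ξ) 0).comp (ab 1 κ')) Hd ξ := by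
    intro ξ hξ
    have a1 := (C_app_deriv k (hb ξ hξ).le).complexToReal_fderiv.hasFDerivAt
    have a2 := a1.comp ξ (hder ξ hξ)
    have e : ((1 / (k.den (b ξ)) ^ 2) • (1 : ℂ →L[ℝ] ℂ)).comp ((ab (B ξ) 0).comp (ab 1 κ')) =
        (ab (1 / (k.den (b ξ)) ^ 2 * B ξ) 0).comp (ab 1 κ') := by
      refine ContinuousLinearMap.ext fun v => ?_
      simp [mul_assoc]
    rw [e] at a2
    exact a2.hasFDerivWithinAt
  have hkinj : InjOn (fun ξ => k.app (b ξ)) Hd := by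
    intro ξ hξ η hη h
    apply hinj hξ hη
    have h2 : k⁻¹.app (k.app (b ξ)) = k⁻¹.app (k.app (b η)) := congrArg k⁻¹.app h
    rwa [← SU.app_mul _ _ (hb ξ hξ).le, ← SU.app_mul _ _ (hb η hη).le, inv_mul_cancel, SU.app_one, SU.app_one] at h2
  have himg : (Metric.ball (0 : ℂ) 1 : Set ℂ) =ᵐ[volume] ((fun ξ => k.app (b ξ)) '' Hd : Set ℂ) := by
    rw [ae_eq_set]
    constructor
    · have hs2 : Metric.ball (0 : ℂ) 1 \ ((fun ξ => k.app (b ξ)) '' Hd) ⊆ k.app '' (Metric.ball (0 : ℂ) 1 \ b '' Hd) := by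
        rintro z ⟨hz, hz2⟩
        rw [mem_ball_zero_iff] at hz
        have e : k.app (k⁻¹.app z) = z := by
          rw [← SU.app_mul _ _ hz.le, mul_inv_cancel, SU.app_one]
        refine ⟨k⁻¹.app z, ⟨mem_ball_zero_iff.mpr (k⁻¹.app_norm_lt hz), ?_⟩, e⟩
        rintro ⟨ξ, hξ, h⟩
        apply hz2
        refine ⟨ξ, hξ, ?_⟩
        show k.app (b ξ) = z
        rw [h, e]
      refine measure_mono_null hs2 ?_
      refine MeasureTheory.addHaar_image_eq_zero_of_differentiableOn_of_addHaar_eq_zero _ ?_ hvol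
      intro z hz
      exact ((C_app_deriv k (mem_ball_zero_iff.mp hz.1).le).complexToReal_fderiv.hasFDerivAt.differentiableAt).differentiableWithinAt
    · refine measure_mono_null (t := ∅) ?_ measure_empty
      rintro z ⟨⟨ξ, hξ, rfl⟩, h2⟩
      exact absurd (mem_ball_zero_iff.mpr (k.app_norm_lt (hb ξ hξ))) h2
  rw [setIntegral_congr_set himg, MeasureTheory.integral_image_eq_integral_abs_det_fderiv_smul volume hHd hk hkinj F]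
  refine setIntegral_congr_fun hHd fun ξ hξ => ?_
  have h3 : 0 ≤ ‖1 / (k.den (b ξ)) ^ 2 * B ξ‖ ^ 2 * (1 - κ ^ 2) := mul_nonneg (sq_nonneg _) (by nlinarith)
  show |((ab (1 / (k.den (b ξ)) ^ 2 * B ξ) 0).comp (ab 1 (κ' : ℂ))).det| • F (k.app (b ξ)) = _
  rw [hdet, abs_of_nonneg h3]

/-- `k(ξ) = g⁻¹.app (beta κ ξ)` has the real derivative `(ab (2 c1 g 1 κ ξ) 0) (ab 1 κ)` on `Hd` (`C_app_deriv`, `C_beta_deriv`),
whose determinant is `|2 c1|² (1 - κ²)` (`C_ab_comp`, `C_ab_det`); `k` is injective on `Hd` and its image is the disc minus a null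
set (`F_half`; `g⁻¹` is a bijection of the disc and preserves null sets: it is differentiable).
`MeasureTheory.integral_image_eq_integral_abs_det_fderiv_smul`. -/
theorem F_cv (g : SU) {κ : ℝ} (h0 : 0 ≤ κ) (h1 : κ ≤ 1 / 10) (F : ℂ → ℂ) :
    ∫ z in Metric.ball (0 : ℂ) 1, F z =
      ∫ ξ in Hd, (‖2 * c1 g 1 κ ξ‖ ^ 2 * (1 - κ ^ 2)) • F (g⁻¹.app (beta κ ξ)) := by
  obtain ⟨a1, a2, a3⟩ := F_half h0 h1
  rw [f06b_gen g⁻¹ (κ' := κ) h0 h1 rfl (beta κ) (fun ξ => deriv (WW κ) (ZZ κ ξ) * (2 * (ξ + κ * conj ξ))) a1 a2 a3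
    (fun ξ hξ => (C_beta_deriv h0 h1 hξ.2.le).hasFDerivAt) F]
  refine integral_congr_ae (Filter.Eventually.of_forall fun ξ => ?_)
  have e : 1 / (g⁻¹.den (beta κ ξ)) ^ 2 * (deriv (WW κ) (ZZ κ ξ) * (2 * (ξ + κ * conj ξ))) = 2 * c1 g 1 κ ξ := by
    unfold c1
    rw [ofReal_one, one_mul]
    ring
  show (‖1 / (g⁻¹.den (beta κ ξ)) ^ 2 * (deriv (WW κ) (ZZ κ ξ) * (2 * (ξ + κ * conj ξ)))‖ ^ 2 * (1 - κ ^ 2)) • _ = _
  rw [e]


/-- The same with `k(ξ) = g2.app (beta' κ ξ)`, derivative `(ab (2 c2 g2 1 κ ξ) 0) (ab 1 (-κ))`. -/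
theorem F_cv' (g2 : SU) {κ : ℝ} (h0 : 0 ≤ κ) (h1 : κ ≤ 1 / 10) (F : ℂ → ℂ) :
    ∫ z in Metric.ball (0 : ℂ) 1, F z =
      ∫ ξ in Hd, (‖2 * c2 g2 1 κ ξ‖ ^ 2 * (1 - κ ^ 2)) • F (g2.app (beta' κ ξ)) := by
  obtain ⟨a1, a2, a3⟩ := F_half' h0 h1
  rw [f06b_gen g2 (κ' := -κ) h0 h1 (neg_sq κ) (beta' κ) (fun ξ => deriv (WW κ) (ZZ' κ ξ) * (2 * (ξ - κ * conj ξ))) a1 a2 a3
    (fun ξ hξ => by
      rw [ofReal_neg]
      exact (C_beta'_deriv h0 h1 hξ.2.le).hasFDerivAt) F]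
  refine integral_congr_ae (Filter.Eventually.of_forall fun ξ => ?_)
  have e : 1 / (g2.den (beta' κ ξ)) ^ 2 * (deriv (WW κ) (ZZ' κ ξ) * (2 * (ξ - κ * conj ξ))) = 2 * c2 g2 1 κ ξ := by
    unfold c2
    rw [ofReal_one, one_mul]
    ring
  show (‖1 / (g2.den (beta' κ ξ)) ^ 2 * (deriv (WW κ) (ZZ' κ ξ) * (2 * (ξ - κ * conj ξ)))‖ ^ 2 * (1 - κ ^ 2)) • _ = _
  rw [e]


end Pool.Agent.Lib.H11Q
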