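import Pool.Agent.Lib.H11Q.FD
import Pool.Agent.Lib.H11Q.Iface
import Pool.Agent.Lib.H11Q.C09A

set_option autoImplicit false

namespace Pool.Agent.Lib.H11Q

open Complex Set MeasureTheory
open scoped ComplexConjugate Topology

/-! F06D (M): the quadratic differential in the coordinates `σ`, `σ'`. -/

/-- `WW κ` is injective on `‖Z‖ ≤ 6/5` (`C_WW_bilip`), so `Zi κ (WW κ Z) = Z` there. -/
theorem F_Zi {κ : ℝ} (h0 : 0 ≤ κ) (h1 : κ ≤ 1 / 10) {Z : ℂ} (hZ : ‖Z‖ ≤ 6 / 5) :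
    Zi κ (WW κ Z) = Z := by
  have hex : ∃ a ∈ Metric.closedBall (0 : ℂ) (6 / 5), WW κ a = WW κ Z := ⟨Z, by simpa using hZ, rfl⟩
  have h2 : Zi κ (WW κ Z) ∈ Metric.closedBall (0 : ℂ) (6 / 5) := Function.invFunOn_mem hex
  have h3 : WW κ (Zi κ (WW κ Z)) = WW κ Z := Function.invFunOn_eq hex
  have h4 : ‖Zi κ (WW κ Z)‖ ≤ 6 / 5 := by simpa using h2
  have h5 := (C_WW_bilip h0 h1 (Z := Zi κ (WW κ Z)) (Y := Z) (by linarith) (by linarith)).1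
  rw [h3, sub_self, norm_zero] at h5
  have h6 : ‖Zi κ (WW κ Z) - Z‖ = 0 := by
    have := norm_nonneg (Zi κ (WW κ Z) - Z)
    linarith
  exact sub_eq_zero.mp (norm_eq_zero.mp h6)


/-- `g.den z * g⁻¹.den (g z) = 1`. -/
theorem F_den (g : SU) {z : ℂ} (hz : ‖z‖ ≤ 1) : g.den z * g⁻¹.den (g.app z) = 1 := by
  have hd := g.den_ne hz
  have e : g.app z = (g.a * z + g.b) / g.den z := rfl
  have hdet : g.a * conj g.a - g.b * conj g.b = 1 := by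
    rw [Complex.mul_conj, Complex.mul_conj]
    exact_mod_cast g.h
  have e1 : g⁻¹.den (g.app z) = conj (-g.b) * g.app z + conj (conj g.a) := rfl
  rw [e1, e, map_neg, conj_conj, mul_add, neg_mul, mul_neg]
  have e2 : g.den z * (conj g.b * ((g.a * z + g.b) / g.den z)) = conj g.b * (g.a * z + g.b) := by
    field_simp
  rw [e2]
  unfold SU.den
  linear_combination hdet


theorem f06d_ne {κ : ℝ} (h0 : 0 ≤ κ) (h1 : κ ≤ 1 / 10) {Z : ℂ} (hZ : ‖Z‖ < 5 / 4) : deriv (WW κ) Z ≠ 0 := by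
  intro h
  have h2 := (Iface.E_hol h0 h1 hZ).2
  rw [h, zero_sub, norm_neg, norm_one] at h2
  norm_num at h2

theorem f06d_pul (m c : ℂ) (hc : c ≠ 0) : ((‖2 * c‖ ^ 2 : ℝ) : ℂ) * (m * (1 / (4 * c ^ 2))) = pul m c := by
  have h : ((‖2 * c‖ ^ 2 : ℝ) : ℂ) = 4 * (c * conj c) := by
    rw [norm_mul, mul_pow, Complex.norm_ofNat, mul_conj, normSq_eq_norm_sq]
    push_cast
    ring
  rw [h]
  unfold pul
  field_simp

theorem f06d_cocycle (k g : SU) {w : ℂ} (hw : ‖w‖ ≤ 1) : (k * g).den w = k.den (g.app w) * g.den w := by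
  have hd := g.den_ne hw
  have e : g.app w = (g.a * w + g.b) / g.den w := rfl
  have e2 : k.den (g.app w) * g.den w = conj k.b * (g.a * w + g.b) + conj k.a * g.den w := by
    rw [e]
    show (conj k.b * ((g.a * w + g.b) / g.den w) + conj k.a) * g.den w = _
    field_simp
  rw [e2]
  unfold SU.den
  rw [SU.mul_a, SU.mul_b, map_add, map_add, map_mul, map_mul, map_mul, map_mul, conj_conj, conj_conj]
  ring

/-- With `z = g⁻¹ (β ξ)`: `Zi (β ξ) = ZZ κ ξ`, `ZZ κ ξ + 2κ = σ²`, so `Qc κ (g z) = 1/(4 WW'² σ²)`, and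
`c1² = WW'² σ² / (g⁻¹.den (β ξ))^4`, `(g⁻¹.den (β ξ))^4 = 1/(g.den z)^4` (`F_den`): `Qc κ (g z)/(g.den z)^4 = 1/(4 c1²)`, and
`|2 c1|² / (4 c1²) = conj c1 / c1` (`c1 ≠ 0` for `ξ ≠ 0`). -/
theorem F_Q1 (g : SU) {κ : ℝ} (h0 : 0 ≤ κ) (h1 : κ ≤ 1 / 10) {ξ : ℂ} (hξ : ‖ξ‖ < 1)
    (hξ0 : ξ ≠ 0) (m : ℂ) :
    (‖2 * c1 g 1 κ ξ‖ ^ 2 : ℝ) * (m * (Qc κ (g.app (g⁻¹.app (beta κ ξ))) /
      (g.den (g⁻¹.app (beta κ ξ))) ^ 4)) = pul m (c1 g 1 κ ξ) := by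
  have hb : ‖beta κ ξ‖ < 1 := (Iface.E_beta_lt h0 h1 hξ).1
  have hZn := (C_ZZ_norm h0 h1 hξ.le).1
  have hZ2 : ‖ZZ κ ξ‖ ≤ 6 / 5 := by nlinarith
  have hW := f06d_ne h0 h1 (Z := ZZ κ ξ) (by linarith)
  have e1 : g.app (g⁻¹.app (beta κ ξ)) = beta κ ξ := by
    rw [← SU.app_mul _ _ hb.le, mul_inv_cancel, SU.app_one]
  have e2 : Zi κ (beta κ ξ) = ZZ κ ξ := F_Zi h0 h1 hZ2
  have e3 : ZZ κ ξ + 2 * κ = (ξ + κ * conj ξ) ^ 2 := by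
    unfold ZZ
    ring
  have e4 := F_den g⁻¹ hb.le
  rw [inv_inv] at e4
  have hσ : ξ + κ * conj ξ ≠ 0 := by
    intro h
    have h2 := (c09_lin h0 h1 ξ).1
    rw [h, norm_zero] at h2
    have := norm_pos_iff.mpr hξ0
    linarith
  have hD := g⁻¹.den_ne hb.le
  have hD2 : g.den (g⁻¹.app (beta κ ξ)) ≠ 0 := g.den_ne (g⁻¹.app_norm_lt hb).le
  have hc : c1 g 1 κ ξ = 1 / (g⁻¹.den (beta κ ξ)) ^ 2 * deriv (WW κ) (ZZ κ ξ) * (ξ + κ * conj ξ) := by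
    unfold c1
    rw [ofReal_one, one_mul]
  have hc0 : c1 g 1 κ ξ ≠ 0 := by
    rw [hc]
    exact mul_ne_zero (mul_ne_zero (one_div_ne_zero (pow_ne_zero 2 hD)) hW) hσ
  rw [← f06d_pul m _ hc0, e1]
  congr 2
  unfold Qc
  rw [e2, e3, hc]
  have e5 : g⁻¹.den (beta κ ξ) = (g.den (g⁻¹.app (beta κ ξ)))⁻¹ := eq_inv_of_mul_eq_one_left e4
  rw [e5]
  field_simp


/-- With `z = g2 (β' ξ)`, `g3 = iot * g2⁻¹`, `g3 z = - β' ξ`: `Zi (-β' ξ) = - ZZ' κ ξ` (`Iface.E_neg`), `WW'` is even,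
`- ZZ' + 2κ = - σ'²`, so `Qc κ (g3 z)/(g3.den z)^4 = - 1/(4 c2²)` (`iot.den = -I`, `(-I)^4 = 1`). -/
theorem F_Q2 (g2 : SU) {κ : ℝ} (h0 : 0 ≤ κ) (h1 : κ ≤ 1 / 10) {ξ : ℂ} (hξ : ‖ξ‖ < 1)
    (hξ0 : ξ ≠ 0) (m : ℂ) :
    (‖2 * c2 g2 1 κ ξ‖ ^ 2 : ℝ) * (m * (Qc κ ((iot * g2⁻¹).app (g2.app (beta' κ ξ))) /
      ((iot * g2⁻¹).den (g2.app (beta' κ ξ))) ^ 4)) = -pul m (c2 g2 1 κ ξ) := by
  have hb : ‖beta' κ ξ‖ < 1 := (Iface.E_beta_lt h0 h1 hξ).2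
  have hZn := (C_ZZ_norm h0 h1 hξ.le).2
  have hZ2 : ‖ZZ' κ ξ‖ ≤ 6 / 5 := by nlinarith
  have hZ3 : ‖ZZ' κ ξ‖ < 5 / 4 := by linarith
  have hW := f06d_ne h0 h1 (Z := ZZ' κ ξ) hZ3
  have hg2 : ‖g2.app (beta' κ ξ)‖ < 1 := g2.app_norm_lt hb
  have e0 : g2⁻¹.app (g2.app (beta' κ ξ)) = beta' κ ξ := by
    rw [← SU.app_mul _ _ hb.le, inv_mul_cancel, SU.app_one]
  have hiota : ∀ z : ℂ, iot.app z = -z := by
    intro z
    simp only [SU.app, iot, map_zero, zero_mul, zero_add, add_zero, conj_I]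
    rw [mul_comm, mul_div_assoc]
    simp
  have e1 : (iot * g2⁻¹).app (g2.app (beta' κ ξ)) = -beta' κ ξ := by
    rw [SU.app_mul _ _ hg2.le, e0, hiota]
  have e2 : Zi κ (-beta' κ ξ) = -ZZ' κ ξ := by
    have h3 : -beta' κ ξ = WW κ (-ZZ' κ ξ) := by
      rw [Iface.E_neg h0 h1 hZ3]
      rfl
    rw [h3]
    exact F_Zi h0 h1 (by rwa [norm_neg])
  have e3 : -ZZ' κ ξ + 2 * κ = -(ξ - κ * conj ξ) ^ 2 := by
    unfold ZZ'
    ring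
  have hWe : deriv (WW κ) (-ZZ' κ ξ) = deriv (WW κ) (ZZ' κ ξ) := by
    have h3 : WW κ =ᶠ[𝓝 (-ZZ' κ ξ)] fun y => -WW κ (-y) := by
      have h4 : ∀ᶠ y in 𝓝 (-ZZ' κ ξ), ‖y‖ < 5 / 4 := by
        refine (isOpen_lt continuous_norm continuous_const).mem_nhds ?_
        show ‖-ZZ' κ ξ‖ < 5 / 4
        rwa [norm_neg]
      filter_upwards [h4] with y hy
      rw [Iface.E_neg h0 h1 hy, neg_neg]
    rw [h3.deriv_eq, deriv.fun_neg, deriv_comp_neg, neg_neg, neg_neg]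
  have hσ : ξ - κ * conj ξ ≠ 0 := by
    intro h
    have h2 := (c09_lin' h0 h1 ξ).1
    rw [h, norm_zero] at h2
    have := norm_pos_iff.mpr hξ0
    linarith
  have hD := g2.den_ne hb.le
  have hD2 : g2⁻¹.den (g2.app (beta' κ ξ)) ≠ 0 := g2⁻¹.den_ne hg2.le
  have e4 := F_den g2 hb.le
  have e5 : g2.den (beta' κ ξ) = (g2⁻¹.den (g2.app (beta' κ ξ)))⁻¹ := eq_inv_of_mul_eq_one_left e4
  have e6 : ((iot * g2⁻¹).den (g2.app (beta' κ ξ))) ^ 4 = (g2⁻¹.den (g2.app (beta' κ ξ))) ^ 4 := by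
    rw [f06d_cocycle _ _ hg2.le]
    have h3 : ∀ z : ℂ, iot.den z = -I := by
      intro z
      simp only [SU.den, iot, map_zero, zero_mul, zero_add, conj_I]
    rw [h3, mul_pow, neg_pow, I_pow_four]
    norm_num
  have hc : c2 g2 1 κ ξ = 1 / (g2.den (beta' κ ξ)) ^ 2 * deriv (WW κ) (ZZ' κ ξ) * (ξ - κ * conj ξ) := by
    unfold c2
    rw [ofReal_one, one_mul]
  have hc0 : c2 g2 1 κ ξ ≠ 0 := by
    rw [hc]
    exact mul_ne_zero (mul_ne_zero (one_div_ne_zero (pow_ne_zero 2 hD)) hW) hσ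
  rw [← f06d_pul m _ hc0, e1, e6, ← mul_neg, ← mul_neg]
  congr 2
  unfold Qc
  rw [e2, e3, hWe, hc, e5]
  field_simp


end Pool.Agent.Lib.H11Q
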