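import Pool.Agent.Lib.H11Q.FD

set_option autoImplicit false

namespace Pool.Agent.Lib.H11Q

open Complex Set MeasureTheory
open scoped ComplexConjugate Topology

/-! F06E (S/M): `Qc` and `Qst`. -/

/-- `vv = 2 a0/(1 + a0²)`, `0 < a0 < 1`. -/
theorem F_a0 : 0 < a0 ∧ a0 < 1 ∧ vv = 2 * a0 / (1 + a0 ^ 2) := by
  have h1 := vv_pos
  have h2 := vv_lt_one
  have h3 : 0 < 1 - vv ^ 2 := by nlinarith
  obtain ⟨s, hs⟩ : ∃ s : ℝ, s = Real.sqrt (1 - vv ^ 2) := ⟨_, rfl⟩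
  have hs0 : 0 < s := by rw [hs]; exact Real.sqrt_pos.2 h3
  have hs2 : s ^ 2 = 1 - vv ^ 2 := by rw [hs]; exact Real.sq_sqrt h3.le
  have ha : a0 = vv / (1 + s) := by rw [hs]; rfl
  have h1s : 0 < 1 + s := by linarith
  refine ⟨by rw [ha]; positivity, ?_, ?_⟩
  · rw [ha, div_lt_one h1s]
    linarith
  · have h4 : 1 + a0 ^ 2 = 2 / (1 + s) := by
      rw [ha]
      field_simp
      nlinarith
    rw [h4, ha]
    field_simp

/-- An element of SU whose action fixes two points `p ≠ q` of the disc is `1` or `-1`: `(a, b) = (±1, 0)`.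
(`conj b p² + (conj a - a) p - b = 0` for two different `p` in the open disc: if `b ≠ 0` the two roots have the product
`-b/conj b` of modulus 1, impossible; so `b = 0` and `conj a = a`, `a² = 1`.) -/
theorem F_fix2 (g : SU) {p q : Disc} (hpq : p ≠ q) (hp : g.app p = p) (hq : g.app q = q) :
    (g.a = 1 ∨ g.a = -1) ∧ g.b = 0 := by
  have hp1 : ‖(p : ℂ)‖ < 1 := p.2
  have hq1 : ‖(q : ℂ)‖ < 1 := q.2
  have key : ∀ z : Disc, g.app z = z → conj g.b * (z : ℂ) ^ 2 + (conj g.a - g.a) * z - g.b = 0 := by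
    intro z hz
    have hd : g.den z ≠ 0 := g.den_ne z.2.le
    have h1 : g.app z = (g.a * z + g.b) / g.den z := rfl
    rw [h1, div_eq_iff hd] at hz
    unfold SU.den at hz
    linear_combination -hz
  have e1 := key p hp
  have e2 := key q hq
  have hne : (p : ℂ) - q ≠ 0 := fun h => hpq (Subtype.ext (sub_eq_zero.1 h))
  have e3 : conj g.b * ((p : ℂ) + q) + (conj g.a - g.a) = 0 := by
    have h2 : ((p : ℂ) - q) * (conj g.b * ((p : ℂ) + q) + (conj g.a - g.a)) = 0 := by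
      linear_combination e1 - e2
    rcases mul_eq_zero.1 h2 with h3 | h3
    · exact absurd h3 hne
    · exact h3
  have e4 : g.b = -(conj g.b * (p * q)) := by
    linear_combination (p : ℂ) * e3 - e1
  have hb : g.b = 0 := by
    by_contra hb0
    have h5 : ‖g.b‖ = ‖g.b‖ * (‖(p : ℂ)‖ * ‖(q : ℂ)‖) := by
      have h6 := congrArg norm e4
      rwa [norm_neg, norm_mul, norm_conj, norm_mul] at h6
    have h7 : 0 < ‖g.b‖ := norm_pos_iff.2 hb0
    have h8 : ‖(p : ℂ)‖ * ‖(q : ℂ)‖ < 1 := by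
      have h9 := norm_nonneg (p : ℂ)
      have h10 := norm_nonneg (q : ℂ)
      nlinarith
    nlinarith
  refine ⟨?_, hb⟩
  have h11 : conj g.a = g.a := by
    rw [hb, map_zero, zero_mul, zero_add] at e3
    exact sub_eq_zero.1 e3
  have h12 : g.a * g.a = 1 := by
    have h13 := g.h
    rw [hb, map_zero, sub_zero] at h13
    have h14 : g.a * conj g.a = 1 := by
      rw [Complex.mul_conj, h13, ofReal_one]
    rwa [h11] at h14
  exact mul_self_eq_one_iff.1 h12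

/-- Let `gs = (1/√(1-a0²), -a0/√(1-a0²))`: `gs z = (z - a0)/(1 - a0 z)`, `gs 0 = -a0`, `gs vv = a0`.  `g (gs φ)⁻¹` fixes `-a0` and
`a0`, so (`F_fix2`) `g = ± gs φ`: `g.app z = gs (φ z)`, `g.den z = ± gs.den (φ z) φ.den z`, `gs.den w = (1 - a0 w)/√(1-a0²)`; insert in the
definition of `Qst`: `((1-a0²)/(1-a0 w)²)² = 1/(gs.den w)^4`. -/
theorem F_Qst (g φ : SU) {X Z : Disc} (hX : g.app X = -(a0 : ℂ)) (hZ : g.app Z = a0)
    (hX' : φ.app X = 0) (hZ' : φ.app Z = vv) (z : Disc) :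
    Qc k0 (g.app z) / (g.den z) ^ 4 = Qst (φ.app z) / (φ.den z) ^ 4 := by
  obtain ⟨ha0, ha1, hvv⟩ := F_a0
  have h3 : 0 < 1 - a0 ^ 2 := by nlinarith
  obtain ⟨s, hs⟩ : ∃ s : ℝ, s = Real.sqrt (1 - a0 ^ 2) := ⟨_, rfl⟩
  have hs0 : 0 < s := by rw [hs]; exact Real.sqrt_pos.2 h3
  have hs2 : s ^ 2 = 1 - a0 ^ 2 := by rw [hs]; exact Real.sq_sqrt h3.le
  have hsC : (s : ℂ) ≠ 0 := by exact_mod_cast hs0.ne'
  have hs2C : (s : ℂ) ^ 2 = 1 - (a0 : ℂ) ^ 2 := by exact_mod_cast hs2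
  obtain ⟨gs, hga, hgb⟩ : ∃ gs : SU, gs.a = ((1 / s : ℝ) : ℂ) ∧ gs.b = ((-a0 / s : ℝ) : ℂ) := by
    refine ⟨⟨((1 / s : ℝ) : ℂ), ((-a0 / s : ℝ) : ℂ), ?_⟩, rfl, rfl⟩
    rw [normSq_ofReal, normSq_ofReal]
    field_simp
    linarith
  have hden : ∀ w : ℂ, gs.den w = (1 - a0 * w) / s := by
    intro w
    unfold SU.den
    rw [hga, hgb, conj_ofReal, conj_ofReal]
    push_cast
    field_simp
    ring
  have happ : ∀ w : ℂ, gs.app w = (w - a0) / (1 - a0 * w) := by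
    intro w
    have e1 : gs.app w = (gs.a * w + gs.b) / gs.den w := rfl
    rw [e1, hden, hga, hgb]
    push_cast
    by_cases hw : (1 - (a0 : ℂ) * w) = 0
    · rw [hw, zero_div, div_zero, div_zero]
    · field_simp
      ring
  have h0 : gs.app 0 = -(a0 : ℂ) := by
    rw [happ]
    simp
  have hv : gs.app vv = (a0 : ℂ) := by
    rw [happ]
    have hvC : (vv : ℂ) = 2 * a0 / (1 + (a0 : ℂ) ^ 2) := by exact_mod_cast hvv
    have h5 : (1 + (a0 : ℂ) ^ 2) ≠ 0 := by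
      have : (1 + a0 ^ 2 : ℝ) ≠ 0 := by positivity
      exact_mod_cast this
    have h6 : (1 - (a0 : ℂ) ^ 2) ≠ 0 := by
      rw [← hs2C]
      exact pow_ne_zero 2 hsC
    have h7 : 1 - (a0 : ℂ) * vv = (1 - (a0 : ℂ) ^ 2) / (1 + (a0 : ℂ) ^ 2) := by
      rw [hvC]
      field_simp
      ring
    have h8 : (vv : ℂ) - a0 = a0 * ((1 - (a0 : ℂ) ^ 2) / (1 + (a0 : ℂ) ^ 2)) := by
      rw [hvC]
      field_simp
      ring
    rw [h7, h8]
    field_simp
  have hn : ‖(a0 : ℂ)‖ < 1 := by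
    rw [norm_real, Real.norm_eq_abs, abs_of_pos ha0]
    exact ha1
  have hn' : ‖-(a0 : ℂ)‖ < 1 := by rwa [norm_neg]
  obtain ⟨k, hk⟩ : ∃ k : SU, k = gs * φ := ⟨_, rfl⟩
  obtain ⟨h, hh⟩ : ∃ h : SU, h = g * k⁻¹ := ⟨_, rfl⟩
  have hkX : k.app X = -(a0 : ℂ) := by
    rw [hk, SU.app_mul _ _ X.2.le, hX', h0]
  have hkZ : k.app Z = (a0 : ℂ) := by
    rw [hk, SU.app_mul _ _ Z.2.le, hZ', hv]
  have inv : ∀ z : Disc, ∀ w : ℂ, ‖w‖ ≤ 1 → k.app z = w → k⁻¹.app w = z := by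
    intro z w _ hzw
    rw [← hzw, ← SU.app_mul _ _ z.2.le, inv_mul_cancel, SU.app_one]
  have hfX : h.app (-(a0 : ℂ)) = -(a0 : ℂ) := by
    rw [hh, SU.app_mul _ _ hn'.le, inv X _ hn'.le hkX, hX]
  have hfZ : h.app (a0 : ℂ) = (a0 : ℂ) := by
    rw [hh, SU.app_mul _ _ hn.le, inv Z _ hn.le hkZ, hZ]
  have hne : (⟨-(a0 : ℂ), hn'⟩ : Disc) ≠ ⟨(a0 : ℂ), hn⟩ := by
    intro h1
    have h2 : -(a0 : ℂ) = a0 := congrArg Subtype.val h1
    have h3 : -a0 = a0 := by exact_mod_cast h2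
    linarith
  obtain ⟨h1, h2⟩ := F_fix2 h hne hfX hfZ
  have hg : g = h * k := by rw [hh, inv_mul_cancel_right]
  have hcoc : k.den z = gs.den (φ.app z) * φ.den z := by
    have hφd : φ.den z ≠ 0 := φ.den_ne z.2.le
    have e2 : φ.app z = (φ.a * z + φ.b) / φ.den z := rfl
    rw [hk, e2]
    unfold SU.den at hφd ⊢
    simp only [SU.mul_a, SU.mul_b, map_add, map_mul, conj_conj]
    field_simp
    ring
  have hga' : g.app z = gs.app (φ.app z) := by
    have e3 : g.app z = k.app z := by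
      rw [hg, SU.app_mul _ _ z.2.le]
      have e4 : ∀ w : ℂ, h.app w = w := by
        intro w
        unfold SU.app
        rw [h2, map_zero, zero_mul, zero_add, add_zero]
        rcases h1 with h1 | h1
        · rw [h1, map_one, one_mul, div_one]
        · rw [h1, map_neg, map_one]
          field_simp
      exact e4 _
    rw [e3, hk, SU.app_mul _ _ z.2.le]
  have hgd : (g.den z) ^ 4 = (gs.den (φ.app z)) ^ 4 * (φ.den z) ^ 4 := by
    have e5 : (g.den z) ^ 4 = (k.den z) ^ 4 := by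
      have e6 : g.den z = conj h.a * k.den z := by
        rw [hg]
        unfold SU.den
        rw [SU.mul_a, SU.mul_b, h2]
        simp only [zero_mul, add_zero, map_mul]
        ring
      rcases h1 with h1 | h1
      · rw [e6, h1, map_one, one_mul]
      · rw [e6, h1, map_neg, map_one]
        ring
    rw [e5, hcoc, mul_pow]
  rw [hga', hgd, happ, hden]
  unfold Qst
  have hd1 : 1 - (a0 : ℂ) * φ.app z ≠ 0 := by
    intro hcon
    have h4 : gs.den (φ.app z) = 0 := by rw [hden, hcon, zero_div]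
    exact gs.den_ne (φ.app_norm_lt z.2).le h4
  have hφd : φ.den z ≠ 0 := φ.den_ne z.2.le
  rw [← hs2C]
  field_simp

end Pool.Agent.Lib.H11Q
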