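import Pool.Agent.Lib.H11Q.F06B
import Pool.Agent.Lib.H11Q.F06D
import Pool.Agent.Lib.H11Q.F06E
import Pool.Agent.Lib.H11Q.F03
import Pool.Agent.Lib.H11Q.F04
import Pool.Agent.Lib.H11Q.A18

set_option autoImplicit false

namespace Pool.Agent.Lib.H11Q

open Complex Set MeasureTheory
open scoped ComplexConjugate Topology

/-! F07 (M): the mean of the first variation (PROOF.md 9.1). -/

theorem f07_Hd_meas : MeasurableSet Hd := by
  unfold Hd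
  exact (measurableSet_lt measurable_const Complex.measurable_re).inter
    (measurableSet_lt (measurable_norm) measurable_const)

theorem f07_Hd_sub : Hd ⊆ Metric.ball (0 : ℂ) 1 := fun ξ hξ => by
  simpa using hξ.2

theorem f07_Hd_ne {ξ : ℂ} (hξ : ξ ∈ Hd) : ξ ≠ 0 := by
  intro h
  have := hξ.1
  rw [h] at this
  simp at this

theorem f07_Hd_fin : volume Hd ≠ ⊤ :=
  ne_top_of_le_ne_top (measure_ball_lt_top (x := (0 : ℂ)) (r := 1)).ne (measure_mono f07_Hd_sub)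

theorem f07_integrable {E : Type*} [NormedAddCommGroup E] {f : ℂ → E} {S : Set ℂ} {M : ℝ}
    (hS : MeasurableSet S) (hfin : volume S ≠ ⊤) (hc : ContinuousOn f S)
    (hb : ∀ ξ ∈ S, ‖f ξ‖ ≤ M) : IntegrableOn f S := by
  have : IsFiniteMeasure (volume.restrict S) := isFiniteMeasure_restrict.mpr hfin
  exact Integrable.of_bound (hc.aestronglyMeasurable hS) M
    ((ae_restrict_iff' hS).mpr (Filter.Eventually.of_forall hb))

theorem f07_app_iot (w : ℂ) : iot.app w = -w := by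
  unfold SU.app iot
  simp only [map_zero, zero_mul, add_zero, zero_add, conj_I]
  rw [div_eq_iff (neg_ne_zero.mpr I_ne_zero)]
  ring

theorem f07_chi0 : chi.app 0 = vv := by
  have h1 := vv_lt_one
  have h2 := vv_pos
  have h3 : 0 < Real.sqrt (1 - vv ^ 2) := Real.sqrt_pos.mpr (by nlinarith)
  have h4 : ((Real.sqrt (1 - vv ^ 2) : ℝ) : ℂ) ≠ 0 := by exact_mod_cast h3.ne'
  unfold SU.app chi
  simp only [mul_zero, zero_add, map_neg, map_div₀, conj_I, conj_ofReal]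
  field_simp

theorem f07_chiv : chi.app (vv : ℂ) = 0 := by
  have h1 := vv_lt_one
  have h2 := vv_pos
  have h3 : 0 < Real.sqrt (1 - vv ^ 2) := Real.sqrt_pos.mpr (by nlinarith)
  have h4 : ((Real.sqrt (1 - vv ^ 2) : ℝ) : ℂ) ≠ 0 := by exact_mod_cast h3.ne'
  unfold SU.app chi
  have : -(I / ((Real.sqrt (1 - vv ^ 2) : ℝ) : ℂ)) * (vv : ℂ) +
      I * vv / ((Real.sqrt (1 - vv ^ 2) : ℝ) : ℂ) = 0 := by
    field_simp
    ring
  rw [this, zero_div]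

theorem f07_inv_app {g : SU} {p q : ℂ} (hp : ‖p‖ ≤ 1) (h : g.app p = q) : g⁻¹.app q = p := by
  rw [← h, ← SU.app_mul _ _ hp, inv_mul_cancel, SU.app_one]

/-- Integral over the half disc, first term. -/
theorem f07_int1 (L : LineSys) (g : SU) {κ : ℝ} (h0 : 0 ≤ κ) (h1 : κ ≤ 1 / 10) :
    ((1 - κ ^ 2 : ℝ) : ℂ) * ∫ ξ in Hd, pul (mu L (g⁻¹.app (beta κ ξ))) (c1 g 1 κ ξ) =
      ∫ z in Metric.ball (0 : ℂ) 1, mu L z * (Qc κ (g.app z) / (g.den z) ^ 4) := by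
  rw [F_cv g h0 h1, ← integral_const_mul]
  apply setIntegral_congr_fun f07_Hd_meas
  intro ξ hξ
  simp only
  rw [← F_Q1 g h0 h1 hξ.2 (f07_Hd_ne hξ) (mu L (g⁻¹.app (beta κ ξ))), Complex.real_smul]
  push_cast
  ring

theorem f07_int2 (L : LineSys) (g2 : SU) {κ : ℝ} (h0 : 0 ≤ κ) (h1 : κ ≤ 1 / 10) :
    -(((1 - κ ^ 2 : ℝ) : ℂ) * ∫ ξ in Hd, pul (mu L (g2.app (beta' κ ξ))) (c2 g2 1 κ ξ)) =
      ∫ z in Metric.ball (0 : ℂ) 1, mu L z *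
        (Qc κ ((iot * g2⁻¹).app z) / ((iot * g2⁻¹).den z) ^ 4) := by
  rw [F_cv' g2 h0 h1, ← integral_const_mul, ← integral_neg]
  apply setIntegral_congr_fun f07_Hd_meas
  intro ξ hξ
  simp only
  have := F_Q2 g2 h0 h1 hξ.2 (f07_Hd_ne hξ) (mu L (g2.app (beta' κ ξ)))
  rw [Complex.real_smul]
  have e : pul (mu L (g2.app (beta' κ ξ))) (c2 g2 1 κ ξ) =
      -((‖2 * c2 g2 1 κ ξ‖ ^ 2 : ℝ) * (mu L (g2.app (beta' κ ξ)) *
        (Qc κ ((iot * g2⁻¹).app (g2.app (beta' κ ξ))) /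
      ((iot * g2⁻¹).den (g2.app (beta' κ ξ))) ^ 4))) := by
    rw [this, neg_neg]
  rw [e]
  push_cast
  ring

theorem f07_pul_norm (m c : ℂ) : ‖pul m c‖ ≤ ‖m‖ := by
  unfold pul
  rw [norm_mul, norm_div, norm_conj]
  by_cases h : ‖c‖ = 0
  · rw [h]
    simp
  · rw [div_self h, mul_one]

/-- `X = 0`, `Z = vs s`, `κ = k0`, `r = 1`, `k = rho (A^j B^r A^(-s))`; see PROOF.md. -/
theorem F_mean (L : LineSys) (j s r : ℕ) :
    ∫ ξ in Metric.ball (0 : ℂ) 1, nn L (rho (wA ^ j * wB ^ r * (wA ^ s)⁻¹)) 0 (vs s) 1 k0 ξ ξ =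
      Real.pi * (bx L s + by' L j r) := by
  obtain ⟨hb1, hb2, hb3⟩ := F_base s
  obtain ⟨e1, e2, e3⟩ := Iface.E_k0
  have hk0 : 0 < k0 := by linarith
  have hk1 : k0 < 1 / 10 := by linarith
  obtain ⟨M, hM⟩ := Iface.T_mu_bdd L
  have hco0 : ((o0 : Disc) : ℂ) = 0 := rfl
  have h0vs : o0 ≠ vs s := by
    intro h
    apply hb3
    rw [← h]
    rfl
  obtain ⟨g, hgX, hgZ, hg⟩ := C_two h0vs
  rw [hco0, hb2, hb1] at hgX
  rw [hco0, hb2, hb1] at hgZ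
  rw [hco0] at hg
  set a : W := wA ^ j * wB ^ r * (wA ^ s)⁻¹ with ha
  set k : SU := rho a with hk
  -- the images of the two points
  have hB : ∀ r : ℕ, ac (wB ^ r) v0 = v0 := by
    intro r
    induction r with
    | zero => simp
    | succ n ih => rw [pow_succ, map_mul, Homeomorph.mul_apply, A.ac_wB_v0, ih]
  have hAinv : ac (wA ^ s)⁻¹ (vs s) = v0 := by
    unfold vs
    rw [← Homeomorph.mul_apply, ← map_mul, inv_mul_cancel, map_one]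
    rfl
  have hA0 : ac (wA ^ s)⁻¹ o0 = o0 := by
    have h1 : ac (wA ^ s) o0 = o0 := by
      apply Subtype.ext
      show (rho (wA ^ s)).app ((o0 : Disc) : ℂ) = ((o0 : Disc) : ℂ)
      rw [F_A_app, hco0, mul_zero]
    calc ac (wA ^ s)⁻¹ o0 = ac (wA ^ s)⁻¹ (ac (wA ^ s) o0) := by rw [h1]
      _ = o0 := by
        rw [← Homeomorph.mul_apply, ← map_mul, inv_mul_cancel, map_one]
        rfl
  have hkZ : ac a (vs s) = ac (wA ^ j * wB ^ r) v0 := by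
    rw [ha, map_mul, Homeomorph.mul_apply, hAinv]
  have hkX : ac a o0 = ac (wA ^ j * wB ^ r) o0 := by
    rw [ha, map_mul, Homeomorph.mul_apply, hA0]
  have hkZ' : k.app (vs s) = ((ac (wA ^ j * wB ^ r) v0 : Disc) : ℂ) := by
    rw [← hkZ]
    rfl
  have hkX' : k.app 0 = ((ac (wA ^ j * wB ^ r) o0 : Disc) : ℂ) := by
    rw [← hkX]
    rfl
  -- properties of `nn`
  have hcont : ContinuousOn (fun ξ => nn L k 0 (vs s) 1 k0 ξ ξ) (Metric.ball 0 1) := by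
    intro ξ hξ
    have hξ' : ‖ξ‖ < 1 := by simpa using hξ
    have hc := F_nn_cont L (k := k) (s := s) ⟨_, hkZ'⟩ hξ'
    apply ContinuousAt.continuousWithinAt
    exact ContinuousAt.comp (g := fun p : ℂ × ℂ × ℝ × ℝ × ℂ × ℂ =>
      nn L k p.1 p.2.1 p.2.2.1 p.2.2.2.1 p.2.2.2.2.1 p.2.2.2.2.2)
      (f := fun ξ : ℂ => ((0 : ℂ), ((vs s : Disc) : ℂ), (1 : ℝ), k0, ξ, ξ)) (x := ξ) hc
      (by fun_prop)
  have hbd : ∀ ξ ∈ Metric.ball (0 : ℂ) 1, ‖nn L k 0 (vs s) 1 k0 ξ ξ‖ ≤ 4 * M := by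
    intro ξ hξ
    have hξ' : ‖ξ‖ < 1 := by simpa using hξ
    exact F_nn_bd L hM k h0vs zero_le_one le_rfl hk0.le hk1.le hξ' hξ'
  have hint : IntegrableOn (fun ξ => nn L k 0 (vs s) 1 k0 ξ ξ) (Metric.ball 0 1) :=
    f07_integrable measurableSet_ball measure_ball_lt_top.ne hcont hbd
  rw [F_even hint fun ξ _ => F_nn_even L k 0 (vs s) 1 k0 ξ ξ]
  -- the two parts on `Hd`
  have hpt : ∀ ξ ∈ Hd, gi 0 (vs s) (((1 : ℝ) : ℂ) * beta k0 ξ) = g⁻¹.app (beta k0 ξ) ∧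
      cc1 0 (vs s) 1 k0 ξ = c1 g 1 k0 ξ ∧
      k.app (gi 0 (vs s) (((1 : ℝ) : ℂ) * beta' k0 ξ)) = (k * g⁻¹).app (beta' k0 ξ) ∧
      cc2 k 0 (vs s) 1 k0 ξ = c2 (k * g⁻¹) 1 k0 ξ := by
    intro ξ hξ
    obtain ⟨n1, n2⟩ := Iface.E_beta_lt hk0.le hk1.le hξ.2
    have o1 : ((1 : ℝ) : ℂ) * beta k0 ξ = beta k0 ξ := by rw [ofReal_one, one_mul]
    have o2 : ((1 : ℝ) : ℂ) * beta' k0 ξ = beta' k0 ξ := by rw [ofReal_one, one_mul]
    have w1 : ‖((1 : ℝ) : ℂ) * beta k0 ξ‖ ≤ 1 := by rw [o1]; exact n1.le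
    have w2 : ‖((1 : ℝ) : ℂ) * beta' k0 ξ‖ ≤ 1 := by rw [o2]; exact n2.le
    obtain ⟨-, a1, a2⟩ := hg _ w1
    obtain ⟨-, b1, b2⟩ := hg _ w2
    refine ⟨?_, ?_, ?_, ?_⟩
    · rw [← a1, o1]
    · exact (F_c1_eq h0vs g 1 k0 ξ (by rw [hco0]; exact a2)).symm
    · rw [← b1, o2, SU.app_mul _ _ n2.le]
    · exact (F_c2_eq h0vs g k 1 k0 ξ w2 (by rw [hco0]; exact b1) (by rw [hco0]; exact b2)).symm
  set f1 : ℂ → ℂ := fun ξ => pul (mu L (g⁻¹.app (beta k0 ξ))) (c1 g 1 k0 ξ) with hf1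
  set f2 : ℂ → ℂ := fun ξ => pul (mu L ((k * g⁻¹).app (beta' k0 ξ))) (c2 (k * g⁻¹) 1 k0 ξ)
    with hf2
  have hnn : ∀ ξ ∈ Hd, nn L k 0 (vs s) 1 k0 ξ ξ = 2 * (f1 ξ).re - 2 * (f2 ξ).re := by
    intro ξ hξ
    obtain ⟨p1, p2, p3, p4⟩ := hpt ξ hξ
    unfold nn
    rw [p1, p2, p3, p4]
  have hc1 : ContinuousOn f1 Hd := by
    intro ξ hξ
    have hc := (f03_parts L k s hξ.2 (f07_Hd_ne hξ)).1
    have hc' : ContinuousAt (fun ξ : ℂ => pul (mu L (gi 0 (vs s) (((1 : ℝ) : ℂ) * beta k0 ξ)))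
        (cc1 0 (vs s) 1 k0 ξ)) ξ :=
      ContinuousAt.comp (g := fun p : ℂ × ℂ × ℝ × ℝ × ℂ × ℂ =>
      pul (mu L (gi p.1 p.2.1 (((p.2.2.1 : ℝ) : ℂ) * beta p.2.2.2.1 p.2.2.2.2.1)))
        (cc1 p.1 p.2.1 p.2.2.1 p.2.2.2.1 p.2.2.2.2.1))
      (f := fun ξ : ℂ => ((0 : ℂ), ((vs s : Disc) : ℂ), (1 : ℝ), k0, ξ, ξ)) (x := ξ) hc
      (by fun_prop)
    apply hc'.continuousWithinAt.congr
    · intro ξ' hξ'
      obtain ⟨p1, p2, -, -⟩ := hpt ξ' hξ'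
      rw [p1, p2]
    · obtain ⟨p1, p2, -, -⟩ := hpt ξ hξ
      rw [p1, p2]
  have hc2 : ContinuousOn f2 Hd := by
    intro ξ hξ
    have hc := (f03_parts L k s hξ.2 (f07_Hd_ne hξ)).2.1
    have hc' : ContinuousAt (fun ξ : ℂ => pul (mu L (k.app (gi 0 (vs s)
        (((1 : ℝ) : ℂ) * beta' k0 ξ)))) (cc2 k 0 (vs s) 1 k0 ξ)) ξ :=
      ContinuousAt.comp (g := fun p : ℂ × ℂ × ℝ × ℝ × ℂ × ℂ =>
      pul (mu L (k.app (gi p.1 p.2.1 (((p.2.2.1 : ℝ) : ℂ) * beta' p.2.2.2.1 p.2.2.2.2.2))))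
        (cc2 k p.1 p.2.1 p.2.2.1 p.2.2.2.1 p.2.2.2.2.2))
      (f := fun ξ : ℂ => ((0 : ℂ), ((vs s : Disc) : ℂ), (1 : ℝ), k0, ξ, ξ)) (x := ξ) hc
      (by fun_prop)
    apply hc'.continuousWithinAt.congr
    · intro ξ' hξ'
      obtain ⟨-, -, p3, p4⟩ := hpt ξ' hξ'
      rw [p3, p4]
    · obtain ⟨-, -, p3, p4⟩ := hpt ξ hξ
      rw [p3, p4]
  have hb1' : ∀ ξ ∈ Hd, ‖f1 ξ‖ ≤ M := by
    intro ξ hξ
    obtain ⟨n1, n2⟩ := Iface.E_beta_lt hk0.le hk1.le hξ.2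
    exact (f07_pul_norm _ _).trans (hM _ (g⁻¹.app_norm_lt n1))
  have hb2' : ∀ ξ ∈ Hd, ‖f2 ξ‖ ≤ M := by
    intro ξ hξ
    obtain ⟨n1, n2⟩ := Iface.E_beta_lt hk0.le hk1.le hξ.2
    exact (f07_pul_norm _ _).trans (hM _ ((k * g⁻¹).app_norm_lt n2))
  have hi1 : IntegrableOn f1 Hd := f07_integrable f07_Hd_meas f07_Hd_fin hc1 hb1'
  have hi2 : IntegrableOn f2 Hd := f07_integrable f07_Hd_meas f07_Hd_fin hc2 hb2'
  have hsplit : ∫ ξ in Hd, nn L k 0 (vs s) 1 k0 ξ ξ =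
      2 * (∫ ξ in Hd, f1 ξ).re - 2 * (∫ ξ in Hd, f2 ξ).re := by
    rw [setIntegral_congr_fun f07_Hd_meas hnn]
    have hr1 : Integrable (fun ξ => (f1 ξ).re) (volume.restrict Hd) := hi1.re
    have hr2 : Integrable (fun ξ => (f2 ξ).re) (volume.restrict Hd) := hi2.re
    rw [integral_sub (hr1.const_mul 2) (hr2.const_mul 2), integral_const_mul, integral_const_mul]
    have e1 : ∫ ξ in Hd, (f1 ξ).re = (∫ ξ in Hd, f1 ξ).re := integral_re hi1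
    have e2 : ∫ ξ in Hd, (f2 ξ).re = (∫ ξ in Hd, f2 ξ).re := integral_re hi2
    rw [e1, e2]
  -- the two integrals
  have I1 := f07_int1 L g hk0.le hk1.le
  have I2 := f07_int2 L (k * g⁻¹) hk0.le hk1.le
  have hQ1 : ∫ z in Metric.ball (0 : ℂ) 1, mu L z * (Qc k0 (g.app z) / (g.den z) ^ 4) =
      ∫ z in Metric.ball (0 : ℂ) 1, mu L z *
        (Qst ((rho (wA ^ s))⁻¹.app z) / ((rho (wA ^ s))⁻¹.den z) ^ 4) := by
    apply setIntegral_congr_fun measurableSet_ball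
    intro z hz
    have hz' : ‖z‖ < 1 := by simpa using hz
    simp only
    have := F_Qst g (rho (wA ^ s))⁻¹ (X := o0) (Z := vs s) hgX hgZ (by
      have := congrArg (Subtype.val) hA0
      rw [map_inv] at this
      exact this) (by
      have := congrArg (Subtype.val) hAinv
      rw [map_inv] at this
      exact this) ⟨z, hz'⟩
    rw [this]
  have hQ2 : ∫ z in Metric.ball (0 : ℂ) 1, mu L z *
        (Qc k0 ((iot * (k * g⁻¹)⁻¹).app z) / ((iot * (k * g⁻¹)⁻¹).den z) ^ 4) =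
      ∫ z in Metric.ball (0 : ℂ) 1, mu L z *
        (Qst ((chi * (rho (wA ^ j * wB ^ r))⁻¹).app z) /
          ((chi * (rho (wA ^ j * wB ^ r))⁻¹).den z) ^ 4) := by
    apply setIntegral_congr_fun measurableSet_ball
    intro z hz
    have hz' : ‖z‖ < 1 := by simpa using hz
    simp only
    have hvl : ‖((ac (wA ^ j * wB ^ r) v0 : Disc) : ℂ)‖ ≤ 1 := (ac (wA ^ j * wB ^ r) v0).2.le
    have hol : ‖((ac (wA ^ j * wB ^ r) o0 : Disc) : ℂ)‖ ≤ 1 := (ac (wA ^ j * wB ^ r) o0).2.le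
    have hkgv : (k * g⁻¹)⁻¹.app ((ac (wA ^ j * wB ^ r) v0 : Disc) : ℂ) = a0 := by
      rw [mul_inv_rev, inv_inv, SU.app_mul _ _ hvl, f07_inv_app (vs s).2.le hkZ', hgZ]
    have hkgo : (k * g⁻¹)⁻¹.app ((ac (wA ^ j * wB ^ r) o0 : Disc) : ℂ) = -(a0 : ℂ) := by
      rw [mul_inv_rev, inv_inv, SU.app_mul _ _ hol, f07_inv_app (by simp) hkX', hgX]
    have hvi : (rho (wA ^ j * wB ^ r))⁻¹.app ((ac (wA ^ j * wB ^ r) v0 : Disc) : ℂ) = (vv : ℂ) :=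
      f07_inv_app (p := (vv : ℂ)) (v0 : Disc).2.le rfl
    have hoi : (rho (wA ^ j * wB ^ r))⁻¹.app ((ac (wA ^ j * wB ^ r) o0 : Disc) : ℂ) = (0 : ℂ) :=
      f07_inv_app (p := (0 : ℂ)) (by simp) rfl
    have := F_Qst (iot * (k * g⁻¹)⁻¹) (chi * (rho (wA ^ j * wB ^ r))⁻¹)
      (X := ac (wA ^ j * wB ^ r) v0) (Z := ac (wA ^ j * wB ^ r) o0)
      (by rw [SU.app_mul _ _ hvl, hkgv, f07_app_iot])
      (by rw [SU.app_mul _ _ hol, hkgo, f07_app_iot, neg_neg])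
      (by
        rw [SU.app_mul _ _ hvl, hvi, f07_chiv])
      (by
        rw [SU.app_mul _ _ hol, hoi, f07_chi0])
      ⟨z, hz'⟩
    rw [this]
  rw [hQ1] at I1
  rw [hQ2] at I2
  have hk2 : (0 : ℝ) < 1 - k0 ^ 2 := by nlinarith
  have R1 : (1 - k0 ^ 2) * (∫ ξ in Hd, f1 ξ).re = bb L (rho (wA ^ s))⁻¹ := by
    have := congrArg Complex.re I1
    rw [Complex.re_ofReal_mul] at this
    exact this
  have R2 : -((1 - k0 ^ 2) * (∫ ξ in Hd, f2 ξ).re) =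
      bb L (chi * (rho (wA ^ j * wB ^ r))⁻¹) := by
    have := congrArg Complex.re I2
    rw [Complex.neg_re, Complex.re_ofReal_mul] at this
    exact this
  rw [hsplit]
  unfold bx by'
  rw [← R1, ← R2]
  have hpi := Real.pi_pos
  field_simp
  ring

end Pool.Agent.Lib.H11Q
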