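import Pool.Agent.Lib.H11Q.F05
import Pool.Agent.Lib.H11Q.C22
import Pool.Agent.Lib.H11Q.C03B

set_option autoImplicit false

namespace Pool.Agent.Lib.H11Q

open Complex Set MeasureTheory
open scoped ComplexConjugate Topology

/-! F08 (M): the dilatation bound at nearby parameters (PROOF.md 10.1). -/

theorem f08_pul (m c : ℂ) : ‖pul m c‖ ≤ ‖m‖ := by
  unfold pul
  rcases eq_or_ne c 0 with h | h
  · rw [h]
    simp
  · rw [norm_mul, norm_div, Complex.norm_conj, div_self (norm_ne_zero_iff.mpr h), mul_one]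

theorem f08_pul_sub (t : ℝ) (m μ c : ℂ) : (pul m c).re = t * (pul μ c).re + (pul (m - t * μ) c).re := by
  unfold pul
  have h : m * (conj c / c) = (t : ℂ) * (μ * (conj c / c)) + (m - t * μ) * (conj c / c) := by ring
  rw [h, Complex.add_re, Complex.re_ofReal_mul]

theorem f08_n {t M c : ℝ} (ht : 0 < t) {m μ e : ℂ} (hμ : ‖μ‖ ≤ M) (hm : ‖m - t * μ‖ ≤ c * t) :
    ‖pul m e‖ ≤ t * (M + c) := by
  refine (f08_pul _ _).trans ?_
  have h4 : ‖m‖ ≤ ‖m - t * μ‖ + ‖(t : ℂ) * μ‖ := by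
    have := norm_add_le (m - t * μ) (t * μ)
    rwa [sub_add_cancel] at this
  rw [norm_mul, Complex.norm_real, Real.norm_eq_abs, abs_of_pos ht] at h4
  have h5 : t * ‖μ‖ ≤ t * M := by gcongr
  linarith

theorem f08_rb {r : ℝ} (hr0 : 0 ≤ r) (hr1 : r < 1) {z : ℂ} (hz : ‖z‖ < 1) : ‖(r : ℂ) * z‖ < 1 := by
  rw [norm_mul, Complex.norm_real, Real.norm_eq_abs, abs_of_nonneg hr0]
  calc r * ‖z‖ ≤ 1 * ‖z‖ := by gcongr
    _ < 1 := by linarith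

theorem f08_fin {t B B' c ε D x y x' y' d n1 n2 n3 M MV : ℝ} (ht : 0 < t) (hD : D = 2 * M + 2 * c + MV + 1)
    (hDp : 0 < D) (hεp : 0 ≤ ε) (hε : ε = (B - B') / 2 / D) (hx' : x' ≤ c * t ^ 2) (hy' : -(c * t ^ 2) ≤ y')
    (hc4 : t * (4 * c + 1) < (B - B') / 2) (h7 : 2 * x - 2 * y + d ≤ B') (hn1 : n1 ≤ t * (M + c))
    (hn2 : n2 ≤ t * (M + c)) (hn3 : n3 ≤ t * MV) :
    2 * (t * x + x') - 2 * (t * y + y') + t * d + ε * (n1 + n2 + n3) ≤ t * B := by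
  have h5 : n1 + n2 + n3 ≤ t * D := by
    rw [hD]
    linarith
  have h6 : ε * (n1 + n2 + n3) ≤ t * ((B - B') / 2) := by
    calc ε * (n1 + n2 + n3) ≤ ε * (t * D) := by gcongr
      _ = t * ((B - B') / 2) := by
        rw [hε]
        field_simp
  have h8 : t * (2 * x - 2 * y + d) ≤ t * B' := by gcongr
  have h9 : t * (t * (4 * c + 1)) ≤ t * ((B - B') / 2) := by gcongr
  nlinarith

theorem f08_dif (t : ℝ) (Q : ℂ →L[ℝ] ℂ) : dif (t • Q) = t * dif Q := by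
  unfold dif
  rw [smul_apply, smul_apply, Complex.real_smul, Complex.real_smul,
    Complex.re_ofReal_mul, Complex.im_ofReal_mul]
  ring

/-- Let `n ξ = nn L (rho a) 0 (vs s) 1 k0 ξ ξ` (continuous on the open disc by `F_nn_cont`, `|n| ≤ 4 M` by `F_nn_bd`, even by
`F_nn_even`), `M` a bound of `mu L` (`Iface.T_mu_bdd`), `∫ n < π B' < π B`.  `C_improve` with `B'` and `M' = 4 M`
gives `P`, `np`; `F_unif` gives `δ`.  Let `MV` be a bound of `‖fderiv ℝ (fld P) ξ‖` (`C_fld_diff`).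
`pul m1 c = t pul (mu ..) c + pul (m1 - t mu ..) c`, `|pul m c| ≤ |m|`.  So
`2 Re pul m1 - 2 Re pul m2 + dif (t DV) ≤ t nn + 4 C t² + t dif (DV) ≤ t (np + dif DV) + 4 C t² ≤ t B' + 4 C t²`, and
`‖m1‖ + ‖m2‖ + ‖t DV‖ ≤ t (2 M + 2 C t + MV)`.  Apply `C_RR` with `ε` such that
`ε (2 M + 2 C + MV) < (B - B')/2`, and `δ` small; `C_QCL_mono` (monotonicity of `exp`). -/
theorem F_QCL (L : LineSys) (C : ℝ) (a : W) {s : ℕ} (hk : ∃ u : W, (rho a).app (vs s) = ac u v0)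
    {B : ℝ} (hB : ∫ ξ in Metric.ball (0 : ℂ) 1, nn L (rho a) 0 (vs s) 1 k0 ξ ξ < Real.pi * B) :
    ∃ P : ℂ → ℂ, ContDiff ℝ 2 P ∧ (∀ ξ, P (-ξ) = -P ξ) ∧ ∃ δ > 0, ∀ t : ℝ, 0 < t → t < δ →
      FldOK P t ∧ ∀ (X Z : Disc) (r κ : ℝ), ‖(X : ℂ)‖ < δ → ‖(Z : ℂ) - vs s‖ < δ → 1 - δ < r →
      r < 1 → |κ - k0| < δ → ∀ (ξ : ℂ) (m1 m2 : ℂ), ξ ≠ 0 → ‖ξ‖ < 1 →
      ‖m1 - t * mu L (gi X Z (r * beta κ ξ))‖ ≤ C * t ^ 2 →
      ‖m2 - t * mu L ((rho a).app (gi X Z (r * beta' κ (flm P t ξ))))‖ ≤ C * t ^ 2 →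
      QCL (KK κ * Real.exp (t * B)) (RRm κ (pul m1 (cc1 X Z r κ ξ)) (t • fderiv ℝ (fld P) ξ)
        (pul m2 (cc2 (rho a) X Z r κ (flm P t ξ)))) := by
  obtain ⟨hkk, hk1, hk2⟩ := Iface.E_k0
  obtain ⟨M, hM⟩ := Iface.T_mu_bdd L
  have hM0 : 0 ≤ M := (norm_nonneg _).trans (hM 0 (by simp))
  obtain ⟨-, -, hvs⟩ := F_base s
  have hX0 : o0 ≠ vs s := fun h => hvs (by rw [← h]; rfl)
  have ho : ((o0 : Disc) : ℂ) = 0 := rfl
  set n : ℂ → ℝ := fun ξ => nn L (rho a) 0 (vs s) 1 k0 ξ ξ with hn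
  have hb : ∀ ξ : ℂ, ‖ξ‖ < 1 → |n ξ| ≤ 4 * M := fun ξ hξ => by
    have h := F_nn_bd L hM (rho a) hX0 (r := 1) (κ := k0) (by norm_num) le_rfl (by linarith) (by linarith) hξ hξ
    rw [ho] at h
    exact h
  have hc : ContinuousOn n (Metric.ball 0 1) := fun ξ hξ => by
    have h1 : ‖ξ‖ < 1 := by simpa using hξ
    have h2 := F_nn_cont L hk h1
    have h3 : ContinuousAt (fun ξ : ℂ => ((0 : ℂ), ((vs s : ℂ), ((1 : ℝ), (k0, (ξ, ξ)))))) ξ := by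
      fun_prop
    exact (ContinuousAt.comp (x := ξ) (f := fun ξ : ℂ => ((0 : ℂ), ((vs s : ℂ), ((1 : ℝ), (k0, (ξ, ξ))))))
      h2 h3).continuousWithinAt
  have he : ∀ ξ : ℂ, ‖ξ‖ < 1 → n (-ξ) = n ξ := fun ξ _ => F_nn_even L (rho a) 0 (vs s) 1 k0 ξ ξ
  obtain ⟨B', hB1, hB2⟩ : ∃ B', (∫ ξ in Metric.ball (0 : ℂ) 1, n ξ) / Real.pi < B' ∧ B' < B := by
    refine exists_between ?_
    rw [div_lt_iff₀ Real.pi_pos]
    linarith
  rw [div_lt_iff₀ Real.pi_pos, mul_comm] at hB1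
  obtain ⟨P, hP, hodd, np, hnp, h1, h2, h3⟩ := C_improve hb hc he hB1 (4 * M)
  obtain ⟨δ1, hδ1, hU⟩ := F_unif L hk hP hnp h1 hM h2
  obtain ⟨-, MV, hMV⟩ := C_fld_diff hP
  have hMV0 : 0 ≤ MV := (norm_nonneg _).trans (hMV 0 (by simp))
  obtain ⟨t1, ht1, hF⟩ := C_fld hP
  set D := 2 * M + 2 * |C| + MV + 1 with hD
  have hDp : 0 < D := by positivity
  set ε := (B - B') / 2 / D with hε
  have hεp : 0 < ε := div_pos (by linarith) hDp
  obtain ⟨δ2, hδ2, hRR⟩ := C_RR hεp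
  set c4 := (B - B') / 2 / (4 * |C| + 1) with hc4
  have hc4p : 0 < c4 := div_pos (by linarith) (by positivity)
  have hvn : 0 < ‖(vs s : ℂ)‖ := norm_pos_iff.mpr hvs
  refine ⟨P, hP, hodd, min (min (min δ1 t1) (min (δ2 / D) c4)) (min (1 / 100) (‖(vs s : ℂ)‖ / 2)),
    by positivity, ?_⟩
  intro t ht htδ
  have q1 : t < δ1 := htδ.trans_le ((min_le_left _ _).trans ((min_le_left _ _).trans (min_le_left _ _)))
  have q2 : t < t1 := htδ.trans_le ((min_le_left _ _).trans ((min_le_left _ _).trans (min_le_right _ _)))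
  have q3 : t < δ2 / D := htδ.trans_le ((min_le_left _ _).trans ((min_le_right _ _).trans (min_le_left _ _)))
  have q4 : t < c4 := htδ.trans_le ((min_le_left _ _).trans ((min_le_right _ _).trans (min_le_right _ _)))
  have q5 : t < 1 / 100 := htδ.trans_le ((min_le_right _ _).trans (min_le_left _ _))
  have hFt := hF t (by rw [abs_of_pos ht]; exact q2.le)
  refine ⟨hFt, ?_⟩
  intro X Z r κ hX hZ hr hr1 hκ ξ m1 m2 hξ0 hξ hm1 hm2
  set δ := min (min (min δ1 t1) (min (δ2 / D) c4)) (min (1 / 100) (‖(vs s : ℂ)‖ / 2)) with hδ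
  have d1 : δ ≤ δ1 := (min_le_left _ _).trans ((min_le_left _ _).trans (min_le_left _ _))
  have d5 : δ ≤ 1 / 100 := (min_le_right _ _).trans (min_le_left _ _)
  have d6 : δ ≤ ‖(vs s : ℂ)‖ / 2 := (min_le_right _ _).trans (min_le_right _ _)
  have hκ' := abs_lt.mp hκ
  have hκ1 : 1 / 20 ≤ κ := by linarith [hκ'.1]
  have hκ2 : κ ≤ 1 / 10 := by linarith [hκ'.2]
  have hr0 : 0 ≤ r := by linarith
  have hflm := hFt.lt ξ hξ
  have hXZ : X ≠ Z := by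
    intro h
    rw [← h] at hZ
    have h4 : ‖(vs s : ℂ)‖ ≤ ‖(X : ℂ)‖ + ‖(X : ℂ) - vs s‖ := by
      have := norm_sub_le (X : ℂ) ((X : ℂ) - vs s)
      rwa [sub_sub_cancel] at this
    linarith
  -- points of the disc
  have hβ := (Iface.E_beta_lt (κ := κ) (by linarith) hκ2 hξ).1
  have hβ' := (Iface.E_beta_lt (κ := κ) (by linarith) hκ2 hflm).2
  have hg1 : ‖gi X Z (r * beta κ ξ)‖ < 1 := (F_gi_mem hXZ (f08_rb hr0 hr1 hβ)).1
  have hg2 : ‖gi X Z (r * beta' κ (flm P t ξ))‖ < 1 := (F_gi_mem hXZ (f08_rb hr0 hr1 hβ')).1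
  have hμ1 := hM _ hg1
  have hμ2 := hM _ (SU.app_norm_lt (rho a) hg2)
  set μ1 := mu L (gi X Z (r * beta κ ξ)) with hμ1d
  set μ2 := mu L ((rho a).app (gi X Z (r * beta' κ (flm P t ξ)))) with hμ2d
  set e1 := cc1 X Z r κ ξ with he1
  set e2 := cc2 (rho a) X Z r κ (flm P t ξ) with he2
  have hCt : C * t ^ 2 ≤ |C| * t ^ 2 := by
    have := le_abs_self C
    gcongr
  have hCt1 : |C| * t ^ 2 ≤ |C| * t := by
    have : t ^ 2 ≤ t := by nlinarith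
    gcongr
  have hn1 : ‖pul m1 e1‖ ≤ t * (M + |C|) := f08_n ht hμ1 (hm1.trans (hCt.trans hCt1))
  have hn2 : ‖pul m2 e2‖ ≤ t * (M + |C|) := f08_n ht hμ2 (hm2.trans (hCt.trans hCt1))
  have hn3 : ‖t • fderiv ℝ (fld P) ξ‖ ≤ t * MV := by
    rw [norm_smul, Real.norm_eq_abs, abs_of_pos ht]
    have := hMV ξ hξ.le
    gcongr
  have hsm : t * D < δ2 := by rwa [lt_div_iff₀ hDp] at q3
  have habs : 0 ≤ |C| := abs_nonneg C
  have hD1 : t * (M + |C|) ≤ t * D := by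
    refine mul_le_mul_of_nonneg_left ?_ ht.le
    rw [hD]
    linarith
  have hD2 : t * MV ≤ t * D := by
    refine mul_le_mul_of_nonneg_left ?_ ht.le
    rw [hD]
    linarith
  have hs1 : ‖pul m1 e1‖ ≤ δ2 := by linarith
  have hs2 : ‖pul m2 e2‖ ≤ δ2 := by linarith
  have hs3 : ‖t • fderiv ℝ (fld P) ξ‖ ≤ δ2 := by linarith
  have hQ := hRR κ (pul m1 e1) (pul m2 e2) (t • fderiv ℝ (fld P) ξ) hκ1 hκ2 hs1 hs2 hs3
  have hK0 : 0 ≤ KK κ := by unfold KK; positivity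
  refine C_QCL_mono (mul_le_mul_of_nonneg_left (Real.exp_le_exp.mpr ?_) hK0) hQ
  have hu := hU X Z r κ t (hX.trans_le d1) (hZ.trans_le d1) (by linarith) hr1.le (hκ.trans_le d1)
    (by rw [abs_of_pos ht]; exact q1) ξ hξ
  have himp := h3 ξ hξ.le
  have hnn : nn L (rho a) X Z r κ ξ (flm P t ξ) = 2 * (pul μ1 e1).re - 2 * (pul μ2 e2).re := rfl
  rw [hnn] at hu
  rw [f08_pul_sub t m1 μ1 e1, f08_pul_sub t m2 μ2 e2, f08_dif]
  have r1 : |(pul (m1 - t * μ1) e1).re| ≤ |C| * t ^ 2 :=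
    (Complex.abs_re_le_norm _).trans ((f08_pul _ _).trans (hm1.trans hCt))
  have r2 : |(pul (m2 - t * μ2) e2).re| ≤ |C| * t ^ 2 :=
    (Complex.abs_re_le_norm _).trans ((f08_pul _ _).trans (hm2.trans hCt))
  have r1' := (abs_le.mp r1).2
  have r2' := (abs_le.mp r2).1
  refine f08_fin ht hD hDp hεp.le hε r1' r2' ?_ (by linarith) hn1 hn2 hn3
  rw [hc4, lt_div_iff₀ (by positivity)] at q4
  exact q4

end Pool.Agent.Lib.H11Q
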