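import Pool.Agent.Lib.H11Q.F09A

set_option autoImplicit false

namespace Pool.Agent.Lib.H11Q

open Complex Set MeasureTheory
open scoped ComplexConjugate Topology

/-! F09B (M): the choice of `κ` (PROOF.md 10.2). -/

theorem f09b_a0_nonneg : 0 ≤ a0 := by
  unfold a0
  have := vv_pos
  positivity

/-- `Φ(E, r) = log (KK (kap (bE E / r)))` is (Frechet) differentiable at `(CC, 1)`, by the chain rule:
`dΦ = k1 dE - k2 dr`, `k1 = (4/(1-k0²)) d (bE'(CC)) > 0`, `k2 = (4/(1-k0²)) d a0 > 0` (`F_kap`, `F_logKK`, `F_bE_deriv`,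
`F_bE_CC`).  So `Φ(E,r) ≤ Φ(CC,1) + k1 (E - CC) + k2 (1 - r) + ε max(|E-CC|, |1-r|)` near `(CC,1)`; take
`κ = kap (bE E / r)`, `aa κ = bE E / r`; `|κ - k0| < ε` by continuity. -/
theorem F_kappa : ∃ k1 > 0, ∃ k2 ≥ 0, ∀ ε > 0, ∃ δ > 0, ∀ E r : ℝ, |E - CC| < δ → 1 - δ < r →
    r ≤ 1 → ∃ κ : ℝ, 1 / 20 ≤ κ ∧ κ ≤ 1 / 10 ∧ |κ - k0| < ε ∧ r * aa κ = bE E ∧
      Real.log (KK κ) ≤ Real.log (KK k0) + k1 * (E - CC) + k2 * (1 - r) +
        ε * (|E - CC| + (1 - r)) := by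
  obtain ⟨kap, d, hd, hk, hk0, hev⟩ := F_kap
  obtain ⟨-, hlo, hhi⟩ := Iface.E_k0
  obtain ⟨bd, hbd, hb⟩ := F_bE_deriv one_lt_CC
  have hc : 0 < 4 / (1 - k0 ^ 2) := by
    apply div_pos (by norm_num)
    nlinarith
  have hg : HasDerivAt (fun x => Real.log (KK (kap x))) ((4 / (1 - k0 ^ 2)) * d) a0 := by
    have h1 := F_logKK (κ := k0) (by linarith) (by linarith)
    rw [← hk0] at h1
    have h2 := h1.comp a0 hk
    rw [hk0] at h2
    exact h2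
  have hu1 : HasFDerivAt (fun p : ℝ × ℝ => bE p.1) (bd • ContinuousLinearMap.fst ℝ ℝ ℝ) (CC, 1) := by
    have : HasFDerivAt (fun p : ℝ × ℝ => p.1) (ContinuousLinearMap.fst ℝ ℝ ℝ) (CC, (1 : ℝ)) :=
      hasFDerivAt_fst
    exact HasDerivAt.comp_hasFDerivAt (CC, (1 : ℝ)) (h₂ := bE) (f := fun p : ℝ × ℝ => p.1) hb this
  have hu2 : HasFDerivAt (fun p : ℝ × ℝ => (p.2)⁻¹)
      ((-((1 : ℝ) ^ 2)⁻¹) • ContinuousLinearMap.snd ℝ ℝ ℝ) (CC, 1) := by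
    have h1 : HasFDerivAt (fun p : ℝ × ℝ => p.2) (ContinuousLinearMap.snd ℝ ℝ ℝ) (CC, (1 : ℝ)) :=
      hasFDerivAt_snd
    have h2 : HasDerivAt (fun y : ℝ => y⁻¹) (-((1 : ℝ) ^ 2)⁻¹) 1 := hasDerivAt_inv one_ne_zero
    exact HasDerivAt.comp_hasFDerivAt (CC, (1 : ℝ)) (h₂ := fun y : ℝ => y⁻¹)
      (f := fun p : ℝ × ℝ => p.2) h2 h1
  have hu := hu1.mul hu2
  have hu' : HasFDerivAt (fun p : ℝ × ℝ => bE p.1 * (p.2)⁻¹)
      (bd • ContinuousLinearMap.fst ℝ ℝ ℝ - a0 • ContinuousLinearMap.snd ℝ ℝ ℝ) (CC, 1) := by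
    refine HasFDerivAt.congr_fderiv hu ?_
    ext
    · simp
    · simp [F_bE_CC]
  have hval : bE (CC, (1 : ℝ)).1 * ((CC, (1 : ℝ)).2)⁻¹ = a0 := by
    simp [F_bE_CC]
  have hPhi : HasFDerivAt (fun p : ℝ × ℝ => Real.log (KK (kap (bE p.1 * (p.2)⁻¹))))
      (((4 / (1 - k0 ^ 2)) * d) •
        (bd • ContinuousLinearMap.fst ℝ ℝ ℝ - a0 • ContinuousLinearMap.snd ℝ ℝ ℝ)) (CC, 1) := by
    refine HasDerivAt.comp_hasFDerivAt (CC, (1 : ℝ)) (h₂ := fun x => Real.log (KK (kap x)))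
      (f := fun p : ℝ × ℝ => bE p.1 * (p.2)⁻¹) ?_ hu'
    rw [hval]
    exact hg
  refine ⟨(4 / (1 - k0 ^ 2)) * d * bd, by positivity, (4 / (1 - k0 ^ 2)) * d * a0,
    mul_nonneg (mul_pos hc hd).le f09b_a0_nonneg, ?_⟩
  intro ε hε
  have hlit := hPhi.isLittleO.def hε
  have hcu : Filter.Tendsto (fun p : ℝ × ℝ => bE p.1 * (p.2)⁻¹) (𝓝 (CC, 1)) (𝓝 a0) := by
    have := hu'.continuousAt
    unfold ContinuousAt at this
    beta_reduce at this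
    rwa [hval] at this
  have hev1 := hcu.eventually hev
  have hck : ∀ᶠ b in 𝓝 a0, |kap b - k0| < ε := by
    have h1 : Filter.Tendsto kap (𝓝 a0) (𝓝 k0) := by
      have := hk.continuousAt
      unfold ContinuousAt at this
      rwa [hk0] at this
    have h2 := h1.eventually (Metric.ball_mem_nhds k0 hε)
    filter_upwards [h2] with b hb
    rwa [← Real.dist_eq]
  have hev2 := hcu.eventually hck
  have hev3 : ∀ᶠ p : ℝ × ℝ in 𝓝 (CC, 1), 0 < p.2 := by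
    have : Filter.Tendsto (fun p : ℝ × ℝ => p.2) (𝓝 (CC, 1)) (𝓝 1) :=
      (continuous_snd.tendsto (CC, (1 : ℝ)))
    exact this.eventually (lt_mem_nhds zero_lt_one)
  have hall := (hlit.and (hev1.and (hev2.and hev3)))
  obtain ⟨δ, hδ, hD⟩ := Metric.eventually_nhds_iff.mp hall
  refine ⟨δ, hδ, ?_⟩
  intro E r hE hr hr1
  have hdist : dist (E, r) (CC, (1 : ℝ)) < δ := by
    rw [Prod.dist_eq, max_lt_iff, Real.dist_eq, Real.dist_eq]
    refine ⟨hE, ?_⟩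
    rw [abs_sub_lt_iff]
    constructor <;> linarith
  obtain ⟨h1, h2, h3, h4⟩ := hD hdist
  refine ⟨kap (bE E * r⁻¹), h2.1, h2.2.1, h3, ?_, ?_⟩
  · rw [h2.2.2]
    have : r ≠ 0 := h4.ne'
    show r * (bE E * r⁻¹) = bE E
    field_simp
  · have hnorm : ‖((E, r) : ℝ × ℝ) - (CC, 1)‖ ≤ |E - CC| + (1 - r) := by
      rw [Prod.norm_def]
      simp only [Prod.fst_sub, Prod.snd_sub, Real.norm_eq_abs]
      apply max_le
      · linarith
      · rw [abs_of_nonpos (by linarith)]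
        have := abs_nonneg (E - CC)
        linarith
    rw [Real.norm_eq_abs] at h1
    have h5 := (abs_le.mp h1).2
    have h6 : (((4 / (1 - k0 ^ 2)) * d) •
        (bd • ContinuousLinearMap.fst ℝ ℝ ℝ - a0 • ContinuousLinearMap.snd ℝ ℝ ℝ))
          (((E, r) : ℝ × ℝ) - (CC, 1)) =
        (4 / (1 - k0 ^ 2)) * d * bd * (E - CC) + (4 / (1 - k0 ^ 2)) * d * a0 * (1 - r) := by
      simp
      ring
    rw [h6] at h5
    have h7 : Real.log (KK (kap (bE CC * (1 : ℝ)⁻¹))) = Real.log (KK k0) := by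
      rw [inv_one, mul_one, F_bE_CC, hk0]
    simp only [h7] at h5
    have h8 := mul_le_mul_of_nonneg_left hnorm hε.le
    linarith

end Pool.Agent.Lib.H11Q
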