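import Pool.Agent.Lib.H11Q.F10A

set_option autoImplicit false

namespace Pool.Agent.Lib.H11Q

open Complex Set MeasureTheory
open scoped ComplexConjugate Topology

/-! F10B (M): expansion of the distance (PROOF.md 10.2). -/

theorem f10b_mink (g : SU) (x y : Mk) : mink (g.lin x) (g.lin y) = mink x y := by
  obtain ⟨a, b, h⟩ := g
  obtain ⟨x1, x2⟩ := x
  obtain ⟨y1, y2⟩ := y
  simp only [mink, SU.lin]
  simp only [normSq_apply, add_re, mul_re, conj_re, conj_im, add_im, mul_im, ofReal_re, ofReal_im,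
    pow_two, re_ofNat, im_ofNat] at h ⊢
  linear_combination ((x1 * y1 - (x2.re * y2.re - x2.im * -y2.im)) *
    ((a.re * a.re + a.im * a.im - (b.re * b.re + b.im * b.im)) + 1)) * h

theorem f10b_Om (g : SU) (z : Disc) : Om (g.app z) = g.lin (Om z) := by
  have hz := z.2
  have hd : g.den z ≠ 0 := g.den_ne hz.le
  have hdn : 0 < ‖g.den z‖ ^ 2 := pow_pos (norm_pos_iff.mpr hd) 2
  have h1 := g.normSq_app hz.le
  have hn : 0 < 1 - ‖(z : ℂ)‖ ^ 2 := by nlinarith [norm_nonneg (z : ℂ)]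
  have hnC : ((1 - ‖(z : ℂ)‖ ^ 2 : ℝ) : ℂ) ≠ 0 := by exact_mod_cast hn.ne'
  have happ : g.app z = (g.a * z + g.b) / g.den z := rfl
  have e0 : ‖g.app z‖ ^ 2 = ‖g.a * z + g.b‖ ^ 2 / ‖g.den z‖ ^ 2 := by
    rw [happ, norm_div, div_pow]
  have hdd : g.den z * conj (g.den z) = ((‖g.den z‖ ^ 2 : ℝ) : ℂ) := by
    rw [Complex.mul_conj, normSq_eq_norm_sq]
  apply Prod.ext
  · show (1 + ‖g.app z‖ ^ 2) / (1 - ‖g.app z‖ ^ 2) =
      (normSq g.a + normSq g.b) * ((1 + ‖(z : ℂ)‖ ^ 2) / (1 - ‖(z : ℂ)‖ ^ 2)) +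
        2 * (g.a * conj g.b * (2 * z / ((1 - ‖(z : ℂ)‖ ^ 2 : ℝ) : ℂ))).re
    have e1 : (g.a * conj g.b * (2 * z / ((1 - ‖(z : ℂ)‖ ^ 2 : ℝ) : ℂ))).re =
        2 * (g.a * conj g.b * z).re / (1 - ‖(z : ℂ)‖ ^ 2) := by
      rw [show g.a * conj g.b * (2 * z / ((1 - ‖(z : ℂ)‖ ^ 2 : ℝ) : ℂ)) =
        (2 * (g.a * conj g.b * z)) / ((1 - ‖(z : ℂ)‖ ^ 2 : ℝ) : ℂ) by ring, Complex.div_ofReal_re]
      simp
    rw [h1, e1, e0]
    have e2 : ‖g.den z‖ ^ 2 + ‖g.a * z + g.b‖ ^ 2 =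
        (normSq g.a + normSq g.b) * (1 + ‖(z : ℂ)‖ ^ 2) + 4 * (g.a * conj g.b * z).re := by
      unfold SU.den
      rw [← normSq_eq_norm_sq, ← normSq_eq_norm_sq, ← normSq_eq_norm_sq]
      simp only [normSq_apply, add_re, mul_re, conj_re, conj_im, add_im, mul_im]
      ring
    have e3 : (1 + ‖g.a * z + g.b‖ ^ 2 / ‖g.den z‖ ^ 2) / ((1 - ‖(z : ℂ)‖ ^ 2) / ‖g.den z‖ ^ 2) =
        (‖g.den z‖ ^ 2 + ‖g.a * z + g.b‖ ^ 2) / (1 - ‖(z : ℂ)‖ ^ 2) := by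
      field_simp
    rw [e3, e2]
    field_simp
    ring
  · show 2 * g.app z / ((1 - ‖g.app z‖ ^ 2 : ℝ) : ℂ) =
      2 * g.a * g.b * (((1 + ‖(z : ℂ)‖ ^ 2) / (1 - ‖(z : ℂ)‖ ^ 2) : ℝ) : ℂ) +
        g.a ^ 2 * (2 * z / ((1 - ‖(z : ℂ)‖ ^ 2 : ℝ) : ℂ)) +
        g.b ^ 2 * conj (2 * z / ((1 - ‖(z : ℂ)‖ ^ 2 : ℝ) : ℂ))
    rw [h1]
    have e4 : conj (2 * (z : ℂ) / ((1 - ‖(z : ℂ)‖ ^ 2 : ℝ) : ℂ)) =
        2 * conj (z : ℂ) / ((1 - ‖(z : ℂ)‖ ^ 2 : ℝ) : ℂ) := by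
      rw [map_div₀, map_mul, conj_ofReal, map_ofNat]
    rw [e4, happ]
    have e5 : (((1 - ‖(z : ℂ)‖ ^ 2) / ‖g.den z‖ ^ 2 : ℝ) : ℂ) =
        ((1 - ‖(z : ℂ)‖ ^ 2 : ℝ) : ℂ) / (g.den z * conj (g.den z)) := by
      rw [hdd, Complex.ofReal_div]
    have e6 : conj (g.den z) = g.b * conj (z : ℂ) + g.a := by
      unfold SU.den
      simp
    have e7 : (z : ℂ) * conj (z : ℂ) = ((‖(z : ℂ)‖ ^ 2 : ℝ) : ℂ) := by
      rw [Complex.mul_conj, normSq_eq_norm_sq]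
    have hcd : conj (g.den z) ≠ 0 := (map_ne_zero _).mpr hd
    have e8 : (((1 + ‖(z : ℂ)‖ ^ 2) / (1 - ‖(z : ℂ)‖ ^ 2) : ℝ) : ℂ) =
        (1 + (z : ℂ) * conj (z : ℂ)) / ((1 - ‖(z : ℂ)‖ ^ 2 : ℝ) : ℂ) := by
      rw [e7, Complex.ofReal_div]
      push_cast
      rfl
    rw [e5, e8]
    generalize ((1 - ‖(z : ℂ)‖ ^ 2 : ℝ) : ℂ) = n at *
    have e9 : 2 * ((g.a * (z : ℂ) + g.b) / g.den z) / (n / (g.den z * conj (g.den z))) =
        2 * (g.a * (z : ℂ) + g.b) * conj (g.den z) / n := by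
      field_simp
    rw [e9, e6]
    field_simp
    ring

/-- `SU.lin` preserves `mink` and `Om (g z) = g.lin (Om z)` (direct computations). -/
theorem F_lin (g : SU) : (∀ x y : Mk, mink (g.lin x) (g.lin y) = mink x y) ∧
    ∀ z : Disc, Om (g.app z) = g.lin (Om z) :=
  ⟨f10b_mink g, f10b_Om g⟩

theorem f10b_Om_vv {u : ℂ} (hu : ‖u‖ = 1) : Om (vv * u) = (CC, Sc * u) := by
  have h := one_lt_CC
  have hv0 := vv_pos
  have hv := vv_sq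
  have hn : ‖(vv : ℂ) * u‖ = vv := by
    rw [norm_mul, hu, mul_one, Complex.norm_real, Real.norm_eq_abs, abs_of_pos hv0]
  have h1 : 1 - vv ^ 2 = 2 / (CC + 1) := by
    rw [hv]
    have : CC + 1 ≠ 0 := by linarith
    field_simp
    ring
  have h2 : 1 + vv ^ 2 = 2 * CC / (CC + 1) := by
    rw [hv]
    have : CC + 1 ≠ 0 := by linarith
    field_simp
    ring
  have hC1 : CC + 1 ≠ 0 := by linarith
  have h3 : Sc = vv * (CC + 1) := by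
    unfold Sc
    rw [show CC ^ 2 - 1 = (vv * (CC + 1)) ^ 2 by
      rw [mul_pow, hv]
      field_simp
      ring]
    exact Real.sqrt_sq (by positivity)
  unfold Om
  rw [hn, h1, h2]
  apply Prod.ext
  · show 2 * CC / (CC + 1) / (2 / (CC + 1)) = CC
    field_simp
  · show 2 * ((vv : ℂ) * u) / ((2 / (CC + 1) : ℝ) : ℂ) = Sc * u
    rw [h3]
    have hC2 : (CC : ℂ) + 1 ≠ 0 := by exact_mod_cast hC1
    push_cast
    field_simp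

theorem f10b_norm_er (s : ℕ) : ‖er s‖ = 1 := by
  unfold er
  exact Complex.norm_exp_ofReal_mul_I _

theorem f10b_norm_fr (j r : ℕ) : ‖fr j r‖ = 1 := by
  unfold fr
  rw [norm_neg]
  exact Complex.norm_exp_ofReal_mul_I _

/-- translation -/
noncomputable def f10b_T (p : Disc) : SU where
  a := ((1 / Real.sqrt (1 - ‖(p : ℂ)‖ ^ 2) : ℝ) : ℂ)
  b := (p : ℂ) * ((1 / Real.sqrt (1 - ‖(p : ℂ)‖ ^ 2) : ℝ) : ℂ)
  h := by
    have hp : 0 < 1 - ‖(p : ℂ)‖ ^ 2 := by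
      have := p.2
      nlinarith [norm_nonneg (p : ℂ)]
    rw [map_mul, normSq_ofReal, normSq_eq_norm_sq]
    have h1 := Real.mul_self_sqrt hp.le
    have h2 : 0 < Real.sqrt (1 - ‖(p : ℂ)‖ ^ 2) := Real.sqrt_pos.mpr hp
    field_simp
    nlinarith

theorem f10b_T_zero (p : Disc) : (f10b_T p).app 0 = p := by
  have hp : 0 < 1 - ‖(p : ℂ)‖ ^ 2 := by
    have := p.2
    nlinarith [norm_nonneg (p : ℂ)]
  have h2 : 0 < Real.sqrt (1 - ‖(p : ℂ)‖ ^ 2) := Real.sqrt_pos.mpr hp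
  have h3 : ((1 / Real.sqrt (1 - ‖(p : ℂ)‖ ^ 2) : ℝ) : ℂ) ≠ 0 := by
    exact_mod_cast (by positivity : (1 / Real.sqrt (1 - ‖(p : ℂ)‖ ^ 2) : ℝ) ≠ 0)
  unfold SU.app f10b_T
  simp only [mul_zero, zero_add, conj_ofReal]
  rw [mul_div_cancel_right₀ _ h3]

theorem f10b_T_inv (p : Disc) (Y : Disc) : (f10b_T p)⁻¹.app Y = rel p Y := by
  have hp : 0 < 1 - ‖(p : ℂ)‖ ^ 2 := by
    have := p.2
    nlinarith [norm_nonneg (p : ℂ)]
  have h2 : 0 < Real.sqrt (1 - ‖(p : ℂ)‖ ^ 2) := Real.sqrt_pos.mpr hp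
  have h3 : ((1 / Real.sqrt (1 - ‖(p : ℂ)‖ ^ 2) : ℝ) : ℂ) ≠ 0 := by
    exact_mod_cast (by positivity : (1 / Real.sqrt (1 - ‖(p : ℂ)‖ ^ 2) : ℝ) ≠ 0)
  unfold SU.app rel
  rw [SU.inv_a, SU.inv_b]
  simp only [f10b_T, conj_ofReal, map_neg, map_mul]
  generalize ((1 / Real.sqrt (1 - ‖(p : ℂ)‖ ^ 2) : ℝ) : ℂ) = q at *
  rw [show q * (Y : ℂ) + -((p : ℂ) * q) = q * (Y - p) by ring,
    show -(conj (p : ℂ) * q) * (Y : ℂ) + q = q * (1 - conj (p : ℂ) * Y) by ring,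
    mul_div_mul_left _ _ h3]

theorem f10b_B_v0 : SU.act gB v0 = v0 := by
  apply Subtype.ext
  have h1 := f10a_rel_B (v0 : Disc) v0.2
  have h2 : rel vv ((v0 : Disc) : ℂ) = 0 := by
    show ((vv : ℂ) - vv) / _ = 0
    rw [sub_self, zero_div]
  rw [h2, mul_zero] at h1
  have hlt : ‖gB.app (v0 : Disc)‖ < 1 := gB.app_norm_lt v0.2
  have hv0 := vv_pos
  have hv1 := vv_lt_one
  have hvz : (1 : ℂ) - vv * gB.app (v0 : Disc) ≠ 0 := by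
    intro h0
    have h1 : (vv : ℂ) * gB.app (v0 : Disc) = 1 := by linear_combination -h0
    have h2 := congrArg norm h1
    rw [norm_mul, Complex.norm_real, Real.norm_eq_abs, abs_of_pos hv0, norm_one] at h2
    nlinarith [norm_nonneg (gB.app (v0 : Disc))]
  unfold rel at h1
  rw [conj_ofReal, div_eq_zero_iff] at h1
  have h3 := h1.resolve_right hvz
  show gB.app (v0 : Disc) = vv
  exact sub_eq_zero.mp h3

theorem f10b_B_pow_v0 (r : ℕ) : ac (wB ^ r) v0 = v0 := by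
  show SU.act (rho (wB ^ r)) v0 = v0
  rw [f10a_rho_B]
  induction r with
  | zero => simp
  | succ r ih =>
    rw [pow_succ', map_mul]
    show SU.act gB (SU.act (gB ^ r) v0) = v0
    rw [ih, f10b_B_v0]

theorem f10b_A_pow_o0 (s : ℕ) : ac (wA ^ s) o0 = o0 := by
  apply Subtype.ext
  show (rho (wA ^ s)).app 0 = 0
  rw [F_A_app, mul_zero]

theorem f10b_inv_apply (w : W) {x y : Disc} (h : ac w x = y) : (ac w)⁻¹ y = x := by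
  rw [← h]
  exact (ac w).symm_apply_apply x

theorem f10b_err {x y N α β γ : ℝ} (hx0 : 0 ≤ x) (hx : x ≤ 1 / 10) (hy0 : 0 ≤ y) (hy : y ≤ 1 / 10)
    (hN : 0 ≤ N) (hα : |α| ≤ N * y) (hβ : |β| ≤ N * x) (hγ : |γ| ≤ N * (x * y)) :
    |N * ((1 + x ^ 2) / (1 - x ^ 2)) * ((1 + y ^ 2) / (1 - y ^ 2)) +
      4 * ((1 + x ^ 2) / (1 - x ^ 2)) * (1 / (1 - y ^ 2)) * α -
      4 * (1 / (1 - x ^ 2)) * ((1 + y ^ 2) / (1 - y ^ 2)) * β -
      4 * (1 / (1 - x ^ 2)) * (1 / (1 - y ^ 2)) * γ - (N + 4 * α - 4 * β)| ≤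
      20 * N * (x + y) ^ 2 := by
  have hpq : ∀ x : ℝ, 0 ≤ x → x ≤ 1 / 10 → 1 ≤ 1 / (1 - x ^ 2) ∧ 1 / (1 - x ^ 2) ≤ 1 + 3 * x ^ 2 ∧
      1 ≤ (1 + x ^ 2) / (1 - x ^ 2) ∧ (1 + x ^ 2) / (1 - x ^ 2) ≤ 1 + 3 * x ^ 2 := by
    intro x hx0 hx
    have h1 : 0 < 1 - x ^ 2 := by nlinarith
    refine ⟨?_, ?_, ?_, ?_⟩
    · rw [le_div_iff₀ h1]; nlinarith
    · rw [div_le_iff₀ h1]
      have : x ^ 2 ≤ 1 / 100 := by nlinarith
      nlinarith [mul_nonneg (sq_nonneg x) (sub_nonneg.mpr this), sq_nonneg x]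
    · rw [le_div_iff₀ h1]; nlinarith
    · rw [div_le_iff₀ h1]
      have : x ^ 2 ≤ 1 / 100 := by nlinarith
      nlinarith [mul_nonneg (sq_nonneg x) (sub_nonneg.mpr this), sq_nonneg x]
  obtain ⟨q1, q2, p1, p2⟩ := hpq x hx0 hx
  obtain ⟨q1', q2', p1', p2'⟩ := hpq y hy0 hy
  generalize (1 + x ^ 2) / (1 - x ^ 2) = p at *
  generalize (1 : ℝ) / (1 - x ^ 2) = q at *
  generalize (1 + y ^ 2) / (1 - y ^ 2) = p' at *
  generalize (1 : ℝ) / (1 - y ^ 2) = q' at *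
  have hx2 : x ^ 2 ≤ 1 / 100 := by nlinarith
  have hy2 : y ^ 2 ≤ 1 / 100 := by nlinarith
  have key : ∀ u v : ℝ, 1 ≤ u → u ≤ 1 + 3 * x ^ 2 → 1 ≤ v → v ≤ 1 + 3 * y ^ 2 →
      0 ≤ u * v - 1 ∧ u * v - 1 ≤ 4 * (x ^ 2 + y ^ 2) ∧ u * v ≤ 5 / 4 := by
    intro u v hu1 hu2 hv1 hv2
    have h1 : u * v ≤ (1 + 3 * x ^ 2) * (1 + 3 * y ^ 2) := by
      apply mul_le_mul hu2 hv2 (by linarith) (by nlinarith)
    refine ⟨by nlinarith, ?_, ?_⟩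
    · nlinarith [mul_nonneg hx0 hx0, mul_nonneg hy0 hy0]
    · nlinarith [mul_nonneg hx0 hx0, mul_nonneg hy0 hy0]
  obtain ⟨a1, a2, a3⟩ := key p p' p1 p2 p1' p2'
  obtain ⟨b1, b2, b3⟩ := key p q' p1 p2 q1' q2'
  obtain ⟨c1, c2, c3⟩ := key q p' q1 q2 p1' p2'
  obtain ⟨d1, d2, d3⟩ := key q q' q1 q2 q1' q2'
  have e : N * p * p' + 4 * p * q' * α - 4 * q * p' * β - 4 * q * q' * γ - (N + 4 * α - 4 * β) =
      N * (p * p' - 1) + 4 * ((p * q' - 1) * α) - 4 * ((q * p' - 1) * β) - 4 * (q * q' * γ) := by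
    ring
  rw [e]
  have t1 : |N * (p * p' - 1)| ≤ N * (4 * (x ^ 2 + y ^ 2)) := by
    rw [abs_of_nonneg (mul_nonneg hN a1)]
    exact mul_le_mul_of_nonneg_left a2 hN
  have t2 : |(p * q' - 1) * α| ≤ 4 * (x ^ 2 + y ^ 2) * (N * y) := by
    rw [abs_mul, abs_of_nonneg b1]
    exact mul_le_mul b2 hα (abs_nonneg _) (by positivity)
  have t3 : |(q * p' - 1) * β| ≤ 4 * (x ^ 2 + y ^ 2) * (N * x) := by
    rw [abs_mul, abs_of_nonneg c1]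
    exact mul_le_mul c2 hβ (abs_nonneg _) (by positivity)
  have t4 : |q * q' * γ| ≤ 5 / 4 * (N * (x * y)) := by
    rw [abs_mul, abs_of_nonneg (by linarith)]
    exact mul_le_mul d3 hγ (abs_nonneg _) (by positivity)
  have t5 : |N * (p * p' - 1) + 4 * ((p * q' - 1) * α) - 4 * ((q * p' - 1) * β) -
      4 * (q * q' * γ)| ≤ N * (4 * (x ^ 2 + y ^ 2)) + 4 * (4 * (x ^ 2 + y ^ 2) * (N * y)) +
        4 * (4 * (x ^ 2 + y ^ 2) * (N * x)) + 4 * (5 / 4 * (N * (x * y))) := by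
    rw [abs_le] at t1 t2 t3 t4 ⊢
    constructor <;> linarith [t1.1, t1.2, t2.1, t2.2, t3.1, t3.2, t4.1, t4.2]
  refine t5.trans ?_
  have f1 : (x ^ 2 + y ^ 2) * (N * y) ≤ (x ^ 2 + y ^ 2) * (N * (1 / 10)) :=
    mul_le_mul_of_nonneg_left (mul_le_mul_of_nonneg_left hy hN) (by positivity)
  have f2 : (x ^ 2 + y ^ 2) * (N * x) ≤ (x ^ 2 + y ^ 2) * (N * (1 / 10)) :=
    mul_le_mul_of_nonneg_left (mul_le_mul_of_nonneg_left hx hN) (by positivity)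
  have f3 : 0 ≤ N * (x * y) := by positivity
  have f4 : 0 ≤ N * (x ^ 2 + y ^ 2) := by positivity
  have f5 : 20 * N * (x + y) ^ 2 = 20 * (N * (x ^ 2 + y ^ 2)) + 40 * (N * (x * y)) := by ring
  rw [f5]
  linarith

theorem f10b_expand (g : SU) (X y : ℂ) :
    mink (Om X) (g.lin (Om y)) =
      (normSq g.a + normSq g.b) * ((1 + ‖X‖ ^ 2) / (1 - ‖X‖ ^ 2)) * ((1 + ‖y‖ ^ 2) / (1 - ‖y‖ ^ 2)) +
      4 * ((1 + ‖X‖ ^ 2) / (1 - ‖X‖ ^ 2)) * (1 / (1 - ‖y‖ ^ 2)) * (g.a * conj g.b * y).re -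
      4 * (1 / (1 - ‖X‖ ^ 2)) * ((1 + ‖y‖ ^ 2) / (1 - ‖y‖ ^ 2)) * (X * conj (g.a * g.b)).re -
      4 * (1 / (1 - ‖X‖ ^ 2)) * (1 / (1 - ‖y‖ ^ 2)) *
        (X * conj (g.a ^ 2 * y + g.b ^ 2 * conj y)).re := by
  unfold mink SU.lin Om
  simp only
  have e1 : (2 * X / ((1 - ‖X‖ ^ 2 : ℝ) : ℂ)) = ((1 / (1 - ‖X‖ ^ 2) : ℝ) : ℂ) * (2 * X) := by
    push_cast
    ring
  have e2 : (2 * y / ((1 - ‖y‖ ^ 2 : ℝ) : ℂ)) = ((1 / (1 - ‖y‖ ^ 2) : ℝ) : ℂ) * (2 * y) := by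
    push_cast
    ring
  rw [e1, e2]
  generalize (1 + ‖X‖ ^ 2) / (1 - ‖X‖ ^ 2) = p
  generalize (1 : ℝ) / (1 - ‖X‖ ^ 2) = q
  generalize (1 + ‖y‖ ^ 2) / (1 - ‖y‖ ^ 2) = p'
  generalize (1 : ℝ) / (1 - ‖y‖ ^ 2) = q'
  simp only [normSq_apply, add_re, mul_re, conj_re, conj_im, add_im, mul_im, ofReal_re, ofReal_im,
    pow_two, re_ofNat, im_ofNat, map_mul, map_add]
  ring

/-- Let `a = A^j B^r A^(-s)`, `T = (1/√(1-|v_j|²), v_j/√(1-|v_j|²))`, `T 0 = v_j`, `y = rel v_j Y = T⁻¹ Y`, `g = a⁻¹ T`, `g 0 = v_s`,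
`g⁻¹ 0 = T⁻¹ (a 0) = rel v_j (A^j B^r 0) = vv fr` (`F_fr`).  `Om X = (1, 2X) + e1`, `Om y = (1, 2y) + e2` with
`|e1| ≤ 3|X|²`-like, so, `mink` being bilinear and `g` a fixed linear map,
`mink (Om X) (Om (g y)) = mink (1,0) g(1,0) + mink (0,2X) g(1,0) + mink (g⁻¹(1,0)) (0,2y) + O((|X|+|y|)²)`, where
`g(1,0) = Om v_s = (CC, Sc er s)`, `g⁻¹(1,0) = Om (vv fr) = (CC, Sc fr)`. -/
theorem F_geo (j s r : ℕ) : ∃ C ≥ 0, ∀ X Y : Disc, ‖(X : ℂ)‖ ≤ 1 / 10 →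
    ‖rel (vs j) Y‖ ≤ 1 / 10 →
    |mink (Om X) (Om (((ac (wA ^ j * wB ^ r * (wA ^ s)⁻¹))⁻¹ Y : Disc) : ℂ)) -
      (CC - 2 * Sc * (((X : ℂ) * conj (er s)).re + (rel (vs j) Y * conj (fr j r)).re))| ≤
      C * (‖(X : ℂ)‖ + ‖rel (vs j) Y‖) ^ 2 := by
  obtain ⟨w, hw⟩ : ∃ w : W, w = wA ^ j * wB ^ r * (wA ^ s)⁻¹ := ⟨_, rfl⟩
  rw [← hw]
  obtain ⟨T, hT⟩ : ∃ T : SU, T = f10b_T (vs j) := ⟨_, rfl⟩
  obtain ⟨g, hg⟩ : ∃ g : SU, g = (rho w)⁻¹ * T := ⟨_, rfl⟩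
  have hT0 : T.app 0 = vs j := by rw [hT, f10b_T_zero]
  have h0n : ‖(0 : ℂ)‖ ≤ 1 := by simp
  -- `g 0 = v_s`
  have hw1 : ac w (vs s) = vs j := by
    have h1 : w * wA ^ s = wA ^ j * wB ^ r := by
      rw [hw]
      group
    have h2 : ac w (vs s) = ac (w * wA ^ s) v0 := by
      rw [map_mul]
      rfl
    rw [h2, h1, map_mul]
    show ac (wA ^ j) (ac (wB ^ r) v0) = vs j
    rw [f10b_B_pow_v0]
    rfl
  have hinv : ∀ z : Disc, (((ac w)⁻¹ z : Disc) : ℂ) = (rho w)⁻¹.app z := by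
    intro z
    have : (ac w)⁻¹ = SU.act (rho w)⁻¹ := by
      rw [map_inv]
      rfl
    rw [this]
    rfl
  have hg0 : g.app 0 = vs s := by
    rw [hg, SU.app_mul _ _ h0n, hT0, ← hinv, f10b_inv_apply w hw1]
  -- `g⁻¹ 0`
  have hw2 : ac w o0 = ac (wA ^ j * wB ^ r) o0 := by
    rw [hw, map_mul, map_inv]
    show ac (wA ^ j * wB ^ r) ((ac (wA ^ s))⁻¹ o0) = _
    rw [f10b_inv_apply _ (f10b_A_pow_o0 s)]
  have hg1 : g⁻¹.app 0 = vv * fr j r := by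
    have h1 : g⁻¹ = T⁻¹ * rho w := by
      rw [hg, mul_inv_rev, inv_inv]
    have h2 : (rho w).app 0 = ((ac w o0 : Disc) : ℂ) := rfl
    rw [h1, SU.app_mul _ _ h0n, h2, hw2, hT, f10b_T_inv, F_fr]
  -- the three constants
  have hlin0 : ∀ k : SU, Om (k.app 0) = (normSq k.a + normSq k.b, 2 * k.a * k.b) := by
    intro k
    have h1 := f10b_Om k o0
    have h2 : ((o0 : Disc) : ℂ) = 0 := rfl
    rw [h2] at h1
    rw [h1]
    unfold SU.lin Om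
    simp
  have hA := hlin0 g
  have hB := hlin0 g⁻¹
  rw [hg0, F_vs, f10b_Om_vv (f10b_norm_er s)] at hA
  rw [hg1, f10b_Om_vv (f10b_norm_fr j r)] at hB
  have hN : normSq g.a + normSq g.b = CC := (congrArg Prod.fst hA).symm
  have hab : 2 * (g.a * g.b) = Sc * er s := by
    have := congrArg Prod.snd hA
    simp only at this
    rw [this]
    ring
  have hab' : -(2 * (conj g.a * g.b)) = Sc * fr j r := by
    have := congrArg Prod.snd hB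
    simp only [SU.inv_a, SU.inv_b] at this
    rw [this]
    ring
  have hCC := one_lt_CC
  refine ⟨20 * CC, by linarith, ?_⟩
  intro X Y hX hY
  obtain ⟨y, hy⟩ : ∃ y : Disc, (y : ℂ) = rel (vs j) Y := by
    refine ⟨⟨T⁻¹.app Y, T⁻¹.app_norm_lt Y.2⟩, ?_⟩
    show T⁻¹.app Y = rel (vs j) Y
    rw [hT, f10b_T_inv]
  have hYy : (Y : ℂ) = T.app y := by
    rw [hy, hT, ← f10b_T_inv, ← SU.app_mul _ _ Y.2.le, mul_inv_cancel, SU.app_one]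
  rw [← hy] at hY ⊢
  have hgy : (((ac w)⁻¹ Y : Disc) : ℂ) = g.app y := by
    rw [hinv, hYy, ← SU.app_mul _ _ y.2.le, ← hg]
  rw [hgy, f10b_Om, f10b_expand, hN]
  have hCN : ‖g.a‖ ^ 2 + ‖g.b‖ ^ 2 = CC := by
    rw [← hN, normSq_eq_norm_sq, normSq_eq_norm_sq]
  have hmul : ‖g.a‖ * ‖g.b‖ ≤ CC := by
    nlinarith [sq_nonneg (‖g.a‖ - ‖g.b‖), norm_nonneg g.a, norm_nonneg g.b]
  have hα : |(g.a * conj g.b * (y : ℂ)).re| ≤ CC * ‖(y : ℂ)‖ := by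
    refine (Complex.abs_re_le_norm _).trans ?_
    rw [norm_mul, norm_mul, norm_conj]
    exact mul_le_mul_of_nonneg_right hmul (norm_nonneg _)
  have hβ : |((X : ℂ) * conj (g.a * g.b)).re| ≤ CC * ‖(X : ℂ)‖ := by
    refine (Complex.abs_re_le_norm _).trans ?_
    rw [norm_mul, norm_conj, norm_mul, mul_comm]
    exact mul_le_mul_of_nonneg_right hmul (norm_nonneg _)
  have hγ : |((X : ℂ) * conj (g.a ^ 2 * (y : ℂ) + g.b ^ 2 * conj (y : ℂ))).re| ≤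
      CC * (‖(X : ℂ)‖ * ‖(y : ℂ)‖) := by
    refine (Complex.abs_re_le_norm _).trans ?_
    rw [norm_mul, norm_conj]
    have h1 : ‖g.a ^ 2 * (y : ℂ) + g.b ^ 2 * conj (y : ℂ)‖ ≤ CC * ‖(y : ℂ)‖ := by
      refine (norm_add_le _ _).trans ?_
      rw [norm_mul, norm_mul, norm_conj, norm_pow, norm_pow, ← add_mul, hCN]
    calc ‖(X : ℂ)‖ * ‖g.a ^ 2 * (y : ℂ) + g.b ^ 2 * conj (y : ℂ)‖
        ≤ ‖(X : ℂ)‖ * (CC * ‖(y : ℂ)‖) := mul_le_mul_of_nonneg_left h1 (norm_nonneg _)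
      _ = CC * (‖(X : ℂ)‖ * ‖(y : ℂ)‖) := by ring
  have hfin := f10b_err (norm_nonneg (X : ℂ)) hX (norm_nonneg (y : ℂ)) hY (by linarith) hα hβ hγ
  have hm1 : 4 * ((X : ℂ) * conj (g.a * g.b)).re = 2 * Sc * ((X : ℂ) * conj (er s)).re := by
    have h1 : (X : ℂ) * conj (2 * (g.a * g.b)) = (X : ℂ) * conj (Sc * er s) := by rw [hab]
    have k1 : conj (2 * (g.a * g.b)) = 2 * conj (g.a * g.b) := by rw [map_mul, map_ofNat]
    have k2 : conj ((Sc : ℂ) * er s) = (Sc : ℂ) * conj (er s) := by rw [map_mul, conj_ofReal]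
    rw [k1, k2] at h1
    have h2 := congrArg Complex.re h1
    rw [show (X : ℂ) * (2 * conj (g.a * g.b)) = ((2 : ℝ) : ℂ) * ((X : ℂ) * conj (g.a * g.b)) by
      push_cast; ring, show (X : ℂ) * ((Sc : ℂ) * conj (er s)) = (Sc : ℂ) * ((X : ℂ) * conj (er s)) by
      ring, re_ofReal_mul, re_ofReal_mul] at h2
    linarith
  have hm2 : 4 * (g.a * conj g.b * (y : ℂ)).re = -(2 * Sc * ((y : ℂ) * conj (fr j r)).re) := by
    have h1 : (y : ℂ) * conj (-(2 * (conj g.a * g.b))) = (y : ℂ) * conj (Sc * fr j r) := by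
      rw [hab']
    have k1 : conj (-(2 * (conj g.a * g.b))) = -(2 * (g.a * conj g.b)) := by
      rw [map_neg, map_mul, map_mul, conj_conj, map_ofNat]
    have k2 : conj ((Sc : ℂ) * fr j r) = (Sc : ℂ) * conj (fr j r) := by rw [map_mul, conj_ofReal]
    rw [k1, k2] at h1
    have h2 := congrArg Complex.re h1
    rw [show (y : ℂ) * -(2 * (g.a * conj g.b)) = ((-2 : ℝ) : ℂ) * (g.a * conj g.b * (y : ℂ)) by
      push_cast; ring, show (y : ℂ) * ((Sc : ℂ) * conj (fr j r)) =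
        (Sc : ℂ) * ((y : ℂ) * conj (fr j r)) by ring, re_ofReal_mul, re_ofReal_mul] at h2
    linarith
  have hm3 : CC - 2 * Sc * (((X : ℂ) * conj (er s)).re + ((y : ℂ) * conj (fr j r)).re) =
      CC + 4 * (g.a * conj g.b * (y : ℂ)).re - 4 * ((X : ℂ) * conj (g.a * g.b)).re := by
    rw [hm1, hm2]
    ring
  rw [hm3]
  exact hfin

end Pool.Agent.Lib.H11Q
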