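import Pool.Agent.Lib.H11Q.FD
import Pool.Agent.Lib.H11Q.Iface

set_option autoImplicit false

namespace Pool.Agent.Lib.H11Q

open Complex Set MeasureTheory
open scoped ComplexConjugate Topology

/-! F11 (M): the choice of `(s, r)` (PROOF.md 9.2, 10.3). -/

theorem f11_conj (t : ℝ) : conj (exp ((t : ℂ) * I)) = exp (-((t : ℂ) * I)) := by
  rw [← Complex.exp_conj, map_mul, conj_ofReal, conj_I, mul_neg]

/-- `lam 2 + lam 5 + lam 6 = 1`; `lam 2 er 2 + lam 5 er 5 + lam 6 er 6 = 0`: `er 5 + er 6 = 2 cos(π/7) exp(i 11π/7)`,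
`er 2 = exp(i 4π/7) = - exp(i 11π/7)`. -/
theorem F_lam : (∀ s, 0 ≤ lam s) ∧ ∑ s ∈ Finset.range 7, lam s = 1 ∧
    ∑ s ∈ Finset.range 7, (lam s : ℂ) * conj (er s) = 0 := by
  have hc : 0 < Real.cos (Real.pi / 7) :=
    Real.cos_pos_of_mem_Ioo ⟨by linarith [Real.pi_pos], by linarith [Real.pi_pos]⟩
  refine ⟨?_, ?_, ?_⟩
  · intro s
    unfold lam
    split_ifs <;> positivity
  · simp only [Finset.sum_range_succ, Finset.sum_range_zero, lam]
    norm_num
    field_simp
    ring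
  · have e2 : conj (er 2) = -exp (-(((11 * Real.pi / 7 : ℝ) : ℂ) * I)) := by
      unfold er
      rw [f11_conj, show -(((11 * Real.pi / 7 : ℝ) : ℂ) * I) =
        -(((2 * Real.pi * (2 : ℕ) / 7 : ℝ) : ℂ) * I) - Real.pi * I by push_cast; ring,
        Complex.exp_sub, Complex.exp_pi_mul_I, div_neg, div_one, neg_neg]
    have e5 : conj (er 5) = exp (-(((11 * Real.pi / 7 : ℝ) : ℂ) * I)) *
        exp (((Real.pi / 7 : ℝ) : ℂ) * I) := by
      unfold er
      rw [f11_conj, ← Complex.exp_add]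
      congr 1
      push_cast
      ring
    have e6 : conj (er 6) = exp (-(((11 * Real.pi / 7 : ℝ) : ℂ) * I)) *
        exp (-((Real.pi / 7 : ℝ) : ℂ) * I) := by
      unfold er
      rw [f11_conj, ← Complex.exp_add]
      congr 1
      push_cast
      ring
    have e7 : exp (((Real.pi / 7 : ℝ) : ℂ) * I) + exp (-((Real.pi / 7 : ℝ) : ℂ) * I) =
        2 * (Real.cos (Real.pi / 7) : ℂ) := by
      rw [← Complex.two_cos, Complex.ofReal_cos]
    have hl0 : lam 0 = 0 := by simp [lam]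
    have hl1 : lam 1 = 0 := by simp [lam]
    have hl2 : lam 2 = Real.cos (Real.pi / 7) / (1 + Real.cos (Real.pi / 7)) := by simp [lam]
    have hl3 : lam 3 = 0 := by simp [lam]
    have hl4 : lam 4 = 0 := by simp [lam]
    have hl5 : lam 5 = 1 / (2 * (1 + Real.cos (Real.pi / 7))) := by simp [lam]
    have hl6 : lam 6 = 1 / (2 * (1 + Real.cos (Real.pi / 7))) := by simp [lam]
    simp only [Finset.sum_range_succ, Finset.sum_range_zero, hl0, hl1, hl2, hl3, hl4, hl5, hl6, e2,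
      e5, e6]
    have hne : (1 + (Real.cos (Real.pi / 7) : ℂ)) ≠ 0 := by
      have : (1 + Real.cos (Real.pi / 7)) ≠ 0 := by positivity
      exact_mod_cast this
    have e8 : exp (-(((11 * Real.pi / 7 : ℝ) : ℂ) * I)) * exp (((Real.pi / 7 : ℝ) : ℂ) * I) +
        exp (-(((11 * Real.pi / 7 : ℝ) : ℂ) * I)) * exp (-((Real.pi / 7 : ℝ) : ℂ) * I) =
        exp (-(((11 * Real.pi / 7 : ℝ) : ℂ) * I)) * (2 * (Real.cos (Real.pi / 7) : ℂ)) := by
      rw [← e7]
      ring
    clear e2 e5 e6 e7 hl0 hl1 hl2 hl3 hl4 hl5 hl6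
    generalize exp (-(((11 * Real.pi / 7 : ℝ) : ℂ) * I)) = E at *
    generalize exp (((Real.pi / 7 : ℝ) : ℂ) * I) = P at *
    generalize exp (-((Real.pi / 7 : ℝ) : ℂ) * I) = M at *
    generalize Real.cos (Real.pi / 7) = c at *
    push_cast
    field_simp
    linear_combination e8

theorem F_fr_sum (j : ℕ) : ∑ r ∈ Finset.range 3, conj (fr j r) = 0 := by
  have h1 : ∀ r : ℕ, conj (fr j r) = -(exp (-(((2 * Real.pi * j / 7 : ℝ) : ℂ) * I)) *
      exp (-(((2 * Real.pi / 3 : ℝ) : ℂ) * I)) ^ r) := by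
    intro r
    unfold fr
    rw [map_neg, f11_conj, ← Complex.exp_nat_mul, ← Complex.exp_add]
    congr 2
    push_cast
    ring
  have h3 : exp (-(((2 * Real.pi / 3 : ℝ) : ℂ) * I)) ^ 3 = 1 := by
    rw [← Complex.exp_nat_mul]
    have : ((3 : ℕ) : ℂ) * -(((2 * Real.pi / 3 : ℝ) : ℂ) * I) = -(2 * Real.pi * I) := by
      push_cast
      ring
    rw [this, Complex.exp_neg, Complex.exp_two_pi_mul_I, inv_one]
  have hne : exp (-(((2 * Real.pi / 3 : ℝ) : ℂ) * I)) - 1 ≠ 0 := by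
    intro h0
    have h4 : (exp (-(((2 * Real.pi / 3 : ℝ) : ℂ) * I))).re = 1 := by
      rw [sub_eq_zero.mp h0]
      simp
    rw [← f11_conj, conj_re, Complex.exp_ofReal_mul_I_re] at h4
    have h5 : Real.cos (2 * Real.pi / 3) < Real.cos (Real.pi / 2) := by
      apply Real.cos_lt_cos_of_nonneg_of_le_pi (by positivity) <;> linarith [Real.pi_pos]
    rw [Real.cos_pi_div_two] at h5
    linarith
  have h6 : 1 + exp (-(((2 * Real.pi / 3 : ℝ) : ℂ) * I)) +
      exp (-(((2 * Real.pi / 3 : ℝ) : ℂ) * I)) ^ 2 = 0 := by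
    apply (mul_eq_zero.mp _).resolve_left hne
    linear_combination h3
  simp only [Finset.sum_range_succ, Finset.sum_range_zero, h1]
  linear_combination (-exp (-(((2 * Real.pi * j / 7 : ℝ) : ℂ) * I))) * h6

theorem f11_dir (N : ℕ) (hN : 0 < N) (α : ℝ) (y : ℂ) : ∃ r ∈ Finset.range N,
    Real.cos (Real.pi / N) * ‖y‖ ≤
      (y * conj (exp (((α + 2 * Real.pi * r / N : ℝ) : ℂ) * I))).re := by
  have hNR : (0 : ℝ) < N := by exact_mod_cast hN
  have hpi := Real.pi_pos
  set n : ℤ := round (N * (arg y - α) / (2 * Real.pi)) with hn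
  have hNZ : (0 : ℤ) < N := by exact_mod_cast hN
  have hr0 : 0 ≤ n % N := Int.emod_nonneg _ hNZ.ne'
  have hrN : n % N < N := Int.emod_lt_of_pos _ hNZ
  refine ⟨(n % N).toNat, ?_, ?_⟩
  · rw [Finset.mem_range]
    omega
  · have hcast : (((n % N).toNat : ℕ) : ℝ) = n - N * (n / N : ℤ) := by
      have h1 : (((n % N).toNat : ℕ) : ℤ) = n - N * (n / N) := by
        rw [Int.toNat_of_nonneg hr0, Int.emod_def]
      exact_mod_cast congrArg (fun z : ℤ => (z : ℝ)) h1
    rw [f11_conj]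
    have h2 : y * exp (-(((α + 2 * Real.pi * ((n % N).toNat : ℕ) / N : ℝ) : ℂ) * I)) =
        (‖y‖ : ℂ) * exp (((arg y - α - 2 * Real.pi * n / N + (n / N : ℤ) * (2 * Real.pi) : ℝ) : ℂ) * I) := by
      conv_lhs => rw [← Complex.norm_mul_exp_arg_mul_I y]
      rw [mul_assoc, ← Complex.exp_add, hcast]
      congr 2
      have : (N : ℂ) ≠ 0 := by exact_mod_cast hNR.ne'
      push_cast
      field_simp
      ring
    rw [h2, re_ofReal_mul, Complex.exp_ofReal_mul_I_re, Real.cos_add_int_mul_two_pi, mul_comm]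
    apply mul_le_mul_of_nonneg_left _ (norm_nonneg y)
    have h3 : |arg y - α - 2 * Real.pi * n / N| ≤ Real.pi / N := by
      have h4 := abs_sub_round (N * (arg y - α) / (2 * Real.pi))
      rw [← hn] at h4
      have h5 : arg y - α - 2 * Real.pi * n / N =
          (2 * Real.pi / N) * (N * (arg y - α) / (2 * Real.pi) - n) := by
        field_simp
      rw [h5, abs_mul, abs_of_pos (by positivity)]
      calc 2 * Real.pi / N * |N * (arg y - α) / (2 * Real.pi) - n|
          ≤ 2 * Real.pi / N * (1 / 2) := mul_le_mul_of_nonneg_left h4 (by positivity)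
        _ = Real.pi / N := by ring
    rw [← Real.cos_abs (arg y - α - 2 * Real.pi * n / N)]
    apply Real.cos_le_cos_of_nonneg_of_le_pi (abs_nonneg _) _ h3
    rw [div_le_iff₀ hNR]
    have : (1 : ℝ) ≤ N := by exact_mod_cast hN
    nlinarith

/-- Some `er s` has an angle at most `π/7 < π/3` with `X`.  (Or: otherwise `Re (X conj (er s)) < |X|/2` for all `s`; choose
`s` from the argument: `s ≡ round (7 arg X/(2π))`.) -/
theorem F_dir (X : ℂ) : ∃ s ∈ Finset.range 7, 1 / 2 * ‖X‖ ≤ (X * conj (er s)).re := by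
  obtain ⟨s, hs, h⟩ := f11_dir 7 (by norm_num) 0 X
  refine ⟨s, hs, ?_⟩
  rw [zero_add] at h
  have h1 : Real.cos (Real.pi / 3) ≤ Real.cos (Real.pi / (7 : ℕ)) := by
    apply Real.cos_le_cos_of_nonneg_of_le_pi (by positivity)
    · linarith [Real.pi_pos]
    · push_cast
      linarith [Real.pi_pos]
  rw [Real.cos_pi_div_three] at h1
  refine le_trans (mul_le_mul_of_nonneg_right h1 (norm_nonneg X)) ?_
  unfold er
  exact_mod_cast h

/-- Some `fr j r` has an angle at most `π/3` with `y`.  Algebraic proof: the three real numbers `x_r = Re (y conj (fr j r))`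
satisfy `Σ x_r = 0`, `Σ x_r² = (3/2)|y|²`; if all `x_r < |y|/2` then ... or by the argument. -/
theorem F_dir3 (j : ℕ) (y : ℂ) : ∃ r ∈ Finset.range 3, 1 / 2 * ‖y‖ ≤ (y * conj (fr j r)).re := by
  obtain ⟨r, hr, h⟩ := f11_dir 3 (by norm_num) (Real.pi + 2 * Real.pi * j / 7) y
  refine ⟨r, hr, ?_⟩
  have h0 : Real.cos (Real.pi / ((3 : ℕ) : ℝ)) = 1 / 2 := by
    push_cast
    exact Real.cos_pi_div_three
  rw [h0] at h
  have h1 : fr j r = exp (((Real.pi + 2 * Real.pi * j / 7 + 2 * Real.pi * r / (3 : ℕ) : ℝ) : ℂ) * I) := by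
    unfold fr
    have : (((Real.pi + 2 * Real.pi * j / 7 + 2 * Real.pi * r / (3 : ℕ) : ℝ) : ℂ) * I) =
        Real.pi * I + (((2 * Real.pi * j / 7 + 2 * Real.pi * r / 3 : ℝ) : ℂ) * I) := by
      push_cast
      ring
    rw [this, Complex.exp_add, Complex.exp_pi_mul_I]
    ring
  rw [h1]
  exact h

/-- `Sc > 0`, `1 - k0² > 0`. -/
theorem F_Sc : 0 < Sc := by
  unfold Sc
  apply Real.sqrt_pos.mpr
  nlinarith [one_lt_CC]

end Pool.Agent.Lib.H11Q
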