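import Pool.Agent.Lib.H11Q.F11

set_option autoImplicit false

namespace Pool.Agent.Lib.H11Q

open Complex Set MeasureTheory
open scoped ComplexConjugate Topology

/-! F11B (M): the choice of `(s, r)`, conclusion. -/

theorem f11b_G (k : ℝ) (X : ℂ) (t : ℝ) (b : ℕ → ℝ) :
    ∑ s ∈ Finset.range 7, lam s * (k * (X * conj (er s)).re + t * b s) =
      t * ∑ s ∈ Finset.range 7, lam s * b s := by
  have h1 : ∑ s ∈ Finset.range 7, lam s * (k * (X * conj (er s)).re + t * b s) =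
      k * (X * ∑ s ∈ Finset.range 7, (lam s : ℂ) * conj (er s)).re +
        t * ∑ s ∈ Finset.range 7, lam s * b s := by
    rw [Finset.mul_sum, Complex.re_sum, Finset.mul_sum, Finset.mul_sum, ← Finset.sum_add_distrib]
    apply Finset.sum_congr rfl
    intro s _
    rw [show X * ((lam s : ℂ) * conj (er s)) = (lam s : ℂ) * (X * conj (er s)) by ring,
      re_ofReal_mul]
    ring
  rw [h1, F_lam.2.2]
  simp

theorem f11b_H (j : ℕ) (k : ℝ) (y : ℂ) (t : ℝ) (b : ℕ → ℝ) :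
    ∑ r ∈ Finset.range 3, (k * (y * conj (fr j r)).re + t * b r) =
      t * ∑ r ∈ Finset.range 3, b r := by
  have h1 : ∑ r ∈ Finset.range 3, (k * (y * conj (fr j r)).re + t * b r) =
      k * (y * ∑ r ∈ Finset.range 3, conj (fr j r)).re + t * ∑ r ∈ Finset.range 3, b r := by
    rw [Finset.mul_sum, Complex.re_sum, Finset.mul_sum, Finset.mul_sum, ← Finset.sum_add_distrib]
  rw [h1, F_fr_sum]
  simp

theorem f11b_comb {η0 C3 Q t k N : ℝ} (hη0 : 0 < η0) (hC3pos : 0 < C3) (hA : Q ≤ -(η0 * t))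
    (hB : Q ≤ -(k * N) + C3 * t) :
    Q ≤ -(η0 / 2) * t - η0 / (2 * (η0 + C3)) * k * N := by
  have hθ0 : 0 ≤ η0 / (2 * (η0 + C3)) := by positivity
  have hθ1 : η0 / (2 * (η0 + C3)) ≤ 1 := by
    rw [div_le_one (by positivity)]
    linarith
  have hθ2 : η0 / (2 * (η0 + C3)) * (η0 + C3) = η0 / 2 := by
    field_simp
  have h1 := mul_le_mul_of_nonneg_left hA (sub_nonneg.mpr hθ1)
  have h2 := mul_le_mul_of_nonneg_left hB hθ0
  have h3 : (1 - η0 / (2 * (η0 + C3))) * -(η0 * t) +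
      η0 / (2 * (η0 + C3)) * (-(k * N) + C3 * t) =
      -(η0 * t) + (η0 / (2 * (η0 + C3)) * (η0 + C3)) * t -
        η0 / (2 * (η0 + C3)) * k * N := by
    ring
  rw [hθ2] at h3
  linarith

/-- Let `G s = -2 Sc k1 Re (X conj (er s)) + t bx s`, `H r = -2 Sc k1 Re (y conj (fr j r)) + t by' j r`; choose `s`, `r` minimizing.
`G s + H r ≤ Σ lam G + (1/3) Σ H = t (Σ lam bx + (1/3) Σ by') ≤ -η0 t` (`F_lam`, `F_fr_sum`, `Iface.N_claim` times the positive
constant `4/(π(1-k0²))`; `η0` = minimum over `j = 0,3,5`), and `G s + H r ≤ -Sc k1 (|X| + |y|) + C3 t`, `C3 = Σ|bx| + Σ|by'| + 1`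
(`F_dir`, `F_dir3`).  With `ϑ' = η0/(2(η0+C3))`: `G + H ≤ (1-ϑ')(-η0 t) + ϑ'(-Sc k1 (|X|+|y|) + C3 t) =
-(η0/2) t - ϑ' Sc k1 (|X|+|y|)`. -/
theorem F_min (L : LineSys) {k1 : ℝ} (hk1 : 0 < k1) : ∃ η > 0, ∃ ϑ > 0,
    ∀ j ∈ ({0, 3, 5} : Finset ℕ), ∀ t : ℝ, 0 ≤ t → ∀ X y : ℂ,
    ∃ s ∈ Finset.range 7, ∃ r ∈ Finset.range 3,
      -2 * Sc * k1 * ((X * conj (er s)).re + (y * conj (fr j r)).re) +
        t * (bx L s + by' L j r) ≤ -η * t - ϑ * (‖X‖ + ‖y‖) := by
  obtain ⟨-, hlo, hhi⟩ := Iface.E_k0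
  have hc : 0 < 4 / (Real.pi * (1 - k0 ^ 2)) := by
    apply div_pos (by norm_num)
    apply mul_pos Real.pi_pos
    nlinarith
  have hSc := F_Sc
  have hval : ∀ j ∈ ({0, 3, 5} : Finset ℕ),
      ∑ s ∈ Finset.range 7, lam s * bx L s + 1 / 3 * ∑ r ∈ Finset.range 3, by' L j r < 0 := by
    intro j hj
    have h1 := mul_neg_of_pos_of_neg hc (Iface.N_claim L j hj)
    have h2 : ∑ s ∈ Finset.range 7, lam s * bx L s + 1 / 3 * ∑ r ∈ Finset.range 3, by' L j r =
        4 / (Real.pi * (1 - k0 ^ 2)) * (∑ s ∈ Finset.range 7, lam s * bb L (rho (wA ^ s))⁻¹ +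
          1 / 3 * ∑ r ∈ Finset.range 3, bb L (chi * (rho (wA ^ j * wB ^ r))⁻¹)) := by
      unfold bx by'
      rw [mul_add]
      congr 1
      · rw [Finset.mul_sum]
        apply Finset.sum_congr rfl
        intro s _
        ring
      · rw [← Finset.mul_sum]
        ring
    rw [h2]
    exact h1
  obtain ⟨η0, hη0, hη⟩ : ∃ η0 > 0, ∀ j ∈ ({0, 3, 5} : Finset ℕ),
      ∑ s ∈ Finset.range 7, lam s * bx L s + 1 / 3 * ∑ r ∈ Finset.range 3, by' L j r ≤ -η0 := by
    have h0 := hval 0 (by simp)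
    have h3 := hval 3 (by simp)
    have h5 := hval 5 (by simp)
    refine ⟨min (min (-(∑ s ∈ Finset.range 7, lam s * bx L s + 1 / 3 * ∑ r ∈ Finset.range 3, by' L 0 r))
      (-(∑ s ∈ Finset.range 7, lam s * bx L s + 1 / 3 * ∑ r ∈ Finset.range 3, by' L 3 r)))
      (-(∑ s ∈ Finset.range 7, lam s * bx L s + 1 / 3 * ∑ r ∈ Finset.range 3, by' L 5 r)), ?_, ?_⟩
    · exact lt_min (lt_min (by linarith) (by linarith)) (by linarith)
    · intro j hj
      simp only [Finset.mem_insert, Finset.mem_singleton] at hj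
      rcases hj with rfl | rfl | rfl
      · rw [le_neg]
        exact (min_le_left _ _).trans (min_le_left _ _)
      · rw [le_neg]
        exact (min_le_left _ _).trans (min_le_right _ _)
      · rw [le_neg]
        exact min_le_right _ _
  obtain ⟨C3, hC3⟩ : ∃ C3 : ℝ, C3 = ∑ s ∈ Finset.range 7, |bx L s| +
    ∑ j ∈ Finset.range 6, ∑ r ∈ Finset.range 3, |by' L j r| + 1 := ⟨_, rfl⟩
  have hC3pos : 0 < C3 := by
    have h1 : 0 ≤ ∑ s ∈ Finset.range 7, |bx L s| := Finset.sum_nonneg fun _ _ => abs_nonneg _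
    have h2 : 0 ≤ ∑ j ∈ Finset.range 6, ∑ r ∈ Finset.range 3, |by' L j r| :=
      Finset.sum_nonneg fun _ _ => Finset.sum_nonneg fun _ _ => abs_nonneg _
    linarith
  refine ⟨η0 / 2, by linarith, η0 / (2 * (η0 + C3)) * (Sc * k1), by positivity, ?_⟩
  intro j hj t ht X y
  obtain ⟨s, hs, hsmin⟩ := Finset.exists_min_image (Finset.range 7)
    (fun s => -2 * Sc * k1 * (X * conj (er s)).re + t * bx L s) ⟨0, by simp⟩
  obtain ⟨r, hr, hrmin⟩ := Finset.exists_min_image (Finset.range 3)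
    (fun r => -2 * Sc * k1 * (y * conj (fr j r)).re + t * by' L j r) ⟨0, by simp⟩
  refine ⟨s, hs, r, hr, ?_⟩
  have hG1 : -2 * Sc * k1 * (X * conj (er s)).re + t * bx L s ≤
      t * ∑ s ∈ Finset.range 7, lam s * bx L s := by
    rw [← f11b_G (-2 * Sc * k1) X t (bx L)]
    calc -2 * Sc * k1 * (X * conj (er s)).re + t * bx L s
        = ∑ s' ∈ Finset.range 7, lam s' * (-2 * Sc * k1 * (X * conj (er s)).re + t * bx L s) := by
          rw [← Finset.sum_mul, F_lam.2.1, one_mul]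
      _ ≤ _ := Finset.sum_le_sum fun s' hs' =>
          mul_le_mul_of_nonneg_left (hsmin s' hs') (F_lam.1 s')
  have hH1 : -2 * Sc * k1 * (y * conj (fr j r)).re + t * by' L j r ≤
      t * (1 / 3 * ∑ r ∈ Finset.range 3, by' L j r) := by
    have h1 : ∑ r' ∈ Finset.range 3, (-2 * Sc * k1 * (y * conj (fr j r)).re + t * by' L j r) ≤
        ∑ r' ∈ Finset.range 3, (-2 * Sc * k1 * (y * conj (fr j r')).re + t * by' L j r') :=
      Finset.sum_le_sum fun r' hr' => hrmin r' hr'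
    rw [f11b_H j (-2 * Sc * k1) y t (by' L j), Finset.sum_const, Finset.card_range, nsmul_eq_mul] at h1
    push_cast at h1
    linarith
  have hsum1 := mul_le_mul_of_nonneg_left (hη j hj) ht
  obtain ⟨s1, hs1, hd1⟩ := F_dir X
  obtain ⟨r1, hr1, hd2⟩ := F_dir3 j y
  have hj6 : j ∈ Finset.range 6 := by
    simp only [Finset.mem_insert, Finset.mem_singleton] at hj
    rw [Finset.mem_range]
    omega
  have hb1 : bx L s1 ≤ ∑ s ∈ Finset.range 7, |bx L s| :=
    (le_abs_self _).trans (Finset.single_le_sum (f := fun s => |bx L s|) (fun _ _ => abs_nonneg _) hs1)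
  have hb2 : by' L j r1 ≤ ∑ j ∈ Finset.range 6, ∑ r ∈ Finset.range 3, |by' L j r| := by
    refine (le_abs_self _).trans ?_
    refine (Finset.single_le_sum (f := fun r => |by' L j r|) (fun _ _ => abs_nonneg _) hr1).trans ?_
    exact Finset.single_le_sum (f := fun j => ∑ r ∈ Finset.range 3, |by' L j r|)
      (fun _ _ => Finset.sum_nonneg fun _ _ => abs_nonneg _) hj6
  have hG2 := hsmin s1 hs1
  have hH2 := hrmin r1 hr1
  beta_reduce at hG2 hH2
  have hk : 0 < Sc * k1 := mul_pos hSc hk1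
  have hd1' := mul_le_mul_of_nonneg_left hd1 hk.le
  have hd2' := mul_le_mul_of_nonneg_left hd2 hk.le
  have hb1' := mul_le_mul_of_nonneg_left hb1 ht
  have hb2' := mul_le_mul_of_nonneg_left hb2 ht
  have hA : -2 * Sc * k1 * ((X * conj (er s)).re + (y * conj (fr j r)).re) +
      t * (bx L s + by' L j r) ≤ -(η0 * t) := by
    have e1 : -2 * Sc * k1 * ((X * conj (er s)).re + (y * conj (fr j r)).re) +
      t * (bx L s + by' L j r) = (-2 * Sc * k1 * (X * conj (er s)).re + t * bx L s) +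
        (-2 * Sc * k1 * (y * conj (fr j r)).re + t * by' L j r) := by ring
    have e2 : t * (∑ s ∈ Finset.range 7, lam s * bx L s + 1 / 3 * ∑ r ∈ Finset.range 3, by' L j r) =
      t * ∑ s ∈ Finset.range 7, lam s * bx L s + t * (1 / 3 * ∑ r ∈ Finset.range 3, by' L j r) := by
      ring
    have e3 : t * -η0 = -(η0 * t) := by ring
    rw [e2, e3] at hsum1
    rw [e1]
    linarith
  have hB : -2 * Sc * k1 * ((X * conj (er s)).re + (y * conj (fr j r)).re) +
      t * (bx L s + by' L j r) ≤ -(Sc * k1 * (‖X‖ + ‖y‖)) + C3 * t := by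
    have : C3 * t = t * ∑ s ∈ Finset.range 7, |bx L s| +
        t * ∑ j ∈ Finset.range 6, ∑ r ∈ Finset.range 3, |by' L j r| + t := by
      rw [hC3]
      ring
    rw [this]
    have e1 : -2 * Sc * k1 * ((X * conj (er s)).re + (y * conj (fr j r)).re) +
      t * (bx L s + by' L j r) = (-2 * Sc * k1 * (X * conj (er s)).re + t * bx L s) +
        (-2 * Sc * k1 * (y * conj (fr j r)).re + t * by' L j r) := by ring
    have e2 : -2 * Sc * k1 * (X * conj (er s1)).re = -(2 * (Sc * k1 * (X * conj (er s1)).re)) := by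
      ring
    have e3 : -2 * Sc * k1 * (y * conj (fr j r1)).re = -(2 * (Sc * k1 * (y * conj (fr j r1)).re)) := by
      ring
    have e4 : Sc * k1 * (1 / 2 * ‖X‖) = Sc * k1 * ‖X‖ / 2 := by ring
    have e5 : Sc * k1 * (1 / 2 * ‖y‖) = Sc * k1 * ‖y‖ / 2 := by ring
    rw [e2] at hG2
    rw [e3] at hH2
    rw [e4] at hd1'
    rw [e5] at hd2'
    rw [e1, mul_add (Sc * k1)]
    linarith
  exact f11b_comb hη0 hC3pos hA hB

end Pool.Agent.Lib.H11Q
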