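import Pool.Agent.Lib.H11Q.F11B
import Pool.Agent.Lib.H11Q.F10B
import Pool.Agent.Lib.H11Q.F09B
import Pool.Agent.Lib.H11Q.F08
import Pool.Agent.Lib.H11Q.F07
import Pool.Agent.Lib.H11Q.C17
import Pool.Agent.Lib.H11Q.A18

set_option autoImplicit false

namespace Pool.Agent.Lib.H11Q

open Complex Set MeasureTheory
open scoped ComplexConjugate Topology

/-! F12 (L): the near-extremal pairs (PROOF.md 10.3). -/

theorem f12_one_sub (z : Disc) : 0 < 1 - ‖(z : ℂ)‖ ^ 2 ∧ 1 - ‖(z : ℂ)‖ ^ 2 ≤ 1 := by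
  have h := z.2
  have h0 := norm_nonneg (z : ℂ)
  constructor
  · nlinarith
  · nlinarith [sq_nonneg ‖(z : ℂ)‖]

theorem f12_norm_le (z w : Disc) : ‖(z : ℂ) - w‖ ^ 2 ≤ sh z w := by
  obtain ⟨h1, h2⟩ := f12_one_sub z
  obtain ⟨h3, h4⟩ := f12_one_sub w
  unfold sh
  rw [le_div_iff₀ (mul_pos h1 h3)]
  have h5 : (1 - ‖(z : ℂ)‖ ^ 2) * (1 - ‖(w : ℂ)‖ ^ 2) ≤ 1 := by nlinarith
  nlinarith [sq_nonneg ‖(z : ℂ) - w‖]

theorem f12_rel_le (V Y : Disc) : ‖rel V Y‖ ^ 2 ≤ sh Y V := by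
  obtain ⟨h1, h2⟩ := f12_one_sub V
  obtain ⟨h3, h4⟩ := f12_one_sub Y
  have e : ‖1 - conj (V : ℂ) * Y‖ ^ 2 =
      ‖(Y : ℂ) - V‖ ^ 2 + (1 - ‖(Y : ℂ)‖ ^ 2) * (1 - ‖(V : ℂ)‖ ^ 2) := by
    rw [← normSq_eq_norm_sq, ← normSq_eq_norm_sq, ← normSq_eq_norm_sq, ← normSq_eq_norm_sq]
    simp only [normSq_apply, sub_re, sub_im, mul_re, mul_im, conj_re, conj_im, one_re, one_im]
    ring
  have hp := mul_pos h3 h1
  unfold rel sh
  rw [norm_div, div_pow]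
  apply div_le_div_of_nonneg_left (sq_nonneg _) hp
  rw [e]
  nlinarith [sq_nonneg ‖(Y : ℂ) - V‖]

theorem f12_B (r : ℕ) : ac (wB ^ r) v0 = v0 := by
  induction r with
  | zero => simp
  | succ n ih =>
    rw [pow_succ, map_mul, Homeomorph.mul_apply, A.ac_wB_v0, ih]

theorem f12_AB (j r : ℕ) : ac (wA ^ j * wB ^ r) v0 = vs j := by
  rw [map_mul, Homeomorph.mul_apply, f12_B]
  rfl

theorem f12_a (j s r : ℕ) : ac (wA ^ j * wB ^ r * (wA ^ s)⁻¹) (vs s) = vs j := by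
  rw [map_mul, Homeomorph.mul_apply]
  have : ac (wA ^ s)⁻¹ (vs s) = v0 := by
    unfold vs
    rw [← Homeomorph.mul_apply, ← map_mul, inv_mul_cancel, map_one]
    rfl
  rw [this, f12_AB]

theorem f12_ainv (j s r : ℕ) : (ac (wA ^ j * wB ^ r * (wA ^ s)⁻¹))⁻¹ (vs j) = vs s := by
  rw [← f12_a j s r]
  exact (ac (wA ^ j * wB ^ r * (wA ^ s)⁻¹)).symm_apply_apply _

/-- Closeness: for `sh X 0` small `‖X‖` is small; `sh Y (vs j)` small: `‖rel (vs j) Y‖² = sh/(1+sh)`; and `Z = a⁻¹ Y` is near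
`a⁻¹ v_j = v_s` (`a = A^j B^r A^(-s)`, continuity of `ac a⁻¹`). -/
theorem F_close {δ : ℝ} (hδ : 0 < δ) : ∃ δ' > 0, ∀ j ∈ Finset.range 7, ∀ s ∈ Finset.range 7,
    ∀ r ∈ Finset.range 3, ∀ X Y : Disc, sh X 0 < δ' → sh Y (vs j) < δ' →
    ‖(X : ℂ)‖ < δ ∧ ‖rel (vs j) Y‖ < δ ∧
    ‖(((ac (wA ^ j * wB ^ r * (wA ^ s)⁻¹))⁻¹ Y : Disc) : ℂ) - vs s‖ < δ := by
  refine ⟨δ ^ 2, by positivity, fun j _ s _ r _ X Y hX hY => ⟨?_, ?_, ?_⟩⟩
  · have h := f12_norm_le X o0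
    have e0 : ((o0 : Disc) : ℂ) = 0 := rfl
    rw [e0, sub_zero] at h
    exact lt_of_pow_lt_pow_left₀ 2 hδ.le (h.trans_lt hX)
  · exact lt_of_pow_lt_pow_left₀ 2 hδ.le ((f12_rel_le (vs j) Y).trans_lt hY)
  · apply lt_of_pow_lt_pow_left₀ 2 hδ.le
    refine (f12_norm_le _ _).trans_lt ?_
    have h := C_sh_inv (rho (wA ^ j * wB ^ r * (wA ^ s)⁻¹)⁻¹) Y (vs j)
    rw [← h] at hY
    have e1 : (((ac (wA ^ j * wB ^ r * (wA ^ s)⁻¹))⁻¹ Y : Disc) : ℂ) =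
        (rho (wA ^ j * wB ^ r * (wA ^ s)⁻¹)⁻¹).app Y := by
      rw [← map_inv]
      rfl
    have e2 : ((vs s : Disc) : ℂ) = (rho (wA ^ j * wB ^ r * (wA ^ s)⁻¹)⁻¹).app (vs j) := by
      rw [← f12_ainv j s r, ← map_inv]
      rfl
    rw [e1, e2]
    exact hY


theorem f12_tanh {w : ℝ} (hw : 0 < w) : ∃ R0 > 0, ∀ R > R0, 1 - w < Real.tanh (R / 2) ∧
    Real.tanh (R / 2) < 1 ∧ 0 < Real.tanh (R / 2) := by
  refine ⟨2 / w, by positivity, fun R hR => ?_⟩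
  have hR0 : 0 < R := lt_trans (by positivity) hR
  have h1 : R < Real.exp R := by
    have := Real.add_one_le_exp R
    linarith
  have e : Real.tanh (R / 2) = 1 - 2 / (Real.exp R + 1) := by
    rw [Real.tanh_eq_sinh_div_cosh, Real.sinh_eq, Real.cosh_eq]
    have h2 : Real.exp R = Real.exp (R / 2) * Real.exp (R / 2) := by
      rw [← Real.exp_add]
      congr 1
      ring
    have h3 : Real.exp (-(R / 2)) = 1 / Real.exp (R / 2) := by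
      rw [Real.exp_neg, one_div]
    have h4 := Real.exp_pos (R / 2)
    rw [h2, h3]
    field_simp
    ring
  have h5 : 0 < Real.exp R + 1 := by positivity
  refine ⟨?_, ?_, ?_⟩
  · rw [e]
    have : 2 / (Real.exp R + 1) < w := by
      rw [div_lt_iff₀ h5]
      have h6 : 2 < R * w := by
        rw [gt_iff_lt, div_lt_iff₀ hw] at hR
        exact hR
      nlinarith
    linarith
  · rw [e]
    have : 0 < 2 / (Real.exp R + 1) := by positivity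
    linarith
  · rw [e]
    have h6 : 1 < Real.exp R := Real.one_lt_exp_iff.mpr hR0
    have : 2 / (Real.exp R + 1) < 1 := by
      rw [div_lt_one h5]
      linarith
    linarith


theorem f12_CC : 1 < CC := one_lt_CC

/-- The key real inequality. -/
theorem f12_real {k1 k2 η1 ϑ ε Cg S ρ t E C0 x lin B B0 : ℝ} (hk1 : 0 < k1) (hk2 : 0 ≤ k2)
    (hη : 0 < η1) (hϑ : 0 < ϑ) (hε : 0 < ε) (hε1 : ε ≤ 1) (hCg : 0 ≤ Cg) (hS : 0 < S)
    (hρ : 0 ≤ ρ) (ht : 0 < t) (hεϑ : ε * (2 * S + 1) ≤ ϑ / 4) (hCρ : Cg * ρ ≤ 1)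
    (hkρ : k1 * Cg * ρ ≤ ϑ / 4) (hgeo : |E - (C0 - 2 * S * lin)| ≤ Cg * ρ ^ 2)
    (hlin : |lin| ≤ ρ) (hmin : -2 * S * k1 * lin + t * B0 ≤ -η1 * t - ϑ * ρ)
    (hB : B = B0 + η1 / 8) (hx : 0 ≤ x) (hxt : (k2 + 1) * x ≤ η1 / 2 * t) :
    k1 * (E - C0) + k2 * x + ε * (|E - C0| + x) + t * B ≤ -(η1 / 4 * t) := by
  have hg := abs_le.mp hgeo
  have hl := abs_le.mp hlin
  have hρ2 : Cg * ρ ^ 2 ≤ ρ := by nlinarith
  have h1 : |E - C0| ≤ (2 * S + 1) * ρ := by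
    rw [abs_le]
    constructor <;> nlinarith
  have h2 : ε * |E - C0| ≤ ϑ / 4 * ρ := by
    calc ε * |E - C0| ≤ ε * ((2 * S + 1) * ρ) := mul_le_mul_of_nonneg_left h1 hε.le
      _ = ε * (2 * S + 1) * ρ := by ring
      _ ≤ ϑ / 4 * ρ := mul_le_mul_of_nonneg_right hεϑ hρ
  have h3 : k1 * (E - C0) ≤ -2 * S * k1 * lin + ϑ / 4 * ρ := by
    have h4 : E - C0 ≤ -2 * S * lin + Cg * ρ ^ 2 := by linarith
    have h5 : k1 * (E - C0) ≤ k1 * (-2 * S * lin + Cg * ρ ^ 2) :=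
      mul_le_mul_of_nonneg_left h4 hk1.le
    have h6 : k1 * (Cg * ρ ^ 2) ≤ ϑ / 4 * ρ := by
      calc k1 * (Cg * ρ ^ 2) = k1 * Cg * ρ * ρ := by ring
        _ ≤ ϑ / 4 * ρ := mul_le_mul_of_nonneg_right hkρ hρ
    nlinarith
  have h7 : ε * x ≤ x := by nlinarith
  rw [hB]
  nlinarith [mul_nonneg hϑ.le hρ, mul_pos hη ht]

theorem f12_lin {X y : ℂ} {e f : ℂ} (he : ‖e‖ = 1) (hf : ‖f‖ = 1) :
    |(X * conj e).re + (y * conj f).re| ≤ ‖X‖ + ‖y‖ := by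
  have h1 : |(X * conj e).re| ≤ ‖X‖ := by
    refine (Complex.abs_re_le_norm _).trans ?_
    rw [norm_mul, norm_conj, he, mul_one]
  have h2 : |(y * conj f).re| ≤ ‖y‖ := by
    refine (Complex.abs_re_le_norm _).trans ?_
    rw [norm_mul, norm_conj, hf, mul_one]
  exact (abs_add_le _ _).trans (add_le_add h1 h2)

theorem f12_er (s : ℕ) : ‖er s‖ = 1 := by
  unfold er
  exact Complex.norm_exp_ofReal_mul_I _

theorem f12_fr (j r : ℕ) : ‖fr j r‖ = 1 := by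
  unfold fr
  rw [norm_neg]
  exact Complex.norm_exp_ofReal_mul_I _

theorem f12_kkpos {κ : ℝ} (h0 : 1 / 20 ≤ κ) (h1 : κ ≤ 1 / 10) : 0 < KK κ := by
  unfold KK
  have : 0 < (1 + κ) / (1 - κ) := div_pos (by linarith) (by linarith)
  positivity

theorem f12_kk0 : 136 / 100 < KK k0 := by
  obtain ⟨-, h1, h2⟩ := Iface.E_k0
  unfold KK
  have h3 : 0 < 1 - k0 := by linarith
  have h4 : (1 + 7697 / 100000) / (1 - 7697 / 100000) ≤ (1 + k0) / (1 - k0) := by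
    rw [div_le_div_iff₀ (by norm_num) h3]
    nlinarith
  have h5 : (136 : ℝ) / 100 < ((1 + 7697 / 100000) / (1 - 7697 / 100000)) ^ 2 := by norm_num
  refine h5.trans_le ?_
  exact pow_le_pow_left₀ (by norm_num) h4 2

theorem f12_hout {a b K : ℝ} (ha : 0 ≤ a) (ha' : a ≤ 1 / 50) (hb : 0 ≤ b) (hb' : b ≤ 1 / 50)
    (hK : 12 / 10 ≤ K) : ((1 + a) / (1 - a)) * ((1 + b) / (1 - b)) ≤ K := by
  have h1 : (1 + a) / (1 - a) ≤ 51 / 49 := by
    rw [div_le_div_iff₀ (by linarith) (by norm_num)]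
    linarith
  have h2 : (1 + b) / (1 - b) ≤ 51 / 49 := by
    rw [div_le_div_iff₀ (by linarith) (by norm_num)]
    linarith
  have h3 : 0 ≤ (1 + b) / (1 - b) := div_nonneg (by linarith) (by linarith)
  calc ((1 + a) / (1 - a)) * ((1 + b) / (1 - b)) ≤ 51 / 49 * (51 / 49) :=
        mul_le_mul h1 h2 h3 (by norm_num)
    _ ≤ 12 / 10 := by norm_num
    _ ≤ K := hK

theorem f12_log {κ Δ T K0 η : ℝ} (hκ : 0 < KK κ) (hK0 : 0 < K0)
    (h1 : Real.log (KK κ) ≤ Real.log K0 + Δ) (h2 : Δ + T ≤ -η) :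
    KK κ * Real.exp T ≤ K0 * Real.exp (-η) := by
  have e1 : KK κ = Real.exp (Real.log (KK κ)) := (Real.exp_log hκ).symm
  have e2 : K0 = Real.exp (Real.log K0) := (Real.exp_log hK0).symm
  rw [e1, e2, ← Real.exp_add, ← Real.exp_add]
  apply Real.exp_le_exp.mpr
  linarith


/-- The map for one pair. -/
theorem f12_pair (L : LineSys) {C t R : ℝ} (hR : 0 < R) {h : Disc ≃ₜ Disc} {mh : Disc → ℂ}
    {G : Subgroup W} (hT : Tw L C t h mh) (hG : Cov R G) (a : W) {X Z : Disc} (hXZ : X ≠ Z)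
    {κ : ℝ} (h0 : 0 ≤ κ) (h1 : κ ≤ 1 / 10) (hr1 : Real.tanh (R / 2) < 1)
    (hr0 : 0 < Real.tanh (R / 2))
    (hb : Real.tanh (R / 2) * aa κ = bE (mink (Om X) (Om Z))) {P : ℂ → ℂ}
    (hP : ContDiff ℝ 2 P) (hodd : ∀ ξ, P (-ξ) = -P ξ) (hF : FldOK P t) {K1 : ℝ}
    (hout : ∀ z : Disc, ((1 + ‖mh (ac a z)‖) / (1 - ‖mh (ac a z)‖)) *
      ((1 + ‖mh z‖) / (1 - ‖mh z‖)) ≤ K1)
    (hQ : ∀ (ξ : ℂ) (m1 m2 : ℂ), ξ ≠ 0 → ‖ξ‖ < 1 →
      ‖m1 - t * mu L (gi X Z (Real.tanh (R / 2) * beta κ ξ))‖ ≤ C * t ^ 2 →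
      ‖m2 - t * mu L ((rho a).app (gi X Z (Real.tanh (R / 2) * beta' κ (flm P t ξ))))‖ ≤
        C * t ^ 2 →
      QCL K1 (RRm κ (pul m1 (cc1 X Z (Real.tanh (R / 2)) κ ξ)) (t • fderiv ℝ (fld P) ξ)
        (pul m2 (cc2 (rho a) X Z (Real.tanh (R / 2)) κ (flm P t ξ))))) :
    ∃ F : Disc ≃ₜ Disc, LQ K1 F ∧ Nrm h G F ∧ F (h X) = h (ac a Z) := by
  obtain ⟨g, hgX, hgZ, hg⟩ := C_two hXZ
  refine C_main hT.cj hT.diff hG.nor hG.le hR hG.disp a h0 h1 hP hodd hF g (X := X) (Z := Z)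
    ?_ ?_ hout ?_
  · rw [hb]
    exact hgX
  · rw [hb]
    exact hgZ
  · intro ξ z z2 hξ0 hξ hz hz2
    have hb1 : ‖beta κ ξ‖ < 1 := (Iface.E_beta_lt h0 h1 hξ).1
    have hfl : ‖flm P t ξ‖ < 1 := hF.lt ξ hξ
    have hb2 : ‖beta' κ (flm P t ξ)‖ < 1 := (Iface.E_beta_lt h0 h1 hfl).2
    have hw1 : ‖(Real.tanh (R / 2) : ℂ) * beta κ ξ‖ ≤ 1 := by
      rw [norm_mul, Complex.norm_real, Real.norm_eq_abs, abs_of_pos hr0]
      nlinarith [norm_nonneg (beta κ ξ)]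
    have hw2 : ‖(Real.tanh (R / 2) : ℂ) * beta' κ (flm P t ξ)‖ ≤ 1 := by
      rw [norm_mul, Complex.norm_real, Real.norm_eq_abs, abs_of_pos hr0]
      nlinarith [norm_nonneg (beta' κ (flm P t ξ))]
    obtain ⟨-, e1, e1'⟩ := hg _ hw1
    obtain ⟨-, e2, e2'⟩ := hg _ hw2
    have hz' : (z : ℂ) = gi X Z (Real.tanh (R / 2) * beta κ ξ) := by
      rw [← e1, ← hz, ← SU.app_mul _ _ z.2.le, inv_mul_cancel, SU.app_one]
    have hz2' : (z2 : ℂ) = gi X Z (Real.tanh (R / 2) * beta' κ (flm P t ξ)) := by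
      rw [← e2, ← hz2, ← SU.app_mul _ _ z2.2.le, inv_mul_cancel, SU.app_one]
    rw [F_c1_eq hXZ g _ _ _ e1', F_c2_eq hXZ g (rho a) _ _ _ hw2 e2 e2']
    apply hQ ξ _ _ hξ0 hξ
    · rw [← hz']
      exact hT.est z
    · rw [← hz2']
      exact hT.est (ac a z2)

/-- Constants: see PROOF.md 10.3. -/
theorem F_near (L : LineSys) (C : ℝ) : ∃ η > 0, ∃ δ > 0, ∃ t0 > 0, ∀ t : ℝ, 0 < t → t < t0 →
    ∃ R0 > 0, ∀ R > R0, ∀ (h : Disc ≃ₜ Disc) (mh : Disc → ℂ) (G : Subgroup W),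
    Tw L C t h mh → Cov R G → ∀ j ∈ ({0, 3, 5} : Finset ℕ), ∀ X Y : Disc, sh X 0 < δ →
    sh Y (vs j) < δ →
    ∃ F : Disc ≃ₜ Disc, LQ (KK k0 * Real.exp (-(η * t))) F ∧ Nrm h G F ∧ F (h X) = h Y := by
  obtain ⟨k1, hk1, k2, hk2, hkap⟩ := F_kappa
  obtain ⟨η1, hη1, ϑ, hϑ, hmin⟩ := F_min L hk1
  choose Cf hCf0 hCf using fun j s r => F_geo j s r
  have hB : ∀ j s r : ℕ, ∫ ξ in Metric.ball (0 : ℂ) 1,
      nn L (rho (wA ^ j * wB ^ r * (wA ^ s)⁻¹)) 0 (vs s) 1 k0 ξ ξ <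
        Real.pi * (bx L s + by' L j r + η1 / 8) := by
    intro j s r
    rw [F_mean]
    apply mul_lt_mul_of_pos_left _ Real.pi_pos
    linarith
  choose Pf hPd hPo δf hδf hQ using fun j s r => F_QCL L C (wA ^ j * wB ^ r * (wA ^ s)⁻¹)
    (s := s) ⟨wA ^ j * wB ^ r, by
      have e := f12_a j s r
      have e' := f12_AB j r
      rw [e', ← e]
      rfl⟩ (hB j s r)
  -- common constants
  obtain ⟨Cg, hCg0, hCg⟩ : ∃ Cg : ℝ, 0 ≤ Cg ∧ ∀ j ∈ Finset.range 7, ∀ s ∈ Finset.range 7,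
      ∀ r ∈ Finset.range 3, Cf j s r ≤ Cg := by
    refine ⟨∑ j ∈ Finset.range 7, ∑ s ∈ Finset.range 7, ∑ r ∈ Finset.range 3, Cf j s r,
      Finset.sum_nonneg fun j _ => Finset.sum_nonneg fun s _ => Finset.sum_nonneg
        fun r _ => hCf0 j s r, fun j hj s hs r hr => ?_⟩
    have a1 := Finset.single_le_sum (f := fun j => ∑ s ∈ Finset.range 7, ∑ r ∈ Finset.range 3,
      Cf j s r) (fun j _ => Finset.sum_nonneg fun s _ => Finset.sum_nonneg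
        fun r _ => hCf0 j s r) hj
    have a2 := Finset.single_le_sum (f := fun s => ∑ r ∈ Finset.range 3,
      Cf j s r) (fun s _ => Finset.sum_nonneg fun r _ => hCf0 j s r) hs
    have a3 := Finset.single_le_sum (f := fun r => Cf j s r) (fun r _ => hCf0 j s r) hr
    exact a3.trans (a2.trans a1)
  obtain ⟨δ1, hδ1, hδ1'⟩ : ∃ δ1 > 0, ∀ j ∈ Finset.range 7, ∀ s ∈ Finset.range 7,
      ∀ r ∈ Finset.range 3, δ1 ≤ δf j s r := by
    have hne : (Finset.range 7 ×ˢ (Finset.range 7 ×ˢ Finset.range 3)).Nonempty :=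
      ⟨(0, 0, 0), by simp⟩
    refine ⟨(Finset.range 7 ×ˢ (Finset.range 7 ×ˢ Finset.range 3)).inf' hne
      fun i => δf i.1 i.2.1 i.2.2, ?_, fun j hj s hs r hr => ?_⟩
    · rw [gt_iff_lt, Finset.lt_inf'_iff]
      intro i _
      exact hδf _ _ _
    · exact Finset.inf'_le (f := fun i : ℕ × ℕ × ℕ => δf i.1 i.2.1 i.2.2)
        (b := (j, s, r)) (by simp only [Finset.mem_product]; exact ⟨hj, hs, hr⟩)
  have hS : 0 < Sc := F_Sc
  obtain ⟨ε, hε, hε1, hεδ, hεϑ⟩ : ∃ ε : ℝ, 0 < ε ∧ ε ≤ 1 ∧ ε ≤ δ1 ∧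
      ε * (2 * Sc + 1) ≤ ϑ / 4 := by
    have hq : 0 < ϑ / 4 / (2 * Sc + 1) := by positivity
    refine ⟨min (min 1 δ1) (ϑ / 4 / (2 * Sc + 1)), lt_min (lt_min one_pos hδ1) hq,
      (min_le_left _ _).trans (min_le_left _ _), (min_le_left _ _).trans (min_le_right _ _), ?_⟩
    have h1 : min (min 1 δ1) (ϑ / 4 / (2 * Sc + 1)) ≤ ϑ / 4 / (2 * Sc + 1) := min_le_right _ _
    calc _ ≤ ϑ / 4 / (2 * Sc + 1) * (2 * Sc + 1) :=
          mul_le_mul_of_nonneg_right h1 (by positivity)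
      _ = ϑ / 4 := by field_simp
  obtain ⟨δ2, hδ2, hk⟩ := hkap ε hε
  -- the radius
  obtain ⟨δ3, hδ3, h3a, h3b, h3c, h3d, h3e, h3f⟩ : ∃ δ3 : ℝ, 0 < δ3 ∧ δ3 ≤ 1 / 10 ∧ δ3 ≤ δ1 ∧
      Cg * (2 * δ3) ≤ 1 ∧ (2 * Sc + 1) * (2 * δ3) < δ2 ∧ k1 * Cg * (2 * δ3) ≤ ϑ / 4 ∧
      (2 * Sc + 1) * (2 * δ3) < CC - 1 := by
    have hCC := one_lt_CC
    have q1 : 0 < 1 / (2 * (Cg + 1)) := by positivity
    have q2 : 0 < δ2 / (4 * (2 * Sc + 1)) := by positivity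
    have q3 : 0 < ϑ / 4 / (2 * (k1 * Cg + 1)) := by positivity
    have q4 : 0 < (CC - 1) / (4 * (2 * Sc + 1)) := by
      apply div_pos <;> [linarith; positivity]
    set m := min (min (1 / 10) δ1) (min (min (1 / (2 * (Cg + 1))) (δ2 / (4 * (2 * Sc + 1))))
      (min (ϑ / 4 / (2 * (k1 * Cg + 1))) ((CC - 1) / (4 * (2 * Sc + 1))))) with hm
    have m0 : 0 < m := lt_min (lt_min (by norm_num) hδ1)
      (lt_min (lt_min q1 q2) (lt_min q3 q4))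
    have m1 : m ≤ 1 / 10 := (min_le_left _ _).trans (min_le_left _ _)
    have m2 : m ≤ δ1 := (min_le_left _ _).trans (min_le_right _ _)
    have m3 : m ≤ 1 / (2 * (Cg + 1)) :=
      (min_le_right _ _).trans ((min_le_left _ _).trans (min_le_left _ _))
    have m4 : m ≤ δ2 / (4 * (2 * Sc + 1)) :=
      (min_le_right _ _).trans ((min_le_left _ _).trans (min_le_right _ _))
    have m5 : m ≤ ϑ / 4 / (2 * (k1 * Cg + 1)) :=
      (min_le_right _ _).trans ((min_le_right _ _).trans (min_le_left _ _))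
    have m6 : m ≤ (CC - 1) / (4 * (2 * Sc + 1)) :=
      (min_le_right _ _).trans ((min_le_right _ _).trans (min_le_right _ _))
    refine ⟨m, m0, m1, m2, ?_, ?_, ?_, ?_⟩
    · rw [le_div_iff₀ (by positivity)] at m3
      nlinarith
    · rw [le_div_iff₀ (by positivity)] at m4
      nlinarith
    · rw [le_div_iff₀ (by positivity)] at m5
      have : 0 ≤ k1 * Cg := by positivity
      nlinarith
    · rw [le_div_iff₀ (by positivity)] at m6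
      nlinarith
  obtain ⟨δ', hδ', hclose⟩ := F_close hδ3
  have hKK0 := f12_kk0
  have hKK0' : 0 < KK k0 := by linarith
  refine ⟨η1 / 4, by positivity, δ', hδ',
    min (min δ1 (1 / (50 * (|C| + 1)))) (1 / (10 * η1)),
    lt_min (lt_min hδ1 (by positivity)) (by positivity), fun t ht ht0 => ?_⟩
  have ht1 : t < δ1 := ht0.trans_le ((min_le_left _ _).trans (min_le_left _ _))
  have ht2 : t < 1 / (50 * (|C| + 1)) := ht0.trans_le ((min_le_left _ _).trans (min_le_right _ _))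
  have ht3 : t < 1 / (10 * η1) := ht0.trans_le (min_le_right _ _)
  have hCt : C * t ≤ 1 / 50 := by
    rw [lt_div_iff₀ (by positivity)] at ht2
    have := le_abs_self C
    nlinarith [abs_nonneg C]
  have hηt : η1 * t ≤ 1 / 10 := by
    rw [lt_div_iff₀ (by positivity)] at ht3
    nlinarith
  -- the radius of the ball
  obtain ⟨w, hw, hw1, hw2, hw3⟩ : ∃ w : ℝ, 0 < w ∧ w ≤ δ1 ∧ w ≤ δ2 ∧
      (k2 + 1) * w ≤ η1 / 2 * t := by
    have hq : 0 < η1 / 2 * t / (k2 + 1) := by positivity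
    refine ⟨min (min δ1 δ2) (η1 / 2 * t / (k2 + 1)), lt_min (lt_min hδ1 hδ2) hq,
      (min_le_left _ _).trans (min_le_left _ _), (min_le_left _ _).trans (min_le_right _ _), ?_⟩
    calc (k2 + 1) * min (min δ1 δ2) (η1 / 2 * t / (k2 + 1))
        ≤ (k2 + 1) * (η1 / 2 * t / (k2 + 1)) :=
          mul_le_mul_of_nonneg_left (min_le_right _ _) (by linarith)
      _ = η1 / 2 * t := by field_simp
  obtain ⟨R0, hR0, hR0'⟩ := f12_tanh hw
  refine ⟨R0, hR0, fun R hR h mh G hT hG j hj X Y hX hY => ?_⟩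
  obtain ⟨hr1, hr2, hr3⟩ := hR0' R hR
  have hRpos : 0 < R := hR0.trans hR
  have hj7 : j ∈ Finset.range 7 := by
    simp only [Finset.mem_insert, Finset.mem_singleton] at hj
    rcases hj with rfl | rfl | rfl <;> simp
  obtain ⟨s, hs, r, hr, hm⟩ := hmin j hj t ht.le X (rel (vs j) Y)
  obtain ⟨c1', c2', c3'⟩ := hclose j hj7 s hs r hr X Y hX hY
  set ρ : ℝ := ‖(X : ℂ)‖ + ‖rel (vs j) Y‖ with hρ
  have hρ0 : 0 ≤ ρ := by positivity
  have hρ1 : ρ ≤ 2 * δ3 := by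
    rw [hρ]
    linarith
  set Z : Disc := (ac (wA ^ j * wB ^ r * (wA ^ s)⁻¹))⁻¹ Y with hZ
  set E : ℝ := mink (Om X) (Om Z) with hE
  set lin : ℝ := ((X : ℂ) * conj (er s)).re + (rel (vs j) Y * conj (fr j r)).re with hlin
  have hgeo : |E - (CC - 2 * Sc * lin)| ≤ Cg * ρ ^ 2 := by
    refine (hCf j s r X Y (by linarith) (by linarith)).trans ?_
    exact mul_le_mul_of_nonneg_right (hCg j hj7 s hs r hr) (sq_nonneg _)
  have hlin' : |lin| ≤ ρ := f12_lin (f12_er s) (f12_fr j r)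
  have hCρ : Cg * ρ ≤ 1 := (mul_le_mul_of_nonneg_left hρ1 hCg0).trans h3c
  have hEd : |E - CC| ≤ (2 * Sc + 1) * ρ := by
    have hg := abs_le.mp hgeo
    have hl := abs_le.mp hlin'
    have hρ2 : Cg * ρ ^ 2 ≤ ρ := by nlinarith
    rw [abs_le]
    constructor <;> nlinarith
  have hEd2 : |E - CC| ≤ (2 * Sc + 1) * (2 * δ3) :=
    hEd.trans (mul_le_mul_of_nonneg_left hρ1 (by positivity))
  have hXZ : X ≠ Z := by
    intro he
    have h1 : E = 1 := by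
      have := C_mink_sh X Z
      rw [hE, this, ← he]
      unfold sh
      simp
    rw [h1] at hEd2
    have := (abs_le.mp hEd2).1
    linarith
  obtain ⟨κ, hκ1, hκ2, hκ3, hκ4, hκ5⟩ := hk E (Real.tanh (R / 2)) (hEd2.trans_lt h3d)
    (by linarith) hr2.le
  have q1 : k1 * Cg * ρ ≤ ϑ / 4 :=
    (mul_le_mul_of_nonneg_left hρ1 (by positivity)).trans h3e
  have q2 : (k2 + 1) * (1 - Real.tanh (R / 2)) ≤ η1 / 2 * t := by
    refine (mul_le_mul_of_nonneg_left ?_ (by linarith)).trans hw3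
    linarith
  have hmono : KK κ * Real.exp (t * (bx L s + by' L j r + η1 / 8)) ≤
      KK k0 * Real.exp (-(η1 / 4 * t)) := by
    apply f12_log (Δ := k1 * (E - CC) + k2 * (1 - Real.tanh (R / 2)) +
      ε * (|E - CC| + (1 - Real.tanh (R / 2)))) (f12_kkpos hκ1 hκ2) hKK0'
    · linarith
    · exact f12_real hk1 hk2 hη1 hϑ hε hε1 hCg0 hS hρ0 ht hεϑ hCρ q1 hgeo hlin' hm rfl
        (by linarith) q2
  obtain ⟨hFl, hQ'⟩ := hQ j s r t ht (ht1.trans_le (hδ1' j hj7 s hs r hr))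
  have hδs := hδ1' j hj7 s hs r hr
  obtain ⟨F, hF1, hF2, hF3⟩ := f12_pair L hRpos hT hG (wA ^ j * wB ^ r * (wA ^ s)⁻¹) hXZ
    (κ := κ) (by linarith) hκ2 hr2 hr3 hκ4 (hPd j s r) (hPo j s r) hFl
    (K1 := KK k0 * Real.exp (-(η1 / 4 * t))) (by
      intro z
      apply f12_hout (norm_nonneg _) ((hT.bd _).trans hCt) (norm_nonneg _)
        ((hT.bd _).trans hCt)
      have h1 : 1 - η1 / 4 * t ≤ Real.exp (-(η1 / 4 * t)) := by
        have := Real.add_one_le_exp (-(η1 / 4 * t))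
        linarith
      have h2 : 39 / 40 ≤ Real.exp (-(η1 / 4 * t)) := by linarith
      nlinarith)
    (by
      intro ξ m1 m2 hξ0 hξ e1 e2
      exact C_QCL_mono hmono (hQ' X Z (Real.tanh (R / 2)) κ (by linarith) (by linarith)
        (by linarith) hr2 (by linarith) ξ m1 m2 hξ0 hξ e1 e2))
  refine ⟨F, hF1, hF2, ?_⟩
  rw [hF3]
  congr 1
  exact (ac (wA ^ j * wB ^ r * (wA ^ s)⁻¹)).apply_symm_apply Y

end Pool.Agent.Lib.H11Q
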