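import Pool.Agent.Lib.H11Q.F09A
import Pool.Agent.Lib.H11Q.C17
import Pool.Agent.Lib.H11Q.C10B
import Pool.Agent.Lib.H11Q.F02

set_option autoImplicit false

namespace Pool.Agent.Lib.H11Q

open Complex Set MeasureTheory
open scoped ComplexConjugate Topology

/-! F13 (M/L): pairs which are not near-extremal (PROOF.md 10.4 (i)). -/

theorem f13_ratio_mono {x q : ℝ} (_h0 : 0 ≤ x) (h : x ≤ q) (hq : q < 1) :
    (1 + x) / (1 - x) ≤ (1 + q) / (1 - q) := by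
  rw [div_le_div_iff₀ (by linarith) (by linarith)]
  nlinarith

/-- `RRm κ m1 0 m2 = (1,m2) (1,-κ) (1,κ)⁻¹ (1,m1)⁻¹`; `(1,-κ)(1,κ)⁻¹ = ab ((1+κ²)/(1-κ²)) (-2κ/(1-κ²))` has the dilatation `KK κ`
(`C_QCL_ab`); `C_QCL_one_m`, `C_QCL_comp`. -/
theorem F_RR0 {κ : ℝ} (h0 : 0 ≤ κ) (h1 : κ ≤ 1 / 10) {m1 m2 : ℂ} {q : ℝ} (hq : q < 1)
    (hm1 : ‖m1‖ ≤ q) (hm2 : ‖m2‖ ≤ q) :
    QCL (((1 + q) / (1 - q)) ^ 2 * KK κ) (RRm κ m1 0 m2) := by
  have hq0 : 0 ≤ q := (norm_nonneg m1).trans hm1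
  have hQ : 0 ≤ (1 + q) / (1 - q) := div_nonneg (by linarith) (by linarith)
  have hkn : ‖(κ : ℂ)‖ = κ := by rw [Complex.norm_real, Real.norm_eq_abs, abs_of_nonneg h0]
  have hp : 0 < 1 - κ ^ 2 := by nlinarith
  have hm : QCL (KK κ) ((ab 1 (-(κ : ℂ))).comp (iab κ)) := by
    unfold iab
    rw [hkn, C_ab_comp, C_QCL_ab]
    have e1 : (1 : ℂ) * ((1 / (1 - κ ^ 2) : ℝ) : ℂ) + -(κ : ℂ) * conj (-((κ : ℂ) * ((1 / (1 - κ ^ 2) : ℝ) : ℂ))) =
        (((1 + κ ^ 2) / (1 - κ ^ 2) : ℝ) : ℂ) := by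
      rw [map_neg, map_mul, Complex.conj_ofReal, Complex.conj_ofReal]
      push_cast
      ring
    have e2 : (1 : ℂ) * -((κ : ℂ) * ((1 / (1 - κ ^ 2) : ℝ) : ℂ)) + -(κ : ℂ) * conj (((1 / (1 - κ ^ 2) : ℝ) : ℂ)) =
        ((-(2 * κ / (1 - κ ^ 2)) : ℝ) : ℂ) := by
      rw [Complex.conj_ofReal]
      push_cast
      ring
    rw [e1, e2, Complex.norm_real, Complex.norm_real, norm_neg, Real.norm_eq_abs, Real.norm_eq_abs,
      abs_of_nonneg (by positivity), abs_of_nonneg (by positivity)]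
    have hk1 : 0 < 1 - κ := by linarith
    constructor
    · rw [div_lt_div_iff_of_pos_right hp]
      nlinarith
    · unfold KK
      rw [← add_div, ← sub_div, mul_div_assoc', div_le_div_iff_of_pos_right hp]
      rw [div_pow, div_mul_eq_mul_div, le_div_iff₀ (by positivity)]
      nlinarith
  have hL : QCL ((1 + q) / (1 - q)) (ab 1 m2) :=
    C_QCL_mono (f13_ratio_mono (norm_nonneg _) hm2 hq) (C_QCL_one_m (hm2.trans_lt hq)).1
  have hR : QCL ((1 + q) / (1 - q)) (iab m1) :=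
    C_QCL_mono (f13_ratio_mono (norm_nonneg _) hm1 hq) (C_QCL_one_m (hm1.trans_lt hq)).2
  have hK : 0 ≤ KK κ := by unfold KK; positivity
  have h2 := C_QCL_comp hQ hL (C_QCL_comp hK hm hR)
  have he : RRm κ m1 0 m2 = (ab 1 m2).comp (((ab 1 (-(κ : ℂ))).comp (iab κ)).comp (iab m1)) := by
    unfold RRm
    rw [add_zero, ContinuousLinearMap.id_comp, ContinuousLinearMap.comp_assoc]
  rw [he]
  refine C_QCL_mono (le_of_eq ?_) h2
  ring

/-- `FldOK` for `P = 0`. -/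
theorem F_Fld0 (t : ℝ) : FldOK (fun _ => 0) t := by
  have h : ∀ ξ, flm (fun _ => 0) t ξ = ξ := fun ξ => by simp [flm, fld]
  refine ⟨fun ξ η _ _ => ?_, fun ξ η _ _ => ?_, fun ξ hξ => ?_, fun η hη => ⟨η, hη, h η⟩⟩
  · rw [h, h]
    linarith [norm_nonneg (ξ - η)]
  · rw [h, h]
    linarith [norm_nonneg (ξ - η)]
  · rw [h]
    exact hξ

/-- `aa` is continuous and strictly increasing on `[0, 1/10]` (`Iface.E_aa`), `aa 0 = 0`, `aa k0 = a0`: for `0 ≤ b ≤ b1 < a0` there is `κ`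
with `aa κ = b`, and `κ ≤ κ1 < k0` where `aa κ1 = b1`. -/
theorem F_kap_far {b1 : ℝ} (hb : b1 < a0) : ∃ κ1 < k0, ∀ b : ℝ, 0 ≤ b → b ≤ b1 →
    ∃ κ : ℝ, 0 ≤ κ ∧ κ ≤ κ1 ∧ aa κ = b := by
  obtain ⟨hk, hk1, hk2⟩ := Iface.E_k0
  have hc : ContinuousOn aa (Icc 0 (1 / 10)) := fun x hx => by
    obtain ⟨a', _, h⟩ := Iface.E_aa hx.1 hx.2
    exact h.continuousAt.continuousWithinAt
  rcases lt_or_ge b1 0 with h | h
  · exact ⟨k0 - 1, by linarith, fun b h0 h1 => by linarith⟩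
  · have hsub : Icc 0 k0 ⊆ Icc 0 (1 / 10) := Icc_subset_Icc le_rfl (by linarith)
    have h2 := intermediate_value_Icc (show (0 : ℝ) ≤ k0 by linarith) (hc.mono hsub)
    rw [Iface.E_aa_zero, hk] at h2
    obtain ⟨κ1, hκ1, hκ1b⟩ := h2 ⟨h, hb.le⟩
    have hlt : κ1 < k0 := by
      refine lt_of_le_of_ne hκ1.2 (fun he => ?_)
      rw [he, hk] at hκ1b
      linarith
    refine ⟨κ1, hlt, fun b h0 h1 => ?_⟩
    have h3 := intermediate_value_Icc hκ1.1 (hc.mono (Icc_subset_Icc le_rfl (show κ1 ≤ 1 / 10 by linarith)))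
    rw [Iface.E_aa_zero, hκ1b] at h3
    obtain ⟨κ, hκ, hκb⟩ := h3 ⟨h0, h1⟩
    exact ⟨κ, hκ.1, hκ.2, hκb⟩

theorem f13_tanh {θ : ℝ} (hθ : θ < 1) : ∃ R0 > 0, ∀ R > R0, θ ≤ Real.tanh (R / 2) := by
  refine ⟨4 / (1 - θ), by
    have : 0 < 1 - θ := by linarith
    positivity, fun R hR => ?_⟩
  have h1 : 0 < 1 - θ := by linarith
  have hR0 : 0 < R := lt_trans (by positivity) hR
  have hR1 : 4 < R * (1 - θ) := by rwa [gt_iff_lt, div_lt_iff₀ h1] at hR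
  rw [Real.tanh_eq_sinh_div_cosh, le_div_iff₀ (Real.cosh_pos _), Real.cosh_eq, Real.sinh_eq]
  have h2 : R / 2 + 1 ≤ Real.exp (R / 2) := Real.add_one_le_exp _
  have h3 : Real.exp (-(R / 2)) ≤ 1 := Real.exp_le_one_iff.mpr (by linarith)
  have h4 : 0 < Real.exp (-(R / 2)) := Real.exp_pos _
  have h5 : (1 + θ) * Real.exp (-(R / 2)) ≤ (1 - θ) * Real.exp (R / 2) := by
    have h6 : (1 - θ) * (R / 2 + 1) ≤ (1 - θ) * Real.exp (R / 2) := by gcongr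
    rcases le_or_gt 0 (1 + θ) with h7 | h7
    · have h8 : (1 + θ) * Real.exp (-(R / 2)) ≤ (1 + θ) * 1 := by gcongr
      nlinarith
    · have h8 : (1 + θ) * Real.exp (-(R / 2)) ≤ 0 := mul_nonpos_of_nonpos_of_nonneg h7.le h4.le
      have h9 : 0 ≤ (1 - θ) * Real.exp (R / 2) := by positivity
      linarith
  linarith

theorem f13_q {ε : ℝ} (hε : 0 < ε) : ∃ q > 0, q < 1 ∧ ((1 + q) / (1 - q)) ^ 2 ≤ Real.exp ε := by
  refine ⟨min (1 / 2) (ε / 8), by positivity, (min_le_left _ _).trans_lt (by norm_num), ?_⟩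
  set q := min (1 / 2) (ε / 8) with hq
  have h1 : q ≤ 1 / 2 := min_le_left _ _
  have h2 : q ≤ ε / 8 := min_le_right _ _
  have h3 : 0 < q := by positivity
  have h4 : (1 + q) / (1 - q) ≤ Real.exp (4 * q) := by
    rw [div_le_iff₀ (by linarith)]
    have := Real.add_one_le_exp (4 * q)
    nlinarith
  have h5 : 0 ≤ (1 + q) / (1 - q) := div_nonneg (by linarith) (by linarith)
  calc ((1 + q) / (1 - q)) ^ 2 ≤ Real.exp (4 * q) ^ 2 := by gcongr
    _ = Real.exp (8 * q) := by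
      rw [← Real.exp_nat_mul]
      congr 1
      push_cast
      ring
    _ ≤ Real.exp ε := Real.exp_le_exp.mpr (by linarith)

theorem f13_pul (m c : ℂ) : ‖pul m c‖ ≤ ‖m‖ := by
  unfold pul
  rcases eq_or_ne c 0 with h | h
  · rw [h]
    simp
  · rw [norm_mul, norm_div, Complex.norm_conj, div_self (norm_ne_zero_iff.mpr h), mul_one]

/-- The application of `C_main`. -/
theorem f13_app (L : LineSys) {C t R q K1 κ : ℝ} {h : Disc ≃ₜ Disc} {mh : Disc → ℂ} {G : Subgroup W}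
    (hT : Tw L C t h mh) (hG : Cov R G) (hR : 0 < R) (h0 : 0 ≤ κ) (h1 : κ ≤ 1 / 10)
    (hq : q < 1) (hmh : ∀ z, ‖mh z‖ ≤ q) (hK : ((1 + q) / (1 - q)) ^ 2 * KK κ ≤ K1) (a : W) {X Z : Disc}
    (g : SU) (hX : g.app X = -((Real.tanh (R / 2) * aa κ : ℝ) : ℂ))
    (hZ : g.app Z = ((Real.tanh (R / 2) * aa κ : ℝ) : ℂ)) :
    ∃ F : Disc ≃ₜ Disc, LQ K1 F ∧ Nrm h G F ∧ F (h X) = h (ac a Z) := by
  have hq0 : 0 ≤ q := (norm_nonneg _).trans (hmh o0)
  have hQ : 0 ≤ (1 + q) / (1 - q) := div_nonneg (by linarith) (by linarith)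
  have hKK : 1 ≤ KK κ := by
    unfold KK
    refine one_le_pow₀ ?_
    rw [one_le_div (by linarith)]
    linarith
  refine C_main hT.cj hT.diff hG.nor hG.le hR hG.disp a h0 h1 (P := fun _ => 0) contDiff_const
    (fun ξ => by simp) (F_Fld0 t) g hX hZ (fun z => ?_) (fun ξ z z2 _ _ _ _ => ?_)
  · have e1 := f13_ratio_mono (norm_nonneg _) (hmh (ac a z)) hq
    have e2 := f13_ratio_mono (norm_nonneg _) (hmh z) hq
    have e3 : 0 ≤ (1 + ‖mh z‖) / (1 - ‖mh z‖) :=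
      div_nonneg (by positivity) (by linarith [hmh z])
    calc (1 + ‖mh (ac a z)‖) / (1 - ‖mh (ac a z)‖) * ((1 + ‖mh z‖) / (1 - ‖mh z‖))
        ≤ (1 + q) / (1 - q) * ((1 + q) / (1 - q)) := mul_le_mul e1 e2 e3 hQ
      _ = ((1 + q) / (1 - q)) ^ 2 * 1 := by ring
      _ ≤ ((1 + q) / (1 - q)) ^ 2 * KK κ := by gcongr
      _ ≤ K1 := hK
  · have hf : fderiv ℝ (fld fun _ => 0) ξ = 0 := by
      have : (fld fun _ => 0) = fun _ => (0 : ℂ) := by
        funext x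
        simp [fld]
      rw [this]
      simp
    rw [hf, smul_zero]
    exact C_QCL_mono hK (F_RR0 h0 h1 hq ((f13_pul _ _).trans (hmh _)) ((f13_pul _ _).trans (hmh _)))

/-- Let `b0 = bE (CC - ε)` (if `CC - ε < 1` there is no pair, since `mink ≥ 1`; replace `ε` by a smaller one), `b0 < a0` (`F_bE_CC`, `F_bE_mono`),
`b1 = (b0 + a0)/2`, `R0` with `b0 / tanh (R0/2) ≤ b1`, `κ1` from `F_kap_far`, `KK κ1 < KK k0`.
Given `X ≠ Z`: `E = mink (Om X) (Om Z) ≤ CC - ε`, `κ` with `aa κ = bE E / tanh (R/2) ≤ b1`; `C_two`; `C_main` with `P = 0`: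
`K1 = KK k0 exp(-ε')`, where `KK κ1 ((1+q)/(1-q))² ≤ KK k0 exp (-ε')` and `((1+q)/(1-q))² ≤ KK k0 exp(-ε')` for `q = C t` small;
`|pul m c| = |m|`-bounds (`C_pul_norm` or `≤`), `F_RR0` (`t • fderiv (fld 0) = 0`).
If `X = Z`: `κ = 0`, `aa 0 = 0`, and any `g` with `g X = 0` (`C_trans`). -/
theorem F_far (L : LineSys) (C : ℝ) {ε : ℝ} (hε : 0 < ε) : ∃ ε' > 0, ∃ t0 > 0, ∃ R0 > 0,
    ∀ t : ℝ, 0 < t → t < t0 → ∀ R > R0, ∀ (h : Disc ≃ₜ Disc) (mh : Disc → ℂ) (G : Subgroup W),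
    Tw L C t h mh → Cov R G → ∀ (X Z : Disc) (a : W), mink (Om X) (Om Z) ≤ CC - ε →
    ∃ F : Disc ≃ₜ Disc, LQ (KK k0 * Real.exp (-ε')) F ∧ Nrm h G F ∧ F (h X) = h (ac a Z) := by
  obtain ⟨hk, hk1, hk2⟩ := Iface.E_k0
  have hCC := one_lt_CC
  -- the bound for the distance
  obtain ⟨E0, hE01, hE0C, hE0⟩ : ∃ E0 : ℝ, 1 < E0 ∧ E0 < CC ∧ CC - ε ≤ E0 :=
    ⟨max (CC - ε) ((1 + CC) / 2), lt_max_of_lt_right (by linarith), max_lt (by linarith) (by linarith),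
      le_max_left _ _⟩
  have hb0 : bE E0 < a0 := by
    rw [← F_bE_CC]
    exact F_bE_mono hE01.le hE0C
  have hb0p : 0 < bE E0 := (C_bE hE01).1
  obtain ⟨b1, hb1, hb1'⟩ : ∃ b1, bE E0 < b1 ∧ b1 < a0 := exists_between hb0
  obtain ⟨κ1, hκ1, hκ⟩ := F_kap_far hb1'
  obtain ⟨R0, hR0, hR⟩ := f13_tanh (θ := bE E0 / b1) (by rw [div_lt_one (by linarith)]; exact hb1)
  have hκ10 : 0 ≤ κ1 := by
    obtain ⟨κ, h1, h2, -⟩ := hκ 0 le_rfl (by linarith)
    linarith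
  -- the constants
  have hKpos : ∀ κ : ℝ, 0 ≤ κ → κ ≤ 1 / 10 → 0 < KK κ := fun κ h0 h1 => by
    unfold KK
    have : 0 < 1 - κ := by linarith
    positivity
  have hKmono : ∀ κ κ' : ℝ, 0 ≤ κ → κ ≤ κ' → κ' ≤ 1 / 10 → KK κ ≤ KK κ' := fun κ κ' h0 h1 h2 => by
    unfold KK
    have h3 := f13_ratio_mono h0 h1 (by linarith)
    have h4 : 0 ≤ (1 + κ) / (1 - κ) := div_nonneg (by linarith) (by linarith)
    gcongr
  have hKlt : KK κ1 < KK k0 := by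
    unfold KK
    have h4 : 0 ≤ (1 + κ1) / (1 - κ1) := div_nonneg (by linarith) (by linarith)
    have h3 : (1 + κ1) / (1 - κ1) < (1 + k0) / (1 - k0) := by
      rw [div_lt_div_iff₀ (by linarith) (by linarith)]
      nlinarith
    gcongr
  have hK1p := hKpos κ1 hκ10 (by linarith)
  have hK0p := hKpos k0 (by linarith) (by linarith)
  set ε' := (Real.log (KK k0) - Real.log (KK κ1)) / 2 with hε'
  have hε'p : 0 < ε' := by
    have := Real.log_lt_log hK1p hKlt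
    rw [hε']
    linarith
  have hKK : KK k0 * Real.exp (-ε') = Real.exp ε' * KK κ1 := by
    have e1 : KK k0 = Real.exp (Real.log (KK k0)) := (Real.exp_log hK0p).symm
    have e2 : KK κ1 = Real.exp (Real.log (KK κ1)) := (Real.exp_log hK1p).symm
    rw [e1, e2, ← Real.exp_add, ← Real.exp_add]
    congr 1
    rw [hε']
    ring
  obtain ⟨q, hq0, hq1, hq⟩ := f13_q hε'p
  refine ⟨ε', hε'p, q / (|C| + 1), by positivity, R0, hR0, ?_⟩
  intro t ht ht0 R hRR h mh G hT hG X Z a hXZ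
  have hRp : 0 < R := lt_trans hR0 hRR
  have hmh : ∀ z, ‖mh z‖ ≤ q := fun z => by
    have h1 := hT.bd z
    have h2 : C * t ≤ |C| * t := by
      have := le_abs_self C
      gcongr
    have h3 : t * (|C| + 1) < q := by rwa [lt_div_iff₀ (by positivity)] at ht0
    nlinarith
  have hKle : ∀ κ : ℝ, 0 ≤ κ → κ ≤ κ1 → ((1 + q) / (1 - q)) ^ 2 * KK κ ≤ KK k0 * Real.exp (-ε') := by
    intro κ h0 h1
    rw [hKK]
    have := hKmono κ κ1 h0 h1 (by linarith)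
    have h2 := (hKpos κ h0 (by linarith)).le
    exact mul_le_mul hq this h2 (Real.exp_pos _).le
  rcases eq_or_ne X Z with hEq | hne
  · subst hEq
    obtain ⟨g, hg⟩ := C_trans X
    have hg2 : g⁻¹.app X = 0 := by
      rw [← hg, ← SU.app_mul g⁻¹ g (by simp), inv_mul_cancel, SU.app_one]
    refine f13_app L hT hG hRp le_rfl (by norm_num) hq1 hmh (hKle 0 le_rfl hκ10) a g⁻¹ ?_ ?_
    · rw [hg2, Iface.E_aa_zero]
      simp
    · rw [hg2, Iface.E_aa_zero]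
      simp
  · obtain ⟨g, hgX, hgZ, -⟩ := C_two hne
    have hE1 := (C_rel_norm hne).1
    set E := mink (Om X) (Om Z) with hE
    have hbE : bE E ≤ bE E0 := by
      rcases (hXZ.trans hE0).lt_or_eq with h1 | h1
      · exact (F_bE_mono hE1.le h1).le
      · rw [h1]
    have hr := hR R hRR
    have hb1p : 0 < b1 := by linarith
    have hrp : 0 < Real.tanh (R / 2) := lt_of_lt_of_le (div_pos hb0p hb1p) hr
    obtain ⟨κ, h0, h1, h2⟩ := hκ (bE E / Real.tanh (R / 2)) (div_nonneg (C_bE hE1).1.le hrp.le) (by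
      rw [div_le_iff₀ hrp]
      rw [div_le_iff₀ hb1p] at hr
      nlinarith)
    have h3 : Real.tanh (R / 2) * aa κ = bE E := by
      rw [h2]
      field_simp
    refine f13_app L hT hG hRp h0 (by linarith) hq1 hmh (hKle κ h0 h1) a g ?_ ?_
    · rw [h3, hgX]
    · rw [h3, hgZ]

end Pool.Agent.Lib.H11Q
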