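import Pool.Agent.Lib.H11Q.FD
import Pool.Agent.Lib.H11Q.C17
import Pool.Agent.Lib.H11Q.C04
import Pool.Agent.Lib.H11Q.F06E
import Pool.Agent.Lib.H11Q.F09A

set_option autoImplicit false

namespace Pool.Agent.Lib.H11Q

open Complex Set MeasureTheory
open scoped ComplexConjugate Topology

/-! F14 (M): the lower bound for `Kbar` (PROOF.md 7.5). -/

theorem f14_mono : aa k0 < aa (1 / 10) := by
  obtain ⟨h1, h2, h3⟩ := Iface.E_k0
  have hmono : StrictMonoOn aa (Icc (0 : ℝ) (1 / 10)) := by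
    refine strictMonoOn_of_deriv_pos (convex_Icc _ _) ?_ ?_
    · intro x hx
      obtain ⟨a', -, ha⟩ := Iface.E_aa hx.1 hx.2
      exact ha.continuousAt.continuousWithinAt
    · intro x hx
      rw [interior_Icc] at hx
      obtain ⟨a', hp, ha⟩ := Iface.E_aa hx.1.le hx.2.le
      rw [ha.deriv]
      exact hp
  exact hmono ⟨by linarith, by linarith⟩ ⟨by norm_num, le_refl _⟩ (by linarith)

theorem f14_id {K : ℝ} (hK : 1 ≤ K) {G : Disc ≃ₜ Disc} {z : Disc} (h : ∀ᶠ y in 𝓝 z, G y = y) :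
    ∃ L : ℂ →L[ℝ] ℂ, HasFDerivAt (ext G) L z ∧ QCL K L := by
  have h1 := (C_act_strict (1 : SU) z).hasFDerivAt
  have hne : (1 : SU).den z ≠ 0 := (1 : SU).den_ne z.2.le
  refine ⟨_, c17_congr (F' := SU.act (1 : SU)) ?_ h1,
    C_QCL_mono hK (C_QCL_smul (one_div_ne_zero (pow_ne_zero 2 hne)))⟩
  filter_upwards [h] with y hy
  rw [hy, map_one]
  rfl

theorem f14_mid {κ : ℝ} (h0 : 0 ≤ κ) (h1 : κ ≤ 1 / 10) :
    QCL (KK κ) ((ab 1 (-(κ : ℂ))).comp (iab κ)) := by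
  have hn : ‖(κ : ℂ)‖ = κ := by rw [Complex.norm_real, Real.norm_eq_abs, abs_of_nonneg h0]
  have hn1 : ‖(κ : ℂ)‖ < 1 := by rw [hn]; linarith
  have hn2 : ‖-(κ : ℂ)‖ < 1 := by rw [norm_neg]; exact hn1
  have e1 := (C_QCL_one_m hn2).1
  have e2 := (C_QCL_one_m hn1).2
  rw [norm_neg, hn] at e1
  rw [hn] at e2
  have h3 : (0 : ℝ) ≤ (1 + κ) / (1 - κ) := div_nonneg (by linarith) (by linarith)
  have e3 := C_QCL_comp h3 e1 e2
  unfold KK
  rw [sq]
  exact e3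

theorem f14_fld : FldOK (fun _ => 0) 0 := by
  have h : ∀ ξ : ℂ, flm (fun _ => 0) 0 ξ = ξ := by
    intro ξ
    simp [flm]
  refine ⟨fun ξ η _ _ => ?_, fun ξ η _ _ => ?_, fun ξ hξ => ?_, fun η hη => ⟨η, hη, h η⟩⟩
  · rw [h, h]
    nlinarith [norm_nonneg (ξ - η)]
  · rw [h, h]
    nlinarith [norm_nonneg (ξ - η)]
  · rw [h]
    exact hξ

theorem f14_loc {κ : ℝ} (h0 : 0 ≤ κ) (h1 : κ ≤ 1 / 10) (hK : 1 ≤ KK κ) {r : ℝ} (hr : 0 < r) (hr1 : r < 1)
    {b : ℂ} (hb : b = r * beta κ 0) :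
    ∃ G1 : Disc ≃ₜ Disc, LQ (KK κ) G1 ∧ (∀ z : Disc, r ≤ ‖(z : ℂ)‖ → G1 z = z) ∧
      ∀ z : Disc, (z : ℂ) = b → ((G1 z : Disc) : ℂ) = r * beta' κ 0 := by
  have hodd : ∀ ξ : ℂ, (fun _ : ℂ => (0 : ℂ)) (-ξ) = -(fun _ : ℂ => (0 : ℂ)) ξ := by
    intro ξ
    simp
  have hP : ContDiff ℝ 2 (fun _ : ℂ => (0 : ℂ)) := contDiff_const
  have hF := f14_fld
  have hnr : ‖(r : ℂ)‖ = r := by rw [Complex.norm_real, Real.norm_eq_abs, abs_of_pos hr]
  have hr0 : (r : ℂ) ≠ 0 := by exact_mod_cast hr.ne'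
  obtain ⟨G1, hl, hl', hid, hG⟩ := C_local h0 h1 hodd hF hr hr1 (1 : SU)
  refine ⟨G1, ⟨hl, hl', Metric.sphere 0 r ∪ {b},
    measure_union_null (Measure.addHaar_sphere _ _ _) (measure_singleton b), ?_⟩, ?_, ?_⟩
  · intro z hz
    have hz1 : ‖(z : ℂ)‖ ≠ r := by
      intro h
      apply hz
      left
      simpa using h
    have hz2 : (z : ℂ) ≠ b := by
      intro h
      apply hz
      right
      exact h
    rcases lt_or_gt_of_ne hz1 with hlt | hgt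
    · have hβ1 : ‖(z : ℂ) / r‖ < 1 := by
        rw [norm_div, hnr, div_lt_one hr]
        exact hlt
      obtain ⟨ξ, hξ1, hξ2⟩ := (Iface.E_beta_surj h0 h1 hβ1.le).1
      have hξ : ‖ξ‖ < 1 := by
        rcases hξ1.lt_or_eq with h2 | h2
        · exact h2
        · exfalso
          have h3 := (Iface.E_beta_eq h0 h1 h2).1
          rw [hξ2] at h3
          linarith
      have hgz : (1 : SU).app z = r * beta κ ξ := by
        rw [SU.app_one, hξ2, mul_div_cancel₀ _ hr0]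
      have hξ0 : ξ ≠ 0 := by
        rintro rfl
        apply hz2
        rw [SU.app_one] at hgz
        rw [hgz, hb]
      obtain ⟨hc1, hc2, hd⟩ := C_G1_deriv h0 h1 hP hodd hF hr hr1 (1 : SU) G1 hG hξ0 hξ hgz
      refine ⟨_, hd, C_QCL_mul_left hc2 ?_⟩
      rw [zero_smul, add_zero, ContinuousLinearMap.id_comp, ← ContinuousLinearMap.comp_assoc]
      exact C_QCL_mul_right (one_div_ne_zero hc1) (f14_mid h0 h1)
    · refine f14_id hK ?_
      have hc : Continuous fun z' : Disc => ‖(z' : ℂ)‖ := continuous_subtype_val.norm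
      filter_upwards [(isOpen_lt continuous_const hc).mem_nhds hgt] with z' h3
      refine hid z' ?_
      rw [SU.app_one]
      exact le_of_lt h3
  · intro z hz
    refine hid z ?_
    rw [SU.app_one]
    exact hz
  · intro z hz
    have h3 := hG 0 (by simp) z (by rw [SU.app_one, hz, hb])
    rw [SU.app_one, C_flm_zero hodd] at h3
    exact h3

/-- `hd (-a0) a0 = cc`: `sh = 4 a0²/(1-a0²)² = (CC-1)/2`, since `vv = 2a0/(1+a0²)`, `vv² = (CC-1)/(CC+1)`. -/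
theorem F_hd_a0 : hd (-(a0 : ℂ)) (a0 : ℂ) = cc := by
  obtain ⟨ha0, ha1, hvv⟩ := F_a0
  have hC := one_lt_CC
  have h1 : 0 < 1 - a0 ^ 2 := by nlinarith
  have e1 : sh (-(a0 : ℂ)) (a0 : ℂ) = (CC - 1) / 2 := by
    unfold sh
    have e2 : -(a0 : ℂ) - a0 = ((-(2 * a0) : ℝ) : ℂ) := by
      push_cast
      ring
    rw [e2, norm_neg, Complex.norm_real, Complex.norm_real, Real.norm_eq_abs, Real.norm_eq_abs, sq_abs, sq_abs]
    have h2 := vv_sq
    rw [hvv] at h2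
    have h3 : (CC + 1) ≠ 0 := by linarith
    have h4 : (1 + a0 ^ 2) ≠ 0 := by positivity
    rw [div_pow, div_eq_div_iff (pow_ne_zero 2 h4) h3] at h2
    rw [div_eq_div_iff (by positivity) (by norm_num)]
    nlinarith
  unfold hd cc
  rw [e1]

/-- The set in the definition of `Kbar` is not empty: `κ = 1/10`, `r = a0 / aa (1/10) < 1` (`a0 < 199/1000 < aa (1/10)`: `Iface.E_aa_top`;
`a0 < 0.199` from `vv < 0.301`..., or from `aa k0 = a0` and monotonicity), `G1` from `C_local` with `g = 1`, `P = 0`, `t = 0`: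
`G1 (-a0) = a0` (`C_beta_zero`), `G1 z = z` for `r ≤ |z|`, so `IdBdry`.  `G1` is `LQ (KK (1/10))`: derivative at all points except
`-a0` and the circle `|z| = r` (null set): for `|z| > r` it is the identity, for `|z| < r` `C_G1_deriv`: `c2 (1,-κ)(1,κ)⁻¹ (1/c1)`, dilatation
`KK κ` (`ab ((1+κ²)/(1-κ²)) (-2κ/(1-κ²))`, `C_QCL_ab`, `C_QCL_mul_left/right`). -/
theorem F_nonempty : ∃ (e : Disc ≃ₜ Disc) (K : ℝ), 1 ≤ K ∧ IsQC K e ∧ IdBdry e ∧
    ∃ z : Disc, cc ≤ hd z (e z) := by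
  obtain ⟨ha0, ha1, -⟩ := F_a0
  obtain ⟨hk0, -, -⟩ := Iface.E_k0
  have hm := f14_mono
  rw [hk0] at hm
  obtain ⟨A, hA⟩ : ∃ A : ℝ, A = aa (1 / 10) := ⟨_, rfl⟩
  have h0 : (0 : ℝ) ≤ 1 / 10 := by norm_num
  have h1 : (1 / 10 : ℝ) ≤ 1 / 10 := le_refl _
  rw [← hA] at hm
  have hA0 : 0 < A := ha0.trans hm
  obtain ⟨r, hrd⟩ : ∃ r : ℝ, r = a0 / A := ⟨_, rfl⟩
  have hr : 0 < r := by rw [hrd]; positivity
  have hr1 : r < 1 := by rw [hrd, div_lt_one hA0]; exact hm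
  have hrA : r * A = a0 := by rw [hrd]; field_simp
  have hK : 1 ≤ KK (1 / 10) := by
    unfold KK
    norm_num
  have hb1 : -(a0 : ℂ) = r * beta (1 / 10) 0 := by
    rw [(C_beta_zero h0 h1).1, ← hA, ← hrA]
    push_cast
    ring
  have hb2 : (r : ℂ) * beta' (1 / 10) 0 = a0 := by
    rw [(C_beta_zero h0 h1).2, ← hA, ← hrA]
    push_cast
    ring
  obtain ⟨G1, hLQ, hid, hG⟩ := f14_loc h0 h1 hK hr hr1 hb1
  have hn' : ‖-(a0 : ℂ)‖ < 1 := by
    rw [norm_neg, Complex.norm_real, Real.norm_eq_abs, abs_of_pos ha0]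
    exact ha1
  refine ⟨G1, KK (1 / 10), hK, C_LQ_isQC hLQ, ?_, ⟨-(a0 : ℂ), hn'⟩, ?_⟩
  · intro u hu
    have h2 : ∀ᶠ z in 𝓝[Metric.ball 0 1] u, z = ext G1 z := by
      have h3 : ∀ᶠ z : ℂ in 𝓝 u, r < ‖z‖ :=
        (isOpen_lt continuous_const continuous_norm).mem_nhds (by
          show r < ‖u‖
          rw [hu]
          exact hr1)
      filter_upwards [mem_nhdsWithin_of_mem_nhds h3, self_mem_nhdsWithin] with z hz hzb
      have hz1 : ‖z‖ < 1 := by simpa using hzb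
      have h4 : ext G1 z = (G1 ⟨z, hz1⟩ : Disc) := c05_coe G1 ⟨z, hz1⟩
      rw [h4, hid ⟨z, hz1⟩ (le_of_lt hz)]
    exact (tendsto_nhdsWithin_of_tendsto_nhds Filter.tendsto_id).congr' h2
  · rw [hG ⟨-(a0 : ℂ), hn'⟩ rfl, hb2]
    exact F_hd_a0.ge

/-- `F_nonempty`, `Iface.A_diam`, `Iface.G_lower`, `le_csInf`. -/
theorem F_Kbar : KK k0 ≤ Kbar := by
  obtain ⟨e, K, hK, he, hb, z, hz⟩ := F_nonempty
  refine le_csInf ⟨K, hK, e, he, hb, z, ?_⟩ ?_
  · rw [Iface.A_diam]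
    exact hz
  · rintro K' ⟨hK', e', he', hb', z', hz'⟩
    rw [Iface.A_diam] at hz'
    exact Iface.G_lower hK' e' he' hb' z' hz'

end Pool.Agent.Lib.H11Q
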