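import Pool.Agent.Lib.H11Q.FD
import Pool.Agent.Lib.H11Q.Iface
import Pool.Agent.Lib.H11Q.C10
import Pool.Agent.Lib.H11Q.C06

set_option autoImplicit false

namespace Pool.Agent.Lib.H11Q

open Complex Set MeasureTheory
open scoped ComplexConjugate Topology

/-! F15 (M): the surface group. -/

theorem f15_mem {h : Disc ≃ₜ Disc} {G : Subgroup W} {x : Disc ≃ₜ Disc} :
    x ∈ Gh h G ↔ ∃ w ∈ G, x = h * ac w * h⁻¹ := by
  unfold Gh
  constructor
  · rintro ⟨y, ⟨w, hw, rfl⟩, rfl⟩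
    exact ⟨w, hw, rfl⟩
  · rintro ⟨w, hw, rfl⟩
    exact ⟨ac w, ⟨w, hw, rfl⟩, rfl⟩

theorem f15_K0 : IsCompact {x : Disc | ‖(x : ℂ)‖ ≤ vv} := by
  rw [Subtype.isCompact_iff]
  have h : ((↑) : Disc → ℂ) '' {x : Disc | ‖(x : ℂ)‖ ≤ vv} = Metric.closedBall 0 vv := by
    ext z
    simp only [mem_image, mem_ofPred_eq, mem_closedBall_zero_iff]
    constructor
    · rintro ⟨x, hx, rfl⟩
      exact hx
    · intro hz
      exact ⟨⟨z, by
        have := hz.trans_lt vv_lt_one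
        simpa using this⟩, hz, rfl⟩
  rw [h]
  exact isCompact_closedBall 0 vv

theorem f15_le {x : Disc} (h : mink (Om (o0 : Disc)) (Om x) ≤ CC) : ‖(x : ℂ)‖ ≤ vv := by
  have hx : ‖(x : ℂ)‖ < 1 := by simpa using x.2
  have hx0 := norm_nonneg (x : ℂ)
  have hCC := one_lt_CC
  have h1 : mink (Om (o0 : Disc)) (Om x) = (1 + ‖(x : ℂ)‖ ^ 2) / (1 - ‖(x : ℂ)‖ ^ 2) := by
    show mink (Om (0 : ℂ)) (Om x) = _
    unfold mink Om
    simp
  rw [h1, div_le_iff₀ (by nlinarith)] at h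
  have h2 : ‖(x : ℂ)‖ ^ 2 ≤ vv ^ 2 := by
    rw [vv_sq, le_div_iff₀ (by linarith)]
    nlinarith
  exact abs_le_of_sq_le_sq' h2 vv_pos.le |>.2

/-- Elements of `Gh h G` are `h (ac w) h⁻¹`, `w ∈ G`.
* `mob`: `hT.cj` (`hG.le`).
* `free`: if `h (ac w) h⁻¹` fixes `z` then `ac w` fixes `z' = h⁻¹ z`, `hd z' z' = 0 < 2R+2`, so by `hG.disp` `ac w = 1`.
* `disc`: for `K` compact, `h⁻¹ K` is compact; `Iface.A_proper`; the map `γ ↦ h γ h⁻¹` is injective.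
* `cocompact`: `G` has finite index, `W = ⋃ G u_i` (finite).  By `Iface.A_cover` (with `X = 0`) every `z` has `w` with
`mink (Om 0) (Om (ac w z)) ≤ CC`, i.e. `ac w z ∈ K0 = {x : |x|² ≤ vv²}`-ball (compact); `w = u_i⁻¹ g`-decomposition: choose the coset so that
`w = u g` with `g ∈ G`, `u` in a finite set: `ac g z ∈ ac u⁻¹ K0`; `K = ⋃ ac u⁻¹ K0` is compact; transport by `h`. -/
theorem F_surface {L : LineSys} {C t R : ℝ} (hR : 0 < R) {h : Disc ≃ₜ Disc} {mh : Disc → ℂ}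
    (hT : Tw L C t h mh) {G : Subgroup W} (hG : Cov R G) : IsSurfaceGroup (Gh h G) := by
  refine ⟨?_, ?_, ?_, ?_⟩
  · intro g hg
    obtain ⟨w, hw, rfl⟩ := f15_mem.mp hg
    exact hT.cj w (hG.le hw)
  · rintro g hg ⟨z, hz⟩
    obtain ⟨w, hw, rfl⟩ := f15_mem.mp hg
    rcases hG.disp w hw with h1 | h1
    · rw [h1, mul_one, mul_inv_cancel]
    · exfalso
      have h2 := h1 (h⁻¹ z)
      have h3 : ac w (h⁻¹ z) = h⁻¹ z := by
        have h4 : h (ac w (h⁻¹ z)) = z := hz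
        have h5 := congrArg (fun x => h⁻¹ x) h4
        have h6 : h⁻¹ (h (ac w (h⁻¹ z))) = ac w (h⁻¹ z) := h.symm_apply_apply _
        rw [← h6]
        exact h5
      rw [h3, C_hd_eq_zero.mpr rfl] at h2
      linarith
  · intro K hK
    have hK' : IsCompact (h.symm '' K) := hK.image h.symm.continuous
    refine ((Iface.A_proper _ hK').image (fun γ => h * γ * h⁻¹)).subset ?_
    rintro g ⟨hg, y, ⟨x, hx, hxy⟩, hy⟩
    obtain ⟨w, hw, rfl⟩ := f15_mem.mp hg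
    refine ⟨ac w, ⟨⟨w, rfl⟩, h.symm y, ⟨h.symm x, ⟨x, hx, rfl⟩, ?_⟩, ⟨y, hy, rfl⟩⟩, rfl⟩
    rw [← hxy]
    show ac w (h.symm x) = h.symm (h (ac w (h.symm x)))
    rw [h.symm_apply_apply]
  · have := hG.fin
    have hfin : Finite (W ⧸ G) := inferInstance
    refine ⟨h '' (⋃ q : W ⧸ G, (ac q.out).symm '' {x : Disc | ‖(x : ℂ)‖ ≤ vv}), ?_, ?_⟩
    · have hq : ∀ q : W ⧸ G, IsCompact ((ac q.out).symm '' {x : Disc | ‖(x : ℂ)‖ ≤ vv}) :=
        fun q => (ac q.out).symm.isCompact_image.mpr f15_K0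
      exact h.isCompact_image.mpr (isCompact_iUnion hq)
    · intro z
      obtain ⟨w, hw⟩ := Iface.A_cover o0 (h.symm z)
      have hle := f15_le hw
      obtain ⟨g, hg⟩ := QuotientGroup.mk_out_eq_mul G w
      refine ⟨h * ac ((g : W)⁻¹) * h⁻¹, f15_mem.mpr ⟨(g : W)⁻¹, G.inv_mem g.2, rfl⟩, ?_⟩
      refine ⟨ac ((g : W)⁻¹) (h.symm z), ?_, rfl⟩
      rw [mem_iUnion]
      refine ⟨(w : W ⧸ G), ac w (h.symm z), hle, ?_⟩
      rw [hg]
      rw [Homeomorph.symm_apply_eq]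
      show ac w (h.symm z) = (ac (w * (g : W)) * ac ((g : W)⁻¹)) (h.symm z)
      rw [← map_mul, mul_assoc, mul_inv_cancel, mul_one]

end Pool.Agent.Lib.H11Q
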