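import Pool.Agent.Lib.H11Q.F12
import Pool.Agent.Lib.H11Q.F13
import Pool.Agent.Lib.H11Q.F14
import Pool.Agent.Lib.H11Q.F15
import Pool.Agent.Lib.H11Q.C05
import Pool.Agent.Lib.H11Q.C04

set_option autoImplicit false

namespace Pool.Agent.Lib.H11Q

open Complex Set MeasureTheory
open scoped ComplexConjugate Topology

/-! F16 (M): homogeneity (PROOF.md 10.4). -/

/-- Inverse and products with conjugates of `Gam0`. -/
theorem F_Nrm_inv {h : Disc ≃ₜ Disc} {G : Subgroup W} {F : Disc ≃ₜ Disc} (hF : Nrm h G F) :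
    Nrm h G F⁻¹ := by
  intro x
  rw [hF (F⁻¹ * x * F⁻¹⁻¹)]
  have e : F * (F⁻¹ * x * F⁻¹⁻¹) * F⁻¹ = x := by group
  rw [e]

theorem f16_mul {h : Disc ≃ₜ Disc} {G : Subgroup W} {F1 F2 : Disc ≃ₜ Disc} (h1 : Nrm h G F1)
    (h2 : Nrm h G F2) : Nrm h G (F1 * F2) := by
  intro x
  rw [h2 x, h1 (F2 * x * F2⁻¹)]
  have e : F1 * (F2 * x * F2⁻¹) * F1⁻¹ = F1 * F2 * x * (F1 * F2)⁻¹ := by group
  rw [e]

theorem f16_ac {h : Disc ≃ₜ Disc} {G : Subgroup W} (hG : G.Normal) (u : W) :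
    Nrm h G (h * ac u * h⁻¹) := by
  intro x
  have := C_norm (G.map ac) h (ac u) 1 (fun x => C_norm_map hG u x) (fun γ _ => by simp) x
  rw [mul_one] at this
  exact this

theorem F_Nrm_mul {h : Disc ≃ₜ Disc} {G : Subgroup W} (hG : G.Normal) {F : Disc ≃ₜ Disc}
    (hF : Nrm h G F) (u w : W) : Nrm h G (h * ac u * h⁻¹ * F * (h * ac w * h⁻¹)) :=
  f16_mul (f16_mul (f16_ac hG u) hF) (f16_ac hG w)

theorem f16_mono {K K' : ℝ} (h : K ≤ K') {F : Disc ≃ₜ Disc} (hF : LQ K F) : LQ K' F := by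
  obtain ⟨N, hN, hd⟩ := hF.dil
  refine ⟨hF.lip, hF.lip', N, hN, fun z hz => ?_⟩
  obtain ⟨L, hL, hq⟩ := hd z hz
  exact ⟨L, hL, C_QCL_mono h hq⟩

theorem f16_sh (w : W) (x y : Disc) : sh (ac w x) (ac w y) = sh x y := C_sh_inv (rho w) x y

theorem f16_case {L : LineSys} {C t R K2 δ : ℝ} {h : Disc ≃ₜ Disc} {mh : Disc → ℂ}
    {G : Subgroup W} (hT : Tw L C t h mh) (hG : Cov R G)
    (h2 : ∀ j ∈ ({0, 3, 5} : Finset ℕ), ∀ X Y : Disc, sh X 0 < δ → sh Y (vs j) < δ →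
      ∃ F : Disc ≃ₜ Disc, LQ K2 F ∧ Nrm h G F ∧ F (h X) = h Y)
    (X Y : Disc) (w1 w2 : W) (hX : sh (ac w1 X) 0 < δ) (hY : sh (ac w2 Y) vv < δ) :
    ∃ F : Disc ≃ₜ Disc, LQ K2 F ∧ Nrm h G F ∧ F (h X) = h Y := by
  obtain ⟨γ, hγ, e1⟩ := Iface.A_red0 w1⁻¹
  obtain ⟨γ', hγ', j, hj, e2⟩ := Iface.A_redv w2⁻¹
  have s1 : sh (ac γ X) 0 < δ := by
    have : sh (ac γ X) (ac γ (ac w1⁻¹ o0)) = sh (ac w1 X) o0 := by
      rw [f16_sh]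
      have := f16_sh w1 X (ac w1⁻¹ o0)
      rw [← this]
      have e : ac w1 (ac w1⁻¹ o0) = o0 := by
        rw [← Homeomorph.mul_apply, ← map_mul, mul_inv_cancel, map_one]
        rfl
      rw [e]
    rw [e1] at this
    have e0 : ((o0 : Disc) : ℂ) = 0 := rfl
    rw [e0] at this
    rw [this]
    exact hX
  have s2 : sh (ac γ' Y) (vs j) < δ := by
    have : sh (ac γ' Y) (ac γ' (ac w2⁻¹ v0)) = sh (ac w2 Y) v0 := by
      rw [f16_sh]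
      have := f16_sh w2 Y (ac w2⁻¹ v0)
      rw [← this]
      have e : ac w2 (ac w2⁻¹ v0) = v0 := by
        rw [← Homeomorph.mul_apply, ← map_mul, mul_inv_cancel, map_one]
        rfl
      rw [e]
    rw [e2] at this
    have e0 : ((v0 : Disc) : ℂ) = vv := rfl
    rw [e0] at this
    show sh (ac γ' Y) (ac (wA ^ j) v0) < δ
    rw [this]
    exact hY
  obtain ⟨F, hF, hN, hv⟩ := h2 j hj _ _ s1 s2
  obtain ⟨M, hM⟩ := hT.cj γ hγ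
  obtain ⟨M', hM'⟩ := hT.cj γ'⁻¹ (Gam0.inv_mem hγ')
  refine ⟨h * ac γ'⁻¹ * h⁻¹ * F * (h * ac γ * h⁻¹), ?_, F_Nrm_mul hG.nor hN _ _, ?_⟩
  · rw [hM, hM']
    exact C_LQ_act hF M' M
  · show h (ac γ'⁻¹ (h.symm (F (h (ac γ (h.symm (h X))))))) = h Y
    rw [h.symm_apply_apply, hv, h.symm_apply_apply]
    congr 1
    show (ac γ'⁻¹ * ac γ') Y = Y
    rw [← map_mul, inv_mul_cancel, map_one]
    rfl

/-- `Iface.A_near` with the `δ` of `F_near`.  `X = h⁻¹ x`, `Y = h⁻¹ y`.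
(1) `mink (Om X) (Om (ac w Y)) ≤ CC - ε`: `F_far` with `Z = ac w Y`, `a = w⁻¹`.
(2) `sh (ac w1 X) 0 < δ`, `sh (ac w2 Y) vv < δ`: `γ ∈ Gam0` with `ac γ (ac w1⁻¹ o0) = o0` (`Iface.A_red0`), so `sh (ac γ X) 0 < δ` (invariance of
`sh`: `C_sh_inv`), `γ' ∈ Gam0`, `j` with `ac γ' (ac w2⁻¹ v0) = vs j`, `sh (ac γ' Y) (vs j) < δ`; `F` from `F_near`;
`F' = (h ac γ' h⁻¹)⁻¹ F (h ac γ h⁻¹)`: `C_LQ_act` (`Tw.cj`), `F_Nrm_mul`.
(3) exchanged: (2) for `(Y, X)` and the inverse (`C_LQ_symm`, `F_Nrm_inv`).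
`LQ` is monotone in `K`, `C_LQ_isQC`. -/
theorem F_homog {L : LineSys} {C t R K1 K2 δ ε : ℝ} {h : Disc ≃ₜ Disc} {mh : Disc → ℂ}
    {G : Subgroup W} (hT : Tw L C t h mh) (hG : Cov R G)
    (hnear : ∀ X Y : Disc, (∃ w : W, mink (Om X) (Om (ac w Y)) ≤ CC - ε) ∨
      (∃ w1 w2 : W, sh (ac w1 X) 0 < δ ∧ sh (ac w2 Y) vv < δ) ∨
      (∃ w1 w2 : W, sh (ac w1 X) vv < δ ∧ sh (ac w2 Y) 0 < δ))
    (h1 : ∀ (X Z : Disc) (a : W), mink (Om X) (Om Z) ≤ CC - ε →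
      ∃ F : Disc ≃ₜ Disc, LQ K1 F ∧ Nrm h G F ∧ F (h X) = h (ac a Z))
    (h2 : ∀ j ∈ ({0, 3, 5} : Finset ℕ), ∀ X Y : Disc, sh X 0 < δ → sh Y (vs j) < δ →
      ∃ F : Disc ≃ₜ Disc, LQ K2 F ∧ Nrm h G F ∧ F (h X) = h Y) :
    QCHomog (max K1 K2) (Gh h G) := by
  intro x y
  have ex : h (h.symm x) = x := h.apply_symm_apply x
  have ey : h (h.symm y) = y := h.apply_symm_apply y
  have key : ∃ F : Disc ≃ₜ Disc, LQ (max K1 K2) F ∧ Nrm h G F ∧ F (h (h.symm x)) = h (h.symm y) := by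
    rcases hnear (h.symm x) (h.symm y) with ⟨w, hw⟩ | ⟨w1, w2, ha, hb⟩ | ⟨w1, w2, ha, hb⟩
    · obtain ⟨F, hF, hN, hv⟩ := h1 _ _ w⁻¹ hw
      refine ⟨F, f16_mono (le_max_left _ _) hF, hN, ?_⟩
      rw [hv]
      congr 1
      show (ac w⁻¹ * ac w) (h.symm y) = h.symm y
      rw [← map_mul, inv_mul_cancel, map_one]
      rfl
    · obtain ⟨F, hF, hN, hv⟩ := f16_case hT hG h2 _ _ w1 w2 ha hb
      exact ⟨F, f16_mono (le_max_right _ _) hF, hN, hv⟩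
    · obtain ⟨F, hF, hN, hv⟩ := f16_case hT hG h2 _ _ w2 w1 hb ha
      refine ⟨F⁻¹, f16_mono (le_max_right _ _) (C_LQ_symm hF), F_Nrm_inv hN, ?_⟩
      rw [← hv]
      exact F.symm_apply_apply _
  obtain ⟨F, hF, hN, hv⟩ := key
  rw [ex, ey] at hv
  exact ⟨F, C_LQ_isQC hF, hN, hv⟩

end Pool.Agent.Lib.H11Q
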