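import Pool.Agent.Lib.H11Q.F16

set_option autoImplicit false

namespace Pool.Agent.Lib.H11Q

open Complex Set MeasureTheory
open scoped ComplexConjugate Topology

/-! F17 (M): the final theorem. -/

theorem f17_mono {K K' : ℝ} (h0 : 0 < K) (h : K ≤ K') {F : Disc ≃ₜ Disc} (hF : IsQC K F) :
    IsQC K' F := by
  refine ⟨hF.acl_h, hF.acl_v, ?_⟩
  filter_upwards [hF.dil] with z hz hz1
  obtain ⟨h1, h2⟩ := hz hz1
  refine ⟨h1, h2.trans ?_⟩
  have h3 : 0 ≤ K * (fderiv ℝ (ext F) z).det := (sq_nonneg _).trans h2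
  have h4 : 0 ≤ (fderiv ℝ (ext F) z).det := nonneg_of_mul_nonneg_right h3 h0
  exact mul_le_mul_of_nonneg_right h h4

theorem f17_homog_mono {K K' : ℝ} (h0 : 0 < K) (h : K ≤ K') {Γ : Subgroup (Disc ≃ₜ Disc)}
    (hQ : QCHomog K Γ) : QCHomog K' Γ := by
  intro x y
  obtain ⟨F, h1, h2, h3⟩ := hQ x y
  exact ⟨F, f17_mono h0 h h1, h2, h3⟩

theorem f17_KK : 1 < KK k0 := by
  obtain ⟨-, h1, h2⟩ := Iface.E_k0
  unfold KK
  have h3 : 0 < 1 - k0 := by linarith
  have h4 : 1 < (1 + k0) / (1 - k0) := by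
    rw [lt_div_iff₀ h3]
    linarith
  nlinarith

/-- `L` from `Iface.A_lines`; `C`, `t1` from `Iface.T_twist`, `M` from `Iface.T_mu_bdd`; `C' = |C| + |M| + 1`: for `0 < t ≤ min t1 (1/(2C'))`, `t ≤ 1` the
homeomorphism `h` of `T_twist` satisfies `Tw L C' t h mh` (choose `mh z = m`; `‖m‖ ≤ C t² + t M ≤ C' t < 1`).
`F_near L C'`, `A_near δ`, `F_far L C' ε`; fix `t` small, `R` large, `G` from `Iface.A_cong (2R+2)`.
`F_homog`, `F_surface`.  `K = max 1 (max K1 K2) < KK k0 ≤ Kbar` (`KK k0 > 1`, `F_Kbar`); `QCHomog` is monotone in `K`, and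
`KS ≤ K` by `csInf_le` (bounded below by 1). -/
theorem F_final : ∃ Γ : Subgroup (Disc ≃ₜ Disc), IsSurfaceGroup Γ ∧
    (∃ K : ℝ, 1 ≤ K ∧ K < Kbar ∧ QCHomog K Γ) ∧ KS Γ < Kbar := by
  obtain ⟨L⟩ := Iface.A_lines
  obtain ⟨C, t1, ht1, hT⟩ := Iface.T_twist L
  obtain ⟨M, hM⟩ := Iface.T_mu_bdd L
  have hC' : 0 < |C| + |M| + 1 := by positivity
  obtain ⟨η, hη, δ, hδ, t0, ht0, hnear⟩ := F_near L (|C| + |M| + 1)
  obtain ⟨ε, hε, hA⟩ := Iface.A_near hδ
  obtain ⟨ε', hε', t2, ht2, R2, hR2, hfar⟩ := F_far L (|C| + |M| + 1) hε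
  obtain ⟨t, htp, hta, htb, htc, htd, hte⟩ : ∃ t : ℝ, 0 < t ∧ t ≤ t1 ∧ t < t0 ∧ t < t2 ∧ t < 1 ∧
      (|C| + |M| + 1) * t < 1 := by
    have hq : 0 < 1 / (|C| + |M| + 1) := by positivity
    refine ⟨min (min t1 t0) (min t2 (min 1 (1 / (|C| + |M| + 1)))) / 2, ?_, ?_, ?_, ?_, ?_, ?_⟩
    · have : 0 < min (min t1 t0) (min t2 (min 1 (1 / (|C| + |M| + 1)))) :=
        lt_min (lt_min ht1 ht0) (lt_min ht2 (lt_min one_pos hq))
      linarith
    all_goals
      have hpos : 0 < min (min t1 t0) (min t2 (min 1 (1 / (|C| + |M| + 1)))) :=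
        lt_min (lt_min ht1 ht0) (lt_min ht2 (lt_min one_pos hq))
      have h1 : min (min t1 t0) (min t2 (min 1 (1 / (|C| + |M| + 1)))) ≤ t1 :=
        (min_le_left _ _).trans (min_le_left _ _)
      have h2 : min (min t1 t0) (min t2 (min 1 (1 / (|C| + |M| + 1)))) ≤ t0 :=
        (min_le_left _ _).trans (min_le_right _ _)
      have h3 : min (min t1 t0) (min t2 (min 1 (1 / (|C| + |M| + 1)))) ≤ t2 :=
        (min_le_right _ _).trans (min_le_left _ _)
      have h4 : min (min t1 t0) (min t2 (min 1 (1 / (|C| + |M| + 1)))) ≤ 1 :=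
        (min_le_right _ _).trans ((min_le_right _ _).trans (min_le_left _ _))
      have h5 : min (min t1 t0) (min t2 (min 1 (1 / (|C| + |M| + 1)))) ≤ 1 / (|C| + |M| + 1) :=
        (min_le_right _ _).trans ((min_le_right _ _).trans (min_le_right _ _))
    · linarith
    · linarith
    · linarith
    · linarith
    · calc (|C| + |M| + 1) * (min (min t1 t0) (min t2 (min 1 (1 / (|C| + |M| + 1)))) / 2)
          < (|C| + |M| + 1) * (1 / (|C| + |M| + 1)) := by
            apply mul_lt_mul_of_pos_left _ hC'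
            linarith
        _ = 1 := by field_simp
  obtain ⟨R0, hR0, hn⟩ := hnear t htp htb
  have hRp : 0 < max R0 R2 + 1 := by
    have := le_max_left R0 R2
    linarith
  obtain ⟨G, g1, g2, g3, g4⟩ := Iface.A_cong (2 * (max R0 R2 + 1) + 2)
  obtain ⟨h, hcj, hd⟩ := hT t (by rw [abs_of_pos htp]; exact hta)
  choose α m hα hest hder using hd
  have hmb : ∀ z : Disc, ‖m z‖ ≤ (|C| + |M| + 1) * t := by
    intro z
    have e : m z = (m z - t * mu L z) + t * mu L z := by ring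
    rw [e]
    refine (norm_add_le _ _).trans ?_
    have h1 := hest z
    have h2 : ‖(t : ℂ) * mu L z‖ ≤ t * |M| := by
      rw [norm_mul, Complex.norm_real, Real.norm_eq_abs, abs_of_pos htp]
      exact mul_le_mul_of_nonneg_left ((hM z z.2).trans (le_abs_self M)) htp.le
    have h3 : C * t ^ 2 ≤ |C| * t := by
      have h4 : C * t ^ 2 ≤ |C| * t ^ 2 := mul_le_mul_of_nonneg_right (le_abs_self C) (sq_nonneg t)
      have h5 : t ^ 2 ≤ t := by nlinarith
      have h6 : |C| * t ^ 2 ≤ |C| * t := mul_le_mul_of_nonneg_left h5 (abs_nonneg C)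
      linarith
    nlinarith
  have hTw : Tw L (|C| + |M| + 1) t h m := by
    refine ⟨hcj, fun z => ⟨(hmb z).trans_lt hte, α z, hα z, hder z⟩, fun z => ?_, hmb⟩
    refine (hest z).trans (mul_le_mul_of_nonneg_right ?_ (sq_nonneg t))
    have := le_abs_self C
    have := abs_nonneg M
    linarith
  have hCov : Cov (max R0 R2 + 1) G := ⟨g1, g2, g3, g4⟩
  have hRa : max R0 R2 + 1 > R0 := by
    have := le_max_left R0 R2
    linarith
  have hRb : max R0 R2 + 1 > R2 := by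
    have := le_max_right R0 R2
    linarith
  have hQ := F_homog hTw hCov hA (hfar t htp htc _ hRb h m G hTw hCov)
    (hn _ hRa h m G hTw hCov)
  have hS := F_surface hRp hTw hCov
  have hKK := f17_KK
  have hKp : 0 < KK k0 := by linarith
  have hK1 : KK k0 * Real.exp (-ε') < KK k0 := by
    have : Real.exp (-ε') < 1 := by
      rw [Real.exp_lt_one_iff]
      linarith
    nlinarith
  have hK2 : KK k0 * Real.exp (-(η * t)) < KK k0 := by
    have : Real.exp (-(η * t)) < 1 := by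
      rw [Real.exp_lt_one_iff]
      have := mul_pos hη htp
      linarith
    nlinarith
  have hKpos : 0 < max (KK k0 * Real.exp (-ε')) (KK k0 * Real.exp (-(η * t))) :=
    lt_max_of_lt_left (mul_pos hKp (Real.exp_pos _))
  have hQ' : QCHomog (max 1 (max (KK k0 * Real.exp (-ε')) (KK k0 * Real.exp (-(η * t)))))
      (Gh h G) := f17_homog_mono hKpos (le_max_right _ _) hQ
  have hlt : max 1 (max (KK k0 * Real.exp (-ε')) (KK k0 * Real.exp (-(η * t)))) < Kbar :=
    (max_lt hKK (max_lt hK1 hK2)).trans_le F_Kbar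
  refine ⟨Gh h G, hS, ⟨_, le_max_left _ _, hlt, hQ'⟩, ?_⟩
  refine lt_of_le_of_lt ?_ hlt
  exact csInf_le ⟨1, fun K hK => hK.1⟩ ⟨le_max_left _ _, hQ'⟩

end Pool.Agent.Lib.H11Q
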