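import Pool.Agent.Lib.H11Q.CD

set_option autoImplicit false

namespace Pool.Agent.Lib.H11Q

open Complex Set MeasureTheory
open scoped ComplexConjugate Topology

/-!
# H11Q, module F: definitions
-/

/-- `v_s = A^s v_0`. -/
noncomputable def vs (s : ℕ) : Disc := ac (wA ^ s) v0

/-- The derivatives of PROOF.md 8.6 in terms of `gi`, up to positive factors. -/
noncomputable def cc1 (X Z : ℂ) (r κ : ℝ) (ξ : ℂ) : ℂ :=
  gi' X Z (r * beta κ ξ) * deriv (WW κ) (ZZ κ ξ) * (ξ + κ * conj ξ)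

noncomputable def cc2 (k : SU) (X Z : ℂ) (r κ : ℝ) (ξ : ℂ) : ℂ :=
  1 / (k.den (gi X Z (r * beta' κ ξ))) ^ 2 * gi' X Z (r * beta' κ ξ) * deriv (WW κ) (ZZ' κ ξ) *
    (ξ - κ * conj ξ)

/-- The first variation function of PROOF.md 9.1, 10.1 (`k` maps `Z` near to `Y`). -/
noncomputable def nn (L : LineSys) (k : SU) (X Z : ℂ) (r κ : ℝ) (ξ ξ' : ℂ) : ℝ :=
  2 * (pul (mu L (gi X Z (r * beta κ ξ))) (cc1 X Z r κ ξ)).re -
    2 * (pul (mu L (k.app (gi X Z (r * beta' κ ξ')))) (cc2 k X Z r κ ξ')).re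

/-- The twist data. -/
structure Tw (L : LineSys) (C t : ℝ) (h : Disc ≃ₜ Disc) (mh : Disc → ℂ) : Prop where
  cj : ∀ γ ∈ Gam0, ∃ M : SU, h * ac γ * h⁻¹ = SU.act M
  diff : ∀ z : Disc, ‖mh z‖ < 1 ∧ ∃ α : ℂ, α ≠ 0 ∧ HasStrictFDerivAt (ext h) (bel α (mh z)) z
  est : ∀ z : Disc, ‖mh z - t * mu L z‖ ≤ C * t ^ 2
  bd : ∀ z : Disc, ‖mh z‖ ≤ C * t

/-- The covering data. -/
structure Cov (R : ℝ) (G : Subgroup W) : Prop where
  nor : G.Normal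
  fin : G.FiniteIndex
  le : G ≤ Gam0
  disp : ∀ w ∈ G, ac w = 1 ∨ ∀ z : Disc, 2 * R + 2 < hd z (ac w z)

/-- The group of the twisted surface. -/
noncomputable def Gh (h : Disc ≃ₜ Disc) (G : Subgroup W) : Subgroup (Disc ≃ₜ Disc) :=
  (G.map ac).map (MulAut.conj h).toMonoidHom

/-- `F` normalizes the group of the twisted surface. -/
def Nrm (h : Disc ≃ₜ Disc) (G : Subgroup W) (F : Disc ≃ₜ Disc) : Prop :=
  ∀ x, x ∈ Gh h G ↔ F * x * F⁻¹ ∈ Gh h G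

/-- `sinh c`. -/
noncomputable def Sc : ℝ := Real.sqrt (CC ^ 2 - 1)

/-- Direction from `v_j` to the centre `A^j B^r 0`: `-exp(i(2πj/7 + 2πr/3))`. -/
noncomputable def fr (j r : ℕ) : ℂ :=
  -exp (((2 * Real.pi * j / 7 + 2 * Real.pi * r / 3 : ℝ) : ℂ) * I)

/-- The right half disc. -/
def Hd : Set ℂ := {ξ : ℂ | 0 < ξ.re ∧ ‖ξ‖ < 1}

/-- Direction of `v_s`. -/
noncomputable def er (s : ℕ) : ℂ := exp (((2 * Real.pi * s / 7 : ℝ) : ℂ) * I)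

/-- `(1/π)` times the mean of the first variation: PROOF.md 9.1. -/
noncomputable def bx (L : LineSys) (s : ℕ) : ℝ :=
  4 / (Real.pi * (1 - k0 ^ 2)) * bb L (rho (wA ^ s))⁻¹

noncomputable def by' (L : LineSys) (j r : ℕ) : ℝ :=
  4 / (Real.pi * (1 - k0 ^ 2)) * bb L (chi * (rho (wA ^ j * wB ^ r))⁻¹)

end Pool.Agent.Lib.H11Q
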