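import Pool.Agent.Lib.H11Q.EE
import Pool.Agent.Lib.H11Q.C06

/-!
# H11Q, module G (the lower bound `Kbar ≥ KK k0`, section 7 of PROOF.md): definitions

Everything is done in the original coordinate `z` of the disc.  `M` is a Moebius map, `Gz κ M z = Zi κ (M z)` is the
coordinate in the ellipse, `GU κ M` is the disc minus the slit `Gz + 2κ ≤ 0`, `Gp κ M` (`ψ`) is the holomorphic square
root of `Gz + 2κ` on `GU κ M`; it maps `GU κ M` bijectively onto `Gs κ '' GH` (half of the ellipse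
`{ξ + κ conj ξ : ‖ξ‖ < 1}`).  `G` is a continuous square root of `Gz κ M (e z) - 2κ`, with values in the ellipse
`{ξ - κ conj ξ}`.
-/

set_option autoImplicit false

namespace Pool.Agent.Lib.H11Q

open Complex Set MeasureTheory
open scoped ComplexConjugate Topology

/-- The right half disc. -/
def GH : Set ℂ := {ξ | 0 < ξ.re ∧ ‖ξ‖ < 1}

/-- `ξ ↦ ξ + κ conj ξ`. -/
noncomputable def Gs (κ : ℝ) (ξ : ℂ) : ℂ := ξ + κ * conj ξ

/-- The inverse of `Gs κ`. -/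
noncomputable def Gx (κ : ℝ) (σ : ℂ) : ℂ := ⟨σ.re / (1 + κ), σ.im / (1 - κ)⟩

noncomputable def Gz (κ : ℝ) (M : SU) (z : ℂ) : ℂ := Zi κ (M.app z)

/-- The disc minus a slit. -/
def GU (κ : ℝ) (M : SU) : Set ℂ := {z | ‖z‖ < 1 ∧ Gz κ M z + 2 * κ ∈ slitPlane}

/-- `ψ`, the principal square root of `Gz + 2κ`. -/
noncomputable def Gp (κ : ℝ) (M : SU) (z : ℂ) : ℂ := exp (log (Gz κ M z + 2 * κ) / 2)

/-- `ξ(z)`. -/
noncomputable def Gy (κ : ℝ) (M : SU) (z : ℂ) : ℂ := Gx κ (Gp κ M z)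

/-- The comparison map: `ξ(z) - κ conj ξ(z)`. -/
noncomputable def GT (κ : ℝ) (M : SU) (z : ℂ) : ℂ := Gs (-κ) (Gy κ M z)

/-- Continuous functions on the open set `U` which are absolutely continuous on almost all horizontal and
vertical segments of each closed rectangle in `U`, differentiable almost everywhere, with locally integrable
derivative. -/
structure GACL (U : Set ℂ) (G : ℂ → ℂ) : Prop where
  cont : ContinuousOn G U
  acl_h : ∀ a b c d : ℝ, a ≤ b → c ≤ d → (∀ x ∈ Icc a b, ∀ y ∈ Icc c d, (⟨x, y⟩ : ℂ) ∈ U) →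
    ∀ᵐ y : ℝ, y ∈ Icc c d → AbsolutelyContinuousOnInterval (fun x : ℝ => G ⟨x, y⟩) a b
  acl_v : ∀ a b c d : ℝ, a ≤ b → c ≤ d → (∀ x ∈ Icc a b, ∀ y ∈ Icc c d, (⟨x, y⟩ : ℂ) ∈ U) →
    ∀ᵐ x : ℝ, x ∈ Icc a b → AbsolutelyContinuousOnInterval (fun y : ℝ => G ⟨x, y⟩) c d
  diff : ∀ᵐ z : ℂ, z ∈ U → DifferentiableAt ℝ G z
  int : ∀ C : Set ℂ, C ⊆ U → IsCompact C → IntegrableOn (fun z => ‖fderiv ℝ G z‖) C

/-- The data of the Teichmueller problem: `e` is `K`-quasiconformal with identity boundary values,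
`M (e z0) = aa κ`, `M z0 = -b`, `aa κ ≤ b < 1`. -/
structure GD (κ K : ℝ) (M : SU) (e : Disc ≃ₜ Disc) : Prop where
  h0 : 0 < κ
  h1 : κ ≤ 1 / 10
  K1 : 1 ≤ K
  qc : IsQC K e
  bd : IdBdry e
  pt : ∃ (z0 : Disc) (b : ℝ), aa κ ≤ b ∧ b < 1 ∧ M.app z0 = -(b : ℂ) ∧ M.app (e z0) = aa κ

/-- `G` is a continuous square root of `Gz κ M (e z) - 2κ`. -/
structure GG (κ : ℝ) (M : SU) (e : Disc ≃ₜ Disc) (G : ℂ → ℂ) : Prop where
  cont : ContinuousOn G (GU κ M)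
  sq : ∀ z ∈ GU κ M, G z ^ 2 = Gz κ M (ext e z) - 2 * κ

/-- A smooth step: `0` for `t ≤ 1`, `1` for `t ≥ 2`. -/
noncomputable def Gst (t : ℝ) : ℝ := Real.smoothTransition (t - 1)

/-- Cut-off functions in the half disc. -/
noncomputable def Gc (n : ℕ) (ξ : ℂ) : ℝ := Gst (n * ξ.re) * Gst (n * (1 - normSq ξ))

open Classical in
/-- The test vector fields `χ(ψ) i conj(ψ')`. -/
noncomputable def GX (κ : ℝ) (M : SU) (n : ℕ) (z : ℂ) : ℂ :=
  if z ∈ GU κ M then (Gc n (Gy κ M z) : ℂ) * (I * conj (deriv (Gp κ M) z)) else 0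

/-- The divergence of a vector field. -/
noncomputable def Gdiv (X : ℂ → ℂ) (z : ℂ) : ℝ := (fderiv ℝ X z 1).re + (fderiv ℝ X z I).im

end Pool.Agent.Lib.H11Q
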