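import Pool.Agent.Lib.H11Q.G00

set_option autoImplicit false

namespace Pool.Agent.Lib.H11Q

open Complex Set MeasureTheory
open scoped ComplexConjugate Topology

/-! G01 (S/M): integration by parts for an absolutely continuous function. -/

theorem g01_comp {F : ℝ → ℂ} {a b : ℝ} {L : ℂ → ℝ} (hL : ∀ u v, dist (L u) (L v) ≤ dist u v)
    (hF : AbsolutelyContinuousOnInterval F a b) : AbsolutelyContinuousOnInterval (fun x => L (F x)) a b := by
  rw [absolutelyContinuousOnInterval_iff] at hF ⊢
  intro ε hε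
  obtain ⟨δ, hδ, h⟩ := hF ε hε
  exact ⟨δ, hδ, fun E hE hs => lt_of_le_of_lt (Finset.sum_le_sum fun i _ => hL _ _) (h E hE hs)⟩

theorem g01_int {φ g : ℝ → ℝ} {a b : ℝ} (hφ : AbsolutelyContinuousOnInterval φ a b)
    (hg : AbsolutelyContinuousOnInterval g a b) :
    IntervalIntegrable (fun x => deriv φ x * g x + φ x * deriv g x) volume a b :=
  (hφ.intervalIntegrable_deriv.mul_continuousOn hg.continuousOn).add
    (hg.intervalIntegrable_deriv.continuousOn_mul hφ.continuousOn)

theorem g01_ofReal {f : ℝ → ℝ} {a b : ℝ} (h : IntervalIntegrable f volume a b) :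
    IntervalIntegrable (fun x => (f x : ℂ)) volume a b :=
  ⟨Integrable.ofReal h.1, Integrable.ofReal h.2⟩

/-- `P x := φ x • F x` is absolutely continuous (`φ` is `C^1`: `ContDiffOn.absolutelyContinuousOnInterval`, then
`AbsolutelyContinuousOnInterval.smul`), so are `Re P`, `Im P` (`‖Re u - Re v‖ ≤ ‖u - v‖`, from the definition
`absolutelyContinuousOnInterval_iff`), `deriv (Re P) x = Re (φ' F + φ F')` for almost every `x` of `[a, b]`, and
`AbsolutelyContinuousOnInterval.integral_deriv_eq_sub` gives `0` for both parts (`intervalIntegrable_deriv` for the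
integrability; the integral of a complex function by its real and imaginary parts). -/
theorem G01_ibp {F F' : ℝ → ℂ} {φ φ' : ℝ → ℝ} {a b : ℝ} (hab : a ≤ b)
    (hF : AbsolutelyContinuousOnInterval F a b) (hd : ∀ᵐ x : ℝ, x ∈ Icc a b → HasDerivAt F (F' x) x)
    (hφ : ∀ x, HasDerivAt φ (φ' x) x) (hφ' : Continuous φ') (h0 : φ a = 0) (h1 : φ b = 0) :
    ∫ x in a..b, ((φ' x : ℂ) * F x + (φ x : ℂ) * F' x) = 0 := by
  have hφac : AbsolutelyContinuousOnInterval φ a b := by
    refine ContDiffOn.absolutelyContinuousOnInterval (ContDiff.contDiffOn ?_)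
    refine contDiff_one_iff_deriv.2 ⟨fun x => (hφ x).differentiableAt, ?_⟩
    have e : deriv φ = φ' := funext fun x => (hφ x).deriv
    rw [e]
    exact hφ'
  have hr := g01_comp (L := fun z => z.re) (fun u v => by
    rw [Real.dist_eq, Complex.dist_eq, ← Complex.sub_re]
    exact Complex.abs_re_le_norm _) hF
  have hi := g01_comp (L := fun z => z.im) (fun u v => by
    rw [Real.dist_eq, Complex.dist_eq, ← Complex.sub_im]
    exact Complex.abs_im_le_norm _) hF
  have r0 := hφac.integral_deriv_mul_eq_sub hr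
  have i0 := hφac.integral_deriv_mul_eq_sub hi
  rw [h0, h1, zero_mul, zero_mul, sub_zero] at r0 i0
  have hae : ∀ᵐ x : ℝ, x ∈ uIoc a b → ((φ' x : ℂ) * F x + (φ x : ℂ) * F' x) =
      ((deriv φ x * (F x).re + φ x * deriv (fun t => (F t).re) x : ℝ) : ℂ) +
        ((deriv φ x * (F x).im + φ x * deriv (fun t => (F t).im) x : ℝ) : ℂ) * I := by
    filter_upwards [hd] with x hx hxm
    rw [uIoc_of_le hab] at hxm
    have hx' := hx ⟨hxm.1.le, hxm.2⟩
    have h2 : deriv (fun t => (F t).re) x = (F' x).re :=
      (Complex.reCLM.hasFDerivAt.comp_hasDerivAt x hx').deriv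
    have h3 : deriv (fun t => (F t).im) x = (F' x).im :=
      (Complex.imCLM.hasFDerivAt.comp_hasDerivAt x hx').deriv
    rw [h2, h3, (hφ x).deriv]
    apply Complex.ext <;> simp
  rw [intervalIntegral.integral_congr_ae hae, intervalIntegral.integral_add (g01_ofReal (g01_int hφac hr))
    ((g01_ofReal (g01_int hφac hi)).mul_const I), intervalIntegral.integral_mul_const, intervalIntegral.integral_ofReal,
    intervalIntegral.integral_ofReal]
  rw [r0, i0]
  simp

end Pool.Agent.Lib.H11Q
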