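import Pool.Agent.Lib.H11Q.G01

set_option autoImplicit false

namespace Pool.Agent.Lib.H11Q

open Complex Set MeasureTheory
open scoped ComplexConjugate Topology

/-! G02 (M): integration by parts in the horizontal direction on a rectangle. -/

theorem g02_mk (x y : ℝ) : (⟨x, y⟩ : ℂ) = (x : ℂ) + (⟨0, y⟩ : ℂ) := by
  apply Complex.ext <;> simp

theorem g02_line (x y : ℝ) : HasDerivAt (fun x : ℝ => (⟨x, y⟩ : ℂ)) 1 x := by
  have h : (fun x : ℝ => (⟨x, y⟩ : ℂ)) = fun x : ℝ => (x : ℂ) + (⟨0, y⟩ : ℂ) := by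
    funext x
    exact g02_mk x y
  rw [h]
  exact (Complex.ofRealCLM.hasDerivAt (x := x)).add_const _

theorem g02_lineC (y : ℝ) : Continuous (fun x : ℝ => (⟨x, y⟩ : ℂ)) :=
  continuous_iff_continuousAt.2 fun x => (g02_line x y).continuousAt

theorem g02_out {φ : ℂ → ℝ} {z : ℂ} (h : z ∉ tsupport φ) : φ z = 0 ∧ fderiv ℝ φ z = 0 :=
  ⟨image_eq_zero_of_notMem_tsupport h, image_eq_zero_of_notMem_tsupport fun h2 => h (tsupport_fderiv_subset ℝ h2)⟩

theorem g02_int {G : ℂ → ℂ} {a b c d : ℝ} (hc : ContinuousOn G (Icc a b ×ℂ Icc c d))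
    (hi : IntegrableOn (fun z => ‖fderiv ℝ G z‖) (Icc a b ×ℂ Icc c d))
    {φ : ℂ → ℝ} (hφ : ContDiff ℝ 1 φ) (hs : tsupport φ ⊆ Ioo a b ×ℂ Ioo c d) :
    Integrable fun z => (((fderiv ℝ φ z 1 : ℝ) : ℂ) * G z + (φ z : ℂ) * fderiv ℝ G z 1) := by
  have hK : IsCompact (Icc a b ×ℂ Icc c d) := isCompact_Icc.reProdIm isCompact_Icc
  have hsub : Ioo a b ×ℂ Ioo c d ⊆ Icc a b ×ℂ Icc c d := fun z hz =>
    ⟨Ioo_subset_Icc_self hz.1, Ioo_subset_Icc_self hz.2⟩
  have hsupp : Function.support (fun z => (((fderiv ℝ φ z 1 : ℝ) : ℂ) * G z + (φ z : ℂ) * fderiv ℝ G z 1)) ⊆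
      Icc a b ×ℂ Icc c d := by
    intro z hz
    by_contra h
    have h1 := g02_out (φ := φ) (z := z) fun h2 => h (hsub (hs h2))
    refine hz ?_
    simp only [h1.1, h1.2]
    simp
  rw [← integrableOn_iff_integrable_of_support_subset hsupp]
  have hφ1 : Continuous fun z => fderiv ℝ φ z 1 := by
    have := hφ.continuous_fderiv (by norm_num)
    fun_prop
  have h1 : IntegrableOn (fun z => ((fderiv ℝ φ z 1 : ℝ) : ℂ) * G z) (Icc a b ×ℂ Icc c d) := by
    refine ContinuousOn.integrableOn_compact hK ?_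
    exact (Complex.continuous_ofReal.comp hφ1).continuousOn.mul hc
  obtain ⟨C, hC⟩ := hK.exists_bound_of_continuousOn (f := φ) hφ.continuous.continuousOn
  have h2 : IntegrableOn (fun z => (φ z : ℂ) * fderiv ℝ G z 1) (Icc a b ×ℂ Icc c d) := by
    refine Integrable.mono' (hi.const_mul C) ?_ ?_
    · exact ((Complex.continuous_ofReal.comp hφ.continuous).measurable.mul
        (measurable_fderiv_apply_const ℝ G 1)).aestronglyMeasurable
    · filter_upwards [ae_restrict_mem hK.measurableSet] with z hz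
      rw [norm_mul, Complex.norm_real]
      have h3 : ‖fderiv ℝ G z 1‖ ≤ ‖fderiv ℝ G z‖ := by
        have := (fderiv ℝ G z).le_opNorm 1
        simpa using this
      exact mul_le_mul (hC z hz) h3 (norm_nonneg _) ((norm_nonneg _).trans (hC z hz))
  exact h1.add h2

/-- The integrand is zero outside the open rectangle.  It is integrable: the first term is continuous with compact
support (extended by zero), the second is bounded by `sup |φ| * ‖fderiv G‖` on the rectangle (measurable: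
`measurable_fderiv`).  Fubini in the coordinates `z = ⟨x, y⟩` (`Complex.volume_preserving_equiv_real_prod.symm`,
`integral_prod_symm`): it is enough that for almost every `y` the inner integral over `x` is zero.  For `y ∉ [c, d]` the
integrand is zero.  For almost every `y ∈ [c, d]`: `x ↦ G ⟨x, y⟩` is absolutely continuous on `[a, b]` and for almost
every `x ∈ [a, b]` it has the derivative `fderiv ℝ G ⟨x, y⟩ 1` (`Measure.ae_ae_of_ae_prod`, chain rule with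
`x ↦ (⟨x, y⟩ : ℂ)`); use `G01_ibp` with `φ ⟨x, y⟩`, which vanishes outside `(a, b)`
(`intervalIntegral.integral_of_le`, `setIntegral_eq_integral_of_forall_compl_eq_zero`). -/
theorem G02_rect {G : ℂ → ℂ} {a b c d : ℝ} (hab : a ≤ b) (hcd : c ≤ d)
    (hc : ContinuousOn G (Icc a b ×ℂ Icc c d))
    (hac : ∀ᵐ y : ℝ, y ∈ Icc c d → AbsolutelyContinuousOnInterval (fun x : ℝ => G ⟨x, y⟩) a b)
    (hd : ∀ᵐ z : ℂ, z ∈ Icc a b ×ℂ Icc c d → DifferentiableAt ℝ G z)
    (hi : IntegrableOn (fun z => ‖fderiv ℝ G z‖) (Icc a b ×ℂ Icc c d))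
    {φ : ℂ → ℝ} (hφ : ContDiff ℝ 1 φ) (hs : tsupport φ ⊆ Ioo a b ×ℂ Ioo c d) :
    ∫ z, (((fderiv ℝ φ z 1 : ℝ) : ℂ) * G z + (φ z : ℂ) * fderiv ℝ G z 1) = 0 := by
  have hint := g02_int hc hi hφ hs
  set W : ℂ → ℂ := fun z => (((fderiv ℝ φ z 1 : ℝ) : ℂ) * G z + (φ z : ℂ) * fderiv ℝ G z 1) with hW
  have hW0 : ∀ x y : ℝ, (x ∉ Ioo a b ∨ y ∉ Ioo c d) → W ⟨x, y⟩ = 0 := by
    intro x y hxy
    have h1 := g02_out (φ := φ) (z := (⟨x, y⟩ : ℂ)) fun h2 => by
      have h3 := hs h2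
      rcases hxy with h4 | h4
      · exact h4 h3.1
      · exact h4 h3.2
    simp only [hW, h1.1, h1.2]
    simp
  have hmp := Complex.volume_preserving_equiv_real_prod.symm
  have h1 : ∫ z, W z = ∫ p : ℝ × ℝ, W ⟨p.1, p.2⟩ := by
    rw [← hmp.integral_comp' (g := W)]
    rfl
  have hint2 : Integrable (fun p : ℝ × ℝ => W ⟨p.1, p.2⟩) := by
    have := hmp.integrable_comp_of_integrable hint
    exact this
  have hd2 : ∀ᵐ y : ℝ, ∀ᵐ x : ℝ, (⟨x, y⟩ : ℂ) ∈ Icc a b ×ℂ Icc c d → DifferentiableAt ℝ G ⟨x, y⟩ := by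
    have h2 : ∀ᵐ p : ℝ × ℝ, (⟨p.1, p.2⟩ : ℂ) ∈ Icc a b ×ℂ Icc c d → DifferentiableAt ℝ G ⟨p.1, p.2⟩ :=
      hmp.quasiMeasurePreserving.ae hd
    have h3 : ∀ᵐ p : ℝ × ℝ, (⟨p.2, p.1⟩ : ℂ) ∈ Icc a b ×ℂ Icc c d → DifferentiableAt ℝ G ⟨p.2, p.1⟩ :=
      (Measure.measurePreserving_swap (μ := (volume : Measure ℝ)) (ν := (volume : Measure ℝ))).quasiMeasurePreserving.ae h2
    exact Measure.ae_ae_of_ae_prod h3
  rw [h1]
  have h4 : ∫ p : ℝ × ℝ, W ⟨p.1, p.2⟩ = ∫ y : ℝ, ∫ x : ℝ, W ⟨x, y⟩ :=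
    integral_prod_symm (fun p : ℝ × ℝ => W ⟨p.1, p.2⟩) hint2
  rw [h4]
  have h5 : ∀ᵐ y : ℝ, ∫ x : ℝ, W ⟨x, y⟩ = 0 := by
    filter_upwards [hac, hd2] with y hy1 hy2
    by_cases hy : y ∈ Ioo c d
    · have hyc := Ioo_subset_Icc_self hy
      have h6 : ∫ x : ℝ, W ⟨x, y⟩ = ∫ x in a..b, W ⟨x, y⟩ := by
        rw [intervalIntegral.integral_of_le hab, setIntegral_eq_integral_of_forall_compl_eq_zero]
        intro x hx
        exact hW0 x y (Or.inl fun h7 => hx (Ioo_subset_Ioc_self h7))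
      rw [h6]
      have hφ1 : Continuous (fderiv ℝ φ) := hφ.continuous_fderiv (by norm_num)
      have h7 : ∀ x : ℝ, x ∉ Ioo a b → φ ⟨x, y⟩ = 0 := fun x hx =>
        (g02_out fun h2 => hx (hs h2).1).1
      refine G01_ibp (F := fun x : ℝ => G ⟨x, y⟩) (F' := fun x => fderiv ℝ G ⟨x, y⟩ 1)
        (φ := fun x : ℝ => φ ⟨x, y⟩) (φ' := fun x => fderiv ℝ φ ⟨x, y⟩ 1) hab (hy1 hyc) ?_ ?_ ?_ (h7 a (by simp))
        (h7 b (by simp))
      · filter_upwards [hy2] with x hx hxab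
        have h8 := (hx ⟨hxab, hyc⟩).hasFDerivAt
        exact h8.comp_hasDerivAt x (g02_line x y)
      · intro x
        have h8 := (hφ.differentiable (by norm_num) (⟨x, y⟩ : ℂ)).hasFDerivAt
        exact h8.comp_hasDerivAt x (g02_line x y)
      · exact (hφ1.comp (g02_lineC y)).clm_apply continuous_const
    · have h6 : (fun x : ℝ => W ⟨x, y⟩) = fun _ => 0 := by
        funext x
        exact hW0 x y (Or.inr hy)
      rw [h6, integral_zero]
  rw [integral_congr_ae h5, integral_zero]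

end Pool.Agent.Lib.H11Q
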