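import Pool.Agent.Lib.H11Q.G01

set_option autoImplicit false

namespace Pool.Agent.Lib.H11Q

open Complex Set MeasureTheory
open scoped ComplexConjugate Topology

/-! G03 (M): integration by parts in the vertical direction on a rectangle. -/

theorem g03_mk (x y : ℝ) : HasDerivAt (fun y : ℝ => (⟨x, y⟩ : ℂ)) I y := by
  have h1 : (fun y : ℝ => (⟨x, y⟩ : ℂ)) = fun y : ℝ => (x : ℂ) + (y : ℂ) * I := by
    funext y
    exact Complex.mk_eq_add_mul_I x y
  rw [h1]
  have h2 : HasDerivAt (fun y : ℝ => (y : ℂ)) 1 y := Complex.ofRealCLM.hasDerivAt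
  have h3 := (h2.mul_const I).const_add (x : ℂ)
  rwa [one_mul] at h3

theorem g03_comp {E : Type} [NormedAddCommGroup E] [NormedSpace ℝ E] {f : ℂ → E} {x y : ℝ} (h : DifferentiableAt ℝ f ⟨x, y⟩) :
    HasDerivAt (fun y : ℝ => f ⟨x, y⟩) (fderiv ℝ f ⟨x, y⟩ I) y :=
  HasFDerivAt.comp_hasDerivAt (l := f) y h.hasFDerivAt (g03_mk x y)

theorem g03_zero {φ : ℂ → ℝ} {U : Set ℂ} (hs : tsupport φ ⊆ U) {z : ℂ} (hz : z ∉ U) : φ z = 0 ∧ fderiv ℝ φ z = 0 := by
  have h1 : z ∉ tsupport φ := fun h => hz (hs h)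
  refine ⟨image_eq_zero_of_notMem_tsupport h1, ?_⟩
  exact image_eq_zero_of_notMem_tsupport fun h => h1 (tsupport_fderiv_subset ℝ h)

/-- As `G02_rect` (see the docstring in `G02.lean`) with the two coordinates exchanged: for almost every
`x ∈ [a, b]` the function `y ↦ G ⟨x, y⟩` is absolutely continuous on `[c, d]` and has for almost every `y` the derivative
`fderiv ℝ G ⟨x, y⟩ I`; `G01_ibp`; `integral_prod`. -/
theorem G03_rect {G : ℂ → ℂ} {a b c d : ℝ} (hab : a ≤ b) (hcd : c ≤ d)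
    (hc : ContinuousOn G (Icc a b ×ℂ Icc c d))
    (hac : ∀ᵐ x : ℝ, x ∈ Icc a b → AbsolutelyContinuousOnInterval (fun y : ℝ => G ⟨x, y⟩) c d)
    (hd : ∀ᵐ z : ℂ, z ∈ Icc a b ×ℂ Icc c d → DifferentiableAt ℝ G z)
    (hi : IntegrableOn (fun z => ‖fderiv ℝ G z‖) (Icc a b ×ℂ Icc c d))
    {φ : ℂ → ℝ} (hφ : ContDiff ℝ 1 φ) (hs : tsupport φ ⊆ Ioo a b ×ℂ Ioo c d) :
    ∫ z, (((fderiv ℝ φ z I : ℝ) : ℂ) * G z + (φ z : ℂ) * fderiv ℝ G z I) = 0 := by
  obtain ⟨H, hH⟩ : ∃ H : ℂ → ℂ, H = fun z => (((fderiv ℝ φ z I : ℝ) : ℂ) * G z + (φ z : ℂ) * fderiv ℝ G z I) := ⟨_, rfl⟩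
  have hH0 : ∀ z, z ∉ Ioo a b ×ℂ Ioo c d → H z = 0 := fun z hz => by
    obtain ⟨h1, h2⟩ := g03_zero hs hz
    rw [hH]
    show (((fderiv ℝ φ z I : ℝ) : ℂ) * G z + (φ z : ℂ) * fderiv ℝ G z I) = 0
    rw [h1, h2]
    simp
  have hsub : Ioo a b ×ℂ Ioo c d ⊆ Icc a b ×ℂ Icc c d := fun z hz => by
    rw [mem_reProdIm] at hz ⊢
    exact ⟨Ioo_subset_Icc_self hz.1, Ioo_subset_Icc_self hz.2⟩
  have hcomp : IsCompact (Icc a b ×ℂ Icc c d) := isCompact_Icc.reProdIm isCompact_Icc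
  have hfd : Continuous fun z : ℂ => fderiv ℝ φ z I :=
    (hφ.continuous_fderiv (by norm_num)).clm_apply continuous_const
  have hint : Integrable H := by
    rw [← integrableOn_iff_integrable_of_support_subset (s := Icc a b ×ℂ Icc c d)]
    · rw [hH]
      refine Integrable.add ?_ ?_
      · exact ((Complex.continuous_ofReal.comp hfd).continuousOn.mul hc).integrableOn_compact hcomp
      · obtain ⟨M, hM⟩ := hcomp.exists_bound_of_continuousOn hφ.continuous.continuousOn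
        refine Integrable.mono' (hi.const_mul M) ?_ ?_
        · exact ((Complex.continuous_ofReal.comp hφ.continuous).measurable.mul
            (measurable_fderiv_apply_const ℝ G I)).aestronglyMeasurable
        · refine (ae_restrict_iff' hcomp.measurableSet).2 (Filter.Eventually.of_forall fun z hz => ?_)
          have h1 := hM z hz
          rw [norm_mul, Complex.norm_real]
          have h2 : ‖fderiv ℝ G z I‖ ≤ ‖fderiv ℝ G z‖ := by
            have h3 := (fderiv ℝ G z).le_opNorm I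
            rwa [norm_I, mul_one] at h3
          exact mul_le_mul h1 h2 (norm_nonneg _) ((norm_nonneg _).trans h1)
    · intro z hz
      by_contra hcon
      exact hz (hH0 z fun h => hcon (hsub h))
  have hmp := Complex.volume_preserving_equiv_real_prod.symm
  have hme : MeasurableEmbedding Complex.measurableEquivRealProd.symm := Complex.measurableEquivRealProd.symm.measurableEmbedding
  have hint2 : Integrable (fun p : ℝ × ℝ => H ⟨p.1, p.2⟩) := (hmp.integrable_comp_emb hme).2 hint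
  have e1 : ∫ z, H z = ∫ p : ℝ × ℝ, H ⟨p.1, p.2⟩ := (hmp.integral_comp hme H).symm
  have e2 : ∫ z, (((fderiv ℝ φ z I : ℝ) : ℂ) * G z + (φ z : ℂ) * fderiv ℝ G z I) = ∫ z, H z := by rw [hH]
  rw [e2, e1, Measure.volume_eq_prod, integral_prod _ (by rwa [← Measure.volume_eq_prod])]
  have hd2 : ∀ᵐ p : ℝ × ℝ, (⟨p.1, p.2⟩ : ℂ) ∈ Icc a b ×ℂ Icc c d → DifferentiableAt ℝ G ⟨p.1, p.2⟩ :=
    hmp.quasiMeasurePreserving.ae hd
  rw [Measure.volume_eq_prod] at hd2
  have hd3 := Measure.ae_ae_of_ae_prod hd2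
  have key : ∀ᵐ x : ℝ, ∫ y : ℝ, H ⟨x, y⟩ = 0 := by
    filter_upwards [hac, hd3] with x hx1 hx2
    by_cases hx : x ∈ Icc a b
    · have h1 : ∀ᵐ y : ℝ, y ∈ Icc c d → HasDerivAt (fun y : ℝ => G ⟨x, y⟩) (fderiv ℝ G ⟨x, y⟩ I) y := by
        filter_upwards [hx2] with y hy hyc
        exact g03_comp (hy (by
          rw [mem_reProdIm]
          exact ⟨hx, hyc⟩))
      have h2 : ∀ y : ℝ, HasDerivAt (fun y : ℝ => φ ⟨x, y⟩) (fderiv ℝ φ ⟨x, y⟩ I) y := fun y =>
        g03_comp ((hφ.differentiable (by norm_num)) _)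
      have h3 : Continuous fun y : ℝ => fderiv ℝ φ ⟨x, y⟩ I := by
        refine hfd.comp ?_
        exact continuous_iff_continuousAt.2 fun y => (g03_mk x y).continuousAt
      have h4 : ∀ y, y ∉ Ioo c d → φ ⟨x, y⟩ = 0 := fun y hy => (g03_zero hs (z := ⟨x, y⟩) fun h => by
        rw [mem_reProdIm] at h
        exact hy h.2).1
      have h5 := G01_ibp hcd (hx1 hx) h1 h2 h3 (h4 c (by simp)) (h4 d (by simp))
      rw [intervalIntegral.integral_of_le hcd] at h5
      rw [← setIntegral_eq_integral_of_forall_compl_eq_zero (s := Ioc c d)]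
      · rw [hH]
        exact h5
      · intro y hy
        refine hH0 _ fun h => hy ?_
        rw [mem_reProdIm] at h
        exact ⟨h.2.1, h.2.2.le⟩
    · have h1 : ∀ y : ℝ, H ⟨x, y⟩ = 0 := fun y => hH0 _ fun h => hx (by
        rw [mem_reProdIm] at h
        exact Ioo_subset_Icc_self h.1)
      simp only [h1, integral_zero]
  rw [integral_congr_ae (g := fun _ => (0 : ℂ)) key, integral_zero]

end Pool.Agent.Lib.H11Q
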