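import Pool.Agent.Lib.H11Q.G00

set_option autoImplicit false

namespace Pool.Agent.Lib.H11Q

open Complex Set MeasureTheory
open scoped ComplexConjugate Topology

/-! G04 (M): a smooth partition of unity subordinate to rectangles. -/

theorem g04_sq {U : Set ℂ} {z : ℂ} (hU : U ∈ 𝓝 z) :
    ∃ r : ℝ, 0 < r ∧ Icc (z.re - r) (z.re + r) ×ℂ Icc (z.im - r) (z.im + r) ⊆ U := by
  obtain ⟨ε, hε, h⟩ := Metric.mem_nhds_iff.1 hU
  refine ⟨ε / 3, by positivity, fun w hw => h ?_⟩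
  obtain ⟨h1, h2⟩ := Complex.mem_reProdIm.1 hw
  rw [Metric.mem_ball, Complex.dist_eq]
  have h3 : |(w - z).re| ≤ ε / 3 := by
    rw [Complex.sub_re, abs_le]
    constructor <;> linarith [h1.1, h1.2]
  have h4 : |(w - z).im| ≤ ε / 3 := by
    rw [Complex.sub_im, abs_le]
    constructor <;> linarith [h2.1, h2.2]
  have h5 := Complex.norm_le_abs_re_add_abs_im (w - z)
  linarith

/-- Each point `z` of `C` has a closed square `Q_z ⊆ U` with centre `z` and half side `r_z > 0`; finitely many of the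
open squares cover `C` (compactness).  `SmoothPartitionOfUnity.exists_isSubordinate` (model `𝓘(ℝ, ℂ)`, the closed set `C`, the
finite family of open squares) gives smooth functions with `tsupport` in the open squares and sum `1` on `C` (the finsum
over a finite type is the sum).  (Or: smooth bump functions `f_i` with `f_i = 1` on smaller squares which
still cover `C`, and `φ_i = f_i ∏_(j < i) (1 - f_j)`, so `1 - ∑ φ_i = ∏ (1 - f_i) = 0` on `C`; for one square take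
a product of two one-dimensional bumps.) -/
theorem G04_part {U C : Set ℂ} (hU : IsOpen U) (hC : IsCompact C) (hCU : C ⊆ U) :
    ∃ (n : ℕ) (φ : Fin n → ℂ → ℝ) (a b c d : Fin n → ℝ),
      (∀ i, a i ≤ b i ∧ c i ≤ d i ∧ ContDiff ℝ 1 (φ i) ∧ tsupport (φ i) ⊆ Ioo (a i) (b i) ×ℂ Ioo (c i) (d i) ∧
        (Icc (a i) (b i) ×ℂ Icc (c i) (d i)) ⊆ U) ∧ ∀ z ∈ C, ∑ i, φ i z = 1 := by
  classical
  have hex : ∀ z : ℂ, ∃ r : ℝ, 0 < r ∧ (z ∈ C → Icc (z.re - r) (z.re + r) ×ℂ Icc (z.im - r) (z.im + r) ⊆ U) := by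
    intro z
    by_cases hz : z ∈ C
    · obtain ⟨r, hr, h⟩ := g04_sq (hU.mem_nhds (hCU hz))
      exact ⟨r, hr, fun _ => h⟩
    · exact ⟨1, one_pos, fun h => absurd h hz⟩
  choose r hr hrU using hex
  have hopen : ∀ z : ℂ, IsOpen (Ioo (z.re - r z) (z.re + r z) ×ℂ Ioo (z.im - r z) (z.im + r z)) := fun z =>
    isOpen_Ioo.reProdIm isOpen_Ioo
  have hmem : ∀ z : ℂ, z ∈ Ioo (z.re - r z) (z.re + r z) ×ℂ Ioo (z.im - r z) (z.im + r z) := by
    intro z
    have := hr z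
    refine Complex.mem_reProdIm.2 ⟨⟨?_, ?_⟩, ?_, ?_⟩ <;> linarith
  obtain ⟨t, htC, ht⟩ := hC.elim_nhds_subcover
    (fun z : ℂ => Ioo (z.re - r z) (z.re + r z) ×ℂ Ioo (z.im - r z) (z.im + r z)) (fun z _ => (hopen z).mem_nhds (hmem z))
  obtain ⟨p, hp⟩ : ∃ p : Fin t.card → ℂ, (∀ i, p i ∈ C) ∧ ∀ z ∈ t, ∃ i, p i = z := by
    refine ⟨fun i => (t.equivFin.symm i : ℂ), fun i => htC _ (t.equivFin.symm i).2, fun z hz => ⟨t.equivFin ⟨z, hz⟩, ?_⟩⟩
    simp
  obtain ⟨f, hf⟩ := SmoothPartitionOfUnity.exists_isSubordinate (modelWithCornersSelf ℝ ℂ) hC.isClosed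
    (fun i : Fin t.card => Ioo ((p i).re - r (p i)) ((p i).re + r (p i)) ×ℂ Ioo ((p i).im - r (p i)) ((p i).im + r (p i)))
    (fun i => hopen (p i)) (by
      intro z hz
      obtain ⟨w, hw, hzw⟩ := mem_iUnion₂.1 (ht hz)
      obtain ⟨i, rfl⟩ := hp.2 w hw
      exact mem_iUnion.2 ⟨i, hzw⟩)
  refine ⟨t.card, fun i => f i, fun i => (p i).re - r (p i), fun i => (p i).re + r (p i), fun i => (p i).im - r (p i),
    fun i => (p i).im + r (p i), fun i => ⟨?_, ?_, ?_, hf i, hrU _ (hp.1 i)⟩, fun z hz => ?_⟩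
  · have := hr (p i)
    linarith
  · have := hr (p i)
    linarith
  · exact (f i).contMDiff.contDiff.of_le (by exact_mod_cast le_top)
  · have h := f.sum_eq_one hz
    rwa [finsum_eq_sum_of_fintype] at h

end Pool.Agent.Lib.H11Q
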