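import Pool.Agent.Lib.H11Q.G02
import Pool.Agent.Lib.H11Q.G03
import Pool.Agent.Lib.H11Q.G04

set_option autoImplicit false

namespace Pool.Agent.Lib.H11Q

open Complex Set MeasureTheory
open scoped ComplexConjugate Topology

/-! G05 (M): the divergence theorem for `GACL` functions and compactly supported vector fields. -/

theorem g05_int {U : Set ℂ} (hU : IsOpen U) {G : ℂ → ℂ} (hG : GACL U G) {φ : ℂ → ℝ} (hφ : ContDiff ℝ 1 φ)
    (hc : HasCompactSupport φ) (hs : tsupport φ ⊆ U) (v : ℂ) :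
    Integrable (fun z => ((fderiv ℝ φ z v : ℝ) : ℂ) * G z) ∧ Integrable (fun z => (φ z : ℂ) * fderiv ℝ G z v) := by
  constructor
  · have h1 : Function.support (fun z => ((fderiv ℝ φ z v : ℝ) : ℂ) * G z) ⊆ tsupport φ := by
      intro z hz
      by_contra hcon
      apply hz
      have h2 : fderiv ℝ φ z = 0 := by
        by_contra h3
        exact hcon (support_fderiv_subset ℝ h3)
      show ((fderiv ℝ φ z v : ℝ) : ℂ) * G z = 0
      rw [h2]
      simp
    have h2 : tsupport (fun z => ((fderiv ℝ φ z v : ℝ) : ℂ) * G z) ⊆ tsupport φ :=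
      closure_minimal h1 (isClosed_tsupport φ)
    have hcont : Continuous fun z => ((fderiv ℝ φ z v : ℝ) : ℂ) * G z := by
      refine continuous_of_tsupport fun z hz => ?_
      have hzU := hs (h2 hz)
      refine ContinuousAt.mul ?_ (hG.cont.continuousAt (hU.mem_nhds hzU))
      refine Complex.continuous_ofReal.continuousAt.comp ?_
      exact ((hφ.continuous_fderiv (by norm_num)).clm_apply continuous_const).continuousAt
    exact hcont.integrable_of_hasCompactSupport (hc.of_isClosed_subset (isClosed_tsupport _) h2)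
  · obtain ⟨B, hB⟩ := hc.exists_bound_of_continuous hφ.continuous
    have h1 : IntegrableOn (fun z => (φ z : ℂ) * fderiv ℝ G z v) (tsupport φ) := by
      refine Integrable.mono' ((hG.int (tsupport φ) hs hc).const_mul (B * ‖v‖)) ?_ ?_
      · refine Measurable.aestronglyMeasurable ?_
        exact (Complex.measurable_ofReal.comp hφ.continuous.measurable).mul (measurable_fderiv_apply_const ℝ G v)
      · refine Filter.Eventually.of_forall fun z => ?_
        rw [norm_mul, Complex.norm_real]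
        calc _ ≤ B * (‖fderiv ℝ G z‖ * ‖v‖) := mul_le_mul (hB z) (ContinuousLinearMap.le_opNorm _ _) (norm_nonneg _)
              ((norm_nonneg _).trans (hB z))
          _ = _ := by ring
    refine (integrableOn_iff_integrable_of_support_subset ?_).1 h1
    intro z hz
    refine subset_tsupport φ fun h0 => hz ?_
    show (φ z : ℂ) * fderiv ℝ G z v = 0
    rw [h0]
    simp

theorem g05_lin (L : ℂ →L[ℝ] ℂ) (w : ℂ) : L w = (w.re : ℂ) * L 1 + (w.im : ℂ) * L I := by
  have h1 : w = w.re • (1 : ℂ) + w.im • I := by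
    rw [real_smul, real_smul, mul_one]
    exact (re_add_im w).symm
  conv_lhs => rw [h1]
  rw [map_add, map_smul, map_smul, real_smul, real_smul]

/-- `Gdiv X * G` is continuous with compact support in `U` (`G` is continuous on `U`), so integrable;
`‖fderiv G z (X z)‖ ≤ sup ‖X‖ * ‖fderiv G z‖` on the compact set `tsupport X ⊆ U`, zero outside: integrable by
`hG.int` (measurable: `measurable_fderiv`).  Take `φ i` from `G04_part` with `C = tsupport X`.  Then
`X = ∑ φ i X`, and it is enough to prove the identity for `Y = φ i X` (`Gdiv` and the integrals are additive; at a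
point of `C` and outside `C` the sum `∑ φ i X` is `X` everywhere).  For `Y`:
`Gdiv Y = ∂_x (Re Y) + ∂_y (Im Y)`, `fderiv G z (Y z) = Re Y * fderiv G z 1 + Im Y * fderiv G z I`, so the integral is
the sum of `G02_rect` with `φ = Re Y` and `G03_rect` with `φ = Im Y` on the rectangle number `i` (`hG.acl_h`, `hG.acl_v`,
`hG.int` on the closed rectangle, which is compact). -/
theorem G05_field {U : Set ℂ} (hU : IsOpen U) {G X : ℂ → ℂ} (hG : GACL U G) (hX : ContDiff ℝ 1 X)
    (hc : HasCompactSupport X) (hs : tsupport X ⊆ U) :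
    Integrable (fun z => (Gdiv X z : ℂ) * G z) ∧ Integrable (fun z => fderiv ℝ G z (X z)) ∧
    ∫ z, ((Gdiv X z : ℂ) * G z + fderiv ℝ G z (X z)) = 0 := by
  set P : ℂ → ℝ := fun z => (X z).re with hP
  set Q : ℂ → ℝ := fun z => (X z).im with hQ
  have hPd : ContDiff ℝ 1 P := Complex.reCLM.contDiff.comp hX
  have hQd : ContDiff ℝ 1 Q := Complex.imCLM.contDiff.comp hX
  have hXd : ∀ z, DifferentiableAt ℝ X z := fun z => (hX.differentiable (by norm_num)) z
  have hP' : ∀ z v, fderiv ℝ P z v = (fderiv ℝ X z v).re := by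
    intro z v
    have := (Complex.reCLM.hasFDerivAt.comp z (hXd z).hasFDerivAt).fderiv
    show fderiv ℝ (Complex.reCLM ∘ X) z v = _
    rw [this]
    rfl
  have hQ' : ∀ z v, fderiv ℝ Q z v = (fderiv ℝ X z v).im := by
    intro z v
    have := (Complex.imCLM.hasFDerivAt.comp z (hXd z).hasFDerivAt).fderiv
    show fderiv ℝ (Complex.imCLM ∘ X) z v = _
    rw [this]
    rfl
  have hPs : tsupport P ⊆ tsupport X := by
    refine closure_mono fun z hz h0 => hz ?_
    show (X z).re = 0
    rw [h0]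
    rfl
  have hQs : tsupport Q ⊆ tsupport X := by
    refine closure_mono fun z hz h0 => hz ?_
    show (X z).im = 0
    rw [h0]
    rfl
  have hPc : HasCompactSupport P := hc.of_isClosed_subset (isClosed_tsupport _) hPs
  have hQc : HasCompactSupport Q := hc.of_isClosed_subset (isClosed_tsupport _) hQs
  obtain ⟨p1, p2⟩ := g05_int hU hG hPd hPc (hPs.trans hs) 1
  obtain ⟨q1, q2⟩ := g05_int hU hG hQd hQc (hQs.trans hs) I
  have e1 : (fun z => (Gdiv X z : ℂ) * G z) = fun z => ((fderiv ℝ P z 1 : ℝ) : ℂ) * G z + ((fderiv ℝ Q z I : ℝ) : ℂ) * G z := by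
    funext z
    unfold Gdiv
    rw [hP', hQ']
    push_cast
    ring
  have e2 : (fun z => fderiv ℝ G z (X z)) = fun z => (P z : ℂ) * fderiv ℝ G z 1 + (Q z : ℂ) * fderiv ℝ G z I := by
    funext z
    exact g05_lin _ _
  refine ⟨by rw [e1]; exact p1.add q1, by rw [e2]; exact p2.add q2, ?_⟩
  obtain ⟨n, φ, a, b, c, d, h1, h2⟩ := G04_part hU (show IsCompact (tsupport X) from hc) hs
  -- the pieces
  have hφP : ∀ i, ContDiff ℝ 1 fun z => φ i z * P z := fun i => (h1 i).2.2.1.mul hPd
  have hφQ : ∀ i, ContDiff ℝ 1 fun z => φ i z * Q z := fun i => (h1 i).2.2.1.mul hQd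
  have sP : ∀ i, tsupport (fun z => φ i z * P z) ⊆ tsupport (φ i) := fun i => tsupport_mul_subset_left
  have sQ : ∀ i, tsupport (fun z => φ i z * Q z) ⊆ tsupport (φ i) := fun i => tsupport_mul_subset_left
  have sP' : ∀ i, tsupport (fun z => φ i z * P z) ⊆ tsupport P := fun i => tsupport_mul_subset_right
  have sQ' : ∀ i, tsupport (fun z => φ i z * Q z) ⊆ tsupport Q := fun i => tsupport_mul_subset_right
  have cP : ∀ i, HasCompactSupport (fun z => φ i z * P z) := fun i =>
    hPc.of_isClosed_subset (isClosed_tsupport _) (sP' i)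
  have cQ : ∀ i, HasCompactSupport (fun z => φ i z * Q z) := fun i =>
    hQc.of_isClosed_subset (isClosed_tsupport _) (sQ' i)
  have hrect : ∀ i, IsCompact (Icc (a i) (b i) ×ℂ Icc (c i) (d i)) := fun i => isCompact_Icc.reProdIm isCompact_Icc
  have hmem : ∀ i, ∀ x ∈ Icc (a i) (b i), ∀ y ∈ Icc (c i) (d i), (⟨x, y⟩ : ℂ) ∈ U := fun i x hx y hy =>
    (h1 i).2.2.2.2 (by rw [mem_reProdIm]; exact ⟨hx, hy⟩)
  have hdiff : ∀ i, ∀ᵐ z : ℂ, z ∈ Icc (a i) (b i) ×ℂ Icc (c i) (d i) → DifferentiableAt ℝ G z := by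
    intro i
    filter_upwards [hG.diff] with z hz h3
    exact hz ((h1 i).2.2.2.2 h3)
  have r1 : ∀ i, ∫ z, (((fderiv ℝ (fun z => φ i z * P z) z 1 : ℝ) : ℂ) * G z + ((φ i z * P z : ℝ) : ℂ) * fderiv ℝ G z 1) = 0 := by
    intro i
    obtain ⟨k1, k2, k3, k4, k5⟩ := h1 i
    exact G02_rect k1 k2 (hG.cont.mono k5) (hG.acl_h _ _ _ _ k1 k2 (hmem i)) (hdiff i)
      (hG.int _ k5 (hrect i)) (hφP i) ((sP i).trans k4)
  have r2 : ∀ i, ∫ z, (((fderiv ℝ (fun z => φ i z * Q z) z I : ℝ) : ℂ) * G z + ((φ i z * Q z : ℝ) : ℂ) * fderiv ℝ G z I) = 0 := by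
    intro i
    obtain ⟨k1, k2, k3, k4, k5⟩ := h1 i
    exact G03_rect k1 k2 (hG.cont.mono k5) (hG.acl_v _ _ _ _ k1 k2 (hmem i)) (hdiff i)
      (hG.int _ k5 (hrect i)) (hφQ i) ((sQ i).trans k4)
  have i1 : ∀ i, Integrable fun z => (((fderiv ℝ (fun z => φ i z * P z) z 1 : ℝ) : ℂ) * G z + ((φ i z * P z : ℝ) : ℂ) * fderiv ℝ G z 1) := by
    intro i
    obtain ⟨k1, k2⟩ := g05_int hU hG (hφP i) (cP i) ((sP' i).trans (hPs.trans hs)) 1
    exact k1.add k2
  have i2 : ∀ i, Integrable fun z => (((fderiv ℝ (fun z => φ i z * Q z) z I : ℝ) : ℂ) * G z + ((φ i z * Q z : ℝ) : ℂ) * fderiv ℝ G z I) := by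
    intro i
    obtain ⟨k1, k2⟩ := g05_int hU hG (hφQ i) (cQ i) ((sQ' i).trans (hQs.trans hs)) I
    exact k1.add k2
  -- the sums
  have sumP : (fun z => ∑ i, φ i z * P z) = P := by
    funext z
    rw [← Finset.sum_mul]
    by_cases hz : z ∈ tsupport X
    · rw [h2 z hz, one_mul]
    · have h3 : P z = 0 := by
        show (X z).re = 0
        rw [image_eq_zero_of_notMem_tsupport hz]
        rfl
      rw [h3, mul_zero]
  have sumQ : (fun z => ∑ i, φ i z * Q z) = Q := by
    funext z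
    rw [← Finset.sum_mul]
    by_cases hz : z ∈ tsupport X
    · rw [h2 z hz, one_mul]
    · have h3 : Q z = 0 := by
        show (X z).im = 0
        rw [image_eq_zero_of_notMem_tsupport hz]
        rfl
      rw [h3, mul_zero]
  have dP : ∀ z v, ∑ i, fderiv ℝ (fun z => φ i z * P z) z v = fderiv ℝ P z v := by
    intro z v
    have h3 : fderiv ℝ (fun z => ∑ i, φ i z * P z) z = ∑ i, fderiv ℝ (fun z => φ i z * P z) z :=
      fderiv_fun_sum fun i _ => ((hφP i).differentiable (by norm_num)) z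
    rw [sumP] at h3
    rw [h3, ContinuousLinearMap.sum_apply]
  have dQ : ∀ z v, ∑ i, fderiv ℝ (fun z => φ i z * Q z) z v = fderiv ℝ Q z v := by
    intro z v
    have h3 : fderiv ℝ (fun z => ∑ i, φ i z * Q z) z = ∑ i, fderiv ℝ (fun z => φ i z * Q z) z :=
      fderiv_fun_sum fun i _ => ((hφQ i).differentiable (by norm_num)) z
    rw [sumQ] at h3
    rw [h3, ContinuousLinearMap.sum_apply]
  have e3 : ∀ z, (Gdiv X z : ℂ) * G z + fderiv ℝ G z (X z) =
      (∑ i, (((fderiv ℝ (fun z => φ i z * P z) z 1 : ℝ) : ℂ) * G z + ((φ i z * P z : ℝ) : ℂ) * fderiv ℝ G z 1)) +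
      ∑ i, (((fderiv ℝ (fun z => φ i z * Q z) z I : ℝ) : ℂ) * G z + ((φ i z * Q z : ℝ) : ℂ) * fderiv ℝ G z I) := by
    intro z
    rw [Finset.sum_add_distrib, Finset.sum_add_distrib, ← Finset.sum_mul, ← Finset.sum_mul, ← Finset.sum_mul, ← Finset.sum_mul,
      ← ofReal_sum, ← ofReal_sum, ← ofReal_sum, ← ofReal_sum, dP, dQ, congrFun sumP z, congrFun sumQ z]
    rw [congrFun e1 z, congrFun e2 z]
    ring
  simp_rw [e3]
  rw [integral_add (integrable_finset_sum _ fun i _ => i1 i) (integrable_finset_sum _ fun i _ => i2 i),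
    integral_finset_sum _ fun i _ => i1 i, integral_finset_sum _ fun i _ => i2 i]
  rw [Finset.sum_congr rfl fun i _ => r1 i, Finset.sum_congr rfl fun i _ => r2 i]
  simp

end Pool.Agent.Lib.H11Q
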