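import Pool.Agent.Lib.H11Q.G00

set_option autoImplicit false

namespace Pool.Agent.Lib.H11Q

open Complex Set MeasureTheory
open scoped ComplexConjugate Topology

/-! G07A (S/M): absolute continuity of a function which is locally Lipschitz as a function of an absolutely continuous one. -/

/-- `absolutelyContinuousOnInterval_iff` (the intervals of a family of total length `< min δ δ'` all have length
`< δ`, and their end points are in `uIcc a b`: definition of `disjWithin`); if `C ≤ 0` replace `C` by `max C 1`. -/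
theorem G07_ac {F G : ℝ → ℂ} {a b C δ : ℝ} (hδ : 0 < δ) (hF : AbsolutelyContinuousOnInterval F a b)
    (h : ∀ x ∈ uIcc a b, ∀ y ∈ uIcc a b, |x - y| < δ → ‖G x - G y‖ ≤ C * ‖F x - F y‖) :
    AbsolutelyContinuousOnInterval G a b := by
  rw [absolutelyContinuousOnInterval_iff] at hF ⊢
  intro ε hε
  have hC' : 0 < max C 1 := lt_of_lt_of_le one_pos (le_max_right _ _)
  obtain ⟨η, hη, h1⟩ := hF (ε / max C 1) (by positivity)
  refine ⟨min η δ, lt_min hη hδ, ?_⟩
  intro E hE hs
  have h2 := h1 E hE (lt_of_lt_of_le hs (min_le_left _ _))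
  have h3 : ∑ i ∈ Finset.range E.1, dist (G (E.2 i).1) (G (E.2 i).2) ≤
      ∑ i ∈ Finset.range E.1, max C 1 * dist (F (E.2 i).1) (F (E.2 i).2) := by
    apply Finset.sum_le_sum
    intro i hi
    have h4 : dist (E.2 i).1 (E.2 i).2 < δ := by
      apply lt_of_le_of_lt _ (lt_of_lt_of_le hs (min_le_right _ _))
      exact Finset.single_le_sum (f := fun i => dist (E.2 i).1 (E.2 i).2) (fun _ _ => dist_nonneg) hi
    rw [Real.dist_eq] at h4
    have h5 := h (E.2 i).1 (hE.1 i hi).1 (E.2 i).2 (hE.1 i hi).2 h4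
    rw [dist_eq_norm, dist_eq_norm]
    exact h5.trans (mul_le_mul_of_nonneg_right (le_max_left _ _) (norm_nonneg _))
  rw [← Finset.mul_sum] at h3
  calc ∑ i ∈ Finset.range E.1, dist (G (E.2 i).1) (G (E.2 i).2)
      ≤ max C 1 * ∑ i ∈ Finset.range E.1, dist (F (E.2 i).1) (F (E.2 i).2) := h3
    _ < max C 1 * (ε / max C 1) := by
        exact mul_lt_mul_of_pos_left h2 hC'
    _ = ε := by field_simp

end Pool.Agent.Lib.H11Q
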