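import Pool.Agent.Lib.H11Q.G00

set_option autoImplicit false

namespace Pool.Agent.Lib.H11Q

open Complex Set MeasureTheory
open scoped ComplexConjugate Topology

/-! G08A (M): the area inequality for injective maps which are differentiable almost everywhere. -/

/-- Let `S` be the set of the `z ∈ U` at which `G` is differentiable and the inequality holds; it is measurable
(`measurableSet_of_differentiableAt`, `measurable_fderiv`, `ContinuousLinearMap.continuous_det`) and almost all of `U`.  The integral over `U` is the one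
over `S`, it is at most `ofReal K * ∫⁻ z in S, ofReal |det|`, and this is `ofReal K * volume (G '' S)` by
`lintegral_abs_det_fderiv_eq_addHaar_image` (`HasFDerivAt.hasFDerivWithinAt`). -/
theorem G08_area {U : Set ℂ} (hU : MeasurableSet U) {G : ℂ → ℂ} (hinj : InjOn G U) {K : ℝ} (hK : 0 ≤ K)
    (h : ∀ᵐ z : ℂ, z ∈ U → DifferentiableAt ℝ G z ∧ ‖fderiv ℝ G z‖ ^ 2 ≤ K * (fderiv ℝ G z).det) :
    ∫⁻ z in U, ENNReal.ofReal (‖fderiv ℝ G z‖ ^ 2) ≤ ENNReal.ofReal K * volume (G '' U) := by
  obtain ⟨S, hS⟩ : ∃ S : Set ℂ, S = {z | z ∈ U ∧ DifferentiableAt ℝ G z} := ⟨_, rfl⟩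
  have hSU : S ⊆ U := by
    rw [hS]
    exact fun z hz => hz.1
  have hSm : MeasurableSet S := by
    rw [hS]
    exact hU.inter (measurableSet_of_differentiableAt ℝ G)
  have hUS : U =ᵐ[volume] S := by
    rw [ae_eq_set]
    constructor
    · have : ∀ᵐ z : ℂ, z ∉ U \ S := by
        filter_upwards [h] with z hz hzU
        refine hzU.2 ?_
        rw [hS]
        exact ⟨hzU.1, (hz hzU.1).1⟩
      rw [ae_iff] at this
      simpa only [not_not, ofPred_mem_eq] using this
    · rw [sdiff_eq_empty.2 hSU, measure_empty]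
  have e1 : ∫⁻ z in U, ENNReal.ofReal (‖fderiv ℝ G z‖ ^ 2) = ∫⁻ z in S, ENNReal.ofReal (‖fderiv ℝ G z‖ ^ 2) :=
    setLIntegral_congr hUS
  rw [e1]
  calc ∫⁻ z in S, ENNReal.ofReal (‖fderiv ℝ G z‖ ^ 2) ≤
      ∫⁻ z in S, ENNReal.ofReal K * ENNReal.ofReal |(fderiv ℝ G z).det| := by
        refine lintegral_mono_ae ?_
        rw [ae_restrict_iff' hSm]
        filter_upwards [h] with z hz hzS
        rw [← ENNReal.ofReal_mul hK]
        refine ENNReal.ofReal_le_ofReal ((hz (hSU hzS)).2.trans ?_)
        exact mul_le_mul_of_nonneg_left (le_abs_self _) hK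
    _ = ENNReal.ofReal K * ∫⁻ z in S, ENNReal.ofReal |(fderiv ℝ G z).det| := by
        rw [lintegral_const_mul']
        exact ENNReal.ofReal_ne_top
    _ = ENNReal.ofReal K * volume (G '' S) := by
        rw [lintegral_abs_det_fderiv_eq_addHaar_image volume hSm ?_ (hinj.mono hSU)]
        intro z hz
        rw [hS] at hz
        exact hz.2.hasFDerivAt.hasFDerivWithinAt
    _ ≤ _ := by
        gcongr

end Pool.Agent.Lib.H11Q
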