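import Pool.Agent.Lib.H11Q.G00

set_option autoImplicit false

namespace Pool.Agent.Lib.H11Q

open Complex Set MeasureTheory
open scoped ComplexConjugate Topology

/-! G11 (M): the map `ψ = Gp κ M` and the half disc. -/

/-- `exp (log w / 2) ^ 2 = w`; `Re exp (log w / 2) = |w|^(1/2) cos (arg w / 2) > 0` (`-π < arg w < π` on the slit plane;
`exp_re`, `log_im`). -/
theorem g11_sqrt {w : ℂ} (hw : w ∈ slitPlane) :
    exp (log w / 2) ^ 2 = w ∧ 0 < (exp (log w / 2)).re := by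
  have hw0 : w ≠ 0 := slitPlane_ne_zero hw
  refine ⟨?_, ?_⟩
  · rw [← Complex.exp_nat_mul]
    push_cast
    rw [show (2 : ℂ) * (log w / 2) = log w by ring, exp_log hw0]
  · rw [exp_re]
    have h1 : (log w / 2).im = arg w / 2 := by
      have : (log w / 2).im = (log w).im / 2 := by
        rw [show (2 : ℂ) = ((2 : ℝ) : ℂ) by norm_num, Complex.div_ofReal_im]
      rw [this, log_im]
    rw [h1]
    apply mul_pos (Real.exp_pos _)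
    apply Real.cos_pos_of_mem_Ioo
    have h2 := Complex.neg_pi_lt_arg w
    have h3 := Complex.arg_le_pi w
    have h4 : arg w ≠ Real.pi := (mem_slitPlane_iff_arg.1 hw).1
    have h5 := lt_of_le_of_ne h3 h4
    constructor <;> linarith

theorem G11_sq {κ : ℝ} {M : SU} {z : ℂ} (hz : z ∈ GU κ M) :
    Gp κ M z ^ 2 = Gz κ M z + 2 * κ ∧ 0 < (Gp κ M z).re := g11_sqrt hz.2

theorem G11_Gx {κ : ℝ} (h0 : 0 ≤ κ) (h1 : κ ≤ 1 / 10) (ξ : ℂ) : Gx κ (Gs κ ξ) = ξ ∧ Gs κ (Gx κ ξ) = ξ := by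
  have h2 : (1 : ℝ) + κ ≠ 0 := by positivity
  have h3 : (1 : ℝ) - κ ≠ 0 := by
    have : 0 < 1 - κ := by linarith
    exact this.ne'
  constructor
  · apply Complex.ext
    · simp only [Gx, Gs, add_re, mul_re, ofReal_re, ofReal_im, conj_re, conj_im]
      field_simp
      ring
    · simp only [Gx, Gs, add_im, mul_im, ofReal_re, ofReal_im, conj_re, conj_im]
      field_simp
      ring
  · apply Complex.ext
    · simp only [Gx, Gs, add_re, mul_re, ofReal_re, ofReal_im, conj_re, conj_im]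
      field_simp
      ring
    · simp only [Gx, Gs, add_im, mul_im, ofReal_re, ofReal_im, conj_re, conj_im]
      field_simp
      ring

theorem g11_Gs_neg (κ : ℝ) (ξ : ℂ) : Gs κ (-ξ) = -Gs κ ξ := by
  simp only [Gs, map_neg]
  ring

theorem g11_Gs_re (κ : ℝ) (ξ : ℂ) : (Gs κ ξ).re = (1 + κ) * ξ.re := by
  simp only [Gs, add_re, mul_re, ofReal_re, ofReal_im, conj_re, conj_im]
  ring

theorem g11_ZZ (κ : ℝ) (ξ : ℂ) : ZZ κ ξ = Gs κ ξ ^ 2 - 2 * κ := rfl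

/-- `w = M z` has `‖w‖ < 1`, so `Zi κ w = ZZ κ ξ = (Gs κ ξ)² - 2κ` with `‖ξ‖ < 1` (`E_Zi_mem`).  So `(Gs κ ξ)² = (Gp κ M z)²`,
`Gp κ M z = ± Gs κ ξ`; replace `ξ` by `-ξ` if necessary: `Gp κ M z = Gs κ ξ`, `Gy κ M z = ξ` (`G11_Gx`), and
`Re (Gs κ ξ) = (1 + κ) Re ξ > 0`.  `beta κ ξ = WW κ (ZZ κ ξ) = WW κ (Zi κ w) = w` (`E_Zi`). -/
theorem G11_mem {κ : ℝ} (h0 : 0 ≤ κ) (h1 : κ ≤ 1 / 10) {M : SU} {z : ℂ} (hz : z ∈ GU κ M) :
    Gy κ M z ∈ GH ∧ M.app z = beta κ (Gy κ M z) ∧ Gs κ (Gy κ M z) = Gp κ M z := by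
  obtain ⟨hsq, hre⟩ := G11_sq hz
  have hw : ‖M.app z‖ < 1 := M.app_norm_lt hz.1
  obtain ⟨ξ₀, -, hξ2, hξ3⟩ := E_Zi_mem h0 h1 hw.le
  have key : ∃ ξ : ℂ, ‖ξ‖ < 1 ∧ Zi κ (M.app z) = ZZ κ ξ ∧ Gp κ M z = Gs κ ξ := by
    have h2 : Gp κ M z ^ 2 = Gs κ ξ₀ ^ 2 := by
      rw [hsq]
      unfold Gz
      rw [hξ2, g11_ZZ]
      ring
    rcases sq_eq_sq_iff_eq_or_eq_neg.1 h2 with h | h
    · exact ⟨ξ₀, hξ3 hw, hξ2, h⟩
    · refine ⟨-ξ₀, by rw [norm_neg]; exact hξ3 hw, ?_, ?_⟩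
      · rw [hξ2, g11_ZZ, g11_ZZ, g11_Gs_neg]
        ring
      · rw [h, g11_Gs_neg]
  obtain ⟨ξ, hξn, hξZ, hξG⟩ := key
  have hy : Gy κ M z = ξ := by
    unfold Gy
    rw [hξG]
    exact (G11_Gx h0 h1 ξ).1
  rw [hy]
  refine ⟨⟨?_, hξn⟩, ?_, hξG.symm⟩
  · rw [hξG, g11_Gs_re] at hre
    exact (pos_iff_pos_of_mul_pos hre).1 (by linarith)
  · have h3 := (E_Zi h0 h1 (w := M.app z) (by linarith)).2.1
    rw [hξZ] at h3
    exact h3.symm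

/-- `‖beta κ ξ‖ < 1` (`E_beta_lt`); `M (M⁻¹ w) = w` (`SU.app_mul`); `Zi κ (beta κ ξ) = ZZ κ ξ` (`E10_WW`; `‖ZZ κ ξ‖ ≤ (1+κ)² + 2κ`
is too large, use `E12_norm`, `E14` or `C_ZZ_norm` for `‖ZZ κ ξ‖ ≤ 1 + κ²`).  `Gz + 2κ = (Gs κ ξ)²` is in the slit
plane as `Re (Gs κ ξ) > 0`; `exp (log (s²) / 2) = s` if `Re s > 0` (compare with `G11_sq`: two square roots with positive real
part are equal). -/
theorem G11_inv {κ : ℝ} (h0 : 0 ≤ κ) (h1 : κ ≤ 1 / 10) (M : SU) {ξ : ℂ} (hξ : ξ ∈ GH) :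
    M⁻¹.app (beta κ ξ) ∈ GU κ M ∧ Gp κ M (M⁻¹.app (beta κ ξ)) = Gs κ ξ ∧
      Gy κ M (M⁻¹.app (beta κ ξ)) = ξ := by
  have hb := (E_beta_lt h0 h1 hξ.2).1
  have hM : M.app (M⁻¹.app (beta κ ξ)) = beta κ ξ := by
    rw [← SU.app_mul _ _ hb.le, mul_inv_cancel, SU.app_one]
  have hZn := (E14_norm h0 h1 hξ.2.le).1
  have hZ : Zi κ (beta κ ξ) = ZZ κ ξ := by
    apply E10_WW h0 h1 (by nlinarith)
    show ‖beta κ ξ‖ ≤ 11 / 10
    linarith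
  have hGz : Gz κ M (M⁻¹.app (beta κ ξ)) + 2 * κ = Gs κ ξ ^ 2 := by
    unfold Gz
    rw [hM, hZ, g11_ZZ]
    ring
  have hre : 0 < (Gs κ ξ).re := by
    rw [g11_Gs_re]
    exact mul_pos (by linarith) hξ.1
  have hslit : Gs κ ξ ^ 2 ∈ slitPlane := by
    rw [mem_slitPlane_iff]
    by_cases him : (Gs κ ξ).im = 0
    · left
      rw [pow_two, mul_re, him]
      nlinarith
    · right
      rw [pow_two, mul_im]
      have : (Gs κ ξ).re * (Gs κ ξ).im ≠ 0 := mul_ne_zero hre.ne' him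
      intro h
      apply this
      linarith
  have hU : M⁻¹.app (beta κ ξ) ∈ GU κ M :=
    ⟨SU.app_norm_lt _ hb, by rw [hGz]; exact hslit⟩
  obtain ⟨hsq, hre2⟩ := G11_sq hU
  have hG : Gp κ M (M⁻¹.app (beta κ ξ)) = Gs κ ξ := by
    rw [hGz] at hsq
    rcases sq_eq_sq_iff_eq_or_eq_neg.1 hsq with h | h
    · exact h
    · rw [h, neg_re] at hre2
      linarith
  refine ⟨hU, hG, ?_⟩
  unfold Gy
  rw [hG]
  exact (G11_Gx h0 h1 ξ).1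

end Pool.Agent.Lib.H11Q
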