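import Pool.Agent.Lib.H11Q.G00

set_option autoImplicit false

namespace Pool.Agent.Lib.H11Q

open Complex Set MeasureTheory
open scoped ComplexConjugate Topology

/-! G15A (M): continuous square roots on convex open sets. -/

/-- `C` (as a subtype) is simply connected (convex sets are contractible: `Convex.contractibleSpace`) and locally path
connected (open subset of `ℂ`).  `fun z => z ^ 2` is a covering map over `{0}ᶜ` (`isCoveringMapOn_npow`);
`IsCoveringMapOn.existsUnique_continuousMap_lifts`.  (Or use `Complex.isCoveringMap_exp` and `g = exp (lift / 2)`.) -/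
theorem G15_sqrt {C : Set ℂ} (hC : Convex ℝ C) (ho : IsOpen C) (hne : C.Nonempty) {h : ℂ → ℂ}
    (hc : ContinuousOn h C) (h0 : ∀ z ∈ C, h z ≠ 0) :
    ∃ g : ℂ → ℂ, ContinuousOn g C ∧ ∀ z ∈ C, g z ^ 2 = h z := by
  have hct : ContractibleSpace C := hC.contractibleSpace hne
  have hsc : SimplyConnectedSpace C := inferInstance
  have hlp : LocallyPathConnectedSpace C := ho.locallyPathConnectedSpace
  obtain ⟨a, ha⟩ := hne
  have hcov : IsCoveringMapOn (fun x : ℂ => x ^ 2) {0}ᶜ := isCoveringMapOn_npow 2 (by norm_num)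
  have hca : Continuous fun x : C => h x := hc.comp_continuous continuous_subtype_val fun x => x.2
  obtain ⟨e0, he0⟩ : ∃ e0 : ℂ, e0 ^ 2 = h a := by
    obtain ⟨w, hw⟩ := IsAlgClosed.exists_pow_nat_eq (h a) (n := 2) (by norm_num)
    exact ⟨w, hw⟩
  obtain ⟨F, ⟨_, hF⟩, _⟩ := hcov.existsUnique_continuousMap_lifts (⟨fun x : C => h x, hca⟩ : C(C, ℂ))
    (a₀ := ⟨a, ha⟩) (e₀ := e0) he0 (fun x => by
      simpa using h0 x x.2)
  classical
  refine ⟨fun z => if hz : z ∈ C then F ⟨z, hz⟩ else 0, ?_, ?_⟩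
  · rw [continuousOn_iff_continuous_restrict]
    refine F.continuous.congr fun x => ?_
    simp
  · intro z hz
    have := congrFun hF ⟨z, hz⟩
    simpa [hz] using this

end Pool.Agent.Lib.H11Q
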