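import Pool.Agent.Lib.H11Q.G15B

set_option autoImplicit false

namespace Pool.Agent.Lib.H11Q

open Complex Set MeasureTheory
open scoped ComplexConjugate Topology

/-! G17A (M): boundary values. -/

theorem g17a_ext_one (e : Disc ≃ₜ Disc) {z : ℂ} (hz : ‖z‖ = 1) : ext e z = z := by
  unfold ext
  rw [dif_neg (by linarith)]

theorem g17a_ext_lt (e : Disc ≃ₜ Disc) {z : ℂ} (hz : ‖z‖ < 1) : ‖ext e z‖ < 1 := by
  unfold ext
  rw [dif_pos hz]
  exact (e ⟨z, hz⟩).2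

theorem g17a_ext_le (e : Disc ≃ₜ Disc) {z : ℂ} (hz : ‖z‖ ≤ 1) : ‖ext e z‖ ≤ 1 := by
  rcases lt_or_eq_of_le hz with h | h
  · exact (g17a_ext_lt e h).le
  · rw [g17a_ext_one e h, h]

theorem g17a_ext_cont {e : Disc ≃ₜ Disc} (hb : IdBdry e) :
    ContinuousOn (ext e) (Metric.closedBall 0 1) := by
  intro z hz
  rw [mem_closedBall_zero_iff] at hz
  rcases lt_or_eq_of_le hz with h | h
  · exact (c05_cont e ⟨z, h⟩).continuousWithinAt
  · have h1 : Metric.closedBall (0 : ℂ) 1 = Metric.ball 0 1 ∪ Metric.sphere 0 1 :=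
      Metric.ball_union_sphere.symm
    rw [h1, continuousWithinAt_union]
    constructor
    · unfold ContinuousWithinAt
      rw [g17a_ext_one e h]
      exact hb z h
    · have h2 : ContinuousWithinAt (fun z : ℂ => z) (Metric.sphere 0 1) z := continuousWithinAt_id
      apply h2.congr
      · intro y hy
        rw [mem_sphere_zero_iff_norm] at hy
        exact g17a_ext_one e hy
      · exact g17a_ext_one e h

theorem g17a_app_le (g : SU) {z : ℂ} (hz : ‖z‖ ≤ 1) : ‖g.app z‖ ≤ 1 := by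
  have h1 := g.normSq_app hz
  have h2 : 0 ≤ (1 - ‖z‖ ^ 2) / ‖g.den z‖ ^ 2 := by
    apply div_nonneg _ (by positivity)
    nlinarith [norm_nonneg z]
  rw [← h1] at h2
  nlinarith [norm_nonneg (g.app z)]

theorem g17a_app_eq (g : SU) {z : ℂ} (hz : ‖z‖ = 1) : ‖g.app z‖ = 1 := by
  have h1 := g.normSq_app hz.le
  rw [hz] at h1
  norm_num at h1
  have h2 : ‖g.app z‖ ^ 2 = 1 := by linarith
  nlinarith [norm_nonneg (g.app z)]

theorem g17a_app_cont (g : SU) : ContinuousOn g.app (Metric.closedBall 0 1) := by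
  intro z hz
  rw [mem_closedBall_zero_iff] at hz
  unfold SU.app
  apply ContinuousAt.continuousWithinAt
  apply ContinuousAt.div
  · fun_prop
  · fun_prop
  · exact g.den_ne hz

theorem g17a_beta_cont {κ : ℝ} (h0 : 0 ≤ κ) (h1 : κ ≤ 1 / 10) :
    ContinuousOn (beta κ) (Metric.closedBall 0 1) := by
  have h2 : ContinuousOn (fun ξ : ℂ => (κ, ZZ κ ξ)) (Metric.closedBall 0 1) := by
    unfold ZZ
    fun_prop
  have h3 := E_cont.comp h2 (by
    intro ξ hξ
    rw [mem_closedBall_zero_iff] at hξ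
    refine ⟨⟨h0, h1⟩, ?_⟩
    rw [mem_ball_zero_iff]
    have := (E14_norm h0 h1 hξ).1
    nlinarith)
  exact h3

theorem g17a_beta_le {κ : ℝ} (h0 : 0 ≤ κ) (h1 : κ ≤ 1 / 10) {ξ : ℂ} (hξ : ‖ξ‖ ≤ 1) :
    ‖beta κ ξ‖ ≤ 1 := by
  rcases lt_or_eq_of_le hξ with h | h
  · exact (E_beta_lt h0 h1 h).1.le
  · exact (E_beta_eq h0 h1 h).1.le

theorem g17a_Zi_cont {κ : ℝ} (h0 : 0 ≤ κ) (h1 : κ ≤ 1 / 10) :
    ContinuousOn (Zi κ) (Metric.closedBall 0 1) := by
  intro w hw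
  rw [mem_closedBall_zero_iff] at hw
  exact (E_Zi_deriv h0 h1 (by linarith)).continuousAt.continuousWithinAt

/-- The function `fb z = ext e z` for `‖z‖ < 1`, `z` for `‖z‖ = 1` is `ext e` on the closed disc (definition of `ext`), and it is
continuous on the closed disc (`IdBdry`, `c05_cont`; at a boundary point also along boundary points, where it is the
identity).  So `h ξ = Zi κ (M (ext e (M⁻¹ (beta κ ξ)))) - 2κ - (Gs (-κ) ξ)²` is continuous on the closed unit disc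
(`G12_phi`: `M⁻¹ (beta κ ξ)` is in the closed disc; `M` maps the closed disc to itself), and `h = 0` for `‖ξ‖ = 1`:
there `‖beta κ ξ‖ = 1`, so `ext e` is the identity at `M⁻¹ (beta κ ξ)` (norm `1`: `SU.normSq_app`), and
`Zi κ (beta κ ξ) = Zi κ (beta' κ ξ) = ZZ' κ ξ = (Gs (-κ) ξ)² + 2κ` (`E_beta_eq`, `E10_WW`).  Uniform continuity on the
compact disc (compare `ξ` with `ξ / ‖ξ‖`) gives `δ`. -/
theorem G17_cont {κ K : ℝ} {M : SU} {e : Disc ≃ₜ Disc} (hD : GD κ K M e) {η : ℝ} (hη : 0 < η) :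
    ∃ δ > 0, ∀ ξ : ℂ, 1 - δ < ‖ξ‖ → ‖ξ‖ < 1 →
      ‖Gz κ M (ext e (M⁻¹.app (beta κ ξ))) - 2 * κ - Gs (-κ) ξ ^ 2‖ ≤ η := by
  have h0 := hD.h0.le
  have h1 := hD.h1
  have hcont : ContinuousOn (fun ξ : ℂ =>
      Gz κ M (ext e (M⁻¹.app (beta κ ξ))) - 2 * κ - Gs (-κ) ξ ^ 2) (Metric.closedBall 0 1) := by
    have c1 : ContinuousOn (fun ξ : ℂ => M⁻¹.app (beta κ ξ)) (Metric.closedBall 0 1) :=
      (g17a_app_cont M⁻¹).comp (g17a_beta_cont h0 h1) (by
        intro ξ hξ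
        rw [mem_closedBall_zero_iff] at hξ ⊢
        exact g17a_beta_le h0 h1 hξ)
    have c2 : ContinuousOn (fun ξ : ℂ => ext e (M⁻¹.app (beta κ ξ))) (Metric.closedBall 0 1) :=
      (g17a_ext_cont hD.bd).comp c1 (by
        intro ξ hξ
        rw [mem_closedBall_zero_iff] at hξ ⊢
        exact g17a_app_le M⁻¹ (g17a_beta_le h0 h1 hξ))
    have c3 : ContinuousOn (fun ξ : ℂ => M.app (ext e (M⁻¹.app (beta κ ξ)))) (Metric.closedBall 0 1) :=
      (g17a_app_cont M).comp c2 (by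
        intro ξ hξ
        rw [mem_closedBall_zero_iff] at hξ ⊢
        exact g17a_ext_le e (g17a_app_le M⁻¹ (g17a_beta_le h0 h1 hξ)))
    have c4 : ContinuousOn (fun ξ : ℂ => Zi κ (M.app (ext e (M⁻¹.app (beta κ ξ)))))
        (Metric.closedBall 0 1) :=
      (g17a_Zi_cont h0 h1).comp c3 (by
        intro ξ hξ
        rw [mem_closedBall_zero_iff] at hξ ⊢
        exact g17a_app_le M (g17a_ext_le e (g17a_app_le M⁻¹ (g17a_beta_le h0 h1 hξ))))
    have c5 : Continuous (Gs (-κ)) := by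
      unfold Gs
      fun_prop
    exact (c4.sub continuousOn_const).sub (c5.continuousOn.pow 2)
  have hzero : ∀ ξ : ℂ, ‖ξ‖ = 1 →
      Gz κ M (ext e (M⁻¹.app (beta κ ξ))) - 2 * κ - Gs (-κ) ξ ^ 2 = 0 := by
    intro ξ hξ
    obtain ⟨hb1, hb2⟩ := E_beta_eq h0 h1 hξ
    have h2 := g17a_app_eq M⁻¹ hb1
    rw [g17a_ext_one e h2]
    unfold Gz
    rw [← SU.app_mul _ _ hb1.le, mul_inv_cancel, SU.app_one, ← hb2]
    have h3 : Zi κ (beta' κ ξ) = ZZ' κ ξ := by
      apply E10_WW h0 h1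
      · have := (E14_norm h0 h1 hξ.le).2
        nlinarith
      · show ‖beta' κ ξ‖ ≤ 11 / 10
        rw [hb2, hb1]
        norm_num
    rw [h3]
    unfold ZZ' Gs
    push_cast
    ring
  have hunif := (isCompact_closedBall (0 : ℂ) 1).uniformContinuousOn_of_continuous hcont
  rw [Metric.uniformContinuousOn_iff] at hunif
  obtain ⟨δ, hδ, hu⟩ := hunif η hη
  refine ⟨min δ 1, lt_min hδ one_pos, ?_⟩
  intro ξ hξ1 hξ2
  have hd1 : min δ 1 ≤ δ := min_le_left _ _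
  have hd2 : min δ 1 ≤ 1 := min_le_right _ _
  have hpos : 0 < ‖ξ‖ := by linarith
  have hne : (‖ξ‖ : ℂ) ≠ 0 := by exact_mod_cast hpos.ne'
  have hy : ‖ξ / (‖ξ‖ : ℂ)‖ = 1 := by
    rw [norm_div, Complex.norm_real, norm_norm, div_self hpos.ne']
  have hdist : dist ξ (ξ / (‖ξ‖ : ℂ)) < δ := by
    rw [dist_eq_norm]
    have e1 : ξ - ξ / (‖ξ‖ : ℂ) = (((‖ξ‖ - 1 : ℝ)) : ℂ) * (ξ / (‖ξ‖ : ℂ)) := by
      push_cast
      field_simp
    rw [e1, norm_mul, hy, mul_one, Complex.norm_real, Real.norm_eq_abs, abs_of_neg (by linarith)]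
    linarith
  have h5 := hu ξ (by rw [mem_closedBall_zero_iff]; exact hξ2.le) (ξ / (‖ξ‖ : ℂ))
    (by rw [mem_closedBall_zero_iff]; exact hy.le) hdist
  rw [hzero _ hy, dist_zero_right] at h5
  exact h5.le

end Pool.Agent.Lib.H11Q
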