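import Pool.Agent.Lib.H11Q.G12
import Pool.Agent.Lib.H11Q.G18
import Pool.Agent.Lib.H11Q.G19B

set_option autoImplicit false

namespace Pool.Agent.Lib.H11Q

open Complex Set MeasureTheory
open scoped ComplexConjugate Topology

/-! G19A (M): the test vector fields are `C^1` with compact support in `GU κ M`. -/

/-- The compact subset of the half disc. -/
def g19a_K (n : ℕ) : Set ℂ := {ξ | 1 ≤ n * ξ.re ∧ 1 ≤ n * (1 - normSq ξ)}

theorem g19a_sub {n : ℕ} (hn : 1 ≤ n) {ξ : ℂ} (h : ξ ∈ g19a_K n) : ξ ∈ GH := by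
  have hnR : (0 : ℝ) < n := by exact_mod_cast hn
  obtain ⟨h1, h2⟩ := h
  constructor
  · by_contra hcon
    push Not at hcon
    have : (n : ℝ) * ξ.re ≤ 0 := mul_nonpos_of_nonneg_of_nonpos hnR.le hcon
    linarith
  · have h3 : 0 < 1 - normSq ξ := by
      by_contra hcon
      push Not at hcon
      have : (n : ℝ) * (1 - normSq ξ) ≤ 0 := mul_nonpos_of_nonneg_of_nonpos hnR.le hcon
      linarith
    rw [normSq_eq_norm_sq] at h3
    nlinarith [norm_nonneg ξ]

theorem g19a_compact {n : ℕ} (hn : 1 ≤ n) : IsCompact (g19a_K n) := by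
  have hcl : IsClosed (g19a_K n) := by
    have h3 : Continuous fun ξ : ℂ => (n : ℝ) * (1 - normSq ξ) := by
      have := Complex.continuous_normSq
      fun_prop
    have h4 : Continuous fun ξ : ℂ => (n : ℝ) * ξ.re := by fun_prop
    exact (isClosed_le continuous_const h4).inter (isClosed_le continuous_const h3)
  refine Metric.isCompact_of_isClosed_isBounded hcl ?_
  refine (Metric.isBounded_closedBall (x := (0 : ℂ)) (r := 1)).subset fun ξ hξ => ?_
  rw [mem_closedBall_zero_iff]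
  exact (g19a_sub hn hξ).2.le

/-- Let `n ≥ 1`.  `Cn = {ξ : Re ξ ≥ 1/n, normSq ξ ≤ 1 - 1/n}` is a compact subset of `GH`, its image `Kn` under the
continuous map `ξ ↦ M⁻¹ (beta κ ξ)` (`G12_phi`) is a compact subset of `GU κ M` (`G11_inv`), and `GX κ M n` is zero outside `Kn`
(`G18_supp`, `z = M⁻¹ (beta κ (Gy κ M z))` by `G11_mem`).  So `tsupport ⊆ Kn`.  `C^1`: at a point of the open set `GU κ M` the field is a
product of `C^1` functions (`Gy κ M` = real linear map of the holomorphic function `Gp κ M`; `deriv (Gp κ M)` is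
holomorphic, `conj` is real linear); at a point outside `Kn` it is zero near the point. -/
theorem G19_field {κ : ℝ} (h0 : 0 ≤ κ) (h1 : κ ≤ 1 / 10) (M : SU) {n : ℕ} (hn : 1 ≤ n) :
    ContDiff ℝ 1 (GX κ M n) ∧ HasCompactSupport (GX κ M n) ∧ tsupport (GX κ M n) ⊆ GU κ M := by
  classical
  have hU := G12_open h0 h1 M
  have hψ := G12_diff h0 h1 M
  set Kn : Set ℂ := (fun ξ => M⁻¹.app (beta κ ξ)) '' g19a_K n with hKn
  have hKc : IsCompact Kn := (g19a_compact hn).image_of_continuousOn ((G12_phi h0 h1 M).mono fun ξ hξ => by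
    rw [mem_closedBall_zero_iff]
    exact (g19a_sub hn hξ).2.le)
  have hKU : Kn ⊆ GU κ M := by
    rintro _ ⟨ξ, hξ, rfl⟩
    exact (G11_inv h0 h1 M (g19a_sub hn hξ)).1
  have hzero : ∀ z, z ∉ Kn → GX κ M n z = 0 := by
    intro z hz
    by_cases hzU : z ∈ GU κ M
    · show (if z ∈ GU κ M then _ else _) = _
      rw [if_pos hzU]
      have h2 : Gc n (Gy κ M z) = 0 := by
        by_contra h3
        apply hz
        obtain ⟨a, b⟩ := G18_supp h3
        refine ⟨Gy κ M z, ⟨a.le, b.le⟩, ?_⟩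
        show M⁻¹.app (beta κ (Gy κ M z)) = z
        rw [← (G11_mem h0 h1 hzU).2.1, ← SU.app_mul _ _ hzU.1.le, inv_mul_cancel, SU.app_one]
      rw [h2]
      simp
    · show (if z ∈ GU κ M then _ else _) = _
      rw [if_neg hzU]
  have hts : tsupport (GX κ M n) ⊆ Kn := by
    refine closure_minimal (fun z hz => ?_) hKc.isClosed
    by_contra h2
    exact hz (hzero z h2)
  refine ⟨?_, hKc.of_isClosed_subset (isClosed_tsupport _) hts, hts.trans hKU⟩
  rw [contDiff_iff_contDiffAt]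
  intro z
  by_cases hz : z ∈ GU κ M
  · have c1 : ContDiffAt ℝ 1 (Gp κ M) z := ((hψ.contDiffOn hU).contDiffAt (hU.mem_nhds hz)).restrict_scalars ℝ
    have c2 : ContDiffAt ℝ 1 (deriv (Gp κ M)) z :=
      (((hψ.deriv hU).contDiffOn hU).contDiffAt (hU.mem_nhds hz)).restrict_scalars ℝ
    have c3 : ContDiffAt ℝ 1 (fun z => g19b_L κ (Gp κ M z)) z := (g19b_L κ).contDiff.contDiffAt.comp z c1
    have c4 : ContDiffAt ℝ 1 (fun z => Gc n (g19b_L κ (Gp κ M z))) z :=
      ((G18_smooth n).of_le (by norm_num)).contDiffAt.comp z c3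
    have c5 : ContDiffAt ℝ 1 (fun z => ((Gc n (g19b_L κ (Gp κ M z)) : ℝ) : ℂ)) z := ofRealCLM.contDiff.contDiffAt.comp z c4
    have c6 : ContDiffAt ℝ 1 (fun z => I * conj (deriv (Gp κ M) z)) z :=
      contDiffAt_const.mul (conjCLE.contDiff.contDiffAt.comp z c2)
    refine (c5.mul c6).congr_of_eventuallyEq ?_
    filter_upwards [hU.mem_nhds hz] with y hy
    show (if y ∈ GU κ M then _ else _) = _
    rw [if_pos hy]
    show ((Gc n (Gy κ M y) : ℝ) : ℂ) * (I * conj (deriv (Gp κ M) y)) = ((Gc n (g19b_L κ (Gp κ M y)) : ℝ) : ℂ) * (I * conj (deriv (Gp κ M) y))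
    rw [g19b_L_apply]
    rfl
  · have h2 : Knᶜ ∈ 𝓝 z := hKc.isClosed.isOpen_compl.mem_nhds fun h => hz (hKU h)
    refine (contDiffAt_const (c := (0 : ℂ))).congr_of_eventuallyEq ?_
    filter_upwards [h2] with y hy
    exact hzero y hy

end Pool.Agent.Lib.H11Q
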