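import Pool.Agent.Lib.H11Q.D1

/-!
# H11Q, module N (PROOF.md 9.3 - 9.8): definitions

`nv g` = normal vector of the line `g (real diameter)`: `sg (g⁻¹ z) = mink (nv g) (Om z)`.
For a normal vector `x` (`IsNrm x`: `|x_1|^2 - x_0^2 = 1`) the end points of the line are
`mid x ± I * pp x` (`pp x = 1 / conj x_1`, `mid x = x_0 / conj x_1`), the Euclidean length of its
chord is `L = 2 |pp x|`, `Lsq x = L^2`, and
`JJ x Q = ∫ v Q dz` over the chord, `v(z) = (z - u_-)(u_+ - z)/(u_+ - u_-)`.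
-/

set_option autoImplicit false

namespace Pool.Agent.Lib.H11Q

open Complex Set MeasureTheory Metric
open scoped ComplexConjugate Topology

/-- Normal vector of the line `g (real diameter)`. -/
noncomputable def nv (g : SU) : Mk := (2 * (g.a * conj g.b).im, -I * (g.a ^ 2 - g.b ^ 2))

/-- Normal vectors of lines. -/
def IsNrm (x : Mk) : Prop := ‖x.2‖ ^ 2 - x.1 ^ 2 = 1

noncomputable def pp (x : Mk) : ℂ := 1 / conj x.2

noncomputable def mid (x : Mk) : ℂ := (x.1 : ℂ) / conj x.2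

/-- Square of the Euclidean length of the chord. -/
noncomputable def Lsq (x : Mk) : ℝ := 4 / ‖x.2‖ ^ 2

/-- The line integral of `v Q` along the chord. -/
noncomputable def JJ (x : Mk) (Q : ℂ → ℂ) : ℂ :=
  (-(pp x) ^ 2 / 2) * ∫ y in (-1 : ℝ)..1, ((1 - y ^ 2 : ℝ) : ℂ) * Q (mid x + I * pp x * y)

/-- The linear forms which occur: `wt φ Q z = Q (φ z) φ'(z)^2`. -/
noncomputable def wt (φ : SU) (Q : ℂ → ℂ) (z : ℂ) : ℂ := Q (φ.app z) / (φ.den z) ^ 4

/-- `q = sqrt (1 - 4 sin² (π/7)) = tanh d(0, m_0)`. -/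
noncomputable def qq : ℝ := Real.sqrt (1 - 4 * Real.sin (Real.pi / 7) ^ 2)

/-- `ρ = r_1² / (1 - r_1²)² = sinh² d(0, m_0) / 4`. -/
noncomputable def rr : ℝ := qq ^ 2 / (16 * Real.sin (Real.pi / 7) ^ 2)

/-- `D = d(m_0, m_1)`. -/
noncomputable def Dm : ℝ := 2 * Real.arsinh (qq / 2)

/-- The map `ζ ↦ tanh (ζ/2)` of the strip `|Im ζ| < π/2` onto the disc. -/
noncomputable def th (ζ : ℂ) : ℂ := (Complex.exp ζ - 1) / (Complex.exp ζ + 1)

/-- The strip. -/
def Str : Set ℂ := {ζ : ℂ | |ζ.im| < Real.pi / 2}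

/-- Inverse of `th`. -/
noncomputable def st (z : ℂ) : ℂ := Complex.log ((1 + z) / (1 - z))

/-- `M = s sqrt (1 + 4 c²)`, `nv gl0 = -(c q, exp(2πi/7)) / M`. -/
noncomputable def MM : ℝ :=
  Real.sin (Real.pi / 7) * Real.sqrt (1 + 4 * Real.cos (Real.pi / 7) ^ 2)

/-- The half-turns about `m_0`, `m_1` as words. -/
def we0 : W := wA * wB
def we1 : W := wA * (wA * wB) * wA⁻¹

/-- The image of the ball in the strip. -/
def EEs (g : SU) (r : ℝ) : Set ℂ := (fun z => st (g⁻¹.app z)) '' ball (0 : ℂ) r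

/-- The copies of a set under the stabilizer of the line in the strip coordinate:
`ζ ↦ ζ + 2 D k` (`b = true`), `ζ ↦ -ζ + D + 2 D k` (`b = false`). -/
def cpy (D : ℝ) (E : Set ℂ) (k : ℤ) (b : Bool) : Set ℂ :=
  (fun ζ : ℂ => if b then ζ + ((2 * D * k : ℝ) : ℂ) else -ζ + ((D + 2 * D * k : ℝ) : ℂ)) '' E

/-- 3.4 (from module A): the points of the ball `|z| < r_1` have the unique nearest centre `0`. -/
def Vor : Prop := ∀ z : Disc,
  ‖(z : ℂ)‖ ^ 2 < (1 - 2 * Real.sin (Real.pi / 7)) / (1 + 2 * Real.sin (Real.pi / 7)) →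
  ∀ w : W, ac w o0 ≠ o0 → mink (Om z) (Om 0) < mink (Om z) (Om (ac w o0))

/-- 4.2 (from module A). -/
def Stab : Prop := ∀ γ ∈ Gam0, ac γ o0 = o0 → ac γ = 1

end Pool.Agent.Lib.H11Q
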