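import Pool.Agent.Lib.H11Q.N00

/-! # H11Q chunk N01 (S/M): algebra of the linear action and of normal vectors.

PROOFS.  Everything is polynomial algebra from `g.h : normSq g.a - normSq g.b = 1` (write `normSq` as `re*re + im*im`, or
in the form `a * conj a - b * conj b = 1`).
* `N01_nv_mul`: write both components; `nv (g*h) = (2 Im((g*h).a conj (g*h).b), -I ((g*h).a² - (g*h).b²))` with
  `(g*h).a = g.a h.a + g.b conj h.b`, `(g*h).b = g.a h.b + g.b conj h.a`; the determinant relation of `h` is needed for nothing, the one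
  of `g` neither (check: it is an identity modulo `conj`); do real and imaginary parts (`Complex.ext`) with `ring` or `linear_combination`.
* `N01_lin_Om`: `Om z = (2t-1, 2 z t)` with `t = 1/(1-|z|²)`; use `SU.normSq_app`: `1 - |g z|² = (1-|z|²)/|den|²`, so
  `1/(1-|gz|²) = |den|² t`, `|gz|² |den|² = |a z + b|²`, `gz |den|² = (a z + b) conj den`.
* `N01_sg`: `sg z = mink (0, -I) (Om z)`, `(0,-I) = nv 1`; `mink (nv g) (Om z) = mink (g.lin (nv 1)) (g.lin (Om (g⁻¹ z)))`, then `N01_lin_mink`.
* `N01_act`: `SU.act g = SU.act h` means that the Moebius maps agree on the disc; `k = g⁻¹ h` satisfies `k.app z = z` for `‖z‖ < 1`: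
  `k.a z + k.b = conj k.b z² + conj k.a z` at `z = 0`: `k.b = 0`; at `z = 1/2`: `k.a = conj k.a`, real of norm 1, so `k.a = ±1`. -/

set_option autoImplicit false

namespace Pool.Agent.Lib.H11Q

open Complex Set MeasureTheory Metric
open scoped ComplexConjugate Topology

theorem N01_nrm (g : SU) : IsNrm (nv g) := by
  have h := g.h
  unfold IsNrm nv
  have e1 : ‖-I * (g.a ^ 2 - g.b ^ 2)‖ ^ 2 = normSq (g.a ^ 2 - g.b ^ 2) := by
    rw [← normSq_eq_norm_sq, map_mul, normSq_neg, normSq_I, one_mul]
  simp only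
  rw [e1]
  have e2 : normSq (g.a ^ 2 - g.b ^ 2) - (2 * (g.a * conj g.b).im) ^ 2 =
      (normSq g.a - normSq g.b) ^ 2 := by
    simp only [normSq_apply, sq, sub_re, sub_im, mul_re, mul_im, conj_re, conj_im]
    ring
  rw [e2, h, one_pow]

theorem N01_nv_one : nv 1 = (0, -I) := by
  unfold nv
  simp

theorem N01_nv_mul (g h : SU) : nv (g * h) = g.lin (nv h) := by
  unfold nv SU.lin
  apply Prod.ext
  · simp only [SU.mul_a, SU.mul_b, normSq_apply, add_re, add_im, mul_re, mul_im, conj_re, conj_im,
      neg_re, neg_im, I_re, I_im, sub_re, sub_im, sq]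
    ring
  · apply Complex.ext
    · simp only [SU.mul_a, SU.mul_b, add_re, add_im, mul_re, mul_im, conj_re, conj_im,
        neg_re, neg_im, I_re, I_im, sub_re, sub_im, sq, ofReal_re, ofReal_im, re_ofNat, im_ofNat]
      ring
    · simp only [SU.mul_a, SU.mul_b, add_re, add_im, mul_re, mul_im, conj_re, conj_im,
        neg_re, neg_im, I_re, I_im, sub_re, sub_im, sq, ofReal_re, ofReal_im, re_ofNat, im_ofNat]
      ring

theorem N01_lin_mul (g h : SU) (x : Mk) : (g * h).lin x = g.lin (h.lin x) := by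
  unfold SU.lin
  apply Prod.ext
  · simp only [SU.mul_a, SU.mul_b, normSq_apply, add_re, add_im, mul_re, mul_im, conj_re, conj_im,
      sq, ofReal_re, ofReal_im, re_ofNat, im_ofNat]
    ring
  · apply Complex.ext
    · simp only [SU.mul_a, SU.mul_b, normSq_apply, add_re, add_im, mul_re, mul_im, conj_re, conj_im,
        sq, ofReal_re, ofReal_im, re_ofNat, im_ofNat]
      ring
    · simp only [SU.mul_a, SU.mul_b, normSq_apply, add_re, add_im, mul_re, mul_im, conj_re, conj_im,
        sq, ofReal_re, ofReal_im, re_ofNat, im_ofNat]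
      ring

theorem N01_lin_one (x : Mk) : (1 : SU).lin x = x := by
  unfold SU.lin
  apply Prod.ext <;> simp

theorem N01_lin_neg (g : SU) (x : Mk) : g.lin (-x) = -(g.lin x) := by
  unfold SU.lin
  apply Prod.ext
  · simp only [Prod.fst_neg, Prod.snd_neg, mul_neg, neg_re]
    ring
  · simp only [Prod.fst_neg, Prod.snd_neg, ofReal_neg, map_neg]
    ring

theorem N01_lin_smul (g : SU) (t : ℝ) (x : Mk) : g.lin (t • x) = t • (g.lin x) := by
  unfold SU.lin
  apply Prod.ext
  · simp only [Prod.smul_fst, Prod.smul_snd, smul_eq_mul, real_smul, mul_re, mul_im, ofReal_re,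
      ofReal_im]
    ring
  · simp only [Prod.smul_fst, Prod.smul_snd, smul_eq_mul, real_smul, map_mul, conj_ofReal,
      ofReal_mul]
    ring

theorem N01_lin_mink (g : SU) (x y : Mk) : mink (g.lin x) (g.lin y) = mink x y := by
  have h := g.h
  have e : mink (g.lin x) (g.lin y) = (normSq g.a - normSq g.b) ^ 2 * mink x y := by
    unfold SU.lin mink
    simp only [normSq_apply, add_re, add_im, mul_re, mul_im, conj_re, conj_im,
      sq, ofReal_re, ofReal_im, re_ofNat, im_ofNat]
    ring
  rw [e, h]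
  ring

theorem N01_lin_nrm (g : SU) {x : Mk} (hx : IsNrm x) : IsNrm (g.lin x) := by
  have h1 := N01_lin_mink g x x
  have key : ∀ y : Mk, mink y y = y.1 ^ 2 - ‖y.2‖ ^ 2 := by
    intro y
    unfold mink
    rw [mul_conj, ofReal_re, normSq_eq_norm_sq]
    ring
  unfold IsNrm at hx ⊢
  rw [key, key] at h1
  linarith

theorem N01_lin_Om (g : SU) {z : ℂ} (hz : ‖z‖ < 1) : g.lin (Om z) = Om (g.app z) := by
  have hd := g.den_ne hz.le
  have hn := g.normSq_app hz.le
  have hz2 : 0 < 1 - ‖z‖ ^ 2 := by nlinarith [norm_nonneg z]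
  have hdn : 0 < ‖g.den z‖ ^ 2 := pow_pos (norm_pos_iff.mpr hd) 2
  have hden : ‖g.den z‖ ^ 2 = normSq (g.den z) := (normSq_eq_norm_sq _).symm
  have hz3 : ‖z‖ ^ 2 = normSq z := (normSq_eq_norm_sq _).symm
  have hh := g.h
  have e0 : g.app z = (g.a * z + g.b) * conj (g.den z) / ((normSq (g.den z) : ℝ) : ℂ) := by
    have : g.app z = (g.a * z + g.b) / g.den z := rfl
    have hcd : conj (g.den z) ≠ 0 := (map_ne_zero _).mpr hd
    rw [this, Complex.normSq_eq_conj_mul_self]
    field_simp
  have e1 : ‖g.app z‖ ^ 2 = 1 - (1 - normSq z) / normSq (g.den z) := by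
    rw [← hden, ← hz3]
    linarith
  have hdn' : normSq (g.den z) ≠ 0 := by rw [← hden]; exact hdn.ne'
  have hz2' : 1 - normSq z ≠ 0 := by rw [← hz3]; exact hz2.ne'
  unfold SU.lin Om
  apply Prod.ext
  · simp only
    rw [e1, hz3]
    have e2 : (1 + (1 - (1 - normSq z) / normSq (g.den z))) /
        (1 - (1 - (1 - normSq z) / normSq (g.den z))) =
        (2 * normSq (g.den z) - (1 - normSq z)) / (1 - normSq z) := by
      rw [sub_sub_cancel]
      field_simp
      ring
    rw [e2, eq_div_iff hz2']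
    have e3 : (2 * (g.a * conj g.b * (2 * z / ((1 - normSq z : ℝ) : ℂ))).re) * (1 - normSq z) =
        4 * (g.a * conj g.b * z).re := by
      have : g.a * conj g.b * (2 * z / ((1 - normSq z : ℝ) : ℂ)) =
          ((2 / (1 - normSq z) : ℝ) : ℂ) * (g.a * conj g.b * z) := by
        push_cast
        ring
      rw [this, re_ofReal_mul]
      field_simp
      ring
    have e4 : (normSq g.a + normSq g.b) * ((1 + normSq z) / (1 - normSq z)) * (1 - normSq z) =
        (normSq g.a + normSq g.b) * (1 + normSq z) := by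
      field_simp
    rw [add_mul, e3, e4]
    have e5 : normSq (g.den z) = normSq g.b * normSq z + normSq g.a +
        2 * (g.a * conj g.b * z).re := by
      unfold SU.den
      simp only [normSq_apply, add_re, add_im, mul_re, mul_im, conj_re, conj_im]
      ring
    rw [e5]
    linear_combination (normSq z - 1) * hh
  · simp only
    rw [e1, hz3]
    have e2 : ((1 - (1 - (1 - normSq z) / normSq (g.den z)) : ℝ) : ℂ) =
        (((1 - normSq z) / normSq (g.den z) : ℝ) : ℂ) := by
      congr 1
      ring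
    rw [e2, e0]
    have c1 : ((1 - normSq z : ℝ) : ℂ) ≠ 0 := by exact_mod_cast hz2'
    have c2 : ((normSq (g.den z) : ℝ) : ℂ) ≠ 0 := by exact_mod_cast hdn'
    rw [ofReal_div, ofReal_div]
    have e6 : 2 * ((g.a * z + g.b) * conj (g.den z) / ((normSq (g.den z) : ℝ) : ℂ)) /
        (((1 - normSq z : ℝ) : ℂ) / ((normSq (g.den z) : ℝ) : ℂ)) =
        2 * ((g.a * z + g.b) * conj (g.den z)) / ((1 - normSq z : ℝ) : ℂ) := by
      field_simp
    rw [e6, eq_div_iff c1]
    unfold SU.den
    have hzz : ((normSq z : ℝ) : ℂ) = z * conj z := (mul_conj z).symm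
    have e7 : ((1 + normSq z : ℝ) : ℂ) = 1 + z * conj z := by
      push_cast
      rw [hzz]
    rw [e7, map_div₀, map_mul, conj_ofReal]
    simp only [map_ofNat, map_add, map_mul, conj_conj]
    field_simp
    ring

theorem N01_sg (g : SU) {z : ℂ} (hz : ‖z‖ < 1) : sg (g⁻¹.app z) = mink (nv g) (Om z) := by
  have h1 := N01_lin_Om g⁻¹ hz
  have h2 : mink (nv g) (Om z) = mink (g⁻¹.lin (nv g)) (g⁻¹.lin (Om z)) :=
    (N01_lin_mink _ _ _).symm
  rw [h2, h1, ← N01_nv_mul, inv_mul_cancel, N01_nv_one]
  unfold mink Om sg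
  simp only [zero_mul, zero_sub]
  have hlt := g⁻¹.app_norm_lt hz
  have e : -I * conj (2 * g⁻¹.app z / ((1 - ‖g⁻¹.app z‖ ^ 2 : ℝ) : ℂ)) =
      (((2 / (1 - ‖g⁻¹.app z‖ ^ 2) : ℝ)) : ℂ) * (-I * conj (g⁻¹.app z)) := by
    rw [map_div₀, map_mul, conj_ofReal, map_ofNat]
    push_cast
    ring
  rw [e, re_ofReal_mul]
  simp only [mul_re, neg_re, I_re, neg_im, I_im, conj_re, conj_im]
  ring

theorem N01_act {g h : SU} (e : SU.act g = SU.act h) :
    h = g ∨ (h.a = -g.a ∧ h.b = -g.b) := by
  have key : ∀ z : ℂ, ‖z‖ < 1 → (g⁻¹ * h).app z = z := by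
    intro z hz
    rw [SU.app_mul _ _ hz.le]
    have : h.app z = g.app z := by
      have := congrArg (fun f : Disc ≃ₜ Disc => ((f ⟨z, hz⟩ : Disc) : ℂ)) e
      exact this.symm
    rw [this, ← SU.app_mul _ _ hz.le, inv_mul_cancel, SU.app_one]
  set k := g⁻¹ * h with hk
  have k0 := key 0 (by simp)
  have hb : k.b = 0 := by
    unfold SU.app at k0
    rw [mul_zero, zero_add, mul_zero, zero_add, div_eq_zero_iff] at k0
    rcases k0 with h1 | h1
    · exact h1
    · exfalso
      have h2 := k.den_ne (z := 0) (by simp)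
      apply h2
      unfold SU.den
      rw [mul_zero, zero_add, h1]
  have k1 := key (1 / 2) (by norm_num)
  have ha : k.a = conj k.a := by
    unfold SU.app at k1
    have hne := k.den_ne (z := (1 / 2 : ℂ)) (by norm_num)
    unfold SU.den at hne
    rw [div_eq_iff hne, hb] at k1
    simp only [add_zero, map_zero, zero_mul, zero_add] at k1
    linear_combination 2 * k1
  have him : k.a.im = 0 := conj_eq_iff_im.mp ha.symm
  have hsq : k.a.re ^ 2 = 1 := by
    have := k.h
    rw [hb] at this
    simp only [normSq_apply, him, map_zero] at this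
    nlinarith
  have hh : h = g * k := by rw [hk, mul_inv_cancel_left]
  have hre : k.a.re = 1 ∨ k.a.re = -1 := by
    have : (k.a.re - 1) * (k.a.re + 1) = 0 := by linear_combination hsq
    rcases mul_eq_zero.mp this with h1 | h1
    · left; linarith
    · right; linarith
  rcases hre with h1 | h1
  · left
    have hk1 : k = 1 := by
      apply SU.ext
      · exact Complex.ext (by rw [h1]; rfl) (by rw [him]; rfl)
      · exact hb
    rw [hh, hk1, mul_one]
  · right
    have hka : k.a = -1 := Complex.ext (by rw [h1]; simp) (by rw [him]; simp)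
    rw [hh]
    constructor
    · rw [SU.mul_a, hka, hb]
      simp
    · rw [SU.mul_b, hka, hb]
      simp

end Pool.Agent.Lib.H11Q
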