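import Pool.Agent.Lib.H11Q.N01

/-! # H11Q chunk N02 (S/M): end points of lines, sign ambiguity, special elements.

PROOFS.
* `N02_end1`, `N02_end2`: `g.app 1 = (a+b)/conj(a+b)`, `g.app (-1) = -(a-b)/conj(a-b)`; `conj (nv g).2 = I conj(a-b) conj(a+b)`
  (not zero, `N01_nrm`); `(a+b) conj(a-b) = 1 - 2 I Im(a conj b)` (uses `g.h`), so
  `I pp = 1/(conj(a-b) conj(a+b))`, `mid = -2 I Im(a conj b)/(conj(a-b) conj(a+b))`; clear denominators.
* `N02_chord`: `mid x * conj (I * pp x) = -I x.1 |pp|²` is purely imaginary, so `|mid + I pp y|² = |mid|² + y² |pp|² =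
  (x.1² + y²)/|x.2|² ≤ 1`.
* `N02_TT`: `(g * TT s).a ± (g * TT s).b = (g.a ± g.b) exp(± s/2)` (`cosh ± sinh`), so the difference of squares
  `(a-b)(a+b)` is unchanged; `Im (a conj b)`: `a conj b - conj a b` similarly
  (`2 I Im(a conj b) = 1 - (a+b) conj(a-b)`).  Or: `nv (g * TT s) = g.lin (nv (TT s))`, `nv (TT s) = nv 1`.
* `N02_iot`: `nv iot = -nv 1 = (0, I)`.
* `N02_nv_act`, `N02_lin_act`, `N02_wt_act`: `N01_act`, everything is even in `(a,b)`.
* `N02_gA`: `gA = rot o0 (2π/7)`, `(rot o0 t).a = cos(t/2) + I sin(t/2) = exp(I t/2)`, `.b = 0`; `gA ^ k`: induction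
  (`(cos x + I sin x)^k = cos(kx) + I sin(kx)`, `Complex.cos_add_sin_mul_I_pow`).
* `N02_Lsq_lin`: with `y = g.lin x`, `x = g⁻¹.lin y`, so `|x.2| ≤ 2|a||b||y.1| + (|a|²+|b|²)|y.2| ≤ (|a|+|b|)² |y.2|` since
  `|y.1| ≤ |y.2|` (`IsNrm y`). -/

set_option autoImplicit false

namespace Pool.Agent.Lib.H11Q

open Complex Set MeasureTheory Metric
open scoped ComplexConjugate Topology

theorem n02_sum_ne (g : SU) : g.a + g.b ≠ 0 ∧ g.a - g.b ≠ 0 := by
  have h := g.h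
  rw [normSq_eq_norm_sq, normSq_eq_norm_sq] at h
  constructor
  · intro h1
    have : g.a = -g.b := by linear_combination h1
    rw [this, norm_neg] at h
    linarith
  · intro h1
    have : g.a = g.b := by linear_combination h1
    rw [this] at h
    linarith

theorem n02_det (g : SU) : g.a * conj g.a - g.b * conj g.b = 1 := by
  have h := g.h
  rw [mul_conj, mul_conj]
  exact_mod_cast h

theorem n02_im (g : SU) : ((2 * (g.a * conj g.b).im : ℝ) : ℂ) = -I * (g.a * conj g.b - conj g.a * g.b) := by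
  apply Complex.ext
  · simp only [ofReal_re, mul_re, mul_im, neg_re, neg_im, I_re, I_im, sub_re, sub_im, conj_re,
      conj_im]
    ring
  · simp only [ofReal_im, mul_re, mul_im, neg_re, neg_im, I_re, I_im, sub_re, sub_im, conj_re,
      conj_im]
    ring

theorem n02_conj (g : SU) : conj (nv g).2 = I * ((conj g.a - conj g.b) * (conj g.a + conj g.b)) := by
  unfold nv
  simp only [map_mul, map_neg, conj_I, map_sub, map_pow, neg_neg]
  ring

theorem N02_end1 (g : SU) : g.app 1 = mid (nv g) + I * pp (nv g) := by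
  obtain ⟨h1, h2⟩ := n02_sum_ne g
  have h3 : conj g.a + conj g.b ≠ 0 := by
    rw [← map_add]
    exact (map_ne_zero _).mpr h1
  have h4 : conj g.a - conj g.b ≠ 0 := by
    rw [← map_sub]
    exact (map_ne_zero _).mpr h2
  have hd := n02_det g
  unfold mid pp
  rw [n02_conj]
  have e1 : (((nv g).1 : ℝ) : ℂ) = -I * (g.a * conj g.b - conj g.a * g.b) := n02_im g
  rw [e1]
  unfold SU.app
  have h5 : conj g.b + conj g.a ≠ 0 := by rwa [add_comm]
  rw [mul_one, mul_one]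
  field_simp
  linear_combination (conj g.a + conj g.b) * hd

theorem N02_end2 (g : SU) : g.app (-1) = mid (nv g) - I * pp (nv g) := by
  obtain ⟨h1, h2⟩ := n02_sum_ne g
  have h3 : conj g.a + conj g.b ≠ 0 := by
    rw [← map_add]
    exact (map_ne_zero _).mpr h1
  have h4 : conj g.a - conj g.b ≠ 0 := by
    rw [← map_sub]
    exact (map_ne_zero _).mpr h2
  have hd := n02_det g
  unfold mid pp
  rw [n02_conj]
  have e1 : (((nv g).1 : ℝ) : ℂ) = -I * (g.a * conj g.b - conj g.a * g.b) := n02_im g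
  rw [e1]
  unfold SU.app
  have h5 : conj g.b * -1 + conj g.a = conj g.a - conj g.b := by ring
  rw [h5]
  field_simp
  linear_combination -hd

theorem N02_pp {x : Mk} (hx : IsNrm x) : ‖pp x‖ ^ 2 = Lsq x / 4 := by
  unfold pp Lsq
  rw [norm_div, norm_one, norm_conj]
  have : ‖x.2‖ ≠ 0 := by
    intro h
    unfold IsNrm at hx
    rw [h] at hx
    nlinarith [sq_nonneg x.1]
  field_simp

theorem N02_Lsq_pos {x : Mk} (hx : IsNrm x) : 0 < Lsq x ∧ Lsq x ≤ 4 := by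
  unfold IsNrm at hx
  have h1 : 1 ≤ ‖x.2‖ ^ 2 := by nlinarith [sq_nonneg x.1]
  unfold Lsq
  constructor
  · positivity
  · rw [div_le_iff₀ (by linarith)]
    linarith

theorem N02_chord {x : Mk} (hx : IsNrm x) {y : ℝ} (hy : |y| ≤ 1) :
    ‖mid x + I * pp x * y‖ ≤ 1 := by
  unfold IsNrm at hx
  have h1 : 1 ≤ ‖x.2‖ ^ 2 := by nlinarith [sq_nonneg x.1]
  have hne : ‖x.2‖ ^ 2 ≠ 0 := by linarith
  have hx2 : x.2 ≠ 0 := by
    intro h
    rw [h] at h1
    norm_num at h1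
  have hc : conj x.2 ≠ 0 := (map_ne_zero _).mpr hx2
  have e : mid x + I * pp x * y = ((x.1 : ℂ) + I * y) / conj x.2 := by
    unfold mid pp
    field_simp
  have h2 : ‖mid x + I * pp x * y‖ ^ 2 = (x.1 ^ 2 + y ^ 2) / ‖x.2‖ ^ 2 := by
    rw [e, norm_div, norm_conj, div_pow]
    congr 1
    rw [← normSq_eq_norm_sq, normSq_apply]
    simp only [add_re, ofReal_re, mul_re, I_re, I_im, ofReal_im, add_im, mul_im]
    ring
  have hy2 : y ^ 2 ≤ 1 := by
    have := abs_le.mp hy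
    nlinarith
  have h3 : ‖mid x + I * pp x * y‖ ^ 2 ≤ 1 := by
    rw [h2, div_le_one (by linarith)]
    linarith
  nlinarith [norm_nonneg (mid x + I * pp x * y)]

theorem N02_Lsq_neg (x : Mk) : Lsq (-x) = Lsq x := by
  unfold Lsq
  rw [Prod.snd_neg, norm_neg]

theorem N02_TT (g : SU) (s : ℝ) : nv (g * TT s) = nv g := by
  rw [N01_nv_mul]
  have : nv (TT s) = nv 1 := by
    rw [N01_nv_one]
    unfold nv TT
    apply Prod.ext
    · simp only [conj_ofReal, ← ofReal_mul, ofReal_im, mul_zero]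
    · simp only
      have h := Real.cosh_sq (s / 2)
      have h2 : ((Real.cosh (s / 2) : ℝ) : ℂ) ^ 2 - ((Real.sinh (s / 2) : ℝ) : ℂ) ^ 2 = 1 := by
        rw [← ofReal_pow, ← ofReal_pow, ← ofReal_sub, h]
        simp
      rw [h2, mul_one]
  rw [this, ← N01_nv_mul, mul_one]

theorem N02_iot (g : SU) : nv (g * iot) = -nv g := by
  rw [N01_nv_mul]
  have : nv iot = -nv 1 := by
    rw [N01_nv_one]
    unfold nv iot
    apply Prod.ext
    · simp
    · simp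
  rw [this, N01_lin_neg, ← N01_nv_mul, mul_one]

theorem N02_nv_act {g h : SU} (e : SU.act g = SU.act h) : nv h = nv g := by
  rcases N01_act e with h1 | ⟨h1, h2⟩
  · rw [h1]
  · unfold nv
    rw [h1, h2]
    simp

theorem N02_lin_act {g h : SU} (e : SU.act g = SU.act h) (x : Mk) : h.lin x = g.lin x := by
  rcases N01_act e with h1 | ⟨h1, h2⟩
  · rw [h1]
  · unfold SU.lin
    rw [h1, h2]
    simp

theorem N02_wt_act {g h : SU} (e : SU.act g = SU.act h) (Q : ℂ → ℂ) : wt h Q = wt g Q := by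
  rcases N01_act e with h1 | ⟨h1, h2⟩
  · rw [h1]
  · funext z
    unfold wt SU.app SU.den
    rw [h1, h2]
    have e1 : -g.a * z + -g.b = -(g.a * z + g.b) := by ring
    have e2 : conj (-g.b) * z + conj (-g.a) = -(conj g.b * z + conj g.a) := by
      simp only [map_neg]
      ring
    rw [e1, e2, neg_div_neg_eq]
    congr 1
    ring

theorem N02_wt_mul (g h : SU) (Q : ℂ → ℂ) {z : ℂ} (hz : ‖z‖ ≤ 1) :
    wt (g * h) Q z = wt h (wt g Q) z := by
  unfold wt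
  rw [SU.app_mul _ _ hz]
  have hk : h.den z ≠ 0 := h.den_ne hz
  have e : (g * h).den z = g.den (h.app z) * h.den z := by
    have e2 : h.app z = (h.a * z + h.b) / h.den z := rfl
    rw [e2]
    simp only [SU.den, SU.mul_a, SU.mul_b, map_add, map_mul, conj_conj] at hk ⊢
    field_simp
    ring
  rw [e, mul_pow, div_div]

theorem N02_rot (t : ℝ) : (rot o0 t).a = Complex.exp (((t / 2 : ℝ) : ℂ) * I) ∧ (rot o0 t).b = 0 := by
  have ho : ((o0 : Disc) : ℂ) = 0 := rfl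
  constructor
  · unfold rot
    simp only [ho, norm_zero]
    rw [Complex.exp_mul_I]
    push_cast
    ring
  · unfold rot
    simp only [ho]
    simp

theorem N02_gA (k : ℕ) : (gA ^ k).a = Complex.exp (((Real.pi * k / 7 : ℝ) : ℂ) * I) ∧ (gA ^ k).b = 0 := by
  induction k with
  | zero => simp
  | succ n ih =>
    obtain ⟨h1, h2⟩ := ih
    have hA := N02_rot (2 * Real.pi / 7)
    have e : gA = rot o0 (2 * Real.pi / 7) := rfl
    rw [pow_succ]
    constructor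
    · rw [SU.mul_a, h1, h2, e, hA.1, zero_mul, add_zero, ← Complex.exp_add]
      congr 1
      push_cast
      ring
    · rw [SU.mul_b, h2, e, hA.2, mul_zero, zero_mul, add_zero]

/-- `|φ x|`-estimate: the Euclidean lengths of the chords change at most by the factor `(|a|+|b|)²`. -/
theorem N02_Lsq_lin (g : SU) {x : Mk} (hx : IsNrm x) :
    Lsq (g.lin x) ≤ (‖g.a‖ + ‖g.b‖) ^ 4 * Lsq x := by
  have hy : IsNrm (g.lin x) := N01_lin_nrm g hx
  set y := g.lin x with hyd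
  have hxy : x = g⁻¹.lin y := by
    rw [hyd, ← N01_lin_mul, inv_mul_cancel, N01_lin_one]
  have hy1 : |y.1| ≤ ‖y.2‖ := by
    unfold IsNrm at hy
    apply abs_le_of_sq_le_sq _ (norm_nonneg _)
    linarith
  have hx2 : x.2 = 2 * g⁻¹.a * g⁻¹.b * (y.1 : ℂ) + g⁻¹.a ^ 2 * y.2 + g⁻¹.b ^ 2 * conj y.2 :=
    congrArg Prod.snd hxy
  have ha : ‖g⁻¹.a‖ = ‖g.a‖ := by rw [SU.inv_a, norm_conj]
  have hb : ‖g⁻¹.b‖ = ‖g.b‖ := by rw [SU.inv_b, norm_neg]
  have hx3 : ‖x.2‖ ≤ (‖g.a‖ + ‖g.b‖) ^ 2 * ‖y.2‖ := by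
    rw [hx2]
    refine (norm_add_le _ _).trans ?_
    have h1 := norm_add_le (2 * g⁻¹.a * g⁻¹.b * (y.1 : ℂ)) (g⁻¹.a ^ 2 * y.2)
    have h2 : ‖2 * g⁻¹.a * g⁻¹.b * (y.1 : ℂ)‖ ≤ 2 * ‖g.a‖ * ‖g.b‖ * ‖y.2‖ := by
      rw [norm_mul, norm_mul, norm_mul, ha, hb, Complex.norm_real, Real.norm_eq_abs]
      have : ‖(2 : ℂ)‖ = 2 := by simp
      rw [this]
      exact mul_le_mul_of_nonneg_left hy1 (by positivity)
    have h3 : ‖g⁻¹.a ^ 2 * y.2‖ = ‖g.a‖ ^ 2 * ‖y.2‖ := by rw [norm_mul, norm_pow, ha]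
    have h4 : ‖g⁻¹.b ^ 2 * conj y.2‖ = ‖g.b‖ ^ 2 * ‖y.2‖ := by
      rw [norm_mul, norm_pow, hb, norm_conj]
    rw [h4]
    rw [h3] at h1
    nlinarith
  have hxp : 0 < ‖x.2‖ := by
    unfold IsNrm at hx
    by_contra hcon
    have h0 : ‖x.2‖ = 0 := le_antisymm (not_lt.mp hcon) (norm_nonneg _)
    rw [h0] at hx
    nlinarith [sq_nonneg x.1]
  have hyp : 0 < ‖y.2‖ := by
    unfold IsNrm at hy
    by_contra hcon
    have h0 : ‖y.2‖ = 0 := le_antisymm (not_lt.mp hcon) (norm_nonneg _)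
    rw [h0] at hy
    nlinarith [sq_nonneg y.1]
  unfold Lsq
  have h5 : ‖x.2‖ ^ 2 ≤ (‖g.a‖ + ‖g.b‖) ^ 4 * ‖y.2‖ ^ 2 := by
    have := pow_le_pow_left₀ (norm_nonneg _) hx3 2
    calc ‖x.2‖ ^ 2 ≤ ((‖g.a‖ + ‖g.b‖) ^ 2 * ‖y.2‖) ^ 2 := this
      _ = _ := by ring
  rw [div_le_iff₀ (pow_pos hyp 2)]
  have h6 : (‖g.a‖ + ‖g.b‖) ^ 4 * (4 / ‖x.2‖ ^ 2) * ‖y.2‖ ^ 2 =
      4 * ((‖g.a‖ + ‖g.b‖) ^ 4 * ‖y.2‖ ^ 2 / ‖x.2‖ ^ 2) := by ring
  rw [h6]
  have h7 : 1 ≤ (‖g.a‖ + ‖g.b‖) ^ 4 * ‖y.2‖ ^ 2 / ‖x.2‖ ^ 2 := by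
    rw [le_div_iff₀ (pow_pos hxp 2), one_mul]
    exact h5
  linarith

end Pool.Agent.Lib.H11Q
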