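import Pool.Agent.Lib.H11Q.N02

/-! # H11Q chunk N03 (S/M): the functional `JJ x`. -/

set_option autoImplicit false

namespace Pool.Agent.Lib.H11Q

open Complex Set MeasureTheory Metric
open scoped ComplexConjugate Topology

theorem n03_int {x : Mk} (hx : IsNrm x) {Q : ℂ → ℂ} (h : ContinuousOn Q (closedBall 0 1)) :
    IntervalIntegrable (fun y : ℝ => ((1 - y ^ 2 : ℝ) : ℂ) * Q (mid x + I * pp x * y))
      MeasureTheory.volume (-1) 1 := by
  apply ContinuousOn.intervalIntegrable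
  rw [uIcc_of_le (by norm_num)]
  apply ContinuousOn.mul
  · fun_prop
  · apply h.comp
    · fun_prop
    · intro y hy
      rw [mem_closedBall_zero_iff]
      exact N02_chord hx (abs_le.mpr hy)

theorem N03_neg (x : Mk) (Q : ℂ → ℂ) : JJ (-x) Q = JJ x Q := by
  have hm : mid (-x) = mid x := by
    unfold mid
    simp
  have hp : pp (-x) = -pp x := by
    unfold pp
    simp
  unfold JJ
  rw [hm, hp, neg_sq]
  congr 1
  have h := intervalIntegral.integral_comp_neg (a := -1) (b := 1)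
    (fun y : ℝ => ((1 - y ^ 2 : ℝ) : ℂ) * Q (mid x + I * pp x * y))
  rw [neg_neg] at h
  rw [← h]
  congr 1
  funext y
  push_cast
  congr 2
  · ring
  · ring

theorem N03_add {x : Mk} (hx : IsNrm x) {Q1 Q2 : ℂ → ℂ}
    (h1 : ContinuousOn Q1 (closedBall 0 1)) (h2 : ContinuousOn Q2 (closedBall 0 1)) :
    JJ x (fun z => Q1 z + Q2 z) = JJ x Q1 + JJ x Q2 := by
  unfold JJ
  rw [← mul_add, ← intervalIntegral.integral_add (n03_int hx h1) (n03_int hx h2)]
  congr 2
  funext y
  ring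

theorem N03_smul (x : Mk) (c : ℂ) (Q : ℂ → ℂ) : JJ x (fun z => c * Q z) = c * JJ x Q := by
  unfold JJ
  have : ∀ y : ℝ, ((1 - y ^ 2 : ℝ) : ℂ) * (c * Q (mid x + I * pp x * y)) =
      c * (((1 - y ^ 2 : ℝ) : ℂ) * Q (mid x + I * pp x * y)) := by
    intro y
    ring
  simp_rw [this]
  rw [intervalIntegral.integral_const_mul]
  ring

theorem N03_sum {x : Mk} (hx : IsNrm x) {ι : Type} (s : Finset ι) (Q : ι → ℂ → ℂ)
    (h : ∀ i ∈ s, ContinuousOn (Q i) (closedBall 0 1)) :
    JJ x (fun z => ∑ i ∈ s, Q i z) = ∑ i ∈ s, JJ x (Q i) := by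
  classical
  induction s using Finset.induction_on with
  | empty =>
    simp [JJ]
  | insert a s ha ih =>
    have e : (fun z => ∑ i ∈ insert a s, Q i z) = fun z => Q a z + ∑ i ∈ s, Q i z := by
      funext z
      rw [Finset.sum_insert ha]
    rw [e, N03_add hx (h a (Finset.mem_insert_self a s)), Finset.sum_insert ha,
      ih (fun i hi => h i (Finset.mem_insert_of_mem hi))]
    exact continuousOn_finsetSum s (fun i hi => h i (Finset.mem_insert_of_mem hi))

theorem N03_bound {x : Mk} (hx : IsNrm x) {Q : ℂ → ℂ} {M : ℝ}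
    (hM : ∀ z : ℂ, ‖z‖ ≤ 1 → ‖Q z‖ ≤ M) :
    ‖JJ x Q‖ ≤ M * Lsq x / 6 := by
  have h1 : ‖∫ y in (-1 : ℝ)..1, ((1 - y ^ 2 : ℝ) : ℂ) * Q (mid x + I * pp x * y)‖ ≤
      ∫ y in (-1 : ℝ)..1, (1 - y ^ 2) * M := by
    apply intervalIntegral.norm_integral_le_of_norm_le (by norm_num)
    · refine Filter.Eventually.of_forall (fun y hy => ?_)
      have hy' : |y| ≤ 1 := abs_le.mpr ⟨hy.1.le, hy.2⟩
      have h2 : 0 ≤ 1 - y ^ 2 := by
        have := (sq_le_one_iff_abs_le_one y).mpr hy'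
        linarith
      rw [norm_mul, Complex.norm_real, Real.norm_eq_abs, abs_of_nonneg h2]
      exact mul_le_mul_of_nonneg_left (hM _ (N02_chord hx hy')) h2
    · apply Continuous.intervalIntegrable
      fun_prop
  have h2 : ∫ y in (-1 : ℝ)..1, (1 - y ^ 2) * M = 4 / 3 * M := by
    rw [intervalIntegral.integral_mul_const, intervalIntegral.integral_sub, integral_pow,
      intervalIntegral.integral_const]
    · norm_num
    · exact intervalIntegrable_const
    · apply Continuous.intervalIntegrable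
      fun_prop
  have h3 : ‖-(pp x) ^ 2 / 2‖ = Lsq x / 8 := by
    rw [norm_div, norm_neg, norm_pow, N02_pp hx]
    norm_num
    ring
  have h4 : 0 < Lsq x := (N02_Lsq_pos hx).1
  unfold JJ
  rw [norm_mul, h3]
  rw [h2] at h1
  have := mul_le_mul_of_nonneg_left h1 (show 0 ≤ Lsq x / 8 by linarith)
  linarith

theorem N03_congr {x : Mk} (hx : IsNrm x) {Q1 Q2 : ℂ → ℂ} (h : ∀ z : ℂ, ‖z‖ ≤ 1 → Q1 z = Q2 z) :
    JJ x Q1 = JJ x Q2 := by
  unfold JJ
  congr 1
  apply intervalIntegral.integral_congr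
  intro y hy
  rw [uIcc_of_le (by norm_num)] at hy
  simp only
  rw [h _ (N02_chord hx (abs_le.mpr hy))]

end Pool.Agent.Lib.H11Q
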