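import Pool.Agent.Lib.H11Q.N03

/-! # H11Q chunk N04 (S/M): `JJ` of the monomials. -/

set_option autoImplicit false

namespace Pool.Agent.Lib.H11Q

open Complex Set MeasureTheory Metric
open scoped ComplexConjugate Topology

/-- integral of a function with an explicit primitive -/
theorem n04_ftc {f F : ℝ → ℂ} (hF : ∀ y, HasDerivAt F (f y) y) (hf : Continuous f) :
    ∫ y in (-1 : ℝ)..1, f y = F 1 - F (-1) :=
  intervalIntegral.integral_eq_sub_of_hasDerivAt (fun y _ => hF y) (hf.intervalIntegrable _ _)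

theorem n04_id (y : ℝ) : HasDerivAt (fun y : ℝ => (y : ℂ)) 1 y := Complex.ofRealCLM.hasDerivAt

theorem n04_pow (n : ℕ) (y : ℝ) :
    HasDerivAt (fun y : ℝ => (y : ℂ) ^ (n + 1)) ((n + 1 : ℂ) * (y : ℂ) ^ n) y := by
  have h : HasDerivAt (fun y : ℝ => (y : ℂ) ^ (n + 1)) _ y := (n04_id y).pow (n + 1)
  refine h.congr_deriv ?_
  simp

/-- the basic moments with complex coefficients up to degree 6 -/
theorem n04_poly (c0 c1 c2 c3 c4 : ℂ) :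
    ∫ y in (-1 : ℝ)..1, ((1 - y ^ 2 : ℝ) : ℂ) *
      (c0 + c1 * y + c2 * (y : ℂ) ^ 2 + c3 * (y : ℂ) ^ 3 + c4 * (y : ℂ) ^ 4) =
      4 / 3 * c0 + 4 / 15 * c2 + 4 / 35 * c4 := by
  rw [n04_ftc (F := fun y : ℝ => c0 * (y : ℂ) ^ (0 + 1) + c1 / 2 * (y : ℂ) ^ (1 + 1) +
      (c2 - c0) / 3 * (y : ℂ) ^ (2 + 1) + (c3 - c1) / 4 * (y : ℂ) ^ (3 + 1) +
      (c4 - c2) / 5 * (y : ℂ) ^ (4 + 1) + (-c3) / 6 * (y : ℂ) ^ (5 + 1) +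
      (-c4) / 7 * (y : ℂ) ^ (6 + 1))]
  · push_cast
    ring
  · intro y
    have h := ((((((n04_pow 0 y).const_mul c0).add ((n04_pow 1 y).const_mul (c1 / 2))).add
      ((n04_pow 2 y).const_mul ((c2 - c0) / 3))).add
      ((n04_pow 3 y).const_mul ((c3 - c1) / 4))).add
      ((n04_pow 4 y).const_mul ((c4 - c2) / 5))).add
      ((n04_pow 5 y).const_mul ((-c3) / 6)) |>.add ((n04_pow 6 y).const_mul ((-c4) / 7))
    refine h.congr_deriv ?_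
    push_cast
    ring
  · fun_prop

theorem N04_J0 (x : Mk) : JJ x (fun _ => 1) = 2 / 3 * (-(pp x) ^ 2) := by
  unfold JJ
  have e : ∀ y : ℝ, ((1 - y ^ 2 : ℝ) : ℂ) * 1 = ((1 - y ^ 2 : ℝ) : ℂ) *
      (1 + 0 * y + 0 * (y : ℂ) ^ 2 + 0 * (y : ℂ) ^ 3 + 0 * (y : ℂ) ^ 4) := by
    intro y
    ring
  simp_rw [e]
  rw [n04_poly]
  ring

theorem N04_J1 (x : Mk) : JJ x (fun z => z) = 2 / 3 * (-(pp x) ^ 2) * mid x := by
  unfold JJ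
  have e : ∀ y : ℝ, ((1 - y ^ 2 : ℝ) : ℂ) * (mid x + I * pp x * y) = ((1 - y ^ 2 : ℝ) : ℂ) *
      (mid x + (I * pp x) * y + 0 * (y : ℂ) ^ 2 + 0 * (y : ℂ) ^ 3 + 0 * (y : ℂ) ^ 4) := by
    intro y
    ring
  simp_rw [e]
  rw [n04_poly]
  ring

theorem n04_sq (x : Mk) : (I * pp x) ^ 2 = -(pp x) ^ 2 := by
  rw [mul_pow, I_sq]
  ring

theorem N04_J2 (x : Mk) : JJ x (fun z => z ^ 2) =
    (-(pp x) ^ 2) * (2 / 3 * mid x ^ 2 + 2 / 15 * (-(pp x) ^ 2)) := by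
  unfold JJ
  have e : ∀ y : ℝ, ((1 - y ^ 2 : ℝ) : ℂ) * (mid x + I * pp x * y) ^ 2 = ((1 - y ^ 2 : ℝ) : ℂ) *
      (mid x ^ 2 + (2 * mid x * (I * pp x)) * y + (I * pp x) ^ 2 * (y : ℂ) ^ 2 +
        0 * (y : ℂ) ^ 3 + 0 * (y : ℂ) ^ 4) := by
    intro y
    ring
  simp_rw [e]
  rw [n04_poly, n04_sq]
  ring

theorem N04_J3 (x : Mk) : JJ x (fun z => z ^ 3) =
    (-(pp x) ^ 2) * mid x * (2 / 3 * mid x ^ 2 + 2 / 5 * (-(pp x) ^ 2)) := by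
  unfold JJ
  have e : ∀ y : ℝ, ((1 - y ^ 2 : ℝ) : ℂ) * (mid x + I * pp x * y) ^ 3 = ((1 - y ^ 2 : ℝ) : ℂ) *
      (mid x ^ 3 + (3 * mid x ^ 2 * (I * pp x)) * y + (3 * mid x * (I * pp x) ^ 2) * (y : ℂ) ^ 2 +
        (I * pp x) ^ 3 * (y : ℂ) ^ 3 + 0 * (y : ℂ) ^ 4) := by
    intro y
    ring
  simp_rw [e]
  rw [n04_poly, n04_sq]
  ring

theorem N04_J4 (x : Mk) : JJ x (fun z => z ^ 4) =
    (-(pp x) ^ 2) * (2 / 3 * mid x ^ 4 + 4 / 5 * mid x ^ 2 * (-(pp x) ^ 2) +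
      2 / 35 * (-(pp x) ^ 2) ^ 2) := by
  unfold JJ
  have e : ∀ y : ℝ, ((1 - y ^ 2 : ℝ) : ℂ) * (mid x + I * pp x * y) ^ 4 = ((1 - y ^ 2 : ℝ) : ℂ) *
      (mid x ^ 4 + (4 * mid x ^ 3 * (I * pp x)) * y + (6 * mid x ^ 2 * (I * pp x) ^ 2) * (y : ℂ) ^ 2 +
        (4 * mid x * (I * pp x) ^ 3) * (y : ℂ) ^ 3 + ((I * pp x) ^ 2) ^ 2 * (y : ℂ) ^ 4) := by
    intro y
    ring
  simp_rw [e]
  rw [n04_poly, n04_sq]
  ring

end Pool.Agent.Lib.H11Q
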