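import Pool.Agent.Lib.H11Q.N00

/-! # H11Q chunk N10 (M): the conformal map `th` of the strip onto the disc.

`th ζ = (e^ζ - 1)/(e^ζ + 1)`, `Str = {|Im ζ| < π/2}`.  With `ζ = ξ + iη`, `cos η > 0`:
`|e^ζ + 1|² = e^{2ξ} + 2 e^ξ cos η + 1`, `|e^ζ - 1|² = e^{2ξ} - 2 e^ξ cos η + 1`.
* `N10_den`: `Re (e^ζ + 1) = e^ξ cos η + 1 > 0`.
* `N10_norm`: difference of the two squares is `4 e^ξ cos η > 0`.
* `N10_deriv`: `th' = 2 e^ζ/(e^ζ+1)² = (1 - th²)/2`.
* `N10_sg`: `Im th = Im ((e^ζ-1) conj(e^ζ+1))/|e^ζ+1|² = 2 e^ξ sin η/|e^ζ+1|²`, `1 - |th|² = 4 e^ξ cos η/|e^ζ+1|²`.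
* `N10_bound`: `‖(1-th²)/2‖ = 2 e^ξ/|e^ζ+1|² ≤ 2 e^ξ/(e^{2ξ}+1) ≤ 2 e^{-|ξ|}`.
* `N10_st`: for `‖z‖ < 1`, `(1+z)/(1-z)` has positive real part, so `st z = log(..)` is in the strip
  (`Complex.abs_arg_lt_pi_div_two_iff`) and `exp (st z) = (1+z)/(1-z)`.  `st (th ζ) = ζ`: `(1+th)/(1-th) = e^ζ`, `Complex.log_exp`
  (`|Im ζ| < π/2 < π`).
* `N10_image`, `N10_inj`: consequences.
* `N10_lim_top`, `N10_lim_bot`: `th ζ - 1 = -2/(e^ζ+1)`, `|e^ζ + 1| ≥ e^ξ - 1`; `th ζ + 1 = 2e^ζ/(e^ζ+1)`, `|e^ζ| = e^ξ → 0`.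
* `N10_shift`: `th (ζ + s) = (TT s).app (th ζ)` for real `s`: `e^s = (cosh(s/2)+sinh(s/2))/(cosh(s/2)-sinh(s/2))`; clear denominators. -/

set_option autoImplicit false

namespace Pool.Agent.Lib.H11Q

open Complex Set MeasureTheory Metric Filter
open scoped ComplexConjugate Topology

theorem n10_cos {ζ : ℂ} (h : ζ ∈ Str) : 0 < Real.cos ζ.im := by
  have h1 : |ζ.im| < Real.pi / 2 := h
  rw [abs_lt] at h1
  exact Real.cos_pos_of_mem_Ioo ⟨by linarith [h1.1], h1.2⟩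

theorem n10_re {ζ : ℂ} (h : ζ ∈ Str) : 0 < (Complex.exp ζ).re := by
  rw [Complex.exp_re]
  exact mul_pos (Real.exp_pos _) (n10_cos h)

theorem n10_den' {X : ℂ} (h : 0 < X.re) : X + 1 ≠ 0 := by
  intro h0
  have h1 := congrArg Complex.re h0
  rw [Complex.add_re, Complex.one_re, Complex.zero_re] at h1
  linarith

theorem n10_sq (X : ℂ) : ‖X + 1‖ ^ 2 - ‖X - 1‖ ^ 2 = 4 * X.re := by
  rw [← Complex.normSq_eq_norm_sq, ← Complex.normSq_eq_norm_sq]
  simp only [Complex.normSq_apply, Complex.add_re, Complex.sub_re, Complex.add_im, Complex.sub_im, Complex.one_re,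
    Complex.one_im]
  ring

theorem n10_sq_ge {X : ℂ} (h : 0 < X.re) : ‖X‖ ^ 2 + 1 ≤ ‖X + 1‖ ^ 2 := by
  rw [← Complex.normSq_eq_norm_sq, ← Complex.normSq_eq_norm_sq]
  simp only [Complex.normSq_apply, Complex.add_re, Complex.add_im, Complex.one_re, Complex.one_im]
  nlinarith

theorem N10_den {ζ : ℂ} (h : ζ ∈ Str) : Complex.exp ζ + 1 ≠ 0 := n10_den' (n10_re h)

theorem N10_norm {ζ : ℂ} (h : ζ ∈ Str) : ‖th ζ‖ < 1 := by
  have h1 := n10_re h
  have h2 := n10_sq (Complex.exp ζ)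
  have h3 : 0 < ‖Complex.exp ζ + 1‖ := norm_pos_iff.mpr (N10_den h)
  unfold th
  rw [norm_div, div_lt_one h3]
  exact lt_of_pow_lt_pow_left₀ 2 h3.le (by linarith)

theorem n10_th1 {ζ : ℂ} (h : ζ ∈ Str) : (1 - th ζ ^ 2) / 2 = 2 * Complex.exp ζ / (Complex.exp ζ + 1) ^ 2 := by
  have h1 := N10_den h
  unfold th
  field_simp
  ring

theorem N10_deriv {ζ : ℂ} (h : ζ ∈ Str) : HasDerivAt th ((1 - th ζ ^ 2) / 2) ζ := by
  have h1 := N10_den h
  have h2 : HasDerivAt (fun z : ℂ => (Complex.exp z - 1) / (Complex.exp z + 1))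
      ((Complex.exp ζ * (Complex.exp ζ + 1) - (Complex.exp ζ - 1) * Complex.exp ζ) / (Complex.exp ζ + 1) ^ 2) ζ :=
    ((Complex.hasDerivAt_exp ζ).sub_const 1).div ((Complex.hasDerivAt_exp ζ).add_const 1) h1
  rw [n10_th1 h]
  have e : (Complex.exp ζ * (Complex.exp ζ + 1) - (Complex.exp ζ - 1) * Complex.exp ζ) = 2 * Complex.exp ζ := by ring
  rw [e] at h2
  exact h2

theorem N10_sg {ζ : ℂ} (h : ζ ∈ Str) : sg (th ζ) = Real.tan ζ.im := by
  have h1 := n10_re h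
  have h2 := N10_den h
  have h3 : 0 < Complex.normSq (Complex.exp ζ + 1) := Complex.normSq_pos.mpr h2
  have h4 : (th ζ).im = 2 * (Complex.exp ζ).im / Complex.normSq (Complex.exp ζ + 1) := by
    unfold th
    rw [Complex.div_im]
    simp only [Complex.sub_im, Complex.sub_re, Complex.add_re, Complex.add_im, Complex.one_re, Complex.one_im]
    field_simp
    ring
  have h5 : 1 - ‖th ζ‖ ^ 2 = 4 * (Complex.exp ζ).re / Complex.normSq (Complex.exp ζ + 1) := by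
    unfold th
    rw [norm_div, div_pow, ← n10_sq, ← Complex.normSq_eq_norm_sq (Complex.exp ζ + 1)]
    field_simp
  unfold sg
  rw [h4, h5, Real.tan_eq_sin_div_cos, Complex.exp_re, Complex.exp_im]
  have h6 := n10_cos h
  have h7 := Real.exp_pos ζ.re
  field_simp
  ring

theorem N10_bound {ζ : ℂ} (h : ζ ∈ Str) : ‖(1 - th ζ ^ 2) / 2‖ ≤ 2 * Real.exp (-|ζ.re|) := by
  rw [n10_th1 h, norm_div, norm_mul, norm_pow, Complex.norm_two, Complex.norm_exp]
  have h1 := n10_sq_ge (n10_re h)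
  rw [Complex.norm_exp] at h1
  have h2 : 0 < ‖Complex.exp ζ + 1‖ ^ 2 := pow_pos (norm_pos_iff.mpr (N10_den h)) 2
  have h7 := Real.exp_pos ζ.re
  rw [div_le_iff₀ h2, mul_assoc]
  refine mul_le_mul_of_nonneg_left ?_ (by norm_num)
  rcases le_total 0 ζ.re with h3 | h3
  · rw [abs_of_nonneg h3]
    have h4 : Real.exp (-ζ.re) * Real.exp ζ.re = 1 := by rw [← Real.exp_add]; simp
    calc Real.exp ζ.re = Real.exp (-ζ.re) * Real.exp ζ.re ^ 2 := by
          rw [sq, ← mul_assoc, h4, one_mul]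
      _ ≤ Real.exp (-ζ.re) * ‖Complex.exp ζ + 1‖ ^ 2 :=
          mul_le_mul_of_nonneg_left (by linarith) (Real.exp_pos _).le
  · rw [abs_of_nonpos h3, neg_neg]
    calc Real.exp ζ.re = Real.exp ζ.re * 1 := (mul_one _).symm
      _ ≤ Real.exp ζ.re * ‖Complex.exp ζ + 1‖ ^ 2 :=
          mul_le_mul_of_nonneg_left (by nlinarith [sq_nonneg (Real.exp ζ.re)]) h7.le

theorem n10_w {z : ℂ} (hz : ‖z‖ < 1) : 1 - z ≠ 0 ∧ 1 + z ≠ 0 ∧ 0 < ((1 + z) / (1 - z)).re := by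
  have h1 : 1 - z ≠ 0 := by
    intro h0
    have h2 : z = 1 := (sub_eq_zero.mp h0).symm
    rw [h2, norm_one] at hz
    exact lt_irrefl _ hz
  have h1' : 1 + z ≠ 0 := by
    intro h0
    have h2 : z = -1 := by linear_combination h0
    rw [h2, norm_neg, norm_one] at hz
    exact lt_irrefl _ hz
  refine ⟨h1, h1', ?_⟩
  have h3 : 0 < Complex.normSq (1 - z) := Complex.normSq_pos.mpr h1
  have h4 : ((1 + z) / (1 - z)).re = (1 - ‖z‖ ^ 2) / Complex.normSq (1 - z) := by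
    rw [Complex.div_re, ← Complex.normSq_eq_norm_sq]
    simp only [Complex.add_re, Complex.sub_re, Complex.add_im, Complex.sub_im, Complex.one_re, Complex.one_im,
      Complex.normSq_apply z]
    field_simp
    ring
  rw [h4]
  apply div_pos _ h3
  nlinarith [norm_nonneg z]

theorem N10_st {z : ℂ} (hz : ‖z‖ < 1) : st z ∈ Str ∧ th (st z) = z := by
  obtain ⟨h1, h2, h3⟩ := n10_w hz
  constructor
  · change |(Complex.log ((1 + z) / (1 - z))).im| < Real.pi / 2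
    rw [Complex.log_im]
    exact Complex.abs_arg_lt_pi_div_two_iff.mpr (Or.inl h3)
  · unfold th st
    rw [Complex.exp_log (div_ne_zero h2 h1)]
    have h4 : (1 + z) / (1 - z) + 1 ≠ 0 := n10_den' h3
    field_simp
    ring

theorem N10_st_th {ζ : ℂ} (h : ζ ∈ Str) : st (th ζ) = ζ := by
  have h1 := N10_den h
  have h2 : |ζ.im| < Real.pi / 2 := h
  rw [abs_lt] at h2
  have h3 : (1 + th ζ) / (1 - th ζ) = Complex.exp ζ := by
    have h4 : 1 + th ζ = 2 * Complex.exp ζ / (Complex.exp ζ + 1) := by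
      unfold th
      field_simp
      ring
    have h5 : 1 - th ζ = 2 / (Complex.exp ζ + 1) := by
      unfold th
      field_simp
      ring
    rw [h4, h5]
    field_simp
  unfold st
  rw [h3, Complex.log_exp (by linarith [h2.1, Real.pi_pos]) (by linarith [h2.2, Real.pi_pos])]

theorem N10_st_deriv {z : ℂ} (hz : ‖z‖ < 1) : HasDerivAt st (2 / (1 - z ^ 2)) z := by
  obtain ⟨h1, h2, h3⟩ := n10_w hz
  have h4 : HasDerivAt (fun w : ℂ => (1 + w) / (1 - w)) ((1 * (1 - z) - (1 + z) * (-1)) / (1 - z) ^ 2) z :=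
    ((hasDerivAt_id z).const_add 1).div ((hasDerivAt_id z).const_sub 1) h1
  have h5 := h4.clog (Or.inl h3)
  have e : (1 * (1 - z) - (1 + z) * (-1)) / (1 - z) ^ 2 / ((1 + z) / (1 - z)) = 2 / (1 - z ^ 2) := by
    have h6 : (1 - z ^ 2) = (1 + z) * (1 - z) := by ring
    rw [h6]
    field_simp
    ring
  rw [e] at h5
  exact h5

theorem N10_inj : InjOn th Str := by
  intro a ha b hb hab
  rw [← N10_st_th ha, ← N10_st_th hb, hab]

theorem N10_image : th '' Str = ball (0 : ℂ) 1 := by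
  ext z
  rw [mem_ball_zero_iff]
  constructor
  · rintro ⟨ζ, hζ, rfl⟩
    exact N10_norm hζ
  · intro hz
    exact ⟨st z, (N10_st hz).1, (N10_st hz).2⟩

theorem N10_open : IsOpen Str ∧ MeasurableSet Str := by
  have h1 : IsOpen Str := isOpen_lt (by fun_prop) continuous_const
  exact ⟨h1, h1.measurableSet⟩

theorem n10_mem {ξ η : ℝ} (hη : |η| < Real.pi / 2) : (ξ + η * I : ℂ) ∈ Str := by
  change |(ξ + η * I : ℂ).im| < Real.pi / 2
  simpa using hη

theorem N10_lim_top {η : ℝ} (hη : |η| < Real.pi / 2) :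
    Tendsto (fun ξ : ℝ => th (ξ + η * I)) atTop (𝓝 1) := by
  rw [tendsto_iff_norm_sub_tendsto_zero]
  have h1 : ∀ ξ : ℝ, ‖th (ξ + η * I) - 1‖ ≤ 2 * Real.exp (-ξ) := by
    intro ξ
    have h := n10_mem (ξ := ξ) hη
    have h2 := N10_den h
    have h3 : th (ξ + η * I) - 1 = -2 / (Complex.exp (ξ + η * I) + 1) := by
      unfold th
      field_simp
      ring
    have h4 : Real.exp ξ ≤ ‖Complex.exp (ξ + η * I) + 1‖ := by
      have h5 := n10_sq_ge (n10_re h)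
      rw [Complex.norm_exp] at h5
      have h6 : (ξ + η * I : ℂ).re = ξ := by simp
      rw [h6] at h5
      exact le_of_sq_le_sq (by linarith) (norm_nonneg _)
    rw [h3, norm_div, norm_neg, Complex.norm_two, Real.exp_neg, ← div_eq_mul_inv]
    exact div_le_div_of_nonneg_left (by norm_num) (Real.exp_pos _) h4
  have h2 : Tendsto (fun ξ : ℝ => 2 * Real.exp (-ξ)) atTop (𝓝 0) := by
    have := (Real.tendsto_exp_neg_atTop_nhds_zero).const_mul 2
    rwa [mul_zero] at this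
  exact squeeze_zero (fun _ => norm_nonneg _) h1 h2

theorem N10_lim_bot {η : ℝ} (hη : |η| < Real.pi / 2) :
    Tendsto (fun ξ : ℝ => th (ξ + η * I)) atBot (𝓝 (-1)) := by
  rw [tendsto_iff_norm_sub_tendsto_zero]
  have h1 : ∀ ξ : ℝ, ‖th (ξ + η * I) - -1‖ ≤ 2 * Real.exp ξ := by
    intro ξ
    have h := n10_mem (ξ := ξ) hη
    have h2 := N10_den h
    have h3 : th (ξ + η * I) - -1 = 2 * Complex.exp (ξ + η * I) / (Complex.exp (ξ + η * I) + 1) := by
      unfold th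
      field_simp
      ring
    have h5 := n10_sq_ge (n10_re h)
    have h4 : 1 ≤ ‖Complex.exp (ξ + η * I) + 1‖ := by
      nlinarith [norm_nonneg (Complex.exp (ξ + η * I) + 1), sq_nonneg ‖Complex.exp (ξ + η * I)‖]
    have h6 : (ξ + η * I : ℂ).re = ξ := by simp
    rw [h3, norm_div, norm_mul, Complex.norm_two, Complex.norm_exp, h6]
    exact div_le_self (by positivity) h4
  have h2 : Tendsto (fun ξ : ℝ => 2 * Real.exp ξ) atBot (𝓝 0) := by
    have := (Real.tendsto_exp_atBot).const_mul 2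
    rwa [mul_zero] at this
  exact squeeze_zero (fun _ => norm_nonneg _) h1 h2

theorem N10_shift {ζ : ℂ} (h : ζ ∈ Str) (s : ℝ) :
    ζ + s ∈ Str ∧ th (ζ + s) = (TT s).app (th ζ) := by
  have hmem : ζ + s ∈ Str := by
    change |(ζ + (s : ℂ)).im| < Real.pi / 2
    have h1 : |ζ.im| < Real.pi / 2 := h
    simpa using h1
  refine ⟨hmem, ?_⟩
  have h1 := N10_den h
  have h2 := N10_den hmem
  have hu : (0 : ℝ) < Real.exp (s / 2) := Real.exp_pos _
  have hexp : Complex.exp (ζ + s) = ((Real.exp (s / 2) : ℝ) : ℂ) ^ 2 * Complex.exp ζ := by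
    rw [Complex.exp_add, mul_comm, ← Complex.ofReal_pow, ← Real.exp_nat_mul, ← Complex.ofReal_exp]
    congr 3
    push_cast
    ring_nf
  have hch : ((Real.cosh (s / 2) : ℝ) : ℂ) = (((Real.exp (s / 2) : ℝ) : ℂ) + (((Real.exp (s / 2) : ℝ) : ℂ))⁻¹) / 2 := by
    rw [Real.cosh_eq, Real.exp_neg]
    push_cast
    ring
  have hsh : ((Real.sinh (s / 2) : ℝ) : ℂ) = (((Real.exp (s / 2) : ℝ) : ℂ) - (((Real.exp (s / 2) : ℝ) : ℂ))⁻¹) / 2 := by
    rw [Real.sinh_eq, Real.exp_neg]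
    push_cast
    ring
  have huC : ((Real.exp (s / 2) : ℝ) : ℂ) ≠ 0 := by exact_mod_cast hu.ne'
  have hd := (TT s).den_ne (N10_norm h).le
  unfold SU.den at hd
  unfold SU.app
  rw [eq_div_iff hd]
  simp only [TT, Complex.conj_ofReal]
  rw [hexp] at h2
  unfold th
  rw [hexp, hch, hsh]
  generalize ((Real.exp (s / 2) : ℝ) : ℂ) = u at *
  generalize Complex.exp ζ = X at *
  field_simp
  ring

theorem N10_neg {ζ : ℂ} (h : ζ ∈ Str) : -ζ ∈ Str ∧ th (-ζ) = iot.app (th ζ) := by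
  have hmem : -ζ ∈ Str := by
    change |(-ζ).im| < Real.pi / 2
    have h1 : |ζ.im| < Real.pi / 2 := h
    simpa using h1
  refine ⟨hmem, ?_⟩
  have h1 := N10_den h
  have h2 : Complex.exp ζ ≠ 0 := Complex.exp_ne_zero ζ
  have h3 : iot.app (th ζ) = -th ζ := by
    unfold SU.app
    simp only [iot, add_zero, map_zero, zero_mul, zero_add, Complex.conj_I]
    rw [div_neg, mul_div_assoc, mul_comm, div_mul_cancel₀ _ Complex.I_ne_zero]
  rw [h3]
  unfold th
  rw [Complex.exp_neg]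
  have h4 : (Complex.exp ζ)⁻¹ + 1 ≠ 0 := by
    rw [← Complex.exp_neg]
    exact N10_den hmem
  have h5 : (Complex.exp ζ)⁻¹ + 1 = (Complex.exp ζ + 1) / Complex.exp ζ := by
    field_simp
    ring
  have h6 : (Complex.exp ζ)⁻¹ - 1 = -(Complex.exp ζ - 1) / Complex.exp ζ := by
    field_simp
    ring
  rw [h5, h6, div_div_div_cancel_right₀ h2, neg_div]

end Pool.Agent.Lib.H11Q
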