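import Pool.Agent.Lib.H11Q.N10

/-! # H11Q chunk N12 (S/M): Fubini on the strip.

PROOF.  `Complex.measurableEquivRealProd`, `Complex.volume_preserving_equiv_real_prod`: `∫_{Str} H = ∫ over {(ξ,η) : |η| < π/2}` of
`H (ξ + η I)`; the set is `univ ×ˢ Ioo (-π/2) (π/2)`; `MeasureTheory.integral_prod_symm` / `setIntegral_prod` after `Prod.swap`. -/

set_option autoImplicit false

namespace Pool.Agent.Lib.H11Q

open Complex Set MeasureTheory Metric Filter
open scoped ComplexConjugate Topology

theorem N12_fubini {H : ℂ → ℂ} (hH : IntegrableOn H Str) :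
    ∫ ζ in Str, H ζ = ∫ η in Ioo (-(Real.pi / 2)) (Real.pi / 2), ∫ ξ : ℝ, H (ξ + η * I) := by
  have hmp := Complex.volume_preserving_equiv_real_prod.symm
  have hme := Complex.measurableEquivRealProd.symm.measurableEmbedding
  have hpre : Complex.measurableEquivRealProd.symm ⁻¹' Str =
      (univ : Set ℝ) ×ˢ Ioo (-(Real.pi / 2)) (Real.pi / 2) := by
    ext p
    simp only [mem_preimage, mem_prod, mem_univ, true_and, mem_Ioo]
    change |(Complex.measurableEquivRealProd.symm p).im| < Real.pi / 2 ↔ _
    rw [Complex.measurableEquivRealProd_symm_apply]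
    exact abs_lt
  have hval : ∀ ξ η : ℝ, Complex.measurableEquivRealProd.symm (ξ, η) = (ξ + η * I : ℂ) := by
    intro ξ η
    exact Complex.mk_eq_add_mul_I ξ η
  have h1 : ∫ p in (univ : Set ℝ) ×ˢ Ioo (-(Real.pi / 2)) (Real.pi / 2), H (Complex.measurableEquivRealProd.symm p) =
      ∫ ζ in Str, H ζ := by
    rw [← hpre]
    exact hmp.setIntegral_preimage_emb hme H Str
  have h2 : IntegrableOn (fun p => H (Complex.measurableEquivRealProd.symm p))
      ((univ : Set ℝ) ×ˢ Ioo (-(Real.pi / 2)) (Real.pi / 2)) := by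
    rw [← hpre]
    exact (hmp.integrableOn_comp_preimage hme).mpr hH
  unfold IntegrableOn at h2
  rw [← h1]
  rw [Measure.volume_eq_prod, ← Measure.prod_restrict, Measure.restrict_univ] at h2 ⊢
  rw [integral_prod_symm _ h2]
  refine integral_congr_ae (Filter.Eventually.of_forall fun η => ?_)
  refine integral_congr_ae (Filter.Eventually.of_forall fun ξ => ?_)
  change H (Complex.measurableEquivRealProd.symm (ξ, η)) = H (ξ + η * I)
  rw [hval]

end Pool.Agent.Lib.H11Q
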