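import Pool.Agent.Lib.H11Q.N10

/-! # H11Q chunk N13 (M): the integral along a horizontal line of the strip.

PROOF.  `u(ξ) = G (th (ξ + η I))` has the derivative `F (th ζ) (1-th ζ²)/2 · (1 - th ζ²)/2` (`ζ = ξ + η I`, `N10_deriv`,
`HasDerivAt.comp_ofReal`), which is integrable over `ℝ`: it is continuous (`F` is continuous on the ball) and bounded by
`M · 4 e^{-2|ξ|}` (`N10_bound`; `integrable_exp_neg_abs`-type lemma, or `integrable_of_...` on the two half lines with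
`integrableOn_exp_mul_..`).  The limits at `±∞` are `g1`, `g2` by `N10_lim_top`, `N10_lim_bot` and `N10_norm`
(tendsto to `𝓝[ball 0 1] (±1)`).  Then `MeasureTheory.integral_of_hasDerivAt_of_tendsto`. -/

set_option autoImplicit false

namespace Pool.Agent.Lib.H11Q

open Complex Set MeasureTheory Metric Filter
open scoped ComplexConjugate Topology

theorem N13_line {F G : ℂ → ℂ} {M : ℝ} {g1 g2 : ℂ} (hF : ContinuousOn F (ball 0 1))
    (hM : ∀ z ∈ ball (0 : ℂ) 1, ‖F z‖ ≤ M)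
    (hG : ∀ z ∈ ball (0 : ℂ) 1, HasDerivAt G (F z * ((1 - z ^ 2) / 2)) z)
    (h1 : Tendsto G (𝓝[ball (0 : ℂ) 1] 1) (𝓝 g1)) (h2 : Tendsto G (𝓝[ball (0 : ℂ) 1] (-1)) (𝓝 g2))
    {η : ℝ} (hη : |η| < Real.pi / 2) :
    ∫ ξ : ℝ, F (th (ξ + η * I)) * ((1 - th (ξ + η * I) ^ 2) / 2) ^ 2 = g1 - g2 := by
  have hmem : ∀ ξ : ℝ, (ξ + η * I : ℂ) ∈ Str := fun ξ => n10_mem hη
  have hball : ∀ ξ : ℝ, th (ξ + η * I) ∈ ball (0 : ℂ) 1 := fun ξ => by
    rw [mem_ball_zero_iff]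
    exact N10_norm (hmem ξ)
  have hder : ∀ ξ : ℝ, HasDerivAt (fun x : ℝ => G (th (x + η * I)))
      (F (th (ξ + η * I)) * ((1 - th (ξ + η * I) ^ 2) / 2) ^ 2) ξ := by
    intro ξ
    have h3 : HasDerivAt (fun w : ℂ => G (th w))
        (F (th (ξ + η * I)) * ((1 - th (ξ + η * I) ^ 2) / 2) * ((1 - th (ξ + η * I) ^ 2) / 2)) (ξ + η * I) :=
      (hG _ (hball ξ)).comp _ (N10_deriv (hmem ξ))
    have h4 := (HasDerivAt.comp_add_const (ξ : ℂ) (η * I) h3).comp_ofReal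
    rw [mul_assoc, ← sq] at h4
    exact h4
  have hcont : Continuous fun ξ : ℝ => th (ξ + η * I) := by
    unfold th
    refine Continuous.div (by fun_prop) (by fun_prop) fun ξ => N10_den (hmem ξ)
  have hM0 : 0 ≤ M := (norm_nonneg _).trans (hM 0 (mem_ball_self one_pos))
  have hint : Integrable fun ξ : ℝ => F (th (ξ + η * I)) * ((1 - th (ξ + η * I) ^ 2) / 2) ^ 2 := by
    refine Integrable.mono' (g := fun ξ : ℝ => 4 * M * (1 + ξ ^ 2)⁻¹) (integrable_inv_one_add_sq.const_mul _) ?_ ?_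
    · refine Continuous.aestronglyMeasurable ?_
      exact (hF.comp_continuous hcont hball).mul (((continuous_const.sub (hcont.pow 2)).div_const 2).pow 2)
    · refine Filter.Eventually.of_forall fun ξ => ?_
      have h3 := N10_bound (hmem ξ)
      have h4 : (ξ + η * I : ℂ).re = ξ := by simp
      rw [h4] at h3
      rw [norm_mul, norm_pow]
      have h5 : ‖(1 - th (ξ + η * I) ^ 2) / 2‖ ^ 2 ≤ 4 * (1 + ξ ^ 2)⁻¹ := by
        have h6 : ‖(1 - th (ξ + η * I) ^ 2) / 2‖ ^ 2 ≤ (2 * Real.exp (-|ξ|)) ^ 2 :=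
          pow_le_pow_left₀ (norm_nonneg _) h3 2
        have h7 : (2 * Real.exp (-|ξ|)) ^ 2 = 4 * (Real.exp (2 * |ξ|))⁻¹ := by
          rw [mul_pow, ← Real.exp_nat_mul, ← Real.exp_neg]
          push_cast
          norm_num
        have h8 := Real.quadratic_le_exp_of_nonneg (x := 2 * |ξ|) (by positivity)
        have h9 : 1 + ξ ^ 2 ≤ Real.exp (2 * |ξ|) := by
          have h10 : (2 * |ξ|) ^ 2 = 4 * ξ ^ 2 := by rw [mul_pow, sq_abs]; norm_num
          rw [h10] at h8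
          nlinarith [abs_nonneg ξ, sq_nonneg ξ]
        have h11 : (Real.exp (2 * |ξ|))⁻¹ ≤ (1 + ξ ^ 2)⁻¹ := inv_anti₀ (by positivity) h9
        linarith
      calc ‖F (th (ξ + η * I))‖ * ‖(1 - th (ξ + η * I) ^ 2) / 2‖ ^ 2 ≤ M * (4 * (1 + ξ ^ 2)⁻¹) :=
            mul_le_mul (hM _ (hball ξ)) h5 (by positivity) hM0
        _ = 4 * M * (1 + ξ ^ 2)⁻¹ := by ring
  have htop : Tendsto (fun x : ℝ => G (th (x + η * I))) atTop (𝓝 g1) :=
    h1.comp (tendsto_nhdsWithin_iff.mpr ⟨N10_lim_top hη, Filter.Eventually.of_forall hball⟩)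
  have hbot : Tendsto (fun x : ℝ => G (th (x + η * I))) atBot (𝓝 g2) :=
    h2.comp (tendsto_nhdsWithin_iff.mpr ⟨N10_lim_bot hη, Filter.Eventually.of_forall hball⟩)
  exact integral_of_hasDerivAt_of_tendsto hder hint hbot htop

end Pool.Agent.Lib.H11Q
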