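import Pool.Agent.Lib.H11Q.N10

/-! # H11Q chunk N14 (S/M): the step function.

PROOFS.  `theta w x = smoothTransition ((x/w + 1)/2)`.
* `N14_smooth`: `Real.smoothTransition.contDiff`.
* `N14_low`, `N14_high`: `Real.smoothTransition.zero_of_nonpos`, `one_of_one_le`.
* `N14_deriv_zero`: if `w < |x|` then `theta w` is locally constant near `x`.
* `N14_deriv_bdd`: the derivative is continuous and has compact support.
* `N14_int`: `d/dη theta w (tan η) = theta' (tan η) (1 + tan² η)` on `(-π/2, π/2)`; outside `[-α, α]`, `α = arctan (2w)`, the integrand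
  vanishes; on `[-α, α]` the fundamental theorem of calculus gives `theta w (2w) - theta w (-2w) = 1`. -/

set_option autoImplicit false

namespace Pool.Agent.Lib.H11Q

open Complex Set MeasureTheory Metric Filter
open scoped ComplexConjugate Topology

theorem N14_smooth {w : ℝ} : ContDiff ℝ 2 (theta w) := by
  unfold theta
  have h1 : ContDiff ℝ 2 Real.smoothTransition := Real.smoothTransition.contDiff
  have h2 : ContDiff ℝ 2 fun x : ℝ => (x / w + 1) / 2 := by fun_prop
  exact h1.comp h2

theorem N14_low {w : ℝ} (hw : 0 < w) {x : ℝ} (hx : x ≤ -w) : theta w x = 0 := by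
  unfold theta
  apply Real.smoothTransition.zero_of_nonpos
  have : x / w ≤ -1 := by
    rw [div_le_iff₀ hw]
    linarith
  linarith

theorem N14_high {w : ℝ} (hw : 0 < w) {x : ℝ} (hx : w ≤ x) : theta w x = 1 := by
  unfold theta
  apply Real.smoothTransition.one_of_one_le
  have : 1 ≤ x / w := by
    rw [le_div_iff₀ hw]
    linarith
  linarith

theorem N14_deriv_zero {w : ℝ} (hw : 0 < w) {x : ℝ} (hx : w < |x|) : deriv (theta w) x = 0 := by
  rcases lt_abs.mp hx with h | h
  · have hev : theta w =ᶠ[𝓝 x] fun _ => 1 := by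
      filter_upwards [lt_mem_nhds h] with y hy
      exact N14_high hw hy.le
    rw [hev.deriv_eq, deriv_const]
  · have h' : x < -w := by linarith
    have hev : theta w =ᶠ[𝓝 x] fun _ => 0 := by
      filter_upwards [gt_mem_nhds h'] with y hy
      exact N14_low hw hy.le
    rw [hev.deriv_eq, deriv_const]

theorem N14_deriv_cont {w : ℝ} : Continuous (deriv (theta w)) := by
  exact (N14_smooth (w := w)).continuous_deriv (by norm_num)

theorem N14_deriv_bdd {w : ℝ} (hw : 0 < w) :
    ∃ M : ℝ, ∀ x, |deriv (theta w) x * (1 + x ^ 2)| ≤ M := by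
  have hc : Continuous fun x => |deriv (theta w) x * (1 + x ^ 2)| :=
    (N14_deriv_cont.mul (by fun_prop)).abs
  obtain ⟨x0, -, hM⟩ := (isCompact_Icc (a := -w) (b := w)).exists_isMaxOn
    ⟨0, by constructor <;> linarith⟩ hc.continuousOn
  refine ⟨max (|deriv (theta w) x0 * (1 + x0 ^ 2)|) 0, fun x => ?_⟩
  by_cases hx : |x| ≤ w
  · exact (hM (mem_Icc.mpr (abs_le.mp hx))).trans (le_max_left _ _)
  · rw [N14_deriv_zero hw (not_le.mp hx), zero_mul, abs_zero]
    exact le_max_right _ _

theorem N14_int {w : ℝ} (hw : 0 < w) :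
    ∫ η in Ioo (-(Real.pi / 2)) (Real.pi / 2),
      deriv (theta w) (Real.tan η) * (1 + Real.tan η ^ 2) = 1 := by
  set α : ℝ := Real.arctan (2 * w) with hα
  have hα0 : 0 < α := by
    rw [hα]
    exact Real.arctan_pos.mpr (by linarith)
  have hα1 : α < Real.pi / 2 := Real.arctan_lt_pi_div_two _
  have hsub : Icc (-α) α ⊆ Ioo (-(Real.pi / 2)) (Real.pi / 2) := fun η hη =>
    ⟨by linarith [hη.1], by linarith [hη.2]⟩
  have hzero : ∀ η ∈ Ioo (-(Real.pi / 2)) (Real.pi / 2) \ Ioc (-α) α,
      deriv (theta w) (Real.tan η) * (1 + Real.tan η ^ 2) = 0 := by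
    intro η hη
    have h1 : w < |Real.tan η| := by
      by_cases h : -α < η
      · have h2 : α < η := by
          by_contra hcon
          exact hη.2 ⟨h, not_lt.mp hcon⟩
        have h3 : Real.tan α < Real.tan η :=
          Real.tan_lt_tan_of_lt_of_lt_pi_div_two (by linarith) hη.1.2 h2
        rw [hα, Real.tan_arctan] at h3
        exact lt_of_lt_of_le (by linarith) (le_abs_self _)
      · have h2 : η ≤ -α := not_lt.mp h
        have h3 : Real.tan α ≤ Real.tan (-η) := by
          rcases (show α ≤ -η by linarith).lt_or_eq with h4 | h4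
          · exact (Real.tan_lt_tan_of_lt_of_lt_pi_div_two (by linarith) (by linarith [hη.1.1])
              h4).le
          · rw [h4]
        rw [hα, Real.tan_arctan, Real.tan_neg] at h3
        exact lt_of_lt_of_le (by linarith) (neg_le_abs _)
    rw [N14_deriv_zero hw h1, zero_mul]
  have e1 : ∫ η in Ioo (-(Real.pi / 2)) (Real.pi / 2),
      deriv (theta w) (Real.tan η) * (1 + Real.tan η ^ 2) =
      ∫ η in Ioc (-α) α, deriv (theta w) (Real.tan η) * (1 + Real.tan η ^ 2) := by
    exact setIntegral_eq_of_subset_of_forall_diff_eq_zero measurableSet_Ioo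
      (Ioc_subset_Icc_self.trans hsub) hzero
  rw [e1, ← intervalIntegral.integral_of_le (by linarith)]
  have hder : ∀ η ∈ uIcc (-α) α, HasDerivAt (fun η => theta w (Real.tan η))
      (deriv (theta w) (Real.tan η) * (1 + Real.tan η ^ 2)) η := by
    intro η hη
    rw [uIcc_of_le (by linarith)] at hη
    have hη' := hsub hη
    have hcos : Real.cos η ≠ 0 := (Real.cos_pos_of_mem_Ioo hη').ne'
    have h1 : HasDerivAt Real.tan (1 + Real.tan η ^ 2) η := by
      have h2 := Real.hasDerivAt_tan hcos
      have h3 : 1 / Real.cos η ^ 2 = 1 + Real.tan η ^ 2 := by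
        rw [Real.tan_eq_sin_div_cos]
        have := Real.sin_sq_add_cos_sq η
        field_simp
        linarith
      rwa [h3] at h2
    have h4 : HasDerivAt (theta w) (deriv (theta w) (Real.tan η)) (Real.tan η) :=
      ((N14_smooth (w := w)).differentiable (by norm_num) _).hasDerivAt
    exact h4.comp η h1
  rw [intervalIntegral.integral_eq_sub_of_hasDerivAt hder]
  · have h1 : theta w (Real.tan α) = 1 := by
      rw [hα, Real.tan_arctan]
      exact N14_high hw (by linarith)
    have h2 : theta w (Real.tan (-α)) = 0 := by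
      rw [Real.tan_neg, hα, Real.tan_arctan]
      exact N14_low hw (by linarith)
    rw [h1, h2, sub_zero]
  · apply ContinuousOn.intervalIntegrable
    rw [uIcc_of_le (by linarith)]
    have ht : ContinuousOn Real.tan (Icc (-α) α) := Real.continuousOn_tan_Ioo.mono hsub
    apply ContinuousOn.mul
    · exact N14_deriv_cont.comp_continuousOn ht
    · exact continuousOn_const.add (ht.pow 2)

end Pool.Agent.Lib.H11Q
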