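import Pool.Agent.Lib.H11Q.N11
import Pool.Agent.Lib.H11Q.N12
import Pool.Agent.Lib.H11Q.N13
import Pool.Agent.Lib.H11Q.N14

/-! # H11Q chunk N15 (M): the pairing for the standard line.

PROOFS.
* `N15_muS_cont`: `sg` is continuous on the ball, `1 - z² ≠ 0` there; `N14_deriv_cont`.
* `N15_muS_bdd`: `‖(1-z²)/conj(1-z²)‖ = 1`, `N14_deriv_bdd`.
* `N15_pair`: `H(ζ) := ‖(1-th²)/2‖² · (muS w (th ζ) F (th ζ)) = (I/2) θ'(tan η)(1+tan² η) F (th ζ) ((1-th²)/2)²`
  (`N10_sg`; `u/ū · |u|² = u²`).  It is integrable on the strip (`N11_strip_int`: `muS w · F` is bounded and continuous on the ball).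
  `N11_strip`, `N12_fubini`; the inner integral is `(I/2) θ'(tan η)(1+tan² η) (g1 - g2)` by `N13_line` (`integral_const_mul`); `N14_int`
  (`integral_ofReal`). -/

set_option autoImplicit false

namespace Pool.Agent.Lib.H11Q

open Complex Set MeasureTheory Metric Filter
open scoped ComplexConjugate Topology

theorem n15_sg_cont : ContinuousOn sg (ball (0 : ℂ) 1) := by
  unfold sg
  refine ContinuousOn.div (by fun_prop) (by fun_prop) (fun z hz => ?_)
  have h : ‖z‖ < 1 := by simpa using hz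
  have := norm_nonneg z
  nlinarith

theorem n15_one_sub {z : ℂ} (hz : ‖z‖ < 1) : 1 - z ^ 2 ≠ 0 := by
  intro h
  have h2 : z ^ 2 = 1 := by linear_combination -h
  have h3 : ‖z‖ ^ 2 = 1 := by rw [← norm_pow, h2, norm_one]
  have := norm_nonneg z
  nlinarith

theorem n15_ratio (u : ℂ) : ‖u / conj u‖ ≤ 1 := by
  rw [norm_div, Complex.norm_conj]
  exact div_self_le_one _

theorem N15_muS_cont {w : ℝ} : ContinuousOn (muS w) (ball 0 1) := by
  unfold muS
  have h1 : ContinuousOn (fun z => deriv (theta w) (sg z)) (ball (0 : ℂ) 1) :=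
    (N14_deriv_cont (w := w)).comp_continuousOn n15_sg_cont
  have h2 : ContinuousOn (fun z : ℂ => ((deriv (theta w) (sg z) * (1 + sg z ^ 2) : ℝ) : ℂ)) (ball (0 : ℂ) 1) :=
    Complex.continuous_ofReal.comp_continuousOn (h1.mul (continuousOn_const.add (n15_sg_cont.pow 2)))
  have h3 : ContinuousOn (fun z : ℂ => (1 - z ^ 2) / conj (1 - z ^ 2)) (ball (0 : ℂ) 1) := by
    refine ContinuousOn.div (by fun_prop) ?_ (fun z hz => ?_)
    · exact (Complex.continuous_conj.comp (by fun_prop)).continuousOn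
    · have h : ‖z‖ < 1 := by simpa using hz
      rw [ne_eq, map_eq_zero]
      exact n15_one_sub h
  exact (continuousOn_const.mul h2).mul h3

theorem N15_muS_bdd {w : ℝ} (hw : 0 < w) : ∃ M : ℝ, ∀ z : ℂ, ‖muS w z‖ ≤ M := by
  obtain ⟨M, hM⟩ := N14_deriv_bdd hw
  refine ⟨M, fun z => ?_⟩
  have h0 : 0 ≤ M := (abs_nonneg _).trans (hM 0)
  unfold muS
  rw [norm_mul, norm_mul, Complex.norm_real, Real.norm_eq_abs]
  have h1 : ‖I / 2‖ ≤ 1 := by
    rw [norm_div, Complex.norm_I]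
    norm_num
  calc ‖I / 2‖ * |deriv (theta w) (sg z) * (1 + sg z ^ 2)| * ‖(1 - z ^ 2) / conj (1 - z ^ 2)‖
      ≤ 1 * M * 1 := by
        refine mul_le_mul (mul_le_mul h1 (hM _) (abs_nonneg _) zero_le_one) (n15_ratio _) (norm_nonneg _) (by positivity)
    _ = M := by ring

theorem n15_u (t : ℂ) (f : ℂ) (c : ℝ) : ((‖(1 - t ^ 2) / 2‖ ^ 2 : ℝ) : ℂ) *
    (I / 2 * (c : ℂ) * ((1 - t ^ 2) / conj (1 - t ^ 2)) * f) =
      I / 2 * (c : ℂ) * (f * ((1 - t ^ 2) / 2) ^ 2) := by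
  have e : ((‖(1 - t ^ 2) / 2‖ ^ 2 : ℝ) : ℂ) = ((1 - t ^ 2) / 2) * conj ((1 - t ^ 2) / 2) := by
    rw [Complex.mul_conj, Complex.normSq_eq_norm_sq]
  rw [e]
  rcases eq_or_ne (1 - t ^ 2) 0 with h | h
  · rw [h]
    simp
  · have h2 : conj (1 - t ^ 2) ≠ 0 := by
      rw [ne_eq, map_eq_zero]
      exact h
    rw [map_div₀, map_ofNat]
    field_simp

theorem n15_int {w : ℝ} (hw : 0 < w) {F : ℂ → ℂ} {M : ℝ}
    (hF : ContinuousOn F (ball 0 1)) (hM : ∀ z ∈ ball (0 : ℂ) 1, ‖F z‖ ≤ M) :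
    IntegrableOn (fun z => muS w z * F z) (ball (0 : ℂ) 1) := by
  obtain ⟨M1, hM1⟩ := N15_muS_bdd hw
  have hM10 : 0 ≤ M1 := (norm_nonneg _).trans (hM1 0)
  have : Fact (volume (ball (0 : ℂ) 1) < ⊤) := ⟨measure_ball_lt_top⟩
  refine Integrable.of_bound (C := M1 * M) ?_ ?_
  · exact (N15_muS_cont.mul hF).aestronglyMeasurable measurableSet_ball
  · refine (ae_restrict_iff' measurableSet_ball).mpr (Filter.Eventually.of_forall fun z hz => ?_)
    rw [norm_mul]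
    exact mul_le_mul (hM1 z) (hM z hz) (norm_nonneg _) hM10

theorem N15_pair {w : ℝ} (hw : 0 < w) {F G : ℂ → ℂ} {M : ℝ} {g1 g2 : ℂ}
    (hF : ContinuousOn F (ball 0 1)) (hM : ∀ z ∈ ball (0 : ℂ) 1, ‖F z‖ ≤ M)
    (hG : ∀ z ∈ ball (0 : ℂ) 1, HasDerivAt G (F z * ((1 - z ^ 2) / 2)) z)
    (h1 : Tendsto G (𝓝[ball (0 : ℂ) 1] 1) (𝓝 g1)) (h2 : Tendsto G (𝓝[ball (0 : ℂ) 1] (-1)) (𝓝 g2)) :
    ∫ z in ball (0 : ℂ) 1, muS w z * F z = I / 2 * (g1 - g2) := by
  rw [N11_strip]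
  have hint := (N11_strip_int (fun z => muS w z * F z)).mp (n15_int hw hF hM)
  rw [N12_fubini hint]
  have hin : ∀ η ∈ Ioo (-(Real.pi / 2)) (Real.pi / 2),
      ∫ ξ : ℝ, ((‖(1 - th (ξ + η * I) ^ 2) / 2‖ ^ 2 : ℝ) : ℂ) * (muS w (th (ξ + η * I)) * F (th (ξ + η * I))) =
        ((deriv (theta w) (Real.tan η) * (1 + Real.tan η ^ 2) : ℝ) : ℂ) * (I / 2 * (g1 - g2)) := by
    intro η hη
    have hη' : |η| < Real.pi / 2 := abs_lt.mpr hη
    have hl := N13_line hF hM hG h1 h2 hη'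
    rw [← hl, ← mul_assoc, ← integral_const_mul]
    refine integral_congr_ae (Filter.Eventually.of_forall fun ξ => ?_)
    have hsg : sg (th (ξ + η * I)) = Real.tan η := by
      rw [N10_sg (n10_mem hη')]
      simp
    have hu := n15_u (th (ξ + η * I)) (F (th (ξ + η * I))) (deriv (theta w) (Real.tan η) * (1 + Real.tan η ^ 2))
    simp only [muS, hsg]
    rw [hu]
    ring
  rw [setIntegral_congr_fun measurableSet_Ioo hin, integral_mul_const, integral_complex_ofReal, N14_int hw]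
  simp

end Pool.Agent.Lib.H11Q
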