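import Pool.Agent.Lib.H11Q.N02
import Pool.Agent.Lib.H11Q.N11
import Pool.Agent.Lib.H11Q.C06

/-! # H11Q chunk N16 (M): transport to the standard line, bounds.

PROOFS.
* `N16_app_deriv`: quotient rule, the determinant is 1.  `N16_image`: `g.app` maps the ball onto itself (inverse `g⁻¹.app`).
* `N16_move`: change of variables `z = g y` (`N11_cov` with `f = g.app`, `f' = 1/(g.den y)²`).  `g⁻¹.app (g y) = y`,
  `g⁻¹.den (g y) = 1/(g.den y)` (`(g⁻¹ g).den y = g⁻¹.den (g y) · g.den y = 1`), `wt φ Q (g y) = (g.den y)⁴ wt (φ*g) Q y`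
  (`(φ*g).den y = φ.den (g y) g.den y`), `|d|^(-4) · conj(d²)/d² · d⁴ = 1` for `d = g.den y`.
* `N16_wt_bdd`: `‖φ.den z‖ ≥ |a| - |b| > 0` on the closed ball, `φ.app z` is in the closed ball.
* `N16_wt_cont`: composition of continuous functions, `den ≠ 0`.
* `N16_muL_bdd`, `N16_muL_cont`: `‖muL w g z‖ = ‖muS w (g⁻¹ z)‖`. -/

set_option autoImplicit false

namespace Pool.Agent.Lib.H11Q

open Complex Set MeasureTheory Metric Filter
open scoped ComplexConjugate Topology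

theorem N16_app_deriv (g : SU) {z : ℂ} (hz : ‖z‖ ≤ 1) : HasDerivAt g.app (1 / (g.den z) ^ 2) z :=
  (C_app_deriv g hz).hasDerivAt

theorem n16_inv (g : SU) {z : ℂ} (hz : ‖z‖ ≤ 1) : g⁻¹.app (g.app z) = z := by
  rw [← SU.app_mul _ _ hz, inv_mul_cancel, SU.app_one]

theorem N16_image (g : SU) : g.app '' ball (0 : ℂ) 1 = ball 0 1 ∧ InjOn g.app (closedBall 0 1) := by
  constructor
  · ext z
    rw [mem_ball_zero_iff]
    constructor
    · rintro ⟨y, hy, rfl⟩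
      exact g.app_norm_lt (by simpa using hy)
    · intro hz
      refine ⟨g⁻¹.app z, ?_, ?_⟩
      · rw [mem_ball_zero_iff]
        exact g⁻¹.app_norm_lt hz
      · rw [← SU.app_mul _ _ hz.le, mul_inv_cancel, SU.app_one]
  · intro x hx y hy h
    have hx' : ‖x‖ ≤ 1 := by simpa using hx
    have hy' : ‖y‖ ≤ 1 := by simpa using hy
    rw [← n16_inv g hx', ← n16_inv g hy', h]

theorem N16_app_le (g : SU) {z : ℂ} (hz : ‖z‖ ≤ 1) : ‖g.app z‖ ≤ 1 := by
  have h1 := g.normSq_app hz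
  have h2 : 0 ≤ (1 - ‖z‖ ^ 2) / ‖g.den z‖ ^ 2 := by
    have : 0 ≤ 1 - ‖z‖ ^ 2 := by nlinarith [norm_nonneg z]
    positivity
  rw [← h1] at h2
  nlinarith [norm_nonneg (g.app z)]

theorem n16_det (g : SU) : g.a * conj g.a - g.b * conj g.b = 1 := by
  have h1 := g.h
  rw [Complex.mul_conj, Complex.mul_conj]
  exact_mod_cast h1

theorem n16_den_inv (g : SU) {z : ℂ} (hz : ‖z‖ ≤ 1) : g⁻¹.den (g.app z) = 1 / g.den z := by
  have hd := g.den_ne hz
  have h2 := n16_det g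
  rw [eq_div_iff hd]
  have e1 : g.app z = (g.a * z + g.b) / g.den z := rfl
  have e2 : g⁻¹.den (g.app z) = -conj g.b * g.app z + g.a := by
    show conj (-g.b) * g.app z + conj (conj g.a) = _
    rw [map_neg, Complex.conj_conj]
  rw [e2, add_mul, mul_assoc, e1, div_mul_cancel₀ _ hd]
  unfold SU.den
  linear_combination h2

theorem n16_norm_diff (g : SU) : (‖g.a‖ - ‖g.b‖) * (‖g.a‖ + ‖g.b‖) = 1 := by
  have h1 := g.h
  rw [Complex.normSq_eq_norm_sq, Complex.normSq_eq_norm_sq] at h1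
  linear_combination h1

theorem n16_sum_pos (g : SU) : 0 < ‖g.a‖ + ‖g.b‖ := by
  have h := n16_norm_diff g
  have h1 := norm_nonneg g.a
  have h2 := norm_nonneg g.b
  by_contra h3
  have h4 : ‖g.a‖ + ‖g.b‖ = 0 := by linarith
  rw [h4, mul_zero] at h
  norm_num at h

theorem n16_den_ge (g : SU) {z : ℂ} (hz : ‖z‖ ≤ 1) : 1 ≤ ‖g.den z‖ * (‖g.a‖ + ‖g.b‖) := by
  have h := n16_norm_diff g
  have h1 : ‖g.a‖ - ‖g.b‖ ≤ ‖g.den z‖ := by
    have h2 : ‖conj g.a‖ ≤ ‖g.den z‖ + ‖conj g.b * z‖ := by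
      have h3 : conj g.a = g.den z - conj g.b * z := by
        unfold SU.den
        ring
      rw [h3]
      exact norm_sub_le _ _
    rw [Complex.norm_conj, norm_mul, Complex.norm_conj] at h2
    have h4 : ‖g.b‖ * ‖z‖ ≤ ‖g.b‖ * 1 := by gcongr
    linarith
  have h5 := n16_sum_pos g
  rw [← h]
  gcongr

theorem n16_alg {d X s : ℂ} (hd : d ≠ 0) :
    ((‖1 / d ^ 2‖ ^ 2 : ℝ) : ℂ) * (s * ((1 / d) ^ 2 / conj ((1 / d) ^ 2)) * X) = s * (X / d ^ 4) := by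
  have e : ((‖1 / d ^ 2‖ ^ 2 : ℝ) : ℂ) = (1 / d ^ 2) * conj (1 / d ^ 2) := by
    rw [Complex.mul_conj, Complex.normSq_eq_norm_sq]
  have hc : conj d ≠ 0 := by
    rw [ne_eq, map_eq_zero]
    exact hd
  rw [e, map_div₀, map_one, map_pow, map_pow, map_div₀, map_one]
  field_simp

theorem N16_move (w : ℝ) (φ g : SU) (Q : ℂ → ℂ) :
    ∫ z in ball (0 : ℂ) 1, muL w g z * wt φ Q z =
      ∫ z in ball (0 : ℂ) 1, muS w z * wt (φ * g) Q z := by
  obtain ⟨him, hinj⟩ := N16_image g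
  have hle : ∀ z ∈ ball (0 : ℂ) 1, ‖z‖ ≤ 1 := fun z hz => by
    have : ‖z‖ < 1 := by simpa using hz
    exact this.le
  have h := N11_cov measurableSet_ball (f := g.app) (f' := fun z => 1 / (g.den z) ^ 2)
    (fun z hz => N16_app_deriv g (hle z hz)) (hinj.mono ball_subset_closedBall)
    (fun z => muL w g z * wt φ Q z)
  rw [him] at h
  rw [h]
  refine setIntegral_congr_fun measurableSet_ball (fun z hz => ?_)
  have hz' := hle z hz
  have h2 := N02_wt_mul φ g Q hz'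
  have h3 : muL w g (g.app z) = muS w z * ((1 / g.den z) ^ 2 / conj ((1 / g.den z) ^ 2)) := by
    unfold muL
    rw [n16_inv g hz', n16_den_inv g hz']
  show ((‖1 / (g.den z) ^ 2‖ ^ 2 : ℝ) : ℂ) * (muL w g (g.app z) * wt φ Q (g.app z)) =
    muS w z * wt (φ * g) Q z
  rw [h2, h3, n16_alg (g.den_ne hz')]
  rfl

theorem n16_app_cont (g : SU) : ContinuousOn g.app (closedBall 0 1) := fun z hz => by
  have hz' : ‖z‖ ≤ 1 := by simpa using hz
  exact (N16_app_deriv g hz').continuousAt.continuousWithinAt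

theorem n16_den_cont (g : SU) : Continuous g.den := by
  unfold SU.den
  fun_prop

theorem N16_wt_cont (φ : SU) {Q : ℂ → ℂ} (hQ : ContinuousOn Q (closedBall 0 1)) :
    ContinuousOn (wt φ Q) (closedBall 0 1) := by
  unfold wt
  refine ContinuousOn.div (hQ.comp (n16_app_cont φ) (fun z hz => ?_))
    ((n16_den_cont φ).pow 4).continuousOn (fun z hz => ?_)
  · have hz' : ‖z‖ ≤ 1 := by simpa using hz
    rw [mem_closedBall_zero_iff]
    exact N16_app_le φ hz'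
  · have hz' : ‖z‖ ≤ 1 := by simpa using hz
    exact pow_ne_zero 4 (φ.den_ne hz')

theorem N16_wt_bdd (φ : SU) {Q : ℂ → ℂ} {M : ℝ} (hM : ∀ z : ℂ, ‖z‖ ≤ 1 → ‖Q z‖ ≤ M) :
    ∀ z : ℂ, ‖z‖ ≤ 1 → ‖wt φ Q z‖ ≤ M * (‖φ.a‖ + ‖φ.b‖) ^ 4 := by
  intro z hz
  unfold wt
  have hd : 0 < ‖φ.den z‖ := norm_pos_iff.mpr (φ.den_ne hz)
  rw [norm_div, norm_pow, div_le_iff₀ (by positivity)]
  have h1 := hM _ (N16_app_le φ hz)
  have hM0 : 0 ≤ M := (norm_nonneg _).trans h1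
  have h2 := n16_den_ge φ hz
  have h3 : 1 ≤ (‖φ.den z‖ * (‖φ.a‖ + ‖φ.b‖)) ^ 4 := one_le_pow₀ h2
  calc ‖Q (φ.app z)‖ ≤ M * 1 := by linarith
    _ ≤ M * (‖φ.den z‖ * (‖φ.a‖ + ‖φ.b‖)) ^ 4 := by gcongr
    _ = M * (‖φ.a‖ + ‖φ.b‖) ^ 4 * ‖φ.den z‖ ^ 4 := by rw [mul_pow]; ring

theorem N16_muL_norm (w : ℝ) (g : SU) {z : ℂ} (hz : ‖z‖ ≤ 1) :
    ‖muL w g z‖ = ‖muS w (g⁻¹.app z)‖ := by
  unfold muL
  have hd : g⁻¹.den z ≠ 0 := g⁻¹.den_ne hz
  rw [norm_mul, norm_div, Complex.norm_conj, div_self, mul_one]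
  exact norm_ne_zero_iff.mpr (pow_ne_zero 2 hd)

theorem N16_muL_cont (w : ℝ) (g : SU) (h : ContinuousOn (muS w) (ball 0 1)) :
    ContinuousOn (muL w g) (ball 0 1) := by
  unfold muL
  refine ContinuousOn.mul (h.comp ((n16_app_cont g⁻¹).mono ball_subset_closedBall) (fun z hz => ?_)) ?_
  · have hz' : ‖z‖ < 1 := by simpa using hz
    rw [mem_ball_zero_iff]
    exact g⁻¹.app_norm_lt hz'
  · refine ContinuousOn.div ((n16_den_cont g⁻¹).pow 2).continuousOn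
      (Complex.continuous_conj.comp ((n16_den_cont g⁻¹).pow 2)).continuousOn (fun z hz => ?_)
    have hz' : ‖z‖ < 1 := by simpa using hz
    rw [ne_eq, map_eq_zero]
    exact pow_ne_zero 2 (g⁻¹.den_ne hz'.le)

end Pool.Agent.Lib.H11Q
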