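import Pool.Agent.Lib.H11Q.N04
import Pool.Agent.Lib.H11Q.N15
import Pool.Agent.Lib.H11Q.N16

/-! # H11Q chunk N17 (M): the pairing of the twist along one line with a quadratic differential (PROOF.md 9.3).

PROOF.  `ψ := φ * g`, `x := nv ψ = φ.lin (nv g)` (`N01_nv_mul`), `m = mid x`, `e = I pp x`, `u± = m ± e = ψ.app (±1)` (`N02`),
`v(u) := (u - u₋)(u₊ - u)/(2e)`.
(1) `v (ψ z) = (1/(ψ.den z)²) (1 - z²)/2` for `‖z‖ ≤ 1`: `ψ z - ψ(±1) = (z ∓ 1)/(ψ.den z ψ.den (±1))` (determinant one) and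
`u₊ - u₋ = 2/(ψ.den 1 ψ.den (-1))`.
(2) `v Q` is holomorphic on `ball 0 R`, so it has a primitive `Φ` there (`DifferentiableOn.isExactOn_ball`, Mathlib
`Analysis/Complex/HasPrimitives.lean`).  `G := Φ ∘ ψ.app` satisfies `G' z = v(ψ z) Q(ψ z)/(ψ.den z)² = wt ψ Q z (1-z²)/2` on the ball (1),
and is continuous at `±1` (as a function on the closed ball).
(3) `N16_move`, `N15_pair` (with `F = wt ψ Q`; `N16_wt_cont`, `N16_wt_bdd`): the integral is `(I/2)(Φ(u₊) - Φ(u₋))`.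
(4) `Φ(u₊) - Φ(u₋) = ∫_{-1}^{1} v(m+ey) Q(m+ey) e dy` (fundamental theorem along the chord, `N02_chord`), and
`v(m+ey) = e (1-y²)/2`, `e² = -(pp x)²`: this is `JJ x Q`. -/

set_option autoImplicit false

namespace Pool.Agent.Lib.H11Q

open Complex Set MeasureTheory Metric Filter
open scoped ComplexConjugate Topology

theorem n17_sub (ψ : SU) {z y : ℂ} (hz : ‖z‖ ≤ 1) (hy : ‖y‖ ≤ 1) :
    ψ.app z - ψ.app y = (z - y) / (ψ.den z * ψ.den y) := by
  have h1 := ψ.den_ne hz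
  have h2 := ψ.den_ne hy
  have h3 := n16_det ψ
  have e1 : ψ.app z = (ψ.a * z + ψ.b) / ψ.den z := rfl
  have e2 : ψ.app y = (ψ.a * y + ψ.b) / ψ.den y := rfl
  rw [e1, e2, div_sub_div _ _ h1 h2]
  congr 1
  unfold SU.den
  linear_combination (z - y) * h3

theorem N17_vfield (ψ : SU) {z : ℂ} (hz : ‖z‖ ≤ 1) :
    (ψ.app z - ψ.app (-1)) * (ψ.app 1 - ψ.app z) / (ψ.app 1 - ψ.app (-1)) =
      1 / (ψ.den z) ^ 2 * ((1 - z ^ 2) / 2) := by
  have hp : ‖(1 : ℂ)‖ ≤ 1 := by simp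
  have hm : ‖(-1 : ℂ)‖ ≤ 1 := by simp
  rw [n17_sub ψ hz hm, n17_sub ψ hp hz, n17_sub ψ hp hm]
  have h1 := ψ.den_ne hz
  have h2 := ψ.den_ne hp
  have h3 := ψ.den_ne hm
  field_simp
  ring

/-- The vector field of the line. -/
noncomputable def n17_v (ψ : SU) (u : ℂ) : ℂ :=
  (u - ψ.app (-1)) * (ψ.app 1 - u) / (ψ.app 1 - ψ.app (-1))

theorem n17_pp {x : Mk} (hx : IsNrm x) : I * pp x ≠ 0 := by
  have h := N02_pp hx
  have h2 := (N02_Lsq_pos hx).1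
  refine mul_ne_zero Complex.I_ne_zero (fun h3 => ?_)
  rw [h3, norm_zero] at h
  norm_num at h
  linarith

theorem n17_chord (ψ : SU) (y : ℝ) :
    n17_v ψ (mid (nv ψ) + I * pp (nv ψ) * y) = I * pp (nv ψ) * (1 - y ^ 2) / 2 := by
  have he := n17_pp (N01_nrm ψ)
  unfold n17_v
  rw [N02_end1, N02_end2]
  generalize I * pp (nv ψ) = e at he ⊢
  have e1 : mid (nv ψ) + e - (mid (nv ψ) - e) = 2 * e := by ring
  rw [e1]
  field_simp
  ring

theorem N17_pair {w : ℝ} (hw : 0 < w) (φ g : SU) {Q : ℂ → ℂ} {R : ℝ} (hR : 1 < R)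
    (hQ : DifferentiableOn ℂ Q (ball 0 R)) :
    ∫ z in ball (0 : ℂ) 1, muL w g z * wt φ Q z = I / 2 * JJ (φ.lin (nv g)) Q := by
  rw [N16_move, ← N01_nv_mul]
  set ψ := φ * g with hψ
  have hsub : closedBall (0 : ℂ) 1 ⊆ ball 0 R := closedBall_subset_ball hR
  have hQc : ContinuousOn Q (closedBall 0 1) := hQ.continuousOn.mono hsub
  obtain ⟨M, hM⟩ := (isCompact_closedBall (0 : ℂ) 1).exists_bound_of_continuousOn hQc
  have hM' : ∀ z : ℂ, ‖z‖ ≤ 1 → ‖Q z‖ ≤ M := fun z hz => hM z (by simpa using hz)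
  have hv : DifferentiableOn ℂ (fun u => n17_v ψ u * Q u) (ball 0 R) := by
    refine DifferentiableOn.mul ?_ hQ
    unfold n17_v
    fun_prop
  obtain ⟨Φ, hΦ⟩ := hv.isExactOn_ball
  have hΦ' : ∀ u : ℂ, ‖u‖ ≤ 1 → HasDerivAt Φ (n17_v ψ u * Q u) u := fun u hu =>
    hΦ u (hsub (by simpa using hu))
  have hG : ∀ z : ℂ, ‖z‖ ≤ 1 → HasDerivAt (Φ ∘ ψ.app) (n17_v ψ (ψ.app z) * Q (ψ.app z) * (1 / (ψ.den z) ^ 2)) z :=
    fun z hz => (hΦ' _ (N16_app_le ψ hz)).comp z (N16_app_deriv ψ hz)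
  have hp : ‖(1 : ℂ)‖ ≤ 1 := by simp
  have hm : ‖(-1 : ℂ)‖ ≤ 1 := by simp
  have hpair := N15_pair hw (F := wt ψ Q) (G := Φ ∘ ψ.app) (M := M * (‖ψ.a‖ + ‖ψ.b‖) ^ 4)
    (g1 := Φ (ψ.app 1)) (g2 := Φ (ψ.app (-1)))
    ((N16_wt_cont ψ hQc).mono ball_subset_closedBall)
    (fun z hz => N16_wt_bdd ψ hM' z (by
      have : ‖z‖ < 1 := by simpa using hz
      exact this.le))
    (fun z hz => by
      have hz' : ‖z‖ ≤ 1 := by
        have : ‖z‖ < 1 := by simpa using hz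
        exact this.le
      have h1 := hG z hz'
      have h2 := N17_vfield ψ hz'
      have h3 : n17_v ψ (ψ.app z) = 1 / (ψ.den z) ^ 2 * ((1 - z ^ 2) / 2) := h2
      rw [h3] at h1
      have h4 : wt ψ Q z * ((1 - z ^ 2) / 2) =
          1 / ψ.den z ^ 2 * ((1 - z ^ 2) / 2) * Q (ψ.app z) * (1 / ψ.den z ^ 2) := by
        unfold wt
        have := ψ.den_ne hz'
        field_simp
      rw [h4]
      exact h1)
    ((hG 1 hp).continuousAt.tendsto.mono_left nhdsWithin_le_nhds)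
    ((hG (-1) hm).continuousAt.tendsto.mono_left nhdsWithin_le_nhds)
  rw [hpair]
  congr 1
  -- the chord
  have hnrm := N01_nrm ψ
  have hch : ∀ y : ℝ, y ∈ uIcc (-1 : ℝ) 1 → HasDerivAt (fun y : ℝ => Φ (mid (nv ψ) + I * pp (nv ψ) * y))
      ((n17_v ψ (mid (nv ψ) + I * pp (nv ψ) * y) * Q (mid (nv ψ) + I * pp (nv ψ) * y)) * (I * pp (nv ψ))) y := by
    intro y hy
    rw [uIcc_of_le (by norm_num), mem_Icc] at hy
    have hn := N02_chord hnrm (abs_le.mpr hy)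
    have h1 := hΦ' _ hn
    have h2 : HasDerivAt (fun y : ℝ => mid (nv ψ) + I * pp (nv ψ) * (y : ℂ)) (I * pp (nv ψ)) y := by
      have h3 := ((Complex.ofRealCLM.hasDerivAt (x := y)).const_mul (I * pp (nv ψ))).const_add (mid (nv ψ))
      simpa using h3
    exact h1.comp y h2
  have hcont : ContinuousOn (fun y : ℝ => (n17_v ψ (mid (nv ψ) + I * pp (nv ψ) * y) *
      Q (mid (nv ψ) + I * pp (nv ψ) * y)) * (I * pp (nv ψ))) (uIcc (-1 : ℝ) 1) := by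
    refine ContinuousOn.mul ?_ continuousOn_const
    refine hv.continuousOn.comp (f := fun y : ℝ => mid (nv ψ) + I * pp (nv ψ) * (y : ℂ)) (by fun_prop) ?_
    intro y hy
    rw [uIcc_of_le (by norm_num), mem_Icc] at hy
    have hn := N02_chord hnrm (abs_le.mpr hy)
    exact hsub (by simpa using hn)
  have hftc := intervalIntegral.integral_eq_sub_of_hasDerivAt hch hcont.intervalIntegrable
  have e1 : Φ (ψ.app 1) - Φ (ψ.app (-1)) = (fun y : ℝ => Φ (mid (nv ψ) + I * pp (nv ψ) * y)) 1 -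
      (fun y : ℝ => Φ (mid (nv ψ) + I * pp (nv ψ) * y)) (-1) := by
    rw [N02_end1, N02_end2]
    simp only
    push_cast
    congr 2
    · ring
    · ring
  rw [e1, ← hftc]
  unfold JJ
  rw [← intervalIntegral.integral_const_mul]
  refine intervalIntegral.integral_congr (fun y _ => ?_)
  show n17_v ψ (mid (nv ψ) + I * pp (nv ψ) * y) * Q (mid (nv ψ) + I * pp (nv ψ) * y) * (I * pp (nv ψ)) = _
  rw [n17_chord]
  push_cast
  linear_combination (pp (nv ψ)) ^ 2 * (1 - (y : ℂ) ^ 2) / 2 * Q (mid (nv ψ) + I * pp (nv ψ) * y) * Complex.I_sq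

end Pool.Agent.Lib.H11Q
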