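import Pool.Agent.Lib.H11Q.N15
import Pool.Agent.Lib.H11Q.N16

/-! # H11Q chunk N20 (S/M): the terms of `mu` have disjoint supports.

PROOFS.  `w := sinh L.om > 0`.
* `N20_zero`: `N14_deriv_zero`.
* `N20_bdd`: `N15_muS_bdd`, and `‖d²/conj d²‖ ≤ 1` for every complex `d`.
* `N20_collar`: if `muL w g z ≠ 0` then `|sg (g⁻¹ z)| ≤ w`, so `|bs g z| ≤ om` (`arsinh (sinh om) = om`, monotone, odd).
* `N20_disj`: if both are not zero then, with `i < j`, `L.sep`: `bs_j ≤ bs_i - 4om ≤ -3om` or `bs_j ≤ -bs_i - 4om ≤ -3om`, against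
  `|bs_j| ≤ om`.
* `N20_mu`: `tsum_eq_single`. -/

set_option autoImplicit false

namespace Pool.Agent.Lib.H11Q

open Complex Set MeasureTheory Metric Filter
open scoped ComplexConjugate Topology

theorem N20_zero {w : ℝ} (hw : 0 < w) (g : SU) {z : ℂ} (h : w < |sg (g⁻¹.app z)|) :
    muL w g z = 0 := by
  unfold muL muS
  rw [N14_deriv_zero hw h]
  simp

theorem n20_ratio (d : ℂ) : ‖d ^ 2 / conj (d ^ 2)‖ ≤ 1 := by
  rw [norm_div, norm_conj]
  exact div_self_le_one _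

theorem N20_bdd {w : ℝ} (hw : 0 < w) : ∃ M : ℝ, 0 ≤ M ∧ ∀ (g : SU) (z : ℂ), ‖muL w g z‖ ≤ M := by
  obtain ⟨M, hM⟩ := N15_muS_bdd hw
  have hM0 : 0 ≤ M := (norm_nonneg _).trans (hM 0)
  refine ⟨M, hM0, fun g z => ?_⟩
  unfold muL
  rw [norm_mul]
  calc ‖muS w (g⁻¹.app z)‖ * ‖(g⁻¹.den z) ^ 2 / conj ((g⁻¹.den z) ^ 2)‖ ≤ M * 1 :=
        mul_le_mul (hM _) (n20_ratio _) (norm_nonneg _) hM0
    _ = M := mul_one M

theorem N20_collar {om : ℝ} (hw : 0 < om) (g : SU) {z : ℂ} (h : muL (Real.sinh om) g z ≠ 0) :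
    |bs g z| ≤ om := by
  have hs : 0 < Real.sinh om := Real.sinh_pos_iff.2 hw
  have h1 : |sg (g⁻¹.app z)| ≤ Real.sinh om := by
    by_contra h2
    exact h (N20_zero hs g (not_le.1 h2))
  rw [abs_le] at h1 ⊢
  unfold bs
  constructor
  · rw [← Real.arsinh_sinh om, ← Real.arsinh_neg, Real.arsinh_le_arsinh]
    exact h1.1
  · rw [← Real.arsinh_sinh om, Real.arsinh_le_arsinh]
    exact h1.2

theorem n20_lt (L : LineSys) {i j : ℕ} (hij : i < j) {z : ℂ} (hz : ‖z‖ < 1)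
    (hi : muL (Real.sinh L.om) (L.g i) z ≠ 0) (hj : muL (Real.sinh L.om) (L.g j) z ≠ 0) : False := by
  have h1 := abs_le.1 (N20_collar L.om_pos _ hi)
  have h2 := abs_le.1 (N20_collar L.om_pos _ hj)
  have h0 := L.om_pos
  rcases L.sep i j hij with h | h
  · have h3 := h ⟨z, hz⟩
    have h4 : bs (L.g j) z ≤ bs (L.g i) z - 4 * L.om := h3
    linarith
  · have h3 := h ⟨z, hz⟩
    have h4 : bs (L.g j) z ≤ -bs (L.g i) z - 4 * L.om := h3
    linarith

theorem N20_disj (L : LineSys) {i j : ℕ} (hij : i ≠ j) {z : ℂ} (hz : ‖z‖ < 1) :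
    muL (Real.sinh L.om) (L.g i) z = 0 ∨ muL (Real.sinh L.om) (L.g j) z = 0 := by
  by_contra h
  push Not at h
  rcases lt_or_gt_of_ne hij with h1 | h1
  · exact n20_lt L h1 hz h.1 h.2
  · exact n20_lt L h1 hz h.2 h.1

theorem N20_mu (L : LineSys) {z : ℂ} (hz : ‖z‖ < 1) {n : ℕ}
    (h : muL (Real.sinh L.om) (L.g n) z ≠ 0) : mu L z = muL (Real.sinh L.om) (L.g n) z := by
  unfold mu
  refine tsum_eq_single n fun m hm => ?_
  exact (N20_disj L hm hz).resolve_right h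

/-- All partial sums of the norms are bounded by the same constant. -/
theorem N20_sum (L : LineSys) : ∃ M : ℝ, 0 ≤ M ∧ ∀ (F : Finset ℕ) (z : ℂ), ‖z‖ < 1 →
    ∑ n ∈ F, ‖muL (Real.sinh L.om) (L.g n) z‖ ≤ M := by
  classical
  obtain ⟨M, hM0, hM⟩ := N20_bdd (Real.sinh_pos_iff.2 L.om_pos)
  refine ⟨M, hM0, fun F z hz => ?_⟩
  by_cases h : ∃ n ∈ F, muL (Real.sinh L.om) (L.g n) z ≠ 0
  · obtain ⟨n, hn, h1⟩ := h
    rw [Finset.sum_eq_single n]
    · exact hM _ _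
    · intro m _ hm
      rw [(N20_disj L hm hz).resolve_right h1, norm_zero]
    · intro h2
      exact absurd hn h2
  · push Not at h
    rw [Finset.sum_eq_zero]
    · exact hM0
    · intro n hn
      rw [h n hn, norm_zero]

end Pool.Agent.Lib.H11Q
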