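import Pool.Agent.Lib.H11Q.N17
import Pool.Agent.Lib.H11Q.N20

/-! # H11Q chunk N22 (M): the pairing with `mu` is the sum of the pairings with the lines.

PROOFS.
* `N22_hasSum`: `hasSum_integral_of_summable_integral_norm` for the functions `muL (sinh om) (L.g n) z * F z` on `ball 0 1`: each is
  continuous on the ball and bounded (`N16_muL_cont`, `N15_muS_cont`, `N20_bdd`), so integrable; the integrals of the norms are summable
  because `∑_{n ∈ S} ∫ ‖muL_n F‖ = ∫ ∑ ‖muL_n‖ ‖F‖ ≤ M' M vol(ball)` (`N20_sum`, `summable_of_sum_le`).  The sum of the functions is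
  `mu L z * F z` (`tsum_mul_right`, at each point at most one term is not zero: `N20_disj`).
* `N22_int`: `mu L z = muL_n z` or `0` (`N20_mu`), so it is bounded; measurable as a pointwise limit of the finite sums
  (`aestronglyMeasurable_of_tendsto_ae`, or `AEStronglyMeasurable` of a `tsum`), or: `hasSum_integral..` machinery
  (`MeasureTheory.integrable_of_summable_norm..`).
* `N22_line`: `F = wt φ Q` and `N17_pair`. -/

set_option autoImplicit false

namespace Pool.Agent.Lib.H11Q

open Complex Set MeasureTheory Metric Filter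
open scoped ComplexConjugate Topology

theorem n22_bdd {f : ℂ → ℂ} {M : ℝ} (hf : AEStronglyMeasurable f (volume.restrict (ball (0 : ℂ) 1)))
    (hM : ∀ z ∈ ball (0 : ℂ) 1, ‖f z‖ ≤ M) : IntegrableOn f (ball (0 : ℂ) 1) := by
  refine ⟨hf, HasFiniteIntegral.restrict_of_bounded (C := M) measure_ball_lt_top ?_⟩
  exact (ae_restrict_iff' measurableSet_ball).2 (Eventually.of_forall hM)

theorem n22_cont (L : LineSys) (n : ℕ) : ContinuousOn (muL (Real.sinh L.om) (L.g n)) (ball 0 1) :=
  N16_muL_cont _ _ N15_muS_cont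

theorem n22_ex (L : LineSys) {z : ℂ} (h : mu L z ≠ 0) : ∃ n, muL (Real.sinh L.om) (L.g n) z ≠ 0 := by
  by_contra h1
  push Not at h1
  apply h
  unfold mu
  simp only [h1]
  exact tsum_zero

theorem n22_sum (L : LineSys) {z : ℂ} (hz : ‖z‖ < 1) :
    HasSum (fun n => muL (Real.sinh L.om) (L.g n) z) (mu L z) := by
  by_cases h : ∃ n, muL (Real.sinh L.om) (L.g n) z ≠ 0
  · obtain ⟨n, hn⟩ := h
    rw [N20_mu L hz hn]
    exact hasSum_single n fun m hm => (N20_disj L hm hz).resolve_right hn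
  · push Not at h
    have h1 : mu L z = 0 := by
      by_contra h2
      obtain ⟨n, hn⟩ := n22_ex L h2
      exact hn (h n)
    rw [h1]
    simp only [h]
    exact hasSum_zero

theorem n22_meas (L : LineSys) : AEStronglyMeasurable (mu L) (volume.restrict (ball (0 : ℂ) 1)) := by
  refine aestronglyMeasurable_of_tendsto_ae (u := atTop)
    (f := fun N z => ∑ n ∈ Finset.range N, muL (Real.sinh L.om) (L.g n) z) ?_ ?_
  · intro N
    refine ContinuousOn.aestronglyMeasurable ?_ measurableSet_ball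
    exact continuousOn_finsetSum _ fun n _ => n22_cont L n
  · refine (ae_restrict_iff' measurableSet_ball).2 (Eventually.of_forall fun z hz => ?_)
    exact (n22_sum L (mem_ball_zero_iff.1 hz)).tendsto_sum_nat

theorem N22_int (L : LineSys) {F : ℂ → ℂ} {M : ℝ} (hF : AEStronglyMeasurable F (volume.restrict (ball (0 : ℂ) 1)))
    (hM : ∀ z ∈ ball (0 : ℂ) 1, mu L z ≠ 0 → ‖F z‖ ≤ M) :
    IntegrableOn (fun z => mu L z * F z) (ball (0 : ℂ) 1) := by
  obtain ⟨K, hK0, hK⟩ := N20_bdd (Real.sinh_pos_iff.2 L.om_pos)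
  refine n22_bdd (M := K * max M 0) ((n22_meas L).mul hF) fun z hz => ?_
  by_cases h : mu L z = 0
  · rw [h, zero_mul, norm_zero]
    exact mul_nonneg hK0 (le_max_right _ _)
  · obtain ⟨n, hn⟩ := n22_ex L h
    rw [norm_mul]
    refine mul_le_mul ?_ ((hM z hz h).trans (le_max_left _ _)) (norm_nonneg _) hK0
    rw [N20_mu L (mem_ball_zero_iff.1 hz) hn]
    exact hK _ _

theorem N22_hasSum (L : LineSys) {F : ℂ → ℂ} {M : ℝ} (hF : ContinuousOn F (ball 0 1))
    (hM : ∀ z ∈ ball (0 : ℂ) 1, ‖F z‖ ≤ M) :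
    HasSum (fun n => ∫ z in ball (0 : ℂ) 1, muL (Real.sinh L.om) (L.g n) z * F z)
      (∫ z in ball (0 : ℂ) 1, mu L z * F z) := by
  obtain ⟨K, hK0, hK⟩ := N20_bdd (Real.sinh_pos_iff.2 L.om_pos)
  obtain ⟨K', hK'0, hK'⟩ := N20_sum L
  have hM0 : 0 ≤ M := (norm_nonneg _).trans (hM 0 (mem_ball_self one_pos))
  have hint : ∀ n, IntegrableOn (fun z => muL (Real.sinh L.om) (L.g n) z * F z) (ball (0 : ℂ) 1) := by
    intro n
    refine n22_bdd (M := K * M) ?_ fun z hz => ?_
    · exact ((n22_cont L n).mul hF).aestronglyMeasurable measurableSet_ball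
    · rw [norm_mul]
      exact mul_le_mul (hK _ _) (hM z hz) (norm_nonneg _) hK0
  have h1 := hasSum_integral_of_summable_integral_norm (μ := volume.restrict (ball (0 : ℂ) 1))
    (F := fun n z => muL (Real.sinh L.om) (L.g n) z * F z) hint ?_
  · have h2 : ∀ z, ∑' n, muL (Real.sinh L.om) (L.g n) z * F z = mu L z * F z := by
      intro z
      rw [tsum_mul_right]
      rfl
    simp only [h2] at h1
    exact h1
  · refine summable_of_sum_le (c := ∫ _z in ball (0 : ℂ) 1, K' * M) (fun n => integral_nonneg fun z => norm_nonneg _) fun u => ?_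
    rw [← integral_finsetSum u fun n _ => (hint n).norm]
    refine setIntegral_mono_on ?_ ?_ measurableSet_ball fun z hz => ?_
    · exact integrable_finsetSum u fun n _ => (hint n).norm
    · exact integrableOn_const measure_ball_lt_top.ne
    · have h3 := hK' u z (mem_ball_zero_iff.1 hz)
      simp only [norm_mul]
      rw [← Finset.sum_mul]
      exact mul_le_mul h3 (hM z hz) (norm_nonneg _) hK'0

theorem N22_line (L : LineSys) (φ : SU) {Q : ℂ → ℂ} {R : ℝ} (hR : 1 < R)
    (hQ : DifferentiableOn ℂ Q (ball 0 R)) :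
    HasSum (fun n => I / 2 * JJ (φ.lin (nv (L.g n))) Q)
      (∫ z in ball (0 : ℂ) 1, mu L z * wt φ Q z) := by
  have hQc : ContinuousOn Q (closedBall 0 1) := hQ.continuousOn.mono (closedBall_subset_ball hR)
  obtain ⟨M, hM⟩ := (isCompact_closedBall (0 : ℂ) 1).exists_bound_of_continuousOn hQc
  have h1 := N22_hasSum L (F := wt φ Q) ((N16_wt_cont φ hQc).mono ball_subset_closedBall)
    (M := M * (‖φ.a‖ + ‖φ.b‖) ^ 4) fun z hz =>
      N16_wt_bdd φ (M := M) (fun z hz => hM z (mem_closedBall_zero_iff.2 hz)) z (mem_ball_zero_iff.1 hz).le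
  have h2 : (fun n => ∫ z in ball (0 : ℂ) 1, muL (Real.sinh L.om) (L.g n) z * wt φ Q z) =
      fun n => I / 2 * JJ (φ.lin (nv (L.g n))) Q := by
    funext n
    exact N17_pair (Real.sinh_pos_iff.2 L.om_pos) φ (L.g n) hR hQ
  rwa [h2] at h1

end Pool.Agent.Lib.H11Q
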