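import Pool.Agent.Lib.H11Q.N24

/-! # H11Q chunk N25 (M): explicit matrices, continued.

* `N25_linA`, `N25_linA_inv`: `gA^k` is diagonal (`N02_gA`).
* `N25_chi`: `|a|²+|b|² = (1+vv²)/(1-vv²) = CC`, `a conj b = -vv/(1-vv²)`, `a² = -1/(1-vv²)`, `b² = -vv²/(1-vv²)`, `2ab = 2vv/(1-vv²)`,
  `2vv/(1-vv²) = sqrt(CC²-1) = q/(√3 s)` (see `N24_gB`).
* `N25_chiB`: `chi` is the half-turn about the midpoint of `0` and `v`, it exchanges `0` and `v`, so `chi gB^(-r) chi⁻¹` is the rotation about `0`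
  by `-2πr/3`: verify the matrix identity `chi * gB⁻¹ = rot o0 (-2π/3) * chi` (it is exact) and take powers (induction). -/

set_option autoImplicit false

namespace Pool.Agent.Lib.H11Q

open Complex Set MeasureTheory Metric Filter
open scoped ComplexConjugate Topology

theorem n25_diag (g : SU) (t : ℝ) (ha : g.a = Complex.exp ((t : ℂ) * I)) (hb : g.b = 0) (x : Mk) :
    g.lin x = (x.1, Complex.exp (((2 * t : ℝ) : ℂ) * I) * x.2) := by
  have h1 : normSq (Complex.exp ((t : ℂ) * I)) = 1 := by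
    rw [normSq_eq_norm_sq, norm_exp_ofReal_mul_I, one_pow]
  unfold SU.lin
  rw [ha, hb, h1]
  have h2 : Complex.exp (((2 * t : ℝ) : ℂ) * I) = Complex.exp ((t : ℂ) * I) ^ 2 := by
    rw [← Complex.exp_nat_mul]
    congr 1
    push_cast
    ring
  rw [h2]
  simp

theorem n25_vv : (1 + vv ^ 2) / (1 - vv ^ 2) = CC ∧ 0 < 1 - vv ^ 2 := by
  have h := one_lt_CC
  have h1 := vv_sq
  have h2 : 1 - vv ^ 2 = 2 / (CC + 1) := by
    rw [h1]
    field_simp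
    ring
  have h3 : 1 + vv ^ 2 = 2 * CC / (CC + 1) := by
    rw [h1]
    field_simp
    ring
  constructor
  · rw [h2, h3]
    field_simp
  · rw [h2]
    exact div_pos two_pos (by linarith)

theorem n25_2vv : 2 * vv / (1 - vv ^ 2) = qq / (Real.sqrt 3 * Real.sin (Real.pi / 7)) := by
  have h := one_lt_CC
  have h1 := vv_sq
  have hv := vv_pos
  obtain ⟨hC, h0⟩ := n25_vv
  obtain ⟨hq, hq0⟩ := N24_q
  have hs := pi7_pos
  have h3 : Real.sqrt 3 ^ 2 = 3 := Real.sq_sqrt (by norm_num)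
  have h30 : 0 < Real.sqrt 3 := Real.sqrt_pos.2 (by norm_num)
  have e1 : (2 * vv / (1 - vv ^ 2)) ^ 2 = CC ^ 2 - 1 := by
    rw [← hC]
    field_simp
    ring
  have e2 : (qq / (Real.sqrt 3 * Real.sin (Real.pi / 7))) ^ 2 = CC ^ 2 - 1 := by
    unfold CC
    rw [div_pow, div_pow, mul_pow, h3, hq]
    have h4 := Real.sin_sq_add_cos_sq (Real.pi / 7)
    field_simp
    linear_combination -h4
  have e3 : 0 ≤ 2 * vv / (1 - vv ^ 2) := by positivity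
  have e4 : 0 ≤ qq / (Real.sqrt 3 * Real.sin (Real.pi / 7)) := by positivity
  rw [← e2] at e1
  exact (pow_left_inj₀ e3 e4 two_ne_zero).1 e1

theorem n25_D : ∃ D : ℝ, D = Real.sqrt (1 - vv ^ 2) ∧ 0 < D ∧ D ^ 2 = 1 - vv ^ 2 :=
  ⟨_, rfl, Real.sqrt_pos.2 n25_vv.2, Real.sq_sqrt n25_vv.2.le⟩

theorem n25_rot (s t : ℝ) : rot o0 s * rot o0 t = rot o0 (s + t) := by
  obtain ⟨h1, h2⟩ := N02_rot s
  obtain ⟨h3, h4⟩ := N02_rot t
  obtain ⟨h5, h6⟩ := N02_rot (s + t)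
  apply SU.ext
  · rw [SU.mul_a, h1, h2, h3, h5, zero_mul, add_zero, ← Complex.exp_add]
    congr 1
    push_cast
    ring
  · rw [SU.mul_b, h2, h4, h6, mul_zero, zero_mul, add_zero]

theorem n25_rot_pow (t : ℝ) (r : ℕ) : rot o0 t ^ r = rot o0 (r * t) := by
  induction r with
  | zero =>
    obtain ⟨h5, h6⟩ := N02_rot (((0 : ℕ) : ℝ) * t)
    apply SU.ext
    · rw [h5, pow_zero]
      simp
    · rw [h6, pow_zero]
      rfl
  | succ r ih =>
    rw [pow_succ, ih, n25_rot]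
    congr 1
    push_cast
    ring

theorem n25_semi : chi * gB⁻¹ = rot o0 (-(2 * Real.pi / 3)) * chi := by
  obtain ⟨D, hD, hD0, hD2⟩ := n25_D
  have hDc : (D : ℂ) ≠ 0 := by exact_mod_cast hD0.ne'
  have hD2c : (D : ℂ) ^ 2 = 1 - (vv : ℂ) ^ 2 := by exact_mod_cast hD2
  have hnv : ‖((v0 : Disc) : ℂ)‖ ^ 2 = vv ^ 2 := by
    show ‖(vv : ℂ)‖ ^ 2 = vv ^ 2
    rw [norm_real, Real.norm_eq_abs, sq_abs]
  obtain ⟨C, hC⟩ : ∃ C : ℝ, C = Real.cos (2 * Real.pi / 3 / 2) := ⟨_, rfl⟩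
  obtain ⟨S, hS⟩ : ∃ S : ℝ, S = Real.sin (2 * Real.pi / 3 / 2) := ⟨_, rfl⟩
  have ga : gB.a = (C : ℂ) + I * S * (((1 + vv ^ 2) / D ^ 2 : ℝ) : ℂ) := by
    show (Real.cos (2 * Real.pi / 3 / 2) : ℂ) + I * Real.sin (2 * Real.pi / 3 / 2) *
      ((1 + ‖((v0 : Disc) : ℂ)‖ ^ 2) / (1 - ‖((v0 : Disc) : ℂ)‖ ^ 2) : ℝ) = _
    rw [hnv, ← hC, ← hS, hD2]
  have gb : gB.b = -2 * I * S * (vv : ℂ) / ((D ^ 2 : ℝ) : ℂ) := by
    show -2 * I * Real.sin (2 * Real.pi / 3 / 2) * (vv : ℂ) / ((1 - ‖((v0 : Disc) : ℂ)‖ ^ 2 : ℝ) : ℂ) = _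
    rw [hnv, ← hS, hD2]
  have ra : (rot o0 (-(2 * Real.pi / 3))).a = (C : ℂ) - I * S := by
    show (Real.cos (-(2 * Real.pi / 3) / 2) : ℂ) + I * Real.sin (-(2 * Real.pi / 3) / 2) *
      ((1 + ‖((o0 : Disc) : ℂ)‖ ^ 2) / (1 - ‖((o0 : Disc) : ℂ)‖ ^ 2) : ℝ) = _
    have e : -(2 * Real.pi / 3) / 2 = -(2 * Real.pi / 3 / 2) := by ring
    have e2 : ((1 + ‖((o0 : Disc) : ℂ)‖ ^ 2) / (1 - ‖((o0 : Disc) : ℂ)‖ ^ 2) : ℝ) = 1 := by
      show ((1 + ‖(0 : ℂ)‖ ^ 2) / (1 - ‖(0 : ℂ)‖ ^ 2) : ℝ) = 1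
      rw [norm_zero]
      norm_num
    rw [e2, e, Real.cos_neg, Real.sin_neg, ← hC, ← hS]
    push_cast
    ring
  have rb : (rot o0 (-(2 * Real.pi / 3))).b = 0 := (N02_rot _).2
  have ca : chi.a = -(I / (D : ℂ)) := by
    rw [hD]
    rfl
  have cb : chi.b = I * vv / (D : ℂ) := by
    rw [hD]
    rfl
  apply SU.ext
  · rw [SU.mul_a, SU.mul_a, SU.inv_a, SU.inv_b, ga, gb, ra, rb, ca, cb]
    simp only [map_add, map_mul, map_neg, map_div₀, conj_ofReal, conj_I, map_ofNat, zero_mul, add_zero]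
    push_cast
    field_simp
    linear_combination (-I * (S : ℂ)) * hD2c
  · rw [SU.mul_b, SU.mul_b, SU.inv_a, SU.inv_b, ga, gb, ra, rb, ca, cb]
    simp only [map_add, map_mul, map_neg, map_div₀, conj_ofReal, conj_I, map_ofNat, zero_mul, add_zero]
    push_cast
    field_simp
    linear_combination ((vv : ℂ) * I * (S : ℂ)) * hD2c

theorem N25_linA (k : ℕ) (x : Mk) : (gA ^ k).lin x =
    (x.1, Complex.exp (((2 * Real.pi * k / 7 : ℝ) : ℂ) * I) * x.2) := by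
  have h := N02_gA k
  rw [n25_diag _ _ h.1 h.2]
  congr 5
  ring

theorem N25_linA_inv (k : ℕ) (x : Mk) : ((gA ^ k)⁻¹).lin x =
    (x.1, Complex.exp (((-(2 * Real.pi * k / 7) : ℝ) : ℂ) * I) * x.2) := by
  have h := N02_gA k
  have h1 : ((gA ^ k)⁻¹).a = Complex.exp (((-(Real.pi * k / 7) : ℝ) : ℂ) * I) := by
    rw [SU.inv_a, h.1, ← Complex.exp_conj, map_mul, conj_ofReal, conj_I]
    congr 1
    push_cast
    ring
  have h2 : ((gA ^ k)⁻¹).b = 0 := by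
    rw [SU.inv_b, h.2, neg_zero]
  rw [n25_diag _ _ h1 h2]
  congr 5
  ring

theorem N25_chi (x : Mk) :
    (chi.lin x).1 = CC * x.1 - qq / (Real.sqrt 3 * Real.sin (Real.pi / 7)) * x.2.re ∧
    (chi.lin x).2.re = qq / (Real.sqrt 3 * Real.sin (Real.pi / 7)) * x.1 - CC * x.2.re ∧
    (chi.lin x).2.im = -x.2.im := by
  obtain ⟨D, hD, hD0, hD2⟩ := n25_D
  have ca : chi.a = -(I / (D : ℂ)) := by
    rw [hD]
    rfl
  have cb : chi.b = I * vv / (D : ℂ) := by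
    rw [hD]
    rfl
  have hDc : (D : ℂ) ≠ 0 := by exact_mod_cast hD0.ne'
  have h1 := n25_vv.1
  have h2 := n25_2vv
  rw [← hD2] at h1 h2
  have e1 : normSq chi.a + normSq chi.b = CC := by
    rw [ca, cb, normSq_neg, map_div₀, map_div₀, map_mul, normSq_I, normSq_ofReal, normSq_ofReal, ← h1]
    field_simp
  have e2 : chi.a * conj chi.b = ((-(vv / D ^ 2) : ℝ) : ℂ) := by
    rw [ca, cb, map_div₀, map_mul, conj_I, conj_ofReal, conj_ofReal]
    push_cast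
    field_simp
    ring_nf
    simp only [I_sq]
    ring
  have e3 : 2 * chi.a * chi.b = ((2 * vv / D ^ 2 : ℝ) : ℂ) := by
    rw [ca, cb]
    push_cast
    field_simp
    ring_nf
    simp only [I_sq]
    ring
  have e4 : chi.a ^ 2 = ((-(1 / D ^ 2) : ℝ) : ℂ) := by
    rw [ca, neg_sq, div_pow, I_sq]
    push_cast
    ring
  have e5 : chi.b ^ 2 = ((-(vv ^ 2 / D ^ 2) : ℝ) : ℂ) := by
    rw [cb, div_pow, mul_pow, I_sq]
    push_cast
    ring
  have h3 : (1 : ℝ) / D ^ 2 - vv ^ 2 / D ^ 2 = 1 := by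
    rw [← sub_div, ← hD2, div_self (pow_ne_zero 2 hD0.ne')]
  unfold SU.lin
  refine ⟨?_, ?_, ?_⟩
  · show (normSq chi.a + normSq chi.b) * x.1 + 2 * (chi.a * conj chi.b * x.2).re = _
    rw [e1, e2, re_ofReal_mul, ← h2]
    ring
  · show (2 * chi.a * chi.b * (x.1 : ℂ) + chi.a ^ 2 * x.2 + chi.b ^ 2 * conj x.2).re = _
    rw [e3, e4, e5, add_re, add_re, re_ofReal_mul, re_ofReal_mul, re_ofReal_mul, ofReal_re, conj_re, ← h2, ← h1]
    ring
  · show (2 * chi.a * chi.b * (x.1 : ℂ) + chi.a ^ 2 * x.2 + chi.b ^ 2 * conj x.2).im = _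
    rw [e3, e4, e5, add_im, add_im, im_ofReal_mul, im_ofReal_mul, im_ofReal_mul, ofReal_im, conj_im]
    linear_combination (-x.2.im) * h3

theorem N25_chiB (r : ℕ) :
    SU.act (chi * (gB ^ r)⁻¹) = SU.act (rot o0 (-(2 * Real.pi * r / 3)) * chi) := by
  have h1 : chi * (gB ^ r)⁻¹ = rot o0 (-(2 * Real.pi * r / 3)) * chi := by
    have h2 : SemiconjBy chi gB⁻¹ (rot o0 (-(2 * Real.pi / 3))) := n25_semi
    have h3 := h2.pow_right r
    rw [n25_rot_pow, inv_pow] at h3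
    have h4 : (r : ℝ) * -(2 * Real.pi / 3) = -(2 * Real.pi * r / 3) := by ring
    rw [h4] at h3
    exact h3
  rw [h1]

theorem N25_chi_app : chi⁻¹.app 0 = vv ∧ chi.app vv = 0 := by
  obtain ⟨D, hD, hD0, hD2⟩ := n25_D
  have ca : chi.a = -(I / (D : ℂ)) := by
    rw [hD]
    rfl
  have cb : chi.b = I * vv / (D : ℂ) := by
    rw [hD]
    rfl
  have hDc : (D : ℂ) ≠ 0 := by exact_mod_cast hD0.ne'
  constructor
  · show ((chi⁻¹).a * 0 + (chi⁻¹).b) / (conj (chi⁻¹).b * 0 + conj (chi⁻¹).a) = vv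
    rw [SU.inv_a, SU.inv_b, conj_conj, ca, cb, mul_zero, mul_zero, zero_add, zero_add]
    field_simp
  · show (chi.a * vv + chi.b) / (conj chi.b * vv + conj chi.a) = 0
    have h : chi.a * vv + chi.b = 0 := by
      rw [ca, cb]
      field_simp
      ring
    rw [h, zero_div]

end Pool.Agent.Lib.H11Q
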