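import Pool.Agent.Lib.H11Q.N00

/-! # H11Q chunk N34 (M): a circle mean.

PROOF.  `|u| = |w| = 1`, `0 ≤ s < 1`, `L² = |u-w|²`.  On `|z| = s` (`s > 0`; for `s = 0` the claim is trivial), with
`f(z) = 1/(z-w) - 1/(z-u) = (w-u)/((z-w)(z-u))`: `|f|² = f(z) conj(f(z))`, and `conj(1/(z-u)) = u z/(s² u - z)·(1/...)`: since `conj z = s²/z`,
`conj u = 1/u`: `conj (1/(z-u)) = 1/(s²/z - 1/u) = z u/(s² u - z)`.  So
`(1/2π)∫ |f|² dt = (1/2πi) ∮ f(z) [w/(s² w - z) - u/(s² u - z)] dz`, and by Cauchy's formula (`f` is holomorphic on `|z| < 1`; the poles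
`s² w`, `s² u` are inside) this is `-w f(s² w) + u f(s² u)`; computing: `2/(1-s²) - 2 Re((w conj u) - s²)/|w conj u - s²|²
= L²(1+s²)/((1-s²)((1-s²)²+s²L²))`.
ALTERNATIVE without residues: partial fractions in real form, `1/|z-u|² ` is `1/(1-s²)` times the Poisson kernel, `P(z,u) = (1-s²)/|z-u|²`, and
`P(z,u) P(z,w)` has the mean `P_{s²}(u,w) (...)`; or expand in Fourier series: `1/(z-u) = -∑ z^k u^{-k-1}` and Parseval:
`mean |f|² = ∑_k s^{2k} |w^{-k-1} - u^{-k-1}|² = ∑ s^{2k} (2 - 2 Re (w conj u)^{k+1})`, three geometric series.  (For the integral: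
`f = ∑ c_k z^k`, absolutely convergent for `s < 1`; the mean of `|∑ c_k s^k e^{ikt}|²`, or only the mean of the product of two geometric
series.) -/

set_option autoImplicit false

namespace Pool.Agent.Lib.H11Q

open Complex Set MeasureTheory Metric Filter
open scoped ComplexConjugate Topology

/-- The algebraic identity for the values. -/
theorem n34_alg {u w s : ℂ} (hu : u ≠ 0) (hw : w ≠ 0) (h1 : s ^ 2 * u - w ≠ 0) (h2 : s ^ 2 * w - u ≠ 0)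
    (h3 : 1 - s ^ 2 ≠ 0) :
    u * ((w - u) / ((s ^ 2 * u - w) * (s ^ 2 * u - u))) - w * ((w - u) / ((s ^ 2 * w - w) * (s ^ 2 * w - u))) =
      (u - w) * (u⁻¹ - w⁻¹) * (1 + s ^ 2) / ((1 - s ^ 2) * ((1 - s ^ 2) ^ 2 + s ^ 2 * ((u - w) * (u⁻¹ - w⁻¹)))) := by
  have e1 : (1 - s ^ 2) ^ 2 + s ^ 2 * ((u - w) * (u⁻¹ - w⁻¹)) = (s ^ 2 * u - w) * (s ^ 2 * w - u) / (u * w) := by
    field_simp
    ring
  have e2 : s ^ 2 * u - u = -(u * (1 - s ^ 2)) := by ring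
  have e3 : s ^ 2 * w - w = -(w * (1 - s ^ 2)) := by ring
  have e4 : (u - w) * (u⁻¹ - w⁻¹) = -(u - w) ^ 2 / (u * w) := by
    field_simp
    ring
  rw [e1, e2, e3, e4]
  have h4 : u * (1 - s ^ 2) ≠ 0 := mul_ne_zero hu h3
  have h5 : w * (1 - s ^ 2) ≠ 0 := mul_ne_zero hw h3
  have e5 : u * ((w - u) / ((s ^ 2 * u - w) * -(u * (1 - s ^ 2)))) = (u - w) / ((s ^ 2 * u - w) * (1 - s ^ 2)) := by
    rw [mul_div_assoc', div_eq_div_iff (mul_ne_zero h1 (neg_ne_zero.mpr h4)) (mul_ne_zero h1 h3)]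
    ring
  have e6 : w * ((w - u) / (-(w * (1 - s ^ 2)) * (s ^ 2 * w - u))) = (u - w) / ((s ^ 2 * w - u) * (1 - s ^ 2)) := by
    rw [mul_div_assoc', div_eq_div_iff (mul_ne_zero (neg_ne_zero.mpr h5) h2) (mul_ne_zero h2 h3)]
    ring
  have e7 : -(u - w) ^ 2 / (u * w) * (1 + s ^ 2) / ((1 - s ^ 2) * ((s ^ 2 * u - w) * (s ^ 2 * w - u) / (u * w))) =
      -(u - w) ^ 2 * (1 + s ^ 2) / ((1 - s ^ 2) * ((s ^ 2 * u - w) * (s ^ 2 * w - u))) := by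
    have h6 : u * w ≠ 0 := mul_ne_zero hu hw
    rw [div_mul_eq_mul_div, mul_div_assoc', div_div_div_cancel_right₀ h6]
  rw [e5, e6, e7, div_sub_div _ _ (mul_ne_zero h1 h3) (mul_ne_zero h2 h3),
    div_eq_div_iff (mul_ne_zero (mul_ne_zero h1 h3) (mul_ne_zero h2 h3)) (mul_ne_zero h3 (mul_ne_zero h1 h2))]
  ring

theorem n34_conj {u : ℂ} (hu : ‖u‖ = 1) : u ≠ 0 ∧ conj u = u⁻¹ := by
  have h0 : u ≠ 0 := by
    intro h
    rw [h, norm_zero] at hu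
    exact zero_ne_one hu
  refine ⟨h0, ?_⟩
  rw [Complex.inv_def, Complex.normSq_eq_norm_sq, hu]
  simp

/-- The algebraic identity on the circle. -/
theorem n34_pt {u w z s : ℂ} (hz : z ≠ 0) (hu : u ≠ 0) (hw : w ≠ 0) (h1 : z - u ≠ 0) (h2 : z - w ≠ 0)
    (h3 : s ^ 2 * z⁻¹ - u⁻¹ ≠ 0) (h4 : s ^ 2 * z⁻¹ - w⁻¹ ≠ 0) :
    (u - w) * (u⁻¹ - w⁻¹) / ((z - u) * (s ^ 2 * z⁻¹ - u⁻¹) * ((z - w) * (s ^ 2 * z⁻¹ - w⁻¹))) =
      z * (u * ((z - s ^ 2 * u)⁻¹ * ((w - u) / ((z - w) * (z - u)))) -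
        w * ((z - s ^ 2 * w)⁻¹ * ((w - u) / ((z - w) * (z - u))))) := by
  have e1 : z - s ^ 2 * u = -(z * u) * (s ^ 2 * z⁻¹ - u⁻¹) := by
    field_simp
    ring
  have e2 : z - s ^ 2 * w = -(z * w) * (s ^ 2 * z⁻¹ - w⁻¹) := by
    field_simp
    ring
  have e5 : u⁻¹ - w⁻¹ = (s ^ 2 * z⁻¹ - w⁻¹) - (s ^ 2 * z⁻¹ - u⁻¹) := by ring
  rw [e1, e2, e5]
  generalize s ^ 2 * z⁻¹ - u⁻¹ = A at *
  generalize s ^ 2 * z⁻¹ - w⁻¹ = B at *
  clear e1 e2 e5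
  have h6 : -(z * u) * A ≠ 0 := mul_ne_zero (neg_ne_zero.mpr (mul_ne_zero hz hu)) h3
  have h7 : -(z * w) * B ≠ 0 := mul_ne_zero (neg_ne_zero.mpr (mul_ne_zero hz hw)) h4
  have e3 : z * (u * ((-(z * u) * A)⁻¹ * ((w - u) / ((z - w) * (z - u))))) = (u - w) / (A * ((z - w) * (z - u))) := by
    rw [mul_comm ((-(z * u) * A)⁻¹), ← div_eq_mul_inv, div_div, mul_div_assoc', mul_div_assoc',
      div_eq_div_iff (mul_ne_zero (mul_ne_zero h2 h1) h6) (mul_ne_zero h3 (mul_ne_zero h2 h1))]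
    ring
  have e4 : z * (w * ((-(z * w) * B)⁻¹ * ((w - u) / ((z - w) * (z - u))))) = (u - w) / (B * ((z - w) * (z - u))) := by
    rw [mul_comm ((-(z * w) * B)⁻¹), ← div_eq_mul_inv, div_div, mul_div_assoc', mul_div_assoc',
      div_eq_div_iff (mul_ne_zero (mul_ne_zero h2 h1) h7) (mul_ne_zero h4 (mul_ne_zero h2 h1))]
    ring
  rw [mul_sub z, e3, e4, div_sub_div _ _ (mul_ne_zero h3 (mul_ne_zero h2 h1)) (mul_ne_zero h4 (mul_ne_zero h2 h1)),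
    div_eq_div_iff (mul_ne_zero (mul_ne_zero h1 h3) (mul_ne_zero h2 h4))
      (mul_ne_zero (mul_ne_zero h3 (mul_ne_zero h2 h1)) (mul_ne_zero h4 (mul_ne_zero h2 h1)))]
  ring

theorem N34_mean {u w : ℂ} (hu : ‖u‖ = 1) (hw : ‖w‖ = 1) {s : ℝ} (hs : 0 ≤ s) (hs1 : s < 1) :
    ∫ t in (0 : ℝ)..(2 * Real.pi), ‖u - w‖ ^ 2 /
        (‖(s : ℂ) * Complex.exp (t * I) - u‖ ^ 2 * ‖(s : ℂ) * Complex.exp (t * I) - w‖ ^ 2) =
      2 * Real.pi * (‖u - w‖ ^ 2 * (1 + s ^ 2) /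
        ((1 - s ^ 2) * ((1 - s ^ 2) ^ 2 + s ^ 2 * ‖u - w‖ ^ 2))) := by
  rcases hs.eq_or_lt with hs0 | hs0
  · rw [← hs0]
    simp [hu, hw]
  obtain ⟨hu0, huc⟩ := n34_conj hu
  obtain ⟨hw0, hwc⟩ := n34_conj hw
  have hne : ∀ z v : ℂ, ‖z‖ < 1 → ‖v‖ = 1 → z - v ≠ 0 := by
    intro z v hz hv h
    rw [sub_eq_zero.mp h, hv] at hz
    exact lt_irrefl _ hz
  have hf : DiffContOnCl ℂ (fun z : ℂ => (w - u) / ((z - w) * (z - u))) (ball 0 s) := by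
    apply DifferentiableOn.diffContOnCl
    rw [closure_ball _ hs0.ne']
    intro z hz
    have hz1 : ‖z‖ < 1 := by
      rw [mem_closedBall_zero_iff] at hz
      linarith
    exact ((differentiableAt_const _).div (((differentiableAt_id).sub_const w).mul ((differentiableAt_id).sub_const u))
      (mul_ne_zero (hne z w hz1 hw) (hne z u hz1 hu))).differentiableWithinAt
  have hin : ∀ v : ℂ, ‖v‖ = 1 → (s : ℂ) ^ 2 * v ∈ ball (0 : ℂ) s := by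
    intro v hv
    rw [mem_ball_zero_iff, norm_mul, hv, mul_one, norm_pow, Complex.norm_real, Real.norm_eq_abs, abs_of_pos hs0]
    nlinarith
  have hC1 := hf.circleIntegral_sub_inv_smul (hin u hu)
  have hC2 := hf.circleIntegral_sub_inv_smul (hin w hw)
  have hci : ∀ v : ℂ, ‖v‖ = 1 → CircleIntegrable
      (fun z : ℂ => (z - (s : ℂ) ^ 2 * v)⁻¹ • ((w - u) / ((z - w) * (z - u)))) 0 s := by
    intro v hv
    apply ContinuousOn.circleIntegrable hs0.le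
    intro z hz
    rw [mem_sphere_zero_iff_norm] at hz
    have hz1 : ‖z‖ < 1 := by rw [hz]; exact hs1
    have h3 : z - (s : ℂ) ^ 2 * v ≠ 0 := by
      intro h
      have h4 := hin v hv
      rw [← sub_eq_zero.mp h, mem_ball_zero_iff, hz] at h4
      exact lt_irrefl _ h4
    have h5 : ContinuousAt (fun z : ℂ => (z - (s : ℂ) ^ 2 * v)⁻¹ * ((w - u) / ((z - w) * (z - u)))) z := by
      refine ContinuousAt.mul ?_ ?_
      · exact (continuousAt_id.sub continuousAt_const).inv₀ h3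
      · exact continuousAt_const.div ((continuousAt_id.sub continuousAt_const).mul (continuousAt_id.sub continuousAt_const))
          (mul_ne_zero (hne z w hz1 hw) (hne z u hz1 hu))
    exact h5.continuousWithinAt
  have hci2 : ∀ v : ℂ, ‖v‖ = 1 → CircleIntegrable
      (fun z : ℂ => v • ((z - (s : ℂ) ^ 2 * v)⁻¹ • ((w - u) / ((z - w) * (z - u))))) 0 s :=
    fun v hv => IntervalIntegrable.const_mul (hci v hv) v
  have hsum : (∮ z in C(0, s), (u * ((z - (s : ℂ) ^ 2 * u)⁻¹ * ((w - u) / ((z - w) * (z - u)))) -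
        w * ((z - (s : ℂ) ^ 2 * w)⁻¹ * ((w - u) / ((z - w) * (z - u)))))) =
      2 * Real.pi * I * (u * ((w - u) / (((s : ℂ) ^ 2 * u - w) * ((s : ℂ) ^ 2 * u - u))) -
        w * ((w - u) / (((s : ℂ) ^ 2 * w - w) * ((s : ℂ) ^ 2 * w - u)))) := by
    have h3 := circleIntegral.integral_sub (f := fun z : ℂ => u • ((z - (s : ℂ) ^ 2 * u)⁻¹ • ((w - u) / ((z - w) * (z - u)))))
      (g := fun z : ℂ => w • ((z - (s : ℂ) ^ 2 * w)⁻¹ • ((w - u) / ((z - w) * (z - u))))) (c := 0) (R := s)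
      (hci2 u hu) (hci2 w hw)
    rw [circleIntegral.integral_smul, circleIntegral.integral_smul, hC1, hC2] at h3
    simp only [smul_eq_mul] at h3
    rw [h3]
    ring
  have hL : ((‖u - w‖ ^ 2 : ℝ) : ℂ) = (u - w) * (u⁻¹ - w⁻¹) := by
    rw [← Complex.normSq_eq_norm_sq, Complex.normSq_eq_conj_mul_self, map_sub, huc, hwc, mul_comm]
  have hpt : ∀ t : ℝ, deriv (circleMap 0 s) t •
      (u * ((circleMap 0 s t - (s : ℂ) ^ 2 * u)⁻¹ * ((w - u) / ((circleMap 0 s t - w) * (circleMap 0 s t - u)))) -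
        w * ((circleMap 0 s t - (s : ℂ) ^ 2 * w)⁻¹ * ((w - u) / ((circleMap 0 s t - w) * (circleMap 0 s t - u))))) =
      I * ((‖u - w‖ ^ 2 / (‖(s : ℂ) * Complex.exp (t * I) - u‖ ^ 2 * ‖(s : ℂ) * Complex.exp (t * I) - w‖ ^ 2) : ℝ) : ℂ) := by
    intro t
    have hz : circleMap 0 s t = (s : ℂ) * Complex.exp (t * I) := by rw [circleMap_zero]
    have hzn : ‖circleMap 0 s t‖ = s := by rw [norm_circleMap_zero, abs_of_pos hs0]
    have hz0 : circleMap 0 s t ≠ 0 := by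
      rw [← norm_pos_iff, hzn]
      exact hs0
    have hzc : conj (circleMap 0 s t) = (s : ℂ) ^ 2 * (circleMap 0 s t)⁻¹ := by
      rw [eq_mul_inv_iff_mul_eq₀ hz0, ← Complex.normSq_eq_conj_mul_self, Complex.normSq_eq_norm_sq, hzn]
      push_cast
      rfl
    rw [← hz, deriv_circleMap]
    generalize circleMap 0 s t = z at *
    have hz1 : ‖z‖ < 1 := by rw [hzn]; exact hs1
    have h1 := hne z u hz1 hu
    have h2 := hne z w hz1 hw
    have h3 : (s : ℂ) ^ 2 * z⁻¹ - u⁻¹ ≠ 0 := by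
      rw [← hzc, ← huc, ← map_sub]
      exact (map_ne_zero _).mpr h1
    have h4 : (s : ℂ) ^ 2 * z⁻¹ - w⁻¹ ≠ 0 := by
      rw [← hzc, ← hwc, ← map_sub]
      exact (map_ne_zero _).mpr h2
    have e1 : ((‖z - u‖ ^ 2 : ℝ) : ℂ) = (z - u) * ((s : ℂ) ^ 2 * z⁻¹ - u⁻¹) := by
      rw [← Complex.normSq_eq_norm_sq, Complex.normSq_eq_conj_mul_self, map_sub, huc, hzc, mul_comm]
    have e2 : ((‖z - w‖ ^ 2 : ℝ) : ℂ) = (z - w) * ((s : ℂ) ^ 2 * z⁻¹ - w⁻¹) := by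
      rw [← Complex.normSq_eq_norm_sq, Complex.normSq_eq_conj_mul_self, map_sub, hwc, hzc, mul_comm]
    rw [Complex.ofReal_div, Complex.ofReal_mul, hL, e1, e2, n34_pt hz0 hu0 hw0 h1 h2 h3 h4, smul_eq_mul]
    ring
  have hint : (∮ z in C(0, s), (u * ((z - (s : ℂ) ^ 2 * u)⁻¹ * ((w - u) / ((z - w) * (z - u)))) -
        w * ((z - (s : ℂ) ^ 2 * w)⁻¹ * ((w - u) / ((z - w) * (z - u)))))) =
      I * ((∫ t in (0 : ℝ)..(2 * Real.pi), ‖u - w‖ ^ 2 /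
        (‖(s : ℂ) * Complex.exp (t * I) - u‖ ^ 2 * ‖(s : ℂ) * Complex.exp (t * I) - w‖ ^ 2) : ℝ) : ℂ) := by
    rw [circleIntegral]
    rw [intervalIntegral.integral_congr (g := fun t : ℝ => I * ((‖u - w‖ ^ 2 /
      (‖(s : ℂ) * Complex.exp (t * I) - u‖ ^ 2 * ‖(s : ℂ) * Complex.exp (t * I) - w‖ ^ 2) : ℝ) : ℂ)) (fun t _ => hpt t)]
    rw [intervalIntegral.integral_const_mul, intervalIntegral.integral_ofReal]
  have hs2 : (1 : ℂ) - (s : ℂ) ^ 2 ≠ 0 := by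
    have : (1 : ℝ) - s ^ 2 ≠ 0 := by nlinarith
    exact_mod_cast this
  have hsu : (s : ℂ) ^ 2 * u - w ≠ 0 := by
    apply hne _ _ _ hw
    have := hin u hu
    rw [mem_ball_zero_iff] at this
    linarith
  have hsw : (s : ℂ) ^ 2 * w - u ≠ 0 := by
    apply hne _ _ _ hu
    have := hin w hw
    rw [mem_ball_zero_iff] at this
    linarith
  rw [hint, n34_alg hu0 hw0 hsu hsw hs2, ← hL] at hsum
  have hfin : I * ((∫ t in (0 : ℝ)..(2 * Real.pi), ‖u - w‖ ^ 2 /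
        (‖(s : ℂ) * Complex.exp (t * I) - u‖ ^ 2 * ‖(s : ℂ) * Complex.exp (t * I) - w‖ ^ 2) : ℝ) : ℂ) =
      I * ((2 * Real.pi * (‖u - w‖ ^ 2 * (1 + s ^ 2) /
        ((1 - s ^ 2) * ((1 - s ^ 2) ^ 2 + s ^ 2 * ‖u - w‖ ^ 2))) : ℝ) : ℂ) := by
    rw [hsum]
    push_cast
    ring
  have h5 := mul_left_cancel₀ Complex.I_ne_zero hfin
  exact Complex.ofReal_injective h5

end Pool.Agent.Lib.H11Q
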