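import Pool.Agent.Lib.H11Q.N02
import Pool.Agent.Lib.H11Q.N10
import Pool.Agent.Lib.H11Q.N16

/-! # H11Q chunk N35A (S/M): the derivative of the strip coordinate of a line. -/

set_option autoImplicit false

namespace Pool.Agent.Lib.H11Q

open Complex Set MeasureTheory Metric Filter
open scoped ComplexConjugate Topology

theorem n35a_prod (g : SU) {z : ℂ} (hz : ‖z‖ < 1) :
    (1 - g⁻¹.app z ^ 2) * g⁻¹.den z ^ 2 =
      -(conj (g.a + g.b) * conj (g.a - g.b)) * ((z - g.app 1) * (z - g.app (-1))) := by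
  have hd := g⁻¹.den_ne hz.le
  have hp : g.den 1 ≠ 0 := g.den_ne (by simp)
  have hm : g.den (-1) ≠ 0 := g.den_ne (by simp)
  have e1 : g⁻¹.app z * g⁻¹.den z = conj g.a * z - g.b := by
    show ((g⁻¹).a * z + (g⁻¹).b) / (g⁻¹).den z * (g⁻¹).den z = _
    rw [div_mul_cancel₀ _ hd, SU.inv_a, SU.inv_b]
    ring
  have e2 : g⁻¹.den z = g.a - conj g.b * z := by
    show conj (g⁻¹).b * z + conj (g⁻¹).a = _
    rw [SU.inv_a, SU.inv_b, map_neg, conj_conj]
    ring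
  have e3 : conj (g.a + g.b) * (z - g.app 1) = conj (g.a + g.b) * z - (g.a + g.b) := by
    have h1 : g.app 1 * g.den 1 = g.a + g.b := by
      show (g.a * 1 + g.b) / g.den 1 * g.den 1 = _
      rw [div_mul_cancel₀ _ hp, mul_one]
    have h2 : g.den 1 = conj (g.a + g.b) := by
      show conj g.b * 1 + conj g.a = _
      rw [map_add]
      ring
    rw [h2] at h1
    linear_combination -h1
  have e4 : conj (g.a - g.b) * (z - g.app (-1)) = conj (g.a - g.b) * z + (g.a - g.b) := by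
    have h1 : g.app (-1) * g.den (-1) = g.b - g.a := by
      show (g.a * (-1) + g.b) / g.den (-1) * g.den (-1) = _
      rw [div_mul_cancel₀ _ hm]
      ring
    have h2 : g.den (-1) = conj (g.a - g.b) := by
      show conj g.b * (-1) + conj g.a = _
      rw [map_sub]
      ring
    rw [h2] at h1
    linear_combination -h1
  have e5 : (1 - g⁻¹.app z ^ 2) * g⁻¹.den z ^ 2 = g⁻¹.den z ^ 2 - (g⁻¹.app z * g⁻¹.den z) ^ 2 := by
    ring
  have e6 : -(conj (g.a + g.b) * conj (g.a - g.b)) * ((z - g.app 1) * (z - g.app (-1))) =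
      -((conj (g.a + g.b) * (z - g.app 1)) * (conj (g.a - g.b) * (z - g.app (-1)))) := by
    ring
  rw [e5, e6, e1, e2, e3, e4, map_add, map_sub]
  ring

theorem N35A_der (g : SU) {z : ℂ} (hz : ‖z‖ < 1) :
    ∃ f' : ℂ, HasDerivAt (fun z => st (g⁻¹.app z)) f' z ∧
      ‖f'‖ ^ 2 = Lsq (nv g) / (‖z - g.app 1‖ ^ 2 * ‖z - g.app (-1)‖ ^ 2) := by
  have hy := g⁻¹.app_norm_lt hz
  have h1 := N10_st_deriv hy
  have h2 := N16_app_deriv g⁻¹ hz.le
  refine ⟨_, h1.comp z h2, ?_⟩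
  have hp := n35a_prod g hz
  have e : 2 / (1 - g⁻¹.app z ^ 2) * (1 / g⁻¹.den z ^ 2) =
      2 / ((1 - g⁻¹.app z ^ 2) * g⁻¹.den z ^ 2) := by
    rw [div_mul_div_comm, mul_one]
  rw [e, hp, norm_div, div_pow, norm_mul, norm_neg, norm_mul, norm_mul, norm_conj, norm_conj]
  have h3 : ‖(nv g).2‖ = ‖g.a + g.b‖ * ‖g.a - g.b‖ := by
    show ‖-I * (g.a ^ 2 - g.b ^ 2)‖ = _
    rw [norm_mul, norm_neg, norm_I, one_mul, ← norm_mul]
    congr 1
    ring
  unfold Lsq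
  rw [h3]
  have h4 : ‖(2 : ℂ)‖ = 2 := by simp
  rw [h4]
  rw [div_div]
  congr 1
  · norm_num
  · ring

theorem n35a_norm (g : SU) {z : ℂ} (hz : ‖z‖ = 1) : ‖g.app z‖ = 1 := by
  have h := g.normSq_app hz.le
  rw [hz] at h
  have h1 : ‖g.app z‖ ^ 2 = 1 := by
    have : (1 : ℝ) - 1 ^ 2 = 0 := by norm_num
    rw [this, zero_div] at h
    linarith
  exact (pow_eq_one_iff_of_nonneg (norm_nonneg _) two_ne_zero).mp h1

theorem N35A_L (g : SU) : ‖g.app 1 - g.app (-1)‖ ^ 2 = Lsq (nv g) ∧ ‖g.app 1‖ = 1 ∧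
    ‖g.app (-1)‖ = 1 := by
  refine ⟨?_, n35a_norm g (by simp), n35a_norm g (by simp)⟩
  rw [N02_end1, N02_end2]
  have e : mid (nv g) + I * pp (nv g) - (mid (nv g) - I * pp (nv g)) = 2 * I * pp (nv g) := by
    ring
  rw [e, norm_mul, norm_mul, norm_I, mul_pow, N02_pp (N01_nrm g)]
  norm_num
  ring

theorem N35A_meas (g : SU) {r : ℝ} (hr : 0 < r) (hr1 : r < 1) :
    MeasurableSet (EEs g r) ∧ EEs g r ⊆ Str := by
  have hsub : EEs g r ⊆ Str := by
    rintro ζ ⟨z, hz, rfl⟩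
    have hz1 : ‖z‖ < 1 := (mem_ball_zero_iff.mp hz).trans hr1
    exact (N10_st (g⁻¹.app_norm_lt hz1)).1
  refine ⟨?_, hsub⟩
  have e : EEs g r = Str ∩ {ζ | ‖g.app (th ζ)‖ < r} := by
    apply Set.Subset.antisymm
    · rintro ζ ⟨z, hz, rfl⟩
      have hz1 : ‖z‖ < 1 := (mem_ball_zero_iff.mp hz).trans hr1
      refine ⟨(N10_st (g⁻¹.app_norm_lt hz1)).1, ?_⟩
      show ‖g.app (th (st (g⁻¹.app z)))‖ < r
      rw [(N10_st (g⁻¹.app_norm_lt hz1)).2, ← SU.app_mul g g⁻¹ hz1.le, mul_inv_cancel, SU.app_one]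
      exact mem_ball_zero_iff.mp hz
    · rintro ζ ⟨h1, h2⟩
      refine ⟨g.app (th ζ), mem_ball_zero_iff.mpr h2, ?_⟩
      show st (g⁻¹.app (g.app (th ζ))) = ζ
      rw [← SU.app_mul g⁻¹ g (N10_norm h1).le, inv_mul_cancel, SU.app_one, N10_st_th h1]
  rw [e]
  have hc : ContinuousOn (fun ζ => ‖g.app (th ζ)‖) Str := by
    intro ζ hζ
    have h1 : ContinuousAt th ζ := (N10_deriv hζ).continuousAt
    have h2 : ContinuousAt g.app (th ζ) := (N16_app_deriv g (N10_norm hζ).le).continuousAt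
    exact (h2.comp h1).norm.continuousWithinAt
  have ho : IsOpen (Str ∩ (fun ζ => ‖g.app (th ζ)‖) ⁻¹' Iio r) :=
    hc.isOpen_inter_preimage N10_open.1 isOpen_Iio
  exact ho.measurableSet

end Pool.Agent.Lib.H11Q
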