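import Pool.Agent.Lib.H11Q.E18
import Pool.Agent.Lib.H11Q.E19
import Pool.Agent.Lib.H11Q.E20
import Pool.Agent.Lib.H11Q.N0Q

/-! # H11Q chunk N40 (M): precise values of `a0` and `k0`.

PROOFS.
* `N40_a0`: let `b = a0`, `vv = 2b/(1+b²)` (`E19_vv`), so `CC = (1+vv²)/(1-vv²) = (1+6b²+b⁴)/(1-b²)²` (`vv_sq`), an increasing function of
  `b ∈ (0,1)`.  `CC² = l²/(3(4-l²))`, `l = 2 cos(π/7)` the root of `l³ - l² - 2l + 1` in `(1.8019377, 1.8019378)` (`E18_root`, `E18_cos`; more digits: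
  `1.8019377358048 < l < 1.8019377358049` because the cubic is increasing there), so `1.19888018728 < CC < 1.19888018730`.  And the function of
  `b` is `< 1.19888018728` at `b = 0.15393448` and `> 1.19888018730` at `b = 0.15393449` (the derivative is about `2.6`; check the
  values by `norm_num`), true value `b = 0.153934481546..`.
* `N40_k0`: `E20_W` with `κ = k0`, `Z = 2 k0` (`E_aa_WW`-statement `E07_aa_WW`, `E19_k0`: `WW k0 (2 k0) = a0`):
  `|2 k0 - a0 (1 + 2 k0⁴)| ≤ 3 k0⁶ ≤ 6.3·10⁻⁷`, and `0.07697 < k0 < 0.07698` gives `2 k0⁴ ∈ (7.019·10⁻⁵, 7.024·10⁻⁵)`. -/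

set_option autoImplicit false

namespace Pool.Agent.Lib.H11Q

open Complex

theorem n40_l : (180193773580483 / 10 ^ 14 : ℝ) < 2 * Real.cos (Real.pi / 7) ∧
    2 * Real.cos (Real.pi / 7) < 180193773580484 / 10 ^ 14 := by
  have hr := E18_root
  have hl := e18_lower
  set l := 2 * Real.cos (Real.pi / 7) with hldef
  have hfac : ∀ y : ℝ, (l - y) * (l ^ 2 + l * y + y ^ 2 - l - y - 2) =
      -(y ^ 3 - y ^ 2 - 2 * y + 1) := by
    intro y
    linear_combination hr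
  have hq : ∀ y : ℝ, 16 / 10 < y → 0 < l ^ 2 + l * y + y ^ 2 - l - y - 2 := by
    intro y hy
    nlinarith
  constructor
  · by_contra h
    push Not at h
    have h1 := hfac (180193773580483 / 10 ^ 14)
    have h2 := hq (180193773580483 / 10 ^ 14) (by norm_num)
    have h3 : (l - 180193773580483 / 10 ^ 14) *
        (l ^ 2 + l * (180193773580483 / 10 ^ 14) + (180193773580483 / 10 ^ 14) ^ 2 - l -
          180193773580483 / 10 ^ 14 - 2) ≤ 0 :=
      mul_nonpos_of_nonpos_of_nonneg (by linarith) h2.le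
    rw [h1] at h3
    norm_num at h3
  · by_contra h
    push Not at h
    have h1 := hfac (180193773580484 / 10 ^ 14)
    have h2 := hq (180193773580484 / 10 ^ 14) (by norm_num)
    have h3 : 0 ≤ (l - 180193773580484 / 10 ^ 14) *
        (l ^ 2 + l * (180193773580484 / 10 ^ 14) + (180193773580484 / 10 ^ 14) ^ 2 - l -
          180193773580484 / 10 ^ 14 - 2) :=
      mul_nonneg (by linarith) h2.le
    rw [h1] at h3
    norm_num at h3

/-- The square of the cosine. -/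
theorem n40_csq : (81174490092935 / 10 ^ 14 : ℝ) < Real.cos (Real.pi / 7) ^ 2 ∧
    Real.cos (Real.pi / 7) ^ 2 < 81174490092938 / 10 ^ 14 := by
  obtain ⟨h1, h2⟩ := n40_l
  have h1' : (90096886790241 / 10 ^ 14 : ℝ) < Real.cos (Real.pi / 7) := by linarith
  have h2' : Real.cos (Real.pi / 7) < (90096886790242 / 10 ^ 14 : ℝ) := by linarith
  have h3 : (90096886790241 / 10 ^ 14 : ℝ) ^ 2 < Real.cos (Real.pi / 7) ^ 2 := by gcongr
  have h4 : Real.cos (Real.pi / 7) ^ 2 < (90096886790242 / 10 ^ 14 : ℝ) ^ 2 := by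
    have : 0 ≤ Real.cos (Real.pi / 7) := by linarith
    gcongr
  norm_num at h3 h4 ⊢
  constructor <;> linarith

/-- The square of `CC`. -/
theorem n40_CC2 : CC ^ 2 = Real.cos (Real.pi / 7) ^ 2 / (3 * (1 - Real.cos (Real.pi / 7) ^ 2)) := by
  have h3 := e18_CC_sq
  obtain ⟨h1, h2⟩ := n40_csq
  have h4 : (0 : ℝ) < 3 * (1 - Real.cos (Real.pi / 7) ^ 2) := by linarith
  rw [eq_div_iff h4.ne']
  linear_combination h3 / 4

theorem n40_CCb : (11988801872 / 10 ^ 10 : ℝ) < CC ∧ CC < 11988801874 / 10 ^ 10 := by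
  obtain ⟨h1, h2⟩ := n40_csq
  have hE := n40_CC2
  set x := Real.cos (Real.pi / 7) ^ 2 with hx
  have h4 : (0 : ℝ) < 3 * (1 - x) := by linarith
  constructor
  · refine lt_of_pow_lt_pow_left₀ 2 e18_CC_pos.le ?_
    rw [hE, lt_div_iff₀ h4]
    norm_num at h1 ⊢
    linarith
  · refine lt_of_pow_lt_pow_left₀ 2 (by norm_num) ?_
    rw [hE, div_lt_iff₀ h4]
    norm_num at h2 ⊢
    linarith

theorem N40_a0 : (15393448 : ℝ) / 10 ^ 8 < a0 ∧ a0 < 15393449 / 10 ^ 8 := by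
  obtain ⟨h1, h2⟩ := n40_CCb
  obtain ⟨h3, h4⟩ := E18_a0
  have h5 := E19_vv.2
  have h6 : 0 < 1 - a0 ^ 2 := by nlinarith
  have h7 : (2 * a0 / (1 - a0 ^ 2)) ^ 2 = (CC - 1) / 2 := by
    rw [← h5, div_pow]
    ring
  have h8 : 0 < 2 * a0 / (1 - a0 ^ 2) := by
    have : 0 < a0 := by linarith
    positivity
  have h9 : (315341232 / 10 ^ 9 : ℝ) < 2 * a0 / (1 - a0 ^ 2) := by
    refine lt_of_pow_lt_pow_left₀ 2 h8.le ?_
    rw [h7]
    norm_num at h1 ⊢
    linarith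
  have h10 : 2 * a0 / (1 - a0 ^ 2) < (315341236 / 10 ^ 9 : ℝ) := by
    refine lt_of_pow_lt_pow_left₀ 2 (by norm_num) ?_
    rw [h7]
    norm_num at h2 ⊢
    linarith
  rw [lt_div_iff₀ h6] at h9
  rw [div_lt_iff₀ h6] at h10
  constructor
  · by_contra h
    push Not at h
    have h11 : a0 ^ 2 ≤ (15393448 / 10 ^ 8) ^ 2 := by
      have : 0 ≤ a0 := by linarith
      gcongr
    norm_num at h9 h11 h
    linarith
  · by_contra h
    push Not at h
    have h11 : (15393449 / 10 ^ 8) ^ 2 ≤ a0 ^ 2 := by gcongr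
    norm_num at h10 h11 h
    linarith

theorem N40_k0 : |k0 - 769726 / 10 ^ 7| ≤ 4 / 10 ^ 7 := by
  obtain ⟨ha1, ha2⟩ := N40_a0
  obtain ⟨hk, h1, h2⟩ := E19_k0
  have hk0 : 0 ≤ k0 := by linarith
  have hk1 : k0 ≤ 1 / 10 := by linarith
  have hZ : ‖(2 * (k0 : ℂ))‖ ≤ 5 / 4 := by
    rw [norm_mul, Complex.norm_real, Real.norm_eq_abs, abs_of_nonneg hk0, Complex.norm_ofNat]
    linarith
  have hW := E20_W hk0 hk1 hZ
  rw [E07_aa_WW, hk] at hW
  have he : (2 * (k0 : ℂ)) - (a0 : ℂ) * (1 + (k0 : ℂ) ^ 2 * ((2 * (k0 : ℂ)) ^ 2 - 2 * (k0 : ℂ) ^ 2)) =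
      ((2 * k0 - a0 * (1 + 2 * k0 ^ 4) : ℝ) : ℂ) := by
    push_cast
    ring
  rw [he, Complex.norm_real, Real.norm_eq_abs, abs_le] at hW
  have h6 : k0 ^ 6 ≤ (7698 / 100000) ^ 6 := by gcongr
  have h4a : k0 ^ 4 ≤ (7698 / 100000) ^ 4 := by gcongr
  have h4b : (7697 / 100000) ^ 4 ≤ k0 ^ 4 := by gcongr
  have h5a : a0 * (1 + 2 * k0 ^ 4) ≤ (15393449 / 10 ^ 8) * (1 + 2 * (7698 / 100000) ^ 4) := by
    have : 0 ≤ 1 + 2 * k0 ^ 4 := by positivity
    gcongr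
  have h5b : (15393448 / 10 ^ 8) * (1 + 2 * (7697 / 100000) ^ 4) ≤ a0 * (1 + 2 * k0 ^ 4) := by
    have : 0 ≤ a0 := by linarith
    gcongr
  obtain ⟨hW1, hW2⟩ := hW
  norm_num at h6 h5a h5b
  rw [abs_le]
  constructor
  · linarith
  · linarith

theorem N40_ah : |a0 - ah| ≤ 2 / 10 ^ 8 ∧ |k0 - kh| ≤ 4 / 10 ^ 7 := by
  obtain ⟨ha1, ha2⟩ := N40_a0
  refine ⟨?_, N40_k0⟩
  unfold ah
  rw [abs_le]
  constructor <;> linarith

end Pool.Agent.Lib.H11Q
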