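import Pool.Agent.Lib.H11Q.N0Q

/-! # H11Q chunk N44L (S/M): list polynomials; the residual for the rational parameters.

PROOFS.  `lev` is compatible with `ladd`, `lsc`, `lmul`, `lpow` (inductions).  `N44L_bound`: induction.
`N44L_R`: `10^84 NQ ah kh z = lev lN z`, `10^84 DQ ah kh z = lev lD z` (`lev lT z = 10^7 (z - ah)`, `lev lU z = 10^7 (1 - ah z)`, unfold
and `push_cast; ring`), `10^9 PQ z = lev CQz z` (`Finset.sum_range_succ`).  `N44L_num`: `by decide` works (tested).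
`N44L_res` : combination: `‖..‖ = ‖lev lR z‖/10^93 ≤ labs lR/10^93`. -/

set_option autoImplicit false

namespace Pool.Agent.Lib.H11Q

open Complex

theorem N44L_add (p q : List ℤ) (z : ℂ) : lev (ladd p q) z = lev p z + lev q z := by
  induction p generalizing q with
  | nil => simp [ladd, lev]
  | cons c p ih =>
    cases q with
    | nil => simp [ladd, lev]
    | cons d q =>
      simp only [ladd, lev, ih]
      push_cast
      ring

theorem N44L_sc (c : ℤ) (p : List ℤ) (z : ℂ) : lev (lsc c p) z = c * lev p z := by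
  induction p with
  | nil => simp [lsc, lev]
  | cons d p ih =>
    have h : lsc c (d :: p) = (c * d) :: lsc c p := by simp [lsc]
    rw [h]
    simp only [lev, ih]
    push_cast
    ring

theorem N44L_mul (p q : List ℤ) (z : ℂ) : lev (lmul p q) z = lev p z * lev q z := by
  induction p with
  | nil => simp [lmul, lev]
  | cons c p ih =>
    simp only [lmul, lev, N44L_add, N44L_sc, ih]
    push_cast
    ring

theorem N44L_pow (p : List ℤ) (n : ℕ) (z : ℂ) : lev (lpow p n) z = lev p z ^ n := by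
  induction n with
  | zero => simp [lpow, lev]
  | succ n ih => simp only [lpow, N44L_mul, ih]; ring

theorem N44L_bound (p : List ℤ) {z : ℂ} (hz : ‖z‖ ≤ 1) : ‖lev p z‖ ≤ labs p := by
  induction p with
  | nil => simp [lev, labs]
  | cons c p ih =>
    simp only [lev, labs]
    have h1 : ‖(c : ℂ)‖ = (c.natAbs : ℝ) := by
      rw [Complex.norm_intCast, ← Int.cast_abs, Int.abs_eq_natAbs]
      simp
    have h2 : ‖z * lev p z‖ ≤ labs p := by
      rw [norm_mul]
      calc ‖z‖ * ‖lev p z‖ ≤ 1 * ‖lev p z‖ := by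
            exact mul_le_mul_of_nonneg_right hz (norm_nonneg _)
        _ ≤ labs p := by rw [one_mul]; exact ih
    calc ‖(c : ℂ) + z * lev p z‖ ≤ ‖(c : ℂ)‖ + ‖z * lev p z‖ := norm_add_le _ _
      _ ≤ (c.natAbs : ℝ) + labs p := by rw [h1]; linarith
      _ = ((c.natAbs + labs p : ℕ) : ℝ) := by push_cast; rfl

theorem n44l_T (z : ℂ) : lev lT z = 10 ^ 7 * (z - ah) := by
  simp only [lT, lev, ah]
  push_cast
  ring

theorem n44l_U (z : ℂ) : lev lU z = 10 ^ 7 * (1 - ah * z) := by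
  simp only [lU, lev, ah]
  push_cast
  ring

theorem n44l_N (z : ℂ) : lev lN z = 10 ^ 84 * NQ ah kh z := by
  simp only [lN, N44L_sc, N44L_add, N44L_mul, N44L_pow, n44l_T, n44l_U, NQ]
  have e1 : ((ah : ℝ) : ℂ) = 1539345 / 10 ^ 7 := by simp [ah]
  have e2 : ((kh : ℝ) : ℂ) = 769726 / 10 ^ 7 := by simp [kh]
  rw [e2]
  generalize hA : (z - (ah : ℂ)) = A
  generalize hB : (1 - (ah : ℂ) * z) = B
  rw [e1]
  push_cast
  ring

theorem n44l_D (z : ℂ) : lev lD z = 10 ^ 84 * DQ ah kh z := by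
  simp only [lD, N44L_sc, N44L_add, N44L_mul, N44L_pow, n44l_T, n44l_U, DQ]
  have e2 : ((kh : ℝ) : ℂ) = 769726 / 10 ^ 7 := by simp [kh]
  rw [e2]
  generalize hA : (z - (ah : ℂ)) = A
  generalize hB : (1 - (ah : ℂ) * z) = B
  push_cast
  ring

theorem n44l_P (z : ℂ) : lev CQz z = 10 ^ 9 * PQ z := by
  simp only [PQ, CQ, CQz, Finset.sum_range_succ, Finset.sum_range_zero, lev]
  simp only [List.getD_eq_getElem?_getD]
  simp
  ring

theorem N44L_R (z : ℂ) : lev lR z = 10 ^ 93 * (z * NQ ah kh z - DQ ah kh z * PQ z) := by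
  have h0 : lev (0 :: lN) z = z * lev lN z := by simp [lev]
  rw [lR, N44L_add, N44L_sc, N44L_sc, N44L_mul, h0, n44l_N, n44l_D, n44l_P]
  push_cast
  ring

theorem N44L_num : labs lR ≤ 986 * 10 ^ 86 := by
  decide

theorem N44L_res {z : ℂ} (hz : ‖z‖ ≤ 1) :
    ‖z * NQ ah kh z - DQ ah kh z * PQ z‖ ≤ 986 / 10 ^ 7 := by
  have h1 := N44L_bound lR hz
  rw [N44L_R, norm_mul] at h1
  have h2 : ‖(10 : ℂ) ^ 93‖ = 10 ^ 93 := by simp
  rw [h2] at h1
  have h3 : (labs lR : ℝ) ≤ 986 * 10 ^ 86 := by exact_mod_cast N44L_num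
  have h4 : (10 : ℝ) ^ 93 * ‖z * NQ ah kh z - DQ ah kh z * PQ z‖ ≤ 986 * 10 ^ 86 := h1.trans h3
  have h5 : (986 : ℝ) * 10 ^ 86 = 10 ^ 93 * (986 / 10 ^ 7) := by norm_num
  rw [h5] at h4
  exact le_of_mul_le_mul_left h4 (by positivity)

end Pool.Agent.Lib.H11Q
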