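import Pool.Agent.Lib.H11Q.N00

/-! # H11Q chunk N51: interval arithmetic with integers (scale `10^12`), real and complex.

`IMem x I`: `I.lo ≤ 10^12 x ≤ I.hi`. -/

set_option autoImplicit false

namespace Pool.Agent.Lib.H11Q

open Complex

/-- an interval with integer end points (scale `10^12`) -/
structure Iv where
  lo : ℤ
  hi : ℤ

def Isc : ℤ := 1000000000000

def IMem (x : ℝ) (I : Iv) : Prop := (I.lo : ℝ) ≤ x * (Isc : ℝ) ∧ x * (Isc : ℝ) ≤ (I.hi : ℝ)

namespace Iv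

def add (I J : Iv) : Iv := ⟨I.lo + J.lo, I.hi + J.hi⟩
def neg (I : Iv) : Iv := ⟨-I.hi, -I.lo⟩
def sub (I J : Iv) : Iv := ⟨I.lo - J.hi, I.hi - J.lo⟩

def mul (I J : Iv) : Iv :=
  ⟨(min (min (I.lo * J.lo) (I.lo * J.hi)) (min (I.hi * J.lo) (I.hi * J.hi))) / Isc,
   -(-(max (max (I.lo * J.lo) (I.lo * J.hi)) (max (I.hi * J.lo) (I.hi * J.hi))) / Isc)⟩

/-- inverse, for positive intervals -/
def inv (I : Iv) : Iv := ⟨Isc * Isc / I.hi, -(-(Isc * Isc) / I.lo)⟩

/-- the rational number `n / d`, `d > 0` -/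
def ofQ (n d : ℤ) : Iv := ⟨n * Isc / d, -(-(n * Isc) / d)⟩

end Iv

theorem N51_sc : (0 : ℝ) < (Isc : ℝ) := by
  norm_num [Isc]

theorem N51_add {x y : ℝ} {I J : Iv} (hx : IMem x I) (hy : IMem y J) : IMem (x + y) (I.add J) := by
  obtain ⟨h1, h2⟩ := hx
  obtain ⟨h3, h4⟩ := hy
  constructor <;> simp only [Iv.add] <;> push_cast <;> linarith

theorem N51_neg {x : ℝ} {I : Iv} (hx : IMem x I) : IMem (-x) I.neg := by
  obtain ⟨h1, h2⟩ := hx
  constructor <;> simp only [Iv.neg] <;> push_cast <;> linarith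

theorem N51_sub {x y : ℝ} {I J : Iv} (hx : IMem x I) (hy : IMem y J) : IMem (x - y) (I.sub J) := by
  obtain ⟨h1, h2⟩ := hx
  obtain ⟨h3, h4⟩ := hy
  constructor <;> simp only [Iv.sub] <;> push_cast <;> linarith

theorem n51_floor (a b : ℤ) (hb : 0 < b) : ((a / b : ℤ) : ℝ) ≤ (a : ℝ) / b := by
  have hb' : (0 : ℝ) < b := by exact_mod_cast hb
  rw [le_div_iff₀ hb']
  have h := Int.ediv_mul_le a hb.ne'
  exact_mod_cast h

theorem n51_ceil (a b : ℤ) (hb : 0 < b) : (a : ℝ) / b ≤ ((-(-a / b) : ℤ) : ℝ) := by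
  have h := n51_floor (-a) b hb
  push_cast at h ⊢
  rw [neg_div] at h
  linarith

/-- product of two numbers in intervals -/
theorem n51_prod {a b c d x y : ℝ} (h1 : a ≤ x) (h2 : x ≤ b) (h3 : c ≤ y) (h4 : y ≤ d) :
    min (min (a * c) (a * d)) (min (b * c) (b * d)) ≤ x * y ∧
    x * y ≤ max (max (a * c) (a * d)) (max (b * c) (b * d)) := by
  have hx : ∀ t : ℝ, min (a * t) (b * t) ≤ x * t ∧ x * t ≤ max (a * t) (b * t) := by
    intro t
    rcases le_total 0 t with h | h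
    · constructor
      · exact (min_le_left _ _).trans (mul_le_mul_of_nonneg_right h1 h)
      · exact (mul_le_mul_of_nonneg_right h2 h).trans (le_max_right _ _)
    · constructor
      · exact (min_le_right _ _).trans (mul_le_mul_of_nonpos_right h2 h)
      · exact (mul_le_mul_of_nonpos_right h1 h).trans (le_max_left _ _)
  have hy : ∀ t : ℝ, min (t * c) (t * d) ≤ t * y ∧ t * y ≤ max (t * c) (t * d) := by
    intro t
    rcases le_total 0 t with h | h
    · constructor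
      · exact (min_le_left _ _).trans (mul_le_mul_of_nonneg_left h3 h)
      · exact (mul_le_mul_of_nonneg_left h4 h).trans (le_max_right _ _)
    · constructor
      · exact (min_le_right _ _).trans (mul_le_mul_of_nonpos_left h4 h)
      · exact (mul_le_mul_of_nonpos_left h3 h).trans (le_max_left _ _)
  obtain ⟨e1, e2⟩ := hx y
  obtain ⟨a1, a2⟩ := hy a
  obtain ⟨b1, b2⟩ := hy b
  constructor
  · refine le_trans ?_ e1
    exact min_le_min a1 b1
  · refine e2.trans ?_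
    exact max_le_max a2 b2

theorem N51_mul {x y : ℝ} {I J : Iv} (hx : IMem x I) (hy : IMem y J) : IMem (x * y) (I.mul J) := by
  obtain ⟨h1, h2⟩ := hx
  obtain ⟨h3, h4⟩ := hy
  have hs := N51_sc
  have hs' : (0 : ℤ) < Isc := by norm_num [Isc]
  obtain ⟨h5, h6⟩ := n51_prod h1 h2 h3 h4
  have e : x * y * (Isc : ℝ) = (x * (Isc : ℝ)) * (y * (Isc : ℝ)) / (Isc : ℝ) := by
    field_simp
  constructor
  · simp only [Iv.mul]
    refine (n51_floor _ _ hs').trans ?_
    rw [e]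
    apply div_le_div_of_nonneg_right _ hs.le
    push_cast
    exact h5
  · simp only [Iv.mul]
    refine le_trans ?_ (n51_ceil _ _ hs')
    rw [e]
    apply div_le_div_of_nonneg_right _ hs.le
    push_cast
    exact h6

theorem N51_inv {x : ℝ} {I : Iv} (hx : IMem x I) (hI : 0 < I.lo) : IMem (x⁻¹) I.inv := by
  obtain ⟨h1, h2⟩ := hx
  have hs := N51_sc
  have hl : (0 : ℝ) < I.lo := by exact_mod_cast hI
  have hx0 : 0 < x := by
    by_contra hcon
    push Not at hcon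
    nlinarith
  have hxs : 0 < x * (Isc : ℝ) := mul_pos hx0 hs
  have hh : (0 : ℝ) < I.hi := lt_of_lt_of_le hxs h2
  have hh' : (0 : ℤ) < I.hi := by exact_mod_cast hh
  have e : x⁻¹ * (Isc : ℝ) = ((Isc : ℝ) * Isc) / (x * Isc) := by
    field_simp
  constructor
  · simp only [Iv.inv]
    refine (n51_floor _ _ hh').trans ?_
    rw [e]
    push_cast
    exact div_le_div_of_nonneg_left (mul_pos hs hs).le hxs h2
  · simp only [Iv.inv]
    refine le_trans ?_ (n51_ceil _ _ hI)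
    rw [e]
    push_cast
    exact div_le_div_of_nonneg_left (mul_pos hs hs).le hl h1

theorem N51_ofQ (n d : ℤ) (hd : 0 < d) : IMem ((n : ℝ) / d) (Iv.ofQ n d) := by
  have hs := N51_sc
  have hd' : (0 : ℝ) < d := by exact_mod_cast hd
  have e : (n : ℝ) / d * (Isc : ℝ) = ((n * Isc : ℤ) : ℝ) / d := by
    push_cast
    ring
  constructor
  · rw [e]
    exact n51_floor _ _ hd
  · rw [e]
    exact n51_ceil _ _ hd

theorem N51_mono {x : ℝ} {I J : Iv} (hx : IMem x I) (h : J.lo ≤ I.lo ∧ I.hi ≤ J.hi) : IMem x J := by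
  obtain ⟨h1, h2⟩ := hx
  obtain ⟨h3, h4⟩ := h
  constructor
  · refine le_trans ?_ h1
    exact_mod_cast h3
  · refine h2.trans ?_
    exact_mod_cast h4

/-- from an absolute value -/
theorem N51_of_abs {x r e : ℝ} {I : Iv} (h : |x - r| ≤ e) (h1 : (I.lo : ℝ) ≤ (r - e) * (Isc : ℝ))
    (h2 : (r + e) * (Isc : ℝ) ≤ (I.hi : ℝ)) : IMem x I := by
  have hs := N51_sc
  rw [abs_le] at h
  constructor
  · refine h1.trans ?_
    apply mul_le_mul_of_nonneg_right _ hs.le
    linarith [h.1]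
  · refine le_trans ?_ h2
    apply mul_le_mul_of_nonneg_right _ hs.le
    linarith [h.2]

/-! ### complex intervals -/

structure Ic where
  re : Iv
  im : Iv

def CMem (z : ℂ) (I : Ic) : Prop := IMem z.re I.re ∧ IMem z.im I.im

namespace Ic

def add (I J : Ic) : Ic := ⟨I.re.add J.re, I.im.add J.im⟩
def neg (I : Ic) : Ic := ⟨I.re.neg, I.im.neg⟩
def sub (I J : Ic) : Ic := ⟨I.re.sub J.re, I.im.sub J.im⟩
def mul (I J : Ic) : Ic :=
  ⟨(I.re.mul J.re).sub (I.im.mul J.im), (I.re.mul J.im).add (I.im.mul J.re)⟩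
def conj (I : Ic) : Ic := ⟨I.re, I.im.neg⟩
/-- real multiple -/
def rmul (I : Iv) (J : Ic) : Ic := ⟨I.mul J.re, I.mul J.im⟩
/-- `|z|²` -/
def nsq (I : Ic) : Iv := (I.re.mul I.re).add (I.im.mul I.im)

end Ic

theorem N51_cadd {z w : ℂ} {I J : Ic} (hz : CMem z I) (hw : CMem w J) : CMem (z + w) (I.add J) :=
  ⟨by rw [add_re]; exact N51_add hz.1 hw.1, by rw [add_im]; exact N51_add hz.2 hw.2⟩

theorem N51_cneg {z : ℂ} {I : Ic} (hz : CMem z I) : CMem (-z) I.neg :=
  ⟨by rw [neg_re]; exact N51_neg hz.1, by rw [neg_im]; exact N51_neg hz.2⟩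

theorem N51_csub {z w : ℂ} {I J : Ic} (hz : CMem z I) (hw : CMem w J) : CMem (z - w) (I.sub J) :=
  ⟨by rw [sub_re]; exact N51_sub hz.1 hw.1, by rw [sub_im]; exact N51_sub hz.2 hw.2⟩

theorem N51_cmul {z w : ℂ} {I J : Ic} (hz : CMem z I) (hw : CMem w J) : CMem (z * w) (I.mul J) :=
  ⟨by rw [mul_re]; exact N51_sub (N51_mul hz.1 hw.1) (N51_mul hz.2 hw.2),
   by rw [mul_im]; exact N51_add (N51_mul hz.1 hw.2) (N51_mul hz.2 hw.1)⟩

theorem N51_cconj {z : ℂ} {I : Ic} (hz : CMem z I) : CMem ((starRingEnd ℂ) z) I.conj :=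
  ⟨by rw [conj_re]; exact hz.1, by rw [conj_im]; exact N51_neg hz.2⟩

theorem N51_crmul {x : ℝ} {z : ℂ} {I : Iv} {J : Ic} (hx : IMem x I) (hz : CMem z J) :
    CMem ((x : ℂ) * z) (Ic.rmul I J) :=
  ⟨by rw [re_ofReal_mul]; exact N51_mul hx hz.1, by rw [im_ofReal_mul]; exact N51_mul hx hz.2⟩

theorem N51_nsq {z : ℂ} {I : Ic} (hz : CMem z I) : IMem (normSq z) I.nsq := by
  rw [normSq_apply]
  exact N51_add (N51_mul hz.1 hz.1) (N51_mul hz.2 hz.2)

end Pool.Agent.Lib.H11Q
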