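import Pool.Agent.Lib.H11Q.N25
import Pool.Agent.Lib.H11Q.N50
import Pool.Agent.Lib.H11Q.N52D

/-! # H11Q chunk N52: the boxes of the near lines (soundness). -/

set_option autoImplicit false

namespace Pool.Agent.Lib.H11Q

open Complex

theorem n52_C : IMem (Real.cos (Real.pi / 7)) iC :=
  N51_of_abs N50_c (by norm_num [iC, Isc]) (by norm_num [iC, Isc])

theorem n52_S : IMem (Real.sin (Real.pi / 7)) iS :=
  N51_of_abs N50_s (by norm_num [iS, Isc]) (by norm_num [iS, Isc])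

theorem n52_C2 : IMem (Real.cos (2 * Real.pi / 7)) iC2 :=
  N51_of_abs N50_c2 (by norm_num [iC2, Isc]) (by norm_num [iC2, Isc])

theorem n52_S2 : IMem (Real.sin (2 * Real.pi / 7)) iS2 :=
  N51_of_abs N50_s2 (by norm_num [iS2, Isc]) (by norm_num [iS2, Isc])

theorem n52_C3 : IMem (Real.cos (3 * Real.pi / 7)) iC3 :=
  N51_of_abs N50_c3 (by norm_num [iC3, Isc]) (by norm_num [iC3, Isc])

theorem n52_S3 : IMem (Real.sin (3 * Real.pi / 7)) iS3 :=
  N51_of_abs N50_s3 (by norm_num [iS3, Isc]) (by norm_num [iS3, Isc])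

theorem n52_Q : IMem qq iQ :=
  N51_of_abs N50_q (by norm_num [iQ, Isc]) (by norm_num [iQ, Isc])

theorem n52_M : IMem MM iM :=
  N51_of_abs N50_M (by norm_num [iM, Isc]) (by norm_num [iM, Isc])

theorem n52_CC : IMem CC iCC :=
  N51_of_abs N50_CC (by norm_num [iCC, Isc]) (by norm_num [iCC, Isc])

theorem n52_SS : IMem (qq / (Real.sqrt 3 * Real.sin (Real.pi / 7))) iSS :=
  N51_of_abs N50_SS (by norm_num [iSS, Isc]) (by norm_num [iSS, Isc])

theorem n52_one : IMem 1 iOne := by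
  constructor <;> simp [iOne]

theorem n52_zero : IMem 0 iZero := by
  constructor <;> simp [iZero]

theorem n52_half : IMem (1 / 2) iH := by
  constructor <;> norm_num [iH, Isc]

theorem n52_quart : IMem (1 / 4) iQuart := by
  constructor <;> norm_num [iQuart, Isc]

theorem n52_om {t : ℝ} {a b : ℝ} {I J : Iv} (ha : Real.cos t = a) (hb : Real.sin t = b)
    (h1 : IMem a I) (h2 : IMem b J) : CMem (Complex.exp ((t : ℂ) * Complex.I)) ⟨I, J⟩ := by
  constructor
  · rw [Complex.exp_ofReal_mul_I_re, ha]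
    exact h1
  · rw [Complex.exp_ofReal_mul_I_im, hb]
    exact h2

theorem N52_om {k : ℕ} (hk : k < 7) :
    CMem (Complex.exp (((2 * Real.pi * k / 7 : ℝ) : ℂ) * Complex.I)) (iom k) := by
  have e2 : ∀ x : ℝ, Real.cos (Real.pi - x) = -Real.cos x := Real.cos_pi_sub
  have e3 : ∀ x : ℝ, Real.sin (Real.pi - x) = Real.sin x := Real.sin_pi_sub
  have e4 : ∀ x : ℝ, Real.cos (x + Real.pi) = -Real.cos x := Real.cos_add_pi
  have e5 : ∀ x : ℝ, Real.sin (x + Real.pi) = -Real.sin x := Real.sin_add_pi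
  interval_cases k
  · refine n52_om (a := 1) (b := 0) ?_ ?_ n52_one n52_zero
    · simp
    · simp
  · refine n52_om (a := Real.cos (2 * Real.pi / 7)) (b := Real.sin (2 * Real.pi / 7)) ?_ ?_
      n52_C2 n52_S2
    · norm_num
    · norm_num
  · refine n52_om (a := -Real.cos (3 * Real.pi / 7)) (b := Real.sin (3 * Real.pi / 7)) ?_ ?_
      (N51_neg n52_C3) n52_S3
    · rw [← e2]
      congr 1
      push_cast
      ring
    · rw [← e3]
      congr 1
      push_cast
      ring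
  · refine n52_om (a := -Real.cos (Real.pi / 7)) (b := Real.sin (Real.pi / 7)) ?_ ?_
      (N51_neg n52_C) n52_S
    · rw [← e2]
      congr 1
      push_cast
      ring
    · rw [← e3]
      congr 1
      push_cast
      ring
  · refine n52_om (a := -Real.cos (Real.pi / 7)) (b := -Real.sin (Real.pi / 7)) ?_ ?_
      (N51_neg n52_C) (N51_neg n52_S)
    · rw [← e4]
      congr 1
      push_cast
      ring
    · rw [← e5]
      congr 1
      push_cast
      ring
  · refine n52_om (a := -Real.cos (3 * Real.pi / 7)) (b := -Real.sin (3 * Real.pi / 7)) ?_ ?_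
      (N51_neg n52_C3) (N51_neg n52_S3)
    · rw [← e4]
      congr 1
      push_cast
      ring
    · rw [← e5]
      congr 1
      push_cast
      ring
  · refine n52_om (a := Real.cos (2 * Real.pi / 7)) (b := -Real.sin (2 * Real.pi / 7)) ?_ ?_
      n52_C2 (N51_neg n52_S2)
    · have h : (2 * Real.pi * ((6 : ℕ) : ℝ) / 7) = 2 * Real.pi - 2 * Real.pi / 7 := by
        push_cast
        ring
      rw [h, Real.cos_two_pi_sub]
    · have h : (2 * Real.pi * ((6 : ℕ) : ℝ) / 7) = 2 * Real.pi - 2 * Real.pi / 7 := by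
        push_cast
        ring
      rw [h, Real.sin_two_pi_sub]

theorem N52_A {k : ℕ} (hk : k < 7) {x : Mk} {I : Iw} (h : WMem x I) :
    WMem ((gA ^ k).lin x) (iA k I) := by
  rw [N25_linA]
  exact ⟨h.1, N51_cmul (N52_om hk) h.2⟩

theorem N52_Ainv {j : ℕ} (hj : 0 < j) (hj7 : j < 7) {x : Mk} {I : Iw} (h : WMem x I) :
    WMem (((gA ^ j)⁻¹).lin x) (iA (7 - j) I) := by
  rw [N25_linA_inv]
  refine ⟨h.1, ?_⟩
  have h1 : 7 - j < 7 := by omega
  have h2 : Complex.exp (((-(2 * Real.pi * j / 7) : ℝ) : ℂ) * Complex.I) =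
      Complex.exp (((2 * Real.pi * ((7 - j : ℕ) : ℝ) / 7 : ℝ) : ℂ) * Complex.I) := by
    rw [Complex.exp_eq_exp_iff_exists_int]
    refine ⟨-1, ?_⟩
    rw [Nat.cast_sub hj7.le]
    push_cast
    ring
  show CMem (Complex.exp _ * x.2) _
  rw [h2]
  exact N51_cmul (N52_om h1) h.2

theorem n52_Is : IMem (Real.sin (Real.pi / 7))⁻¹ iIs :=
  N51_inv n52_S (by decide +kernel)

theorem n52_Qs : IMem (qq / (2 * Real.sin (Real.pi / 7))) iQs := by
  have h := N51_mul (N51_mul n52_Q n52_Is) n52_half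
  have e : qq / (2 * Real.sin (Real.pi / 7)) = qq * (Real.sin (Real.pi / 7))⁻¹ * (1 / 2) := by
    have := pi7_pos
    field_simp
  rw [e]
  exact h

theorem n52_Cs : IMem (Real.cos (Real.pi / 7) / (2 * Real.sin (Real.pi / 7))) iCs := by
  have h := N51_mul (N51_mul n52_C n52_Is) n52_half
  have e : Real.cos (Real.pi / 7) / (2 * Real.sin (Real.pi / 7)) =
      Real.cos (Real.pi / 7) * (Real.sin (Real.pi / 7))⁻¹ * (1 / 2) := by
    have := pi7_pos
    field_simp
  rw [e]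
  exact h

theorem n52_B1 : IMem ((1 - 2 * Real.sin (Real.pi / 7) ^ 2) / (2 * Real.sin (Real.pi / 7) ^ 2))
    iB1 := by
  have h := N51_sub (N51_mul (N51_mul n52_Is n52_Is) n52_half) n52_one
  have e : (1 - 2 * Real.sin (Real.pi / 7) ^ 2) / (2 * Real.sin (Real.pi / 7) ^ 2) =
      (Real.sin (Real.pi / 7))⁻¹ * (Real.sin (Real.pi / 7))⁻¹ * (1 / 2) - 1 := by
    have := pi7_pos
    field_simp
  rw [e]
  exact h

theorem n52_B2 : IMem (Real.cos (Real.pi / 7) * qq / (2 * Real.sin (Real.pi / 7) ^ 2)) iB2 := by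
  have h := N51_mul (N51_mul (N51_mul n52_C n52_Q) (N51_mul n52_Is n52_Is)) n52_half
  have e : Real.cos (Real.pi / 7) * qq / (2 * Real.sin (Real.pi / 7) ^ 2) =
      Real.cos (Real.pi / 7) * qq * ((Real.sin (Real.pi / 7))⁻¹ * (Real.sin (Real.pi / 7))⁻¹) *
        (1 / 2) := by
    have := pi7_pos
    field_simp
  rw [e]
  exact h

theorem n52_B4 : IMem (1 / 4 - Real.cos (Real.pi / 7) ^ 2 / (4 * Real.sin (Real.pi / 7) ^ 2) -
    qq ^ 2 / (4 * Real.sin (Real.pi / 7) ^ 2)) iB4 := by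
  have h := N51_sub (N51_sub n52_quart (N51_mul n52_Cs n52_Cs)) (N51_mul n52_Qs n52_Qs)
  have e : 1 / 4 - Real.cos (Real.pi / 7) ^ 2 / (4 * Real.sin (Real.pi / 7) ^ 2) -
    qq ^ 2 / (4 * Real.sin (Real.pi / 7) ^ 2) =
      1 / 4 - Real.cos (Real.pi / 7) / (2 * Real.sin (Real.pi / 7)) *
        (Real.cos (Real.pi / 7) / (2 * Real.sin (Real.pi / 7))) -
        qq / (2 * Real.sin (Real.pi / 7)) * (qq / (2 * Real.sin (Real.pi / 7))) := by
    have := pi7_pos
    field_simp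
    ring
  rw [e]
  exact h

theorem n52_B6 : IMem (1 / 4 - Real.cos (Real.pi / 7) ^ 2 / (4 * Real.sin (Real.pi / 7) ^ 2) +
    qq ^ 2 / (4 * Real.sin (Real.pi / 7) ^ 2)) iB6 := by
  have h := N51_add (N51_sub n52_quart (N51_mul n52_Cs n52_Cs)) (N51_mul n52_Qs n52_Qs)
  have e : 1 / 4 - Real.cos (Real.pi / 7) ^ 2 / (4 * Real.sin (Real.pi / 7) ^ 2) +
    qq ^ 2 / (4 * Real.sin (Real.pi / 7) ^ 2) =
      1 / 4 - Real.cos (Real.pi / 7) / (2 * Real.sin (Real.pi / 7)) *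
        (Real.cos (Real.pi / 7) / (2 * Real.sin (Real.pi / 7))) +
        qq / (2 * Real.sin (Real.pi / 7)) * (qq / (2 * Real.sin (Real.pi / 7))) := by
    have := pi7_pos
    field_simp
    ring
  rw [e]
  exact h

theorem N52_B {x : Mk} {I : Iw} (h : WMem x I) : WMem (gB.lin x) (iB I) := by
  obtain ⟨h1, h2, h3⟩ := N24_linB x _ _ _ rfl rfl rfl
  obtain ⟨g0, g1, g2⟩ := h
  refine ⟨?_, ?_, ?_⟩
  · rw [h1]
    exact N51_sub (N51_sub (N51_mul n52_B1 g0) (N51_mul n52_B2 g1)) (N51_mul n52_Qs g2)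
  · rw [h2]
    exact N51_sub (N51_add (N51_mul n52_B2 g0) (N51_mul n52_B4 g1)) (N51_mul n52_Cs g2)
  · rw [h3]
    exact N51_add (N51_add (N51_mul (N51_neg n52_Qs) g0) (N51_mul n52_Cs g1)) (N51_mul n52_B6 g2)

theorem N52_chi {x : Mk} {I : Iw} (h : WMem x I) : WMem (chi.lin x) (iChi I) := by
  obtain ⟨h1, h2, h3⟩ := N25_chi x
  obtain ⟨g0, g1, g2⟩ := h
  refine ⟨?_, ?_, ?_⟩
  · rw [h1]
    exact N51_sub (N51_mul n52_CC g0) (N51_mul n52_SS g1)
  · rw [h2]
    exact N51_sub (N51_mul n52_SS g0) (N51_mul n52_CC g1)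
  · rw [h3]
    exact N51_neg g2

theorem N52_nv : WMem (nv gl0) iNv := by
  rw [N24_nv]
  have hM := N24_M.2
  have hMi : IMem (MM⁻¹) iM.inv := N51_inv n52_M (by decide +kernel)
  constructor
  · show IMem (-(Real.cos (Real.pi / 7) * qq / MM)) _
    rw [div_eq_mul_inv]
    exact N51_neg (N51_mul (N51_mul n52_C n52_Q) hMi)
  · show CMem (-(Complex.exp (((2 * Real.pi / 7 : ℝ) : ℂ) * Complex.I) / (MM : ℂ))) _
    have e : Complex.exp (((2 * Real.pi / 7 : ℝ) : ℂ) * Complex.I) / (MM : ℂ) =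
        ((MM⁻¹ : ℝ) : ℂ) * Complex.exp (((2 * Real.pi * (1 : ℕ) / 7 : ℝ) : ℂ) * Complex.I) := by
      push_cast
      rw [mul_one]
      ring
    rw [e]
    exact N51_cneg (N51_crmul hMi (N52_om (by norm_num)))

theorem n52_rho_A (k : ℕ) : rho (wA ^ k) = gA ^ k := by
  rw [map_pow]
  congr 1
  simp [rho, wA]

theorem n52_rho_B : rho wB = gB := by
  simp [rho, wB]

theorem N52_word (l : List (Bool × ℕ)) (hl : ∀ p ∈ l, p.2 < 7) {x : Mk} {I : Iw} (h : WMem x I) :
    WMem ((rho (wordW l)).lin x) (wordI l I) := by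
  induction l with
  | nil =>
    have : rho (wordW []) = 1 := by
      simp [wordW]
    rw [this, N01_lin_one]
    exact h
  | cons p l ih =>
    have e : rho (wordW (p :: l)) = rho (stepW p) * rho (wordW l) := by
      simp [wordW]
    rw [e, N01_lin_mul]
    have h1 := ih (fun q hq => hl q (List.mem_cons_of_mem _ hq))
    have h2 := hl p List.mem_cons_self
    show WMem ((rho (stepW p)).lin _) (stepI p (wordI l I))
    obtain ⟨b, k⟩ := p
    cases b
    · show WMem ((rho wB).lin _) (iB (wordI l I))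
      rw [n52_rho_B]
      exact N52_B h1
    · show WMem ((rho (wA ^ k)).lin _) (iA k (wordI l I))
      rw [n52_rho_A]
      exact N52_A h2 h1

theorem N52_nu {i : ℕ} (hi : i < 8) : WMem (nu i) (nbox i) := by
  have hw : ∀ i : Fin 8, ∀ p ∈ nword i, p.2 < 7 := by decide
  unfold nu nbox
  rw [N01_nv_mul]
  exact N52_word _ (hw ⟨i, hi⟩) N52_nv

theorem N52_nu_nrm (i : ℕ) : IsNrm (nu i) := N01_nrm _

theorem N52_y0 {i : ℕ} (hi : i < 8) : WMem ((chi * (gA ^ 0)⁻¹).lin (nu i)) (ybox 0 i) := by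
  rw [N01_lin_mul]
  apply N52_chi
  have h := N52_A (k := 0) (by norm_num) (N52_nu hi)
  rw [pow_zero] at h ⊢
  rw [inv_one]
  exact h

theorem N52_y3 {i : ℕ} (hi : i < 8) : WMem ((chi * (gA ^ 3)⁻¹).lin (nu i)) (ybox 4 i) := by
  rw [N01_lin_mul]
  exact N52_chi (N52_Ainv (j := 3) (by norm_num) (by norm_num) (N52_nu hi))

theorem N52_y5 {i : ℕ} (hi : i < 8) : WMem ((chi * (gA ^ 5)⁻¹).lin (nu i)) (ybox 2 i) := by
  rw [N01_lin_mul]
  exact N52_chi (N52_Ainv (j := 5) (by norm_num) (by norm_num) (N52_nu hi))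

end Pool.Agent.Lib.H11Q
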