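import Pool.Agent.Lib.H11Q.D1

/-!
# H11Q, module T (section 5, the twist homeomorphism): definitions
-/

set_option autoImplicit false

namespace Pool.Agent.Lib.H11Q

open Complex Set MeasureTheory
open scoped ComplexConjugate Topology

theorem t_TT_zero : TT 0 = 1 := by
  ext <;> simp [TT]

theorem t_TT_add (s r : ℝ) : TT (s + r) = TT s * TT r := by
  ext
  · simp only [TT, SU.mul_a, conj_ofReal]
    rw [add_div, Real.cosh_add]
    push_cast
    ring
  · simp only [TT, SU.mul_b, conj_ofReal]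
    rw [add_div, Real.sinh_add]
    push_cast
    ring

theorem t00_den (s : ℝ) (z : ℂ) :
    (TT s).den z = ((Real.sinh (s / 2) : ℝ) : ℂ) * z + ((Real.cosh (s / 2) : ℝ) : ℂ) := by
  show conj ((Real.sinh (s / 2) : ℝ) : ℂ) * z + conj ((Real.cosh (s / 2) : ℝ) : ℂ) = _
  rw [conj_ofReal, conj_ofReal]

theorem t00_app (s : ℝ) (z : ℂ) : (TT s).app z =
    (((Real.cosh (s / 2) : ℝ) : ℂ) * z + ((Real.sinh (s / 2) : ℝ) : ℂ)) /
      (((Real.sinh (s / 2) : ℝ) : ℂ) * z + ((Real.cosh (s / 2) : ℝ) : ℂ)) := by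
  rw [← t00_den]
  rfl

/-- `sg` is invariant under the translations along the diameter. -/
theorem t_sg_TT (s : ℝ) {z : ℂ} (hz : ‖z‖ < 1) : sg ((TT s).app z) = sg z := by
  have h1 := (TT s).normSq_app hz.le
  have hd : (TT s).den z ≠ 0 := (TT s).den_ne hz.le
  have hz2 : 0 < 1 - ‖z‖ ^ 2 := by
    have := norm_nonneg z
    nlinarith
  have hd2 : 0 < ‖(TT s).den z‖ ^ 2 := pow_pos (norm_pos_iff.mpr hd) 2
  have him : ((TT s).app z).im = z.im / ‖(TT s).den z‖ ^ 2 := by
    have h2 : normSq ((TT s).den z) ≠ 0 := by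
      rw [normSq_eq_norm_sq]
      exact hd2.ne'
    have h3 := Real.cosh_sq (s / 2)
    rw [← normSq_eq_norm_sq]
    rw [t00_den] at h2 ⊢
    rw [t00_app, div_im]
    simp only [add_re, add_im, mul_re, mul_im, ofReal_re, ofReal_im, zero_mul, sub_zero, add_zero]
    generalize Real.sinh (s / 2) = S at *
    generalize Real.cosh (s / 2) = C at *
    rw [← sub_div]
    congr 1
    linear_combination z.im * h3
  unfold sg
  rw [h1, him]
  field_simp

theorem t_sg_neg (z : ℂ) : sg (-z) = -sg z := by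
  unfold sg
  rw [neg_im, norm_neg]
  ring

theorem t_iot_app (z : ℂ) : iot.app z = -z := by
  simp only [SU.app, iot, map_zero, zero_mul, zero_add, add_zero, conj_I]
  rw [mul_comm, mul_div_assoc]
  simp

/-- The twist along the real diameter, as a function. -/
noncomputable def tF (w t : ℝ) (z : ℂ) : ℂ := (TT (t * theta w (sg z))).app z

theorem t_theta_cont (w : ℝ) : Continuous (theta w) := by
  unfold theta
  exact Real.smoothTransition.continuous.comp (by fun_prop)

theorem t_sg_contOn : ContinuousOn sg (Metric.ball 0 1) := by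
  unfold sg
  refine ContinuousOn.div (by fun_prop) (by fun_prop) fun z hz => ?_
  have h1 : ‖z‖ < 1 := by simpa using hz
  have := norm_nonneg z
  nlinarith

theorem tF_lt (w t : ℝ) {z : ℂ} (hz : ‖z‖ < 1) : ‖tF w t z‖ < 1 := (TT _).app_norm_lt hz

theorem sg_tF (w t : ℝ) {z : ℂ} (hz : ‖z‖ < 1) : sg (tF w t z) = sg z := t_sg_TT _ hz

theorem tF_inv (w t : ℝ) {z : ℂ} (hz : ‖z‖ < 1) : tF w (-t) (tF w t z) = z := by
  have h1 := sg_tF w t hz
  unfold tF at h1 ⊢
  rw [h1, ← SU.app_mul _ _ hz.le, ← t_TT_add, neg_mul, neg_add_cancel, t_TT_zero, SU.app_one]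

theorem tF_cont (w t : ℝ) : ContinuousOn (tF w t) (Metric.ball 0 1) := by
  have h0 : ContinuousOn (fun z => t * theta w (sg z)) (Metric.ball 0 1) :=
    continuousOn_const.mul ((t_theta_cont w).comp_continuousOn t_sg_contOn)
  have e : tF w t = fun z => (Real.cosh ((t * theta w (sg z)) / 2) * z + Real.sinh ((t * theta w (sg z)) / 2)) /
      (Real.sinh ((t * theta w (sg z)) / 2) * z + Real.cosh ((t * theta w (sg z)) / 2)) := by
    funext z
    exact t00_app _ _
  rw [e]
  have h1 : ContinuousOn (fun z => (Real.cosh ((t * theta w (sg z)) / 2) : ℂ)) (Metric.ball 0 1) :=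
    Complex.continuous_ofReal.comp_continuousOn (Real.continuous_cosh.comp_continuousOn (h0.div_const 2))
  have h2 : ContinuousOn (fun z => (Real.sinh ((t * theta w (sg z)) / 2) : ℂ)) (Metric.ball 0 1) :=
    Complex.continuous_ofReal.comp_continuousOn (Real.continuous_sinh.comp_continuousOn (h0.div_const 2))
  refine ContinuousOn.div ((h1.mul continuousOn_id).add h2) ((h2.mul continuousOn_id).add h1) fun z hz => ?_
  have hz1 : ‖z‖ < 1 := by simpa using hz
  have h3 := (TT (t * theta w (sg z))).den_ne hz1.le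
  rwa [t00_den] at h3

/-- The twist along the real diameter as a homeomorphism of the disc. -/
noncomputable def tS (w t : ℝ) : Disc ≃ₜ Disc where
  toFun z := ⟨tF w t z, tF_lt w t z.2⟩
  invFun z := ⟨tF w (-t) z, tF_lt w (-t) z.2⟩
  left_inv z := Subtype.ext (tF_inv w t z.2)
  right_inv z := by
    apply Subtype.ext
    have h := tF_inv w (-t) z.2
    rw [neg_neg] at h
    exact h
  continuous_toFun := Continuous.subtype_mk ((tF_cont w t).comp_continuous continuous_subtype_val fun z => by simpa using z.2) _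
  continuous_invFun := Continuous.subtype_mk ((tF_cont w (-t)).comp_continuous continuous_subtype_val fun z => by simpa using z.2) _

@[simp] theorem tS_coe (w t : ℝ) (z : Disc) : ((tS w t z : Disc) : ℂ) = tF w t z := rfl

/-- The twist along the line `g (real diameter)`. -/
noncomputable def tL (w t : ℝ) (g : SU) : Disc ≃ₜ Disc := SU.act g * tS w t * (SU.act g)⁻¹

/-- `h_n = S_0 S_1 ⋯ S_(n-1)`. -/
noncomputable def tH (L : LineSys) (t : ℝ) : ℕ → (Disc ≃ₜ Disc)
  | 0 => 1
  | n + 1 => tH L t n * tL (Real.sinh L.om) t (L.g n)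

/-- `h` is locally equal to `h_n` for all large `n`. -/
def TLim (L : LineSys) (t : ℝ) (h : Disc ≃ₜ Disc) : Prop :=
  ∀ x : Disc, ∃ U ∈ 𝓝 x, ∃ N : ℕ, ∀ n, N ≤ n → ∀ y ∈ U, h y = tH L t n y

/-- An eventual property of points of the disc gives one of points of the plane. -/
theorem t00_lift {z : Disc} {P : ℂ → Prop} (hP : ∀ᶠ y : Disc in 𝓝 z, P y) :
    ∀ᶠ y in 𝓝 (z : ℂ), P y := by
  have h1 : IsOpen {y : ℂ | ‖y‖ < 1} := isOpen_lt continuous_norm continuous_const
  have h2 : Filter.map (Subtype.val : Disc → ℂ) (𝓝 z) = 𝓝 (z : ℂ) :=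
    h1.isOpenEmbedding_subtypeVal.map_nhds_eq z
  rw [← h2, Filter.eventually_map]
  exact hP

theorem t00_ext (e : Disc ≃ₜ Disc) (y : Disc) : ext e y = (e y : ℂ) := by
  unfold ext
  rw [dif_pos y.2]

end Pool.Agent.Lib.H11Q
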