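import Pool.Agent.Lib.H11Q.T00

/-!
# H11Q, module T, chunk T01: the function theta
-/

set_option autoImplicit false

namespace Pool.Agent.Lib.H11Q

open Complex Set MeasureTheory
open scoped ComplexConjugate Topology

theorem t_theta_neg (w x : ℝ) : theta w (-x) = 1 - theta w x := by
  have h : (-x / w + 1) / 2 = 1 - (x / w + 1) / 2 := by ring
  unfold theta
  rw [h]
  generalize (x / w + 1) / 2 = y
  unfold Real.smoothTransition
  have h1 := Real.smoothTransition.pos_denom y
  have h2 : (1 : ℝ) - (1 - y) = y := by ring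
  rw [h2, eq_sub_iff_add_eq, add_comm (expNegInvGlue (1 - y)) (expNegInvGlue y), ← add_div, add_comm (expNegInvGlue (1 - y)), div_self h1.ne']


theorem t_theta_smooth (w : ℝ) : ContDiff ℝ 1 (theta w) := by
  unfold theta
  exact Real.smoothTransition.contDiff.comp (by fun_prop)


theorem t_theta_mem (w x : ℝ) : 0 ≤ theta w x ∧ theta w x ≤ 1 := by
  exact ⟨Real.smoothTransition.nonneg _, Real.smoothTransition.le_one _⟩


theorem t_theta_zero {w x : ℝ} (hw : 0 < w) (h : x ≤ -w) : theta w x = 0 := by
  unfold theta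
  refine Real.smoothTransition.zero_of_nonpos ?_
  have h1 : x / w ≤ -1 := by
    rw [div_le_iff₀ hw]
    linarith
  linarith


theorem t_theta_one {w x : ℝ} (hw : 0 < w) (h : w ≤ x) : theta w x = 1 := by
  unfold theta
  refine Real.smoothTransition.one_of_one_le ?_
  have h1 : 1 ≤ x / w := by
    rw [le_div_iff₀ hw]
    linarith
  linarith


/-- (at `x = ± w` the function has an extremum) -/
theorem t_theta_deriv_zero {w x : ℝ} (hw : 0 < w) (h : w ≤ |x|) : deriv (theta w) x = 0 := by
  rcases le_abs.mp h with h1 | h1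
  · have h2 : IsLocalMax (theta w) x := by
      refine Filter.Eventually.of_forall fun y => ?_
      rw [t_theta_one hw h1]
      exact (t_theta_mem w y).2
    exact h2.deriv_eq_zero
  · have h2 : IsLocalMin (theta w) x := by
      refine Filter.Eventually.of_forall fun y => ?_
      rw [t_theta_zero hw (by linarith)]
      exact (t_theta_mem w y).1
    exact h2.deriv_eq_zero


theorem t_theta_bdd {w : ℝ} (hw : 0 < w) :
    ∃ B : ℝ, 0 ≤ B ∧ ∀ x : ℝ, |deriv (theta w) x * (1 + x ^ 2)| ≤ B := by
  have hc : Continuous fun x : ℝ => |deriv (theta w) x * (1 + x ^ 2)| := by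
    have h1 : Continuous (deriv (theta w)) := (t_theta_smooth w).continuous_deriv le_rfl
    exact (h1.mul (by fun_prop)).abs
  obtain ⟨B, hB⟩ := (isCompact_Icc (a := -w) (b := w)).bddAbove_image hc.continuousOn
  refine ⟨max B 0, le_max_right _ _, fun x => ?_⟩
  by_cases hx : |x| ≤ w
  · exact (hB ⟨x, abs_le.mp hx, rfl⟩).trans (le_max_left _ _)
  · push Not at hx
    rw [t_theta_deriv_zero hw hx.le, zero_mul, abs_zero]
    exact le_max_right _ _


end Pool.Agent.Lib.H11Q
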