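import Pool.Agent.Lib.H11Q.T00

/-!
# H11Q, module T, chunk T06: hyperbolic distance and the distance to a line
-/

set_option autoImplicit false

namespace Pool.Agent.Lib.H11Q

open Complex Set MeasureTheory
open scoped ComplexConjugate Topology

theorem t06_pos {z : ℂ} (hz : ‖z‖ < 1) : 0 < 1 - ‖z‖ ^ 2 := by
  have := norm_nonneg z
  nlinarith

theorem t_sh_nonneg {z w : ℂ} (hz : ‖z‖ < 1) (hw : ‖w‖ < 1) : 0 ≤ sh z w := by
  have h1 := t06_pos hz
  have h2 := t06_pos hw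
  unfold sh
  positivity

theorem t_sh_symm (z w : ℂ) : sh z w = sh w z := by
  unfold sh
  rw [norm_sub_rev, mul_comm (1 - ‖z‖ ^ 2)]

theorem t_sh_app (g : SU) {z w : ℂ} (hz : ‖z‖ < 1) (hw : ‖w‖ < 1) :
    sh (g.app z) (g.app w) = sh z w := by
  have h1 := t06_pos hz
  have h2 := t06_pos hw
  have d1 := g.den_ne hz.le
  have d2 := g.den_ne hw.le
  have n1 : ‖g.den z‖ ≠ 0 := norm_ne_zero_iff.mpr d1
  have n2 : ‖g.den w‖ ≠ 0 := norm_ne_zero_iff.mpr d2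
  have hdet : g.a * conj g.a - g.b * conj g.b = 1 := by
    rw [Complex.mul_conj, Complex.mul_conj]
    exact_mod_cast g.h
  have e1 : g.app z - g.app w = (z - w) / (g.den z * g.den w) := by
    have a1 : g.app z = (g.a * z + g.b) / g.den z := rfl
    have a2 : g.app w = (g.a * w + g.b) / g.den w := rfl
    rw [a1, a2, div_sub_div _ _ d1 d2]
    congr 1
    unfold SU.den
    linear_combination (z - w) * hdet
  unfold sh
  rw [g.normSq_app hz.le, g.normSq_app hw.le, e1, norm_div, norm_mul]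
  field_simp

theorem t_cosh_hd {z w : ℂ} (hz : ‖z‖ < 1) (hw : ‖w‖ < 1) : Real.cosh (hd z w) = 1 + 2 * sh z w := by
  unfold hd
  rw [Real.cosh_two_mul, Real.cosh_sq, Real.sinh_arsinh, Real.sq_sqrt (t_sh_nonneg hz hw)]
  ring

theorem t_hd_nonneg (z w : ℂ) : 0 ≤ hd z w := by
  unfold hd
  have : 0 ≤ Real.arsinh (Real.sqrt (sh z w)) := Real.arsinh_nonneg_iff.mpr (Real.sqrt_nonneg _)
  linarith

theorem t_hd_symm (z w : ℂ) : hd z w = hd w z := by
  unfold hd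
  rw [t_sh_symm]

theorem t06_lip0 {z w : ℂ} (hz : ‖z‖ < 1) (hw : ‖w‖ < 1) :
    |Real.arsinh (sg z) - Real.arsinh (sg w)| ≤ hd z w := by
  have h1 := t06_pos hz
  have h2 := t06_pos hw
  have key : Real.cosh (Real.arsinh (sg z) - Real.arsinh (sg w)) ≤ Real.cosh (hd z w) := by
    rw [t_cosh_hd hz hw, Real.cosh_sub, Real.sinh_arsinh, Real.sinh_arsinh, Real.cosh_arsinh,
      Real.cosh_arsinh, ← Real.sqrt_mul (by positivity)]
    have n1 : ‖z‖ ^ 2 = z.re ^ 2 + z.im ^ 2 := by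
      rw [← normSq_eq_norm_sq, normSq_apply]
      ring
    have n2 : ‖w‖ ^ 2 = w.re ^ 2 + w.im ^ 2 := by
      rw [← normSq_eq_norm_sq, normSq_apply]
      ring
    have n3 : ‖z - w‖ ^ 2 = (z.re - w.re) ^ 2 + (z.im - w.im) ^ 2 := by
      rw [← normSq_eq_norm_sq, normSq_apply, sub_re, sub_im]
      ring
    obtain ⟨x0, hx0⟩ : ∃ x0, x0 = (1 + ‖z‖ ^ 2) / (1 - ‖z‖ ^ 2) := ⟨_, rfl⟩
    obtain ⟨y0, hy0⟩ : ∃ y0, y0 = (1 + ‖w‖ ^ 2) / (1 - ‖w‖ ^ 2) := ⟨_, rfl⟩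
    obtain ⟨X, hX⟩ : ∃ X, X = 2 * z.re / (1 - ‖z‖ ^ 2) := ⟨_, rfl⟩
    obtain ⟨Y, hY⟩ : ∃ Y, Y = 2 * w.re / (1 - ‖w‖ ^ 2) := ⟨_, rfl⟩
    have e1 : 1 + sg z ^ 2 = x0 ^ 2 - X ^ 2 := by
      rw [hx0, hX, sg]
      field_simp
      rw [n1]
      ring
    have e2 : 1 + sg w ^ 2 = y0 ^ 2 - Y ^ 2 := by
      rw [hy0, hY, sg]
      field_simp
      rw [n2]
      ring
    have e3 : 1 + 2 * sh z w = x0 * y0 - X * Y - sg z * sg w := by
      rw [hx0, hX, hy0, hY, sg, sg, sh]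
      field_simp
      rw [n1, n2, n3]
      ring
    have p1 : 0 < x0 := by
      rw [hx0]
      positivity
    have p2 : 0 < y0 := by
      rw [hy0]
      positivity
    have q1 : |X| ≤ x0 := by
      apply abs_le_of_sq_le_sq _ p1.le
      nlinarith [sq_nonneg (sg z)]
    have q2 : |Y| ≤ y0 := by
      apply abs_le_of_sq_le_sq _ p2.le
      nlinarith [sq_nonneg (sg w)]
    have q3 : X * Y ≤ x0 * y0 := by
      calc X * Y ≤ |X * Y| := le_abs_self _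
        _ = |X| * |Y| := abs_mul _ _
        _ ≤ x0 * y0 := mul_le_mul q1 q2 (abs_nonneg _) p1.le
    rw [e1, e2, e3]
    have q4 : Real.sqrt ((x0 ^ 2 - X ^ 2) * (y0 ^ 2 - Y ^ 2)) ≤ x0 * y0 - X * Y := by
      apply Real.sqrt_le_iff.mpr
      constructor
      · linarith
      · nlinarith [sq_nonneg (x0 * Y - y0 * X)]
    linarith
  have h3 := Real.cosh_le_cosh.mp key
  rwa [abs_of_nonneg (t_hd_nonneg z w)] at h3

/-- The signed distance to a line is 1-Lipschitz.  Proof: reduce to `g = 1` by `t_sh_app`.  With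
`x = Om z`, `y = Om w`, `sg z = Im x_1 = sinh a`, `sg w = Im y_1 = sinh b`:
`cosh d = x_0 y_0 - Re x_1 Re y_1 - sinh a sinh b`, `x_0 ^ 2 - (Re x_1) ^ 2 = cosh a ^ 2`, the same for `y`, `b`, and
`(x_0 y_0 - Re x_1 Re y_1) ^ 2 - cosh a ^ 2 cosh b ^ 2 = (x_0 Re y_1 - y_0 Re x_1) ^ 2`, so
`cosh d ≥ cosh (a - b)`. -/
theorem t_bs_lip (g : SU) {z w : ℂ} (hz : ‖z‖ < 1) (hw : ‖w‖ < 1) : |bs g z - bs g w| ≤ hd z w := by
  have h1 := t06_lip0 (g⁻¹.app_norm_lt hz) (g⁻¹.app_norm_lt hw)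
  have h2 : hd (g⁻¹.app z) (g⁻¹.app w) = hd z w := by
    unfold hd
    rw [t_sh_app _ hz hw]
  rw [h2] at h1
  exact h1

/-- `hd z w < r` iff `sh z w < sinh (r / 2) ^ 2`. -/
theorem t_hd_lt_of_sh {z w : ℂ} {r : ℝ} (hr : 0 < r) (hz : ‖z‖ < 1) (hw : ‖w‖ < 1)
    (h : sh z w < Real.sinh (r / 2) ^ 2) : hd z w < r := by
  have h0 : 0 < Real.sinh (r / 2) := Real.sinh_pos_iff.mpr (by linarith)
  have h1 : Real.sqrt (sh z w) < Real.sinh (r / 2) := by
    rw [Real.sqrt_lt' h0]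
    exact h
  have h2 := Real.arsinh_lt_arsinh.mpr h1
  rw [Real.arsinh_sinh] at h2
  unfold hd
  linarith

theorem t_hd_cont (z : Disc) : Continuous (fun y : Disc => hd z y) := by
  unfold hd sh
  refine continuous_const.mul (Real.continuous_arsinh.comp (Real.continuous_sqrt.comp ?_))
  refine Continuous.div (by fun_prop) (by fun_prop) fun y => ?_
  exact mul_ne_zero (t06_pos z.2).ne' (t06_pos y.2).ne'

theorem t_hd_self (z : ℂ) : hd z z = 0 := by
  unfold hd sh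
  simp

theorem t_bs_cont (g : SU) : Continuous (fun y : Disc => bs g y) := by
  unfold bs
  refine Real.continuous_arsinh.comp ?_
  refine t_sg_contOn.comp_continuous (continuous_subtype_val.comp (SU.act g⁻¹).continuous) fun y => ?_
  exact mem_ball_zero_iff.mpr (g⁻¹.app_norm_lt y.2)

end Pool.Agent.Lib.H11Q
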