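import Mathlib

/-!
# H11Q, module T, chunk T08: infinite composition of homeomorphisms (pure topology)
-/

set_option autoImplicit false

namespace Pool.Agent.Lib.H11Q

open Set
open scoped Topology

/-- `H n` is locally eventually constant, and `(H n)⁻¹ y` is eventually constant for each `y`. -/
theorem t08_limit {X : Type} [TopologicalSpace X] (H : ℕ → (X ≃ₜ X))
    (hloc : ∀ x : X, ∃ U ∈ 𝓝 x, ∃ N : ℕ, ∀ n, N ≤ n → ∀ y ∈ U, H n y = H N y)
    (hinv : ∀ y : X, ∃ N : ℕ, ∀ n, N ≤ n → (H n).symm y = (H N).symm y) :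
    ∃ h : X ≃ₜ X, ∀ x : X, ∃ U ∈ 𝓝 x, ∃ N : ℕ, ∀ n, N ≤ n → ∀ y ∈ U, h y = H n y := by
  choose U hU N hN using hloc
  set f : X → X := fun x => H (N x) x with hf
  -- `f` is locally `H n`
  have hloc' : ∀ x, ∀ n, N x ≤ n → ∀ y ∈ U x, f y = H n y := by
    intro x n hn y hy
    have h1 := hN x (max n (N y)) (le_trans hn (le_max_left _ _)) y hy
    have h2 := hN x n hn y hy
    have h3 := hN y (max n (N y)) (le_max_right _ _) y (mem_of_mem_nhds (hU y))
    rw [hf]
    show H (N y) y = H n y
    rw [← h3, h1, h2]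
  have hinj : Function.Injective f := by
    intro x x' hxx
    have h1 := hloc' x (max (N x) (N x')) (le_max_left _ _) x (mem_of_mem_nhds (hU x))
    have h2 := hloc' x' (max (N x) (N x')) (le_max_right _ _) x' (mem_of_mem_nhds (hU x'))
    exact (H (max (N x) (N x'))).injective (by rw [← h1, ← h2, hxx])
  have hsurj : Function.Surjective f := by
    intro y
    obtain ⟨M, hM⟩ := hinv y
    obtain ⟨x, hx⟩ : ∃ x, x = (H M).symm y := ⟨_, rfl⟩
    refine ⟨x, ?_⟩
    have h1 := hloc' x (max (N x) M) (le_max_left _ _) x (mem_of_mem_nhds (hU x))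
    have h2 := hM (max (N x) M) (le_max_right _ _)
    rw [← hx] at h2
    rw [h1]
    generalize max (N x) M = m at h2
    exact (Homeomorph.symm_apply_eq _).mp h2 |>.symm
  have hev : ∀ x, f =ᶠ[𝓝 x] H (N x) := by
    intro x
    filter_upwards [hU x] with y hy
    exact hloc' x (N x) le_rfl y hy
  have hcont : Continuous f := by
    rw [continuous_iff_continuousAt]
    intro x
    exact ((H (N x)).continuous.continuousAt).congr (hev x).symm
  have hopen : IsOpenMap f := by
    rw [isOpenMap_iff_nhds_le]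
    intro x
    have h1 : Filter.map f (𝓝 x) = Filter.map (H (N x)) (𝓝 x) := Filter.map_congr (hev x)
    rw [h1, (H (N x)).map_nhds_eq, hloc' x (N x) le_rfl x (mem_of_mem_nhds (hU x))]
  refine ⟨(Equiv.ofBijective f ⟨hinj, hsurj⟩).toHomeomorphOfContinuousOpen hcont hopen, fun x => ?_⟩
  exact ⟨U x, hU x, N x, fun n hn y hy => hloc' x n hn y hy⟩

/-- A sequence with a bounded number of moves is eventually constant. -/
theorem t08_const {X : Type} (x : ℕ → X) (k : ℕ → ℕ) (K : ℕ) (hk : ∀ n, k n ≤ K)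
    (hstep : ∀ n, (x (n + 1) = x n ∧ k (n + 1) = k n) ∨ k (n + 1) = k n + 1) :
    ∃ N : ℕ, ∀ n, N ≤ n → x n = x N := by
  have hmono : Monotone k := monotone_nat_of_le_succ fun n => by
    rcases hstep n with ⟨-, h⟩ | h <;> omega
  -- the supremum of `k` is attained
  have hbdd : BddAbove (Set.range k) := ⟨K, by rintro _ ⟨n, rfl⟩; exact hk n⟩
  obtain ⟨N, hN⟩ := Nat.sSup_mem (Set.range_nonempty k) hbdd
  have hconst : ∀ n, N ≤ n → k n = k N := by
    intro n hn
    apply le_antisymm
    · rw [hN]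
      exact le_csSup hbdd ⟨n, rfl⟩
    · exact hmono hn
  refine ⟨N, fun n hn => ?_⟩
  induction n, hn using Nat.le_induction with
  | base => rfl
  | succ n hn ih =>
    rcases hstep n with ⟨h, -⟩ | h
    · rw [h, ih]
    · have h1 := hconst n hn
      have h2 := hconst (n + 1) (by omega)
      omega

end Pool.Agent.Lib.H11Q
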