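import Pool.Agent.Lib.H11Q.T06
import Pool.Agent.Lib.H11Q.T07
import Pool.Agent.Lib.H11Q.T08

/-!
# H11Q, module T, chunk T09: the infinite composition exists (PROOF.md 5.5, 5.6)
-/

set_option autoImplicit false

namespace Pool.Agent.Lib.H11Q

open Complex Set MeasureTheory
open scoped ComplexConjugate Topology

/-- From `L.fin` and `t_bs_lip`: `bs (L.g n) y ≤ bs (L.g n) 0 + hd 0 y`. -/
theorem t09_far (L : LineSys) (x : Disc) :
    ∃ U ∈ 𝓝 x, ∃ N : ℕ, ∀ n, N ≤ n → ∀ y ∈ U, bs (L.g n) (y : Disc) < -L.om := by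
  have hc : Filter.Tendsto (fun y : Disc => hd (o0 : Disc) y) (𝓝 x) (𝓝 (hd (o0 : Disc) x)) :=
    (t_hd_cont o0).tendsto x
  have h1 : ∀ᶠ y : Disc in 𝓝 x, hd (o0 : Disc) y < hd (o0 : Disc) x + 1 :=
    hc.eventually (gt_mem_nhds (by linarith))
  have hfin := L.fin (-L.om - (hd (o0 : Disc) x + 1))
  obtain ⟨N, hN⟩ := hfin.bddAbove
  refine ⟨_, h1, N + 1, fun n hn y hy => ?_⟩
  have h2 : ¬ (-L.om - (hd (o0 : Disc) x + 1) ≤ bs (L.g n) 0) := by
    intro hmem
    have := hN (show n ∈ {n | -L.om - (hd (o0 : Disc) x + 1) ≤ bs (L.g n) 0} from hmem)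
    omega
  push Not at h2
  have h3 := t_bs_lip (L.g n) o0.2 y.2
  have h4 : ((o0 : Disc) : ℂ) = 0 := rfl
  rw [abs_sub_comm] at h3
  have h5 := le_abs_self (bs (L.g n) (y : ℂ) - bs (L.g n) ((o0 : Disc) : ℂ))
  have hy' : hd (o0 : Disc) y < hd (o0 : Disc) x + 1 := hy
  rw [h4] at h3 h5 hy' h2
  linarith

/-- `x_n = (tH n)⁻¹ y`, `x_(n+1) = S_n⁻¹ x_n`.  Let `k_n` be the number of moves before `n`.  Invariant: `k_n = 0` and
`x_n = y`, or there is `j < n` with `-om < bs_j (x_n) ≤ hd 0 y - 4 om k_n`.  A move at `n` gives `-om < bs_n (x_n) =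
bs_n (x_(n+1))`; `L.sep j n`: the second alternative is impossible at `x_n`, the first gives
`bs_n (x_n) ≤ bs_j (x_n) - 4 om`; for `k_n = 0`: `bs_n y ≤ bs_n 0 + hd 0 y ≤ hd 0 y - 4 om`. -/
theorem t09_inv (L : LineSys) (t : ℝ) (y : Disc) :
    ∃ N : ℕ, ∀ n, N ≤ n → (tH L t n).symm y = (tH L t N).symm y := by
  classical
  have hom := L.om_pos
  set x : ℕ → Disc := fun n => (tH L t n).symm y with hx
  set k : ℕ → ℕ := fun n => Nat.rec 0 (fun n r => if x (n + 1) = x n then r else r + 1) n with hk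
  have k0 : k 0 = 0 := rfl
  have kS : ∀ n, k (n + 1) = if x (n + 1) = x n then k n else k n + 1 := fun n => rfl
  have hxS : ∀ n, tL (Real.sinh L.om) t (L.g n) (x (n + 1)) = x n := by
    intro n
    show tL (Real.sinh L.om) t (L.g n) ((tL (Real.sinh L.om) t (L.g n)).symm ((tH L t n).symm y)) = _
    rw [Homeomorph.apply_symm_apply]
  have hb : ∀ n, bs (L.g n) (x n) = bs (L.g n) (x (n + 1)) := by
    intro n
    have := t_bs_tL (Real.sinh L.om) t (L.g n) (x (n + 1))
    rwa [hxS] at this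
  have hmove : ∀ n, x (n + 1) ≠ x n → -L.om < bs (L.g n) (x n) := by
    intro n hn
    by_contra hle
    push Not at hle
    rw [hb] at hle
    have := tL_neg hom t (L.g n) hle
    rw [hxS] at this
    exact hn this.symm
  set D0 : ℝ := hd 0 y with hD0
  have hinv : ∀ n, (k n = 0 ∧ x n = y) ∨
      (∃ j < n, -L.om < bs (L.g j) (x n) ∧ bs (L.g j) (x n) ≤ D0 - 4 * L.om * k n) := by
    intro n
    induction n with
    | zero => exact Or.inl ⟨rfl, rfl⟩
    | succ n ih =>
      by_cases hn : x (n + 1) = x n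
      · have hkn : k (n + 1) = k n := by rw [kS, if_pos hn]
        rw [hkn, hn]
        rcases ih with h | ⟨j, hj, h1, h2⟩
        · exact Or.inl h
        · exact Or.inr ⟨j, by omega, h1, h2⟩
      · right
        have hkn : k (n + 1) = k n + 1 := by rw [kS, if_neg hn]
        have hm := hmove n hn
        refine ⟨n, by omega, by rw [← hb]; exact hm, ?_⟩
        rw [← hb, hkn]
        push_cast
        rcases ih with ⟨h1, h2⟩ | ⟨j, hj, h1, h2⟩
        · rw [h1, h2]
          have h3 := t_bs_lip (L.g n) (z := 0) (w := y) (by simp) y.2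
          rw [abs_sub_comm] at h3
          have h5 := le_abs_self (bs (L.g n) (y : ℂ) - bs (L.g n) 0)
          have h6 := L.neg n
          push_cast
          linarith
        · rcases L.sep j n hj with h3 | h3
          · have := h3 (x n)
            linarith
          · have := h3 (x n)
            linarith
  have hbound : ∀ n, k n ≤ ⌈(D0 + L.om) / (4 * L.om)⌉₊ := by
    intro n
    rcases hinv n with ⟨h1, -⟩ | ⟨j, -, h1, h2⟩
    · rw [h1]
      exact Nat.zero_le _
    · have h3 : (k n : ℝ) ≤ (D0 + L.om) / (4 * L.om) := by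
        rw [le_div_iff₀ (by linarith)]
        linarith
      exact_mod_cast h3.trans (Nat.le_ceil _)
  refine t08_const x k _ hbound fun n => ?_
  by_cases hn : x (n + 1) = x n
  · exact Or.inl ⟨hn, by rw [kS, if_pos hn]⟩
  · exact Or.inr (by rw [kS, if_neg hn])

theorem t09_exists (L : LineSys) (t : ℝ) : ∃ h : Disc ≃ₜ Disc, TLim L t h := by
  have hom := L.om_pos
  refine t08_limit (fun n => tH L t n) (fun x => ?_) (t09_inv L t)
  obtain ⟨U, hU, N, hN⟩ := t09_far L x
  refine ⟨U, hU, N, fun n hn y hy => ?_⟩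
  obtain ⟨m, rfl⟩ := Nat.exists_eq_add_of_le hn
  clear hn
  induction m with
  | zero => rfl
  | succ m ihm =>
    show tH L t (N + m) (tL (Real.sinh L.om) t (L.g (N + m)) y) = _
    rw [tL_neg hom t _ (hN (N + m) (by omega) y hy).le]
    exact ihm

end Pool.Agent.Lib.H11Q
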